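import Mathlib

/-!
# [SCH] assembly: bilateral convolutions
-/

set_option autoImplicit false

namespace SCHA

open Filter Topology

theorem summable_natAbs {q : ℕ → ℝ} (hq : Summable q) : Summable fun i : ℤ => q i.natAbs := by
  apply Summable.of_nat_of_neg_add_one
  · simpa using hq
  · have h := (summable_nat_add_iff 1).2 hq
    refine h.congr fun n => ?_
    congr 1

theorem conv_summable {q u : ℕ → ℝ} (hq : Summable fun k => |q k|) {B : ℝ} (hu : ∀ k, |u k| ≤ B)
    (k : ℕ) : Summable fun i : ℤ => q i.natAbs * u ((k : ℤ) - i).natAbs := by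
  have h := (summable_natAbs hq).mul_right B
  refine Summable.of_norm_bounded h fun i => ?_
  rw [norm_mul, Real.norm_eq_abs, Real.norm_eq_abs]
  exact mul_le_mul_of_nonneg_left (hu _) (abs_nonneg _)

theorem conv_split {q u : ℕ → ℝ} (hq : Summable fun k => |q k|) {B : ℝ} (hu : ∀ k, |u k| ≤ B)
    (k : ℕ) : ∑' i : ℤ, q i.natAbs * u ((k : ℤ) - i).natAbs =
      ∑ i ∈ Finset.range (k + 1), q i * u (k - i) +
      ∑' m : ℕ, (q (k + m + 1) * u (m + 1) + q (m + 1) * u (k + m + 1)) := by
  have hs := conv_summable hq hu k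
  have hs1 : Summable fun n : ℕ => q n * u ((k : ℤ) - n).natAbs := by
    have := hs.comp_injective (i := fun n : ℕ => (n : ℤ)) Nat.cast_injective
    simpa [Function.comp_def] using this
  have e1 : ∀ n : ℕ, q (n : ℤ).natAbs * u ((k : ℤ) - n).natAbs = q n * u ((k : ℤ) - n).natAbs :=
    fun n => by simp
  have e2 : ∀ n : ℕ, q (-((n : ℤ) + 1)).natAbs * u ((k : ℤ) - -((n : ℤ) + 1)).natAbs =
      q (n + 1) * u (k + n + 1) := by
    intro n
    rw [show (-((n : ℤ) + 1)).natAbs = n + 1 by omega,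
      show ((k : ℤ) - -((n : ℤ) + 1)).natAbs = k + n + 1 by omega]
  have hs2 : Summable fun n : ℕ => q (n + 1) * u (k + n + 1) := by
    have := hs.comp_injective (i := fun n : ℕ => -((n : ℤ) + 1)) (fun a b h => by
      simp only [neg_inj, add_left_inj, Nat.cast_inj] at h; exact h)
    refine this.congr fun n => ?_
    simp only [Function.comp_def]
    exact e2 n
  have hs1' : Summable fun n : ℕ => q (n : ℤ).natAbs * u ((k : ℤ) - n).natAbs := by
    simpa using hs1
  have hs2' : Summable fun n : ℕ => q (-((n : ℤ) + 1)).natAbs * u ((k : ℤ) - -((n : ℤ) + 1)).natAbs :=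
    hs2.congr fun n => (e2 n).symm
  have h0 := tsum_of_nat_of_neg_add_one
    (f := fun i : ℤ => q i.natAbs * u ((k : ℤ) - i).natAbs) hs1' hs2'
  rw [h0]
  simp_rw [e1, e2]
  rw [← hs1.sum_add_tsum_nat_add (k + 1)]
  have e3 : ∀ m : ℕ, q (m + (k + 1)) * u ((k : ℤ) - ((m + (k + 1) : ℕ) : ℤ)).natAbs =
      q (k + m + 1) * u (m + 1) := by
    intro m
    rw [show ((k : ℤ) - ((m + (k + 1) : ℕ) : ℤ)).natAbs = m + 1 by push_cast; omega,
      show m + (k + 1) = k + m + 1 by ring]
  have hs3 : Summable fun m : ℕ => q (k + m + 1) * u (m + 1) :=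
    ((summable_nat_add_iff (k + 1)).2 hs1).congr e3
  rw [hs3.tsum_add hs2, add_assoc]
  congr 1
  · apply Finset.sum_congr rfl
    intro i hi
    rw [Finset.mem_range] at hi
    rw [show ((k : ℤ) - (i : ℤ)).natAbs = k - i by omega]
  · congr 1
    exact tsum_congr e3

end SCHA
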