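import Mathlib

/-!
# [SCH] the convolution identity: from the fixed point equations to the equation on the disc
-/

set_option autoImplicit false

open Metric Set MeasureTheory Filter Topology
open scoped RealInnerProductSpace NNReal ComplexConjugate

namespace SCHG

/-- the multiplicity of `k` as `|j|`, `j ∈ ℤ` -/
noncomputable def mul2 (k : ℕ) : ℝ := if k = 0 then 1 else 2

theorem mul2_nonneg (k : ℕ) : 0 ≤ mul2 k := by
  rw [mul2]; split_ifs <;> norm_num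

theorem mul2_le (k : ℕ) : mul2 k ≤ 2 := by
  rw [mul2]; split_ifs <;> norm_num

@[simp] theorem mul2_zero : mul2 0 = 1 := by simp [mul2]

@[simp] theorem mul2_succ (k : ℕ) : mul2 (k + 1) = 2 := by simp [mul2]

/-- summability over `ℤ` of an even sequence -/
theorem summable_natAbs {c : ℕ → ℝ} (hc : Summable fun k => |c k|) :
    Summable fun k : ℤ => |c k.natAbs| := by
  refine Summable.of_nat_of_neg_add_one ?_ ?_
  · simpa using hc
  · have h1 := (summable_nat_add_iff 1).2 hc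
    refine h1.congr fun n => ?_
    have h2 : (-((n : ℤ) + 1)).natAbs = n + 1 := by omega
    rw [h2]

theorem re_unit_pow {e : ℂ} (he : ‖e‖ = 1) (n : ℕ) : ((2 * (e ^ n).re : ℝ) : ℂ) =
    e ^ (n : ℤ) + e ^ (-(n : ℤ)) := by
  have h3 : ‖e ^ n‖ = 1 := by rw [norm_pow, he, one_pow]
  rw [zpow_neg, zpow_natCast, Complex.inv_eq_conj h3, Complex.add_conj]

theorem hnat (n : ℕ) : (-((n : ℤ) + 1)).natAbs = n + 1 := by omega

theorem tsum_even_s1 {c : ℕ → ℝ} (hc : Summable fun k => |c k|) {e : ℂ} (he : ‖e‖ = 1) : Summable fun n : ℕ => (c (n : ℤ).natAbs : ℂ) * e ^ (n : ℤ) := by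
  have hne : ∀ m : ℤ, ‖e ^ m‖ = 1 := fun m => by rw [norm_zpow, he, one_zpow]
  refine Summable.of_norm_bounded hc fun n => ?_
  rw [norm_mul, hne, mul_one, Complex.norm_real, Real.norm_eq_abs, Int.natAbs_natCast]

theorem tsum_even_s2 {c : ℕ → ℝ} (hc : Summable fun k => |c k|) {e : ℂ} (he : ‖e‖ = 1) : 
    Summable fun n : ℕ => (c (-((n : ℤ) + 1)).natAbs : ℂ) * e ^ (-((n : ℤ) + 1)) := by
  have hne : ∀ m : ℤ, ‖e ^ m‖ = 1 := fun m => by rw [norm_zpow, he, one_zpow]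
  have hc1 : Summable fun k => |c (k + 1)| := (summable_nat_add_iff 1).2 hc
  refine Summable.of_norm_bounded hc1 fun n => ?_
  rw [norm_mul, hne, mul_one, Complex.norm_real, Real.norm_eq_abs, hnat]

theorem tsum_even_s3 {c : ℕ → ℝ} (hc : Summable fun k => |c k|) {e : ℂ} (he : ‖e‖ = 1) : 
   Summable fun k : ℕ => mul2 k * c k * (e ^ k).re := by
    refine Summable.of_norm_bounded (hc.mul_left 2) fun k => ?_
    rw [norm_mul, norm_mul, Real.norm_eq_abs, Real.norm_eq_abs, Real.norm_eq_abs,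
      abs_of_nonneg (mul2_nonneg k)]
    have h1 : |(e ^ k).re| ≤ 1 := by
      refine (Complex.abs_re_le_norm _).trans ?_
      rw [norm_pow, he, one_pow]
    calc mul2 k * |c k| * |(e ^ k).re| ≤ 2 * |c k| * 1 := by
          refine mul_le_mul ?_ h1 (abs_nonneg _) (by positivity)
          exact mul_le_mul_of_nonneg_right (mul2_le k) (abs_nonneg _)
      _ = 2 * |c k| := mul_one _

theorem tsum_even_e1 {c : ℕ → ℝ} (hc : Summable fun k => |c k|) {e : ℂ} (he : ‖e‖ = 1) : 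
   ∑' n : ℕ, (c (n : ℤ).natAbs : ℂ) * e ^ (n : ℤ) = (c 0 : ℂ) +
      ∑' n : ℕ, (c (((n + 1 : ℕ)) : ℤ).natAbs : ℂ) * e ^ (((n + 1 : ℕ)) : ℤ) := by
    rw [(tsum_even_s1 hc he).tsum_eq_zero_add]
    congr 1
    rw [Nat.cast_zero, Int.natAbs_zero, zpow_zero, mul_one]

theorem tsum_even_e2 {c : ℕ → ℝ} (hc : Summable fun k => |c k|) {e : ℂ} (he : ‖e‖ = 1) : 
   ∑' k : ℕ, mul2 k * c k * (e ^ k).re = c 0 +
      ∑' k : ℕ, mul2 (k + 1) * c (k + 1) * (e ^ (k + 1)).re := by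
    rw [(tsum_even_s3 hc he).tsum_eq_zero_add]
    congr 1
    rw [mul2_zero, pow_zero, Complex.one_re, mul_one, one_mul]

theorem tsum_even_e3 {c : ℕ → ℝ} {e : ℂ} (he : ‖e‖ = 1) :
  ((∑' k : ℕ, mul2 (k + 1) * c (k + 1) * (e ^ (k + 1)).re : ℝ) : ℂ) =
      ∑' k : ℕ, ((c (((k + 1 : ℕ)) : ℤ).natAbs : ℂ) * e ^ (((k + 1 : ℕ)) : ℤ) +
        (c (-((k : ℤ) + 1)).natAbs : ℂ) * e ^ (-((k : ℤ) + 1))) := by
    rw [Complex.ofReal_tsum]
    refine tsum_congr fun k => ?_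
    have h1 := re_unit_pow he (k + 1)
    have h3 : (((k + 1 : ℕ)) : ℤ).natAbs = k + 1 := by omega
    rw [hnat, h3, mul2_succ]
    push_cast at h1 ⊢
    linear_combination (c (k + 1) : ℂ) * h1
theorem tsum_even_s1' {c : ℕ → ℝ} (hc : Summable fun k => |c k|) {e : ℂ} (he : ‖e‖ = 1) : Summable fun n : ℕ => (c (((n + 1 : ℕ)) : ℤ).natAbs : ℂ) * e ^ (((n + 1 : ℕ)) : ℤ) :=
    (summable_nat_add_iff (f := fun n : ℕ => (c (n : ℤ).natAbs : ℂ) * e ^ (n : ℤ)) 1).2 (tsum_even_s1 hc he)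

/-- a Fourier series with even coefficients -/
theorem tsum_even {c : ℕ → ℝ} (hc : Summable fun k => |c k|) {e : ℂ} (he : ‖e‖ = 1) :
    ∑' k : ℤ, (c k.natAbs : ℂ) * e ^ k = ((∑' k : ℕ, mul2 k * c k * (e ^ k).re : ℝ) : ℂ) := by
  rw [tsum_even_e2 hc he, Complex.ofReal_add, tsum_even_e3 he,
    (tsum_even_s1' hc he).tsum_add (tsum_even_s2 hc he), ← add_assoc, ← tsum_even_e1 hc he]
  exact tsum_of_nat_of_neg_add_one (tsum_even_s1 hc he) (tsum_even_s2 hc he)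
/-- the coefficients of `|f'|²/ρ²` -/
noncomputable def MM (N : ℕ) (φ : ℕ → ℝ) (i : ℕ) (r : ℝ) : ℝ :=
  ∑' j : ℕ, φ j * φ (j + i) * r ^ (N * (2 * j + i))

/-- the bijection `ℤ × ℕ ≃ ℕ × ℕ` by difference and minimum -/
def diffEquiv : ℤ × ℕ ≃ ℕ × ℕ where
  toFun p := (p.2 + p.1.toNat, p.2 + (-p.1).toNat)
  invFun q := ((q.1 : ℤ) - q.2, min q.1 q.2)
  left_inv := by
    rintro ⟨i, m⟩
    ext <;> simp only <;> omega
  right_inv := by
    rintro ⟨a, b⟩
    ext <;> simp only <;> omega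

section conv

variable {N : ℕ} {φ : ℕ → ℝ} (hφ : Summable fun k => |φ k|) {r : ℝ} (hr0 : 0 ≤ r) (hr1 : r ≤ 1)
include hφ hr0 hr1

theorem summable_MMaux (i : ℕ) : Summable fun j : ℕ => |φ j * φ (j + i) * r ^ (N * (2 * j + i))| := by
  have hb : ∀ k, |φ k| ≤ ∑' k, |φ k| := fun k => hφ.le_tsum k fun _ _ => abs_nonneg _
  refine Summable.of_nonneg_of_le (fun _ => abs_nonneg _) (fun j => ?_)
    (hφ.mul_right (∑' k, |φ k|))
  rw [abs_mul, abs_mul, abs_of_nonneg (pow_nonneg hr0 _)]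
  calc |φ j| * |φ (j + i)| * r ^ (N * (2 * j + i)) ≤ |φ j| * |φ (j + i)| * 1 :=
        mul_le_mul_of_nonneg_left (pow_le_one₀ hr0 hr1) (by positivity)
    _ ≤ |φ j| * (∑' k, |φ k|) := by
        rw [mul_one]
        exact mul_le_mul_of_nonneg_left (hb _) (abs_nonneg _)

theorem summable_pairs {e : ℂ} (he : ‖e‖ = 1) : Summable fun q : ℕ × ℕ =>
    ‖((φ q.1 : ℂ) * ((r : ℂ) * e) ^ (N * q.1)) * ((φ q.2 : ℂ) * conj ((r : ℂ) * e) ^ (N * q.2))‖ := by
  refine Summable.mul_norm (f := fun j : ℕ => (φ j : ℂ) * ((r : ℂ) * e) ^ (N * j))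
    (g := fun j : ℕ => (φ j : ℂ) * conj ((r : ℂ) * e) ^ (N * j)) ?_ ?_
  all_goals
    refine Summable.of_nonneg_of_le (fun _ => norm_nonneg _) (fun j => ?_) hφ
    rw [norm_mul, Complex.norm_real, Real.norm_eq_abs, norm_pow]
    refine mul_le_of_le_one_right (abs_nonneg _) (pow_le_one₀ (norm_nonneg _) ?_)
  · rw [norm_mul, he, mul_one, Complex.norm_real, Real.norm_eq_abs, abs_of_nonneg hr0]
    exact hr1
  · rw [RCLike.norm_conj, norm_mul, he, mul_one, Complex.norm_real, Real.norm_eq_abs,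
      abs_of_nonneg hr0]
    exact hr1

omit hφ hr0 hr1 in
theorem pair_term {e : ℂ} (he : ‖e‖ = 1) (p : ℤ × ℕ) :
    ((φ (diffEquiv p).1 : ℂ) * ((r : ℂ) * e) ^ (N * (diffEquiv p).1)) *
      ((φ (diffEquiv p).2 : ℂ) * conj ((r : ℂ) * e) ^ (N * (diffEquiv p).2)) =
    ((φ p.2 * φ (p.2 + p.1.natAbs) * r ^ (N * (2 * p.2 + p.1.natAbs)) : ℝ) : ℂ) * (e ^ N) ^ p.1 := by
  obtain ⟨i, m⟩ := p
  have he0 : e ≠ 0 := by
    rintro rfl
    rw [norm_zero] at he
    norm_num at he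
  have hconj : conj e = e⁻¹ := (Complex.inv_eq_conj he).symm
  have h1 : (diffEquiv (i, m)).1 = m + i.toNat := rfl
  have h2 : (diffEquiv (i, m)).2 = m + (-i).toNat := rfl
  rw [h1, h2, map_mul, Complex.conj_ofReal, hconj]
  simp only
  rcases le_total 0 i with hi | hi
  · obtain ⟨n, rfl⟩ := Int.eq_ofNat_of_zero_le hi
    have h3 : ((n : ℤ)).toNat = n := by omega
    have h4 : (-(n : ℤ)).toNat = 0 := by omega
    have h5 : ((n : ℤ)).natAbs = n := by omega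
    rw [h3, h4, h5, add_zero, zpow_natCast, mul_pow, mul_pow, inv_pow]
    have h6 : e ^ (N * (m + n)) * (e ^ (N * m))⁻¹ = (e ^ N) ^ n := by
      have : e ^ (N * m) ≠ 0 := pow_ne_zero _ he0
      rw [mul_add, pow_add, ← pow_mul]
      field_simp
    push_cast
    have h7 : (r : ℂ) ^ (N * (2 * m + n)) = (r : ℂ) ^ (N * (m + n)) * (r : ℂ) ^ (N * m) := by
      rw [← pow_add]
      congr 1
      ring
    rw [h7, ← h6]
    ring
  · obtain ⟨n, hn⟩ := Int.eq_ofNat_of_zero_le (neg_nonneg.2 hi)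
    obtain rfl : i = -(n : ℤ) := by omega
    have h3 : (-(n : ℤ)).toNat = 0 := by omega
    have h4 : (- -(n : ℤ)).toNat = n := by omega
    have h5 : (-(n : ℤ)).natAbs = n := by omega
    rw [h3, h4, h5, add_zero, zpow_neg, zpow_natCast, mul_pow, mul_pow, inv_pow]
    have h6 : e ^ (N * m) * (e ^ (N * (m + n)))⁻¹ = ((e ^ N) ^ n)⁻¹ := by
      have : e ^ (N * m) ≠ 0 := pow_ne_zero _ he0
      have : e ^ (N * n) ≠ 0 := pow_ne_zero _ he0
      rw [mul_add, pow_add, ← pow_mul]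
      field_simp
    push_cast
    have h7 : (r : ℂ) ^ (N * (2 * m + n)) = (r : ℂ) ^ (N * (m + n)) * (r : ℂ) ^ (N * m) := by
      rw [← pow_add]
      congr 1
      ring
    rw [h7, ← h6]
    ring

theorem summable_MM : Summable fun i : ℕ => |MM N φ i r| := by
  have h0 := summable_pairs (N := N) hφ hr0 hr1 (e := 1) norm_one
  have h1 := (diffEquiv.summable_iff (f := fun q : ℕ × ℕ =>
    ‖((φ q.1 : ℂ) * ((r : ℂ) * 1) ^ (N * q.1)) * ((φ q.2 : ℂ) * conj ((r : ℂ) * 1) ^ (N * q.2))‖)).2 h0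
  have h2 : Summable fun p : ℤ × ℕ =>
      |φ p.2 * φ (p.2 + p.1.natAbs) * r ^ (N * (2 * p.2 + p.1.natAbs))| := by
    refine h1.congr fun p => ?_
    rw [Function.comp_apply, pair_term norm_one, one_pow, one_zpow, mul_one, Complex.norm_real,
      Real.norm_eq_abs]
  have h3 := h2.prod
  have h4 : Summable fun i : ℕ => ∑' j : ℕ, |φ j * φ (j + i) * r ^ (N * (2 * j + i))| := by
    have := h3.comp_injective Nat.cast_injective (i := fun n : ℕ => (n : ℤ))
    refine this.congr fun n => ?_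
    simp
  refine Summable.of_nonneg_of_le (fun _ => abs_nonneg _) (fun i => ?_) h4
  have h5 := summable_MMaux (N := N) hφ hr0 hr1 i
  rw [MM]
  exact norm_tsum_le_tsum_norm (f := fun j : ℕ => φ j * φ (j + i) * r ^ (N * (2 * j + i))) h5

/-- `|∑ φ_k w^(N k)|² = ∑_{i ∈ ℤ} M_|i|(r) e^(i N θ)` -/
theorem normSq_series {e : ℂ} (he : ‖e‖ = 1) :
    ((Complex.normSq (∑' k : ℕ, (φ k : ℂ) * ((r : ℂ) * e) ^ (N * k)) : ℝ) : ℂ) =
      ∑' i : ℤ, (MM N φ i.natAbs r : ℂ) * (e ^ N) ^ i := by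
  have hs : Summable fun j : ℕ => ‖(φ j : ℂ) * ((r : ℂ) * e) ^ (N * j)‖ := by
    refine Summable.of_nonneg_of_le (fun _ => norm_nonneg _) (fun j => ?_) hφ
    rw [norm_mul, Complex.norm_real, Real.norm_eq_abs, norm_pow]
    refine mul_le_of_le_one_right (abs_nonneg _) (pow_le_one₀ (norm_nonneg _) ?_)
    rw [norm_mul, he, mul_one, Complex.norm_real, Real.norm_eq_abs, abs_of_nonneg hr0]
    exact hr1
  have hs' : Summable fun j : ℕ => ‖(φ j : ℂ) * conj ((r : ℂ) * e) ^ (N * j)‖ := by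
    refine hs.congr fun j => ?_
    rw [norm_mul, norm_mul, norm_pow, norm_pow, RCLike.norm_conj]
  have hc : conj (∑' k : ℕ, (φ k : ℂ) * ((r : ℂ) * e) ^ (N * k)) =
      ∑' k : ℕ, (φ k : ℂ) * conj ((r : ℂ) * e) ^ (N * k) := by
    rw [Complex.conj_tsum]
    refine tsum_congr fun k => ?_
    rw [map_mul, map_pow, Complex.conj_ofReal]
  rw [← Complex.mul_conj, hc, tsum_mul_tsum_of_summable_norm hs hs',
    ← diffEquiv.tsum_eq (fun q : ℕ × ℕ => ((φ q.1 : ℂ) * ((r : ℂ) * e) ^ (N * q.1)) *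
      ((φ q.2 : ℂ) * conj ((r : ℂ) * e) ^ (N * q.2)))]
  have h1 : ∀ p : ℤ × ℕ, _ = _ := fun p => pair_term (N := N) (φ := φ) (r := r) he p
  rw [tsum_congr h1]
  have h2 : Summable fun p : ℤ × ℕ =>
      ((φ p.2 * φ (p.2 + p.1.natAbs) * r ^ (N * (2 * p.2 + p.1.natAbs)) : ℝ) : ℂ) *
        (e ^ N) ^ p.1 := by
    have h3 := (diffEquiv.summable_iff (f := fun q : ℕ × ℕ =>
      ((φ q.1 : ℂ) * ((r : ℂ) * e) ^ (N * q.1)) *
        ((φ q.2 : ℂ) * conj ((r : ℂ) * e) ^ (N * q.2)))).2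
      (summable_pairs (N := N) hφ hr0 hr1 he).of_norm
    refine h3.congr fun p => ?_
    rw [Function.comp_apply, pair_term he]
  rw [h2.tsum_prod]
  refine tsum_congr fun i => ?_
  simp only
  rw [tsum_mul_right, MM, Complex.ofReal_tsum]

end conv

/-- the convolution over `ℤ` of two even sequences -/
noncomputable def cv (m u : ℕ → ℝ) (k : ℤ) : ℝ := ∑' i : ℤ, m i.natAbs * u (k - i).natAbs

theorem cv_neg (m u : ℕ → ℝ) (k : ℤ) : cv m u (-k) = cv m u k := by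
  rw [cv, cv, ← (Equiv.neg ℤ).tsum_eq]
  refine tsum_congr fun i => ?_
  have h1 : (-k - (Equiv.neg ℤ) i).natAbs = (k - i).natAbs := by
    rw [Equiv.neg_apply, ← Int.natAbs_neg]
    congr 1
    ring
  rw [h1, Equiv.neg_apply, Int.natAbs_neg]

theorem cv_natAbs (m u : ℕ → ℝ) (k : ℤ) : cv m u (k.natAbs : ℤ) = cv m u k := by
  rcases Int.natAbs_eq k with h | h
  · rw [← h]
  · conv_rhs => rw [h]
    rw [cv_neg]

/-- the bijection `(k, i) ↦ (i, k - i)` -/
def shearEquiv : ℤ × ℤ ≃ ℤ × ℤ where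
  toFun p := (p.2, p.1 - p.2)
  invFun q := (q.1 + q.2, q.1)
  left_inv := by
    rintro ⟨i, m⟩
    ext <;> simp
  right_inv := by
    rintro ⟨a, b⟩
    ext <;> simp

section cv

variable {m u : ℕ → ℝ} (hm : Summable fun k => |m k|) (hu : Summable fun k => |u k|)
include hm hu

theorem summable_cv2 : Summable fun p : ℤ × ℤ => |m p.2.natAbs * u (p.1 - p.2).natAbs| := by
  have h1 : Summable fun q : ℤ × ℤ => ‖m q.1.natAbs * u q.2.natAbs‖ :=
    Summable.mul_norm (f := fun i : ℤ => m i.natAbs) (g := fun i : ℤ => u i.natAbs)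
      (summable_natAbs hm) (summable_natAbs hu)
  exact (shearEquiv.summable_iff (f := fun q : ℤ × ℤ => ‖m q.1.natAbs * u q.2.natAbs‖)).2 h1

theorem summable_cv : Summable fun k : ℕ => |cv m u k| := by
  have h1 := (summable_cv2 hm hu)
  have h2 := h1.prod
  have h3 := h2.comp_injective Nat.cast_injective (i := fun n : ℕ => (n : ℤ))
  refine Summable.of_nonneg_of_le (fun _ => abs_nonneg _) (fun k => ?_) h3
  rw [cv]
  exact norm_tsum_le_tsum_norm (f := fun i : ℤ => m i.natAbs * u ((k : ℤ) - i).natAbs)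
    (h1.prod_factor (k : ℤ))

/-- the product of two Fourier series -/
theorem mul_series {e : ℂ} (he : ‖e‖ = 1) :
    (∑' i : ℤ, (m i.natAbs : ℂ) * e ^ i) * (∑' i : ℤ, (u i.natAbs : ℂ) * e ^ i) =
      ∑' k : ℤ, (cv m u k.natAbs : ℂ) * e ^ k := by
  have hne : ∀ m : ℤ, ‖e ^ m‖ = 1 := fun m => by rw [norm_zpow, he, one_zpow]
  have he0 : e ≠ 0 := by
    rintro rfl
    rw [norm_zero] at he
    norm_num at he
  have s1 : Summable fun i : ℤ => ‖(m i.natAbs : ℂ) * e ^ i‖ := by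
    refine (summable_natAbs hm).congr fun i => ?_
    rw [norm_mul, hne, mul_one, Complex.norm_real, Real.norm_eq_abs]
  have s2 : Summable fun i : ℤ => ‖(u i.natAbs : ℂ) * e ^ i‖ := by
    refine (summable_natAbs hu).congr fun i => ?_
    rw [norm_mul, hne, mul_one, Complex.norm_real, Real.norm_eq_abs]
  rw [tsum_mul_tsum_of_summable_norm s1 s2, ← shearEquiv.tsum_eq (fun q : ℤ × ℤ =>
    (m q.1.natAbs : ℂ) * e ^ q.1 * ((u q.2.natAbs : ℂ) * e ^ q.2))]
  have h1 : ∀ p : ℤ × ℤ, (m (shearEquiv p).1.natAbs : ℂ) * e ^ (shearEquiv p).1 *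
      ((u (shearEquiv p).2.natAbs : ℂ) * e ^ (shearEquiv p).2) =
      ((m p.2.natAbs * u (p.1 - p.2).natAbs : ℝ) : ℂ) * e ^ p.1 := by
    rintro ⟨k, i⟩
    have h2 : (shearEquiv (k, i)).1 = i := rfl
    have h3 : (shearEquiv (k, i)).2 = k - i := rfl
    rw [h2, h3]
    have h4 : e ^ k = e ^ i * e ^ (k - i) := by
      rw [← zpow_add₀ he0]
      congr 1
      ring
    simp only
    rw [h4]
    push_cast
    ring
  rw [tsum_congr h1]
  have h2 : Summable fun p : ℤ × ℤ => ((m p.2.natAbs * u (p.1 - p.2).natAbs : ℝ) : ℂ) * e ^ p.1 := by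
    refine Summable.of_norm ((summable_cv2 hm hu).congr fun p => ?_)
    rw [norm_mul, hne, mul_one, Complex.norm_real, Real.norm_eq_abs]
  rw [h2.tsum_prod]
  refine tsum_congr fun k => ?_
  simp only
  rw [tsum_mul_right, cv_natAbs, cv, Complex.ofReal_tsum]

end cv

end SCHG
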