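import Pool.Agent.MP_83fd13_an.SCH.Asm1
import Pool.Agent.MP_83fd13_an.SCH.Geo13

/-!
# [SCH] assembly: bounds of the coefficients and of the convolution
-/

set_option autoImplicit false

namespace SCHA

open Filter Topology SCHG

/-- `∑ e^(2j) = 1/(1-e²)` -/
theorem hasSum_sq {e : ℝ} (he0 : 0 ≤ e) (he1 : e < 1) :
    HasSum (fun j : ℕ => e ^ (2 * j)) (1 - e ^ 2)⁻¹ := by
  have h := hasSum_geometric_of_lt_one (sq_nonneg e) (by nlinarith : e ^ 2 < 1)
  simpa [pow_mul] using h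

/-- bound of `M_i` -/
theorem MM_abs_le {N : ℕ} {φ : ℕ → ℝ} {C e : ℝ} (he0 : 0 ≤ e) (he1 : e < 1)
    (hφ : ∀ k, |φ k| ≤ C * e ^ k) {r : ℝ} (hr0 : 0 ≤ r) (hr1 : r ≤ 1) (i : ℕ) :
    |MM N φ i r| ≤ C ^ 2 / (1 - e ^ 2) * (e ^ i * r ^ (N * i)) := by
  have hC : 0 ≤ C := by
    have := (abs_nonneg _).trans (hφ 0)
    simpa using this
  have h1 : ∀ j : ℕ, |φ j * φ (j + i) * r ^ (N * (2 * j + i))| ≤
      C ^ 2 * (e ^ i * r ^ (N * i)) * e ^ (2 * j) := by
    intro j
    rw [abs_mul, abs_mul, abs_of_nonneg (pow_nonneg hr0 _)]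
    have h2 : r ^ (N * (2 * j + i)) ≤ r ^ (N * i) :=
      pow_le_pow_of_le_one hr0 hr1 (Nat.mul_le_mul_left N (by omega))
    calc |φ j| * |φ (j + i)| * r ^ (N * (2 * j + i)) ≤
        (C * e ^ j) * (C * e ^ (j + i)) * r ^ (N * i) := by
          gcongr
          · exact hφ j
          · exact hφ (j + i)
      _ = C ^ 2 * (e ^ i * r ^ (N * i)) * e ^ (2 * j) := by
          rw [pow_add, two_mul, pow_add]; ring
  have hs := (hasSum_sq he0 he1).mul_left (C ^ 2 * (e ^ i * r ^ (N * i)))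
  have h3 := tsum_of_norm_bounded (f := fun j : ℕ => φ j * φ (j + i) * r ^ (N * (2 * j + i))) hs
    (fun j => by rw [Real.norm_eq_abs]; exact h1 j)
  rw [Real.norm_eq_abs] at h3
  refine h3.trans (le_of_eq ?_)
  field_simp

/-- bound of the bilateral convolution -/
theorem conv_abs_le {q u : ℕ → ℝ} {Q C e R : ℝ} (he0 : 0 ≤ e) (he1 : e < 1)
    (hR0 : 0 ≤ R) (hR1 : R ≤ 1) (hQ : 0 ≤ Q) (hC : 0 ≤ C)
    (hq : ∀ i, |q i| ≤ Q * (e ^ i * R ^ i)) (hu : ∀ k, |u k| ≤ C * (e ^ k * R ^ (k - 1))) (k : ℕ) :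
    |∑' i : ℤ, q i.natAbs * u ((k : ℤ) - i).natAbs| ≤
      Q * C * ((k : ℝ) + 1 + 2 * (1 - e ^ 2)⁻¹) * (e ^ k * R ^ (k - 1)) := by
  have hqs : Summable fun k => |q k| := by
    refine Summable.of_nonneg_of_le (fun _ => abs_nonneg _) (fun k => ?_)
      ((summable_geometric_of_lt_one he0 he1).mul_left Q)
    refine (hq k).trans ?_
    have : e ^ k * R ^ k ≤ e ^ k := mul_le_of_le_one_right (by positivity) (pow_le_one₀ hR0 hR1)
    gcongr
  have hub : ∀ k, |u k| ≤ C := fun k => (hu k).trans (by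
    have h1 : e ^ k * R ^ (k - 1) ≤ 1 :=
      mul_le_one₀ (pow_le_one₀ he0 he1.le) (by positivity) (pow_le_one₀ hR0 hR1)
    calc C * (e ^ k * R ^ (k - 1)) ≤ C * 1 := by gcongr
      _ = C := mul_one C)
  rw [conv_split hqs hub]
  set P := e ^ k * R ^ (k - 1) with hP
  have hP0 : 0 ≤ P := by positivity
  have h1 : |∑ i ∈ Finset.range (k + 1), q i * u (k - i)| ≤ ((k : ℝ) + 1) * (Q * C * P) := by
    refine (Finset.abs_sum_le_sum_abs _ _).trans ?_
    have h2 : ∀ i ∈ Finset.range (k + 1), |q i * u (k - i)| ≤ Q * C * P := by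
      intro i hi
      rw [Finset.mem_range] at hi
      rw [abs_mul]
      calc |q i| * |u (k - i)| ≤ (Q * (e ^ i * R ^ i)) * (C * (e ^ (k - i) * R ^ (k - i - 1))) :=
            mul_le_mul (hq i) (hu _) (abs_nonneg _) (by positivity)
        _ = Q * C * (e ^ (i + (k - i)) * R ^ (i + (k - i - 1))) := by
            rw [pow_add, pow_add]; ring
        _ ≤ Q * C * P := by
            rw [hP, show i + (k - i) = k by omega]
            have : R ^ (i + (k - i - 1)) ≤ R ^ (k - 1) := pow_le_pow_of_le_one hR0 hR1 (by omega)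
            gcongr
    refine (Finset.sum_le_card_nsmul _ _ _ h2).trans (le_of_eq ?_)
    rw [Finset.card_range, nsmul_eq_mul]
    push_cast
    ring
  have hs := (hasSum_sq he0 he1).mul_left (2 * (Q * C * P))
  have h2 : |∑' m : ℕ, (q (k + m + 1) * u (m + 1) + q (m + 1) * u (k + m + 1))| ≤
      2 * (Q * C * P) * (1 - e ^ 2)⁻¹ := by
    rw [← Real.norm_eq_abs]
    refine tsum_of_norm_bounded hs fun m => ?_
    rw [Real.norm_eq_abs]
    have hle : e ^ (2 * m + 2) ≤ e ^ (2 * m) := pow_le_pow_of_le_one he0 he1.le (by omega)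
    have h3 : |q (k + m + 1) * u (m + 1)| ≤ Q * C * P * e ^ (2 * m) := by
      rw [abs_mul]
      calc |q (k + m + 1)| * |u (m + 1)| ≤ (Q * (e ^ (k + m + 1) * R ^ (k + m + 1))) *
            (C * (e ^ (m + 1) * R ^ (m + 1 - 1))) :=
            mul_le_mul (hq _) (hu _) (abs_nonneg _) (by positivity)
        _ = Q * C * (e ^ k * e ^ (2 * m + 2) * R ^ (k + m + 1 + (m + 1 - 1))) := by
            rw [pow_add R (k + m + 1) (m + 1 - 1), show e ^ (2 * m + 2) = e ^ (m + 1) * e ^ (m + 1) by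
              rw [← pow_add]; congr 1; ring, show k + m + 1 = k + (m + 1) by ring, pow_add e k (m + 1)]
            ring
        _ ≤ Q * C * (e ^ k * e ^ (2 * m) * R ^ (k - 1)) := by
            have : R ^ (k + m + 1 + (m + 1 - 1)) ≤ R ^ (k - 1) :=
              pow_le_pow_of_le_one hR0 hR1 (by omega)
            gcongr
        _ = Q * C * P * e ^ (2 * m) := by rw [hP]; ring
    have h4 : |q (m + 1) * u (k + m + 1)| ≤ Q * C * P * e ^ (2 * m) := by
      rw [abs_mul]
      calc |q (m + 1)| * |u (k + m + 1)| ≤ (Q * (e ^ (m + 1) * R ^ (m + 1))) *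
            (C * (e ^ (k + m + 1) * R ^ (k + m + 1 - 1))) :=
            mul_le_mul (hq _) (hu _) (abs_nonneg _) (by positivity)
        _ = Q * C * (e ^ k * e ^ (2 * m + 2) * R ^ (m + 1 + (k + m + 1 - 1))) := by
            rw [pow_add R (m + 1) (k + m + 1 - 1), show e ^ (2 * m + 2) = e ^ (m + 1) * e ^ (m + 1) by
              rw [← pow_add]; congr 1; ring, show e ^ (k + m + 1) = e ^ k * e ^ (m + 1) by
              rw [← pow_add]; congr 1]
            ring
        _ ≤ Q * C * (e ^ k * e ^ (2 * m) * R ^ (k - 1)) := by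
            have : R ^ (m + 1 + (k + m + 1 - 1)) ≤ R ^ (k - 1) :=
              pow_le_pow_of_le_one hR0 hR1 (by omega)
            gcongr
        _ = Q * C * P * e ^ (2 * m) := by rw [hP]; ring
    calc |q (k + m + 1) * u (m + 1) + q (m + 1) * u (k + m + 1)|
        ≤ Q * C * P * e ^ (2 * m) + Q * C * P * e ^ (2 * m) := (abs_add_le _ _).trans (add_le_add h3 h4)
      _ = 2 * (Q * C * P) * e ^ (2 * m) := by ring
  calc _ ≤ ((k : ℝ) + 1) * (Q * C * P) + 2 * (Q * C * P) * (1 - e ^ 2)⁻¹ :=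
        (abs_add_le _ _).trans (add_le_add h1 h2)
    _ = _ := by ring

end SCHA
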