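import Mathlib

/-!
# [SCH] the building blocks `A(|w|) (w/|w|)^m`
-/

set_option autoImplicit false

open Metric Set MeasureTheory Filter Topology
open scoped RealInnerProductSpace NNReal ComplexConjugate

namespace SCHG

/-- the block `A(|w|) (w/|w|)^m` -/
noncomputable def PB (A : ℝ → ℝ) (m : ℤ) (w : ℂ) : ℂ := (A ‖w‖ : ℂ) * (w / ‖w‖) ^ m

/-- its derivative: `ξ ↦ e^m (α Re(ξ ē) + i β Im(ξ ē))`, `e = w/|w|` -/
noncomputable def PL (w : ℂ) (α β : ℝ) (m : ℤ) : ℂ →L[ℝ] ℂ :=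
  ((w / ‖w‖) ^ m) • ((α : ℂ) • (Complex.ofRealCLM.comp (Complex.reCLM.comp
      ((conj w / ‖w‖) • (1 : ℂ →L[ℝ] ℂ)))) +
    ((β : ℂ) * Complex.I) • (Complex.ofRealCLM.comp (Complex.imCLM.comp
      ((conj w / ‖w‖) • (1 : ℂ →L[ℝ] ℂ)))))

theorem PL_apply (w : ℂ) (α β : ℝ) (m : ℤ) (ξ : ℂ) : PL w α β m ξ =
    (w / ‖w‖) ^ m * (α * ((conj w / ‖w‖ * ξ).re : ℝ) +
      β * Complex.I * ((conj w / ‖w‖ * ξ).im : ℝ)) := rfl

theorem norm_unit {w : ℂ} (hw : w ≠ 0) : ‖w / ‖w‖‖ = 1 := by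
  rw [norm_div, Complex.norm_real, norm_norm, div_self (norm_ne_zero_iff.2 hw)]

theorem norm_unit' {w : ℂ} (hw : w ≠ 0) : ‖conj w / ‖w‖‖ = 1 := by
  rw [norm_div, RCLike.norm_conj, Complex.norm_real, norm_norm,
    div_self (norm_ne_zero_iff.2 hw)]

theorem norm_PL_le {w : ℂ} (hw : w ≠ 0) (α β : ℝ) (m : ℤ) : ‖PL w α β m‖ ≤ |α| + |β| := by
  refine ContinuousLinearMap.opNorm_le_bound _ (by positivity) fun ξ => ?_
  rw [PL_apply, norm_mul, norm_zpow, norm_unit hw, one_zpow, one_mul]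
  refine (norm_add_le _ _).trans ?_
  have h1 : ‖conj w / ‖w‖ * ξ‖ = ‖ξ‖ := by rw [norm_mul, norm_unit' hw, one_mul]
  rw [norm_mul, norm_mul, norm_mul, Complex.norm_real, Complex.norm_real, Complex.norm_real,
    Complex.norm_real, Complex.norm_I, mul_one, Real.norm_eq_abs, Real.norm_eq_abs,
    Real.norm_eq_abs, Real.norm_eq_abs, add_mul]
  have h2 := (Complex.abs_re_le_norm (conj w / ‖w‖ * ξ)).trans_eq h1
  have h3 := (Complex.abs_im_le_norm (conj w / ‖w‖ * ξ)).trans_eq h1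
  exact add_le_add (mul_le_mul_of_nonneg_left h2 (abs_nonneg _))
    (mul_le_mul_of_nonneg_left h3 (abs_nonneg _))

/-- the derivative of the norm -/
theorem hasFDerivAt_nrm {w : ℂ} (hw : w ≠ 0) :
    HasFDerivAt (fun z : ℂ => ‖z‖) (‖w‖⁻¹ • innerSL ℝ w) w := by
  have h0 : ‖w‖ ≠ 0 := norm_ne_zero_iff.2 hw
  have h1 : HasFDerivAt (fun z : ℂ => ‖z‖ ^ 2) (2 • innerSL ℝ w) w :=
    (hasStrictFDerivAt_norm_sq w).hasFDerivAt
  have h2 := h1.sqrt (by positivity)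
  have h3 : (fun z : ℂ => ‖z‖) = fun z : ℂ => √(‖z‖ ^ 2) := by
    funext z
    rw [Real.sqrt_sq (norm_nonneg _)]
  rw [h3]
  refine h2.congr_fderiv ?_
  rw [Real.sqrt_sq (norm_nonneg _)]
  ext1 ξ
  simp only [smul_apply, smul_eq_mul, nsmul_eq_mul, innerSL_apply_apply, Nat.cast_ofNat]
  field_simp

theorem inner_eq (w ξ : ℂ) : ⟪w, ξ⟫ = (conj w * ξ).re := by
  rw [Complex.inner, mul_comm]

/-- the derivative of `w/|w|` -/
theorem hasFDerivAt_unit {w : ℂ} (hw : w ≠ 0) :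
    HasFDerivAt (fun z : ℂ => z / ‖z‖) (PL w 0 (1 / ‖w‖) 1) w := by
  have h0 : ‖w‖ ≠ 0 := norm_ne_zero_iff.2 hw
  have h0C : (‖w‖ : ℂ) ≠ 0 := by exact_mod_cast h0
  have h1 : HasFDerivAt (fun z : ℂ => ((‖z‖⁻¹ : ℝ) : ℂ))
      (Complex.ofRealCLM.comp ((-(‖w‖ ^ 2)⁻¹) • (‖w‖⁻¹ • innerSL ℝ w))) w :=
    (Complex.ofRealCLM.hasFDerivAt).comp w ((hasDerivAt_inv h0).comp_hasFDerivAt w
      (hasFDerivAt_nrm hw))
  have h2' := (hasFDerivAt_id (𝕜 := ℝ) w).mul h1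
  have h2 : HasFDerivAt (fun z : ℂ => z / ‖z‖) _ w :=
    h2'.congr_of_eventuallyEq (Eventually.of_forall fun z => by
      simp only [id_eq, Pi.mul_apply, Complex.ofReal_inv, div_eq_mul_inv])
  refine h2.congr_fderiv ?_
  ext1 ξ
  rw [PL_apply]
  have h3 : (‖w‖ : ℂ) ^ 2 = w * conj w := by
    rw [Complex.mul_conj, Complex.normSq_eq_norm_sq]
    push_cast
    rfl
  have h4 : ((conj w / ‖w‖ * ξ).im : ℂ) * Complex.I = conj w / ‖w‖ * ξ -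
      ((conj w / ‖w‖ * ξ).re : ℂ) := by
    have := Complex.re_add_im (conj w / ‖w‖ * ξ)
    linear_combination this
  have h5 : ((conj w / ‖w‖ * ξ).re : ℝ) = ‖w‖⁻¹ * ⟪w, ξ⟫ := by
    rw [inner_eq]
    have : conj w / ‖w‖ * ξ = ((‖w‖⁻¹ : ℝ) : ℂ) * (conj w * ξ) := by
      push_cast
      field_simp
    rw [this, Complex.re_ofReal_mul]
  have h6 : w / ‖w‖ * (((1 / ‖w‖ : ℝ) : ℂ) * Complex.I * ((conj w / ‖w‖ * ξ).im : ℝ)) =
      w / ‖w‖ * ((1 / ‖w‖ : ℝ) : ℂ) * (conj w / ‖w‖ * ξ - ((conj w / ‖w‖ * ξ).re : ℂ)) := by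
    rw [← h4]
    ring
  rw [zpow_one, Complex.ofReal_zero, zero_mul, zero_add, h6, h5]
  simp only [id_eq, add_apply, smul_apply,
    ContinuousLinearMap.comp_apply, ContinuousLinearMap.id_apply, smul_eq_mul,
    innerSL_apply_apply, Complex.ofRealCLM_apply]
  push_cast
  field_simp
  rw [h3]
  ring

/-- **The derivative of a block.** -/
theorem hasFDerivAt_PB {A : ℝ → ℝ} {A' : ℝ} {w : ℂ} (hw : w ≠ 0) (hA : HasDerivAt A A' ‖w‖)
    (m : ℤ) : HasFDerivAt (PB A m) (PL w A' (m * A ‖w‖ / ‖w‖) m) w := by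
  have h0 : ‖w‖ ≠ 0 := norm_ne_zero_iff.2 hw
  have h0C : (‖w‖ : ℂ) ≠ 0 := by exact_mod_cast h0
  have he : w / ‖w‖ ≠ 0 := div_ne_zero hw h0C
  have h1 : HasFDerivAt (fun z : ℂ => (A ‖z‖ : ℂ))
      (Complex.ofRealCLM.comp (A' • (‖w‖⁻¹ • innerSL ℝ w))) w :=
    (Complex.ofRealCLM.hasFDerivAt).comp w (hA.comp_hasFDerivAt w (hasFDerivAt_nrm hw))
  have h2 : HasFDerivAt (fun z : ℂ => (z / ‖z‖) ^ m)
      (((m : ℂ) * (w / ‖w‖) ^ (m - 1)) • PL w 0 (1 / ‖w‖) 1) w := by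
    have h3 := (hasDerivAt_zpow m (w / ‖w‖) (Or.inl he)).complexToReal_fderiv
    have h4 := h3.comp w (hasFDerivAt_unit hw)
    refine h4.congr_fderiv ?_
    ext1 ξ
    rfl
  refine (h1.mul h2).congr_fderiv ?_
  ext1 ξ
  simp only [add_apply, smul_apply,
    ContinuousLinearMap.comp_apply, smul_eq_mul, innerSL_apply_apply, Complex.ofRealCLM_apply,
    PL_apply]
  have h5 : ((conj w / ‖w‖ * ξ).re : ℝ) = ‖w‖⁻¹ * ⟪w, ξ⟫ := by
    rw [inner_eq]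
    have : conj w / ‖w‖ * ξ = ((‖w‖⁻¹ : ℝ) : ℂ) * (conj w * ξ) := by
      push_cast
      field_simp
    rw [this, Complex.re_ofReal_mul]
  have h6 : (w / ‖w‖) ^ (m - 1) * (w / ‖w‖) = (w / ‖w‖) ^ m := by
    rw [← zpow_add_one₀ he, sub_add_cancel]
  rw [h5, zpow_one]
  push_cast
  linear_combination (A ‖w‖ : ℂ) * m * (1 / ‖w‖ * Complex.I * ((conj w / ‖w‖ * ξ).im : ℝ)) * h6

/-- the divergence of a block -/
theorem div_PL (w : ℂ) (hw : w ≠ 0) (α β : ℝ) (m : ℤ) :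
    (PL w α β m 1).re + (PL w α β m Complex.I).im = (α + β) * ((w / ‖w‖) ^ (m - 1)).re := by
  have h0C : (‖w‖ : ℂ) ≠ 0 := by exact_mod_cast norm_ne_zero_iff.2 hw
  have he : w / ‖w‖ ≠ 0 := div_ne_zero hw h0C
  have h1 : (w / ‖w‖) ^ (m - 1) = (w / ‖w‖) ^ m * (conj w / ‖w‖) := by
    rw [zpow_sub_one₀ he]
    congr 1
    rw [inv_div, div_eq_div_iff hw h0C, mul_comm (conj w), Complex.mul_conj,
      Complex.normSq_eq_norm_sq]
    push_cast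
    ring
  rw [h1, PL_apply, PL_apply]
  set E := (w / ‖w‖) ^ m with hE
  set e := conj w / ‖w‖ with he'
  simp only [Complex.mul_re, Complex.mul_im, Complex.add_re, Complex.add_im, Complex.ofReal_re,
    Complex.ofReal_im, Complex.I_re, Complex.I_im, mul_one]
  ring

end SCHG
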