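import Pool.Agent.MP_83fd13_an.SCH.Geo5
import Pool.Agent.MP_83fd13_an.SCH.Geo9

/-!
# [SCH] one mode
-/

set_option autoImplicit false

open Metric Set MeasureTheory Filter Topology
open scoped RealInnerProductSpace NNReal ComplexConjugate

namespace SCHG

section punctured

variable {E : Type*} [NormedAddCommGroup E] [NormedSpace ℝ E]

theorem lip_segment {g : ℂ → E} {g' : ℂ → ℂ →L[ℝ] E} {R C : ℝ}
    (hd : ∀ w ∈ ball (0 : ℂ) R, w ≠ 0 → HasFDerivAt g (g' w) w)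
    (hC : ∀ w ∈ ball (0 : ℂ) R, w ≠ 0 → ‖g' w‖ ≤ C) {z w : ℂ} (hz : z ∈ ball (0 : ℂ) R)
    (hw : w ∈ ball (0 : ℂ) R) (h0 : (0 : ℂ) ∉ segment ℝ z w) : ‖g w - g z‖ ≤ C * ‖w - z‖ := by
  have hsub : segment ℝ z w ⊆ ball (0 : ℂ) R := (convex_ball (0 : ℂ) R).segment_subset hz hw
  refine (convex_segment z w).norm_image_sub_le_of_norm_hasFDerivWithin_le (f' := g') ?_ ?_
    (left_mem_segment ℝ z w) (right_mem_segment ℝ z w)
  · intro x hx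
    exact (hd x (hsub hx) (fun h => h0 (h ▸ hx))).hasFDerivWithinAt
  · intro x hx
    exact hC x (hsub hx) (fun h => h0 (h ▸ hx))

theorem lip_radial {g : ℂ → E} {g' : ℂ → ℂ →L[ℝ] E} {R C : ℝ} (hC0 : 0 ≤ C)
    (hc : ContinuousOn g (ball 0 R))
    (hd : ∀ w ∈ ball (0 : ℂ) R, w ≠ 0 → HasFDerivAt g (g' w) w)
    (hC : ∀ w ∈ ball (0 : ℂ) R, w ≠ 0 → ‖g' w‖ ≤ C) {z : ℂ} (hz : z ∈ ball (0 : ℂ) R) :
    ‖g z - g 0‖ ≤ C * ‖z‖ := by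
  rcases eq_or_ne z 0 with rfl | hz0
  · simp
  have hzR := mem_ball_zero_iff.1 hz
  have h0 : (0 : ℂ) ∈ ball (0 : ℂ) R := mem_ball_self ((norm_nonneg z).trans_lt hzR)
  have hmem : ∀ t ∈ Ioo (0 : ℝ) 1, (t : ℂ) * z ∈ ball (0 : ℂ) R := by
    intro t ht
    rw [mem_ball_zero_iff, norm_mul, Complex.norm_real, Real.norm_eq_abs, abs_of_pos ht.1]
    calc t * ‖z‖ ≤ 1 * ‖z‖ := mul_le_mul_of_nonneg_right ht.2.le (norm_nonneg _)
      _ < R := by rwa [one_mul]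
  have h1 : ∀ t ∈ Ioo (0 : ℝ) 1, ‖g z - g (t * z)‖ ≤ C * ‖z‖ := by
    intro t ht
    have hseg : (0 : ℂ) ∉ segment ℝ ((t : ℂ) * z) z := by
      rw [segment_eq_image]
      rintro ⟨s, hs, h⟩
      have h2 : ((1 - s) * t + s : ℝ) • z = 0 := by
        rw [← h]
        simp only [smul_eq_ofReal_mul]
        push_cast
        ring
      rcases smul_eq_zero.1 h2 with h3 | h3
      · have h4 : 0 ≤ (1 - s) * t := mul_nonneg (by linarith [hs.2]) ht.1.le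
        have h5 : s = 0 := by linarith [hs.1]
        rw [h5] at h3
        linarith [ht.1]
      · exact hz0 h3
    refine (lip_segment hd hC (hmem t ht) hz hseg).trans ?_
    refine mul_le_mul_of_nonneg_left ?_ hC0
    have h2 : z - t * z = ((1 - t : ℝ) : ℂ) * z := by push_cast; ring
    rw [h2, norm_mul, Complex.norm_real, Real.norm_eq_abs, abs_of_pos (by linarith [ht.2])]
    calc (1 - t) * ‖z‖ ≤ 1 * ‖z‖ := mul_le_mul_of_nonneg_right (by linarith [ht.1]) (norm_nonneg _)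
      _ = ‖z‖ := one_mul _
  have hlim : Tendsto (fun t : ℝ => ‖g z - g (t * z)‖) (𝓝[>] 0) (𝓝 ‖g z - g 0‖) := by
    have h2 : Tendsto (fun t : ℝ => (t : ℂ) * z) (𝓝[>] 0) (𝓝[ball 0 R] 0) := by
      rw [tendsto_nhdsWithin_iff]
      constructor
      · have h3 : Continuous fun t : ℝ => (t : ℂ) * z := by fun_prop
        have h4 := (h3.tendsto 0).mono_left (nhdsWithin_le_nhds (s := Ioi 0))
        simpa using h4
      · filter_upwards [Ioo_mem_nhdsGT one_pos] with t ht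
        exact hmem t ht
    exact (tendsto_const_nhds.sub ((hc 0 h0).tendsto.comp h2)).norm
  refine le_of_tendsto hlim ?_
  filter_upwards [Ioo_mem_nhdsGT one_pos] with t ht
  exact h1 t ht

theorem lip_ball {g : ℂ → E} {g' : ℂ → ℂ →L[ℝ] E} {R C : ℝ} (hC0 : 0 ≤ C)
    (hc : ContinuousOn g (ball 0 R))
    (hd : ∀ w ∈ ball (0 : ℂ) R, w ≠ 0 → HasFDerivAt g (g' w) w)
    (hC : ∀ w ∈ ball (0 : ℂ) R, w ≠ 0 → ‖g' w‖ ≤ C) {z w : ℂ} (hz : z ∈ ball (0 : ℂ) R)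
    (hw : w ∈ ball (0 : ℂ) R) : ‖g z - g w‖ ≤ C * ‖z - w‖ := by
  by_cases h0 : (0 : ℂ) ∈ segment ℝ z w
  · have h1 := dist_add_dist_of_mem_segment h0
    rw [dist_zero_right, dist_zero_left, dist_eq_norm] at h1
    rw [← h1]
    have h2 := lip_radial hC0 hc hd hC hz
    have h3 := lip_radial hC0 hc hd hC hw
    have h4 : g z - g w = (g z - g 0) - (g w - g 0) := by abel
    rw [h4]
    exact (norm_sub_le _ _).trans (by linarith)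
  · rw [segment_symm] at h0
    exact lip_segment hd hC hw hz h0

/-- a function continuous on the closed disc with bounded derivative off the origin is Lipschitz -/
theorem lip_punctured {g : ℂ → E} {g' : ℂ → ℂ →L[ℝ] E} {C : ℝ} (hC0 : 0 ≤ C)
    (hc : ContinuousOn g (closedBall 0 1))
    (hd : ∀ w ∈ ball (0 : ℂ) 1, w ≠ 0 → HasFDerivAt g (g' w) w)
    (hC : ∀ w ∈ ball (0 : ℂ) 1, w ≠ 0 → ‖g' w‖ ≤ C) :
    LipschitzOnWith (Real.toNNReal C) g (closedBall 0 1) := by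
  have h1 : LipschitzOnWith (Real.toNNReal C) g (ball 0 1) := by
    refine LipschitzOnWith.of_dist_le_mul fun z hz w hw => ?_
    rw [Real.coe_toNNReal _ hC0, dist_eq_norm, dist_eq_norm]
    exact lip_ball hC0 (hc.mono ball_subset_closedBall) hd hC hz hw
  have h2 : closure (ball (0 : ℂ) 1) = closedBall 0 1 := closure_ball _ one_ne_zero
  have h3 := LipschitzOnWith.closure (by rw [h2]; exact hc) h1
  rwa [h2] at h3

end punctured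

/-- the function of one mode -/
noncomputable def Um (a : ℝ → ℝ) (n : ℕ) (w : ℂ) : ℝ := (PB a n w).re

/-- the gradient of one mode -/
noncomputable def Gm (a a' : ℝ → ℝ) (n : ℕ) (w : ℂ) : ℂ :=
  PB (fun r => (a' r - n * a r / r) / 2) (n + 1) w + PB (fun r => (a' r + n * a r / r) / 2) (1 - n) w

/-- the derivative of the gradient -/
noncomputable def Lm (a a' a'' : ℝ → ℝ) (n : ℕ) (w : ℂ) : ℂ →L[ℝ] ℂ :=
  PL w ((a'' ‖w‖ - n * (a' ‖w‖ / ‖w‖ - a ‖w‖ / ‖w‖ ^ 2)) / 2)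
    ((n + 1) * ((a' ‖w‖ - n * a ‖w‖ / ‖w‖) / 2) / ‖w‖) (n + 1) +
  PL w ((a'' ‖w‖ + n * (a' ‖w‖ / ‖w‖ - a ‖w‖ / ‖w‖ ^ 2)) / 2)
    ((1 - n) * ((a' ‖w‖ + n * a ‖w‖ / ‖w‖) / 2) / ‖w‖) (1 - n)

/-- the data of one mode -/
structure Mode (a a' a'' : ℝ → ℝ) (n : ℕ) (M : ℝ) : Prop where
  d1 : ∀ r ∈ Ioo (0 : ℝ) 1, HasDerivAt a (a' r) r
  d2 : ∀ r ∈ Ioo (0 : ℝ) 1, HasDerivAt a' (a'' r) r
  c0 : ContinuousOn a (Icc 0 1)
  c1 : ContinuousOn a' (Ioc 0 1)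
  z0 : 0 < n → a 0 = 0
  z1 : a' 0 = 0
  b0 : ∀ r ∈ Icc (0 : ℝ) 1, |a r| ≤ M
  b2 : ∀ r ∈ Ioc (0 : ℝ) 1, |a'' r| ≤ M
  b1 : ∀ r ∈ Ioc (0 : ℝ) 1, (n + 1) * |a' r| ≤ M * r
  b3 : ∀ r ∈ Ioc (0 : ℝ) 1, n ^ 2 * |a r| ≤ M * r ^ 2

variable {a a' a'' : ℝ → ℝ} {n : ℕ} {M : ℝ} (H : Mode a a' a'' n M)

theorem norm_mem_Ioo {w : ℂ} (hw : w ∈ ball (0 : ℂ) 1) (hw0 : w ≠ 0) : ‖w‖ ∈ Ioo (0 : ℝ) 1 :=
  ⟨norm_pos_iff.2 hw0, mem_ball_zero_iff.1 hw⟩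

theorem norm_PB_le (A : ℝ → ℝ) (m : ℤ) (w : ℂ) (hw : w ≠ 0) : ‖PB A m w‖ = |A ‖w‖| := by
  rw [PB, norm_mul, norm_zpow, norm_unit hw, one_zpow, mul_one, Complex.norm_real,
    Real.norm_eq_abs]

include H

theorem Mode.M_nonneg : 0 ≤ M := (abs_nonneg _).trans (H.b0 0 (by simp))

theorem Mode.hasFDerivAt_Um {w : ℂ} (hw : w ∈ ball (0 : ℂ) 1) (hw0 : w ≠ 0) :
    HasFDerivAt (Um a n) (innerSL ℝ (Gm a a' n w)) w := by
  have hr := norm_mem_Ioo hw hw0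
  have h0C : (‖w‖ : ℂ) ≠ 0 := by exact_mod_cast hr.1.ne'
  have he : w / ‖w‖ ≠ 0 := div_ne_zero hw0 h0C
  have h1 := (Complex.reCLM.hasFDerivAt (x := PB a n w)).comp w
    (hasFDerivAt_PB hw0 (H.d1 _ hr) (n : ℤ))
  refine h1.congr_fderiv ?_
  ext1 ξ
  rw [innerSL_apply_apply, inner_eq, ContinuousLinearMap.comp_apply, PL_apply, Gm, PB, PB]
  have e1 : (w / ‖w‖) ^ ((n : ℤ) + 1) = (w / ‖w‖) ^ (n : ℤ) * (w / ‖w‖) := zpow_add_one₀ he _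
  have e2 : (w / ‖w‖) ^ (1 - (n : ℤ)) = (w / ‖w‖) * conj ((w / ‖w‖) ^ (n : ℤ)) := by
    rw [sub_eq_add_neg, zpow_one_add₀ he, zpow_neg]
    congr 1
    have h3 : ‖(w / ‖w‖) ^ (n : ℤ)‖ = 1 := by rw [norm_zpow, norm_unit hw0, one_zpow]
    exact (Complex.inv_eq_conj h3)
  have e3 : conj (w / ‖w‖) = conj w / ‖w‖ := by rw [map_div₀, Complex.conj_ofReal]
  have e4 : conj ((((a' ‖w‖ - n * a ‖w‖ / ‖w‖) / 2 : ℝ) : ℂ) * (w / ‖w‖) ^ ((n : ℤ) + 1) +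
      (((a' ‖w‖ + n * a ‖w‖ / ‖w‖) / 2 : ℝ) : ℂ) * (w / ‖w‖) ^ (1 - (n : ℤ))) * ξ =
      ((((a' ‖w‖ - n * a ‖w‖ / ‖w‖) / 2 : ℝ) : ℂ) * conj ((w / ‖w‖) ^ (n : ℤ)) +
      (((a' ‖w‖ + n * a ‖w‖ / ‖w‖) / 2 : ℝ) : ℂ) * (w / ‖w‖) ^ (n : ℤ)) * (conj w / ‖w‖ * ξ) := by
    rw [e1, e2, map_add, map_mul, map_mul, map_mul, map_mul, e3, Complex.conj_conj,
      Complex.conj_ofReal, Complex.conj_ofReal]
    ring
  rw [e4, Complex.reCLM_apply]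
  set P := (w / ‖w‖) ^ (n : ℤ) with hP
  set Q := conj w / ‖w‖ * ξ with hQ
  simp only [Complex.mul_re, Complex.mul_im, Complex.add_re, Complex.add_im, Complex.ofReal_re,
    Complex.ofReal_im, Complex.I_re, Complex.I_im, Complex.conj_re, Complex.conj_im]
  push_cast
  ring

theorem Mode.hasFDerivAt_Gm {w : ℂ} (hw : w ∈ ball (0 : ℂ) 1) (hw0 : w ≠ 0) :
    HasFDerivAt (Gm a a' n) (Lm a a' a'' n w) w := by
  have hr := norm_mem_Ioo hw hw0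
  have hr0 : ‖w‖ ≠ 0 := hr.1.ne'
  have h1 : HasDerivAt (fun r => n * a r / r) (n * (a' ‖w‖ / ‖w‖ - a ‖w‖ / ‖w‖ ^ 2)) ‖w‖ := by
    have := ((H.d1 _ hr).const_mul (n : ℝ)).fun_div (hasDerivAt_id ‖w‖) hr0
    refine this.congr_deriv ?_
    simp only [id_eq]
    field_simp
  have h2 : HasDerivAt (fun r => (a' r - n * a r / r) / 2)
      ((a'' ‖w‖ - n * (a' ‖w‖ / ‖w‖ - a ‖w‖ / ‖w‖ ^ 2)) / 2) ‖w‖ :=
    ((H.d2 _ hr).sub h1).div_const 2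
  have h3 : HasDerivAt (fun r => (a' r + n * a r / r) / 2)
      ((a'' ‖w‖ + n * (a' ‖w‖ / ‖w‖ - a ‖w‖ / ‖w‖ ^ 2)) / 2) ‖w‖ :=
    ((H.d2 _ hr).add h1).div_const 2
  have h4 := (hasFDerivAt_PB hw0 h2 ((n : ℤ) + 1)).add (hasFDerivAt_PB hw0 h3 (1 - (n : ℤ)))
  refine h4.congr_fderiv ?_
  rw [Lm]
  push_cast
  rfl

theorem Mode.norm_Lm_le {w : ℂ} (hw : w ∈ ball (0 : ℂ) 1) (hw0 : w ≠ 0) :
    ‖Lm a a' a'' n w‖ ≤ 6 * M := by
  have hr := norm_mem_Ioo hw hw0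
  have hrc : ‖w‖ ∈ Ioc (0 : ℝ) 1 := ⟨hr.1, hr.2.le⟩
  set r := ‖w‖ with hrdef
  have hr0 := hr.1
  have hM := H.M_nonneg
  have b1 := H.b1 r hrc
  have b2 := H.b2 r hrc
  have b3 := H.b3 r hrc
  have hn0 : (0 : ℝ) ≤ n := Nat.cast_nonneg n
  -- the three quantities
  obtain ⟨s, hs⟩ : ∃ s, s = |a' r| / r := ⟨_, rfl⟩
  obtain ⟨t, ht⟩ : ∃ t, t = |a r| / r ^ 2 := ⟨_, rfl⟩
  have hs0 : 0 ≤ s := by rw [hs]; positivity
  have ht0 : 0 ≤ t := by rw [ht]; positivity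
  have hs1 : (n + 1) * s ≤ M := by
    rw [hs, ← mul_div_assoc, div_le_iff₀ hr0]
    exact b1
  have ht1 : n ^ 2 * t ≤ M := by
    rw [ht, ← mul_div_assoc, div_le_iff₀ (by positivity)]
    exact b3
  have ht2 : n * t ≤ n ^ 2 * t := by
    refine mul_le_mul_of_nonneg_right ?_ ht0
    rcases Nat.eq_zero_or_pos n with h | h
    · rw [h]; simp
    · have : (1 : ℝ) ≤ n := by exact_mod_cast h
      nlinarith
  have hA : |n * (a' r / r - a r / r ^ 2)| ≤ n * s + n * t := by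
    rw [abs_mul, abs_of_nonneg hn0, ← mul_add]
    refine mul_le_mul_of_nonneg_left ?_ hn0
    refine (abs_sub _ _).trans ?_
    rw [abs_div, abs_div, abs_of_pos hr0, abs_of_pos (by positivity : 0 < r ^ 2), hs, ht]
  have hB : ∀ x : ℝ, x = a' r - n * a r / r ∨ x = a' r + n * a r / r →
      |x / 2 / r| ≤ (s + n * t) / 2 := by
    intro x hx
    have h1 : |x| ≤ |a' r| + n * |a r| / r := by
      have h2 : |n * a r / r| = n * |a r| / r := by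
        rw [abs_div, abs_mul, abs_of_nonneg hn0, abs_of_pos hr0]
      rcases hx with rfl | rfl
      · exact (abs_sub _ _).trans (by rw [h2])
      · exact (abs_add_le _ _).trans (by rw [h2])
    rw [abs_div, abs_div, abs_of_pos hr0, abs_two, div_div, div_le_iff₀ (by positivity)]
    have h3 : (s + n * t) / 2 * (2 * r) = |a' r| + n * |a r| / r := by
      rw [hs, ht]
      field_simp
    rw [h3]
    exact h1
  rw [Lm]
  refine (norm_add_le _ _).trans ?_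
  refine (add_le_add (norm_PL_le hw0 _ _ _) (norm_PL_le hw0 _ _ _)).trans ?_
  rw [← hrdef]
  have c1 : |(a'' r - n * (a' r / r - a r / r ^ 2)) / 2| ≤ (M + (n * s + n * t)) / 2 := by
    rw [abs_div, abs_two]
    refine div_le_div_of_nonneg_right ?_ (by norm_num)
    exact (abs_sub _ _).trans (add_le_add b2 hA)
  have c2 : |(a'' r + n * (a' r / r - a r / r ^ 2)) / 2| ≤ (M + (n * s + n * t)) / 2 := by
    rw [abs_div, abs_two]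
    refine div_le_div_of_nonneg_right ?_ (by norm_num)
    exact (abs_add_le _ _).trans (add_le_add b2 hA)
  have c3 : |((n : ℝ) + 1) * ((a' r - n * a r / r) / 2) / r| ≤ (n + 1) * ((s + n * t) / 2) := by
    rw [mul_div_assoc, abs_mul, abs_of_nonneg (by positivity : (0 : ℝ) ≤ (n : ℝ) + 1)]
    exact mul_le_mul_of_nonneg_left (hB _ (Or.inl rfl)) (by positivity)
  have c4 : |((1 : ℝ) - n) * ((a' r + n * a r / r) / 2) / r| ≤ (n + 1) * ((s + n * t) / 2) := by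
    rw [mul_div_assoc, abs_mul]
    refine mul_le_mul ?_ (hB _ (Or.inr rfl)) (abs_nonneg _) (by positivity)
    exact (abs_sub _ _).trans (by rw [abs_one, abs_of_nonneg hn0]; linarith)
  have c5 : (n + 1) * (s + n * t) = (n + 1) * s + (n ^ 2 * t + n * t) := by ring
  have c6 : n * s ≤ (n + 1) * s := by nlinarith
  linarith

omit H in
theorem div_Lm (a a' a'' : ℝ → ℝ) (n : ℕ) {w : ℂ} (hw0 : w ≠ 0) :
    (Lm a a' a'' n w 1).re + (Lm a a' a'' n w Complex.I).im =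
      (a'' ‖w‖ + a' ‖w‖ / ‖w‖ - n ^ 2 * a ‖w‖ / ‖w‖ ^ 2) * ((w / ‖w‖) ^ n).re := by
  have hr0 : ‖w‖ ≠ 0 := norm_ne_zero_iff.2 hw0
  rw [Lm, add_apply, add_apply, Complex.add_re, Complex.add_im]
  have h1 := div_PL w hw0 ((a'' ‖w‖ - n * (a' ‖w‖ / ‖w‖ - a ‖w‖ / ‖w‖ ^ 2)) / 2)
    ((n + 1) * ((a' ‖w‖ - n * a ‖w‖ / ‖w‖) / 2) / ‖w‖) (n + 1)
  have h2 := div_PL w hw0 ((a'' ‖w‖ + n * (a' ‖w‖ / ‖w‖ - a ‖w‖ / ‖w‖ ^ 2)) / 2)
    ((1 - n) * ((a' ‖w‖ + n * a ‖w‖ / ‖w‖) / 2) / ‖w‖) (1 - n)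
  have e1 : ((w / ‖w‖) ^ ((n : ℤ) + 1 - 1)).re = ((w / ‖w‖) ^ n).re := by
    rw [add_sub_cancel_right, zpow_natCast]
  have e2 : ((w / ‖w‖) ^ (1 - (n : ℤ) - 1)).re = ((w / ‖w‖) ^ n).re := by
    have h3 : (1 - (n : ℤ) - 1) = -n := by ring
    have h4 : ‖(w / ‖w‖) ^ n‖ = 1 := by rw [norm_pow, norm_unit hw0, one_pow]
    rw [h3, zpow_neg, zpow_natCast, Complex.inv_eq_conj h4, Complex.conj_re]
  rw [e1] at h1
  rw [e2] at h2
  have h5 : (a'' ‖w‖ + a' ‖w‖ / ‖w‖ - n ^ 2 * a ‖w‖ / ‖w‖ ^ 2) =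
      ((a'' ‖w‖ - n * (a' ‖w‖ / ‖w‖ - a ‖w‖ / ‖w‖ ^ 2)) / 2 +
      (n + 1) * ((a' ‖w‖ - n * a ‖w‖ / ‖w‖) / 2) / ‖w‖) +
      ((a'' ‖w‖ + n * (a' ‖w‖ / ‖w‖ - a ‖w‖ / ‖w‖ ^ 2)) / 2 +
      (1 - n) * ((a' ‖w‖ + n * a ‖w‖ / ‖w‖) / 2) / ‖w‖) := by
    field_simp
    ring
  rw [h5]
  linear_combination h1 + h2

end SCHG
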