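import Pool.Agent.MP_83fd13_an.SCH.Geo6
import Pool.Agent.MP_83fd13_an.SCH.Geo10

/-!
# [SCH] the divergence theorem for fields which are tangential on the circle
-/

set_option autoImplicit false

open Metric Set MeasureTheory Filter Topology
open scoped RealInnerProductSpace NNReal ComplexConjugate

namespace SCHG

theorem integrableOn_lineDeriv_mul {a ψ : ℂ → ℝ} {C : ℝ≥0}
    (ha : LipschitzOnWith C a (closedBall 0 1)) (hψc : ContinuousOn ψ (closedBall 0 1)) {ξ : ℂ}
    (hξ : ‖ξ‖ = 1) : IntegrableOn (fun w => lineDeriv ℝ a w ξ * ψ w) (ball 0 1) := by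
  obtain ⟨Bψ, hBψ⟩ := (isCompact_closedBall (0 : ℂ) 1).exists_bound_of_continuousOn hψc
  have hev : ∀ w ∈ ball (0 : ℂ) 1, (a ∘ prj) =ᶠ[𝓝 w] a := by
    intro w hw
    filter_upwards [isOpen_ball.mem_nhds hw] with z hz
    rw [Function.comp_apply, prj_of_le (mem_ball_zero_iff.1 hz).le]
  have hL := lip_comp_prj ha
  have h1 : IntegrableOn (fun w => lineDeriv ℝ (a ∘ prj) w ξ * ψ w) (ball 0 1) := by
    refine IntegrableOn.of_bound measure_ball_lt_top ?_ (C * Bψ) ?_
    · exact ((measurable_lineDeriv hL.continuous).aestronglyMeasurable).mul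
        ((hψc.mono ball_subset_closedBall).aestronglyMeasurable measurableSet_ball)
    · filter_upwards [ae_restrict_mem measurableSet_ball] with w hw
      rw [norm_mul]
      have h2 : ‖lineDeriv ℝ (a ∘ prj) w ξ‖ ≤ C := by
        have := norm_lineDeriv_le_of_lipschitz ℝ hL (x₀ := w) (v := ξ)
        rwa [hξ, mul_one] at this
      exact mul_le_mul h2 (hBψ w (ball_subset_closedBall hw)) (norm_nonneg _) C.2
  refine h1.congr_fun (fun w hw => ?_) measurableSet_ball
  simp only
  rw [(hev w hw).lineDeriv_eq]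

theorem lip_mul {f g : ℂ → ℝ} {C D : ℝ≥0} {A B : ℝ} (hA : 0 ≤ A) (hB : 0 ≤ B)
    (hf : LipschitzOnWith C f (closedBall 0 1))
    (hg : LipschitzOnWith D g (closedBall 0 1)) (hfA : ∀ w ∈ closedBall (0 : ℂ) 1, |f w| ≤ A)
    (hgB : ∀ w ∈ closedBall (0 : ℂ) 1, |g w| ≤ B) :
    LipschitzOnWith (Real.toNNReal (C * B + A * D)) (fun w => f w * g w) (closedBall 0 1) := by
  refine LipschitzOnWith.of_dist_le_mul fun z hz w hw => ?_
  have h1 := hf.dist_le_mul z hz w hw
  have h2 := hg.dist_le_mul z hz w hw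
  rw [Real.dist_eq] at h1 h2 ⊢
  rw [Real.coe_toNNReal _ (by positivity)]
  have h3 : f z * g z - f w * g w = (f z - f w) * g z + f w * (g z - g w) := by ring
  rw [h3]
  refine (abs_add_le _ _).trans ?_
  rw [abs_mul, abs_mul]
  have h4 : |f z - f w| * |g z| ≤ C * dist z w * B :=
    mul_le_mul h1 (hgB z hz) (abs_nonneg _) (by positivity)
  have h5 : |f w| * |g z - g w| ≤ A * (D * dist z w) :=
    mul_le_mul (hfA w hw) h2 (abs_nonneg _) hA
  linarith

/-- the cut-off function -/
noncomputable def cut (t : ℝ) (w : ℂ) : ℝ := min 1 ((1 - ‖w‖) / t)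

theorem cut_lip {t : ℝ} (ht : 0 < t) : LipschitzOnWith (Real.toNNReal t⁻¹) (cut t) (closedBall 0 1) := by
  refine LipschitzOnWith.of_dist_le_mul fun z _ w _ => ?_
  rw [Real.coe_toNNReal _ (by positivity), Real.dist_eq, dist_eq_norm, cut, cut]
  have h1 := abs_min_sub_min_le_max 1 ((1 - ‖z‖) / t) 1 ((1 - ‖w‖) / t)
  rw [sub_self, abs_zero, max_eq_right (abs_nonneg _)] at h1
  refine h1.trans ?_
  rw [← sub_div, abs_div, abs_of_pos ht, div_eq_inv_mul]
  refine mul_le_mul_of_nonneg_left ?_ (by positivity)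
  have h2 : (1 - ‖z‖) - (1 - ‖w‖) = -(‖z‖ - ‖w‖) := by ring
  rw [h2, abs_neg]
  exact abs_norm_sub_norm_le z w

theorem cut_nonneg {t : ℝ} (ht : 0 < t) {w : ℂ} (hw : ‖w‖ ≤ 1) : 0 ≤ cut t w :=
  le_min zero_le_one (div_nonneg (by linarith) ht.le)

theorem cut_le_one (t : ℝ) (w : ℂ) : cut t w ≤ 1 := min_le_left _ _

theorem cut_circle (t : ℝ) {w : ℂ} (hw : ‖w‖ = 1) : cut t w = 0 := by
  rw [cut, hw, sub_self, zero_div]
  exact min_eq_right zero_le_one

theorem cut_inner {t : ℝ} (ht : 0 < t) {w : ℂ} (hw : ‖w‖ ≤ 1 - t) : cut t w = 1 := by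
  rw [cut, min_eq_left]
  rw [le_div_iff₀ ht]
  linarith

/-- **The divergence theorem for fields tangential on the circle.** -/
theorem div_tangential (X : ℂ → ℂ) {C : ℝ≥0} (hX : LipschitzOnWith C X (closedBall 0 1))
    (htan : ∀ w : ℂ, ‖w‖ = 1 → ⟪X w, w⟫ = 0) (D : ℂ → ℝ)
    (hdiv : ∀ w ∈ ball (0 : ℂ) 1, w ≠ 0 → ∃ L : ℂ →L[ℝ] ℂ, HasFDerivAt X L w ∧
      (L 1).re + (L Complex.I).im = D w)
    (ψ : ℂ → ℝ) (hψ : TestOK ψ) :
    ∫ w in ball (0 : ℂ) 1, fderiv ℝ ψ w (X w) = - ∫ w in ball (0 : ℂ) 1, D w * ψ w := by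
  obtain ⟨hψc, hψd, hψf, Cψ, hCψ⟩ := hψ
  have hψL := lip_of_bdd hψc hψd hCψ
  have h0' : (0 : ℂ) ∈ ball (0 : ℂ) 1 := mem_ball_self one_pos
  have hCψ0 : 0 ≤ Cψ := (norm_nonneg _).trans (hCψ 0 h0')
  obtain ⟨BX, hBX⟩ := (isCompact_closedBall (0 : ℂ) 1).exists_bound_of_continuousOn hX.continuousOn
  have hBX0 : 0 ≤ BX := (norm_nonneg _).trans (hBX 0 (mem_closedBall_self zero_le_one))
  obtain ⟨Bψ, hBψ⟩ := (isCompact_closedBall (0 : ℂ) 1).exists_bound_of_continuousOn hψc
  have hBψ0 : 0 ≤ Bψ := (norm_nonneg _).trans (hBψ 0 (mem_closedBall_self zero_le_one))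
  have hre : LipschitzOnWith C (fun w => (X w).re) (closedBall 0 1) := by
    refine LipschitzOnWith.of_dist_le_mul fun x hx y hy => ?_
    refine le_trans ?_ (hX.dist_le_mul x hx y hy)
    rw [dist_eq_norm, dist_eq_norm, Real.norm_eq_abs, ← Complex.sub_re]
    exact Complex.abs_re_le_norm _
  have him : LipschitzOnWith C (fun w => (X w).im) (closedBall 0 1) := by
    refine LipschitzOnWith.of_dist_le_mul fun x hx y hy => ?_
    refine le_trans ?_ (hX.dist_le_mul x hx y hy)
    rw [dist_eq_norm, dist_eq_norm, Real.norm_eq_abs, ← Complex.sub_im]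
    exact Complex.abs_im_le_norm _
  -- the sequence of cut-offs
  set t : ℕ → ℝ := fun n => 1 / ((n : ℝ) + 2) with ht
  have ht0 : ∀ n, 0 < t n := fun n => by simp only [ht]; positivity
  have hgre : ∀ n, LipschitzOnWith (Real.toNNReal (Real.toNNReal (t n)⁻¹ * BX + 1 * C))
      (fun w => cut (t n) w * (X w).re) (closedBall 0 1) := fun n =>
    lip_mul zero_le_one hBX0 (cut_lip (ht0 n)) hre
      (fun w hw => by
        rw [abs_of_nonneg (cut_nonneg (ht0 n) (mem_closedBall_zero_iff.1 hw))]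
        exact cut_le_one _ _)
      (fun w hw => (Complex.abs_re_le_norm _).trans (hBX w hw))
  have hgim : ∀ n, LipschitzOnWith (Real.toNNReal (Real.toNNReal (t n)⁻¹ * BX + 1 * C))
      (fun w => cut (t n) w * (X w).im) (closedBall 0 1) := fun n =>
    lip_mul zero_le_one hBX0 (cut_lip (ht0 n)) him
      (fun w hw => by
        rw [abs_of_nonneg (cut_nonneg (ht0 n) (mem_closedBall_zero_iff.1 hw))]
        exact cut_le_one _ _)
      (fun w hw => (Complex.abs_im_le_norm _).trans (hBX w hw))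
  have e1 := fun n => ibp_disc hψL (hgre n) (fun w hw => by rw [cut_circle _ hw, zero_mul]) 1
  have e2 := fun n => ibp_disc hψL (hgim n) (fun w hw => by rw [cut_circle _ hw, zero_mul])
    Complex.I
  have hψl : ∀ w ∈ ball (0 : ℂ) 1, ∀ ξ : ℂ, lineDeriv ℝ ψ w ξ = fderiv ℝ ψ w ξ := by
    intro w hw ξ
    exact ((hψd w hw).differentiableAt (isOpen_ball.mem_nhds hw)).lineDeriv_eq_fderiv
  have i1 := fun n => integrableOn_lineDeriv_mul hψL (hgre n).continuousOn (ξ := 1) norm_one
  have i2 := fun n => integrableOn_lineDeriv_mul hψL (hgim n).continuousOn (ξ := Complex.I)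
    Complex.norm_I
  have j1 := fun n => integrableOn_lineDeriv_mul (hgre n) hψc (ξ := 1) norm_one
  have j2 := fun n => integrableOn_lineDeriv_mul (hgim n) hψc (ξ := Complex.I) Complex.norm_I
  -- the identities with cut-off
  have e3 : ∀ n, ∫ w in ball (0 : ℂ) 1, cut (t n) w * fderiv ℝ ψ w (X w) =
      - ∫ w in ball (0 : ℂ) 1, (lineDeriv ℝ (fun w => cut (t n) w * (X w).re) w 1 * ψ w +
        lineDeriv ℝ (fun w => cut (t n) w * (X w).im) w Complex.I * ψ w) := by
    intro n
    rw [integral_add (j1 n) (j2 n), neg_add, ← e1 n, ← e2 n, ← integral_add (i1 n) (i2 n)]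
    refine setIntegral_congr_fun measurableSet_ball fun w hw => ?_
    rw [clm_apply, hψl w hw, hψl w hw]
    ring
  -- the good points
  have hgood : ∀ᵐ w : ℂ, w ≠ 0 ∧ ∀ n, ‖w‖ ≠ 1 - t n := by
    have h1 : ∀ᵐ w : ℂ, w ≠ 0 := by
      have : (volume : Measure ℂ) {0} = 0 := by simp
      exact measure_eq_zero_iff_ae_notMem.1 this
    have h2 : ∀ᵐ w : ℂ, ∀ n, ‖w‖ ≠ 1 - t n := by
      rw [ae_all_iff]
      intro n
      have h3 : (volume : Measure ℂ) (sphere 0 (1 - t n)) = 0 := Measure.addHaar_sphere volume 0 _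
      filter_upwards [measure_eq_zero_iff_ae_notMem.1 h3] with w hw h
      exact hw (mem_sphere_zero_iff_norm.2 h)
    filter_upwards [h1, h2] with w hw1 hw2
    exact ⟨hw1, hw2⟩
  -- the divergence with cut-off
  have hE : ∀ w ∈ ball (0 : ℂ) 1, w ≠ 0 → ∀ n, ‖w‖ ≠ 1 - t n →
      ∃ R : ℝ, lineDeriv ℝ (fun w => cut (t n) w * (X w).re) w 1 +
        lineDeriv ℝ (fun w => cut (t n) w * (X w).im) w Complex.I = cut (t n) w * D w + R ∧
        |R| ≤ C ∧ (‖w‖ < 1 - t n → R = 0) := by
    intro w hw hw0 n hn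
    obtain ⟨L, hL, hLD⟩ := hdiv w hw hw0
    have hr := norm_mem_Ioo hw hw0
    have hXre : HasFDerivAt (fun w => (X w).re) (Complex.reCLM.comp L) w :=
      (Complex.reCLM.hasFDerivAt (x := X w)).comp w hL
    have hXim : HasFDerivAt (fun w => (X w).im) (Complex.imCLM.comp L) w :=
      (Complex.imCLM.hasFDerivAt (x := X w)).comp w hL
    -- the derivative of the cut-off
    obtain ⟨K, hK, hK2⟩ : ∃ K : ℂ →L[ℝ] ℝ, HasFDerivAt (cut (t n)) K w ∧
        (|K (X w)| ≤ C ∧ (‖w‖ < 1 - t n → K (X w) = 0)) := by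
      rcases lt_or_gt_of_ne hn with h | h
      · refine ⟨0, ?_, by simp, fun _ => rfl⟩
        refine (hasFDerivAt_const (1 : ℝ) w).congr_of_eventuallyEq ?_
        have : ∀ᶠ z : ℂ in 𝓝 w, ‖z‖ < 1 - t n :=
          continuous_norm.continuousAt.eventually_lt continuousAt_const h
        filter_upwards [this] with z hz
        exact cut_inner (ht0 n) hz.le
      · have h1 : HasFDerivAt (fun z : ℂ => (1 - ‖z‖) / t n)
            ((t n)⁻¹ • (-(‖w‖⁻¹ • innerSL ℝ w))) w := by
          have := ((hasFDerivAt_nrm hw0).const_sub 1).const_mul ((t n)⁻¹)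
          refine this.congr_of_eventuallyEq (Eventually.of_forall fun z => ?_)
          simp only [div_eq_inv_mul]
        refine ⟨(t n)⁻¹ • (-(‖w‖⁻¹ • innerSL ℝ w)), ?_, ?_, fun h2 => absurd h2 h.not_gt⟩
        · refine h1.congr_of_eventuallyEq ?_
          have : ∀ᶠ z : ℂ in 𝓝 w, 1 - t n < ‖z‖ :=
            continuousAt_const.eventually_lt continuous_norm.continuousAt h
          filter_upwards [this] with z hz
          rw [cut, min_eq_right]
          rw [div_le_one (ht0 n)]
          linarith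
        · have h2 : ((t n)⁻¹ • (-(‖w‖⁻¹ • innerSL ℝ w))) (X w) =
              -((t n)⁻¹ * (‖w‖⁻¹ * ⟪w, X w⟫)) := by
            simp only [smul_apply, neg_apply, smul_eq_mul, innerSL_apply_apply]
            ring
          rw [h2, abs_neg, abs_mul, abs_of_pos (inv_pos.2 (ht0 n))]
          -- compare with the boundary value
          have h3 : ‖w‖⁻¹ * ⟪w, X w⟫ = ⟪(‖w‖⁻¹ : ℝ) • w, X w - X ((‖w‖⁻¹ : ℝ) • w)⟫ := by
            have h4 : ‖(‖w‖⁻¹ : ℝ) • w‖ = 1 := by
              rw [norm_smul, norm_inv, norm_norm, inv_mul_cancel₀ hr.1.ne']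
            rw [inner_sub_right, real_inner_comm (X ((‖w‖⁻¹ : ℝ) • w)), htan _ h4, sub_zero,
              real_inner_smul_left]
          have h4 : ‖(‖w‖⁻¹ : ℝ) • w‖ = 1 := by
            rw [norm_smul, norm_inv, norm_norm, inv_mul_cancel₀ hr.1.ne']
          have h5 : |‖w‖⁻¹ * ⟪w, X w⟫| ≤ C * t n := by
            rw [h3]
            refine (abs_real_inner_le_norm _ _).trans ?_
            rw [h4, one_mul, ← dist_eq_norm]
            refine (hX.dist_le_mul w (ball_subset_closedBall hw) _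
              (mem_closedBall_zero_iff.2 h4.le)).trans ?_
            refine mul_le_mul_of_nonneg_left ?_ C.2
            rw [dist_eq_norm]
            have h6 : w - (‖w‖⁻¹ : ℝ) • w = (1 - ‖w‖⁻¹ : ℝ) • w := by
              rw [sub_smul, one_smul]
            rw [h6, norm_smul, Real.norm_eq_abs, abs_of_nonpos (by
              rw [sub_nonpos]
              exact (one_le_inv₀ hr.1).2 hr.2.le)]
            have h7 : -(1 - ‖w‖⁻¹) * ‖w‖ = 1 - ‖w‖ := by
              have := hr.1.ne'
              field_simp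
              ring
            rw [h7]
            linarith
          calc (t n)⁻¹ * |‖w‖⁻¹ * ⟪w, X w⟫| ≤ (t n)⁻¹ * (C * t n) :=
                mul_le_mul_of_nonneg_left h5 (inv_nonneg.2 (ht0 n).le)
            _ = C := by
                have := (ht0 n).ne'
                field_simp
    refine ⟨K (X w), ?_, hK2.1, hK2.2⟩
    have g1 : HasFDerivAt (fun w => cut (t n) w * (X w).re) _ w := hK.mul hXre
    have g2 : HasFDerivAt (fun w => cut (t n) w * (X w).im) _ w := hK.mul hXim
    rw [g1.differentiableAt.lineDeriv_eq_fderiv, g1.fderiv,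
      g2.differentiableAt.lineDeriv_eq_fderiv, g2.fderiv, ← hLD, clm_apply K (X w)]
    simp only [add_apply, smul_apply, smul_eq_mul, ContinuousLinearMap.comp_apply,
      Complex.reCLM_apply, Complex.imCLM_apply]
    ring
  have hDb : ∀ w ∈ ball (0 : ℂ) 1, w ≠ 0 → |D w| ≤ 2 * C := by
    intro w hw hw0
    obtain ⟨L, hL, hLD⟩ := hdiv w hw hw0
    have h1 : ‖L‖ ≤ C := hL.le_of_lipschitzOn (isOpen_ball.mem_nhds hw)
      (hX.mono ball_subset_closedBall)
    rw [← hLD]
    have h2 : ‖L 1‖ ≤ C := by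
      refine (L.le_opNorm 1).trans ?_
      rw [norm_one, mul_one]
      exact h1
    have h3 : ‖L Complex.I‖ ≤ C := by
      refine (L.le_opNorm _).trans ?_
      rw [Complex.norm_I, mul_one]
      exact h1
    have h4 := (Complex.abs_re_le_norm (L 1)).trans h2
    have h5 := (Complex.abs_im_le_norm (L Complex.I)).trans h3
    refine (abs_add_le _ _).trans (by linarith)
  -- eventually inside
  have htend : Tendsto t atTop (𝓝 0) := by
    have h1 : Tendsto (fun n : ℕ => ((n : ℝ) + 2)) atTop atTop :=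
      tendsto_atTop_add_const_right _ _ tendsto_natCast_atTop_atTop
    have h2 := h1.inv_tendsto_atTop
    refine h2.congr fun n => ?_
    simp [ht, one_div]
  have hevn : ∀ w ∈ ball (0 : ℂ) 1, ∀ᶠ n in atTop, ‖w‖ < 1 - t n := by
    intro w hw
    have h1 : 0 < 1 - ‖w‖ := by
      have := mem_ball_zero_iff.1 hw
      linarith
    filter_upwards [htend.eventually_lt_const h1] with n hn
    linarith
  have hfin : IsFiniteMeasure (volume.restrict (ball (0 : ℂ) 1)) :=
    ⟨by rw [Measure.restrict_apply_univ]; exact measure_ball_lt_top⟩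
  have hgood' : ∀ᵐ w ∂(volume.restrict (ball (0 : ℂ) 1)), w ≠ 0 ∧ ∀ n, ‖w‖ ≠ 1 - t n :=
    ae_restrict_of_ae hgood
  -- the limits
  have l1 : Tendsto (fun n => ∫ w in ball (0 : ℂ) 1, cut (t n) w * fderiv ℝ ψ w (X w)) atTop
      (𝓝 (∫ w in ball (0 : ℂ) 1, fderiv ℝ ψ w (X w))) := by
    refine tendsto_integral_of_dominated_convergence (fun _ => Cψ * BX) ?_ (integrable_const _) ?_ ?_
    · intro n
      refine ContinuousOn.aestronglyMeasurable ?_ measurableSet_ball
      exact ((cut_lip (ht0 n)).continuousOn.mono ball_subset_closedBall).mul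
        (hψf.clm_apply (hX.continuousOn.mono ball_subset_closedBall))
    · intro n
      filter_upwards [ae_restrict_mem measurableSet_ball] with w hw
      rw [norm_mul, Real.norm_eq_abs, abs_of_nonneg (cut_nonneg (ht0 n) (mem_ball_zero_iff.1 hw).le)]
      have h1 : ‖fderiv ℝ ψ w (X w)‖ ≤ Cψ * BX :=
        (ContinuousLinearMap.le_opNorm _ _).trans
          (mul_le_mul (hCψ w hw) (hBX w (ball_subset_closedBall hw)) (norm_nonneg _) hCψ0)
      calc cut (t n) w * ‖fderiv ℝ ψ w (X w)‖ ≤ 1 * (Cψ * BX) :=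
            mul_le_mul (cut_le_one _ _) h1 (norm_nonneg _) zero_le_one
        _ = _ := one_mul _
    · filter_upwards [ae_restrict_mem measurableSet_ball] with w hw
      refine tendsto_const_nhds.congr' ?_
      filter_upwards [hevn w hw] with n hn
      rw [cut_inner (ht0 n) hn.le, one_mul]
  have l2 : Tendsto (fun n => ∫ w in ball (0 : ℂ) 1,
      (lineDeriv ℝ (fun w => cut (t n) w * (X w).re) w 1 * ψ w +
        lineDeriv ℝ (fun w => cut (t n) w * (X w).im) w Complex.I * ψ w)) atTop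
      (𝓝 (∫ w in ball (0 : ℂ) 1, D w * ψ w)) := by
    refine tendsto_integral_of_dominated_convergence (fun _ => (2 * C + C) * Bψ) ?_
      (integrable_const _) ?_ ?_
    · intro n
      exact ((j1 n).add (j2 n)).aestronglyMeasurable
    · intro n
      filter_upwards [ae_restrict_mem measurableSet_ball, hgood'] with w hw hg
      obtain ⟨R, hR1, hR2, -⟩ := hE w hw hg.1 n (hg.2 n)
      rw [← add_mul, hR1, norm_mul, Real.norm_eq_abs]
      refine mul_le_mul ?_ (hBψ w (ball_subset_closedBall hw)) (norm_nonneg _) (by positivity)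
      refine (abs_add_le _ _).trans (add_le_add ?_ hR2)
      rw [abs_mul, abs_of_nonneg (cut_nonneg (ht0 n) (mem_ball_zero_iff.1 hw).le)]
      calc cut (t n) w * |D w| ≤ 1 * (2 * C) :=
            mul_le_mul (cut_le_one _ _) (hDb w hw hg.1) (abs_nonneg _) zero_le_one
        _ = _ := one_mul _
    · filter_upwards [ae_restrict_mem measurableSet_ball, hgood'] with w hw hg
      refine tendsto_const_nhds.congr' ?_
      filter_upwards [hevn w hw] with n hn
      obtain ⟨R, hR1, -, hR3⟩ := hE w hw hg.1 n (hg.2 n)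
      rw [← add_mul, hR1, hR3 hn, cut_inner (ht0 n) hn.le, one_mul, add_zero]
  have l3 := l2.neg
  refine tendsto_nhds_unique l1 (l3.congr fun n => ?_)
  exact (e3 n).symm

end SCHG
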