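import Pool.Agent.MP_83fd13_an.SCH.Geo11
import Pool.Agent.MP_83fd13_an.SCH.Geo12
import Pool.Agent.MP_83fd13_an.SCH.Geo13

/-!
# [SCH] from the mode equations to the frozen statement

`FP N ρ φ u u' u'' B`: the data delivered by the fixed point (exponential normalisation).
* `FP.W2`: the weak Neumann identity for `U = UU N (aa u)`, `GU = GG N (aa u) (aa u')`;
* `FP.neg`: if moreover `u_k(1) = 0` for `k ≥ 1`, the frozen statement follows.
-/

set_option autoImplicit false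

open Metric Set MeasureTheory Filter Topology
open scoped RealInnerProductSpace NNReal ComplexConjugate

namespace SCHG

/-- cosine normalisation from exponential normalisation -/
noncomputable def aa (u : ℕ → ℝ → ℝ) (k : ℕ) (r : ℝ) : ℝ := mul2 k * u k r

/-- scaling of modes -/
theorem Mode.const_mul {a a' a'' : ℝ → ℝ} {n : ℕ} {M : ℝ} (H : Mode a a' a'' n M) {c : ℝ}
    (hc : 0 ≤ c) : Mode (fun r => c * a r) (fun r => c * a' r) (fun r => c * a'' r) n (c * M) where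
  d1 r hr := (H.d1 r hr).const_mul c
  d2 r hr := (H.d2 r hr).const_mul c
  c0 := continuousOn_const.mul H.c0
  c1 := continuousOn_const.mul H.c1
  z0 hn := by rw [H.z0 hn, mul_zero]
  z1 := by rw [H.z1, mul_zero]
  b0 r hr := by
    rw [abs_mul, abs_of_nonneg hc]
    exact mul_le_mul_of_nonneg_left (H.b0 r hr) hc
  b2 r hr := by
    rw [abs_mul, abs_of_nonneg hc]
    exact mul_le_mul_of_nonneg_left (H.b2 r hr) hc
  b1 r hr := by
    rw [abs_mul, abs_of_nonneg hc]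
    calc (n + 1) * (c * |a' r|) = c * ((n + 1) * |a' r|) := by ring
      _ ≤ c * (M * r) := mul_le_mul_of_nonneg_left (H.b1 r hr) hc
      _ = c * M * r := by ring
  b3 r hr := by
    rw [abs_mul, abs_of_nonneg hc]
    calc (n : ℝ) ^ 2 * (c * |a r|) = c * (n ^ 2 * |a r|) := by ring
      _ ≤ c * (M * r ^ 2) := mul_le_mul_of_nonneg_left (H.b3 r hr) hc
      _ = c * M * r ^ 2 := by ring

/-- the data delivered by the fixed point -/
structure FP (N : ℕ) (ρ : ℝ) (φ : ℕ → ℝ) (u u' u'' : ℕ → ℝ → ℝ) (B : ℕ → ℝ) : Prop where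
  N0 : 0 < N
  ρ0 : 0 < ρ
  φ0 : φ 0 = 1
  φs : Summable fun k => |φ k|
  mode : ∀ k, Mode (u k) (u' k) (u'' k) (N * k) (B k)
  Bs : Summable B
  n1 : ∀ k, u' k 1 = 0
  ode : ∀ k : ℕ, ∀ r ∈ Ioo (0 : ℝ) 1,
    u'' k r + u' k r / r - ((N * k : ℕ) : ℝ) ^ 2 * u k r / r ^ 2 =
      - (ρ ^ 2 * ∑' i : ℤ, MM N φ i.natAbs r * u ((k : ℤ) - i).natAbs r)

section FP

variable {N : ℕ} {ρ : ℝ} {φ : ℕ → ℝ} {u u' u'' : ℕ → ℝ → ℝ} {B : ℕ → ℝ}
  (H : FP N ρ φ u u' u'' B)
include H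

theorem FP.B_nonneg (k : ℕ) : 0 ≤ B k := (H.mode k).M_nonneg

theorem FP.modes : Modes N (aa u) (aa u') (aa u'') (fun k => mul2 k * B k) where
  mode k := (H.mode k).const_mul (mul2_nonneg k)
  sum := by
    refine Summable.of_nonneg_of_le (fun k => mul_nonneg (mul2_nonneg k) (H.B_nonneg k))
      (fun k => ?_) (H.Bs.mul_left 2)
    exact mul_le_mul_of_nonneg_right (mul2_le k) (H.B_nonneg k)
  n1 k := by rw [aa, H.n1, mul_zero]

theorem FP.summable_u {r : ℝ} (hr : r ∈ Icc (0 : ℝ) 1) : Summable fun k => |u k r| :=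
  Summable.of_nonneg_of_le (fun _ => abs_nonneg _) (fun k => (H.mode k).b0 r hr) H.Bs

theorem FP.fF'_eq {w : ℂ} (hw : ‖w‖ ≤ 1) :
    fF' N ρ φ w = ρ * ∑' k : ℕ, (φ k : ℂ) * w ^ (N * k) := by
  have hs : Summable fun k : ℕ => (φ k : ℂ) * w ^ (N * k) := by
    refine Summable.of_norm_bounded H.φs fun k => ?_
    rw [norm_mul, Complex.norm_real, Real.norm_eq_abs, norm_pow]
    exact mul_le_of_le_one_right (abs_nonneg _) (pow_le_one₀ (norm_nonneg _) hw)
  rw [fF', hs.tsum_eq_zero_add, mul_zero, pow_zero, H.φ0]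
  norm_num

/-- the equation on the disc -/
theorem FP.equation {w : ℂ} (hw : w ∈ ball (0 : ℂ) 1) (hw0 : w ≠ 0) :
    ∑' k, (aa u'' k ‖w‖ + aa u' k ‖w‖ / ‖w‖ - ((N * k : ℕ) : ℝ) ^ 2 * aa u k ‖w‖ / ‖w‖ ^ 2) *
      ((w / ‖w‖) ^ (N * k)).re = - (Complex.normSq (fF' N ρ φ w) * UU N (aa u) w) := by
  have hr := norm_mem_Ioo hw hw0
  have he := norm_unit hw0
  set r := ‖w‖ with hrdef
  set e := w / (r : ℂ) with hedef
  have hE : ‖e ^ N‖ = 1 := by rw [norm_pow, he, one_pow]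
  have hrC : (r : ℂ) ≠ 0 := by exact_mod_cast hr.1.ne'
  have hwe : w = (r : ℂ) * e := by
    rw [hedef]
    field_simp
  have hm : Summable fun i => |MM N φ i r| := summable_MM H.φs hr.1.le hr.2.le
  have hu : Summable fun k => |u k r| := H.summable_u ⟨hr.1.le, hr.2.le⟩
  -- left hand side
  have h1 : ∀ k : ℕ, (aa u'' k r + aa u' k r / r - ((N * k : ℕ) : ℝ) ^ 2 * aa u k r / r ^ 2) *
      (e ^ (N * k)).re =
      - ρ ^ 2 * (mul2 k * cv (fun i => MM N φ i r) (fun i => u i r) (k : ℤ) * ((e ^ N) ^ k).re) := by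
    intro k
    have h2 := H.ode k r hr
    have h3 : cv (fun i => MM N φ i r) (fun i => u i r) (k : ℤ) =
      ∑' i : ℤ, MM N φ i.natAbs r * u ((k : ℤ) - i).natAbs r := rfl
    rw [h3, aa, aa, aa, pow_mul]
    linear_combination (mul2 k * ((e ^ N) ^ k).re) * h2
  rw [tsum_congr h1, tsum_mul_left]
  -- right hand side
  have h4 : (Complex.normSq (fF' N ρ φ w) : ℂ) =
      (ρ : ℂ) ^ 2 * ∑' i : ℤ, (MM N φ i.natAbs r : ℂ) * (e ^ N) ^ i := by
    rw [← normSq_series H.φs hr.1.le hr.2.le he, ← hwe,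
      H.fF'_eq (by rw [← hrdef]; exact hr.2.le), Complex.normSq_mul, Complex.normSq_ofReal]
    push_cast
    ring
  have h5 : ((UU N (aa u) w : ℝ) : ℂ) = ∑' k : ℤ, (u k.natAbs r : ℂ) * (e ^ N) ^ k := by
    rw [tsum_even (c := fun k => u k r) hu hE, UU]
    congr 1
    refine tsum_congr fun k => ?_
    rw [Um, PB, zpow_natCast, Complex.re_ofReal_mul, aa, pow_mul]
  have h6 := mul_series (m := fun i => MM N φ i r) (u := fun i => u i r) hm hu hE
  have h7 := tsum_even (c := fun k : ℕ => cv (fun i => MM N φ i r) (fun i => u i r) (k : ℤ))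
    (summable_cv hm hu) hE
  have h8 : ((Complex.normSq (fF' N ρ φ w) * UU N (aa u) w : ℝ) : ℂ) =
      ((ρ ^ 2 * ∑' k : ℕ, mul2 k * cv (fun i => MM N φ i r) (fun i => u i r) (k : ℤ) *
        ((e ^ N) ^ k).re : ℝ) : ℂ) := by
    rw [Complex.ofReal_mul, h4, h5, mul_assoc, h6, h7, Complex.ofReal_mul, Complex.ofReal_pow]
  rw [Complex.ofReal_injective h8]
  ring

theorem FP.hasFDerivAt_GG {w : ℂ} (hw : w ∈ ball (0 : ℂ) 1) (hw0 : w ≠ 0) :
    ∃ L : ℂ →L[ℝ] ℂ, HasFDerivAt (GG N (aa u) (aa u')) L w ∧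
      (L 1).re + (L Complex.I).im = - (Complex.normSq (fF' N ρ φ w) * UU N (aa u) w) := by
  obtain ⟨L, hL, h⟩ := H.modes.hasFDerivAt_GG hw hw0
  exact ⟨L, hL, h.trans (H.equation hw hw0)⟩

/-- **The weak Neumann identity.** -/
theorem FP.W2 (ψ : ℂ → ℝ) (hψ : TestOK ψ) :
    ∫ w in ball (0 : ℂ) 1, fderiv ℝ ψ w (GG N (aa u) (aa u') w) =
      ∫ w in ball (0 : ℂ) 1, Complex.normSq (fF' N ρ φ w) * UU N (aa u) w * ψ w := by
  rw [div_tangential _ H.modes.lip_GG (fun w hw => H.modes.GG_tangential hw)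
    (fun w => - (Complex.normSq (fF' N ρ φ w) * UU N (aa u) w))
    (fun w hw hw0 => H.hasFDerivAt_GG hw hw0) ψ hψ, ← integral_neg]
  refine integral_congr_ae (Eventually.of_forall fun w => ?_)
  simp only
  ring

theorem FP.continuousOn_U : ContinuousOn (UU N (aa u)) (closedBall 0 1) :=
  H.modes.continuousOn_UU

theorem FP.hasFDerivAt_U {w : ℂ} (hw : w ∈ ball (0 : ℂ) 1) :
    HasFDerivAt (UU N (aa u)) (innerSL ℝ (GG N (aa u) (aa u') w)) w :=
  H.modes.hasFDerivAt_UU hw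

omit H in
theorem U_circle {w : ℂ} (hw : ‖w‖ = 1) :
    UU N (aa u) w = ∑' k, mul2 k * u k 1 * (w ^ (N * k)).re :=
  UU_circle N (aa u) hw

theorem FP.U_zero : UU N (aa u) 0 = u 0 0 := by
  rw [UU, tsum_eq_single 0]
  · simp [Um, PB, aa]
  · intro k hk
    have h1 : 0 < N * k := Nat.mul_pos H.N0 (Nat.pos_of_ne_zero hk)
    rw [Um, PB, aa, norm_zero, (H.mode k).z0 h1]
    simp

end FP

end SCHG
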