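import Pool.Agent.MP_83fd13_an.SCH.KerC
import Pool.Agent.MP_83fd13_an.SCH.Geo10

/-!
# [SCH] from radial solutions (`RSol`, module KER) to the data `Mode`, `FP`
-/

set_option autoImplicit false

open Metric Set MeasureTheory Filter Topology

namespace SCHG

open Pool.Agent.SCH

/-- the second derivative of a radial solution -/
noncomputable def rd2 (n : ℕ) (f y y' : ℝ → ℝ) (r : ℝ) : ℝ :=
  (n : ℝ) ^ 2 * y r / r ^ 2 - f r - y' r / r

/-- **radial solutions give modes** -/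
theorem Mode.of_RSol {n : ℕ} {f y y' : ℝ → ℝ} (h : RSol n f y y') {A A' A₀ F : ℝ}
    (h0 : ContinuousWithinAt y (Icc 0 1) 0) (hz : 0 < n → y 0 = 0) (hz' : y' 0 = 0)
    (hA₀ : ∀ r ∈ Ioc (0 : ℝ) 1, |y r| ≤ A₀)
    (hA : ∀ r ∈ Ioc (0 : ℝ) 1, n ^ 2 * |y r| ≤ A * r ^ 2)
    (hA' : ∀ r ∈ Ioc (0 : ℝ) 1, (n + 1) * |y' r| ≤ A' * r)
    (hF : ∀ r ∈ Ioc (0 : ℝ) 1, |f r| ≤ F) : Mode y y' (rd2 n f y y') n (A + A' + A₀ + F) := by
  have h1 : (1 : ℝ) ∈ Ioc (0 : ℝ) 1 := ⟨one_pos, le_rfl⟩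
  have hF0 : 0 ≤ F := (abs_nonneg _).trans (hF 1 h1)
  have hA₀0 : 0 ≤ A₀ := (abs_nonneg _).trans (hA₀ 1 h1)
  have hA'0 : 0 ≤ A' := by
    have h2 := hA' 1 h1
    have h3 : 0 ≤ ((n : ℝ) + 1) * |y' 1| := by positivity
    linarith
  have hA0 : 0 ≤ A := by
    have h2 := hA 1 h1
    have h3 : 0 ≤ (n : ℝ) ^ 2 * |y 1| := by positivity
    linarith
  have hc : ContinuousOn y (Icc 0 1) := by
    intro r hr
    rcases eq_or_lt_of_le hr.1 with h2 | h2
    · rw [← h2]; exact h0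
    · exact (h.d1 r h2).continuousAt.continuousWithinAt
  refine ⟨fun r hr => h.d1 r hr.1, fun r hr => ?_, hc, fun r hr => ?_, hz, hz', ?_, ?_, ?_, ?_⟩
  · exact h.deriv2 hr.1
  · exact (h.deriv2 hr.1).continuousAt.continuousWithinAt
  · intro r hr
    rcases eq_or_lt_of_le hr.1 with h2 | h2
    · -- by continuity
      rw [← h2]
      have h3 : ContinuousWithinAt (fun r => |y r|) (Ioc 0 1) 0 := by
        have h4 : ContinuousWithinAt y (Ioc 0 1) 0 := h0.mono Ioc_subset_Icc_self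
        exact h4.abs
      have h5 : (𝓝[Ioc (0 : ℝ) 1] 0).NeBot := by
        rw [← mem_closure_iff_nhdsWithin_neBot, closure_Ioc (by norm_num : (0 : ℝ) ≠ 1)]
        simp
      have h6 : |y 0| ≤ A₀ := by
        refine le_of_tendsto h3 ?_
        filter_upwards [self_mem_nhdsWithin] with r hr
        exact hA₀ r hr
      linarith
    · have := hA₀ r ⟨h2, hr.2⟩
      linarith
  · intro r hr
    have e1 : |n ^ 2 * y r / r ^ 2| ≤ A := by
      rw [abs_div, abs_mul, abs_of_nonneg (by positivity : (0 : ℝ) ≤ n ^ 2),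
        abs_of_nonneg (by positivity : (0 : ℝ) ≤ r ^ 2), div_le_iff₀ (pow_pos hr.1 2)]
      exact hA r hr
    have e2 : |y' r / r| ≤ A' := by
      rw [abs_div, abs_of_pos hr.1, div_le_iff₀ hr.1]
      refine le_trans ?_ (hA' r hr)
      nlinarith [abs_nonneg (y' r), (Nat.cast_nonneg n : (0 : ℝ) ≤ n)]
    have e3 := hF r hr
    rw [rd2]
    have h4 := abs_sub (n ^ 2 * y r / r ^ 2 - f r) (y' r / r)
    have h5 := abs_sub (n ^ 2 * y r / r ^ 2) (f r)
    linarith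
  · intro r hr
    refine (hA' r hr).trans ?_
    exact mul_le_mul_of_nonneg_right (by linarith) hr.1.le
  · intro r hr
    refine (hA r hr).trans ?_
    exact mul_le_mul_of_nonneg_right (by linarith) (by positivity)

theorem rd2_eq {n : ℕ} {f y y' : ℝ → ℝ} {r : ℝ} :
    rd2 n f y y' r + y' r / r - (n : ℝ) ^ 2 * y r / r ^ 2 = - f r := by
  rw [rd2]; ring

/-- set the value at `0` of the derivative (the kernels of module KER have a junk value there) -/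
noncomputable def fix0 (y' : ℝ → ℝ) (r : ℝ) : ℝ := if r = 0 then 0 else y' r

theorem fix0_of_pos {y' : ℝ → ℝ} {r : ℝ} (hr : 0 < r) : fix0 y' r = y' r := by
  rw [fix0, if_neg hr.ne']

theorem fix0_zero {y' : ℝ → ℝ} : fix0 y' 0 = 0 := by
  rw [fix0, if_pos rfl]

theorem fix0_ev {y' : ℝ → ℝ} {r : ℝ} (hr : 0 < r) : fix0 y' =ᶠ[𝓝 r] y' := by
  filter_upwards [Ioi_mem_nhds hr] with x hx
  exact fix0_of_pos hx

theorem RSol_fix0 {n : ℕ} {f y y' : ℝ → ℝ} (h : RSol n f y y') : RSol n f y (fix0 y') where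
  d1 r hr := (h.d1 r hr).congr_deriv (fix0_of_pos hr).symm
  d2 r hr := (h.d2 r hr).congr_of_eventuallyEq (by
    filter_upwards [fix0_ev (y' := y') hr] with x hx
    rw [hx])

/-- also change the value of `y` at `0` -/
theorem RSol_fix {n : ℕ} {f y y' : ℝ → ℝ} (h : RSol n f y y') : RSol n f (fix0 y) (fix0 y') where
  d1 r hr := ((h.d1 r hr).congr_of_eventuallyEq (fix0_ev hr)).congr_deriv (fix0_of_pos hr).symm
  d2 r hr := ((h.d2 r hr).congr_of_eventuallyEq (by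
    filter_upwards [fix0_ev (y' := y') hr] with x hx
    rw [hx])).congr_deriv (by rw [fix0_of_pos hr])

/-- modes with a weight: `|y| ≤ A r^a`, `|y'| ≤ A' r^(a-1)`, `|f| ≤ F`, `a ≥ 2`, `n ≥ 1` -/
theorem Mode.of_weight {n : ℕ} {f y y' : ℝ → ℝ} (h : RSol n f y y') {a : ℕ} (ha : 2 ≤ a)
    {A A' F : ℝ} (hA : ∀ r ∈ Ioc (0 : ℝ) 1, |y r| ≤ A * r ^ a)
    (hA' : ∀ r ∈ Ioc (0 : ℝ) 1, |y' r| ≤ A' * r ^ (a - 1))
    (hF : ∀ r ∈ Ioc (0 : ℝ) 1, |f r| ≤ F) :
    Mode (fix0 y) (fix0 y') (rd2 n f (fix0 y) (fix0 y')) n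
      (n ^ 2 * A + (n + 1) * A' + A + F) := by
  have h1 : (1 : ℝ) ∈ Ioc (0 : ℝ) 1 := ⟨one_pos, le_rfl⟩
  have hA'0 : 0 ≤ A' := by
    have h2 := hA' 1 h1
    rw [one_pow, mul_one] at h2
    exact (abs_nonneg _).trans h2
  have hA0 : 0 ≤ A := by
    have h2 := hA 1 h1
    rw [one_pow, mul_one] at h2
    exact (abs_nonneg _).trans h2
  have hle : ∀ r ∈ Ioc (0 : ℝ) 1, r ^ a ≤ r ^ 2 := fun r hr =>
    pow_le_pow_of_le_one hr.1.le hr.2 ha
  have hle' : ∀ r ∈ Ioc (0 : ℝ) 1, r ^ (a - 1) ≤ r := fun r hr => by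
    calc r ^ (a - 1) ≤ r ^ 1 := pow_le_pow_of_le_one hr.1.le hr.2 (by omega)
      _ = r := pow_one r
  refine Mode.of_RSol (RSol_fix h) ?_ (fun _ => fix0_zero) fix0_zero ?_ ?_ ?_ hF
  · rw [ContinuousWithinAt, fix0_zero]
    have h2 : Tendsto (fun r : ℝ => A * r ^ 2) (𝓝[Icc 0 1] 0) (𝓝 0) := by
      have h3 : Continuous fun r : ℝ => A * r ^ 2 := by fun_prop
      have h4 := (h3.tendsto 0).mono_left (nhdsWithin_le_nhds (s := Icc (0 : ℝ) 1))
      simpa using h4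
    refine squeeze_zero_norm' ?_ h2
    filter_upwards [self_mem_nhdsWithin] with r hr
    rcases eq_or_lt_of_le hr.1 with h3 | h3
    · rw [← h3, fix0_zero]
      simp
    · rw [fix0_of_pos h3, Real.norm_eq_abs]
      exact (hA r ⟨h3, hr.2⟩).trans (mul_le_mul_of_nonneg_left (hle r ⟨h3, hr.2⟩) hA0)
  · intro r hr
    rw [fix0_of_pos hr.1]
    refine (hA r hr).trans ?_
    exact mul_le_of_le_one_right hA0 (pow_le_one₀ hr.1.le hr.2)
  · intro r hr
    rw [fix0_of_pos hr.1, mul_assoc]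
    refine mul_le_mul_of_nonneg_left ?_ (by positivity)
    exact (hA r hr).trans (mul_le_mul_of_nonneg_left (hle r hr) hA0)
  · intro r hr
    rw [fix0_of_pos hr.1, mul_assoc]
    refine mul_le_mul_of_nonneg_left ?_ (by positivity)
    exact (hA' r hr).trans (mul_le_mul_of_nonneg_left (hle' r hr) hA'0)

end SCHG
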