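import Pool.Agent.MP_83fd13_an.SCH.KerB
import Pool.Agent.MP_83fd13_an.SCH.Geo14
import Pool.Agent.MP_83fd13_an.SCH.Geo15

/-!
# [SCH] assembly: radial solutions with weights give the structure `SCHG.FP`
-/

set_option autoImplicit false

namespace SCHA

open Filter Topology SCHG Set MeasureTheory
open Pool.Agent.SCH

theorem summable_cube_mul {e : ℝ} (he0 : 0 ≤ e) (he1 : e < 1) :
    Summable fun k : ℕ => ((k : ℝ) + 1) ^ 3 * e ^ k := by
  have hn : ‖e‖ < 1 := by rw [Real.norm_eq_abs, abs_of_nonneg he0]; exact he1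
  have h3 := summable_pow_mul_geometric_of_norm_lt_one (R := ℝ) 3 hn
  have h0 := summable_geometric_of_lt_one he0 he1
  refine Summable.of_nonneg_of_le (fun k => by positivity) (fun k => ?_) ((h3.add h0).mul_left 4)
  have hk : (0:ℝ) ≤ k := Nat.cast_nonneg k
  have : ((k : ℝ) + 1) ^ 3 ≤ 4 * ((k : ℝ) ^ 3 + 1) := by
    nlinarith [mul_nonneg (by positivity : (0:ℝ) ≤ (k : ℝ) + 1) (sq_nonneg ((k : ℝ) - 1))]
  calc ((k : ℝ) + 1) ^ 3 * e ^ k ≤ 4 * ((k : ℝ) ^ 3 + 1) * e ^ k := by gcongr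
    _ = 4 * ((k : ℝ) ^ 3 * e ^ k + e ^ k) := by ring

/-- **Assembly.** Radial solutions `y k` for all modes. -/
theorem FP_of_RSol {N : ℕ} {ρ : ℝ} {φ : ℕ → ℝ} (hN : 0 < N) (hρ : 0 < ρ) (hφ0 : φ 0 = 1)
    (hφs : Summable fun k => |φ k|) {y y' s : ℕ → ℝ → ℝ}
    (hr : ∀ k, RSol (N * k) (s k) (y k) (y' k)) {a : ℕ → ℕ} (ha : ∀ k, 2 ≤ a k)
    {A A' F : ℕ → ℝ}
    (hA : ∀ k, ∀ r ∈ Ioc (0 : ℝ) 1, |y (k + 1) r| ≤ A (k + 1) * r ^ a (k + 1))
    (hA' : ∀ k, ∀ r ∈ Ioc (0 : ℝ) 1, |y' (k + 1) r| ≤ A' (k + 1) * r ^ (a (k + 1) - 1))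
    (hF : ∀ k, ∀ r ∈ Ioc (0 : ℝ) 1, |s k r| ≤ F k)
    (hc0 : ContinuousWithinAt (y 0) (Icc 0 1) 0)
    (hA0 : ∀ r ∈ Ioc (0 : ℝ) 1, |y 0 r| ≤ A 0)
    (hA0' : ∀ r ∈ Ioc (0 : ℝ) 1, |y' 0 r| ≤ A' 0 * r)
    (hS : Summable fun k : ℕ => ((N * k : ℕ) : ℝ) ^ 2 * A k + (((N * k : ℕ) : ℝ) + 1) * A' k + A k + F k)
    (hsrc : ∀ k : ℕ, ∀ r ∈ Ioo (0 : ℝ) 1, s k r =
      ρ ^ 2 * ∑' i : ℤ, MM N φ i.natAbs r * y ((k : ℤ) - i).natAbs r)
    (hn : ∀ k, y' k 1 = 0) :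
    ∃ u u' u'' : ℕ → ℝ → ℝ, ∃ B : ℕ → ℝ, FP N ρ φ u u' u'' B ∧
      (∀ k, ∀ r : ℝ, 0 < r → u k r = y k r) ∧ u 0 0 = y 0 0 := by
  refine ⟨fun k => if k = 0 then y 0 else fix0 (y k), fun k => fix0 (y' k),
    fun k => if k = 0 then rd2 (N * k) (s k) (y k) (fix0 (y' k)) else
      rd2 (N * k) (s k) (fix0 (y k)) (fix0 (y' k)),
    fun k => ((N * k : ℕ) : ℝ) ^ 2 * A k + (((N * k : ℕ) : ℝ) + 1) * A' k + A k + F k, ?_, ?_, ?_⟩
  · refine ⟨hN, hρ, hφ0, hφs, ?_, hS, ?_, ?_⟩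
    · intro k
      rcases Nat.eq_zero_or_pos k with rfl | hk
      · simp only [if_true]
        have h := Mode.of_RSol (RSol_fix0 (hr 0)) (A := 0) (A' := A' 0) (A₀ := A 0) (F := F 0) hc0
          (fun h => by simp at h) fix0_zero hA0 (fun r _ => by simp) (fun r hr0 => by
            rw [fix0_of_pos hr0.1]
            simpa using hA0' r hr0) (hF 0)
        convert h using 1
        simp
      · obtain ⟨j, rfl⟩ : ∃ j, k = j + 1 := ⟨k - 1, by omega⟩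
        rw [if_neg (by omega), if_neg (by omega)]
        exact Mode.of_weight (hr (j + 1)) (ha (j + 1)) (hA j) (hA' j) (hF (j + 1))
    · intro k
      rw [fix0_of_pos one_pos]
      exact hn k
    · intro k r hr0
      have hpos := hr0.1
      have hu : ∀ j : ℕ, (if j = 0 then y 0 else fix0 (y j)) r = y j r := by
        intro j
        split_ifs with h
        · rw [h]
        · exact fix0_of_pos hpos
      have hsum : ∑' i : ℤ, MM N φ i.natAbs r *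
          (if ((k : ℤ) - i).natAbs = 0 then y 0 else fix0 (y ((k : ℤ) - i).natAbs)) r =
          ∑' i : ℤ, MM N φ i.natAbs r * y ((k : ℤ) - i).natAbs r := by
        congr 1
        funext i
        rw [hu]
      rw [hsum, ← hsrc k r hr0, hu k]
      split_ifs with h
      · subst h
        have := rd2_eq (n := N * 0) (f := s 0) (y := y 0) (y' := fix0 (y' 0)) (r := r)
        exact this
      · have := rd2_eq (n := N * k) (f := s k) (y := fix0 (y k)) (y' := fix0 (y' k)) (r := r)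
        rw [fix0_of_pos (y' := y k) hpos] at this
        exact this
  · intro k r hpos
    simp only
    split_ifs with h
    · rw [h]
    · exact fix0_of_pos hpos
  · simp

/-- bounds for the Dirichlet modes `y = X + (-X(1) r^n + ρ² Gr_n f)` -/
theorem dirichlet_bounds {n a m : ℕ} (hm : 0 < m) (hn : n = a + 2 + m) {ρ F x x' : ℝ}
    {f X X' : ℝ → ℝ} (hf : Wt a F f)
    (hX : ∀ r ∈ Ioc (0 : ℝ) 1, |X r| ≤ x * r ^ a)
    (hX' : ∀ r ∈ Ioc (0 : ℝ) 1, |X' r| ≤ x' * r ^ (a - 1)) (ha : 1 ≤ a) :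
    (∀ r ∈ Ioc (0 : ℝ) 1, |X r + (-(X 1) * r ^ n + ρ ^ 2 * Gr n f r)| ≤
      (2 * x + ρ ^ 2 * F) * r ^ a) ∧
    (∀ r ∈ Ioc (0 : ℝ) 1, |X' r + (-(X 1) * ((n : ℝ) * r ^ n / r) + ρ ^ 2 * Gr' n f r)| ≤
      (x' + n * x + ρ ^ 2 * F * 2) * r ^ (a - 1)) := by
  have hF := hf.nonneg
  have hm1 : (1:ℝ) ≤ m := by exact_mod_cast hm
  have hnr : (n : ℝ) = a + 2 + m := by rw [hn]; push_cast; ring
  have ha0 : (0:ℝ) ≤ a := Nat.cast_nonneg a
  have hd : 1 ≤ (n : ℝ) ^ 2 - ((a : ℝ) + 2) ^ 2 := by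
    have e1 : (n : ℝ) ^ 2 - ((a : ℝ) + 2) ^ 2 = m * (n + a + 2) := by rw [hnr]; ring
    rw [e1, hnr]
    nlinarith
  have h11 : (1:ℝ) ∈ Ioc (0:ℝ) 1 := ⟨one_pos, le_rfl⟩
  have hx1 : |X 1| ≤ x := by simpa using hX 1 h11
  have hx0 : 0 ≤ x := (abs_nonneg _).trans hx1
  have hx'0 : 0 ≤ x' := by
    have := hX' 1 h11
    rw [one_pow, mul_one] at this
    exact (abs_nonneg _).trans this
  constructor
  · intro r hr
    have h1 := hX r hr
    have h2 := Gr_abs_le' hf hm hn hr.1 hr.2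
    have hra : r ^ n ≤ r ^ a := pow_le_pow_of_le_one hr.1.le hr.2 (by omega)
    have hra2 : r ^ (a + 2) ≤ r ^ a := pow_le_pow_of_le_one hr.1.le hr.2 (by omega)
    have hra0 : 0 ≤ r ^ a := pow_nonneg hr.1.le a
    have h3 : F / ((n : ℝ) ^ 2 - ((a : ℝ) + 2) ^ 2) ≤ F := div_le_self hF hd
    have h4 : |Gr n f r| ≤ F * r ^ a := h2.trans (mul_le_mul h3 hra2 (pow_nonneg hr.1.le _) hF)
    calc |X r + (-(X 1) * r ^ n + ρ ^ 2 * Gr n f r)|
        ≤ |X r| + (|X 1| * r ^ n + ρ ^ 2 * |Gr n f r|) := by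
          refine (abs_add_le _ _).trans (add_le_add le_rfl ((abs_add_le _ _).trans (le_of_eq ?_)))
          rw [abs_mul, abs_neg, abs_mul, abs_of_nonneg (pow_nonneg hr.1.le n),
            abs_of_nonneg (sq_nonneg ρ)]
      _ ≤ x * r ^ a + (x * r ^ a + ρ ^ 2 * (F * r ^ a)) := by
          have := pow_nonneg hr.1.le n
          gcongr
      _ = _ := by ring
  · intro r hr
    have h1 := hX' r hr
    have h2 := Gr'_abs_le hf hm hn hr.1 hr.2
    have e1 : (n : ℝ) * r ^ n / r = n * r ^ (n - 1) := by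
      have : r ^ n = r ^ (n - 1) * r := by rw [← pow_succ]; congr 1; omega
      rw [this]
      have := hr.1.ne'
      field_simp
    have hra : r ^ (n - 1) ≤ r ^ (a - 1) := pow_le_pow_of_le_one hr.1.le hr.2 (by omega)
    have hra2 : r ^ (a + 1) ≤ r ^ (a - 1) := pow_le_pow_of_le_one hr.1.le hr.2 (by omega)
    have hra0 : 0 ≤ r ^ (a - 1) := pow_nonneg hr.1.le _
    have h3 : 1 / ((n : ℝ) + a + 2) + 1 / (2 * (m : ℝ)) ≤ 2 := by
      have h5 : 1 / ((n : ℝ) + a + 2) ≤ 1 := by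
        rw [div_le_one (by positivity)]
        rw [hnr]; linarith
      have h6 : 1 / (2 * (m : ℝ)) ≤ 1 := by
        rw [div_le_one (by positivity)]
        linarith
      linarith
    have h4 : |Gr' n f r| ≤ F * 2 * r ^ (a - 1) := by
      refine h2.trans ?_
      have h7 : 0 ≤ 1 / ((n : ℝ) + a + 2) + 1 / (2 * (m : ℝ)) := by positivity
      have h8 := pow_nonneg hr.1.le (a + 1)
      gcongr
    rw [e1]
    calc |X' r + (-(X 1) * (n * r ^ (n - 1)) + ρ ^ 2 * Gr' n f r)|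
        ≤ |X' r| + (|X 1| * (n * r ^ (n - 1)) + ρ ^ 2 * |Gr' n f r|) := by
          refine (abs_add_le _ _).trans (add_le_add le_rfl ((abs_add_le _ _).trans (le_of_eq ?_)))
          rw [abs_mul, abs_neg, abs_mul (ρ ^ 2),
            abs_of_nonneg (mul_nonneg (Nat.cast_nonneg n) (pow_nonneg hr.1.le (n - 1))),
            abs_of_nonneg (sq_nonneg ρ)]
      _ ≤ x' * r ^ (a - 1) + (x * (n * r ^ (a - 1)) + ρ ^ 2 * (F * 2 * r ^ (a - 1))) := by
          have := pow_nonneg hr.1.le (n - 1)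
          gcongr
      _ = _ := by ring

end SCHA
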