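import Mathlib

/-!
# [SCH] Bessel functions of the first kind of natural order: definitions and calculus

`Lam n s = ∑ (-s)^j / (j! (j+n)!)`, `J n x = (x/2)^n Lam n (x²/4)`.
-/

set_option autoImplicit false

open Topology

namespace SCHB

/-- the terms of the series -/
noncomputable def lt (n : ℕ) (s : ℝ) (j : ℕ) : ℝ := (-s) ^ j / ((j.factorial : ℝ) * ((j + n).factorial : ℝ))

/-- `Λ_n(s) = ∑_j (-s)^j / (j! (j+n)!)` -/
noncomputable def Lam (n : ℕ) (s : ℝ) : ℝ :=
  ∑' j : ℕ, (-s) ^ j / ((j.factorial : ℝ) * ((j + n).factorial : ℝ))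

/-- the Bessel function of order `n` -/
noncomputable def J (n : ℕ) (x : ℝ) : ℝ := (x / 2) ^ n * Lam n (x ^ 2 / 4)

theorem fac_pos (j : ℕ) : (0 : ℝ) < (j.factorial : ℝ) := by exact_mod_cast j.factorial_pos

theorem abs_lt_le (n : ℕ) (s : ℝ) (j : ℕ) :
    |lt n s j| ≤ (n.factorial : ℝ)⁻¹ * (|s| ^ j / (j.factorial : ℝ)) := by
  unfold lt
  rw [abs_div, abs_pow, abs_neg, abs_of_pos (mul_pos (fac_pos _) (fac_pos _))]
  have h1 : (n.factorial : ℝ) ≤ ((j + n).factorial : ℝ) := by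
    exact_mod_cast Nat.factorial_le (Nat.le_add_left n j)
  rw [div_le_iff₀ (mul_pos (fac_pos _) (fac_pos _))]
  have h2 : (n.factorial : ℝ)⁻¹ * (|s| ^ j / (j.factorial : ℝ)) *
      ((j.factorial : ℝ) * ((j + n).factorial : ℝ)) =
      |s| ^ j * (((j + n).factorial : ℝ) / (n.factorial : ℝ)) := by
    have := (fac_pos j).ne'
    have := (fac_pos n).ne'
    field_simp
  rw [h2]
  have h3 : (1 : ℝ) ≤ ((j + n).factorial : ℝ) / (n.factorial : ℝ) := by
    rw [one_le_div (fac_pos n)]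
    exact h1
  exact le_mul_of_one_le_right (by positivity) h3

theorem summable_lt (n : ℕ) (s : ℝ) : Summable (lt n s) :=
  Summable.of_norm_bounded ((Real.summable_pow_div_factorial |s|).mul_left _) (abs_lt_le n s)

theorem Lam_eq (n : ℕ) (s : ℝ) : Lam n s = ∑' j, lt n s j := rfl

theorem abs_Lam_le (n : ℕ) (s : ℝ) : |Lam n s| ≤ (n.factorial : ℝ)⁻¹ * Real.exp |s| := by
  rw [Lam_eq]
  have h1 := tsum_of_norm_bounded (f := lt n s) ((Real.summable_pow_div_factorial |s|).mul_left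
    (n.factorial : ℝ)⁻¹).hasSum (fun j => by rw [Real.norm_eq_abs]; exact abs_lt_le n s j)
  rw [Real.norm_eq_abs] at h1
  refine h1.trans (le_of_eq ?_)
  rw [tsum_mul_left, Real.exp_eq_exp_ℝ, NormedSpace.exp_eq_tsum_div]

/-- recurrence for `Λ` -/
theorem Lam_rec (n : ℕ) (s : ℝ) : Lam n s + s * Lam (n + 2) s = (n + 1) * Lam (n + 1) s := by
  rw [Lam_eq, Lam_eq, Lam_eq, ← tsum_mul_left, ← tsum_mul_left]
  have hf : Summable fun j : ℕ => (-s) ^ j * j / ((j.factorial : ℝ) * ((j + (n + 1)).factorial : ℝ)) := by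
    rw [← summable_nat_add_iff 1]
    have h1 := (summable_lt (n + 2) s).mul_left (-s)
    refine h1.congr fun j => ?_
    unfold lt
    have e1 : ((j + 1).factorial : ℝ) = (j + 1) * (j.factorial : ℝ) := by
      rw [Nat.factorial_succ]; push_cast; ring
    have e2 : j + 1 + (n + 1) = j + (n + 2) := by ring
    rw [e1, e2, pow_succ]
    have := (fac_pos j).ne'
    have := (fac_pos (j + (n + 2))).ne'
    push_cast
    have h3 : (j : ℝ) + 1 ≠ 0 := by positivity
    field_simp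
  have h2 : ∑' j, s * lt (n + 2) s j =
      -∑' j : ℕ, (-s) ^ j * j / ((j.factorial : ℝ) * ((j + (n + 1)).factorial : ℝ)) := by
    rw [hf.tsum_eq_zero_add]
    simp only [Nat.cast_zero, mul_zero, zero_div, zero_add]
    rw [← tsum_neg]
    refine tsum_congr fun j => ?_
    unfold lt
    have e1 : ((j + 1).factorial : ℝ) = (j + 1) * (j.factorial : ℝ) := by
      rw [Nat.factorial_succ]; push_cast; ring
    have e2 : j + 1 + (n + 1) = j + (n + 2) := by ring
    rw [e1, e2, pow_succ]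
    have := (fac_pos j).ne'
    have := (fac_pos (j + (n + 2))).ne'
    push_cast
    have h3 : (j : ℝ) + 1 ≠ 0 := by positivity
    field_simp
  rw [h2, ← sub_eq_add_neg, ← Summable.tsum_sub (summable_lt n s) hf]
  refine tsum_congr fun j => ?_
  unfold lt
  have e1 : ((j + (n + 1)).factorial : ℝ) = (j + n + 1) * ((j + n).factorial : ℝ) := by
    rw [show j + (n + 1) = (j + n) + 1 by ring, Nat.factorial_succ]; push_cast; ring
  rw [e1]
  have := (fac_pos j).ne'
  have := (fac_pos (j + n)).ne'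
  have h3 : (j : ℝ) + n + 1 ≠ 0 := by positivity
  field_simp
  ring

/-- derivative of `Λ` -/
theorem hasDerivAt_Lam (n : ℕ) (s : ℝ) : HasDerivAt (Lam n) (-Lam (n + 1) s) s := by
  let g' : ℕ → ℝ → ℝ := fun j t => -((j : ℝ) * (-t) ^ (j - 1)) /
    ((j.factorial : ℝ) * ((j + n).factorial : ℝ))
  have hg : ∀ j : ℕ, ∀ t : ℝ, HasDerivAt (fun t => lt n t j) (g' j t) t := by
    intro j t
    unfold lt
    have h1 : HasDerivAt (fun t : ℝ => (-t) ^ j) ((j : ℝ) * (-t) ^ (j - 1) * (-1)) t :=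
      (hasDerivAt_neg t).pow j
    have h2 := h1.div_const ((j.factorial : ℝ) * ((j + n).factorial : ℝ))
    refine h2.congr_deriv ?_
    simp only [g']
    ring
  have hval : ∀ t : ℝ, ∀ j : ℕ, g' (j + 1) t = -lt (n + 1) t j := by
    intro t j
    simp only [g', lt]
    have e1 : ((j + 1).factorial : ℝ) = (j + 1) * (j.factorial : ℝ) := by
      rw [Nat.factorial_succ]; push_cast; ring
    have e2 : j + 1 + n = j + (n + 1) := by ring
    rw [e1, e2, Nat.add_sub_cancel]
    have := (fac_pos j).ne'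
    have := (fac_pos (j + (n + 1))).ne'
    push_cast
    have h3 : (j : ℝ) + 1 ≠ 0 := by positivity
    field_simp
  let Rr : ℝ := |s| + 1
  let u : ℕ → ℝ := fun j => Nat.casesOn j 0 fun j => ((n + 1).factorial : ℝ)⁻¹ * (Rr ^ j / (j.factorial : ℝ))
  have hu : Summable u := by
    rw [← summable_nat_add_iff 1]
    exact (Real.summable_pow_div_factorial Rr).mul_left _
  have hg' : ∀ j : ℕ, ∀ t ∈ Metric.ball (0 : ℝ) Rr, ‖g' j t‖ ≤ u j := by
    intro j t ht
    rw [mem_ball_zero_iff, Real.norm_eq_abs] at ht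
    rcases j with _ | j
    · simp [g', u]
    · rw [hval, norm_neg, Real.norm_eq_abs]
      refine (abs_lt_le (n + 1) t j).trans ?_
      change _ ≤ ((n + 1).factorial : ℝ)⁻¹ * (Rr ^ j / (j.factorial : ℝ))
      have := fac_pos j
      have := fac_pos (n + 1)
      gcongr
  have hs : s ∈ Metric.ball (0 : ℝ) Rr := by
    rw [mem_ball_zero_iff, Real.norm_eq_abs]
    exact lt_add_one _
  have hR : 0 < Rr := by positivity
  have h1 := hasDerivAt_tsum_of_isPreconnected hu Metric.isOpen_ball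
    (convex_ball (0 : ℝ) Rr).isPreconnected (fun j t _ => hg j t) hg'
    (Metric.mem_ball_self hR) (summable_lt n 0) hs
  have h2 : ∑' j, g' j s = -Lam (n + 1) s := by
    have hsum : Summable fun j => g' j s := by
      rw [← summable_nat_add_iff 1]
      refine (summable_lt (n + 1) s).neg.congr fun j => ?_
      exact (hval s j).symm
    rw [hsum.tsum_eq_zero_add, Lam_eq, ← tsum_neg]
    have h3 : g' 0 s = 0 := by simp [g']
    rw [h3, zero_add]
    exact tsum_congr fun j => hval s j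
  rw [← h2]
  exact h1

theorem continuous_Lam (n : ℕ) : Continuous (Lam n) :=
  continuous_iff_continuousAt.2 fun s => (hasDerivAt_Lam n s).continuousAt

theorem Lam_zero_right (n : ℕ) : Lam n 0 = (n.factorial : ℝ)⁻¹ := by
  rw [Lam_eq, tsum_eq_single 0]
  · simp [lt]
  · intro j hj
    simp [lt, hj]

theorem contDiff_Lam (m : ℕ) : ∀ n : ℕ, ContDiff ℝ m (Lam n) := by
  induction m with
  | zero => intro n; exact contDiff_zero.2 (continuous_Lam n)
  | succ m ih =>
    intro n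
    push_cast
    rw [contDiff_succ_iff_deriv]
    refine ⟨fun s => (hasDerivAt_Lam n s).differentiableAt, by simp, ?_⟩
    have h1 : deriv (Lam n) = fun s => -Lam (n + 1) s := by
      funext s
      exact (hasDerivAt_Lam n s).deriv
    rw [h1]
    exact (ih (n + 1)).neg

theorem contDiff_infty_Lam (n : ℕ) : ContDiff ℝ (↑(⊤ : ℕ∞)) (Lam n) :=
  contDiff_infty.2 fun m => contDiff_Lam m n

/-! ### `J` -/

theorem J_zero_zero : J 0 0 = 1 := by
  unfold J
  rw [pow_zero, one_mul, show (0 : ℝ) ^ 2 / 4 = 0 by norm_num, Lam_zero_right]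
  simp

theorem J_succ_zero (n : ℕ) : J (n + 1) 0 = 0 := by
  unfold J
  rw [zero_div, zero_pow (Nat.succ_ne_zero n), zero_mul]

theorem J_rec (n : ℕ) (x : ℝ) : x * (J n x + J (n + 2) x) = 2 * (n + 1) * J (n + 1) x := by
  have h := Lam_rec n (x ^ 2 / 4)
  unfold J
  have e : x * ((x / 2) ^ n * Lam n (x ^ 2 / 4) + (x / 2) ^ (n + 2) * Lam (n + 2) (x ^ 2 / 4)) =
      2 * (x / 2) ^ (n + 1) * (Lam n (x ^ 2 / 4) + x ^ 2 / 4 * Lam (n + 2) (x ^ 2 / 4)) := by
    ring
  rw [e, h]
  ring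

/-- the derivative of `J n` -/
noncomputable def Jd : ℕ → ℝ → ℝ
  | 0, x => -J 1 x
  | n + 1, x => (J n x - J (n + 2) x) / 2

theorem Jd_zero (x : ℝ) : Jd 0 x = -J 1 x := rfl

theorem Jd_succ (n : ℕ) (x : ℝ) : Jd (n + 1) x = (J n x - J (n + 2) x) / 2 := rfl

theorem hasDerivAt_J (n : ℕ) (x : ℝ) : HasDerivAt (J n) (Jd n x) x := by
  have hq : HasDerivAt (fun x : ℝ => x ^ 2 / 4) (x / 2) x := by
    have := (hasDerivAt_pow 2 x).div_const 4
    refine this.congr_deriv ?_
    norm_num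
    ring
  have hL : HasDerivAt (fun x : ℝ => Lam n (x ^ 2 / 4)) (-Lam (n + 1) (x ^ 2 / 4) * (x / 2)) x :=
    HasDerivAt.comp (h₂ := Lam n) (h := fun x : ℝ => x ^ 2 / 4) x (hasDerivAt_Lam n (x ^ 2 / 4)) hq
  rcases n with _ | n
  · have h1 : J 0 = fun x : ℝ => Lam 0 (x ^ 2 / 4) := by
      funext x
      unfold J
      rw [pow_zero, one_mul]
    rw [h1]
    refine hL.congr_deriv ?_
    rw [Jd_zero]
    unfold J
    ring
  · have hp : HasDerivAt (fun x : ℝ => (x / 2) ^ (n + 1)) (((n + 1 : ℕ) : ℝ) * (x / 2) ^ n * (1 / 2)) x := by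
      have h1 : HasDerivAt (fun x : ℝ => x / 2) (1 / 2) x := (hasDerivAt_id x).div_const 2
      exact h1.pow (n + 1)
    have h2 := hp.mul hL
    refine h2.congr_deriv ?_
    rw [Jd_succ]
    have h := Lam_rec n (x ^ 2 / 4)
    unfold J
    push_cast
    have h3 : ((n : ℝ) + 1) * (x / 2) ^ n * (1 / 2) * Lam (n + 1) (x ^ 2 / 4) =
        (x / 2) ^ n / 2 * (Lam n (x ^ 2 / 4) + x ^ 2 / 4 * Lam (n + 2) (x ^ 2 / 4)) := by
      rw [h]
      ring
    rw [h3]
    ring

theorem contDiff_infty_J (n : ℕ) : ContDiff ℝ (↑(⊤ : ℕ∞)) (J n) := by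
  unfold J
  have h1 : ContDiff ℝ (↑(⊤ : ℕ∞)) fun x : ℝ => x ^ 2 / 4 := by fun_prop
  have h2 : ContDiff ℝ (↑(⊤ : ℕ∞)) fun x : ℝ => (x / 2) ^ n := by fun_prop
  exact h2.mul ((contDiff_infty_Lam n).comp h1)

theorem contDiff_J (n m : ℕ) : ContDiff ℝ m (J n) := contDiff_infty.1 (contDiff_infty_J n) m

theorem continuous_J (n : ℕ) : Continuous (J n) :=
  continuous_iff_continuousAt.2 fun x => (hasDerivAt_J n x).continuousAt

theorem differentiable_J (n : ℕ) : Differentiable ℝ (J n) := fun x =>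
  (hasDerivAt_J n x).differentiableAt

theorem deriv_J (n : ℕ) : deriv (J n) = Jd n := by
  funext x
  exact (hasDerivAt_J n x).deriv

/-- `x J_n' = n J_n - x J_{n+1}` -/
theorem mul_Jd (n : ℕ) (x : ℝ) : x * Jd n x = n * J n x - x * J (n + 1) x := by
  rcases n with _ | n
  · rw [Jd_zero]
    simp
  · rw [Jd_succ]
    have h := J_rec n x
    push_cast
    linear_combination (1 / 2) * h

/-- `x J_{n+1}' = x J_n - (n + 1) J_{n+1}` -/
theorem mul_Jd' (n : ℕ) (x : ℝ) : x * Jd (n + 1) x = x * J n x - (n + 1) * J (n + 1) x := by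
  rw [Jd_succ]
  have h := J_rec n x
  linear_combination (-1 / 2) * h

/-- second derivative of `J n` -/
noncomputable def Jdd : ℕ → ℝ → ℝ
  | 0, x => -Jd 1 x
  | n + 1, x => (Jd n x - Jd (n + 2) x) / 2

theorem hasDerivAt_Jd (n : ℕ) (x : ℝ) : HasDerivAt (Jd n) (Jdd n x) x := by
  rcases n with _ | n
  · exact (hasDerivAt_J 1 x).neg
  · exact ((hasDerivAt_J n x).sub (hasDerivAt_J (n + 2) x)).div_const 2

theorem continuous_Jd (n : ℕ) : Continuous (Jd n) :=
  continuous_iff_continuousAt.2 fun x => (hasDerivAt_Jd n x).continuousAt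

theorem continuous_Jdd (n : ℕ) : Continuous (Jdd n) := by
  rcases n with _ | n
  · exact (continuous_Jd 1).neg
  · exact ((continuous_Jd n).sub (continuous_Jd (n + 2))).div_const 2

/-- Bessel's equation -/
theorem bessel_ode (n : ℕ) (x : ℝ) :
    x ^ 2 * Jdd n x + x * Jd n x + (x ^ 2 - (n : ℝ) ^ 2) * J n x = 0 := by
  have h1 : HasDerivAt (fun x => x * Jd n x) (1 * Jd n x + x * Jdd n x) x :=
    (hasDerivAt_id x).mul (hasDerivAt_Jd n x)
  have h2 : HasDerivAt (fun x => n * J n x - x * J (n + 1) x)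
      (n * Jd n x - (1 * J (n + 1) x + x * Jd (n + 1) x)) x :=
    ((hasDerivAt_J n x).const_mul _).sub ((hasDerivAt_id x).mul (hasDerivAt_J (n + 1) x))
  have h3 : (fun x => x * Jd n x) = fun x => n * J n x - x * J (n + 1) x := by
    funext y
    exact mul_Jd n y
  rw [h3] at h1
  have h4 := h1.unique h2
  have h5 := mul_Jd n x
  have h6 := mul_Jd' n x
  linear_combination x * h4 + n * h5 - x * h6

/-- Bessel's equation, divided form -/
theorem Jdd_eq (n : ℕ) {x : ℝ} (hx : x ≠ 0) :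
    Jdd n x = -(Jd n x / x) - (1 - (n : ℝ) ^ 2 / x ^ 2) * J n x := by
  have h := bessel_ode n x
  field_simp
  linear_combination h

end SCHB
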