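import Pool.Agent.MP_83fd13_an.SCH.BesA

/-!
# [SCH] Bessel functions: universal bounds, Taylor expansions
-/

set_option autoImplicit false

open Topology

namespace SCHB

theorem abs_J_le (n : ℕ) (x : ℝ) :
    |J n x| ≤ (|x| / 2) ^ n / (n.factorial : ℝ) * Real.exp (x ^ 2 / 4) := by
  unfold J
  rw [abs_mul, abs_pow, abs_div, abs_two]
  have h1 := abs_Lam_le n (x ^ 2 / 4)
  rw [abs_of_nonneg (by positivity : (0 : ℝ) ≤ x ^ 2 / 4)] at h1
  calc (|x| / 2) ^ n * |Lam n (x ^ 2 / 4)| ≤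
      (|x| / 2) ^ n * ((n.factorial : ℝ)⁻¹ * Real.exp (x ^ 2 / 4)) :=
        mul_le_mul_of_nonneg_left h1 (by positivity)
    _ = _ := by rw [div_eq_mul_inv]; ring

/-- partial sum of squares -/
noncomputable def SQ (K : ℕ) (x : ℝ) : ℝ := J 0 x ^ 2 + 2 * ∑ k ∈ Finset.range K, J (k + 1) x ^ 2

theorem hasDerivAt_SQ (K : ℕ) (x : ℝ) : HasDerivAt (SQ K) (-2 * (J K x * J (K + 1) x)) x := by
  induction K with
  | zero =>
    have h1 := (hasDerivAt_J 0 x).pow 2
    have h2 : SQ 0 = fun x => J 0 x ^ 2 := by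
      funext y
      simp [SQ]
    rw [h2]
    refine h1.congr_deriv ?_
    rw [Jd_zero]
    push_cast
    ring
  | succ K ih =>
    have h2 : SQ (K + 1) = fun x => SQ K x + 2 * J (K + 1) x ^ 2 := by
      funext y
      simp only [SQ, Finset.sum_range_succ]
      ring
    rw [h2]
    have h3 := ih.add (((hasDerivAt_J (K + 1) x).pow 2).const_mul 2)
    refine h3.congr_deriv ?_
    rw [Jd_succ]
    norm_num
    ring

theorem SQ_zero (K : ℕ) : SQ K 0 = 1 := by
  unfold SQ
  rw [J_zero_zero]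
  simp [J_succ_zero]

theorem tendsto_SQ (x : ℝ) : Filter.Tendsto (fun K => SQ K x) Filter.atTop (𝓝 1) := by
  let c : ℕ → ℝ := fun K => 2 * (((|x| / 2) ^ K / (K.factorial : ℝ) * Real.exp (x ^ 2 / 4)) *
    ((|x| / 2) ^ (K + 1) / ((K + 1).factorial : ℝ) * Real.exp (x ^ 2 / 4)))
  have hc : Filter.Tendsto c Filter.atTop (𝓝 0) := by
    have h1 : Filter.Tendsto (fun K : ℕ => (|x| / 2) ^ K / (K.factorial : ℝ)) Filter.atTop (𝓝 0) :=
      FloorSemiring.tendsto_pow_div_factorial_atTop _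
    have h2 : Filter.Tendsto (fun K : ℕ => (|x| / 2) ^ (K + 1) / ((K + 1).factorial : ℝ))
        Filter.atTop (𝓝 0) := h1.comp (Filter.tendsto_add_atTop_nat 1)
    have h3 := ((h1.mul_const (Real.exp (x ^ 2 / 4))).mul
      (h2.mul_const (Real.exp (x ^ 2 / 4)))).const_mul 2
    simpa using h3
  have hb : ∀ K, |SQ K x - 1| ≤ c K * |x| := by
    intro K
    have hd : ∀ y ∈ Set.uIcc 0 x, HasDerivWithinAt (SQ K) (-2 * (J K y * J (K + 1) y))
        (Set.uIcc 0 x) y := fun y _ => (hasDerivAt_SQ K y).hasDerivWithinAt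
    have hbd : ∀ y ∈ Set.uIcc 0 x, ‖-2 * (J K y * J (K + 1) y)‖ ≤ c K := by
      intro y hy
      have hy1 : |y| ≤ |x| := by
        have := Set.abs_sub_left_of_mem_uIcc hy
        simpa using this
      have hy2 : y ^ 2 ≤ x ^ 2 := sq_le_sq.2 hy1
      have e : ∀ n : ℕ, |J n y| ≤ (|x| / 2) ^ n / (n.factorial : ℝ) * Real.exp (x ^ 2 / 4) := by
        intro n
        refine (abs_J_le n y).trans ?_
        have := fac_pos n
        have h2 : Real.exp (y ^ 2 / 4) ≤ Real.exp (x ^ 2 / 4) :=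
          Real.exp_le_exp.2 (by linarith)
        gcongr
      rw [Real.norm_eq_abs, abs_mul, abs_mul, abs_neg, abs_two]
      refine mul_le_mul_of_nonneg_left ?_ zero_le_two
      exact mul_le_mul (e K) (e (K + 1)) (abs_nonneg _) ((abs_nonneg _).trans (e K))
    have h1 := (convex_uIcc 0 x).norm_image_sub_le_of_norm_hasDerivWithin_le hd hbd
      Set.left_mem_uIcc Set.right_mem_uIcc
    rw [SQ_zero, sub_zero, Real.norm_eq_abs, Real.norm_eq_abs] at h1
    exact h1
  rw [tendsto_iff_norm_sub_tendsto_zero]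
  refine squeeze_zero (fun K => norm_nonneg _) hb ?_
  simpa using hc.mul_const |x|

theorem sq_J0_le (x : ℝ) : J 0 x ^ 2 ≤ 1 := by
  refine ge_of_tendsto (tendsto_SQ x) (Filter.Eventually.of_forall fun K => ?_)
  unfold SQ
  have : 0 ≤ ∑ k ∈ Finset.range K, J (k + 1) x ^ 2 := Finset.sum_nonneg fun _ _ => sq_nonneg _
  linarith

theorem sq_J_succ_le (n : ℕ) (x : ℝ) : 2 * J (n + 1) x ^ 2 ≤ 1 := by
  refine ge_of_tendsto (tendsto_SQ x) ?_
  filter_upwards [Filter.eventually_gt_atTop n] with K hK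
  unfold SQ
  have h1 : J (n + 1) x ^ 2 ≤ ∑ k ∈ Finset.range K, J (k + 1) x ^ 2 :=
    Finset.single_le_sum (f := fun k => J (k + 1) x ^ 2) (fun _ _ => sq_nonneg _)
      (Finset.mem_range.2 hK)
  nlinarith [sq_nonneg (J 0 x)]

/-- all values are at most `1` in modulus -/
theorem abs_J_le_one (n : ℕ) (x : ℝ) : |J n x| ≤ 1 := by
  rw [← sq_le_one_iff_abs_le_one]
  rcases n with _ | n
  · exact sq_J0_le x
  · have := sq_J_succ_le n x
    nlinarith [sq_nonneg (J (n + 1) x)]

theorem abs_J_succ_le (n : ℕ) (x : ℝ) : |J (n + 1) x| ≤ 0.7072 := by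
  have := sq_J_succ_le n x
  apply abs_le_of_sq_le_sq _ (by norm_num)
  nlinarith

/-! ### integer orders and all derivatives -/

/-- integer order -/
noncomputable def JZ : ℤ → ℝ → ℝ
  | Int.ofNat n, x => J n x
  | Int.negSucc n, x => (-1) ^ (n + 1) * J (n + 1) x

theorem JZ_nat (n : ℕ) (x : ℝ) : JZ (n : ℤ) x = J n x := rfl

theorem abs_JZ_le_one (k : ℤ) (x : ℝ) : |JZ k x| ≤ 1 := by
  rcases k with n | n
  · exact abs_J_le_one n x
  · change |(-1) ^ (n + 1) * J (n + 1) x| ≤ 1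
    rw [abs_mul, abs_pow, abs_neg, abs_one, one_pow, one_mul]
    exact abs_J_le_one _ _

theorem hasDerivAt_JZ (k : ℤ) (x : ℝ) :
    HasDerivAt (JZ k) ((JZ (k - 1) x - JZ (k + 1) x) / 2) x := by
  rcases k with n | n
  · rcases n with _ | n
    · have h := hasDerivAt_J 0 x
      refine h.congr_deriv ?_
      rw [Jd_zero]
      change -J 1 x = (((-1) ^ (0 + 1) * J (0 + 1) x) - J 1 x) / 2
      ring
    · have h := hasDerivAt_J (n + 1) x
      refine h.congr_deriv ?_
      rw [Jd_succ]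
      have e1 : Int.ofNat (n + 1) - 1 = (n : ℤ) := by
        simp
      have e2 : Int.ofNat (n + 1) + 1 = ((n + 2 : ℕ) : ℤ) := by
        simp
        ring
      rw [e1, e2, JZ_nat, JZ_nat]
  · have h := (hasDerivAt_J (n + 1) x).const_mul ((-1) ^ (n + 1))
    refine h.congr_deriv ?_
    rw [Jd_succ]
    have e1 : Int.negSucc n - 1 = Int.negSucc (n + 1) := rfl
    have e2 : JZ (Int.negSucc n + 1) x = (-1) ^ n * J n x := by
      rcases n with _ | n
      · change J 0 x = _
        simp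
      · rfl
    rw [e1, e2]
    change _ = ((-1) ^ (n + 1 + 1) * J (n + 1 + 1) x - _) / 2
    ring

/-- the `m`-th derivative of `J_k` -/
noncomputable def DJ : ℕ → ℤ → ℝ → ℝ
  | 0, k, x => JZ k x
  | m + 1, k, x => (DJ m (k - 1) x - DJ m (k + 1) x) / 2

theorem hasDerivAt_DJ (m : ℕ) : ∀ (k : ℤ) (x : ℝ), HasDerivAt (DJ m k) (DJ (m + 1) k x) x := by
  induction m with
  | zero => intro k x; exact hasDerivAt_JZ k x
  | succ m ih =>
    intro k x
    exact ((ih (k - 1) x).sub (ih (k + 1) x)).div_const 2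

theorem abs_DJ_le_one (m : ℕ) : ∀ (k : ℤ) (x : ℝ), |DJ m k x| ≤ 1 := by
  induction m with
  | zero => exact abs_JZ_le_one
  | succ m ih =>
    intro k x
    change |(DJ m (k - 1) x - DJ m (k + 1) x) / 2| ≤ 1
    rw [abs_div, abs_two, div_le_one two_pos]
    have h1 := ih (k - 1) x
    have h2 := ih (k + 1) x
    calc |DJ m (k - 1) x - DJ m (k + 1) x| ≤ |DJ m (k - 1) x| + |DJ m (k + 1) x| := abs_sub _ _
      _ ≤ 2 := by linarith

theorem Jd_eq_DJ (n : ℕ) (x : ℝ) : Jd n x = DJ 1 n x :=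
  (hasDerivAt_J n x).unique (hasDerivAt_DJ 0 n x)

theorem Jdd_eq_DJ (n : ℕ) (x : ℝ) : Jdd n x = DJ 2 n x := by
  have h1 : Jd n = DJ 1 n := by
    funext y
    exact Jd_eq_DJ n y
  have h2 := hasDerivAt_Jd n x
  rw [h1] at h2
  exact h2.unique (hasDerivAt_DJ 1 n x)

theorem abs_Jd_le_one (n : ℕ) (x : ℝ) : |Jd n x| ≤ 1 := by
  rw [Jd_eq_DJ]
  exact abs_DJ_le_one _ _ _

theorem abs_Jdd_le_one (n : ℕ) (x : ℝ) : |Jdd n x| ≤ 1 := by
  rw [Jdd_eq_DJ]
  exact abs_DJ_le_one _ _ _

/-- integration of a power bound -/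
theorem bound_of_deriv {g g' : ℝ → ℝ} (m : ℕ) (x : ℝ) (h0 : g x = 0)
    (hg : ∀ y, HasDerivAt g (g' y) y) (hb : ∀ y, |g' y| ≤ |y - x| ^ m / (m.factorial : ℝ)) (y : ℝ) :
    |g y| ≤ |y - x| ^ (m + 1) / ((m + 1).factorial : ℝ) := by
  have key : ∀ (g g' : ℝ → ℝ) (h0 : g x = 0) (hg : ∀ y, HasDerivAt g (g' y) y)
      (hb : ∀ y, |g' y| ≤ |y - x| ^ m / (m.factorial : ℝ)) (y : ℝ), x ≤ y →
      g y ≤ (y - x) ^ (m + 1) / ((m + 1).factorial : ℝ) := by
    intro g g' h0 hg hb y hy
    let F : ℝ → ℝ := fun y => (y - x) ^ (m + 1) / ((m + 1).factorial : ℝ) - g y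
    have hF : ∀ y, HasDerivAt F ((y - x) ^ m / (m.factorial : ℝ) - g' y) y := by
      intro y
      have h1 : HasDerivAt (fun y : ℝ => (y - x) ^ (m + 1)) (((m + 1 : ℕ) : ℝ) * (y - x) ^ m * 1) y :=
        ((hasDerivAt_id y).sub_const x).pow (m + 1)
      have h2 := (h1.div_const ((m + 1).factorial : ℝ)).sub (hg y)
      refine h2.congr_deriv ?_
      rw [Nat.factorial_succ]
      push_cast
      have := (fac_pos m).ne'
      have h3 : (m : ℝ) + 1 ≠ 0 := by positivity
      field_simp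
    have hmono : MonotoneOn F (Set.Icc x y) := by
      refine monotoneOn_of_deriv_nonneg (convex_Icc x y) ?_ ?_ ?_
      · exact fun z _ => (hF z).continuousAt.continuousWithinAt
      · exact fun z _ => (hF z).differentiableAt.differentiableWithinAt
      · intro z hz
        rw [interior_Icc] at hz
        rw [(hF z).deriv]
        have h1 := hb z
        rw [abs_of_nonneg (by linarith [hz.1] : (0 : ℝ) ≤ z - x)] at h1
        have h2 := (abs_le.1 h1).2
        linarith
    have h1 := hmono (Set.left_mem_Icc.2 hy) (Set.right_mem_Icc.2 hy) hy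
    simp only [F, h0, sub_self, ne_eq, Nat.add_eq_zero_iff, one_ne_zero, and_false,
      not_false_eq_true, zero_pow, zero_div] at h1
    linarith
  have hneg : ∀ (g g' : ℝ → ℝ) (hg : ∀ y, HasDerivAt g (g' y) y), ∀ y,
      HasDerivAt (fun y => -g y) (-g' y) y := fun g g' hg y => (hg y).neg
  rcases le_total x y with hy | hy
  · rw [abs_of_nonneg (sub_nonneg.2 hy), abs_le]
    refine ⟨?_, key g g' h0 hg hb y hy⟩
    have := key (fun y => -g y) (fun y => -g' y) (by simp [h0]) (hneg g g' hg)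
      (fun y => by rw [abs_neg]; exact hb y) y hy
    linarith
  · have hr : ∀ y, HasDerivAt (fun y => g (2 * x - y)) (-g' (2 * x - y)) y := by
      intro y
      have h1 : HasDerivAt (fun y : ℝ => 2 * x - y) (-1) y := by
        simpa using (hasDerivAt_id y).const_sub (2 * x)
      have h2 := (hg (2 * x - y)).comp y h1
      refine h2.congr_deriv ?_
      ring
    have hbr : ∀ y, |-g' (2 * x - y)| ≤ |y - x| ^ m / (m.factorial : ℝ) := by
      intro y
      rw [abs_neg]
      refine (hb _).trans (le_of_eq ?_)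
      rw [show 2 * x - y - x = -(y - x) by ring, abs_neg]
    have h0r : g (2 * x - x) = 0 := by
      rw [show 2 * x - x = x by ring, h0]
    have k1 := key (fun y => g (2 * x - y)) (fun y => -g' (2 * x - y)) h0r hr hbr (2 * x - y)
      (by linarith)
    have k2 := key (fun y => -g (2 * x - y)) (fun y => -(-g' (2 * x - y))) (by simp [h0r])
      (fun y => (hr y).neg) (fun y => by rw [abs_neg]; exact hbr y) (2 * x - y) (by linarith)
    have e : 2 * x - (2 * x - y) = y := by ring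
    have e2 : 2 * x - y - x = x - y := by ring
    simp only [e, e2] at k1 k2
    rw [abs_sub_comm, abs_of_nonneg (sub_nonneg.2 hy), abs_le]
    exact ⟨by linarith, k1⟩

/-- Taylor expansion for a sequence of successive derivatives, the last one bounded by `1` -/
theorem taylor_seq (m : ℕ) : ∀ (F : ℕ → ℝ → ℝ), (∀ i y, HasDerivAt (F i) (F (i + 1) y) y) →
    (∀ y, |F m y| ≤ 1) → ∀ x y,
    |F 0 y - ∑ i ∈ Finset.range m, F i x * (y - x) ^ i / (i.factorial : ℝ)| ≤
      |y - x| ^ m / (m.factorial : ℝ) := by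
  induction m with
  | zero =>
    intro F _ hb x y
    simpa using hb y
  | succ m ih =>
    intro F hF hb x y
    have h1 := ih (fun i => F (i + 1)) (fun i y => hF (i + 1) y) hb
    refine bound_of_deriv m x (g := fun y => F 0 y - ∑ i ∈ Finset.range (m + 1),
      F i x * (y - x) ^ i / (i.factorial : ℝ)) (g' := fun y => F 1 y - ∑ i ∈ Finset.range m,
      F (i + 1) x * (y - x) ^ i / (i.factorial : ℝ)) ?_ ?_ (fun y => h1 x y) y
    · simp only [sub_self]
      rw [Finset.sum_range_succ']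
      simp
    · intro y
      refine (hF 0 y).sub ?_
      have h2 : (fun y => ∑ i ∈ Finset.range (m + 1), F i x * (y - x) ^ i / (i.factorial : ℝ)) =
          fun y => (∑ i ∈ Finset.range m, F (i + 1) x * (y - x) ^ (i + 1) /
            ((i + 1).factorial : ℝ)) + F 0 x := by
        funext y
        rw [Finset.sum_range_succ']
        simp
      rw [h2]
      refine HasDerivAt.add_const _ ?_
      refine HasDerivAt.fun_sum fun i _ => ?_
      have h3 : HasDerivAt (fun y : ℝ => (y - x) ^ (i + 1)) (((i + 1 : ℕ) : ℝ) * (y - x) ^ i * 1) y :=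
        ((hasDerivAt_id y).sub_const x).pow (i + 1)
      have h4 := (h3.const_mul (F (i + 1) x)).div_const ((i + 1).factorial : ℝ)
      refine h4.congr_deriv ?_
      rw [Nat.factorial_succ]
      push_cast
      have := (fac_pos i).ne'
      have h5 : (i : ℝ) + 1 ≠ 0 := by positivity
      field_simp

/-- Taylor expansion of Bessel functions with the universal remainder -/
theorem taylor_J (m : ℕ) (k : ℤ) (x y : ℝ) :
    |JZ k y - ∑ i ∈ Finset.range m, DJ i k x * (y - x) ^ i / (i.factorial : ℝ)| ≤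
      |y - x| ^ m / (m.factorial : ℝ) :=
  taylor_seq m (fun i => DJ i k) (fun i y => hasDerivAt_DJ i k y) (abs_DJ_le_one m k) x y

theorem lipschitz_J (n : ℕ) (x y : ℝ) : |J n y - J n x| ≤ |y - x| := by
  have h := taylor_J 1 n x y
  simpa [DJ, JZ_nat] using h

theorem lipschitz_Jd (n : ℕ) (x y : ℝ) : |Jd n y - Jd n x| ≤ |y - x| := by
  rw [Jd_eq_DJ, Jd_eq_DJ]
  have h := taylor_seq 1 (fun i => DJ (i + 1) n) (fun i y => hasDerivAt_DJ (i + 1) n y)
    (abs_DJ_le_one 2 n) x y
  simpa using h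

theorem taylor2_J (n : ℕ) (x y : ℝ) : |J n y - J n x - Jd n x * (y - x)| ≤ (y - x) ^ 2 / 2 := by
  have h := taylor_J 2 n x y
  rw [Finset.sum_range_succ, Finset.sum_range_one, ← Jd_eq_DJ] at h
  simp only [DJ, JZ_nat, pow_zero, mul_one, Nat.factorial_zero, Nat.cast_one, div_one, pow_one,
    Nat.factorial_one, Nat.factorial_two, Nat.cast_ofNat, sq_abs] at h
  rw [sub_sub]
  exact h

theorem taylor3_J (n : ℕ) (x y : ℝ) :
    |J n y - J n x - Jd n x * (y - x) - Jdd n x * (y - x) ^ 2 / 2| ≤ |y - x| ^ 3 / 6 := by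
  have h := taylor_J 3 n x y
  rw [Finset.sum_range_succ, Finset.sum_range_succ, Finset.sum_range_one, ← Jd_eq_DJ,
    ← Jdd_eq_DJ] at h
  have e : (((3 : ℕ).factorial : ℕ) : ℝ) = 6 := by norm_num [Nat.factorial]
  rw [e] at h
  simp only [DJ, JZ_nat, pow_zero, mul_one, Nat.factorial_zero, Nat.cast_one, div_one, pow_one,
    Nat.factorial_one, Nat.factorial_two, Nat.cast_ofNat] at h
  rw [sub_sub, sub_sub, ← add_assoc]
  exact h

end SCHB
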