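import Pool.Agent.MP_83fd13_an.SCH.BesA

/-!
# [SCH] Certified values of Bessel functions at rational points

Exact integer Horner evaluation of the power series, checked by the kernel.
-/

set_option autoImplicit false

open Topology

namespace SCHB

theorem abs_lt_succ_le (n : ℕ) {s : ℝ} (hs : 0 ≤ s) (j : ℕ) (h : 2 * s ≤ (j + 1) * (j + 1 + n)) :
    |lt n s (j + 1)| ≤ |lt n s j| / 2 := by
  have e : lt n s (j + 1) = lt n s j * (-s / ((j + 1) * (j + 1 + n))) := by
    unfold lt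
    have e1 : ((j + 1).factorial : ℝ) = (j + 1) * (j.factorial : ℝ) := by
      rw [Nat.factorial_succ]; push_cast; ring
    have e2 : ((j + 1 + n).factorial : ℝ) = (j + 1 + n) * ((j + n).factorial : ℝ) := by
      rw [show j + 1 + n = (j + n) + 1 by ring, Nat.factorial_succ]; push_cast; ring
    rw [e1, e2, pow_succ]
    have := (fac_pos j).ne'
    have := (fac_pos (j + n)).ne'
    have h3 : (j : ℝ) + 1 ≠ 0 := by positivity
    have h4 : (j : ℝ) + 1 + n ≠ 0 := by positivity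
    field_simp
  rw [e, abs_mul, abs_div, abs_neg, abs_of_nonneg hs,
    abs_of_pos (by positivity : (0 : ℝ) < (j + 1) * (j + 1 + n)), div_eq_mul_one_div _ (2 : ℝ)]
  refine mul_le_mul_of_nonneg_left ?_ (abs_nonneg _)
  rw [div_le_div_iff₀ (by positivity) two_pos]
  linarith

/-- tail of the series -/
theorem tail_le (n : ℕ) {s : ℝ} (hs : 0 ≤ s) (M : ℕ) (h : 2 * s ≤ (M + 1) * (M + 1 + n)) :
    |Lam n s - ∑ j ∈ Finset.range M, lt n s j| ≤ 2 * |lt n s M| := by
  have h1 : ∀ i : ℕ, |lt n s (M + i)| ≤ |lt n s M| * (1 / 2) ^ i := by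
    intro i
    induction i with
    | zero => simp
    | succ i ih =>
      have h2 : 2 * s ≤ (((M + i : ℕ) : ℝ) + 1) * (((M + i : ℕ) : ℝ) + 1 + n) := by
        refine h.trans ?_
        push_cast
        have : (0 : ℝ) ≤ i := Nat.cast_nonneg i
        gcongr <;> linarith
      have h3 := abs_lt_succ_le n hs (M + i) h2
      rw [← add_assoc]
      refine h3.trans ?_
      rw [pow_succ]
      linarith
  have h2 : Lam n s - ∑ j ∈ Finset.range M, lt n s j = ∑' i, lt n s (i + M) := by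
    rw [Lam_eq, ← (summable_lt n s).sum_add_tsum_nat_add M]
    ring
  rw [h2]
  have h3 : HasSum (fun i : ℕ => |lt n s M| * (1 / 2 : ℝ) ^ i) (|lt n s M| * 2) :=
    hasSum_geometric_two.mul_left _
  have h4 := tsum_of_norm_bounded (f := fun i => lt n s (i + M)) h3 (fun i => by
    rw [Real.norm_eq_abs, add_comm]
    exact h1 i)
  rw [Real.norm_eq_abs] at h4
  linarith

/-- scaled partial sums -/
noncomputable def hs (n : ℕ) (s : ℝ) (i j : ℕ) : ℝ :=
  ∑ l ∈ Finset.range (i + 1), (-s) ^ l *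
    (((j.factorial : ℝ) * ((j + n).factorial : ℝ)) / (((j + l).factorial : ℝ) * ((j + l + n).factorial : ℝ)))

theorem hs_zero (n : ℕ) (s : ℝ) (j : ℕ) : hs n s 0 j = 1 := by
  unfold hs
  rw [zero_add, Finset.sum_range_one, pow_zero, one_mul, add_zero]
  exact div_self (mul_pos (fac_pos j) (fac_pos (j + n))).ne'

theorem hs_succ (n : ℕ) (s : ℝ) (i j : ℕ) :
    hs n s (i + 1) j = 1 - s / ((j + 1) * (j + 1 + n)) * hs n s i (j + 1) := by
  unfold hs
  rw [Finset.sum_range_succ', Finset.mul_sum, ← sub_eq_zero]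
  have h1 : ∀ l ∈ Finset.range (i + 1), (-s) ^ (l + 1) * (((j.factorial : ℝ) * ((j + n).factorial : ℝ)) /
      (((j + (l + 1)).factorial : ℝ) * ((j + (l + 1) + n).factorial : ℝ))) =
      -(s / ((j + 1) * (j + 1 + n)) * ((-s) ^ l * ((((j + 1).factorial : ℝ) * ((j + 1 + n).factorial : ℝ)) /
        (((j + 1 + l).factorial : ℝ) * ((j + 1 + l + n).factorial : ℝ))))) := by
    intro l _
    have e1 : ((j + 1).factorial : ℝ) = (j + 1) * (j.factorial : ℝ) := by
      rw [Nat.factorial_succ]; push_cast; ring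
    have e2 : ((j + 1 + n).factorial : ℝ) = (j + 1 + n) * ((j + n).factorial : ℝ) := by
      rw [show j + 1 + n = (j + n) + 1 by ring, Nat.factorial_succ]; push_cast; ring
    have e3 : j + (l + 1) = j + 1 + l := by ring
    rw [e1, e2, e3, pow_succ]
    have := (fac_pos j).ne'
    have := (fac_pos (j + n)).ne'
    have := (fac_pos (j + 1 + l)).ne'
    have := (fac_pos (j + 1 + l + n)).ne'
    have h3 : (j : ℝ) + 1 ≠ 0 := by positivity
    have h4 : (j : ℝ) + 1 + n ≠ 0 := by positivity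
    field_simp
  rw [Finset.sum_congr rfl h1, Finset.sum_neg_distrib, pow_zero, one_mul, add_zero,
    div_self (mul_pos (fac_pos j) (fac_pos (j + n))).ne']
  ring

theorem hs_partial (n : ℕ) (s : ℝ) (M : ℕ) :
    ∑ j ∈ Finset.range (M + 1), lt n s j = hs n s M 0 / (n.factorial : ℝ) := by
  unfold hs lt
  rw [Finset.sum_div]
  refine Finset.sum_congr rfl fun j _ => ?_
  have := (fac_pos j).ne'
  have := (fac_pos (j + n)).ne'
  have := (fac_pos n).ne'
  simp only [zero_add, Nat.factorial_zero, Nat.cast_one, one_mul]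
  field_simp

/-- Horner evaluation with integers -/
def hor (n P Q : ℕ) : ℕ → ℕ → ℤ × ℕ
  | 0, _ => (1, 1)
  | i + 1, j =>
    match hor n P Q i (j + 1) with
    | (A, B) => (((Q * ((j + 1) * (j + 1 + n)) * B : ℕ) : ℤ) - P * A, Q * ((j + 1) * (j + 1 + n)) * B)

theorem hor_spec (n P Q : ℕ) (hQ : 0 < Q) (i : ℕ) : ∀ j : ℕ, 0 < (hor n P Q i j).2 ∧
    ((hor n P Q i j).1 : ℝ) = hs n ((P : ℝ) / Q) i j * ((hor n P Q i j).2 : ℝ) := by
  induction i with
  | zero =>
    intro j
    rw [hs_zero]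
    simp [hor]
  | succ i ih =>
    intro j
    obtain ⟨h1, h2⟩ := ih (j + 1)
    rw [hs_succ]
    unfold hor
    rcases hr : hor n P Q i (j + 1) with ⟨A, B⟩
    rw [hr] at h1 h2
    simp only at h1 h2 ⊢
    refine ⟨by positivity, ?_⟩
    push_cast
    rw [h2]
    have hQ' : (Q : ℝ) ≠ 0 := by exact_mod_cast hQ.ne'
    have h3 : (j : ℝ) + 1 ≠ 0 := by positivity
    have h4 : (j : ℝ) + 1 + n ≠ 0 := by positivity
    field_simp

/-- the product `Q^M M! (M+n)! / n!` -/
theorem hor_den (n P Q : ℕ) (i : ℕ) : ∀ j : ℕ,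
    (hor n P Q i j).2 * ((j.factorial) * (j + n).factorial) =
      Q ^ i * ((j + i).factorial * (j + i + n).factorial) := by
  induction i with
  | zero =>
    intro j
    simp [hor]
  | succ i ih =>
    intro j
    have h1 := ih (j + 1)
    unfold hor
    rcases hr : hor n P Q i (j + 1) with ⟨A, B⟩
    rw [hr] at h1
    simp only at h1 ⊢
    have e1 : (j + 1).factorial = (j + 1) * j.factorial := Nat.factorial_succ j
    have e2 : (j + 1 + n).factorial = (j + 1 + n) * (j + n).factorial := by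
      rw [show j + 1 + n = (j + n) + 1 by ring, Nat.factorial_succ]
    rw [e1, e2] at h1
    have e3 : j + (i + 1) = j + 1 + i := by ring
    rw [e3, pow_succ]
    calc Q * ((j + 1) * (j + 1 + n)) * B * (j.factorial * (j + n).factorial) =
        Q * (B * ((j + 1) * j.factorial * ((j + 1 + n) * (j + n).factorial))) := by ring
      _ = _ := by rw [h1]; ring

/-- the checker: `M + 1` terms of the series -/
def chk (n p q M k : ℕ) (a b : ℤ) : Bool :=
  match hor n (p * p) (4 * (q * q)) M 0 with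
  | (A, B) =>
    Nat.ble (2 * (p * p)) (4 * (q * q) * ((M + 2) * (M + 2 + n))) && (Nat.ble 1 q &&
    (decide (a * (((2 * q) ^ n * n.factorial * B * (4 * (q * q) * ((M + 1) * (M + 1 + n))) : ℕ) : ℤ) +
        ((10 ^ k * (2 * p ^ n * (p * p) ^ (M + 1)) : ℕ) : ℤ) ≤
        ((10 ^ k * p ^ n * (4 * (q * q) * ((M + 1) * (M + 1 + n))) : ℕ) : ℤ) * A) &&
    decide (((10 ^ k * p ^ n * (4 * (q * q) * ((M + 1) * (M + 1 + n))) : ℕ) : ℤ) * A +
        ((10 ^ k * (2 * p ^ n * (p * p) ^ (M + 1)) : ℕ) : ℤ) ≤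
        b * (((2 * q) ^ n * n.factorial * B * (4 * (q * q) * ((M + 1) * (M + 1 + n))) : ℕ) : ℤ))))

theorem chk_sound {n p q M k : ℕ} {a b : ℤ} (h : chk n p q M k a b = true) :
    (a : ℝ) / 10 ^ k ≤ J n ((p : ℝ) / q) ∧ J n ((p : ℝ) / q) ≤ (b : ℝ) / 10 ^ k := by
  unfold chk at h
  rcases hr : hor n (p * p) (4 * (q * q)) M 0 with ⟨A, B⟩
  rw [hr] at h
  simp only [Bool.and_eq_true, decide_eq_true_eq, Nat.ble_eq] at h
  obtain ⟨h1, h2, h3, h4⟩ := h
  have hq : 0 < q := h2
  have hqR : (0 : ℝ) < q := by exact_mod_cast hq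
  have hQ : 0 < 4 * (q * q) := by positivity
  have hs1 := hor_spec n (p * p) (4 * (q * q)) hQ M 0
  have hs2 := hor_den n (p * p) (4 * (q * q)) M 0
  rw [hr] at hs1 hs2
  simp only at hs1 hs2
  obtain ⟨hB, hA⟩ := hs1
  set s : ℝ := ((p : ℝ) / q) ^ 2 / 4 with hsdef
  have hs0 : 0 ≤ s := by positivity
  have hsPQ : (((p * p : ℕ) : ℝ) / ((4 * (q * q) : ℕ) : ℝ)) = s := by
    rw [hsdef]
    push_cast
    field_simp
  rw [hsPQ] at hA
  have hratio : 2 * s ≤ (((M + 1 : ℕ) : ℝ) + 1) * (((M + 1 : ℕ) : ℝ) + 1 + n) := by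
    rw [← hsPQ]
    have h5 : (((2 * (p * p) : ℕ)) : ℝ) ≤ ((4 * (q * q) * ((M + 2) * (M + 2 + n)) : ℕ) : ℝ) := by
      exact_mod_cast h1
    push_cast at h5 ⊢
    rw [← mul_div_assoc, div_le_iff₀ (by positivity)]
    linarith
  have htail := tail_le n hs0 (M + 1) hratio
  rw [hs_partial] at htail
  have hBR : (0 : ℝ) < B := by exact_mod_cast hB
  have hnf := fac_pos n
  have hval : hs n s M 0 = (A : ℝ) / B := by
    rw [hA]
    field_simp
  rw [hval] at htail
  -- the product form of the denominators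
  have hden : (B : ℝ) * (n.factorial : ℝ) = (4 * ((q : ℝ) * q)) ^ M * ((M.factorial : ℝ) *
      ((M + n).factorial : ℝ)) := by
    have := congrArg (fun m : ℕ => (m : ℝ)) hs2
    push_cast at this
    simpa using this
  have hlt : |lt n s (M + 1)| = s ^ (M + 1) / (((M + 1).factorial : ℝ) * ((M + 1 + n).factorial : ℝ)) := by
    unfold lt
    rw [abs_div, abs_pow, abs_neg, abs_of_nonneg hs0, abs_of_pos (mul_pos (fac_pos _) (fac_pos _))]
  set w : ℝ := 4 * ((q : ℝ) * q) * ((M + 1) * (M + 1 + n)) with hw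
  have hwpos : 0 < w := by positivity
  have hDD : (B : ℝ) * (n.factorial : ℝ) * w = (4 * ((q : ℝ) * q)) ^ (M + 1) *
      (((M + 1).factorial : ℝ) * ((M + 1 + n).factorial : ℝ)) := by
    rw [hden, hw]
    have e1 : ((M + 1).factorial : ℝ) = (M + 1) * (M.factorial : ℝ) := by
      rw [Nat.factorial_succ]; push_cast; ring
    have e2 : ((M + 1 + n).factorial : ℝ) = (M + 1 + n) * ((M + n).factorial : ℝ) := by
      rw [show M + 1 + n = (M + n) + 1 by ring, Nat.factorial_succ]; push_cast; ring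
    rw [e1, e2, pow_succ]
    ring
  have herr : 2 * |lt n s (M + 1)| = 2 * ((p : ℝ) * p) ^ (M + 1) / ((B : ℝ) * (n.factorial : ℝ) * w) := by
    rw [hlt, hDD, hsdef]
    have e : ((p : ℝ) / q) ^ 2 / 4 = ((p : ℝ) * p) / (4 * ((q : ℝ) * q)) := by
      field_simp
    rw [e, div_pow]
    have := fac_pos (M + 1)
    have := fac_pos (M + 1 + n)
    field_simp
  rw [herr] at htail
  have hJ : J n ((p : ℝ) / q) = ((p : ℝ) / q / 2) ^ n * Lam n s := rfl
  set D : ℝ := (2 * (q : ℝ)) ^ n * (n.factorial : ℝ) * B * w with hD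
  have hDpos : 0 < D := by positivity
  have hk : (0 : ℝ) < 10 ^ k := by positivity
  have hc : ((p : ℝ) / q / 2) ^ n = (p : ℝ) ^ n / (2 * (q : ℝ)) ^ n := by
    rw [← div_pow]
    congr 1
    field_simp
  -- main inequality for `J`
  have hmain : |J n ((p : ℝ) / q) * D - (p : ℝ) ^ n * A * w| ≤ 2 * (p : ℝ) ^ n * ((p : ℝ) * p) ^ (M + 1) := by
    have e1 : J n ((p : ℝ) / q) * D - (p : ℝ) ^ n * A * w = (p : ℝ) ^ n * ((n.factorial : ℝ) * B * w) *
        (Lam n s - (A : ℝ) / B / (n.factorial : ℝ)) := by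
      rw [hJ, hc, hD]
      field_simp
    rw [e1, abs_mul, abs_of_nonneg (by positivity : (0 : ℝ) ≤ (p : ℝ) ^ n * ((n.factorial : ℝ) * B * w))]
    calc (p : ℝ) ^ n * ((n.factorial : ℝ) * B * w) * |Lam n s - (A : ℝ) / B / (n.factorial : ℝ)|
        ≤ (p : ℝ) ^ n * ((n.factorial : ℝ) * B * w) *
          (2 * ((p : ℝ) * p) ^ (M + 1) / ((B : ℝ) * (n.factorial : ℝ) * w)) :=
          mul_le_mul_of_nonneg_left htail (by positivity)
      _ = 2 * (p : ℝ) ^ n * ((p : ℝ) * p) ^ (M + 1) := by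
          field_simp
  obtain ⟨hm1, hm2⟩ := abs_le.1 hmain
  have h3R : (a : ℝ) * D + 10 ^ k * (2 * (p : ℝ) ^ n * ((p : ℝ) * p) ^ (M + 1)) ≤
      10 ^ k * (p : ℝ) ^ n * w * A := by
    have := (Int.cast_le (R := ℝ)).2 h3
    push_cast at this
    rw [hD, hw]
    linarith
  have h4R : 10 ^ k * (p : ℝ) ^ n * w * A + 10 ^ k * (2 * (p : ℝ) ^ n * ((p : ℝ) * p) ^ (M + 1)) ≤
      (b : ℝ) * D := by
    have := (Int.cast_le (R := ℝ)).2 h4
    push_cast at this
    rw [hD, hw]
    linarith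
  have g1 := mul_le_mul_of_nonneg_left hm1 hk.le
  have g2 := mul_le_mul_of_nonneg_left hm2 hk.le
  generalize J n ((p : ℝ) / q) = X at *
  constructor
  · rw [div_le_iff₀ hk]
    have h5 : (a : ℝ) * D ≤ X * 10 ^ k * D := by
      linarith
    exact le_of_mul_le_mul_right h5 hDpos
  · rw [le_div_iff₀ hk]
    have h5 : X * 10 ^ k * D ≤ (b : ℝ) * D := by
      linarith
    exact le_of_mul_le_mul_right h5 hDpos

end SCHB
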