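import Pool.Agent.MP_83fd13_an.SCH.BesB
import Pool.Agent.MP_83fd13_an.SCH.BesC

/-!
# [SCH] grids: definitions and the covering argument
-/

set_option autoImplicit false

open Topology

namespace SCHB

theorem natAbs_cast_real (z : ℤ) : ((z.natAbs : ℕ) : ℝ) = |(z : ℝ)| := by
  rw [← Int.cast_abs, Nat.cast_natAbs]

/-- all of `f 0, …, f (N-1)` -/
def allN (f : ℕ → Bool) : ℕ → Bool
  | 0 => true
  | i + 1 => f i && allN f i

theorem allN_spec {f : ℕ → Bool} {N : ℕ} (h : allN f N = true) : ∀ i < N, f i = true := by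
  induction N with
  | zero => intro i hi; omega
  | succ N ih =>
    unfold allN at h
    rw [Bool.and_eq_true] at h
    intro i hi
    rcases Nat.lt_succ_iff_lt_or_eq.1 hi with h1 | h1
    · exact ih h.2 i h1
    · rw [h1]; exact h.1

/-- covering argument -/
theorem cover {x0 : ℕ} {q T N : ℕ} (hq : 0 < q) {y : ℝ} (h0 : (x0 : ℝ) / q ≤ y)
    (h1 : y ≤ ((x0 + 2 * N : ℕ) : ℝ) / q) (hN : 0 < N) (hT : q = T) :
    ∃ i < N, |y - ((x0 + (2 * i + 1) : ℕ) : ℝ) / q| ≤ 1 / T := by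
  subst hT
  have hqR : (0 : ℝ) < q := by exact_mod_cast hq
  rw [div_le_iff₀ hqR] at h0
  rw [le_div_iff₀ hqR] at h1
  have hz0 : 0 ≤ (y * q - x0) / 2 := by linarith
  by_cases hlast : (y * q - x0) / 2 < N
  · refine ⟨⌊(y * q - x0) / 2⌋₊, (Nat.floor_lt hz0).2 hlast, ?_⟩
    have f1 := Nat.floor_le hz0
    have f2 := Nat.lt_floor_add_one ((y * q - x0) / 2)
    set m := ⌊(y * q - x0) / 2⌋₊
    have e : y - ((x0 + (2 * m + 1) : ℕ) : ℝ) / q = (y * q - x0 - (2 * m + 1)) / q := by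
      push_cast
      field_simp
      ring
    rw [e, abs_div, abs_of_pos hqR, div_le_div_iff_of_pos_right hqR, abs_le]
    constructor <;> linarith
  · refine ⟨N - 1, by omega, ?_⟩
    push Not at hlast
    have e1 : ((N - 1 : ℕ) : ℝ) = (N : ℝ) - 1 := by
      rw [Nat.cast_sub (by omega)]
      simp
    have e : y - ((x0 + (2 * (N - 1) + 1) : ℕ) : ℝ) / q = (y * q - x0 - (2 * N - 1)) / q := by
      push_cast
      rw [e1]
      field_simp
      ring
    rw [e, abs_div, abs_of_pos hqR, div_le_div_iff_of_pos_right hqR, abs_le]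
    push_cast at h1
    constructor <;> linarith

theorem taylor2_Jd (n : ℕ) (x y : ℝ) : |Jd n y - Jd n x - Jdd n x * (y - x)| ≤ (y - x) ^ 2 / 2 := by
  have h := taylor_seq 2 (fun i => DJ (i + 1) n) (fun i y => hasDerivAt_DJ (i + 1) n y)
    (abs_DJ_le_one 3 n) x y
  rw [Finset.sum_range_succ, Finset.sum_range_one] at h
  simp only [pow_zero, mul_one, Nat.factorial_zero, Nat.cast_one, div_one, pow_one,
    Nat.factorial_one, Nat.factorial_two, Nat.cast_ofNat, sq_abs, zero_add, Nat.reduceAdd] at h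
  rw [← Jd_eq_DJ, ← Jd_eq_DJ, ← Jdd_eq_DJ] at h
  rw [sub_sub]
  exact h

/-- unit enclosures from the checker in absolute form -/
theorem chk_abs {n p q M k : ℕ} {v : ℤ} (h : chk n p q M k (v - 1) (v + 1) = true) :
    |J n ((p : ℝ) / q) - (v : ℝ) / 10 ^ k| ≤ 1 / 10 ^ k := by
  obtain ⟨h1, h2⟩ := chk_sound h
  push_cast at h1 h2
  rw [sub_div] at h1
  rw [add_div] at h2
  rw [abs_le]
  constructor <;> linarith

end SCHB
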