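import Pool.Agent.MP_83fd13_an.SCH.BesD
import Pool.Agent.MP_83fd13_an.SCH.BesEd

/-!
# [SCH] the cell check for derivatives
-/

set_option autoImplicit false

open Topology

namespace SCHB

/-- check on one cell: `|J_{n+2}'| ≤ A / 10^6` from the values of `J_n, …, J_{n+4}` -/
def oneE (T A : ℕ) (a b c d e : ℤ) : Bool :=
  Nat.ble (2 * T ^ 2 * ((b - d).natAbs + 4) + ((a - 2 * c + e).natAbs + 8) * T + 2000000)
    (4 * A * T ^ 2)

/-- one cell -/
def cellE (n A T c q M : ℕ) : Bool :=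
  (vok n c q M 6 && vok (n + 1) c q M 6 && vok (n + 2) c q M 6 && vok (n + 3) c q M 6 &&
    vok (n + 4) c q M 6) &&
  oneE T A (val n c q M 6) (val (n + 1) c q M 6) (val (n + 2) c q M 6) (val (n + 3) c q M 6)
    (val (n + 4) c q M 6)

theorem cellE_sound {n A T c q M : ℕ} (hT : 0 < T) (h : cellE n A T c q M = true) {y : ℝ}
    (hy : |y - (c : ℝ) / q| ≤ 1 / T) : |Jd (n + 2) y| ≤ A / 10 ^ 6 := by
  unfold cellE at h
  simp only [Bool.and_eq_true] at h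
  obtain ⟨⟨⟨⟨⟨a0, a1⟩, a2⟩, a3⟩, a4⟩, hh⟩ := h
  have v0 := val_sound a0
  have v1 := val_sound a1
  have v2 := val_sound a2
  have v3 := val_sound a3
  have v4 := val_sound a4
  unfold oneE at hh
  rw [Nat.ble_eq] at hh
  set x : ℝ := (c : ℝ) / q with hx
  set m0 := val n c q M 6
  set m1 := val (n + 1) c q M 6
  set m2 := val (n + 2) c q M 6
  set m3 := val (n + 3) c q M 6
  set m4 := val (n + 4) c q M 6
  have hR : 2 * (T : ℝ) ^ 2 * (|(m1 : ℝ) - m3| + 4) + (|(m0 : ℝ) - 2 * m2 + m4| + 8) * T + 2000000 ≤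
      4 * A * (T : ℝ) ^ 2 := by
    have h1 := (Nat.cast_le (α := ℝ)).2 hh
    have e1 : (((m1 - m3).natAbs : ℕ) : ℝ) = |(m1 : ℝ) - m3| := by
      rw [natAbs_cast_real]
      push_cast
      rfl
    have e2 : (((m0 - 2 * m2 + m4).natAbs : ℕ) : ℝ) = |(m0 : ℝ) - 2 * m2 + m4| := by
      rw [natAbs_cast_real]
      push_cast
      rfl
    rw [← e1, ← e2]
    push_cast at h1 ⊢
    linarith
  have hTR : (0 : ℝ) < T := by exact_mod_cast hT
  have hd : |Jd (n + 2) x| * 2 * 10 ^ 6 ≤ |(m1 : ℝ) - m3| + 4 := by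
    rw [show n + 2 = (n + 1) + 1 from rfl, Jd_succ]
    have h5 : |(J (n + 1) x - J (n + 1 + 2) x) * 10 ^ 6| ≤ |(m1 : ℝ) - m3| + 4 := by
      calc |(J (n + 1) x - J (n + 1 + 2) x) * 10 ^ 6| = |((m1 : ℝ) - m3) +
            ((J (n + 1) x * 10 ^ 6 - m1) - (J (n + 3) x * 10 ^ 6 - m3))| := by
              rw [show n + 1 + 2 = n + 3 from rfl]
              ring_nf
        _ ≤ |(m1 : ℝ) - m3| + |(J (n + 1) x * 10 ^ 6 - m1) - (J (n + 3) x * 10 ^ 6 - m3)| :=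
            abs_add_le _ _
        _ ≤ |(m1 : ℝ) - m3| + (|J (n + 1) x * 10 ^ 6 - m1| + |J (n + 3) x * 10 ^ 6 - m3|) := by
            gcongr
            exact abs_sub _ _
        _ ≤ |(m1 : ℝ) - m3| + 4 := by linarith
    rw [abs_mul, abs_of_pos (by positivity : (0 : ℝ) < 10 ^ 6)] at h5
    rw [abs_div, abs_two]
    linarith
  have hdd : |Jdd (n + 2) x| * 4 * 10 ^ 6 ≤ |(m0 : ℝ) - 2 * m2 + m4| + 8 := by
    have e : Jdd (n + 2) x = (J n x - 2 * J (n + 2) x + J (n + 4) x) / 4 := by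
      change (Jd (n + 1) x - Jd (n + 3) x) / 2 = _
      rw [show n + 3 = (n + 2) + 1 from rfl, Jd_succ, Jd_succ]
      ring
    rw [e]
    have h5 : |(J n x - 2 * J (n + 2) x + J (n + 4) x) * 10 ^ 6| ≤ |(m0 : ℝ) - 2 * m2 + m4| + 8 := by
      calc |(J n x - 2 * J (n + 2) x + J (n + 4) x) * 10 ^ 6| = |((m0 : ℝ) - 2 * m2 + m4) +
            ((J n x * 10 ^ 6 - m0) - 2 * (J (n + 2) x * 10 ^ 6 - m2) +
              (J (n + 4) x * 10 ^ 6 - m4))| := by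
              ring_nf
        _ ≤ |(m0 : ℝ) - 2 * m2 + m4| +
            |(J n x * 10 ^ 6 - m0) - 2 * (J (n + 2) x * 10 ^ 6 - m2) +
              (J (n + 4) x * 10 ^ 6 - m4)| :=
            abs_add_le _ _
        _ ≤ |(m0 : ℝ) - 2 * m2 + m4| + (|J n x * 10 ^ 6 - m0| + 2 * |J (n + 2) x * 10 ^ 6 - m2| +
            |J (n + 4) x * 10 ^ 6 - m4|) := by
            gcongr
            refine (abs_add_le _ _).trans (add_le_add ((abs_sub _ _).trans ?_) le_rfl)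
            rw [abs_mul, abs_two]
        _ ≤ |(m0 : ℝ) - 2 * m2 + m4| + 8 := by linarith
    rw [abs_mul, abs_of_pos (by positivity : (0 : ℝ) < 10 ^ 6)] at h5
    rw [abs_div, abs_of_pos (by norm_num : (0 : ℝ) < 4)]
    linarith
  have ht := taylor2_Jd (n + 2) x y
  have h6 : |Jd (n + 2) y| ≤ |Jd (n + 2) x| + |Jdd (n + 2) x| * |y - x| + (y - x) ^ 2 / 2 := by
    calc |Jd (n + 2) y| = |Jd (n + 2) x + Jdd (n + 2) x * (y - x) +
          (Jd (n + 2) y - Jd (n + 2) x - Jdd (n + 2) x * (y - x))| := by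
          ring_nf
      _ ≤ |Jd (n + 2) x + Jdd (n + 2) x * (y - x)| +
          |Jd (n + 2) y - Jd (n + 2) x - Jdd (n + 2) x * (y - x)| := abs_add_le _ _
      _ ≤ (|Jd (n + 2) x| + |Jdd (n + 2) x * (y - x)|) + (y - x) ^ 2 / 2 :=
          add_le_add (abs_add_le _ _) ht
      _ = _ := by rw [abs_mul]
  have h7 : (y - x) ^ 2 ≤ (1 / (T : ℝ)) ^ 2 := by
    rw [← sq_abs]
    gcongr
  have h8 : |Jdd (n + 2) x| * |y - x| ≤ |Jdd (n + 2) x| * (1 / T) :=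
    mul_le_mul_of_nonneg_left hy (abs_nonneg _)
  have h9 : |Jd (n + 2) x| + |Jdd (n + 2) x| * (1 / T) + (1 / (T : ℝ)) ^ 2 / 2 ≤ A / 10 ^ 6 := by
    have e : |Jd (n + 2) x| + |Jdd (n + 2) x| * (1 / T) + (1 / (T : ℝ)) ^ 2 / 2 =
        (2 * (T : ℝ) ^ 2 * |Jd (n + 2) x| + 2 * |Jdd (n + 2) x| * T + 1) / (2 * (T : ℝ) ^ 2) := by
      field_simp
    rw [e, div_le_div_iff₀ (by positivity) (by norm_num)]
    have g1 := mul_le_mul_of_nonneg_left hd (by positivity : (0 : ℝ) ≤ 2 * (T : ℝ) ^ 2)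
    have g2 := mul_le_mul_of_nonneg_right hdd hTR.le
    norm_num at g1 g2 ⊢
    linarith
  linarith

end SCHB
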