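import Pool.Agent.MP_83fd13_an.SCH.BesC

/-!
# [SCH] Certified rounded values; energies of `√x J_n`
-/

set_option autoImplicit false

open Topology

namespace SCHB

/-- rounded value of `10^k J_n(p/q)` from `M + 1` terms of the series -/
def val (n p q M k : ℕ) : ℤ :=
  match hor n (p * p) (4 * (q * q)) M 0 with
  | (A, B) => (((10 ^ k * p ^ n : ℕ) : ℤ) * A) / (((2 * q) ^ n * n.factorial * B : ℕ) : ℤ)

/-- the truncation error is at most one unit -/
def vok (n p q M k : ℕ) : Bool :=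
  Nat.ble (2 * (p * p)) (4 * (q * q) * ((M + 2) * (M + 2 + n))) && (Nat.ble 1 q &&
    Nat.ble (10 ^ k * (2 * p ^ n * (p * p) ^ (M + 1)))
      ((2 * q) ^ n * ((4 * (q * q)) ^ (M + 1) * ((M + 1).factorial * (M + 1 + n).factorial))))

theorem val_sound {n p q M k : ℕ} (h : vok n p q M k = true) :
    |J n ((p : ℝ) / q) * 10 ^ k - (val n p q M k : ℝ)| ≤ 2 := by
  unfold vok at h
  simp only [Bool.and_eq_true, Nat.ble_eq] at h
  obtain ⟨h1, h2, h3⟩ := h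
  have hq : 0 < q := h2
  have hqR : (0 : ℝ) < q := by exact_mod_cast hq
  have hQ : 0 < 4 * (q * q) := by positivity
  have hs1 := hor_spec n (p * p) (4 * (q * q)) hQ M 0
  unfold val
  rcases hr : hor n (p * p) (4 * (q * q)) M 0 with ⟨A, B⟩
  rw [hr] at hs1
  simp only at hs1 ⊢
  obtain ⟨hB, hA⟩ := hs1
  set s : ℝ := ((p : ℝ) / q) ^ 2 / 4 with hsdef
  have hs0 : 0 ≤ s := by positivity
  have hsPQ : (((p * p : ℕ) : ℝ) / ((4 * (q * q) : ℕ) : ℝ)) = s := by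
    rw [hsdef]
    push_cast
    field_simp
  rw [hsPQ] at hA
  have hratio : 2 * s ≤ (((M + 1 : ℕ) : ℝ) + 1) * (((M + 1 : ℕ) : ℝ) + 1 + n) := by
    rw [← hsPQ]
    have h5 : (((2 * (p * p) : ℕ)) : ℝ) ≤ ((4 * (q * q) * ((M + 2) * (M + 2 + n)) : ℕ) : ℝ) := by
      exact_mod_cast h1
    push_cast at h5 ⊢
    rw [← mul_div_assoc, div_le_iff₀ (by positivity)]
    linarith
  have htail := tail_le n hs0 (M + 1) hratio
  rw [hs_partial] at htail
  have hBR : (0 : ℝ) < B := by exact_mod_cast hB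
  have hnf := fac_pos n
  have hval : hs n s M 0 = (A : ℝ) / B := by
    rw [hA]
    field_simp
  rw [hval] at htail
  have hlt : |lt n s (M + 1)| = s ^ (M + 1) / (((M + 1).factorial : ℝ) * ((M + 1 + n).factorial : ℝ)) := by
    unfold lt
    rw [abs_div, abs_pow, abs_neg, abs_of_nonneg hs0, abs_of_pos (mul_pos (fac_pos _) (fac_pos _))]
  have hJ : J n ((p : ℝ) / q) = ((p : ℝ) / q / 2) ^ n * Lam n s := rfl
  have hk : (0 : ℝ) < 10 ^ k := by positivity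
  have hc : ((p : ℝ) / q / 2) ^ n = (p : ℝ) ^ n / (2 * (q : ℝ)) ^ n := by
    rw [← div_pow]
    congr 1
    field_simp
  -- truncation
  have ht : |J n ((p : ℝ) / q) * 10 ^ k - 10 ^ k * (p : ℝ) ^ n * A /
      ((2 * (q : ℝ)) ^ n * (n.factorial : ℝ) * B)| ≤ 1 := by
    have e1 : J n ((p : ℝ) / q) * 10 ^ k - 10 ^ k * (p : ℝ) ^ n * A /
        ((2 * (q : ℝ)) ^ n * (n.factorial : ℝ) * B) = (10 ^ k * (p : ℝ) ^ n / (2 * (q : ℝ)) ^ n) *
        (Lam n s - (A : ℝ) / B / (n.factorial : ℝ)) := by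
      rw [hJ, hc]
      field_simp
    rw [e1, abs_mul, abs_of_nonneg (by positivity :
      (0 : ℝ) ≤ 10 ^ k * (p : ℝ) ^ n / (2 * (q : ℝ)) ^ n)]
    refine (mul_le_mul_of_nonneg_left htail (by positivity)).trans ?_
    have h3R : 10 ^ k * (2 * (p : ℝ) ^ n * ((p : ℝ) * p) ^ (M + 1)) ≤
        (2 * (q : ℝ)) ^ n * ((4 * ((q : ℝ) * q)) ^ (M + 1) *
          (((M + 1).factorial : ℝ) * ((M + 1 + n).factorial : ℝ))) := by
      have := (Nat.cast_le (α := ℝ)).2 h3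
      push_cast at this
      exact this
    have e : s = ((p : ℝ) * p) / (4 * ((q : ℝ) * q)) := by
      rw [hsdef]
      field_simp
    rw [hlt, e, div_pow]
    have := fac_pos (M + 1)
    have := fac_pos (M + 1 + n)
    have e3 : 10 ^ k * (p : ℝ) ^ n / (2 * (q : ℝ)) ^ n * (2 * (((p : ℝ) * p) ^ (M + 1) /
        (4 * ((q : ℝ) * q)) ^ (M + 1) / (((M + 1).factorial : ℝ) * ((M + 1 + n).factorial : ℝ)))) =
        (10 ^ k * (2 * (p : ℝ) ^ n * ((p : ℝ) * p) ^ (M + 1))) / ((2 * (q : ℝ)) ^ n *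
        ((4 * ((q : ℝ) * q)) ^ (M + 1) * (((M + 1).factorial : ℝ) * ((M + 1 + n).factorial : ℝ)))) := by
      field_simp
    rw [e3, div_le_one (by positivity)]
    exact h3R
  -- rounding
  have hr2 : |10 ^ k * (p : ℝ) ^ n * A / ((2 * (q : ℝ)) ^ n * (n.factorial : ℝ) * B) -
      ((((10 ^ k * p ^ n : ℕ) : ℤ) * A / (((2 * q) ^ n * n.factorial * B : ℕ) : ℤ) : ℤ) : ℝ)| ≤ 1 := by
    set N1 : ℤ := ((10 ^ k * p ^ n : ℕ) : ℤ) * A with hN1
    set D1 : ℤ := (((2 * q) ^ n * n.factorial * B : ℕ) : ℤ) with hD1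
    have hD1pos : 0 < D1 := by
      rw [hD1]
      have : 0 < (2 * q) ^ n * n.factorial * B := by
        have := Nat.factorial_pos n
        positivity
      exact_mod_cast this
    have hD1R : (0 : ℝ) < D1 := by exact_mod_cast hD1pos
    have e1 : 10 ^ k * (p : ℝ) ^ n * A / ((2 * (q : ℝ)) ^ n * (n.factorial : ℝ) * B) = (N1 : ℝ) / D1 := by
      rw [hN1, hD1]
      push_cast
      rfl
    rw [e1]
    have e2 : N1 = D1 * (N1 / D1) + N1 % D1 := (Int.mul_ediv_add_emod N1 D1).symm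
    have e3 : (N1 : ℝ) = D1 * ((N1 / D1 : ℤ) : ℝ) + ((N1 % D1 : ℤ) : ℝ) := by exact_mod_cast e2
    have e4 : (0 : ℝ) ≤ ((N1 % D1 : ℤ) : ℝ) := by exact_mod_cast Int.emod_nonneg N1 hD1pos.ne'
    have e5 : ((N1 % D1 : ℤ) : ℝ) ≤ D1 := by exact_mod_cast (Int.emod_lt_of_pos N1 hD1pos).le
    have e6 : (N1 : ℝ) / D1 - ((N1 / D1 : ℤ) : ℝ) = ((N1 % D1 : ℤ) : ℝ) / D1 := by
      rw [e3]
      field_simp
      ring
    rw [e6, abs_of_nonneg (by positivity), div_le_one hD1R]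
    exact e5
  calc |J n ((p : ℝ) / q) * 10 ^ k -
      ((((10 ^ k * p ^ n : ℕ) : ℤ) * A / (((2 * q) ^ n * n.factorial * B : ℕ) : ℤ) : ℤ) : ℝ)|
      ≤ |J n ((p : ℝ) / q) * 10 ^ k - 10 ^ k * (p : ℝ) ^ n * A /
        ((2 * (q : ℝ)) ^ n * (n.factorial : ℝ) * B)| +
        |10 ^ k * (p : ℝ) ^ n * A / ((2 * (q : ℝ)) ^ n * (n.factorial : ℝ) * B) -
        ((((10 ^ k * p ^ n : ℕ) : ℤ) * A / (((2 * q) ^ n * n.factorial * B : ℕ) : ℤ) : ℤ) : ℝ)| :=
          abs_sub_le _ _ _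
    _ ≤ 2 := by linarith

/-! ### energies -/

/-- energy of `√x J_n` -/
noncomputable def En (n : ℕ) (x : ℝ) : ℝ :=
  x * J n x ^ 2 + x * (J n x + 2 * x * Jd n x) ^ 2 / (4 * x ^ 2 - 4 * n ^ 2 + 1)

theorem hasDerivAt_En (n : ℕ) {x : ℝ} (hd : 4 * x ^ 2 - 4 * (n : ℝ) ^ 2 + 1 ≠ 0) :
    HasDerivAt (En n) (-(2 * (4 * (n : ℝ) ^ 2 - 1)) * (J n x + 2 * x * Jd n x) ^ 2 /
      (4 * x ^ 2 - 4 * n ^ 2 + 1) ^ 2) x := by
  have h1 := hasDerivAt_J n x
  have h2 := hasDerivAt_Jd n x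
  have hid := hasDerivAt_id x
  have a1 : HasDerivAt (fun y => y * J n y ^ 2) (1 * J n x ^ 2 + x * (2 * J n x * Jd n x)) x := by
    have := hid.mul (h1.pow 2)
    refine this.congr_deriv ?_
    simp
  have a2 : HasDerivAt (fun y => J n y + 2 * y * Jd n y) (Jd n x + (2 * Jd n x + 2 * x * Jdd n x)) x := by
    have h3 : HasDerivAt (fun y : ℝ => 2 * y) 2 x := by
      simpa using hid.const_mul 2
    exact h1.add (h3.mul h2)
  have a3 : HasDerivAt (fun y => y * (J n y + 2 * y * Jd n y) ^ 2)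
      (1 * (J n x + 2 * x * Jd n x) ^ 2 + x * (2 * (J n x + 2 * x * Jd n x) *
        (Jd n x + (2 * Jd n x + 2 * x * Jdd n x)))) x := by
    have := hid.mul (a2.pow 2)
    refine this.congr_deriv ?_
    simp
  have a4 : HasDerivAt (fun y : ℝ => 4 * y ^ 2 - 4 * (n : ℝ) ^ 2 + 1) (8 * x) x := by
    have := (((hasDerivAt_pow 2 x).const_mul 4).sub_const (4 * (n : ℝ) ^ 2)).add_const 1
    refine this.congr_deriv ?_
    norm_num
    ring
  have a5 := a1.add (a3.div a4 hd)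
  refine a5.congr_deriv ?_
  have ode := bessel_ode n x
  rw [eq_div_iff (pow_ne_zero 2 hd), add_mul, div_mul_cancel₀ _ (pow_ne_zero 2 hd)]
  linear_combination 4 * (J n x + 2 * x * Jd n x) * (4 * x ^ 2 - 4 * (n : ℝ) ^ 2 + 1) * ode

theorem sq_le_En (n : ℕ) {x : ℝ} (hx : 0 ≤ x) (hd : 0 < 4 * x ^ 2 - 4 * (n : ℝ) ^ 2 + 1) :
    x * J n x ^ 2 ≤ En n x := by
  unfold En
  have : 0 ≤ x * (J n x + 2 * x * Jd n x) ^ 2 / (4 * x ^ 2 - 4 * n ^ 2 + 1) := by positivity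
  linarith

/-- for `n = 0` the energy increases -/
theorem En_zero_mono {x y : ℝ} (hx : 0 < x) (hxy : x ≤ y) : En 0 x ≤ En 0 y := by
  have hmono : MonotoneOn (En 0) (Set.Icc x y) := by
    have hne : ∀ z ∈ Set.Icc x y, 4 * z ^ 2 - 4 * ((0 : ℕ) : ℝ) ^ 2 + 1 ≠ 0 := by
      intro z hz
      have : 0 < z := hx.trans_le hz.1
      have : (0 : ℝ) < 4 * z ^ 2 - 4 * ((0 : ℕ) : ℝ) ^ 2 + 1 := by
        have : 0 < z ^ 2 := by positivity
        norm_num
        linarith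
      exact this.ne'
    refine monotoneOn_of_deriv_nonneg (convex_Icc x y) ?_ ?_ ?_
    · exact fun z hz => (hasDerivAt_En 0 (hne z hz)).continuousAt.continuousWithinAt
    · exact fun z hz => (hasDerivAt_En 0 (hne z (interior_subset hz))).differentiableAt.differentiableWithinAt
    · intro z hz
      rw [(hasDerivAt_En 0 (hne z (interior_subset hz))).deriv]
      have : -(2 * (4 * ((0 : ℕ) : ℝ) ^ 2 - 1)) = 2 := by norm_num
      rw [this]
      positivity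
  exact hmono (Set.left_mem_Icc.2 hxy) (Set.right_mem_Icc.2 hxy) hxy

/-- for `n ≥ 1` the energy decreases beyond the turning point -/
theorem En_anti (n : ℕ) {x y : ℝ} (hx : 0 < x) (hd : 0 < 4 * x ^ 2 - 4 * ((n + 1 : ℕ) : ℝ) ^ 2 + 1)
    (hxy : x ≤ y) : En (n + 1) y ≤ En (n + 1) x := by
  have hanti : AntitoneOn (En (n + 1)) (Set.Icc x y) := by
    have hne : ∀ z ∈ Set.Icc x y, 4 * z ^ 2 - 4 * ((n + 1 : ℕ) : ℝ) ^ 2 + 1 ≠ 0 := by
      intro z hz
      have h3 : x ^ 2 ≤ z ^ 2 := by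
        have := hz.1
        gcongr
      have : (0 : ℝ) < 4 * z ^ 2 - 4 * ((n + 1 : ℕ) : ℝ) ^ 2 + 1 := by linarith
      exact this.ne'
    refine antitoneOn_of_deriv_nonpos (convex_Icc x y) ?_ ?_ ?_
    · exact fun z hz => (hasDerivAt_En (n + 1) (hne z hz)).continuousAt.continuousWithinAt
    · exact fun z hz => (hasDerivAt_En (n + 1) (hne z (interior_subset hz))).differentiableAt.differentiableWithinAt
    · intro z hz
      rw [(hasDerivAt_En (n + 1) (hne z (interior_subset hz))).deriv]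
      have h4 : (1 : ℝ) ≤ ((n + 1 : ℕ) : ℝ) := by
        push_cast
        have : (0 : ℝ) ≤ n := Nat.cast_nonneg n
        linarith
      have h5 : 0 ≤ 2 * (4 * ((n + 1 : ℕ) : ℝ) ^ 2 - 1) := by nlinarith
      rw [neg_mul, neg_div]
      exact neg_nonpos_of_nonneg (div_nonneg (mul_nonneg h5 (sq_nonneg _)) (sq_nonneg _))
  exact hanti (Set.left_mem_Icc.2 hxy) (Set.right_mem_Icc.2 hxy) hxy

end SCHB
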