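import Pool.Agent.MP_83fd13_an.SCH.BesEc
import Pool.Agent.MP_83fd13_an.SCH.BesEd

/-!
# [SCH] `|J_n| ≤ 0.196`: grid, part 3
-/

set_option autoImplicit false

open Topology

namespace SCHB

theorem gridB2 : allN (fun i => cell 16 (754 + (2 * i + 1)) 16 58) 57 = true := by decide +kernel

end SCHB
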