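import Pool.Agent.MP_83fd13_an.SCH.BesE1
import Pool.Agent.MP_83fd13_an.SCH.BesE2
import Pool.Agent.MP_83fd13_an.SCH.BesE3

/-!
# [SCH] `|J_n| ≤ 0.196` on `[0, 54.25]` for `n = 41, 42, 43`
-/

set_option autoImplicit false

open Topology

namespace SCHB

theorem small_J {n : ℕ} (hn : 41 ≤ n) (hn2 : n ≤ 43) {y : ℝ} (h0 : 0 ≤ y) (h1 : y ≤ 10) :
    |J n y| ≤ 0.196 := by
  have h2 := abs_J_le n y
  rw [abs_of_nonneg h0] at h2
  have h3 : Real.exp (y ^ 2 / 4) ≤ Real.exp 25 := Real.exp_le_exp.2 (by nlinarith)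
  have h4 : Real.exp 25 ≤ 3 ^ 25 := by
    have h5 : Real.exp 25 = Real.exp 1 ^ 25 := by
      rw [← Real.exp_nat_mul]
      norm_num
    rw [h5]
    have h6 : Real.exp 1 ≤ 3 := Real.exp_one_lt_three.le
    gcongr
  have h5 : (y / 2) ^ n ≤ 5 ^ n := by
    have : y / 2 ≤ 5 := by linarith
    gcongr
  have h6 : (y / 2) ^ n / (n.factorial : ℝ) * Real.exp (y ^ 2 / 4) ≤ 5 ^ n / (n.factorial : ℝ) * 3 ^ 25 := by
    have := fac_pos n
    gcongr
    exact h3.trans h4
  refine h2.trans (h6.trans ?_)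
  interval_cases n <;> norm_num [Nat.factorial]

theorem J_le_mid {y : ℝ} (h0 : 0 ≤ y) (h1 : y ≤ 54.25) :
    |J 41 y| ≤ 0.196 ∧ |J 42 y| ≤ 0.196 ∧ |J 43 y| ≤ 0.196 := by
  by_cases ha : y ≤ 10
  · exact ⟨small_J le_rfl (by norm_num) h0 ha, small_J (by norm_num) (by norm_num) h0 ha,
      small_J (by norm_num) le_rfl h0 ha⟩
  push Not at ha
  by_cases hb : y ≤ 40
  · obtain ⟨i, hi, hy⟩ := cover (x0 := 40) (q := 4) (T := 4) (N := 60) (y := y) (by norm_num)
      (by norm_num; linarith) (by norm_num; linarith) (by norm_num) rfl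
    exact cell_sound (by norm_num) (allN_spec gridA i hi) hy
  push Not at hb
  by_cases hc : y ≤ 47.125
  · obtain ⟨i, hi, hy⟩ := cover (x0 := 640) (q := 16) (T := 16) (N := 57) (y := y) (by norm_num)
      (by norm_num; linarith) (by norm_num at hc ⊢; linarith) (by norm_num) rfl
    exact cell_sound (by norm_num) (allN_spec gridB1 i hi) hy
  push Not at hc
  obtain ⟨i, hi, hy⟩ := cover (x0 := 754) (q := 16) (T := 16) (N := 57) (y := y) (by norm_num)
    (by norm_num at hc ⊢; linarith) (by norm_num at h1 ⊢; linarith) (by norm_num) rfl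
  exact cell_sound (by norm_num) (allN_spec gridB2 i hi) hy

end SCHB
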