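import Pool.Agent.MP_83fd13_an.SCH.BesB
import Pool.Agent.MP_83fd13_an.SCH.BesD

/-!
# [SCH] `|J_n| ≤ 0.196`: the cell check
-/

set_option autoImplicit false

open Topology

namespace SCHB

/-- check on one cell -/
def one (T : ℕ) (a b c : ℤ) : Bool :=
  Nat.ble (2 * T ^ 2 * (b.natAbs + 2) + ((a - c).natAbs + 4) * T + 1000000) (392000 * T ^ 2)

/-- check on one cell for `n = 41, 42, 43` -/
def cell (T c q M : ℕ) : Bool :=
  (vok 40 c q M 6 && vok 41 c q M 6 && vok 42 c q M 6 && vok 43 c q M 6 && vok 44 c q M 6) &&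
  (one T (val 40 c q M 6) (val 41 c q M 6) (val 42 c q M 6) &&
   one T (val 41 c q M 6) (val 42 c q M 6) (val 43 c q M 6) &&
   one T (val 42 c q M 6) (val 43 c q M 6) (val 44 c q M 6))

theorem one_sound {T n c q M : ℕ} (hT : 0 < T) (h0 : vok n c q M 6 = true)
    (h1 : vok (n + 1) c q M 6 = true) (h2 : vok (n + 2) c q M 6 = true)
    (h : one T (val n c q M 6) (val (n + 1) c q M 6) (val (n + 2) c q M 6) = true) {y : ℝ}
    (hy : |y - (c : ℝ) / q| ≤ 1 / T) : |J (n + 1) y| ≤ 0.196 := by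
  have v0 := val_sound h0
  have v1 := val_sound h1
  have v2 := val_sound h2
  unfold one at h
  rw [Nat.ble_eq] at h
  set x : ℝ := (c : ℝ) / q with hx
  set a := val n c q M 6
  set b := val (n + 1) c q M 6
  set d := val (n + 2) c q M 6
  have hR : 2 * (T : ℝ) ^ 2 * (|(b : ℝ)| + 2) + (|(a : ℝ) - d| + 4) * T + 1000000 ≤ 392000 * (T : ℝ) ^ 2 := by
    have := (Nat.cast_le (α := ℝ)).2 h
    push_cast at this
    rw [← Int.cast_abs, ← Int.cast_sub, ← Int.cast_abs]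
    push_cast
    simpa using this
  have hTR : (0 : ℝ) < T := by exact_mod_cast hT
  have hb : |J (n + 1) x| * 10 ^ 6 ≤ |(b : ℝ)| + 2 := by
    have h5 : |J (n + 1) x * 10 ^ 6| ≤ |(b : ℝ)| + 2 := by
      calc |J (n + 1) x * 10 ^ 6| = |(b : ℝ) + (J (n + 1) x * 10 ^ 6 - b)| := by ring_nf
        _ ≤ |(b : ℝ)| + |J (n + 1) x * 10 ^ 6 - b| := abs_add_le _ _
        _ ≤ |(b : ℝ)| + 2 := by linarith
    rwa [abs_mul, abs_of_pos (by positivity : (0 : ℝ) < 10 ^ 6)] at h5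
  have hd : |Jd (n + 1) x| * 2 * 10 ^ 6 ≤ |(a : ℝ) - d| + 4 := by
    rw [Jd_succ]
    have h5 : |(J n x - J (n + 2) x) * 10 ^ 6| ≤ |(a : ℝ) - d| + 4 := by
      calc |(J n x - J (n + 2) x) * 10 ^ 6| = |((a : ℝ) - d) + ((J n x * 10 ^ 6 - a) -
            (J (n + 2) x * 10 ^ 6 - d))| := by ring_nf
        _ ≤ |(a : ℝ) - d| + |(J n x * 10 ^ 6 - a) - (J (n + 2) x * 10 ^ 6 - d)| := abs_add_le _ _
        _ ≤ |(a : ℝ) - d| + (|J n x * 10 ^ 6 - a| + |J (n + 2) x * 10 ^ 6 - d|) := by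
            gcongr
            exact abs_sub _ _
        _ ≤ |(a : ℝ) - d| + 4 := by linarith
    rw [abs_mul, abs_of_pos (by positivity : (0 : ℝ) < 10 ^ 6)] at h5
    rw [abs_div, abs_two]
    linarith
  have ht := taylor2_J (n + 1) x y
  have h6 : |J (n + 1) y| ≤ |J (n + 1) x| + |Jd (n + 1) x| * |y - x| + (y - x) ^ 2 / 2 := by
    calc |J (n + 1) y| = |J (n + 1) x + Jd (n + 1) x * (y - x) +
          (J (n + 1) y - J (n + 1) x - Jd (n + 1) x * (y - x))| := by ring_nf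
      _ ≤ |J (n + 1) x + Jd (n + 1) x * (y - x)| +
          |J (n + 1) y - J (n + 1) x - Jd (n + 1) x * (y - x)| := abs_add_le _ _
      _ ≤ (|J (n + 1) x| + |Jd (n + 1) x * (y - x)|) + (y - x) ^ 2 / 2 :=
          add_le_add (abs_add_le _ _) ht
      _ = _ := by rw [abs_mul]
  have h7 : (y - x) ^ 2 ≤ (1 / (T : ℝ)) ^ 2 := by
    rw [← sq_abs]
    gcongr
  have h8 : |Jd (n + 1) x| * |y - x| ≤ |Jd (n + 1) x| * (1 / T) :=
    mul_le_mul_of_nonneg_left hy (abs_nonneg _)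
  have h9 : |J (n + 1) x| + |Jd (n + 1) x| * (1 / T) + (1 / (T : ℝ)) ^ 2 / 2 ≤ 0.196 := by
    have e : |J (n + 1) x| + |Jd (n + 1) x| * (1 / T) + (1 / (T : ℝ)) ^ 2 / 2 =
        (2 * (T : ℝ) ^ 2 * |J (n + 1) x| + 2 * |Jd (n + 1) x| * T + 1) / (2 * (T : ℝ) ^ 2) := by
      field_simp
    rw [e, div_le_iff₀ (by positivity)]
    have g1 := mul_le_mul_of_nonneg_left hb (by positivity : (0 : ℝ) ≤ 2 * (T : ℝ) ^ 2)
    have g2 := mul_le_mul_of_nonneg_right hd hTR.le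
    norm_num at g1 g2
    linarith
  linarith

theorem cell_sound {T c q M : ℕ} (hT : 0 < T) (h : cell T c q M = true) {y : ℝ}
    (hy : |y - (c : ℝ) / q| ≤ 1 / T) : |J 41 y| ≤ 0.196 ∧ |J 42 y| ≤ 0.196 ∧ |J 43 y| ≤ 0.196 := by
  unfold cell at h
  simp only [Bool.and_eq_true] at h
  obtain ⟨⟨⟨⟨⟨a0, a1⟩, a2⟩, a3⟩, a4⟩, ⟨b1, b2⟩, b3⟩ := h
  exact ⟨one_sound hT a0 a1 a2 b1 hy, one_sound hT a1 a2 a3 b2 hy, one_sound hT a2 a3 a4 b3 hy⟩

end SCHB
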