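import Pool.Agent.MP_83fd13_an.SCH.BesB

/-!
# [SCH] Generating function: `exp (i ρ Im q) = ∑_k J_k(ρ) q^k` for `|q| = 1`
-/

set_option autoImplicit false

open Topology

namespace SCHB

/-- the double series -/
noncomputable def dbl (x : ℝ) (q : ℂ) (ab : ℕ × ℕ) : ℂ :=
  ((x : ℂ) * q) ^ ab.1 / (ab.1.factorial : ℂ) * ((-(x : ℂ) * q⁻¹) ^ ab.2 / (ab.2.factorial : ℂ))

theorem hasSum_exp_series (z : ℂ) : HasSum (fun n : ℕ => z ^ n / (n.factorial : ℂ)) (Complex.exp z) := by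
  rw [Complex.exp_eq_exp_ℂ]
  exact NormedSpace.expSeries_div_hasSum_exp z

theorem summable_norm_exp_series (z : ℂ) : Summable fun n : ℕ => ‖z ^ n / (n.factorial : ℂ)‖ := by
  have h := Real.summable_pow_div_factorial ‖z‖
  refine h.congr fun n => ?_
  rw [norm_div, norm_pow]
  simp

theorem hasSum_dbl (x : ℝ) (q : ℂ) :
    HasSum (dbl x q) (Complex.exp ((x : ℂ) * q) * Complex.exp (-(x : ℂ) * q⁻¹)) := by
  have h1 := hasSum_exp_series ((x : ℂ) * q)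
  have h2 := hasSum_exp_series (-(x : ℂ) * q⁻¹)
  have n1 : Summable fun n : ℕ => ‖(fun n : ℕ => ((x : ℂ) * q) ^ n / (n.factorial : ℂ)) n‖ :=
    summable_norm_exp_series ((x : ℂ) * q)
  have n2 : Summable fun n : ℕ => ‖(fun n : ℕ => (-(x : ℂ) * q⁻¹) ^ n / (n.factorial : ℂ)) n‖ :=
    summable_norm_exp_series (-(x : ℂ) * q⁻¹)
  have e : dbl x q = fun ab : ℕ × ℕ => (fun n : ℕ => ((x : ℂ) * q) ^ n / (n.factorial : ℂ)) ab.1 *
      (fun n : ℕ => (-(x : ℂ) * q⁻¹) ^ n / (n.factorial : ℂ)) ab.2 := rfl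
  rw [e]
  generalize (fun n : ℕ => ((x : ℂ) * q) ^ n / (n.factorial : ℂ)) = f at *
  generalize (fun n : ℕ => (-(x : ℂ) * q⁻¹) ^ n / (n.factorial : ℂ)) = g at *
  exact h1.mul h2 (summable_mul_of_summable_norm n1 n2)

/-- the difference of the indices -/
def dif (ab : ℕ × ℕ) : ℤ := (ab.1 : ℤ) - (ab.2 : ℤ)

/-- fibre over `n ≥ 0` -/
def fibPos (n : ℕ) : ℕ ≃ (dif ⁻¹' {(n : ℤ)}) where
  toFun b := ⟨(b + n, b), by simp [dif]⟩
  invFun ab := ab.1.2
  left_inv b := rfl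
  right_inv := by
    rintro ⟨⟨a, b⟩, h⟩
    have h' : (a : ℤ) - (b : ℤ) = n := h
    apply Subtype.ext
    apply Prod.ext
    · change b + n = a
      omega
    · rfl

/-- fibre over `-(n+1)` -/
def fibNeg (n : ℕ) : ℕ ≃ (dif ⁻¹' {Int.negSucc n}) where
  toFun a := ⟨(a, a + (n + 1)), by
    change (a : ℤ) - ((a + (n + 1) : ℕ) : ℤ) = Int.negSucc n
    rw [Int.negSucc_eq]
    push_cast
    ring⟩
  invFun ab := ab.1.1
  left_inv b := rfl
  right_inv := by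
    rintro ⟨⟨a, b⟩, h⟩
    have h' : (a : ℤ) - (b : ℤ) = Int.negSucc n := h
    rw [Int.negSucc_eq] at h'
    apply Subtype.ext
    apply Prod.ext
    · rfl
    · change a + (n + 1) = b
      omega

theorem fib_sum (ρ : ℝ) {q : ℂ} (hq : q ≠ 0) (k : ℤ) :
    ∑' ab : (dif ⁻¹' {k}), dbl (ρ / 2) q ab = (JZ k ρ : ℂ) * q ^ k := by
  rcases k with n | n
  · have h1 : ∑' ab : (dif ⁻¹' {Int.ofNat n}), dbl (ρ / 2) q ab =
        ∑' b : ℕ, dbl (ρ / 2) q (fibPos n b) :=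
      ((fibPos n).tsum_eq fun ab : (dif ⁻¹' {Int.ofNat n}) => dbl (ρ / 2) q ab).symm
    rw [h1]
    have h2 : ∀ b : ℕ, dbl (ρ / 2) q (fibPos n b) =
        ((((ρ / 2) ^ n * lt n (ρ ^ 2 / 4) b : ℝ)) : ℂ) * q ^ n := by
      intro b
      change ((((ρ / 2 : ℝ)) : ℂ) * q) ^ (b + n) / ((b + n).factorial : ℂ) *
        ((-(((ρ / 2 : ℝ)) : ℂ) * q⁻¹) ^ b / (b.factorial : ℂ)) = _
      unfold lt
      push_cast
      have e1 : ((ρ : ℂ) / 2 * q) ^ (b + n) * (-((ρ : ℂ) / 2) * q⁻¹) ^ b =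
          ((ρ : ℂ) / 2) ^ n * (-((ρ : ℂ) ^ 2 / 4)) ^ b * q ^ n := by
        rw [pow_add, mul_assoc, mul_comm (((ρ : ℂ) / 2 * q) ^ n), ← mul_assoc, ← mul_pow,
          show ((ρ : ℂ) / 2 * q * (-((ρ : ℂ) / 2) * q⁻¹)) = -((ρ : ℂ) ^ 2 / 4) by
            field_simp
            ring, mul_pow]
        ring
      rw [div_mul_div_comm, e1]
      ring
    simp_rw [h2]
    rw [tsum_mul_right]
    congr 1
    rw [← Complex.ofReal_tsum, tsum_mul_left]
    rfl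
  · have h1 : ∑' ab : (dif ⁻¹' {Int.negSucc n}), dbl (ρ / 2) q ab =
        ∑' b : ℕ, dbl (ρ / 2) q (fibNeg n b) :=
      ((fibNeg n).tsum_eq fun ab : (dif ⁻¹' {Int.negSucc n}) => dbl (ρ / 2) q ab).symm
    rw [h1]
    have h2 : ∀ b : ℕ, dbl (ρ / 2) q (fibNeg n b) =
        ((((-1) ^ (n + 1) * ((ρ / 2) ^ (n + 1) * lt (n + 1) (ρ ^ 2 / 4) b) : ℝ)) : ℂ) *
          q ^ (Int.negSucc n) := by
      intro b
      change ((((ρ / 2 : ℝ)) : ℂ) * q) ^ b / (b.factorial : ℂ) *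
        ((-(((ρ / 2 : ℝ)) : ℂ) * q⁻¹) ^ (b + (n + 1)) / ((b + (n + 1)).factorial : ℂ)) = _
      unfold lt
      push_cast
      rw [zpow_negSucc]
      have e1 : ((ρ : ℂ) / 2 * q) ^ b * (-((ρ : ℂ) / 2) * q⁻¹) ^ (b + (n + 1)) =
          (-1) ^ (n + 1) * ((ρ : ℂ) / 2) ^ (n + 1) * (-((ρ : ℂ) ^ 2 / 4)) ^ b * (q ^ (n + 1))⁻¹ := by
        rw [pow_add, ← mul_assoc, ← mul_pow,
          show ((ρ : ℂ) / 2 * q * (-((ρ : ℂ) / 2) * q⁻¹)) = -((ρ : ℂ) ^ 2 / 4) by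
            field_simp
            ring, mul_pow, neg_pow ((ρ : ℂ) / 2) (n + 1), inv_pow]
        ring
      rw [div_mul_div_comm, e1]
      ring
    simp_rw [h2]
    rw [tsum_mul_right]
    congr 1
    rw [← Complex.ofReal_tsum, tsum_mul_left, tsum_mul_left]
    rfl

/-- Generating function. -/
theorem hasSum_JZ (ρ : ℝ) {q : ℂ} (hq : ‖q‖ = 1) :
    HasSum (fun k : ℤ => (JZ k ρ : ℂ) * q ^ k) (Complex.exp (Complex.I * (ρ * q.im : ℝ))) := by
  have hq0 : q ≠ 0 := by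
    rintro rfl
    simp at hq
  have h1 := (hasSum_dbl (ρ / 2) q).tsum_fiberwise dif
  have h2 : Complex.exp (((ρ / 2 : ℝ) : ℂ) * q) * Complex.exp (-((ρ / 2 : ℝ) : ℂ) * q⁻¹) =
      Complex.exp (Complex.I * (ρ * q.im : ℝ)) := by
    rw [← Complex.exp_add]
    congr 1
    have h3 : q⁻¹ = (starRingEnd ℂ) q := by
      rw [Complex.inv_def, Complex.normSq_eq_norm_sq, hq]
      simp
    rw [h3]
    have h4 := Complex.sub_conj q
    have h5 : ((ρ / 2 : ℝ) : ℂ) * q + -((ρ / 2 : ℝ) : ℂ) * (starRingEnd ℂ) q =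
        ((ρ / 2 : ℝ) : ℂ) * (q - (starRingEnd ℂ) q) := by ring
    rw [h5, h4]
    push_cast
    ring
  rw [h2] at h1
  refine h1.congr_fun ?_
  intro k
  exact (fib_sum ρ hq0 k).symm

theorem summable_JZ (ρ : ℝ) : Summable fun k : ℤ => |JZ k ρ| := by
  have h := (hasSum_JZ ρ (q := 1) (by simp)).summable.norm
  refine h.congr fun k => ?_
  simp

theorem exp_it_zpow (t : ℝ) (j : ℤ) :
    Complex.exp (Complex.I * (t : ℂ)) ^ j = Complex.exp (Complex.I * ((j * t : ℝ) : ℂ)) := by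
  rw [← Complex.exp_int_mul]
  congr 1
  push_cast
  ring

theorem integral_exp_int (m : ℤ) :
    ∫ t in (0 : ℝ)..(2 * Real.pi), Complex.exp (Complex.I * ((m * t : ℝ) : ℂ)) =
      if m = 0 then ((2 * Real.pi : ℝ) : ℂ) else 0 := by
  split_ifs with h
  · subst h
    simp
  · have hc : Complex.I * (m : ℂ) ≠ 0 := mul_ne_zero Complex.I_ne_zero (by exact_mod_cast h)
    have h1 : ∀ t : ℝ, Complex.exp (Complex.I * ((m * t : ℝ) : ℂ)) =
        Complex.exp (Complex.I * (m : ℂ) * (t : ℂ)) := by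
      intro t
      congr 1
      push_cast
      ring
    simp_rw [h1]
    rw [integral_exp_mul_complex hc]
    have h2 : Complex.exp (Complex.I * (m : ℂ) * ((2 * Real.pi : ℝ) : ℂ)) = 1 := by
      rw [Complex.exp_eq_one_iff]
      exact ⟨m, by push_cast; ring⟩
    rw [h2]
    simp

/-- Bessel's integral -/
theorem integral_JZ (ρ : ℝ) (k : ℤ) :
    ∫ t in (0 : ℝ)..(2 * Real.pi), Complex.exp (Complex.I * ((ρ * Real.sin t - k * t : ℝ) : ℂ)) =
      ((2 * Real.pi : ℝ) : ℂ) * (JZ k ρ : ℂ) := by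
  let f : ℤ → C(ℝ, ℂ) := fun j =>
    ⟨fun t => (JZ j ρ : ℂ) * Complex.exp (Complex.I * (((j - k : ℤ) * t : ℝ) : ℂ)), by fun_prop⟩
  have hf : Summable fun j : ℤ =>
      ‖(f j).restrict (⟨Set.uIcc (0 : ℝ) (2 * Real.pi), isCompact_uIcc⟩ : TopologicalSpace.Compacts ℝ)‖ := by
    refine Summable.of_nonneg_of_le (fun _ => norm_nonneg _) (fun j => ?_) (summable_JZ ρ)
    rw [ContinuousMap.norm_le _ (abs_nonneg _)]
    intro x
    change ‖(JZ j ρ : ℂ) * Complex.exp (Complex.I * (((j - k : ℤ) * (x : ℝ) : ℝ) : ℂ))‖ ≤ _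
    rw [norm_mul, mul_comm Complex.I, Complex.norm_exp_ofReal_mul_I, mul_one, Complex.norm_real,
      Real.norm_eq_abs]
  have h1 := intervalIntegral.hasSum_intervalIntegral_of_summable_norm hf
  have h2 : ∀ t : ℝ, ∑' j, f j t = Complex.exp (Complex.I * ((ρ * Real.sin t - k * t : ℝ) : ℂ)) := by
    intro t
    have hq : ‖Complex.exp (Complex.I * (t : ℂ))‖ = 1 := by
      rw [mul_comm, Complex.norm_exp_ofReal_mul_I]
    have h3 := (hasSum_JZ ρ hq).mul_right (Complex.exp (Complex.I * ((-(k : ℝ) * t : ℝ) : ℂ)))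
    have h4 : (Complex.exp (Complex.I * (t : ℂ))).im = Real.sin t := by
      rw [mul_comm, Complex.exp_ofReal_mul_I_im]
    rw [h4, ← Complex.exp_add] at h3
    have h5 : Complex.I * ((ρ * Real.sin t : ℝ) : ℂ) + Complex.I * ((-(k : ℝ) * t : ℝ) : ℂ) =
        Complex.I * ((ρ * Real.sin t - k * t : ℝ) : ℂ) := by
      push_cast
      ring
    rw [h5] at h3
    rw [← h3.tsum_eq]
    refine tsum_congr fun j => ?_
    change (JZ j ρ : ℂ) * Complex.exp (Complex.I * (((j - k : ℤ) * t : ℝ) : ℂ)) = _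
    rw [exp_it_zpow, mul_assoc, ← Complex.exp_add]
    congr 2
    push_cast
    ring
  simp_rw [h2] at h1
  rw [← h1.tsum_eq, tsum_eq_single k]
  · change ∫ t in (0 : ℝ)..(2 * Real.pi), (JZ k ρ : ℂ) *
      Complex.exp (Complex.I * (((k - k : ℤ) * t : ℝ) : ℂ)) = _
    rw [intervalIntegral.integral_const_mul, integral_exp_int, if_pos (sub_self k), mul_comm]
  · intro j hj
    change ∫ t in (0 : ℝ)..(2 * Real.pi), (JZ j ρ : ℂ) *
      Complex.exp (Complex.I * (((j - k : ℤ) * t : ℝ) : ℂ)) = _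
    rw [intervalIntegral.integral_const_mul, integral_exp_int, if_neg (sub_ne_zero.2 hj), mul_zero]

end SCHB
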