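import Pool.Agent.MP_83fd13_an.SCH.BesE

/-!
# [SCH] Bounds used by the fixed point: `ρ ∈ [54.177, 54.184]`, `r ∈ [0, 1]`
-/

set_option autoImplicit false

open Topology

namespace SCHB

/-! ### derivative of `J_42` near the right end -/

/-- check for the derivative of `J_42` -/
def oneD (T : ℕ) (a b c d e : ℤ) : Bool :=
  Nat.ble (2 * T ^ 2 * ((b - d).natAbs + 4) + ((a - 2 * c + e).natAbs + 8) * T + 2000000)
    (350000 * T ^ 2)

/-- one cell -/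
def cellD (T c q M : ℕ) : Bool :=
  (vok 40 c q M 6 && vok 41 c q M 6 && vok 42 c q M 6 && vok 43 c q M 6 && vok 44 c q M 6) &&
  oneD T (val 40 c q M 6) (val 41 c q M 6) (val 42 c q M 6) (val 43 c q M 6) (val 44 c q M 6)

theorem cellD_sound {T c q M : ℕ} (hT : 0 < T) (h : cellD T c q M = true) {y : ℝ}
    (hy : |y - (c : ℝ) / q| ≤ 1 / T) : |Jd 42 y| ≤ 0.0875 := by
  unfold cellD at h
  simp only [Bool.and_eq_true] at h
  obtain ⟨⟨⟨⟨⟨a0, a1⟩, a2⟩, a3⟩, a4⟩, hh⟩ := h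
  have v0 := val_sound a0
  have v1 := val_sound a1
  have v2 := val_sound a2
  have v3 := val_sound a3
  have v4 := val_sound a4
  unfold oneD at hh
  rw [Nat.ble_eq] at hh
  set x : ℝ := (c : ℝ) / q with hx
  set m0 := val 40 c q M 6
  set m1 := val 41 c q M 6
  set m2 := val 42 c q M 6
  set m3 := val 43 c q M 6
  set m4 := val 44 c q M 6
  have hR : 2 * (T : ℝ) ^ 2 * (|(m1 : ℝ) - m3| + 4) + (|(m0 : ℝ) - 2 * m2 + m4| + 8) * T + 2000000 ≤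
      350000 * (T : ℝ) ^ 2 := by
    have h1 := (Nat.cast_le (α := ℝ)).2 hh
    have e1 : (((m1 - m3).natAbs : ℕ) : ℝ) = |(m1 : ℝ) - m3| := by
      rw [natAbs_cast_real]
      push_cast
      rfl
    have e2 : (((m0 - 2 * m2 + m4).natAbs : ℕ) : ℝ) = |(m0 : ℝ) - 2 * m2 + m4| := by
      rw [natAbs_cast_real]
      push_cast
      rfl
    rw [← e1, ← e2]
    push_cast at h1 ⊢
    linarith
  have hTR : (0 : ℝ) < T := by exact_mod_cast hT
  have hd : |Jd 42 x| * 2 * 10 ^ 6 ≤ |(m1 : ℝ) - m3| + 4 := by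
    rw [show (42 : ℕ) = 41 + 1 from rfl, Jd_succ]
    have h5 : |(J 41 x - J 43 x) * 10 ^ 6| ≤ |(m1 : ℝ) - m3| + 4 := by
      calc |(J 41 x - J 43 x) * 10 ^ 6| = |((m1 : ℝ) - m3) + ((J 41 x * 10 ^ 6 - m1) -
            (J 43 x * 10 ^ 6 - m3))| := by ring_nf
        _ ≤ |(m1 : ℝ) - m3| + |(J 41 x * 10 ^ 6 - m1) - (J 43 x * 10 ^ 6 - m3)| := abs_add_le _ _
        _ ≤ |(m1 : ℝ) - m3| + (|J 41 x * 10 ^ 6 - m1| + |J 43 x * 10 ^ 6 - m3|) := by
            gcongr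
            exact abs_sub _ _
        _ ≤ |(m1 : ℝ) - m3| + 4 := by linarith
    rw [abs_mul, abs_of_pos (by positivity : (0 : ℝ) < 10 ^ 6)] at h5
    rw [abs_div, abs_two]
    linarith
  have hdd : |Jdd 42 x| * 4 * 10 ^ 6 ≤ |(m0 : ℝ) - 2 * m2 + m4| + 8 := by
    have e : Jdd 42 x = (J 40 x - 2 * J 42 x + J 44 x) / 4 := by
      change (Jd 41 x - Jd 43 x) / 2 = _
      rw [show (41 : ℕ) = 40 + 1 from rfl, show (43 : ℕ) = 42 + 1 from rfl, Jd_succ, Jd_succ]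
      ring
    rw [e]
    have h5 : |(J 40 x - 2 * J 42 x + J 44 x) * 10 ^ 6| ≤ |(m0 : ℝ) - 2 * m2 + m4| + 8 := by
      calc |(J 40 x - 2 * J 42 x + J 44 x) * 10 ^ 6| = |((m0 : ℝ) - 2 * m2 + m4) +
            ((J 40 x * 10 ^ 6 - m0) - 2 * (J 42 x * 10 ^ 6 - m2) + (J 44 x * 10 ^ 6 - m4))| := by
              ring_nf
        _ ≤ |(m0 : ℝ) - 2 * m2 + m4| +
            |(J 40 x * 10 ^ 6 - m0) - 2 * (J 42 x * 10 ^ 6 - m2) + (J 44 x * 10 ^ 6 - m4)| :=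
            abs_add_le _ _
        _ ≤ |(m0 : ℝ) - 2 * m2 + m4| + (|J 40 x * 10 ^ 6 - m0| + 2 * |J 42 x * 10 ^ 6 - m2| +
            |J 44 x * 10 ^ 6 - m4|) := by
            gcongr
            refine (abs_add_le _ _).trans (add_le_add ((abs_sub _ _).trans ?_) le_rfl)
            rw [abs_mul, abs_two]
        _ ≤ |(m0 : ℝ) - 2 * m2 + m4| + 8 := by linarith
    rw [abs_mul, abs_of_pos (by positivity : (0 : ℝ) < 10 ^ 6)] at h5
    rw [abs_div, abs_of_pos (by norm_num : (0 : ℝ) < 4)]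
    linarith
  have ht := taylor2_Jd 42 x y
  have h6 : |Jd 42 y| ≤ |Jd 42 x| + |Jdd 42 x| * |y - x| + (y - x) ^ 2 / 2 := by
    calc |Jd 42 y| = |Jd 42 x + Jdd 42 x * (y - x) + (Jd 42 y - Jd 42 x - Jdd 42 x * (y - x))| := by
          ring_nf
      _ ≤ |Jd 42 x + Jdd 42 x * (y - x)| + |Jd 42 y - Jd 42 x - Jdd 42 x * (y - x)| := abs_add_le _ _
      _ ≤ (|Jd 42 x| + |Jdd 42 x * (y - x)|) + (y - x) ^ 2 / 2 := add_le_add (abs_add_le _ _) ht
      _ = _ := by rw [abs_mul]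
  have h7 : (y - x) ^ 2 ≤ (1 / (T : ℝ)) ^ 2 := by
    rw [← sq_abs]
    gcongr
  have h8 : |Jdd 42 x| * |y - x| ≤ |Jdd 42 x| * (1 / T) :=
    mul_le_mul_of_nonneg_left hy (abs_nonneg _)
  have h9 : |Jd 42 x| + |Jdd 42 x| * (1 / T) + (1 / (T : ℝ)) ^ 2 / 2 ≤ 0.0875 := by
    have e : |Jd 42 x| + |Jdd 42 x| * (1 / T) + (1 / (T : ℝ)) ^ 2 / 2 =
        (2 * (T : ℝ) ^ 2 * |Jd 42 x| + 2 * |Jdd 42 x| * T + 1) / (2 * (T : ℝ) ^ 2) := by
      field_simp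
    rw [e, div_le_iff₀ (by positivity)]
    have g1 := mul_le_mul_of_nonneg_left hd (by positivity : (0 : ℝ) ≤ 2 * (T : ℝ) ^ 2)
    have g2 := mul_le_mul_of_nonneg_right hdd hTR.le
    norm_num at g1 g2
    linarith
  linarith

theorem gridD : allN (fun i => cellD 32 (1660 + (2 * i + 1)) 32 58) 38 = true := by decide +kernel

theorem Jd42_le {y : ℝ} (h0 : 51.875 ≤ y) (h1 : y ≤ 54.25) : |Jd 42 y| ≤ 0.0875 := by
  obtain ⟨i, hi, hy⟩ := cover (x0 := 1660) (q := 32) (T := 32) (N := 38) (y := y) (by norm_num)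
    (by norm_num at h0 ⊢; linarith) (by norm_num at h1 ⊢; linarith) (by norm_num) rfl
  exact cellD_sound (by norm_num) (allN_spec gridD i hi) hy

/-- `|J_42(ρ r)| ≤ |J_42(ρ)| + 4.75 (1 - r)` -/
theorem J42_lin {ρ r : ℝ} (hρ : 54.177 ≤ ρ) (hρ' : ρ ≤ 54.2) (hr : 0 ≤ r) (hr1 : r ≤ 1) :
    |J 42 (ρ * r)| ≤ |J 42 ρ| + 4.75 * (1 - r) := by
  have h0 : 0 ≤ ρ * r := by positivity
  have hle : ρ * r ≤ ρ := by nlinarith
  by_cases hc : 51.875 ≤ ρ * r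
  · have hd : ∀ y ∈ Set.Icc (ρ * r) ρ, HasDerivWithinAt (J 42) (Jd 42 y) (Set.Icc (ρ * r) ρ) y :=
      fun y _ => (hasDerivAt_J 42 y).hasDerivWithinAt
    have hb : ∀ y ∈ Set.Icc (ρ * r) ρ, ‖Jd 42 y‖ ≤ 0.0875 := fun y hy =>
      Jd42_le (hc.trans hy.1) (hy.2.trans (by linarith))
    have h1 := (convex_Icc (ρ * r) ρ).norm_image_sub_le_of_norm_hasDerivWithin_le hd hb
      (Set.right_mem_Icc.2 hle) (Set.left_mem_Icc.2 hle)
    rw [Real.norm_eq_abs, Real.norm_eq_abs] at h1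
    have h2 : |ρ * r - ρ| = ρ * (1 - r) := by
      rw [abs_sub_comm, abs_of_nonneg (by linarith)]
      ring
    rw [h2] at h1
    have h3 : |J 42 (ρ * r)| ≤ |J 42 ρ| + |J 42 (ρ * r) - J 42 ρ| := by
      have := abs_add_le (J 42 ρ) (J 42 (ρ * r) - J 42 ρ)
      rwa [add_sub_cancel] at this
    have h4 : 0.0875 * (ρ * (1 - r)) ≤ 4.75 * (1 - r) := by
      nlinarith
    linarith
  · push Not at hc
    have h1 := (J_le_mid h0 (hle.trans (by linarith))).2.1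
    have h2 : r ≤ 0.95752 := by
      by_contra hcon
      push Not at hcon
      nlinarith
    have h3 := abs_nonneg (J 42 ρ)
    linarith

/-- bounds in the middle -/
theorem J_mid {ρ r : ℝ} (hρ : 0 ≤ ρ) (hρ' : ρ ≤ 54.25) (hr : 0 ≤ r) (hr1 : r ≤ 1) :
    |J 41 (ρ * r)| ≤ 0.196 ∧ |J 42 (ρ * r)| ≤ 0.196 ∧ |J 43 (ρ * r)| ≤ 0.196 :=
  J_le_mid (by positivity) (by nlinarith)

/-! ### enclosures at the centre and on the interval -/

theorem c0 : |J 0 54.18 - (-0.10838367743)| ≤ 1e-11 := by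
  have h := chk_abs (n := 0) (p := 5418) (q := 100) (M := 86) (k := 11) (v := -10838367743)
    (by decide +kernel)
  norm_num at h ⊢
  exact h

end SCHB
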