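import Pool.Agent.MP_83fd13_an.SCH.BesEd

/-!
# [SCH] Values at `54.18`, `20`, `8`
-/

set_option autoImplicit false

namespace SCHB

theorem v0 : |J 0 54.18 - (-0.10838367744)| ≤ 1e-11 := by
  have h := chk_abs (n := 0) (p := 5418) (q := 100) (M := 85) (k := 11) (v := -10838367744)
    (by decide +kernel)
  norm_num at h ⊢
  exact h

theorem v1 : |J 1 54.18 - (0.00060196108)| ≤ 1e-11 := by
  have h := chk_abs (n := 1) (p := 5418) (q := 100) (M := 85) (k := 11) (v := 60196108)
    (by decide +kernel)
  norm_num at h ⊢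
  exact h

theorem v2 : |J 2 54.18 - (0.10840589821)| ≤ 1e-11 := by
  have h := chk_abs (n := 2) (p := 5418) (q := 100) (M := 84) (k := 11) (v := 10840589821)
    (by decide +kernel)
  norm_num at h ⊢
  exact h

theorem v3 : |J 3 54.18 - (0.00740142749)| ≤ 1e-11 := by
  have h := chk_abs (n := 3) (p := 5418) (q := 100) (M := 84) (k := 11) (v := 740142749)
    (by decide +kernel)
  norm_num at h ⊢
  exact h

theorem v40 : |J 40 54.18 - (0.13049533933)| ≤ 1e-11 := by
  have h := chk_abs (n := 40) (p := 5418) (q := 100) (M := 63) (k := 11) (v := 13049533933)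
    (by decide +kernel)
  norm_num at h ⊢
  exact h

theorem v41 : |J 41 54.18 - (0.08602787517)| ≤ 1e-11 := by
  have h := chk_abs (n := 41) (p := 5418) (q := 100) (M := 63) (k := 11) (v := 8602787517)
    (by decide +kernel)
  norm_num at h ⊢
  exact h

theorem v42 : |J 42 54.18 - (-0.00029442084)| ≤ 1e-11 := by
  have h := chk_abs (n := 42) (p := 5418) (q := 100) (M := 62) (k := 11) (v := -29442084)
    (by decide +kernel)
  norm_num at h ⊢
  exact h

theorem v43 : |J 43 54.18 - (-0.08648434159)| ≤ 1e-11 := by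
  have h := chk_abs (n := 43) (p := 5418) (q := 100) (M := 62) (k := 11) (v := -8648434159)
    (by decide +kernel)
  norm_num at h ⊢
  exact h

theorem v44 : |J 44 54.18 - (-0.13698231184)| ≤ 1e-11 := by
  have h := chk_abs (n := 44) (p := 5418) (q := 100) (M := 61) (k := 11) (v := -13698231184)
    (by decide +kernel)
  norm_num at h ⊢
  exact h

theorem w0 : |J 0 20 - (0.16702466)| ≤ 1e-8 := by
  have h := chk_abs (n := 0) (p := 20) (q := 1) (M := 36) (k := 8) (v := 16702466)
    (by decide +kernel)
  norm_num at h ⊢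
  exact h

theorem w1 : |J 1 20 - (0.06683312)| ≤ 1e-8 := by
  have h := chk_abs (n := 1) (p := 20) (q := 1) (M := 35) (k := 8) (v := 6683312)
    (by decide +kernel)
  norm_num at h ⊢
  exact h

theorem w2 : |J 2 20 - (-0.16034136)| ≤ 1e-8 := by
  have h := chk_abs (n := 2) (p := 20) (q := 1) (M := 35) (k := 8) (v := -16034136)
    (by decide +kernel)
  norm_num at h ⊢
  exact h

theorem w3 : |J 3 20 - (-0.09890140)| ≤ 1e-8 := by
  have h := chk_abs (n := 3) (p := 20) (q := 1) (M := 34) (k := 8) (v := -9890140)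
    (by decide +kernel)
  norm_num at h ⊢
  exact h

theorem u0 : |J 0 8 - (0.17165080)| ≤ 1e-8 := by
  have h := chk_abs (n := 0) (p := 8) (q := 1) (M := 19) (k := 8) (v := 17165080)
    (by decide +kernel)
  norm_num at h ⊢
  exact h

theorem u1 : |J 1 8 - (0.23463634)| ≤ 1e-8 := by
  have h := chk_abs (n := 1) (p := 8) (q := 1) (M := 18) (k := 8) (v := 23463634)
    (by decide +kernel)
  norm_num at h ⊢
  exact h

theorem u2 : |J 2 8 - (-0.11299173)| ≤ 1e-8 := by
  have h := chk_abs (n := 2) (p := 8) (q := 1) (M := 17) (k := 8) (v := -11299173)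
    (by decide +kernel)
  norm_num at h ⊢
  exact h

theorem u3 : |J 3 8 - (-0.29113221)| ≤ 1e-8 := by
  have h := chk_abs (n := 3) (p := 8) (q := 1) (M := 17) (k := 8) (v := -29113221)
    (by decide +kernel)
  norm_num at h ⊢
  exact h


end SCHB
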