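import Pool.Agent.MP_83fd13_an.SCH.BesD
import Pool.Agent.MP_83fd13_an.SCH.BesH

/-!
# [SCH] Uniform facts for `ρ ∈ [54.177, 54.1834]`
-/

set_option autoImplicit false

namespace SCHB

/-- Taylor transfer from the centre, for `J_n` -/
theorem unif {n : ℕ} {x0 v d e0 e1 δ ρ : ℝ} (h0 : |J n x0 - v| ≤ e0) (h1 : |Jd n x0 - d| ≤ e1)
    (hρ : |ρ - x0| ≤ δ) : |J n ρ - v - d * (ρ - x0)| ≤ e0 + e1 * δ + δ ^ 2 / 2 := by
  have h2 := taylor2_J n x0 ρ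
  have h3 : (ρ - x0) ^ 2 ≤ δ ^ 2 := by
    rw [← sq_abs (ρ - x0)]
    gcongr
  have e : J n ρ - v - d * (ρ - x0) = (J n ρ - J n x0 - Jd n x0 * (ρ - x0)) + (J n x0 - v) +
      (Jd n x0 - d) * (ρ - x0) := by ring
  rw [e]
  have h4 : |(Jd n x0 - d) * (ρ - x0)| ≤ e1 * δ := by
    rw [abs_mul]
    exact mul_le_mul h1 hρ (abs_nonneg _) ((abs_nonneg _).trans h1)
  calc _ ≤ |(J n ρ - J n x0 - Jd n x0 * (ρ - x0)) + (J n x0 - v)| + |(Jd n x0 - d) * (ρ - x0)| :=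
        abs_add_le _ _
    _ ≤ (|J n ρ - J n x0 - Jd n x0 * (ρ - x0)| + |J n x0 - v|) + |(Jd n x0 - d) * (ρ - x0)| := by
        gcongr
        exact abs_add_le _ _
    _ ≤ e0 + e1 * δ + δ ^ 2 / 2 := by linarith

/-- Taylor transfer from the centre, for `J_n'` -/
theorem unif' {n : ℕ} {x0 v d e0 e1 δ ρ : ℝ} (h0 : |Jd n x0 - v| ≤ e0) (h1 : |Jdd n x0 - d| ≤ e1)
    (hρ : |ρ - x0| ≤ δ) : |Jd n ρ - v - d * (ρ - x0)| ≤ e0 + e1 * δ + δ ^ 2 / 2 := by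
  have h2 := taylor2_Jd n x0 ρ
  have h3 : (ρ - x0) ^ 2 ≤ δ ^ 2 := by
    rw [← sq_abs (ρ - x0)]
    gcongr
  have e : Jd n ρ - v - d * (ρ - x0) = (Jd n ρ - Jd n x0 - Jdd n x0 * (ρ - x0)) + (Jd n x0 - v) +
      (Jdd n x0 - d) * (ρ - x0) := by ring
  rw [e]
  have h4 : |(Jdd n x0 - d) * (ρ - x0)| ≤ e1 * δ := by
    rw [abs_mul]
    exact mul_le_mul h1 hρ (abs_nonneg _) ((abs_nonneg _).trans h1)
  calc _ ≤ |(Jd n ρ - Jd n x0 - Jdd n x0 * (ρ - x0)) + (Jd n x0 - v)| + |(Jdd n x0 - d) * (ρ - x0)| :=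
        abs_add_le _ _
    _ ≤ (|Jd n ρ - Jd n x0 - Jdd n x0 * (ρ - x0)| + |Jd n x0 - v|) + |(Jdd n x0 - d) * (ρ - x0)| := by
        gcongr
        exact abs_add_le _ _
    _ ≤ e0 + e1 * δ + δ ^ 2 / 2 := by linarith

theorem Jd_bd {n : ℕ} {x a b e : ℝ} (h0 : |J n x - a| ≤ e) (h2 : |J (n + 2) x - b| ≤ e) :
    |Jd (n + 1) x - (a - b) / 2| ≤ e := by
  rw [Jd_succ]
  rw [abs_le] at *
  constructor <;> linarith [h0.1, h0.2, h2.1, h2.2]

theorem d0c : |Jd 0 54.18 - (-0.00060196108)| ≤ 1e-11 := by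
  rw [Jd_zero]
  have := v1
  rw [abs_le] at *
  constructor <;> linarith [this.1, this.2]

section

variable {ρ : ℝ} (h1 : 54.177 ≤ ρ) (h2 : ρ ≤ 54.1834)
include h1 h2

theorem near : |ρ - 54.18| ≤ 0.0034 := by
  rw [abs_le]
  constructor <;> linarith

/-- `J_0(ρ)` -/
theorem J0_I : -0.108392 ≤ J 0 ρ ∧ J 0 ρ ≤ -0.108375 := by
  have h := unif v0 d0c (near h1 h2)
  norm_num at h
  rw [abs_le] at h
  constructor <;> linarith [h.1, h.2]

/-- `J_1(ρ)` (linear approximation) -/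
theorem J1_I : |J 1 ρ - 0.00060196 - (-0.10839479) * (ρ - 54.18)| ≤ 0.0000057815 := by
  have h := unif v1 (Jd_bd (n := 0) v0 v2) (near h1 h2)
  norm_num at h
  rw [abs_le] at h ⊢
  constructor <;> linarith [h.1, h.2]

theorem J1_I' : 0.000227 ≤ J 1 ρ ∧ J 1 ρ ≤ 0.000933 := by
  have h := J1_I h1 h2
  rw [abs_le] at h
  constructor <;> linarith [h.1, h.2]

/-- `J_2(ρ)` -/
theorem J2_I : 0.108388 ≤ J 2 ρ ∧ J 2 ρ ≤ 0.108424 := by
  have h := unif v2 (Jd_bd (n := 1) v1 v3) (near h1 h2)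
  norm_num at h
  rw [abs_le] at h
  constructor <;> linarith [h.1, h.2]

/-- `J_41(ρ)` -/
theorem J41_I : 0.085799 ≤ J 41 ρ ∧ J 41 ρ ≤ 0.086257 := by
  have h := unif v41 (Jd_bd (n := 40) v40 v42) (near h1 h2)
  norm_num at h
  rw [abs_le] at h
  constructor <;> linarith [h.1, h.2]

/-- `J_42(ρ)` (linear approximation) -/
theorem J42_I : |J 42 ρ - (-0.00029442) - 0.08625611 * (ρ - 54.18)| ≤ 0.0000057815 := by
  have h := unif v42 (Jd_bd (n := 41) v41 v43) (near h1 h2)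
  norm_num at h
  rw [abs_le] at h ⊢
  constructor <;> linarith [h.1, h.2]

theorem J42_I' : -0.000559 ≤ J 42 ρ ∧ J 42 ρ ≤ 0.000005 := by
  have h := J42_I h1 h2
  rw [abs_le] at h
  constructor <;> linarith [h.1, h.2]

/-- `J_43(ρ)` -/
theorem J43_I : -0.086723 ≤ J 43 ρ ∧ J 43 ρ ≤ -0.086246 := by
  have h := unif v43 (Jd_bd (n := 42) v42 v44) (near h1 h2)
  norm_num at h
  rw [abs_le] at h
  constructor <;> linarith [h.1, h.2]

/-- `J_42'(ρ)` -/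
theorem Jd42_I : 0.086245 ≤ Jd 42 ρ ∧ Jd 42 ρ ≤ 0.086268 := by
  have hdd : |Jdd 42 54.18 - (-0.0014745328)| ≤ 1e-9 := by
    have e : Jdd 42 54.18 = (Jd 41 54.18 - Jd 43 54.18) / 2 := rfl
    have a := Jd_bd (n := 40) v40 v42
    have b := Jd_bd (n := 42) v42 v44
    rw [e]
    rw [abs_le] at *
    norm_num at a b ⊢
    constructor <;> linarith [a.1, a.2, b.1, b.2]
  have h := unif' (Jd_bd (n := 41) v41 v43) hdd (near h1 h2)
  norm_num at h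
  rw [abs_le] at h
  constructor <;> linarith [h.1, h.2]

/-! ### envelopes -/

theorem E0_I : En 0 ρ ≤ 0.6369 := by
  have a := J0_I h1 h2
  have b := J1_I' h1 h2
  have hρ : 0 < ρ := by linarith
  unfold En
  rw [Jd_zero]
  have e1 : J 0 ρ ^ 2 ≤ 0.011748826 := by nlinarith
  have e2 : (J 0 ρ + 2 * ρ * -J 1 ρ) ^ 2 ≤ 0.045 := by
    have hb : 2 * ρ * J 1 ρ ≤ 0.1012 := by nlinarith
    have hb' : 0 ≤ 2 * ρ * J 1 ρ := by
      have := b.1
      positivity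
    have : -0.21 ≤ J 0 ρ + 2 * ρ * -J 1 ρ := by nlinarith
    have : J 0 ρ + 2 * ρ * -J 1 ρ ≤ 0 := by nlinarith
    nlinarith
  have e3 : ρ * (J 0 ρ + 2 * ρ * -J 1 ρ) ^ 2 / (4 * ρ ^ 2 - 4 * ((0 : ℕ) : ℝ) ^ 2 + 1) ≤ 0.00021 := by
    have hden : (11740 : ℝ) ≤ 4 * ρ ^ 2 - 4 * ((0 : ℕ) : ℝ) ^ 2 + 1 := by
      norm_num
      nlinarith
    rw [div_le_iff₀ (by linarith)]
    nlinarith
  have e4 : ρ * J 0 ρ ^ 2 ≤ 0.636593 := by nlinarith
  linarith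

/-- `x J_0(x)^2 ≤ .6369` for `0 ≤ x ≤ ρ` -/
theorem J0_envx {x : ℝ} (hx : 0 ≤ x) (hx1 : x ≤ ρ) : x * J 0 x ^ 2 ≤ 0.6369 := by
  rcases hx.eq_or_lt with h0 | h0
  · rw [← h0]
    norm_num
  · exact (sq_le_En 0 h0.le (by
      have : 0 < x ^ 2 := by positivity
      norm_num
      linarith)).trans ((En_zero_mono h0 hx1).trans (E0_I h1 h2))

/-- `√r |J_0(ρ r)| ≤ 0.10843` (squared) -/
theorem J0_env {r : ℝ} (hr : 0 ≤ r) (hr1 : r ≤ 1) : r * J 0 (ρ * r) ^ 2 ≤ 0.011756 := by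
  have hρ : 0 < ρ := by linarith
  have h4 := J0_envx h1 h2 (x := ρ * r) (by positivity) (by nlinarith)
  nlinarith

end

/-! ### envelopes for `J_1`, `J_2` -/

theorem E1_8 : En 1 8 ≤ 0.642 := by
  unfold En
  have a := Jd_bd (n := 0) u0 u2
  have b := u1
  rw [abs_le] at a b
  norm_num at a b ⊢
  have e1 : J 1 8 ^ 2 ≤ 0.05506 := by nlinarith [a.1, a.2, b.1, b.2]
  have e2 : (J 1 8 + 16 * Jd 1 8) ^ 2 ≤ 6.35 := by
    have l : 2.5 ≤ J 1 8 + 16 * Jd 1 8 := by linarith [a.1, b.1]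
    have u : J 1 8 + 16 * Jd 1 8 ≤ 2.5132 := by linarith [a.2, b.2]
    nlinarith
  linarith

theorem E1_20 : En 1 20 ≤ 0.6373 := by
  unfold En
  have a := Jd_bd (n := 0) w0 w2
  have b := w1
  rw [abs_le] at a b
  norm_num at a b ⊢
  have e1 : J 1 20 ^ 2 ≤ 0.0044668 := by nlinarith [a.1, a.2, b.1, b.2]
  have e2 : (J 1 20 + 40 * Jd 1 20) ^ 2 ≤ 43.748 := by
    have l : 6.6 ≤ J 1 20 + 40 * Jd 1 20 := by linarith [a.1, b.1]
    have u : J 1 20 + 40 * Jd 1 20 ≤ 6.6142 := by linarith [a.2, b.2]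
    nlinarith
  linarith

theorem E2_8 : En 2 8 ≤ 0.66 := by
  unfold En
  have a := Jd_bd (n := 1) u1 u3
  have b := u2
  rw [abs_le] at a b
  norm_num at a b ⊢
  have e1 : J 2 8 ^ 2 ≤ 0.01277 := by nlinarith [a.1, a.2, b.1, b.2]
  have e2 : (J 2 8 + 16 * Jd 2 8) ^ 2 ≤ 16.77 := by
    have l : 3.9 ≤ J 2 8 + 16 * Jd 2 8 := by linarith [a.1, b.1]
    have u : J 2 8 + 16 * Jd 2 8 ≤ 4.0942 := by linarith [a.2, b.2]
    nlinarith
  linarith

theorem E2_20 : En 2 20 ≤ 0.64 := by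
  unfold En
  have a := Jd_bd (n := 1) w1 w3
  have b := w2
  rw [abs_le] at a b
  norm_num at a b ⊢
  have e1 : J 2 20 ^ 2 ≤ 0.0257094 := by nlinarith [a.1, a.2, b.1, b.2]
  have e2 : (J 2 20 + 40 * Jd 2 20) ^ 2 ≤ 9.952 := by
    have l : -3.1546 ≤ J 2 20 + 40 * Jd 2 20 := by linarith [a.1, b.1]
    have u : J 2 20 + 40 * Jd 2 20 ≤ 3.1546 := by linarith [a.2, b.2]
    nlinarith
  linarith

/-- `x J_1(x)^2 ≤ .642` for `x ≥ 8` -/
theorem J1_env8 {x : ℝ} (hx : 8 ≤ x) : x * J 1 x ^ 2 ≤ 0.642 :=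
  (sq_le_En 1 (by linarith) (by norm_num; nlinarith)).trans
    ((En_anti 0 (by norm_num) (by norm_num) hx).trans E1_8)

theorem J1_env20 {x : ℝ} (hx : 20 ≤ x) : x * J 1 x ^ 2 ≤ 0.6373 :=
  (sq_le_En 1 (by linarith) (by norm_num; nlinarith)).trans
    ((En_anti 0 (by norm_num) (by norm_num) hx).trans E1_20)

theorem J2_env8 {x : ℝ} (hx : 8 ≤ x) : x * J 2 x ^ 2 ≤ 0.66 :=
  (sq_le_En 2 (by linarith) (by norm_num; nlinarith)).trans
    ((En_anti 1 (by norm_num) (by norm_num) hx).trans E2_8)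

theorem J2_env20 {x : ℝ} (hx : 20 ≤ x) : x * J 2 x ^ 2 ≤ 0.64 :=
  (sq_le_En 2 (by linarith) (by norm_num; nlinarith)).trans
    ((En_anti 1 (by norm_num) (by norm_num) hx).trans E2_20)

section

variable {ρ : ℝ} (h1 : 54.177 ≤ ρ) (h2 : ρ ≤ 54.1834)
include h1 h2

/-- `r |J_1(ρ r)| ≤ .10847` -/
theorem rJ1_le {r : ℝ} (hr : 0 ≤ r) (hr1 : r ≤ 1) : r * |J 1 (ρ * r)| ≤ 0.10847 := by
  have hρ : 0 < ρ := by linarith
  have hx : 0 ≤ ρ * r := by positivity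
  have ha := abs_nonneg (J 1 (ρ * r))
  by_cases h8 : ρ * r < 8
  · have h3 := abs_J_succ_le 0 (ρ * r)
    rw [zero_add] at h3
    have hr8 : r ≤ 0.14767 := by
      by_contra hcon
      push Not at hcon
      nlinarith
    nlinarith
  · push Not at h8
    have e : |J 1 (ρ * r)| ^ 2 = J 1 (ρ * r) ^ 2 := sq_abs _
    by_cases h20 : ρ * r < 20
    · have h3 := J1_env8 h8
      rw [← e] at h3
      have hr20 : r ≤ 0.36917 := by
        by_contra hcon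
        push Not at hcon
        nlinarith
      have h5 : (r * |J 1 (ρ * r)|) ^ 2 * ρ ≤ 0.642 * 0.36917 := by
        have : (r * |J 1 (ρ * r)|) ^ 2 * ρ = (ρ * r * |J 1 (ρ * r)| ^ 2) * r := by ring
        rw [this]
        exact mul_le_mul h3 hr20 hr (by norm_num)
      by_contra hcon
      push Not at hcon
      have h6 : (0.10847 : ℝ) ^ 2 ≤ (r * |J 1 (ρ * r)|) ^ 2 := by gcongr
      nlinarith
    · push Not at h20
      have h3 := J1_env20 h20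
      rw [← e] at h3
      have h5 : (r * |J 1 (ρ * r)|) ^ 2 * ρ ≤ 0.6373 * 1 := by
        have : (r * |J 1 (ρ * r)|) ^ 2 * ρ = (ρ * r * |J 1 (ρ * r)| ^ 2) * r := by ring
        rw [this]
        exact mul_le_mul h3 hr1 hr (by norm_num)
      by_contra hcon
      push Not at hcon
      have h6 : (0.10847 : ℝ) ^ 2 ≤ (r * |J 1 (ρ * r)|) ^ 2 := by gcongr
      nlinarith

/-- `r |J_2(ρ r)| ≤ .1087` -/
theorem rJ2_le {r : ℝ} (hr : 0 ≤ r) (hr1 : r ≤ 1) : r * |J 2 (ρ * r)| ≤ 0.1087 := by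
  have hρ : 0 < ρ := by linarith
  have hx : 0 ≤ ρ * r := by positivity
  have ha := abs_nonneg (J 2 (ρ * r))
  by_cases h8 : ρ * r < 8
  · have h3 := abs_J_succ_le 1 (ρ * r)
    norm_num at h3
    have hr8 : r ≤ 0.14767 := by
      by_contra hcon
      push Not at hcon
      nlinarith
    nlinarith
  · push Not at h8
    have e : |J 2 (ρ * r)| ^ 2 = J 2 (ρ * r) ^ 2 := sq_abs _
    by_cases h20 : ρ * r < 20
    · have h3 := J2_env8 h8
      rw [← e] at h3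
      have hr20 : r ≤ 0.36917 := by
        by_contra hcon
        push Not at hcon
        nlinarith
      have h5 : (r * |J 2 (ρ * r)|) ^ 2 * ρ ≤ 0.66 * 0.36917 := by
        have : (r * |J 2 (ρ * r)|) ^ 2 * ρ = (ρ * r * |J 2 (ρ * r)| ^ 2) * r := by ring
        rw [this]
        exact mul_le_mul h3 hr20 hr (by norm_num)
      by_contra hcon
      push Not at hcon
      have h6 : (0.1087 : ℝ) ^ 2 ≤ (r * |J 2 (ρ * r)|) ^ 2 := by gcongr
      nlinarith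
    · push Not at h20
      have h3 := J2_env20 h20
      rw [← e] at h3
      have h5 : (r * |J 2 (ρ * r)|) ^ 2 * ρ ≤ 0.64 * 1 := by
        have : (r * |J 2 (ρ * r)|) ^ 2 * ρ = (ρ * r * |J 2 (ρ * r)| ^ 2) * r := by ring
        rw [this]
        exact mul_le_mul h3 hr1 hr (by norm_num)
      by_contra hcon
      push Not at hcon
      have h6 : (0.1087 : ℝ) ^ 2 ≤ (r * |J 2 (ρ * r)|) ^ 2 := by gcongr
      nlinarith

end

end SCHB
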