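import Pool.Agent.MP_83fd13_an.SCH.BesG
import Pool.Agent.MP_83fd13_an.SCH.BesI
import Pool.Agent.MP_83fd13_an.SCH.BesCell

/-!
# [SCH] More bounds on `[0, 1]`, uniform in `ρ ∈ [54.177, 54.1834]`
-/

set_option autoImplicit false

open Topology

namespace SCHB

theorem gridE41 : allN (fun i => cellE 39 88500 32 (1660 + (2 * i + 1)) 32 59) 38 = true := by
  decide +kernel

theorem Jd41_le {y : ℝ} (h0 : 51.875 ≤ y) (h1 : y ≤ 54.25) : |Jd 41 y| ≤ 0.0885 := by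
  obtain ⟨i, hi, hy⟩ := cover (x0 := 1660) (q := 32) (T := 32) (N := 38) (y := y) (by norm_num)
    (by norm_num at h0 ⊢; linarith) (by norm_num at h1 ⊢; linarith) (by norm_num) rfl
  have := cellE_sound (by norm_num) (allN_spec gridE41 i hi) hy
  norm_num at this ⊢
  exact this

/-- mean value inequality -/
theorem mvi {F F' : ℝ → ℝ} {r C : ℝ} (hr : r ≤ 1) (hF : ∀ s, HasDerivAt F (F' s) s)
    (hC : ∀ s, r ≤ s → s ≤ 1 → |F' s| ≤ C) : |F r - F 1| ≤ C * (1 - r) := by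
  have h1 := (convex_Icc r 1).norm_image_sub_le_of_norm_hasDerivWithin_le
    (f := F) (f' := F') (C := C) (fun y _ => (hF y).hasDerivWithinAt)
    (fun y hy => hC y hy.1 hy.2) (Set.right_mem_Icc.2 hr) (Set.left_mem_Icc.2 hr)
  rw [Real.norm_eq_abs, Real.norm_eq_abs, abs_sub_comm r 1,
    abs_of_nonneg (by linarith : (0 : ℝ) ≤ 1 - r)] at h1
  exact h1

theorem hasDerivAt_Jr (n : ℕ) (ρ s : ℝ) : HasDerivAt (fun s => J n (ρ * s)) (ρ * Jd n (ρ * s)) s := by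
  have h := (hasDerivAt_J n (ρ * s)).comp s ((hasDerivAt_id s).const_mul ρ)
  refine h.congr_deriv ?_
  simp only [mul_one]
  ring

/-- `1 - r ≤ (1 - r^42) / (42 R₀)` when `R₀ ≤ r^42` -/
theorem one_sub_le {r R0 : ℝ} (hr : 0 ≤ r) (hr1 : r ≤ 1) (h : R0 ≤ r ^ 42) :
    42 * R0 * (1 - r) ≤ 1 - r ^ 42 := by
  have hg : 1 - r ^ 42 = (1 - r) * ∑ i ∈ Finset.range 42, r ^ i := by
    have := mul_neg_geom_sum r 42
    linarith
  have hs : 42 * R0 ≤ ∑ i ∈ Finset.range 42, r ^ i := by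
    have : ∑ _i ∈ Finset.range 42, R0 ≤ ∑ i ∈ Finset.range 42, r ^ i := by
      refine Finset.sum_le_sum fun i hi => h.trans ?_
      exact pow_le_pow_of_le_one hr hr1 (by have := Finset.mem_range.1 hi; omega)
    simpa using this
  rw [hg]
  nlinarith

/-- `R (1 - r) ≤ (1 - R) / 42`, `R = r^42` -/
theorem R_one_sub {r : ℝ} (hr : 0 ≤ r) (hr1 : r ≤ 1) : r ^ 42 * (1 - r) ≤ (1 - r ^ 42) / 42 := by
  rcases hr.eq_or_lt with h | h
  · rw [← h]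
    norm_num
  · have := one_sub_le hr hr1 (le_refl (r ^ 42))
    linarith

section

variable {ρ : ℝ} (h1 : 54.177 ≤ ρ) (h2 : ρ ≤ 54.1834)
include h1 h2

/-- `√r |J_0(ρ r)| ≤ .10843` -/
theorem sqrtJ0_le {r : ℝ} (hr : 0 ≤ r) (hr1 : r ≤ 1) : √r * |J 0 (ρ * r)| ≤ 0.10843 := by
  have h := J0_env h1 h2 hr hr1
  have h3 : (√r * |J 0 (ρ * r)|) ^ 2 ≤ 0.10843 ^ 2 := by
    rw [mul_pow, Real.sq_sqrt hr, sq_abs]
    refine h.trans ?_
    norm_num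
  exact (sq_le_sq₀ (by positivity) (by norm_num)).1 h3

/-- `r |J_0(ρ r)| ≤ .10843 √r` -/
theorem rJ0_le {r : ℝ} (hr : 0 ≤ r) (hr1 : r ≤ 1) : r * |J 0 (ρ * r)| ≤ 0.10843 * √r := by
  have h := sqrtJ0_le h1 h2 hr hr1
  have e : r * |J 0 (ρ * r)| = √r * |J 0 (ρ * r)| * √r := by
    nth_rw 1 [← Real.mul_self_sqrt hr]
    ring
  rw [e]
  exact mul_le_mul_of_nonneg_right h (Real.sqrt_nonneg _)

/-- `r |J_0(ρ r)| ≤ .10843` -/
theorem rJ0_le' {r : ℝ} (hr : 0 ≤ r) (hr1 : r ≤ 1) : r * |J 0 (ρ * r)| ≤ 0.10843 := by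
  refine (rJ0_le h1 h2 hr hr1).trans ?_
  have : √r ≤ 1 := Real.sqrt_le_one.2 hr1
  linarith

/-- `|r J_1(ρ r) - J_1(ρ)| ≤ 5.876 (1 - r)` -/
theorem rJ1_sub {r : ℝ} (hr : 0 ≤ r) (hr1 : r ≤ 1) :
    |r * J 1 (ρ * r) - J 1 ρ| ≤ 5.876 * (1 - r) := by
  have hρ : 0 < ρ := by linarith
  have h := mvi (F := fun s => s * J 1 (ρ * s)) (F' := fun s => ρ * s * J 0 (ρ * s)) (C := 5.876)
    hr1 (fun s => by
      have := (hasDerivAt_id s).mul (hasDerivAt_Jr 1 ρ s)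
      refine this.congr_deriv ?_
      have e := mul_Jd' 0 (ρ * s)
      simp only [id, one_mul, Nat.cast_zero, zero_add] at e ⊢
      linear_combination e) (fun s hs hs1 => by
      have hs0 : 0 ≤ s := hr.trans hs
      have h3 := rJ0_le' h1 h2 hs0 hs1
      rw [abs_mul, abs_mul, abs_of_pos hρ, abs_of_nonneg hs0, mul_assoc]
      nlinarith)
  simpa using h

/-- `|r² J_2(ρ r) - J_2(ρ)| ≤ 5.878 (1 - r)` -/
theorem r2J2_sub {r : ℝ} (hr : 0 ≤ r) (hr1 : r ≤ 1) :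
    |r ^ 2 * J 2 (ρ * r) - J 2 ρ| ≤ 5.878 * (1 - r) := by
  have hρ : 0 < ρ := by linarith
  have h := mvi (F := fun s => s ^ 2 * J 2 (ρ * s)) (F' := fun s => ρ * s * (s * J 1 (ρ * s)))
    (C := 5.878) hr1 (fun s => by
      have := ((hasDerivAt_id s).pow 2).mul (hasDerivAt_Jr 2 ρ s)
      refine this.congr_deriv ?_
      have e := mul_Jd' 1 (ρ * s)
      norm_num at e ⊢
      linear_combination s * e) (fun s hs hs1 => by
      have hs0 : 0 ≤ s := hr.trans hs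
      have h3 := rJ1_le h1 h2 hs0 hs1
      have h4 : 0 ≤ s * |J 1 (ρ * s)| := by positivity
      rw [abs_mul, abs_mul, abs_mul, abs_of_pos hρ, abs_of_nonneg hs0]
      have h5 : ρ * s ≤ 54.1834 * 1 := by gcongr
      calc ρ * s * (s * |J 1 (ρ * s)|) ≤ (54.1834 * 1) * 0.10847 := by gcongr
        _ ≤ 5.878 := by norm_num)
  simpa using h

/-- `|r J_41(ρ r) - R J_41(ρ)| ≤ .4 (1 - R)` -/
theorem rJ41_sub {r : ℝ} (hr : 0 ≤ r) (hr1 : r ≤ 1) :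
    |r * J 41 (ρ * r) - r ^ 42 * J 41 ρ| ≤ 0.4 * (1 - r ^ 42) := by
  have hρ : 0 < ρ := by linarith
  have hJ := J41_I h1 h2
  have hR0 : 0 ≤ r ^ 42 := by positivity
  have hR1 : r ^ 42 ≤ 1 := pow_le_one₀ hr hr1
  by_cases hR : r ^ 42 ≤ 0.4
  · have hm := (J_mid (r := r) hρ.le (by linarith) hr hr1).1
    have h3 : |r * J 41 (ρ * r)| ≤ 0.196 := by
      rw [abs_mul, abs_of_nonneg hr]
      nlinarith [abs_nonneg (J 41 (ρ * r))]
    have h4 : |r ^ 42 * J 41 ρ| ≤ 0.0863 * r ^ 42 := by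
      rw [abs_mul, abs_of_nonneg hR0, abs_of_nonneg (by linarith [hJ.1])]
      nlinarith
    calc _ ≤ |r * J 41 (ρ * r)| + |r ^ 42 * J 41 ρ| := abs_sub _ _
      _ ≤ 0.4 * (1 - r ^ 42) := by linarith
  · push Not at hR
    have hr2 : 0.978 ≤ r := by
      by_contra hcon
      push Not at hcon
      have : r ^ 42 ≤ 0.978 ^ 42 := by gcongr
      norm_num at this
      linarith
    have h := mvi (F := fun s => s * J 41 (ρ * s))
      (F' := fun s => J 41 (ρ * s) + s * (ρ * Jd 41 (ρ * s))) (C := 5) hr1 (fun s => by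
        have := (hasDerivAt_id s).mul (hasDerivAt_Jr 41 ρ s)
        refine this.congr_deriv ?_
        simp) (fun s hs hs1 => by
        have hs0 : 0 ≤ s := hr.trans hs
        have hm := (J_mid (r := s) hρ.le (by linarith) hs0 hs1).1
        have hd := Jd41_le (y := ρ * s) (by nlinarith) (by nlinarith)
        refine (abs_add_le _ _).trans ?_
        rw [abs_mul, abs_mul, abs_of_pos hρ, abs_of_nonneg hs0]
        have h5 : s * (ρ * |Jd 41 (ρ * s)|) ≤ 1 * (54.1834 * 0.0885) := by gcongr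
        linarith)
    simp only [mul_one, one_mul] at h
    have h6 := one_sub_le hr hr1 hR.le
    have e : r * J 41 (ρ * r) - r ^ 42 * J 41 ρ = (r * J 41 (ρ * r) - J 41 ρ) +
        (1 - r ^ 42) * J 41 ρ := by ring
    rw [e]
    refine (abs_add_le _ _).trans ?_
    rw [abs_mul, abs_of_nonneg (by linarith : (0 : ℝ) ≤ 1 - r ^ 42),
      abs_of_nonneg (by linarith [hJ.1] : (0 : ℝ) ≤ J 41 ρ)]
    nlinarith

/-! ### the constants of the scalar equations -/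

/-- `β = ρ J_1(ρ)` -/
theorem beta_I : 0.0122 ≤ ρ * J 1 ρ ∧ ρ * J 1 ρ ≤ 0.0506 := by
  have b := J1_I' h1 h2
  constructor <;> nlinarith [b.1, b.2]

/-- `D1 = -ρ² J_0(ρ)/86 + ρ³ J_1(ρ)/7396` -/
theorem D1_I : 3.703 ≤ -ρ ^ 2 * J 0 ρ / 86 + ρ ^ 3 * J 1 ρ / 7396 ∧
    -ρ ^ 2 * J 0 ρ / 86 + ρ ^ 3 * J 1 ρ / 7396 ≤ 3.721 := by
  have a := J0_I h1 h2
  have b := J1_I' h1 h2
  have hρ : 0 < ρ := by linarith
  have s1 : 2935.14 ≤ ρ ^ 2 := by nlinarith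
  have s2 : ρ ^ 2 ≤ 2935.85 := by nlinarith
  have c1 : 159017 ≤ ρ ^ 3 := by nlinarith
  have c2 : ρ ^ 3 ≤ 159075 := by nlinarith
  have p1 : 318.09 ≤ ρ ^ 2 * -J 0 ρ := by nlinarith [a.1, a.2]
  have p2 : ρ ^ 2 * -J 0 ρ ≤ 318.223 := by nlinarith [a.1, a.2]
  have q1 : 36 ≤ ρ ^ 3 * J 1 ρ := by nlinarith [b.1, b.2]
  have q2 : ρ ^ 3 * J 1 ρ ≤ 148.42 := by nlinarith [b.1, b.2]
  constructor
  · rw [show -ρ ^ 2 * J 0 ρ / 86 + ρ ^ 3 * J 1 ρ / 7396 = (ρ ^ 2 * -J 0 ρ) / 86 +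
      (ρ ^ 3 * J 1 ρ) / 7396 by ring]
    linarith
  · rw [show -ρ ^ 2 * J 0 ρ / 86 + ρ ^ 3 * J 1 ρ / 7396 = (ρ ^ 2 * -J 0 ρ) / 86 +
      (ρ ^ 3 * J 1 ρ) / 7396 by ring]
    linarith

end

end SCHB
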