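import Pool.Agent.MP_83fd13_an.SCH.Geo4

/-!
# [SCH] certificate: definitions

Notation: `mn F` is the mean of `F` over the unit circle, `x = ρ/2`, `N = 42`.
On `|w| = 1`: `fF N ρ φ w = ρ * w * (1 + gg N φ w)`, `fF' N ρ φ w = ρ * (1 + pp N φ w)`.
-/

set_option autoImplicit false

open Metric Set MeasureTheory
open scoped RealInnerProductSpace NNReal ComplexConjugate

namespace SCHC

open SCHG

/-- the point `e^{iθ}` -/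
noncomputable def cis (θ : ℝ) : ℂ := Complex.exp (θ * Complex.I)

/-- mean over the unit circle -/
noncomputable def mn (F : ℂ → ℂ) : ℂ :=
  (((2 * Real.pi)⁻¹ : ℝ) : ℂ) * ∫ θ in (0 : ℝ)..(2 * Real.pi), F (cis θ)

/-- `e^{iρ Im z}` -/
noncomputable def EE (ρ : ℝ) (z : ℂ) : ℂ := Complex.exp (((ρ * z.im : ℝ) : ℂ) * Complex.I)

/-- the Bessel function `J_k(ρ)` as a Fourier coefficient: mean of `q^{-k} e^{iρ Im q}` -/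
noncomputable def Jc (ρ : ℝ) (k : ℤ) : ℂ := mn fun q => q ^ (-k) * EE ρ q

/-- `g(w) = ∑_{k ≥ 1} φ_k w^{Nk} / (Nk+1)` -/
noncomputable def gg (N : ℕ) (φ : ℕ → ℝ) (w : ℂ) : ℂ :=
  ∑' k : ℕ, (φ (k + 1) : ℂ) * w ^ (N * (k + 1)) / ((N * (k + 1) + 1 : ℕ) : ℂ)

/-- `∑_{k ≥ 1} φ_k w^{Nk}` -/
noncomputable def pp (N : ℕ) (φ : ℕ → ℝ) (w : ℂ) : ℂ :=
  ∑' k : ℕ, (φ (k + 1) : ℂ) * w ^ (N * (k + 1))

/-- mean over `q` of `q^{1-n} e^{iρ Im(q(1+g))}` -/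
noncomputable def KK (ρ : ℝ) (n : ℤ) (g : ℂ) : ℂ := mn fun q => q ^ (1 - n) * EE ρ (q * (1 + g))

/-- the moment `X_κ` -/
noncomputable def XX (N : ℕ) (ρ : ℝ) (φ : ℕ → ℝ) (κ : ℕ) : ℂ :=
  mn fun w => mn fun q => q ^ (1 - ((N * κ : ℕ) : ℤ)) * w ^ (N * κ) * (1 + pp N φ w) *
    EE ρ (q * (1 + gg N φ w))

/-- the moment `Y_κ` -/
noncomputable def YY (N : ℕ) (ρ : ℝ) (φ : ℕ → ℝ) (κ : ℕ) : ℂ :=
  mn fun w => mn fun q => (2 * ((w ^ N).re : ℂ)) * (Complex.I * ((q * (1 + pp N φ w)).im : ℂ)) *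
    (q ^ (-((N * κ : ℕ) : ℤ)) * w ^ (N * κ) * EE ρ (q * (1 + gg N φ w)))

/-- the mean of `w^{Nκ} (1+p) g^a conj(g)^b` -/
noncomputable def mu (N : ℕ) (φ : ℕ → ℝ) (κ a b : ℕ) : ℂ :=
  mn fun w => w ^ (N * κ) * (1 + pp N φ w) * gg N φ w ^ a * conj (gg N φ w) ^ b

/-- A classical solution of the Neumann problem on the disc (in the coordinates of `f`), with
boundary values `c + 2 h cos(N θ)`. -/
structure Sol (N : ℕ) (ρ : ℝ) (φ : ℕ → ℝ) (c h : ℝ) (U : ℂ → ℝ) (GU : ℂ → ℂ) : Prop where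
  hs : Summable fun k => |φ (k + 1)|
  Uc : ContinuousOn U (closedBall 0 1)
  Ud : ∀ w ∈ ball (0 : ℂ) 1, HasFDerivAt U (innerSL ℝ (GU w)) w
  Gc : ContinuousOn GU (closedBall 0 1)
  tang : ∀ w : ℂ, ‖w‖ = 1 → ⟪GU w, w⟫ = 0
  div : ∀ w ∈ ball (0 : ℂ) 1, w ≠ 0 → ∃ L : ℂ →L[ℝ] ℂ, HasFDerivAt GU L w ∧
    (L 1).re + (L Complex.I).im = -(Complex.normSq (fF' N ρ φ w) * U w)
  bd : ∀ w : ℂ, ‖w‖ = 1 → U w = c + 2 * h * (w ^ N).re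

/-- `F` is given on the unit circle by an absolutely convergent power series in `w^N`
with vanishing coefficients below `K` and `ℓ¹` norm at most `A`. -/
def PS (N : ℕ) (F : ℂ → ℂ) (K : ℕ) (A : ℝ) : Prop :=
  ∃ a : ℕ → ℂ, Summable (fun k => ‖a k‖) ∧ ∑' k, ‖a k‖ ≤ A ∧ (∀ k < K, a k = 0) ∧
    ∀ w : ℂ, ‖w‖ = 1 → F w = ∑' k, a k * w ^ (N * k)

/-- error bound for `X_1` (`x = ρ/2`, `n = N`, `e = φ_1/(N+1)`, `Ga ≥ |g - e w^N|`,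
`G3 ≥` tail from order 3, `P2 ≥ |p - φ_1 w^N|`; `j0, j1, j` bound `|J_N|`, `|J_{N±1}|`,
`|J_{N±2}|, |J_{N±3}|`) -/
noncomputable def er1 (n x e Ga G3 P2 j0 j1 j : ℝ) : ℝ :=
  x * j0 * ((n + 1) * e + P2) * Ga +
  x ^ 2 * j1 * ((e * ((n + 1) * e + P2) + (1 + (n + 1) * e + P2) * Ga) * G3 +
    P2 * (2 * e * Ga + Ga ^ 2) / 2) +
  x ^ 3 * (j * (1 + (n + 1) * e + P2) * (e + Ga) ^ 2 * G3 / 2 +
    j0 * (1 + (n + 1) * e + P2) * (e + Ga) ^ 3 / 2 + j * P2 * (e + Ga) ^ 3 / 6) +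
  x ^ 4 * (j * (1 + (n + 1) * e + P2) * (e + Ga) ^ 3 * G3 / 6 +
    j1 * (1 + (n + 1) * e + P2) * (e + Ga) ^ 2 * (2 * e * Ga + Ga ^ 2) / 4 +
    j1 * (e * ((n + 1) * e + P2) + (1 + (n + 1) * e + P2) * Ga) * (e + Ga) ^ 3 / 6 +
    j * P2 * (e + Ga) ^ 4 / 24) +
  (1 + (n + 1) * e + P2) * ((2 * x * (e + Ga)) ^ 5 / 100)

/-- error bound for `X_0` (`a0, a1, a2, a3` bound `|J_0|, |J_{±1}|, |J_{±2}|, |J_{±3}|`) -/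
noncomputable def er0 (n x e Ga P2 a0 a1 a2 a3 : ℝ) : ℝ :=
  x * a0 * P2 * Ga +
  x ^ 2 * (a1 * (1 + (n + 1) * e + P2) * (e + Ga) ^ 2 + a1 * P2 * (e + Ga) ^ 2 / 2) +
  x ^ 3 * (a2 * (1 + (n + 1) * e + P2) * (e + Ga) ^ 2 * Ga / 2 +
    a0 * (e * ((n + 1) * e + P2) + (1 + (n + 1) * e + P2) * Ga) * (e + Ga) ^ 2 / 2 +
    a2 * P2 * (e + Ga) ^ 3 / 6) +
  x ^ 4 * (1 + (n + 1) * e + P2) * (e + Ga) ^ 4 * (5 * a3 / 24 + 5 * a1 / 12) +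
  (1 + (n + 1) * e + P2) * ((2 * x * (e + Ga)) ^ 5 / 100)

/-- error bound for `Y_0` -/
noncomputable def ey0 (n x e Ga P2 a0 a1 a2 a3 : ℝ) : ℝ :=
  2 * ((n + 1) * e + P2) * a1 + 2 * ((n + 1) * e + P2) * (x * (e + Ga)) * (a0 + a2) +
  2 * (1 + (n + 1) * e + P2) * (x ^ 2 * (e + Ga) ^ 2 * (3 * a1 / 2 + a3 / 2) +
    (2 * x * (e + Ga)) ^ 3 * (2 / 9))

/-- error bound for `Y_1` -/
noncomputable def ey1 (n x e Ga P2 j0 j1 j : ℝ) : ℝ :=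
  2 * ((n + 1) * e + P2) * j1 +
  2 * (1 + (n + 1) * e + P2) * (x * (e + Ga)) * (j + j0) +
  2 * (1 + (n + 1) * e + P2) * (x ^ 2 * (e + Ga) ^ 2 * (3 * j1 / 2 + j / 2) +
    (2 * x * (e + Ga)) ^ 3 * (2 / 9))

end SCHC
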