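import Pool.Agent.MP_83fd13_an.SCH.BesF
import Pool.Agent.MP_83fd13_an.SCH.CertDefs

/-!
# [SCH] Bridge: `SCHC.Jc ρ k = SCHB.JZ k ρ`
-/

set_option autoImplicit false

namespace SCHB

open SCHC

theorem cis_eq (θ : ℝ) : cis θ = Complex.exp (Complex.I * (θ : ℂ)) := by
  unfold cis
  rw [mul_comm]

/-- the bridge -/
theorem Jc_eq (ρ : ℝ) (k : ℤ) : Jc ρ k = (JZ k ρ : ℂ) := by
  unfold Jc mn
  have h1 : ∀ θ : ℝ, cis θ ^ (-k) * EE ρ (cis θ) =
      Complex.exp (Complex.I * ((ρ * Real.sin θ - k * θ : ℝ) : ℂ)) := by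
    intro θ
    have h4 : (cis θ).im = Real.sin θ := by
      unfold cis
      rw [Complex.exp_ofReal_mul_I_im]
    unfold EE
    rw [h4, cis_eq, exp_it_zpow, ← Complex.exp_add]
    congr 1
    push_cast
    ring
  simp_rw [h1]
  rw [integral_JZ, ← mul_assoc, ← Complex.ofReal_mul, inv_mul_cancel₀ (by positivity)]
  simp

theorem JZ_neg (k : ℤ) (x : ℝ) : JZ (-k) x = (-1) ^ k * JZ k x := by
  rcases k with n | n
  · rcases n with _ | n
    · simp
    · have e : -Int.ofNat (n + 1) = Int.negSucc n := rfl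
      rw [e]
      change (-1) ^ (n + 1) * J (n + 1) x = (-1) ^ (((n + 1 : ℕ) : ℤ)) * J (n + 1) x
      rw [zpow_natCast]
  · have e : -Int.negSucc n = ((n + 1 : ℕ) : ℤ) := rfl
    rw [e, JZ_nat]
    change _ = (-1 : ℝ) ^ (Int.negSucc n) * ((-1) ^ (n + 1) * J (n + 1) x)
    rw [zpow_negSucc, ← mul_assoc, inv_mul_cancel₀ (pow_ne_zero _ (by norm_num)), one_mul]

end SCHB
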