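import Pool.Agent.MP_83fd13_an.SCH.BesK
import Pool.Agent.MP_83fd13_an.SCH.BesEd

/-!
# [SCH] Enclosures at `ρ = 54178 / 1000`
-/

set_option autoImplicit false

namespace SCHB

open SCHC

namespace P178

theorem e0 : |J 0 (54178 / 1000) - (-1083822567165 / 10 ^ 13)| ≤ 1 / 10 ^ 13 := by
  have h := chk_abs (n := 0) (p := 54178) (q := 1000) (M := 87) (k := 13) (v := -1083822567165) (by decide +kernel)
  push_cast at h
  exact h

theorem e1 : |J 1 (54178 / 1000) - (8187533091 / 10 ^ 13)| ≤ 1 / 10 ^ 13 := by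
  have h := chk_abs (n := 1) (p := 54178) (q := 1000) (M := 87) (k := 13) (v := 8187533091) (by decide +kernel)
  push_cast at h
  exact h

theorem e2 : |J 2 (54178 / 1000) - (1084124812840 / 10 ^ 13)| ≤ 1 / 10 ^ 13 := by
  have h := chk_abs (n := 2) (p := 54178) (q := 1000) (M := 86) (k := 13) (v := 1084124812840) (by decide +kernel)
  push_cast at h
  exact h

theorem e3 : |J 3 (54178 / 1000) - (71854167440 / 10 ^ 13)| ≤ 1 / 10 ^ 13 := by
  have h := chk_abs (n := 3) (p := 54178) (q := 1000) (M := 86) (k := 13) (v := 71854167440) (by decide +kernel)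
  push_cast at h
  exact h

theorem e39 : |J 39 (54178 / 1000) - (106764 / 10 ^ 6)| ≤ 1 / 10 ^ 6 := by
  have h := chk_abs (n := 39) (p := 54178) (q := 1000) (M := 59) (k := 6) (v := 106764) (by decide +kernel)
  push_cast at h
  exact h

theorem e40 : |J 40 (54178 / 1000) - (130475 / 10 ^ 6)| ≤ 1 / 10 ^ 6 := by
  have h := chk_abs (n := 40) (p := 54178) (q := 1000) (M := 58) (k := 6) (v := 130475) (by decide +kernel)
  push_cast at h
  exact h

theorem e41 : |J 41 (54178 / 1000) - (858970095141 / 10 ^ 13)| ≤ 1 / 10 ^ 13 := by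
  have h := chk_abs (n := 41) (p := 54178) (q := 1000) (M := 65) (k := 13) (v := 858970095141) (by decide +kernel)
  push_cast at h
  exact h

theorem e42 : |J 42 (54178 / 1000) - (-4669359501 / 10 ^ 13)| ≤ 1 / 10 ^ 13 := by
  have h := chk_abs (n := 42) (p := 54178) (q := 1000) (M := 64) (k := 13) (v := -4669359501) (by decide +kernel)
  push_cast at h
  exact h

theorem e43 : |J 43 (54178 / 1000) - (-866209679438 / 10 ^ 13)| ≤ 1 / 10 ^ 13 := by
  have h := chk_abs (n := 43) (p := 54178) (q := 1000) (M := 64) (k := 13) (v := -866209679438) (by decide +kernel)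
  push_cast at h
  exact h

theorem e44 : |J 44 (54178 / 1000) - (-137032 / 10 ^ 6)| ≤ 1 / 10 ^ 6 := by
  have h := chk_abs (n := 44) (p := 54178) (q := 1000) (M := 56) (k := 6) (v := -137032) (by decide +kernel)
  push_cast at h
  exact h

theorem e45 : |J 45 (54178 / 1000) - (-135956 / 10 ^ 6)| ≤ 1 / 10 ^ 6 := by
  have h := chk_abs (n := 45) (p := 54178) (q := 1000) (M := 55) (k := 6) (v := -135956) (by decide +kernel)
  push_cast at h
  exact h

end P178

theorem bes178 : ∃ J : ℤ → ℝ, (∀ k, Jc (54178 / 1000) k = (J k : ℂ)) ∧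
    (∀ k, J (-k) = (-1) ^ k * J k) ∧
    |J 0 - (-1083822567165) / 10 ^ 13| ≤ 1 / 10 ^ 13 ∧
    |J 1 - 8187533091 / 10 ^ 13| ≤ 1 / 10 ^ 13 ∧
    |J 2 - 1084124812840 / 10 ^ 13| ≤ 1 / 10 ^ 13 ∧
    |J 3 - 71854167440 / 10 ^ 13| ≤ 1 / 10 ^ 13 ∧
    |J 39 - 106764 / 10 ^ 6| ≤ 1 / 10 ^ 6 ∧
    |J 40 - 130475 / 10 ^ 6| ≤ 1 / 10 ^ 6 ∧
    |J 41 - 858970095141 / 10 ^ 13| ≤ 1 / 10 ^ 13 ∧
    |J 42 - (-4669359501) / 10 ^ 13| ≤ 1 / 10 ^ 13 ∧
    |J 43 - (-866209679438) / 10 ^ 13| ≤ 1 / 10 ^ 13 ∧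
    |J 44 - (-137032) / 10 ^ 6| ≤ 1 / 10 ^ 6 ∧
    |J 45 - (-135956) / 10 ^ 6| ≤ 1 / 10 ^ 6 :=
  ⟨fun k => JZ k (54178 / 1000), fun k => by
    have := Jc_eq (54178 / 1000) k
    push_cast at this ⊢
    exact this, fun k => JZ_neg k _,
    P178.e0, P178.e1, P178.e2, P178.e3, P178.e39, P178.e40, P178.e41, P178.e42, P178.e43, P178.e44, P178.e45⟩

end SCHB
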