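import Pool.Agent.MP_83fd13_an.SCH.BesK
import Pool.Agent.MP_83fd13_an.SCH.BesJ

/-!
# [SCH] Enclosures at `ρ = 54182 / 1000`
-/

set_option autoImplicit false

namespace SCHB

open SCHC

namespace P182

theorem e0 : |J 0 (54182 / 1000) - (-1083846645646 / 10 ^ 13)| ≤ 1 / 10 ^ 13 := by
  have h := chk_abs (n := 0) (p := 54182) (q := 1000) (M := 87) (k := 13) (v := -1083846645646) (by decide +kernel)
  push_cast at h
  exact h

theorem e1 : |J 1 (54182 / 1000) - (3851744466 / 10 ^ 13)| ≤ 1 / 10 ^ 13 := by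
  have h := chk_abs (n := 1) (p := 54182) (q := 1000) (M := 87) (k := 13) (v := 3851744466) (by decide +kernel)
  push_cast at h
  exact h

theorem e2 : |J 2 (54182 / 1000) - (1083988823656 / 10 ^ 13)| ≤ 1 / 10 ^ 13 := by
  have h := chk_abs (n := 2) (p := 54182) (q := 1000) (M := 86) (k := 13) (v := 1083988823656) (by decide +kernel)
  push_cast at h
  exact h

theorem e3 : |J 3 (54182 / 1000) - (76174007529 / 10 ^ 13)| ≤ 1 / 10 ^ 13 := by
  have h := chk_abs (n := 3) (p := 54182) (q := 1000) (M := 86) (k := 13) (v := 76174007529) (by decide +kernel)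
  push_cast at h
  exact h

theorem e39 : |J 39 (54182 / 1000) - (106549 / 10 ^ 6)| ≤ 1 / 10 ^ 6 := by
  have h := chk_abs (n := 39) (p := 54182) (q := 1000) (M := 59) (k := 6) (v := 106549) (by decide +kernel)
  push_cast at h
  exact h

theorem e40 : |J 40 (54182 / 1000) - (130516 / 10 ^ 6)| ≤ 1 / 10 ^ 6 := by
  have h := chk_abs (n := 40) (p := 54182) (q := 1000) (M := 58) (k := 6) (v := 130516) (by decide +kernel)
  push_cast at h
  exact h

theorem e41 : |J 41 (54182 / 1000) - (861585889569 / 10 ^ 13)| ≤ 1 / 10 ^ 13 := by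
  have h := chk_abs (n := 41) (p := 54182) (q := 1000) (M := 65) (k := 13) (v := 861585889569) (by decide +kernel)
  push_cast at h
  exact h

theorem e42 : |J 42 (54182 / 1000) - (-1219116082 / 10 ^ 13)| ≤ 1 / 10 ^ 13 := by
  have h := chk_abs (n := 42) (p := 54182) (q := 1000) (M := 64) (k := 13) (v := -1219116082) (by decide +kernel)
  push_cast at h
  exact h

theorem e43 : |J 43 (54182 / 1000) - (-863475922254 / 10 ^ 13)| ≤ 1 / 10 ^ 13 := by
  have h := chk_abs (n := 43) (p := 54182) (q := 1000) (M := 64) (k := 13) (v := -863475922254) (by decide +kernel)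
  push_cast at h
  exact h

theorem e44 : |J 44 (54182 / 1000) - (-136933 / 10 ^ 6)| ≤ 1 / 10 ^ 6 := by
  have h := chk_abs (n := 44) (p := 54182) (q := 1000) (M := 56) (k := 6) (v := -136933) (by decide +kernel)
  push_cast at h
  exact h

theorem e45 : |J 45 (54182 / 1000) - (-136052 / 10 ^ 6)| ≤ 1 / 10 ^ 6 := by
  have h := chk_abs (n := 45) (p := 54182) (q := 1000) (M := 55) (k := 6) (v := -136052) (by decide +kernel)
  push_cast at h
  exact h

end P182

theorem bes182 : ∃ J : ℤ → ℝ, (∀ k, Jc (54182 / 1000) k = (J k : ℂ)) ∧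
    (∀ k, J (-k) = (-1) ^ k * J k) ∧
    |J 0 - (-1083846645646) / 10 ^ 13| ≤ 1 / 10 ^ 13 ∧
    |J 1 - 3851744466 / 10 ^ 13| ≤ 1 / 10 ^ 13 ∧
    |J 2 - 1083988823656 / 10 ^ 13| ≤ 1 / 10 ^ 13 ∧
    |J 3 - 76174007529 / 10 ^ 13| ≤ 1 / 10 ^ 13 ∧
    |J 39 - 106549 / 10 ^ 6| ≤ 1 / 10 ^ 6 ∧
    |J 40 - 130516 / 10 ^ 6| ≤ 1 / 10 ^ 6 ∧
    |J 41 - 861585889569 / 10 ^ 13| ≤ 1 / 10 ^ 13 ∧
    |J 42 - (-1219116082) / 10 ^ 13| ≤ 1 / 10 ^ 13 ∧
    |J 43 - (-863475922254) / 10 ^ 13| ≤ 1 / 10 ^ 13 ∧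
    |J 44 - (-136933) / 10 ^ 6| ≤ 1 / 10 ^ 6 ∧
    |J 45 - (-136052) / 10 ^ 6| ≤ 1 / 10 ^ 6 :=
  ⟨fun k => JZ k (54182 / 1000), fun k => by
    have := Jc_eq (54182 / 1000) k
    push_cast at this ⊢
    exact this, fun k => JZ_neg k _,
    P182.e0, P182.e1, P182.e2, P182.e3, P182.e39, P182.e40, P182.e41, P182.e42, P182.e43, P182.e44, P182.e45⟩

end SCHB
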