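import Pool.Agent.MP_83fd13_an.SCH.BesK
import Pool.Agent.MP_83fd13_an.SCH.BesEd

/-!
# [SCH] Enclosures at `ρ = 541833 / 10000`
-/

set_option autoImplicit false

namespace SCHB

open SCHC

namespace P1833

theorem e0 : |J 0 (541833 / 10000) - (-1083850737009 / 10 ^ 13)| ≤ 1 / 10 ^ 13 := by
  have h := chk_abs (n := 0) (p := 541833) (q := 10000) (M := 87) (k := 13) (v := -1083850737009) (by decide +kernel)
  push_cast at h
  exact h

theorem e1 : |J 1 (541833 / 10000) - (2442665458 / 10 ^ 13)| ≤ 1 / 10 ^ 13 := by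
  have h := chk_abs (n := 1) (p := 541833) (q := 10000) (M := 87) (k := 13) (v := 2442665458) (by decide +kernel)
  push_cast at h
  exact h

theorem e2 : |J 2 (541833 / 10000) - (1083940900047 / 10 ^ 13)| ≤ 1 / 10 ^ 13 := by
  have h := chk_abs (n := 2) (p := 541833) (q := 10000) (M := 86) (k := 13) (v := 1083940900047) (by decide +kernel)
  push_cast at h
  exact h

theorem e3 : |J 3 (541833 / 10000) - (77577628621 / 10 ^ 13)| ≤ 1 / 10 ^ 13 := by
  have h := chk_abs (n := 3) (p := 541833) (q := 10000) (M := 86) (k := 13) (v := 77577628621) (by decide +kernel)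
  push_cast at h
  exact h

theorem e39 : |J 39 (541833 / 10000) - (106479 / 10 ^ 6)| ≤ 1 / 10 ^ 6 := by
  have h := chk_abs (n := 39) (p := 541833) (q := 10000) (M := 59) (k := 6) (v := 106479) (by decide +kernel)
  push_cast at h
  exact h

theorem e40 : |J 40 (541833 / 10000) - (130529 / 10 ^ 6)| ≤ 1 / 10 ^ 6 := by
  have h := chk_abs (n := 40) (p := 541833) (q := 10000) (M := 58) (k := 6) (v := 130529) (by decide +kernel)
  push_cast at h
  exact h

theorem e41 : |J 41 (541833 / 10000) - (862434713559 / 10 ^ 13)| ≤ 1 / 10 ^ 13 := by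
  have h := chk_abs (n := 41) (p := 541833) (q := 10000) (M := 65) (k := 13) (v := 862434713559) (by decide +kernel)
  push_cast at h
  exact h

theorem e42 : |J 42 (541833 / 10000) - (-97839071 / 10 ^ 13)| ≤ 1 / 10 ^ 13 := by
  have h := chk_abs (n := 42) (p := 541833) (q := 10000) (M := 64) (k := 13) (v := -97839071) (by decide +kernel)
  push_cast at h
  exact h

theorem e43 : |J 43 (541833 / 10000) - (-862586392803 / 10 ^ 13)| ≤ 1 / 10 ^ 13 := by
  have h := chk_abs (n := 43) (p := 541833) (q := 10000) (M := 64) (k := 13) (v := -862586392803) (by decide +kernel)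
  push_cast at h
  exact h

theorem e44 : |J 44 (541833 / 10000) - (-136900 / 10 ^ 6)| ≤ 1 / 10 ^ 6 := by
  have h := chk_abs (n := 44) (p := 541833) (q := 10000) (M := 56) (k := 6) (v := -136900) (by decide +kernel)
  push_cast at h
  exact h

theorem e45 : |J 45 (541833 / 10000) - (-136084 / 10 ^ 6)| ≤ 1 / 10 ^ 6 := by
  have h := chk_abs (n := 45) (p := 541833) (q := 10000) (M := 55) (k := 6) (v := -136084) (by decide +kernel)
  push_cast at h
  exact h

end P1833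

theorem bes1833 : ∃ J : ℤ → ℝ, (∀ k, Jc (541833 / 10000) k = (J k : ℂ)) ∧
    (∀ k, J (-k) = (-1) ^ k * J k) ∧
    |J 0 - (-1083850737009) / 10 ^ 13| ≤ 1 / 10 ^ 13 ∧
    |J 1 - 2442665458 / 10 ^ 13| ≤ 1 / 10 ^ 13 ∧
    |J 2 - 1083940900047 / 10 ^ 13| ≤ 1 / 10 ^ 13 ∧
    |J 3 - 77577628621 / 10 ^ 13| ≤ 1 / 10 ^ 13 ∧
    |J 39 - 106479 / 10 ^ 6| ≤ 1 / 10 ^ 6 ∧
    |J 40 - 130529 / 10 ^ 6| ≤ 1 / 10 ^ 6 ∧
    |J 41 - 862434713559 / 10 ^ 13| ≤ 1 / 10 ^ 13 ∧
    |J 42 - (-97839071) / 10 ^ 13| ≤ 1 / 10 ^ 13 ∧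
    |J 43 - (-862586392803) / 10 ^ 13| ≤ 1 / 10 ^ 13 ∧
    |J 44 - (-136900) / 10 ^ 6| ≤ 1 / 10 ^ 6 ∧
    |J 45 - (-136084) / 10 ^ 6| ≤ 1 / 10 ^ 6 :=
  ⟨fun k => JZ k (541833 / 10000), fun k => by
    have := Jc_eq (541833 / 10000) k
    push_cast at this ⊢
    exact this, fun k => JZ_neg k _,
    P1833.e0, P1833.e1, P1833.e2, P1833.e3, P1833.e39, P1833.e40, P1833.e41, P1833.e42, P1833.e43, P1833.e44, P1833.e45⟩

end SCHB
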