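import Pool.Agent.MP_83fd13_an.SCH.KerC

/-!
# [SCH] explicit solutions: `r^p J_l(ρ r)` and the explicit parts of System E

Abstract in the Bessel functions: `BesselSys J` is proved for the true Bessel functions in the Bessel
layer.
-/

set_option autoImplicit false

namespace Pool.Agent.SCH

open MeasureTheory Set Filter Topology

/-- the differential relations of the Bessel functions -/
structure BesselSys (J : ℕ → ℝ → ℝ) : Prop where
  d0 : ∀ x : ℝ, HasDerivAt (J 0) (-J 1 x) x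
  dS : ∀ (n : ℕ) (x : ℝ), HasDerivAt (J (n + 1)) ((J n x - J (n + 2) x) / 2) x
  recur : ∀ (n : ℕ) (x : ℝ), 2 * ((n : ℝ) + 1) * J (n + 1) x = x * (J n x + J (n + 2) x)

variable {J : ℕ → ℝ → ℝ} (B : BesselSys J)
include B

/-- `x J_l' = l J_l - x J_{l+1}` -/
theorem BesselSys.exists_deriv (l : ℕ) (x : ℝ) : ∃ D : ℝ, HasDerivAt (J l) D x ∧
    x * D = l * J l x - x * J (l + 1) x := by
  rcases l with _ | l
  · exact ⟨_, B.d0 x, by push_cast; ring⟩
  · refine ⟨_, B.dS l x, ?_⟩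
    have h := B.recur l x
    push_cast
    linear_combination (1 / 2 : ℝ) * (-h)

/-- derivative of `r^p J_{l+1}(ρ r)`, `r > 0` -/
theorem BesselSys.rJ_d1 (ρ : ℝ) (p l : ℕ) (hp : 1 ≤ p) {r : ℝ} (hr : 0 < r) :
    HasDerivAt (fun r => r ^ p * J (l + 1) (ρ * r))
      ((((p : ℝ) - l - 1) * r ^ p * J (l + 1) (ρ * r) + ρ * r ^ (p + 1) * J l (ρ * r)) / r) r := by
  have h1 : HasDerivAt (fun r : ℝ => ρ * r) ρ r := by
    simpa using (hasDerivAt_id r).const_mul ρ
  have h2 : HasDerivAt (fun r => J (l + 1) (ρ * r)) _ r := (B.dS l (ρ * r)).comp r h1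
  have h3 := (hasDerivAt_pow p r).mul h2
  refine h3.congr_deriv ?_
  have h := B.recur l (ρ * r)
  obtain ⟨q, rfl⟩ : ∃ q, p = q + 1 := ⟨p - 1, by omega⟩
  rw [eq_div_iff hr.ne']
  simp only [Nat.add_sub_cancel]
  push_cast
  linear_combination ((1 / 2 : ℝ) * r ^ (q + 1)) * h

/-- `y = r^p J_{l+1}(ρ r)` as a radial solution -/
theorem BesselSys.rsol_rJ (ρ : ℝ) (n p l : ℕ) (hp : 1 ≤ p) :
    RSol n (fun r => r ^ p * (((n : ℝ) ^ 2 - ((p : ℝ) - l - 1) ^ 2 + (ρ * r) ^ 2) *
        J (l + 1) (ρ * r) - 2 * p * (ρ * r) * J l (ρ * r)) / r ^ 2)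
      (fun r => r ^ p * J (l + 1) (ρ * r))
      (fun r => (((p : ℝ) - l - 1) * r ^ p * J (l + 1) (ρ * r) +
        ρ * r ^ (p + 1) * J l (ρ * r)) / r) where
  d1 r hr := B.rJ_d1 ρ p l hp hr
  d2 r hr := by
    have h1 : HasDerivAt (fun r : ℝ => ρ * r) ρ r := by
      simpa using (hasDerivAt_id r).const_mul ρ
    have e1 : HasDerivAt (fun r => ((p : ℝ) - l - 1) * (r ^ p * J (l + 1) (ρ * r)) +
        ρ * (r ^ (p + 1) * J l (ρ * r))) (((p : ℝ) - l - 1) *
          ((((p : ℝ) - l - 1) * r ^ p * J (l + 1) (ρ * r) + ρ * r ^ (p + 1) * J l (ρ * r)) / r) +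
          ρ * (r ^ p * (((p : ℝ) + 1 + l) * J l (ρ * r) - ρ * r * J (l + 1) (ρ * r)))) r := by
      refine ((B.rJ_d1 ρ p l hp hr).const_mul _).add (HasDerivAt.const_mul _ ?_)
      obtain ⟨D, hD, hD'⟩ := B.exists_deriv l (ρ * r)
      have h2 : HasDerivAt (fun r => J l (ρ * r)) (D * ρ) r := hD.comp r h1
      refine ((hasDerivAt_pow (p + 1) r).mul h2).congr_deriv ?_
      simp only [Nat.add_sub_cancel]
      push_cast
      linear_combination (r ^ p) * hD'
    refine (e1.congr_deriv ?_).congr_of_eventuallyEq ?_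
    · field_simp
      ring
    · filter_upwards [Ioi_mem_nhds hr] with x hx
      have hx' : x ≠ 0 := ne_of_gt hx
      field_simp

/-- `J_l(ρ r)`, `l ≥ 1`, is a radial solution with `n = l` -/
theorem BesselSys.rsol_J (ρ : ℝ) (l : ℕ) :
    RSol (l + 1) (fun r => ρ ^ 2 * J (l + 1) (ρ * r)) (fun r => J (l + 1) (ρ * r))
      (fun r => ρ * (J l (ρ * r) - J (l + 2) (ρ * r)) / 2) where
  d1 r hr := by
    have h1 : HasDerivAt (fun r : ℝ => ρ * r) ρ r := by
      simpa using (hasDerivAt_id r).const_mul ρ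
    exact ((B.dS l (ρ * r)).comp r h1).congr_deriv (by ring)
  d2 r hr := by
    have h1 : HasDerivAt (fun r : ℝ => ρ * r) ρ r := by
      simpa using (hasDerivAt_id r).const_mul ρ
    have hrec : ∀ r, r * (ρ * (J l (ρ * r) - J (l + 2) (ρ * r)) / 2) =
        ρ * r * J l (ρ * r) - (l + 1) * J (l + 1) (ρ * r) := by
      intro r
      linear_combination (1 / 2 : ℝ) * B.recur l (ρ * r)
    obtain ⟨D, hD, hD'⟩ := B.exists_deriv l (ρ * r)
    have h2 : HasDerivAt (fun r => J l (ρ * r)) (D * ρ) r := hD.comp r h1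
    have h3 : HasDerivAt (fun r => J (l + 1) (ρ * r)) _ r := (B.dS l (ρ * r)).comp r h1
    have h4 := (h1.mul h2).sub (h3.const_mul ((l : ℝ) + 1))
    refine (h4.congr_deriv ?_).congr_of_eventuallyEq (Eventually.of_forall fun x => ?_)
    · have h5 := B.recur l (ρ * r)
      have hr' := hr.ne'
      have h6 : ((l : ℝ) + 1) ^ 2 * J (l + 1) (ρ * r) / r =
          ((l : ℝ) + 1) * ρ * (J l (ρ * r) + J (l + 2) (ρ * r)) / 2 := by
        rw [div_eq_div_iff hr' two_ne_zero]
        linear_combination ((l : ℝ) + 1) * h5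
      push_cast
      linear_combination ρ * hD' - h6
    · simp only [Pi.mul_apply, Pi.sub_apply]
      exact hrec x

/-- `J_0(ρ r)` -/
theorem BesselSys.rsol_J0 (ρ : ℝ) :
    RSol 0 (fun r => ρ ^ 2 * J 0 (ρ * r)) (fun r => J 0 (ρ * r)) (fun r => - ρ * J 1 (ρ * r)) where
  d1 r hr := by
    have h1 : HasDerivAt (fun r : ℝ => ρ * r) ρ r := by
      simpa using (hasDerivAt_id r).const_mul ρ
    exact ((B.d0 (ρ * r)).comp r h1).congr_deriv (by ring)
  d2 r hr := by
    have h1 : HasDerivAt (fun r : ℝ => ρ * r) ρ r := by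
      simpa using (hasDerivAt_id r).const_mul ρ
    have h3 : HasDerivAt (fun r => J 1 (ρ * r)) _ r := (B.dS 0 (ρ * r)).comp r h1
    have h4 := ((hasDerivAt_id r).mul h3).const_mul (-ρ)
    refine (h4.congr_deriv ?_).congr_of_eventuallyEq (Eventually.of_forall fun x => ?_)
    · have h5 := B.recur 0 (ρ * r)
      simp only [id]
      push_cast at h5 ⊢
      rw [zero_pow two_ne_zero]
      linear_combination (-ρ / 2) * h5
    · simp only [Pi.mul_apply, id]
      ring

end Pool.Agent.SCH
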