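import Pool.Agent.MP_83fd13_an.SCH.BesA
import Pool.Agent.MP_83fd13_an.SCH.Exp1

/-!
# [SCH] The true Bessel functions satisfy `BesselSys`
-/

set_option autoImplicit false

namespace SCHB

theorem besselSys : Pool.Agent.SCH.BesselSys J where
  d0 x := hasDerivAt_J 0 x
  dS n x := hasDerivAt_J (n + 1) x
  recur n x := (J_rec n x).symm

end SCHB
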