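import Pool.Agent.MP_83fd13_an.SCH.BesCell

/-!
# [SCH] `|J_n| ≤ 0.195` and `|J_n'| ≤ 0.0915` on `[0, 54.25]` for `n = 40, …, 43`
-/

set_option autoImplicit false

open Topology

namespace SCHB

/-- check on one cell: `|J_{n+1}| ≤ A / 10^6` -/
def oneJ (T A : ℕ) (a b c : ℤ) : Bool :=
  Nat.ble (2 * T ^ 2 * (b.natAbs + 2) + ((a - c).natAbs + 4) * T + 1000000) (2 * A * T ^ 2)

/-- one cell -/
def cellJ (n A T c q M : ℕ) : Bool :=
  (vok n c q M 6 && vok (n + 1) c q M 6 && vok (n + 2) c q M 6) &&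
  oneJ T A (val n c q M 6) (val (n + 1) c q M 6) (val (n + 2) c q M 6)

theorem cellJ_sound {n A T c q M : ℕ} (hT : 0 < T) (h : cellJ n A T c q M = true) {y : ℝ}
    (hy : |y - (c : ℝ) / q| ≤ 1 / T) : |J (n + 1) y| ≤ A / 10 ^ 6 := by
  unfold cellJ at h
  simp only [Bool.and_eq_true] at h
  obtain ⟨⟨⟨a0, a1⟩, a2⟩, hh⟩ := h
  have v0 := val_sound a0
  have v1 := val_sound a1
  have v2 := val_sound a2
  unfold oneJ at hh
  rw [Nat.ble_eq] at hh
  set x : ℝ := (c : ℝ) / q with hx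
  set a := val n c q M 6
  set b := val (n + 1) c q M 6
  set d := val (n + 2) c q M 6
  have hR : 2 * (T : ℝ) ^ 2 * (|(b : ℝ)| + 2) + (|(a : ℝ) - d| + 4) * T + 1000000 ≤
      2 * A * (T : ℝ) ^ 2 := by
    have := (Nat.cast_le (α := ℝ)).2 hh
    push_cast at this
    rw [← Int.cast_abs, ← Int.cast_sub, ← Int.cast_abs]
    push_cast
    simpa using this
  have hTR : (0 : ℝ) < T := by exact_mod_cast hT
  have hb : |J (n + 1) x| * 10 ^ 6 ≤ |(b : ℝ)| + 2 := by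
    have h5 : |J (n + 1) x * 10 ^ 6| ≤ |(b : ℝ)| + 2 := by
      calc |J (n + 1) x * 10 ^ 6| = |(b : ℝ) + (J (n + 1) x * 10 ^ 6 - b)| := by ring_nf
        _ ≤ |(b : ℝ)| + |J (n + 1) x * 10 ^ 6 - b| := abs_add_le _ _
        _ ≤ |(b : ℝ)| + 2 := by linarith
    rwa [abs_mul, abs_of_pos (by positivity : (0 : ℝ) < 10 ^ 6)] at h5
  have hd : |Jd (n + 1) x| * 2 * 10 ^ 6 ≤ |(a : ℝ) - d| + 4 := by
    rw [Jd_succ]
    have h5 : |(J n x - J (n + 2) x) * 10 ^ 6| ≤ |(a : ℝ) - d| + 4 := by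
      calc |(J n x - J (n + 2) x) * 10 ^ 6| = |((a : ℝ) - d) + ((J n x * 10 ^ 6 - a) -
            (J (n + 2) x * 10 ^ 6 - d))| := by ring_nf
        _ ≤ |(a : ℝ) - d| + |(J n x * 10 ^ 6 - a) - (J (n + 2) x * 10 ^ 6 - d)| := abs_add_le _ _
        _ ≤ |(a : ℝ) - d| + (|J n x * 10 ^ 6 - a| + |J (n + 2) x * 10 ^ 6 - d|) := by
            gcongr
            exact abs_sub _ _
        _ ≤ |(a : ℝ) - d| + 4 := by linarith
    rw [abs_mul, abs_of_pos (by positivity : (0 : ℝ) < 10 ^ 6)] at h5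
    rw [abs_div, abs_two]
    linarith
  have ht := taylor2_J (n + 1) x y
  have h6 : |J (n + 1) y| ≤ |J (n + 1) x| + |Jd (n + 1) x| * |y - x| + (y - x) ^ 2 / 2 := by
    calc |J (n + 1) y| = |J (n + 1) x + Jd (n + 1) x * (y - x) +
          (J (n + 1) y - J (n + 1) x - Jd (n + 1) x * (y - x))| := by ring_nf
      _ ≤ |J (n + 1) x + Jd (n + 1) x * (y - x)| +
          |J (n + 1) y - J (n + 1) x - Jd (n + 1) x * (y - x)| := abs_add_le _ _
      _ ≤ (|J (n + 1) x| + |Jd (n + 1) x * (y - x)|) + (y - x) ^ 2 / 2 :=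
          add_le_add (abs_add_le _ _) ht
      _ = _ := by rw [abs_mul]
  have h7 : (y - x) ^ 2 ≤ (1 / (T : ℝ)) ^ 2 := by
    rw [← sq_abs]
    gcongr
  have h8 : |Jd (n + 1) x| * |y - x| ≤ |Jd (n + 1) x| * (1 / T) :=
    mul_le_mul_of_nonneg_left hy (abs_nonneg _)
  have h9 : |J (n + 1) x| + |Jd (n + 1) x| * (1 / T) + (1 / (T : ℝ)) ^ 2 / 2 ≤ A / 10 ^ 6 := by
    have e : |J (n + 1) x| + |Jd (n + 1) x| * (1 / T) + (1 / (T : ℝ)) ^ 2 / 2 =
        (2 * (T : ℝ) ^ 2 * |J (n + 1) x| + 2 * |Jd (n + 1) x| * T + 1) / (2 * (T : ℝ) ^ 2) := by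
      field_simp
    rw [e, div_le_div_iff₀ (by positivity) (by norm_num)]
    have g1 := mul_le_mul_of_nonneg_left hb (by positivity : (0 : ℝ) ≤ 2 * (T : ℝ) ^ 2)
    have g2 := mul_le_mul_of_nonneg_right hd hTR.le
    norm_num at g1 g2 ⊢
    linarith
  linarith

/-- `J_n` and `J_n'` for `n = 40, …, 43` on one cell -/
def cellG (T c q M : ℕ) : Bool :=
  (cellJ 39 195000 T c q M && cellJ 40 195000 T c q M && cellJ 41 195000 T c q M &&
    cellJ 42 195000 T c q M) &&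
  (cellE 38 91500 T c q M && cellE 39 91500 T c q M && cellE 40 91500 T c q M &&
    cellE 41 91500 T c q M)

end SCHB
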