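import Pool.Agent.MP_83fd13_an.SCH.BesN

/-!
# [SCH] grid, part 1
-/

set_option autoImplicit false

namespace SCHB

theorem gN1 : allN (fun i => cellG 4 (40 + (2 * i + 1)) 4 59) 61 = true := by decide +kernel

end SCHB
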