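import Pool.Agent.MP_83fd13_an.SCH.BesN

/-!
# [SCH] grid, part 1b
-/

set_option autoImplicit false

namespace SCHB

theorem gN2 : allN (fun i => cellG 8 (324 + (2 * i + 1)) 8 59) 4 = true := by decide +kernel

theorem gN3 : allN (fun i => cellG 16 (664 + (2 * i + 1)) 16 59) 6 = true := by decide +kernel

theorem gN4 : allN (fun i => cellG 32 (1352 + (2 * i + 1)) 32 59) 4 = true := by decide +kernel

end SCHB
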