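import Pool.Agent.MP_83fd13_an.SCH.BesN1
import Pool.Agent.MP_83fd13_an.SCH.BesN2
import Pool.Agent.MP_83fd13_an.SCH.BesN3
import Pool.Agent.MP_83fd13_an.SCH.BesN5

/-!
# [SCH] `|J_n| ≤ 0.195` and `|J_n'| ≤ 0.0915` on `[0, 54.25]` for `n = 40, …, 43`
-/

set_option autoImplicit false

open Topology

namespace SCHB

/-- the statement at one point -/
def Bd (y : ℝ) : Prop := ∀ n : ℕ, 40 ≤ n → n ≤ 43 → |J n y| ≤ 0.195 ∧ |Jd n y| ≤ 0.0915

theorem cellG_sound {T c q M : ℕ} (hT : 0 < T) (h : cellG T c q M = true) {y : ℝ}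
    (hy : |y - (c : ℝ) / q| ≤ 1 / T) : Bd y := by
  unfold cellG at h
  simp only [Bool.and_eq_true] at h
  obtain ⟨⟨⟨⟨a1, a2⟩, a3⟩, a4⟩, ⟨⟨b1, b2⟩, b3⟩, b4⟩ := h
  have p1 := cellJ_sound hT a1 hy
  have p2 := cellJ_sound hT a2 hy
  have p3 := cellJ_sound hT a3 hy
  have p4 := cellJ_sound hT a4 hy
  have q1 := cellE_sound hT b1 hy
  have q2 := cellE_sound hT b2 hy
  have q3 := cellE_sound hT b3 hy
  have q4 := cellE_sound hT b4 hy
  norm_num at p1 p2 p3 p4 q1 q2 q3 q4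
  intro n hn hn2
  interval_cases n
  · norm_num; exact ⟨p1, q1⟩
  · norm_num; exact ⟨p2, q2⟩
  · norm_num; exact ⟨p3, q3⟩
  · norm_num; exact ⟨p4, q4⟩

theorem small_J' {n : ℕ} (hn : 39 ≤ n) (hn2 : n ≤ 44) {y : ℝ} (h0 : 0 ≤ y) (h1 : y ≤ 10) :
    |J n y| ≤ 0.09 := by
  have h2 := abs_J_le n y
  rw [abs_of_nonneg h0] at h2
  have h3 : Real.exp (y ^ 2 / 4) ≤ Real.exp 25 := Real.exp_le_exp.2 (by nlinarith)
  have h4 : Real.exp 25 ≤ 3 ^ 25 := by
    have h5 : Real.exp 25 = Real.exp 1 ^ 25 := by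
      rw [← Real.exp_nat_mul]
      norm_num
    rw [h5]
    have h6 : Real.exp 1 ≤ 3 := Real.exp_one_lt_three.le
    gcongr
  have h5 : (y / 2) ^ n ≤ 5 ^ n := by
    have : y / 2 ≤ 5 := by linarith
    gcongr
  have h6 : (y / 2) ^ n / (n.factorial : ℝ) * Real.exp (y ^ 2 / 4) ≤ 5 ^ n / (n.factorial : ℝ) * 3 ^ 25 := by
    have := fac_pos n
    gcongr
    exact h3.trans h4
  refine h2.trans (h6.trans ?_)
  interval_cases n <;> norm_num [Nat.factorial]

theorem small_Bd {y : ℝ} (h0 : 0 ≤ y) (h1 : y ≤ 10) : Bd y := by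
  intro n hn hn2
  obtain ⟨m, rfl⟩ : ∃ m, n = m + 1 := ⟨n - 1, by omega⟩
  refine ⟨(small_J' (by omega) (by omega) h0 h1).trans (by norm_num), ?_⟩
  rw [Jd_succ, abs_div, abs_two]
  have a := small_J' (n := m) (by omega) (by omega) h0 h1
  have b := small_J' (n := m + 2) (by omega) (by omega) h0 h1
  have := abs_sub (J m y) (J (m + 2) y)
  linarith

theorem Bd_all {y : ℝ} (h0 : 0 ≤ y) (h1 : y ≤ 54.25) : Bd y := by
  by_cases c0 : y ≤ 10
  · exact small_Bd h0 c0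
  push Not at c0
  by_cases c1 : y ≤ 40.5
  · obtain ⟨i, hi, hy⟩ := cover (x0 := 40) (q := 4) (T := 4) (N := 61) (y := y) (by norm_num)
      (by norm_num; linarith) (by norm_num at c1 ⊢; linarith) (by norm_num) rfl
    exact cellG_sound (by norm_num) (allN_spec gN1 i hi) hy
  push Not at c1
  by_cases c2 : y ≤ 41.5
  · obtain ⟨i, hi, hy⟩ := cover (x0 := 324) (q := 8) (T := 8) (N := 4) (y := y) (by norm_num)
      (by norm_num at c1 ⊢; linarith) (by norm_num at c2 ⊢; linarith) (by norm_num) rfl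
    exact cellG_sound (by norm_num) (allN_spec gN2 i hi) hy
  push Not at c2
  by_cases c3 : y ≤ 42.25
  · obtain ⟨i, hi, hy⟩ := cover (x0 := 664) (q := 16) (T := 16) (N := 6) (y := y) (by norm_num)
      (by norm_num at c2 ⊢; linarith) (by norm_num at c3 ⊢; linarith) (by norm_num) rfl
    exact cellG_sound (by norm_num) (allN_spec gN3 i hi) hy
  push Not at c3
  by_cases c4 : y ≤ 42.5
  · obtain ⟨i, hi, hy⟩ := cover (x0 := 1352) (q := 32) (T := 32) (N := 4) (y := y) (by norm_num)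
      (by norm_num at c3 ⊢; linarith) (by norm_num at c4 ⊢; linarith) (by norm_num) rfl
    exact cellG_sound (by norm_num) (allN_spec gN4 i hi) hy
  push Not at c4
  by_cases c5 : y ≤ 43.25
  · obtain ⟨i, hi, hy⟩ := cover (x0 := 2720) (q := 64) (T := 64) (N := 24) (y := y) (by norm_num)
      (by norm_num at c4 ⊢; linarith) (by norm_num at c5 ⊢; linarith) (by norm_num) rfl
    exact cellG_sound (by norm_num) (allN_spec gN5 i hi) hy
  push Not at c5
  by_cases c6 : y ≤ 44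
  · obtain ⟨i, hi, hy⟩ := cover (x0 := 1384) (q := 32) (T := 32) (N := 12) (y := y) (by norm_num)
      (by norm_num at c5 ⊢; linarith) (by norm_num at c6 ⊢; linarith) (by norm_num) rfl
    exact cellG_sound (by norm_num) (allN_spec gN6 i hi) hy
  push Not at c6
  by_cases c7 : y ≤ 48
  · obtain ⟨i, hi, hy⟩ := cover (x0 := 704) (q := 16) (T := 16) (N := 32) (y := y) (by norm_num)
      (by norm_num at c6 ⊢; linarith) (by norm_num at c7 ⊢; linarith) (by norm_num) rfl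
    exact cellG_sound (by norm_num) (allN_spec gN7 i hi) hy
  push Not at c7
  obtain ⟨i, hi, hy⟩ := cover (x0 := 768) (q := 16) (T := 16) (N := 50) (y := y) (by norm_num)
    (by norm_num at c7 ⊢; linarith) (by norm_num at h1 ⊢; linarith) (by norm_num) rfl
  exact cellG_sound (by norm_num) (allN_spec gN8 i hi) hy

/-- the bound `|J_n(x)| ≤ .195` on `[0, 54.25]` for `n = 40, …, 43` -/
theorem J_le_195 {n : ℕ} (hn : 40 ≤ n) (hn2 : n ≤ 43) {y : ℝ} (h0 : 0 ≤ y) (h1 : y ≤ 54.25) :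
    |J n y| ≤ 0.195 := (Bd_all h0 h1 n hn hn2).1

/-- the bound `|J_n'(x)| ≤ .0915` on `[0, 54.25]` for `n = 40, …, 43` -/
theorem Jd_le_0915 {n : ℕ} (hn : 40 ≤ n) (hn2 : n ≤ 43) {y : ℝ} (h0 : 0 ≤ y) (h1 : y ≤ 54.25) :
    |Jd n y| ≤ 0.0915 := (Bd_all h0 h1 n hn hn2).2

end SCHB
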