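import Pool.Agent.MP_83fd13_an.SCH.BesJ
import Pool.Agent.MP_83fd13_an.SCH.BesN4

/-!
# [SCH] sharper bounds for `J_41`, `J_43` near `r = 1`
-/

set_option autoImplicit false

open Topology

namespace SCHB

/-- check on one cell: `|J_{n+2}' - B / 10^6| ≤ A / 10^6` from the values of `J_n, …, J_{n+4}` -/
def oneH (T A : ℕ) (B a b c d e : ℤ) : Bool :=
  Nat.ble (2 * T ^ 2 * ((b - d - 2 * B).natAbs + 4) + ((a - 2 * c + e).natAbs + 8) * T + 2000000)
    (4 * A * T ^ 2)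

/-- one cell -/
def cellH (n A T c q M : ℕ) (B : ℤ) : Bool :=
  (vok n c q M 6 && vok (n + 1) c q M 6 && vok (n + 2) c q M 6 && vok (n + 3) c q M 6 &&
    vok (n + 4) c q M 6) &&
  oneH T A B (val n c q M 6) (val (n + 1) c q M 6) (val (n + 2) c q M 6) (val (n + 3) c q M 6)
    (val (n + 4) c q M 6)

theorem cellH_sound {n A T c q M : ℕ} {B : ℤ} (hT : 0 < T) (h : cellH n A T c q M B = true) {y : ℝ}
    (hy : |y - (c : ℝ) / q| ≤ 1 / T) : |Jd (n + 2) y - (B : ℝ) / 10 ^ 6| ≤ (A : ℝ) / 10 ^ 6 := by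
  unfold cellH at h
  simp only [Bool.and_eq_true] at h
  obtain ⟨⟨⟨⟨⟨a0, a1⟩, a2⟩, a3⟩, a4⟩, hh⟩ := h
  have v0 := val_sound a0
  have v1 := val_sound a1
  have v2 := val_sound a2
  have v3 := val_sound a3
  have v4 := val_sound a4
  unfold oneH at hh
  rw [Nat.ble_eq] at hh
  set x : ℝ := (c : ℝ) / q with hx
  set m0 := val n c q M 6
  set m1 := val (n + 1) c q M 6
  set m2 := val (n + 2) c q M 6
  set m3 := val (n + 3) c q M 6
  set m4 := val (n + 4) c q M 6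
  have hR : 2 * (T : ℝ) ^ 2 * (|(m1 : ℝ) - m3 - 2 * B| + 4) +
      (|(m0 : ℝ) - 2 * m2 + m4| + 8) * T + 2000000 ≤ 4 * A * (T : ℝ) ^ 2 := by
    have h1 := (Nat.cast_le (α := ℝ)).2 hh
    have e1 : (((m1 - m3 - 2 * B).natAbs : ℕ) : ℝ) = |(m1 : ℝ) - m3 - 2 * B| := by
      rw [natAbs_cast_real]
      push_cast
      rfl
    have e2 : (((m0 - 2 * m2 + m4).natAbs : ℕ) : ℝ) = |(m0 : ℝ) - 2 * m2 + m4| := by
      rw [natAbs_cast_real]
      push_cast
      rfl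
    rw [← e1, ← e2]
    push_cast at h1 ⊢
    linarith
  have hTR : (0 : ℝ) < T := by exact_mod_cast hT
  have hd : |Jd (n + 2) x - B / 10 ^ 6| * 2 * 10 ^ 6 ≤ |(m1 : ℝ) - m3 - 2 * B| + 4 := by
    rw [show n + 2 = (n + 1) + 1 from rfl, Jd_succ]
    have h5 : |(J (n + 1) x - J (n + 1 + 2) x) * 10 ^ 6 - 2 * B| ≤ |(m1 : ℝ) - m3 - 2 * B| + 4 := by
      calc |(J (n + 1) x - J (n + 1 + 2) x) * 10 ^ 6 - 2 * B| = |((m1 : ℝ) - m3 - 2 * B) +
            ((J (n + 1) x * 10 ^ 6 - m1) - (J (n + 3) x * 10 ^ 6 - m3))| := by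
              rw [show n + 1 + 2 = n + 3 from rfl]
              ring_nf
        _ ≤ |(m1 : ℝ) - m3 - 2 * B| + |(J (n + 1) x * 10 ^ 6 - m1) - (J (n + 3) x * 10 ^ 6 - m3)| :=
            abs_add_le _ _
        _ ≤ |(m1 : ℝ) - m3 - 2 * B| + (|J (n + 1) x * 10 ^ 6 - m1| + |J (n + 3) x * 10 ^ 6 - m3|) := by
            gcongr
            exact abs_sub _ _
        _ ≤ |(m1 : ℝ) - m3 - 2 * B| + 4 := by linarith
    have e : |(J (n + 1) x - J (n + 1 + 2) x) / 2 - B / 10 ^ 6| * 2 * 10 ^ 6 =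
        |(J (n + 1) x - J (n + 1 + 2) x) * 10 ^ 6 - 2 * B| := by
      rw [mul_assoc, ← abs_of_pos (by norm_num : (0 : ℝ) < 2 * 10 ^ 6), ← abs_mul]
      congr 1
      norm_num
      ring
    rw [e]
    exact h5
  have hdd : |Jdd (n + 2) x| * 4 * 10 ^ 6 ≤ |(m0 : ℝ) - 2 * m2 + m4| + 8 := by
    have e : Jdd (n + 2) x = (J n x - 2 * J (n + 2) x + J (n + 4) x) / 4 := by
      change (Jd (n + 1) x - Jd (n + 3) x) / 2 = _
      rw [show n + 3 = (n + 2) + 1 from rfl, Jd_succ, Jd_succ]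
      ring
    rw [e]
    have h5 : |(J n x - 2 * J (n + 2) x + J (n + 4) x) * 10 ^ 6| ≤ |(m0 : ℝ) - 2 * m2 + m4| + 8 := by
      calc |(J n x - 2 * J (n + 2) x + J (n + 4) x) * 10 ^ 6| = |((m0 : ℝ) - 2 * m2 + m4) +
            ((J n x * 10 ^ 6 - m0) - 2 * (J (n + 2) x * 10 ^ 6 - m2) +
              (J (n + 4) x * 10 ^ 6 - m4))| := by
              ring_nf
        _ ≤ |(m0 : ℝ) - 2 * m2 + m4| +
            |(J n x * 10 ^ 6 - m0) - 2 * (J (n + 2) x * 10 ^ 6 - m2) +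
              (J (n + 4) x * 10 ^ 6 - m4)| :=
            abs_add_le _ _
        _ ≤ |(m0 : ℝ) - 2 * m2 + m4| + (|J n x * 10 ^ 6 - m0| + 2 * |J (n + 2) x * 10 ^ 6 - m2| +
            |J (n + 4) x * 10 ^ 6 - m4|) := by
            gcongr
            refine (abs_add_le _ _).trans (add_le_add ((abs_sub _ _).trans ?_) le_rfl)
            rw [abs_mul, abs_two]
        _ ≤ |(m0 : ℝ) - 2 * m2 + m4| + 8 := by linarith
    rw [abs_mul, abs_of_pos (by positivity : (0 : ℝ) < 10 ^ 6)] at h5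
    rw [abs_div, abs_of_pos (by norm_num : (0 : ℝ) < 4)]
    linarith
  have ht := taylor2_Jd (n + 2) x y
  have h6 : |Jd (n + 2) y - B / 10 ^ 6| ≤ |Jd (n + 2) x - B / 10 ^ 6| + |Jdd (n + 2) x| * |y - x| +
      (y - x) ^ 2 / 2 := by
    calc |Jd (n + 2) y - B / 10 ^ 6| = |(Jd (n + 2) x - B / 10 ^ 6) + Jdd (n + 2) x * (y - x) +
          (Jd (n + 2) y - Jd (n + 2) x - Jdd (n + 2) x * (y - x))| := by
          ring_nf
      _ ≤ |(Jd (n + 2) x - B / 10 ^ 6) + Jdd (n + 2) x * (y - x)| +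
          |Jd (n + 2) y - Jd (n + 2) x - Jdd (n + 2) x * (y - x)| := abs_add_le _ _
      _ ≤ (|Jd (n + 2) x - B / 10 ^ 6| + |Jdd (n + 2) x * (y - x)|) + (y - x) ^ 2 / 2 :=
          add_le_add (abs_add_le _ _) ht
      _ = _ := by rw [abs_mul]
  have h7 : (y - x) ^ 2 ≤ (1 / (T : ℝ)) ^ 2 := by
    rw [← sq_abs]
    gcongr
  have h8 : |Jdd (n + 2) x| * |y - x| ≤ |Jdd (n + 2) x| * (1 / T) :=
    mul_le_mul_of_nonneg_left hy (abs_nonneg _)
  have h9 : |Jd (n + 2) x - B / 10 ^ 6| + |Jdd (n + 2) x| * (1 / T) + (1 / (T : ℝ)) ^ 2 / 2 ≤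
      A / 10 ^ 6 := by
    have e : |Jd (n + 2) x - B / 10 ^ 6| + |Jdd (n + 2) x| * (1 / T) + (1 / (T : ℝ)) ^ 2 / 2 =
        (2 * (T : ℝ) ^ 2 * |Jd (n + 2) x - B / 10 ^ 6| + 2 * |Jdd (n + 2) x| * T + 1) /
          (2 * (T : ℝ) ^ 2) := by
      field_simp
    rw [e, div_le_div_iff₀ (by positivity) (by norm_num)]
    have g1 := mul_le_mul_of_nonneg_left hd (by positivity : (0 : ℝ) ≤ 2 * (T : ℝ) ^ 2)
    have g2 := mul_le_mul_of_nonneg_right hdd hTR.le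
    norm_num at g1 g2 ⊢
    linarith
  linarith

/-! ### grids -/

theorem gO1 : allN (fun i => cellJ 40 147500 32 (1496 + (2 * i + 1)) 32 59) 120 = true := by
  decide +kernel

theorem gO2 : allN (fun i => cellH 39 16500 32 (1654 + (2 * i + 1)) 32 59 72500) 41 = true := by
  decide +kernel

theorem gO3 : allN (fun i => cellE 41 71000 32 (1680 + (2 * i + 1)) 32 59) 28 = true := by
  decide +kernel

theorem J41_le_1475 {y : ℝ} (h0 : 46.75 ≤ y) (h1 : y ≤ 54.25) : |J 41 y| ≤ 0.1475 := by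
  obtain ⟨i, hi, hy⟩ := cover (x0 := 1496) (q := 32) (T := 32) (N := 120) (y := y) (by norm_num)
    (by norm_num at h0 ⊢; linarith) (by norm_num at h1 ⊢; linarith) (by norm_num) rfl
  have := cellJ_sound (by norm_num) (allN_spec gO1 i hi) hy
  norm_num at this ⊢
  exact this

theorem Jd41_mem {y : ℝ} (h0 : 51.6875 ≤ y) (h1 : y ≤ 54.25) : 0.056 ≤ Jd 41 y ∧ Jd 41 y ≤ 0.089 := by
  obtain ⟨i, hi, hy⟩ := cover (x0 := 1654) (q := 32) (T := 32) (N := 41) (y := y) (by norm_num)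
    (by norm_num at h0 ⊢; linarith) (by norm_num at h1 ⊢; linarith) (by norm_num) rfl
  have := cellH_sound (by norm_num) (allN_spec gO2 i hi) hy
  norm_num at this
  rw [abs_le] at this
  constructor <;> linarith [this.1, this.2]

theorem Jd43_le {y : ℝ} (h0 : 52.5 ≤ y) (h1 : y ≤ 54.25) : |Jd 43 y| ≤ 0.071 := by
  obtain ⟨i, hi, hy⟩ := cover (x0 := 1680) (q := 32) (T := 32) (N := 28) (y := y) (by norm_num)
    (by norm_num at h0 ⊢; linarith) (by norm_num at h1 ⊢; linarith) (by norm_num) rfl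
  have := cellE_sound (by norm_num) (allN_spec gO3 i hi) hy
  norm_num at this ⊢
  exact this

/-- convexity: `(1 - r₀^42) (1 - r) ≤ (1 - r₀) (1 - r^42)` for `r₀ ≤ r ≤ 1` -/
theorem one_sub_le' {r r0 : ℝ} (h0 : 0 ≤ r0) (h : r0 ≤ r) (hr1 : r ≤ 1) :
    (1 - r0 ^ 42) * (1 - r) ≤ (1 - r0) * (1 - r ^ 42) := by
  have hg : 1 - r ^ 42 = (1 - r) * ∑ i ∈ Finset.range 42, r ^ i := by
    have := mul_neg_geom_sum r 42
    linarith
  have hg0 : 1 - r0 ^ 42 = (1 - r0) * ∑ i ∈ Finset.range 42, r0 ^ i := by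
    have := mul_neg_geom_sum r0 42
    linarith
  have hs : ∑ i ∈ Finset.range 42, r0 ^ i ≤ ∑ i ∈ Finset.range 42, r ^ i :=
    Finset.sum_le_sum fun i _ => by gcongr
  rw [hg, hg0]
  have h1 : 0 ≤ (1 - r0) * (1 - r) := mul_nonneg (by linarith) (by linarith)
  calc (1 - r0) * (∑ i ∈ Finset.range 42, r0 ^ i) * (1 - r) =
        (1 - r0) * (1 - r) * ∑ i ∈ Finset.range 42, r0 ^ i := by ring
    _ ≤ (1 - r0) * (1 - r) * ∑ i ∈ Finset.range 42, r ^ i := by gcongr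
    _ = _ := by ring

section

variable {ρ : ℝ} (h1 : 54.177 ≤ ρ) (h2 : ρ ≤ 54.1834)
include h1 h2

/-- `|r J_41(ρ r) - R J_41(ρ)| ≤ .18 (1 - R)` -/
theorem rJ41_sub2 {r : ℝ} (hr : 0 ≤ r) (hr1 : r ≤ 1) :
    |r * J 41 (ρ * r) - r ^ 42 * J 41 ρ| ≤ 0.18 * (1 - r ^ 42) := by
  have hρ : 0 < ρ := by linarith
  have hJ := J41_I h1 h2
  have hR0 : 0 ≤ r ^ 42 := by positivity
  have hR1 : r ^ 42 ≤ 1 := pow_le_one₀ hr hr1
  have h4 : |r ^ 42 * J 41 ρ| ≤ 0.0863 * r ^ 42 := by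
    rw [abs_mul, abs_of_nonneg hR0, abs_of_nonneg (by linarith [hJ.1])]
    nlinarith
  by_cases ha : r ≤ 0.87
  · have hm := J_le_195 (n := 41) (by norm_num) (by norm_num) (y := ρ * r) (by positivity)
      (by nlinarith)
    have h3 : |r * J 41 (ρ * r)| ≤ 0.87 * 0.195 := by
      rw [abs_mul, abs_of_nonneg hr]
      gcongr
    have h5 : r ^ 42 ≤ 0.87 ^ 42 := by gcongr
    norm_num at h5
    calc _ ≤ |r * J 41 (ρ * r)| + |r ^ 42 * J 41 ρ| := abs_sub _ _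
      _ ≤ 0.18 * (1 - r ^ 42) := by linarith
  push Not at ha
  have hm := J41_le_1475 (y := ρ * r) (by nlinarith) (by nlinarith)
  by_cases hb : r ≤ 0.955
  · have h3 : |r * J 41 (ρ * r)| ≤ 0.955 * 0.1475 := by
      rw [abs_mul, abs_of_nonneg hr]
      gcongr
    have h5 : r ^ 42 ≤ 0.955 ^ 42 := by gcongr
    norm_num at h5
    calc _ ≤ |r * J 41 (ρ * r)| + |r ^ 42 * J 41 ρ| := abs_sub _ _
      _ ≤ 0.18 * (1 - r ^ 42) := by linarith
  push Not at hb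
  have hd : ∀ s, r ≤ s → s ≤ 1 → 0 ≤ J 41 (ρ * s) + s * (ρ * Jd 41 (ρ * s)) ∧
      J 41 (ρ * s) + s * (ρ * Jd 41 (ρ * s)) ≤ 4.97 := by
    intro s hs hs1
    have hs0 : 0 ≤ s := hr.trans hs
    have a := J41_le_1475 (y := ρ * s) (by nlinarith) (by nlinarith)
    have b := Jd41_mem (y := ρ * s) (by nlinarith) (by nlinarith)
    rw [abs_le] at a
    have c1 : 51.7 * 0.056 ≤ s * (ρ * Jd 41 (ρ * s)) := by
      rw [← mul_assoc, mul_comm s ρ]
      have : 51.7 ≤ ρ * s := by nlinarith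
      exact mul_le_mul this b.1 (by norm_num) (by positivity)
    have c2 : s * (ρ * Jd 41 (ρ * s)) ≤ 54.1834 * 0.089 := by
      rw [← mul_assoc, mul_comm s ρ]
      have : ρ * s ≤ 54.1834 := by nlinarith
      exact mul_le_mul this b.2 (by linarith [b.1]) (by norm_num)
    norm_num at c1 c2 a ⊢
    constructor <;> linarith [a.1, a.2]
  have hF : ∀ s, HasDerivAt (fun s => s * J 41 (ρ * s)) (J 41 (ρ * s) + s * (ρ * Jd 41 (ρ * s))) s := by
    intro s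
    have := (hasDerivAt_id s).mul (hasDerivAt_Jr 41 ρ s)
    refine this.congr_deriv ?_
    simp
  have h := mvi (F := fun s => s * J 41 (ρ * s))
    (F' := fun s => J 41 (ρ * s) + s * (ρ * Jd 41 (ρ * s))) (C := 4.97) hr1 hF
    (fun s hs hs1 => by
      rw [abs_of_nonneg (hd s hs hs1).1]
      exact (hd s hs hs1).2)
  have hmono : r * J 41 (ρ * r) ≤ 1 * J 41 (ρ * 1) := by
    have hm : MonotoneOn (fun s => s * J 41 (ρ * s)) (Set.Icc r 1) := by
      refine monotoneOn_of_deriv_nonneg (convex_Icc r 1) ?_ ?_ ?_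
      · exact fun z _ => (hF z).continuousAt.continuousWithinAt
      · exact fun z _ => (hF z).differentiableAt.differentiableWithinAt
      · intro z hz
        rw [(hF z).deriv]
        have := interior_subset hz
        exact (hd z this.1 this.2).1
    exact hm (Set.left_mem_Icc.2 hr1) (Set.right_mem_Icc.2 hr1) hr1
  simp only [mul_one, one_mul] at h hmono
  have h6 := one_sub_le' (r := r) (r0 := 0.955) (by norm_num) hb.le hr1
  norm_num at h6
  have h7 : 0 ≤ 1 - r ^ 42 := by linarith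
  rw [abs_le] at h ⊢
  have e : r * J 41 (ρ * r) - r ^ 42 * J 41 ρ = (r * J 41 (ρ * r) - J 41 ρ) +
      (1 - r ^ 42) * J 41 ρ := by ring
  rw [e]
  have g1 : (1 - r ^ 42) * 0.085799 ≤ (1 - r ^ 42) * J 41 ρ := by
    apply mul_le_mul_of_nonneg_left hJ.1 h7
  have g2 : (1 - r ^ 42) * J 41 ρ ≤ (1 - r ^ 42) * 0.086257 := by
    apply mul_le_mul_of_nonneg_left hJ.2 h7
  constructor
  · linarith [h.1]
  · linarith

/-- `|J_43(ρ r)| ≤ .0868 + 3.85 (1 - r)` -/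
theorem J43_lin {r : ℝ} (hr : 0 ≤ r) (hr1 : r ≤ 1) : |J 43 (ρ * r)| ≤ 0.0868 + 3.85 * (1 - r) := by
  have hρ : 0 < ρ := by linarith
  by_cases ha : r ≤ 0.971
  · have hm := J_le_195 (n := 43) (by norm_num) (by norm_num) (y := ρ * r) (by positivity)
      (by nlinarith)
    linarith
  push Not at ha
  have h := mvi (F := fun s => J 43 (ρ * s)) (F' := fun s => ρ * Jd 43 (ρ * s)) (C := 3.85) hr1
    (fun s => hasDerivAt_Jr 43 ρ s) (fun s hs hs1 => by
      have b := Jd43_le (y := ρ * s) (by nlinarith) (by nlinarith)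
      rw [abs_mul, abs_of_pos hρ]
      calc ρ * |Jd 43 (ρ * s)| ≤ 54.1834 * 0.071 := by gcongr
        _ ≤ 3.85 := by norm_num)
  simp only [mul_one] at h
  have hJ := J43_I h1 h2
  rw [abs_le] at h ⊢
  constructor <;> linarith [h.1, h.2, hJ.1, hJ.2]

end

end SCHB
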