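import Pool.Agent.MP_83fd13_an.SCH.BesEd

/-!
# [SCH] recurrence for integer orders; values of `J_84, J_85, J_94, J_95` at `54.178`
-/

set_option autoImplicit false

namespace SCHB

/-- the recurrence for integer orders -/
theorem JZ_rec (k : ℤ) (x : ℝ) : 2 * k * JZ k x = x * (JZ (k - 1) x + JZ (k + 1) x) := by
  rcases k with n | n
  · rcases n with _ | n
    · have e1 : JZ (Int.ofNat 0 - 1) x = (-1) ^ (0 + 1) * J (0 + 1) x := rfl
      have e2 : JZ (Int.ofNat 0 + 1) x = J 1 x := rfl
      rw [e1, e2]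
      simp
    · have h := J_rec n x
      have e1 : Int.ofNat (n + 1) - 1 = (n : ℤ) := by
        simp
      have e2 : Int.ofNat (n + 1) + 1 = ((n + 2 : ℕ) : ℤ) := by
        simp
        ring
      rw [e1, e2, JZ_nat, JZ_nat]
      have e3 : JZ (Int.ofNat (n + 1)) x = J (n + 1) x := rfl
      rw [e3, h]
      simp
  · have h := J_rec n x
    have e1 : Int.negSucc n - 1 = Int.negSucc (n + 1) := rfl
    have e2 : JZ (Int.negSucc n + 1) x = (-1) ^ n * J n x := by
      rcases n with _ | n
      · change J 0 x = _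
        simp
      · rfl
    rw [e1, e2]
    change 2 * ((Int.negSucc n : ℤ) : ℝ) * ((-1) ^ (n + 1) * J (n + 1) x) =
      x * ((-1) ^ (n + 1 + 1) * J (n + 1 + 1) x + (-1) ^ n * J n x)
    rw [Int.cast_negSucc]
    push_cast
    linear_combination (-1) ^ (n + 2) * (-1 : ℝ) * h

theorem f84 : |J 84 (54178 / 1000) - 7343545 / 10 ^ 17| ≤ 1 / 10 ^ 17 := by
  have h := chk_abs (n := 84) (p := 54178) (q := 1000) (M := 40) (k := 17) (v := 7343545)
    (by decide +kernel)
  push_cast at h
  exact h

theorem f85 : |J 85 (54178 / 1000) - 2637812 / 10 ^ 17| ≤ 1 / 10 ^ 17 := by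
  have h := chk_abs (n := 85) (p := 54178) (q := 1000) (M := 39) (k := 17) (v := 2637812)
    (by decide +kernel)
  push_cast at h
  exact h

theorem f94 : |J 94 (54178 / 1000) - 13792412 / 10 ^ 22| ≤ 1 / 10 ^ 22 := by
  have h := chk_abs (n := 94) (p := 54178) (q := 1000) (M := 39) (k := 22) (v := 13792412)
    (by decide +kernel)
  push_cast at h
  exact h

theorem f95 : |J 95 (54178 / 1000) - 4312531 / 10 ^ 22| ≤ 1 / 10 ^ 22 := by
  have h := chk_abs (n := 95) (p := 54178) (q := 1000) (M := 38) (k := 22) (v := 4312531)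
    (by decide +kernel)
  push_cast at h
  exact h

end SCHB
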