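import Pool.Agent.MP_83fd13_an.SCH.BesN4

/-!
# [SCH] the K-trick: `|85 J_42(y) - (3/2) y J_43(y)| ≤ 7.1` on `[0, 54.1875]`
-/

set_option autoImplicit false

open Topology

namespace SCHB

/-- `K(y) = 85 J_42(y) - (3/2) y J_43(y)` -/
noncomputable def Kf (y : ℝ) : ℝ := 85 * J 42 y - 3 / 2 * y * J 43 y

/-- its derivative -/
noncomputable def Kd (y : ℝ) : ℝ := 42.5 * J 41 y + 20.5 * J 43 y - 3 / 2 * y * J 42 y

/-- its second derivative -/
noncomputable def Kdd (y : ℝ) : ℝ :=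
  42.5 * Jd 41 y + 20.5 * Jd 43 y - 3 / 2 * (J 42 y + y * Jd 42 y)

theorem hasDerivAt_Kf (y : ℝ) : HasDerivAt Kf (Kd y) y := by
  have h1 := (hasDerivAt_J 42 y).const_mul 85
  have h2 := (((hasDerivAt_id y).const_mul (3 / 2)).mul (hasDerivAt_J 43 y))
  have h3 := h1.sub h2
  refine h3.congr_deriv ?_
  have e1 := mul_Jd' 42 y
  have e2 : Jd 42 y = (J 41 y - J 43 y) / 2 := rfl
  unfold Kd
  simp only [id, mul_one]
  norm_num at e1 ⊢
  rw [e2]
  linear_combination (-3 / 2) * e1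

theorem hasDerivAt_Kd (y : ℝ) : HasDerivAt Kd (Kdd y) y := by
  have h1 := (hasDerivAt_J 41 y).const_mul 42.5
  have h2 := (hasDerivAt_J 43 y).const_mul 20.5
  have h3 := (((hasDerivAt_id y).const_mul (3 / 2)).mul (hasDerivAt_J 42 y))
  have h4 := (h1.add h2).sub h3
  refine h4.congr_deriv ?_
  unfold Kdd
  simp only [id, mul_one]
  ring

theorem abs_Kdd_le {y : ℝ} (h0 : 0 ≤ y) (h1 : y ≤ 54.25) : |Kdd y| ≤ 13.6 := by
  have a := Jd_le_0915 (n := 41) (by norm_num) (by norm_num) h0 h1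
  have b := Jd_le_0915 (n := 43) (by norm_num) (by norm_num) h0 h1
  have c := Jd_le_0915 (n := 42) (by norm_num) (by norm_num) h0 h1
  have d := J_le_195 (n := 42) (by norm_num) (by norm_num) h0 h1
  have e : |y * Jd 42 y| ≤ 54.25 * 0.0915 := by
    rw [abs_mul, abs_of_nonneg h0]
    gcongr
  unfold Kdd
  rw [abs_le] at *
  norm_num at a b c d e ⊢
  constructor <;> linarith [a.1, a.2, b.1, b.2, d.1, d.2, e.1, e.2]

theorem taylor2_Kf {x y : ℝ} (hx : 0 ≤ x) (hx1 : x ≤ 54.25) (hy : 0 ≤ y) (hy1 : y ≤ 54.25) :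
    |Kf y - Kf x - Kd x * (y - x)| ≤ 13.6 * (y - x) ^ 2 := by
  have hseg : ∀ z ∈ Set.uIcc x y, 0 ≤ z ∧ z ≤ 54.25 := by
    intro z hz
    rcases Set.mem_uIcc.1 hz with h | h
    · exact ⟨hx.trans h.1, h.2.trans hy1⟩
    · exact ⟨hy.trans h.1, h.2.trans hx1⟩
  have hconv : Convex ℝ (Set.uIcc x y) := convex_uIcc x y
  have h1 : ∀ z ∈ Set.uIcc x y, |Kd z - Kd x| ≤ 13.6 * |z - x| := by
    intro z hz
    have h := hconv.norm_image_sub_le_of_norm_hasDerivWithin_le (f := Kd) (f' := Kdd) (C := 13.6)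
      (fun w _ => (hasDerivAt_Kd w).hasDerivWithinAt)
      (fun w hw => abs_Kdd_le (hseg w hw).1 (hseg w hw).2) Set.left_mem_uIcc hz
    simpa [Real.norm_eq_abs] using h
  have h2 := hconv.norm_image_sub_le_of_norm_hasDerivWithin_le
    (f := fun z => Kf z - Kd x * z) (f' := fun z => Kd z - Kd x) (C := 13.6 * |y - x|)
    (fun w _ => by
      have := (hasDerivAt_Kf w).sub ((hasDerivAt_id w).const_mul (Kd x))
      refine (this.congr_deriv ?_).hasDerivWithinAt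
      simp)
    (fun w hw => by
      refine (h1 w hw).trans ?_
      have : |w - x| ≤ |y - x| := by
        rcases Set.mem_uIcc.1 hw with h | h
        · rw [abs_of_nonneg (by linarith : (0 : ℝ) ≤ w - x), abs_of_nonneg (by linarith : (0 : ℝ) ≤ y - x)]
          linarith
        · rw [abs_of_nonpos (by linarith : w - x ≤ (0 : ℝ)), abs_of_nonpos (by linarith : y - x ≤ (0 : ℝ))]
          linarith
      gcongr) Set.left_mem_uIcc Set.right_mem_uIcc
  rw [Real.norm_eq_abs, Real.norm_eq_abs] at h2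
  have e : Kf y - Kf x - Kd x * (y - x) = Kf y - Kd x * y - (Kf x - Kd x * x) := by ring
  rw [e, ← sq_abs (y - x)]
  refine h2.trans (le_of_eq ?_)
  ring

/-- check on one cell -/
def oneK (T q c : ℕ) (a b d : ℤ) : Bool :=
  Nat.ble (T ^ 2 * ((170 * q * b - 3 * c * d).natAbs + (170 * q + 3 * c) * 2) +
      T * ((85 * q * a + 41 * q * d - 3 * c * b).natAbs + (126 * q + 3 * c) * 2) + 27200000 * q)
    (14200000 * q * T ^ 2)

/-- one cell -/
def cellK (T c q M : ℕ) : Bool :=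
  (vok 41 c q M 6 && vok 42 c q M 6 && vok 43 c q M 6 && Nat.ble c (54 * q + q / 4)) &&
  oneK T q c (val 41 c q M 6) (val 42 c q M 6) (val 43 c q M 6)

theorem cellK_sound {T c q M : ℕ} (hT : 0 < T) (hq : 0 < q) (h : cellK T c q M = true) {y : ℝ}
    (hy0 : 0 ≤ y) (hy1 : y ≤ 54.25) (hy : |y - (c : ℝ) / q| ≤ 1 / T) : |Kf y| ≤ 7.1 := by
  unfold cellK at h
  simp only [Bool.and_eq_true] at h
  obtain ⟨⟨⟨⟨a0, a1⟩, a2⟩, a3⟩, hh⟩ := h
  have v0 := val_sound a0
  have v1 := val_sound a1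
  have v2 := val_sound a2
  have hqR : (0 : ℝ) < q := by exact_mod_cast hq
  have hTR : (0 : ℝ) < T := by exact_mod_cast hT
  have hc1 : (c : ℝ) / q ≤ 54.25 := by
    rw [Nat.ble_eq] at a3
    rw [div_le_iff₀ hqR]
    have h4 : q / 4 * 4 ≤ q := Nat.div_mul_le_self q 4
    have h5 : (c : ℝ) ≤ 54 * q + ((q / 4 : ℕ) : ℝ) := by exact_mod_cast a3
    have h6 : (((q / 4 : ℕ) : ℝ)) * 4 ≤ q := by exact_mod_cast h4
    linarith
  have hc0 : 0 ≤ (c : ℝ) / q := by positivity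
  have ht := taylor2_Kf hc0 hc1 hy0 hy1
  unfold oneK at hh
  rw [Nat.ble_eq] at hh
  set x : ℝ := (c : ℝ) / q with hx
  set a := val 41 c q M 6
  set b := val 42 c q M 6
  set d := val 43 c q M 6
  have hxq : x * q = c := by rw [hx]; field_simp
  have hR : (T : ℝ) ^ 2 * (|170 * (q : ℝ) * b - 3 * c * d| + (170 * q + 3 * c) * 2) +
      T * (|85 * (q : ℝ) * a + 41 * q * d - 3 * c * b| + (126 * q + 3 * c) * 2) + 27200000 * q ≤
      14200000 * q * (T : ℝ) ^ 2 := by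
    have h1 := (Nat.cast_le (α := ℝ)).2 hh
    have e1 : (((170 * (q : ℤ) * b - 3 * c * d).natAbs : ℕ) : ℝ) = |170 * (q : ℝ) * b - 3 * c * d| := by
      rw [natAbs_cast_real]
      push_cast
      rfl
    have e2 : (((85 * (q : ℤ) * a + 41 * q * d - 3 * c * b).natAbs : ℕ) : ℝ) =
        |85 * (q : ℝ) * a + 41 * q * d - 3 * c * b| := by
      rw [natAbs_cast_real]
      push_cast
      rfl
    rw [← e1, ← e2]
    push_cast at h1 ⊢
    linarith
  have hcR : (0 : ℝ) ≤ c := Nat.cast_nonneg c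
  have k1 : |Kf x| * (2 * q * 10 ^ 6) ≤ |170 * (q : ℝ) * b - 3 * c * d| + (170 * q + 3 * c) * 2 := by
    rw [← abs_of_pos (by positivity : (0 : ℝ) < 2 * q * 10 ^ 6), ← abs_mul]
    have e : Kf x * (2 * q * 10 ^ 6) = (170 * (q : ℝ) * b - 3 * c * d) +
        (170 * q * (J 42 x * 10 ^ 6 - b) - 3 * c * (J 43 x * 10 ^ 6 - d)) := by
      unfold Kf
      linear_combination (-3 * J 43 x * 10 ^ 6) * hxq
    rw [e]
    refine (abs_add_le _ _).trans (add_le_add le_rfl ((abs_sub _ _).trans ?_))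
    rw [abs_mul (170 * (q : ℝ)), abs_mul (3 * (c : ℝ)),
      abs_of_nonneg (by positivity : (0 : ℝ) ≤ 170 * q),
      abs_of_nonneg (by positivity : (0 : ℝ) ≤ 3 * c)]
    have g1 := mul_le_mul_of_nonneg_left v1 (by positivity : (0 : ℝ) ≤ 170 * q)
    have g2 := mul_le_mul_of_nonneg_left v2 (by positivity : (0 : ℝ) ≤ 3 * c)
    linarith
  have k2 : |Kd x| * (2 * q * 10 ^ 6) ≤ |85 * (q : ℝ) * a + 41 * q * d - 3 * c * b| +
      (126 * q + 3 * c) * 2 := by
    rw [← abs_of_pos (by positivity : (0 : ℝ) < 2 * q * 10 ^ 6), ← abs_mul]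
    have e : Kd x * (2 * q * 10 ^ 6) = (85 * (q : ℝ) * a + 41 * q * d - 3 * c * b) +
        (85 * q * (J 41 x * 10 ^ 6 - a) + 41 * q * (J 43 x * 10 ^ 6 - d) -
          3 * c * (J 42 x * 10 ^ 6 - b)) := by
      unfold Kd
      linear_combination (-3 * J 42 x * 10 ^ 6) * hxq
    rw [e]
    refine (abs_add_le _ _).trans (add_le_add le_rfl ((abs_sub _ _).trans
      ((add_le_add (abs_add_le _ _) le_rfl).trans ?_)))
    rw [abs_mul (85 * (q : ℝ)), abs_mul (41 * (q : ℝ)), abs_mul (3 * (c : ℝ)),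
      abs_of_nonneg (by positivity : (0 : ℝ) ≤ 85 * q),
      abs_of_nonneg (by positivity : (0 : ℝ) ≤ 41 * q), abs_of_nonneg (by positivity : (0 : ℝ) ≤ 3 * c)]
    have g1 := mul_le_mul_of_nonneg_left v0 (by positivity : (0 : ℝ) ≤ 85 * q)
    have g2 := mul_le_mul_of_nonneg_left v2 (by positivity : (0 : ℝ) ≤ 41 * q)
    have g3 := mul_le_mul_of_nonneg_left v1 (by positivity : (0 : ℝ) ≤ 3 * c)
    linarith
  have h6 : |Kf y| ≤ |Kf x| + |Kd x| * |y - x| + 13.6 * (y - x) ^ 2 := by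
    calc |Kf y| = |Kf x + Kd x * (y - x) + (Kf y - Kf x - Kd x * (y - x))| := by ring_nf
      _ ≤ |Kf x + Kd x * (y - x)| + |Kf y - Kf x - Kd x * (y - x)| := abs_add_le _ _
      _ ≤ (|Kf x| + |Kd x * (y - x)|) + 13.6 * (y - x) ^ 2 := add_le_add (abs_add_le _ _) ht
      _ = _ := by rw [abs_mul]
  have h7 : (y - x) ^ 2 ≤ (1 / (T : ℝ)) ^ 2 := by
    rw [← sq_abs]
    gcongr
  have h8 : |Kd x| * |y - x| ≤ |Kd x| * (1 / T) := mul_le_mul_of_nonneg_left hy (abs_nonneg _)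
  have h9 : |Kf x| + |Kd x| * (1 / T) + 13.6 * (1 / (T : ℝ)) ^ 2 ≤ 7.1 := by
    have e : |Kf x| + |Kd x| * (1 / T) + 13.6 * (1 / (T : ℝ)) ^ 2 =
        ((T : ℝ) ^ 2 * (|Kf x| * (2 * q * 10 ^ 6)) + T * (|Kd x| * (2 * q * 10 ^ 6)) +
          27200000 * q) / ((2 * q * 10 ^ 6) * (T : ℝ) ^ 2) := by
      field_simp
      ring
    rw [e, div_le_iff₀ (by positivity)]
    have g1 := mul_le_mul_of_nonneg_left k1 (by positivity : (0 : ℝ) ≤ (T : ℝ) ^ 2)
    have g2 := mul_le_mul_of_nonneg_left k2 hTR.le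
    norm_num at g1 g2 hR ⊢
    linarith
  linarith

theorem small_J'' {n : ℕ} (hn : 42 ≤ n) (hn2 : n ≤ 43) {y : ℝ} (h0 : 0 ≤ y) (h1 : y ≤ 10) :
    |J n y| ≤ 0.01 := by
  have h2 := abs_J_le n y
  rw [abs_of_nonneg h0] at h2
  have h3 : Real.exp (y ^ 2 / 4) ≤ Real.exp 25 := Real.exp_le_exp.2 (by nlinarith)
  have h4 : Real.exp 25 ≤ 3 ^ 25 := by
    have h5 : Real.exp 25 = Real.exp 1 ^ 25 := by
      rw [← Real.exp_nat_mul]
      norm_num
    rw [h5]
    have h6 : Real.exp 1 ≤ 3 := Real.exp_one_lt_three.le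
    gcongr
  have h5 : (y / 2) ^ n ≤ 5 ^ n := by
    have : y / 2 ≤ 5 := by linarith
    gcongr
  have h6 : (y / 2) ^ n / (n.factorial : ℝ) * Real.exp (y ^ 2 / 4) ≤ 5 ^ n / (n.factorial : ℝ) * 3 ^ 25 := by
    have := fac_pos n
    gcongr
    exact h3.trans h4
  refine h2.trans (h6.trans ?_)
  interval_cases n <;> norm_num [Nat.factorial]

theorem gQ1 : allN (fun i => cellK 2 (20 + (2 * i + 1)) 2 59) 28 = true := by decide +kernel

theorem gQ2 : allN (fun i => cellK 4 (152 + (2 * i + 1)) 4 59) 20 = true := by decide +kernel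

theorem gQ3 : allN (fun i => cellK 8 (384 + (2 * i + 1)) 8 59) 24 = true := by decide +kernel

theorem gQ4 : allN (fun i => cellK 16 (864 + (2 * i + 1)) 16 59) 1 = true := by decide +kernel

theorem gQ5 : allN (fun i => cellK 32 (1732 + (2 * i + 1)) 32 59) 1 = true := by decide +kernel

theorem Kf_le {y : ℝ} (h0 : 0 ≤ y) (h1 : y ≤ 54.1875) : |Kf y| ≤ 7.1 := by
  have h54 : y ≤ 54.25 := by linarith
  by_cases c0 : y ≤ 10
  · have a := small_J'' (n := 42) (by norm_num) (by norm_num) h0 c0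
    have b := small_J'' (n := 43) (by norm_num) (by norm_num) h0 c0
    have e : |y * J 43 y| ≤ 10 * 0.01 := by
      rw [abs_mul, abs_of_nonneg h0]
      gcongr
    unfold Kf
    rw [abs_le] at *
    norm_num at a e ⊢
    constructor <;> linarith [a.1, a.2, e.1, e.2]
  push Not at c0
  by_cases c1 : y ≤ 38
  · obtain ⟨i, hi, hy⟩ := cover (x0 := 20) (q := 2) (T := 2) (N := 28) (y := y) (by norm_num)
      (by norm_num; linarith) (by norm_num at c1 ⊢; linarith) (by norm_num) rfl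
    exact cellK_sound (by norm_num) (by norm_num) (allN_spec gQ1 i hi) h0 h54 hy
  push Not at c1
  by_cases c2 : y ≤ 48
  · obtain ⟨i, hi, hy⟩ := cover (x0 := 152) (q := 4) (T := 4) (N := 20) (y := y) (by norm_num)
      (by norm_num at c1 ⊢; linarith) (by norm_num at c2 ⊢; linarith) (by norm_num) rfl
    exact cellK_sound (by norm_num) (by norm_num) (allN_spec gQ2 i hi) h0 h54 hy
  push Not at c2
  by_cases c3 : y ≤ 54
  · obtain ⟨i, hi, hy⟩ := cover (x0 := 384) (q := 8) (T := 8) (N := 24) (y := y) (by norm_num)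
      (by norm_num at c2 ⊢; linarith) (by norm_num at c3 ⊢; linarith) (by norm_num) rfl
    exact cellK_sound (by norm_num) (by norm_num) (allN_spec gQ3 i hi) h0 h54 hy
  push Not at c3
  by_cases c4 : y ≤ 54.125
  · obtain ⟨i, hi, hy⟩ := cover (x0 := 864) (q := 16) (T := 16) (N := 1) (y := y) (by norm_num)
      (by norm_num at c3 ⊢; linarith) (by norm_num at c4 ⊢; linarith) (by norm_num) rfl
    exact cellK_sound (by norm_num) (by norm_num) (allN_spec gQ4 i hi) h0 h54 hy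
  push Not at c4
  obtain ⟨i, hi, hy⟩ := cover (x0 := 1732) (q := 32) (T := 32) (N := 1) (y := y) (by norm_num)
    (by norm_num at c4 ⊢; linarith) (by norm_num at h1 ⊢; linarith) (by norm_num) rfl
  exact cellK_sound (by norm_num) (by norm_num) (allN_spec gQ5 i hi) h0 h54 hy

end SCHB
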