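import Pool.Agent.MP_83fd13_an.SCH.CertPS

set_option autoImplicit false

open Metric Set MeasureTheory
open scoped RealInnerProductSpace NNReal ComplexConjugate

namespace SCHC

open SCHG

/-! ### CE: the expansion (file CertExp.lean; uses CM, CP) -/

theorem ce_I_im (z : ℂ) : Complex.I * ((z.im : ℝ) : ℂ) = (z - conj z) / 2 := by
  rw [Complex.sub_conj]
  push_cast
  ring

theorem ce_continuous_EE (ρ : ℝ) : Continuous (EE ρ) := by
  unfold EE
  have := Complex.continuous_im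
  fun_prop

theorem ce_ne {q : ℂ} (hq : q ∈ sphere (0 : ℂ) 1) : q ≠ 0 := by
  intro h
  rw [h] at hq
  simp at hq

theorem ce_cont_zpow (k : ℤ) : ContinuousOn (fun q : ℂ => q ^ k) (sphere 0 1) :=
  continuousOn_id.zpow₀ k fun _ hq => Or.inl (ce_ne hq)

theorem ce_conj {q : ℂ} (hq : ‖q‖ = 1) : conj q = q⁻¹ := by
  have h0 : q ≠ 0 := by
    intro h
    rw [h] at hq
    simp at hq
  have h1 : q * conj q = 1 := by
    rw [Complex.mul_conj, Complex.normSq_eq_norm_sq, hq]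
    simp
  field_simp
  rw [mul_comm]
  exact h1

theorem ce_EE_add (ρ : ℝ) (q g : ℂ) : EE ρ (q * (1 + g)) =
    EE ρ q * Complex.exp (((ρ / 2 : ℝ) : ℂ) * (q * g - conj (q * g))) := by
  unfold EE
  rw [← Complex.exp_add]
  congr 1
  have h1 := ce_I_im (q * g)
  have h2 : (q * (1 + g)).im = q.im + (q * g).im := by
    rw [mul_add, mul_one, Complex.add_im]
  rw [h2]
  have h3 : ((ρ / 2 : ℝ) : ℂ) * (q * g - conj (q * g)) = ρ * (Complex.I * (((q * g).im : ℝ) : ℂ)) := by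
    rw [h1]
    push_cast
    ring
  rw [h3]
  push_cast
  ring

/-- the binomial expansion -/
theorem ce_pow (x : ℝ) (q g : ℂ) (hq : ‖q‖ = 1) (m : ℕ) :
    ((x : ℂ) * (q * g - conj (q * g))) ^ m / (m.factorial : ℂ) =
      ∑ b ∈ Finset.range (m + 1), (((-1) ^ b * (x ^ m / ((m - b).factorial * b.factorial)) : ℝ) : ℂ) *
        q ^ ((m : ℤ) - 2 * b) * (g ^ (m - b) * conj g ^ b) := by
  have h0 : q ≠ 0 := by
    intro h
    rw [h] at hq
    simp at hq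
  rw [mul_pow, sub_eq_neg_add, add_pow, Finset.mul_sum, Finset.sum_div]
  apply Finset.sum_congr rfl
  intro b hb
  have hbm : b ≤ m := Nat.lt_succ_iff.1 (Finset.mem_range.1 hb)
  have hc : (m.choose b : ℂ) / (m.factorial : ℂ) = 1 / ((m - b).factorial * b.factorial) := by
    have h1 : (m.choose b : ℂ) * b.factorial * (m - b).factorial = m.factorial := by
      exact_mod_cast Nat.choose_mul_factorial_mul_factorial hbm
    have h2 : (m.factorial : ℂ) ≠ 0 := by exact_mod_cast m.factorial_ne_zero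
    have h3 : (b.factorial : ℂ) ≠ 0 := by exact_mod_cast b.factorial_ne_zero
    have h4 : ((m - b).factorial : ℂ) ≠ 0 := by exact_mod_cast (m - b).factorial_ne_zero
    rw [div_eq_div_iff h2 (mul_ne_zero h4 h3)]
    rw [← h1]
    ring
  have hz : q ^ ((m : ℤ) - 2 * b) = q ^ (m - b) * (q⁻¹) ^ b := by
    have e1 : (m : ℤ) - 2 * b = ((m - b : ℕ) : ℤ) + (-(b : ℤ)) := by
      push_cast [Nat.cast_sub hbm]
      ring
    rw [e1, zpow_add₀ h0, zpow_natCast, zpow_neg, zpow_natCast, inv_pow]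
  rw [hz, map_mul, ce_conj hq]
  have e2 : (-(q⁻¹ * conj g)) ^ b = (-1) ^ b * ((q⁻¹) ^ b * conj g ^ b) := by
    rw [neg_pow, mul_pow]
  rw [e2, mul_pow]
  push_cast
  calc (x : ℂ) ^ m * ((-1) ^ b * (q⁻¹ ^ b * (starRingEnd ℂ) g ^ b) * (q ^ (m - b) * g ^ (m - b)) *
        (m.choose b : ℂ)) / (m.factorial : ℂ)
      = (x : ℂ) ^ m * ((-1) ^ b * (q⁻¹ ^ b * (starRingEnd ℂ) g ^ b) * (q ^ (m - b) * g ^ (m - b))) *
        ((m.choose b : ℂ) / (m.factorial : ℂ)) := by ring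
    _ = _ := by
      rw [hc]
      ring

theorem ce_term (ρ : ℝ) (n : ℤ) (m b : ℕ) :
    mn (fun q => q ^ (1 - n) * q ^ ((m : ℤ) - 2 * b) * EE ρ q) = Jc ρ (n - 1 - m + 2 * b) := by
  unfold Jc
  apply mn_congr
  intro q hq
  have h0 : q ≠ 0 := by
    intro h
    rw [h] at hq
    simp at hq
  rw [← zpow_add₀ h0]
  congr 2
  ring

theorem ce_cont_term (ρ : ℝ) (n : ℤ) (m b : ℕ) (c d : ℂ) :
    ContinuousOn (fun q => c * (q ^ (1 - n) * q ^ ((m : ℤ) - 2 * b) * EE ρ q) * d) (sphere 0 1) :=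
  ((continuousOn_const.mul (((ce_cont_zpow _).mul (ce_cont_zpow _)).mul
    (ce_continuous_EE ρ).continuousOn)).mul continuousOn_const)

theorem KK_expand (ρ : ℝ) (hρ : 0 ≤ ρ) (n : ℤ) (g : ℂ) (hg : ρ * ‖g‖ ≤ 1) (M : ℕ) (hM : 0 < M) :
    ‖KK ρ n g - ∑ m ∈ Finset.range M, ∑ b ∈ Finset.range (m + 1),
      (((-1) ^ b * ((ρ / 2) ^ m / ((m - b).factorial * b.factorial)) : ℝ) : ℂ) * Jc ρ (n - 1 - m + 2 * b) *
        (g ^ (m - b) * conj g ^ b)‖ ≤ (ρ * ‖g‖) ^ M * ((M + 1) / (M.factorial * M)) := by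
  have hT : mn (fun q => ∑ m ∈ Finset.range M, ∑ b ∈ Finset.range (m + 1),
      (((-1) ^ b * ((ρ / 2) ^ m / ((m - b).factorial * b.factorial)) : ℝ) : ℂ) *
        (q ^ (1 - n) * q ^ ((m : ℤ) - 2 * b) * EE ρ q) * (g ^ (m - b) * conj g ^ b)) =
      ∑ m ∈ Finset.range M, ∑ b ∈ Finset.range (m + 1),
      (((-1) ^ b * ((ρ / 2) ^ m / ((m - b).factorial * b.factorial)) : ℝ) : ℂ) * Jc ρ (n - 1 - m + 2 * b) *
        (g ^ (m - b) * conj g ^ b) := by
    rw [mn_sum _ _ (fun m _ => continuousOn_finsetSum _ fun b _ => ce_cont_term ρ n m b _ _)]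
    apply Finset.sum_congr rfl
    intro m _
    rw [mn_sum _ _ (fun b _ => ce_cont_term ρ n m b _ _)]
    apply Finset.sum_congr rfl
    intro b _
    rw [mn_mul_const, mn_const_mul, ce_term]
  rw [← hT]
  have hF : ContinuousOn (fun q => q ^ (1 - n) * EE ρ (q * (1 + g))) (sphere 0 1) := by
    apply (ce_cont_zpow _).mul
    exact ((ce_continuous_EE ρ).comp (continuous_id.mul continuous_const)).continuousOn
  have hTc : ContinuousOn (fun q => ∑ m ∈ Finset.range M, ∑ b ∈ Finset.range (m + 1),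
      (((-1) ^ b * ((ρ / 2) ^ m / ((m - b).factorial * b.factorial)) : ℝ) : ℂ) *
        (q ^ (1 - n) * q ^ ((m : ℤ) - 2 * b) * EE ρ q) * (g ^ (m - b) * conj g ^ b))
        (sphere 0 1) :=
    continuousOn_finsetSum _ fun m _ => continuousOn_finsetSum _ fun b _ =>
      ce_cont_term ρ n m b _ _
  unfold KK
  rw [← mn_sub hF hTc]
  apply norm_mn_le
  intro q hq
  have h0 : q ≠ 0 := by
    intro h
    rw [h] at hq
    simp at hq
  have e1 : ∑ m ∈ Finset.range M, ∑ b ∈ Finset.range (m + 1),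
      (((-1) ^ b * ((ρ / 2) ^ m / ((m - b).factorial * b.factorial)) : ℝ) : ℂ) *
        (q ^ (1 - n) * q ^ ((m : ℤ) - 2 * b) * EE ρ q) * (g ^ (m - b) * conj g ^ b) =
      q ^ (1 - n) * EE ρ q * ∑ m ∈ Finset.range M,
        (((ρ / 2 : ℝ) : ℂ) * (q * g - conj (q * g))) ^ m / (m.factorial : ℂ) := by
    rw [Finset.mul_sum]
    apply Finset.sum_congr rfl
    intro m _
    rw [ce_pow _ q g hq, Finset.mul_sum]
    apply Finset.sum_congr rfl
    intro b _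
    ring
  rw [e1, ce_EE_add, ← mul_assoc, ← mul_sub, norm_mul, norm_mul, norm_EE, norm_zpow, hq,
    one_zpow, one_mul, one_mul]
  have hy : ‖((ρ / 2 : ℝ) : ℂ) * (q * g - conj (q * g))‖ ≤ ρ * ‖g‖ := by
    rw [norm_mul, Complex.norm_real, Real.norm_eq_abs, abs_of_nonneg (by positivity)]
    have h1 : ‖q * g - conj (q * g)‖ ≤ ‖g‖ + ‖g‖ := by
      refine (norm_sub_le _ _).trans ?_
      rw [Complex.norm_conj, norm_mul, hq, one_mul]
    nlinarith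
  have h2 := Complex.exp_bound (hy.trans hg) hM
  refine h2.trans ?_
  have h3 : (M.succ : ℝ) * ((M.factorial : ℝ) * (M : ℝ))⁻¹ = (M + 1) / (M.factorial * M) := by
    rw [Nat.succ_eq_add_one]
    push_cast
    rw [div_eq_mul_inv]
  rw [h3]
  apply mul_le_mul_of_nonneg_right _ (by positivity)
  exact pow_le_pow_left₀ (norm_nonneg _) hy _

theorem ce_cont_gg (N : ℕ) (φ : ℕ → ℝ) (hs : Summable fun k => |φ (k + 1)|) :
    ContinuousOn (gg N φ) (sphere 0 1) := by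
  have h1 := (PS_gg3 N φ hs _ le_rfl).continuousOn
  have h2 : ContinuousOn (fun w : ℂ => (gg N φ w - (((φ 1 / (N + 1) : ℝ) : ℂ)) * w ^ (N * 1) -
      (((φ 2 / (2 * N + 1) : ℝ) : ℂ)) * w ^ (N * 2)) + (((((φ 1 / (N + 1) : ℝ) : ℂ)) * w ^ (N * 1)) +
      (((φ 2 / (2 * N + 1) : ℝ) : ℂ)) * w ^ (N * 2))) (sphere 0 1) :=
    h1.add (by fun_prop)
  refine h2.congr fun w _ => ?_
  ring

theorem ce_cont_pp (N : ℕ) (φ : ℕ → ℝ) (hs : Summable fun k => |φ (k + 1)|) :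
    ContinuousOn (pp N φ) (sphere 0 1) := by
  have h1 := (PS_pp3 N φ hs _ le_rfl).continuousOn
  have h2 : ContinuousOn (fun w : ℂ => (pp N φ w - (φ 1 : ℂ) * w ^ (N * 1) -
      (φ 2 : ℂ) * w ^ (N * 2)) + ((φ 1 : ℂ) * w ^ (N * 1) + (φ 2 : ℂ) * w ^ (N * 2)))
      (sphere 0 1) :=
    h1.add (by fun_prop)
  refine h2.congr fun w _ => ?_
  ring

theorem ce_cont_KK (ρ : ℝ) (n : ℤ) (g : ℂ → ℂ) (hg : ContinuousOn g (sphere 0 1)) :
    ContinuousOn (fun w => KK ρ n (g w)) (sphere 0 1) := by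
  unfold KK
  apply continuousOn_mn (H := fun w q => q ^ (1 - n) * EE ρ (q * (1 + g w)))
  have h1 : ContinuousOn (fun p : ℂ × ℂ => p.2 ^ (1 - n)) (sphere 0 1 ×ˢ sphere 0 1) :=
    (ce_cont_zpow _).comp continuousOn_snd fun p hp => hp.2
  have h2 : ContinuousOn (fun p : ℂ × ℂ => g p.1) (sphere 0 1 ×ˢ sphere 0 1) :=
    hg.comp continuousOn_fst fun p hp => hp.1
  exact h1.mul ((ce_continuous_EE ρ).comp_continuousOn
    (continuousOn_snd.mul (continuousOn_const.add h2)))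

theorem ce_XX (N : ℕ) (ρ : ℝ) (φ : ℕ → ℝ) (κ : ℕ) : XX N ρ φ κ =
    mn fun w => w ^ (N * κ) * (1 + pp N φ w) * KK ρ ((N * κ : ℕ) : ℤ) (gg N φ w) := by
  unfold XX
  apply mn_congr
  intro w _
  unfold KK
  rw [← mn_const_mul]
  apply mn_congr
  intro q _
  ring

theorem XX_expand (N : ℕ) (ρ : ℝ) (hρ : 0 ≤ ρ) (φ : ℕ → ℝ) (hs : Summable fun k => |φ (k + 1)|)
    (κ : ℕ) (E P : ℝ) (hE : ∀ w : ℂ, ‖w‖ = 1 → ‖gg N φ w‖ ≤ E)
    (hP : ∀ w : ℂ, ‖w‖ = 1 → ‖pp N φ w‖ ≤ P) (hE1 : ρ * E ≤ 1) (M : ℕ) (hM : 0 < M) :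
    ‖XX N ρ φ κ - ∑ m ∈ Finset.range M, ∑ b ∈ Finset.range (m + 1),
      (((-1) ^ b * ((ρ / 2) ^ m / ((m - b).factorial * b.factorial)) : ℝ) : ℂ) *
        Jc ρ (((N * κ : ℕ) : ℤ) - 1 - m + 2 * b) * mu N φ κ (m - b) b‖ ≤
      (1 + P) * ((ρ * E) ^ M * ((M + 1) / (M.factorial * M))) := by
  have hgc := ce_cont_gg N φ hs
  have hpc := ce_cont_pp N φ hs
  have hgcc : ContinuousOn (fun w => conj (gg N φ w)) (sphere 0 1) :=
    Complex.continuous_conj.comp_continuousOn hgc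
  have hw : ContinuousOn (fun w : ℂ => w ^ (N * κ) * (1 + pp N φ w)) (sphere 0 1) :=
    (by fun_prop : ContinuousOn (fun w : ℂ => w ^ (N * κ)) (sphere 0 1)).mul
      (continuousOn_const.add hpc)
  have hterm : ∀ (c : ℂ) (i b : ℕ), ContinuousOn (fun w => c * (w ^ (N * κ) * (1 + pp N φ w) *
      gg N φ w ^ i * conj (gg N φ w) ^ b)) (sphere 0 1) := fun c i b =>
    continuousOn_const.mul ((hw.mul (hgc.pow i)).mul (hgcc.pow b))
  have hT : mn (fun w => ∑ m ∈ Finset.range M, ∑ b ∈ Finset.range (m + 1),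
      ((((-1) ^ b * ((ρ / 2) ^ m / ((m - b).factorial * b.factorial)) : ℝ) : ℂ) *
        Jc ρ (((N * κ : ℕ) : ℤ) - 1 - m + 2 * b)) * (w ^ (N * κ) * (1 + pp N φ w) *
          gg N φ w ^ (m - b) * conj (gg N φ w) ^ b)) =
      ∑ m ∈ Finset.range M, ∑ b ∈ Finset.range (m + 1),
      (((-1) ^ b * ((ρ / 2) ^ m / ((m - b).factorial * b.factorial)) : ℝ) : ℂ) *
        Jc ρ (((N * κ : ℕ) : ℤ) - 1 - m + 2 * b) * mu N φ κ (m - b) b := by
    rw [mn_sum _ _ (fun m _ => continuousOn_finsetSum _ fun b _ => hterm _ _ _)]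
    apply Finset.sum_congr rfl
    intro m _
    rw [mn_sum _ _ (fun b _ => hterm _ _ _)]
    apply Finset.sum_congr rfl
    intro b _
    rw [mn_const_mul]
    rfl
  rw [← hT, ce_XX]
  have hTc : ContinuousOn (fun w => ∑ m ∈ Finset.range M, ∑ b ∈ Finset.range (m + 1),
      ((((-1) ^ b * ((ρ / 2) ^ m / ((m - b).factorial * b.factorial)) : ℝ) : ℂ) *
        Jc ρ (((N * κ : ℕ) : ℤ) - 1 - m + 2 * b)) * (w ^ (N * κ) * (1 + pp N φ w) *
          gg N φ w ^ (m - b) * conj (gg N φ w) ^ b)) (sphere 0 1) :=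
    continuousOn_finsetSum _ fun m _ => continuousOn_finsetSum _ fun b _ => hterm _ _ _
  have hFc : ContinuousOn (fun w => w ^ (N * κ) * (1 + pp N φ w) *
      KK ρ ((N * κ : ℕ) : ℤ) (gg N φ w)) (sphere 0 1) := hw.mul (ce_cont_KK ρ _ _ hgc)
  rw [← mn_sub hFc hTc]
  apply norm_mn_le
  intro w hw1
  have hEw := hE w hw1
  have hPw := hP w hw1
  have hgw : ρ * ‖gg N φ w‖ ≤ ρ * E := mul_le_mul_of_nonneg_left hEw hρ
  have h1 := KK_expand ρ hρ ((N * κ : ℕ) : ℤ) (gg N φ w) (hgw.trans hE1) M hM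
  have e1 : w ^ (N * κ) * (1 + pp N φ w) * KK ρ ((N * κ : ℕ) : ℤ) (gg N φ w) -
      ∑ m ∈ Finset.range M, ∑ b ∈ Finset.range (m + 1),
      ((((-1) ^ b * ((ρ / 2) ^ m / ((m - b).factorial * b.factorial)) : ℝ) : ℂ) *
        Jc ρ (((N * κ : ℕ) : ℤ) - 1 - m + 2 * b)) * (w ^ (N * κ) * (1 + pp N φ w) *
          gg N φ w ^ (m - b) * conj (gg N φ w) ^ b) =
      w ^ (N * κ) * (1 + pp N φ w) * (KK ρ ((N * κ : ℕ) : ℤ) (gg N φ w) -
        ∑ m ∈ Finset.range M, ∑ b ∈ Finset.range (m + 1),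
      (((-1) ^ b * ((ρ / 2) ^ m / ((m - b).factorial * b.factorial)) : ℝ) : ℂ) *
        Jc ρ (((N * κ : ℕ) : ℤ) - 1 - m + 2 * b) *
        (gg N φ w ^ (m - b) * conj (gg N φ w) ^ b)) := by
    rw [mul_sub, Finset.mul_sum]
    congr 1
    apply Finset.sum_congr rfl
    intro m _
    rw [Finset.mul_sum]
    apply Finset.sum_congr rfl
    intro b _
    ring
  rw [e1, norm_mul, norm_mul, norm_pow, hw1, one_pow, one_mul]
  have h2 : ‖1 + pp N φ w‖ ≤ 1 + P := by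
    refine (norm_add_le _ _).trans ?_
    rw [norm_one]
    linarith
  have h3 : (ρ * ‖gg N φ w‖) ^ M ≤ (ρ * E) ^ M :=
    pow_le_pow_left₀ (by positivity) hgw _
  refine mul_le_mul h2 (h1.trans (mul_le_mul_of_nonneg_right h3 (by positivity)))
    (norm_nonneg _) ((norm_nonneg _).trans h2)

theorem YY_expand (N : ℕ) (ρ : ℝ) (φ : ℕ → ℝ) (hs : Summable fun k => |φ (k + 1)|) (κ : ℕ) :
    YY N ρ φ κ = mn fun w => (2 * ((w ^ N).re : ℂ)) * w ^ (N * κ) *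
      ((1 + pp N φ w) * KK ρ ((N * κ : ℕ) : ℤ) (gg N φ w) -
        conj (1 + pp N φ w) * KK ρ (((N * κ : ℕ) : ℤ) + 2) (gg N φ w)) / 2 := by
  unfold YY
  apply mn_congr
  intro w _
  unfold KK
  have hc : ∀ (k : ℤ) (c : ℂ), ContinuousOn (fun q => c * (q ^ k * EE ρ (q * (1 + gg N φ w))))
      (sphere 0 1) := fun k c =>
    continuousOn_const.mul ((ce_cont_zpow _).mul
      ((ce_continuous_EE ρ).comp (continuous_id.mul continuous_const)).continuousOn)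
  have e1 : ∀ q : ℂ, ‖q‖ = 1 → (2 * ((w ^ N).re : ℂ)) * (Complex.I * ((q * (1 + pp N φ w)).im : ℂ)) *
      (q ^ (-((N * κ : ℕ) : ℤ)) * w ^ (N * κ) * EE ρ (q * (1 + gg N φ w))) =
      ((2 * ((w ^ N).re : ℂ)) * w ^ (N * κ) * (1 + pp N φ w) / 2) *
        (q ^ (1 - ((N * κ : ℕ) : ℤ)) * EE ρ (q * (1 + gg N φ w))) -
      ((2 * ((w ^ N).re : ℂ)) * w ^ (N * κ) * conj (1 + pp N φ w) / 2) *
        (q ^ (1 - (((N * κ : ℕ) : ℤ) + 2)) * EE ρ (q * (1 + gg N φ w))) := by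
    intro q hq
    have h0 : q ≠ 0 := by
      intro h
      rw [h] at hq
      simp at hq
    have h1 : q ^ (1 - ((N * κ : ℕ) : ℤ)) = q * q ^ (-((N * κ : ℕ) : ℤ)) := by
      rw [sub_eq_add_neg, zpow_add₀ h0, zpow_one]
    have h2 : q ^ (1 - (((N * κ : ℕ) : ℤ) + 2)) = q⁻¹ * q ^ (-((N * κ : ℕ) : ℤ)) := by
      rw [show (1 : ℤ) - (((N * κ : ℕ) : ℤ) + 2) = -1 + -((N * κ : ℕ) : ℤ) by ring,
        zpow_add₀ h0, zpow_neg_one]
    rw [h1, h2, ce_I_im, map_mul, ce_conj hq]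
    ring
  rw [mn_congr e1, mn_sub (hc _ _) (hc _ _), mn_const_mul, mn_const_mul]
  ring

end SCHC
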