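import Pool.Agent.MP_83fd13_an.SCH.CertDat
import Pool.Agent.MP_83fd13_an.SCH.CertExp

set_option autoImplicit false

open Metric Set MeasureTheory
open scoped RealInnerProductSpace NNReal ComplexConjugate

namespace SCHC

open SCHG

/-! ### CB: the bound for `X_0` -/

/-- the decompositions `g = e w^N + γ`, `p = (N+1) e w^N + p_2` -/
structure cb0_Dec (N : ℕ) (g p γ p2 : ℂ → ℂ) (e c E P Ga P2 : ℝ) : Prop where
  hN : 0 < N
  he0 : 0 ≤ e
  hg : PS N g 1 E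
  hp : PS N p 1 P
  hγ : PS N γ 2 Ga
  hp2 : PS N p2 2 P2
  eg : ∀ w, g w = e * w ^ (N * 1) + γ w
  ep : ∀ w, p w = c * w ^ (N * 1) + p2 w

theorem cb0_dec {N : ℕ} {ρ : ℝ} {φ : ℕ → ℝ} {e g2 τ G3 Ga P2 : ℝ}
    (D : Dat N ρ φ e g2 τ G3 Ga P2) :
    cb0_Dec N (gg N φ) (pp N φ) (fun w => gg N φ w - (e : ℂ) * w ^ (N * 1))
      (fun w => pp N φ w - (((N + 1) * e : ℝ) : ℂ) * w ^ (N * 1)) e ((N + 1) * e)
      (e + Ga) ((N + 1) * e + P2) Ga P2 := by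
  have hN1 : (0 : ℝ) < (N : ℝ) + 1 := by positivity
  have hN2 : (0 : ℝ) < 2 * (N : ℝ) + 1 := by positivity
  have h1 := PS_gg3 N φ D.hs τ D.hτ
  have h2 := PS_pp3 N φ D.hs τ D.hτ
  have e1 : φ 1 / (N + 1) = e := by rw [D.he]; field_simp
  have e2 : φ 2 / (2 * N + 1) = g2 := by rw [D.hg2]; field_simp
  rw [e1, e2, ← D.hG3] at h1
  have hγ : PS N (fun w => gg N φ w - (e : ℂ) * w ^ (N * 1)) 2 Ga := by
    have h3 := (h1.mono (K' := 2) (by norm_num) le_rfl).add (PS.monomial N 2 (g2 : ℂ))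
    have h4 : G3 + ‖(g2 : ℂ)‖ = Ga := by
      rw [Complex.norm_real, Real.norm_eq_abs, D.hGa, add_comm]
    rw [h4] at h3
    exact h3.congr fun w _ => by ring
  have hp2 : PS N (fun w => pp N φ w - (((N + 1) * e : ℝ) : ℂ) * w ^ (N * 1)) 2 P2 := by
    have h3 := (h2.mono (K' := 2) (by norm_num) le_rfl).add (PS.monomial N 2 (φ 2 : ℂ))
    have h4 : τ + ‖(φ 2 : ℂ)‖ = P2 := by
      rw [Complex.norm_real, Real.norm_eq_abs, D.hP2, D.hg2, abs_mul, abs_of_pos hN2, add_comm]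
    rw [h4, D.he] at h3
    exact h3.congr fun w _ => by ring
  refine ⟨D.hN, D.he0, ?_, ?_, hγ, hp2, fun w => by ring, fun w => by ring⟩
  · have h3 := (hγ.mono (K' := 1) (by norm_num) le_rfl).add (PS.monomial N 1 (e : ℂ))
    have h4 : Ga + ‖(e : ℂ)‖ = e + Ga := by
      rw [Complex.norm_real, Real.norm_eq_abs, abs_of_nonneg D.he0, add_comm]
    rw [h4] at h3
    exact h3.congr fun w _ => by ring
  · have h3 := (hp2.mono (K' := 1) (by norm_num) le_rfl).add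
      (PS.monomial N 1 (((N + 1) * e : ℝ) : ℂ))
    have h4 : P2 + ‖((((N : ℝ) + 1) * e : ℝ) : ℂ)‖ = (N + 1) * e + P2 := by
      rw [Complex.norm_real, Real.norm_eq_abs, abs_of_nonneg (mul_nonneg hN1.le D.he0), add_comm]
    rw [h4] at h3
    exact h3.congr fun w _ => by ring

section

variable {N : ℕ} {g p γ p2 : ℂ → ℂ} {e c E P Ga P2 : ℝ}

theorem cb0_mn_zero (hN : 0 < N) {F : ℂ → ℂ} {K : ℕ} {A : ℝ} (h : PS N F K A) (hK : 0 < K) :
    mn F = 0 := by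
  have := h.orth hN hK
  simpa using this

theorem cb0_mn_conj_zero (hN : 0 < N) {F : ℂ → ℂ} {K : ℕ} {A : ℝ} (h : PS N F K A) (hK : 0 < K) :
    mn (fun w => conj (F w)) = 0 := by
  rw [mn_conj, cb0_mn_zero hN h hK, map_zero]

theorem cb0_orth' (hN : 0 < N) {F : ℂ → ℂ} {K : ℕ} {A : ℝ} (h : PS N F K A) (hK : 1 < K) (d : ℂ) :
    mn (fun w => d * w ^ (N * 1) * conj (F w)) = 0 := by
  have h1 := h.orth hN hK
  have h2 : mn (fun w => d * w ^ (N * 1) * conj (F w)) =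
      d * mn (fun w => conj (F w * conj (w ^ (N * 1)))) := by
    rw [← mn_const_mul]
    congr 1
    funext w
    rw [map_mul, Complex.conj_conj]
    ring
  rw [h2, mn_conj, h1, map_zero, mul_zero]

theorem cb0_cont_conj {F : ℂ → ℂ} (h : ContinuousOn F (sphere 0 1)) :
    ContinuousOn (fun w => conj (F w)) (sphere 0 1) :=
  Complex.continuous_conj.comp_continuousOn h

theorem cb0_one (N : ℕ) : PS N (fun _ => (1 : ℂ)) 0 1 := by
  have h := PS.monomial N 0 1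
  rw [norm_one] at h
  exact h.congr fun w _ => by simp

theorem cb0_onep (D : cb0_Dec N g p γ p2 e c E P Ga P2) : PS N (fun w => 1 + p w) 0 (1 + P) :=
  (cb0_one N).add (D.hp.mono (Nat.zero_le _) le_rfl)

theorem cb0_00 (D : cb0_Dec N g p γ p2 e c E P Ga P2) : mn (fun w => 1 + p w) = 1 := by
  rw [mn_add (cb0_one N).continuousOn D.hp.continuousOn, mn_const, cb0_mn_zero D.hN D.hp one_pos,
    add_zero]

theorem cb0_a0 (D : cb0_Dec N g p γ p2 e c E P Ga P2) (a : ℕ) (ha : 0 < a) :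
    mn (fun w => (1 + p w) * g w ^ a) = 0 :=
  cb0_mn_zero D.hN ((cb0_onep D).mul (D.hg.pow a)) (by omega)

theorem cb0_pconj (D : cb0_Dec N g p γ p2 e c E P Ga P2) {G : ℂ → ℂ} {B : ℝ} (hG : PS N G 2 B) :
    mn (fun w => (1 + p w) * conj (G w)) = mn (fun w => p2 w * conj (G w)) := by
  have hc := cb0_cont_conj hG.continuousOn
  have h1 : mn (fun w => (1 + p w) * conj (G w)) =
      mn (fun w => (conj (G w) + (c : ℂ) * w ^ (N * 1) * conj (G w)) + p2 w * conj (G w)) := by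
    congr 1
    funext w
    rw [D.ep]
    ring
  have c1 : ContinuousOn (fun w : ℂ => (c : ℂ) * w ^ (N * 1) * conj (G w)) (sphere 0 1) :=
    ((continuous_const.mul (continuous_pow _)).continuousOn).mul hc
  have c2 : ContinuousOn (fun w : ℂ => p2 w * conj (G w)) (sphere 0 1) :=
    D.hp2.continuousOn.mul hc
  have c3 : ContinuousOn (fun w : ℂ => conj (G w) + (c : ℂ) * w ^ (N * 1) * conj (G w))
    (sphere 0 1) := hc.add c1
  rw [h1, mn_add c3 c2, mn_add hc c1, cb0_mn_conj_zero D.hN hG (by norm_num),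
    cb0_orth' D.hN hG (by norm_num), zero_add, zero_add]

theorem cb0_0b (D : cb0_Dec N g p γ p2 e c E P Ga P2) (b : ℕ) (hb : 2 ≤ b) :
    ‖mn (fun w => (1 + p w) * conj (g w) ^ b)‖ ≤ P2 * E ^ b := by
  have hG : PS N (fun w => g w ^ b) 2 (E ^ b) := (D.hg.pow b).mono (by omega) le_rfl
  have h1 := cb0_pconj D hG
  simp only [map_pow] at h1
  rw [h1]
  have h2 := D.hp2.norm_mn_mul_conj_le hG
  simp only [map_pow] at h2
  exact h2

theorem cb0_01 (D : cb0_Dec N g p γ p2 e c E P Ga P2) :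
    ‖mn (fun w => (1 + p w) * conj (g w)) - ((c * e : ℝ) : ℂ)‖ ≤ P2 * Ga := by
  have hγ1 : PS N γ 1 Ga := D.hγ.mono (by norm_num) le_rfl
  have hcγ := cb0_cont_conj D.hγ.continuousOn
  have hcg := cb0_cont_conj D.hg.continuousOn
  have cw : ContinuousOn (fun w : ℂ => conj (w ^ (N * 1))) (sphere 0 1) :=
    cb0_cont_conj (continuous_pow _).continuousOn
  have h1 : mn (fun w => (1 + p w) * conj (g w)) =
      mn (fun w => ((1 + p w) * conj (γ w) + e * (((1 : ℂ) + p2 w) * conj (w ^ (N * 1)))) +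
        ((c * e : ℝ) : ℂ) * (w ^ (N * 1) * conj (w ^ (N * 1)))) := by
    congr 1
    funext w
    rw [D.eg w, map_add, map_mul, Complex.conj_ofReal, D.ep]
    push_cast
    ring
  have c1 : ContinuousOn (fun w : ℂ => (1 + p w) * conj (γ w)) (sphere 0 1) :=
    (cb0_onep D).continuousOn.mul hcγ
  have c2 : ContinuousOn (fun w : ℂ => (e : ℂ) * (((1 : ℂ) + p2 w) * conj (w ^ (N * 1))))
      (sphere 0 1) :=
    continuousOn_const.mul ((continuousOn_const.add D.hp2.continuousOn).mul cw)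
  have c3 : ContinuousOn (fun w : ℂ => ((c * e : ℝ) : ℂ) * (w ^ (N * 1) * conj (w ^ (N * 1))))
      (sphere 0 1) :=
    continuousOn_const.mul ((continuous_pow _).continuousOn.mul cw)
  have c12 : ContinuousOn (fun w : ℂ => (1 + p w) * conj (γ w) +
      e * (((1 : ℂ) + p2 w) * conj (w ^ (N * 1)))) (sphere 0 1) := c1.add c2
  have c4 : ContinuousOn (fun w : ℂ => (1 : ℂ) * conj (w ^ (N * 1))) (sphere 0 1) :=
    continuousOn_const.mul cw
  have c5 : ContinuousOn (fun w : ℂ => p2 w * conj (w ^ (N * 1))) (sphere 0 1) :=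
    D.hp2.continuousOn.mul cw
  have h2 : mn (fun w => ((1 : ℂ) + p2 w) * conj (w ^ (N * 1))) = 0 := by
    have : mn (fun w => ((1 : ℂ) + p2 w) * conj (w ^ (N * 1))) =
        mn (fun w => (1 : ℂ) * conj (w ^ (N * 1)) + p2 w * conj (w ^ (N * 1))) := by
      congr 1
      funext w
      ring
    rw [this, mn_add c4 c5, D.hp2.orth D.hN (by norm_num), add_zero]
    have h3 := mn_pow_conj_pow D.hN 0 1
    simp only [mul_zero, pow_zero, zero_ne_one, if_false] at h3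
    exact h3
  have h3 := mn_pow_conj_pow D.hN 1 1
  rw [if_pos rfl] at h3
  rw [h1, mn_add c12 c3, mn_add c1 c2, mn_const_mul, mn_const_mul, h2, h3, cb0_pconj D D.hγ,
    mul_zero, add_zero, mul_one, add_sub_cancel_right]
  exact D.hp2.norm_mn_mul_conj_le D.hγ

theorem cb0_ab (D : cb0_Dec N g p γ p2 e c E P Ga P2) (a b : ℕ) :
    ‖mn (fun w => (1 + p w) * g w ^ a * conj (g w) ^ b)‖ ≤ (1 + P) * E ^ (a + b) := by
  apply norm_mn_le
  intro w hw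
  have hE := D.hg.norm_le hw
  rw [norm_mul, norm_mul, norm_pow, norm_pow, RCLike.norm_conj, mul_assoc, ← pow_add]
  exact mul_le_mul ((cb0_onep D).norm_le hw) (pow_le_pow_left₀ (norm_nonneg _) hE _)
    (by positivity) (cb0_onep D).nonneg

theorem cb0_21 (D : cb0_Dec N g p γ p2 e c E P Ga P2) :
    ‖mn (fun w => (1 + p w) * g w ^ 2 * conj (g w))‖ ≤ (1 + P) * E ^ 2 * Ga := by
  have hH : PS N (fun w => (1 + p w) * g w ^ 2) 2 ((1 + P) * E ^ 2) :=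
    ((cb0_onep D).mul (D.hg.pow 2)).mono (by norm_num) le_rfl
  have cw : ContinuousOn (fun w : ℂ => conj (w ^ (N * 1))) (sphere 0 1) :=
    cb0_cont_conj (continuous_pow _).continuousOn
  have c1 : ContinuousOn (fun w : ℂ => (e : ℂ) * ((1 + p w) * g w ^ 2 * conj (w ^ (N * 1))))
      (sphere 0 1) := continuousOn_const.mul (hH.continuousOn.mul cw)
  have c2 : ContinuousOn (fun w : ℂ => (1 + p w) * g w ^ 2 * conj (γ w)) (sphere 0 1) :=
    hH.continuousOn.mul (cb0_cont_conj D.hγ.continuousOn)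
  have h1 : mn (fun w => (1 + p w) * g w ^ 2 * conj (g w)) =
      mn (fun w => (e : ℂ) * ((1 + p w) * g w ^ 2 * conj (w ^ (N * 1))) +
        (1 + p w) * g w ^ 2 * conj (γ w)) := by
    congr 1
    funext w
    have : conj (g w) = e * conj (w ^ (N * 1)) + conj (γ w) := by
      rw [D.eg w, map_add, map_mul, Complex.conj_ofReal]
    rw [this]
    ring
  rw [h1, mn_add c1 c2, mn_const_mul, hH.orth D.hN (by norm_num), mul_zero, zero_add]
  exact hH.norm_mn_mul_conj_le D.hγ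

theorem cb0_12 (D : cb0_Dec N g p γ p2 e c E P Ga P2) :
    ‖mn (fun w => (1 + p w) * g w * conj (g w) ^ 2)‖ ≤ (e * P + (1 + P) * Ga) * E ^ 2 := by
  have hG : PS N (fun w => g w ^ 2) 2 (E ^ 2) := (D.hg.pow 2).mono (by norm_num) le_rfl
  have hR : PS N (fun w => (e : ℂ) * w ^ (N * 1) * p w + (1 + p w) * γ w) 1
      (e * P + (1 + P) * Ga) := by
    have h1 := (PS.monomial N 1 (e : ℂ)).mul D.hp
    rw [Complex.norm_real, Real.norm_eq_abs, abs_of_nonneg D.he0] at h1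
    exact (h1.mono (by norm_num) le_rfl).add (((cb0_onep D).mul D.hγ).mono (by norm_num) le_rfl)
  have hcG := cb0_cont_conj hG.continuousOn
  have c1 : ContinuousOn (fun w : ℂ => (e : ℂ) * w ^ (N * 1) * conj (g w ^ 2)) (sphere 0 1) :=
    ((continuous_const.mul (continuous_pow _)).continuousOn).mul hcG
  have c2 : ContinuousOn (fun w : ℂ => ((e : ℂ) * w ^ (N * 1) * p w + (1 + p w) * γ w) *
      conj (g w ^ 2)) (sphere 0 1) := hR.continuousOn.mul hcG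
  have h1 : mn (fun w => (1 + p w) * g w * conj (g w) ^ 2) =
      mn (fun w => (e : ℂ) * w ^ (N * 1) * conj (g w ^ 2) +
        ((e : ℂ) * w ^ (N * 1) * p w + (1 + p w) * γ w) * conj (g w ^ 2)) := by
    congr 1
    funext w
    rw [map_pow]
    have : (1 + p w) * g w = (e : ℂ) * w ^ (N * 1) +
        ((e : ℂ) * w ^ (N * 1) * p w + (1 + p w) * γ w) := by
      rw [D.eg w]
      ring
    rw [this]
    ring
  rw [h1, mn_add c1 c2, cb0_orth' D.hN hG (by norm_num), zero_add]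
  exact hR.norm_mn_mul_conj_le hG

end

theorem cb0_mu (N : ℕ) (φ : ℕ → ℝ) (a b : ℕ) : mu N φ 0 a b =
    mn (fun w => (1 + pp N φ w) * gg N φ w ^ a * conj (gg N φ w) ^ b) := by
  unfold mu
  congr 1
  funext w
  rw [mul_zero, pow_zero, one_mul]

theorem cb0_term {J a M B : ℝ} {r : ℝ} {m : ℂ} (hJ : |J| ≤ a) (hr : |r| = B) (hm : ‖m‖ ≤ M) :
    ‖(r : ℂ) * (J : ℂ) * m‖ ≤ B * a * M := by
  rw [norm_mul, norm_mul, Complex.norm_real, Complex.norm_real, Real.norm_eq_abs,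
    Real.norm_eq_abs, hr]
  have hB : 0 ≤ B := hr ▸ abs_nonneg _
  exact mul_le_mul (mul_le_mul_of_nonneg_left hJ hB) hm (norm_nonneg _)
    (mul_nonneg hB ((abs_nonneg _).trans hJ))

theorem X0_bound (N : ℕ) (ρ : ℝ) (φ : ℕ → ℝ) (e g2 τ G3 Ga P2 : ℝ)
    (D : Dat N ρ φ e g2 τ G3 Ga P2) (J : ℤ → ℝ) (hJ : ∀ k, Jc ρ k = (J k : ℂ))
    (a0 a1 a2 a3 : ℝ) (h0 : |J 0| ≤ a0) (h1 : |J 1| ≤ a1) (h1' : |J (-1)| ≤ a1)
    (h2 : |J 2| ≤ a2) (h2' : |J (-2)| ≤ a2) (h3 : |J 3| ≤ a3) (h3' : |J (-3)| ≤ a3) :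
    ‖XX N ρ φ 0 - ((J (-1) - (ρ / 2) * J 0 * (N + 1) * e ^ 2 : ℝ) : ℂ)‖ ≤
      er0 N (ρ / 2) e Ga P2 a0 a1 a2 a3 := by
  have C := cb0_dec D
  have hx : 0 < ρ / 2 := half_pos D.hρ
  have hX := XX_expand N ρ D.hρ.le φ D.hs 0 (e + Ga) ((N + 1) * e + P2)
    (fun w hw => C.hg.norm_le hw) (fun w hw => C.hp.norm_le hw) D.hsm 5 (by norm_num)
  set x := ρ / 2 with hxdef
  have hρx : ρ = 2 * x := by rw [hxdef]; ring
  have m00 : mu N φ 0 0 0 = 1 := by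
    rw [cb0_mu]
    simpa using cb0_00 C
  have m10 : mu N φ 0 1 0 = 0 := by
    rw [cb0_mu]
    simpa using cb0_a0 C 1 one_pos
  have m20 : mu N φ 0 2 0 = 0 := by
    rw [cb0_mu]
    simpa using cb0_a0 C 2 (by norm_num)
  have m30 : mu N φ 0 3 0 = 0 := by
    rw [cb0_mu]
    simpa using cb0_a0 C 3 (by norm_num)
  have m40 : mu N φ 0 4 0 = 0 := by
    rw [cb0_mu]
    simpa using cb0_a0 C 4 (by norm_num)
  have m01 : ‖mu N φ 0 0 1 - (((N + 1) * e * e : ℝ) : ℂ)‖ ≤ P2 * Ga := by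
    rw [cb0_mu]
    simpa using cb0_01 C
  have m02 : ‖mu N φ 0 0 2‖ ≤ P2 * (e + Ga) ^ 2 := by
    rw [cb0_mu]
    simpa using cb0_0b C 2 le_rfl
  have m03 : ‖mu N φ 0 0 3‖ ≤ P2 * (e + Ga) ^ 3 := by
    rw [cb0_mu]
    simpa using cb0_0b C 3 (by norm_num)
  have m11 : ‖mu N φ 0 1 1‖ ≤ (1 + ((N + 1) * e + P2)) * (e + Ga) ^ 2 := by
    rw [cb0_mu]; exact cb0_ab C 1 1
  have m21 : ‖mu N φ 0 2 1‖ ≤ (1 + ((N + 1) * e + P2)) * (e + Ga) ^ 2 * Ga := by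
    rw [cb0_mu]
    simpa using cb0_21 C
  have m12 : ‖mu N φ 0 1 2‖ ≤
      (e * ((N + 1) * e + P2) + (1 + ((N + 1) * e + P2)) * Ga) * (e + Ga) ^ 2 := by
    rw [cb0_mu]
    simpa using cb0_12 C
  have m31 : ‖mu N φ 0 3 1‖ ≤ (1 + ((N + 1) * e + P2)) * (e + Ga) ^ 4 := by
    rw [cb0_mu]; exact cb0_ab C 3 1
  have m22 : ‖mu N φ 0 2 2‖ ≤ (1 + ((N + 1) * e + P2)) * (e + Ga) ^ 4 := by
    rw [cb0_mu]; exact cb0_ab C 2 2
  have m13 : ‖mu N φ 0 1 3‖ ≤ (1 + ((N + 1) * e + P2)) * (e + Ga) ^ 4 := by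
    rw [cb0_mu]; exact cb0_ab C 1 3
  have m04 : ‖mu N φ 0 0 4‖ ≤ (1 + ((N + 1) * e + P2)) * (e + Ga) ^ 4 := by
    rw [cb0_mu]; exact cb0_ab C 0 4
  -- the sum, term by term
  have hS : ∑ m ∈ Finset.range 5, ∑ b ∈ Finset.range (m + 1),
      (((-1) ^ b * (x ^ m / ((m - b).factorial * b.factorial)) : ℝ) : ℂ) *
        Jc ρ (((N * 0 : ℕ) : ℤ) - 1 - m + 2 * b) * mu N φ 0 (m - b) b =
      ((J (-1) - x * J 0 * (N + 1) * e ^ 2 : ℝ) : ℂ) +
      (((-x : ℝ) : ℂ) * (J 0 : ℂ) * (mu N φ 0 0 1 - (((N + 1) * e * e : ℝ) : ℂ)) +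
      ((-x ^ 2 : ℝ) : ℂ) * (J (-1) : ℂ) * mu N φ 0 1 1 +
      ((x ^ 2 / 2 : ℝ) : ℂ) * (J 1 : ℂ) * mu N φ 0 0 2 +
      ((-(x ^ 3 / 2) : ℝ) : ℂ) * (J (-2) : ℂ) * mu N φ 0 2 1 +
      ((x ^ 3 / 2 : ℝ) : ℂ) * (J 0 : ℂ) * mu N φ 0 1 2 +
      ((-(x ^ 3 / 6) : ℝ) : ℂ) * (J 2 : ℂ) * mu N φ 0 0 3 +
      ((-(x ^ 4 / 6) : ℝ) : ℂ) * (J (-3) : ℂ) * mu N φ 0 3 1 +
      ((x ^ 4 / 4 : ℝ) : ℂ) * (J (-1) : ℂ) * mu N φ 0 2 2 +
      ((-(x ^ 4 / 6) : ℝ) : ℂ) * (J 1 : ℂ) * mu N φ 0 1 3 +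
      ((x ^ 4 / 24 : ℝ) : ℂ) * (J 3 : ℂ) * mu N φ 0 0 4) := by
    simp only [Finset.sum_range_succ, Finset.sum_range_zero, hJ, Nat.sub_self, Nat.sub_zero,
      Nat.factorial, m00, m10, m20, m30, m40, mul_zero, Nat.cast_zero]
    norm_num
    ring
  -- bounds of the individual terms
  have t1 := cb0_term (r := -x) h0 (by rw [abs_neg, abs_of_pos hx]) m01
  have t2 := cb0_term (r := -x ^ 2) h1' (by rw [abs_neg, abs_of_pos (by positivity)]) m11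
  have t3 := cb0_term (r := x ^ 2 / 2) h1 (abs_of_pos (by positivity)) m02
  have t4 := cb0_term (r := -(x ^ 3 / 2)) h2' (by rw [abs_neg, abs_of_pos (by positivity)]) m21
  have t5 := cb0_term (r := x ^ 3 / 2) h0 (abs_of_pos (by positivity)) m12
  have t6 := cb0_term (r := -(x ^ 3 / 6)) h2 (by rw [abs_neg, abs_of_pos (by positivity)]) m03
  have t7 := cb0_term (r := -(x ^ 4 / 6)) h3' (by rw [abs_neg, abs_of_pos (by positivity)]) m31
  have t8 := cb0_term (r := x ^ 4 / 4) h1' (abs_of_pos (by positivity)) m22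
  have t9 := cb0_term (r := -(x ^ 4 / 6)) h1 (by rw [abs_neg, abs_of_pos (by positivity)]) m13
  have t10 := cb0_term (r := x ^ 4 / 24) h3 (abs_of_pos (by positivity)) m04
  rw [hS] at hX
  set T1 := ((-x : ℝ) : ℂ) * (J 0 : ℂ) * (mu N φ 0 0 1 - (((N + 1) * e * e : ℝ) : ℂ))
  set T2 := ((-x ^ 2 : ℝ) : ℂ) * (J (-1) : ℂ) * mu N φ 0 1 1
  set T3 := ((x ^ 2 / 2 : ℝ) : ℂ) * (J 1 : ℂ) * mu N φ 0 0 2
  set T4 := ((-(x ^ 3 / 2) : ℝ) : ℂ) * (J (-2) : ℂ) * mu N φ 0 2 1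
  set T5 := ((x ^ 3 / 2 : ℝ) : ℂ) * (J 0 : ℂ) * mu N φ 0 1 2
  set T6 := ((-(x ^ 3 / 6) : ℝ) : ℂ) * (J 2 : ℂ) * mu N φ 0 0 3
  set T7 := ((-(x ^ 4 / 6) : ℝ) : ℂ) * (J (-3) : ℂ) * mu N φ 0 3 1
  set T8 := ((x ^ 4 / 4 : ℝ) : ℂ) * (J (-1) : ℂ) * mu N φ 0 2 2
  set T9 := ((-(x ^ 4 / 6) : ℝ) : ℂ) * (J 1 : ℂ) * mu N φ 0 1 3
  set T10 := ((x ^ 4 / 24 : ℝ) : ℂ) * (J 3 : ℂ) * mu N φ 0 0 4
  have hT : ‖T1 + T2 + T3 + T4 + T5 + T6 + T7 + T8 + T9 + T10‖ ≤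
      ‖T1‖ + ‖T2‖ + ‖T3‖ + ‖T4‖ + ‖T5‖ + ‖T6‖ + ‖T7‖ + ‖T8‖ + ‖T9‖ + ‖T10‖ := by
    refine (norm_add_le _ _).trans (add_le_add ?_ le_rfl)
    refine (norm_add_le _ _).trans (add_le_add ?_ le_rfl)
    refine (norm_add_le _ _).trans (add_le_add ?_ le_rfl)
    refine (norm_add_le _ _).trans (add_le_add ?_ le_rfl)
    refine (norm_add_le _ _).trans (add_le_add ?_ le_rfl)
    refine (norm_add_le _ _).trans (add_le_add ?_ le_rfl)
    refine (norm_add_le _ _).trans (add_le_add ?_ le_rfl)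
    refine (norm_add_le _ _).trans (add_le_add ?_ le_rfl)
    exact norm_add_le _ _
  set X := XX N ρ φ 0
  set c0 := ((J (-1) - x * J 0 * (N + 1) * e ^ 2 : ℝ) : ℂ)
  have hfin : ‖X - c0‖ ≤ ‖X - (c0 + (T1 + T2 + T3 + T4 + T5 + T6 + T7 + T8 + T9 + T10))‖ +
      ‖T1 + T2 + T3 + T4 + T5 + T6 + T7 + T8 + T9 + T10‖ := by
    refine le_trans (le_of_eq ?_) (norm_add_le _ _)
    congr 1
    ring
  refine hfin.trans ((add_le_add hX (hT.trans (add_le_add (add_le_add (add_le_add (add_le_add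
    (add_le_add (add_le_add (add_le_add (add_le_add (add_le_add t1 t2) t3) t4) t5) t6) t7) t8) t9)
    t10))).trans (le_of_eq ?_))
  unfold er0
  rw [hρx]
  simp only [Nat.factorial]
  push_cast
  ring

end SCHC
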