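import Pool.Agent.MP_83fd13_an.SCH.CertDat
import Pool.Agent.MP_83fd13_an.SCH.CertExp

/-!
# [SCH] certificate: the bound of `X_1`
-/

set_option autoImplicit false

open Metric Set MeasureTheory
open scoped RealInnerProductSpace NNReal ComplexConjugate

namespace SCHC

open SCHG

/-! ### The pairing -/

/-- the pairing of two functions on the circle -/
noncomputable def cb1_pr (F G : ℂ → ℂ) : ℂ := mn fun w => F w * conj (G w)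

theorem cb1_conj_cont {G : ℂ → ℂ} (hG : ContinuousOn G (sphere 0 1)) :
    ContinuousOn (fun w => conj (G w)) (sphere 0 1) :=
  Complex.continuous_conj.comp_continuousOn hG

theorem cb1_pr_congr {F F' G G' : ℂ → ℂ} (hF : ∀ w : ℂ, ‖w‖ = 1 → F w = F' w)
    (hG : ∀ w : ℂ, ‖w‖ = 1 → G w = G' w) : cb1_pr F G = cb1_pr F' G' := by
  unfold cb1_pr
  apply mn_congr
  intro w hw
  rw [hF w hw, hG w hw]

theorem cb1_pr_add_left {F1 F2 G : ℂ → ℂ} (h1 : ContinuousOn F1 (sphere 0 1))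
    (h2 : ContinuousOn F2 (sphere 0 1)) (hG : ContinuousOn G (sphere 0 1)) :
    cb1_pr (fun w => F1 w + F2 w) G = cb1_pr F1 G + cb1_pr F2 G := by
  unfold cb1_pr
  rw [← mn_add (F := fun w => F1 w * conj (G w)) (G := fun w => F2 w * conj (G w))
    (h1.mul (cb1_conj_cont hG)) (h2.mul (cb1_conj_cont hG))]
  apply mn_congr
  intro w _
  ring

theorem cb1_pr_add_right {F G1 G2 : ℂ → ℂ} (hF : ContinuousOn F (sphere 0 1))
    (h1 : ContinuousOn G1 (sphere 0 1)) (h2 : ContinuousOn G2 (sphere 0 1)) :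
    cb1_pr F (fun w => G1 w + G2 w) = cb1_pr F G1 + cb1_pr F G2 := by
  unfold cb1_pr
  rw [← mn_add (F := fun w => F w * conj (G1 w)) (G := fun w => F w * conj (G2 w))
    (hF.mul (cb1_conj_cont h1)) (hF.mul (cb1_conj_cont h2))]
  apply mn_congr
  intro w _
  rw [map_add]
  ring

theorem cb1_pr_symm (F G : ℂ → ℂ) : cb1_pr G F = conj (cb1_pr F G) := by
  unfold cb1_pr
  rw [← mn_conj]
  apply mn_congr
  intro w _
  rw [map_mul, Complex.conj_conj, mul_comm]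

theorem cb1_mono_cont (N j : ℕ) (c : ℂ) :
    ContinuousOn (fun w : ℂ => c * w ^ (N * j)) (sphere 0 1) :=
  (continuous_const.mul (continuous_pow _)).continuousOn

theorem cb1_pr_orth {N : ℕ} (hN : 0 < N) {F : ℂ → ℂ} {K : ℕ} {A : ℝ} (h : PS N F K A) {j : ℕ}
    (hj : j < K) (c : ℂ) : cb1_pr F (fun w => c * w ^ (N * j)) = 0 := by
  have h1 := PS.orth hN h hj
  unfold cb1_pr
  have h2 : mn (fun w => F w * conj (c * w ^ (N * j))) =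
      mn (fun w => conj c * (F w * conj (w ^ (N * j)))) := by
    apply mn_congr
    intro w _
    rw [map_mul]
    ring
  rw [h2, mn_const_mul, h1, mul_zero]

theorem cb1_pr_orth' {N : ℕ} (hN : 0 < N) {F : ℂ → ℂ} {K : ℕ} {A : ℝ} (h : PS N F K A) {j : ℕ}
    (hj : j < K) (c : ℂ) : cb1_pr (fun w => c * w ^ (N * j)) F = 0 := by
  rw [cb1_pr_symm F, cb1_pr_orth hN h hj, map_zero]

theorem cb1_pr_mono {N : ℕ} (hN : 0 < N) (i j : ℕ) (c d : ℂ) :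
    cb1_pr (fun w => c * w ^ (N * i)) (fun w => d * w ^ (N * j)) =
      if i = j then c * conj d else 0 := by
  have h1 := mn_pow_conj_pow hN i j
  unfold cb1_pr
  have h2 : mn (fun w => c * w ^ (N * i) * conj (d * w ^ (N * j))) =
      mn (fun w => (c * conj d) * (w ^ (N * i) * conj (w ^ (N * j)))) := by
    apply mn_congr
    intro w _
    rw [map_mul]
    ring
  rw [h2, mn_const_mul, h1]
  by_cases hij : i = j
  · rw [if_pos hij, if_pos hij, mul_one]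
  · rw [if_neg hij, if_neg hij, mul_zero]

theorem cb1_norm_pr_le {N : ℕ} {F G : ℂ → ℂ} {K L : ℕ} {A B : ℝ} (hF : PS N F K A)
    (hG : PS N G L B) : ‖cb1_pr F G‖ ≤ A * B :=
  PS.norm_mn_mul_conj_le hF hG

/-- pairing of two functions known up to order two -/
theorem cb1_pair2 {N : ℕ} (hN : 0 < N) {F G RF RG : ℂ → ℂ} {K L : ℕ} {A B : ℝ}
    (hF : PS N RF K A) (hG : PS N RG L B) (hK : 1 < K) (hL : 1 < L) (c d : ℂ)
    (h1 : ∀ w : ℂ, ‖w‖ = 1 → F w = c * w ^ (N * 1) + RF w)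
    (h2 : ∀ w : ℂ, ‖w‖ = 1 → G w = d * w ^ (N * 1) + RG w) :
    ‖cb1_pr F G - c * conj d‖ ≤ A * B := by
  have c1 := hF.continuousOn
  have c2 := hG.continuousOn
  have m3 : ContinuousOn (fun w => d * w ^ (N * 1) + RG w) (sphere 0 1) :=
    (cb1_mono_cont N 1 d).add c2
  have e1 : cb1_pr F G = c * conj d + cb1_pr RF RG := by
    rw [cb1_pr_congr h1 h2,
      cb1_pr_add_left (cb1_mono_cont N 1 c) c1 m3,
      cb1_pr_add_right (cb1_mono_cont N 1 c) (cb1_mono_cont N 1 d) c2,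
      cb1_pr_add_right c1 (cb1_mono_cont N 1 d) c2,
      cb1_pr_mono hN, cb1_pr_orth' hN hG hL, cb1_pr_orth hN hF hK, if_pos rfl]
    ring
  rw [e1, add_sub_cancel_left]
  exact cb1_norm_pr_le hF hG

/-- pairing of two functions known up to order three -/
theorem cb1_pair3 {N : ℕ} (hN : 0 < N) {F G RF RG : ℂ → ℂ} {K L : ℕ} {A B : ℝ}
    (hF : PS N RF K A) (hG : PS N RG L B) (hK : 2 < K) (hL : 2 < L) (c c' d d' : ℂ)
    (h1 : ∀ w : ℂ, ‖w‖ = 1 → F w = c * w ^ (N * 1) + (c' * w ^ (N * 2) + RF w))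
    (h2 : ∀ w : ℂ, ‖w‖ = 1 → G w = d * w ^ (N * 1) + (d' * w ^ (N * 2) + RG w)) :
    ‖cb1_pr F G - (c * conj d + c' * conj d')‖ ≤ A * B := by
  have c1 := hF.continuousOn
  have c2 := hG.continuousOn
  have m1 := cb1_mono_cont N 1 c
  have m2 := cb1_mono_cont N 2 c'
  have m3 := cb1_mono_cont N 1 d
  have m4 := cb1_mono_cont N 2 d'
  have m5 : ContinuousOn (fun w => c' * w ^ (N * 2) + RF w) (sphere 0 1) := m2.add c1
  have m6 : ContinuousOn (fun w => d' * w ^ (N * 2) + RG w) (sphere 0 1) := m4.add c2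
  have m7 : ContinuousOn (fun w => d * w ^ (N * 1) + (d' * w ^ (N * 2) + RG w)) (sphere 0 1) :=
    m3.add m6
  have e1 : cb1_pr F G = c * conj d + c' * conj d' + cb1_pr RF RG := by
    rw [cb1_pr_congr h1 h2,
      cb1_pr_add_left m1 m5 m7, cb1_pr_add_left m2 c1 m7,
      cb1_pr_add_right m1 m3 m6, cb1_pr_add_right m1 m4 c2,
      cb1_pr_add_right m2 m3 m6, cb1_pr_add_right m2 m4 c2,
      cb1_pr_add_right c1 m3 m6, cb1_pr_add_right c1 m4 c2,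
      cb1_pr_mono hN, cb1_pr_mono hN, cb1_pr_mono hN, cb1_pr_mono hN,
      cb1_pr_orth' hN hG (by omega : 1 < L), cb1_pr_orth' hN hG hL,
      cb1_pr_orth hN hF (by omega : 1 < K), cb1_pr_orth hN hF hK]
    simp [add_assoc]
  rw [e1, add_sub_cancel_left]
  exact cb1_norm_pr_le hF hG

/-! ### Power series attached to the data -/

section Data

variable {N : ℕ} {ρ : ℝ} {φ : ℕ → ℝ} {e g2 τ G3 Ga P2 : ℝ}

theorem Dat.psg3 (D : Dat N ρ φ e g2 τ G3 Ga P2) :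
    PS N (fun w => gg N φ w - (e : ℂ) * w ^ (N * 1) - (g2 : ℂ) * w ^ (N * 2)) 3 G3 := by
  have h := PS_gg3 N φ D.hs τ D.hτ
  have h1 : φ 1 / ((N : ℝ) + 1) = e := by
    rw [D.he]
    have : (N : ℝ) + 1 ≠ 0 := by positivity
    field_simp
  have h2 : φ 2 / (2 * (N : ℝ) + 1) = g2 := by
    rw [D.hg2]
    have : 2 * (N : ℝ) + 1 ≠ 0 := by positivity
    field_simp
  rw [h1, h2, ← D.hG3] at h
  exact h

theorem Dat.G3_nonneg (D : Dat N ρ φ e g2 τ G3 Ga P2) : 0 ≤ G3 := D.psg3.nonneg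

theorem Dat.psp3 (D : Dat N ρ φ e g2 τ G3 Ga P2) :
    PS N (fun w => pp N φ w - (φ 1 : ℂ) * w ^ (N * 1) - (φ 2 : ℂ) * w ^ (N * 2)) 3 τ :=
  PS_pp3 N φ D.hs τ D.hτ

/-- `g - e w^N` -/
theorem Dat.psg2 (D : Dat N ρ φ e g2 τ G3 Ga P2) :
    PS N (fun w => gg N φ w - (e : ℂ) * w ^ (N * 1)) 2 Ga := by
  have h := (PS.monomial N 2 (g2 : ℂ)).add (D.psg3.mono (by norm_num : 2 ≤ 3) le_rfl)
  have h1 : ‖(g2 : ℂ)‖ + G3 = Ga := by
    rw [D.hGa, Complex.norm_real, Real.norm_eq_abs]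
  rw [h1] at h
  refine h.congr (fun w _ => ?_)
  ring

theorem Dat.Ga_nonneg (D : Dat N ρ φ e g2 τ G3 Ga P2) : 0 ≤ Ga := D.psg2.nonneg

/-- `g` -/
theorem Dat.psg (D : Dat N ρ φ e g2 τ G3 Ga P2) : PS N (gg N φ) 1 (e + Ga) := by
  have h := (PS.monomial N 1 (e : ℂ)).add (D.psg2.mono (by norm_num : 1 ≤ 2) le_rfl)
  have h1 : ‖(e : ℂ)‖ + Ga = e + Ga := by
    rw [Complex.norm_real, Real.norm_eq_abs, abs_of_nonneg D.he0]
  rw [h1] at h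
  refine h.congr (fun w _ => ?_)
  ring

/-- `p - φ_1 w^N` -/
theorem Dat.psp2 (D : Dat N ρ φ e g2 τ G3 Ga P2) :
    PS N (fun w => pp N φ w - (φ 1 : ℂ) * w ^ (N * 1)) 2 P2 := by
  have h := (PS.monomial N 2 (φ 2 : ℂ)).add (D.psp3.mono (by norm_num : 2 ≤ 3) le_rfl)
  have h1 : ‖(φ 2 : ℂ)‖ + τ = P2 := by
    rw [D.hP2, Complex.norm_real, Real.norm_eq_abs, D.hg2, abs_mul,
      abs_of_nonneg (by positivity : (0 : ℝ) ≤ 2 * (N : ℝ) + 1)]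
  rw [h1] at h
  refine h.congr (fun w _ => ?_)
  ring

theorem Dat.P2_nonneg (D : Dat N ρ φ e g2 τ G3 Ga P2) : 0 ≤ P2 := D.psp2.nonneg

/-- `p` -/
theorem Dat.psp (D : Dat N ρ φ e g2 τ G3 Ga P2) : PS N (pp N φ) 1 ((N + 1) * e + P2) := by
  have h := (PS.monomial N 1 (φ 1 : ℂ)).add (D.psp2.mono (by norm_num : 1 ≤ 2) le_rfl)
  have h1 : ‖(φ 1 : ℂ)‖ + P2 = (N + 1) * e + P2 := by
    rw [Complex.norm_real, Real.norm_eq_abs, D.he,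
      abs_of_nonneg (mul_nonneg (by positivity) D.he0)]
  rw [h1] at h
  refine h.congr (fun w _ => ?_)
  ring

/-- `1 + p` -/
theorem Dat.ps1p (D : Dat N ρ φ e g2 τ G3 Ga P2) :
    PS N (fun w => 1 + pp N φ w) 0 (1 + ((N + 1) * e + P2)) := by
  have h := (PS.monomial N 0 (1 : ℂ)).add (D.psp.mono (by norm_num : 0 ≤ 1) le_rfl)
  rw [norm_one] at h
  refine h.congr (fun w _ => ?_)
  simp

theorem cb1_psw (N j : ℕ) : PS N (fun w => w ^ (N * j)) j 1 := by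
  have h := PS.monomial N j (1 : ℂ)
  rw [norm_one] at h
  refine h.congr (fun w _ => ?_)
  rw [one_mul]

/-- the left factors: `w^N (1 + p) g^a` -/
theorem Dat.psF (D : Dat N ρ φ e g2 τ G3 Ga P2) (a : ℕ) :
    PS N (fun w => w ^ (N * 1) * (1 + pp N φ w) * gg N φ w ^ a) (1 + a)
      ((1 + ((N + 1) * e + P2)) * (e + Ga) ^ a) := by
  have h := ((cb1_psw N 1).mul D.ps1p).mul (D.psg.pow a)
  have h1 : 1 + 0 + 1 * a = 1 + a := by ring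
  have h2 : (1 : ℝ) * (1 + ((N + 1) * e + P2)) = 1 + ((N + 1) * e + P2) := one_mul _
  rw [h1, h2] at h
  exact h

/-- `w^N (p - φ_1 w^N)` -/
theorem Dat.psF0 (D : Dat N ρ φ e g2 τ G3 Ga P2) :
    PS N (fun w => w ^ (N * 1) * (pp N φ w - (φ 1 : ℂ) * w ^ (N * 1))) 3 P2 := by
  have h := (cb1_psw N 1).mul D.psp2
  rw [one_mul] at h
  exact h

theorem Dat.F0_eq (w : ℂ) : w ^ (N * 1) * (1 + pp N φ w) * gg N φ w ^ 0 =
    1 * w ^ (N * 1) + ((φ 1 : ℂ) * w ^ (N * 2) +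
      w ^ (N * 1) * (pp N φ w - (φ 1 : ℂ) * w ^ (N * 1))) := by
  have h : w ^ (N * 2) = w ^ (N * 1) * w ^ (N * 1) := by
    rw [← pow_add]
    congr 1
    ring
  rw [h, pow_zero]
  ring

/-- the part of order three of `w^N (1 + p) g` -/
theorem Dat.psF1 (D : Dat N ρ φ e g2 τ G3 Ga P2) :
    PS N (fun w => (e : ℂ) * w ^ (N * 2) * pp N φ w +
      w ^ (N * 1) * (1 + pp N φ w) * (gg N φ w - (e : ℂ) * w ^ (N * 1))) 3
      (e * ((N + 1) * e + P2) + (1 + ((N + 1) * e + P2)) * Ga) := by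
  have h1 := (PS.monomial N 2 (e : ℂ)).mul D.psp
  have h2 := ((cb1_psw N 1).mul D.ps1p).mul D.psg2
  have h := h1.add h2
  have h3 : ‖(e : ℂ)‖ = e := by
    rw [Complex.norm_real, Real.norm_eq_abs, abs_of_nonneg D.he0]
  rw [h3, one_mul] at h
  exact h

theorem Dat.F1_eq (w : ℂ) : w ^ (N * 1) * (1 + pp N φ w) * gg N φ w ^ 1 =
    0 * w ^ (N * 1) + ((e : ℂ) * w ^ (N * 2) + ((e : ℂ) * w ^ (N * 2) * pp N φ w +
      w ^ (N * 1) * (1 + pp N φ w) * (gg N φ w - (e : ℂ) * w ^ (N * 1)))) := by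
  have h : w ^ (N * 2) = w ^ (N * 1) * w ^ (N * 1) := by
    rw [← pow_add]
    congr 1
    ring
  rw [h, pow_one]
  ring

/-- the part of order three of `g²` -/
theorem Dat.psG2 (D : Dat N ρ φ e g2 τ G3 Ga P2) :
    PS N (fun w => 2 * (e : ℂ) * w ^ (N * 1) * (gg N φ w - (e : ℂ) * w ^ (N * 1)) +
      (gg N φ w - (e : ℂ) * w ^ (N * 1)) ^ 2) 3 (2 * e * Ga + Ga ^ 2) := by
  have h1 := (PS.monomial N 1 (2 * (e : ℂ))).mul D.psg2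
  have h2 := (D.psg2.pow 2).mono (by norm_num : 3 ≤ 2 * 2) le_rfl
  have h := h1.add h2
  have h3 : ‖2 * (e : ℂ)‖ = 2 * e := by
    rw [norm_mul, Complex.norm_real, Real.norm_eq_abs, abs_of_nonneg D.he0]
    norm_num
  rw [h3] at h
  exact h

theorem Dat.G2_eq (w : ℂ) : gg N φ w ^ 2 = 0 * w ^ (N * 1) + (((e : ℂ) ^ 2) * w ^ (N * 2) +
    (2 * (e : ℂ) * w ^ (N * 1) * (gg N φ w - (e : ℂ) * w ^ (N * 1)) +
      (gg N φ w - (e : ℂ) * w ^ (N * 1)) ^ 2)) := by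
  have h : w ^ (N * 2) = w ^ (N * 1) * w ^ (N * 1) := by
    rw [← pow_add]
    congr 1
    ring
  rw [h]
  ring

theorem Dat.psGb (D : Dat N ρ φ e g2 τ G3 Ga P2) (b : ℕ) :
    PS N (fun w => gg N φ w ^ b) b ((e + Ga) ^ b) := by
  have h := D.psg.pow b
  rw [one_mul] at h
  exact h

theorem cb1_mu_eq (N : ℕ) (φ : ℕ → ℝ) (κ a b : ℕ) :
    mu N φ κ a b = cb1_pr (fun w => w ^ (N * κ) * (1 + pp N φ w) * gg N φ w ^ a)
      (fun w => gg N φ w ^ b) := by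
  unfold mu cb1_pr
  apply mn_congr
  intro w _
  rw [map_pow]

/-! ### The coefficients `mu` for `κ = 1` -/

theorem Dat.mu_a0 (D : Dat N ρ φ e g2 τ G3 Ga P2) (a : ℕ) : mu N φ 1 a 0 = 0 := by
  rw [cb1_mu_eq]
  have h := cb1_pr_orth D.hN (D.psF a) (j := 0) (by omega) 1
  rw [← h]
  apply cb1_pr_congr (fun w _ => rfl)
  intro w _
  simp

theorem Dat.mu_01 (D : Dat N ρ φ e g2 τ G3 Ga P2) :
    ‖mu N φ 1 0 1 - (e : ℂ)‖ ≤ ((N + 1) * e + P2) * Ga := by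
  rw [cb1_mu_eq]
  have h1 : PS N (fun w => w ^ (N * 1) * pp N φ w) 2 ((N + 1) * e + P2) := by
    have h := (cb1_psw N 1).mul D.psp
    rw [one_mul] at h
    exact h
  have h := cb1_pair2 D.hN (F := fun w => w ^ (N * 1) * (1 + pp N φ w) * gg N φ w ^ 0)
    (G := fun w => gg N φ w ^ 1) h1 D.psg2 (by norm_num) (by norm_num) 1 (e : ℂ)
    (by intro w _; ring) (by intro w _; ring)
  rw [Complex.conj_ofReal, one_mul] at h
  exact h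

theorem Dat.mu_11 (D : Dat N ρ φ e g2 τ G3 Ga P2) :
    ‖mu N φ 1 1 1 - (e : ℂ) * (g2 : ℂ)‖ ≤
      (e * ((N + 1) * e + P2) + (1 + ((N + 1) * e + P2)) * Ga) * G3 := by
  rw [cb1_mu_eq]
  have h := cb1_pair3 D.hN (F := fun w => w ^ (N * 1) * (1 + pp N φ w) * gg N φ w ^ 1)
    (G := fun w => gg N φ w ^ 1) D.psF1 D.psg3 (by norm_num) (by norm_num) 0 (e : ℂ) (e : ℂ)
    (g2 : ℂ) (fun w _ => Dat.F1_eq w) (by intro w _; ring)
  rw [Complex.conj_ofReal, zero_mul, zero_add, Complex.conj_ofReal] at h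
  exact h

theorem Dat.mu_a1 (D : Dat N ρ φ e g2 τ G3 Ga P2) (a : ℕ) (ha : 2 ≤ a) :
    ‖mu N φ 1 a 1‖ ≤ (1 + ((N + 1) * e + P2)) * (e + Ga) ^ a * G3 := by
  rw [cb1_mu_eq]
  have h := cb1_pair3 D.hN (F := fun w => w ^ (N * 1) * (1 + pp N φ w) * gg N φ w ^ a)
    (G := fun w => gg N φ w ^ 1) (D.psF a) D.psg3 (by omega) (by norm_num) 0 0 (e : ℂ)
    (g2 : ℂ) (by intro w _; ring) (by intro w _; ring)
  rw [zero_mul, zero_add, zero_mul, sub_zero] at h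
  exact h

theorem Dat.mu_02 (D : Dat N ρ φ e g2 τ G3 Ga P2) :
    ‖mu N φ 1 0 2 - (((N : ℝ) + 1 : ℝ) : ℂ) * (e : ℂ) ^ 3‖ ≤ P2 * (2 * e * Ga + Ga ^ 2) := by
  rw [cb1_mu_eq]
  have h := cb1_pair3 D.hN (F := fun w => w ^ (N * 1) * (1 + pp N φ w) * gg N φ w ^ 0)
    (G := fun w => gg N φ w ^ 2) D.psF0 D.psG2 (by norm_num) (by norm_num) 1 (φ 1 : ℂ) 0
    ((e : ℂ) ^ 2) (fun w _ => Dat.F0_eq w) (fun w _ => Dat.G2_eq w)
  have h1 : (1 : ℂ) * conj (0 : ℂ) + (φ 1 : ℂ) * conj ((e : ℂ) ^ 2) =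
      (((N : ℝ) + 1 : ℝ) : ℂ) * (e : ℂ) ^ 3 := by
    rw [map_zero, map_pow, Complex.conj_ofReal, D.he]
    push_cast
    ring
  rw [h1] at h
  exact h

theorem Dat.mu_12 (D : Dat N ρ φ e g2 τ G3 Ga P2) :
    ‖mu N φ 1 1 2‖ ≤ (1 + ((N + 1) * e + P2)) * (e + Ga) ^ 3 := by
  rw [cb1_mu_eq]
  have h := cb1_norm_pr_le (D.psF 1) (D.psGb 2)
  refine h.trans (le_of_eq ?_)
  ring

theorem Dat.mu_22 (D : Dat N ρ φ e g2 τ G3 Ga P2) :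
    ‖mu N φ 1 2 2‖ ≤ (1 + ((N + 1) * e + P2)) * (e + Ga) ^ 2 * (2 * e * Ga + Ga ^ 2) := by
  rw [cb1_mu_eq]
  have h := cb1_pair3 D.hN (F := fun w => w ^ (N * 1) * (1 + pp N φ w) * gg N φ w ^ 2)
    (G := fun w => gg N φ w ^ 2) (D.psF 2) D.psG2 (by norm_num) (by norm_num) 0 0 0
    ((e : ℂ) ^ 2) (by intro w _; ring) (fun w _ => Dat.G2_eq w)
  rw [zero_mul, zero_add, zero_mul, sub_zero] at h
  exact h

theorem Dat.mu_0b (D : Dat N ρ φ e g2 τ G3 Ga P2) (b : ℕ) (hb : 3 ≤ b) :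
    ‖mu N φ 1 0 b‖ ≤ P2 * (e + Ga) ^ b := by
  rw [cb1_mu_eq]
  have h := cb1_pair3 D.hN (F := fun w => w ^ (N * 1) * (1 + pp N φ w) * gg N φ w ^ 0)
    (G := fun w => gg N φ w ^ b) D.psF0 (D.psGb b) (by norm_num) (by omega) 1 (φ 1 : ℂ) 0 0
    (fun w _ => Dat.F0_eq w) (by intro w _; ring)
  rw [map_zero, mul_zero, mul_zero, add_zero, sub_zero] at h
  exact h

theorem Dat.mu_1b (D : Dat N ρ φ e g2 τ G3 Ga P2) (b : ℕ) (hb : 3 ≤ b) :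
    ‖mu N φ 1 1 b‖ ≤ (e * ((N + 1) * e + P2) + (1 + ((N + 1) * e + P2)) * Ga) * (e + Ga) ^ b := by
  rw [cb1_mu_eq]
  have h := cb1_pair3 D.hN (F := fun w => w ^ (N * 1) * (1 + pp N φ w) * gg N φ w ^ 1)
    (G := fun w => gg N φ w ^ b) D.psF1 (D.psGb b) (by norm_num) (by omega) 0 (e : ℂ) 0 0
    (fun w _ => Dat.F1_eq w) (by intro w _; ring)
  rw [map_zero, mul_zero, mul_zero, add_zero, sub_zero] at h
  exact h

end Data

/-- the norm of a term -/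
theorem cb1_term (r : ℝ) (z : ℂ) {a b : ℝ} (hr : |r| ≤ a) (hz : ‖z‖ ≤ b) :
    ‖(r : ℂ) * z‖ ≤ a * b := by
  rw [norm_mul, Complex.norm_real, Real.norm_eq_abs]
  exact mul_le_mul hr hz (norm_nonneg _) ((abs_nonneg _).trans hr)

theorem cb1_coef (x J j c : ℝ) (n : ℕ) (hx : 0 ≤ x) (hc : 0 ≤ c) (hJ : |J| ≤ j) :
    |c * x ^ n * J| ≤ c * x ^ n * j := by
  rw [abs_mul, abs_of_nonneg (mul_nonneg hc (pow_nonneg hx n))]
  exact mul_le_mul_of_nonneg_left hJ (mul_nonneg hc (pow_nonneg hx n))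

theorem X1_bound (N : ℕ) (ρ : ℝ) (φ : ℕ → ℝ) (e g2 τ G3 Ga P2 : ℝ)
    (D : Dat N ρ φ e g2 τ G3 Ga P2) (J : ℤ → ℝ) (hJ : ∀ k, Jc ρ k = (J k : ℂ)) (j0 j1 j : ℝ)
    (h0 : |J N| ≤ j0) (h1 : |J (N - 1)| ≤ j1) (h2 : |J (N + 1)| ≤ j1) (h3 : |J (N - 2)| ≤ j)
    (h4 : |J (N + 2)| ≤ j) (h5 : |J (N - 3)| ≤ j) (h6 : |J (N + 3)| ≤ j) :
    ‖XX N ρ φ 1 - ((-(ρ / 2) * J N * e + (N + 1) / 2 * (ρ / 2) ^ 2 * J (N + 1) * e ^ 3 -
      (ρ / 2) ^ 2 * J (N - 1) * e * g2 : ℝ) : ℂ)‖ ≤ er1 N (ρ / 2) e Ga G3 P2 j0 j1 j := by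
  have hρ := D.hρ
  have hE : ∀ w : ℂ, ‖w‖ = 1 → ‖gg N φ w‖ ≤ e + Ga := fun w hw => D.psg.norm_le hw
  have hP : ∀ w : ℂ, ‖w‖ = 1 → ‖pp N φ w‖ ≤ (N + 1) * e + P2 := fun w hw => D.psp.norm_le hw
  have hX := XX_expand N ρ hρ.le φ D.hs 1 (e + Ga) ((N + 1) * e + P2) hE hP D.hsm 5 (by norm_num)
  set x : ℝ := ρ / 2 with hx
  have hx0 : 0 ≤ x := by positivity
  have hρx : ρ = 2 * x := by rw [hx]; ring
  set T : ℂ := ∑ m ∈ Finset.range 5, ∑ b ∈ Finset.range (m + 1),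
      (((-1) ^ b * (x ^ m / ((m - b).factorial * b.factorial)) : ℝ) : ℂ) *
        Jc ρ (((N * 1 : ℕ) : ℤ) - 1 - m + 2 * b) * mu N φ 1 (m - b) b with hT
  have hN0 : ((N * 1 : ℕ) : ℤ) = (N : ℤ) := by push_cast; ring
  -- the terms of the sum
  have hTe : T = ((-(1 * x ^ 1 * J N) : ℝ) : ℂ) * mu N φ 1 0 1 +
      ((-(1 * x ^ 2 * J (N - 1)) : ℝ) : ℂ) * mu N φ 1 1 1 +
      ((1 / 2 * x ^ 2 * J (N + 1) : ℝ) : ℂ) * mu N φ 1 0 2 +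
      ((-(1 / 2 * x ^ 3 * J (N - 2)) : ℝ) : ℂ) * mu N φ 1 2 1 +
      ((1 / 2 * x ^ 3 * J N : ℝ) : ℂ) * mu N φ 1 1 2 +
      ((-(1 / 6 * x ^ 3 * J (N + 2)) : ℝ) : ℂ) * mu N φ 1 0 3 +
      ((-(1 / 6 * x ^ 4 * J (N - 3)) : ℝ) : ℂ) * mu N φ 1 3 1 +
      ((1 / 4 * x ^ 4 * J (N - 1) : ℝ) : ℂ) * mu N φ 1 2 2 +
      ((-(1 / 6 * x ^ 4 * J (N + 1)) : ℝ) : ℂ) * mu N φ 1 1 3 +
      ((1 / 24 * x ^ 4 * J (N + 3) : ℝ) : ℂ) * mu N φ 1 0 4 := by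
    rw [hT]
    simp only [Finset.sum_range_succ, Finset.sum_range_zero, zero_add, hN0]
    simp only [Nat.sub_self, Nat.sub_zero, Nat.reduceSub, D.mu_a0, mul_zero, zero_add, hJ]
    have i1 : ((N : ℤ) - 1 - ((1 : ℕ) : ℤ) + 2 * ((1 : ℕ) : ℤ)) = N := by push_cast; ring
    have i2 : ((N : ℤ) - 1 - ((2 : ℕ) : ℤ) + 2 * ((1 : ℕ) : ℤ)) = N - 1 := by push_cast; ring
    have i3 : ((N : ℤ) - 1 - ((2 : ℕ) : ℤ) + 2 * ((2 : ℕ) : ℤ)) = N + 1 := by push_cast; ring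
    have i4 : ((N : ℤ) - 1 - ((3 : ℕ) : ℤ) + 2 * ((1 : ℕ) : ℤ)) = N - 2 := by push_cast; ring
    have i5 : ((N : ℤ) - 1 - ((3 : ℕ) : ℤ) + 2 * ((2 : ℕ) : ℤ)) = N := by push_cast; ring
    have i6 : ((N : ℤ) - 1 - ((3 : ℕ) : ℤ) + 2 * ((3 : ℕ) : ℤ)) = N + 2 := by push_cast; ring
    have i7 : ((N : ℤ) - 1 - ((4 : ℕ) : ℤ) + 2 * ((1 : ℕ) : ℤ)) = N - 3 := by push_cast; ring
    have i8 : ((N : ℤ) - 1 - ((4 : ℕ) : ℤ) + 2 * ((2 : ℕ) : ℤ)) = N - 1 := by push_cast; ring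
    have i9 : ((N : ℤ) - 1 - ((4 : ℕ) : ℤ) + 2 * ((3 : ℕ) : ℤ)) = N + 1 := by push_cast; ring
    have i10 : ((N : ℤ) - 1 - ((4 : ℕ) : ℤ) + 2 * ((4 : ℕ) : ℤ)) = N + 3 := by push_cast; ring
    simp only [i1, i2, i3, i4, i5, i6, i7, i8, i9, i10]
    simp only [Nat.factorial]
    push_cast
    ring
  -- the difference with the main term
  have hD : T - ((-x * J N * e + (N + 1) / 2 * x ^ 2 * J (N + 1) * e ^ 3 -
      x ^ 2 * J (N - 1) * e * g2 : ℝ) : ℂ) =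
      ((-(1 * x ^ 1 * J N) : ℝ) : ℂ) * (mu N φ 1 0 1 - (e : ℂ)) +
      ((-(1 * x ^ 2 * J (N - 1)) : ℝ) : ℂ) * (mu N φ 1 1 1 - (e : ℂ) * (g2 : ℂ)) +
      ((1 / 2 * x ^ 2 * J (N + 1) : ℝ) : ℂ) *
        (mu N φ 1 0 2 - (((N : ℝ) + 1 : ℝ) : ℂ) * (e : ℂ) ^ 3) +
      ((-(1 / 2 * x ^ 3 * J (N - 2)) : ℝ) : ℂ) * mu N φ 1 2 1 +
      ((1 / 2 * x ^ 3 * J N : ℝ) : ℂ) * mu N φ 1 1 2 +
      ((-(1 / 6 * x ^ 3 * J (N + 2)) : ℝ) : ℂ) * mu N φ 1 0 3 +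
      ((-(1 / 6 * x ^ 4 * J (N - 3)) : ℝ) : ℂ) * mu N φ 1 3 1 +
      ((1 / 4 * x ^ 4 * J (N - 1) : ℝ) : ℂ) * mu N φ 1 2 2 +
      ((-(1 / 6 * x ^ 4 * J (N + 1)) : ℝ) : ℂ) * mu N φ 1 1 3 +
      ((1 / 24 * x ^ 4 * J (N + 3) : ℝ) : ℂ) * mu N φ 1 0 4 := by
    rw [hTe]
    push_cast
    ring
  have hneg : ∀ c J' j' : ℝ, ∀ n : ℕ, 0 ≤ c → |J'| ≤ j' →
      |-(c * x ^ n * J')| ≤ c * x ^ n * j' := by
    intro c J' j' n hc hJ'
    rw [abs_neg]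
    exact cb1_coef x J' j' c n hx0 hc hJ'
  have hpos : ∀ c J' j' : ℝ, ∀ n : ℕ, 0 ≤ c → |J'| ≤ j' →
      |c * x ^ n * J'| ≤ c * x ^ n * j' := by
    intro c J' j' n hc hJ'
    exact cb1_coef x J' j' c n hx0 hc hJ'
  have t1 := cb1_term _ _ (hneg 1 (J N) j0 1 (by norm_num) h0) D.mu_01
  have t2 := cb1_term _ _ (hneg 1 (J (N - 1)) j1 2 (by norm_num) h1) D.mu_11
  have t3 := cb1_term _ _ (hpos (1 / 2) (J (N + 1)) j1 2 (by norm_num) h2) D.mu_02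
  have t4 := cb1_term _ _ (hneg (1 / 2) (J (N - 2)) j 3 (by norm_num) h3) (D.mu_a1 2 le_rfl)
  have t5 := cb1_term _ _ (hpos (1 / 2) (J N) j0 3 (by norm_num) h0) D.mu_12
  have t6 := cb1_term _ _ (hneg (1 / 6) (J (N + 2)) j 3 (by norm_num) h4) (D.mu_0b 3 le_rfl)
  have t7 := cb1_term _ _ (hneg (1 / 6) (J (N - 3)) j 4 (by norm_num) h5)
    (D.mu_a1 3 (by norm_num))
  have t8 := cb1_term _ _ (hpos (1 / 4) (J (N - 1)) j1 4 (by norm_num) h1) D.mu_22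
  have t9 := cb1_term _ _ (hneg (1 / 6) (J (N + 1)) j1 4 (by norm_num) h2) (D.mu_1b 3 le_rfl)
  have t10 := cb1_term _ _ (hpos (1 / 24) (J (N + 3)) j 4 (by norm_num) h6)
    (D.mu_0b 4 (by norm_num))
  have hDn := norm_add_le_of_le (norm_add_le_of_le (norm_add_le_of_le (norm_add_le_of_le
      (norm_add_le_of_le (norm_add_le_of_le (norm_add_le_of_le (norm_add_le_of_le
      (norm_add_le_of_le t1 t2) t3) t4) t5) t6) t7) t8) t9) t10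
  rw [← hD] at hDn
  have hfin := norm_add_le_of_le hX hDn
  have e1 : XX N ρ φ 1 - T + (T - ((-x * J N * e + (N + 1) / 2 * x ^ 2 * J (N + 1) * e ^ 3 -
      x ^ 2 * J (N - 1) * e * g2 : ℝ) : ℂ)) = XX N ρ φ 1 -
      ((-x * J N * e + (N + 1) / 2 * x ^ 2 * J (N + 1) * e ^ 3 -
      x ^ 2 * J (N - 1) * e * g2 : ℝ) : ℂ) := by ring
  rw [e1] at hfin
  refine hfin.trans (le_of_eq ?_)
  unfold er1
  rw [hρx]
  simp only [Nat.factorial]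
  push_cast
  ring

end SCHC
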