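import Pool.Agent.MP_83fd13_an.SCH.CertDat
import Pool.Agent.MP_83fd13_an.SCH.CertExp

/-!
# [SCH] certificate: bounds for `Y_0` and `Y_1` (row SCC-BY)
-/

set_option autoImplicit false

open Metric Set MeasureTheory
open scoped RealInnerProductSpace NNReal ComplexConjugate

namespace SCHC

open SCHG

/-! ### the expansion with three terms -/

theorem cby_sum3 (x : ℝ) (f : ℤ → ℂ) (n : ℤ) (g : ℂ) :
    ∑ m ∈ Finset.range 3, ∑ b ∈ Finset.range (m + 1),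
      (((-1) ^ b * (x ^ m / ((m - b).factorial * b.factorial)) : ℝ) : ℂ) *
        f (n - 1 - m + 2 * b) * (g ^ (m - b) * conj g ^ b) =
    f (n - 1) + (x : ℂ) * (f (n - 2) * g - f n * conj g) +
      ((x : ℂ) ^ 2 / 2 * f (n - 3) * g ^ 2 - (x : ℂ) ^ 2 * f (n - 1) * (g * conj g) +
        (x : ℂ) ^ 2 / 2 * f (n + 1) * conj g ^ 2) := by
  have e10 : n - 1 - ((0 : ℕ) : ℤ) + 2 * ((0 : ℕ) : ℤ) = n - 1 := by push_cast; ring
  have e20 : n - 1 - ((1 : ℕ) : ℤ) + 2 * ((0 : ℕ) : ℤ) = n - 2 := by push_cast; ring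
  have e21 : n - 1 - ((1 : ℕ) : ℤ) + 2 * ((1 : ℕ) : ℤ) = n := by push_cast; ring
  have e30 : n - 1 - ((2 : ℕ) : ℤ) + 2 * ((0 : ℕ) : ℤ) = n - 3 := by push_cast; ring
  have e31 : n - 1 - ((2 : ℕ) : ℤ) + 2 * ((1 : ℕ) : ℤ) = n - 1 := by push_cast; ring
  have e32 : n - 1 - ((2 : ℕ) : ℤ) + 2 * ((2 : ℕ) : ℤ) = n + 1 := by push_cast; ring
  simp only [Finset.sum_range_succ, Finset.sum_range_zero, zero_add, e10, e20, e21, e30, e31, e32]
  simp only [Nat.factorial, Nat.sub_zero, Nat.sub_self, pow_zero, pow_one, Nat.cast_one,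
    mul_one, one_mul, Nat.succ_eq_add_one, zero_add]
  norm_num [Nat.factorial]
  ring

theorem cby_KK (ρ : ℝ) (hρ : 0 ≤ ρ) (J : ℤ → ℝ) (hJ : ∀ k, Jc ρ k = (J k : ℂ)) (n : ℤ) (g : ℂ)
    (hg : ρ * ‖g‖ ≤ 1) :
    ‖KK ρ n g - ((J (n - 1) : ℂ) + ((ρ / 2 : ℝ) : ℂ) * ((J (n - 2) : ℂ) * g -
      (J n : ℂ) * conj g))‖ ≤
      (ρ / 2) ^ 2 * ‖g‖ ^ 2 * (|J (n - 3)| / 2 + |J (n - 1)| + |J (n + 1)| / 2) +
        (ρ * ‖g‖) ^ 3 * (2 / 9) := by
  have h1 := KK_expand ρ hρ n g hg 3 (by norm_num)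
  rw [cby_sum3 (ρ / 2) (Jc ρ) n g] at h1
  simp only [hJ] at h1
  have h2 : ((3 : ℕ) + 1 : ℝ) / ((3 : ℕ).factorial * (3 : ℕ) : ℝ) = 2 / 9 := by
    norm_num [Nat.factorial]
  rw [h2] at h1
  set x : ℝ := ρ / 2 with hx
  have hx0 : 0 ≤ x := by positivity
  set Q : ℂ := (x : ℂ) ^ 2 / 2 * (J (n - 3) : ℂ) * g ^ 2 - (x : ℂ) ^ 2 * (J (n - 1) : ℂ) *
    (g * conj g) + (x : ℂ) ^ 2 / 2 * (J (n + 1) : ℂ) * conj g ^ 2 with hQ
  have hQn : ‖Q‖ ≤ x ^ 2 * ‖g‖ ^ 2 * (|J (n - 3)| / 2 + |J (n - 1)| + |J (n + 1)| / 2) := by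
    have a1 : ‖(x : ℂ) ^ 2 / 2 * (J (n - 3) : ℂ) * g ^ 2‖ = x ^ 2 * ‖g‖ ^ 2 * (|J (n - 3)| / 2) := by
      rw [norm_mul, norm_mul, norm_div, norm_pow, norm_pow, Complex.norm_real, Complex.norm_real,
        Real.norm_eq_abs, Real.norm_eq_abs, abs_of_nonneg hx0]
      norm_num
      ring
    have a2 : ‖(x : ℂ) ^ 2 * (J (n - 1) : ℂ) * (g * conj g)‖ = x ^ 2 * ‖g‖ ^ 2 * |J (n - 1)| := by
      rw [norm_mul, norm_mul, norm_mul, norm_pow, Complex.norm_real, Complex.norm_real,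
        Real.norm_eq_abs, Real.norm_eq_abs, abs_of_nonneg hx0, Complex.norm_conj]
      ring
    have a3 : ‖(x : ℂ) ^ 2 / 2 * (J (n + 1) : ℂ) * conj g ^ 2‖ =
        x ^ 2 * ‖g‖ ^ 2 * (|J (n + 1)| / 2) := by
      rw [norm_mul, norm_mul, norm_div, norm_pow, norm_pow, Complex.norm_real, Complex.norm_real,
        Real.norm_eq_abs, Real.norm_eq_abs, abs_of_nonneg hx0, Complex.norm_conj]
      norm_num
      ring
    rw [hQ]
    refine (norm_add_le _ _).trans ?_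
    refine (add_le_add_left (norm_sub_le _ _) _).trans ?_
    rw [a1, a2, a3]
    apply le_of_eq
    ring
  have h3 : KK ρ n g - ((J (n - 1) : ℂ) + (x : ℂ) * ((J (n - 2) : ℂ) * g - (J n : ℂ) * conj g)) =
      (KK ρ n g - ((J (n - 1) : ℂ) + (x : ℂ) * ((J (n - 2) : ℂ) * g - (J n : ℂ) * conj g) + Q)) +
        Q := by ring
  rw [h3]
  refine (norm_add_le _ _).trans ?_
  linarith

/-! ### the data -/

theorem cby_gg2 {N : ℕ} {ρ : ℝ} {φ : ℕ → ℝ} {e g2 τ G3 Ga P2 : ℝ}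
    (D : Dat N ρ φ e g2 τ G3 Ga P2) :
    PS N (fun w => gg N φ w - (e : ℂ) * w ^ (N * 1)) 2 Ga := by
  have h1 := PS_gg3 N φ D.hs τ D.hτ
  have hN : (N : ℝ) + 1 ≠ 0 := by positivity
  have hN2 : 2 * (N : ℝ) + 1 ≠ 0 := by positivity
  have e1 : φ 1 / ((N : ℝ) + 1) = e := by rw [D.he]; field_simp
  have e2 : φ 2 / (2 * (N : ℝ) + 1) = g2 := by rw [D.hg2]; field_simp
  rw [e1, e2, ← D.hG3] at h1
  have h2 := PS.monomial N 2 (g2 : ℂ)
  have h3 := (h1.mono (K' := 2) (by norm_num) le_rfl).add h2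
  have h4 : G3 + ‖(g2 : ℂ)‖ = Ga := by
    rw [Complex.norm_real, Real.norm_eq_abs, D.hGa]; ring
  rw [h4] at h3
  refine h3.congr ?_
  intro w _
  ring

theorem cby_gg1 {N : ℕ} {ρ : ℝ} {φ : ℕ → ℝ} {e g2 τ G3 Ga P2 : ℝ}
    (D : Dat N ρ φ e g2 τ G3 Ga P2) : PS N (gg N φ) 1 (e + Ga) := by
  have h3 := ((cby_gg2 D).mono (K' := 1) (by norm_num) le_rfl).add (PS.monomial N 1 (e : ℂ))
  have h4 : Ga + ‖(e : ℂ)‖ = e + Ga := by
    rw [Complex.norm_real, Real.norm_eq_abs, abs_of_nonneg D.he0]; ring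
  rw [h4] at h3
  refine h3.congr ?_
  intro w _
  ring

theorem cby_pp1 {N : ℕ} {ρ : ℝ} {φ : ℕ → ℝ} {e g2 τ G3 Ga P2 : ℝ}
    (D : Dat N ρ φ e g2 τ G3 Ga P2) : PS N (pp N φ) 1 ((N + 1) * e + P2) := by
  have h1 := PS_pp3 N φ D.hs τ D.hτ
  have h3 := ((h1.mono (K' := 1) (by norm_num) le_rfl).add
    ((PS.monomial N 2 (φ 2 : ℂ)).mono (K' := 1) (by norm_num) le_rfl)).add
      (PS.monomial N 1 (φ 1 : ℂ))
  have h4 : τ + ‖(φ 2 : ℂ)‖ + ‖(φ 1 : ℂ)‖ = (N + 1) * e + P2 := by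
    rw [Complex.norm_real, Complex.norm_real, Real.norm_eq_abs, Real.norm_eq_abs, D.he, D.hg2,
      abs_mul, abs_mul, abs_of_nonneg D.he0, abs_of_pos (by positivity : (0 : ℝ) < N + 1),
      abs_of_pos (by positivity : (0 : ℝ) < 2 * N + 1), D.hP2]
    ring
  rw [h4] at h3
  refine h3.congr ?_
  intro w _
  ring

theorem cby_nonneg {N : ℕ} {ρ : ℝ} {φ : ℕ → ℝ} {e g2 τ G3 Ga P2 : ℝ}
    (D : Dat N ρ φ e g2 τ G3 Ga P2) : 0 ≤ e + Ga ∧ 0 ≤ (N + 1) * e + P2 :=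
  ⟨(cby_gg1 D).nonneg, (cby_pp1 D).nonneg⟩

/-! ### continuity -/

theorem cby_cont_EE (ρ : ℝ) : Continuous (EE ρ) := by
  unfold EE
  fun_prop

theorem cby_cont_KK {N : ℕ} {ρ : ℝ} {φ : ℕ → ℝ} {e g2 τ G3 Ga P2 : ℝ}
    (D : Dat N ρ φ e g2 τ G3 Ga P2) (n : ℤ) :
    ContinuousOn (fun w => KK ρ n (gg N φ w)) (sphere 0 1) := by
  unfold KK
  apply continuousOn_mn (H := fun w q => q ^ (1 - n) * EE ρ (q * (1 + gg N φ w)))
  have hg : ContinuousOn (fun p : ℂ × ℂ => gg N φ p.1) (sphere 0 1 ×ˢ sphere 0 1) :=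
    (cby_gg1 D).continuousOn.comp continuousOn_fst (fun p hp => hp.1)
  apply ContinuousOn.mul
  · apply ContinuousOn.zpow₀ continuousOn_snd
    intro p hp
    left
    intro h0
    have := hp.2
    rw [h0] at this
    simp at this
  · exact (cby_cont_EE ρ).comp_continuousOn
      (continuousOn_snd.mul (continuousOn_const.add hg))

/-! ### means -/

theorem cby_two_re (z : ℂ) : (2 * (z.re : ℂ)) = z + conj z := by
  rw [Complex.add_conj]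
  push_cast
  ring

theorem cby_mn_pow {N : ℕ} (hN : 0 < N) (j : ℕ) (hj : 0 < j) : mn (fun w => w ^ (N * j)) = 0 := by
  have h := mn_pow_conj_pow hN j 0
  rw [if_neg (by omega)] at h
  rw [← h]
  apply mn_congr
  intro w _
  simp

theorem cby_mn_re {N : ℕ} (hN : 0 < N) : mn (fun w => (2 * ((w ^ N).re : ℂ))) = 0 := by
  have h1 : mn (fun w => (2 * ((w ^ N).re : ℂ))) = mn (fun w => w ^ N + conj (w ^ N)) :=
    mn_congr fun w _ => cby_two_re _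
  rw [h1, mn_add (by fun_prop) (by fun_prop), mn_conj]
  have h2 := cby_mn_pow hN 1 one_pos
  rw [mul_one] at h2
  rw [h2]
  simp

theorem cby_mn_re_pow {N : ℕ} (hN : 0 < N) : mn (fun w => (2 * ((w ^ N).re : ℂ)) * w ^ N) = 1 := by
  have h1 : mn (fun w => (2 * ((w ^ N).re : ℂ)) * w ^ N) =
      mn (fun w => w ^ (N * 2) + w ^ (N * 1) * conj (w ^ (N * 1))) := by
    apply mn_congr
    intro w _
    rw [cby_two_re, mul_one, pow_mul]
    ring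
  rw [h1, mn_add (by fun_prop) (by fun_prop), cby_mn_pow hN 2 (by norm_num),
    mn_pow_conj_pow hN 1 1]
  simp

theorem cby_mn_g {N : ℕ} {ρ : ℝ} {φ : ℕ → ℝ} {e g2 τ G3 Ga P2 : ℝ}
    (D : Dat N ρ φ e g2 τ G3 Ga P2) :
    mn (fun w => (2 * ((w ^ N).re : ℂ)) * (gg N φ w + conj (gg N φ w)) / 2) = e := by
  have hg := (cby_gg1 D).continuousOn
  have hgc : ContinuousOn (fun w => conj (gg N φ w)) (sphere 0 1) :=
    Complex.continuous_conj.comp_continuousOn hg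
  have hp : ContinuousOn (fun w : ℂ => w ^ N) (sphere 0 1) := by fun_prop
  have hpc : ContinuousOn (fun w : ℂ => conj (w ^ N)) (sphere 0 1) :=
    Complex.continuous_conj.comp_continuousOn hp
  -- mean of `w^N g`
  have m1 : mn (fun w => w ^ N * gg N φ w) = 0 := by
    have h := ((PS.monomial N 1 (1 : ℂ)).mul (cby_gg1 D)).orth D.hN (j := 0) (by norm_num)
    rw [← h]
    apply mn_congr
    intro w _
    simp
  -- mean of `g conj(w^N)`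
  have m2 : mn (fun w => gg N φ w * conj (w ^ N)) = e := by
    have h := (cby_gg2 D).orth D.hN (j := 1) (by norm_num)
    have h2 : mn (fun w => gg N φ w * conj (w ^ N)) =
        mn (fun w => (gg N φ w - (e : ℂ) * w ^ (N * 1)) * conj (w ^ (N * 1)) +
          (e : ℂ) * (w ^ (N * 1) * conj (w ^ (N * 1)))) := by
      apply mn_congr
      intro w _
      rw [mul_one]
      ring
    rw [h2, mn_add (F := fun w => (gg N φ w - (e : ℂ) * w ^ (N * 1)) * conj (w ^ (N * 1)))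
      (G := fun w => (e : ℂ) * (w ^ (N * 1) * conj (w ^ (N * 1)))), h,
      mn_const_mul (e : ℂ) (fun w => w ^ (N * 1) * conj (w ^ (N * 1))), mn_pow_conj_pow D.hN 1 1]
    · simp
    · rw [mul_one]
      exact (hg.sub (continuousOn_const.mul hp)).mul hpc
    · rw [mul_one]
      exact continuousOn_const.mul (hp.mul hpc)
  have m3 : mn (fun w => conj (w ^ N * gg N φ w)) = 0 := by
    rw [mn_conj, m1, map_zero]
  have m4 : mn (fun w => conj (gg N φ w * conj (w ^ N))) = e := by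
    rw [mn_conj (fun w => gg N φ w * conj (w ^ N)), m2, Complex.conj_ofReal]
  have h1 : mn (fun w => (2 * ((w ^ N).re : ℂ)) * (gg N φ w + conj (gg N φ w)) / 2) =
      mn (fun w => ((w ^ N * gg N φ w + gg N φ w * conj (w ^ N)) +
        (conj (w ^ N * gg N φ w) + conj (gg N φ w * conj (w ^ N)))) * (1 / 2 : ℂ)) := by
    apply mn_congr
    intro w _
    rw [cby_two_re, map_mul, map_mul, Complex.conj_conj]
    ring
  have c1 : ContinuousOn (fun w => w ^ N * gg N φ w) (sphere 0 1) := hp.mul hg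
  have c2 : ContinuousOn (fun w => gg N φ w * conj (w ^ N)) (sphere 0 1) := hg.mul hpc
  have c3 : ContinuousOn (fun w => conj (w ^ N * gg N φ w)) (sphere 0 1) :=
    Complex.continuous_conj.comp_continuousOn c1
  have c4 : ContinuousOn (fun w => conj (gg N φ w * conj (w ^ N))) (sphere 0 1) :=
    Complex.continuous_conj.comp_continuousOn c2
  rw [h1, mn_mul_const,
    mn_add (F := fun w => w ^ N * gg N φ w + gg N φ w * conj (w ^ N))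
      (G := fun w => conj (w ^ N * gg N φ w) + conj (gg N φ w * conj (w ^ N)))
      (c1.add c2) (c3.add c4), mn_add c1 c2, mn_add c3 c4, m1, m2, m3, m4]
  ring

/-- the final step: a mean with a main term -/
theorem cby_mean {I Mn : ℂ → ℂ} {m : ℂ} {B : ℝ} (hI : ContinuousOn I (sphere 0 1))
    (hM : ContinuousOn Mn (sphere 0 1)) (hm : mn Mn = m)
    (hB : ∀ w : ℂ, ‖w‖ = 1 → ‖I w - Mn w‖ ≤ B) : ‖mn I - m‖ ≤ B := by
  rw [← hm, ← mn_sub hI hM]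
  exact norm_mn_le hB

theorem cby_core {u p K0 K2 M0 M2 : ℂ} {P m0 m2 s0 s2 : ℝ} (hu : ‖u‖ ≤ 1) (hp : ‖p‖ ≤ P)
    (hm0 : ‖M0‖ ≤ m0) (hm2 : ‖M2‖ ≤ m2) (hs0 : ‖K0 - M0‖ ≤ s0) (hs2 : ‖K2 - M2‖ ≤ s2) :
    ‖u * ((1 + p) * K0 - conj (1 + p) * K2) - u * (M0 - M2)‖ ≤
      P * (m0 + m2) + (1 + P) * (s0 + s2) := by
  have hP : 0 ≤ P := (norm_nonneg _).trans hp
  have h1 : u * ((1 + p) * K0 - conj (1 + p) * K2) - u * (M0 - M2) =
      u * ((p * M0 - conj p * M2) + ((1 + p) * (K0 - M0) - conj (1 + p) * (K2 - M2))) := by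
    rw [map_add, map_one]
    ring
  have h1p : ‖1 + p‖ ≤ 1 + P := (norm_add_le _ _).trans (by simpa using hp)
  have h2 : ‖p * M0 - conj p * M2‖ ≤ P * m0 + P * m2 := by
    refine (norm_sub_le _ _).trans ?_
    rw [norm_mul, norm_mul, Complex.norm_conj]
    gcongr
  have h3 : ‖(1 + p) * (K0 - M0) - conj (1 + p) * (K2 - M2)‖ ≤ (1 + P) * s0 + (1 + P) * s2 := by
    refine (norm_sub_le _ _).trans ?_
    rw [norm_mul, norm_mul, Complex.norm_conj]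
    gcongr
  rw [h1, norm_mul]
  have h4 : ‖(p * M0 - conj p * M2) + ((1 + p) * (K0 - M0) - conj (1 + p) * (K2 - M2))‖ ≤
      P * (m0 + m2) + (1 + P) * (s0 + s2) := by
    refine (norm_add_le _ _).trans ?_
    linarith
  calc _ ≤ 1 * ‖(p * M0 - conj p * M2) + ((1 + p) * (K0 - M0) - conj (1 + p) * (K2 - M2))‖ := by
        gcongr
    _ ≤ _ := by rw [one_mul]; exact h4

theorem cby_lin {x E : ℝ} {g : ℂ} (hx : 0 ≤ x) (hg : ‖g‖ ≤ E) {A B a b : ℝ} (hA : |A| ≤ a)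
    (hB : |B| ≤ b) : ‖(x : ℂ) * ((A : ℂ) * g - (B : ℂ) * conj g)‖ ≤ x * E * (a + b) := by
  have hE : 0 ≤ E := (norm_nonneg _).trans hg
  have ha : 0 ≤ a := (abs_nonneg _).trans hA
  have hb : 0 ≤ b := (abs_nonneg _).trans hB
  rw [norm_mul, Complex.norm_real, Real.norm_eq_abs, abs_of_nonneg hx, mul_assoc]
  apply mul_le_mul_of_nonneg_left _ hx
  refine (norm_sub_le _ _).trans ?_
  rw [norm_mul, norm_mul, Complex.norm_conj, Complex.norm_real, Complex.norm_real,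
    Real.norm_eq_abs, Real.norm_eq_abs]
  have h1 : |A| * ‖g‖ ≤ a * E := by gcongr
  have h2 : |B| * ‖g‖ ≤ b * E := by gcongr
  linarith

theorem cby_S_le {ρ E A B C a c : ℝ} {t : ℝ} (ht : 0 ≤ t) (htE : t ≤ E) (hρ : 0 ≤ ρ)
    (hT : A / 2 + B + C / 2 ≤ 3 * a / 2 + c / 2) (h0 : 0 ≤ A / 2 + B + C / 2) :
    (ρ / 2) ^ 2 * t ^ 2 * (A / 2 + B + C / 2) + (ρ * t) ^ 3 * (2 / 9) ≤
      (ρ / 2) ^ 2 * E ^ 2 * (3 * a / 2 + c / 2) + (2 * (ρ / 2) * E) ^ 3 * (2 / 9) := by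
  have h1 : 2 * (ρ / 2) = ρ := by ring
  rw [h1]
  gcongr

theorem cby_re_le {w : ℂ} (hw : ‖w‖ = 1) (N : ℕ) (v : ℂ) (hv : ‖v‖ = 1) :
    ‖(2 * ((w ^ N).re : ℂ)) * v / 2‖ ≤ 1 := by
  have h1 : (2 * ((w ^ N).re : ℂ)) * v / 2 = ((w ^ N).re : ℂ) * v := by ring
  rw [h1, norm_mul, hv, mul_one, Complex.norm_real, Real.norm_eq_abs]
  refine (Complex.abs_re_le_norm _).trans ?_
  rw [norm_pow, hw, one_pow]

theorem Y0_bound (N : ℕ) (ρ : ℝ) (φ : ℕ → ℝ) (e g2 τ G3 Ga P2 : ℝ)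
    (D : Dat N ρ φ e g2 τ G3 Ga P2) (J : ℤ → ℝ) (hJ : ∀ k, Jc ρ k = (J k : ℂ))
    (hJ2 : J (-2) = J 2) (a0 a1 a2 a3 : ℝ) (h0 : |J 0| ≤ a0) (h1 : |J 1| ≤ a1)
    (h1' : |J (-1)| ≤ a1) (h2 : |J 2| ≤ a2) (h3 : |J 3| ≤ a3) (h3' : |J (-3)| ≤ a3) :
    ‖YY N ρ φ 0 - (((ρ / 2) * e * (J 2 - J 0) : ℝ) : ℂ)‖ ≤ ey0 N (ρ / 2) e Ga P2 a0 a1 a2 a3 := by
  obtain ⟨hE0, hP0⟩ := cby_nonneg D
  have hg := (cby_gg1 D).continuousOn
  have hp := (cby_pp1 D).continuousOn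
  have hK0 := cby_cont_KK D 0
  have hK2 := cby_cont_KK D 2
  have hr : ContinuousOn (fun w : ℂ => (2 * ((w ^ N).re : ℂ))) (sphere 0 1) := by fun_prop
  have hY := YY_expand N ρ φ D.hs 0
  have hY' : YY N ρ φ 0 = mn fun w => (2 * ((w ^ N).re : ℂ)) *
      ((1 + pp N φ w) * KK ρ 0 (gg N φ w) - conj (1 + pp N φ w) * KK ρ 2 (gg N φ w)) / 2 := by
    rw [hY]
    simp
  rw [hY']
  have hρ := D.hρ
  have hx0 : 0 ≤ ρ / 2 := by positivity
  have hc1 : ContinuousOn (fun w : ℂ => (2 * ((w ^ N).re : ℂ)) * (((J (-1) - J 1) / 2 : ℝ) : ℂ))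
      (sphere 0 1) := hr.mul continuousOn_const
  have hc2 : ContinuousOn (fun w : ℂ => ((2 * ((w ^ N).re : ℂ)) *
      (gg N φ w + conj (gg N φ w)) / 2) * (((ρ / 2) * (J 2 - J 0) : ℝ) : ℂ)) (sphere 0 1) :=
    ((hr.mul (hg.add (Complex.continuous_conj.comp_continuousOn hg))).div_const 2).mul
        continuousOn_const
  refine cby_mean (Mn := fun w => (2 * ((w ^ N).re : ℂ)) * (((J (-1) - J 1) / 2 : ℝ) : ℂ) +
    ((2 * ((w ^ N).re : ℂ)) * (gg N φ w + conj (gg N φ w)) / 2) *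
      (((ρ / 2) * (J 2 - J 0) : ℝ) : ℂ)) ?_ (hc1.add hc2) ?_ ?_
  · exact (hr.mul (((continuousOn_const.add hp).mul hK0).sub
      ((Complex.continuous_conj.comp_continuousOn (continuousOn_const.add hp)).mul hK2))).div_const 2
  · rw [mn_add hc1 hc2, mn_mul_const, mn_mul_const, cby_mn_re D.hN, cby_mn_g D]
    push_cast
    ring
  · intro w hw
    have hgw := (cby_gg1 D).norm_le hw
    have hpw := (cby_pp1 D).norm_le hw
    have hρg : ρ * ‖gg N φ w‖ ≤ 1 :=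
      (mul_le_mul_of_nonneg_left hgw D.hρ.le).trans D.hsm
    have k0 := cby_KK ρ D.hρ.le J hJ 0 (gg N φ w) hρg
    have k2 := cby_KK ρ D.hρ.le J hJ 2 (gg N φ w) hρg
    rw [show (0 : ℤ) - 1 = -1 by norm_num, show (0 : ℤ) - 2 = -2 by norm_num,
      show (0 : ℤ) - 3 = -3 by norm_num, show (0 : ℤ) + 1 = 1 by norm_num] at k0
    rw [show (2 : ℤ) - 1 = 1 by norm_num, show (2 : ℤ) - 2 = 0 by norm_num,
      show (2 : ℤ) - 3 = -1 by norm_num, show (2 : ℤ) + 1 = 3 by norm_num] at k2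
    have k0' := k0.trans (cby_S_le (a := a1) (c := a3) (norm_nonneg _) hgw hρ.le (by linarith)
      (by positivity))
    have k2' := k2.trans (cby_S_le (a := a1) (c := a3) (norm_nonneg _) hgw hρ.le (by linarith)
      (by positivity))
    have hm0 : ‖(J (-1) : ℂ) + ((ρ / 2 : ℝ) : ℂ) * ((J (-2) : ℂ) * gg N φ w -
        (J 0 : ℂ) * conj (gg N φ w))‖ ≤ a1 + (ρ / 2) * (e + Ga) * (a2 + a0) := by
      refine (norm_add_le _ _).trans (add_le_add ?_ (cby_lin hx0 hgw (by rw [hJ2]; exact h2) h0))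
      rw [Complex.norm_real, Real.norm_eq_abs]
      exact h1'
    have hm2 : ‖(J 1 : ℂ) + ((ρ / 2 : ℝ) : ℂ) * ((J 0 : ℂ) * gg N φ w -
        (J 2 : ℂ) * conj (gg N φ w))‖ ≤ a1 + (ρ / 2) * (e + Ga) * (a0 + a2) := by
      refine (norm_add_le _ _).trans (add_le_add ?_ (cby_lin hx0 hgw h0 h2))
      rw [Complex.norm_real, Real.norm_eq_abs]
      exact h1
    have hcore := cby_core (cby_re_le hw N 1 (by simp)) hpw hm0 hm2 k0' k2'
    have heq : (2 * ((w ^ N).re : ℂ)) * ((1 + pp N φ w) * KK ρ 0 (gg N φ w) -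
        conj (1 + pp N φ w) * KK ρ 2 (gg N φ w)) / 2 -
        ((2 * ((w ^ N).re : ℂ)) * (((J (-1) - J 1) / 2 : ℝ) : ℂ) +
          ((2 * ((w ^ N).re : ℂ)) * (gg N φ w + conj (gg N φ w)) / 2) *
          (((ρ / 2) * (J 2 - J 0) : ℝ) : ℂ)) =
        (2 * ((w ^ N).re : ℂ)) * 1 / 2 * ((1 + pp N φ w) * KK ρ 0 (gg N φ w) -
          conj (1 + pp N φ w) * KK ρ 2 (gg N φ w)) - (2 * ((w ^ N).re : ℂ)) * 1 / 2 *
        (((J (-1) : ℂ) + ((ρ / 2 : ℝ) : ℂ) * ((J (-2) : ℂ) * gg N φ w -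
        (J 0 : ℂ) * conj (gg N φ w))) - ((J 1 : ℂ) + ((ρ / 2 : ℝ) : ℂ) * ((J 0 : ℂ) * gg N φ w -
        (J 2 : ℂ) * conj (gg N φ w)))) := by
      rw [hJ2]
      push_cast
      ring
    rw [heq]
    refine hcore.trans (le_of_eq ?_)
    unfold ey0
    ring

theorem Y1_bound (N : ℕ) (ρ : ℝ) (φ : ℕ → ℝ) (e g2 τ G3 Ga P2 : ℝ)
    (D : Dat N ρ φ e g2 τ G3 Ga P2) (J : ℤ → ℝ) (hJ : ∀ k, Jc ρ k = (J k : ℂ)) (j0 j1 j : ℝ)
    (h0 : |J N| ≤ j0) (h1 : |J (N - 1)| ≤ j1) (h2 : |J (N + 1)| ≤ j1) (h3 : |J (N - 2)| ≤ j)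
    (h4 : |J (N + 2)| ≤ j) (h5 : |J (N - 3)| ≤ j) (h6 : |J (N + 3)| ≤ j) :
    ‖YY N ρ φ 1 - (((J (N - 1) - J (N + 1)) / 2 : ℝ) : ℂ)‖ ≤ ey1 N (ρ / 2) e Ga P2 j0 j1 j := by
  obtain ⟨hE0, hP0⟩ := cby_nonneg D
  have hg := (cby_gg1 D).continuousOn
  have hp := (cby_pp1 D).continuousOn
  have hK0 := cby_cont_KK D (N : ℤ)
  have hK2 := cby_cont_KK D ((N : ℤ) + 2)
  have hr : ContinuousOn (fun w : ℂ => (2 * ((w ^ N).re : ℂ)) * w ^ N) (sphere 0 1) := by fun_prop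
  have hY := YY_expand N ρ φ D.hs 1
  have hY' : YY N ρ φ 1 = mn fun w => (2 * ((w ^ N).re : ℂ)) * w ^ N *
      ((1 + pp N φ w) * KK ρ (N : ℤ) (gg N φ w) -
        conj (1 + pp N φ w) * KK ρ ((N : ℤ) + 2) (gg N φ w)) / 2 := by
    rw [hY]
    simp
  rw [hY']
  have hρ := D.hρ
  have hx0 : 0 ≤ ρ / 2 := by positivity
  refine cby_mean (Mn := fun w => ((2 * ((w ^ N).re : ℂ)) * w ^ N) *
    (((J (N - 1) - J (N + 1)) / 2 : ℝ) : ℂ)) ?_ (hr.mul continuousOn_const) ?_ ?_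
  · exact (hr.mul (((continuousOn_const.add hp).mul hK0).sub
      ((Complex.continuous_conj.comp_continuousOn (continuousOn_const.add hp)).mul hK2))).div_const 2
  · rw [mn_mul_const (((J (N - 1) - J (N + 1)) / 2 : ℝ) : ℂ)
      (fun w => (2 * ((w ^ N).re : ℂ)) * w ^ N), cby_mn_re_pow D.hN, one_mul]
  · intro w hw
    have hgw := (cby_gg1 D).norm_le hw
    have hpw := (cby_pp1 D).norm_le hw
    have hρg : ρ * ‖gg N φ w‖ ≤ 1 :=
      (mul_le_mul_of_nonneg_left hgw D.hρ.le).trans D.hsm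
    have k0 := cby_KK ρ D.hρ.le J hJ (N : ℤ) (gg N φ w) hρg
    have k2 := cby_KK ρ D.hρ.le J hJ ((N : ℤ) + 2) (gg N φ w) hρg
    rw [show (N : ℤ) + 2 - 1 = N + 1 by ring, show (N : ℤ) + 2 - 2 = N by ring,
      show (N : ℤ) + 2 - 3 = N - 1 by ring, show (N : ℤ) + 2 + 1 = N + 3 by ring] at k2
    have k0' := k0.trans (cby_S_le (a := j1) (c := j) (norm_nonneg _) hgw hρ.le (by linarith)
      (by positivity))
    have k2' := k2.trans (cby_S_le (a := j1) (c := j) (norm_nonneg _) hgw hρ.le (by linarith)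
      (by positivity))
    have l0 := cby_lin hx0 hgw h3 h0
    have l2 := cby_lin hx0 hgw h0 h4
    have s0 : ‖KK ρ (N : ℤ) (gg N φ w) - (J (N - 1) : ℂ)‖ ≤ (ρ / 2) * (e + Ga) * (j + j0) +
        ((ρ / 2) ^ 2 * (e + Ga) ^ 2 * (3 * j1 / 2 + j / 2) +
          (2 * (ρ / 2) * (e + Ga)) ^ 3 * (2 / 9)) := by
      have : KK ρ (N : ℤ) (gg N φ w) - (J (N - 1) : ℂ) =
          ((ρ / 2 : ℝ) : ℂ) * ((J (N - 2) : ℂ) * gg N φ w - (J N : ℂ) * conj (gg N φ w)) +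
          (KK ρ (N : ℤ) (gg N φ w) - ((J (N - 1) : ℂ) + ((ρ / 2 : ℝ) : ℂ) *
            ((J (N - 2) : ℂ) * gg N φ w - (J N : ℂ) * conj (gg N φ w)))) := by ring
      rw [this]
      exact (norm_add_le _ _).trans (add_le_add l0 k0')
    have s2 : ‖KK ρ ((N : ℤ) + 2) (gg N φ w) - (J (N + 1) : ℂ)‖ ≤ (ρ / 2) * (e + Ga) * (j0 + j) +
        ((ρ / 2) ^ 2 * (e + Ga) ^ 2 * (3 * j1 / 2 + j / 2) +
          (2 * (ρ / 2) * (e + Ga)) ^ 3 * (2 / 9)) := by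
      have : KK ρ ((N : ℤ) + 2) (gg N φ w) - (J (N + 1) : ℂ) =
          ((ρ / 2 : ℝ) : ℂ) * ((J N : ℂ) * gg N φ w - (J (N + 2) : ℂ) * conj (gg N φ w)) +
          (KK ρ ((N : ℤ) + 2) (gg N φ w) - ((J (N + 1) : ℂ) + ((ρ / 2 : ℝ) : ℂ) *
            ((J N : ℂ) * gg N φ w - (J (N + 2) : ℂ) * conj (gg N φ w)))) := by ring
      rw [this]
      exact (norm_add_le _ _).trans (add_le_add l2 k2')
    have m0 : ‖(J (N - 1) : ℂ)‖ ≤ j1 := by rw [Complex.norm_real, Real.norm_eq_abs]; exact h1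
    have m2 : ‖(J (N + 1) : ℂ)‖ ≤ j1 := by rw [Complex.norm_real, Real.norm_eq_abs]; exact h2
    have hcore := cby_core (cby_re_le hw N (w ^ N) (by rw [norm_pow, hw, one_pow])) hpw m0 m2 s0 s2
    have heq : (2 * ((w ^ N).re : ℂ)) * w ^ N * ((1 + pp N φ w) * KK ρ (N : ℤ) (gg N φ w) -
        conj (1 + pp N φ w) * KK ρ ((N : ℤ) + 2) (gg N φ w)) / 2 -
        ((2 * ((w ^ N).re : ℂ)) * w ^ N) * (((J (N - 1) - J (N + 1)) / 2 : ℝ) : ℂ) =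
        (2 * ((w ^ N).re : ℂ)) * w ^ N / 2 * ((1 + pp N φ w) * KK ρ (N : ℤ) (gg N φ w) -
          conj (1 + pp N φ w) * KK ρ ((N : ℤ) + 2) (gg N φ w)) -
        (2 * ((w ^ N).re : ℂ)) * w ^ N / 2 * ((J (N - 1) : ℂ) - (J (N + 1) : ℂ)) := by
      push_cast
      ring
    rw [heq]
    refine hcore.trans (le_of_eq ?_)
    unfold ey1
    ring

end SCHC
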