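import Mathlib

/-!
# [SCH] certificate: the data of an endpoint estimate
-/

set_option autoImplicit false

open Metric Set MeasureTheory
open scoped RealInnerProductSpace NNReal ComplexConjugate

namespace SCHC


/-- the numbers of an endpoint estimate: `e = φ_1/(N+1)`, `g2 = φ_2/(2N+1)`, the tail
`τ = ∑_{k≥3} |φ_k|`, and the resulting bounds `G3`, `Ga` for `g` and `P2` for `p` -/
structure Dat (N : ℕ) (ρ : ℝ) (φ : ℕ → ℝ) (e g2 τ G3 Ga P2 : ℝ) : Prop where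
  hN : 0 < N
  hρ : 0 < ρ
  hs : Summable fun k => |φ (k + 1)|
  he : φ 1 = (N + 1) * e
  he0 : 0 ≤ e
  hg2 : φ 2 = (2 * N + 1) * g2
  hτ : ∑' k, |φ (k + 3)| ≤ τ
  hG3 : G3 = τ / (3 * N + 1)
  hGa : Ga = |g2| + G3
  hP2 : P2 = (2 * N + 1) * |g2| + τ
  hsm : ρ * (e + Ga) ≤ 1

end SCHC
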