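import Pool.Agent.MP_83fd13_an.SCH.CertY2

/-!
# [SCH] certificate: the decreasing part of the Bessel sequence, monotonicity of `er2`, `ey2`,
exponential bounds
-/

set_option autoImplicit false

namespace SCHC

section Dec

variable {ρ : ℝ} {J : ℤ → ℝ}

/-- downwards from `0 < J 95 ≤ J 94`: positive and decreasing -/
theorem dec_step (hρ : 0 < ρ) (hρ' : ρ ≤ 60) (hrec : ∀ k : ℤ, 2 * k * J k = ρ * (J (k - 1) + J (k + 1)))
    (h0 : 0 < J 95) (h1 : J 95 ≤ J 94) (i : ℕ) (hi : i ≤ 21) :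
    0 < J (95 - i) ∧ J (95 - i) ≤ J (94 - i) := by
  induction i with
  | zero => simpa using ⟨h0, h1⟩
  | succ i ih =>
    obtain ⟨p, d⟩ := ih (by omega)
    have e1 : (95 : ℤ) - ((i + 1 : ℕ) : ℤ) = 94 - i := by push_cast; ring
    have e2 : (94 : ℤ) - ((i + 1 : ℕ) : ℤ) = 93 - i := by push_cast; ring
    rw [e1, e2]
    have p2 : 0 < J (94 - i) := lt_of_lt_of_le p d
    refine ⟨p2, ?_⟩
    have h2 := hrec (94 - i)
    have e3 : (94 : ℤ) - i - 1 = 93 - i := by ring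
    have e4 : (94 : ℤ) - i + 1 = 95 - i := by ring
    rw [e3, e4] at h2
    have hi' : (i : ℝ) ≤ 20 := by exact_mod_cast (by omega : i ≤ 20)
    have h3 : 2 * ρ * J (94 - i) ≤ 2 * (((94 - i : ℤ) : ℝ)) * J (94 - i) := by
      apply mul_le_mul_of_nonneg_right _ p2.le
      push_cast
      linarith
    have h4 : ρ * (2 * J (94 - i)) ≤ ρ * (J (93 - i) + J (95 - i)) := by linarith
    have h5 := le_of_mul_le_mul_left h4 hρ
    linarith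

theorem dec_pos (hρ : 0 < ρ) (hρ' : ρ ≤ 60) (hrec : ∀ k : ℤ, 2 * k * J k = ρ * (J (k - 1) + J (k + 1)))
    (h0 : 0 < J 95) (h1 : J 95 ≤ J 94) (k : ℤ) (hk : 74 ≤ k) (hk' : k ≤ 95) : 0 < J k := by
  obtain ⟨i, hi⟩ : ∃ i : ℕ, k = 95 - i := ⟨(95 - k).toNat, by omega⟩
  rw [hi]
  exact (dec_step hρ hρ' hrec h0 h1 i (by omega)).1

theorem dec_anti (hρ : 0 < ρ) (hρ' : ρ ≤ 60) (hrec : ∀ k : ℤ, 2 * k * J k = ρ * (J (k - 1) + J (k + 1)))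
    (h0 : 0 < J 95) (h1 : J 95 ≤ J 94) (k : ℤ) (hk : 74 ≤ k) (b : ℕ) (hb : k + b ≤ 95) :
    J (k + b) ≤ J k := by
  induction b with
  | zero => simp
  | succ b ih =>
    refine le_trans ?_ (ih (by push_cast at hb; omega))
    obtain ⟨i, hi⟩ : ∃ i : ℕ, k + b = 94 - i := ⟨(94 - (k + b)).toNat, by push_cast at hb; omega⟩
    have e1 : k + ((b + 1 : ℕ) : ℤ) = 95 - i := by push_cast; omega
    rw [e1, hi]
    exact (dec_step hρ hρ' hrec h0 h1 i (by push_cast at hb; omega)).2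

theorem dec_up (hρ : 0 < ρ) (hρ' : ρ ≤ 60) (hrec : ∀ k : ℤ, 2 * k * J k = ρ * (J (k - 1) + J (k + 1)))
    (h0 : 0 < J 95) (h1 : J 95 ≤ J 94) (k : ℤ) (hk : 74 ≤ k) (hk' : k ≤ 94) :
    ρ / 2 * J (k - 1) ≤ k * J k := by
  have h2 := hrec k
  have h3 := dec_pos hρ hρ' hrec h0 h1 (k + 1) (by omega) (by omega)
  have h4 : 0 < ρ * J (k + 1) := mul_pos hρ h3
  linarith

theorem dec_pow (hρ : 0 < ρ) (hρ' : ρ ≤ 60) (hrec : ∀ k : ℤ, 2 * k * J k = ρ * (J (k - 1) + J (k + 1)))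
    (h0 : 0 < J 95) (h1 : J 95 ≤ J 94) (k : ℕ) (hk : 84 ≤ k) (hk' : k ≤ 85) (a : ℕ) (ha : a ≤ 10) :
    (ρ / 2) ^ a * J ((k : ℤ) - a) ≤ (k : ℝ) ^ a * J k := by
  induction a with
  | zero => simp
  | succ a ih =>
    have h2 := ih (by omega)
    have h3 := dec_up hρ hρ' hrec h0 h1 ((k : ℤ) - a) (by omega) (by omega)
    have h4 := dec_pos hρ hρ' hrec h0 h1 ((k : ℤ) - a) (by omega) (by omega)
    have e1 : (k : ℤ) - ((a + 1 : ℕ) : ℤ) = (k : ℤ) - a - 1 := by push_cast; ring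
    rw [e1, pow_succ, pow_succ]
    have h5 : ((((k : ℤ) - a : ℤ)) : ℝ) * J ((k : ℤ) - a) ≤ (k : ℝ) * J ((k : ℤ) - a) := by
      apply mul_le_mul_of_nonneg_right _ h4.le
      push_cast
      have : (0 : ℝ) ≤ a := Nat.cast_nonneg a
      linarith
    have h6 : (0 : ℝ) ≤ (ρ / 2) ^ a := by positivity
    calc (ρ / 2) ^ a * (ρ / 2) * J ((k : ℤ) - a - 1) = (ρ / 2) ^ a * (ρ / 2 * J ((k : ℤ) - a - 1)) := by
          ring
      _ ≤ (ρ / 2) ^ a * ((k : ℝ) * J ((k : ℤ) - a)) := mul_le_mul_of_nonneg_left (h3.trans h5) h6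
      _ = k * ((ρ / 2) ^ a * J ((k : ℤ) - a)) := by ring
      _ ≤ k * ((k : ℝ) ^ a * J k) := mul_le_mul_of_nonneg_left h2 (Nat.cast_nonneg k)
      _ = (k : ℝ) ^ a * k * J k := by ring

theorem dec_h1 (hρ : 0 < ρ) (hρ' : ρ ≤ 60) (hrec : ∀ k : ℤ, 2 * k * J k = ρ * (J (k - 1) + J (k + 1)))
    (h0 : 0 < J 95) (h1 : J 95 ≤ J 94) (a : ℕ) (ha : a ≤ 10) :
    (ρ / 2) ^ a * |J (84 - a)| ≤ 84 ^ a * J 84 := by
  have h2 := dec_pow hρ hρ' hrec h0 h1 84 le_rfl (by norm_num) a ha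
  have h3 := dec_pos hρ hρ' hrec h0 h1 (84 - a) (by omega) (by omega)
  rw [abs_of_pos h3]
  exact_mod_cast h2

theorem dec_h2 (hρ : 0 < ρ) (hρ' : ρ ≤ 60) (hrec : ∀ k : ℤ, 2 * k * J k = ρ * (J (k - 1) + J (k + 1)))
    (h0 : 0 < J 95) (h1 : J 95 ≤ J 94) (a b : ℕ) (hab : a + b ≤ 10) :
    (ρ / 2) ^ a * |J (85 + b - a)| ≤ 85 ^ a * J 85 := by
  have h2 := dec_pow hρ hρ' hrec h0 h1 85 (by norm_num) le_rfl a (by omega)
  have h3 := dec_pos hρ hρ' hrec h0 h1 (85 + b - a) (by omega) (by omega)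
  have h4 := dec_anti hρ hρ' hrec h0 h1 (85 - a) (by omega) b (by omega)
  have e1 : (85 : ℤ) - a + b = 85 + b - a := by ring
  rw [e1] at h4
  rw [abs_of_pos h3]
  have h5 : (ρ / 2) ^ a * J (85 - a) ≤ 85 ^ a * J 85 := by exact_mod_cast h2
  exact (mul_le_mul_of_nonneg_left h4 (by positivity)).trans h5

end Dec

theorem er2_mono {x e e' Ga Ga' G3 P2 P2' c84 c85 j84 j84' j85 j85' : ℝ} (hx : 0 ≤ x) (he : 0 ≤ e)
    (hee : e ≤ e') (hG : 0 ≤ Ga) (hGG : Ga ≤ Ga') (hG3 : 0 ≤ G3) (hP : 0 ≤ P2) (hPP : P2 ≤ P2')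
    (h84 : 1 ≤ c84) (h85 : 1 ≤ c85) (h1 : 0 ≤ j84) (h1' : j84 ≤ j84') (h2 : 0 ≤ j85)
    (h2' : j85 ≤ j85') :
    er2 x e Ga G3 P2 c84 c85 j84 j85 ≤ er2 x e' Ga' G3 P2' c84 c85 j84' j85' := by
  unfold er2
  have he' : 0 ≤ e' := he.trans hee
  have hG' : 0 ≤ Ga' := hG.trans hGG
  have hP' : 0 ≤ P2' := hP.trans hPP
  have h3 : 0 ≤ c84 - 1 := by linarith
  have h4 : 0 ≤ c85 - 1 := by linarith
  have h5 : 0 ≤ j84' := h1.trans h1'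
  have h6 : 0 ≤ j85' := h2.trans h2'
  gcongr

theorem ey2_mono {x e e' Ga Ga' P2 P2' c84 c85 j84 j84' j85 j85' : ℝ} (hx : 0 ≤ x) (he : 0 ≤ e)
    (hee : e ≤ e') (hG : 0 ≤ Ga) (hGG : Ga ≤ Ga') (hP : 0 ≤ P2) (hPP : P2 ≤ P2')
    (h84 : 0 ≤ c84) (h85 : 0 ≤ c85) (h1 : 0 ≤ j84) (h1' : j84 ≤ j84') (h2 : 0 ≤ j85)
    (h2' : j85 ≤ j85') :
    ey2 x e Ga P2 c84 c85 j84 j85 ≤ ey2 x e' Ga' P2' c84 c85 j84' j85' := by
  unfold ey2
  have he' : 0 ≤ e' := he.trans hee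
  have hG' : 0 ≤ Ga' := hG.trans hGG
  have hP' : 0 ≤ P2' := hP.trans hPP
  have h5 : 0 ≤ j84' := h1.trans h1'
  have h6 : 0 ≤ j85' := h2.trans h2'
  gcongr

theorem exp84_le {t : ℝ} (ht : t ≤ 22357 / 10 ^ 5) : Real.exp t ≤ 12508 / 10 ^ 4 := by
  refine (Real.exp_le_exp.2 ht).trans ?_
  have h := Real.exp_bound' (x := 22357 / 10 ^ 5) (by norm_num) (by norm_num) (n := 5) (by norm_num)
  refine h.trans ?_
  simp only [Finset.sum_range_succ, Finset.sum_range_zero, Nat.factorial]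
  norm_num

theorem exp85_le {t : ℝ} (ht : t ≤ 22623 / 10 ^ 5) : Real.exp t ≤ 12540 / 10 ^ 4 := by
  refine (Real.exp_le_exp.2 ht).trans ?_
  have h := Real.exp_bound' (x := 22623 / 10 ^ 5) (by norm_num) (by norm_num) (n := 5) (by norm_num)
  refine h.trans ?_
  simp only [Finset.sum_range_succ, Finset.sum_range_zero, Nat.factorial]
  norm_num

/-- the bound of `g2` from `κ = 2` -/
theorem hi_g2 {J84 J85 e g X2 r s : ℝ} (h84 : 7343535 / 10 ^ 17 ≤ J84)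
    (h85 : J85 ≤ 2637822 / 10 ^ 17) (h85' : 0 ≤ J85) (he0 : 0 ≤ e) (hehi : e ≤ 25689 / 10 ^ 7)
    (R : |X2 - (-(54178 / 1000 / 2) * J84 * g + (54178 / 1000 / 2) ^ 2 / 2 * J85 * e ^ 2)| ≤ r)
    (hX : |X2| ≤ s)
    (hrs : (54178 / 1000 / 2) ^ 2 / 2 * (2637822 / 10 ^ 17) * (25689 / 10 ^ 7) ^ 2 + r + s ≤
      54178 / 1000 / 2 * (7343535 / 10 ^ 17) * (36 / 850000)) : |g| ≤ 36 / 850000 := by
  have hJ : 0 < J84 := lt_of_lt_of_le (by norm_num) h84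
  have h1 : |54178 / 1000 / 2 * J84 * g| ≤ (54178 / 1000 / 2) ^ 2 / 2 * J85 * e ^ 2 + r + s := by
    have e1 : 54178 / 1000 / 2 * J84 * g = (54178 / 1000 / 2) ^ 2 / 2 * J85 * e ^ 2 +
        (X2 - (-(54178 / 1000 / 2) * J84 * g + (54178 / 1000 / 2) ^ 2 / 2 * J85 * e ^ 2)) - X2 := by
      ring
    rw [e1]
    refine (abs_sub _ _).trans ?_
    refine add_le_add ((abs_add_le _ _).trans (add_le_add ?_ R)) hX
    rw [abs_of_nonneg (by positivity)]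
  have h2 : e ^ 2 ≤ (25689 / 10 ^ 7) ^ 2 := pow_le_pow_left₀ he0 hehi 2
  have h3 : (54178 / 1000 / 2) ^ 2 / 2 * J85 * e ^ 2 ≤
      (54178 / 1000 / 2) ^ 2 / 2 * (2637822 / 10 ^ 17) * (25689 / 10 ^ 7) ^ 2 := by gcongr
  rw [abs_mul, abs_of_pos (by positivity : 0 < 54178 / 1000 / 2 * J84)] at h1
  have h4 : 54178 / 1000 / 2 * (7343535 / 10 ^ 17) * |g| ≤ 54178 / 1000 / 2 * J84 * |g| := by
    gcongr
  have h5 : 54178 / 1000 / 2 * (7343535 / 10 ^ 17) * |g| ≤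
      54178 / 1000 / 2 * (7343535 / 10 ^ 17) * (36 / 850000) := by linarith
  exact le_of_mul_le_mul_left h5 (by norm_num)

end SCHC
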