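import Pool.Agent.MP_83fd13_an.SCH.Green4
import Pool.Agent.MP_83fd13_an.SCH.CertDefs

/-!
# [SCH] certificate: Green's identity for plane waves
-/

set_option autoImplicit false

open Metric Set MeasureTheory
open scoped RealInnerProductSpace NNReal ComplexConjugate Real

namespace SCHC

open SCHG

theorem cis_eq_uc (θ : ℝ) : cis θ = uc θ := by
  rw [cis, uc, Complex.exp_mul_I, Complex.ofReal_cos, Complex.ofReal_sin]

theorem mn_eq_uc (F : ℂ → ℂ) :
    mn F = (((2 * Real.pi)⁻¹ : ℝ) : ℂ) * ∫ θ in (-π)..π, F (uc θ) := by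
  have hper : Function.Periodic (fun θ => F (cis θ)) (2 * π) := by
    intro θ
    simp only [cis]
    congr 1
    push_cast
    rw [add_mul, Complex.exp_periodic]
  have h1 := hper.intervalIntegral_add_eq 0 (-π)
  rw [zero_add] at h1
  have h2 : -π + 2 * π = π := by ring
  rw [h2] at h1
  rw [mn, h1]
  simp_rw [cis_eq_uc]

/-- **Green's identity for plane waves.** -/
theorem green_plane {N : ℕ} {ρ : ℝ} {φ : ℕ → ℝ} {u u' u'' : ℕ → ℝ → ℝ} {B : ℕ → ℝ}
    (H : FP N ρ φ u u' u'' B) (s : ℂ) (hs : ‖s‖ = 1) :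
    mn (fun w => (UU N (aa u) w : ℂ) * (((s * (w * fF' N ρ φ w)).im : ℝ) : ℂ) *
      EE 1 (s * fF N ρ φ w)) = 0 := by
  have h1 := H.green_wave_complex s hs
  rw [mn_eq_uc]
  have h2 : (∫ θ in (-π)..π, (UU N (aa u) (uc θ) : ℂ) *
      (((s * (uc θ * fF' N ρ φ (uc θ))).im : ℝ) : ℂ) * EE 1 (s * fF N ρ φ (uc θ))) = 0 := by
    rw [← h1]
    refine intervalIntegral.integral_congr fun θ _ => ?_
    rw [EE, one_mul, mul_comm Complex.I, ← mul_assoc s]
    push_cast
    ring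
  rw [h2, mul_zero]

theorem Sol_of_FP {N : ℕ} {ρ : ℝ} {φ : ℕ → ℝ} {u u' u'' : ℕ → ℝ → ℝ} {B : ℕ → ℝ}
    (H : FP N ρ φ u u' u'' B) (hz : ∀ k, u (k + 2) 1 = 0) :
    Sol N ρ φ (u 0 1) (u 1 1) (UU N (aa u)) (GG N (aa u) (aa u')) where
  hs := (summable_nat_add_iff 1).2 H.φs
  Uc := H.continuousOn_U
  Ud w hw := H.hasFDerivAt_U hw
  Gc := H.modes.lip_GG.continuousOn
  tang w hw := H.modes.GG_tangential hw
  div w hw hw0 := H.hasFDerivAt_GG hw hw0
  bd w hw := by
    rw [U_circle hw, tsum_eq_sum (s := {0, 1})]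
    · rw [Finset.sum_pair (by norm_num)]
      simp [mul2]
    · intro k hk
      simp only [Finset.mem_insert, Finset.mem_singleton, not_or] at hk
      obtain ⟨j, rfl⟩ : ∃ j, k = j + 2 := ⟨k - 2, by omega⟩
      rw [hz]
      ring

/-- derivative of `f(e^{iθ})` -/
theorem hasDerivAt_fF_cis (N : ℕ) (ρ : ℝ) (φ : ℕ → ℝ) (hs : Summable fun k => |φ (k + 1)|)
    (θ : ℝ) : HasDerivAt (fun θ => fF N ρ φ (cis θ)) (Complex.I * (cis θ * fF' N ρ φ (cis θ))) θ := by
  have hcis : ∀ θ, HasDerivAt cis (Complex.I * cis θ) θ := by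
    intro θ
    have h1 : HasDerivAt (fun θ : ℝ => (θ : ℂ) * Complex.I) Complex.I θ := by
      simpa using (Complex.ofRealCLM.hasDerivAt (x := θ)).mul_const Complex.I
    refine h1.cexp.congr_deriv ?_
    rw [cis]
    ring
  have hn : ∀ θ, ‖cis θ‖ = 1 := fun θ => by rw [cis_eq_uc, norm_uc]
  have h1 : HasDerivAt (fun θ => ∑' k : ℕ,
      (φ (k + 1) : ℂ) * cis θ ^ (N * (k + 1) + 1) / ((N * (k + 1) + 1 : ℕ) : ℂ))
      (∑' k : ℕ, Complex.I * ((φ (k + 1) : ℂ) * cis θ ^ (N * (k + 1) + 1))) θ := by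
    refine hasDerivAt_tsum (u := fun k => |φ (k + 1)|)
      (g := fun k θ => (φ (k + 1) : ℂ) * cis θ ^ (N * (k + 1) + 1) / ((N * (k + 1) + 1 : ℕ) : ℂ))
      (g' := fun k θ => Complex.I * ((φ (k + 1) : ℂ) * cis θ ^ (N * (k + 1) + 1))) hs ?_ ?_ (y₀ := 0)
      ?_ θ
    · intro k θ
      have h2 := (((hcis θ).pow (N * (k + 1) + 1)).const_mul (φ (k + 1) : ℂ)).div_const
        ((N * (k + 1) + 1 : ℕ) : ℂ)
      refine h2.congr_deriv ?_
      have h5 : ((N * (k + 1) + 1 : ℕ) : ℂ) ≠ 0 := Nat.cast_ne_zero.2 (Nat.succ_ne_zero _)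
      rw [Nat.add_sub_cancel, pow_succ]
      field_simp
    · intro k θ
      rw [norm_mul, Complex.norm_I, one_mul, norm_mul, norm_pow, hn, one_pow, mul_one,
        Complex.norm_real, Real.norm_eq_abs]
    · exact summable_terms N φ hs (cis 0) (hn 0).le
  refine (((hcis θ).add h1).const_mul (ρ : ℂ)).congr_deriv ?_
  rw [fF', tsum_mul_left]
  have e : (∑' k : ℕ, (φ (k + 1) : ℂ) * cis θ ^ (N * (k + 1) + 1)) =
      (∑' k : ℕ, (φ (k + 1) : ℂ) * cis θ ^ (N * (k + 1))) * cis θ := by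
    rw [← tsum_mul_right]
    refine tsum_congr fun k => ?_
    rw [pow_succ]
    ring
  rw [e]
  ring

theorem stokes_plane (N : ℕ) (ρ : ℝ) (φ : ℕ → ℝ) (hs : Summable fun k => |φ (k + 1)|)
    (s : ℂ) :
    mn (fun w => (((s * (w * fF' N ρ φ w)).re : ℝ) : ℂ) * EE 1 (s * fF N ρ φ w)) = 0 := by
  have hd : ∀ θ : ℝ, HasDerivAt (fun θ => EE 1 (s * fF N ρ φ (cis θ)))
      ((((s * (cis θ * fF' N ρ φ (cis θ))).re : ℝ) : ℂ) * EE 1 (s * fF N ρ φ (cis θ)) *
        Complex.I) θ := by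
    intro θ
    have h1 := (hasDerivAt_fF_cis N ρ φ hs θ).const_mul s
    have h2 : HasDerivAt (fun θ => (s * fF N ρ φ (cis θ)).im)
        (s * (cis θ * fF' N ρ φ (cis θ))).re θ := by
      have h3 := Complex.imCLM.hasFDerivAt.comp_hasDerivAt θ h1
      refine h3.congr_deriv ?_
      simp only [Complex.imCLM_apply]
      rw [mul_left_comm, Complex.I_mul_im]
    have h4 := ((Complex.ofRealCLM.hasDerivAt).scomp θ (h2.const_mul 1)).mul_const Complex.I
    have h5 := h4.cexp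
    refine h5.congr_deriv ?_
    simp only [EE]
    simp
    ring
  have hn : ∀ θ, ‖cis θ‖ = 1 := fun θ => by rw [cis_eq_uc, norm_uc]
  have hcc : Continuous cis := by unfold cis; fun_prop
  have hf'c : Continuous fun θ => fF' N ρ φ (cis θ) :=
    (continuousOn_fF' N ρ φ hs).comp_continuous hcc
      fun θ => mem_closedBall_zero_iff.2 (hn θ).le
  have hfc : Continuous fun θ => fF N ρ φ (cis θ) :=
    continuous_iff_continuousAt.2 fun θ => (hasDerivAt_fF_cis N ρ φ hs θ).continuousAt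
  have hc : Continuous fun θ => (((s * (cis θ * fF' N ρ φ (cis θ))).re : ℝ) : ℂ) *
      EE 1 (s * fF N ρ φ (cis θ)) := by
    have c1 : Continuous fun θ => (((s * (cis θ * fF' N ρ φ (cis θ))).re : ℝ) : ℂ) :=
      Complex.continuous_ofReal.comp (Complex.continuous_re.comp
        (continuous_const.mul (hcc.mul hf'c)))
    have c2 : Continuous fun θ => EE 1 (s * fF N ρ φ (cis θ)) := by
      have c3 : Continuous fun θ => (((1 * (s * fF N ρ φ (cis θ)).im : ℝ)) : ℂ) :=
        Complex.continuous_ofReal.comp (continuous_const.mul (Complex.continuous_im.comp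
          (continuous_const.mul hfc)))
      exact Complex.continuous_exp.comp (c3.mul continuous_const)
    exact c1.mul c2
  have h6 := intervalIntegral.integral_eq_sub_of_hasDerivAt (a := 0) (b := 2 * π)
    (fun θ _ => hd θ) ((hc.mul continuous_const).intervalIntegrable _ _)
  have h7 : cis (2 * π) = cis 0 := by
    rw [cis, cis]
    push_cast
    rw [Complex.exp_two_pi_mul_I, zero_mul, Complex.exp_zero]
  rw [h7, sub_self, intervalIntegral.integral_mul_const] at h6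
  have h8 := (mul_eq_zero.1 h6).resolve_right Complex.I_ne_zero
  rw [mn, h8, mul_zero]

end SCHC
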