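import Pool.Agent.MP_83fd13_an.SCH.CertDat
import Pool.Agent.MP_83fd13_an.SCH.CertDefs

/-!
# [SCH] certificate: monotonicity of the error terms, auxiliary facts
-/

set_option autoImplicit false

open Metric Set MeasureTheory
open scoped RealInnerProductSpace NNReal ComplexConjugate

namespace SCHC

open SCHG

theorem er1_mono {n x e e' Ga Ga' G3 P2 P2' j0 j1 j : ℝ} (hn : 0 ≤ n) (hx : 0 ≤ x) (he : 0 ≤ e)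
    (hee : e ≤ e') (hG : 0 ≤ Ga) (hGG : Ga ≤ Ga') (hG3 : 0 ≤ G3) (hP : 0 ≤ P2) (hPP : P2 ≤ P2')
    (h0 : 0 ≤ j0) (h1 : 0 ≤ j1) (h2 : 0 ≤ j) :
    er1 n x e Ga G3 P2 j0 j1 j ≤ er1 n x e' Ga' G3 P2' j0 j1 j := by
  unfold er1
  have he' : 0 ≤ e' := he.trans hee
  have hG' : 0 ≤ Ga' := hG.trans hGG
  have hP' : 0 ≤ P2' := hP.trans hPP
  gcongr

theorem er0_mono {n x e e' Ga Ga' P2 P2' a0 a1 a2 a3 : ℝ} (hn : 0 ≤ n) (hx : 0 ≤ x) (he : 0 ≤ e)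
    (hee : e ≤ e') (hG : 0 ≤ Ga) (hGG : Ga ≤ Ga') (hP : 0 ≤ P2) (hPP : P2 ≤ P2')
    (h0 : 0 ≤ a0) (h1 : 0 ≤ a1) (h2 : 0 ≤ a2) (h3 : 0 ≤ a3) :
    er0 n x e Ga P2 a0 a1 a2 a3 ≤ er0 n x e' Ga' P2' a0 a1 a2 a3 := by
  unfold er0
  have he' : 0 ≤ e' := he.trans hee
  have hG' : 0 ≤ Ga' := hG.trans hGG
  have hP' : 0 ≤ P2' := hP.trans hPP
  gcongr

theorem ey0_mono {n x e e' Ga Ga' P2 P2' a0 a1 a2 a3 : ℝ} (hn : 0 ≤ n) (hx : 0 ≤ x) (he : 0 ≤ e)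
    (hee : e ≤ e') (hG : 0 ≤ Ga) (hGG : Ga ≤ Ga') (hP : 0 ≤ P2) (hPP : P2 ≤ P2')
    (h0 : 0 ≤ a0) (h1 : 0 ≤ a1) (h2 : 0 ≤ a2) (h3 : 0 ≤ a3) :
    ey0 n x e Ga P2 a0 a1 a2 a3 ≤ ey0 n x e' Ga' P2' a0 a1 a2 a3 := by
  unfold ey0
  have he' : 0 ≤ e' := he.trans hee
  have hG' : 0 ≤ Ga' := hG.trans hGG
  have hP' : 0 ≤ P2' := hP.trans hPP
  gcongr

theorem ey1_mono {n x e e' Ga Ga' P2 P2' j0 j1 j : ℝ} (hn : 0 ≤ n) (hx : 0 ≤ x) (he : 0 ≤ e)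
    (hee : e ≤ e') (hG : 0 ≤ Ga) (hGG : Ga ≤ Ga') (hP : 0 ≤ P2) (hPP : P2 ≤ P2')
    (h0 : 0 ≤ j0) (h1 : 0 ≤ j1) (h2 : 0 ≤ j) :
    ey1 n x e Ga P2 j0 j1 j ≤ ey1 n x e' Ga' P2' j0 j1 j := by
  unfold ey1
  have he' : 0 ≤ e' := he.trans hee
  have hG' : 0 ≤ Ga' := hG.trans hGG
  have hP' : 0 ≤ P2' := hP.trans hPP
  gcongr

theorem re_close {z : ℂ} {a r : ℝ} (h : ‖z - (a : ℂ)‖ ≤ r) : |z.re - a| ≤ r := by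
  have := (Complex.abs_re_le_norm (z - (a : ℂ))).trans h
  simpa using this

theorem dat_of {ρ : ℝ} {φ : ℕ → ℝ} {τ : ℝ} (hρ : 0 < ρ) (hs : Summable fun k => |φ (k + 1)|)
    (h1 : 0 ≤ φ 1) (hτ : ∑' k, |φ (k + 3)| ≤ τ)
    (hsm : ρ * (φ 1 / 43 + (|φ 2 / 85| + τ / 127)) ≤ 1) :
    Dat 42 ρ φ (φ 1 / 43) (φ 2 / 85) τ (τ / 127) (|φ 2 / 85| + τ / 127)
      (85 * |φ 2 / 85| + τ) := by
  refine ⟨by norm_num, hρ, hs, ?_, by positivity, ?_, hτ, by norm_num, rfl, by norm_num, hsm⟩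
  · push_cast; ring
  · push_cast; ring

theorem i42 (J : ℤ → ℝ) : J ((42 : ℕ) : ℤ) = J 42 := by norm_num
theorem i41 (J : ℤ → ℝ) : J (((42 : ℕ) : ℤ) - 1) = J 41 := by norm_num
theorem i43 (J : ℤ → ℝ) : J (((42 : ℕ) : ℤ) + 1) = J 43 := by norm_num
theorem i40 (J : ℤ → ℝ) : J (((42 : ℕ) : ℤ) - 2) = J 40 := by norm_num
theorem i44 (J : ℤ → ℝ) : J (((42 : ℕ) : ℤ) + 2) = J 44 := by norm_num
theorem i39 (J : ℤ → ℝ) : J (((42 : ℕ) : ℤ) - 3) = J 39 := by norm_num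
theorem i45 (J : ℤ → ℝ) : J (((42 : ℕ) : ℤ) + 3) = J 45 := by norm_num

/-- the two equations `c X_κ + h Y_κ = 0`, real parts -/
theorem key_re {c h : ℝ} {X Y : ℂ} (K : (c : ℂ) * X + (h : ℂ) * Y = 0) :
    c * X.re + h * Y.re = 0 := by
  have := congrArg Complex.re K
  rwa [Complex.add_re, Complex.re_ofReal_mul, Complex.re_ofReal_mul, Complex.zero_re] at this


end SCHC
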