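import Mathlib

/-!
# [SCH] certificate: the numerical core of the two endpoint theorems (real numbers only)
-/

set_option autoImplicit false

namespace SCHC

/-- upper endpoint, sign of `Y_0` -/
theorem hi_Y0 {J0 J2 e Y0 r : ℝ} (a0 : J0 ≤ -10838 / 10 ^ 5) (a2 : 10841 / 10 ^ 5 ≤ J2)
    (he : 98 / 43000 ≤ e) (hr : r ≤ 8 / 10 ^ 3)
    (R : |Y0 - 54178 / 1000 / 2 * e * (J2 - J0)| ≤ r) : 0 ≤ Y0 := by
  have h3 := (abs_le.1 R).1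
  have he0 : 0 ≤ e := by linarith
  have h4 : 98 / 43000 * (21679 / 10 ^ 5) ≤ e * (J2 - J0) :=
    mul_le_mul he (by norm_num at a0 a2 ⊢; linarith) (by norm_num) he0
  have h7 : 54178 / 1000 / 2 * e * (J2 - J0) = 54178 / 1000 / 2 * (e * (J2 - J0)) := by ring
  rw [h7] at h3
  norm_num at h3 h4 hr ⊢
  linarith

/-- upper endpoint, upper bound of `e` from `X_0 ≤ 0` -/
theorem hi_e {J0 J1 e X0 r : ℝ} (a0 : J0 ≤ -10838225662 / 10 ^ 11)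
    (a1 : J1 ≤ 8187533101 / 10 ^ 13) (hr : r ≤ 14318 / 10 ^ 9)
    (R : |X0 - (-J1 - 54178 / 1000 / 2 * J0 * (42 + 1) * e ^ 2)| ≤ r) (hX : X0 ≤ 0) :
    e ≤ 25689 / 10 ^ 7 := by
  by_contra hx
  rw [not_le] at hx
  have h3 : (25689 / 10 ^ 7 : ℝ) ^ 2 ≤ e ^ 2 := pow_le_pow_left₀ (by norm_num) hx.le 2
  have h4 : 10838225662 / 10 ^ 11 * e ^ 2 ≤ -J0 * e ^ 2 :=
    mul_le_mul_of_nonneg_right (by norm_num at a0 ⊢; linarith) (sq_nonneg e)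
  have h5 := (abs_le.1 R).1
  norm_num at h3 h4 h5 hr a1
  linarith

/-- lower bound of `Y_1` -/
theorem Y1_low {J41 J43 Y1 r : ℝ} (a : 1725 / 10 ^ 4 ≤ J41 - J43)
    (hr : r ≤ 467 / 10 ^ 4) (R : |Y1 - (J41 - J43) / 2| ≤ r) : 395 / 10 ^ 4 ≤ Y1 := by
  have h3 := (abs_le.1 R).1
  norm_num at h3 a hr ⊢
  linarith

/-- upper endpoint, lower bound of `X_1` from bounds of `e` and `g2` (`G` bounds `|g2|`) -/
theorem hi_X1_aux {J41 J42 J43 e g G X1 r : ℝ} (a41 : |J41| ≤ 8589702 / 10 ^ 8)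
    (a42 : J42 ≤ -4669359491 / 10 ^ 13) (a43 : -8662098 / 10 ^ 8 ≤ J43)
    (hg : |g| ≤ G) (helo : 98 / 43000 ≤ e) (hehi : e ≤ 25689 / 10 ^ 7)
    (R : |X1 - (-(54178 / 1000 / 2) * J42 * e + (42 + 1) / 2 * (54178 / 1000 / 2) ^ 2 * J43 * e ^ 3 -
      (54178 / 1000 / 2) ^ 2 * J41 * e * g)| ≤ r) :
    25689 / 10 ^ 7 * (54178 / 1000 / 2 * (4669359491 / 10 ^ 13) -
      (42 + 1) / 2 * (54178 / 1000 / 2) ^ 2 * (8662098 / 10 ^ 8) * (25689 / 10 ^ 7) ^ 2 -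
      (54178 / 1000 / 2) ^ 2 * (8589702 / 10 ^ 8) * G) - r ≤ X1 := by
  have he0 : 0 ≤ e := by linarith
  have hG0 : 0 ≤ G := (abs_nonneg _).trans hg
  have h3 := (abs_le.1 R).1
  have h4 : 4669359491 / 10 ^ 13 * e ≤ -J42 * e :=
    mul_le_mul_of_nonneg_right (by norm_num at a42 ⊢; linarith) he0
  have h5 : -8662098 / 10 ^ 8 * e ^ 3 ≤ J43 * e ^ 3 := mul_le_mul_of_nonneg_right a43 (by positivity)
  have h6 : |J41 * g| ≤ 8589702 / 10 ^ 8 * G := by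
    rw [abs_mul]
    exact mul_le_mul a41 hg (abs_nonneg _) (by norm_num)
  have h7 : e * (J41 * g) ≤ e * (8589702 / 10 ^ 8 * G) :=
    mul_le_mul_of_nonneg_left ((le_abs_self _).trans h6) he0
  have h8 : 0 ≤ (25689 / 10 ^ 7 - e) *
      ((42 + 1) / 2 * (54178 / 1000 / 2) ^ 2 * (8662098 / 10 ^ 8) *
        (e ^ 2 + e * (25689 / 10 ^ 7) + (25689 / 10 ^ 7) ^ 2) -
        (54178 / 1000 / 2 * (4669359491 / 10 ^ 13) -
          (54178 / 1000 / 2) ^ 2 * (8589702 / 10 ^ 8 * G))) := by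
    refine mul_nonneg (by linarith) ?_
    have h9 : (98 / 43000 : ℝ) ^ 2 ≤ e ^ 2 := pow_le_pow_left₀ (by norm_num) helo 2
    norm_num at h9 ⊢
    linarith
  norm_num at h3 h4 h5 h7 h8 ⊢
  nlinarith [h3, h4, h5, h7, h8]

/-- upper endpoint: crude lower bound of `X_1` -/
theorem hi_X1_crude {J41 J42 J43 e g X1 r : ℝ} (a41 : |J41| ≤ 8589702 / 10 ^ 8)
    (a42 : J42 ≤ -4669359491 / 10 ^ 13) (a43 : -8662098 / 10 ^ 8 ≤ J43)
    (hg : |g| ≤ 62 / 850000) (helo : 98 / 43000 ≤ e) (hehi : e ≤ 25689 / 10 ^ 7)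
    (hr : r ≤ 1982 / 10 ^ 9)
    (R : |X1 - (-(54178 / 1000 / 2) * J42 * e + (42 + 1) / 2 * (54178 / 1000 / 2) ^ 2 * J43 * e ^ 3 -
      (54178 / 1000 / 2) ^ 2 * J41 * e * g)| ≤ r) : -(4470 / 10 ^ 9) ≤ X1 := by
  have h := hi_X1_aux a41 a42 a43 hg helo hehi R
  refine le_trans ?_ h
  norm_num at hr ⊢
  linarith

/-- upper endpoint: `X_1 > 0` -/
theorem hi_X1 {J41 J42 J43 e g X1 r : ℝ} (a41 : |J41| ≤ 8589702 / 10 ^ 8)
    (a42 : J42 ≤ -4669359491 / 10 ^ 13) (a43 : -8662098 / 10 ^ 8 ≤ J43)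
    (hg : |g| ≤ 36 / 850000) (helo : 98 / 43000 ≤ e) (hehi : e ≤ 25689 / 10 ^ 7)
    (hr : r ≤ 1715 / 10 ^ 9)
    (R : |X1 - (-(54178 / 1000 / 2) * J42 * e + (42 + 1) / 2 * (54178 / 1000 / 2) ^ 2 * J43 * e ^ 3 -
      (54178 / 1000 / 2) ^ 2 * J41 * e * g)| ≤ r) : 0 < X1 := by
  have h := hi_X1_aux a41 a42 a43 hg helo hehi R
  refine lt_of_lt_of_le ?_ h
  norm_num at hr ⊢
  linarith

/-- lower endpoint, `X_1 < 0` -/
theorem lo_X1 {J41 J42 J43 e g X1 r : ℝ} (a41 : |J41| ≤ 8624348 / 10 ^ 8)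
    (a42 : -97839081 / 10 ^ 13 ≤ J42) (a43 : J43 ≤ -8625863 / 10 ^ 8)
    (hg : |g| ≤ 18 / 850000) (helo : 55 / 43000 ≤ e) (hr : r ≤ 180 / 10 ^ 9)
    (R : |X1 - (-(541833 / 10000 / 2) * J42 * e +
      (42 + 1) / 2 * (541833 / 10000 / 2) ^ 2 * J43 * e ^ 3 -
      (541833 / 10000 / 2) ^ 2 * J41 * e * g)| ≤ r) : X1 < 0 := by
  have he0 : 0 ≤ e := by linarith
  have h3 := (abs_le.1 R).2
  have h4 : -J42 * e ≤ 97839081 / 10 ^ 13 * e :=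
    mul_le_mul_of_nonneg_right (by norm_num at a42 ⊢; linarith) he0
  have h2 : (55 / 43000 : ℝ) ^ 2 ≤ e ^ 2 := pow_le_pow_left₀ (by norm_num) helo 2
  have h2' : e * (55 / 43000 : ℝ) ^ 2 ≤ e * e ^ 2 := mul_le_mul_of_nonneg_left h2 he0
  have h5 : J43 * e ^ 3 ≤ -8625863 / 10 ^ 8 * e ^ 3 :=
    mul_le_mul_of_nonneg_right a43 (by positivity)
  have h6 : |J41 * g| ≤ 8624348 / 10 ^ 8 * (18 / 850000) := by
    rw [abs_mul]
    exact mul_le_mul a41 hg (abs_nonneg _) (by norm_num)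
  have h7 : -(e * (J41 * g)) ≤ e * (8624348 / 10 ^ 8 * (18 / 850000)) := by
    have := mul_le_mul_of_nonneg_left ((neg_le_abs _).trans h6) he0
    linarith
  have h8 : e * e ^ 2 = e ^ 3 := by ring
  rw [h8] at h2'
  norm_num at h2' h3 h4 h5 h7 hr helo
  nlinarith [h3, h4, h5, h7, h2']

end SCHC
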