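import Pool.Agent.MP_83fd13_an.SCH.CertDefs

/-!
# [SCH] the statements of the two endpoint certificates
-/

set_option autoImplicit false

open Metric Set MeasureTheory Filter Topology

namespace SCHC

/-- the crude information on the fixed point at an endpoint, used by the certificate:
`e0 ≤ φ_1 ≤ e1`, `|φ_2| ≤ p2`, `∑_{k≥3} |φ_k| ≤ τ`, `c = u_0(1) < 0` -/
structure EndBox (φ : ℕ → ℝ) (c e0 e1 p2 τ : ℝ) : Prop where
  lo : e0 ≤ φ 1
  hi : φ 1 ≤ e1
  p2 : |φ 2| ≤ p2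
  τ : ∑' k, |φ (k + 3)| ≤ τ
  c : c < 0

/-- the statement of an endpoint theorem (certificate) with conclusion `P h` -/
def Cert (ρ e0 e1 p2 τ : ℝ) (P : ℝ → Prop) : Prop :=
  ∀ (ψ : ℕ → ℝ) (c h : ℝ), (Summable fun k => |ψ (k + 1)|) → EndBox ψ c e0 e1 p2 τ →
    (∀ κ, (c : ℂ) * XX 42 ρ ψ κ + (h : ℂ) * YY 42 ρ ψ κ = 0) → P h

/-- the two endpoint theorems, final constants -/
def CertHi : Prop :=
  Cert (54178 / 1000) (98 / 1000) (120 / 1000) (62 / 10000) (25 / 10000) fun h => 0 < h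

def CertLo : Prop :=
  Cert (541833 / 10000) (55 / 1000) (65 / 1000) (18 / 10000) (12 / 10000) fun h => h < 0

end SCHC
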