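import Pool.Agent.MP_83fd13_an.SCH.CertN
import Pool.Agent.MP_83fd13_an.SCH.CertB0
import Pool.Agent.MP_83fd13_an.SCH.CertDec
import Pool.Agent.MP_83fd13_an.SCH.CertNum
import Pool.Agent.MP_83fd13_an.SCH.CertMono
import Pool.Agent.MP_83fd13_an.SCH.CertStmt

/-!
# [SCH] certificate: the endpoint `ρ = 54.178`, where `h > 0`
-/

set_option autoImplicit false

open Metric Set MeasureTheory
open scoped RealInnerProductSpace NNReal ComplexConjugate

namespace SCHC

open SCHG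

/-- **At the endpoint `ρ = 54.178`: `h > 0`.** -/
theorem certHi : CertHi := by
  intro φ c h hs E K
  obtain ⟨h1, h1', h2, hτ, hc⟩ := E
  obtain ⟨J, hJ, hJn, b0, b1, b2, b3, b39, b40, b41, b42, b43, b44, b45, b84, b85, p95, d95,
    hrec⟩ := bes_hi
  have hga : |φ 2 / 85| ≤ 62 / 850000 := by
    rw [abs_div, abs_of_pos (by norm_num : (0 : ℝ) < 85), div_le_iff₀ (by norm_num)]
    norm_num at h2 ⊢
    linarith only [h2]
  have hga0 := abs_nonneg (φ 2 / 85)
  have D : Dat 42 (54178 / 1000) φ (φ 1 / 43) (φ 2 / 85) (25 / 10000) (25 / 10000 / 127)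
      (|φ 2 / 85| + 25 / 10000 / 127) (85 * |φ 2 / 85| + 25 / 10000) := by
    refine dat_of (by norm_num) hs (by linarith) hτ ?_
    norm_num at hga ⊢
    linarith only [hga, h1']
  have helo : 98 / 43000 ≤ φ 1 / 43 := by linarith only [h1]
  have hehi : φ 1 / 43 ≤ 120 / 43000 := by linarith only [h1']
  have hP2nn : (0 : ℝ) ≤ 85 * |φ 2 / 85| + 25 / 10000 := by positivity
  have hGann : (0 : ℝ) ≤ |φ 2 / 85| + 25 / 10000 / 127 := by positivity
  have hPle : 85 * |φ 2 / 85| + 25 / 10000 ≤ 87 / 10 ^ 4 := by norm_num at hga ⊢; linarith only [hga]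
  have hGale : |φ 2 / 85| + 25 / 10000 / 127 ≤ 62 / 850000 + 25 / 10 ^ 4 / 127 := by
    norm_num at hga ⊢; linarith only [hga]
  generalize φ 1 / 43 = e at D helo hehi
  generalize φ 2 / 85 = g2 at D hga hga0 hP2nn hGann hPle hGale
  have a0 := abs_le.1 b0
  have a1 := abs_le.1 b1
  have a2 := abs_le.1 b2
  have a3 := abs_le.1 b3
  have a41 := abs_le.1 b41
  have a42 := abs_le.1 b42
  have a43 := abs_le.1 b43
  have a84 := abs_le.1 b84
  have a85 := abs_le.1 b85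
  have n1 : J (-1) = -J 1 := by rw [hJn]; norm_num
  have n2 : J (-2) = J 2 := by rw [hJn]; norm_num
  have n3 : J (-3) = -J 3 := by rw [hJn]; norm_num
  norm_num at a0 a1 a2 a3 a41 a42 a43 a84 a85
  have c0 : |J 0| ≤ 10839 / 10 ^ 5 := abs_le.2 ⟨by norm_num; linarith only [a0.1], by norm_num; linarith only [a0.2]⟩
  have c1 : |J 1| ≤ 8188 / 10 ^ 7 := abs_le.2 ⟨by norm_num; linarith only [a1.1], by norm_num; linarith only [a1.2]⟩
  have c2 : |J 2| ≤ 10842 / 10 ^ 5 := abs_le.2 ⟨by norm_num; linarith only [a2.1], by norm_num; linarith only [a2.2]⟩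
  have c3 : |J 3| ≤ 719 / 10 ^ 5 := abs_le.2 ⟨by norm_num; linarith only [a3.1], by norm_num; linarith only [a3.2]⟩
  have c41 : |J 41| ≤ 867 / 10 ^ 4 := abs_le.2 ⟨by norm_num; linarith only [a41.1], by norm_num; linarith only [a41.2]⟩
  have c42 : |J 42| ≤ 467 / 10 ^ 6 := abs_le.2 ⟨by norm_num; linarith only [a42.1], by norm_num; linarith only [a42.2]⟩
  have c43 : |J 43| ≤ 867 / 10 ^ 4 := abs_le.2 ⟨by norm_num; linarith only [a43.1], by norm_num; linarith only [a43.2]⟩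
  have l84 : 7343535 / 10 ^ 17 ≤ J 84 := by norm_num; linarith only [a84.1]
  have u84 : J 84 ≤ 7343555 / 10 ^ 17 := by norm_num; linarith only [a84.2]
  have l85 : 2637802 / 10 ^ 17 ≤ J 85 := by norm_num; linarith only [a85.1]
  have u85 : J 85 ≤ 2637822 / 10 ^ 17 := by norm_num; linarith only [a85.2]
  have p84 : 0 ≤ J 84 := le_trans (by norm_num) l84
  have p85 : 0 ≤ J 85 := le_trans (by norm_num) l85
  have he0 : 0 ≤ e := by linarith only [helo]
  have hxnn : (0 : ℝ) ≤ 54178 / 1000 / 2 := by norm_num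
  -- the bounds
  have B1 := X1_bound 42 _ φ e g2 _ _ _ _ D J hJ (467 / 10 ^ 6) (867 / 10 ^ 4) (1372 / 10 ^ 4)
    (by rw [i42 J]; exact c42) (by rw [i41 J]; exact c41) (by rw [i43 J]; exact c43)
    (by rw [i40 J]; exact b40) (by rw [i44 J]; exact b44) (by rw [i39 J]; exact b39)
    (by rw [i45 J]; exact b45)
  have B0 := X0_bound 42 _ φ e g2 _ _ _ _ D J hJ (10839 / 10 ^ 5) (8188 / 10 ^ 7)
    (10842 / 10 ^ 5) (719 / 10 ^ 5) c0 c1 (by rw [n1, abs_neg]; exact c1) c2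
    (by rw [n2]; exact c2) c3 (by rw [n3, abs_neg]; exact c3)
  have BY0 := Y0_bound 42 _ φ e g2 _ _ _ _ D J hJ n2 (10839 / 10 ^ 5) (8188 / 10 ^ 7)
    (10842 / 10 ^ 5) (719 / 10 ^ 5) c0 c1 (by rw [n1, abs_neg]; exact c1) c2 c3
    (by rw [n3, abs_neg]; exact c3)
  have BY1 := Y1_bound 42 _ φ e g2 _ _ _ _ D J hJ (467 / 10 ^ 6) (867 / 10 ^ 4) (1372 / 10 ^ 4)
    (by rw [i42 J]; exact c42) (by rw [i41 J]; exact c41) (by rw [i43 J]; exact c43)
    (by rw [i40 J]; exact b40) (by rw [i44 J]; exact b44) (by rw [i39 J]; exact b39)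
    (by rw [i45 J]; exact b45)
  have R1 := re_close B1
  have R0 := re_close B0
  have RY0 := re_close BY0
  have RY1 := re_close BY1
  have K0 := key_re (K 0)
  have K1 := key_re (K 1)
  rw [i41 J, i42 J, i43 J] at R1
  rw [i41 J, i43 J] at RY1
  rw [n1] at R0
  have E0 := (er0_mono (n := ((42 : ℕ) : ℝ)) (by norm_num) hxnn he0 hehi hGann hGale hP2nn hPle
    (a0 := 10839 / 10 ^ 5) (a1 := 8188 / 10 ^ 7) (a2 := 10842 / 10 ^ 5) (a3 := 719 / 10 ^ 5)
    (by norm_num) (by norm_num) (by norm_num) (by norm_num)).trans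
    (show _ ≤ (14318 / 10 ^ 9 : ℝ) by unfold er0; norm_num)
  have EY0 := (ey0_mono (n := ((42 : ℕ) : ℝ)) (by norm_num) hxnn he0 hehi hGann hGale hP2nn hPle
    (a0 := 10839 / 10 ^ 5) (a1 := 8188 / 10 ^ 7) (a2 := 10842 / 10 ^ 5) (a3 := 719 / 10 ^ 5)
    (by norm_num) (by norm_num) (by norm_num) (by norm_num)).trans
    (show _ ≤ (8 / 10 ^ 3 : ℝ) by unfold ey0; norm_num)
  by_contra hh
  rw [not_lt] at hh
  have hY0 : 0 ≤ (YY 42 (54178 / 1000) φ 0).re :=
    hi_Y0 (J0 := J 0) (J2 := J 2) (by norm_num; linarith only [a0.2]) (by norm_num; linarith only [a2.1])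
      helo EY0 RY0
  have hX0 : (XX 42 (54178 / 1000) φ 0).re ≤ 0 := by
    by_contra hx
    rw [not_le] at hx
    have h3 := mul_neg_of_neg_of_pos hc hx
    have h4 := mul_nonpos_of_nonpos_of_nonneg hh hY0
    linarith only [K0, h3, h4]
  have he1 : e ≤ 25689 / 10 ^ 7 := by
    exact hi_e (J0 := J 0) (J1 := J 1) (by norm_num; linarith only [a0.2])
      (by norm_num; linarith only [a1.2]) E0 R0 hX0
  have EY1 := (ey1_mono (n := ((42 : ℕ) : ℝ)) (by norm_num) hxnn he0 he1 hGann hGale hP2nn hPle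
    (j0 := 467 / 10 ^ 6) (j1 := 867 / 10 ^ 4) (j := 1372 / 10 ^ 4)
    (by norm_num) (by norm_num) (by norm_num)).trans
    (show _ ≤ (467 / 10 ^ 4 : ℝ) by unfold ey1; norm_num)
  have hY1 : 395 / 10 ^ 4 ≤ (YY 42 (54178 / 1000) φ 1).re :=
    Y1_low (J41 := J 41) (J43 := J 43) (by norm_num; linarith only [a41.1, a43.2]) EY1 RY1
  have E1 := (er1_mono (n := ((42 : ℕ) : ℝ)) (by norm_num) hxnn he0 he1 hGann hGale
    (by norm_num : (0 : ℝ) ≤ 25 / 10000 / 127) hP2nn hPle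
    (j0 := 467 / 10 ^ 6) (j1 := 867 / 10 ^ 4) (j := 1372 / 10 ^ 4)
    (by norm_num) (by norm_num) (by norm_num)).trans
    (show _ ≤ (1982 / 10 ^ 9 : ℝ) by unfold er1; norm_num)
  have hX1c : -(4470 / 10 ^ 9) ≤ (XX 42 (54178 / 1000) φ 1).re := by
    exact hi_X1_crude (J41 := J 41) (J42 := J 42) (J43 := J 43)
      (abs_le.2 ⟨by norm_num; linarith only [a41.1], by norm_num; linarith only [a41.2]⟩)
      (by norm_num; linarith only [a42.2]) (by norm_num; linarith only [a43.1]) hga helo he1 E1 R1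
  -- `|h| ≤ H |c|`
  have hH : -h ≤ 12 / 10 ^ 5 * (-c) := by
    have h3 : -h * (395 / 10 ^ 4) ≤ -h * (YY 42 (54178 / 1000) φ 1).re :=
      mul_le_mul_of_nonneg_left hY1 (by linarith only [hh])
    have h4 : -c * -(4470 / 10 ^ 9) ≤ -c * (XX 42 (54178 / 1000) φ 1).re :=
      mul_le_mul_of_nonneg_left hX1c (by linarith only [hc])
    linarith only [h3, h4, K1, hc]
  -- `κ = 2`
  have hE84 : Real.exp (84 * (e + (|g2| + 25 / 10000 / 127))) ≤ 12508 / 10 ^ 4 := by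
    apply exp84_le
    norm_num at he1 hGale ⊢
    linarith only [he1, hGale]
  have hE85 : Real.exp (85 * (e + (|g2| + 25 / 10000 / 127))) ≤ 12540 / 10 ^ 4 := by
    apply exp85_le
    norm_num at he1 hGale ⊢
    linarith only [he1, hGale]
  have hxE : 54178 / 1000 / 2 * (e + (|g2| + 25 / 10000 / 127)) ≤ 1 / 10 := by
    norm_num at he1 hGale ⊢
    linarith only [he1, hGale]
  have d1 := dec_h1 (J := J) (ρ := 54178 / 1000) (by norm_num) (by norm_num) hrec p95 d95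
  have d2 := dec_h2 (J := J) (ρ := 54178 / 1000) (by norm_num) (by norm_num) hrec p95 d95
  have BX2 := X2_bound _ φ e g2 _ _ _ _ D J hJ p84 p85 d1 d2 _ _ hE84 hE85
    (hxE.trans (by norm_num))
  have BY2 := Y2_bound _ φ e g2 _ _ _ _ D J hJ p84 p85 d1 d2 _ _ hE84 hE85 hxE
  have R2 := re_close BX2
  have K2 := key_re (K 2)
  have RY2 : |(YY 42 (54178 / 1000) φ 2).re| ≤ _ := (Complex.abs_re_le_norm _).trans BY2
  have E2 := er2_mono (x := 54178 / 1000 / 2) (G3 := 25 / 10000 / 127) (c84 := 12508 / 10 ^ 4)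
    (c85 := 12540 / 10 ^ 4) hxnn he0 he1 hGann hGale (by norm_num) hP2nn hPle (by norm_num)
    (by norm_num) p84 u84 p85 u85
  have EY2 := ey2_mono (x := 54178 / 1000 / 2) (c84 := 12508 / 10 ^ 4)
    (c85 := 12540 / 10 ^ 4) hxnn he0 he1 hGann hGale hP2nn hPle (by norm_num)
    (by norm_num) p84 u84 p85 u85
  have hX2 : |(XX 42 (54178 / 1000) φ 2).re| ≤ 12 / 10 ^ 5 *
      ey2 (54178 / 1000 / 2) (25689 / 10 ^ 7) (62 / 850000 + 25 / 10 ^ 4 / 127) (87 / 10 ^ 4)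
        (12508 / 10 ^ 4) (12540 / 10 ^ 4) (7343555 / 10 ^ 17) (2637822 / 10 ^ 17) := by
    have h3 : |c| * |(XX 42 (54178 / 1000) φ 2).re| = |h| * |(YY 42 (54178 / 1000) φ 2).re| := by
      rw [← abs_mul, ← abs_mul]
      have : c * (XX 42 (54178 / 1000) φ 2).re = -(h * (YY 42 (54178 / 1000) φ 2).re) := by linarith only [K2]
      rw [this, abs_neg]
    have h4 : |h| ≤ 12 / 10 ^ 5 * |c| := by
      rw [abs_of_nonpos hh, abs_of_neg hc]
      exact hH
    have h5 : |h| * |(YY 42 (54178 / 1000) φ 2).re| ≤ (12 / 10 ^ 5 * |c|) *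
        ey2 (54178 / 1000 / 2) (25689 / 10 ^ 7) (62 / 850000 + 25 / 10 ^ 4 / 127) (87 / 10 ^ 4)
        (12508 / 10 ^ 4) (12540 / 10 ^ 4) (7343555 / 10 ^ 17) (2637822 / 10 ^ 17) :=
      mul_le_mul h4 (RY2.trans EY2) (abs_nonneg _) (by positivity)
    have hcp : 0 < |c| := abs_pos.2 hc.ne
    refine le_of_mul_le_mul_left ?_ hcp
    rw [h3]
    refine h5.trans (le_of_eq ?_)
    ring
  have hg : |g2| ≤ 36 / 850000 := by
    refine hi_g2 (J84 := J 84) (J85 := J 85) l84 u85 p85 he0 he1 (R2.trans E2) hX2 ?_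
    unfold er2 ey2
    norm_num
  -- the refined bound of `X_1`
  have hPle' : 85 * |g2| + 25 / 10000 ≤ 61 / 10 ^ 4 := by norm_num at hg ⊢; linarith only [hg]
  have hGale' : |g2| + 25 / 10000 / 127 ≤ 36 / 850000 + 25 / 10 ^ 4 / 127 := by
    norm_num at hg ⊢; linarith only [hg]
  have E1' := (er1_mono (n := ((42 : ℕ) : ℝ)) (by norm_num) hxnn he0 he1 hGann hGale'
    (by norm_num : (0 : ℝ) ≤ 25 / 10000 / 127) hP2nn hPle'
    (j0 := 467 / 10 ^ 6) (j1 := 867 / 10 ^ 4) (j := 1372 / 10 ^ 4)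
    (by norm_num) (by norm_num) (by norm_num)).trans
    (show _ ≤ (1715 / 10 ^ 9 : ℝ) by unfold er1; norm_num)
  have hX1 : 0 < (XX 42 (54178 / 1000) φ 1).re := by
    exact hi_X1 (J41 := J 41) (J42 := J 42) (J43 := J 43)
      (abs_le.2 ⟨by norm_num; linarith only [a41.1], by norm_num; linarith only [a41.2]⟩)
      (by norm_num; linarith only [a42.2]) (by norm_num; linarith only [a43.1]) hg helo he1 E1' R1
  have h3 := mul_neg_of_neg_of_pos hc hX1
  have h4 := mul_nonpos_of_nonpos_of_nonneg hh ((by norm_num : (0 : ℝ) ≤ 395 / 10 ^ 4).trans hY1)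
  linarith only [K1, h3, h4]

end SCHC
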