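import Pool.Agent.MP_83fd13_an.SCH.CertMean
import Pool.Agent.MP_83fd13_an.SCH.CertGreen

/-!
# [SCH] certificate: the key identity `c X_κ + h Y_κ = 0`
-/

set_option autoImplicit false

open Metric Set MeasureTheory
open scoped RealInnerProductSpace NNReal ComplexConjugate

namespace SCHC

open SCHG

theorem continuousOn_pp (N : ℕ) (φ : ℕ → ℝ) (hs : Summable fun k => |φ (k + 1)|) :
    ContinuousOn (pp N φ) (sphere 0 1) := by
  refine continuousOn_tsum (u := fun k => |φ (k + 1)|) (fun k => by fun_prop) hs ?_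
  intro k z hz
  rw [mem_sphere_zero_iff_norm] at hz
  rw [norm_mul, Complex.norm_real, norm_pow, Real.norm_eq_abs, hz, one_pow, mul_one]

theorem continuousOn_gg (N : ℕ) (φ : ℕ → ℝ) (hs : Summable fun k => |φ (k + 1)|) :
    ContinuousOn (gg N φ) (sphere 0 1) := by
  refine continuousOn_tsum (u := fun k => |φ (k + 1)|) (fun k => by fun_prop) hs ?_
  intro k z hz
  rw [mem_sphere_zero_iff_norm] at hz
  rw [norm_div, norm_mul, Complex.norm_real, norm_pow, Real.norm_eq_abs, hz, one_pow, mul_one,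
    Complex.norm_natCast]
  refine div_le_self (abs_nonneg _) ?_
  exact_mod_cast Nat.le_add_left 1 _

theorem fF_circle (N : ℕ) (ρ : ℝ) (φ : ℕ → ℝ) (w : ℂ) : fF N ρ φ w = ρ * w * (1 + gg N φ w) := by
  have h1 : (∑' k : ℕ, (φ (k + 1) : ℂ) * w ^ (N * (k + 1) + 1) / ((N * (k + 1) + 1 : ℕ) : ℂ)) =
      w * gg N φ w := by
    rw [gg, ← tsum_mul_left]
    refine tsum_congr fun k => ?_
    rw [pow_succ]
    ring
  rw [fF, h1]
  ring

theorem fF'_circle (N : ℕ) (ρ : ℝ) (φ : ℕ → ℝ) (w : ℂ) : fF' N ρ φ w = ρ * (1 + pp N φ w) := rfl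

theorem EE_smul (ρ : ℝ) (z : ℂ) : EE 1 (ρ * z) = EE ρ z := by
  rw [EE, EE, one_mul, Complex.im_ofReal_mul]

theorem continuous_EE (ρ : ℝ) : Continuous (EE ρ) := by
  unfold EE
  fun_prop

/-- continuity on the torus of a function of one variable -/
theorem ck_fst {F : ℂ → ℂ} (hF : ContinuousOn F (sphere 0 1)) :
    ContinuousOn (fun p : ℂ × ℂ => F p.1) (sphere 0 1 ×ˢ sphere 0 1) :=
  hF.comp continuousOn_fst fun _ hp => hp.1

theorem ck_zpow (m : ℤ) :
    ContinuousOn (fun p : ℂ × ℂ => p.2 ^ m) (sphere (0 : ℂ) 1 ×ˢ sphere (0 : ℂ) 1) := by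
  refine ContinuousOn.zpow₀ continuousOn_snd m fun p hp => Or.inl ?_
  intro h0
  have h2 := hp.2
  rw [mem_sphere_zero_iff_norm, h0, norm_zero] at h2
  exact zero_ne_one h2

/-- continuity of `F`, and the substitution `s = q w⁻¹` -/
theorem ck_main (N : ℕ) (ρ : ℝ) (φ : ℕ → ℝ) (hs : Summable fun k => |φ (k + 1)|)
    (n : ℕ) (V : ℂ → ℂ) (hV : ContinuousOn V (sphere 0 1)) (R : ℂ → ℂ) (hR : Continuous R)
    (hzero : ∀ s : ℂ, ‖s‖ = 1 →
      mn (fun w => V w * R (s * (w * fF' N ρ φ w)) * EE 1 (s * fF N ρ φ w)) = 0) :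
    mn (fun w => V w * mn fun q => R (ρ * (q * (1 + pp N φ w))) *
      (q ^ (-(n : ℤ)) * w ^ n * EE ρ (q * (1 + gg N φ w)))) = 0 := by
  have hpp := continuousOn_pp N φ hs
  have hgg := continuousOn_gg N φ hs
  -- the function on the torus
  set H : ℂ → ℂ → ℂ := fun w s => s ^ (-(n : ℤ)) *
    (V w * R (s * (w * fF' N ρ φ w)) * EE 1 (s * fF N ρ φ w)) with hH
  have hF' : ContinuousOn (fF' N ρ φ) (sphere 0 1) :=
    continuousOn_const.mul (continuousOn_const.add hpp)
  have hF : ContinuousOn (fF N ρ φ) (sphere 0 1) := by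
    refine ContinuousOn.congr (f := fun w => ρ * w * (1 + gg N φ w)) ?_
      fun w _ => fF_circle N ρ φ w
    exact (continuousOn_const.mul continuousOn_id).mul (continuousOn_const.add hgg)
  have hHc : ContinuousOn (fun p : ℂ × ℂ => H p.1 p.2) (sphere 0 1 ×ˢ sphere 0 1) := by
    refine (ck_zpow _).mul (((ck_fst hV).mul ?_).mul ?_)
    · exact hR.comp_continuousOn (continuousOn_snd.mul (continuousOn_fst.mul (ck_fst hF')))
    · exact (continuous_EE 1).comp_continuousOn (continuousOn_snd.mul (ck_fst hF))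
  have h1 : mn (fun s => mn fun w => H w s) = 0 := by
    have h2 : mn (fun s => mn fun w => H w s) = mn fun _ => (0 : ℂ) := by
      refine mn_congr fun s hs1 => ?_
      simp only [hH]
      rw [mn_const_mul, hzero s hs1, mul_zero]
    rw [h2, mn_const]
  rw [← mn_swap hHc] at h1
  rw [← h1]
  refine mn_congr fun w hw => ?_
  have hw0 : w ≠ 0 := by
    intro h
    rw [h, norm_zero] at hw
    exact zero_ne_one hw
  have hwi : ‖w⁻¹‖ = 1 := by rw [norm_inv, hw, inv_one]
  have hc : ContinuousOn (fun s => H w s) (sphere 0 1) := by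
    have h3 : ContinuousOn (fun s : ℂ => (w, s)) (sphere 0 1) := by fun_prop
    exact hHc.comp h3 fun s hs' => ⟨mem_sphere_zero_iff_norm.2 hw, hs'⟩
  rw [← mn_rot hc hwi, ← mn_const_mul]
  refine mn_congr fun q hq => ?_
  have hq0 : q ≠ 0 := by
    intro h
    rw [h, norm_zero] at hq
    exact zero_ne_one hq
  simp only [hH]
  have e1 : q * w⁻¹ * (w * fF' N ρ φ w) = ρ * (q * (1 + pp N φ w)) := by
    rw [fF'_circle]
    field_simp
  have e2 : q * w⁻¹ * fF N ρ φ w = ρ * (q * (1 + gg N φ w)) := by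
    rw [fF_circle]
    field_simp
  have e3 : (q * w⁻¹) ^ (-(n : ℤ)) = q ^ (-(n : ℤ)) * w ^ n := by
    rw [mul_zpow, inv_zpow, ← zpow_neg, neg_neg, zpow_natCast]
  rw [e1, e2, e3, EE_smul]
  ring

theorem key_of (N : ℕ) (ρ : ℝ) (hρ : 0 < ρ) (φ : ℕ → ℝ) (c h : ℝ) (U : ℂ → ℝ)
    (hs : Summable fun k => |φ (k + 1)|) (hUcc : ContinuousOn U (closedBall 0 1))
    (hbd : ∀ w : ℂ, ‖w‖ = 1 → U w = c + 2 * h * (w ^ N).re)
    (hgreen : ∀ s : ℂ, ‖s‖ = 1 → mn (fun w => (U w : ℂ) *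
      (((s * (w * fF' N ρ φ w)).im : ℝ) : ℂ) * EE 1 (s * fF N ρ φ w)) = 0) (κ : ℕ) :
    (c : ℂ) * XX N ρ φ κ + (h : ℂ) * YY N ρ φ κ = 0 := by
  have hpp := continuousOn_pp N φ hs
  have hgg := continuousOn_gg N φ hs
  have hρ0 : (ρ : ℂ) ≠ 0 := Complex.ofReal_ne_zero.2 hρ.ne'
  have hUc : ContinuousOn (fun w => (U w : ℂ)) (sphere 0 1) :=
    Complex.continuous_ofReal.comp_continuousOn (hUcc.mono sphere_subset_closedBall)
  have k1 := ck_main N ρ φ hs (N * κ) (fun w => (U w : ℂ)) hUc (fun z => ((z.im : ℝ) : ℂ))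
    (by fun_prop) fun s hs1 => hgreen s hs1
  have k2 := ck_main N ρ φ hs (N * κ) (fun _ => 1) continuousOn_const (fun z => ((z.re : ℝ) : ℂ))
    (by fun_prop) fun s _ => by
      have := stokes_plane N ρ φ hs s
      simpa using this
  -- the inner mean
  set T : ℂ → ℂ := fun w => mn fun q => (((q * (1 + pp N φ w)).im : ℝ) : ℂ) *
      (q ^ (-((N * κ : ℕ) : ℤ)) * w ^ (N * κ) * EE ρ (q * (1 + gg N φ w))) with hT
  set T2 : ℂ → ℂ := fun w => mn fun q => (((q * (1 + pp N φ w)).re : ℝ) : ℂ) *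
      (q ^ (-((N * κ : ℕ) : ℤ)) * w ^ (N * κ) * EE ρ (q * (1 + gg N φ w))) with hT2
  have hcont : ∀ R : ℂ → ℂ, Continuous R → ContinuousOn (fun p : ℂ × ℂ =>
      R (p.2 * (1 + pp N φ p.1)) * (p.2 ^ (-((N * κ : ℕ) : ℤ)) * p.1 ^ (N * κ) *
        EE ρ (p.2 * (1 + gg N φ p.1)))) (sphere 0 1 ×ˢ sphere 0 1) := by
    intro R hR
    refine (hR.comp_continuousOn (continuousOn_snd.mul (continuousOn_const.add (ck_fst hpp)))).mul
      (((ck_zpow _).mul (continuousOn_fst.pow _)).mul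
        ((continuous_EE ρ).comp_continuousOn
          (continuousOn_snd.mul (continuousOn_const.add (ck_fst hgg)))))
  have hTc : ContinuousOn T (sphere 0 1) :=
    continuousOn_mn (hcont (fun z => ((z.im : ℝ) : ℂ)) (by fun_prop))
  have k1' : mn (fun w => (U w : ℂ) * T w) = 0 := by
    have e : mn (fun w => (U w : ℂ) * mn fun q => ((((ρ : ℂ) * (q * (1 + pp N φ w))).im : ℝ) : ℂ) *
        (q ^ (-((N * κ : ℕ) : ℤ)) * w ^ (N * κ) * EE ρ (q * (1 + gg N φ w)))) =
        ρ * mn (fun w => (U w : ℂ) * T w) := by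
      rw [← mn_const_mul]
      refine mn_congr fun w _ => ?_
      have e1 : (mn fun q => ((((ρ : ℂ) * (q * (1 + pp N φ w))).im : ℝ) : ℂ) *
          (q ^ (-((N * κ : ℕ) : ℤ)) * w ^ (N * κ) * EE ρ (q * (1 + gg N φ w)))) = ρ * T w := by
        rw [hT]
        simp only
        rw [← mn_const_mul]
        refine mn_congr fun q _ => ?_
        rw [Complex.im_ofReal_mul]
        push_cast
        ring
      rw [e1]
      ring
    rw [e] at k1
    exact (mul_eq_zero.1 k1).resolve_left hρ0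
  have k2' : mn T2 = 0 := by
    have e : mn (fun w => (1 : ℂ) * mn fun q => ((((ρ : ℂ) * (q * (1 + pp N φ w))).re : ℝ) : ℂ) *
        (q ^ (-((N * κ : ℕ) : ℤ)) * w ^ (N * κ) * EE ρ (q * (1 + gg N φ w)))) =
        ρ * mn T2 := by
      rw [← mn_const_mul]
      refine mn_congr fun w _ => ?_
      rw [hT2, one_mul]
      simp only
      rw [← mn_const_mul]
      congr 1
      funext q
      rw [Complex.re_ofReal_mul]
      push_cast
      ring
    rw [e] at k2
    exact (mul_eq_zero.1 k2).resolve_left hρ0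
  -- `X = I * mean of T`
  have hX : XX N ρ φ κ = Complex.I * mn T := by
    have hT2c : ContinuousOn T2 (sphere 0 1) :=
      continuousOn_mn (hcont (fun z => ((z.re : ℝ) : ℂ)) (by fun_prop))
    have e : XX N ρ φ κ = mn fun w => T2 w + Complex.I * T w := by
      rw [XX]
      refine mn_congr fun w hw => ?_
      rw [hT, hT2]
      simp only
      rw [← mn_const_mul, ← mn_add]
      · refine mn_congr fun q hq => ?_
        have hq0 : q ≠ 0 := by
          intro h
          rw [h, norm_zero] at hq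
          exact zero_ne_one hq
        have e1 : q ^ (1 - ((N * κ : ℕ) : ℤ)) = q * q ^ (-((N * κ : ℕ) : ℤ)) := by
          rw [sub_eq_add_neg, zpow_add₀ hq0, zpow_one]
        rw [e1]
        have e2 := Complex.re_add_im (q * (1 + pp N φ w))
        calc q * q ^ (-((N * κ : ℕ) : ℤ)) * w ^ (N * κ) * (1 + pp N φ w) *
              EE ρ (q * (1 + gg N φ w)) = (q * (1 + pp N φ w)) *
              (q ^ (-((N * κ : ℕ) : ℤ)) * w ^ (N * κ) * EE ρ (q * (1 + gg N φ w))) := by ring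
          _ = ((((q * (1 + pp N φ w)).re : ℝ) : ℂ) + (((q * (1 + pp N φ w)).im : ℝ) : ℂ) *
              Complex.I) *
              (q ^ (-((N * κ : ℕ) : ℤ)) * w ^ (N * κ) * EE ρ (q * (1 + gg N φ w))) := by rw [e2]
          _ = _ := by ring
      · have h3 : ContinuousOn (fun s : ℂ => (w, s)) (sphere 0 1) := by fun_prop
        exact (hcont (fun z => ((z.re : ℝ) : ℂ)) (by fun_prop)).comp h3
          fun s hs' => ⟨mem_sphere_zero_iff_norm.2 hw, hs'⟩
      · have h3 : ContinuousOn (fun s : ℂ => (w, s)) (sphere 0 1) := by fun_prop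
        exact continuousOn_const.mul
          ((hcont (fun z => ((z.im : ℝ) : ℂ)) (by fun_prop)).comp h3
          fun s hs' => ⟨mem_sphere_zero_iff_norm.2 hw, hs'⟩)
    rw [e, mn_add (F := T2) (G := fun w => Complex.I * T w) hT2c (continuousOn_const.mul hTc), k2',
      zero_add, mn_const_mul]
  have hY : YY N ρ φ κ = Complex.I * mn (fun w => (2 * ((w ^ N).re : ℂ)) * T w) := by
    rw [YY, ← mn_const_mul]
    refine mn_congr fun w _ => ?_
    rw [hT]
    simp only
    rw [← mn_const_mul, ← mn_const_mul]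
    refine mn_congr fun q _ => ?_
    ring
  have hre : ContinuousOn (fun w : ℂ => (2 * ((w ^ N).re : ℂ)) * T w) (sphere 0 1) := by
    refine ContinuousOn.mul ?_ hTc
    fun_prop
  have hsplit : mn (fun w => (U w : ℂ) * T w) =
      c * mn T + h * mn (fun w => (2 * ((w ^ N).re : ℂ)) * T w) := by
    rw [← mn_const_mul, ← mn_const_mul, ← mn_add (F := fun w => (c : ℂ) * T w)
      (G := fun w => (h : ℂ) * ((2 * ((w ^ N).re : ℂ)) * T w)) (continuousOn_const.mul hTc)
      (continuousOn_const.mul hre)]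
    refine mn_congr fun w hw => ?_
    rw [hbd w hw]
    push_cast
    ring
  rw [hX, hY]
  rw [hsplit] at k1'
  linear_combination Complex.I * k1'

/-- **The key identity** for the fixed point data. -/
theorem key {N : ℕ} {ρ : ℝ} {φ : ℕ → ℝ} {u u' u'' : ℕ → ℝ → ℝ} {B : ℕ → ℝ}
    (H : FP N ρ φ u u' u'' B) (hz : ∀ k, u (k + 2) 1 = 0) (κ : ℕ) :
    ((u 0 1 : ℝ) : ℂ) * XX N ρ φ κ + ((u 1 1 : ℝ) : ℂ) * YY N ρ φ κ = 0 :=
  key_of N ρ H.ρ0 φ (u 0 1) (u 1 1) (UU N (aa u)) (Sol_of_FP H hz).hs H.continuousOn_U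
    (Sol_of_FP H hz).bd (fun s hs => green_plane H s hs) κ

end SCHC
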