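import Pool.Agent.MP_83fd13_an.SCH.CertN
import Pool.Agent.MP_83fd13_an.SCH.CertB1
import Pool.Agent.MP_83fd13_an.SCH.CertBY
import Pool.Agent.MP_83fd13_an.SCH.CertNum
import Pool.Agent.MP_83fd13_an.SCH.CertMono
import Pool.Agent.MP_83fd13_an.SCH.CertStmt

/-!
# [SCH] certificate: the endpoint `ρ = 54.1833`, where `h < 0`
-/

set_option autoImplicit false

open Metric Set MeasureTheory
open scoped RealInnerProductSpace NNReal ComplexConjugate

namespace SCHC

open SCHG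

/-- **At the endpoint `ρ = 54.1833`: `h < 0`.** -/
theorem certLo : CertLo := by
  intro φ c h hs E K
  obtain ⟨h1, h1', h2, hτ, hc⟩ := E
  obtain ⟨J, hJ, hJn, b0, b1, b2, b3, b39, b40, b41, b42, b43, b44, b45⟩ := bes_lo
  have hga : |φ 2 / 85| ≤ 18 / 850000 := by
    rw [abs_div, abs_of_pos (by norm_num : (0 : ℝ) < 85), div_le_iff₀ (by norm_num)]
    norm_num at h2 ⊢
    linarith
  have hga0 := abs_nonneg (φ 2 / 85)
  have D : Dat 42 (541833 / 10000) φ (φ 1 / 43) (φ 2 / 85) (12 / 10000) (12 / 10000 / 127)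
      (|φ 2 / 85| + 12 / 10000 / 127) (85 * |φ 2 / 85| + 12 / 10000) := by
    refine dat_of (by norm_num) hs (by linarith) hτ ?_
    norm_num at hga ⊢
    linarith
  have helo : 55 / 43000 ≤ φ 1 / 43 := by linarith
  have hehi : φ 1 / 43 ≤ 65 / 43000 := by linarith
  have hP2nn : (0 : ℝ) ≤ 85 * |φ 2 / 85| + 12 / 10000 := by positivity
  have hGann : (0 : ℝ) ≤ |φ 2 / 85| + 12 / 10000 / 127 := by positivity
  have hPle : 85 * |φ 2 / 85| + 12 / 10000 ≤ 30 / 10 ^ 4 := by norm_num at hga ⊢; linarith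
  have hGale : |φ 2 / 85| + 12 / 10000 / 127 ≤ 18 / 850000 + 12 / 10 ^ 4 / 127 := by
    norm_num at hga ⊢; linarith
  generalize φ 1 / 43 = e at D helo hehi
  generalize φ 2 / 85 = g2 at D hga hga0 hP2nn hGann hPle hGale
  have a41 := abs_le.1 b41
  have a42 := abs_le.1 b42
  have a43 := abs_le.1 b43
  norm_num at a41 a42 a43
  have c41 : |J 41| ≤ 863 / 10 ^ 4 := abs_le.2 ⟨by norm_num; linarith [a41.1], by norm_num; linarith [a41.2]⟩
  have c42 : |J 42| ≤ 979 / 10 ^ 8 := abs_le.2 ⟨by norm_num; linarith [a42.1], by norm_num; linarith [a42.2]⟩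
  have c43 : |J 43| ≤ 863 / 10 ^ 4 := abs_le.2 ⟨by norm_num; linarith [a43.1], by norm_num; linarith [a43.2]⟩
  have he0 : 0 ≤ e := by linarith
  have hxnn : (0 : ℝ) ≤ 541833 / 10000 / 2 := by norm_num
  -- the bounds
  have B1 := X1_bound 42 _ φ e g2 _ _ _ _ D J hJ (979 / 10 ^ 8) (863 / 10 ^ 4) (1372 / 10 ^ 4)
    (by rw [i42 J]; exact c42) (by rw [i41 J]; exact c41) (by rw [i43 J]; exact c43)
    (by rw [i40 J]; exact b40) (by rw [i44 J]; exact b44) (by rw [i39 J]; exact b39)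
    (by rw [i45 J]; exact b45)
  have BY1 := Y1_bound 42 _ φ e g2 _ _ _ _ D J hJ (979 / 10 ^ 8) (863 / 10 ^ 4) (1372 / 10 ^ 4)
    (by rw [i42 J]; exact c42) (by rw [i41 J]; exact c41) (by rw [i43 J]; exact c43)
    (by rw [i40 J]; exact b40) (by rw [i44 J]; exact b44) (by rw [i39 J]; exact b39)
    (by rw [i45 J]; exact b45)
  have R1 := re_close B1
  have RY1 := re_close BY1
  have K1 := key_re (K 1)
  rw [i41 J, i42 J, i43 J] at R1
  rw [i41 J, i43 J] at RY1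
  have EY1 := (ey1_mono (n := ((42 : ℕ) : ℝ)) (by norm_num) hxnn he0 hehi hGann hGale hP2nn hPle
    (j0 := 979 / 10 ^ 8) (j1 := 863 / 10 ^ 4) (j := 1372 / 10 ^ 4)
    (by norm_num) (by norm_num) (by norm_num)).trans
    (show _ ≤ (467 / 10 ^ 4 : ℝ) by unfold ey1; norm_num)
  have E1 := (er1_mono (n := ((42 : ℕ) : ℝ)) (by norm_num) hxnn he0 hehi hGann hGale
    (by norm_num : (0 : ℝ) ≤ 12 / 10000 / 127) hP2nn hPle
    (j0 := 979 / 10 ^ 8) (j1 := 863 / 10 ^ 4) (j := 1372 / 10 ^ 4)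
    (by norm_num) (by norm_num) (by norm_num)).trans
    (show _ ≤ (180 / 10 ^ 9 : ℝ) by unfold er1; norm_num)
  have hY1 : 395 / 10 ^ 4 ≤ (YY 42 (541833 / 10000) φ 1).re :=
    Y1_low (J41 := J 41) (J43 := J 43) (by norm_num; linarith [a41.1, a43.2]) EY1 RY1
  have hX1 : (XX 42 (541833 / 10000) φ 1).re < 0 := by
    exact lo_X1 (J41 := J 41) (J42 := J 42) (J43 := J 43)
      (abs_le.2 ⟨by norm_num; linarith [a41.1], by norm_num; linarith [a41.2]⟩)
      (by norm_num; linarith [a42.1]) (by norm_num; linarith [a43.2]) hga helo E1 R1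
  by_contra hh
  rw [not_lt] at hh
  have h3 := mul_pos_of_neg_of_neg hc hX1
  have h4 := mul_nonneg hh ((by norm_num : (0 : ℝ) ≤ 395 / 10 ^ 4).trans hY1)
  linarith

end SCHC
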