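import Pool.Agent.MP_83fd13_an.SCH.CertDefs

/-!
# [SCH] certificate: the mean over the unit circle
-/

set_option autoImplicit false

open Metric Set MeasureTheory
open scoped RealInnerProductSpace NNReal ComplexConjugate

namespace SCHC

open SCHG

theorem norm_cis (θ : ℝ) : ‖cis θ‖ = 1 := Complex.norm_exp_ofReal_mul_I θ

theorem cm_cis_mem (θ : ℝ) : cis θ ∈ sphere (0 : ℂ) 1 := by
  rw [mem_sphere_zero_iff_norm]; exact norm_cis θ

theorem cm_continuous_cis : Continuous cis := by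
  unfold cis
  fun_prop

theorem cm_cis_add (a b : ℝ) : cis (a + b) = cis a * cis b := by
  unfold cis
  rw [← Complex.exp_add]
  congr 1
  push_cast
  ring

theorem cm_cis_two_pi : cis (2 * Real.pi) = 1 := by
  unfold cis
  rw [Complex.ofReal_mul, Complex.ofReal_ofNat]
  exact Complex.exp_two_pi_mul_I

theorem cm_cis_zero : cis 0 = 1 := by
  unfold cis; simp

theorem exists_cis {w : ℂ} (hw : ‖w‖ = 1) : ∃ θ : ℝ, w = cis θ := by
  refine ⟨Complex.arg w, ?_⟩
  have := Complex.norm_mul_exp_arg_mul_I w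
  rw [hw] at this
  unfold cis
  rw [Complex.ofReal_one, one_mul] at this
  exact this.symm

theorem cm_cont {F : ℂ → ℂ} (hF : ContinuousOn F (sphere 0 1)) :
    Continuous fun θ : ℝ => F (cis θ) :=
  hF.comp_continuous cm_continuous_cis cm_cis_mem

theorem cm_int {F : ℂ → ℂ} (hF : ContinuousOn F (sphere 0 1)) (a b : ℝ) :
    IntervalIntegrable (fun θ : ℝ => F (cis θ)) volume a b :=
  (cm_cont hF).intervalIntegrable a b

theorem mn_congr {F G : ℂ → ℂ} (h : ∀ w : ℂ, ‖w‖ = 1 → F w = G w) : mn F = mn G := by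
  unfold mn
  congr 1
  exact intervalIntegral.integral_congr fun θ _ => h _ (norm_cis θ)

theorem cm_two_pi_ne : ((2 * Real.pi : ℝ) : ℂ) ≠ 0 := by
  exact_mod_cast Real.two_pi_pos.ne'

theorem mn_const (c : ℂ) : mn (fun _ => c) = c := by
  unfold mn
  rw [intervalIntegral.integral_const, sub_zero, Complex.real_smul, ← mul_assoc,
    Complex.ofReal_inv, inv_mul_cancel₀ cm_two_pi_ne, one_mul]

theorem mn_const_mul (c : ℂ) (F : ℂ → ℂ) : mn (fun w => c * F w) = c * mn F := by
  unfold mn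
  rw [intervalIntegral.integral_const_mul]
  ring

theorem mn_mul_const (c : ℂ) (F : ℂ → ℂ) : mn (fun w => F w * c) = mn F * c := by
  unfold mn
  rw [intervalIntegral.integral_mul_const]
  ring

theorem mn_add {F G : ℂ → ℂ} (hF : ContinuousOn F (sphere 0 1)) (hG : ContinuousOn G (sphere 0 1)) :
    mn (fun w => F w + G w) = mn F + mn G := by
  unfold mn
  rw [intervalIntegral.integral_add (cm_int hF _ _) (cm_int hG _ _), mul_add]

theorem mn_sub {F G : ℂ → ℂ} (hF : ContinuousOn F (sphere 0 1)) (hG : ContinuousOn G (sphere 0 1)) :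
    mn (fun w => F w - G w) = mn F - mn G := by
  unfold mn
  rw [intervalIntegral.integral_sub (cm_int hF _ _) (cm_int hG _ _), mul_sub]

theorem mn_sum {ι : Type*} (s : Finset ι) (F : ι → ℂ → ℂ)
    (hF : ∀ i ∈ s, ContinuousOn (F i) (sphere 0 1)) :
    mn (fun w => ∑ i ∈ s, F i w) = ∑ i ∈ s, mn (F i) := by
  unfold mn
  rw [intervalIntegral.integral_finsetSum fun i hi => cm_int (hF i hi) _ _, Finset.mul_sum]

theorem norm_mn_le {F : ℂ → ℂ} {C : ℝ} (h : ∀ w : ℂ, ‖w‖ = 1 → ‖F w‖ ≤ C) : ‖mn F‖ ≤ C := by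
  unfold mn
  have h1 : ‖∫ θ in (0 : ℝ)..(2 * Real.pi), F (cis θ)‖ ≤ C * |2 * Real.pi - 0| :=
    intervalIntegral.norm_integral_le_of_norm_le_const fun θ _ => h _ (norm_cis θ)
  rw [sub_zero, abs_of_pos Real.two_pi_pos] at h1
  rw [norm_mul, Complex.norm_real, Real.norm_eq_abs, abs_of_pos (inv_pos.2 Real.two_pi_pos)]
  calc (2 * Real.pi)⁻¹ * ‖∫ θ in (0 : ℝ)..(2 * Real.pi), F (cis θ)‖
      ≤ (2 * Real.pi)⁻¹ * (C * (2 * Real.pi)) :=
        mul_le_mul_of_nonneg_left h1 (inv_pos.2 Real.two_pi_pos).le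
    _ = C := by
        field_simp

theorem mn_conj (F : ℂ → ℂ) : mn (fun w => conj (F w)) = conj (mn F) := by
  unfold mn
  rw [map_mul, Complex.conj_ofReal]
  congr 1
  exact intervalIntegral.intervalIntegral_conj

/-- rotation invariance -/
theorem mn_rot {F : ℂ → ℂ} (hF : ContinuousOn F (sphere 0 1)) {u : ℂ} (hu : ‖u‖ = 1) :
    mn (fun q => F (q * u)) = mn F := by
  obtain ⟨α, rfl⟩ := exists_cis hu
  unfold mn
  congr 1
  have h1 : ∀ θ : ℝ, F (cis θ * cis α) = (fun t => F (cis t)) (θ + α) := fun θ => by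
    simp only [cm_cis_add]
  simp_rw [h1]
  rw [intervalIntegral.integral_comp_add_right (fun t => F (cis t)) α]
  have hper : Function.Periodic (fun t : ℝ => F (cis t)) (2 * Real.pi) := by
    intro t
    simp only [cm_cis_add, cm_cis_two_pi, mul_one]
  have := hper.intervalIntegral_add_eq α 0
  rw [zero_add] at this ⊢
  rw [add_comm (2 * Real.pi) α]
  exact this

theorem mn_zpow (k : ℤ) : mn (fun w => w ^ k) = if k = 0 then 1 else 0 := by
  by_cases hk : k = 0
  · subst hk
    rw [if_pos rfl]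
    simp only [zpow_zero]
    exact mn_const 1
  · rw [if_neg hk]
    unfold mn
    have h1 : ∀ θ : ℝ, cis θ ^ k = Complex.exp (((k : ℂ) * Complex.I) * θ) := by
      intro θ
      unfold cis
      rw [← Complex.exp_int_mul]
      congr 1
      ring
    simp_rw [h1]
    have hc : ((k : ℂ) * Complex.I) ≠ 0 :=
      mul_ne_zero (by exact_mod_cast hk) Complex.I_ne_zero
    rw [integral_exp_mul_complex hc]
    have h2 : Complex.exp ((k : ℂ) * Complex.I * ((2 * Real.pi : ℝ) : ℂ)) = 1 := by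
      rw [Complex.exp_eq_one_iff]
      exact ⟨k, by push_cast; ring⟩
    rw [h2, Complex.ofReal_zero, mul_zero, Complex.exp_zero, sub_self, zero_div, mul_zero]

theorem cm_cont2 {H : ℂ → ℂ → ℂ}
    (hH : ContinuousOn (fun p : ℂ × ℂ => H p.1 p.2) (sphere 0 1 ×ˢ sphere 0 1)) :
    Continuous (Function.uncurry fun a b : ℝ => H (cis a) (cis b)) := by
  have h : Continuous fun p : ℝ × ℝ => ((cis p.1, cis p.2) : ℂ × ℂ) :=
    (cm_continuous_cis.comp continuous_fst).prodMk (cm_continuous_cis.comp continuous_snd)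
  exact hH.comp_continuous h fun p => ⟨cm_cis_mem _, cm_cis_mem _⟩

/-- Fubini -/
theorem mn_swap {H : ℂ → ℂ → ℂ}
    (hH : ContinuousOn (fun p : ℂ × ℂ => H p.1 p.2) (sphere 0 1 ×ˢ sphere 0 1)) :
    mn (fun w => mn fun q => H w q) = mn (fun q => mn fun w => H w q) := by
  unfold mn
  simp only [intervalIntegral.integral_const_mul]
  congr 2
  have hc := cm_cont2 hH
  have hint : IntegrableOn (Function.uncurry fun a b : ℝ => H (cis a) (cis b))
      (uIoc (0 : ℝ) (2 * Real.pi) ×ˢ uIoc (0 : ℝ) (2 * Real.pi)) := by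
    have hcomp : IsCompact ((Icc (0 : ℝ) (2 * Real.pi)) ×ˢ (Icc (0 : ℝ) (2 * Real.pi))) :=
      isCompact_Icc.prod isCompact_Icc
    refine (hc.continuousOn.integrableOn_compact hcomp).mono_set ?_
    rw [uIoc_of_le Real.two_pi_pos.le]
    exact prod_mono Ioc_subset_Icc_self Ioc_subset_Icc_self
  exact intervalIntegral_intervalIntegral_swap hint

/-- continuity of a partial mean -/
theorem continuousOn_mn {H : ℂ → ℂ → ℂ}
    (hH : ContinuousOn (fun p : ℂ × ℂ => H p.1 p.2) (sphere 0 1 ×ˢ sphere 0 1)) :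
    ContinuousOn (fun w => mn fun q => H w q) (sphere 0 1) := by
  rw [continuousOn_iff_continuous_domRestrict]
  have h : Continuous fun p : (sphere (0 : ℂ) 1) × ℝ => (((p.1 : ℂ), cis p.2) : ℂ × ℂ) :=
    (continuous_subtype_val.comp continuous_fst).prodMk (cm_continuous_cis.comp continuous_snd)
  have h2 : Continuous (Function.uncurry fun (w : sphere (0 : ℂ) 1) (θ : ℝ) => H w (cis θ)) :=
    hH.comp_continuous h fun p => ⟨p.1.2, cm_cis_mem _⟩
  have h3 := intervalIntegral.continuous_parametric_intervalIntegral_of_continuous'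
    (μ := volume) h2 0 (2 * Real.pi)
  exact continuous_const.mul h3

theorem norm_EE (ρ : ℝ) (z : ℂ) : ‖EE ρ z‖ = 1 := Complex.norm_exp_ofReal_mul_I _

end SCHC
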