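import Pool.Agent.MP_83fd13_an.SCH.BesP
import Pool.Agent.MP_83fd13_an.SCH.BesL2
import Pool.Agent.MP_83fd13_an.SCH.BesL4

/-!
# [SCH] certificate: enclosures at the two endpoints `54.178` and `54.1833`
-/

set_option autoImplicit false

namespace SCHC

theorem Jc_real (ρ : ℝ) (k : ℤ) : (starRingEnd ℂ) (Jc ρ k) = Jc ρ k := by
  rw [SCHB.Jc_eq, Complex.conj_ofReal]

theorem Jc_neg (ρ : ℝ) (k : ℤ) : Jc ρ (-k) = (-1) ^ k * Jc ρ k := by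
  rw [SCHB.Jc_eq, SCHB.Jc_eq, SCHB.JZ_neg]
  push_cast
  rfl

theorem bes_hi : ∃ J : ℤ → ℝ, (∀ k, Jc (54178 / 1000) k = (J k : ℂ)) ∧ (∀ k, J (-k) = (-1) ^ k * J k) ∧
    |J 0 - (-10838225672 / 10 ^ 11)| ≤ 1 / 10 ^ 10 ∧ |J 1 - 8187533091 / 10 ^ 13| ≤ 1 / 10 ^ 12 ∧
    |J 2 - 108412481 / 10 ^ 9| ≤ 1 / 10 ^ 8 ∧ |J 3 - 7185417 / 10 ^ 9| ≤ 1 / 10 ^ 8 ∧
    |J 39| ≤ 1372 / 10 ^ 4 ∧ |J 40| ≤ 1372 / 10 ^ 4 ∧ |J 41 - 8589701 / 10 ^ 8| ≤ 1 / 10 ^ 8 ∧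
    |J 42 - (-4669359501 / 10 ^ 13)| ≤ 1 / 10 ^ 12 ∧ |J 43 - (-8662097 / 10 ^ 8)| ≤ 1 / 10 ^ 8 ∧
    |J 44| ≤ 1372 / 10 ^ 4 ∧ |J 45| ≤ 1372 / 10 ^ 4 ∧
    |J 84 - 7343545 / 10 ^ 17| ≤ 1 / 10 ^ 16 ∧ |J 85 - 2637812 / 10 ^ 17| ≤ 1 / 10 ^ 16 ∧
    0 < J 95 ∧ J 95 ≤ J 94 ∧ ∀ k : ℤ, 2 * k * J k = 54178 / 1000 * (J (k - 1) + J (k + 1)) := by
  have e : ((54178 : ℤ) : ℝ) / ((1000 : ℤ) : ℝ) = 54178 / 1000 := by norm_num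
  have a0 := SCHB.P178.e0
  have a1 := SCHB.P178.e1
  have a2 := SCHB.P178.e2
  have a3 := SCHB.P178.e3
  have a39 := SCHB.P178.e39
  have a40 := SCHB.P178.e40
  have a41 := SCHB.P178.e41
  have a42 := SCHB.P178.e42
  have a43 := SCHB.P178.e43
  have a44 := SCHB.P178.e44
  have a45 := SCHB.P178.e45
  have a84 := SCHB.f84
  have a85 := SCHB.f85
  have a94 := SCHB.f94
  have a95 := SCHB.f95
  refine ⟨fun k => SCHB.JZ k (54178 / 1000), fun k => by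
    have := SCHB.Jc_eq (54178 / 1000) k
    push_cast at this ⊢
    exact this, fun k => SCHB.JZ_neg k _, ?_, ?_, ?_, ?_, ?_, ?_, ?_, ?_, ?_, ?_, ?_, ?_, ?_, ?_, ?_,
    fun k => SCHB.JZ_rec k _⟩
  · change |SCHB.J 0 _ - _| ≤ _
    rw [abs_le] at a0 ⊢; constructor <;> linarith [a0.1, a0.2]
  · change |SCHB.J 1 _ - _| ≤ _
    rw [abs_le] at a1 ⊢; constructor <;> linarith [a1.1, a1.2]
  · change |SCHB.J 2 _ - _| ≤ _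
    rw [abs_le] at a2 ⊢; constructor <;> linarith [a2.1, a2.2]
  · change |SCHB.J 3 _ - _| ≤ _
    rw [abs_le] at a3 ⊢; constructor <;> linarith [a3.1, a3.2]
  · change |SCHB.J 39 _| ≤ _
    rw [abs_le] at a39 ⊢; constructor <;> linarith [a39.1, a39.2]
  · change |SCHB.J 40 _| ≤ _
    rw [abs_le] at a40 ⊢; constructor <;> linarith [a40.1, a40.2]
  · change |SCHB.J 41 _ - _| ≤ _
    rw [abs_le] at a41 ⊢; constructor <;> linarith [a41.1, a41.2]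
  · change |SCHB.J 42 _ - _| ≤ _
    rw [abs_le] at a42 ⊢; constructor <;> linarith [a42.1, a42.2]
  · change |SCHB.J 43 _ - _| ≤ _
    rw [abs_le] at a43 ⊢; constructor <;> linarith [a43.1, a43.2]
  · change |SCHB.J 44 _| ≤ _
    rw [abs_le] at a44 ⊢; constructor <;> linarith [a44.1, a44.2]
  · change |SCHB.J 45 _| ≤ _
    rw [abs_le] at a45 ⊢; constructor <;> linarith [a45.1, a45.2]
  · change |SCHB.J 84 _ - _| ≤ _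
    rw [abs_le] at a84 ⊢; constructor <;> linarith [a84.1, a84.2]
  · change |SCHB.J 85 _ - _| ≤ _
    rw [abs_le] at a85 ⊢; constructor <;> linarith [a85.1, a85.2]
  · change 0 < SCHB.J 95 _
    rw [abs_le] at a95
    linarith [a95.1]
  · change SCHB.J 95 _ ≤ SCHB.J 94 _
    rw [abs_le] at a95 a94
    linarith [a95.2, a94.1]

theorem bes_lo : ∃ J : ℤ → ℝ, (∀ k, Jc (541833 / 10000) k = (J k : ℂ)) ∧ (∀ k, J (-k) = (-1) ^ k * J k) ∧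
    |J 0 - (-10838507370 / 10 ^ 11)| ≤ 1 / 10 ^ 10 ∧ |J 1 - 2442665458 / 10 ^ 13| ≤ 1 / 10 ^ 12 ∧
    |J 2 - 108394090 / 10 ^ 9| ≤ 1 / 10 ^ 8 ∧ |J 3 - 7757763 / 10 ^ 9| ≤ 1 / 10 ^ 8 ∧
    |J 39| ≤ 1372 / 10 ^ 4 ∧ |J 40| ≤ 1372 / 10 ^ 4 ∧ |J 41 - 8624347 / 10 ^ 8| ≤ 1 / 10 ^ 8 ∧
    |J 42 - (-97839071 / 10 ^ 13)| ≤ 1 / 10 ^ 12 ∧ |J 43 - (-8625864 / 10 ^ 8)| ≤ 1 / 10 ^ 8 ∧
    |J 44| ≤ 1372 / 10 ^ 4 ∧ |J 45| ≤ 1372 / 10 ^ 4 := by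
  obtain ⟨J, h1, h2, a0, a1, a2, a3, a39, a40, a41, a42, a43, a44, a45⟩ := SCHB.bes1833
  refine ⟨J, h1, h2, ?_, ?_, ?_, ?_, ?_, ?_, ?_, ?_, ?_, ?_, ?_⟩
  · rw [abs_le] at a0 ⊢; constructor <;> linarith [a0.1, a0.2]
  · rw [abs_le] at a1 ⊢; constructor <;> linarith [a1.1, a1.2]
  · rw [abs_le] at a2 ⊢; constructor <;> linarith [a2.1, a2.2]
  · rw [abs_le] at a3 ⊢; constructor <;> linarith [a3.1, a3.2]
  · rw [abs_le] at a39 ⊢; constructor <;> linarith [a39.1, a39.2]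
  · rw [abs_le] at a40 ⊢; constructor <;> linarith [a40.1, a40.2]
  · rw [abs_le] at a41 ⊢; constructor <;> linarith [a41.1, a41.2]
  · rw [abs_le] at a42 ⊢; constructor <;> linarith [a42.1, a42.2]
  · rw [abs_le] at a43 ⊢; constructor <;> linarith [a43.1, a43.2]
  · rw [abs_le] at a44 ⊢; constructor <;> linarith [a44.1, a44.2]
  · rw [abs_le] at a45 ⊢; constructor <;> linarith [a45.1, a45.2]

end SCHC
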