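import Pool.Agent.MP_83fd13_an.SCH.CertMean

/-! ### CP: power series on the circle, orthogonality -/

set_option autoImplicit false

open Metric Set MeasureTheory
open scoped RealInnerProductSpace NNReal ComplexConjugate

namespace SCHC

open SCHG

theorem CertPS_norm_term {a : ℕ → ℂ} {w : ℂ} (hw : ‖w‖ = 1) (N k : ℕ) :
    ‖a k * w ^ (N * k)‖ = ‖a k‖ := by
  rw [norm_mul, norm_pow, hw, one_pow, mul_one]

theorem CertPS_summable {N : ℕ} {a : ℕ → ℂ} (ha : Summable fun k => ‖a k‖) {w : ℂ}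
    (hw : ‖w‖ = 1) : Summable fun k => ‖a k * w ^ (N * k)‖ := by
  simp_rw [CertPS_norm_term hw]
  exact ha

theorem PS.norm_le {N : ℕ} {F : ℂ → ℂ} {K : ℕ} {A : ℝ} (h : PS N F K A) {w : ℂ} (hw : ‖w‖ = 1) :
    ‖F w‖ ≤ A := by
  obtain ⟨a, ha, hA, -, hF⟩ := h
  rw [hF w hw]
  refine (norm_tsum_le_tsum_norm (CertPS_summable ha hw)).trans ?_
  simp_rw [CertPS_norm_term hw]
  exact hA

theorem PS.continuousOn {N : ℕ} {F : ℂ → ℂ} {K : ℕ} {A : ℝ} (h : PS N F K A) :
    ContinuousOn F (sphere 0 1) := by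
  obtain ⟨a, ha, hA, -, hF⟩ := h
  have h1 : ContinuousOn (fun w : ℂ => ∑' k, a k * w ^ (N * k)) (sphere 0 1) := by
    refine continuousOn_tsum (u := fun k => ‖a k‖) (fun k => ?_) ha ?_
    · exact (continuous_const.mul (continuous_pow _)).continuousOn
    · intro k w hw
      rw [mem_sphere_zero_iff_norm] at hw
      exact (CertPS_norm_term hw N k).le
  refine h1.congr ?_
  intro w hw
  rw [mem_sphere_zero_iff_norm] at hw
  exact hF w hw

theorem PS.nonneg {N : ℕ} {F : ℂ → ℂ} {K : ℕ} {A : ℝ} (h : PS N F K A) : 0 ≤ A := by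
  obtain ⟨a, ha, hA, -, hF⟩ := h
  exact (tsum_nonneg fun k => norm_nonneg _).trans hA

theorem PS.mono {N : ℕ} {F : ℂ → ℂ} {K K' : ℕ} {A A' : ℝ} (h : PS N F K A) (hK : K' ≤ K)
    (hA : A ≤ A') : PS N F K' A' := by
  obtain ⟨a, ha, hA', hz, hF⟩ := h
  exact ⟨a, ha, hA'.trans hA, fun k hk => hz k (hk.trans_le hK), hF⟩

theorem PS.add {N : ℕ} {F G : ℂ → ℂ} {K : ℕ} {A B : ℝ} (hF : PS N F K A) (hG : PS N G K B) :
    PS N (fun w => F w + G w) K (A + B) := by
  obtain ⟨a, ha, hA, hz, hF⟩ := hF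
  obtain ⟨b, hb, hB, hz', hG⟩ := hG
  have hs : Summable fun k => ‖a k + b k‖ :=
    Summable.of_nonneg_of_le (fun k => norm_nonneg _) (fun k => norm_add_le _ _) (ha.add hb)
  refine ⟨fun k => a k + b k, hs, ?_, ?_, ?_⟩
  · refine (hs.tsum_le_tsum (fun k => norm_add_le _ _) (ha.add hb)).trans ?_
    rw [ha.tsum_add hb]
    exact add_le_add hA hB
  · intro k hk
    show a k + b k = 0
    rw [hz k hk, hz' k hk, add_zero]
  · intro w hw
    simp only [add_mul]
    rw [hF w hw, hG w hw,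
      ← ((CertPS_summable ha hw).of_norm).tsum_add ((CertPS_summable hb hw).of_norm)]

theorem PS.mul {N : ℕ} {F G : ℂ → ℂ} {K L : ℕ} {A B : ℝ} (hF : PS N F K A) (hG : PS N G L B) :
    PS N (fun w => F w * G w) (K + L) (A * B) := by
  have hA0 := hF.nonneg
  obtain ⟨a, ha, hA, hz, hF⟩ := hF
  obtain ⟨b, hb, hB, hz', hG⟩ := hG
  have hb0 : 0 ≤ ∑' k, ‖b k‖ := tsum_nonneg fun k => norm_nonneg _
  have hs : Summable fun n => ‖∑ kl ∈ Finset.HasAntidiagonal.antidiagonal n, a kl.1 * b kl.2‖ :=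
    summable_norm_sum_mul_antidiagonal_of_summable_norm ha hb
  have ha' : Summable fun k => ‖(‖a k‖ : ℝ)‖ := by simpa using ha
  have hb' : Summable fun k => ‖(‖b k‖ : ℝ)‖ := by simpa using hb
  have hs2 : Summable fun n => ∑ kl ∈ Finset.HasAntidiagonal.antidiagonal n, ‖a kl.1‖ * ‖b kl.2‖ :=
    (summable_norm_sum_mul_antidiagonal_of_summable_norm ha' hb').of_norm
  refine ⟨fun n => ∑ kl ∈ Finset.HasAntidiagonal.antidiagonal n, a kl.1 * b kl.2, hs, ?_, ?_, ?_⟩
  · have h1 : ∑' n, ‖∑ kl ∈ Finset.HasAntidiagonal.antidiagonal n, a kl.1 * b kl.2‖ ≤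
        ∑' n, ∑ kl ∈ Finset.HasAntidiagonal.antidiagonal n, ‖a kl.1‖ * ‖b kl.2‖ := by
      refine hs.tsum_le_tsum (fun n => ?_) hs2
      refine (norm_sum_le _ _).trans (le_of_eq ?_)
      exact Finset.sum_congr rfl fun kl _ => norm_mul _ _
    refine h1.trans ?_
    rw [← tsum_mul_tsum_eq_tsum_sum_antidiagonal_of_summable_norm ha' hb']
    exact mul_le_mul hA hB hb0 hA0
  · intro n hn
    refine Finset.sum_eq_zero fun kl hkl => ?_
    rw [Finset.HasAntidiagonal.mem_antidiagonal] at hkl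
    rcases Nat.lt_or_ge kl.1 K with h | h
    · rw [hz _ h, zero_mul]
    · rw [hz' kl.2 (by omega), mul_zero]
  · intro w hw
    simp only
    rw [hF w hw, hG w hw, tsum_mul_tsum_eq_tsum_sum_antidiagonal_of_summable_norm
      (CertPS_summable ha hw) (CertPS_summable hb hw)]
    refine tsum_congr fun n => ?_
    rw [Finset.sum_mul]
    refine Finset.sum_congr rfl fun kl hkl => ?_
    rw [Finset.HasAntidiagonal.mem_antidiagonal] at hkl
    rw [← hkl, mul_add, pow_add]
    ring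

theorem PS.congr {N : ℕ} {F G : ℂ → ℂ} {K : ℕ} {A : ℝ} (h : PS N F K A)
    (hFG : ∀ w : ℂ, ‖w‖ = 1 → G w = F w) : PS N G K A := by
  obtain ⟨a, ha, hA, hz, hF⟩ := h
  exact ⟨a, ha, hA, hz, fun w hw => (hFG w hw).trans (hF w hw)⟩

theorem PS.monomial (N j : ℕ) (c : ℂ) : PS N (fun w => c * w ^ (N * j)) j ‖c‖ := by
  have hs : HasSum (fun k => ‖(if k = j then c else 0 : ℂ)‖) ‖c‖ := by
    have := hasSum_ite_eq j ‖c‖
    refine this.congr_fun ?_
    intro k
    split_ifs <;> simp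
  refine ⟨fun k => if k = j then c else 0, hs.summable, hs.tsum_eq.le, ?_, ?_⟩
  · intro k hk
    exact if_neg hk.ne
  · intro w _
    rw [tsum_eq_single j]
    · simp
    · intro k hk
      simp only [if_neg hk, zero_mul]

theorem PS.pow {N : ℕ} {F : ℂ → ℂ} {K : ℕ} {A : ℝ} (hF : PS N F K A) (n : ℕ) :
    PS N (fun w => F w ^ n) (K * n) (A ^ n) := by
  induction n with
  | zero =>
    have h := PS.monomial N 0 1
    rw [norm_one] at h
    refine (h.congr (G := fun w => F w ^ 0) ?_)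
    intro w _
    simp
  | succ n ih =>
    have h := ih.mul hF
    rw [← pow_succ] at h
    exact h.congr fun w _ => pow_succ _ _

theorem mn_pow_conj_pow {N : ℕ} (hN : 0 < N) (i j : ℕ) :
    mn (fun w => w ^ (N * i) * conj (w ^ (N * j))) = if i = j then 1 else 0 := by
  have h1 : mn (fun w => w ^ (N * i) * conj (w ^ (N * j))) =
      mn (fun w => w ^ (((N * i : ℕ) : ℤ) - ((N * j : ℕ) : ℤ))) := by
    apply mn_congr
    intro w hw
    have hw0 : w ≠ 0 := by
      intro h; rw [h, norm_zero] at hw; exact zero_ne_one hw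
    have hc : conj w = w⁻¹ := by
      rw [Complex.inv_def, Complex.normSq_eq_norm_sq, hw]
      simp
    rw [map_pow, hc, zpow_sub₀ hw0, zpow_natCast, zpow_natCast, inv_pow, div_eq_mul_inv]
  rw [h1, mn_zpow]
  have h2 : (((N * i : ℕ) : ℤ) - ((N * j : ℕ) : ℤ) = 0) ↔ i = j := by
    rw [sub_eq_zero, Nat.cast_inj, Nat.mul_right_inj hN.ne']
  simp only [h2]

/-- orthogonality: the mean of `F * conj (w^{Nj} c)` vanishes if `F` starts above `j` -/
theorem PS.orth {N : ℕ} (hN : 0 < N) {F : ℂ → ℂ} {K : ℕ} {A : ℝ} (h : PS N F K A) {j : ℕ}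
    (hj : j < K) : mn (fun w => F w * conj (w ^ (N * j))) = 0 := by
  have hFc := h.continuousOn
  obtain ⟨a, ha, hA, hz, hF⟩ := h
  have hconj : ContinuousOn (fun w : ℂ => conj (w ^ (N * j))) (sphere 0 1) :=
    (Complex.continuous_conj.comp (continuous_pow _)).continuousOn
  have key : ∀ n, ‖mn (fun w => F w * conj (w ^ (N * j)))‖ ≤ ∑' k, ‖a (k + n)‖ := by
    intro n
    have hsum : mn (fun w => ∑ k ∈ Finset.range n, a k * w ^ (N * k) * conj (w ^ (N * j))) = 0 := by
      rw [mn_sum _ (fun k w => a k * w ^ (N * k) * conj (w ^ (N * j)))]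
      · refine Finset.sum_eq_zero fun k _ => ?_
        have : mn (fun w => a k * w ^ (N * k) * conj (w ^ (N * j))) =
            a k * mn (fun w => w ^ (N * k) * conj (w ^ (N * j))) := by
          rw [← mn_const_mul]
          congr 1
          funext w
          ring
        rw [this, mn_pow_conj_pow hN]
        split_ifs with hkj
        · rw [hkj, hz j hj, zero_mul]
        · rw [mul_zero]
      · intro k _
        exact ((continuous_const.mul (continuous_pow _)).continuousOn).mul hconj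
    have hcs : ContinuousOn
        (fun w : ℂ => ∑ k ∈ Finset.range n, a k * w ^ (N * k) * conj (w ^ (N * j)))
        (sphere 0 1) := by
      refine continuousOn_finsetSum _ fun k _ => ?_
      exact ((continuous_const.mul (continuous_pow _)).continuousOn).mul hconj
    have h2 : mn (fun w => F w * conj (w ^ (N * j))) =
        mn (fun w => F w * conj (w ^ (N * j)) -
          ∑ k ∈ Finset.range n, a k * w ^ (N * k) * conj (w ^ (N * j))) := by
      have hFc2 : ContinuousOn (fun w : ℂ => F w * conj (w ^ (N * j))) (sphere 0 1) :=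
        hFc.mul hconj
      rw [mn_sub hFc2 hcs, hsum, sub_zero]
    rw [h2]
    apply norm_mn_le
    intro w hw
    have hs1 := (CertPS_summable (N := N) ha hw)
    have h3 : F w - ∑ k ∈ Finset.range n, a k * w ^ (N * k) =
        ∑' k, a (k + n) * w ^ (N * (k + n)) := by
      rw [hF w hw, sub_eq_iff_eq_add, ← hs1.of_norm.sum_add_tsum_nat_add n, add_comm]
    have h4 : F w * conj (w ^ (N * j)) -
          ∑ k ∈ Finset.range n, a k * w ^ (N * k) * conj (w ^ (N * j)) =
        (∑' k, a (k + n) * w ^ (N * (k + n))) * conj (w ^ (N * j)) := by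
      rw [← h3, sub_mul, Finset.sum_mul]
    rw [h4, norm_mul, RCLike.norm_conj, norm_pow, hw, one_pow, mul_one]
    have h5 : Summable fun k => ‖a (k + n) * w ^ (N * (k + n))‖ :=
      (summable_nat_add_iff (f := fun k => ‖a k * w ^ (N * k)‖) n).2 hs1
    refine (norm_tsum_le_tsum_norm h5).trans (le_of_eq ?_)
    refine tsum_congr fun k => ?_
    exact CertPS_norm_term hw N (k + n)
  have hlim : Filter.Tendsto (fun n => ∑' k, ‖a (k + n)‖) Filter.atTop (nhds 0) :=
    tendsto_sum_nat_add fun k => ‖a k‖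
  have h0 : ‖mn (fun w => F w * conj (w ^ (N * j)))‖ ≤ 0 :=
    ge_of_tendsto' hlim key
  exact norm_le_zero_iff.1 h0

theorem PS.norm_mn_mul_conj_le {N : ℕ} {F G : ℂ → ℂ} {K L : ℕ} {A B : ℝ} (hF : PS N F K A)
    (hG : PS N G L B) : ‖mn (fun w => F w * conj (G w))‖ ≤ A * B := by
  apply norm_mn_le
  intro w hw
  rw [norm_mul, RCLike.norm_conj]
  exact mul_le_mul (hF.norm_le hw) (hG.norm_le hw) (norm_nonneg _) hF.nonneg

/-- the coefficients from order 3 on -/
theorem CertPS_tail {N : ℕ} (b : ℕ → ℂ) (hb : Summable fun k => ‖b (k + 3)‖) {A : ℝ}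
    (hA : ∑' k, ‖b (k + 3)‖ ≤ A) : PS N (fun w => ∑' k, b (k + 3) * w ^ (N * (k + 3))) 3 A := by
  have hs : Summable fun k => ‖(if k < 3 then 0 else b k : ℂ)‖ := by
    rw [← summable_nat_add_iff 3]
    refine hb.congr fun k => ?_
    rw [if_neg (by omega)]
  refine ⟨fun k => if k < 3 then 0 else b k, hs, ?_, fun k hk => if_pos hk, ?_⟩
  · rw [← hs.sum_add_tsum_nat_add 3]
    have h1 : ∑ i ∈ Finset.range 3, ‖(if i < 3 then 0 else b i : ℂ)‖ = 0 := by
      refine Finset.sum_eq_zero fun i hi => ?_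
      rw [if_pos (Finset.mem_range.1 hi), norm_zero]
    rw [h1, zero_add]
    refine le_trans (le_of_eq ?_) hA
    refine tsum_congr fun k => ?_
    rw [if_neg (by omega)]
  · intro w hw
    have hs1 := CertPS_summable (N := N) hs hw
    rw [← hs1.of_norm.sum_add_tsum_nat_add 3]
    have h1 : ∑ i ∈ Finset.range 3, (if i < 3 then 0 else b i : ℂ) * w ^ (N * i) = 0 := by
      refine Finset.sum_eq_zero fun i hi => ?_
      rw [if_pos (Finset.mem_range.1 hi), zero_mul]
    rw [h1, zero_add]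
    refine tsum_congr fun k => ?_
    rw [if_neg (by omega)]

/-- the standing decomposition: `e = φ_1/(N+1)`, `g2 = φ_2/(2N+1)`, `τ ≥ ∑_{k≥3} |φ_k|` -/
theorem PS_gg3 (N : ℕ) (φ : ℕ → ℝ) (hs : Summable fun k => |φ (k + 1)|) (τ : ℝ)
    (hτ : ∑' k, |φ (k + 3)| ≤ τ) :
    PS N (fun w => gg N φ w - (((φ 1 / (N + 1) : ℝ) : ℂ)) * w ^ (N * 1) -
      (((φ 2 / (2 * N + 1) : ℝ) : ℂ)) * w ^ (N * 2)) 3 (τ / (3 * N + 1)) := by
  have hs3 : Summable fun k => |φ (k + 3)| := (summable_nat_add_iff (f := fun k => |φ (k + 1)|) 2).2 hs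
  have hterm : ∀ k : ℕ, ‖((φ (k + 3) / ((N : ℝ) * (k + 3 : ℕ) + 1) : ℝ) : ℂ)‖ ≤
      |φ (k + 3)| * (1 / (3 * N + 1)) := by
    intro k
    rw [Complex.norm_real, Real.norm_eq_abs, abs_div, div_eq_mul_one_div]
    have h1 : (3 * (N : ℝ) + 1) ≤ |(N : ℝ) * (k + 3 : ℕ) + 1| := by
      rw [abs_of_nonneg (by positivity)]
      push_cast
      have : (0 : ℝ) ≤ (N : ℝ) * k := by positivity
      linarith
    exact mul_le_mul_of_nonneg_left (one_div_le_one_div_of_le (by positivity) h1) (abs_nonneg _)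
  have hsb : Summable fun k : ℕ => ‖((φ (k + 3) / ((N : ℝ) * (k + 3 : ℕ) + 1) : ℝ) : ℂ)‖ :=
    Summable.of_nonneg_of_le (fun k => norm_nonneg _) hterm (hs3.mul_right _)
  have h := CertPS_tail (N := N) (fun k => ((φ k / ((N : ℝ) * k + 1) : ℝ) : ℂ)) hsb
    (A := τ / (3 * N + 1)) (by
      refine (hsb.tsum_le_tsum hterm (hs3.mul_right _)).trans ?_
      rw [tsum_mul_right, mul_one_div]
      exact div_le_div_of_nonneg_right hτ (by positivity))
  refine h.congr fun w hw => ?_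
  have hsum : Summable fun k : ℕ => (φ (k + 1) : ℂ) * w ^ (N * (k + 1)) / ((N * (k + 1) + 1 : ℕ) : ℂ) := by
    refine Summable.of_norm_bounded (g := fun k => |φ (k + 1)|) hs ?_
    intro k
    rw [norm_div, norm_mul, norm_pow, hw, one_pow, mul_one, Complex.norm_real, Real.norm_eq_abs,
      Complex.norm_natCast]
    apply div_le_self (abs_nonneg _)
    push_cast
    have : (0 : ℝ) ≤ (N : ℝ) * (k + 1) := by positivity
    linarith
  unfold gg
  rw [← hsum.sum_add_tsum_nat_add 2, Finset.sum_range_succ, Finset.sum_range_one]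
  have e1 : ∀ k : ℕ, (φ (k + 2 + 1) : ℂ) * w ^ (N * (k + 2 + 1)) / ((N * (k + 2 + 1) + 1 : ℕ) : ℂ) =
      ((φ (k + 3) / ((N : ℝ) * (k + 3 : ℕ) + 1) : ℝ) : ℂ) * w ^ (N * (k + 3)) := by
    intro k
    push_cast
    ring_nf
  simp_rw [e1]
  push_cast
  ring_nf

theorem PS_pp3 (N : ℕ) (φ : ℕ → ℝ) (hs : Summable fun k => |φ (k + 1)|) (τ : ℝ)
    (hτ : ∑' k, |φ (k + 3)| ≤ τ) :
    PS N (fun w => pp N φ w - (φ 1 : ℂ) * w ^ (N * 1) - (φ 2 : ℂ) * w ^ (N * 2)) 3 τ := by
  have hs3 : Summable fun k => |φ (k + 3)| := (summable_nat_add_iff (f := fun k => |φ (k + 1)|) 2).2 hs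
  have hn : ∀ k : ℕ, ‖((φ k : ℝ) : ℂ)‖ = |φ k| := fun k => by
    rw [Complex.norm_real, Real.norm_eq_abs]
  have h := CertPS_tail (N := N) (fun k => ((φ k : ℝ) : ℂ)) (by simp_rw [hn]; exact hs3)
    (A := τ) (by simp_rw [hn]; exact hτ)
  refine h.congr fun w hw => ?_
  have hsum : Summable fun k : ℕ => (φ (k + 1) : ℂ) * w ^ (N * (k + 1)) := by
    refine Summable.of_norm_bounded (g := fun k => |φ (k + 1)|) hs ?_
    intro k
    rw [norm_mul, norm_pow, hw, one_pow, mul_one, hn]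
  unfold pp
  rw [← hsum.sum_add_tsum_nat_add 2, Finset.sum_range_succ, Finset.sum_range_one]
  simp only [zero_add, one_add_one_eq_two, Nat.add_assoc]
  ring_nf

end SCHC
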