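import Pool.Agent.MP_83fd13_an.SCH.CertB1

/-!
# [SCH] certificate: the moment `X_2` (relative to `J_84`)
-/

set_option autoImplicit false

open Metric Set MeasureTheory
open scoped RealInnerProductSpace NNReal ComplexConjugate

namespace SCHC

open SCHG

/-! ### The coefficients `mu` for `κ = 2` -/

section Data

variable {N : ℕ} {ρ : ℝ} {φ : ℕ → ℝ} {e g2 τ G3 Ga P2 : ℝ}

/-- the left factors: `w^{2N} (1 + p) g^a` -/
theorem Dat.psF' (D : Dat N ρ φ e g2 τ G3 Ga P2) (a : ℕ) :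
    PS N (fun w => w ^ (N * 2) * (1 + pp N φ w) * gg N φ w ^ a) (2 + a)
      ((1 + ((N + 1) * e + P2)) * (e + Ga) ^ a) := by
  have h := ((cb1_psw N 2).mul D.ps1p).mul (D.psg.pow a)
  have h1 : 2 + 0 + 1 * a = 2 + a := by ring
  have h2 : (1 : ℝ) * (1 + ((N + 1) * e + P2)) = 1 + ((N + 1) * e + P2) := one_mul _
  rw [h1, h2] at h
  exact h

theorem Dat.psF0' (D : Dat N ρ φ e g2 τ G3 Ga P2) :
    PS N (fun w => w ^ (N * 2) * pp N φ w) 3 ((N + 1) * e + P2) := by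
  have h := (cb1_psw N 2).mul D.psp
  rw [one_mul] at h
  exact h

theorem Dat.F0'_eq (w : ℂ) : w ^ (N * 2) * (1 + pp N φ w) * gg N φ w ^ 0 =
    0 * w ^ (N * 1) + (1 * w ^ (N * 2) + w ^ (N * 2) * pp N φ w) := by
  rw [pow_zero]
  ring

theorem Dat.mu2_a0 (D : Dat N ρ φ e g2 τ G3 Ga P2) (a : ℕ) : mu N φ 2 a 0 = 0 := by
  rw [cb1_mu_eq]
  have h := cb1_pr_orth D.hN (D.psF' a) (j := 0) (by omega) 1
  rw [← h]
  apply cb1_pr_congr (fun w _ => rfl)
  intro w _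
  simp

theorem Dat.mu2_01 (D : Dat N ρ φ e g2 τ G3 Ga P2) :
    ‖mu N φ 2 0 1 - (g2 : ℂ)‖ ≤ ((N + 1) * e + P2) * G3 := by
  rw [cb1_mu_eq]
  have h := cb1_pair3 D.hN (F := fun w => w ^ (N * 2) * (1 + pp N φ w) * gg N φ w ^ 0)
    (G := fun w => gg N φ w ^ 1) D.psF0' D.psg3 (by norm_num) (by norm_num) 0 1 (e : ℂ)
    (g2 : ℂ) (fun w _ => Dat.F0'_eq w) (by intro w _; ring)
  rw [Complex.conj_ofReal, zero_mul, zero_add, Complex.conj_ofReal, one_mul] at h
  exact h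

theorem Dat.mu2_a1 (D : Dat N ρ φ e g2 τ G3 Ga P2) (a : ℕ) (ha : 1 ≤ a) :
    ‖mu N φ 2 a 1‖ ≤ (1 + ((N + 1) * e + P2)) * (e + Ga) ^ a * G3 := by
  rw [cb1_mu_eq]
  have h := cb1_pair3 D.hN (F := fun w => w ^ (N * 2) * (1 + pp N φ w) * gg N φ w ^ a)
    (G := fun w => gg N φ w ^ 1) (D.psF' a) D.psg3 (by omega) (by norm_num) 0 0 (e : ℂ)
    (g2 : ℂ) (by intro w _; ring) (by intro w _; ring)
  rw [zero_mul, zero_add, zero_mul, sub_zero] at h
  exact h

theorem Dat.mu2_02 (D : Dat N ρ φ e g2 τ G3 Ga P2) :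
    ‖mu N φ 2 0 2 - (e : ℂ) ^ 2‖ ≤ ((N + 1) * e + P2) * (2 * e * Ga + Ga ^ 2) := by
  rw [cb1_mu_eq]
  have h := cb1_pair3 D.hN (F := fun w => w ^ (N * 2) * (1 + pp N φ w) * gg N φ w ^ 0)
    (G := fun w => gg N φ w ^ 2) D.psF0' D.psG2 (by norm_num) (by norm_num) 0 1 0
    ((e : ℂ) ^ 2) (fun w _ => Dat.F0'_eq w) (fun w _ => Dat.G2_eq w)
  rw [zero_mul, zero_add, one_mul, map_pow, Complex.conj_ofReal] at h
  exact h

theorem Dat.mu2_a2 (D : Dat N ρ φ e g2 τ G3 Ga P2) (a : ℕ) (ha : 1 ≤ a) :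
    ‖mu N φ 2 a 2‖ ≤ (1 + ((N + 1) * e + P2)) * (e + Ga) ^ a * (2 * e * Ga + Ga ^ 2) := by
  rw [cb1_mu_eq]
  have h := cb1_pair3 D.hN (F := fun w => w ^ (N * 2) * (1 + pp N φ w) * gg N φ w ^ a)
    (G := fun w => gg N φ w ^ 2) (D.psF' a) D.psG2 (by omega) (by norm_num) 0 0 0
    ((e : ℂ) ^ 2) (by intro w _; ring) (fun w _ => Dat.G2_eq w)
  rw [zero_mul, zero_add, zero_mul, sub_zero] at h
  exact h

theorem Dat.mu2_0b (D : Dat N ρ φ e g2 τ G3 Ga P2) (b : ℕ) (hb : 3 ≤ b) :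
    ‖mu N φ 2 0 b‖ ≤ ((N + 1) * e + P2) * (e + Ga) ^ b := by
  rw [cb1_mu_eq]
  have h := cb1_pair3 D.hN (F := fun w => w ^ (N * 2) * (1 + pp N φ w) * gg N φ w ^ 0)
    (G := fun w => gg N φ w ^ b) D.psF0' (D.psGb b) (by norm_num) (by omega) 0 1 0 0
    (fun w _ => Dat.F0'_eq w) (by intro w _; ring)
  rw [zero_mul, zero_add, map_zero, mul_zero, sub_zero] at h
  exact h

theorem Dat.mu2_ab (D : Dat N ρ φ e g2 τ G3 Ga P2) (a b : ℕ) :
    ‖mu N φ 2 a b‖ ≤ (1 + ((N + 1) * e + P2)) * (e + Ga) ^ a * (e + Ga) ^ b := by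
  rw [cb1_mu_eq]
  exact cb1_norm_pr_le (D.psF' a) (D.psGb b)

end Data

/-! ### Finite sums -/

/-- a finite exponential sum with first weight `P` and the other weights `≤ A` -/
theorem k2_sum (n : ℕ) (t P A c : ℝ) (ht : 0 ≤ t) (hA : 0 ≤ A) (hc : Real.exp t ≤ c)
    (v : ℕ → ℝ) (h0 : v 0 ≤ P) (h1 : ∀ a, 1 ≤ a → a < n + 1 → v a ≤ A) :
    ∑ a ∈ Finset.range (n + 1), t ^ a / a.factorial * v a ≤ P + A * (c - 1) := by
  rw [Finset.sum_range_succ']
  have h2 : ∑ a ∈ Finset.range n, t ^ (a + 1) / (a + 1).factorial * v (a + 1) ≤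
      ∑ a ∈ Finset.range n, t ^ (a + 1) / (a + 1).factorial * A := by
    apply Finset.sum_le_sum
    intro a ha
    exact mul_le_mul_of_nonneg_left (h1 (a + 1) (by omega)
      (by have := Finset.mem_range.1 ha; omega)) (by positivity)
  have h3 : ∑ a ∈ Finset.range (n + 1), t ^ a / a.factorial ≤ Real.exp t :=
    Real.sum_le_exp_of_nonneg ht _
  rw [Finset.sum_range_succ'] at h3
  simp only [pow_zero, Nat.factorial_zero, Nat.cast_one, div_one, one_mul] at h3 ⊢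
  rw [← Finset.sum_mul] at h2
  have h4 : (∑ a ∈ Finset.range n, t ^ (a + 1) / ((a + 1).factorial : ℝ)) * A ≤ (c - 1) * A :=
    mul_le_mul_of_nonneg_right (by linarith) hA
  linarith

/-- the norm of one term of the double sum -/
theorem k2_term {x j θ : ℝ} (hx : 0 ≤ x) (a b : ℕ) (J' : ℝ) (hJ : x ^ a * |J'| ≤ θ ^ a * j)
    (z : ℂ) : ‖(((-1) ^ b * (x ^ (a + b) / (a.factorial * b.factorial)) : ℝ) : ℂ) * (J' : ℂ) * z‖ ≤
      x ^ b / b.factorial * j * (θ ^ a / a.factorial * ‖z‖) := by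
  rw [norm_mul, norm_mul, Complex.norm_real, Complex.norm_real, Real.norm_eq_abs,
    Real.norm_eq_abs, abs_mul, abs_pow, abs_neg, abs_one, one_pow, one_mul,
    abs_of_nonneg (by positivity : 0 ≤ x ^ (a + b) / ((a.factorial : ℝ) * b.factorial))]
  have h1 : x ^ (a + b) / ((a.factorial : ℝ) * b.factorial) * |J'| * ‖z‖ =
      x ^ b / b.factorial * (1 / a.factorial * ‖z‖) * (x ^ a * |J'|) := by
    rw [pow_add]
    field_simp
  have h2 : x ^ b / b.factorial * j * (θ ^ a / a.factorial * ‖z‖) =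
      x ^ b / b.factorial * (1 / a.factorial * ‖z‖) * (θ ^ a * j) := by
    field_simp
  rw [h1, h2]
  exact mul_le_mul_of_nonneg_left hJ (by positivity)

/-- the tail of the exponential series from order three -/
theorem k2_tail3 (y : ℝ) (hy : 0 ≤ y) (hy1 : y ≤ 1 / 2) :
    ∑ i ∈ Finset.range 8, y ^ (i + 3) / (i + 3).factorial ≤ y ^ 3 / 5 := by
  have h : ∀ i : ℕ, y ^ (i + 3) ≤ y ^ 3 * (1 / 2) ^ i := by
    intro i
    rw [pow_add, mul_comm]
    exact mul_le_mul_of_nonneg_left (pow_le_pow_left₀ hy hy1 i) (by positivity)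
  have h2 : ∑ i ∈ Finset.range 8, y ^ (i + 3) / ((i + 3).factorial : ℝ) ≤
      ∑ i ∈ Finset.range 8, y ^ 3 * ((1 / 2) ^ i / (i + 3).factorial) := by
    apply Finset.sum_le_sum
    intro i _
    rw [← mul_div_assoc]
    exact div_le_div_of_nonneg_right (h i) (by positivity)
  refine h2.trans ?_
  rw [← Finset.mul_sum, div_eq_mul_inv]
  refine mul_le_mul_of_nonneg_left ?_ (by positivity)
  simp only [Finset.sum_range_succ, Finset.sum_range_zero, Nat.factorial]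
  norm_num

/-- error bound for `X_2` -/
noncomputable def er2 (x e Ga G3 P2 c84 c85 j84 j85 : ℝ) : ℝ :=
  x * j84 * (G3 * ((43 * e + P2) + (1 + (43 * e + P2)) * (c84 - 1))) +
  x ^ 2 / 2 * j85 * ((2 * e * Ga + Ga ^ 2) * ((43 * e + P2) + (1 + (43 * e + P2)) * (c85 - 1))) +
  (x * (e + Ga)) ^ 3 / 5 * j85 * ((43 * e + P2) + (1 + (43 * e + P2)) * (c85 - 1)) +
  (1 + (43 * e + P2)) * ((2 * x * (e + Ga)) ^ 11 / 36590400)

theorem k2_flip (f : ℕ → ℕ → ℂ) :
    ∑ m ∈ Finset.range 11, ∑ b ∈ Finset.range (m + 1), f b (m - b) =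
      ∑ a ∈ Finset.range 11, f 0 a + ∑ a ∈ Finset.range 10, f 1 a +
      ∑ a ∈ Finset.range 9, f 2 a +
      ∑ i ∈ Finset.range 8, ∑ a ∈ Finset.range (8 - i), f (i + 3) a := by
  rw [Finset.sum_range_diag_flip, Finset.sum_range_succ', Finset.sum_range_succ',
    Finset.sum_range_succ']
  have h : ∀ i ∈ Finset.range 8, ∑ a ∈ Finset.range (11 - (i + 1 + 1 + 1)), f (i + 1 + 1 + 1) a =
      ∑ a ∈ Finset.range (8 - i), f (i + 3) a := by
    intro i _
    have e1 : 11 - (i + 1 + 1 + 1) = 8 - i := by omega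
    rw [e1]
  rw [Finset.sum_congr rfl h]
  ring

theorem X2_bound (ρ : ℝ) (φ : ℕ → ℝ) (e g2 τ G3 Ga P2 : ℝ)
    (D : Dat 42 ρ φ e g2 τ G3 Ga P2) (J : ℤ → ℝ) (hJ : ∀ k, Jc ρ k = (J k : ℂ))
    (h84 : 0 ≤ J 84) (h85 : 0 ≤ J 85)
    (h1 : ∀ a : ℕ, a ≤ 10 → (ρ / 2) ^ a * |J (84 - a)| ≤ 84 ^ a * J 84)
    (h2 : ∀ a b : ℕ, a + b ≤ 10 → (ρ / 2) ^ a * |J (85 + b - a)| ≤ 85 ^ a * J 85)
    (c84 c85 : ℝ) (hc84 : Real.exp (84 * (e + Ga)) ≤ c84) (hc85 : Real.exp (85 * (e + Ga)) ≤ c85)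
    (hxE : ρ / 2 * (e + Ga) ≤ 1 / 2) :
    ‖XX 42 ρ φ 2 - ((-(ρ / 2) * J 84 * g2 + (ρ / 2) ^ 2 / 2 * J 85 * e ^ 2 : ℝ) : ℂ)‖ ≤
      er2 (ρ / 2) e Ga G3 P2 c84 c85 (J 84) (J 85) := by
  have hρ := D.hρ
  have hE : ∀ w : ℂ, ‖w‖ = 1 → ‖gg 42 φ w‖ ≤ e + Ga := fun w hw => D.psg.norm_le hw
  have hP : ∀ w : ℂ, ‖w‖ = 1 → ‖pp 42 φ w‖ ≤ ((42 : ℕ) + 1) * e + P2 := fun w hw => D.psp.norm_le hw
  have hX := XX_expand 42 ρ hρ.le φ D.hs 2 (e + Ga) (((42 : ℕ) + 1) * e + P2) hE hP D.hsm 11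
    (by norm_num)
  have hEnn : 0 ≤ e + Ga := D.psg.nonneg
  have hPnn : 0 ≤ ((42 : ℕ) + 1) * e + P2 := D.psp.nonneg
  have hG3nn := D.G3_nonneg
  have hGann := D.Ga_nonneg
  have he0 := D.he0
  set E : ℝ := e + Ga with hEd
  set P : ℝ := ((42 : ℕ) + 1) * e + P2 with hPd
  have hP43 : 43 * e + P2 = P := by rw [hPd]; norm_num
  set x : ℝ := ρ / 2 with hx
  have hx0 : 0 ≤ x := by positivity
  have hρx : ρ = 2 * x := by rw [hx]; ring
  set T : ℂ := ∑ m ∈ Finset.range 11, ∑ b ∈ Finset.range (m + 1),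
      (((-1) ^ b * (x ^ m / ((m - b).factorial * b.factorial)) : ℝ) : ℂ) *
        Jc ρ (((42 * 2 : ℕ) : ℤ) - 1 - m + 2 * b) * mu 42 φ 2 (m - b) b with hT
  -- the terms
  let f : ℕ → ℕ → ℂ := fun b a => (((-1) ^ b * (x ^ (a + b) / (a.factorial * b.factorial)) : ℝ) : ℂ) *
    (J (83 + b - a) : ℂ) * mu 42 φ 2 a b
  have hTf : T = ∑ m ∈ Finset.range 11, ∑ b ∈ Finset.range (m + 1), f b (m - b) := by
    rw [hT]
    refine Finset.sum_congr rfl fun m _ => Finset.sum_congr rfl fun b hb => ?_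
    have hbm : b ≤ m := by have := Finset.mem_range.1 hb; omega
    have e1 : m - b + b = m := Nat.sub_add_cancel hbm
    have e2 : ((42 * 2 : ℕ) : ℤ) - 1 - m + 2 * b = 83 + b - ((m - b : ℕ) : ℤ) := by
      push_cast [Nat.cast_sub hbm]
      ring
    simp only [f]
    rw [e1, hJ, e2]
  rw [k2_flip] at hTf
  have hc84' : 1 ≤ c84 := (Real.one_le_exp (by positivity)).trans hc84
  have hc85' : 1 ≤ c85 := (Real.one_le_exp (by positivity)).trans hc85
  -- b = 0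
  have B0 : ∑ a ∈ Finset.range 11, f 0 a = 0 := by
    apply Finset.sum_eq_zero
    intro a _
    simp only [f]
    rw [D.mu2_a0, mul_zero]
  -- b = 1
  have B1 : ‖∑ a ∈ Finset.range 10, f 1 a - ((-x * J 84 * g2 : ℝ) : ℂ)‖ ≤
      x * J 84 * (G3 * (P + (1 + P) * (c84 - 1))) := by
    have e1 : ∑ a ∈ Finset.range 10, f 1 a - ((-x * J 84 * g2 : ℝ) : ℂ) =
        ∑ a ∈ Finset.range (9 + 1), (((-1) ^ 1 * (x ^ (a + 1) / (a.factorial * Nat.factorial 1)) : ℝ) : ℂ) *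
          (J (83 + ((1 : ℕ) : ℤ) - a) : ℂ) * (if a = 0 then mu 42 φ 2 0 1 - (g2 : ℂ) else mu 42 φ 2 a 1) := by
      rw [Finset.sum_range_succ' (fun a => f 1 a) 9, Finset.sum_range_succ' _ 9]
      simp only [f, Nat.succ_ne_zero, if_false, if_true]
      have e2 : (83 + ((1 : ℕ) : ℤ) - ((0 : ℕ) : ℤ)) = 84 := by norm_num
      rw [e2]
      push_cast
      simp only [Nat.factorial]
      push_cast
      ring
    rw [e1]
    refine (norm_sum_le _ _).trans ?_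
    have e3 : ∀ a ∈ Finset.range (9 + 1),
        ‖(((-1) ^ 1 * (x ^ (a + 1) / (a.factorial * Nat.factorial 1)) : ℝ) : ℂ) *
          (J (83 + ((1 : ℕ) : ℤ) - a) : ℂ) * (if a = 0 then mu 42 φ 2 0 1 - (g2 : ℂ) else mu 42 φ 2 a 1)‖ ≤
        x * J 84 * G3 * ((84 * E) ^ a / a.factorial * (if a = 0 then P else 1 + P)) := by
      intro a ha
      have ha' : a ≤ 10 := by have := Finset.mem_range.1 ha; omega
      have e4 : (83 + ((1 : ℕ) : ℤ) - (a : ℤ)) = 84 - a := by push_cast; ring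
      rw [e4]
      refine (k2_term hx0 a 1 _ (h1 a ha') _).trans ?_
      have e5 : ‖(if a = 0 then mu 42 φ 2 0 1 - (g2 : ℂ) else mu 42 φ 2 a 1)‖ ≤
          E ^ a * (if a = 0 then P else 1 + P) * G3 := by
        by_cases h0 : a = 0
        · subst h0
          simp only [if_true, pow_zero, one_mul]
          exact D.mu2_01
        · rw [if_neg h0, if_neg h0]
          refine (D.mu2_a1 a (by omega)).trans (le_of_eq ?_)
          rw [← hPd, ← hEd]
          ring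
      have e6 : x ^ 1 / (Nat.factorial 1 : ℝ) * J 84 * (84 ^ a / (a.factorial : ℝ) *
          ‖(if a = 0 then mu 42 φ 2 0 1 - (g2 : ℂ) else mu 42 φ 2 a 1)‖) ≤
          x ^ 1 / (Nat.factorial 1 : ℝ) * J 84 * (84 ^ a / (a.factorial : ℝ) *
          (E ^ a * (if a = 0 then P else 1 + P) * G3)) := by
        apply mul_le_mul_of_nonneg_left _ (by positivity)
        exact mul_le_mul_of_nonneg_left e5 (by positivity)
      refine e6.trans (le_of_eq ?_)
      rw [mul_pow]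
      simp only [Nat.factorial]
      push_cast
      ring
    refine (Finset.sum_le_sum e3).trans ?_
    rw [← Finset.mul_sum]
    have e7 := k2_sum 9 (84 * E) P (1 + P) c84 (by positivity) (by positivity) hc84
      (fun a => if a = 0 then P else 1 + P) (by simp) (by
        intro a ha _
        rw [if_neg (by omega)])
    calc x * J 84 * G3 * ∑ a ∈ Finset.range (9 + 1), (84 * E) ^ a / (a.factorial : ℝ) *
          (if a = 0 then P else 1 + P) ≤ x * J 84 * G3 * (P + (1 + P) * (c84 - 1)) :=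
          mul_le_mul_of_nonneg_left e7 (by positivity)
      _ = _ := by ring
  -- b = 2
  have B2 : ‖∑ a ∈ Finset.range 9, f 2 a - ((x ^ 2 / 2 * J 85 * e ^ 2 : ℝ) : ℂ)‖ ≤
      x ^ 2 / 2 * J 85 * ((2 * e * Ga + Ga ^ 2) * (P + (1 + P) * (c85 - 1))) := by
    have e1 : ∑ a ∈ Finset.range 9, f 2 a - ((x ^ 2 / 2 * J 85 * e ^ 2 : ℝ) : ℂ) =
        ∑ a ∈ Finset.range (8 + 1), (((-1) ^ 2 * (x ^ (a + 2) / (a.factorial * Nat.factorial 2)) : ℝ) : ℂ) *
          (J (83 + ((2 : ℕ) : ℤ) - a) : ℂ) * (if a = 0 then mu 42 φ 2 0 2 - (e : ℂ) ^ 2 else mu 42 φ 2 a 2) := by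
      rw [Finset.sum_range_succ' (fun a => f 2 a) 8, Finset.sum_range_succ' _ 8]
      simp only [f, Nat.succ_ne_zero, if_false, if_true]
      have e2 : (83 + ((2 : ℕ) : ℤ) - ((0 : ℕ) : ℤ)) = 85 := by norm_num
      rw [e2]
      push_cast
      simp only [Nat.factorial]
      push_cast
      ring
    rw [e1]
    refine (norm_sum_le _ _).trans ?_
    have hm : 0 ≤ 2 * e * Ga + Ga ^ 2 := by positivity
    have e3 : ∀ a ∈ Finset.range (8 + 1),
        ‖(((-1) ^ 2 * (x ^ (a + 2) / (a.factorial * Nat.factorial 2)) : ℝ) : ℂ) *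
          (J (83 + ((2 : ℕ) : ℤ) - a) : ℂ) * (if a = 0 then mu 42 φ 2 0 2 - (e : ℂ) ^ 2 else mu 42 φ 2 a 2)‖ ≤
        x ^ 2 / 2 * J 85 * (2 * e * Ga + Ga ^ 2) *
          ((85 * E) ^ a / a.factorial * (if a = 0 then P else 1 + P)) := by
      intro a ha
      have ha' : a + 0 ≤ 10 := by have := Finset.mem_range.1 ha; omega
      have e4 : (83 + ((2 : ℕ) : ℤ) - (a : ℤ)) = 85 + ((0 : ℕ) : ℤ) - a := by push_cast; ring
      rw [e4]
      refine (k2_term hx0 a 2 _ (h2 a 0 ha') _).trans ?_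
      have e5 : ‖(if a = 0 then mu 42 φ 2 0 2 - (e : ℂ) ^ 2 else mu 42 φ 2 a 2)‖ ≤
          E ^ a * (if a = 0 then P else 1 + P) * (2 * e * Ga + Ga ^ 2) := by
        by_cases h0 : a = 0
        · subst h0
          simp only [if_true, pow_zero, one_mul]
          exact D.mu2_02
        · rw [if_neg h0, if_neg h0]
          refine (D.mu2_a2 a (by omega)).trans (le_of_eq ?_)
          rw [← hPd, ← hEd]
          ring
      have e6 : x ^ 2 / (Nat.factorial 2 : ℝ) * J 85 * (85 ^ a / (a.factorial : ℝ) *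
          ‖(if a = 0 then mu 42 φ 2 0 2 - (e : ℂ) ^ 2 else mu 42 φ 2 a 2)‖) ≤
          x ^ 2 / (Nat.factorial 2 : ℝ) * J 85 * (85 ^ a / (a.factorial : ℝ) *
          (E ^ a * (if a = 0 then P else 1 + P) * (2 * e * Ga + Ga ^ 2))) := by
        apply mul_le_mul_of_nonneg_left _ (by positivity)
        exact mul_le_mul_of_nonneg_left e5 (by positivity)
      refine e6.trans (le_of_eq ?_)
      rw [mul_pow]
      simp only [Nat.factorial]
      push_cast
      ring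
    refine (Finset.sum_le_sum e3).trans ?_
    rw [← Finset.mul_sum]
    have e7 := k2_sum 8 (85 * E) P (1 + P) c85 (by positivity) (by positivity) hc85
      (fun a => if a = 0 then P else 1 + P) (by simp) (by
        intro a ha _
        rw [if_neg (by omega)])
    calc x ^ 2 / 2 * J 85 * (2 * e * Ga + Ga ^ 2) * ∑ a ∈ Finset.range (8 + 1),
          (85 * E) ^ a / (a.factorial : ℝ) * (if a = 0 then P else 1 + P) ≤
          x ^ 2 / 2 * J 85 * (2 * e * Ga + Ga ^ 2) * (P + (1 + P) * (c85 - 1)) :=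
          mul_le_mul_of_nonneg_left e7 (by positivity)
      _ = _ := by ring
  -- b ≥ 3
  have B3 : ‖∑ i ∈ Finset.range 8, ∑ a ∈ Finset.range (8 - i), f (i + 3) a‖ ≤
      (x * E) ^ 3 / 5 * J 85 * (P + (1 + P) * (c85 - 1)) := by
    refine (norm_sum_le _ _).trans ?_
    have e1 : ∀ i ∈ Finset.range 8, ‖∑ a ∈ Finset.range (8 - i), f (i + 3) a‖ ≤
        (x * E) ^ (i + 3) / (i + 3).factorial * (J 85 * (P + (1 + P) * (c85 - 1))) := by
      intro i hi
      have hi' : i < 8 := Finset.mem_range.1 hi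
      obtain ⟨n, hn⟩ : ∃ n, 8 - i = n + 1 := ⟨7 - i, by omega⟩
      rw [hn]
      refine (norm_sum_le _ _).trans ?_
      have e3 : ∀ a ∈ Finset.range (n + 1), ‖f (i + 3) a‖ ≤
          (x * E) ^ (i + 3) / (i + 3).factorial * J 85 *
            ((85 * E) ^ a / a.factorial * (if a = 0 then P else 1 + P)) := by
        intro a ha
        have ha2 : a < n + 1 := Finset.mem_range.1 ha
        have ha' : a + (i + 1) ≤ 10 := by omega
        have e4 : (83 + ((i + 3 : ℕ) : ℤ) - (a : ℤ)) = 85 + ((i + 1 : ℕ) : ℤ) - a := by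
          push_cast; ring
        simp only [f]
        rw [e4]
        refine (k2_term hx0 a (i + 3) _ (h2 a (i + 1) ha') _).trans ?_
        have e5 : ‖mu 42 φ 2 a (i + 3)‖ ≤ E ^ a * (if a = 0 then P else 1 + P) * E ^ (i + 3) := by
          by_cases h0 : a = 0
          · subst h0
            simp only [if_true, pow_zero, one_mul]
            exact D.mu2_0b (i + 3) (by omega)
          · rw [if_neg h0]
            refine (D.mu2_ab a (i + 3)).trans (le_of_eq ?_)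
            rw [← hPd, ← hEd]
            ring
        have e6 : x ^ (i + 3) / ((i + 3).factorial : ℝ) * J 85 * (85 ^ a / (a.factorial : ℝ) *
            ‖mu 42 φ 2 a (i + 3)‖) ≤
            x ^ (i + 3) / ((i + 3).factorial : ℝ) * J 85 * (85 ^ a / (a.factorial : ℝ) *
            (E ^ a * (if a = 0 then P else 1 + P) * E ^ (i + 3))) := by
          apply mul_le_mul_of_nonneg_left _ (by positivity)
          exact mul_le_mul_of_nonneg_left e5 (by positivity)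
        refine e6.trans (le_of_eq ?_)
        rw [mul_pow, mul_pow]
        ring
      refine (Finset.sum_le_sum e3).trans ?_
      rw [← Finset.mul_sum]
      have e7 := k2_sum n (85 * E) P (1 + P) c85 (by positivity) (by positivity) hc85
        (fun a => if a = 0 then P else 1 + P) (by simp) (by
          intro a ha _
          rw [if_neg (by omega)])
      calc (x * E) ^ (i + 3) / ((i + 3).factorial : ℝ) * J 85 * ∑ a ∈ Finset.range (n + 1),
            (85 * E) ^ a / (a.factorial : ℝ) * (if a = 0 then P else 1 + P) ≤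
            (x * E) ^ (i + 3) / ((i + 3).factorial : ℝ) * J 85 * (P + (1 + P) * (c85 - 1)) :=
            mul_le_mul_of_nonneg_left e7 (by positivity)
        _ = _ := by ring
    refine (Finset.sum_le_sum e1).trans ?_
    rw [← Finset.sum_mul]
    have e8 := k2_tail3 (x * E) (by positivity) hxE
    have e9 : 0 ≤ J 85 * (P + (1 + P) * (c85 - 1)) :=
      mul_nonneg h85 (add_nonneg hPnn (mul_nonneg (by positivity) (by linarith)))
    calc _ ≤ (x * E) ^ 3 / 5 * (J 85 * (P + (1 + P) * (c85 - 1))) :=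
          mul_le_mul_of_nonneg_right e8 e9
      _ = _ := by ring
  have hsum := norm_add_le_of_le (norm_add_le_of_le B1 B2) B3
  have hfin := norm_add_le_of_le hX hsum
  have e1 : XX 42 ρ φ 2 - T + (∑ a ∈ Finset.range 10, f 1 a - ((-x * J 84 * g2 : ℝ) : ℂ) +
      (∑ a ∈ Finset.range 9, f 2 a - ((x ^ 2 / 2 * J 85 * e ^ 2 : ℝ) : ℂ)) +
      ∑ i ∈ Finset.range 8, ∑ a ∈ Finset.range (8 - i), f (i + 3) a) = XX 42 ρ φ 2 -
      ((-x * J 84 * g2 + x ^ 2 / 2 * J 85 * e ^ 2 : ℝ) : ℂ) := by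
    rw [hTf, B0]
    push_cast
    ring
  rw [e1] at hfin
  refine hfin.trans (le_of_eq ?_)
  unfold er2
  rw [hP43, ← hEd, hρx]
  simp only [Nat.factorial]
  push_cast
  ring

end SCHC
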