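import Pool.Agent.MP_83fd13_an.SCH.CertBY
import Pool.Agent.MP_83fd13_an.SCH.CertX2

/-!
# [SCH] certificate: the moment `Y_2` (relative to `J_84`)
-/

set_option autoImplicit false

open Metric Set MeasureTheory
open scoped RealInnerProductSpace NNReal ComplexConjugate

namespace SCHC

open SCHG

/-- `2 Re (w^N) w^{2N}` -/
noncomputable def y2Q (N : ℕ) (w : ℂ) : ℂ := (2 * ((w ^ N).re : ℂ)) * w ^ (N * 2)

theorem y2Q_eq {N : ℕ} {w : ℂ} (hw : ‖w‖ = 1) : y2Q N w = w ^ (N * 3) + w ^ (N * 1) := by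
  have h1 : (2 * ((w ^ N).re : ℂ)) = w ^ N + conj (w ^ N) := by
    rw [Complex.add_conj]
    push_cast
    ring
  have h2 : conj (w ^ N) * w ^ N = 1 := by
    rw [mul_comm, Complex.mul_conj, Complex.normSq_eq_norm_sq, norm_pow, hw]
    simp
  unfold y2Q
  rw [h1, add_mul]
  congr 1
  · rw [← pow_add]
    congr 1
    ring
  · have h3 : w ^ (N * 2) = w ^ N * w ^ (N * 1) := by
      rw [← pow_add]
      congr 1
      ring
    rw [h3, ← mul_assoc, h2, one_mul]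

theorem y2Q_norm {N : ℕ} {w : ℂ} (hw : ‖w‖ = 1) : ‖y2Q N w‖ ≤ 2 := by
  rw [y2Q_eq hw]
  refine (norm_add_le _ _).trans ?_
  rw [norm_pow, norm_pow, hw]
  norm_num

theorem y2Q_cont (N : ℕ) : ContinuousOn (y2Q N) (sphere 0 1) := by
  unfold y2Q
  fun_prop

/-- two shifted copies of a function of order `K` -/
theorem y2_psQ {N : ℕ} {F : ℂ → ℂ} {K : ℕ} {A : ℝ} (h : PS N F K A) :
    PS N (fun w => y2Q N w * F w) (1 + K) (2 * A) := by
  have h3 := (cb1_psw N 3).mul h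
  have h1 := (cb1_psw N 1).mul h
  have h4 := (h3.mono (by omega : 1 + K ≤ 3 + K) le_rfl).add h1
  have e1 : 1 * A + 1 * A = 2 * A := by ring
  rw [e1] at h4
  refine h4.congr fun w hw => ?_
  rw [y2Q_eq hw]
  ring

section Data

variable {N : ℕ} {ρ : ℝ} {φ : ℕ → ℝ} {e g2 τ G3 Ga P2 : ℝ}

/-- the mean of `2 Re(w^N) w^{2N} (1+p) g^a conj(g)^b` -/
noncomputable def nu (N : ℕ) (φ : ℕ → ℝ) (a b : ℕ) : ℂ :=
  mn fun w => y2Q N w * (1 + pp N φ w) * (gg N φ w ^ a * conj (gg N φ w) ^ b)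

/-- the mean of `2 Re(w^N) w^{2N} conj(1+p) g^a conj(g)^b` -/
noncomputable def nu' (N : ℕ) (φ : ℕ → ℝ) (a b : ℕ) : ℂ :=
  mn fun w => y2Q N w * conj (1 + pp N φ w) * (gg N φ w ^ a * conj (gg N φ w) ^ b)

theorem y2_mn_zero {N : ℕ} (hN : 0 < N) {F : ℂ → ℂ} {K : ℕ} {A : ℝ} (h : PS N F K A)
    (hK : 0 < K) : mn F = 0 := by
  have h1 := PS.orth hN h hK
  rw [← h1]
  apply mn_congr
  intro w _
  simp

theorem Dat.nu_a0 (D : Dat N ρ φ e g2 τ G3 Ga P2) (a : ℕ) : nu N φ a 0 = 0 := by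
  have h := y2_psQ (D.ps1p.mul (D.psg.pow a))
  have h0 := y2_mn_zero D.hN h (by omega)
  rw [← h0]
  unfold nu
  apply mn_congr
  intro w _
  rw [pow_zero]
  ring

theorem Dat.nu_ab (D : Dat N ρ φ e g2 τ G3 Ga P2) (a b : ℕ) :
    ‖nu N φ a b‖ ≤ 2 * (1 + ((N + 1) * e + P2)) * ((e + Ga) ^ a * (e + Ga) ^ b) := by
  unfold nu
  apply norm_mn_le
  intro w hw
  have h1 := y2Q_norm (N := N) hw
  have h2 := D.ps1p.norm_le hw
  have h3 := D.psg.norm_le hw
  rw [norm_mul, norm_mul, norm_mul, norm_pow, norm_pow, Complex.norm_conj]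
  have h4 := D.psg.nonneg
  have h5 := D.ps1p.nonneg
  gcongr

theorem Dat.nu'_ab (D : Dat N ρ φ e g2 τ G3 Ga P2) (a b : ℕ) :
    ‖nu' N φ a b‖ ≤ 2 * (1 + ((N + 1) * e + P2)) * ((e + Ga) ^ a * (e + Ga) ^ b) := by
  unfold nu'
  apply norm_mn_le
  intro w hw
  have h1 := y2Q_norm (N := N) hw
  have h2 := D.ps1p.norm_le hw
  have h3 := D.psg.norm_le hw
  rw [norm_mul, norm_mul, norm_mul, norm_pow, norm_pow, Complex.norm_conj, Complex.norm_conj]
  have h4 := D.psg.nonneg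
  have h5 := D.ps1p.nonneg
  gcongr

theorem Dat.nu'_a0 (D : Dat N ρ φ e g2 τ G3 Ga P2) (a : ℕ) :
    ‖nu' N φ a 0‖ ≤ 2 * ((N + 1) * e + P2) * ((e + Ga) ^ a * (e + Ga) ^ 0) := by
  have hg := D.psg.continuousOn
  have hp := D.psp.continuousOn
  have c1 : ContinuousOn (fun w => y2Q N w * gg N φ w ^ a) (sphere 0 1) :=
    (y2Q_cont N).mul (hg.pow a)
  have c2 : ContinuousOn (fun w => y2Q N w * conj (pp N φ w) * gg N φ w ^ a) (sphere 0 1) :=
    ((y2Q_cont N).mul (cb1_conj_cont hp)).mul (hg.pow a)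
  have e1 : nu' N φ a 0 = mn (fun w => y2Q N w * gg N φ w ^ a) +
      mn (fun w => y2Q N w * conj (pp N φ w) * gg N φ w ^ a) := by
    rw [← mn_add c1 c2]
    unfold nu'
    apply mn_congr
    intro w _
    rw [pow_zero, map_add, map_one]
    ring
  have e2 : mn (fun w => y2Q N w * gg N φ w ^ a) = 0 :=
    y2_mn_zero D.hN (y2_psQ (D.psg.pow a)) (by omega)
  rw [e1, e2, zero_add]
  apply norm_mn_le
  intro w hw
  have h1 := y2Q_norm (N := N) hw
  have h2 := D.psp.norm_le hw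
  have h3 := D.psg.norm_le hw
  rw [norm_mul, norm_mul, norm_pow, Complex.norm_conj, pow_zero, mul_one]
  have h4 := D.psg.nonneg
  have h5 := D.psp.nonneg
  gcongr

end Data

/-! ### Finite sums -/

theorem y2_inner {x E j θ c K : ℝ} (hx : 0 ≤ x) (hE : 0 ≤ E) (hj : 0 ≤ j) (hK : 0 ≤ K)
    (hθ : 0 ≤ θ) (hc : Real.exp (θ * E) ≤ c) (n b : ℕ) (J' : ℕ → ℝ)
    (hJ : ∀ a < n, x ^ a * |J' a| ≤ θ ^ a * j) (z : ℕ → ℂ)
    (hz : ∀ a < n, ‖z a‖ ≤ K * (E ^ a * E ^ b)) :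
    ‖∑ a ∈ Finset.range n, (((-1) ^ b * (x ^ (a + b) / (a.factorial * b.factorial)) : ℝ) : ℂ) *
      (J' a : ℂ) * z a‖ ≤ (x * E) ^ b / b.factorial * (j * K * c) := by
  refine (norm_sum_le _ _).trans ?_
  have e1 : ∀ a ∈ Finset.range n,
      ‖(((-1) ^ b * (x ^ (a + b) / (a.factorial * b.factorial)) : ℝ) : ℂ) * (J' a : ℂ) * z a‖ ≤
      (x * E) ^ b / b.factorial * (j * K) * ((θ * E) ^ a / a.factorial) := by
    intro a ha
    have ha' := Finset.mem_range.1 ha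
    refine (k2_term hx a b _ (hJ a ha') _).trans ?_
    have e2 : x ^ b / (b.factorial : ℝ) * j * (θ ^ a / (a.factorial : ℝ) * ‖z a‖) ≤
        x ^ b / (b.factorial : ℝ) * j * (θ ^ a / (a.factorial : ℝ) * (K * (E ^ a * E ^ b))) := by
      apply mul_le_mul_of_nonneg_left _ (by positivity)
      exact mul_le_mul_of_nonneg_left (hz a ha') (by positivity)
    refine e2.trans (le_of_eq ?_)
    rw [mul_pow, mul_pow]
    ring
  refine (Finset.sum_le_sum e1).trans ?_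
  rw [← Finset.mul_sum]
  have e3 : ∑ a ∈ Finset.range n, (θ * E) ^ a / (a.factorial : ℝ) ≤ c :=
    (Real.sum_le_exp_of_nonneg (by positivity) n).trans hc
  calc (x * E) ^ b / (b.factorial : ℝ) * (j * K) * ∑ a ∈ Finset.range n, (θ * E) ^ a / (a.factorial : ℝ)
      ≤ (x * E) ^ b / (b.factorial : ℝ) * (j * K) * c := mul_le_mul_of_nonneg_left e3 (by positivity)
    _ = _ := by ring

theorem y2_tail1 (y : ℝ) (hy : 0 ≤ y) (hy1 : y ≤ 1 / 10) :
    ∑ i ∈ Finset.range 10, y ^ (i + 1) / (i + 1).factorial ≤ 53 / 50 * y := by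
  have h : ∀ i : ℕ, y ^ (i + 1) ≤ y * (1 / 10) ^ i := by
    intro i
    rw [pow_succ, mul_comm]
    exact mul_le_mul_of_nonneg_left (pow_le_pow_left₀ hy hy1 i) hy
  have h2 : ∑ i ∈ Finset.range 10, y ^ (i + 1) / ((i + 1).factorial : ℝ) ≤
      ∑ i ∈ Finset.range 10, y * ((1 / 10) ^ i / (i + 1).factorial) := by
    apply Finset.sum_le_sum
    intro i _
    rw [← mul_div_assoc]
    exact div_le_div_of_nonneg_right (h i) (by positivity)
  refine h2.trans ?_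
  rw [← Finset.mul_sum, mul_comm (53 / 50 : ℝ)]
  refine mul_le_mul_of_nonneg_left ?_ hy
  simp only [Finset.sum_range_succ, Finset.sum_range_zero, Nat.factorial]
  norm_num

theorem y2_tail2 (y : ℝ) (hy : 0 ≤ y) (hy1 : y ≤ 1 / 10) :
    ∑ i ∈ Finset.range 9, y ^ (i + 2) / (i + 2).factorial ≤ 13 / 25 * y ^ 2 := by
  have h : ∀ i : ℕ, y ^ (i + 2) ≤ y ^ 2 * (1 / 10) ^ i := by
    intro i
    rw [pow_add, mul_comm]
    exact mul_le_mul_of_nonneg_left (pow_le_pow_left₀ hy hy1 i) (by positivity)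
  have h2 : ∑ i ∈ Finset.range 9, y ^ (i + 2) / ((i + 2).factorial : ℝ) ≤
      ∑ i ∈ Finset.range 9, y ^ 2 * ((1 / 10) ^ i / (i + 2).factorial) := by
    apply Finset.sum_le_sum
    intro i _
    rw [← mul_div_assoc]
    exact div_le_div_of_nonneg_right (h i) (by positivity)
  refine h2.trans ?_
  rw [← Finset.mul_sum, mul_comm (13 / 25 : ℝ)]
  refine mul_le_mul_of_nonneg_left ?_ (by positivity)
  simp only [Finset.sum_range_succ, Finset.sum_range_zero, Nat.factorial]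
  norm_num

theorem y2_flip (f : ℕ → ℕ → ℂ) :
    ∑ m ∈ Finset.range 11, ∑ b ∈ Finset.range (m + 1), f b (m - b) =
      ∑ a ∈ Finset.range 11, f 0 a + ∑ i ∈ Finset.range 10, ∑ a ∈ Finset.range (10 - i), f (i + 1) a := by
  rw [Finset.sum_range_diag_flip, Finset.sum_range_succ']
  have h : ∀ i ∈ Finset.range 10, ∑ a ∈ Finset.range (11 - (i + 1)), f (i + 1) a =
      ∑ a ∈ Finset.range (10 - i), f (i + 1) a := by
    intro i _
    have e1 : 11 - (i + 1) = 10 - i := by omega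
    rw [e1]
  rw [Finset.sum_congr rfl h]
  ring

theorem y2_flip2 (f : ℕ → ℕ → ℂ) :
    ∑ m ∈ Finset.range 11, ∑ b ∈ Finset.range (m + 1), f b (m - b) =
      ∑ a ∈ Finset.range 11, f 0 a + ∑ a ∈ Finset.range 10, f 1 a +
      ∑ i ∈ Finset.range 9, ∑ a ∈ Finset.range (9 - i), f (i + 2) a := by
  rw [Finset.sum_range_diag_flip, Finset.sum_range_succ', Finset.sum_range_succ']
  have h : ∀ i ∈ Finset.range 9, ∑ a ∈ Finset.range (11 - (i + 1 + 1)), f (i + 1 + 1) a =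
      ∑ a ∈ Finset.range (9 - i), f (i + 2) a := by
    intro i _
    have e1 : 11 - (i + 1 + 1) = 9 - i := by omega
    rw [e1]
  rw [Finset.sum_congr rfl h]
  ring

/-- mean of a continuous function times the double sum -/
theorem y2_mn_sum {g : ℂ → ℂ} (hg : ContinuousOn g (sphere 0 1)) {H : ℂ → ℂ}
    (hH : ContinuousOn H (sphere 0 1)) (C : ℕ → ℕ → ℂ) :
    mn (fun w => H w * ∑ m ∈ Finset.range 11, ∑ b ∈ Finset.range (m + 1),
      C m b * (g w ^ (m - b) * conj (g w) ^ b)) =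
    ∑ m ∈ Finset.range 11, ∑ b ∈ Finset.range (m + 1),
      C m b * mn (fun w => H w * (g w ^ (m - b) * conj (g w) ^ b)) := by
  have hc : ∀ m b : ℕ, ContinuousOn (fun w => C m b * (H w * (g w ^ (m - b) * conj (g w) ^ b)))
      (sphere 0 1) := fun m b =>
    continuousOn_const.mul (hH.mul ((hg.pow _).mul ((cb1_conj_cont hg).pow _)))
  have e1 : mn (fun w => H w * ∑ m ∈ Finset.range 11, ∑ b ∈ Finset.range (m + 1),
      C m b * (g w ^ (m - b) * conj (g w) ^ b)) =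
      mn (fun w => ∑ m ∈ Finset.range 11, ∑ b ∈ Finset.range (m + 1),
      C m b * (H w * (g w ^ (m - b) * conj (g w) ^ b))) := by
    apply mn_congr
    intro w _
    rw [Finset.mul_sum]
    refine Finset.sum_congr rfl fun m _ => ?_
    rw [Finset.mul_sum]
    refine Finset.sum_congr rfl fun b _ => ?_
    ring
  rw [e1, mn_sum _ _ (fun m _ => continuousOn_finsetSum _ fun b _ => hc m b)]
  refine Finset.sum_congr rfl fun m _ => ?_
  rw [mn_sum _ _ (fun b _ => hc m b)]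
  refine Finset.sum_congr rfl fun b _ => ?_
  rw [mn_const_mul]

/-- bound for `Y_2` -/
noncomputable def ey2 (x e Ga P2 c84 c85 j84 j85 : ℝ) : ℝ :=
  x * (e + Ga) * (j84 * (1 + (43 * e + P2)) * c84) +
  13 / 25 * (x * (e + Ga)) ^ 2 * (j85 * (1 + (43 * e + P2)) * c85) +
  j85 * (43 * e + P2) * c85 +
  53 / 50 * (x * (e + Ga)) * (j85 * (1 + (43 * e + P2)) * c85) +
  2 * (1 + (43 * e + P2)) * ((2 * x * (e + Ga)) ^ 11 / 36590400)

theorem Y2_bound (ρ : ℝ) (φ : ℕ → ℝ) (e g2 τ G3 Ga P2 : ℝ)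
    (D : Dat 42 ρ φ e g2 τ G3 Ga P2) (J : ℤ → ℝ) (hJ : ∀ k, Jc ρ k = (J k : ℂ))
    (h84 : 0 ≤ J 84) (h85 : 0 ≤ J 85)
    (h1 : ∀ a : ℕ, a ≤ 10 → (ρ / 2) ^ a * |J (84 - a)| ≤ 84 ^ a * J 84)
    (h2 : ∀ a b : ℕ, a + b ≤ 10 → (ρ / 2) ^ a * |J (85 + b - a)| ≤ 85 ^ a * J 85)
    (c84 c85 : ℝ) (hc84 : Real.exp (84 * (e + Ga)) ≤ c84) (hc85 : Real.exp (85 * (e + Ga)) ≤ c85)
    (hxE : ρ / 2 * (e + Ga) ≤ 1 / 10) :
    ‖YY 42 ρ φ 2‖ ≤ ey2 (ρ / 2) e Ga P2 c84 c85 (J 84) (J 85) := by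
  have hρ := D.hρ
  have hE : ∀ w : ℂ, ‖w‖ = 1 → ‖gg 42 φ w‖ ≤ e + Ga := fun w hw => D.psg.norm_le hw
  have hEnn : 0 ≤ e + Ga := D.psg.nonneg
  have hPnn : 0 ≤ ((42 : ℕ) + 1) * e + P2 := D.psp.nonneg
  have hP1 : ∀ w : ℂ, ‖w‖ = 1 → ‖1 + pp 42 φ w‖ ≤ 1 + (((42 : ℕ) + 1) * e + P2) :=
    fun w hw => D.ps1p.norm_le hw
  have cg := D.psg.continuousOn
  have cp := D.ps1p.continuousOn
  have nuab := D.nu_ab
  have nuab' := D.nu'_ab
  have nua0' := D.nu'_a0
  have hE1 := D.hsm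
  set E : ℝ := e + Ga with hEd
  set P : ℝ := ((42 : ℕ) + 1) * e + P2 with hPd
  have hP43 : 43 * e + P2 = P := by rw [hPd]; norm_num
  set x : ℝ := ρ / 2 with hx
  have hx0 : 0 ≤ x := by positivity
  have hρx : ρ = 2 * x := by rw [hx]; ring
  let C : ℤ → ℕ → ℕ → ℂ := fun n m b =>
    (((-1) ^ b * (x ^ m / ((m - b).factorial * b.factorial)) : ℝ) : ℂ) * Jc ρ (n - 1 - m + 2 * b)
  let S : ℤ → ℂ → ℂ := fun n w => ∑ m ∈ Finset.range 11, ∑ b ∈ Finset.range (m + 1),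
      C n m b * (gg 42 φ w ^ (m - b) * conj (gg 42 φ w) ^ b)
  have hS : ∀ (n : ℤ) (w : ℂ), ‖w‖ = 1 → ‖KK ρ n (gg 42 φ w) - S n w‖ ≤ (ρ * E) ^ 11 / 36590400 := by
    intro n w hw
    have hg := hE w hw
    have hg1 : ρ * ‖gg 42 φ w‖ ≤ ρ * E := mul_le_mul_of_nonneg_left hg hρ.le
    have h := KK_expand ρ hρ.le n (gg 42 φ w) (hg1.trans hE1) 11 (by norm_num)
    refine h.trans ?_
    have e1 : (ρ * ‖gg 42 φ w‖) ^ 11 ≤ (ρ * E) ^ 11 := pow_le_pow_left₀ (by positivity) hg1 11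
    have e2 : ((((11 : ℕ) : ℝ) + 1) / ((Nat.factorial 11 : ℕ) * ((11 : ℕ) : ℝ))) = 1 / 36590400 := by
      simp only [Nat.factorial]
      norm_num
    rw [e2, mul_one_div]
    exact div_le_div_of_nonneg_right e1 (by norm_num)
  have cS : ∀ n : ℤ, ContinuousOn (S n) (sphere 0 1) := fun n =>
    continuousOn_finsetSum _ fun m _ => continuousOn_finsetSum _ fun b _ =>
      continuousOn_const.mul ((cg.pow _).mul ((cb1_conj_cont cg).pow _))
  have cH1 : ContinuousOn (fun w => y2Q 42 w * (1 + pp 42 φ w)) (sphere 0 1) :=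
    (y2Q_cont 42).mul cp
  have cH2 : ContinuousOn (fun w => y2Q 42 w * conj (1 + pp 42 φ w)) (sphere 0 1) :=
    (y2Q_cont 42).mul (cb1_conj_cont cp)
  have cK : ∀ n : ℤ, ContinuousOn (fun w => KK ρ n (gg 42 φ w)) (sphere 0 1) :=
    fun n => cby_cont_KK D n
  -- the two main parts
  set T1 : ℂ := mn (fun w => y2Q 42 w * (1 + pp 42 φ w) * S 84 w) with hT1
  set T2 : ℂ := mn (fun w => y2Q 42 w * conj (1 + pp 42 φ w) * S 86 w) with hT2
  have hY : ‖YY 42 ρ φ 2 - (T1 - T2) / 2‖ ≤ 2 * (1 + P) * ((ρ * E) ^ 11 / 36590400) := by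
    rw [YY_expand 42 ρ φ D.hs 2]
    have m1 : ContinuousOn (fun w => (y2Q 42 w * (1 + pp 42 φ w) * S 84 w -
        y2Q 42 w * conj (1 + pp 42 φ w) * S 86 w) / 2) (sphere 0 1) :=
      ((cH1.mul (cS 84)).sub (cH2.mul (cS 86))).div_const 2
    have m2 : mn (fun w => (y2Q 42 w * (1 + pp 42 φ w) * S 84 w -
        y2Q 42 w * conj (1 + pp 42 φ w) * S 86 w) / 2) = (T1 - T2) / 2 := by
      simp only [div_eq_mul_inv]
      rw [mn_mul_const, mn_sub (F := fun w => y2Q 42 w * (1 + pp 42 φ w) * S 84 w)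
        (G := fun w => y2Q 42 w * conj (1 + pp 42 φ w) * S 86 w) (cH1.mul (cS 84))
        (cH2.mul (cS 86))]
    have n84 : (((42 * 2 : ℕ) : ℤ)) = 84 := by norm_num
    have n86 : (((42 * 2 : ℕ) : ℤ) + 2) = 86 := by norm_num
    rw [n86, n84]
    have i1 : ContinuousOn (fun w => (2 * ((w ^ 42).re : ℂ)) * w ^ (42 * 2) *
        ((1 + pp 42 φ w) * KK ρ 84 (gg 42 φ w) -
        conj (1 + pp 42 φ w) * KK ρ 86 (gg 42 φ w)) / 2) (sphere 0 1) :=
      (((y2Q_cont 42).mul ((cp.mul (cK 84)).sub ((cb1_conj_cont cp).mul (cK 86))))).div_const 2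
    refine cby_mean i1 m1 m2 ?_
    intro w hw
    have q1 := y2Q_norm (N := 42) hw
    have s1 := hS 84 w hw
    have s2 := hS 86 w hw
    have p1 := hP1 w hw
    have e1 : (2 * ((w ^ 42).re : ℂ)) * w ^ (42 * 2) *
        ((1 + pp 42 φ w) * KK ρ 84 (gg 42 φ w) -
        conj (1 + pp 42 φ w) * KK ρ 86 (gg 42 φ w)) / 2 -
        (y2Q 42 w * (1 + pp 42 φ w) * S 84 w -
        y2Q 42 w * conj (1 + pp 42 φ w) * S 86 w) / 2 =
        (y2Q 42 w / 2) * ((1 + pp 42 φ w) * (KK ρ 84 (gg 42 φ w) - S 84 w) -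
          conj (1 + pp 42 φ w) * (KK ρ 86 (gg 42 φ w) - S 86 w)) := by
      unfold y2Q
      ring
    rw [e1, norm_mul]
    have e2 : ‖y2Q 42 w / 2‖ ≤ 1 := by
      rw [norm_div]
      norm_num
      linarith
    have e3 : ‖(1 + pp 42 φ w) * (KK ρ 84 (gg 42 φ w) - S 84 w) -
          conj (1 + pp 42 φ w) * (KK ρ 86 (gg 42 φ w) - S 86 w)‖ ≤
        (1 + P) * ((ρ * E) ^ 11 / 36590400) + (1 + P) * ((ρ * E) ^ 11 / 36590400) := by
      refine (norm_sub_le _ _).trans ?_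
      rw [norm_mul, norm_mul, Complex.norm_conj]
      gcongr
    calc _ ≤ 1 * ((1 + P) * ((ρ * E) ^ 11 / 36590400) + (1 + P) * ((ρ * E) ^ 11 / 36590400)) :=
          mul_le_mul e2 e3 (norm_nonneg _) zero_le_one
      _ = _ := by ring
  -- the terms
  let f : ℕ → ℕ → ℂ := fun b a => (((-1) ^ b * (x ^ (a + b) / (a.factorial * b.factorial)) : ℝ) : ℂ) *
    (J (83 + b - a) : ℂ) * nu 42 φ a b
  let f' : ℕ → ℕ → ℂ := fun b a => (((-1) ^ b * (x ^ (a + b) / (a.factorial * b.factorial)) : ℝ) : ℂ) *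
    (J (85 + b - a) : ℂ) * nu' 42 φ a b
  have hT1f : T1 = ∑ m ∈ Finset.range 11, ∑ b ∈ Finset.range (m + 1), f b (m - b) := by
    rw [hT1]
    simp only [S]
    rw [y2_mn_sum cg cH1]
    refine Finset.sum_congr rfl fun m _ => Finset.sum_congr rfl fun b hb => ?_
    have hbm : b ≤ m := by have := Finset.mem_range.1 hb; omega
    have e1 : m - b + b = m := Nat.sub_add_cancel hbm
    have e2 : (84 : ℤ) - 1 - m + 2 * b = 83 + b - ((m - b : ℕ) : ℤ) := by
      push_cast [Nat.cast_sub hbm]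
      ring
    simp only [f, C, nu]
    rw [e1, hJ, e2]
  have hT2f : T2 = ∑ m ∈ Finset.range 11, ∑ b ∈ Finset.range (m + 1), f' b (m - b) := by
    rw [hT2]
    simp only [S]
    rw [y2_mn_sum cg cH2]
    refine Finset.sum_congr rfl fun m _ => Finset.sum_congr rfl fun b hb => ?_
    have hbm : b ≤ m := by have := Finset.mem_range.1 hb; omega
    have e1 : m - b + b = m := Nat.sub_add_cancel hbm
    have e2 : (86 : ℤ) - 1 - m + 2 * b = 85 + b - ((m - b : ℕ) : ℤ) := by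
      push_cast [Nat.cast_sub hbm]
      ring
    simp only [f', C, nu']
    rw [e1, hJ, e2]
  have hA : 0 ≤ 2 * (1 + P) := by positivity
  have hc84' : 0 ≤ c84 := (Real.exp_pos _).le.trans hc84
  have hc85' : 0 ≤ c85 := (Real.exp_pos _).le.trans hc85
  -- `T1`
  have BT1 : ‖T1‖ ≤ x * E * (J 84 * (2 * (1 + P)) * c84) +
      13 / 25 * (x * E) ^ 2 * (J 85 * (2 * (1 + P)) * c85) := by
    rw [hT1f, y2_flip2]
    have z0 : ∑ a ∈ Finset.range 11, f 0 a = 0 := by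
      apply Finset.sum_eq_zero
      intro a _
      simp only [f]
      rw [D.nu_a0, mul_zero]
    rw [z0, zero_add]
    refine norm_add_le_of_le ?_ ?_
    · have h := y2_inner (x := x) (E := E) (j := J 84) (θ := 84) (c := c84) (K := 2 * (1 + P))
        hx0 hEnn h84 hA (by norm_num) hc84 10 1 (fun a => J (83 + ((1 : ℕ) : ℤ) - a)) (by
          intro a ha
          have e4 : (83 + ((1 : ℕ) : ℤ) - (a : ℤ)) = 84 - a := by push_cast; ring
          simp only [e4]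
          exact h1 a (by omega)) (fun a => nu 42 φ a 1) (fun a _ => nuab a 1)
      refine h.trans (le_of_eq ?_)
      simp
    · refine (norm_sum_le _ _).trans ?_
      have h : ∀ i ∈ Finset.range 9, ‖∑ a ∈ Finset.range (9 - i), f (i + 2) a‖ ≤
          (x * E) ^ (i + 2) / (i + 2).factorial * (J 85 * (2 * (1 + P)) * c85) := by
        intro i hi
        have hi' := Finset.mem_range.1 hi
        exact y2_inner (x := x) (E := E) (j := J 85) (θ := 85) (c := c85) (K := 2 * (1 + P))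
          hx0 hEnn h85 hA (by norm_num) hc85 (9 - i) (i + 2)
          (fun a => J (83 + ((i + 2 : ℕ) : ℤ) - a)) (by
            intro a ha
            have e4 : (83 + ((i + 2 : ℕ) : ℤ) - (a : ℤ)) = 85 + (i : ℤ) - a := by push_cast; ring
            simp only [e4]
            exact h2 a i (by omega)) (fun a => nu 42 φ a (i + 2)) (fun a _ => nuab a (i + 2))
      refine (Finset.sum_le_sum h).trans ?_
      rw [← Finset.sum_mul]
      exact mul_le_mul_of_nonneg_right (y2_tail2 (x * E) (by positivity) hxE) (by positivity)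
  -- `T2`
  have BT2 : ‖T2‖ ≤ J 85 * (2 * P) * c85 + 53 / 50 * (x * E) * (J 85 * (2 * (1 + P)) * c85) := by
    rw [hT2f, y2_flip]
    refine norm_add_le_of_le ?_ ?_
    · have h := y2_inner (x := x) (E := E) (j := J 85) (θ := 85) (c := c85) (K := 2 * P)
        hx0 hEnn h85 (by positivity) (by norm_num) hc85 11 0 (fun a => J (85 + ((0 : ℕ) : ℤ) - a)) (by
          intro a ha
          exact h2 a 0 (by omega)) (fun a => nu' 42 φ a 0) (fun a _ => nua0' a)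
      refine h.trans (le_of_eq ?_)
      simp
    · refine (norm_sum_le _ _).trans ?_
      have h : ∀ i ∈ Finset.range 10, ‖∑ a ∈ Finset.range (10 - i), f' (i + 1) a‖ ≤
          (x * E) ^ (i + 1) / (i + 1).factorial * (J 85 * (2 * (1 + P)) * c85) := by
        intro i hi
        have hi' := Finset.mem_range.1 hi
        exact y2_inner (x := x) (E := E) (j := J 85) (θ := 85) (c := c85) (K := 2 * (1 + P))
          hx0 hEnn h85 hA (by norm_num) hc85 (10 - i) (i + 1)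
          (fun a => J (85 + ((i + 1 : ℕ) : ℤ) - a)) (by
            intro a ha
            exact h2 a (i + 1) (by omega)) (fun a => nu' 42 φ a (i + 1)) (fun a _ => nuab' a (i + 1))
      refine (Finset.sum_le_sum h).trans ?_
      rw [← Finset.sum_mul]
      exact mul_le_mul_of_nonneg_right (y2_tail1 (x * E) (by positivity) hxE) (by positivity)
  have hfin : ‖YY 42 ρ φ 2‖ ≤ 2 * (1 + P) * ((ρ * E) ^ 11 / 36590400) +
      ((x * E * (J 84 * (2 * (1 + P)) * c84) + 13 / 25 * (x * E) ^ 2 * (J 85 * (2 * (1 + P)) * c85)) +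
      (J 85 * (2 * P) * c85 + 53 / 50 * (x * E) * (J 85 * (2 * (1 + P)) * c85))) / 2 := by
    have e1 : YY 42 ρ φ 2 = (YY 42 ρ φ 2 - (T1 - T2) / 2) + (T1 - T2) / 2 := by ring
    rw [e1]
    refine norm_add_le_of_le hY ?_
    rw [norm_div]
    have e2 : ‖T1 - T2‖ ≤ (x * E * (J 84 * (2 * (1 + P)) * c84) +
        13 / 25 * (x * E) ^ 2 * (J 85 * (2 * (1 + P)) * c85)) +
        (J 85 * (2 * P) * c85 + 53 / 50 * (x * E) * (J 85 * (2 * (1 + P)) * c85)) :=
      (norm_sub_le _ _).trans (add_le_add BT1 BT2)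
    have e3 : ‖(2 : ℂ)‖ = 2 := by norm_num
    rw [e3]
    exact div_le_div_of_nonneg_right e2 (by norm_num)
  refine hfin.trans (le_of_eq ?_)
  unfold ey2
  rw [hP43, ← hEd, hρx]
  ring

end SCHC
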