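import Pool.Agent.MP_83fd13_an.SCH.Exp1

/-!
# [SCH] the explicit parts of System E, `N = 42`

`P n` : `-(1/(n+1)) r^n (x/2) J_1(x)`, `x = ρ r`, solves `L y + ρ² y = -ρ² r^n J_0(x)`;
`Q0`, `A0` (mode 0), `Q2`, `A2` (mode 2): the second order parts.
-/

set_option autoImplicit false

namespace Pool.Agent.SCH

open MeasureTheory Set Filter Topology

/-- the first order part -/
noncomputable def PP (J : ℕ → ℝ → ℝ) (ρ : ℝ) (n : ℕ) (r : ℝ) : ℝ :=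
  -(r ^ n * (ρ * r / 2) * J 1 (ρ * r)) / (n + 1)

/-- its derivative -/
noncomputable def PP' (J : ℕ → ℝ → ℝ) (ρ : ℝ) (n : ℕ) (r : ℝ) : ℝ :=
  -(ρ / 2) * r ^ n * (n * J 1 (ρ * r) + ρ * r * J 0 (ρ * r)) / (n + 1)

/-- the part of order `g²` of mode 0 -/
noncomputable def Q0 (J : ℕ → ℝ → ℝ) (ρ : ℝ) (r : ℝ) : ℝ :=
  r ^ 84 * ((ρ * r) ^ 2 / 4 * J 2 (ρ * r) - ρ * r / 2 * J 1 (ρ * r))

/-- its derivative (times `r`) divided by `r` -/
noncomputable def Q0' (J : ℕ → ℝ → ℝ) (ρ : ℝ) (r : ℝ) : ℝ :=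
  ρ ^ 2 / 4 * ((84 * r ^ 86 * J 2 (ρ * r) + ρ * r ^ 87 * J 1 (ρ * r)) / r) -
    ρ / 2 * ((84 * r ^ 85 * J 1 (ρ * r) + ρ * r ^ 86 * J 0 (ρ * r)) / r)

/-- the part of order `α g` of mode 0 -/
noncomputable def A0 (J : ℕ → ℝ → ℝ) (ρ : ℝ) (r : ℝ) : ℝ :=
  -(r ^ 42 * (ρ * r) * J 43 (ρ * r))

/-- its derivative -/
noncomputable def A0' (J : ℕ → ℝ → ℝ) (ρ : ℝ) (r : ℝ) : ℝ :=
  -(ρ * ((ρ * r ^ 44 * J 42 (ρ * r)) / r))

/-- the part of order `g²` of mode 2 -/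
noncomputable def Q2 (J : ℕ → ℝ → ℝ) (ρ : ℝ) (r : ℝ) : ℝ :=
  r ^ 84 * ((ρ * r) ^ 2 / 8) * J 2 (ρ * r)

/-- its derivative -/
noncomputable def Q2' (J : ℕ → ℝ → ℝ) (ρ : ℝ) (r : ℝ) : ℝ :=
  ρ ^ 2 / 8 * ((84 * r ^ 86 * J 2 (ρ * r) + ρ * r ^ 87 * J 1 (ρ * r)) / r)

/-- the part of order `α g` of mode 2 -/
noncomputable def A2 (J : ℕ → ℝ → ℝ) (ρ : ℝ) (r : ℝ) : ℝ :=
  r ^ 42 * (ρ * r / 2) * J 41 (ρ * r)

/-- its derivative -/
noncomputable def A2' (J : ℕ → ℝ → ℝ) (ρ : ℝ) (r : ℝ) : ℝ :=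
  ρ / 2 * ((2 * r ^ 43 * J 41 (ρ * r) + ρ * r ^ 44 * J 40 (ρ * r)) / r)

/-- replace the source, the function and its derivative by equal expressions on `(0, ∞)` -/
theorem RSol.congr {n : ℕ} {f f₂ y y₂ y' y₂' : ℝ → ℝ} (h : RSol n f y y')
    (hf : ∀ r : ℝ, 0 < r → f₂ r = f r) (hy : ∀ r : ℝ, 0 < r → y₂ r = y r)
    (hy' : ∀ r : ℝ, 0 < r → y₂' r = y' r) : RSol n f₂ y₂ y₂' where
  d1 r hr := by
    rw [hy' r hr]
    refine (h.d1 r hr).congr_of_eventuallyEq ?_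
    filter_upwards [Ioi_mem_nhds hr] with x hx
    exact hy x hx
  d2 r hr := by
    rw [hy r hr, hf r hr]
    refine (h.d2 r hr).congr_of_eventuallyEq ?_
    filter_upwards [Ioi_mem_nhds hr] with x hx
    rw [hy' x hx]

theorem pow_mul_div_sq (k : ℕ) (a : ℝ) {r : ℝ} (hr : 0 < r) :
    r ^ (k + 2) * a / r ^ 2 = r ^ k * a := by
  have hr' : r ^ 2 ≠ 0 := pow_ne_zero _ hr.ne'
  rw [div_eq_iff hr', pow_add]
  ring

variable {J : ℕ → ℝ → ℝ} (B : BesselSys J)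
include B

theorem BesselSys.rsol_PP (ρ : ℝ) (n : ℕ) :
    RSol n (fun r => ρ ^ 2 * (PP J ρ n r + r ^ n * J 0 (ρ * r))) (PP J ρ n) (PP' J ρ n) := by
  refine ((B.rsol_rJ ρ n (n + 1) 0 (by omega)).const_mul (-(ρ / 2) / ((n : ℝ) + 1))).congr ?_ ?_ ?_
  · intro r hr
    have hn : (n : ℝ) + 1 ≠ 0 := by positivity
    simp only [PP]
    push_cast
    field_simp
    ring
  · intro r hr
    have hn : (n : ℝ) + 1 ≠ 0 := by positivity
    simp only [PP]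
    field_simp
    ring
  · intro r hr
    have hn : (n : ℝ) + 1 ≠ 0 := by positivity
    simp only [PP']
    push_cast
    field_simp
    ring

theorem BesselSys.rsol_Q0 (ρ : ℝ) :
    RSol 0 (fun r => ρ ^ 2 * (Q0 J ρ r + 43 ^ 2 * r ^ 84 * J 0 (ρ * r) -
      43 * r ^ 84 * (ρ * r) * J 1 (ρ * r))) (Q0 J ρ) (Q0' J ρ) := by
  refine (((B.rsol_rJ ρ 0 86 1 (by omega)).const_mul (ρ ^ 2 / 4)).add
    ((B.rsol_rJ ρ 0 85 0 (by omega)).const_mul (-(ρ / 2)))).congr ?_ ?_ ?_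
  · intro r hr
    have h := B.recur 0 (ρ * r)
    simp only [Q0, zero_add, Nat.reduceAdd]
    push_cast at h ⊢
    have e1 : ∀ a : ℝ, r ^ 86 * a / r ^ 2 = r ^ 84 * a := fun a => pow_mul_div_sq 84 a hr
    have e2 : ∀ a : ℝ, r ^ 85 * a / r ^ 2 = r ^ 83 * a := fun a => pow_mul_div_sq 83 a hr
    rw [e1, e2]
    linear_combination (-(1764 * ρ * r ^ 83)) * h
  · intro r hr
    simp only [Q0]
    ring
  · intro r hr
    simp only [Q0']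
    push_cast
    ring

theorem BesselSys.rsol_A0 (ρ : ℝ) :
    RSol 0 (fun r => ρ ^ 2 * (A0 J ρ r + 86 * r ^ 42 * J 42 (ρ * r))) (A0 J ρ) (A0' J ρ) := by
  refine ((B.rsol_rJ ρ 0 43 42 (by omega)).const_mul (-ρ)).congr ?_ ?_ ?_
  · intro r hr
    simp only [A0, Nat.reduceAdd]
    push_cast
    field_simp
    ring
  · intro r hr
    simp only [A0]
    ring
  · intro r hr
    simp only [A0']
    push_cast
    ring

theorem BesselSys.rsol_Q2 (ρ : ℝ) :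
    RSol 84 (fun r => ρ ^ 2 * (Q2 J ρ r - 43 / 2 * r ^ 84 * (ρ * r) * J 1 (ρ * r)))
      (Q2 J ρ) (Q2' J ρ) := by
  refine ((B.rsol_rJ ρ 84 86 1 (by omega)).const_mul (ρ ^ 2 / 8)).congr ?_ ?_ ?_
  · intro r hr
    simp only [Q2, Nat.reduceAdd]
    push_cast
    field_simp
    ring
  · intro r hr
    simp only [Q2]
    ring
  · intro r hr
    simp only [Q2']
    push_cast
    ring

theorem BesselSys.rsol_A2 (ρ : ℝ) :
    RSol 84 (fun r => ρ ^ 2 * (A2 J ρ r + 43 * r ^ 42 * J 42 (ρ * r))) (A2 J ρ) (A2' J ρ) := by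
  refine ((B.rsol_rJ ρ 84 43 40 (by omega)).const_mul (ρ / 2)).congr ?_ ?_ ?_
  · intro r hr
    have h := B.recur 40 (ρ * r)
    simp only [A2, Nat.reduceAdd]
    push_cast at h ⊢
    have e1 : ∀ a : ℝ, r ^ 43 * a / r ^ 2 = r ^ 41 * a := fun a => pow_mul_div_sq 41 a hr
    rw [e1]
    linear_combination (-(43 * ρ * r ^ 41)) * h
  · intro r hr
    simp only [A2]
    ring
  · intro r hr
    simp only [A2']
    push_cast
    ring

end Pool.Agent.SCH
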