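import Pool.Agent.MP_83fd13_an.SCH.Geo14

/-!
# [SCH] the output of the fixed point part (statement only)
-/

set_option autoImplicit false

open Metric Set MeasureTheory Filter Topology

namespace SCHG

/-- the output of the fixed point part: for every `ρ ∈ [ρ₂, ρ₁]` the fixed point data with the
Neumann condition and `u_k(1) = 0` for `k ≥ 2`, and `h(ρ) = u_1(1)` continuous in `ρ` -/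
structure Family (ρ₂ ρ₁ : ℝ) (φ : ℝ → ℕ → ℝ) (u u' u'' : ℝ → ℕ → ℝ → ℝ) (B : ℝ → ℕ → ℝ) :
    Prop where
  fp : ∀ ρ ∈ Icc ρ₂ ρ₁, FP 42 ρ (φ ρ) (u ρ) (u' ρ) (u'' ρ) (B ρ)
  z2 : ∀ ρ ∈ Icc ρ₂ ρ₁, ∀ k, u ρ (k + 2) 1 = 0
  u0 : ∀ ρ ∈ Icc ρ₂ ρ₁, u ρ 0 0 = 1
  q : ∀ ρ ∈ Icc ρ₂ ρ₁, ∑' k, |φ ρ (k + 1)| ≤ 1 / 3
  q1 : ∀ ρ ∈ Icc ρ₂ ρ₁, ∑' k, |φ ρ (k + 2)| < |φ ρ 1|
  hc : ContinuousOn (fun ρ => u ρ 1 1) (Icc ρ₂ ρ₁)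

end SCHG
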