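import Pool.Agent.MP_83fd13_an.SCH.Geo8
import Pool.Agent.MP_83fd13_an.SCH.Geo14

/-!
# [SCH] from the fixed point to the frozen statement
-/

set_option autoImplicit false

open Metric Set MeasureTheory Filter Topology
open scoped RealInnerProductSpace NNReal ComplexConjugate

namespace SCHG

section FP

variable {N : ℕ} {ρ : ℝ} {φ : ℕ → ℝ} {u u' u'' : ℕ → ℝ → ℝ} {B : ℕ → ℝ}
  (H : FP N ρ φ u u' u'' B)
include H

/-- **From the fixed point to the frozen statement.** -/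
theorem FP.neg (hN : Even N) (hq : ∑' k, |φ (k + 1)| ≤ 1 / 3)
    (hφ1 : ∑' k, |φ (k + 2)| < |φ 1|) (hz : ∀ k, u (k + 1) 1 = 0) (h0 : u 0 0 ≠ 0) : Neg := by
  have hs : Summable fun k => |φ (k + 1)| := (summable_nat_add_iff 1).2 H.φs
  refine neg_of_classical N H.N0 hN ρ H.ρ0 φ hs hq hφ1 (u 0 1) (UU N (aa u))
    (GG N (aa u) (aa u')) _ H.continuousOn_U ?_ (fun w hw => H.hasFDerivAt_U hw)
    ⟨0, mem_ball_self one_pos, by rw [H.U_zero]; exact h0⟩ H.modes.lip_GG
    (fun w hw => H.modes.GG_zero (fun k => by rw [aa, hz, mul_zero]) hw)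
    (fun w hw hw0 => H.hasFDerivAt_GG hw hw0)
  intro w hw
  rw [U_circle hw, tsum_eq_single 0]
  · simp
  · intro k hk
    obtain ⟨j, rfl⟩ : ∃ j, k = j + 1 := ⟨k - 1, by omega⟩
    rw [hz]
    ring

end FP

end SCHG
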