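import Pool.Agent.MP_83fd13_an.SCH.FamDef
import Pool.Agent.MP_83fd13_an.SCH.GeoNeg
import Pool.Agent.MP_83fd13_an.SCH.CertKey
import Pool.Agent.MP_83fd13_an.SCH.CertStmt

/-!
# [SCH] the final assembly: a family of solutions of the Neumann problem + signs of `h` at the two
endpoints give the frozen statement

`Family ρ₂ ρ₁ φ u u' u'' B` is exactly what the fixed point part has to deliver.
-/

set_option autoImplicit false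

open Metric Set MeasureTheory Filter Topology

namespace SCHG

/-- **Final assembly.** -/
theorem Family.neg {ρ₂ ρ₁ : ℝ} {φ : ℝ → ℕ → ℝ} {u u' u'' : ℝ → ℕ → ℝ → ℝ} {B : ℝ → ℕ → ℝ}
    (F : Family ρ₂ ρ₁ φ u u' u'' B) (hρ : ρ₂ ≤ ρ₁) (h₂ : 0 < u ρ₂ 1 1) (h₁ : u ρ₁ 1 1 < 0) :
    Neg := by
  obtain ⟨ρ, hρm, h0⟩ := intermediate_value_Icc' hρ F.hc (show (0 : ℝ) ∈ _ from ⟨h₁.le, h₂.le⟩)
  refine (F.fp ρ hρm).neg (by decide) (F.q ρ hρm) (F.q1 ρ hρm) ?_ ?_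
  · intro k
    rcases Nat.eq_zero_or_pos k with rfl | hk
    · exact h0
    · obtain ⟨j, rfl⟩ : ∃ j, k = j + 1 := ⟨k - 1, by omega⟩
      exact F.z2 ρ hρm j
  · rw [F.u0 ρ hρm]
    exact one_ne_zero

end SCHG

namespace SCHC

open SCHG

theorem cert_apply {ρ e0 e1 p2 τ : ℝ} {P : ℝ → Prop} (C : Cert ρ e0 e1 p2 τ P) {φ : ℕ → ℝ}
    {u u' u'' : ℕ → ℝ → ℝ} {B : ℕ → ℝ} (H : FP 42 ρ φ u u' u'' B) (hz : ∀ k, u (k + 2) 1 = 0)
    (E : EndBox φ (u 0 1) e0 e1 p2 τ) : P (u 1 1) :=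
  C φ (u 0 1) (u 1 1) ((summable_nat_add_iff 1).2 H.φs) E fun κ => key H hz κ

/-- **Final assembly with the certificate**: `C₂`, `C₁` are the two endpoint theorems, `E₂`, `E₁`
the crude boxes of the fixed point at the endpoints. -/
theorem neg_of_cert {ρ₂ ρ₁ : ℝ} (hρ : ρ₂ ≤ ρ₁) {a0 a1 a2 a3 b0 b1 b2 b3 : ℝ}
    (C₂ : Cert ρ₂ a0 a1 a2 a3 fun h => 0 < h) (C₁ : Cert ρ₁ b0 b1 b2 b3 fun h => h < 0)
    {φ : ℝ → ℕ → ℝ} {u u' u'' : ℝ → ℕ → ℝ → ℝ} {B : ℝ → ℕ → ℝ} (F : Family ρ₂ ρ₁ φ u u' u'' B)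
    (E₂ : EndBox (φ ρ₂) (u ρ₂ 0 1) a0 a1 a2 a3) (E₁ : EndBox (φ ρ₁) (u ρ₁ 0 1) b0 b1 b2 b3) :
    Neg :=
  F.neg hρ (cert_apply C₂ (F.fp _ (left_mem_Icc.2 hρ)) (F.z2 _ (left_mem_Icc.2 hρ)) E₂)
    (cert_apply C₁ (F.fp _ (right_mem_Icc.2 hρ)) (F.z2 _ (right_mem_Icc.2 hρ)) E₁)

/-- **Final assembly, concrete constants**: the frozen negation from the two certificates, the
family of fixed points and the boxes at the two endpoints. -/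
theorem neg_final (C₂ : CertHi) (C₁ : CertLo) {φ : ℝ → ℕ → ℝ} {u u' u'' : ℝ → ℕ → ℝ → ℝ}
    {B : ℝ → ℕ → ℝ} (F : Family (54178 / 1000) (541833 / 10000) φ u u' u'' B)
    (E₂ : EndBox (φ (54178 / 1000)) (u (54178 / 1000) 0 1)
      (98 / 1000) (120 / 1000) (62 / 10000) (25 / 10000))
    (E₁ : EndBox (φ (541833 / 10000)) (u (541833 / 10000) 0 1)
      (55 / 1000) (65 / 1000) (18 / 10000) (12 / 10000)) : Neg :=
  neg_of_cert (by norm_num) C₂ C₁ F E₂ E₁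

end SCHC
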