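import Mathlib

set_option autoImplicit false

/-!
# Contraction principle with weights, without metric spaces (project SCH)

Points are families `x : ι → ℝ` with an arbitrary (infinite) index set, `w : ι → ℝ` is a family of
weights, the distance relation is `∀ i, |x i - y i| ≤ M * w i`.
-/

namespace Pool.Agent.SCH

open Filter Topology

/-- `x` and `y` differ by at most `M` in the weighted sup norm -/
def Dw {ι : Type*} (w : ι → ℝ) (M : ℝ) (x y : ι → ℝ) : Prop := ∀ i, |x i - y i| ≤ M * w i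

theorem Dw.symm {ι : Type*} {w : ι → ℝ} {M : ℝ} {x y : ι → ℝ} (h : Dw w M x y) : Dw w M y x :=
  fun i => by rw [abs_sub_comm]; exact h i

theorem Dw.mono {ι : Type*} {w : ι → ℝ} (hw : ∀ i, 0 ≤ w i) {M M' : ℝ} (hM : M ≤ M')
    {x y : ι → ℝ} (h : Dw w M x y) : Dw w M' x y :=
  fun i => (h i).trans (mul_le_mul_of_nonneg_right hM (hw i))

theorem Dw.trans {ι : Type*} {w : ι → ℝ} {M M' : ℝ} {x y z : ι → ℝ} (h : Dw w M x y)
    (h' : Dw w M' y z) : Dw w (M + M') x z :=
  fun i => (abs_sub_le _ (y i) _).trans (by rw [add_mul]; exact add_le_add (h i) (h' i))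

/-- The contraction principle. `S` is the set of admissible points; it has to be closed under
weighted uniform limits. -/
theorem dw_fixed {ι : Type*} {w : ι → ℝ} (hw : ∀ i, 0 ≤ w i) {S : (ι → ℝ) → Prop}
    {T : (ι → ℝ) → ι → ℝ} {κ C : ℝ} (hκ0 : 0 ≤ κ) (hκ : κ < 1) (hC : 0 ≤ C)
    {x0 : ι → ℝ} (hx0 : S x0) (hT : ∀ x, S x → S (T x)) (hres : Dw w C x0 (T x0))
    (hlip : ∀ x y M, 0 ≤ M → S x → S y → Dw w M x y → Dw w (κ * M) (T x) (T y))
    (hcl : ∀ (u : ℕ → ι → ℝ) (x : ι → ℝ), (∀ n, S (u n)) →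
      (∀ n, Dw w (C * κ ^ n / (1 - κ)) (u n) x) → S x) :
    ∃ x, S x ∧ T x = x ∧ Dw w (C / (1 - κ)) x0 x := by
  have h1κ : 0 < 1 - κ := by linarith
  let u : ℕ → ι → ℝ := fun n => T^[n] x0
  have hsucc : ∀ n, u (n + 1) = T (u n) := fun n => Function.iterate_succ_apply' T n x0
  have hu : ∀ n, S (u n) := by
    intro n
    induction n with
    | zero => exact hx0
    | succ n ih => rw [hsucc]; exact hT _ ih
  have hgeo : ∀ n, Dw w (C * κ ^ n) (u n) (u (n + 1)) := by
    intro n
    induction n with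
    | zero =>
      rw [pow_zero, mul_one]
      exact hres
    | succ n ih =>
      have := hlip _ _ _ (mul_nonneg hC (pow_nonneg hκ0 n)) (hu n) (hu (n + 1)) ih
      rw [← hsucc, ← hsucc] at this
      have e : κ * (C * κ ^ n) = C * κ ^ (n + 1) := by rw [pow_succ]; ring
      rwa [e] at this
  -- distance over several steps
  have hlong : ∀ n m, Dw w (C * κ ^ n / (1 - κ)) (u n) (u (n + m)) := by
    intro n m
    have h1 : Dw w (C * κ ^ n * (1 - κ ^ m) / (1 - κ)) (u n) (u (n + m)) := by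
      induction m with
      | zero =>
        intro i
        simp
      | succ m ih =>
        have h2 := ih.trans (hgeo (n + m))
        have e : C * κ ^ n * (1 - κ ^ m) / (1 - κ) + C * κ ^ (n + m)
            = C * κ ^ n * (1 - κ ^ (m + 1)) / (1 - κ) := by
          rw [pow_add, pow_succ]
          field_simp
          ring
        rw [e] at h2
        exact h2
    refine h1.mono hw ?_
    refine div_le_div_of_nonneg_right ?_ h1κ.le
    have h3 : 0 ≤ C * κ ^ n := mul_nonneg hC (pow_nonneg hκ0 n)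
    have h4 : 0 ≤ κ ^ m := pow_nonneg hκ0 m
    nlinarith
  -- coordinates converge
  have hc : ∀ i, CauchySeq (fun n => u n i) := by
    intro i
    refine cauchySeq_of_le_geometric κ (C * w i) hκ (fun n => ?_)
    rw [Real.dist_eq]
    refine (hgeo n i).trans (le_of_eq ?_)
    ring
  choose x hx using fun i => cauchySeq_tendsto_of_complete (hc i)
  have hdist : ∀ n, Dw w (C * κ ^ n / (1 - κ)) (u n) x := by
    intro n i
    have h1 : Tendsto (fun m => |u n i - u (n + m) i|) atTop (𝓝 |u n i - x i|) := by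
      have h2 : Tendsto (fun m => u (n + m) i) atTop (𝓝 (x i)) := by
        have := (hx i).comp (tendsto_add_atTop_nat n)
        refine this.congr fun m => ?_
        show u (m + n) i = u (n + m) i
        rw [add_comm]
      exact (tendsto_const_nhds.sub h2).abs
    exact le_of_tendsto' h1 fun m => hlong n m i
  have hSx : S x := hcl u x hu hdist
  refine ⟨x, hSx, ?_, ?_⟩
  · funext i
    have h0 : Tendsto (fun n : ℕ => C * κ ^ n / (1 - κ)) atTop (𝓝 0) := by
      have h := (tendsto_pow_atTop_nhds_zero_of_lt_one hκ0 hκ).const_mul (C / (1 - κ))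
      rw [mul_zero] at h
      refine h.congr fun n => ?_
      ring
    have h1 : ∀ n, |T x i - x i| ≤ κ * (C * κ ^ n / (1 - κ)) * w i
        + C * κ ^ (n + 1) / (1 - κ) * w i := by
      intro n
      have h2 := hlip _ _ _ (div_nonneg (mul_nonneg hC (pow_nonneg hκ0 n)) h1κ.le) (hu n) hSx
        (hdist n) i
      rw [← hsucc] at h2
      have h3 := hdist (n + 1) i
      calc |T x i - x i| ≤ |T x i - u (n + 1) i| + |u (n + 1) i - x i| := abs_sub_le _ _ _
        _ ≤ _ := by
          rw [abs_sub_comm (T x i)]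
          exact add_le_add h2 h3
    have h4 : Tendsto (fun n : ℕ => κ * (C * κ ^ n / (1 - κ)) * w i
        + C * κ ^ (n + 1) / (1 - κ) * w i) atTop (𝓝 (κ * 0 * w i + 0 * w i)) :=
      ((h0.const_mul κ).mul_const (w i)).add
        (((tendsto_add_atTop_iff_nat 1).2 h0).mul_const (w i))
    have h5 : |T x i - x i| ≤ κ * 0 * w i + 0 * w i := ge_of_tendsto' h4 h1
    have h6 : |T x i - x i| ≤ 0 := by simpa using h5
    exact sub_eq_zero.1 (abs_nonpos_iff.1 h6)
  · have := hdist 0
    rwa [show u 0 = x0 from rfl, pow_zero, mul_one] at this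

/-- uniqueness -/
theorem dw_unique {ι : Type*} {w : ι → ℝ} {S : (ι → ℝ) → Prop}
    {T : (ι → ℝ) → ι → ℝ} {κ : ℝ} (hκ0 : 0 ≤ κ) (hκ : κ < 1)
    (hlip : ∀ x y M, 0 ≤ M → S x → S y → Dw w M x y → Dw w (κ * M) (T x) (T y))
    {x y : ι → ℝ} (hx : S x) (hy : S y) (hTx : T x = x) (hTy : T y = y) {M : ℝ} (hM : 0 ≤ M)
    (h : Dw w M x y) : x = y := by
  have h1 : ∀ n : ℕ, Dw w (M * κ ^ n) x y := by
    intro n
    induction n with
    | zero => simpa using h
    | succ n ih =>
      have := hlip _ _ _ (mul_nonneg hM (pow_nonneg hκ0 n)) hx hy ih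
      rw [hTx, hTy] at this
      have e : κ * (M * κ ^ n) = M * κ ^ (n + 1) := by rw [pow_succ]; ring
      rwa [e] at this
  funext i
  have h2 : Tendsto (fun n : ℕ => M * κ ^ n * w i) atTop (𝓝 (M * 0 * w i)) :=
    ((tendsto_pow_atTop_nhds_zero_of_lt_one hκ0 hκ).const_mul M).mul_const (w i)
  have h3 : |x i - y i| ≤ M * 0 * w i := ge_of_tendsto' h2 (fun n => h1 n i)
  have h4 : |x i - y i| ≤ 0 := by simpa using h3
  exact sub_eq_zero.1 (abs_nonpos_iff.1 h4)

/-! ### closure properties -/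

/-- weighted uniform limits of functions continuous on a set, with bounded weight, are continuous -/
theorem continuousOn_of_dw {X : Type*} [TopologicalSpace X] {s : Set X} {u : ℕ → X → ℝ}
    {f : X → ℝ} {wt : X → ℝ} {B : ℝ} (hB : ∀ p ∈ s, wt p ≤ B) {κ C : ℝ}
    (hκ0 : 0 ≤ κ) (hκ : κ < 1) (hC : 0 ≤ C) (hu : ∀ n, ContinuousOn (u n) s)
    (h : ∀ n, ∀ p ∈ s, |u n p - f p| ≤ C * κ ^ n * wt p) : ContinuousOn f s := by
  have hunif : TendstoUniformlyOn u f atTop s := by
    rw [Metric.tendstoUniformlyOn_iff]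
    intro ε hε
    have h0 : Tendsto (fun n : ℕ => C * κ ^ n * |B|) atTop (𝓝 (C * 0 * |B|)) :=
      ((tendsto_pow_atTop_nhds_zero_of_lt_one hκ0 hκ).const_mul C).mul_const _
    rw [mul_zero, zero_mul] at h0
    filter_upwards [h0.eventually (gt_mem_nhds hε)] with n hn p hp
    rw [dist_comm, Real.dist_eq]
    refine ((h n p hp).trans ?_).trans_lt hn
    exact mul_le_mul_of_nonneg_left ((hB p hp).trans (le_abs_self B))
      (mul_nonneg hC (pow_nonneg hκ0 n))
  exact hunif.continuousOn (Frequently.of_forall hu)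

/-- limits inherit bounds -/
theorem le_of_dw {a b : ℝ} {u : ℕ → ℝ} {κ C c : ℝ} (hκ0 : 0 ≤ κ) (hκ : κ < 1)
    (h : ∀ n, |u n - a| ≤ C * κ ^ n * c) (hb : ∀ n, |u n| ≤ b) : |a| ≤ b := by
  have h0 : Tendsto (fun n : ℕ => C * κ ^ n * c) atTop (𝓝 (C * 0 * c)) :=
    ((tendsto_pow_atTop_nhds_zero_of_lt_one hκ0 hκ).const_mul C).mul_const _
  rw [mul_zero, zero_mul] at h0
  have h1 : Tendsto u atTop (𝓝 a) := by
    rw [tendsto_iff_norm_sub_tendsto_zero]
    exact squeeze_zero (fun n => norm_nonneg _) (fun n => by rw [Real.norm_eq_abs]; exact h n) h0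
  exact le_of_tendsto' h1.abs hb

end Pool.Agent.SCH
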