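import Pool.Agent.MP_83fd13_an.SCH.KerE

set_option autoImplicit false

/-!
# Majorant calculus (project SCH)

`Mj M F F' f g` : `|f|, |g| ≤ F` and `|f - g| ≤ M F'`. The first bound gives the invariance of the
box, the second one the contraction.
-/

noncomputable section

namespace Pool.Agent.SCH

open Set Filter Topology MeasureTheory

structure Mj (M F F' f g : ℝ) : Prop where
  l : |f| ≤ F
  r : |g| ≤ F
  d : |f - g| ≤ M * F'

namespace Mj

variable {M F F' f g G G' h k : ℝ}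

theorem nonneg (H : Mj M F F' f g) : 0 ≤ F := (abs_nonneg _).trans H.l

theorem dnonneg (H : Mj M F F' f g) : 0 ≤ M * F' := (abs_nonneg _).trans H.d

theorem symm (H : Mj M F F' f g) : Mj M F F' g f :=
  ⟨H.r, H.l, by rw [abs_sub_comm]; exact H.d⟩

theorem const (M c : ℝ) : Mj M |c| 0 c c := ⟨le_rfl, le_rfl, by simp⟩

theorem const_le {c C : ℝ} (M : ℝ) (hc : |c| ≤ C) : Mj M C 0 c c := ⟨hc, hc, by simp⟩

theorem mono (hM : 0 ≤ M) (H : Mj M F F' f g) (h1 : F ≤ G) (h2 : F' ≤ G') : Mj M G G' f g :=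
  ⟨H.l.trans h1, H.r.trans h1, H.d.trans (mul_le_mul_of_nonneg_left h2 hM)⟩

theorem congr (H : Mj M F F' f g) {f1 g1 F1 F1' : ℝ} (hf : f = f1) (hg : g = g1) (hF : F = F1)
    (hF' : F' = F1') : Mj M F1 F1' f1 g1 := by
  subst hf hg hF hF'; exact H

theorem neg (H : Mj M F F' f g) : Mj M F F' (-f) (-g) :=
  ⟨by rw [abs_neg]; exact H.l, by rw [abs_neg]; exact H.r, by
    have : -f - -g = -(f - g) := by ring
    rw [this, abs_neg]; exact H.d⟩

theorem add (H : Mj M F F' f g) (H2 : Mj M G G' h k) :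
    Mj M (F + G) (F' + G') (f + h) (g + k) :=
  ⟨(abs_add_le _ _).trans (add_le_add H.l H2.l), (abs_add_le _ _).trans (add_le_add H.r H2.r), by
    have e : f + h - (g + k) = (f - g) + (h - k) := by ring
    rw [e, mul_add]
    exact (abs_add_le _ _).trans (add_le_add H.d H2.d)⟩

theorem sub (H : Mj M F F' f g) (H2 : Mj M G G' h k) :
    Mj M (F + G) (F' + G') (f - h) (g - k) := by
  rw [sub_eq_add_neg, sub_eq_add_neg]; exact H.add H2.neg

theorem mul (H : Mj M F F' f g) (H2 : Mj M G G' h k) :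
    Mj M (F * G) (F' * G + F * G') (f * h) (g * k) :=
  ⟨by rw [abs_mul]; exact mul_le_mul H.l H2.l (abs_nonneg _) H.nonneg,
   by rw [abs_mul]; exact mul_le_mul H.r H2.r (abs_nonneg _) H.nonneg, by
    have e : f * h - g * k = (f - g) * h + g * (h - k) := by ring
    rw [e]
    refine (abs_add_le _ _).trans ?_
    rw [abs_mul, abs_mul]
    have h1 : |f - g| * |h| ≤ M * F' * G := mul_le_mul H.d H2.l (abs_nonneg _) H.dnonneg
    have h2 : |g| * |h - k| ≤ F * (M * G') := mul_le_mul H.r H2.d (abs_nonneg _) H.nonneg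
    linarith⟩

theorem const_mul (c : ℝ) (H : Mj M F F' f g) : Mj M (|c| * F) (|c| * F') (c * f) (c * g) :=
  ((const M c).mul H).congr rfl rfl rfl (by ring)

theorem const_mul_le {c C : ℝ} (hc : |c| ≤ C) (H : Mj M F F' f g) :
    Mj M (C * F) (C * F') (c * f) (c * g) :=
  ((const_le M hc).mul H).congr rfl rfl rfl (by ring)

theorem mul_const_le {c C : ℝ} (hc : |c| ≤ C) (H : Mj M F F' f g) :
    Mj M (F * C) (F' * C) (f * c) (g * c) :=
  (H.mul (const_le M hc)).congr rfl rfl rfl (by ring)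

theorem sq (H : Mj M F F' f g) : Mj M (F ^ 2) (2 * F * F') (f ^ 2) (g ^ 2) :=
  (H.mul H).congr (by ring) (by ring) (by ring) (by ring)

theorem zero (M : ℝ) : Mj M 0 0 0 0 := ⟨by simp, by simp, by simp⟩

theorem sum {ι : Type*} (s : Finset ι) {F F' f g : ι → ℝ}
    (H : ∀ i ∈ s, Mj M (F i) (F' i) (f i) (g i)) :
    Mj M (∑ i ∈ s, F i) (∑ i ∈ s, F' i) (∑ i ∈ s, f i) (∑ i ∈ s, g i) :=
  ⟨(Finset.abs_sum_le_sum_abs _ _).trans (Finset.sum_le_sum fun i hi => (H i hi).l),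
   (Finset.abs_sum_le_sum_abs _ _).trans (Finset.sum_le_sum fun i hi => (H i hi).r), by
    rw [← Finset.sum_sub_distrib, Finset.mul_sum]
    exact (Finset.abs_sum_le_sum_abs _ _).trans (Finset.sum_le_sum fun i hi => (H i hi).d)⟩

theorem summable_l {ι : Type*} {F F' f g : ι → ℝ} (H : ∀ i, Mj M (F i) (F' i) (f i) (g i))
    (hF : Summable F) : Summable f :=
  Summable.of_norm_bounded hF fun i => by rw [Real.norm_eq_abs]; exact (H i).l

theorem summable_r {ι : Type*} {F F' f g : ι → ℝ} (H : ∀ i, Mj M (F i) (F' i) (f i) (g i))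
    (hF : Summable F) : Summable g :=
  Summable.of_norm_bounded hF fun i => by rw [Real.norm_eq_abs]; exact (H i).r

theorem abs_tsum_le {ι : Type*} {F f : ι → ℝ} (hF : Summable F) (H : ∀ i, |f i| ≤ F i) :
    |∑' i, f i| ≤ ∑' i, F i := by
  have := tsum_of_norm_bounded hF.hasSum fun i => by rw [Real.norm_eq_abs]; exact H i
  rwa [Real.norm_eq_abs] at this

theorem tsum {ι : Type*} {F F' f g : ι → ℝ} (hF : Summable F) (hF' : Summable F')
    (H : ∀ i, Mj M (F i) (F' i) (f i) (g i)) :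
    Mj M (∑' i, F i) (∑' i, F' i) (∑' i, f i) (∑' i, g i) :=
  ⟨abs_tsum_le hF fun i => (H i).l, abs_tsum_le hF fun i => (H i).r, by
    rw [← (summable_l H hF).tsum_sub (summable_r H hF), ← hF'.tsum_mul_left]
    exact abs_tsum_le (hF'.mul_left M) fun i => (H i).d⟩

/-- infinite sums with explicit value of the majorants -/
theorem tsum' {ι : Type*} {F F' f g : ι → ℝ} {A A' : ℝ} (hF : HasSum F A) (hF' : HasSum F' A')
    (H : ∀ i, Mj M (F i) (F' i) (f i) (g i)) : Mj M A A' (∑' i, f i) (∑' i, g i) := by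
  have := tsum hF.summable hF'.summable H
  rwa [hF.tsum_eq, hF'.tsum_eq] at this

/-- geometric majorants: `|f i| ≤ F q^i` -/
theorem tsum_geom {F F' q : ℝ} {f g : ℕ → ℝ} (hq0 : 0 ≤ q) (hq : q < 1)
    (H : ∀ i, Mj M (F * q ^ i) (F' * q ^ i) (f i) (g i)) :
    Mj M (F / (1 - q)) (F' / (1 - q)) (∑' i, f i) (∑' i, g i) := by
  have h := hasSum_geometric_of_lt_one hq0 hq
  have h1 := h.mul_left F
  have h2 := h.mul_left F'
  rw [← div_eq_mul_inv] at h1 h2
  exact tsum' h1 h2 H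

end Mj

/-! ### the kernel operator and the functional -/

theorem Gr_sub' {a n : ℕ} {C D : ℝ} {f g : ℝ → ℝ} (h : Wt a C f) (h2 : Wt a D g) {r : ℝ}
    (hr : 0 < r) : Gr n f r - Gr n g r = Gr n (fun s => f s - g s) r := by
  have h3 : Wt a D (fun s => (-1) * g s) := ⟨continuousOn_const.mul h2.cont, fun s hs hs1 => by
    rw [abs_mul, abs_neg, abs_one, one_mul]; exact h2.bound s hs hs1⟩
  have h4 := Gr_add (n := n) h h3 hr
  rw [Gr_smul] at h4
  have e : (fun s => f s - g s) = fun s => f s + (-1) * g s := by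
    funext s; ring
  rw [e, h4]; ring

theorem int_sub' {a n : ℕ} {C D : ℝ} {f g : ℝ → ℝ} (h : Wt a C f) (h2 : Wt a D g) :
    (∫ s in (0:ℝ)..1, s ^ (n + 1) * f s) - (∫ s in (0:ℝ)..1, s ^ (n + 1) * g s)
      = ∫ s in (0:ℝ)..1, s ^ (n + 1) * (f s - g s) := by
  rw [← intervalIntegral.integral_sub (h.ii_hi n le_rfl zero_le_one)
    (h2.ii_hi n le_rfl zero_le_one)]
  congr 1
  funext s
  ring

section op

variable {n p N : ℕ} {M F F' : ℝ} {f g : ℝ → ℝ}

theorem wt_left (hf : ContinuousOn f (Ioi 0))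
    (H : ∀ s : ℝ, 0 < s → s ≤ 1 → Mj M (F * s ^ p) (F' * s ^ p) (f s) (g s)) : Wt p F f :=
  ⟨hf, fun s hs hs1 => (H s hs hs1).l⟩

theorem wt_right (hg : ContinuousOn g (Ioi 0))
    (H : ∀ s : ℝ, 0 < s → s ≤ 1 → Mj M (F * s ^ p) (F' * s ^ p) (f s) (g s)) : Wt p F g :=
  ⟨hg, fun s hs hs1 => (H s hs hs1).r⟩

theorem wt_diff (hf : ContinuousOn f (Ioi 0)) (hg : ContinuousOn g (Ioi 0))
    (H : ∀ s : ℝ, 0 < s → s ≤ 1 → Mj M (F * s ^ p) (F' * s ^ p) (f s) (g s)) :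
    Wt p (M * F') (fun s => f s - g s) :=
  ⟨hf.sub hg, fun s hs hs1 => (H s hs hs1).d.trans (le_of_eq (by ring))⟩

/-- the kernel rule -/
theorem Mj.gr (hN : 0 < N) (hNn : N ≤ n) (hp : n ≤ p + N) (hf : ContinuousOn f (Ioi 0))
    (hg : ContinuousOn g (Ioi 0))
    (H : ∀ s : ℝ, 0 < s → s ≤ 1 → Mj M (F * s ^ p) (F' * s ^ p) (f s) (g s))
    {r : ℝ} (hr : 0 < r) (hr1 : r ≤ 1) :
    Mj M (F * (r ^ (n - N) * (1 - r ^ N) / (N * ((n : ℝ) + p + 2))))
      (F' * (r ^ (n - N) * (1 - r ^ N) / (N * ((n : ℝ) + p + 2)))) (Gr n f r) (Gr n g r) :=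
  ⟨Gr_univ hN hNn hp (wt_left hf H) hr hr1, Gr_univ hN hNn hp (wt_right hg H) hr hr1, by
    rw [Gr_sub' (wt_left hf H) (wt_right hg H) hr]
    exact (Gr_univ hN hNn hp (wt_diff hf hg H) hr hr1).trans (le_of_eq (by ring))⟩

/-- the functional rule -/
theorem Mj.int (hf : ContinuousOn f (Ioi 0)) (hg : ContinuousOn g (Ioi 0))
    (H : ∀ s : ℝ, 0 < s → s ≤ 1 → Mj M (F * s ^ p) (F' * s ^ p) (f s) (g s)) :
    Mj M (F / ((n : ℝ) + p + 2)) (F' / ((n : ℝ) + p + 2))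
      (∫ s in (0:ℝ)..1, s ^ (n + 1) * f s) (∫ s in (0:ℝ)..1, s ^ (n + 1) * g s) :=
  ⟨int_abs_le_pow (wt_left hf H), int_abs_le_pow (wt_right hg H), by
    rw [int_sub' (wt_left hf H) (wt_right hg H)]
    exact (int_abs_le_pow (wt_diff hf hg H)).trans (le_of_eq (by ring))⟩

/-- the functional rule for sources with the factor `1 - s^N` -/
theorem Mj.int_sub (hM : 0 ≤ M) (hF : 0 ≤ F) (hF' : 0 ≤ F') (hf : ContinuousOn f (Ioi 0))
    (hg : ContinuousOn g (Ioi 0))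
    (H : ∀ s : ℝ, 0 < s → s ≤ 1 →
      Mj M (F * (s ^ p * (1 - s ^ N))) (F' * (s ^ p * (1 - s ^ N))) (f s) (g s)) :
    Mj M (F * (N / (((n : ℝ) + p + 2) * (n + p + N + 2))))
      (F' * (N / (((n : ℝ) + p + 2) * (n + p + N + 2))))
      (∫ s in (0:ℝ)..1, s ^ (n + 1) * f s) (∫ s in (0:ℝ)..1, s ^ (n + 1) * g s) := by
  have hw : ∀ s : ℝ, 0 < s → s ≤ 1 → s ^ p * (1 - s ^ N) ≤ s ^ p := by
    intro s hs hs1
    have h1 : 0 ≤ s ^ p := pow_nonneg hs.le p
    have h2 : 0 ≤ s ^ N := pow_nonneg hs.le N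
    nlinarith
  have H' : ∀ s : ℝ, 0 < s → s ≤ 1 → Mj M (F * s ^ p) (F' * s ^ p) (f s) (g s) :=
    fun s hs hs1 => (H s hs hs1).mono hM (mul_le_mul_of_nonneg_left (hw s hs hs1) hF)
      (mul_le_mul_of_nonneg_left (hw s hs hs1) hF')
  refine ⟨int_abs_le_sub hf (fun s hs hs1 => (H s hs hs1).l) hF,
    int_abs_le_sub hg (fun s hs hs1 => (H s hs hs1).r) hF, ?_⟩
  rw [int_sub' (wt_left hf H') (wt_right hg H')]
  refine (int_abs_le_sub (N := N) (C := M * F') (hf.sub hg)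
    (fun s hs hs1 => (H s hs hs1).d.trans (le_of_eq (by ring))) (mul_nonneg hM hF')).trans
    (le_of_eq (by ring))

end op

end Pool.Agent.SCH
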