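import Pool.Agent.MP_83fd13_an.SCH.THat
import Pool.Agent.MP_83fd13_an.SCH.WieC
import Pool.Agent.MP_83fd13_an.SCH.WieD

/-!
# [SCH] from the bounds at fixed `ρ` (hat variables) to the fixed point of the T-map (helper42)
-/

set_option autoImplicit false

namespace SCHT

open MeasureTheory Set Filter Topology
open Pool.Agent.SCH SCHB SCHF SCHS

noncomputable section

/-- the sequence `f` from the scalars (`s 0 = a`, `s 1 = η/t`, `s k = φ_k/t^k`) -/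
def ff (s : ℕ → ℝ) (k : ℕ) : ℝ :=
  match k with
  | 0 => 1
  | 1 => 1 + s 1
  | k + 2 => s (k + 2)

/-- the box at a fixed `ρ` (centre `cA`) -/
structure Box (cA bA : ℕ → ℝ) (bV : ℕ → ℝ → ℝ) (s : ℕ → ℝ) (U : ℕ → ℝ → ℝ) : Prop where
  A : ∀ k, |s k - cA k| ≤ bA k
  V : ∀ k, ∀ r ∈ Icc (0:ℝ) 1, |U k r| ≤ bV k r

/-- the distance at a fixed `ρ` -/
structure Dst (wA : ℕ → ℝ) (wV : ℕ → ℝ → ℝ) (M : ℝ) (s s' : ℕ → ℝ) (U U' : ℕ → ℝ → ℝ) : Prop where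
  A : ∀ k, |s k - s' k| ≤ M * wA k
  V : ∀ k, ∀ r ∈ Icc (0:ℝ) 1, |U k r - U' k r| ≤ M * wV k r

/-- **what the bounds at fixed `ρ` have to deliver** -/
def HatLip (cA bA : ℕ → ℝ) (bV : ℕ → ℝ → ℝ) (wA : ℕ → ℝ) (wV : ℕ → ℝ → ℝ) (κ : ℝ) : Prop :=
  ∀ ρ ∈ Icc rho2 rho1, ∀ (M : ℝ) (s s' : ℕ → ℝ) (U U' : ℕ → ℝ → ℝ), 0 ≤ M →
    Box cA bA bV s U → Box cA bA bV s' U' → Dst wA wV M s s' U U' →
    (∀ k, Continuous fun r => U k (cl r)) → (∀ k, Continuous fun r => U' k (cl r)) →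
    (∀ k, Mj M (bA k) (κ * wA k) (hTA ρ (eps0 ρ ^ 2) (s 0) (ff s) U k - cA k)
      (hTA ρ (eps0 ρ ^ 2) (s' 0) (ff s') U' k - cA k)) ∧
    ∀ k, ∀ r ∈ Icc (0:ℝ) 1, Mj M (bV k r) (κ * wV k r) (hTV ρ (eps0 ρ ^ 2) (s 0) (ff s) U k r)
      (hTV ρ (eps0 ρ ^ 2) (s' 0) (ff s') U' k r)

/-- the scalars in hat variables -/
def St.hs (x : St) (ρ : ℝ) (k : ℕ) : ℝ := x.A k ρ / eps0 ρ ^ pA k

theorem St.ha_eq (x : St) (ρ : ℝ) : x.ha ρ = x.hs ρ 0 := by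
  unfold St.ha St.hs pA
  rw [pow_one]

theorem St.hf_eq (x : St) {ρ : ℝ} (h : eps0 ρ ≠ 0) : x.hf ρ = ff (x.hs ρ) := by
  funext k
  match k with
  | 0 => rw [St.hf_zero]; rfl
  | 1 =>
    rw [St.hf_one h]
    unfold ff St.hs pA
    rw [pow_one]
  | k + 2 => rfl

/-- the box of states -/
structure Boxed (cA bA : ℕ → ℝ) (bV : ℕ → ℝ → ℝ) (x : St) : Prop where
  A : ∀ ρ ∈ Icc rho2 rho1, ∀ k, |x.A k ρ - eps0 ρ ^ pA k * cA k| ≤ eps0 ρ ^ pA k * bA k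
  V : ∀ ρ ∈ Icc rho2 rho1, ∀ k, ∀ r ∈ Icc (0:ℝ) 1, |x.V k ρ r| ≤ eps0 ρ ^ pV k * bV k r

/-- the index set of the coordinates -/
abbrev IxT : Type := (ℕ × ℝ) ⊕ (ℕ × ℝ × ℝ)

def enc (x : St) : IxT → ℝ
  | Sum.inl p => x.A p.1 p.2
  | Sum.inr p => x.V p.1 p.2.1 p.2.2

def dec (z : IxT → ℝ) : St := ⟨fun k ρ => z (Sum.inl (k, ρ)), fun k ρ r => z (Sum.inr (k, ρ, r))⟩

theorem dec_enc (x : St) : dec (enc x) = x := rfl

theorem enc_dec (z : IxT → ℝ) : enc (dec z) = z := by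
  funext i
  rcases i with p | p <;> rfl

/-- the weights -/
def ww (wA : ℕ → ℝ) (wV : ℕ → ℝ → ℝ) : IxT → ℝ
  | Sum.inl p => eps0 (cρ p.2) ^ pA p.1 * wA p.1
  | Sum.inr p => eps0 (cρ p.2.1) ^ pV p.1 * wV p.1 (cl p.2.2)

/-- distance of states -/
def DSt (wA : ℕ → ℝ) (wV : ℕ → ℝ → ℝ) (M : ℝ) (x y : St) : Prop :=
  Dw (ww wA wV) M (enc x) (enc y)

section

variable {cA bA wA : ℕ → ℝ} {bV wV : ℕ → ℝ → ℝ} {κ M : ℝ} {x y : St} {ρ : ℝ}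

theorem Boxed.box (H : Boxed cA bA bV x) (hρ : ρ ∈ Icc rho2 rho1) (h0 : 0 < eps0 ρ) :
    Box cA bA bV (x.hs ρ) (x.hU ρ) where
  A k := by
    unfold St.hs
    have e : x.A k ρ / eps0 ρ ^ pA k - cA k = (x.A k ρ - eps0 ρ ^ pA k * cA k) / eps0 ρ ^ pA k := by
      have := (pow_pos h0 (pA k)).ne'
      field_simp
    rw [e, abs_div, abs_of_pos (pow_pos h0 _), div_le_iff₀ (pow_pos h0 _),
      mul_comm (bA k) (eps0 ρ ^ pA k)]
    exact H.A ρ hρ k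
  V k r hr := by
    unfold St.hU
    rw [abs_div, abs_of_pos (pow_pos h0 _), div_le_iff₀ (pow_pos h0 _), mul_comm]
    exact H.V ρ hρ k r hr

theorem DSt.A (H : DSt wA wV M x y) (hρ : ρ ∈ Icc rho2 rho1) (k : ℕ) :
    |x.A k ρ - y.A k ρ| ≤ M * (eps0 ρ ^ pA k * wA k) := by
  have := H (Sum.inl (k, ρ))
  simp only [enc, ww, cρ_eq hρ] at this
  exact this

theorem DSt.V (H : DSt wA wV M x y) (hρ : ρ ∈ Icc rho2 rho1) (k : ℕ) {r : ℝ}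
    (hr : r ∈ Icc (0:ℝ) 1) :
    |x.V k ρ r - y.V k ρ r| ≤ M * (eps0 ρ ^ pV k * wV k r) := by
  have := H (Sum.inr (k, ρ, r))
  simp only [enc, ww, cρ_eq hρ, cl_eq hr] at this
  exact this

theorem DSt.dst (H : DSt wA wV M x y) (hρ : ρ ∈ Icc rho2 rho1) (h0 : 0 < eps0 ρ) :
    Dst wA wV M (x.hs ρ) (y.hs ρ) (x.hU ρ) (y.hU ρ) where
  A k := by
    unfold St.hs
    rw [← sub_div, abs_div, abs_of_pos (pow_pos h0 _), div_le_iff₀ (pow_pos h0 _)]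
    refine (H.A hρ k).trans (le_of_eq ?_)
    ring
  V k r hr := by
    unfold St.hU
    rw [← sub_div, abs_div, abs_of_pos (pow_pos h0 _), div_le_iff₀ (pow_pos h0 _)]
    refine (H.V hρ k hr).trans (le_of_eq ?_)
    ring

theorem T_V (h : eps0 (cρ ρ) ≠ 0) (k : ℕ) (r : ℝ) : (T x).V k ρ r =
    eps0 (cρ ρ) ^ pV k * hTV (cρ ρ) (eps0 (cρ ρ) ^ 2) (x.hs (cρ ρ) 0) (ff (x.hs (cρ ρ)))
      (x.hU (cρ ρ)) k (cl r) := by
  rw [T_V_hat h, St.ha_eq, St.hf_eq x h]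

theorem T_A (h : eps0 (cρ ρ) ≠ 0) (k : ℕ) : (T x).A k ρ =
    eps0 (cρ ρ) ^ pA k * hTA (cρ ρ) (eps0 (cρ ρ) ^ 2) (x.hs (cρ ρ) 0) (ff (x.hs (cρ ρ)))
      (x.hU (cρ ρ)) k := by
  rw [T_A_hat h, St.ha_eq, St.hf_eq x h]

/-- the start state -/
def start (cA : ℕ → ℝ) : St := ⟨fun k ρ => eps0 (cρ ρ) ^ pA k * cA k, fun _ _ _ => 0⟩

/-- continuity of the functions in `r` -/
def ContR (x : St) : Prop := ∀ ρ ∈ Icc rho2 rho1, ∀ k, Continuous fun r => x.V k ρ (cl r)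

theorem ContR.hat (H : ContR x) (hρ : ρ ∈ Icc rho2 rho1) (k : ℕ) :
    Continuous fun r => x.hU ρ k (cl r) := by
  unfold St.hU
  exact (H ρ hρ k).div_const _

theorem T_lip (HL : HatLip cA bA bV wA wV κ) (he : ∀ ρ ∈ Icc rho2 rho1, 0 < eps0 ρ)
    (hM : 0 ≤ M) (hx : Boxed cA bA bV x) (hy : Boxed cA bA bV y) (cx : ContR x) (cy : ContR y)
    (H : DSt wA wV M x y) : DSt wA wV (κ * M) (T x) (T y) := by
  intro i
  rcases i with ⟨k, ρ⟩ | ⟨k, ρ, r⟩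
  · have hρ := cρ_mem ρ
    have h0 := he _ hρ
    have h := ((HL _ hρ M _ _ _ _ hM (hx.box hρ h0) (hy.box hρ h0) (H.dst hρ h0)
      (cx.hat hρ) (cy.hat hρ)).1 k).d
    simp only [enc, ww]
    rw [T_A h0.ne', T_A h0.ne', ← mul_sub, abs_mul, abs_of_pos (pow_pos h0 _)]
    rw [sub_sub_sub_cancel_right] at h
    calc _ ≤ eps0 (cρ ρ) ^ pA k * (M * (κ * wA k)) :=
          mul_le_mul_of_nonneg_left h (pow_pos h0 _).le
      _ = _ := by ring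
  · have hρ := cρ_mem ρ
    have h0 := he _ hρ
    have h := ((HL _ hρ M _ _ _ _ hM (hx.box hρ h0) (hy.box hρ h0) (H.dst hρ h0)
      (cx.hat hρ) (cy.hat hρ)).2 k _ (cl_mem r)).d
    simp only [enc, ww]
    rw [T_V h0.ne', T_V h0.ne', ← mul_sub, abs_mul, abs_of_pos (pow_pos h0 _)]
    calc _ ≤ eps0 (cρ ρ) ^ pV k * (M * (κ * wV k (cl r))) :=
          mul_le_mul_of_nonneg_left h (pow_pos h0 _).le
      _ = _ := by ring

theorem T_box (HL : HatLip cA bA bV wA wV κ) (he : ∀ ρ ∈ Icc rho2 rho1, 0 < eps0 ρ)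
    (hx : Boxed cA bA bV x) (cx : ContR x) : Boxed cA bA bV (T x) := by
  have h00 : ∀ ρ ∈ Icc rho2 rho1, Dst wA wV 0 (x.hs ρ) (x.hs ρ) (x.hU ρ) (x.hU ρ) := fun ρ _ =>
    ⟨fun k => by simp, fun k r _ => by simp⟩
  refine ⟨fun ρ hρ k => ?_, fun ρ hρ k r hr => ?_⟩
  · have h0 := he _ hρ
    have h := ((HL _ hρ 0 _ _ _ _ le_rfl (hx.box hρ h0) (hx.box hρ h0) (h00 ρ hρ)
      (cx.hat hρ) (cx.hat hρ)).1 k).l
    have e := T_A (x := x) (ρ := ρ) (by rw [cρ_eq hρ]; exact h0.ne') k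
    rw [cρ_eq hρ] at e
    rw [e, ← mul_sub, abs_mul, abs_of_pos (pow_pos h0 _)]
    exact mul_le_mul_of_nonneg_left h (pow_pos h0 _).le
  · have h0 := he _ hρ
    have h := ((HL _ hρ 0 _ _ _ _ le_rfl (hx.box hρ h0) (hx.box hρ h0) (h00 ρ hρ)
      (cx.hat hρ) (cx.hat hρ)).2 k r hr).l
    have e := T_V (x := x) (ρ := ρ) (by rw [cρ_eq hρ]; exact h0.ne') k r
    rw [cρ_eq hρ, cl_eq hr] at e
    rw [e, abs_mul, abs_of_pos (pow_pos h0 _)]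
    exact mul_le_mul_of_nonneg_left h (pow_pos h0 _).le

theorem boxed_start (hbA : ∀ k, 0 ≤ bA k) (hbV : ∀ k, ∀ r ∈ Icc (0:ℝ) 1, 0 ≤ bV k r)
    (he : ∀ ρ ∈ Icc rho2 rho1, 0 < eps0 ρ) : Boxed cA bA bV (start cA) where
  A ρ hρ k := by
    simp only [start, cρ_eq hρ, sub_self, abs_zero]
    exact mul_nonneg (pow_pos (he ρ hρ) _).le (hbA k)
  V ρ hρ k r hr := by
    simp only [start, abs_zero]
    exact mul_nonneg (pow_pos (he ρ hρ) _).le (hbV k r hr)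

/-- the closure of the box -/
theorem boxed_lim {u : ℕ → St} {C : ℝ} (hκ0 : 0 ≤ κ) (hκ : κ < 1) (hu : ∀ n, Boxed cA bA bV (u n))
    (H : ∀ n, DSt wA wV (C * κ ^ n) (u n) x) : Boxed cA bA bV x where
  A ρ hρ k := le_of_dw (u := fun n => (u n).A k ρ - eps0 ρ ^ pA k * cA k) hκ0 hκ
    (fun n => by rw [sub_sub_sub_cancel_right]; exact (H n).A hρ k) fun n => (hu n).A ρ hρ k
  V ρ hρ k r hr := le_of_dw hκ0 hκ (fun n => (H n).V hρ k hr) fun n => (hu n).V ρ hρ k r hr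

/-- **existence of the fixed point.** `Reg` is the regularity predicate. -/
theorem exists_fixed (HL : HatLip cA bA bV wA wV κ) (he : ∀ ρ ∈ Icc rho2 rho1, 0 < eps0 ρ)
    (hκ0 : 0 ≤ κ) (hκ : κ < 1)
    (hbA : ∀ k, 0 ≤ bA k) (hbV : ∀ k, ∀ r ∈ Icc (0:ℝ) 1, 0 ≤ bV k r)
    (hwA : ∀ k, 0 ≤ wA k) (hwV : ∀ k, ∀ r ∈ Icc (0:ℝ) 1, 0 ≤ wV k r)
    {C : ℝ} (hC : 0 ≤ C) (hbwA : ∀ k, bA k ≤ C * wA k)
    (hbwV : ∀ k, ∀ r ∈ Icc (0:ℝ) 1, bV k r ≤ C * wV k r)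
    {Reg : St → Prop} (hR0 : Reg (start cA)) (hRc : ∀ x, Reg x → ContR x)
    (hRT : ∀ x, Boxed cA bA bV x → Reg x → Reg (T x))
    (hRl : ∀ (u : ℕ → St) (x : St) (C : ℝ), 0 ≤ C → (∀ n, Boxed cA bA bV (u n)) → (∀ n, Reg (u n)) →
      (∀ n, DSt wA wV (C * κ ^ n) (u n) x) → Reg x) :
    ∃ x, Boxed cA bA bV x ∧ Reg x ∧ T x = x := by
  have hw : ∀ i, 0 ≤ ww wA wV i := by
    intro i
    rcases i with ⟨k, ρ⟩ | ⟨k, ρ, r⟩
    · exact mul_nonneg (pow_pos (he _ (cρ_mem ρ)) _).le (hwA k)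
    · exact mul_nonneg (pow_pos (he _ (cρ_mem ρ)) _).le (hwV k _ (cl_mem r))
  have h1κ : 0 < 1 - κ := by linarith
  have hb0 := boxed_start (cA := cA) hbA hbV he
  obtain ⟨z, hz, hTz, -⟩ := dw_fixed (w := ww wA wV) hw
    (S := fun z => Boxed cA bA bV (dec z) ∧ Reg (dec z)) (T := fun z => enc (T (dec z)))
    (κ := κ) (C := C) hκ0 hκ hC (x0 := enc (start cA)) ⟨hb0, hR0⟩
    (fun z hz => ⟨T_box HL he hz.1 (hRc _ hz.2), hRT _ hz.1 hz.2⟩)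
    (by
      intro i
      have hT := T_box HL he hb0 (hRc _ hR0)
      rcases i with ⟨k, ρ⟩ | ⟨k, ρ, r⟩
      · have h0 := he _ (cρ_mem ρ)
        have h := hT.A _ (cρ_mem ρ) k
        have e : (T (start cA)).A k (cρ ρ) = (T (start cA)).A k ρ := by
          show TA _ _ _ _ _ = TA _ _ _ _ _
          rw [cρ_eq (cρ_mem ρ)]
        rw [e] at h
        simp only [enc, dec_enc, ww]
        rw [abs_sub_comm]
        refine le_trans (le_of_eq ?_) (h.trans ?_)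
        · congr 1
        · calc _ ≤ eps0 (cρ ρ) ^ pA k * (C * wA k) :=
                mul_le_mul_of_nonneg_left (hbwA k) (pow_pos h0 _).le
            _ = _ := by ring
      · have h0 := he _ (cρ_mem ρ)
        have h := hT.V _ (cρ_mem ρ) k _ (cl_mem r)
        have e : (T (start cA)).V k (cρ ρ) (cl r) = (T (start cA)).V k ρ r := by
          show TV _ _ _ _ _ _ = TV _ _ _ _ _ _
          rw [cρ_eq (cρ_mem ρ), cl_eq (cl_mem r)]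
        rw [e] at h
        simp only [enc, dec_enc, ww]
        rw [abs_sub_comm]
        refine le_trans (le_of_eq ?_) (h.trans ?_)
        · congr 1
          simp [start]
        · calc _ ≤ eps0 (cρ ρ) ^ pV k * (C * wV k (cl r)) :=
                mul_le_mul_of_nonneg_left (hbwV k _ (cl_mem r)) (pow_pos h0 _).le
            _ = _ := by ring)
    (fun z z' M hM hz hz' H => by
      have := T_lip HL he hM hz.1 hz'.1 (hRc _ hz.2) (hRc _ hz'.2)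
        (show DSt wA wV M (dec z) (dec z') by unfold DSt; rwa [enc_dec, enc_dec])
      exact this)
    (fun u z hu H => by
      have H' : ∀ n, DSt wA wV (C / (1 - κ) * κ ^ n) (dec (u n)) (dec z) := by
        intro n
        unfold DSt
        rw [enc_dec, enc_dec]
        have := H n
        rwa [show C * κ ^ n / (1 - κ) = C / (1 - κ) * κ ^ n by ring] at this
      exact ⟨boxed_lim hκ0 hκ (fun n => (hu n).1) H',
        hRl _ _ _ (div_nonneg hC h1κ.le) (fun n => (hu n).1) (fun n => (hu n).2) H'⟩)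
  refine ⟨dec z, hz.1, hz.2, ?_⟩
  have : dec (enc (T (dec z))) = dec z := by rw [hTz]
  exact this

end

end

end SCHT
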