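import Pool.Agent.MP_83fd13_an.SCH.TBes
import Pool.Agent.MP_83fd13_an.SCH.TMain
import Pool.Agent.MP_83fd13_an.SCH.CertStmt

/-!
# [SCH] the end boxes: the crude information on the fixed point at the two endpoints
-/

set_option autoImplicit false

namespace SCHT

open MeasureTheory Set Filter Topology
open Pool.Agent.SCH SCHB SCHF SCHS

noncomputable section

variable {ρ : ℝ}

/-- numerical data of the box -/
structure BoxNum (cA bA : ℕ → ℝ) (bV : ℕ → ℝ → ℝ) : Prop where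
  c0 : cA 0 = -7886 / 10000
  cs : ∀ k, cA (k + 1) = 0
  b0 : bA 0 ≤ 1 / 10
  b1 : bA 1 ≤ 5 / 100
  b2 : bA 2 ≤ 45 / 100
  b3 : ∀ k, bA (k + 3) ≤ 12 / 100 * 2 ^ (k + 3)
  v : bV 0 1 ≤ 1 / 2

variable {cA bA : ℕ → ℝ} {bV : ℕ → ℝ → ℝ} {x : St}

/-- geometric tail -/
theorem tail_le' (N : BoxNum cA bA bV) (H : Boxed cA bA bV x) (hρ : ρ ∈ Icc rho2 rho1) {t : ℝ}
    (ht : eps0 ρ ≤ t) (ht2 : 2 * t < 1) :
    ∑' k, |x.ph ρ (k + 3)| ≤ 12 / 100 * (2 * t) ^ 3 / (1 - 2 * t) := by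
  have h0 := eps0_pos hρ
  have h1 : ∀ k, |x.ph ρ (k + 3)| ≤ 12 / 100 * (2 * t) ^ 3 * (2 * t) ^ k := by
    intro k
    have h := H.A ρ hρ (k + 3)
    rw [N.cs (k + 2), mul_zero, sub_zero] at h
    have e : x.ph ρ (k + 3) = x.A (k + 3) ρ := rfl
    rw [e]
    refine h.trans ?_
    have e2 : eps0 ρ ^ pA (k + 3) = eps0 ρ ^ (k + 3) := rfl
    rw [e2]
    calc eps0 ρ ^ (k + 3) * bA (k + 3) ≤ eps0 ρ ^ (k + 3) * (12 / 100 * 2 ^ (k + 3)) :=
          mul_le_mul_of_nonneg_left (N.b3 k) (by positivity)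
      _ ≤ t ^ (k + 3) * (12 / 100 * 2 ^ (k + 3)) := by gcongr
      _ = _ := by ring
  have hg : HasSum (fun k : ℕ => 12 / 100 * (2 * t) ^ 3 * (2 * t) ^ k)
      (12 / 100 * (2 * t) ^ 3 * (1 - 2 * t)⁻¹) :=
    (hasSum_geometric_of_lt_one (by linarith) ht2).mul_left _
  have hs : Summable fun k => |x.ph ρ (k + 3)| :=
    Summable.of_nonneg_of_le (fun _ => abs_nonneg _) h1 hg.summable
  have := hs.tsum_le_tsum h1 hg.summable
  rw [hg.tsum_eq] at this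
  rw [div_eq_mul_inv]
  exact this

/-- `φ_1` -/
theorem ph1_mem (N : BoxNum cA bA bV) (H : Boxed cA bA bV x) (hρ : ρ ∈ Icc rho2 rho1) :
    0.95 * eps0 ρ ≤ x.ph ρ 1 ∧ x.ph ρ 1 ≤ 1.05 * eps0 ρ := by
  have h0 := eps0_pos hρ
  have h := H.A ρ hρ 1
  rw [N.cs 0, mul_zero, sub_zero] at h
  have e : x.ph ρ 1 = eps0 ρ + x.A 1 ρ := rfl
  have e2 : eps0 ρ ^ pA 1 = eps0 ρ := pow_one _
  rw [e2] at h
  rw [e]
  have h3 : eps0 ρ * bA 1 ≤ eps0 ρ * (5 / 100) := mul_le_mul_of_nonneg_left N.b1 h0.le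
  rw [abs_le] at h
  constructor <;> linarith [h.1, h.2]

/-- `φ_2` -/
theorem ph2_le (N : BoxNum cA bA bV) (H : Boxed cA bA bV x) (hρ : ρ ∈ Icc rho2 rho1) :
    |x.ph ρ 2| ≤ 45 / 100 * eps0 ρ ^ 2 := by
  have h := H.A ρ hρ 2
  rw [N.cs 1, mul_zero, sub_zero] at h
  have e : x.ph ρ 2 = x.A 2 ρ := rfl
  have e2 : eps0 ρ ^ pA 2 = eps0 ρ ^ 2 := rfl
  rw [e2] at h
  rw [e, mul_comm (45 / 100 : ℝ)]
  exact h.trans (mul_le_mul_of_nonneg_left N.b2 (by positivity))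

/-- `u_0(1) < 0` -/
theorem c_neg (N : BoxNum cA bA bV) (H : Boxed cA bA bV x) (hρ : ρ ∈ Icc rho2 rho1) :
    VV ρ (x.A 0 ρ) (x.ph ρ) (fun k => x.V k ρ) 0 1 + J 0 ρ < 0 := by
  have h0 := eps0_pos hρ
  have h1 := eps0_le hρ
  have a0 := J0_I (I1' hρ) (I2' hρ)
  have a1 := J1_I' (I1' hρ) (I2' hρ)
  have a2 := J2_I (I1' hρ) (I2' hρ)
  have a43 := J43_I (I1' hρ) (I2' hρ)
  have r1 := I1 hρ
  have r2 := I2 hρ
  have hp := ph1_mem N H hρ
  have hA := H.A ρ hρ 0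
  have e2 : eps0 ρ ^ pA 0 = eps0 ρ := pow_one _
  rw [e2, N.c0] at hA
  have hA' : |x.A 0 ρ| ≤ 0.1 := by
    have h3 : eps0 ρ * bA 0 ≤ eps0 ρ * (1 / 10) := mul_le_mul_of_nonneg_left N.b0 h0.le
    rw [abs_le] at hA ⊢
    constructor <;> linarith [hA.1, hA.2]
  have hV := H.V ρ hρ 0 1 ⟨by norm_num, le_rfl⟩
  have hV' : |x.V 0 ρ 1| ≤ 0.001 := by
    refine hV.trans ?_
    have e4 : eps0 ρ ^ pV 0 = eps0 ρ ^ 4 := rfl
    rw [e4]
    calc eps0 ρ ^ 4 * bV 0 1 ≤ eps0 ρ ^ 4 * (1 / 2) := mul_le_mul_of_nonneg_left N.v (by positivity)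
      _ ≤ 0.1093 ^ 4 * (1 / 2) := by gcongr
      _ ≤ 0.001 := by norm_num
  have hg0 : 0 ≤ x.ph ρ 1 / 43 := div_nonneg (by linarith) (by norm_num)
  have hg1 : x.ph ρ 1 / 43 ≤ 0.0027 := by
    rw [div_le_iff₀ (by norm_num)]
    linarith
  have hQ : |Q0 J ρ 1| ≤ 85 := by
    unfold Q0
    simp only [one_pow, one_mul, mul_one]
    have p1 : ρ ^ 2 / 4 * J 2 ρ ≤ 80 := by
      have : ρ ^ 2 ≤ 2936 := by nlinarith
      nlinarith [a2.1, a2.2]
    have p2 : 0 ≤ ρ ^ 2 / 4 * J 2 ρ := by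
      have := a2.1
      positivity
    have p3 : ρ / 2 * J 1 ρ ≤ 0.1 := by nlinarith [a1.1, a1.2]
    have p4 : 0 ≤ ρ / 2 * J 1 ρ := by
      have := a1.1
      positivity
    rw [abs_le]
    constructor <;> linarith
  have hA0 : |A0 J ρ 1| ≤ 5 := by
    unfold A0
    simp only [one_pow, one_mul, mul_one]
    rw [abs_neg, abs_mul, abs_of_nonneg (by linarith : (0 : ℝ) ≤ ρ), abs_of_neg (by linarith [a43.2])]
    nlinarith [a43.1, a43.2]
  have t1 : |(x.ph ρ 1 / 43) ^ 2 * Q0 J ρ 1| ≤ 0.0027 ^ 2 * 85 := by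
    rw [abs_mul, abs_of_nonneg (by positivity)]
    gcongr
  have t2 : |x.A 0 ρ * (x.ph ρ 1 / 43) * A0 J ρ 1| ≤ 0.1 * 0.0027 * 5 := by
    rw [abs_mul, abs_mul, abs_of_nonneg hg0]
    gcongr
  have e5 : VV ρ (x.A 0 ρ) (x.ph ρ) (fun k => x.V k ρ) 0 1 =
      (x.ph ρ 1 / 43) ^ 2 * Q0 J ρ 1 + x.A 0 ρ * (x.ph ρ 1 / 43) * A0 J ρ 1 + x.V 0 ρ 1 := rfl
  rw [e5]
  have s1 := le_of_abs_le t1
  have s2 := le_of_abs_le t2
  have s3 := le_of_abs_le hV'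
  linarith [a0.2]

theorem rho2_mem : rho2 ∈ Icc rho2 rho1 := ⟨le_rfl, by unfold rho2 rho1; norm_num⟩

theorem rho1_mem : rho1 ∈ Icc rho2 rho1 := ⟨by unfold rho2 rho1; norm_num, le_rfl⟩

theorem eps0_rho2 : 0.1092 ≤ eps0 rho2 := by
  have hρ := rho2_mem
  have h0 := eps0_pos hρ
  have h1 := eps0_sq_mul hρ
  have hD := D1_le hρ
  have hD0 := D1_pos hρ
  have hb : 0.044358 ≤ beta J rho2 := by
    unfold beta rho2
    have e := P178.e1
    rw [abs_le] at e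
    norm_num at e ⊢
    linarith [e.1]
  by_contra hcon
  push Not at hcon
  have : eps0 rho2 ^ 2 * D1 J rho2 ≤ 0.1092 ^ 2 * 3.718 := by gcongr
  norm_num at this
  linarith

theorem eps0_rho1_le : eps0 rho1 ≤ 0.0598 := by
  have hρ := rho1_mem
  have h0 := eps0_pos hρ
  have h1 := eps0_sq_mul hρ
  have hD := D1_ge hρ
  have hb : beta J rho1 ≤ 0.013236 := by
    unfold beta rho1
    have e := P1833.e1
    rw [abs_le] at e
    norm_num at e ⊢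
    linarith [e.2]
  by_contra hcon
  push Not at hcon
  have : 0.0598 ^ 2 * 3.704 ≤ eps0 rho1 ^ 2 * D1 J rho1 := by gcongr
  norm_num at this
  linarith

theorem eps0_rho1_ge : 0.0595 ≤ eps0 rho1 := by
  have h := u_ge rho1_mem
  have h0 := eps0_pos rho1_mem
  nlinarith

/-- **the box at the endpoint `ρ₂`** -/
theorem endBox2 (N : BoxNum cA bA bV) (H : Boxed cA bA bV x) :
    SCHC.EndBox (x.ph (54178 / 1000))
      (VV (54178 / 1000) (x.A 0 (54178 / 1000)) (x.ph (54178 / 1000))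
        (fun k => x.V k (54178 / 1000)) 0 1 + J 0 (54178 / 1000))
      (98 / 1000) (120 / 1000) (62 / 10000) (25 / 10000) := by
  have hρ := rho2_mem
  have e : rho2 = 54178 / 1000 := rfl
  rw [← e]
  have h0 := eps0_pos hρ
  have h1 := eps0_le hρ
  have h2 := eps0_rho2
  have hp := ph1_mem N H hρ
  refine ⟨?_, ?_, ?_, ?_, c_neg N H hρ⟩
  · linarith [hp.1]
  · linarith [hp.2]
  · refine (ph2_le N H hρ).trans ?_
    have := u_le hρ
    linarith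
  · refine (tail_le' N H hρ h1 (by norm_num)).trans ?_
    norm_num

/-- **the box at the endpoint `ρ₁`** -/
theorem endBox1 (N : BoxNum cA bA bV) (H : Boxed cA bA bV x) :
    SCHC.EndBox (x.ph (541833 / 10000))
      (VV (541833 / 10000) (x.A 0 (541833 / 10000)) (x.ph (541833 / 10000))
        (fun k => x.V k (541833 / 10000)) 0 1 + J 0 (541833 / 10000))
      (55 / 1000) (65 / 1000) (18 / 10000) (12 / 10000) := by
  have hρ := rho1_mem
  have e : rho1 = 541833 / 10000 := rfl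
  rw [← e]
  have h0 := eps0_pos hρ
  have h1 := eps0_rho1_le
  have h2 := eps0_rho1_ge
  have hp := ph1_mem N H hρ
  refine ⟨?_, ?_, ?_, ?_, c_neg N H hρ⟩
  · linarith [hp.1]
  · linarith [hp.2]
  · refine (ph2_le N H hρ).trans ?_
    have : eps0 rho1 ^ 2 ≤ 0.0598 ^ 2 := by gcongr
    norm_num at this ⊢
    linarith
  · refine (tail_le' N H hρ h1 (by norm_num)).trans ?_
    norm_num

end

end SCHT
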