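import Pool.Agent.MP_83fd13_an.SCH.Exp2

/-!
# [SCH] the functionals: fixed point equations ⇒ boundary conditions

helper42's T-map U' (SCH_T42.md).
-/

set_option autoImplicit false

namespace SCHF

open MeasureTheory Set Filter Topology
open Pool.Agent.SCH

noncomputable section

/-- `β = ρ J_1(ρ)` -/
def beta (J : ℕ → ℝ → ℝ) (ρ : ℝ) : ℝ := ρ * J 1 ρ

/-- `D_1 = -ρ² J_0(ρ)/86 + ρ³ J_1(ρ)/7396` -/
def D1 (J : ℕ → ℝ → ℝ) (ρ : ℝ) : ℝ := -(ρ ^ 2 * J 0 ρ) / 86 + ρ ^ 3 * J 1 ρ / 7396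

/-- `D_α = -ρ² J_42(ρ)/43` -/
def Da (J : ℕ → ℝ → ℝ) (ρ : ℝ) : ℝ := -(ρ ^ 2 * J 42 ρ) / 43

variable {J : ℕ → ℝ → ℝ}

theorem Q0'_one (B : BesselSys J) (ρ : ℝ) : Q0' J ρ 1 = 1849 * D1 J ρ := by
  have h := B.recur 0 ρ
  simp only [Nat.cast_zero, zero_add, mul_one] at h
  unfold Q0' D1
  simp only [one_pow, mul_one, div_one]
  linear_combination (-21 * ρ) * h

theorem A0'_one (ρ : ℝ) : A0' J ρ 1 = 43 * Da J ρ := by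
  unfold A0' Da
  simp only [one_pow, mul_one, div_one]
  ring

theorem PP'_sub (n : ℕ) (ρ : ℝ) :
    PP' J ρ n 1 - n * PP J ρ n 1 = -(ρ ^ 2 * J 0 ρ / (2 * (n + 1))) := by
  unfold PP' PP
  have hn : (n : ℝ) + 1 ≠ 0 := by positivity
  simp only [one_pow, mul_one]
  field_simp
  ring

theorem Q2'_sub (ρ : ℝ) : Q2' J ρ 1 - 84 * Q2 J ρ 1 = ρ ^ 3 * J 1 ρ / 8 := by
  unfold Q2' Q2
  simp only [one_pow, mul_one, div_one]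
  ring

theorem A2'_sub (B : BesselSys J) (ρ : ℝ) : A2' J ρ 1 - 84 * A2 J ρ 1 = -(ρ ^ 2 * J 42 ρ) / 2 := by
  have h := B.recur 40 ρ
  simp only [Nat.reduceAdd] at h
  push_cast at h
  unfold A2' A2
  simp only [one_pow, mul_one, div_one]
  linear_combination (-ρ / 2) * h

/-- the equation for `η` gives `V_0'(1) = β` -/
theorem eta_eq (B : BesselSys J) {ρ ε ε₀ η α d₀ : ℝ} (hε : ε = ε₀ + η) (hε₀ : ε₀ ≠ 0)
    (hD : D1 J ρ ≠ 0) (h0 : ε₀ ^ 2 * D1 J ρ = beta J ρ)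
    (hη : η = -η ^ 2 / (2 * ε₀) - (Da J ρ * α * ε + d₀) / (2 * ε₀ * D1 J ρ)) :
    (ε / 43) ^ 2 * Q0' J ρ 1 + α * (ε / 43) * A0' J ρ 1 + d₀ = ρ * J 1 ρ := by
  rw [Q0'_one B, A0'_one]
  have h1 : 2 * ε₀ * D1 J ρ * η = -η ^ 2 * D1 J ρ - (Da J ρ * α * ε + d₀) := by
    have h2 : 2 * ε₀ * D1 J ρ ≠ 0 := by positivity
    calc 2 * ε₀ * D1 J ρ * η = 2 * ε₀ * D1 J ρ *
        (-η ^ 2 / (2 * ε₀) - (Da J ρ * α * ε + d₀) / (2 * ε₀ * D1 J ρ)) := by rw [← hη]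
      _ = _ := by field_simp
  unfold beta at h0
  rw [← h0, hε]
  rw [hε] at h1
  linear_combination h1

/-- the equation for `α` gives `V_1'(1) = 0` -/
theorem alpha_eq {ρ ε α d₁ : ℝ} {J' : ℝ} (hJ : ρ * J' ≠ 0)
    (hα : α = ((ε / 86) * (ρ ^ 2 * J 0 ρ + 42 * ρ * J 1 ρ) - d₁) / (ρ * J')) :
    ε * PP' J ρ 42 1 + α * (ρ * J') + d₁ = 0 := by
  rw [eq_div_iff hJ] at hα
  rw [hα]
  unfold PP'
  push_cast
  simp only [one_pow, mul_one]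
  ring

/-- The Dirichlet modes: `y = X + (-X(1) r^n + ρ² Gr_n f)`, where `X` is the explicit part. -/
theorem dirichlet_mode {n a : ℕ} (hn : 0 < n) {C ρ : ℝ} {f X X' g : ℝ → ℝ} (hX : RSol n g X X')
    (hf : Wt a C f) :
    RSol n (fun r => g r + ρ ^ 2 * f r)
      (fun r => X r + (-(X 1) * r ^ n + ρ ^ 2 * Gr n f r))
      (fun r => X' r + (-(X 1) * ((n : ℝ) * r ^ n / r) + ρ ^ 2 * Gr' n f r)) ∧
    X 1 + (-(X 1) * 1 ^ n + ρ ^ 2 * Gr n f 1) = 0 ∧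
    X' 1 + (-(X 1) * ((n : ℝ) * 1 ^ n / 1) + ρ ^ 2 * Gr' n f 1) =
      X' 1 - n * X 1 - ρ ^ 2 * ∫ s in (0:ℝ)..1, s ^ (n + 1) * f s := by
  refine ⟨?_, ?_, ?_⟩
  · have h := hX.add (((rsol_pow n).const_mul (-(X 1))).add ((Gr_rsol hf hn).const_mul (ρ ^ 2)))
    refine h.congr (fun r _ => ?_) (fun r _ => rfl) (fun r _ => rfl)
    ring
  · rw [Gr_one]; simp
  · rw [Gr'_one]; simp only [one_pow]; ring

/-- Neumann condition for the modes `k ≥ 3` -/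
theorem phi_eq {n : ℕ} {ρ φ I : ℝ} (hJ : J 0 ρ ≠ 0)
    (hφ : φ = -(2 * ((n : ℝ) + 1) / J 0 ρ) * I) :
    φ * PP' J ρ n 1 - n * (φ * PP J ρ n 1) - ρ ^ 2 * I = 0 := by
  have h := PP'_sub (J := J) n ρ
  have hn : (n : ℝ) + 1 ≠ 0 := by positivity
  have e : φ * PP' J ρ n 1 - n * (φ * PP J ρ n 1) = φ * (PP' J ρ n 1 - n * PP J ρ n 1) := by ring
  rw [e, h, hφ]
  field_simp
  ring

/-- Neumann condition for the mode `2` -/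
theorem phi2_eq (B : BesselSys J) {ρ φ g α I : ℝ} (hρ : ρ ≠ 0) (hJ : J 0 ρ ≠ 0)
    (hφ : φ = -(170 / J 0 ρ) * (I - (g ^ 2 * ρ ^ 3 * J 1 ρ / 8 - α * g * ρ ^ 2 * J 42 ρ / 2) /
      ρ ^ 2)) :
    (φ * PP' J ρ 84 1 + g ^ 2 * Q2' J ρ 1 + α * g * A2' J ρ 1) -
      84 * (φ * PP J ρ 84 1 + g ^ 2 * Q2 J ρ 1 + α * g * A2 J ρ 1) - ρ ^ 2 * I = 0 := by
  have h := PP'_sub (J := J) 84 ρ
  push_cast at h
  have h2 := Q2'_sub (J := J) ρ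
  have h3 := A2'_sub B ρ
  have e : (φ * PP' J ρ 84 1 + g ^ 2 * Q2' J ρ 1 + α * g * A2' J ρ 1) -
      84 * (φ * PP J ρ 84 1 + g ^ 2 * Q2 J ρ 1 + α * g * A2 J ρ 1) =
      φ * (PP' J ρ 84 1 - 84 * PP J ρ 84 1) + g ^ 2 * (Q2' J ρ 1 - 84 * Q2 J ρ 1) +
      α * g * (A2' J ρ 1 - 84 * A2 J ρ 1) := by ring
  rw [e, h, h2, h3, hφ]
  field_simp
  ring

end

end SCHF
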