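import Mathlib

/-!
# [SCH] sine kernel for the modes `0` and `1`

For continuous `g`, `Ys ρ g r = ∫_0^r sin (ρ (r - s)) g s ds` and the outward solution operator
`SV` of `y'' + y'/r - n² y / r² + ρ² y = - ρ² f` (`c = n² - 1/4`) in the form
`SV f v r = - r^{-1/2} ∫_0^r sin (ρ (r - s)) (ρ √s f s - (c / ρ) (√s / s²) v s) ds`.
-/

namespace SCHS

open MeasureTheory Set Filter Topology intervalIntegral
open scoped Real

noncomputable section

/-- `∫_0^r sin (ρ (r - s)) g s ds` -/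
def Ys (ρ : ℝ) (g : ℝ → ℝ) (r : ℝ) : ℝ := ∫ s in (0 : ℝ)..r, Real.sin (ρ * (r - s)) * g s

/-- `∫_0^r cos (ρ (r - s)) g s ds` -/
def Yc (ρ : ℝ) (g : ℝ → ℝ) (r : ℝ) : ℝ := ∫ s in (0 : ℝ)..r, Real.cos (ρ * (r - s)) * g s

variable {ρ c : ℝ} {f v g : ℝ → ℝ}

theorem Ys_eq (hg : Continuous g) (r : ℝ) : Ys ρ g r =
    Real.sin (ρ * r) * (∫ s in (0 : ℝ)..r, Real.cos (ρ * s) * g s) -
    Real.cos (ρ * r) * (∫ s in (0 : ℝ)..r, Real.sin (ρ * s) * g s) := by
  unfold Ys
  rw [← intervalIntegral.integral_const_mul, ← intervalIntegral.integral_const_mul,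
    ← intervalIntegral.integral_sub]
  · apply intervalIntegral.integral_congr
    intro s _
    simp only
    rw [mul_sub, Real.sin_sub]
    ring
  · exact (by fun_prop : Continuous _).intervalIntegrable _ _
  · exact (by fun_prop : Continuous _).intervalIntegrable _ _

theorem Yc_eq (hg : Continuous g) (r : ℝ) : Yc ρ g r =
    Real.cos (ρ * r) * (∫ s in (0 : ℝ)..r, Real.cos (ρ * s) * g s) +
    Real.sin (ρ * r) * (∫ s in (0 : ℝ)..r, Real.sin (ρ * s) * g s) := by
  unfold Yc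
  rw [← intervalIntegral.integral_const_mul, ← intervalIntegral.integral_const_mul,
    ← intervalIntegral.integral_add]
  · apply intervalIntegral.integral_congr
    intro s _
    simp only
    rw [mul_sub, Real.cos_sub]
    ring
  · exact (by fun_prop : Continuous _).intervalIntegrable _ _
  · exact (by fun_prop : Continuous _).intervalIntegrable _ _

theorem hasDerivAt_Ys (hg : Continuous g) (r : ℝ) :
    HasDerivAt (Ys ρ g) (ρ * Yc ρ g r) r := by
  have e : Ys ρ g = fun r => Real.sin (ρ * r) * (∫ s in (0 : ℝ)..r, Real.cos (ρ * s) * g s) -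
    Real.cos (ρ * r) * (∫ s in (0 : ℝ)..r, Real.sin (ρ * s) * g s) := funext (Ys_eq hg)
  rw [e]
  have h1 : HasDerivAt (fun r : ℝ => ρ * r) ρ r := by simpa using (hasDerivAt_id r).const_mul ρ
  have hc : Continuous fun s => Real.cos (ρ * s) * g s := by fun_prop
  have hs : Continuous fun s => Real.sin (ρ * s) * g s := by fun_prop
  have h2 : HasDerivAt (fun r : ℝ => ∫ s in (0 : ℝ)..r, Real.cos (ρ * s) * g s)
      (Real.cos (ρ * r) * g r) r :=
    integral_hasDerivAt_right (hc.intervalIntegrable _ _) hc.aestronglyMeasurable.stronglyMeasurableAtFilter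
      hc.continuousAt
  have h3 : HasDerivAt (fun r : ℝ => ∫ s in (0 : ℝ)..r, Real.sin (ρ * s) * g s)
      (Real.sin (ρ * r) * g r) r :=
    integral_hasDerivAt_right (hs.intervalIntegrable _ _) hs.aestronglyMeasurable.stronglyMeasurableAtFilter
      hs.continuousAt
  have h := (h1.sin.mul h2).sub (h1.cos.mul h3)
  refine h.congr_deriv ?_
  rw [Yc_eq hg]
  ring

theorem hasDerivAt_Yc (hg : Continuous g) (r : ℝ) :
    HasDerivAt (Yc ρ g) (g r - ρ * Ys ρ g r) r := by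
  have e : Yc ρ g = fun r => Real.cos (ρ * r) * (∫ s in (0 : ℝ)..r, Real.cos (ρ * s) * g s) +
    Real.sin (ρ * r) * (∫ s in (0 : ℝ)..r, Real.sin (ρ * s) * g s) := funext (Yc_eq hg)
  rw [e]
  have h1 : HasDerivAt (fun r : ℝ => ρ * r) ρ r := by simpa using (hasDerivAt_id r).const_mul ρ
  have hc : Continuous fun s => Real.cos (ρ * s) * g s := by fun_prop
  have hs : Continuous fun s => Real.sin (ρ * s) * g s := by fun_prop
  have h2 : HasDerivAt (fun r : ℝ => ∫ s in (0 : ℝ)..r, Real.cos (ρ * s) * g s)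
      (Real.cos (ρ * r) * g r) r :=
    integral_hasDerivAt_right (hc.intervalIntegrable _ _) hc.aestronglyMeasurable.stronglyMeasurableAtFilter
      hc.continuousAt
  have h3 : HasDerivAt (fun r : ℝ => ∫ s in (0 : ℝ)..r, Real.sin (ρ * s) * g s)
      (Real.sin (ρ * r) * g r) r :=
    integral_hasDerivAt_right (hs.intervalIntegrable _ _) hs.aestronglyMeasurable.stronglyMeasurableAtFilter
      hs.continuousAt
  have h := (h1.cos.mul h2).add (h1.sin.mul h3)
  refine h.congr_deriv ?_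
  rw [Ys_eq hg]
  have h4 := Real.sin_sq_add_cos_sq (ρ * r)
  linear_combination (g r) * h4

/-- the source term -/
def src (ρ c : ℝ) (f v : ℝ → ℝ) (s : ℝ) : ℝ := ρ * √s * f s - c / ρ * (√s / s ^ 2) * v s

/-- the sine kernel operator -/
def SV (ρ c : ℝ) (f v : ℝ → ℝ) (r : ℝ) : ℝ := -((√r)⁻¹ * Ys ρ (src ρ c f v) r)

/-- its derivative -/
def SV' (ρ c : ℝ) (f v : ℝ → ℝ) (r : ℝ) : ℝ :=
  -((√r)⁻¹ * (ρ * Yc ρ (src ρ c f v) r - Ys ρ (src ρ c f v) r / (2 * r)))

/-- its second derivative -/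
def SV'' (ρ c : ℝ) (f v : ℝ → ℝ) (r : ℝ) : ℝ :=
  -(SV' ρ c f v r / r) - ρ ^ 2 * (SV ρ c f v r + f r) + c * v r / r ^ 2
    + SV ρ c f v r / (4 * r ^ 2)

theorem src_continuous (hf : Continuous f) {u : ℝ → ℝ} (hu : Continuous u)
    (hv : ∀ s, v s = s ^ 2 * u s) : Continuous (src ρ c f v) := by
  have e : src ρ c f v = fun s => ρ * √s * f s - c / ρ * (√s * u s) := by
    funext s
    unfold src
    rw [hv]
    rcases eq_or_ne s 0 with rfl | hs
    · simp
    · field_simp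
  rw [e]
  fun_prop

theorem hasDerivAt_SV (hg : Continuous (src ρ c f v)) {r : ℝ} (hr : 0 < r) :
    HasDerivAt (SV ρ c f v) (SV' ρ c f v r) r := by
  have h1 := (hasDerivAt_Ys (ρ := ρ) hg r)
  have h2 : HasDerivAt (fun r : ℝ => (√r)⁻¹) (-(1 / (2 * √r)) / (√r) ^ 2) r :=
    (Real.hasDerivAt_sqrt hr.ne').inv (Real.sqrt_pos.2 hr).ne'
  have h := (h2.mul h1).neg
  refine h.congr_deriv ?_
  unfold SV'
  have hs : 0 < √r := Real.sqrt_pos.2 hr
  have hss : √r ^ 2 = r := Real.sq_sqrt hr.le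
  rw [hss]
  field_simp
  ring

theorem hasDerivAt_SV' (hρ : ρ ≠ 0) (hg : Continuous (src ρ c f v)) {r : ℝ} (hr : 0 < r) :
    HasDerivAt (SV' ρ c f v) (SV'' ρ c f v r) r := by
  have h1 := (hasDerivAt_Ys (ρ := ρ) hg r)
  have h1c := (hasDerivAt_Yc (ρ := ρ) hg r)
  have h2 : HasDerivAt (fun r : ℝ => (√r)⁻¹) (-(1 / (2 * √r)) / (√r) ^ 2) r :=
    (Real.hasDerivAt_sqrt hr.ne').inv (Real.sqrt_pos.2 hr).ne'
  have h3 : HasDerivAt (fun r : ℝ => 2 * r) 2 r := by simpa using (hasDerivAt_id r).const_mul 2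
  have h := (h2.mul ((h1c.const_mul ρ).sub (h1.div h3 (by positivity)))).neg
  refine h.congr_deriv ?_
  simp only [Pi.sub_apply, Pi.div_apply]
  unfold SV'' SV' SV
  have hs : 0 < √r := Real.sqrt_pos.2 hr
  have hss : √r ^ 2 = r := Real.sq_sqrt hr.le
  have hsrc : src ρ c f v r = ρ * √r * f r - c / ρ * (√r / r ^ 2) * v r := rfl
  set A := Ys ρ (src ρ c f v) r
  set B := Yc ρ (src ρ c f v) r
  rw [hsrc]
  set F := f r
  set W := v r
  set q := √r
  clear_value A B F W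
  rw [← hss]
  field_simp
  ring

/-- the differential equation -/
theorem SV_ode {r : ℝ} (hr : r ≠ 0) (n : ℕ) (hc : c = (n : ℝ) ^ 2 - 1 / 4) (hv : SV ρ c f v r = v r) :
    SV'' ρ c f v r + SV' ρ c f v r / r - (n : ℝ) ^ 2 * SV ρ c f v r / r ^ 2 =
      -(ρ ^ 2 * (SV ρ c f v r + f r)) := by
  unfold SV''
  rw [hv, hc]
  field_simp
  ring

end

end SCHS
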