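import Pool.Agent.MP_83fd13_an.SCH.BesA
import Pool.Agent.MP_83fd13_an.SCH.Fun1
import Pool.Agent.MP_83fd13_an.SCH.Sin1

/-!
# [SCH] the T-map: definitions (helper42)

Text: team-store `SCH_T42.md`. `R = r^42`, `x = ρ r`. Unknowns at a given `ρ`:
`α`, `η` (`ε = ε₀(ρ) + η`), `φ k` (`k ≥ 2`), `v = V 0`, `w = V 1`, `Z_k = V k` (`k ≥ 2`).
`φ 0 = 1`, `φ 1 = ε`.

* `XX k`  explicit part of `V_k`,
* `RR k`  remainder: `v`, `w`, `W_k = Z_k - XX_k(1) r^(42k)`,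
* `VV k = XX k + RR k`,
* `qr k = ∑_{j≥1} φ_j φ_{j+k} R^(2j+k)`, `qq k = φ_k R^k + qr k` (`k ≥ 1`), `qq 0 = qr 0`,
* `GG k`  remainder source,
* `TV`, `TA` the map.

States are raw functions of `ρ` (and `r`); `T` evaluates everything at clamped `ρ` and `r`.
-/

set_option autoImplicit false

namespace SCHT

open MeasureTheory Set Filter Topology
open Pool.Agent.SCH SCHB SCHF SCHS

noncomputable section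

/-- clamp to `[0,1]` -/
def cl (r : ℝ) : ℝ := max 0 (min r 1)

/-- upper endpoint of `ε`: `ρ₂` -/
def rho2 : ℝ := 54178 / 1000

/-- the other endpoint -/
def rho1 : ℝ := 541833 / 10000

/-- clamp to `[ρ₂, ρ₁]` -/
def cρ (ρ : ℝ) : ℝ := max rho2 (min ρ rho1)

/-- `ε₀(ρ) = √(β/D₁)` -/
def eps0 (ρ : ℝ) : ℝ := √(beta J ρ / D1 J ρ)

/-! ### objects at a fixed `ρ` -/

section point

variable (ρ α : ℝ) (φ : ℕ → ℝ) (V : ℕ → ℝ → ℝ)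

/-- explicit part of `V_k` -/
def XX (k : ℕ) (r : ℝ) : ℝ :=
  match k with
  | 0 => (φ 1 / 43) ^ 2 * Q0 J ρ r + α * (φ 1 / 43) * A0 J ρ r
  | 1 => φ 1 * PP J ρ 42 r + α * J 42 (ρ * r)
  | 2 => φ 2 * PP J ρ 84 r + (φ 1 / 43) ^ 2 * Q2 J ρ r + α * (φ 1 / 43) * A2 J ρ r
  | k + 3 => φ (k + 3) * PP J ρ (42 * (k + 3)) r

/-- remainder part of `V_k` -/
def RR (k : ℕ) (r : ℝ) : ℝ :=
  match k with
  | 0 => V 0 r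
  | 1 => V 1 r
  | k + 2 => V (k + 2) r - XX ρ α φ (k + 2) 1 * r ^ (42 * (k + 2))

/-- `V_k` (`U_k = V_k + [k = 0] J_0(ρ r)`) -/
def VV (k : ℕ) (r : ℝ) : ℝ := XX ρ α φ k r + RR ρ α φ V k r

/-- `∑_{j ≥ 1} φ_j φ_{j+k} R^(2j+k)` -/
def qr (k : ℕ) (r : ℝ) : ℝ := ∑' j : ℕ, φ (j + 1) * φ (j + 1 + k) * r ^ (42 * (2 * (j + 1) + k))

/-- `∑_{j ≥ 2} φ_j² R^(2j)` -/
def qr2 (r : ℝ) : ℝ := ∑' j : ℕ, φ (j + 2) * φ (j + 2) * r ^ (42 * (2 * (j + 2)))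

/-- `q_k` -/
def qq (k : ℕ) (r : ℝ) : ℝ := (if k = 0 then 0 else φ k * r ^ (42 * k)) + qr φ k r

/-- the remainder source of mode `k` -/
def GG (k : ℕ) (r : ℝ) : ℝ :=
  match k with
  | 0 => qr2 φ r * J 0 (ρ * r) + qq φ 0 r * VV ρ α φ V 0 r + 2 * (φ 1 * r ^ 42 * V 1 r) +
      2 * (qr φ 1 r * VV ρ α φ V 1 r) + 2 * ∑' m : ℕ, qq φ (m + 2) r * VV ρ α φ V (m + 2) r
  | 1 => qr φ 1 r * J 0 (ρ * r) + qq φ 1 r * VV ρ α φ V 0 r + qq φ 0 r * VV ρ α φ V 1 r +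
      ∑' m : ℕ, (qq φ (m + 2) r * VV ρ α φ V (m + 1) r + qq φ (m + 1) r * VV ρ α φ V (m + 2) r)
  | 2 => qr φ 2 r * J 0 (ρ * r) + qq φ 2 r * VV ρ α φ V 0 r + φ 1 * r ^ 42 * V 1 r +
      qr φ 1 r * VV ρ α φ V 1 r + qq φ 0 r * VV ρ α φ V 2 r +
      ∑' m : ℕ, (qq φ (m + 3) r * VV ρ α φ V (m + 1) r + qq φ (m + 1) r * VV ρ α φ V (m + 3) r)
  | k + 3 => qr φ (k + 3) r * J 0 (ρ * r) + qq φ (k + 3) r * VV ρ α φ V 0 r +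
      (∑ i ∈ Finset.range (k + 2), qq φ (i + 1) r * VV ρ α φ V (k + 2 - i) r) +
      qq φ 0 r * VV ρ α φ V (k + 3) r +
      ∑' m : ℕ, (qq φ (k + m + 4) r * VV ρ α φ V (m + 1) r +
        qq φ (m + 1) r * VV ρ α φ V (k + m + 4) r)

/-- the source of `Z_k` (`k ≥ 2`): `G_k + W_k` -/
def SS (k : ℕ) (r : ℝ) : ℝ := GG ρ α φ V k r + RR ρ α φ V k r

/-- the new functions -/
def TV (k : ℕ) (r : ℝ) : ℝ :=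
  match k with
  | 0 => SV ρ (-1 / 4) (fun s => GG ρ α φ V 0 (cl s)) (fun s => V 0 (cl s)) r
  | 1 => SV ρ (42 ^ 2 - 1 / 4) (fun s => GG ρ α φ V 1 (cl s)) (fun s => V 1 (cl s)) r
  | k + 2 => ρ ^ 2 * Gr (42 * (k + 2)) (fun s => SS ρ α φ V (k + 2) (cl s)) r

/-- `v'(1)` -/
def dd0 : ℝ := SV' ρ (-1 / 4) (fun s => GG ρ α φ V 0 (cl s)) (fun s => V 0 (cl s)) 1

/-- `w'(1)` -/
def dd1 : ℝ := SV' ρ (42 ^ 2 - 1 / 4) (fun s => GG ρ α φ V 1 (cl s)) (fun s => V 1 (cl s)) 1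

/-- `e_2` -/
def ee2 : ℝ := (φ 1 / 43) ^ 2 * ρ ^ 3 * J 1 ρ / 8 - α * (φ 1 / 43) * ρ ^ 2 * J 42 ρ / 2

/-- the new scalars: `TA 0 = α`, `TA 1 = η`, `TA k = φ_k` -/
def TA (k : ℕ) : ℝ :=
  match k with
  | 0 => ((φ 1 / 86) * (ρ ^ 2 * J 0 ρ + 42 * ρ * J 1 ρ) - dd1 ρ α φ V) /
      (ρ * ((J 41 ρ - J 43 ρ) / 2))
  | 1 => -(φ 1 - eps0 ρ) ^ 2 / (2 * eps0 ρ) -
      (Da J ρ * α * φ 1 + dd0 ρ α φ V) / (2 * eps0 ρ * D1 J ρ)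
  | 2 => -(170 / J 0 ρ) *
      ((∫ s in (0:ℝ)..1, s ^ 85 * SS ρ α φ V 2 (cl s)) - ee2 ρ α φ / ρ ^ 2)
  | k + 3 => -(2 * ((42 * (k + 3) : ℕ) + 1 : ℝ) / J 0 ρ) *
      ∫ s in (0:ℝ)..1, s ^ (42 * (k + 3) + 1) * SS ρ α φ V (k + 3) (cl s)

end point

/-! ### the state -/

/-- raw states -/
structure St where
  A : ℕ → ℝ → ℝ
  V : ℕ → ℝ → ℝ → ℝ

/-- the sequence `φ` at `ρ` -/
def St.ph (x : St) (ρ : ℝ) (k : ℕ) : ℝ :=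
  match k with
  | 0 => 1
  | 1 => eps0 ρ + x.A 1 ρ
  | k + 2 => x.A (k + 2) ρ

/-- the map -/
def T (x : St) : St where
  A k ρ := TA (cρ ρ) (x.A 0 (cρ ρ)) (x.ph (cρ ρ)) (fun k => x.V k (cρ ρ)) k
  V k ρ r := TV (cρ ρ) (x.A 0 (cρ ρ)) (x.ph (cρ ρ)) (fun k => x.V k (cρ ρ)) k (cl r)

end

end SCHT
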