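import Pool.Agent.MP_83fd13_an.SCH.BesI
import Pool.Agent.MP_83fd13_an.SCH.TDef
import Pool.Agent.MP_83fd13_an.SCH.BesL2
import Pool.Agent.MP_83fd13_an.SCH.BesL4

/-!
# [SCH] constants of the scalar equations on `I = [54.178, 54.1833]` (helper42)
-/

set_option autoImplicit false

namespace SCHT

open MeasureTheory Set Filter Topology
open Pool.Agent.SCH SCHB SCHF SCHS

noncomputable section

set_option linter.unusedSectionVars false

variable {ρ : ℝ}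

section
variable (hρ : ρ ∈ Icc rho2 rho1)
include hρ

theorem I1 : 54.178 ≤ ρ := by have := hρ.1; unfold rho2 at this; norm_num at this ⊢; exact this
theorem I2 : ρ ≤ 54.1833 := by have := hρ.2; unfold rho1 at this; norm_num at this ⊢; exact this
theorem I1' : 54.177 ≤ ρ := by linarith [I1 hρ]
theorem I2' : ρ ≤ 54.1834 := by linarith [I2 hρ]
theorem I0 : 0 < ρ := by linarith [I1 hρ]

end

/-- `J_1` is decreasing on `I` -/
theorem J1_anti {x y : ℝ} (hx : 54.177 ≤ x) (hxy : x ≤ y) (hy : y ≤ 54.1834) : J 1 y ≤ J 1 x := by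
  have h := antitoneOn_of_deriv_nonpos (f := J 1) (convex_Icc (54.177 : ℝ) 54.1834)
    (fun z _ => (hasDerivAt_J 1 z).continuousAt.continuousWithinAt)
    (fun z _ => (hasDerivAt_J 1 z).differentiableAt.differentiableWithinAt)
    (fun z hz => by
      rw [interior_Icc] at hz
      rw [(hasDerivAt_J 1 z).deriv, show (1:ℕ) = 0 + 1 from rfl, Jd_succ]
      have a := J0_I hz.1.le hz.2.le
      have b := J2_I hz.1.le hz.2.le
      simp only [zero_add]
      linarith [a.2, b.1])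
  exact h ⟨hx, hxy.trans hy⟩ ⟨hx.trans hxy, hy⟩ hxy

/-- `J_42` is increasing on `I` -/
theorem J42_mono {x y : ℝ} (hx : 54.177 ≤ x) (hxy : x ≤ y) (hy : y ≤ 54.1834) :
    J 42 x ≤ J 42 y := by
  have h := monotoneOn_of_deriv_nonneg (f := J 42) (convex_Icc (54.177 : ℝ) 54.1834)
    (fun z _ => (hasDerivAt_J 42 z).continuousAt.continuousWithinAt)
    (fun z _ => (hasDerivAt_J 42 z).differentiableAt.differentiableWithinAt)
    (fun z hz => by
      rw [interior_Icc] at hz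
      rw [(hasDerivAt_J 42 z).deriv]
      have a := Jd42_I hz.1.le hz.2.le
      linarith [a.1])
  exact h ⟨hx, hxy.trans hy⟩ ⟨hx.trans hxy, hy⟩ hxy

section
variable (hρ : ρ ∈ Icc rho2 rho1)
include hρ

theorem J1_le : J 1 ρ ≤ 0.000818755 := by
  have h := J1_anti (x := 54178 / 1000) (y := ρ) (by norm_num) (by have := I1 hρ; norm_num at this ⊢; exact this)
    (I2' hρ)
  have e := P178.e1
  rw [abs_le] at e
  norm_num at e h ⊢
  linarith [e.2]

theorem J1_ge : 0.000244266 ≤ J 1 ρ := by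
  have h := J1_anti (x := ρ) (y := 541833 / 10000) (I1' hρ)
    (by have := I2 hρ; norm_num at this ⊢; exact this) (by norm_num)
  have e := P1833.e1
  rw [abs_le] at e
  norm_num at e h ⊢
  linarith [e.1]

theorem J42_ge : -0.000466937 ≤ J 42 ρ := by
  have h := J42_mono (x := 54178 / 1000) (y := ρ) (by norm_num) (by have := I1 hρ; norm_num at this ⊢; exact this)
    (I2' hρ)
  have e := P178.e42
  rw [abs_le] at e
  norm_num at e h ⊢
  linarith [e.1]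

theorem J42_le : J 42 ρ ≤ -0.00000978 := by
  have h := J42_mono (x := ρ) (y := 541833 / 10000) (I1' hρ)
    (by have := I2 hρ; norm_num at this ⊢; exact this) (by norm_num)
  have e := P1833.e42
  rw [abs_le] at e
  norm_num at e h ⊢
  linarith [e.2]

theorem rho_sq_ge : 2935.2556 ≤ ρ ^ 2 := by nlinarith [I1 hρ]
theorem rho_sq_le : ρ ^ 2 ≤ 2935.83 := by nlinarith [I2 hρ, I1 hρ]

theorem beta_ge : 0.01323 ≤ beta J ρ := by
  unfold beta
  nlinarith [I1 hρ, J1_ge hρ]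

theorem beta_le : beta J ρ ≤ 0.044363 := by
  unfold beta
  nlinarith [I1 hρ, I2 hρ, J1_le hρ, J1_ge hρ]

theorem D1_eq : D1 J ρ = ρ ^ 2 * -J 0 ρ / 86 + ρ ^ 2 * beta J ρ / 7396 := by
  unfold D1 beta
  ring

theorem D1_ge' : 3.6989 + 0.39687 * beta J ρ ≤ D1 J ρ := by
  rw [D1_eq hρ]
  have a := J0_I (I1' hρ) (I2' hρ)
  have b := beta_ge hρ
  have h1 := rho_sq_ge hρ
  have e1 : 2935.2556 * 0.108375 ≤ ρ ^ 2 * -J 0 ρ := by
    have : (0.108375 : ℝ) ≤ -J 0 ρ := by linarith [a.2]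
    nlinarith
  have e2 : 2935.2556 * beta J ρ ≤ ρ ^ 2 * beta J ρ := by nlinarith
  linarith

theorem D1_ge : 3.704 ≤ D1 J ρ := by
  have := D1_ge' hρ
  have := beta_ge hρ
  linarith

theorem D1_le : D1 J ρ ≤ 3.718 := by
  rw [D1_eq hρ]
  have a := J0_I (I1' hρ) (I2' hρ)
  have b := beta_ge hρ
  have b' := beta_le hρ
  have h1 := rho_sq_le hρ
  have h0 := rho_sq_ge hρ
  have e1 : ρ ^ 2 * -J 0 ρ ≤ 2935.83 * 0.108392 := by
    have : -J 0 ρ ≤ 0.108392 := by linarith [a.1]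
    have : 0 ≤ -J 0 ρ := by linarith [a.2]
    nlinarith
  have e2 : ρ ^ 2 * beta J ρ ≤ 2935.83 * 0.044363 := by nlinarith
  linarith

theorem D1_pos : 0 < D1 J ρ := by linarith [D1_ge hρ]

theorem beta_pos : 0 < beta J ρ := by linarith [beta_ge hρ]

theorem eps0_sq : eps0 ρ ^ 2 = beta J ρ / D1 J ρ := by
  unfold eps0
  exact Real.sq_sqrt (div_nonneg (beta_pos hρ).le (D1_pos hρ).le)

theorem u_le : eps0 ρ ^ 2 ≤ 0.01194 := by
  rw [eps0_sq hρ, div_le_iff₀ (D1_pos hρ)]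
  have := D1_ge' hρ
  have := beta_le hρ
  linarith

theorem u_ge : 0.00355 ≤ eps0 ρ ^ 2 := by
  rw [eps0_sq hρ, le_div_iff₀ (D1_pos hρ)]
  have := D1_le hρ
  have := beta_ge hρ
  linarith

theorem eps0_pos : 0 < eps0 ρ := by
  unfold eps0
  exact Real.sqrt_pos.2 (div_pos (beta_pos hρ) (D1_pos hρ))

theorem eps0_le : eps0 ρ ≤ 0.1093 := by
  have h := u_le hρ
  have h0 := eps0_pos hρ
  nlinarith

/-- `D1` as in `TA`, `eps0² D1 = β` -/
theorem eps0_sq_mul : eps0 ρ ^ 2 * D1 J ρ = beta J ρ := by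
  rw [eps0_sq hρ]
  have := (D1_pos hρ).ne'
  field_simp

/-! ### row `α` -/

theorem den_ge : 4.6725 ≤ ρ * ((J 41 ρ - J 43 ρ) / 2) := by
  have h := Jd42_I (I1' hρ) (I2' hρ)
  rw [show (42:ℕ) = 41 + 1 from rfl, Jd_succ] at h
  have h1 := I1 hρ
  have : (0.086245 : ℝ) ≤ (J 41 ρ - J 43 ρ) / 2 := h.1
  nlinarith

theorem den_le : ρ * ((J 41 ρ - J 43 ρ) / 2) ≤ 4.6743 := by
  have h := Jd42_I (I1' hρ) (I2' hρ)
  rw [show (42:ℕ) = 41 + 1 from rfl, Jd_succ] at h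
  have h1 := I1 hρ
  have h2 := I2 hρ
  have a : (0.086245 : ℝ) ≤ (J 41 ρ - J 43 ρ) / 2 := h.1
  have : (J 41 ρ - J 43 ρ) / 2 ≤ 0.086268 := h.2
  nlinarith

theorem den_pos : 0 < ρ * ((J 41 ρ - J 43 ρ) / 2) := by linarith [den_ge hρ]

/-- `C_α = (ρ² J_0 + 42 ρ J_1) / (86 ρ J_42')` -/
theorem Calpha : |(ρ ^ 2 * J 0 ρ + 42 * ρ * J 1 ρ) / (86 * (ρ * ((J 41 ρ - J 43 ρ) / 2))) + 0.7886| ≤
    0.002 := by
  have hd := den_pos hρ
  have h1 := den_ge hρ
  have h2 := den_le hρ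
  have a := J0_I (I1' hρ) (I2' hρ)
  have b := beta_ge hρ
  have b' := beta_le hρ
  have s1 := rho_sq_le hρ
  have s0 := rho_sq_ge hρ
  have e1 : ρ ^ 2 * -J 0 ρ ≤ 318.2205 := by
    have : -J 0 ρ ≤ 0.108392 := by linarith [a.1]
    have : 0 ≤ -J 0 ρ := by linarith [a.2]
    nlinarith
  have e2 : 318.1083 ≤ ρ ^ 2 * -J 0 ρ := by
    have : (0.108375 : ℝ) ≤ -J 0 ρ := by linarith [a.2]
    nlinarith
  have e3 : ρ ^ 2 * J 0 ρ + 42 * ρ * J 1 ρ = -(ρ ^ 2 * -J 0 ρ) + 42 * beta J ρ := by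
    unfold beta; ring
  rw [e3]
  set N := -(ρ ^ 2 * -J 0 ρ) + 42 * beta J ρ with hN
  set D := ρ * ((J 41 ρ - J 43 ρ) / 2) with hD
  have n1 : -317.665 ≤ N := by linarith
  have n2 : N ≤ -316.245 := by linarith
  have e4 : N / (86 * D) + 0.7886 = (N + 0.7886 * (86 * D)) / (86 * D) := by
    field_simp
  rw [e4, abs_div, abs_of_pos (by positivity : 0 < 86 * D), div_le_iff₀ (by positivity), abs_le]
  constructor <;> linarith

/-! ### row `η` -/

theorem Da_bd : |Da J ρ / (2 * D1 J ρ)| ≤ 0.00431 := by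
  have h0 := J42_ge hρ
  have h1 := J42_le hρ
  have hD := D1_ge hρ
  have s1 := rho_sq_le hρ
  have s0 := rho_sq_ge hρ
  have e : Da J ρ = ρ ^ 2 * -J 42 ρ / 43 := by unfold Da; ring
  have e1 : 0 ≤ ρ ^ 2 * -J 42 ρ := by nlinarith
  have e2 : ρ ^ 2 * -J 42 ρ ≤ 2935.83 * 0.000466937 := by nlinarith
  rw [e, abs_of_nonneg (by positivity), div_le_iff₀ (by positivity)]
  linarith

theorem inv2D1 : |1 / (2 * D1 J ρ)| ≤ 0.135 := by
  have hD := D1_ge hρ
  rw [abs_of_nonneg (by positivity), div_le_iff₀ (by positivity)]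
  linarith

/-! ### rows `k ≥ 2` -/

theorem J0_neg : J 0 ρ < 0 := by
  have a := J0_I (I1' hρ) (I2' hρ)
  linarith [a.2]

theorem J0_inv : |2 / J 0 ρ| ≤ 18.4545 := by
  have a := J0_I (I1' hρ) (I2' hρ)
  rw [abs_div, abs_two, abs_of_neg (J0_neg hρ), div_le_iff₀ (by linarith [a.2])]
  linarith [a.2]

theorem J0_inv170 : |170 / J 0 ρ| ≤ 1568.64 := by
  have a := J0_I (I1' hρ) (I2' hρ)
  rw [abs_div, abs_of_neg (J0_neg hρ), abs_of_pos (by norm_num : (0:ℝ) < 170),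
    div_le_iff₀ (by linarith [a.2])]
  linarith [a.2]

/-- `e_2/ρ²` in terms of `f 1`, `a` -/
theorem hee2_eq (a : ℝ) (f : ℕ → ℝ) (hρ0 : ρ ≠ 0) : (f 1 / 43) ^ 2 * ρ ^ 3 * J 1 ρ / 8 / ρ ^ 2 -
    a * (f 1 / 43) * ρ ^ 2 * J 42 ρ / 2 / ρ ^ 2 =
    f 1 ^ 2 * (beta J ρ / 14792) + a * f 1 * (-J 42 ρ / 86) := by
  unfold beta
  field_simp
  ring

theorem beta_c : |beta J ρ / 14792| ≤ 0.0000029992 := by
  have b := beta_ge hρ
  have b' := beta_le hρ
  rw [abs_of_nonneg (by positivity)]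
  linarith

theorem J42_c : |-J 42 ρ / 86| ≤ 0.0000054296 := by
  have h0 := J42_ge hρ
  have h1 := J42_le hρ
  rw [abs_of_nonneg (by linarith)]
  linarith

end

end

end SCHT
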