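import Pool.Agent.MP_83fd13_an.SCH.TDef

/-!
# [SCH] the T-map in hat variables at a fixed `ρ` (helper42)

`t = ε₀(ρ)`, `u = t²`; `a = α/t`, `f k = φ_k/t^k` (`f 0 = 1`, `f 1 = 1 + η/t`), `U 0 = v/t⁴`,
`U 1 = w/t³`, `U k = Z_k/t^k` (`k ≥ 2`).
-/

set_option autoImplicit false

namespace SCHT

open MeasureTheory Set Filter Topology
open Pool.Agent.SCH SCHB SCHF SCHS

noncomputable section

section hat

variable (ρ u a : ℝ) (f : ℕ → ℝ) (U : ℕ → ℝ → ℝ)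

/-- explicit part: `X_0 = t² hX 0`, `X_k = t^k hX k` -/
def hX (k : ℕ) (r : ℝ) : ℝ :=
  match k with
  | 0 => (f 1 / 43) ^ 2 * Q0 J ρ r + a * (f 1 / 43) * A0 J ρ r
  | 1 => f 1 * PP J ρ 42 r + a * J 42 (ρ * r)
  | 2 => f 2 * PP J ρ 84 r + (f 1 / 43) ^ 2 * Q2 J ρ r + a * (f 1 / 43) * A2 J ρ r
  | k + 3 => f (k + 3) * PP J ρ (42 * (k + 3)) r

/-- remainder part -/
def hR (k : ℕ) (r : ℝ) : ℝ :=
  match k with
  | 0 => u * U 0 r
  | 1 => u * U 1 r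
  | k + 2 => U (k + 2) r - hX ρ a f (k + 2) 1 * r ^ (42 * (k + 2))

/-- `V_0 = t² hV 0`, `V_k = t^k hV k` -/
def hV (k : ℕ) (r : ℝ) : ℝ := hX ρ a f k r + hR ρ u a f U k r

/-- `qr k = t^(k+2) hqr k` -/
def hqr (k : ℕ) (r : ℝ) : ℝ :=
  ∑' j : ℕ, f (j + 1) * f (j + 1 + k) * u ^ j * r ^ (42 * (2 * (j + 1) + k))

/-- `qr2 = t⁴ hqr2` -/
def hqr2 (r : ℝ) : ℝ := ∑' j : ℕ, f (j + 2) * f (j + 2) * u ^ j * r ^ (42 * (2 * (j + 2)))

/-- `qq 0 = t² hq 0`, `qq k = t^k hq k` -/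
def hq (k : ℕ) (r : ℝ) : ℝ :=
  match k with
  | 0 => hqr u f 0 r
  | k + 1 => f (k + 1) * r ^ (42 * (k + 1)) + u * hqr u f (k + 1) r

/-- remainder sources: `GG 0 = t⁴ hG 0`, `GG 1 = t³ hG 1`, `GG 2 = t⁴ hG 2`, `GG k = t^k hG k` -/
def hG (k : ℕ) (r : ℝ) : ℝ :=
  match k with
  | 0 => hqr2 u f r * J 0 (ρ * r) + hqr u f 0 r * hV ρ u a f U 0 r + 2 * (f 1 * r ^ 42 * U 1 r) +
      2 * (hqr u f 1 r * hV ρ u a f U 1 r) +
      2 * ∑' m : ℕ, u ^ m * (hq u f (m + 2) r * hV ρ u a f U (m + 2) r)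
  | 1 => hqr u f 1 r * J 0 (ρ * r) + hq u f 1 r * hV ρ u a f U 0 r +
      hqr u f 0 r * hV ρ u a f U 1 r +
      ∑' m : ℕ, u ^ m * (hq u f (m + 2) r * hV ρ u a f U (m + 1) r +
        hq u f (m + 1) r * hV ρ u a f U (m + 2) r)
  | 2 => hqr u f 2 r * J 0 (ρ * r) + hq u f 2 r * hV ρ u a f U 0 r + f 1 * r ^ 42 * U 1 r +
      hqr u f 1 r * hV ρ u a f U 1 r + hqr u f 0 r * hV ρ u a f U 2 r +
      ∑' m : ℕ, u ^ m * (hq u f (m + 3) r * hV ρ u a f U (m + 1) r +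
        hq u f (m + 1) r * hV ρ u a f U (m + 3) r)
  | k + 3 => u * (hqr u f (k + 3) r * J 0 (ρ * r)) + u * (hq u f (k + 3) r * hV ρ u a f U 0 r) +
      (∑ i ∈ Finset.range (k + 2), hq u f (i + 1) r * hV ρ u a f U (k + 2 - i) r) +
      u * (hqr u f 0 r * hV ρ u a f U (k + 3) r) +
      ∑' m : ℕ, u ^ (m + 1) * (hq u f (k + m + 4) r * hV ρ u a f U (m + 1) r +
        hq u f (m + 1) r * hV ρ u a f U (k + m + 4) r)

/-- source of `Z_k / t^k`, `k ≥ 2` -/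
def hS (k : ℕ) (r : ℝ) : ℝ :=
  match k with
  | 0 => 0
  | 1 => 0
  | 2 => u * hG ρ u a f U 2 r + hR ρ u a f U 2 r
  | k + 3 => hG ρ u a f U (k + 3) r + hR ρ u a f U (k + 3) r

/-- the new functions -/
def hTV (k : ℕ) (r : ℝ) : ℝ :=
  match k with
  | 0 => SV ρ (-1 / 4) (fun s => hG ρ u a f U 0 (cl s)) (fun s => U 0 (cl s)) r
  | 1 => SV ρ (42 ^ 2 - 1 / 4) (fun s => hG ρ u a f U 1 (cl s)) (fun s => U 1 (cl s)) r
  | k + 2 => ρ ^ 2 * Gr (42 * (k + 2)) (fun s => hS ρ u a f U (k + 2) (cl s)) r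

/-- `v'(1) / t⁴` -/
def hd0 : ℝ := SV' ρ (-1 / 4) (fun s => hG ρ u a f U 0 (cl s)) (fun s => U 0 (cl s)) 1

/-- `w'(1) / t³` -/
def hd1 : ℝ := SV' ρ (42 ^ 2 - 1 / 4) (fun s => hG ρ u a f U 1 (cl s)) (fun s => U 1 (cl s)) 1

/-- `e_2 / t²` -/
def hee2 : ℝ := (f 1 / 43) ^ 2 * ρ ^ 3 * J 1 ρ / 8 - a * (f 1 / 43) * ρ ^ 2 * J 42 ρ / 2

/-- the new scalars: `hTA 0 = α/t`, `hTA 1 = η/t`, `hTA k = φ_k/t^k` -/
def hTA (k : ℕ) : ℝ :=
  match k with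
  | 0 => ((f 1 / 86) * (ρ ^ 2 * J 0 ρ + 42 * ρ * J 1 ρ) - u * hd1 ρ u a f U) /
      (ρ * ((J 41 ρ - J 43 ρ) / 2))
  | 1 => -(f 1 - 1) ^ 2 / 2 - (Da J ρ * a * f 1 + u * hd0 ρ u a f U) / (2 * D1 J ρ)
  | 2 => -(170 / J 0 ρ) *
      ((∫ s in (0:ℝ)..1, s ^ 85 * hS ρ u a f U 2 (cl s)) - hee2 ρ a f / ρ ^ 2)
  | k + 3 => -(2 * ((42 * (k + 3) : ℕ) + 1 : ℝ) / J 0 ρ) *
      ∫ s in (0:ℝ)..1, s ^ (42 * (k + 3) + 1) * hS ρ u a f U (k + 3) (cl s)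

end hat

/-! ### the bridge -/

/-- unscaled `φ` -/
def uph (t : ℝ) (f : ℕ → ℝ) (k : ℕ) : ℝ := t ^ k * f k

/-- exponents of the functions -/
def pV (k : ℕ) : ℕ :=
  match k with
  | 0 => 4
  | 1 => 3
  | k + 2 => k + 2

/-- exponents of `V_k` -/
def pX (k : ℕ) : ℕ :=
  match k with
  | 0 => 2
  | k + 1 => k + 1

/-- unscaled functions -/
def uV (t : ℝ) (U : ℕ → ℝ → ℝ) (k : ℕ) (r : ℝ) : ℝ := t ^ pV k * U k r

variable {ρ t a : ℝ} {f : ℕ → ℝ} {U : ℕ → ℝ → ℝ}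

theorem XX_hat (k : ℕ) (r : ℝ) : XX ρ (t * a) (uph t f) k r = t ^ pX k * hX ρ a f k r := by
  match k with
  | 0 => simp only [XX, hX, uph, pX]; ring
  | 1 => simp only [XX, hX, uph, pX]; ring
  | 2 => simp only [XX, hX, uph, pX]; ring
  | k + 3 => simp only [XX, hX, uph, pX]; ring

theorem RR_hat (k : ℕ) (r : ℝ) :
    RR ρ (t * a) (uph t f) (uV t U) k r = t ^ pX k * hR ρ (t ^ 2) a f U k r := by
  match k with
  | 0 => simp only [RR, hR, uV, pX, pV]; ring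
  | 1 => simp only [RR, hR, uV, pX, pV]; ring
  | k + 2 =>
    simp only [RR, hR, uV, pV, XX_hat, pX]
    ring

theorem VV_hat (k : ℕ) (r : ℝ) :
    VV ρ (t * a) (uph t f) (uV t U) k r = t ^ pX k * hV ρ (t ^ 2) a f U k r := by
  unfold VV hV
  rw [XX_hat, RR_hat]
  ring

theorem qr_hat (k : ℕ) (r : ℝ) : qr (uph t f) k r = t ^ (k + 2) * hqr (t ^ 2) f k r := by
  unfold qr hqr uph
  rw [← tsum_mul_left]
  refine tsum_congr fun j => ?_
  ring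

theorem qr2_hat (r : ℝ) : qr2 (uph t f) r = t ^ 4 * hqr2 (t ^ 2) f r := by
  unfold qr2 hqr2 uph
  rw [← tsum_mul_left]
  refine tsum_congr fun j => ?_
  ring

theorem qq_hat (k : ℕ) (r : ℝ) : qq (uph t f) k r = t ^ pX k * hq (t ^ 2) f k r := by
  match k with
  | 0 =>
    unfold qq hq
    rw [qr_hat]
    simp [pX]
  | k + 1 =>
    unfold qq hq
    rw [qr_hat, if_neg (Nat.succ_ne_zero k)]
    unfold uph pX
    ring

theorem GG_hat (k : ℕ) (r : ℝ) : GG ρ (t * a) (uph t f) (uV t U) k r =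
    t ^ (match k with | 0 => 4 | 1 => 3 | 2 => 4 | k + 3 => k + 3) * hG ρ (t ^ 2) a f U k r := by
  match k with
  | 0 =>
    unfold GG hG
    simp only [VV_hat, qq_hat, qr_hat, qr2_hat, hq]
    have e : (∑' m : ℕ, t ^ pX (m + 2) * (f (m + 1 + 1) * r ^ (42 * (m + 1 + 1)) + t ^ 2 *
        hqr (t ^ 2) f (m + 1 + 1) r) * (t ^ pX (m + 2) * hV ρ (t ^ 2) a f U (m + 2) r)) =
        t ^ 4 * ∑' m : ℕ, (t ^ 2) ^ m * ((f (m + 1 + 1) * r ^ (42 * (m + 1 + 1)) + t ^ 2 *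
        hqr (t ^ 2) f (m + 1 + 1) r) * hV ρ (t ^ 2) a f U (m + 2) r) := by
      rw [← tsum_mul_left]
      refine tsum_congr fun m => ?_
      unfold pX
      ring
    rw [e]
    simp only [uph, uV, pX, pV]
    ring
  | 1 =>
    unfold GG hG
    simp only [VV_hat, qq_hat, qr_hat]
    have e : (∑' m : ℕ, (t ^ pX (m + 2) * hq (t ^ 2) f (m + 2) r *
        (t ^ pX (m + 1) * hV ρ (t ^ 2) a f U (m + 1) r) +
        t ^ pX (m + 1) * hq (t ^ 2) f (m + 1) r *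
        (t ^ pX (m + 2) * hV ρ (t ^ 2) a f U (m + 2) r))) =
        t ^ 3 * ∑' m : ℕ, (t ^ 2) ^ m * (hq (t ^ 2) f (m + 2) r * hV ρ (t ^ 2) a f U (m + 1) r +
        hq (t ^ 2) f (m + 1) r * hV ρ (t ^ 2) a f U (m + 2) r) := by
      rw [← tsum_mul_left]
      refine tsum_congr fun m => ?_
      unfold pX
      ring
    rw [e]
    simp only [pX, hq]
    ring
  | 2 =>
    unfold GG hG
    simp only [VV_hat, qq_hat, qr_hat]
    have e : (∑' m : ℕ, (t ^ pX (m + 3) * hq (t ^ 2) f (m + 3) r *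
        (t ^ pX (m + 1) * hV ρ (t ^ 2) a f U (m + 1) r) +
        t ^ pX (m + 1) * hq (t ^ 2) f (m + 1) r *
        (t ^ pX (m + 3) * hV ρ (t ^ 2) a f U (m + 3) r))) =
        t ^ 4 * ∑' m : ℕ, (t ^ 2) ^ m * (hq (t ^ 2) f (m + 3) r * hV ρ (t ^ 2) a f U (m + 1) r +
        hq (t ^ 2) f (m + 1) r * hV ρ (t ^ 2) a f U (m + 3) r) := by
      rw [← tsum_mul_left]
      refine tsum_congr fun m => ?_
      unfold pX
      ring
    rw [e]
    simp only [pX, hq, uph, uV, pV]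
    ring
  | k + 3 =>
    unfold GG hG
    simp only [VV_hat, qq_hat, qr_hat]
    have e : (∑' m : ℕ, (t ^ pX (k + m + 4) * hq (t ^ 2) f (k + m + 4) r *
        (t ^ pX (m + 1) * hV ρ (t ^ 2) a f U (m + 1) r) +
        t ^ pX (m + 1) * hq (t ^ 2) f (m + 1) r *
        (t ^ pX (k + m + 4) * hV ρ (t ^ 2) a f U (k + m + 4) r))) =
        t ^ (k + 3) * ∑' m : ℕ, (t ^ 2) ^ (m + 1) *
        (hq (t ^ 2) f (k + m + 4) r * hV ρ (t ^ 2) a f U (m + 1) r +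
        hq (t ^ 2) f (m + 1) r * hV ρ (t ^ 2) a f U (k + m + 4) r) := by
      rw [← tsum_mul_left]
      refine tsum_congr fun m => ?_
      unfold pX
      ring
    have e2 : (∑ i ∈ Finset.range (k + 2), t ^ pX (i + 1) * hq (t ^ 2) f (i + 1) r *
        (t ^ pX (k + 2 - i) * hV ρ (t ^ 2) a f U (k + 2 - i) r)) =
        t ^ (k + 3) * ∑ i ∈ Finset.range (k + 2), hq (t ^ 2) f (i + 1) r *
          hV ρ (t ^ 2) a f U (k + 2 - i) r := by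
      rw [Finset.mul_sum]
      refine Finset.sum_congr rfl fun i hi => ?_
      obtain ⟨j, hj⟩ : ∃ j, k + 2 - i = j + 1 :=
        ⟨k + 2 - i - 1, by have := Finset.mem_range.1 hi; omega⟩
      have hk : k + 3 = (i + 1) + (j + 1) := by have := Finset.mem_range.1 hi; omega
      rw [hj, hk]
      simp only [pX]
      ring
    rw [e, e2]
    simp only [pX, hq]
    ring

theorem SS_hat (k : ℕ) (r : ℝ) : SS ρ (t * a) (uph t f) (uV t U) (k + 2) r =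
    t ^ (k + 2) * hS ρ (t ^ 2) a f U (k + 2) r := by
  unfold SS
  rw [GG_hat, RR_hat]
  match k with
  | 0 => simp only [hS, pX]; ring
  | k + 1 => simp only [hS, pX]; ring

theorem src_smul (c : ℝ) (g v : ℝ → ℝ) (s t : ℝ) :
    src ρ c (fun x => t * g x) (fun x => t * v x) s = t * src ρ c g v s := by
  unfold src
  ring

theorem Ys_smul (g : ℝ → ℝ) (t r : ℝ) : Ys ρ (fun x => t * g x) r = t * Ys ρ g r := by
  unfold Ys
  rw [← intervalIntegral.integral_const_mul]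
  refine intervalIntegral.integral_congr fun s _ => ?_
  simp only
  ring

theorem Yc_smul (g : ℝ → ℝ) (t r : ℝ) : Yc ρ (fun x => t * g x) r = t * Yc ρ g r := by
  unfold Yc
  rw [← intervalIntegral.integral_const_mul]
  refine intervalIntegral.integral_congr fun s _ => ?_
  simp only
  ring

theorem SV_smul (c : ℝ) (g v : ℝ → ℝ) (t r : ℝ) :
    SV ρ c (fun x => t * g x) (fun x => t * v x) r = t * SV ρ c g v r := by
  unfold SV
  rw [show src ρ c (fun x => t * g x) (fun x => t * v x) = fun x => t * src ρ c g v x from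
    funext fun s => src_smul c g v s t, Ys_smul]
  ring

theorem SV'_smul (c : ℝ) (g v : ℝ → ℝ) (t r : ℝ) :
    SV' ρ c (fun x => t * g x) (fun x => t * v x) r = t * SV' ρ c g v r := by
  unfold SV'
  rw [show src ρ c (fun x => t * g x) (fun x => t * v x) = fun x => t * src ρ c g v x from
    funext fun s => src_smul c g v s t, Ys_smul, Yc_smul]
  ring

theorem Gr_smul (n : ℕ) (g : ℝ → ℝ) (t r : ℝ) : Gr n (fun x => t * g x) r = t * Gr n g r := by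
  unfold Gr
  have e1 : ∀ (x y : ℝ) (h : ℝ → ℝ), (∫ s in x..y, h s * (t * g s)) = t * ∫ s in x..y, h s * g s := by
    intro x y h
    rw [← intervalIntegral.integral_const_mul]
    refine intervalIntegral.integral_congr fun s _ => ?_
    ring
  rw [e1 0 r fun s => s ^ (n + 1), e1 r 1 fun s => s * (s ^ n)⁻¹, e1 0 1 fun s => s ^ (n + 1)]
  ring

theorem TV_hat (k : ℕ) (r : ℝ) : TV ρ (t * a) (uph t f) (uV t U) k r =
    t ^ pV k * hTV ρ (t ^ 2) a f U k r := by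
  match k with
  | 0 =>
    unfold TV hTV
    simp only [GG_hat, uV, pV]
    exact SV_smul _ (fun s => hG ρ (t ^ 2) a f U 0 (cl s)) (fun s => U 0 (cl s)) _ _
  | 1 =>
    unfold TV hTV
    simp only [GG_hat, uV, pV]
    exact SV_smul _ (fun s => hG ρ (t ^ 2) a f U 1 (cl s)) (fun s => U 1 (cl s)) _ _
  | k + 2 =>
    unfold TV hTV
    simp only [SS_hat, pV]
    rw [Gr_smul (42 * (k + 2)) (fun s => hS ρ (t ^ 2) a f U (k + 2) (cl s))]
    ring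

theorem dd0_hat : dd0 ρ (t * a) (uph t f) (uV t U) = t ^ 4 * hd0 ρ (t ^ 2) a f U := by
  unfold dd0 hd0
  simp only [GG_hat, uV, pV]
  exact SV'_smul _ (fun s => hG ρ (t ^ 2) a f U 0 (cl s)) (fun s => U 0 (cl s)) _ _

theorem dd1_hat : dd1 ρ (t * a) (uph t f) (uV t U) = t ^ 3 * hd1 ρ (t ^ 2) a f U := by
  unfold dd1 hd1
  simp only [GG_hat, uV, pV]
  exact SV'_smul _ (fun s => hG ρ (t ^ 2) a f U 1 (cl s)) (fun s => U 1 (cl s)) _ _

theorem ee2_hat : ee2 ρ (t * a) (uph t f) = t ^ 2 * hee2 ρ a f := by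
  unfold ee2 hee2 uph
  ring

theorem int_hat (n : ℕ) (g : ℝ → ℝ) (t : ℝ) :
    (∫ s in (0:ℝ)..1, s ^ n * (t * g s)) = t * ∫ s in (0:ℝ)..1, s ^ n * g s := by
  rw [← intervalIntegral.integral_const_mul]
  refine intervalIntegral.integral_congr fun s _ => ?_
  ring

/-- exponents of the scalars -/
def pA (k : ℕ) : ℕ :=
  match k with
  | 0 => 1
  | 1 => 1
  | k + 2 => k + 2

theorem TA_hat (ht : t ≠ 0) (he : eps0 ρ = t) (k : ℕ) : TA ρ (t * a) (uph t f) (uV t U) k =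
    t ^ pA k * hTA ρ (t ^ 2) a f U k := by
  match k with
  | 0 =>
    unfold TA hTA
    rw [dd1_hat]
    simp only [uph, pA]
    ring
  | 1 =>
    unfold TA hTA
    rw [dd0_hat, he]
    simp only [uph, pA]
    rcases eq_or_ne (D1 J ρ) 0 with hD | hD
    · rw [hD]
      simp only [mul_zero, div_zero, sub_zero]
      field_simp
    · field_simp
  | 2 =>
    unfold TA hTA
    rw [ee2_hat]
    simp only [SS_hat]
    rw [int_hat 85 (fun s => hS ρ (t ^ 2) a f U (0 + 2) (cl s))]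
    simp only [pA]
    ring
  | k + 3 =>
    unfold TA hTA
    have e : ∀ s, SS ρ (t * a) (uph t f) (uV t U) (k + 3) (cl s) =
      t ^ (k + 3) * hS ρ (t ^ 2) a f U (k + 3) (cl s) := fun s => SS_hat (k + 1) (cl s)
    simp only [e]
    rw [int_hat (42 * (k + 3) + 1) (fun s => hS ρ (t ^ 2) a f U (k + 3) (cl s))]
    simp only [pA]
    ring

/-! ### states -/

namespace St

variable (x : St)

/-- hat scalars -/
def ha (ρ : ℝ) : ℝ := x.A 0 ρ / eps0 ρ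

def hf (ρ : ℝ) (k : ℕ) : ℝ := x.ph ρ k / eps0 ρ ^ k

def hU (ρ : ℝ) (k : ℕ) (r : ℝ) : ℝ := x.V k ρ r / eps0 ρ ^ pV k

variable {x}

theorem A0_eq (h : eps0 ρ ≠ 0) : x.A 0 ρ = eps0 ρ * x.ha ρ := by
  unfold ha; field_simp

theorem ph_eq (h : eps0 ρ ≠ 0) : x.ph ρ = uph (eps0 ρ) (x.hf ρ) := by
  funext k
  unfold uph hf
  have : eps0 ρ ^ k ≠ 0 := pow_ne_zero _ h
  field_simp

theorem V_eq (h : eps0 ρ ≠ 0) : (fun k => x.V k ρ) = uV (eps0 ρ) (x.hU ρ) := by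
  funext k r
  unfold uV hU
  have : eps0 ρ ^ pV k ≠ 0 := pow_ne_zero _ h
  field_simp

theorem hf_zero (ρ : ℝ) : x.hf ρ 0 = 1 := by simp [hf, ph]

theorem hf_one (h : eps0 ρ ≠ 0) : x.hf ρ 1 = 1 + x.A 1 ρ / eps0 ρ := by
  unfold hf ph
  field_simp

end St

theorem cρ_eq {ρ : ℝ} (hρ : ρ ∈ Icc rho2 rho1) : cρ ρ = ρ := by
  unfold cρ
  rw [min_eq_left hρ.2, max_eq_right hρ.1]

theorem cl_eq {r : ℝ} (hr : r ∈ Icc (0:ℝ) 1) : cl r = r := by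
  unfold cl
  rw [min_eq_left hr.2, max_eq_right hr.1]

theorem cρ_mem (ρ : ℝ) : cρ ρ ∈ Icc rho2 rho1 := by
  unfold cρ
  refine ⟨le_max_left _ _, max_le (by norm_num [rho1, rho2]) (min_le_right _ _)⟩

theorem cl_mem (r : ℝ) : cl r ∈ Icc (0:ℝ) 1 := by
  unfold cl
  exact ⟨le_max_left _ _, max_le zero_le_one (min_le_right _ _)⟩

section T

variable {x : St}

/-- the value of `T x` in hat variables -/
theorem T_V_hat (h : eps0 (cρ ρ) ≠ 0) (k : ℕ) (r : ℝ) : (T x).V k ρ r =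
    eps0 (cρ ρ) ^ pV k * hTV (cρ ρ) (eps0 (cρ ρ) ^ 2) (x.ha (cρ ρ)) (x.hf (cρ ρ)) (x.hU (cρ ρ)) k
      (cl r) := by
  show TV (cρ ρ) (x.A 0 (cρ ρ)) (x.ph (cρ ρ)) (fun k => x.V k (cρ ρ)) k (cl r) = _
  rw [St.A0_eq h, St.ph_eq h, St.V_eq h, TV_hat]

theorem T_A_hat (h : eps0 (cρ ρ) ≠ 0) (k : ℕ) : (T x).A k ρ =
    eps0 (cρ ρ) ^ pA k * hTA (cρ ρ) (eps0 (cρ ρ) ^ 2) (x.ha (cρ ρ)) (x.hf (cρ ρ)) (x.hU (cρ ρ)) k := by
  show TA (cρ ρ) (x.A 0 (cρ ρ)) (x.ph (cρ ρ)) (fun k => x.V k (cρ ρ)) k = _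
  rw [St.A0_eq h, St.ph_eq h, St.V_eq h, TA_hat h rfl]

end T

end

end SCHT
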