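import Pool.Agent.MP_83fd13_an.SCH.RegB
import Pool.Agent.MP_83fd13_an.SCH.TBes
import Pool.Agent.MP_83fd13_an.SCH.THat

/-!
# [SCH] continuity of the hat sources at a fixed `ρ` (helper42)
-/

set_option autoImplicit false

namespace SCHT

open MeasureTheory Set Filter Topology
open Pool.Agent.SCH SCHB SCHF SCHS

noncomputable section

/-- crude regularity of a hat state -/
structure HSt (C a : ℝ) (f : ℕ → ℝ) (U : ℕ → ℝ → ℝ) : Prop where
  hC : 1 ≤ C
  ab : |a| ≤ C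
  fb : ∀ k, |f k| ≤ C * 2 ^ k
  Ub : ∀ k, ∀ r ∈ Icc (0:ℝ) 1, |U k r| ≤ C * 2 ^ k * r ^ wt k
  Uc : ∀ k, Continuous fun r => U k (cl r)

section congr

variable {ρ α : ℝ} {φ : ℕ → ℝ} {V V' : ℕ → ℝ → ℝ} {r : ℝ}

theorem RR_congr (h : ∀ k, V k r = V' k r) (k : ℕ) : RR ρ α φ V k r = RR ρ α φ V' k r := by
  match k with
  | 0 => simp only [RR, h]
  | 1 => simp only [RR, h]
  | k + 2 => simp only [RR, h]

theorem VV_congr (h : ∀ k, V k r = V' k r) (k : ℕ) : VV ρ α φ V k r = VV ρ α φ V' k r := by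
  unfold VV
  rw [RR_congr h]

theorem GG_congr (h : ∀ k, V k r = V' k r) (k : ℕ) : GG ρ α φ V k r = GG ρ α φ V' k r := by
  match k with
  | 0 => simp only [GG, h, VV_congr h]
  | 1 => simp only [GG, VV_congr h]
  | 2 => simp only [GG, h, VV_congr h]
  | k + 3 => simp only [GG, VV_congr h]

theorem SS_congr (h : ∀ k, V k r = V' k r) (k : ℕ) : SS ρ α φ V k r = SS ρ α φ V' k r := by
  unfold SS
  rw [RR_congr h, GG_congr h]

end congr

variable {ρ C a : ℝ} {f : ℕ → ℝ} {U : ℕ → ℝ → ℝ}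

theorem HSt.dat (H : HSt C a f U) (hρ : ρ ∈ Icc rho2 rho1) :
    Dat C (2 * eps0 ρ) (fun _ => ρ) (fun _ => eps0 ρ * a) (fun _ => uph (eps0 ρ) f)
      (fun _ k r => uV (eps0 ρ) U k (cl r)) := by
  have t0 := eps0_pos hρ
  have t1 := eps0_le hρ
  have t2 : eps0 ρ ≤ 1 := by linarith
  have hC0 : 0 ≤ C := zero_le_one.trans H.hC
  refine ⟨H.hC, by linarith, by linarith, continuous_const, fun _ => I0 hρ,
    fun _ => by linarith [I2 hρ], continuous_const, fun _ => ?_, fun _ => continuous_const,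
    fun _ k => ?_, fun k => ?_, fun _ k s hs hs1 => ?_⟩
  · rw [abs_mul, abs_of_pos t0]
    calc eps0 ρ * |a| ≤ 1 * C := mul_le_mul t2 H.ab (abs_nonneg _) zero_le_one
      _ = C := one_mul _
  · unfold uph
    rw [abs_mul, abs_of_pos (pow_pos t0 _), mul_pow]
    calc eps0 ρ ^ k * |f k| ≤ eps0 ρ ^ k * (C * 2 ^ k) :=
          mul_le_mul_of_nonneg_left (H.fb k) (pow_pos t0 _).le
      _ = _ := by ring
  · unfold uV
    exact continuous_const.mul ((H.Uc k).comp continuous_snd)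
  · have hcl : cl s = s := cl_eq ⟨hs, hs1⟩
    simp only [hcl]
    unfold uV
    rw [abs_mul, abs_of_pos (pow_pos t0 _), mul_pow]
    have hp : eps0 ρ ^ pV k ≤ eps0 ρ ^ k := by
      refine pow_le_pow_of_le_one t0.le t2 ?_
      match k with
      | 0 => exact Nat.zero_le _
      | 1 => decide
      | k + 2 => exact le_rfl
    have h2 : (0:ℝ) ≤ C * 2 ^ k * s ^ wt k := by positivity
    calc eps0 ρ ^ pV k * |U k s| ≤ eps0 ρ ^ k * (C * 2 ^ k * s ^ wt k) :=
          mul_le_mul hp (H.Ub k s ⟨hs, hs1⟩) (abs_nonneg _) (pow_pos t0 _).le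
      _ = _ := by ring

theorem HSt.cGG (H : HSt C a f U) (hρ : ρ ∈ Icc rho2 rho1) (k : ℕ) :
    Continuous fun s => GG ρ (eps0 ρ * a) (uph (eps0 ρ) f) (uV (eps0 ρ) U) k (cl s) := by
  have h := ((H.dat hρ).gGG k).1
  have h2 := h.comp (continuous_const.prodMk continuous_id : Continuous fun s : ℝ => ((0:ℝ), s))
  refine h2.congr fun s => ?_
  exact GG_congr (fun k => by simp only [cl_cl]) k

theorem HSt.cSS (H : HSt C a f U) (hρ : ρ ∈ Icc rho2 rho1) (k : ℕ) :
    Continuous fun s => SS ρ (eps0 ρ * a) (uph (eps0 ρ) f) (uV (eps0 ρ) U) k (cl s) := by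
  have h := ((H.dat hρ).gSS k).1
  have h2 := h.comp (continuous_const.prodMk continuous_id : Continuous fun s : ℝ => ((0:ℝ), s))
  refine h2.congr fun s => ?_
  exact SS_congr (fun k => by simp only [cl_cl]) k

theorem cont_of_mul {c : ℝ} (hc : c ≠ 0) {g : ℝ → ℝ} (h : Continuous fun s => c * g s) :
    Continuous g := by
  have h2 : Continuous fun s => c⁻¹ * (c * g s) := continuous_const.mul h
  refine h2.congr fun s => ?_
  rw [← mul_assoc, inv_mul_cancel₀ hc, one_mul]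

/-- **continuity of `hG`** -/
theorem HSt.cG (H : HSt C a f U) (hρ : ρ ∈ Icc rho2 rho1) (k : ℕ) :
    Continuous fun s => hG ρ (eps0 ρ ^ 2) a f U k (cl s) := by
  have h := H.cGG hρ k
  have t0 := (eps0_pos hρ).ne'
  simp only [GG_hat] at h
  exact cont_of_mul (pow_ne_zero _ t0) h

/-- **continuity of `hS`** -/
theorem HSt.cS (H : HSt C a f U) (hρ : ρ ∈ Icc rho2 rho1) (k : ℕ) :
    Continuous fun s => hS ρ (eps0 ρ ^ 2) a f U (k + 2) (cl s) := by
  have h := H.cSS hρ (k + 2)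
  have t0 := (eps0_pos hρ).ne'
  simp only [SS_hat] at h
  exact cont_of_mul (pow_ne_zero _ t0) h

end

end SCHT
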