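import Pool.Agent.MP_83fd13_an.SCH.GH2
import Pool.Agent.MP_83fd13_an.SCH.THatC
import Pool.Agent.MP_83fd13_an.SCH.TMain

/-!
# [SCH] the box, the weights and the inputs at one point (helper42)
-/

set_option autoImplicit false

namespace SCHT

open MeasureTheory Set Filter Topology
open Pool.Agent.SCH SCHB SCHF SCHS SCHV

noncomputable section

/-- the numbers of the box and of the weights, units `10⁻⁸`; `κ = K/1000` -/
structure Num where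
  A : ℕ
  A' : ℕ
  E : ℕ
  E' : ℕ
  F2 : ℕ
  F2' : ℕ
  F : ℕ
  F' : ℕ
  B0 : ℕ
  B0' : ℕ
  B1 : ℕ
  B1' : ℕ
  B2 : ℕ
  B2' : ℕ
  Z : ℕ
  Z' : ℕ
  K : ℕ
  D : ℕ

/-- the centre -/
def cA (k : ℕ) : ℝ :=
  match k with
  | 0 => -7886 / 10000
  | _ + 1 => 0

def bA (N : Num) (k : ℕ) : ℝ :=
  match k with
  | 0 => (N.A : ℝ) / UU
  | 1 => (N.E : ℝ) / UU
  | 2 => (N.F2 : ℝ) / UU
  | k + 3 => (N.F : ℝ) / UU * 2 ^ (k + 3)

def wA (N : Num) (k : ℕ) : ℝ :=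
  match k with
  | 0 => (N.A' : ℝ) / UU
  | 1 => (N.E' : ℝ) / UU
  | 2 => (N.F2' : ℝ) / UU
  | k + 3 => (N.F' : ℝ) / UU * 2 ^ (k + 3)

def bV (N : Num) (k : ℕ) (r : ℝ) : ℝ :=
  match k with
  | 0 => (N.B0 : ℝ) / UU * r ^ 126
  | 1 => (N.B1 : ℝ) / UU * r ^ 84
  | 2 => (N.B2 : ℝ) / UU * (r ^ 42 * (1 - r ^ 42))
  | k + 3 => (N.Z : ℝ) / UU * 2 ^ (k + 3) * (r ^ (42 * (k + 2)) * (1 - r ^ 42))

def wV (N : Num) (k : ℕ) (r : ℝ) : ℝ :=
  match k with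
  | 0 => (N.B0' : ℝ) / UU * r ^ 126
  | 1 => (N.B1' : ℝ) / UU * r ^ 84
  | 2 => (N.B2' : ℝ) / UU * (r ^ 42 * (1 - r ^ 42))
  | k + 3 => (N.Z' : ℝ) / UU * 2 ^ (k + 3) * (r ^ (42 * (k + 2)) * (1 - r ^ 42))

theorem UUnn (n : ℕ) : (0:ℝ) ≤ (n : ℝ) / UU := div_nonneg (Nat.cast_nonneg _) UU_pos.le

theorem bA_nonneg (N : Num) (k : ℕ) : 0 ≤ bA N k := by
  match k with
  | 0 => exact UUnn _
  | 1 => exact UUnn _
  | 2 => exact UUnn _
  | k + 3 => exact mul_nonneg (UUnn _) (by positivity)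

theorem wA_nonneg (N : Num) (k : ℕ) : 0 ≤ wA N k := by
  match k with
  | 0 => exact UUnn _
  | 1 => exact UUnn _
  | 2 => exact UUnn _
  | k + 3 => exact mul_nonneg (UUnn _) (by positivity)

theorem R_mem {r : ℝ} (hr : r ∈ Icc (0:ℝ) 1) : 0 ≤ r ^ 42 ∧ 0 ≤ 1 - r ^ 42 :=
  ⟨pow_nonneg hr.1 _, sub_nonneg.2 (pow_le_one₀ hr.1 hr.2)⟩

theorem bV_nonneg (N : Num) (k : ℕ) {r : ℝ} (hr : r ∈ Icc (0:ℝ) 1) : 0 ≤ bV N k r := by
  obtain ⟨h1, h2⟩ := R_mem hr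
  match k with
  | 0 => exact mul_nonneg (UUnn _) (pow_nonneg hr.1 _)
  | 1 => exact mul_nonneg (UUnn _) (pow_nonneg hr.1 _)
  | 2 => exact mul_nonneg (UUnn _) (mul_nonneg h1 h2)
  | k + 3 =>
    exact mul_nonneg (mul_nonneg (UUnn _) (by positivity)) (mul_nonneg (pow_nonneg hr.1 _) h2)

theorem wV_nonneg (N : Num) (k : ℕ) {r : ℝ} (hr : r ∈ Icc (0:ℝ) 1) : 0 ≤ wV N k r := by
  obtain ⟨h1, h2⟩ := R_mem hr
  match k with
  | 0 => exact mul_nonneg (UUnn _) (pow_nonneg hr.1 _)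
  | 1 => exact mul_nonneg (UUnn _) (pow_nonneg hr.1 _)
  | 2 => exact mul_nonneg (UUnn _) (mul_nonneg h1 h2)
  | k + 3 =>
    exact mul_nonneg (mul_nonneg (UUnn _) (by positivity)) (mul_nonneg (pow_nonneg hr.1 _) h2)

/-- pair of `u`, `a`, `a + .7886`, `f 1`, `f 1 - 1`, `f 2`, `U 0`, `U 1`, `U 2` -/
def Num.pu (_ : Num) : PL := PL.cst 1194000
def Num.pa (N : Num) : PL := PL.scal (78860000 + N.A) N.A'
def Num.pm (N : Num) : PL := PL.scal N.A N.A'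
def Num.p1 (N : Num) : PL := PL.scal (UU + N.E) N.E'
def Num.p1m (N : Num) : PL := PL.scal N.E N.E'
def Num.p2 (N : Num) : PL := PL.scal N.F2 N.F2'
def Num.q0 (N : Num) : PL := pmn 3 N.B0 N.B0'
def Num.q1 (N : Num) : PL := pmn 2 N.B1 N.B1'
def Num.q2 (N : Num) : PL := pmc 1 N.B2 N.B2'

/-- the inputs at one point `s` -/
structure At (N : Num) (M s ρ u a b : ℝ) (f g : ℕ → ℝ) (U W : ℕ → ℝ → ℝ) : Prop where
  hM : 0 ≤ M
  s0 : 0 < s
  s1 : s ≤ 1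
  ρ1 : 54.178 ≤ ρ
  ρ2 : ρ ≤ 54.1833
  u0 : 0 ≤ u
  u1 : u ≤ 1194 / 100000
  ua : TJ M s N.pu u u
  aa : TJ M s N.pa a b
  am : TJ M s N.pm (a - (-7886 / 10000)) (b - (-7886 / 10000))
  f1 : TJ M s N.p1 (f 1) (g 1)
  f1m : TJ M s N.p1m (f 1 - 1) (g 1 - 1)
  f2 : TJ M s N.p2 (f 2) (g 2)
  ft : ∀ k, Mj M ((N.F : ℝ) / UU * 2 ^ (k + 3)) ((N.F' : ℝ) / UU * 2 ^ (k + 3)) (f (k + 3))
    (g (k + 3))
  U0 : TJ M s N.q0 (U 0 s) (W 0 s)
  U1 : TJ M s N.q1 (U 1 s) (W 1 s)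
  U2 : TJ M s N.q2 (U 2 s) (W 2 s)
  Ut : ∀ k, Mj M ((N.Z : ℝ) / UU * 2 ^ (k + 3) * (s ^ (42 * (k + 2)) * (1 - s ^ 42)))
    ((N.Z' : ℝ) / UU * 2 ^ (k + 3) * (s ^ (42 * (k + 2)) * (1 - s ^ 42))) (U (k + 3) s)
    (W (k + 3) s)

section

variable {N : Num} {M ρ : ℝ} {s s' : ℕ → ℝ} {U U' : ℕ → ℝ → ℝ}

/-- `Mj` of the centred scalars -/
theorem mjA (hb : Box cA (bA N) (bV N) s U) (hb' : Box cA (bA N) (bV N) s' U')
    (hd : Dst (wA N) (wV N) M s s' U U') (k : ℕ) :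
    Mj M (bA N k) (wA N k) (s k - cA k) (s' k - cA k) :=
  ⟨hb.A k, hb'.A k, by rw [sub_sub_sub_cancel_right]; exact hd.A k⟩

theorem mjV (hb : Box cA (bA N) (bV N) s U) (hb' : Box cA (bA N) (bV N) s' U')
    (hd : Dst (wA N) (wV N) M s s' U U') (k : ℕ) {r : ℝ} (hr : r ∈ Icc (0:ℝ) 1) :
    Mj M (bV N k r) (wV N k r) (U k r) (U' k r) :=
  ⟨hb.V k r hr, hb'.V k r hr, hd.V k r hr⟩

/-- **the inputs at one point from the box and the distance** -/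
theorem at_of_box (hρ : ρ ∈ Icc rho2 rho1) (hM : 0 ≤ M) (hb : Box cA (bA N) (bV N) s U)
    (hb' : Box cA (bA N) (bV N) s' U') (hd : Dst (wA N) (wV N) M s s' U U') {r : ℝ}
    (hr0 : 0 < r) (hr1 : r ≤ 1) :
    At N M r ρ (eps0 ρ ^ 2) (s 0) (s' 0) (ff s) (ff s') U U' := by
  have hr : r ∈ Icc (0:ℝ) 1 := ⟨hr0.le, hr1⟩
  have a0 : Mj M ((N.A : ℝ) / UU) ((N.A' : ℝ) / UU) (s 0 - (-7886 / 10000))
      (s' 0 - (-7886 / 10000)) := mjA hb hb' hd 0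
  have a1 : Mj M ((N.E : ℝ) / UU) ((N.E' : ℝ) / UU) (s 1) (s' 1) :=
    (mjA hb hb' hd 1).congr (sub_zero _) (sub_zero _) rfl rfl
  have a2 : Mj M ((N.F2 : ℝ) / UU) ((N.F2' : ℝ) / UU) (s 2) (s' 2) :=
    (mjA hb hb' hd 2).congr (sub_zero _) (sub_zero _) rfl rfl
  have hu := u_le hρ
  refine ⟨hM, hr0, hr1, I1 hρ, I2 hρ, sq_nonneg _, by linarith, ?_, ?_, ?_, ?_, ?_, ?_, ?_, ?_, ?_,
    ?_, ?_⟩
  · refine TJ.cst ?_
    rw [abs_of_nonneg (sq_nonneg _)]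
    unfold UU
    push_cast
    linarith
  · refine TJ.scal ?_
    have h := a0.add (Mj.const_le (c := -7886 / 10000) (C := 7886 / 10000) M
      (by rw [abs_of_neg (by norm_num)]; norm_num))
    refine h.congr (by ring) (by ring) ?_ (by ring)
    unfold UU
    push_cast
    ring
  · exact TJ.scal a0
  · refine TJ.scal ?_
    have h := (Mj.const_le (c := 1) (C := 1) M (by norm_num)).add a1
    refine h.congr rfl rfl ?_ (by ring)
    have := UU_pos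
    push_cast
    field_simp
  · refine TJ.scal (a1.congr ?_ ?_ rfl rfl)
    · simp [ff]
    · simp [ff]
  · exact TJ.scal a2
  · intro k
    exact (mjA hb hb' hd (k + 3)).congr (sub_zero _) (sub_zero _) rfl rfl
  · refine (mjV hb hb' hd 0 hr).congr rfl rfl ?_ ?_
    · show _ = (⟨lmn 3 N.B0, [], []⟩ : TL).ev r
      rw [ev_mn]; rfl
    · show _ = (⟨lmn 3 N.B0', [], []⟩ : TL).ev r
      rw [ev_mn]; rfl
  · refine (mjV hb hb' hd 1 hr).congr rfl rfl ?_ ?_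
    · show _ = (⟨lmn 2 N.B1, [], []⟩ : TL).ev r
      rw [ev_mn]; rfl
    · show _ = (⟨lmn 2 N.B1', [], []⟩ : TL).ev r
      rw [ev_mn]; rfl
  · refine (mjV hb hb' hd 2 hr).congr rfl rfl ?_ ?_
    · show _ = (⟨[], [], lmn 1 N.B2⟩ : TL).ev r
      rw [ev_mc]; rfl
    · show _ = (⟨[], [], lmn 1 N.B2'⟩ : TL).ev r
      rw [ev_mc]; rfl
  · intro k
    exact mjV hb hb' hd (k + 3) hr

/-- the crude regularity of a hat state in the box -/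
theorem hst_of_box (hb : Box cA (bA N) (bV N) s U) (hc : ∀ k, Continuous fun r => U k (cl r)) :
    HSt (2 + ((N.A : ℝ) / UU + N.E / UU + N.F2 / UU + N.F / UU + N.B0 / UU + N.B1 / UU +
      N.B2 / UU + N.Z / UU)) (s 0) (ff s) U := by
  have n1 := UUnn N.A
  have n2 := UUnn N.E
  have n3 := UUnn N.F2
  have n4 := UUnn N.F
  have n5 := UUnn N.B0
  have n6 := UUnn N.B1
  have n7 := UUnn N.B2
  have n8 := UUnn N.Z
  set C : ℝ := 2 + ((N.A : ℝ) / UU + N.E / UU + N.F2 / UU + N.F / UU + N.B0 / UU + N.B1 / UU +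
      N.B2 / UU + N.Z / UU) with hC
  have hA0 : |s 0 - (-7886 / 10000)| ≤ (N.A : ℝ) / UU := hb.A 0
  have hA1 : |s 1| ≤ (N.E : ℝ) / UU := by
    have h : |s 1 - 0| ≤ (N.E : ℝ) / UU := hb.A 1
    rwa [sub_zero] at h
  refine ⟨by linarith, ?_, ?_, ?_, hc⟩
  · rw [abs_le] at hA0 ⊢
    constructor <;> linarith [hA0.1, hA0.2]
  · intro k
    match k with
    | 0 =>
      show |(1:ℝ)| ≤ _
      rw [abs_one, pow_zero]
      linarith
    | 1 =>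
      show |1 + s 1| ≤ _
      have h := abs_add_le 1 (s 1)
      rw [abs_one] at h
      rw [pow_one]
      linarith
    | 2 =>
      have h : |s 2 - 0| ≤ (N.F2 : ℝ) / UU := hb.A 2
      rw [sub_zero] at h
      show |s 2| ≤ _
      norm_num
      linarith
    | k + 3 =>
      have h : |s (k + 3) - 0| ≤ (N.F : ℝ) / UU * 2 ^ (k + 3) := hb.A (k + 3)
      rw [sub_zero] at h
      show |s (k + 3)| ≤ _
      refine h.trans (mul_le_mul_of_nonneg_right ?_ (by positivity))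
      linarith
  · intro k r hr
    obtain ⟨h1, h2⟩ := R_mem hr
    have h3 : 1 - r ^ 42 ≤ 1 := by linarith
    match k with
    | 0 =>
      have h : |U 0 r| ≤ (N.B0 : ℝ) / UU * r ^ 126 := hb.V 0 r hr
      have hp : r ^ 126 ≤ r ^ 2 := pow_le_pow_of_le_one hr.1 hr.2 (by norm_num)
      show _ ≤ C * 2 ^ 0 * r ^ 2
      rw [pow_zero, mul_one]
      exact h.trans (mul_le_mul (by linarith) hp (pow_nonneg hr.1 _) (by linarith))
    | 1 =>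
      have h : |U 1 r| ≤ (N.B1 : ℝ) / UU * r ^ 84 := hb.V 1 r hr
      have hp : r ^ 84 ≤ r ^ 2 := pow_le_pow_of_le_one hr.1 hr.2 (by norm_num)
      show _ ≤ C * 2 ^ 1 * r ^ 2
      exact h.trans (mul_le_mul (by linarith) hp (pow_nonneg hr.1 _) (by linarith))
    | 2 =>
      have h : |U 2 r| ≤ (N.B2 : ℝ) / UU * (r ^ 42 * (1 - r ^ 42)) := hb.V 2 r hr
      have hp : r ^ 42 * (1 - r ^ 42) ≤ r ^ 42 := mul_le_of_le_one_right h1 h3
      show _ ≤ C * 2 ^ 2 * r ^ (42 * (0 + 1))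
      exact h.trans (mul_le_mul (by linarith) hp (mul_nonneg h1 h2) (by linarith))
    | k + 3 =>
      have h : |U (k + 3) r| ≤ (N.Z : ℝ) / UU * 2 ^ (k + 3) * (r ^ (42 * (k + 2)) * (1 - r ^ 42)) :=
        hb.V (k + 3) r hr
      have h4 : 0 ≤ r ^ (42 * (k + 2)) := pow_nonneg hr.1 _
      have hp : r ^ (42 * (k + 2)) * (1 - r ^ 42) ≤ r ^ (42 * (k + 2)) :=
        mul_le_of_le_one_right h4 h3
      show _ ≤ C * 2 ^ (k + 3) * r ^ (42 * (k + 1 + 1))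
      refine h.trans (mul_le_mul (mul_le_mul_of_nonneg_right (by linarith) (by positivity)) hp
        (mul_nonneg h4 h2) (mul_nonneg (by linarith) (by positivity)))

end

end

end SCHT
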