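import Pool.Agent.MP_83fd13_an.SCH.RegD
import Pool.Agent.MP_83fd13_an.SCH.TEnd
import Pool.Agent.MP_83fd13_an.SCH.TNum

set_option autoImplicit false

/-!
# [SCH] from `HatLip` at the numbers `N` to the regular fixed point and the data of the end boxes
-/

namespace SCHT

open MeasureTheory Set Filter Topology
open Pool.Agent.SCH SCHB SCHF SCHS SCHV

noncomputable section

/-- the side conditions on the numbers: `bA ≤ 10⁸ wA` etc. and the bounds used at the ends -/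
def Num.side (N : Num) : Bool :=
  decide (1 ≤ N.A') && decide (1 ≤ N.E') && decide (1 ≤ N.F2') && decide (1 ≤ N.F') &&
  decide (1 ≤ N.B0') && decide (1 ≤ N.B1') && decide (1 ≤ N.B2') && decide (1 ≤ N.Z') &&
  decide (N.K < 1000) &&
  decide (N.A ≤ 10000000) && decide (N.E ≤ 5000000) && decide (N.F2 ≤ 45000000) &&
  decide (N.F ≤ 12000000) && decide (N.B0 ≤ 50000000)

/-- the constant of the crude bounds -/
def Num.cc (N : Num) : ℝ := 1 + ((N.A : ℝ) / UU + N.E / UU + N.F2 / UU + N.F / UU + N.B0 / UU +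
  N.B1 / UU + N.B2 / UU + N.Z / UU)

/-- the constant of the comparison with the weights -/
def Num.cw (N : Num) : ℝ := (N.A : ℝ) + N.E + N.F2 + N.F + N.B0 + N.B1 + N.B2 + N.Z

variable {N : Num}

theorem cw_nonneg (N : Num) : 0 ≤ N.cw := by unfold Num.cw; positivity

theorem le_cw {a a' : ℕ} (ha : (a : ℝ) ≤ N.cw) (h : 1 ≤ a') :
    (a : ℝ) / UU ≤ N.cw * ((a' : ℝ) / UU) := by
  rw [← mul_div_assoc]
  refine div_le_div_of_nonneg_right (ha.trans ?_) UU_pos.le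
  exact le_mul_of_one_le_right (cw_nonneg N) (by exact_mod_cast h)

/-- the constituents of `side` -/
theorem side_iff (h : N.side = true) :
    (1 ≤ N.A' ∧ 1 ≤ N.E' ∧ 1 ≤ N.F2' ∧ 1 ≤ N.F' ∧ 1 ≤ N.B0' ∧ 1 ≤ N.B1' ∧ 1 ≤ N.B2' ∧ 1 ≤ N.Z') ∧
    N.K < 1000 ∧ N.A ≤ 10000000 ∧ N.E ≤ 5000000 ∧ N.F2 ≤ 45000000 ∧ N.F ≤ 12000000 ∧
    N.B0 ≤ 50000000 := by
  unfold Num.side at h
  simp only [Bool.and_eq_true, decide_eq_true_eq] at h
  obtain ⟨⟨⟨⟨⟨⟨⟨⟨⟨⟨⟨⟨⟨h1, h2⟩, h3⟩, h4⟩, h5⟩, h6⟩, h7⟩, h8⟩, h9⟩, h10⟩, h11⟩, h12⟩, h13⟩, h14⟩ := h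
  exact ⟨⟨h1, h2, h3, h4, h5, h6, h7, h8⟩, h9, h10, h11, h12, h13, h14⟩

theorem cw_all (N : Num) : (N.A : ℝ) ≤ N.cw ∧ (N.E : ℝ) ≤ N.cw ∧ (N.F2 : ℝ) ≤ N.cw ∧
    (N.F : ℝ) ≤ N.cw ∧ (N.B0 : ℝ) ≤ N.cw ∧ (N.B1 : ℝ) ≤ N.cw ∧ (N.B2 : ℝ) ≤ N.cw ∧
    (N.Z : ℝ) ≤ N.cw := by
  have h1 : (0:ℝ) ≤ N.A := Nat.cast_nonneg _
  have h2 : (0:ℝ) ≤ N.E := Nat.cast_nonneg _
  have h3 : (0:ℝ) ≤ N.F2 := Nat.cast_nonneg _
  have h4 : (0:ℝ) ≤ N.F := Nat.cast_nonneg _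
  have h5 : (0:ℝ) ≤ N.B0 := Nat.cast_nonneg _
  have h6 : (0:ℝ) ≤ N.B1 := Nat.cast_nonneg _
  have h7 : (0:ℝ) ≤ N.B2 := Nat.cast_nonneg _
  have h8 : (0:ℝ) ≤ N.Z := Nat.cast_nonneg _
  unfold Num.cw
  refine ⟨?_, ?_, ?_, ?_, ?_, ?_, ?_, ?_⟩ <;> linarith

theorem bA_le_cw (h : N.side = true) (k : ℕ) : bA N k ≤ N.cw * wA N k := by
  obtain ⟨⟨h1, h2, h3, h4, h5, h6, h7, h8⟩, -⟩ := side_iff h
  obtain ⟨c1, c2, c3, c4, c5, c6, c7, c8⟩ := cw_all N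
  match k with
  | 0 => exact le_cw c1 h1
  | 1 => exact le_cw c2 h2
  | 2 => exact le_cw c3 h3
  | k + 3 =>
    show (N.F : ℝ) / UU * 2 ^ (k + 3) ≤ N.cw * ((N.F' : ℝ) / UU * 2 ^ (k + 3))
    rw [← mul_assoc]
    exact mul_le_mul_of_nonneg_right (le_cw c4 h4) (by positivity)

theorem bV_le_cw (h : N.side = true) (k : ℕ) {r : ℝ} (hr : r ∈ Icc (0:ℝ) 1) :
    bV N k r ≤ N.cw * wV N k r := by
  obtain ⟨⟨h1, h2, h3, h4, h5, h6, h7, h8⟩, -⟩ := side_iff h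
  obtain ⟨c1, c2, c3, c4, c5, c6, c7, c8⟩ := cw_all N
  obtain ⟨g1, g2⟩ := R_mem hr
  match k with
  | 0 =>
    show (N.B0 : ℝ) / UU * r ^ 126 ≤ N.cw * ((N.B0' : ℝ) / UU * r ^ 126)
    rw [← mul_assoc]
    exact mul_le_mul_of_nonneg_right (le_cw c5 h5) (pow_nonneg hr.1 _)
  | 1 =>
    show (N.B1 : ℝ) / UU * r ^ 84 ≤ N.cw * ((N.B1' : ℝ) / UU * r ^ 84)
    rw [← mul_assoc]
    exact mul_le_mul_of_nonneg_right (le_cw c6 h6) (pow_nonneg hr.1 _)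
  | 2 =>
    show (N.B2 : ℝ) / UU * (r ^ 42 * (1 - r ^ 42)) ≤
      N.cw * ((N.B2' : ℝ) / UU * (r ^ 42 * (1 - r ^ 42)))
    rw [← mul_assoc N.cw]
    exact mul_le_mul_of_nonneg_right (le_cw c7 h7) (mul_nonneg g1 g2)
  | k + 3 =>
    show (N.Z : ℝ) / UU * 2 ^ (k + 3) * (r ^ (42 * (k + 2)) * (1 - r ^ 42)) ≤
      N.cw * ((N.Z' : ℝ) / UU * 2 ^ (k + 3) * (r ^ (42 * (k + 2)) * (1 - r ^ 42)))
    rw [mul_assoc, mul_assoc, ← mul_assoc N.cw]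
    exact mul_le_mul_of_nonneg_right (le_cw c8 h8)
      (mul_nonneg (by positivity) (mul_nonneg (pow_nonneg hr.1 _) g2))

theorem cc_nonneg (N : Num) : 0 ≤ N.cc := by
  have n1 := UUnn N.A
  have n2 := UUnn N.E
  have n3 := UUnn N.F2
  have n4 := UUnn N.F
  have n5 := UUnn N.B0
  have n6 := UUnn N.B1
  have n7 := UUnn N.B2
  have n8 := UUnn N.Z
  unfold Num.cc
  linarith

theorem cc_A (N : Num) (k : ℕ) : |cA k| + bA N k ≤ N.cc * 2 ^ k := by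
  have n1 := UUnn N.A
  have n2 := UUnn N.E
  have n3 := UUnn N.F2
  have n4 := UUnn N.F
  have n5 := UUnn N.B0
  have n6 := UUnn N.B1
  have n7 := UUnn N.B2
  have n8 := UUnn N.Z
  have hc := cc_nonneg N
  have hp : (1:ℝ) ≤ 2 ^ k := one_le_pow₀ (by norm_num)
  have hle : N.cc ≤ N.cc * 2 ^ k := le_mul_of_one_le_right hc hp
  match k with
  | 0 =>
    refine le_trans ?_ hle
    show |(-7886 / 10000 : ℝ)| + (N.A : ℝ) / UU ≤ _
    rw [abs_of_neg (by norm_num)]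
    unfold Num.cc
    linarith
  | 1 =>
    refine le_trans ?_ hle
    show |(0 : ℝ)| + (N.E : ℝ) / UU ≤ _
    rw [abs_zero]
    unfold Num.cc
    linarith
  | 2 =>
    refine le_trans ?_ hle
    show |(0 : ℝ)| + (N.F2 : ℝ) / UU ≤ _
    rw [abs_zero]
    unfold Num.cc
    linarith
  | k + 3 =>
    show |(0 : ℝ)| + (N.F : ℝ) / UU * 2 ^ (k + 3) ≤ _
    rw [abs_zero, zero_add]
    refine mul_le_mul_of_nonneg_right ?_ (by positivity)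
    unfold Num.cc
    linarith

theorem cc_V (N : Num) (k : ℕ) {r : ℝ} (hr : r ∈ Icc (0:ℝ) 1) :
    bV N k r ≤ N.cc * 2 ^ k * r ^ wt k := by
  have n1 := UUnn N.A
  have n2 := UUnn N.E
  have n3 := UUnn N.F2
  have n4 := UUnn N.F
  have n5 := UUnn N.B0
  have n6 := UUnn N.B1
  have n7 := UUnn N.B2
  have n8 := UUnn N.Z
  have hc := cc_nonneg N
  have hp : (1:ℝ) ≤ 2 ^ k := one_le_pow₀ (by norm_num)
  have hle : N.cc ≤ N.cc * 2 ^ k := le_mul_of_one_le_right hc hp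
  have hnn : 0 ≤ N.cc * 2 ^ k := hc.trans hle
  obtain ⟨h1, h2⟩ := R_mem hr
  have h3 : 1 - r ^ 42 ≤ 1 := by linarith
  match k with
  | 0 =>
    have hp : r ^ 126 ≤ r ^ 2 := pow_le_pow_of_le_one hr.1 hr.2 (by norm_num)
    show (N.B0 : ℝ) / UU * r ^ 126 ≤ N.cc * 2 ^ 0 * r ^ 2
    refine mul_le_mul (le_trans ?_ hle) hp (pow_nonneg hr.1 _) hnn
    unfold Num.cc
    linarith
  | 1 =>
    have hp : r ^ 84 ≤ r ^ 2 := pow_le_pow_of_le_one hr.1 hr.2 (by norm_num)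
    show (N.B1 : ℝ) / UU * r ^ 84 ≤ N.cc * 2 ^ 1 * r ^ 2
    refine mul_le_mul (le_trans ?_ hle) hp (pow_nonneg hr.1 _) hnn
    unfold Num.cc
    linarith
  | 2 =>
    have hp : r ^ 42 * (1 - r ^ 42) ≤ r ^ 42 := mul_le_of_le_one_right h1 h3
    show (N.B2 : ℝ) / UU * (r ^ 42 * (1 - r ^ 42)) ≤ N.cc * 2 ^ 2 * r ^ (42 * (0 + 1))
    refine mul_le_mul (le_trans ?_ hle) hp (mul_nonneg h1 h2) hnn
    unfold Num.cc
    linarith
  | k + 3 =>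
    have h4 : 0 ≤ r ^ (42 * (k + 2)) := pow_nonneg hr.1 _
    have hp : r ^ (42 * (k + 2)) * (1 - r ^ 42) ≤ r ^ (42 * (k + 2)) :=
      mul_le_of_le_one_right h4 h3
    show (N.Z : ℝ) / UU * 2 ^ (k + 3) * (r ^ (42 * (k + 2)) * (1 - r ^ 42)) ≤
      N.cc * 2 ^ (k + 3) * r ^ (42 * (k + 1 + 1))
    refine mul_le_mul (mul_le_mul_of_nonneg_right ?_ (by positivity)) hp (mul_nonneg h4 h2) hnn
    unfold Num.cc
    linarith

theorem wV_bdd (N : Num) (k : ℕ) : ∃ B, ∀ r ∈ Icc (0:ℝ) 1, wV N k r ≤ B := by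
  match k with
  | 0 => exact ⟨(N.B0' : ℝ) / UU, fun r hr =>
      mul_le_of_le_one_right (UUnn _) (pow_le_one₀ hr.1 hr.2)⟩
  | 1 => exact ⟨(N.B1' : ℝ) / UU, fun r hr =>
      mul_le_of_le_one_right (UUnn _) (pow_le_one₀ hr.1 hr.2)⟩
  | 2 =>
    refine ⟨(N.B2' : ℝ) / UU, fun r hr => ?_⟩
    obtain ⟨h1, h2⟩ := R_mem hr
    exact mul_le_of_le_one_right (UUnn _) (mul_le_one₀ (pow_le_one₀ hr.1 hr.2) h2 (by linarith))
  | k + 3 =>
    refine ⟨(N.Z' : ℝ) / UU * 2 ^ (k + 3), fun r hr => ?_⟩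
    obtain ⟨h1, h2⟩ := R_mem hr
    exact mul_le_of_le_one_right (mul_nonneg (UUnn _) (by positivity))
      (mul_le_one₀ (pow_le_one₀ hr.1 hr.2) h2 (by linarith))

/-- **the regular fixed point from `HatLip` at `N`** -/
theorem exists_of_num (N : Num)
    (HL : HatLip cA (bA N) (bV N) (wA N) (wV N) ((N.K : ℝ) / 1000)) (hs : N.side = true) :
    ∃ x, Boxed cA (bA N) (bV N) x ∧ Rg x ∧ Crude (1 + 2 * N.cc) (1 / 4) x ∧ T x = x := by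
  have hK : N.K < 1000 := (side_iff hs).2.1
  refine exists_fixed_rg HL (by positivity) ?_ (bA_nonneg N) (fun k r hr => bV_nonneg N k hr)
    (wA_nonneg N) (fun k r hr => wV_nonneg N k hr) (cw_nonneg N) (bA_le_cw hs)
    (fun k r hr => bV_le_cw hs k hr) (cc_nonneg N) (cc_A N) (fun k r hr => cc_V N k hr) (wV_bdd N)
  rw [div_lt_one (by norm_num)]
  exact_mod_cast hK

/-- the data of the end boxes -/
theorem boxNum_of_num (N : Num) (hs : N.side = true) : BoxNum cA (bA N) (bV N) := by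
  obtain ⟨-, -, h1, h2, h3, h4, h5⟩ := side_iff hs
  have U : (UU : ℝ) = 100000000 := by unfold UU; norm_num
  have key : ∀ {a m : ℕ}, a ≤ m → (a : ℝ) / UU ≤ (m : ℝ) / 100000000 := by
    intro a m h
    rw [U]
    exact div_le_div_of_nonneg_right (by exact_mod_cast h) (by norm_num)
  refine ⟨rfl, fun k => rfl, ?_, ?_, ?_, fun k => ?_, ?_⟩
  · exact (key h1).trans (by norm_num)
  · exact (key h2).trans (by norm_num)
  · exact (key h3).trans (by norm_num)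
  · show (N.F : ℝ) / UU * 2 ^ (k + 3) ≤ _
    exact mul_le_mul_of_nonneg_right ((key h4).trans (by norm_num)) (by positivity)
  · show (N.B0 : ℝ) / UU * 1 ^ 126 ≤ _
    rw [one_pow, mul_one]
    exact (key h5).trans (by norm_num)

end

end SCHT
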