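import Pool.Agent.MP_83fd13_an.SCH.TSrc

/-!
# [SCH] `HatLip` for the concrete numbers (helper4)
-/

set_option autoImplicit false

namespace SCHT

open Pool.Agent.SCH

noncomputable section

theorem N0_ckV : ckV N0 (N0.src tabA) = true := by decide +kernel

theorem N0_ckF : ckF N0 (N0.src tabB) = true := by decide +kernel

/-- **the contraction bounds for the concrete box** -/
theorem hatLip0 : HatLip cA (bA N0) (bV N0) (wA N0) (wV N0) ((N0.K : ℝ) / 1000) :=
  hatLip_of (srcGenA N0_zA) (srcGenB N0_zB) N0_ckV N0_ckF

end

end SCHT
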