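import Pool.Agent.MP_83fd13_an.SCH.UFamF
import Pool.Agent.MP_83fd13_an.SCH.FamDef

/-!
# [SCH] family: a fixed point of the T-map gives `SCHG.Family`
-/

set_option autoImplicit false

namespace SCHT

open MeasureTheory Set Filter Topology
open Pool.Agent.SCH SCHB SCHF SCHS SCHG SCHA

noncomputable section

/-- the data of a state -/
abbrev SDat (C th : ℝ) (x : St) : Prop :=
  Dat C th cρ (fun ρ => x.A 0 (cρ ρ)) (fun ρ => x.ph (cρ ρ)) (fun ρ k => x.V k (cρ ρ))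

theorem cρ_mem' {ρ : ℝ} (h : ρ ∈ Icc rho2 rho1) : cρ ρ = ρ := cρ_of_mem h.1 h.2

theorem St.fx {x : St} (hT : T x = x) {ρ : ℝ} (h : ρ ∈ Icc rho2 rho1) :
    FxU ρ (x.A 0 ρ) (x.ph ρ) (fun k => x.V k ρ) := by
  have hρ := cρ_mem' h
  have hA : ∀ k, TA ρ (x.A 0 ρ) (x.ph ρ) (fun k => x.V k ρ) k = x.A k ρ := by
    intro k
    have e : (T x).A k ρ = TA (cρ ρ) (x.A 0 (cρ ρ)) (x.ph (cρ ρ)) (fun k => x.V k (cρ ρ)) k := rfl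
    rw [hρ, hT] at e
    exact e.symm
  refine ⟨rfl, fun k r h0 h1 => ?_, hA 0, ?_, fun k => hA (k + 2)⟩
  · have e : (T x).V k ρ r = TV (cρ ρ) (x.A 0 (cρ ρ)) (x.ph (cρ ρ)) (fun k => x.V k (cρ ρ)) k
      (cl r) := rfl
    rw [hρ, hT, cl_of_mem h0 h1] at e
    exact e.symm
  · rw [hA 1]
    have e : x.ph ρ 1 = eps0 ρ + x.A 1 ρ := rfl
    rw [e]
    ring

/-- **the family.** -/
theorem family_of_fixed {x : St} {C th : ℝ} (H : SDat C th x) (hT : T x = x)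
    (hq : ∀ ρ ∈ Icc rho2 rho1, ∑' k, |x.ph ρ (k + 1)| ≤ 1 / 3)
    (hq1 : ∀ ρ ∈ Icc rho2 rho1, ∑' k, |x.ph ρ (k + 2)| < |x.ph ρ 1|) :
    ∃ (u u' u'' : ℝ → ℕ → ℝ → ℝ) (B : ℝ → ℕ → ℝ), Family rho2 rho1 x.ph u u' u'' B ∧
      ∀ ρ ∈ Icc rho2 rho1, ∀ k, ∀ r ∈ Ioc (0 : ℝ) 1,
        u ρ k r = uu ρ (x.A 0 ρ) (x.ph ρ) (fun k => x.V k ρ) k r := by
  have key : ∀ ρ : ℝ, ∃ (u u' u'' : ℕ → ℝ → ℝ) (B : ℕ → ℝ), ρ ∈ Icc rho2 rho1 →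
      FP 42 ρ (x.ph ρ) u u' u'' B ∧ (∀ k, ∀ r : ℝ, 0 < r →
        u k r = ym ρ (x.A 0 ρ) (x.ph ρ) (fun k => x.V k ρ) k r) ∧ u 0 0 = 1 := by
    intro ρ
    by_cases h : ρ ∈ Icc rho2 rho1
    · have hp := H.pt ρ
      simp only [cρ_mem' h] at hp
      obtain ⟨u, u', u'', B, h1, h2, h3⟩ := FP_pt hp (x.fx hT h)
        (le_trans (by unfold rho2; norm_num) h.1) (le_trans h.2 (by unfold rho1; norm_num))
      exact ⟨u, u', u'', B, fun _ => ⟨h1, h2, h3⟩⟩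
    · exact ⟨fun _ _ => 0, fun _ _ => 0, fun _ _ => 0, fun _ => 0, fun h' => absurd h' h⟩
  choose u u' u'' B hu using key
  have huu : ∀ ρ ∈ Icc rho2 rho1, ∀ k, ∀ r ∈ Ioc (0 : ℝ) 1,
      u ρ k r = uu ρ (x.A 0 ρ) (x.ph ρ) (fun k => x.V k ρ) k r := by
    intro ρ h k r hr
    rw [(hu ρ h).2.1 k r hr.1, (x.fx hT h).ym_eq k hr.1.le hr.2]
  refine ⟨u, u', u'', B, ⟨fun ρ h => (hu ρ h).1, fun ρ h k => ?_, fun ρ h => (hu ρ h).2.2, hq, hq1,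
    ?_⟩, huu⟩
  · rw [(hu ρ h).2.1 (k + 2) 1 one_pos]
    exact (x.fx hT h).z2 k
  · have c1 : Continuous fun ρ : ℝ => XX (cρ ρ) (x.A 0 (cρ ρ)) (x.ph (cρ ρ)) 1 1 :=
      comp_one (g := fun ρ s => XX (cρ ρ) (x.A 0 (cρ ρ)) (x.ph (cρ ρ)) 1 s) (H.cXX 1)
    have c2 : Continuous fun ρ : ℝ => x.V 1 (cρ ρ) 1 :=
      comp_one (g := fun ρ s => x.V 1 (cρ ρ) s) (H.cV 1)
    refine (c1.add c2).continuousOn.congr fun ρ h => ?_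
    have e1 := huu ρ h 1 1 ⟨one_pos, le_rfl⟩
    show u ρ 1 1 = XX (cρ ρ) (x.A 0 (cρ ρ)) (x.ph (cρ ρ)) 1 1 + x.V 1 (cρ ρ) 1
    rw [e1, cρ_mem' h]
    simp [uu, VV, RR]

end

end SCHT
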