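import Pool.Agent.MP_83fd13_an.SCH.SumQ
import Pool.Agent.MP_83fd13_an.SCH.Frame
import Pool.Agent.MP_83fd13_an.SCH.TFin2
import Pool.Agent.MP_83fd13_an.SCH.UFamG
import Pool.Agent.MP_83fd13_an.SCH.CertHi
import Pool.Agent.MP_83fd13_an.SCH.CertLo
import Pool.Agent.MP_83fd13_an.SCH.TExist

set_option autoImplicit false

/-!
# [SCH] the final theorem: the negation of Schiffer's conjecture
-/

namespace SCHT

open MeasureTheory Set Filter Topology
open Pool.Agent.SCH SCHB SCHF SCHS SCHC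

theorem N0_side : N0.side = true := by decide +kernel

/-- **a non-circular solution of Schiffer's overdetermined problem** -/
theorem neg_schiffer : SCHG.Neg := by
  obtain ⟨x, hb, hr, hc, e⟩ := exists_of_num N0 hatLip0 N0_side
  have N := boxNum_of_num N0 N0_side
  obtain ⟨u, u', u'', B, F, hu⟩ := family_of_fixed (dat_of_state nzI hr hc) e
    (fun ρ hρ => fam_q N hb hρ) (fun ρ hρ => fam_q1 N hb hρ)
  have h1 : (1:ℝ) ∈ Ioc (0:ℝ) 1 := ⟨one_pos, le_rfl⟩
  have e2 : u (54178 / 1000) 0 1 = VV (54178 / 1000) (x.A 0 (54178 / 1000))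
      (x.ph (54178 / 1000)) (fun k => x.V k (54178 / 1000)) 0 1 + J 0 (54178 / 1000) := by
    refine (hu _ rho2_mem 0 1 h1).trans ?_
    show VV _ _ _ _ 0 1 + (if 0 = 0 then J 0 (_ * 1) else 0) = _
    rw [if_pos rfl, mul_one]
    rfl
  have e1 : u (541833 / 10000) 0 1 = VV (541833 / 10000) (x.A 0 (541833 / 10000))
      (x.ph (541833 / 10000)) (fun k => x.V k (541833 / 10000)) 0 1 + J 0 (541833 / 10000) := by
    refine (hu _ rho1_mem 0 1 h1).trans ?_
    show VV _ _ _ _ 0 1 + (if 0 = 0 then J 0 (_ * 1) else 0) = _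
    rw [if_pos rfl, mul_one]
    rfl
  refine neg_final certHi certLo F ?_ ?_
  · rw [e2]
    exact endBox2 N hb
  · rw [e1]
    exact endBox1 N hb

end SCHT
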