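import Pool.Agent.MP_83fd13_an.SCH.THat

set_option autoImplicit false

/-!
# [SCH] the fixed point equations at one `ρ`
-/

namespace SCHT

open MeasureTheory Set Filter Topology
open Pool.Agent.SCH SCHB SCHF SCHS

noncomputable section

/-- the fixed point equations at one `ρ` -/
structure FixP (ρ α : ℝ) (φ : ℕ → ℝ) (V : ℕ → ℝ → ℝ) : Prop where
  hV : ∀ k, ∀ r ∈ Icc (0:ℝ) 1, V k r = TV ρ α φ V k r
  A0 : α = TA ρ α φ V 0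
  A1 : φ 1 - eps0 ρ = TA ρ α φ V 1
  AS : ∀ k, φ (k + 2) = TA ρ α φ V (k + 2)

theorem fixP_of {x : St} (h : T x = x) {ρ : ℝ} (hρ : ρ ∈ Icc rho2 rho1) :
    FixP ρ (x.A 0 ρ) (x.ph ρ) (fun k => x.V k ρ) where
  hV k r hr := by
    have e : (T x).V k ρ r = x.V k ρ r := by rw [h]
    rw [← e]
    show TV (cρ ρ) (x.A 0 (cρ ρ)) (x.ph (cρ ρ)) (fun k => x.V k (cρ ρ)) k (cl r) = _
    rw [cρ_eq hρ, cl_eq hr]
  A0 := by
    have e : (T x).A 0 ρ = x.A 0 ρ := by rw [h]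
    have e2 : (T x).A 0 ρ = TA ρ (x.A 0 ρ) (x.ph ρ) (fun k => x.V k ρ) 0 := by
      show TA (cρ ρ) (x.A 0 (cρ ρ)) (x.ph (cρ ρ)) (fun k => x.V k (cρ ρ)) 0 = _
      rw [cρ_eq hρ]
    rw [← e2, e]
  A1 := by
    have e : (T x).A 1 ρ = x.A 1 ρ := by rw [h]
    have e2 : (T x).A 1 ρ = TA ρ (x.A 0 ρ) (x.ph ρ) (fun k => x.V k ρ) 1 := by
      show TA (cρ ρ) (x.A 0 (cρ ρ)) (x.ph (cρ ρ)) (fun k => x.V k (cρ ρ)) 1 = _
      rw [cρ_eq hρ]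
    rw [← e2, e]
    show eps0 ρ + x.A 1 ρ - eps0 ρ = x.A 1 ρ
    ring
  AS k := by
    have e : (T x).A (k + 2) ρ = x.A (k + 2) ρ := by rw [h]
    have e2 : (T x).A (k + 2) ρ = TA ρ (x.A 0 ρ) (x.ph ρ) (fun k => x.V k ρ) (k + 2) := by
      show TA (cρ ρ) (x.A 0 (cρ ρ)) (x.ph (cρ ρ)) (fun k => x.V k (cρ ρ)) (k + 2) = _
      rw [cρ_eq hρ]
    rw [← e2, e]
    rfl

end

end SCHT
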