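import Pool.Agent.MP_83fd13_an.SCH.WieD

set_option autoImplicit false

/-!
# Majorant calculus for infinite sums and correlations (project SCH)

`corr f x k = ∑' j, f j * f (j + k) * x ^ j`.
-/

noncomputable section

namespace Pool.Agent.SCH

open Filter Topology

namespace Mj

/-- finitely many explicit terms and a geometric tail -/
theorem tsum_tail {M : ℝ} {F F' f g : ℕ → ℝ} {A A' q : ℝ} (n : ℕ) (hq0 : 0 ≤ q) (hq : q < 1)
    (H0 : ∀ j < n, Mj M (F j) (F' j) (f j) (g j))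
    (H1 : ∀ j, Mj M (A * q ^ j) (A' * q ^ j) (f (n + j)) (g (n + j))) :
    Summable f ∧ Summable g ∧
    Mj M (∑ j ∈ Finset.range n, F j + A / (1 - q)) (∑ j ∈ Finset.range n, F' j + A' / (1 - q))
      (∑' j, f j) (∑' j, g j) := by
  have hs : Summable (fun j : ℕ => A * q ^ j) := (summable_geometric_of_lt_one hq0 hq).mul_left A
  have hf1 : Summable (fun j => f (n + j)) := summable_l H1 hs
  have hg1 : Summable (fun j => g (n + j)) := summable_r H1 hs
  have hf : Summable f := (summable_nat_add_iff n).1 (by simpa only [add_comm] using hf1)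
  have hg : Summable g := (summable_nat_add_iff n).1 (by simpa only [add_comm] using hg1)
  refine ⟨hf, hg, ?_⟩
  have h0 := Mj.sum (Finset.range n) fun j hj => H0 j (Finset.mem_range.1 hj)
  have h1 := tsum_geom hq0 hq H1
  refine (h0.add h1).congr ?_ ?_ rfl rfl
  · rw [← hf.sum_add_tsum_nat_add n]; simp only [add_comm]
  · rw [← hg.sum_add_tsum_nat_add n]; simp only [add_comm]

/-- three explicit terms -/
theorem tsum3 {M : ℝ} {f g : ℕ → ℝ} {F0 F1 F2 G0 G1 G2 A A' q : ℝ} (hq0 : 0 ≤ q) (hq : q < 1)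
    (h0 : Mj M F0 G0 (f 0) (g 0)) (h1 : Mj M F1 G1 (f 1) (g 1)) (h2 : Mj M F2 G2 (f 2) (g 2))
    (H1 : ∀ j, Mj M (A * q ^ j) (A' * q ^ j) (f (3 + j)) (g (3 + j))) :
    Summable f ∧ Summable g ∧
    Mj M (F0 + F1 + F2 + A / (1 - q)) (G0 + G1 + G2 + A' / (1 - q)) (∑' j, f j) (∑' j, g j) := by
  obtain ⟨a, b, c⟩ := tsum_tail (M := M) (F := fun j => if j = 0 then F0 else if j = 1 then F1 else F2)
    (F' := fun j => if j = 0 then G0 else if j = 1 then G1 else G2) 3 hq0 hq (f := f) (g := g)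
    (by
      intro j hj
      interval_cases j
      · simpa using h0
      · simpa using h1
      · simpa using h2) H1
  refine ⟨a, b, ?_⟩
  simpa [Finset.sum_range_succ] using c

end Mj

/-- correlation sum -/
def corr (f : ℕ → ℝ) (x : ℝ) (k : ℕ) : ℝ := ∑' j, f j * f (j + k) * x ^ j

/-- the standing bounds on a scaled coefficient sequence: `f 0 = 1`, `f 1`, `f 2` individually and
`|f j| ≤ F s^j` for `j ≥ 3` -/
structure SeqB (M s P1 P1' P2 P2' F F' : ℝ) (f g : ℕ → ℝ) : Prop where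
  z : f 0 = 1
  z' : g 0 = 1
  one : Mj M P1 P1' (f 1) (g 1)
  two : Mj M P2 P2' (f 2) (g 2)
  tail : ∀ j, 3 ≤ j → Mj M (F * s ^ j) (F' * s ^ j) (f j) (g j)

namespace SeqB

variable {M s P1 P1' P2 P2' F F' : ℝ} {f g : ℕ → ℝ}

theorem zero (H : SeqB M s P1 P1' P2 P2' F F' f g) : Mj M 1 0 (f 0) (g 0) := by
  rw [H.z, H.z']; exact Mj.const_le M (by simp)

/-- the tail factor `1 + P1 s x + P2 s^2 x^2 + F y^3/(1-y)`, `y = s^2 x`, without the one -/
def tl (s P1 P2 F x : ℝ) : ℝ :=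
  P1 * (s * x) + P2 * (s * x) ^ 2 + F * (s ^ 2 * x) ^ 3 / (1 - s ^ 2 * x)

theorem corr_tail (H : SeqB M s P1 P1' P2 P2' F F' f g) {x : ℝ} (hx : 0 ≤ x)
    (hx1 : s ^ 2 * x < 1) {k : ℕ} (hk : 3 ≤ k) :
    Summable (fun j => f j * f (j + k) * x ^ j) ∧ Summable (fun j => g j * g (j + k) * x ^ j) ∧
    Mj M (F * s ^ k * (1 + tl s P1 P2 F x))
      (F' * s ^ k * (1 + tl s P1 P2 F x) + F * s ^ k * tl s P1' P2' F' x)
      (corr f x k) (corr g x k) ∧
    Mj M (F * s ^ k * tl s P1 P2 F x)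
      (F' * s ^ k * tl s P1 P2 F x + F * s ^ k * tl s P1' P2' F' x)
      (corr f x k - f k) (corr g x k - g k) := by
  have hy0 : 0 ≤ s ^ 2 * x := by positivity
  have hxc : ∀ (m : ℕ), |x ^ m| ≤ x ^ m := fun m => (abs_of_nonneg (pow_nonneg hx m)).le
  have t : ∀ m, 3 ≤ m → Mj M (F * s ^ m) (F' * s ^ m) (f m) (g m) := H.tail
  have m0 : Mj M (F * s ^ k) (F' * s ^ k) (f 0 * f (0 + k) * x ^ 0) (g 0 * g (0 + k) * x ^ 0) := by
    rw [H.z, H.z', zero_add, pow_zero, one_mul, one_mul, mul_one, mul_one]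
    exact t k hk
  have m1 := ((H.one.mul (t (1 + k) (by omega))).mul_const_le (hxc 1))
  have m2 := ((H.two.mul (t (2 + k) (by omega))).mul_const_le (hxc 2))
  have m3 : ∀ j, Mj M ((F * F * s ^ k * (s ^ 2 * x) ^ 3) * (s ^ 2 * x) ^ j)
      (((F' * F + F * F') * s ^ k * (s ^ 2 * x) ^ 3) * (s ^ 2 * x) ^ j)
      (f (3 + j) * f (3 + j + k) * x ^ (3 + j)) (g (3 + j) * g (3 + j + k) * x ^ (3 + j)) := by
    intro j
    have h := ((t (3 + j) (by omega)).mul (t (3 + j + k) (by omega))).mul_const_le (hxc (3 + j))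
    refine h.congr rfl rfl ?_ ?_
    · rw [mul_pow (s ^ 2) x 3, mul_pow (s ^ 2) x j, ← pow_mul, ← pow_mul]; ring
    · rw [mul_pow (s ^ 2) x 3, mul_pow (s ^ 2) x j, ← pow_mul, ← pow_mul]; ring
  obtain ⟨a, b, c⟩ := Mj.tsum3 hy0 hx1 (f := fun j => f j * f (j + k) * x ^ j)
    (g := fun j => g j * g (j + k) * x ^ j) m0 m1 m2 m3
  refine ⟨a, b, c.congr rfl rfl ?_ ?_, ?_⟩
  · unfold tl; rw [pow_add, pow_add]; ring
  · unfold tl; rw [pow_add, pow_add]; ring
  · have hz : Mj M 0 0 ((fun j => if j = 0 then 0 else f j * f (j + k) * x ^ j) 0)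
        ((fun j => if j = 0 then 0 else g j * g (j + k) * x ^ j) 0) := by
      simp only [if_true]
      exact Mj.zero M
    obtain ⟨a', b', c'⟩ := Mj.tsum3 hy0 hx1
      (f := fun j => if j = 0 then 0 else f j * f (j + k) * x ^ j)
      (g := fun j => if j = 0 then 0 else g j * g (j + k) * x ^ j) hz
      (by simpa using m1) (by simpa using m2) (by
        intro j
        have := m3 j
        simpa [show 3 + j ≠ 0 by omega] using this)
    have e : ∀ (h : ℕ → ℝ), h 0 = 1 → Summable (fun j => h j * h (j + k) * x ^ j) →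
        ∑' j, (if j = 0 then 0 else h j * h (j + k) * x ^ j) = corr h x k - h k := by
      intro h h0 hs
      have h1 := hs.tsum_eq_add_tsum_ite 0
      unfold corr
      rw [h1]
      simp [h0]
    refine c'.congr (e f H.z a) (e g H.z' b) ?_ ?_
    · unfold tl; rw [pow_add, pow_add]; ring
    · unfold tl; rw [pow_add, pow_add]; ring

theorem corr_two (H : SeqB M s P1 P1' P2 P2' F F' f g) {x : ℝ} (hx : 0 ≤ x)
    (hx1 : s ^ 2 * x < 1) :
    Summable (fun j => f j * f (j + 2) * x ^ j) ∧ Summable (fun j => g j * g (j + 2) * x ^ j) ∧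
    Mj M (P1 * F * s ^ 3 * x + P2 * F * s ^ 4 * x ^ 2
        + F * F * s ^ 2 * (s ^ 2 * x) ^ 3 / (1 - s ^ 2 * x))
      ((P1' * F + P1 * F') * s ^ 3 * x + (P2' * F + P2 * F') * s ^ 4 * x ^ 2
        + 2 * F * F' * s ^ 2 * (s ^ 2 * x) ^ 3 / (1 - s ^ 2 * x))
      (corr f x 2 - f 2) (corr g x 2 - g 2) := by
  have hy0 : 0 ≤ s ^ 2 * x := by positivity
  have hxc : ∀ (m : ℕ), |x ^ m| ≤ x ^ m := fun m => (abs_of_nonneg (pow_nonneg hx m)).le
  have t : ∀ m, 3 ≤ m → Mj M (F * s ^ m) (F' * s ^ m) (f m) (g m) := H.tail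
  have m0 : Mj M P2 P2' (f 0 * f (0 + 2) * x ^ 0) (g 0 * g (0 + 2) * x ^ 0) := by
    rw [H.z, H.z', zero_add, pow_zero, one_mul, one_mul, mul_one, mul_one]
    exact H.two
  have m1 := ((H.one.mul (t (1 + 2) (by omega))).mul_const_le (hxc 1))
  have m2 := ((H.two.mul (t (2 + 2) (by omega))).mul_const_le (hxc 2))
  have m3 : ∀ j, Mj M ((F * F * s ^ 2 * (s ^ 2 * x) ^ 3) * (s ^ 2 * x) ^ j)
      (((F' * F + F * F') * s ^ 2 * (s ^ 2 * x) ^ 3) * (s ^ 2 * x) ^ j)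
      (f (3 + j) * f (3 + j + 2) * x ^ (3 + j)) (g (3 + j) * g (3 + j + 2) * x ^ (3 + j)) := by
    intro j
    have h := ((t (3 + j) (by omega)).mul (t (3 + j + 2) (by omega))).mul_const_le (hxc (3 + j))
    refine h.congr rfl rfl ?_ ?_
    · rw [mul_pow (s ^ 2) x 3, mul_pow (s ^ 2) x j, ← pow_mul, ← pow_mul]; ring
    · rw [mul_pow (s ^ 2) x 3, mul_pow (s ^ 2) x j, ← pow_mul, ← pow_mul]; ring
  obtain ⟨a, b, _⟩ := Mj.tsum3 hy0 hx1 (f := fun j => f j * f (j + 2) * x ^ j)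
    (g := fun j => g j * g (j + 2) * x ^ j) m0 m1 m2 m3
  refine ⟨a, b, ?_⟩
  have hz : Mj M 0 0 ((fun j => if j = 0 then 0 else f j * f (j + 2) * x ^ j) 0)
      ((fun j => if j = 0 then 0 else g j * g (j + 2) * x ^ j) 0) := by
    simp only [if_true]
    exact Mj.zero M
  obtain ⟨a', b', c'⟩ := Mj.tsum3 hy0 hx1
    (f := fun j => if j = 0 then 0 else f j * f (j + 2) * x ^ j)
    (g := fun j => if j = 0 then 0 else g j * g (j + 2) * x ^ j) hz
    (by simpa using m1) (by simpa using m2) (by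
      intro j
      have := m3 j
      simpa [show 3 + j ≠ 0 by omega] using this)
  have e : ∀ (h : ℕ → ℝ), h 0 = 1 → Summable (fun j => h j * h (j + 2) * x ^ j) →
      ∑' j, (if j = 0 then 0 else h j * h (j + 2) * x ^ j) = corr h x 2 - h 2 := by
    intro h h0 hs
    have h1 := hs.tsum_eq_add_tsum_ite 0
    unfold corr
    rw [h1]
    simp [h0]
  refine c'.congr (e f H.z a) (e g H.z' b) ?_ ?_
  · ring
  · ring

theorem corr_one (H : SeqB M s P1 P1' P2 P2' F F' f g) {x : ℝ} (hx : 0 ≤ x)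
    (hx1 : s ^ 2 * x < 1) :
    Summable (fun j => f j * f (j + 1) * x ^ j) ∧ Summable (fun j => g j * g (j + 1) * x ^ j) ∧
    Mj M (P1 * P2 * x + P2 * F * s ^ 3 * x ^ 2
        + F * F * s * (s ^ 2 * x) ^ 3 / (1 - s ^ 2 * x))
      ((P1' * P2 + P1 * P2') * x + (P2' * F + P2 * F') * s ^ 3 * x ^ 2
        + 2 * F * F' * s * (s ^ 2 * x) ^ 3 / (1 - s ^ 2 * x))
      (corr f x 1 - f 1) (corr g x 1 - g 1) := by
  have hy0 : 0 ≤ s ^ 2 * x := by positivity
  have hxc : ∀ (m : ℕ), |x ^ m| ≤ x ^ m := fun m => (abs_of_nonneg (pow_nonneg hx m)).le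
  have t : ∀ m, 3 ≤ m → Mj M (F * s ^ m) (F' * s ^ m) (f m) (g m) := H.tail
  have m0 : Mj M P1 P1' (f 0 * f (0 + 1) * x ^ 0) (g 0 * g (0 + 1) * x ^ 0) := by
    rw [H.z, H.z', zero_add, pow_zero, one_mul, one_mul, mul_one, mul_one]
    exact H.one
  have m1 : Mj M (P1 * P2 * x ^ 1) ((P1' * P2 + P1 * P2') * x ^ 1)
      (f 1 * f (1 + 1) * x ^ 1) (g 1 * g (1 + 1) * x ^ 1) :=
    (H.one.mul H.two).mul_const_le (hxc 1)
  have m2 := ((H.two.mul (t (2 + 1) (by omega))).mul_const_le (hxc 2))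
  have m3 : ∀ j, Mj M ((F * F * s * (s ^ 2 * x) ^ 3) * (s ^ 2 * x) ^ j)
      (((F' * F + F * F') * s * (s ^ 2 * x) ^ 3) * (s ^ 2 * x) ^ j)
      (f (3 + j) * f (3 + j + 1) * x ^ (3 + j)) (g (3 + j) * g (3 + j + 1) * x ^ (3 + j)) := by
    intro j
    have h := ((t (3 + j) (by omega)).mul (t (3 + j + 1) (by omega))).mul_const_le (hxc (3 + j))
    refine h.congr rfl rfl ?_ ?_
    · rw [mul_pow (s ^ 2) x 3, mul_pow (s ^ 2) x j, ← pow_mul, ← pow_mul]; ring
    · rw [mul_pow (s ^ 2) x 3, mul_pow (s ^ 2) x j, ← pow_mul, ← pow_mul]; ring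
  obtain ⟨a, b, _⟩ := Mj.tsum3 hy0 hx1 (f := fun j => f j * f (j + 1) * x ^ j)
    (g := fun j => g j * g (j + 1) * x ^ j) m0 m1 m2 m3
  refine ⟨a, b, ?_⟩
  have hz : Mj M 0 0 ((fun j => if j = 0 then 0 else f j * f (j + 1) * x ^ j) 0)
      ((fun j => if j = 0 then 0 else g j * g (j + 1) * x ^ j) 0) := by
    simp only [if_true]
    exact Mj.zero M
  obtain ⟨a', b', c'⟩ := Mj.tsum3 hy0 hx1
    (f := fun j => if j = 0 then 0 else f j * f (j + 1) * x ^ j)
    (g := fun j => if j = 0 then 0 else g j * g (j + 1) * x ^ j) hz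
    (by simpa using m1) (by simpa using m2) (by
      intro j
      have := m3 j
      simpa [show 3 + j ≠ 0 by omega] using this)
  have e : ∀ (h : ℕ → ℝ), h 0 = 1 → Summable (fun j => h j * h (j + 1) * x ^ j) →
      ∑' j, (if j = 0 then 0 else h j * h (j + 1) * x ^ j) = corr h x 1 - h 1 := by
    intro h h0 hs
    have h1 := hs.tsum_eq_add_tsum_ite 0
    unfold corr
    rw [h1]
    simp [h0]
  refine c'.congr (e f H.z a) (e g H.z' b) ?_ ?_
  · ring
  · ring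

/-- `q_0 - φ_1^2 x` -/
theorem corr_zero (H : SeqB M s P1 P1' P2 P2' F F' f g) {x : ℝ} (hx : 0 ≤ x)
    (hx1 : s ^ 2 * x < 1) :
    Summable (fun j => f j * f (j + 0) * x ^ j) ∧ Summable (fun j => g j * g (j + 0) * x ^ j) ∧
    Mj M (P2 ^ 2 * x ^ 2 + F ^ 2 * (s ^ 2 * x) ^ 3 / (1 - s ^ 2 * x))
      (2 * P2 * P2' * x ^ 2 + 2 * F * F' * (s ^ 2 * x) ^ 3 / (1 - s ^ 2 * x))
      (corr f x 0 - 1 - f 1 ^ 2 * x) (corr g x 0 - 1 - g 1 ^ 2 * x) := by
  have hy0 : 0 ≤ s ^ 2 * x := by positivity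
  have hxc : ∀ (m : ℕ), |x ^ m| ≤ x ^ m := fun m => (abs_of_nonneg (pow_nonneg hx m)).le
  have t : ∀ m, 3 ≤ m → Mj M (F * s ^ m) (F' * s ^ m) (f m) (g m) := H.tail
  have m0 : Mj M 1 0 (f 0 * f (0 + 0) * x ^ 0) (g 0 * g (0 + 0) * x ^ 0) := by
    rw [zero_add, H.z, H.z', pow_zero, one_mul, one_mul]
    exact Mj.const_le M (by simp)
  have m1 : Mj M (P1 * P1 * x ^ 1) ((P1' * P1 + P1 * P1') * x ^ 1)
      (f 1 * f (1 + 0) * x ^ 1) (g 1 * g (1 + 0) * x ^ 1) :=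
    (H.one.mul H.one).mul_const_le (hxc 1)
  have m2 : Mj M (P2 * P2 * x ^ 2) ((P2' * P2 + P2 * P2') * x ^ 2)
      (f 2 * f (2 + 0) * x ^ 2) (g 2 * g (2 + 0) * x ^ 2) :=
    (H.two.mul H.two).mul_const_le (hxc 2)
  have m3 : ∀ j, Mj M ((F * F * (s ^ 2 * x) ^ 3) * (s ^ 2 * x) ^ j)
      (((F' * F + F * F') * (s ^ 2 * x) ^ 3) * (s ^ 2 * x) ^ j)
      (f (3 + j) * f (3 + j + 0) * x ^ (3 + j)) (g (3 + j) * g (3 + j + 0) * x ^ (3 + j)) := by
    intro j
    have h := ((t (3 + j) (by omega)).mul (t (3 + j + 0) (by omega))).mul_const_le (hxc (3 + j))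
    refine h.congr rfl rfl ?_ ?_
    · rw [add_zero, mul_pow (s ^ 2) x 3, mul_pow (s ^ 2) x j, ← pow_mul, ← pow_mul]; ring
    · rw [add_zero, mul_pow (s ^ 2) x 3, mul_pow (s ^ 2) x j, ← pow_mul, ← pow_mul]; ring
  obtain ⟨a, b, _⟩ := Mj.tsum3 hy0 hx1 (f := fun j => f j * f (j + 0) * x ^ j)
    (g := fun j => g j * g (j + 0) * x ^ j) m0 m1 m2 m3
  refine ⟨a, b, ?_⟩
  have hz : Mj M 0 0 ((fun j => if j < 2 then 0 else f j * f (j + 0) * x ^ j) 0)
      ((fun j => if j < 2 then 0 else g j * g (j + 0) * x ^ j) 0) := by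
    simp only [Nat.ofNat_pos, if_true]
    exact Mj.zero M
  have hz1 : Mj M 0 0 ((fun j => if j < 2 then 0 else f j * f (j + 0) * x ^ j) 1)
      ((fun j => if j < 2 then 0 else g j * g (j + 0) * x ^ j) 1) := by
    simp only [Nat.one_lt_ofNat, if_true]
    exact Mj.zero M
  obtain ⟨a', b', c'⟩ := Mj.tsum3 hy0 hx1
    (f := fun j => if j < 2 then 0 else f j * f (j + 0) * x ^ j)
    (g := fun j => if j < 2 then 0 else g j * g (j + 0) * x ^ j) hz hz1
    (by simpa using m2) (by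
      intro j
      have := m3 j
      simpa [show ¬(3 + j < 2) by omega] using this)
  have e : ∀ (h : ℕ → ℝ), h 0 = 1 → Summable (fun j => h j * h (j + 0) * x ^ j) →
      Summable (fun j => if j < 2 then 0 else h j * h (j + 0) * x ^ j) →
      ∑' j, (if j < 2 then 0 else h j * h (j + 0) * x ^ j) = corr h x 0 - 1 - h 1 ^ 2 * x := by
    intro h h0 hs hs'
    have h1 := hs.sum_add_tsum_nat_add 2
    have h2 := hs'.sum_add_tsum_nat_add 2
    unfold corr
    rw [← h1, ← h2]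
    simp only [Finset.sum_range_succ, Finset.sum_range_zero, h0]
    simp only [show ∀ i : ℕ, ¬(i + 2 < 2) by intro i; omega, if_false]
    norm_num
    ring
  refine c'.congr (e f H.z a a') (e g H.z' b b') ?_ ?_
  · ring
  · ring

end SeqB

/-! ### continuity of sums -/

theorem continuous_tsum_geom {X : Type*} [TopologicalSpace X] {f : ℕ → X → ℝ}
    (hf : ∀ j, Continuous (f j)) {C q : ℝ} (hq0 : 0 ≤ q) (hq : q < 1)
    (hb : ∀ j x, |f j x| ≤ C * q ^ j) : Continuous (fun x => ∑' j, f j x) :=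
  continuous_tsum hf ((summable_geometric_of_lt_one hq0 hq).mul_left C) fun j x => by
    rw [Real.norm_eq_abs]; exact hb j x

end Pool.Agent.SCH
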