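import Pool.Agent.MP_83fd13_an.SCH.PTK
import Pool.Agent.MP_83fd13_an.SCH.THat
import Pool.Agent.MP_83fd13_an.SCH.WieE

/-!
# [SCH] majorants of `hG (k+3)` (helper4)

Common factor of mode `k + 3`: `cv s k = 2^(k+3) s^(42(k+2))`.
-/

set_option autoImplicit false

namespace SCHT

open MeasureTheory Set Filter Topology
open Pool.Agent.SCH SCHB SCHF SCHS

noncomputable section

/-- factor of `hq k`, `k ≥ 3` -/
def cq (s : ℝ) (k : ℕ) : ℝ := 2 ^ k * s ^ (42 * k)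

/-- factor of `hV (k+3)`, `hG (k+3)` -/
def cv (s : ℝ) (k : ℕ) : ℝ := 2 ^ (k + 3) * s ^ (42 * (k + 2))

theorem cq_nonneg {s : ℝ} (hs : 0 ≤ s) (k : ℕ) : 0 ≤ cq s k := by unfold cq; positivity

theorem cv_nonneg {s : ℝ} (hs : 0 ≤ s) (k : ℕ) : 0 ≤ cv s k := by unfold cv; positivity

/-- the inputs at a fixed point `s` -/
structure GIn (M s ρ u a b : ℝ) (f g : ℕ → ℝ) (U W : ℕ → ℝ → ℝ) (cu c2 c4 c5 : ℕ) (pj : TL)
    (p1 p2 pt r0 rt v0 v1 v2 vt : PL) : Prop where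
  hM : 0 ≤ M
  hs : 0 ≤ s
  hs1 : s ≤ 1
  hu0 : 0 ≤ u
  hu : u ≤ (cu : ℝ) / UU
  h2 : 2 * u ≤ (c2 : ℝ) / UU
  h4 : 4 * u ^ 2 ≤ (c4 : ℝ) / UU
  hu1 : 4 * u < 1
  h5 : 2 * (4 * u) ^ 3 / (1 - 4 * u) ≤ (c5 : ℝ) / UU
  hJ0 : |s ^ 42 * J 0 (ρ * s)| ≤ pj.ev s
  q1 : TK M s (s ^ 42) p1 (hq u f 1 s) (hq u g 1 s)
  q2 : TK M s (s ^ 84) p2 (hq u f 2 s) (hq u g 2 s)
  qt : ∀ k, TK M s (cq s (k + 3)) pt (hq u f (k + 3) s) (hq u g (k + 3) s)
  r0 : TJ M s r0 (hqr u f 0 s) (hqr u g 0 s)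
  rt : ∀ k, TK M s (cq s (k + 3)) rt (hqr u f (k + 3) s) (hqr u g (k + 3) s)
  v0 : TJ M s v0 (hV ρ u a f U 0 s) (hV ρ u b g W 0 s)
  v1 : TJ M s v1 (hV ρ u a f U 1 s) (hV ρ u b g W 1 s)
  v2 : TK M s (s ^ 42) v2 (hV ρ u a f U 2 s) (hV ρ u b g W 2 s)
  vt : ∀ k, TK M s (cv s k) vt (hV ρ u a f U (k + 3) s) (hV ρ u b g W (k + 3) s)

/-- the part common to all `k ≥ 3` without the infinite sum -/
def gA (D cu : ℕ) (pj : TL) (pt rt v0 : PL) : PL :=
  (PL.sc cu ⟨TL.mulD D rt.v pj, TL.mulD D rt.d pj⟩).add (PL.sc cu (PL.mulD D pt.shift v0))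

def gD (D cu : ℕ) (r0 vt : PL) : PL := PL.sc cu (PL.mulD D r0 vt)

/-- the infinite sum -/
def gE (D c2 c4 c5 : ℕ) (p1 p2 pt v1 v2 vt : PL) : PL :=
  ((PL.sc c2 ((PL.mulD D pt v1).shift.shift)).add (PL.sc c2 ((PL.mulD D p1 vt).shift.shift))).add
  (((PL.sc c4 ((PL.mulD D pt v2).shift.shift.shift.shift)).add
    (PL.sc c4 ((PL.mulD D p2 vt).shift.shift.shift.shift))).add (PL.sc c5 (PL.mulD D pt vt)))

/-- convolution, mode 3 -/
def gS3 (D : ℕ) (p1 p2 v1 v2 : PL) : PL :=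
  (PL.sc 12500000 (PL.mulD D p1 v2)).add (PL.sc 12500000 (PL.mulD D p2 v1))

/-- convolution, mode 4 -/
def gS4 (D : ℕ) (p1 p2 pt v1 v2 vt : PL) : PL :=
  ((PL.sc 50000000 (PL.mulD D p1 vt)).add (PL.sc 6250000 (PL.mulD D p2 v2))).add
    (PL.sc 50000000 (PL.mulD D pt v1))

/-- convolution, mode `n + 5`, without the middle terms -/
def gS5 (D : ℕ) (p1 p2 pt v1 v2 vt : PL) : PL :=
  (((PL.sc 25000000 (PL.mulD D p2 vt)).add (PL.sc 50000000 (PL.mulD D p1 vt))).add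
    (PL.sc 25000000 (PL.mulD D pt v2))).add (PL.sc 50000000 (PL.mulD D pt v1))

section

variable {M s ρ u a b : ℝ} {f g : ℕ → ℝ} {U W : ℕ → ℝ → ℝ} {cu c2 c4 c5 : ℕ} {pj : TL}
  {p1 p2 pt r0 rt v0 v1 v2 vt : PL} {D : ℕ}

namespace GIn

variable (I : GIn M s ρ u a b f g U W cu c2 c4 c5 pj p1 p2 pt r0 rt v0 v1 v2 vt)

include I

theorem absu : |u| ≤ (cu : ℝ) / UU := by rw [abs_of_nonneg I.hu0]; exact I.hu

theorem tA (D k : ℕ) : TK M s (cv s k) (gA D cu pj pt rt v0)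
    (u * (hqr u f (k + 3) s * J 0 (ρ * s)) + u * (hq u f (k + 3) s * hV ρ u a f U 0 s))
    (u * (hqr u g (k + 3) s * J 0 (ρ * s)) + u * (hq u g (k + 3) s * hV ρ u b g W 0 s)) := by
  have hc := cv_nonneg I.hs k
  have e : cq s (k + 3) = cv s k * s ^ 42 := by
    unfold cq cv
    have : 42 * (k + 3) = 42 * (k + 2) + 42 := by ring
    rw [this, pow_add s]
    ring
  have h1 := (TK.mulY I.hM I.hs I.hs1 hc D I.hJ0 ((I.rt k).congr_c e)).smul I.hM I.hs I.hs1
    I.absu hc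
  have h2 := ((TK.mul I.hM I.hs I.hs1 hc zero_le_one D ((I.qt k).congr_c e).shift
    I.v0.toTK).congr_c (mul_one _)).smul I.hM I.hs I.hs1 I.absu hc
  exact h1.add h2

theorem tD (D k : ℕ) : TK M s (cv s k) (gD D cu r0 vt)
    (u * (hqr u f 0 s * hV ρ u a f U (k + 3) s)) (u * (hqr u g 0 s * hV ρ u b g W (k + 3) s)) := by
  have hc := cv_nonneg I.hs k
  exact ((TK.mul I.hM I.hs I.hs1 zero_le_one hc D I.r0.toTK (I.vt k)).congr_c
    (one_mul _)).smul I.hM I.hs I.hs1 I.absu hc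

/-- shifting twice with a scalar -/
theorem sc2 {c x : ℝ} {P : PL} {F G : ℝ} {m : ℕ} (hc : 0 ≤ c) (hx : |x| ≤ (m : ℝ) / UU)
    (h : TK M s (c * s ^ 42 * s ^ 42) P F G) : TK M s c (PL.sc m (P.shift.shift)) (x * F) (x * G) :=
  (h.shift.shift).smul I.hM I.hs I.hs1 hx hc

theorem tE (D k : ℕ) : TK M s (cv s k) (gE D c2 c4 c5 p1 p2 pt v1 v2 vt)
    (∑' m : ℕ, u ^ (m + 1) * (hq u f (k + m + 4) s * hV ρ u a f U (m + 1) s +
        hq u f (m + 1) s * hV ρ u a f U (k + m + 4) s))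
    (∑' m : ℕ, u ^ (m + 1) * (hq u g (k + m + 4) s * hV ρ u b g W (m + 1) s +
        hq u g (m + 1) s * hV ρ u b g W (k + m + 4) s)) := by
  have hM := I.hM
  have hs := I.hs
  have hs1 := I.hs1
  have hc := cv_nonneg hs k
  have hR0 : 0 ≤ s ^ 42 := pow_nonneg hs _
  have hu0 := I.hu0
  -- term 0
  have e0 : cq s (k + 4) * 1 = cv s k * 2 * s ^ 42 * s ^ 42 := by
    unfold cq cv
    have : 42 * (k + 4) = 42 * (k + 2) + 42 + 42 := by ring
    rw [this, pow_add s, pow_add s]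
    ring
  have e0' : s ^ 42 * cv s (k + 1) = cv s k * 2 * s ^ 42 * s ^ 42 := by
    unfold cv
    have : 42 * (k + 1 + 2) = 42 * (k + 2) + 42 := by ring
    rw [this, pow_add s]
    ring
  have a0 : TK M s (cv s k) ((PL.sc c2 ((PL.mulD D pt v1).shift.shift)).add
      (PL.sc c2 ((PL.mulD D p1 vt).shift.shift)))
      (u ^ (0 + 1) * (hq u f (k + 0 + 4) s * hV ρ u a f U (0 + 1) s +
        hq u f (0 + 1) s * hV ρ u a f U (k + 0 + 4) s))
      (u ^ (0 + 1) * (hq u g (k + 0 + 4) s * hV ρ u b g W (0 + 1) s +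
        hq u g (0 + 1) s * hV ρ u b g W (k + 0 + 4) s)) := by
    have h1 := (TK.mul hM hs hs1 (cq_nonneg hs _) zero_le_one D (I.qt (k + 1)) I.v1.toTK)
    have h2 := (TK.mul hM hs hs1 hR0 (cv_nonneg hs _) D I.q1 (I.vt (k + 1)))
    have h2u : |2 * u| ≤ (c2 : ℝ) / UU := by
      rw [abs_of_nonneg (by linarith)]; exact I.h2
    have g1 : ∀ {P : PL} {F G : ℝ}, TK M s (cv s k * 2 * s ^ 42 * s ^ 42) P F G →
        TK M s (cv s k) (PL.sc c2 (P.shift.shift)) (u * F) (u * G) := by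
      intro P F G h
      have h' : TK M s (cv s k * s ^ 42 * s ^ 42) P (1 / 2 * F) (1 / 2 * G) := by
        refine ⟨?_, ?_, ?_⟩
        · rw [abs_mul, abs_of_pos (by norm_num : (0:ℝ) < 1 / 2)]
          have := h.l
          calc 1 / 2 * |F| ≤ 1 / 2 * (cv s k * 2 * s ^ 42 * s ^ 42 * P.v.ev s) := by linarith
            _ = _ := by ring
        · rw [abs_mul, abs_of_pos (by norm_num : (0:ℝ) < 1 / 2)]
          have := h.r
          calc 1 / 2 * |G| ≤ 1 / 2 * (cv s k * 2 * s ^ 42 * s ^ 42 * P.v.ev s) := by linarith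
            _ = _ := by ring
        · rw [← mul_sub, abs_mul, abs_of_pos (by norm_num : (0:ℝ) < 1 / 2)]
          have := h.d
          calc 1 / 2 * |F - G| ≤ 1 / 2 * (M * (cv s k * 2 * s ^ 42 * s ^ 42 * P.d.ev s)) := by
                linarith
            _ = _ := by ring
      exact (I.sc2 hc h2u h').congr (by ring) (by ring)
    refine ((g1 (h1.congr_c e0)).add (g1 (h2.congr_c e0'))).congr ?_ ?_
    · simp only [zero_add, add_zero, pow_one]
      ring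
    · simp only [zero_add, add_zero, pow_one]
      ring
  -- term 1
  have e1 : cq s (k + 5) * s ^ 42 = cv s k * 4 * s ^ 42 * s ^ 42 * s ^ 42 * s ^ 42 := by
    unfold cq cv
    have : 42 * (k + 5) = 42 * (k + 2) + 42 + 42 + 42 := by ring
    rw [this, pow_add s, pow_add s, pow_add s]
    ring
  have e1' : s ^ 84 * cv s (k + 2) = cv s k * 4 * s ^ 42 * s ^ 42 * s ^ 42 * s ^ 42 := by
    unfold cv
    have : 42 * (k + 2 + 2) = 42 * (k + 2) + 42 + 42 := by ring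
    rw [this, pow_add s, pow_add s]
    ring
  have a1 : TK M s (cv s k) ((PL.sc c4 ((PL.mulD D pt v2).shift.shift.shift.shift)).add
      (PL.sc c4 ((PL.mulD D p2 vt).shift.shift.shift.shift)))
      (u ^ (1 + 1) * (hq u f (k + 1 + 4) s * hV ρ u a f U (1 + 1) s +
        hq u f (1 + 1) s * hV ρ u a f U (k + 1 + 4) s))
      (u ^ (1 + 1) * (hq u g (k + 1 + 4) s * hV ρ u b g W (1 + 1) s +
        hq u g (1 + 1) s * hV ρ u b g W (k + 1 + 4) s)) := by
    have h1 := (TK.mul hM hs hs1 (cq_nonneg hs _) hR0 D (I.qt (k + 2)) I.v2)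
    have h2 := (TK.mul hM hs hs1 (pow_nonneg hs 84) (cv_nonneg hs _) D I.q2 (I.vt (k + 2)))
    have h4u : |4 * u ^ 2| ≤ (c4 : ℝ) / UU := by
      rw [abs_of_nonneg (by positivity)]; exact I.h4
    have g1 : ∀ {P : PL} {F G : ℝ},
        TK M s (cv s k * 4 * s ^ 42 * s ^ 42 * s ^ 42 * s ^ 42) P F G →
        TK M s (cv s k) (PL.sc c4 (P.shift.shift.shift.shift)) (u ^ 2 * F) (u ^ 2 * G) := by
      intro P F G h
      have h' : TK M s (cv s k * s ^ 42 * s ^ 42 * s ^ 42 * s ^ 42) P (1 / 4 * F) (1 / 4 * G) := by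
        refine ⟨?_, ?_, ?_⟩
        · rw [abs_mul, abs_of_pos (by norm_num : (0:ℝ) < 1 / 4)]
          have := h.l
          calc 1 / 4 * |F| ≤ 1 / 4 * (cv s k * 4 * s ^ 42 * s ^ 42 * s ^ 42 * s ^ 42 * P.v.ev s) := by
                linarith
            _ = _ := by ring
        · rw [abs_mul, abs_of_pos (by norm_num : (0:ℝ) < 1 / 4)]
          have := h.r
          calc 1 / 4 * |G| ≤ 1 / 4 * (cv s k * 4 * s ^ 42 * s ^ 42 * s ^ 42 * s ^ 42 * P.v.ev s) := by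
                linarith
            _ = _ := by ring
        · rw [← mul_sub, abs_mul, abs_of_pos (by norm_num : (0:ℝ) < 1 / 4)]
          have := h.d
          calc 1 / 4 * |F - G|
              ≤ 1 / 4 * (M * (cv s k * 4 * s ^ 42 * s ^ 42 * s ^ 42 * s ^ 42 * P.d.ev s)) := by
                linarith
            _ = _ := by ring
      exact ((h'.shift.shift.shift.shift).smul hM hs hs1 h4u hc).congr (by ring) (by ring)
    refine ((g1 (h1.congr_c e1)).add (g1 (h2.congr_c e1'))).congr ?_ ?_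
    · ring
    · ring
  -- tail
  have e2 : ∀ j : ℕ, u ^ (2 + j + 1) * (cq s (k + j + 3 + 3) * cv s j) ≤
      cv s k * (4 * u) ^ 3 * (4 * u) ^ j := by
    intro j
    have e : u ^ (2 + j + 1) * (cq s (k + j + 3 + 3) * cv s j)
        = cv s k * (4 * u) ^ 3 * (4 * u) ^ j * s ^ (42 * (2 * j + 6)) := by
      unfold cq cv
      have h1 : 42 * (k + j + 3 + 3) + 42 * (j + 2) = 42 * (k + 2) + 42 * (2 * j + 6) := by ring
      have h2 : (2:ℝ) ^ (k + j + 3 + 3) * 2 ^ (j + 3) = 2 ^ (k + 3) * 4 ^ 3 * 4 ^ j := by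
        rw [show (4:ℝ) = 2 ^ 2 by norm_num, ← pow_mul, ← pow_mul, ← pow_add, ← pow_add, ← pow_add]
        congr 1
        ring
      have h3 : s ^ (42 * (k + j + 3 + 3)) * s ^ (42 * (j + 2))
          = s ^ (42 * (k + 2)) * s ^ (42 * (2 * j + 6)) := by
        rw [← pow_add, ← pow_add, h1]
      calc u ^ (2 + j + 1) * (2 ^ (k + j + 3 + 3) * s ^ (42 * (k + j + 3 + 3)) *
            (2 ^ (j + 3) * s ^ (42 * (j + 2))))
          = u ^ (2 + j + 1) * ((2 ^ (k + j + 3 + 3) * 2 ^ (j + 3)) *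
            (s ^ (42 * (k + j + 3 + 3)) * s ^ (42 * (j + 2)))) := by ring
        _ = u ^ (2 + j + 1) * ((2 ^ (k + 3) * 4 ^ 3 * 4 ^ j) *
            (s ^ (42 * (k + 2)) * s ^ (42 * (2 * j + 6)))) := by rw [h2, h3]
        _ = _ := by ring
    rw [e]
    exact mul_le_of_le_one_right (by positivity) (pow_le_one₀ hs hs1)
  have e2' : ∀ j : ℕ, cq s (j + 3) * cv s (k + j + 3) = cq s (k + j + 3 + 3) * cv s j := by
    intro j
    unfold cq cv
    have h2 : (2:ℝ) ^ (j + 3) * 2 ^ (k + j + 3 + 3) = 2 ^ (k + j + 3 + 3) * 2 ^ (j + 3) := by ring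
    have h3 : s ^ (42 * (j + 3)) * s ^ (42 * (k + j + 3 + 2))
        = s ^ (42 * (k + j + 3 + 3)) * s ^ (42 * (j + 2)) := by
      rw [← pow_add, ← pow_add]
      congr 1
      ring
    calc 2 ^ (j + 3) * s ^ (42 * (j + 3)) * (2 ^ (k + j + 3 + 3) * s ^ (42 * (k + j + 3 + 2)))
        = (2 ^ (j + 3) * 2 ^ (k + j + 3 + 3)) *
          (s ^ (42 * (j + 3)) * s ^ (42 * (k + j + 3 + 2))) := by ring
      _ = (2 ^ (k + j + 3 + 3) * 2 ^ (j + 3)) *
          (s ^ (42 * (k + j + 3 + 3)) * s ^ (42 * (j + 2))) := by rw [h2, h3]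
      _ = _ := by ring
  set B := PL.mulD D pt vt with hB
  have hBv : 0 ≤ B.v.ev s := B.v.ev_nonneg hs hs1
  have hBd : 0 ≤ B.d.ev s := B.d.ev_nonneg hs hs1
  have a2 : ∀ j, Mj M (cv s k * (4 * u) ^ 3 * (2 * B.v.ev s) * (4 * u) ^ j)
      (cv s k * (4 * u) ^ 3 * (2 * B.d.ev s) * (4 * u) ^ j)
      (u ^ (2 + j + 1) * (hq u f (k + (2 + j) + 4) s * hV ρ u a f U (2 + j + 1) s +
        hq u f (2 + j + 1) s * hV ρ u a f U (k + (2 + j) + 4) s))
      (u ^ (2 + j + 1) * (hq u g (k + (2 + j) + 4) s * hV ρ u b g W (2 + j + 1) s +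
        hq u g (2 + j + 1) s * hV ρ u b g W (k + (2 + j) + 4) s)) := by
    intro j
    have i1 : k + (2 + j) + 4 = k + j + 3 + 3 := by ring
    have i2 : 2 + j + 1 = j + 3 := by ring
    have h1 := TK.mul hM hs hs1 (cq_nonneg hs _) (cv_nonneg hs _) D (I.qt (k + j + 3)) (I.vt j)
    have h2 := (TK.mul hM hs hs1 (cq_nonneg hs _) (cv_nonneg hs _) D (I.qt j)
      (I.vt (k + j + 3))).congr_c (e2' j)
    have h3 := h1.add h2
    have h4 := Mj.const_mul_le (c := u ^ (2 + j + 1)) (C := u ^ (2 + j + 1))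
      (by rw [abs_of_nonneg (pow_nonneg hu0 _)]) h3
    rw [← hB] at h4
    have key : ∀ X : ℝ, 0 ≤ X → u ^ (2 + j + 1) * (cq s (k + j + 3 + 3) * cv s j * (X + X)) ≤
        cv s k * (4 * u) ^ 3 * (2 * X) * (4 * u) ^ j := by
      intro X hX
      calc u ^ (2 + j + 1) * (cq s (k + j + 3 + 3) * cv s j * (X + X))
          = u ^ (2 + j + 1) * (cq s (k + j + 3 + 3) * cv s j) * (2 * X) := by ring
        _ ≤ cv s k * (4 * u) ^ 3 * (4 * u) ^ j * (2 * X) :=
            mul_le_mul_of_nonneg_right (e2 j) (by linarith)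
        _ = _ := by ring
    have h5 := h4.mono hM (G := cv s k * (4 * u) ^ 3 * (2 * B.v.ev s) * (4 * u) ^ j)
      (G' := cv s k * (4 * u) ^ 3 * (2 * B.d.ev s) * (4 * u) ^ j)
      (by
        have := key _ hBv
        show u ^ (2 + j + 1) * (cq s (k + j + 3 + 3) * cv s j * (B.v.add B.v).ev s) ≤ _
        rw [TL.ev_add]; exact this)
      (by
        have := key _ hBd
        show u ^ (2 + j + 1) * (cq s (k + j + 3 + 3) * cv s j * (B.d.add B.d).ev s) ≤ _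
        rw [TL.ev_add]; exact this)
    rw [i1, i2] at *
    exact h5
  have hsum := Mj.tsum_tail (M := M)
    (F := fun j => if j = 0 then cv s k * ((PL.sc c2 ((PL.mulD D pt v1).shift.shift)).add
      (PL.sc c2 ((PL.mulD D p1 vt).shift.shift))).v.ev s else
      cv s k * ((PL.sc c4 ((PL.mulD D pt v2).shift.shift.shift.shift)).add
      (PL.sc c4 ((PL.mulD D p2 vt).shift.shift.shift.shift))).v.ev s)
    (F' := fun j => if j = 0 then cv s k * ((PL.sc c2 ((PL.mulD D pt v1).shift.shift)).add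
      (PL.sc c2 ((PL.mulD D p1 vt).shift.shift))).d.ev s else
      cv s k * ((PL.sc c4 ((PL.mulD D pt v2).shift.shift.shift.shift)).add
      (PL.sc c4 ((PL.mulD D p2 vt).shift.shift.shift.shift))).d.ev s)
    (f := fun m : ℕ => u ^ (m + 1) * (hq u f (k + m + 4) s * hV ρ u a f U (m + 1) s +
        hq u f (m + 1) s * hV ρ u a f U (k + m + 4) s))
    (g := fun m : ℕ => u ^ (m + 1) * (hq u g (k + m + 4) s * hV ρ u b g W (m + 1) s +
        hq u g (m + 1) s * hV ρ u b g W (k + m + 4) s))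
    (A := cv s k * (4 * u) ^ 3 * (2 * B.v.ev s)) (A' := cv s k * (4 * u) ^ 3 * (2 * B.d.ev s))
    (q := 4 * u) 2 (by linarith) I.hu1
    (by
      intro j hj
      interval_cases j
      · simp only [if_true]
        exact a0
      · simp only [one_ne_zero, if_false]
        exact a1) a2
  have h1u : 0 < 1 - 4 * u := by have := I.hu1; linarith
  have kt : ∀ X : ℝ, 0 ≤ X → ∀ L : TL, X = L.ev s →
      cv s k * (4 * u) ^ 3 * (2 * X) / (1 - 4 * u) ≤ cv s k * (L.sc c5).ev s := by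
    intro X hX L hL
    have e : cv s k * (4 * u) ^ 3 * (2 * X) / (1 - 4 * u)
        = cv s k * ((2 * (4 * u) ^ 3 / (1 - 4 * u)) * X) := by
      field_simp
    rw [e]
    refine mul_le_mul_of_nonneg_left ?_ hc
    refine (mul_le_mul_of_nonneg_right I.h5 hX).trans ?_
    rw [hL]
    exact TL.ev_sc hs hs1 c5 L
  refine hsum.2.2.mono hM ?_ ?_
  · rw [Finset.sum_range_succ, Finset.sum_range_one]
    simp only [if_true, one_ne_zero, if_false]
    show _ ≤ cv s k * (gE D c2 c4 c5 p1 p2 pt v1 v2 vt).v.ev s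
    have := kt _ hBv B.v rfl
    unfold gE
    rw [← hB]
    simp only [PL.add, TL.ev_add, PL.sc] at this ⊢
    nlinarith
  · rw [Finset.sum_range_succ, Finset.sum_range_one]
    simp only [if_true, one_ne_zero, if_false]
    show _ ≤ cv s k * (gE D c2 c4 c5 p1 p2 pt v1 v2 vt).d.ev s
    have := kt _ hBd B.d rfl
    unfold gE
    rw [← hB]
    simp only [PL.add, TL.ev_add, PL.sc] at this ⊢
    nlinarith

/-! ### the convolutions -/

omit I in
theorem r8 : ((12500000 : ℕ) : ℝ) / UU = 1 / 8 := by unfold UU; norm_num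
omit I in
theorem r16 : ((6250000 : ℕ) : ℝ) / UU = 1 / 16 := by unfold UU; norm_num
omit I in
theorem r2 : ((50000000 : ℕ) : ℝ) / UU = 1 / 2 := by unfold UU; norm_num
omit I in
theorem r4 : ((25000000 : ℕ) : ℝ) / UU = 1 / 4 := by unfold UU; norm_num

theorem tS3 (D : ℕ) : TK M s (cv s 0) (gS3 D p1 p2 v1 v2)
    (∑ i ∈ Finset.range 2, hq u f (i + 1) s * hV ρ u a f U (2 - i) s)
    (∑ i ∈ Finset.range 2, hq u g (i + 1) s * hV ρ u b g W (2 - i) s) := by
  have hM := I.hM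
  have hs := I.hs
  have hs1 := I.hs1
  have hc := cv_nonneg hs 0
  have hR0 : 0 ≤ s ^ 42 := pow_nonneg hs _
  have h1 := (TK.mul hM hs hs1 hR0 hR0 D I.q1 I.v2).congr_c
    (show _ = cv s 0 * (((12500000 : ℕ) : ℝ) / UU) by rw [r8]; unfold cv; ring)
  have h2 := (TK.mul hM hs hs1 (pow_nonneg hs 84) zero_le_one D I.q2 I.v1.toTK).congr_c
    (show _ = cv s 0 * (((12500000 : ℕ) : ℝ) / UU) by rw [r8]; unfold cv; ring)
  refine ((h1.resc hM hs hs1 hc).add (h2.resc hM hs hs1 hc)).congr ?_ ?_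
  · rw [Finset.sum_range_succ, Finset.sum_range_one]
  · rw [Finset.sum_range_succ, Finset.sum_range_one]

theorem tS4 (D : ℕ) : TK M s (cv s 1) (gS4 D p1 p2 pt v1 v2 vt)
    (∑ i ∈ Finset.range 3, hq u f (i + 1) s * hV ρ u a f U (3 - i) s)
    (∑ i ∈ Finset.range 3, hq u g (i + 1) s * hV ρ u b g W (3 - i) s) := by
  have hM := I.hM
  have hs := I.hs
  have hs1 := I.hs1
  have hc := cv_nonneg hs 1
  have hR0 : 0 ≤ s ^ 42 := pow_nonneg hs _
  have h1 := (TK.mul hM hs hs1 hR0 (cv_nonneg hs 0) D I.q1 (I.vt 0)).congr_c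
    (show _ = cv s 1 * (((50000000 : ℕ) : ℝ) / UU) by rw [r2]; unfold cv; ring)
  have h2 := (TK.mul hM hs hs1 (pow_nonneg hs 84) hR0 D I.q2 I.v2).congr_c
    (show _ = cv s 1 * (((6250000 : ℕ) : ℝ) / UU) by rw [r16]; unfold cv; ring)
  have h3 := (TK.mul hM hs hs1 (cq_nonneg hs 3) zero_le_one D (I.qt 0) I.v1.toTK).congr_c
    (show _ = cv s 1 * (((50000000 : ℕ) : ℝ) / UU) by rw [r2]; unfold cv cq; ring)
  refine (((h1.resc hM hs hs1 hc).add (h2.resc hM hs hs1 hc)).add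
    (h3.resc hM hs hs1 hc)).congr ?_ ?_
  · rw [Finset.sum_range_succ, Finset.sum_range_succ, Finset.sum_range_one]
  · rw [Finset.sum_range_succ, Finset.sum_range_succ, Finset.sum_range_one]

theorem tS5 (D n : ℕ) : TK M s (cv s (n + 2))
    (((PL.mulD D pt vt).nsm n).add (gS5 D p1 p2 pt v1 v2 vt))
    (∑ i ∈ Finset.range (n + 2 + 2), hq u f (i + 1) s * hV ρ u a f U (n + 2 + 2 - i) s)
    (∑ i ∈ Finset.range (n + 2 + 2), hq u g (i + 1) s * hV ρ u b g W (n + 2 + 2 - i) s) := by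
  have hM := I.hM
  have hs := I.hs
  have hs1 := I.hs1
  have hc := cv_nonneg hs (n + 2)
  have hR0 : 0 ≤ s ^ 42 := pow_nonneg hs _
  have h1 := (TK.mul hM hs hs1 hR0 (cv_nonneg hs (n + 1)) D I.q1 (I.vt (n + 1))).congr_c
    (show _ = cv s (n + 2) * (((50000000 : ℕ) : ℝ) / UU) by
      rw [r2]; unfold cv
      have : 42 * (n + 2 + 2) = 42 * (n + 1 + 2) + 42 := by ring
      rw [this, pow_add s]; ring)
  have h2 := (TK.mul hM hs hs1 (pow_nonneg hs 84) (cv_nonneg hs n) D I.q2 (I.vt n)).congr_c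
    (show _ = cv s (n + 2) * (((25000000 : ℕ) : ℝ) / UU) by
      rw [r4]; unfold cv
      have : 42 * (n + 2 + 2) = 42 * (n + 2) + 84 := by ring
      rw [this, pow_add s]; ring)
  have h3 := (TK.mul hM hs hs1 (cq_nonneg hs (n + 3)) hR0 D (I.qt n) I.v2).congr_c
    (show _ = cv s (n + 2) * (((25000000 : ℕ) : ℝ) / UU) by
      rw [r4]; unfold cv cq
      have : 42 * (n + 2 + 2) = 42 * (n + 3) + 42 := by ring
      rw [this, pow_add s]; ring)
  have h4 := (TK.mul hM hs hs1 (cq_nonneg hs (n + 4)) zero_le_one D (I.qt (n + 1))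
      I.v1.toTK).congr_c
    (show _ = cv s (n + 2) * (((50000000 : ℕ) : ℝ) / UU) by
      rw [r2]; unfold cv cq
      have : 42 * (n + 2 + 2) = 42 * (n + 4) := by ring
      rw [this]; ring)
  have hmid := TK.sumConst (M := M) (s := s) (c := cv s (n + 2)) (p := PL.mulD D pt vt) (n := n)
    (F := fun j => hq u f (j + 1 + 1 + 1) s * hV ρ u a f U (n + 2 + 2 - (j + 1 + 1)) s)
    (G := fun j => hq u g (j + 1 + 1 + 1) s * hV ρ u b g W (n + 2 + 2 - (j + 1 + 1)) s)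
    (fun j hj => by
      have i1 : n + 2 + 2 - (j + 1 + 1) = (n - 1 - j) + 3 := by omega
      rw [i1]
      refine (TK.mul hM hs hs1 (cq_nonneg hs (j + 3)) (cv_nonneg hs (n - 1 - j)) D (I.qt j)
        (I.vt (n - 1 - j))).congr_c ?_
      unfold cv cq
      have e1 : (2:ℝ) ^ (j + 3) * 2 ^ (n - 1 - j + 3) = 2 ^ (n + 2 + 3) := by
        rw [← pow_add]; congr 1; omega
      have e2 : s ^ (42 * (j + 3)) * s ^ (42 * (n - 1 - j + 2)) = s ^ (42 * (n + 2 + 2)) := by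
        rw [← pow_add]; congr 1; omega
      calc 2 ^ (j + 3) * s ^ (42 * (j + 3)) * (2 ^ (n - 1 - j + 3) * s ^ (42 * (n - 1 - j + 2)))
          = (2 ^ (j + 3) * 2 ^ (n - 1 - j + 3)) *
            (s ^ (42 * (j + 3)) * s ^ (42 * (n - 1 - j + 2))) := by ring
        _ = _ := by rw [e1, e2])
  have htot := (hmid.add (((h2.resc hM hs hs1 hc).add (h1.resc hM hs hs1 hc)).add
    (h3.resc hM hs hs1 hc))).add (h4.resc hM hs hs1 hc)
  have hpl : ∀ (A B C E : PL), TK M s (cv s (n + 2)) ((A.add (B.add C)).add E)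
      (∑ i ∈ Finset.range (n + 2 + 2), hq u f (i + 1) s * hV ρ u a f U (n + 2 + 2 - i) s)
      (∑ i ∈ Finset.range (n + 2 + 2), hq u g (i + 1) s * hV ρ u b g W (n + 2 + 2 - i) s) →
      TK M s (cv s (n + 2)) (A.add ((B.add C).add E))
      (∑ i ∈ Finset.range (n + 2 + 2), hq u f (i + 1) s * hV ρ u a f U (n + 2 + 2 - i) s)
      (∑ i ∈ Finset.range (n + 2 + 2), hq u g (i + 1) s * hV ρ u b g W (n + 2 + 2 - i) s) := by
    intro A B C E h
    refine Mj.congr h rfl rfl ?_ ?_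
    · show cv s (n + 2) * (((A.v.add (B.v.add C.v)).add E.v).ev s)
        = cv s (n + 2) * ((A.v.add ((B.v.add C.v).add E.v)).ev s)
      simp only [TL.ev_add]; ring
    · show cv s (n + 2) * (((A.d.add (B.d.add C.d)).add E.d).ev s)
        = cv s (n + 2) * ((A.d.add ((B.d.add C.d).add E.d)).ev s)
      simp only [TL.ev_add]; ring
  refine hpl _ _ _ _ (htot.congr ?_ ?_)
  · rw [Finset.sum_range_succ, Finset.sum_range_succ, Finset.sum_range_succ',
      Finset.sum_range_succ']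
    have i1 : n + 2 + 2 - (n + 2) = 2 := by omega
    have i2 : n + 2 + 2 - (n + 2 + 1) = 1 := by omega
    have i3 : n + 2 + 2 - (0 + 1) = n + 3 := by omega
    have i4 : n + 2 + 2 - 0 = n + 1 + 3 := by omega
    rw [i1, i2, i3, i4]
    ring
  · rw [Finset.sum_range_succ, Finset.sum_range_succ, Finset.sum_range_succ',
      Finset.sum_range_succ']
    have i1 : n + 2 + 2 - (n + 2) = 2 := by omega
    have i2 : n + 2 + 2 - (n + 2 + 1) = 1 := by omega
    have i3 : n + 2 + 2 - (0 + 1) = n + 3 := by omega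
    have i4 : n + 2 + 2 - 0 = n + 1 + 3 := by omega
    rw [i1, i2, i3, i4]
    ring

end GIn

end

end

end SCHT
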