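import Pool.Agent.MP_83fd13_an.SCH.JR
import Pool.Agent.MP_83fd13_an.SCH.PGk

/-!
# [SCH] majorant of `hG 0` (helper38)

`hG 0 = hqr2 J_0 + hqr 0 hV 0 + 2 f_1 R U_1 + 2 hqr 1 hV 1 + 2 ∑ u^m hq(m+2) hV(m+2)`.
-/

set_option autoImplicit false

namespace SCHT

open MeasureTheory Set Filter Topology
open Pool.Agent.SCH SCHB SCHF SCHS SCHV

noncomputable section

/-- exact double of a pair -/
def PLdbl (p : PL) : PL := p.add p

/-- five shifts -/
def PLsh5 (p : PL) : PL := p.shift.shift.shift.shift.shift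

/-- the pair of the infinite sum of `hG 0` (`c6 ≥ 64 u / (1 - 4 u)`) -/
def gT0 (D c6 : ℕ) (p2 v2 pt vt : PL) : PL :=
  ((PL.mulD D p2 v2).shift.shift.shift).add (PL.sc c6 (PLsh5 (PL.mulD D pt vt)))

/-- the pair of `hG 0`: inputs `prr` (`hqr2`), `r0` (`hqr 0`), `v0` (`hV 0`), `p1` (`f 1`),
`w1` (`U 1`), `r1` (`hqr 1`), `v1` (`hV 1`), `p2`, `v2` (`hq 2`, `hV 2` with factors `s^84`,
`s^42`), `pt`, `vt` (`hq k`, `hV k`, `k ≥ 3`) -/
def gG0 (D c6 : ℕ) (prr r0 v0 p1 w1 r1 v1 p2 v2 pt vt : PL) : PL :=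
  ((((PL.j0 prr).add (PL.mulD D r0 v0)).add (PLdbl (PL.mulD D p1 w1).shift)).add
    (PLdbl (PL.mulD D r1 v1))).add (PLdbl (gT0 D c6 p2 v2 pt vt))

section

variable {M s ρ u a b : ℝ} {f g : ℕ → ℝ} {U W : ℕ → ℝ → ℝ} {cu c2 c4 c5 c6 : ℕ} {pj : TL}
  {p1 p2 pt r0 rt v0 v1 v2 vt : PL} {D : ℕ}

theorem TJ.dbl {p : PL} {x y : ℝ} (H : TJ M s p x y) : TJ M s (PLdbl p) (2 * x) (2 * y) :=
  (H.add H).congr (by ring) (by ring)

/-- the infinite sum of `hG 0` -/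
theorem GIn.tT0 (I : GIn M s ρ u a b f g U W cu c2 c4 c5 pj p1 p2 pt r0 rt v0 v1 v2 vt)
    (h6 : 64 * u / (1 - 4 * u) ≤ (c6 : ℝ) / UU) :
    TJ M s (gT0 D c6 p2 v2 pt vt)
      (∑' m : ℕ, u ^ m * (hq u f (m + 2) s * hV ρ u a f U (m + 2) s))
      (∑' m : ℕ, u ^ m * (hq u g (m + 2) s * hV ρ u b g W (m + 2) s)) := by
  have hM := I.hM
  have hs := I.hs
  have hs1 := I.hs1
  have hu0 := I.hu0
  have hR0 : 0 ≤ s ^ 42 := pow_nonneg hs _
  have h1u : 0 < 1 - 4 * u := by have := I.hu1; linarith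
  -- the first term
  have t0 : TJ M s ((PL.mulD D p2 v2).shift.shift.shift) (hq u f 2 s * hV ρ u a f U 2 s)
      (hq u g 2 s * hV ρ u b g W 2 s) := by
    have h := (TK.mul hM hs hs1 (pow_nonneg hs 84) hR0 D I.q2 I.v2).congr_c
      (show _ = 1 * s ^ 42 * s ^ 42 * s ^ 42 by ring)
    exact (h.shift.shift.shift).toTJ
  set B := PL.mulD D pt vt with hB
  have hBv : 0 ≤ B.v.ev s := B.v.ev_nonneg hs hs1
  have hBd : 0 ≤ B.d.ev s := B.d.ev_nonneg hs hs1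
  -- the tail
  have e2 : ∀ j : ℕ, u ^ (1 + j) * (cq s (j + 3) * cv s j) ≤ s ^ 210 * (64 * u) * (4 * u) ^ j := by
    intro j
    have e : u ^ (1 + j) * (cq s (j + 3) * cv s j) =
        s ^ 210 * (64 * u) * (4 * u) ^ j * s ^ (42 * (2 * j)) := by
      unfold cq cv
      have h2 : (2:ℝ) ^ (j + 3) * 2 ^ (j + 3) = 64 * 4 ^ j := by
        rw [← mul_pow, pow_add]; norm_num; ring
      have h3 : s ^ (42 * (j + 3)) * s ^ (42 * (j + 2)) = s ^ 210 * s ^ (42 * (2 * j)) := by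
        rw [← pow_add, ← pow_add]
        congr 1
        ring
      calc u ^ (1 + j) * (2 ^ (j + 3) * s ^ (42 * (j + 3)) * (2 ^ (j + 3) * s ^ (42 * (j + 2))))
          = u ^ (1 + j) * ((2 ^ (j + 3) * 2 ^ (j + 3)) *
            (s ^ (42 * (j + 3)) * s ^ (42 * (j + 2)))) := by ring
        _ = u ^ (1 + j) * ((64 * 4 ^ j) * (s ^ 210 * s ^ (42 * (2 * j)))) := by rw [h2, h3]
        _ = _ := by ring
    rw [e]
    exact mul_le_of_le_one_right (mul_nonneg (mul_nonneg (pow_nonneg hs _) (by linarith))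
      (pow_nonneg (by linarith) _)) (pow_le_one₀ hs hs1)
  have a2 : ∀ j, Mj M (s ^ 210 * (64 * u) * B.v.ev s * (4 * u) ^ j)
      (s ^ 210 * (64 * u) * B.d.ev s * (4 * u) ^ j)
      (u ^ (1 + j) * (hq u f (1 + j + 2) s * hV ρ u a f U (1 + j + 2) s))
      (u ^ (1 + j) * (hq u g (1 + j + 2) s * hV ρ u b g W (1 + j + 2) s)) := by
    intro j
    have i1 : 1 + j + 2 = j + 3 := by ring
    have h1 := TK.mul hM hs hs1 (cq_nonneg hs _) (cv_nonneg hs _) D (I.qt j) (I.vt j)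
    have h4 := Mj.const_mul_le (c := u ^ (1 + j)) (C := u ^ (1 + j))
      (by rw [abs_of_nonneg (pow_nonneg hu0 _)]) h1
    rw [← hB] at h4
    have key : ∀ X : ℝ, 0 ≤ X → u ^ (1 + j) * (cq s (j + 3) * cv s j * X) ≤
        s ^ 210 * (64 * u) * X * (4 * u) ^ j := by
      intro X hX
      calc u ^ (1 + j) * (cq s (j + 3) * cv s j * X)
          = u ^ (1 + j) * (cq s (j + 3) * cv s j) * X := by ring
        _ ≤ s ^ 210 * (64 * u) * (4 * u) ^ j * X := mul_le_mul_of_nonneg_right (e2 j) hX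
        _ = _ := by ring
    have h5 := h4.mono hM (key _ hBv) (key _ hBd)
    rw [i1]
    exact h5
  have hsum := Mj.tsum_tail (M := M)
    (F := fun _ => ((PL.mulD D p2 v2).shift.shift.shift).v.ev s)
    (F' := fun _ => ((PL.mulD D p2 v2).shift.shift.shift).d.ev s)
    (f := fun m : ℕ => u ^ m * (hq u f (m + 2) s * hV ρ u a f U (m + 2) s))
    (g := fun m : ℕ => u ^ m * (hq u g (m + 2) s * hV ρ u b g W (m + 2) s))
    (A := s ^ 210 * (64 * u) * B.v.ev s) (A' := s ^ 210 * (64 * u) * B.d.ev s)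
    (q := 4 * u) 1 (by linarith) I.hu1
    (by
      intro j hj
      obtain rfl : j = 0 := by omega
      have := t0
      refine Mj.congr this ?_ ?_ rfl rfl
      · simp
      · simp) a2
  have kt : ∀ L : TL, s ^ 210 * (64 * u) * L.ev s / (1 - 4 * u) ≤
      (L.shift.shift.shift.shift.shift.sc c6).ev s := by
    intro L
    have hL := L.ev_nonneg hs hs1
    have e : s ^ 210 * (64 * u) * L.ev s / (1 - 4 * u) =
        (64 * u / (1 - 4 * u)) * L.shift.shift.shift.shift.shift.ev s := by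
      simp only [TL.ev_shift]
      field_simp
    rw [e]
    have hL5 := (L.shift.shift.shift.shift.shift).ev_nonneg hs hs1
    exact (mul_le_mul_of_nonneg_right h6 hL5).trans (TL.ev_sc hs hs1 c6 _)
  refine hsum.2.2.mono hM ?_ ?_
  · rw [Finset.sum_range_one]
    have := kt B.v
    show _ ≤ (gT0 D c6 p2 v2 pt vt).v.ev s
    unfold gT0 PLsh5
    rw [← hB]
    simp only [PL.add, TL.ev_add, PL.sc, PL.shift] at this ⊢
    linarith
  · rw [Finset.sum_range_one]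
    have := kt B.d
    show _ ≤ (gT0 D c6 p2 v2 pt vt).d.ev s
    unfold gT0 PLsh5
    rw [← hB]
    simp only [PL.add, TL.ev_add, PL.sc, PL.shift] at this ⊢
    linarith

/-- **majorant of `hG 0`** -/
theorem GIn.tG0 {prr pf w1 r1 : PL}
    (I : GIn M s ρ u a b f g U W cu c2 c4 c5 pj p1 p2 pt r0 rt v0 v1 v2 vt)
    (hρ1 : 54.178 ≤ ρ) (hρ2 : ρ ≤ 54.1833)
    (h6 : 64 * u / (1 - 4 * u) ≤ (c6 : ℝ) / UU)
    (hrr : TJ M s prr (hqr2 u f s) (hqr2 u g s)) (hz : PL.z prr = true)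
    (hf1 : TJ M s pf (f 1) (g 1)) (hw : TJ M s w1 (U 1 s) (W 1 s))
    (hr1 : TJ M s r1 (hqr u f 1 s) (hqr u g 1 s)) :
    TJ M s (gG0 D c6 prr r0 v0 pf w1 r1 v1 p2 v2 pt vt)
      (hG ρ u a f U 0 s) (hG ρ u b g W 0 s) := by
  have hM := I.hM
  have hs := I.hs
  have hs1 := I.hs1
  have A1 := TJ_mulJ0 hρ1 hρ2 hM hs hs1 hz hrr
  have A2 := TJ.mul hM hs hs1 D I.r0 I.v0
  have A3 := TJ.dbl ((TJ.mul hM hs hs1 D hf1 hw).mulR hs)
  have A4 := TJ.dbl (TJ.mul hM hs hs1 D hr1 I.v1)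
  have A5 := TJ.dbl (I.tT0 (D := D) h6)
  refine ((((A1.add A2).add A3).add A4).add A5).congr ?_ ?_
  · simp only [hG]
    ring
  · simp only [hG]
    ring

end

/-! ### dropping leading zeros -/

/-- drop a leading zero -/
def TLtl (L : TL) : TL := ⟨L.a.tail, L.b.tail, L.c.tail⟩

def PLtl (p : PL) : PL := ⟨TLtl p.v, TLtl p.d⟩

theorem Ev_tail {l : List ℕ} (hl : z0 l = true) (R : ℝ) : Ev l R = R * Ev l.tail R := by
  rcases l with _ | ⟨a, l⟩
  · simp [Ev]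
  · have ha : a = 0 := by simpa [z0] using hl
    subst ha
    simp [Ev]

theorem ev_TLtl {L : TL} (hL : TL.z L = true) (s : ℝ) : L.ev s = s ^ 42 * (TLtl L).ev s := by
  simp only [TL.z, Bool.and_eq_true] at hL
  unfold TL.ev TLtl
  rw [Ev_tail hL.1, Ev_tail hL.2.1, Ev_tail hL.2.2]
  simp only
  ring

theorem TK.unshift {M s c : ℝ} {p : PL} {x y : ℝ} (hp : PL.z p = true) (H : TK M s c p x y) :
    TK M s (c * s ^ 42) (PLtl p) x y := by
  simp only [PL.z, Bool.and_eq_true] at hp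
  refine Mj.congr H rfl rfl ?_ ?_
  · show c * p.v.ev s = c * s ^ 42 * (TLtl p.v).ev s
    rw [ev_TLtl hp.1]
    ring
  · show c * p.d.ev s = c * s ^ 42 * (TLtl p.d).ev s
    rw [ev_TLtl hp.2]
    ring

/-- three leading zeros -/
def PLz3 (p : PL) : Bool := PL.z p && (PL.z (PLtl p) && PL.z (PLtl (PLtl p)))

theorem TJ.unshift3 {M s : ℝ} {p : PL} {x y : ℝ} (hp : PLz3 p = true) (H : TJ M s p x y) :
    TK M s (s ^ 126) (PLtl (PLtl (PLtl p))) x y := by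
  simp only [PLz3, Bool.and_eq_true] at hp
  refine (TK.unshift hp.2.2 (TK.unshift hp.2.1 (TK.unshift hp.1 H.toTK))).congr_c ?_
  ring

/-- two leading zeros -/
def PLz2 (p : PL) : Bool := PL.z p && PL.z (PLtl p)

theorem TJ.unshift2 {M s : ℝ} {p : PL} {x y : ℝ} (hp : PLz2 p = true) (H : TJ M s p x y) :
    TK M s (s ^ 84) (PLtl (PLtl p)) x y := by
  simp only [PLz2, Bool.and_eq_true] at hp
  refine (TK.unshift hp.2 (TK.unshift hp.1 H.toTK)).congr_c ?_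
  ring

end

end SCHT
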