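import Pool.Agent.MP_83fd13_an.SCH.PTK

/-!
# [SCH] tails of the mode sums in the list format (helper59)

`TJ_tail1`: first term explicit, the others at most `(4u)^j` times a majorant `X` (`4 u ≤ .048`).
`TJ_tail2`: first two terms explicit.
-/

set_option autoImplicit false

noncomputable section

namespace Pool.Agent.SCH

open Set Filter Topology

variable {M s q : ℝ}

/-- `1/(1-q) ≤ 1.0505` for `q ≤ .048` -/
theorem inv_tail_le {q : ℝ} (hq : q ≤ 48 / 1000) : 1 / (1 - q) ≤ ((105050000 : ℕ) : ℝ) / UU := by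
  have h : 0 < 1 - q := by linarith
  rw [div_le_iff₀ h]
  unfold UU
  push_cast
  nlinarith

/-- the tail pair -/
def PL.tail (X : PL) : PL := X.sc 105050000

theorem Mj_tsumK {X : PL} {f g : ℕ → ℝ} (hM : 0 ≤ M) (hs : 0 ≤ s) (hs1 : s ≤ 1) (hq0 : 0 ≤ q)
    (hq : q ≤ 48 / 1000) (H : ∀ j, TK M s (q ^ j) X (f j) (g j)) :
    Summable f ∧ Summable g ∧ TJ M s X.tail (∑' j, f j) (∑' j, g j) := by
  have hq1 : q < 1 := by linarith
  have H' : ∀ j, Mj M (X.v.ev s * q ^ j) (X.d.ev s * q ^ j) (f j) (g j) := fun j =>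
    Mj.congr (H j) rfl rfl (mul_comm _ _) (mul_comm _ _)
  have hs' : Summable (fun j : ℕ => X.v.ev s * q ^ j) :=
    (summable_geometric_of_lt_one hq0 hq1).mul_left _
  refine ⟨Mj.summable_l H' hs', Mj.summable_r H' hs', ?_⟩
  have h := Mj.tsum_geom hq0 hq1 H'
  refine Mj.mono hM h ?_ ?_
  · calc X.v.ev s / (1 - q) = 1 / (1 - q) * X.v.ev s := by ring
      _ ≤ ((105050000 : ℕ) : ℝ) / UU * X.v.ev s :=
        mul_le_mul_of_nonneg_right (inv_tail_le hq) (X.v.ev_nonneg hs hs1)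
      _ ≤ _ := TL.ev_sc hs hs1 _ _
  · calc X.d.ev s / (1 - q) = 1 / (1 - q) * X.d.ev s := by ring
      _ ≤ ((105050000 : ℕ) : ℝ) / UU * X.d.ev s :=
        mul_le_mul_of_nonneg_right (inv_tail_le hq) (X.d.ev_nonneg hs hs1)
      _ ≤ _ := TL.ev_sc hs hs1 _ _

/-- one explicit term -/
theorem TJ_tail1 {p X : PL} {f g : ℕ → ℝ} (hM : 0 ≤ M) (hs : 0 ≤ s) (hs1 : s ≤ 1) (hq0 : 0 ≤ q)
    (hq : q ≤ 48 / 1000) (H0 : TJ M s p (f 0) (g 0))
    (H : ∀ j, TK M s (q ^ j) X (f (j + 1)) (g (j + 1))) :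
    Summable f ∧ Summable g ∧ TJ M s (p.add X.tail) (∑' j, f j) (∑' j, g j) := by
  obtain ⟨a, b, c⟩ := Mj_tsumK hM hs hs1 hq0 hq H
  have hf : Summable f := (summable_nat_add_iff 1).1 a
  have hg : Summable g := (summable_nat_add_iff 1).1 b
  refine ⟨hf, hg, ?_⟩
  rw [hf.tsum_eq_zero_add, hg.tsum_eq_zero_add]
  exact H0.add c

/-- two explicit terms -/
theorem TJ_tail2 {p p' X : PL} {f g : ℕ → ℝ} (hM : 0 ≤ M) (hs : 0 ≤ s) (hs1 : s ≤ 1) (hq0 : 0 ≤ q)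
    (hq : q ≤ 48 / 1000) (H0 : TJ M s p (f 0) (g 0)) (H1 : TJ M s p' (f 1) (g 1))
    (H : ∀ j, TK M s (q ^ j) X (f (j + 2)) (g (j + 2))) :
    Summable f ∧ Summable g ∧ TJ M s (p.add (p'.add X.tail)) (∑' j, f j) (∑' j, g j) := by
  obtain ⟨a, b, c⟩ := TJ_tail1 hM hs hs1 hq0 hq (f := fun j => f (j + 1)) (g := fun j => g (j + 1))
    H1 H
  have hf : Summable f := (summable_nat_add_iff 1).1 a
  have hg : Summable g := (summable_nat_add_iff 1).1 b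
  refine ⟨hf, hg, ?_⟩
  rw [hf.tsum_eq_zero_add, hg.tsum_eq_zero_add]
  exact H0.add c

end Pool.Agent.SCH
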