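import Pool.Agent.MP_83fd13_an.SCH.VH3
import Pool.Agent.MP_83fd13_an.SCH.BesQ
import Pool.Agent.MP_83fd13_an.SCH.GTail

/-!
# [SCH] the source `hG 1` in the list format, with the K-trick (helper59)

`A0 + A2 + 43 R J_42 = R K(x)`, `K(x) = 85 J_42(x) - (3/2) x J_43(x)`, so the three leading
`a`-terms of `hG 1` combine to `a f_1² R² K(x) / 43`.
-/

set_option autoImplicit false

namespace SCHV

open Pool.Agent.SCH SCHB SCHT

noncomputable section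

variable {ρ M s : ℝ}

/-- the K-trick identity -/
theorem K_trick (ρ s : ℝ) : A0 J ρ s + A2 J ρ s + 43 * s ^ 42 * J 42 (ρ * s) =
    s ^ 42 * Kf (ρ * s) := by
  unfold A0 A2 Kf
  have h := J_rec 41 (ρ * s)
  norm_num at h
  linear_combination (s ^ 42 / 2) * h

/-- table of `s^84 K(ρ s) / 43` -/
def tK : PL := .fix ⟨[0, 0, 16511700], [], []⟩

theorem TJ_K (h1 : 54.178 ≤ ρ) (h2 : ρ ≤ 54.1833) (hs : 0 ≤ s) (hs1 : s ≤ 1) :
    TJ M s tK (s ^ 84 * Kf (ρ * s) / 43) (s ^ 84 * Kf (ρ * s) / 43) := by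
  refine TJ.fix ?_
  have h84 : 0 ≤ s ^ 84 := pow_nonneg hs _
  have hx0 : 0 ≤ ρ * s := mul_nonneg (by linarith) hs
  have hx1 : ρ * s ≤ 54.1875 := by nlinarith
  have h := Kf_le hx0 hx1
  rw [abs_div, abs_mul, abs_of_nonneg h84, abs_of_nonneg (by norm_num : (0 : ℝ) ≤ 43),
    div_le_iff₀ (by norm_num)]
  simp only [TL.ev, Ev, UU]
  push_cast
  have e : s ^ 42 * (s ^ 42 * (16511700 / 100000000)) = 0.165117 * s ^ 84 := by ring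
  have h' : s ^ 84 * |Kf (ρ * s)| ≤ s ^ 84 * 7.1 := mul_le_mul_of_nonneg_left h h84
  nlinarith

/-- table of `PP 84`, plain -/
def tP84a : PL := .fix ⟨[0, 0, 3457300], [], []⟩

theorem TJ_P84a (h1 : 54.178 ≤ ρ) (h2 : ρ ≤ 54.1833) (hs : 0 ≤ s) (hs1 : s ≤ 1) :
    TJ M s tP84a (PP J ρ 84 s) (PP J ρ 84 s) := by
  refine TJ.fix ?_
  have h84 : 0 ≤ s ^ 84 := pow_nonneg hs _
  have h := PP_a h1 h2 84 hs hs1
  norm_num at h
  simp only [TL.ev, Ev, UU]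
  push_cast
  nlinarith

/-- table of `PP 84`, with `(1 - s)` -/
def tP84b : PL := tP2b.add tP1.shift.shift

theorem TJ_P84b (h1 : 54.178 ≤ ρ) (h2 : ρ ≤ 54.1833) (hs : 0 ≤ s) (hs1 : s ≤ 1) :
    TJ M s tP84b (PP J ρ 84 s) (PP J ρ 84 s) := by
  refine ((TJ_P2b h1 h2 hs hs1).add (((TJ_P1 h1 h2).shift hs).shift hs)).congr ?_ ?_ <;> ring

/-- table of `Q2/43²`, plain -/
def tQ2a : PL := .fix ⟨[0, 0, 2157500], [], []⟩

theorem TJ_Q2a (h1 : 54.178 ≤ ρ) (h2 : ρ ≤ 54.1833) (hs : 0 ≤ s) (hs1 : s ≤ 1) :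
    TJ M s tQ2a (Q2 J ρ s / 43 ^ 2) (Q2 J ρ s / 43 ^ 2) := by
  refine TJ.fix ?_
  have h84 : 0 ≤ s ^ 84 := pow_nonneg hs _
  have h := rJ2_le (ρ := ρ) (by linarith) (by linarith) hs hs1
  have e : Q2 J ρ s / 43 ^ 2 = ρ ^ 2 / 8 * s * s ^ 84 * (s * J 2 (ρ * s)) / 43 ^ 2 := by
    unfold Q2; ring
  have hρ2 : ρ ^ 2 ≤ 2935.8301 := by nlinarith
  rw [e, abs_div, abs_mul, abs_mul, abs_mul, abs_of_nonneg h84, abs_of_nonneg hs, abs_mul,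
    abs_of_nonneg hs, abs_of_nonneg (by positivity : (0:ℝ) ≤ ρ ^ 2 / 8),
    abs_of_nonneg (by norm_num : (0 : ℝ) ≤ 43 ^ 2), div_le_iff₀ (by norm_num)]
  have hJ0 : 0 ≤ s * |J 2 (ρ * s)| := mul_nonneg hs (abs_nonneg _)
  have k1 : ρ ^ 2 / 8 * s ≤ 2935.8301 / 8 := by
    have : 0 ≤ ρ ^ 2 / 8 := by positivity
    nlinarith
  have k2 : ρ ^ 2 / 8 * s * s ^ 84 ≤ 2935.8301 / 8 * s ^ 84 := mul_le_mul_of_nonneg_right k1 h84
  have k3 : ρ ^ 2 / 8 * s * s ^ 84 * (s * |J 2 (ρ * s)|) ≤ 2935.8301 / 8 * s ^ 84 * 0.1087 :=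
    mul_le_mul k2 h hJ0 (mul_nonneg (by norm_num) h84)
  simp only [TL.ev, Ev, UU]
  push_cast
  nlinarith

/-! ### the modes `k ≥ 3` -/

/-- `(1 - R) Q C` -/
def pQC (D Qn Qn' Cn Cn' : ℕ) : PL := PL.mulD D (.scal Qn Qn') ⟨⟨[], [], [Cn]⟩, ⟨[], [], [Cn']⟩⟩

/-- bound of `hq 3` -/
def pq3 (Qn Qn' : ℕ) : PL := ⟨⟨[0, 0, 0, 8 * Qn], [], []⟩, ⟨[0, 0, 0, 8 * Qn'], [], []⟩⟩

/-- bound of `hV 3` -/
def pV3 (Cn Cn' : ℕ) : PL := ⟨⟨[], [], [0, 0, 8 * Cn]⟩, ⟨[], [], [0, 0, 8 * Cn']⟩⟩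

/-- six shifts -/
def sh6x (p : PL) : PL := p.shift.shift.shift.shift.shift.shift

theorem TJ_q3 {Qn Qn' : ℕ} {x y : ℝ}
    (H : Mj M (Qn / UU * 2 ^ 3 * s ^ (42 * 3)) (Qn' / UU * 2 ^ 3 * s ^ (42 * 3)) x y) :
    TJ M s (pq3 Qn Qn') x y := by
  refine Mj.congr H rfl rfl ?_ ?_
  · simp only [pq3, TL.ev, Ev]
    push_cast
    ring
  · simp only [pq3, TL.ev, Ev]
    push_cast
    ring

theorem TJ_V3 {Cn Cn' : ℕ} {x y : ℝ}
    (H : Mj M (Cn / UU * 2 ^ 3 * (s ^ (42 * 2) * (1 - s ^ 42)))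
      (Cn' / UU * 2 ^ 3 * (s ^ (42 * 2) * (1 - s ^ 42))) x y) :
    TJ M s (pV3 Cn Cn') x y := by
  refine Mj.congr H rfl rfl ?_ ?_
  · simp only [pV3, TL.ev, Ev]
    push_cast
    ring
  · simp only [pV3, TL.ev, Ev]
    push_cast
    ring

/-- product of two tail bounds -/
theorem TK_QC {D Qn Qn' Cn Cn' : ℕ} {c c' x y x' y' : ℝ} (hM : 0 ≤ M) (hs : 0 ≤ s) (hs1 : s ≤ 1)
    (hc : 0 ≤ c) (hc' : 0 ≤ c') (HQ : Mj M (Qn / UU * c) (Qn' / UU * c) x y)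
    (HC : Mj M (Cn / UU * (c' * (1 - s ^ 42))) (Cn' / UU * (c' * (1 - s ^ 42))) x' y') :
    TK M s (c * c') (pQC D Qn Qn' Cn Cn') (x * x') (y * y') := by
  have h1 : TK M s c (.scal Qn Qn') x y := by
    refine Mj.congr HQ rfl rfl ?_ ?_
    · simp only [PL.scal, TL.ev_cst]; ring
    · simp only [PL.scal, TL.ev_cst]; ring
  have h2 : TK M s c' ⟨⟨[], [], [Cn]⟩, ⟨[], [], [Cn']⟩⟩ x' y' := by
    refine Mj.congr HC rfl rfl ?_ ?_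
    · simp only [TL.ev, Ev]; ring
    · simp only [TL.ev, Ev]; ring
  exact TK.mul hM hs hs1 hc hc' D h1 h2

section

variable {u a b : ℝ} {f g : ℕ → ℝ} {U W : ℕ → ℝ → ℝ}

/-- the standing bounds of the modes `k ≥ 3` at the point `s` -/
structure TailB (M s ρ u a b : ℝ) (f g : ℕ → ℝ) (U W : ℕ → ℝ → ℝ) (Qn Qn' Cn Cn' : ℕ) : Prop where
  q : ∀ k, 3 ≤ k → Mj M (Qn / UU * 2 ^ k * s ^ (42 * k)) (Qn' / UU * 2 ^ k * s ^ (42 * k))
    (hq u f k s) (hq u g k s)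
  V : ∀ k, 3 ≤ k → Mj M (Cn / UU * 2 ^ k * (s ^ (42 * (k - 1)) * (1 - s ^ 42)))
    (Cn' / UU * 2 ^ k * (s ^ (42 * (k - 1)) * (1 - s ^ 42)))
    (hV ρ u a f U k s) (hV ρ u b g W k s)

/-- `s^(42 (2j+6)) ≤ s^252` etc.: replace the factor of a tail term -/
theorem TK_fac {c : ℝ} {m : ℕ} {X : PL} {x y : ℝ} (hM : 0 ≤ M) (hs : 0 ≤ s) (hs1 : s ≤ 1)
    (hc : 0 ≤ c) {c' : ℝ} (hcc : c' ≤ c * ((m : ℝ) / UU) * s ^ (42 * 6))
    (H : TK M s c' X x y) : TK M s c (sh6x (X.sc m)) x y := by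
  have hm : (0:ℝ) ≤ (m : ℝ) / UU := div_nonneg (Nat.cast_nonneg _) UU_pos.le
  have e : ∀ (L : TL), L.shift.shift.shift.shift.shift.shift.ev s = s ^ (42 * 6) * L.ev s := by
    intro L
    simp only [TL.ev_shift]
    ring
  have h6 : 0 ≤ s ^ (42 * 6) := pow_nonneg hs _
  refine Mj.mono hM H ?_ ?_
  · calc c' * X.v.ev s ≤ c * ((m : ℝ) / UU) * s ^ (42 * 6) * X.v.ev s :=
          mul_le_mul_of_nonneg_right hcc (X.v.ev_nonneg hs hs1)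
      _ = c * (s ^ (42 * 6) * ((m : ℝ) / UU * X.v.ev s)) := by ring
      _ ≤ c * (s ^ (42 * 6) * (X.v.sc m).ev s) := mul_le_mul_of_nonneg_left
          (mul_le_mul_of_nonneg_left (TL.ev_sc hs hs1 _ _) h6) hc
      _ = _ := by rw [← e]; rfl
  · calc c' * X.d.ev s ≤ c * ((m : ℝ) / UU) * s ^ (42 * 6) * X.d.ev s :=
          mul_le_mul_of_nonneg_right hcc (X.d.ev_nonneg hs hs1)
      _ = c * (s ^ (42 * 6) * ((m : ℝ) / UU * X.d.ev s)) := by ring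
      _ ≤ c * (s ^ (42 * 6) * (X.d.sc m).ev s) := mul_le_mul_of_nonneg_left
          (mul_le_mul_of_nonneg_left (TL.ev_sc hs hs1 _ _) h6) hc
      _ = _ := by rw [← e]; rfl

/-- the modes `m ≥ 1` of the sum in `hG 1` -/
def pS1 (D : ℕ) (pu pq2 pV2 : PL) (Qn Qn' Cn Cn' : ℕ) : PL :=
  (PL.mulD D pu ((PL.mulD D (pq3 Qn Qn') pV2).add (PL.mulD D pq2 (pV3 Cn Cn')))).add
    (sh6x (((pQC D Qn Qn' Cn Cn').nsm 2).sc 1824900)).tail

theorem TJ_S1 (D : ℕ) {pu pq2 pV2 : PL} {Qn Qn' Cn Cn' : ℕ} (hM : 0 ≤ M) (hs : 0 ≤ s) (hs1 : s ≤ 1)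
    (hu0 : 0 ≤ u) (hu1 : u ≤ 1194 / 100000) (hu : TJ M s pu u u)
    (hq2 : TJ M s pq2 (hq u f 2 s) (hq u g 2 s))
    (hV2 : TJ M s pV2 (hV ρ u a f U 2 s) (hV ρ u b g W 2 s))
    (T : TailB M s ρ u a b f g U W Qn Qn' Cn Cn') :
    let F := fun m : ℕ => u ^ m * (hq u f (m + 2) s * hV ρ u a f U (m + 1) s +
        hq u f (m + 1) s * hV ρ u a f U (m + 2) s)
    let G := fun m : ℕ => u ^ m * (hq u g (m + 2) s * hV ρ u b g W (m + 1) s +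
        hq u g (m + 1) s * hV ρ u b g W (m + 2) s)
    Summable F ∧ Summable G ∧ TJ M s (pS1 D pu pq2 pV2 Qn Qn' Cn Cn')
      (∑' m, F (m + 1)) (∑' m, G (m + 1)) := by
  intro F G
  have h0 : 0 ≤ s ^ 42 := pow_nonneg hs _
  have h1' : 0 ≤ 1 - s ^ 42 := sub_nonneg.2 (pow_le_one₀ hs hs1)
  have e0 : TJ M s (PL.mulD D pu ((PL.mulD D (pq3 Qn Qn') pV2).add (PL.mulD D pq2 (pV3 Cn Cn'))))
      (F (0 + 1)) (G (0 + 1)) := by
    have a3 := TJ_q3 (T.q 3 le_rfl)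
    have b3 := TJ_V3 (T.V 3 le_rfl)
    refine (TJ.mul hM hs hs1 D hu ((TJ.mul hM hs hs1 D a3 hV2).add
      (TJ.mul hM hs hs1 D hq2 b3))).congr ?_ ?_
    · show _ = u ^ (0 + 1) * _
      rw [zero_add, pow_one]
    · show _ = u ^ (0 + 1) * _
      rw [zero_add, pow_one]
  have ht : ∀ j, TK M s ((4 * u) ^ j) (sh6x (((pQC D Qn Qn' Cn Cn').nsm 2).sc 1824900))
      (F (j + 1 + 1)) (G (j + 1 + 1)) := by
    intro j
    have k1 := TK_QC (D := D) (c := 2 ^ (j + 4) * s ^ (42 * (j + 4)))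
      (c' := 2 ^ (j + 3) * s ^ (42 * (j + 2))) hM hs hs1 (by positivity) (by positivity)
      (Mj.congr (T.q (j + 4) (by omega)) rfl rfl (by ring) (by ring))
      (Mj.congr (T.V (j + 3) (by omega)) rfl rfl
        (by rw [show j + 3 - 1 = j + 2 by omega]; ring)
        (by rw [show j + 3 - 1 = j + 2 by omega]; ring))
    have k2 := TK_QC (D := D) (c := 2 ^ (j + 3) * s ^ (42 * (j + 3)))
      (c' := 2 ^ (j + 4) * s ^ (42 * (j + 3))) hM hs hs1 (by positivity) (by positivity)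
      (Mj.congr (T.q (j + 3) (by omega)) rfl rfl (by ring) (by ring))
      (Mj.congr (T.V (j + 4) (by omega)) rfl rfl
        (by rw [show j + 4 - 1 = j + 3 by omega]; ring)
        (by rw [show j + 4 - 1 = j + 3 by omega]; ring))
    have e1 : (2:ℝ) ^ (j + 4) * s ^ (42 * (j + 4)) * (2 ^ (j + 3) * s ^ (42 * (j + 2))) =
        2 ^ (2 * j + 7) * s ^ (42 * (2 * j + 6)) := by
      rw [show (42 * (2 * j + 6)) = 42 * (j + 4) + 42 * (j + 2) by ring,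
        show 2 * j + 7 = (j + 4) + (j + 3) by ring]
      rw [pow_add s, pow_add (2:ℝ)]
      ring
    have e2 : (2:ℝ) ^ (j + 3) * s ^ (42 * (j + 3)) * (2 ^ (j + 4) * s ^ (42 * (j + 3))) =
        2 ^ (2 * j + 7) * s ^ (42 * (2 * j + 6)) := by
      rw [show (42 * (2 * j + 6)) = 42 * (j + 3) + 42 * (j + 3) by ring,
        show 2 * j + 7 = (j + 4) + (j + 3) by ring]
      rw [pow_add s, pow_add (2:ℝ)]
      ring
    have k3 := (k1.congr_c e1).add (k2.congr_c e2)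
    have k4 : TK M s (u ^ (j + 2) * (2 ^ (2 * j + 7) * s ^ (42 * (2 * j + 6))))
        ((pQC D Qn Qn' Cn Cn').nsm 2)
        (F (j + 1 + 1)) (G (j + 1 + 1)) := by
      have h := Mj.const_mul_le (C := u ^ (j + 2)) (c := u ^ (j + 2))
        (by rw [abs_of_nonneg (by positivity)]) k3
      refine Mj.congr h ?_ ?_ ?_ ?_
      · show _ = u ^ (j + 1 + 1) * _
        ring_nf
      · show _ = u ^ (j + 1 + 1) * _
        ring_nf
      · show _ = _ * ((pQC D Qn Qn' Cn Cn').v.nsm 2).ev s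
        rw [TL.ev_nsm]
        show _ * (_ * ((pQC D Qn Qn' Cn Cn').v.add (pQC D Qn Qn' Cn Cn').v).ev s) = _
        rw [TL.ev_add]
        push_cast
        ring
      · show _ = _ * ((pQC D Qn Qn' Cn Cn').d.nsm 2).ev s
        rw [TL.ev_nsm]
        show _ * (_ * ((pQC D Qn Qn' Cn Cn').d.add (pQC D Qn Qn' Cn Cn').d).ev s) = _
        rw [TL.ev_add]
        push_cast
        ring
    refine TK_fac hM hs hs1 (by positivity) ?_ k4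
    have hp : s ^ (42 * (2 * j + 6)) ≤ s ^ (42 * 6) := pow_le_pow_of_le_one hs hs1 (by omega)
    have hu2 : 128 * u ^ 2 ≤ ((1824900 : ℕ) : ℝ) / UU := by
      unfold UU
      push_cast
      nlinarith
    calc u ^ (j + 2) * (2 ^ (2 * j + 7) * s ^ (42 * (2 * j + 6)))
        = (4 * u) ^ j * (128 * u ^ 2) * s ^ (42 * (2 * j + 6)) := by
          rw [mul_pow, show (4:ℝ) = 2 ^ 2 by norm_num, ← pow_mul, pow_add (2:ℝ) (2 * j) 7,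
            pow_add u]
          ring
      _ ≤ (4 * u) ^ j * (((1824900 : ℕ) : ℝ) / UU) * s ^ (42 * 6) :=
          mul_le_mul (mul_le_mul_of_nonneg_left hu2 (pow_nonneg (by linarith) _)) hp
            (pow_nonneg hs _)
            (mul_nonneg (pow_nonneg (by linarith) _) (div_nonneg (Nat.cast_nonneg _) UU_pos.le))
  obtain ⟨a1, b1, c1⟩ := TJ_tail1 (f := fun m => F (m + 1)) (g := fun m => G (m + 1)) hM hs hs1
    (by linarith : 0 ≤ 4 * u) (by linarith : 4 * u ≤ 48 / 1000) e0 ht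
  exact ⟨(summable_nat_add_iff 1).1 a1, (summable_nat_add_iff 1).1 b1, c1⟩

/-- the pair of `hG 1`. Tables: `tP` of `PP 42`, `tk` of `s^84 K/43`, `tP84` of `PP 84`,
`tQ` of `Q2/43²`; `pj` of `hqr 1 * J_0`, `pr0m` of `hqr 0 - f_1² R²`, `pr1` of `hqr 1`, `pq2` of
`hq 2`, `pE` of `hX 2 (1)` -/
def pG1 (D : ℕ) (tP tk tP84 tQ pu pa p1 p2 pE pj pr0m pr1 pq2 pV0 pV1 pV2 q0 q1 q2 : PL)
    (Qn Qn' Cn Cn' : ℕ) : PL :=
  let p11 := PL.mulD D p1 p1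
  (PL.mulD D pa (PL.mulD D p11 tk)).add <| pj.add <|
    (PL.mulD D p1 ((PL.mulD D p11 tQ0).add (PL.mulD D pu q0))).shift.add <|
    (PL.mulD D pu (PL.mulD D pr1 pV0)).add <| (PL.mulD D pr0m pV1).add <|
    (PL.mulD D p11 ((PL.mulD D p1 tP).add (PL.mulD D pu q1))).shift.shift.add <|
    (PL.mulD D pq2 pV1).add <| (PL.mulD D pu (PL.mulD D pr1 pV2)).add <|
    (PL.mulD D p1 (((PL.mulD D p2 tP84).add (PL.mulD D p11 tQ)).add
      (q2.add pE.shift.shift))).shift.add <|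
    pS1 D pu pq2 pV2 Qn Qn' Cn Cn'

theorem TJ_hG1 (D : ℕ) {tP tk tP84 tQ pu pa p1 p2 pE pj pr0m pr1 pq2 pV0 pV1 pV2 q0 q1 q2 : PL}
    {Qn Qn' Cn Cn' : ℕ} (h1 : 54.178 ≤ ρ) (h2 : ρ ≤ 54.1833) (hM : 0 ≤ M) (hs : 0 ≤ s)
    (hs1 : s ≤ 1) (hu0 : 0 ≤ u) (hu1 : u ≤ 1194 / 100000)
    (HP : TJ M s tP (PP J ρ 42 s) (PP J ρ 42 s))
    (Hk : TJ M s tk (s ^ 84 * Kf (ρ * s) / 43) (s ^ 84 * Kf (ρ * s) / 43))
    (HP84 : TJ M s tP84 (PP J ρ 84 s) (PP J ρ 84 s))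
    (HQ : TJ M s tQ (Q2 J ρ s / 43 ^ 2) (Q2 J ρ s / 43 ^ 2))
    (hu : TJ M s pu u u) (ha : TJ M s pa a b) (hf1 : TJ M s p1 (f 1) (g 1))
    (hf2 : TJ M s p2 (f 2) (g 2))
    (hE : TJ M s pE (hX ρ a f 2 1) (hX ρ b g 2 1))
    (hj : TJ M s pj (hqr u f 1 s * J 0 (ρ * s)) (hqr u g 1 s * J 0 (ρ * s)))
    (hr0m : TJ M s pr0m (hqr u f 0 s - f 1 ^ 2 * s ^ 84) (hqr u g 0 s - g 1 ^ 2 * s ^ 84))
    (hr1 : TJ M s pr1 (hqr u f 1 s) (hqr u g 1 s))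
    (hq2 : TJ M s pq2 (hq u f 2 s) (hq u g 2 s))
    (hV0 : TJ M s pV0 (hV ρ u a f U 0 s) (hV ρ u b g W 0 s))
    (hV1 : TJ M s pV1 (hV ρ u a f U 1 s) (hV ρ u b g W 1 s))
    (hV2 : TJ M s pV2 (hV ρ u a f U 2 s) (hV ρ u b g W 2 s))
    (hU0 : TJ M s q0 (U 0 s) (W 0 s)) (hU1 : TJ M s q1 (U 1 s) (W 1 s))
    (hU2 : TJ M s q2 (U 2 s) (W 2 s))
    (T : TailB M s ρ u a b f g U W Qn Qn' Cn Cn') :
    TJ M s (pG1 D tP tk tP84 tQ pu pa p1 p2 pE pj pr0m pr1 pq2 pV0 pV1 pV2 q0 q1 q2 Qn Qn' Cn Cn')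
      (hG ρ u a f U 1 s) (hG ρ u b g W 1 s) := by
  obtain ⟨sF, sG, hS⟩ := TJ_S1 D hM hs hs1 hu0 hu1 hu hq2 hV2 T
  have m := fun {p q : PL} {x y z w : ℝ} (H : TJ M s p x y) (K : TJ M s q z w) =>
    TJ.mul hM hs hs1 D H K
  have h11 := m hf1 hf1
  have t1 := m ha (m h11 Hk)
  have t3 := ((m hf1 ((m h11 (TJ_Q0 h1 h2 hs hs1)).add (m hu hU0))).shift hs)
  have t4 := m hu (m hr1 hV0)
  have t5 := m hr0m hV1
  have t6 := ((m h11 ((m hf1 HP).add (m hu hU1))).shift hs).shift hs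
  have t7 := m hq2 hV1
  have t8 := m hu (m hr1 hV2)
  have t9 := ((m hf1 (((m hf2 HP84).add (m h11 HQ)).add
    (TJ.sub hU2 ((hE.shift hs).shift hs)))).shift hs)
  have fin := t1.add <| hj.add <| t3.add <| t4.add <| t5.add <| t6.add <| t7.add <| t8.add <|
    t9.add hS
  have key : ∀ (a : ℝ) (f : ℕ → ℝ) (U : ℕ → ℝ → ℝ), Summable (fun m : ℕ => u ^ m *
      (hq u f (m + 2) s * hV ρ u a f U (m + 1) s + hq u f (m + 1) s * hV ρ u a f U (m + 2) s)) →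
      a * (f 1 * f 1 * (s ^ 84 * Kf (ρ * s) / 43)) + (hqr u f 1 s * J 0 (ρ * s) +
      (s ^ 42 * (f 1 * (f 1 * f 1 * (Q0 J ρ s / 43 ^ 2) + u * U 0 s)) +
      (u * (hqr u f 1 s * hV ρ u a f U 0 s) + ((hqr u f 0 s - f 1 ^ 2 * s ^ 84) *
      hV ρ u a f U 1 s + (s ^ 42 * (s ^ 42 * (f 1 * f 1 * (f 1 * PP J ρ 42 s + u * U 1 s))) +
      (hq u f 2 s * hV ρ u a f U 1 s + (u * (hqr u f 1 s * hV ρ u a f U 2 s) +
      (s ^ 42 * (f 1 * (f 2 * PP J ρ 84 s + f 1 * f 1 * (Q2 J ρ s / 43 ^ 2) +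
      (U 2 s - s ^ 42 * (s ^ 42 * hX ρ a f 2 1)))) +
      ∑' m : ℕ, u ^ (m + 1) * (hq u f (m + 1 + 2) s * hV ρ u a f U (m + 1 + 1) s +
        hq u f (m + 1 + 1) s * hV ρ u a f U (m + 1 + 2) s))))))))) = hG ρ u a f U 1 s := by
    intro a f U hF
    have hK := K_trick ρ s
    unfold hG
    rw [hF.tsum_eq_zero_add]
    simp only [zero_add, pow_zero, one_mul]
    generalize (∑' m : ℕ, u ^ (m + 1) * (hq u f (m + 1 + 2) s * hV ρ u a f U (m + 1 + 1) s +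
        hq u f (m + 1 + 1) s * hV ρ u a f U (m + 1 + 2) s)) = S
    have e0 : hV ρ u a f U 0 s = (f 1 / 43) ^ 2 * Q0 J ρ s + a * (f 1 / 43) * A0 J ρ s +
      u * U 0 s := rfl
    have e1 : hV ρ u a f U 1 s = f 1 * PP J ρ 42 s + a * J 42 (ρ * s) + u * U 1 s := rfl
    have e2 : hV ρ u a f U 2 s = f 2 * PP J ρ 84 s + (f 1 / 43) ^ 2 * Q2 J ρ s +
      a * (f 1 / 43) * A2 J ρ s + (U 2 s - hX ρ a f 2 1 * s ^ (42 * 2)) := rfl
    have eq1 : hq u f 1 s = f 1 * s ^ 42 + u * hqr u f 1 s := by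
      unfold hq
      simp
    have hK' : s ^ 84 * Kf (ρ * s) = s ^ 42 * (A0 J ρ s + A2 J ρ s + 43 * s ^ 42 * J 42 (ρ * s)) := by
      rw [hK]; ring
    rw [hK', eq1]
    generalize hX ρ a f 2 1 = X at *
    rw [e0, e1, e2]
    ring
  exact fin.congr (key a f U sF) (key b g W sG)

end

end

end SCHV
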