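import Pool.Agent.MP_83fd13_an.SCH.JR
import Pool.Agent.MP_83fd13_an.SCH.THat
import Pool.Agent.MP_83fd13_an.SCH.WieE

/-!
# [SCH] the source `hG 2` in list format

Inputs: pairs of `u`, `f 1`, `U 1`, `hqr 0`, `hqr 1`, `hqr 2`, `hq 1`, `hq 2`, `hV 0`, `hV 1`, `hV 2` at `s`, and
the uniform bounds of `hq k`, `hV k`, `k ≥ 3`.
-/

set_option autoImplicit false

namespace SCHV

open Pool.Agent.SCH SCHB SCHT

noncomputable section

/-! ### monomials -/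

/-- `c R^n` -/
def lmn (n c : ℕ) : List ℕ := List.replicate n 0 ++ [c]

theorem Ev_lmn (n c : ℕ) (R : ℝ) : Ev (lmn n c) R = (c : ℝ) / UU * R ^ n := by
  induction n with
  | zero => simp [lmn, Ev]
  | succ n ih =>
    have e : lmn (n + 1) c = 0 :: lmn n c := by
      simp [lmn, List.replicate_succ]
    rw [e]
    simp only [Ev, ih]
    push_cast
    ring

/-- `(q, q')` times `R^n` -/
def pmn (n c d : ℕ) : PL := ⟨⟨lmn n c, [], []⟩, ⟨lmn n d, [], []⟩⟩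

/-- `(c, c')` times `R^n (1 - R)` -/
def pmc (n c d : ℕ) : PL := ⟨⟨[], [], lmn n c⟩, ⟨[], [], lmn n d⟩⟩

theorem ev_mn (n c : ℕ) (s : ℝ) : (⟨lmn n c, [], []⟩ : TL).ev s = (c : ℝ) / UU * s ^ (42 * n) := by
  simp only [TL.ev, Ev_lmn, Ev]
  rw [← pow_mul]
  ring

theorem ev_mc (n c : ℕ) (s : ℝ) :
    (⟨[], [], lmn n c⟩ : TL).ev s = (c : ℝ) / UU * (s ^ (42 * n) * (1 - s ^ 42)) := by
  simp only [TL.ev, Ev_lmn, Ev]
  rw [← pow_mul]
  ring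

/-- uniform bounds of `hq k`, `k ≥ 3` -/
def QB (M s : ℝ) (Q Q' : ℕ) (x y : ℕ → ℝ) : Prop :=
  ∀ k, 3 ≤ k → Mj M ((Q : ℝ) / UU * 2 ^ k * s ^ (42 * k)) ((Q' : ℝ) / UU * 2 ^ k * s ^ (42 * k))
    (x k) (y k)

/-- uniform bounds of `hV k`, `k ≥ 3` -/
def VB (M s : ℝ) (C C' : ℕ) (x y : ℕ → ℝ) : Prop :=
  ∀ k, 3 ≤ k → Mj M ((C : ℝ) / UU * 2 ^ k * (s ^ (42 * (k - 1)) * (1 - s ^ 42)))
    ((C' : ℝ) / UU * 2 ^ k * (s ^ (42 * (k - 1)) * (1 - s ^ 42))) (x k) (y k)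

theorem QB.tj {M s : ℝ} {Q Q' : ℕ} {x y : ℕ → ℝ} (H : QB M s Q Q' x y) (k : ℕ) (hk : 3 ≤ k) :
    TJ M s (pmn k (2 ^ k * Q) (2 ^ k * Q')) (x k) (y k) := by
  refine (H k hk).congr rfl rfl ?_ ?_
  · show _ = (⟨lmn k (2 ^ k * Q), [], []⟩ : TL).ev s
    rw [ev_mn]; push_cast; ring
  · show _ = (⟨lmn k (2 ^ k * Q'), [], []⟩ : TL).ev s
    rw [ev_mn]; push_cast; ring

theorem VB.tj {M s : ℝ} {C C' : ℕ} {x y : ℕ → ℝ} (H : VB M s C C' x y) (k : ℕ) (hk : 3 ≤ k) :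
    TJ M s (pmc (k - 1) (2 ^ k * C) (2 ^ k * C')) (x k) (y k) := by
  refine (H k hk).congr rfl rfl ?_ ?_
  · show _ = (⟨[], [], lmn (k - 1) (2 ^ k * C)⟩ : TL).ev s
    rw [ev_mc]; push_cast; ring
  · show _ = (⟨[], [], lmn (k - 1) (2 ^ k * C')⟩ : TL).ev s
    rw [ev_mc]; push_cast; ring

/-! ### sums with two explicit terms -/

theorem TJ_tsum2 {M s q A A' : ℝ} {f g : ℕ → ℝ} {p0 p1 pt : PL} (hM : 0 ≤ M) (hq0 : 0 ≤ q)
    (hq : q < 1) (h0 : TJ M s p0 (f 0) (g 0)) (h1 : TJ M s p1 (f 1) (g 1))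
    (H : ∀ j, Mj M (A * q ^ j) (A' * q ^ j) (f (2 + j)) (g (2 + j)))
    (hA : A / (1 - q) ≤ pt.v.ev s) (hA' : A' / (1 - q) ≤ pt.d.ev s) :
    Summable f ∧ Summable g ∧ TJ M s ((p0.add p1).add pt) (∑' j, f j) (∑' j, g j) := by
  obtain ⟨a, b, c⟩ := Mj.tsum_tail (M := M) (F := fun j => if j = 0 then p0.v.ev s else p1.v.ev s)
    (F' := fun j => if j = 0 then p0.d.ev s else p1.d.ev s) 2 hq0 hq (f := f) (g := g)
    (by
      intro j hj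
      interval_cases j
      · simpa [TJ] using h0
      · simpa [TJ] using h1) H
  refine ⟨a, b, c.mono hM ?_ ?_⟩
  · simp only [Finset.sum_range_succ, Finset.sum_range_zero, PL.add, TL.ev_add]
    simp only [if_true, zero_add, one_ne_zero, if_false]
    linarith
  · simp only [Finset.sum_range_succ, Finset.sum_range_zero, PL.add, TL.ev_add]
    simp only [if_true, zero_add, one_ne_zero, if_false]
    linarith

/-! ### the tail of `hG 2` -/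

/-- tail pair: `.0768 Q C R^7 (1 - R)` -/
def ptG2 (D Q Q' C C' : ℕ) : PL :=
  PL.mulD D (PL.cst 7680000) (PL.mulD D (pmn 0 Q Q') (pmc 7 C C'))

theorem tail_num {u : ℝ} (hu0 : 0 ≤ u) (hu : u ≤ 0.01195) :
    32 * (4 * u) ^ 2 / (1 - 4 * u) ≤ 0.0768 := by
  rw [div_le_iff₀ (by linarith)]
  nlinarith

/-- the pair of `hG 2` -/
def pG2 (D : ℕ) (pu p1 w1 r0 r1 r2 q1 q2 v0 v1 v2 : PL) (Q Q' C C' : ℕ) : PL :=
  (((((PL.j0 r2).add (PL.mulD D q2 v0)).add (PL.mulD D p1.shift w1)).add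
    (PL.mulD D r1 v1)).add (PL.mulD D r0 v2)).add
  ((((PL.mulD D (pmn 3 (2 ^ 3 * Q) (2 ^ 3 * Q')) v1).add
      (PL.mulD D q1 (pmc 2 (2 ^ 3 * C) (2 ^ 3 * C')))).add
    (PL.mulD D pu ((PL.mulD D (pmn 4 (2 ^ 4 * Q) (2 ^ 4 * Q')) v2).add
      (PL.mulD D q2 (pmc 3 (2 ^ 4 * C) (2 ^ 4 * C')))))).add (ptG2 D Q Q' C C'))

variable {ρ M s u a b : ℝ} {f g : ℕ → ℝ} {U W : ℕ → ℝ → ℝ}

theorem TJ_hG2 (h1 : 54.178 ≤ ρ) (h2 : ρ ≤ 54.1833) (hM : 0 ≤ M) (hs : 0 ≤ s) (hs1 : s ≤ 1)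
    (hu0 : 0 ≤ u) (hu : u ≤ 0.01195) (D : ℕ) {pu p1 w1 r0 r1 r2 q1 q2 v0 v1 v2 : PL}
    {Q Q' C C' : ℕ} (hz : PL.z r2 = true)
    (Hu : TJ M s pu u u) (H1 : TJ M s p1 (f 1) (g 1)) (Hw : TJ M s w1 (U 1 s) (W 1 s))
    (Hr0 : TJ M s r0 (hqr u f 0 s) (hqr u g 0 s)) (Hr1 : TJ M s r1 (hqr u f 1 s) (hqr u g 1 s))
    (Hr2 : TJ M s r2 (hqr u f 2 s) (hqr u g 2 s)) (Hq1 : TJ M s q1 (hq u f 1 s) (hq u g 1 s))
    (Hq2 : TJ M s q2 (hq u f 2 s) (hq u g 2 s))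
    (Hv0 : TJ M s v0 (hV ρ u a f U 0 s) (hV ρ u b g W 0 s))
    (Hv1 : TJ M s v1 (hV ρ u a f U 1 s) (hV ρ u b g W 1 s))
    (Hv2 : TJ M s v2 (hV ρ u a f U 2 s) (hV ρ u b g W 2 s))
    (HQ : QB M s Q Q' (fun k => hq u f k s) (fun k => hq u g k s))
    (HV : VB M s C C' (fun k => hV ρ u a f U k s) (fun k => hV ρ u b g W k s)) :
    TJ M s (pG2 D pu p1 w1 r0 r1 r2 q1 q2 v0 v1 v2 Q Q' C C') (hG ρ u a f U 2 s)
      (hG ρ u b g W 2 s) := by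
  have hR0 : 0 ≤ s ^ 42 := pow_nonneg hs 42
  have hR1 : s ^ 42 ≤ 1 := pow_le_one₀ hs hs1
  -- the explicit terms of the sum
  have t0 : TJ M s ((PL.mulD D (pmn 3 (2 ^ 3 * Q) (2 ^ 3 * Q')) v1).add
      (PL.mulD D q1 (pmc 2 (2 ^ 3 * C) (2 ^ 3 * C'))))
      (u ^ 0 * (hq u f (0 + 3) s * hV ρ u a f U (0 + 1) s +
        hq u f (0 + 1) s * hV ρ u a f U (0 + 3) s))
      (u ^ 0 * (hq u g (0 + 3) s * hV ρ u b g W (0 + 1) s +
        hq u g (0 + 1) s * hV ρ u b g W (0 + 3) s)) := by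
    refine ((TJ.mul hM hs hs1 D (HQ.tj 3 le_rfl) Hv1).add
      (TJ.mul hM hs hs1 D Hq1 (HV.tj 3 le_rfl))).congr ?_ ?_ <;> simp
  have t1 : TJ M s (PL.mulD D pu ((PL.mulD D (pmn 4 (2 ^ 4 * Q) (2 ^ 4 * Q')) v2).add
      (PL.mulD D q2 (pmc 3 (2 ^ 4 * C) (2 ^ 4 * C')))))
      (u ^ 1 * (hq u f (1 + 3) s * hV ρ u a f U (1 + 1) s +
        hq u f (1 + 1) s * hV ρ u a f U (1 + 3) s))
      (u ^ 1 * (hq u g (1 + 3) s * hV ρ u b g W (1 + 1) s +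
        hq u g (1 + 1) s * hV ρ u b g W (1 + 3) s)) := by
    refine (TJ.mul hM hs hs1 D Hu ((TJ.mul hM hs hs1 D (HQ.tj 4 (by norm_num)) Hv2).add
      (TJ.mul hM hs hs1 D Hq2 (HV.tj 4 (by norm_num))))).congr ?_ ?_ <;> simp
  -- the tail
  set w : ℝ := s ^ (42 * 7) * (1 - s ^ 42) with hw
  have hw0 : 0 ≤ w := mul_nonneg (pow_nonneg hs _) (by linarith)
  set QQ : ℝ := (Q : ℝ) / UU with hQQ
  set QQ' : ℝ := (Q' : ℝ) / UU with hQQ'
  set CC : ℝ := (C : ℝ) / UU with hCC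
  set CC' : ℝ := (C' : ℝ) / UU with hCC'
  have nQ : 0 ≤ QQ := div_nonneg (Nat.cast_nonneg _) UU_pos.le
  have nQ' : 0 ≤ QQ' := div_nonneg (Nat.cast_nonneg _) UU_pos.le
  have nC : 0 ≤ CC := div_nonneg (Nat.cast_nonneg _) UU_pos.le
  have nC' : 0 ≤ CC' := div_nonneg (Nat.cast_nonneg _) UU_pos.le
  have ht : ∀ j : ℕ, Mj M (32 * (4 * u) ^ 2 * (QQ * CC) * w * (4 * u) ^ j)
      (32 * (4 * u) ^ 2 * (QQ' * CC + QQ * CC') * w * (4 * u) ^ j)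
      (u ^ (2 + j) * (hq u f (2 + j + 3) s * hV ρ u a f U (2 + j + 1) s +
        hq u f (2 + j + 1) s * hV ρ u a f U (2 + j + 3) s))
      (u ^ (2 + j) * (hq u g (2 + j + 3) s * hV ρ u b g W (2 + j + 1) s +
        hq u g (2 + j + 1) s * hV ρ u b g W (2 + j + 3) s)) := by
    intro j
    have a1 := (HQ (2 + j + 3) (by omega)).mul (HV (2 + j + 1) (by omega))
    have a2 := (HQ (2 + j + 1) (by omega)).mul (HV (2 + j + 3) (by omega))
    have a3 := (a1.add a2).const_mul (u ^ (2 + j))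
    rw [abs_of_nonneg (pow_nonneg hu0 _)] at a3
    have e1 : 2 + j + 1 - 1 = 2 + j := by omega
    have e2 : 2 + j + 3 - 1 = 4 + j := by omega
    rw [e1, e2] at a3
    -- `s^(42 (2j+7)) ≤ s^(42*7)`
    have hsj : s ^ (42 * (7 + 2 * j)) * (1 - s ^ 42) ≤ w :=
      mul_le_mul_of_nonneg_right (pow_le_pow_of_le_one hs hs1 (by omega)) (by linarith)
    have key : ∀ X : ℝ, 0 ≤ X → u ^ (2 + j) * (X * 2 ^ (2 + j + 3) * 2 ^ (2 + j + 1) *
        (s ^ (42 * (7 + 2 * j)) * (1 - s ^ 42)) + X * 2 ^ (2 + j + 3) * 2 ^ (2 + j + 1) *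
        (s ^ (42 * (7 + 2 * j)) * (1 - s ^ 42))) ≤ 32 * (4 * u) ^ 2 * X * w * (4 * u) ^ j := by
      intro X hX
      have h4 : (2 : ℝ) ^ (2 * j) = 4 ^ j := by rw [pow_mul]; norm_num
      calc _ = 32 * (4 * u) ^ 2 * X * (s ^ (42 * (7 + 2 * j)) * (1 - s ^ 42)) * (4 * u) ^ j := by
            have : (2 : ℝ) ^ (2 + j + 3) * 2 ^ (2 + j + 1) = 256 * 4 ^ j := by
              rw [← pow_add, show 2 + j + 3 + (2 + j + 1) = 8 + 2 * j by ring, pow_add, h4]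
              norm_num
            have e5 : (4 * u) ^ j = 4 ^ j * u ^ j := mul_pow _ _ _
            rw [e5, pow_add u 2 j]
            linear_combination (2 * u ^ 2 * u ^ j * X * (s ^ (42 * (7 + 2 * j)) * (1 - s ^ 42))) *
              this
        _ ≤ _ := by
            refine mul_le_mul_of_nonneg_right ?_ (pow_nonneg (by linarith) _)
            exact mul_le_mul_of_nonneg_left hsj (by positivity)
    refine a3.mono hM ?_ ?_
    · refine le_trans (le_of_eq ?_) (key (QQ * CC) (mul_nonneg nQ nC))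
      have e6 : s ^ (42 * (7 + 2 * j)) = s ^ (42 * (2 + j + 3)) * s ^ (42 * (2 + j)) := by
        rw [← pow_add]; congr 1; ring
      have e7 : s ^ (42 * (7 + 2 * j)) = s ^ (42 * (2 + j + 1)) * s ^ (42 * (4 + j)) := by
        rw [← pow_add]; congr 1; ring
      nth_rw 1 [e6]
      rw [e7]
      ring
    · refine le_trans (le_of_eq ?_) (key (QQ' * CC + QQ * CC') (by positivity))
      have e6 : s ^ (42 * (7 + 2 * j)) = s ^ (42 * (2 + j + 3)) * s ^ (42 * (2 + j)) := by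
        rw [← pow_add]; congr 1; ring
      have e7 : s ^ (42 * (7 + 2 * j)) = s ^ (42 * (2 + j + 1)) * s ^ (42 * (4 + j)) := by
        rw [← pow_add]; congr 1; ring
      nth_rw 1 [e6]
      rw [e7]
      ring
  have h4u0 : 0 ≤ 4 * u := by linarith
  have h4u : 4 * u < 1 := by linarith
  have hnum := tail_num hu0 hu
  have hden : 0 < 1 - 4 * u := by linarith
  have pv : (ptG2 D Q Q' C C').v.ev s ≥ 0.0768 * (QQ * (CC * w)) := by
    have b1 := TL.ev_mul hs hs1 D (pmn 0 Q Q').v (pmc 7 C C').v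
    have b2 := TL.ev_mul hs hs1 D (PL.cst 7680000).v (TL.mulD D (pmn 0 Q Q').v (pmc 7 C C').v)
    have c0 : (PL.cst 7680000).v.ev s = 0.0768 := by
      show (TL.cst 7680000).ev s = _
      rw [TL.ev_cst]; unfold UU; norm_num
    have c1 : (pmn 0 Q Q').v.ev s = QQ := by
      show (⟨lmn 0 Q, [], []⟩ : TL).ev s = _
      rw [ev_mn]; simp [hQQ]
    have c2 : (pmc 7 C C').v.ev s = CC * w := by
      show (⟨[], [], lmn 7 C⟩ : TL).ev s = _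
      rw [ev_mc]
    rw [c1, c2] at b1
    rw [c0] at b2
    exact le_trans (mul_le_mul_of_nonneg_left b1 (by norm_num)) b2
  have pd : (ptG2 D Q Q' C C').d.ev s ≥ 0.0768 * ((QQ' * CC + QQ * CC') * w) := by
    have b1 := TL.ev_mul hs hs1 D (pmn 0 Q Q').d (pmc 7 C C').v
    have b1' := TL.ev_mul hs hs1 D (pmn 0 Q Q').v (pmc 7 C C').d
    have b2 := TL.ev_mul hs hs1 D (PL.cst 7680000).v ((TL.mulD D (pmn 0 Q Q').d (pmc 7 C C').v).add
      (TL.mulD D (pmn 0 Q Q').v (pmc 7 C C').d))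
    have c0 : (PL.cst 7680000).v.ev s = 0.0768 := by
      show (TL.cst 7680000).ev s = _
      rw [TL.ev_cst]; unfold UU; norm_num
    have c1 : (pmn 0 Q Q').v.ev s = QQ := by
      show (⟨lmn 0 Q, [], []⟩ : TL).ev s = _
      rw [ev_mn]; simp [hQQ]
    have c1' : (pmn 0 Q Q').d.ev s = QQ' := by
      show (⟨lmn 0 Q', [], []⟩ : TL).ev s = _
      rw [ev_mn]; simp [hQQ']
    have c2 : (pmc 7 C C').v.ev s = CC * w := by
      show (⟨[], [], lmn 7 C⟩ : TL).ev s = _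
      rw [ev_mc]
    have c2' : (pmc 7 C C').d.ev s = CC' * w := by
      show (⟨[], [], lmn 7 C'⟩ : TL).ev s = _
      rw [ev_mc]
    rw [c1', c2] at b1
    rw [c1, c2'] at b1'
    rw [c0, TL.ev_add] at b2
    show _ ≤ ((TL.mulD D (PL.cst 7680000).d (PL.mulD D (pmn 0 Q Q') (pmc 7 C C')).v).add
      (TL.mulD D (PL.cst 7680000).v (PL.mulD D (pmn 0 Q Q') (pmc 7 C C')).d)).ev s
    rw [TL.ev_add]
    have n1 := TL.ev_nonneg hs hs1
      (TL.mulD D (PL.cst 7680000).d (PL.mulD D (pmn 0 Q Q') (pmc 7 C C')).v)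
    have b3 : 0.0768 * ((QQ' * CC + QQ * CC') * w) ≤
        0.0768 * ((TL.mulD D (pmn 0 Q Q').d (pmc 7 C C').v).ev s +
          (TL.mulD D (pmn 0 Q Q').v (pmc 7 C C').d).ev s) := by
      refine mul_le_mul_of_nonneg_left ?_ (by norm_num)
      calc _ = QQ' * (CC * w) + QQ * (CC' * w) := by ring
        _ ≤ _ := add_le_add b1 b1'
    have b4 := b3.trans b2
    exact b4.trans (le_add_of_nonneg_left n1)
  have hA : 32 * (4 * u) ^ 2 * (QQ * CC) * w / (1 - 4 * u) ≤ (ptG2 D Q Q' C C').v.ev s := by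
    refine le_trans ?_ pv
    calc 32 * (4 * u) ^ 2 * (QQ * CC) * w / (1 - 4 * u)
        = 32 * (4 * u) ^ 2 / (1 - 4 * u) * (QQ * (CC * w)) := by ring
      _ ≤ _ := mul_le_mul_of_nonneg_right hnum (mul_nonneg nQ (mul_nonneg nC hw0))
  have hA' : 32 * (4 * u) ^ 2 * (QQ' * CC + QQ * CC') * w / (1 - 4 * u) ≤
      (ptG2 D Q Q' C C').d.ev s := by
    refine le_trans ?_ pd
    calc 32 * (4 * u) ^ 2 * (QQ' * CC + QQ * CC') * w / (1 - 4 * u)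
        = 32 * (4 * u) ^ 2 / (1 - 4 * u) * ((QQ' * CC + QQ * CC') * w) := by ring
      _ ≤ _ := mul_le_mul_of_nonneg_right hnum
          (mul_nonneg (add_nonneg (mul_nonneg nQ' nC) (mul_nonneg nQ nC')) hw0)
  have hsum := (TJ_tsum2 (M := M) (s := s) (q := 4 * u)
    (f := fun m => u ^ m * (hq u f (m + 3) s * hV ρ u a f U (m + 1) s +
        hq u f (m + 1) s * hV ρ u a f U (m + 3) s))
    (g := fun m => u ^ m * (hq u g (m + 3) s * hV ρ u b g W (m + 1) s +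
        hq u g (m + 1) s * hV ρ u b g W (m + 3) s)) hM h4u0 h4u t0 t1 ht hA hA').2.2
  have k1 := TJ_mulJ0 h1 h2 hM hs hs1 hz Hr2
  have k2 := TJ.mul hM hs hs1 D Hq2 Hv0
  have k3 := TJ.mul hM hs hs1 D (TJ.mulR hs H1) Hw
  have k4 := TJ.mul hM hs hs1 D Hr1 Hv1
  have k5 := TJ.mul hM hs hs1 D Hr0 Hv2
  exact ((((k1.add k2).add k3).add k4).add k5).add hsum

end

end SCHV
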