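import Mathlib

/-!
# [SCH] geometry, part 1: Lipschitz graphs from a cone condition
-/

set_option autoImplicit false

open Metric Set
open scoped RealInnerProductSpace NNReal

namespace SCHG

/-- An open set which satisfies a cone condition near `p` is above a Lipschitz graph near `p`. -/
theorem graph_of_cone {E : Type*} [NormedAddCommGroup E] [InnerProductSpace ℝ E] (Ω : Set E)
    (hΩ : IsOpen Ω) (p e f : E) (hp : p ∈ closure Ω) (hf : ‖f‖ = 1) (hef : ⟪e, f⟫ = 0)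
    (r : ℝ) (hr : 0 < r) (K : ℝ≥0)
    (hcone : ∀ y ∈ Ω, y ∈ ball p r → ∀ x ∈ ball p r,
      K * |⟪x, e⟫ - ⟪y, e⟫| < ⟪x, f⟫ - ⟪y, f⟫ → x ∈ Ω) :
    ∃ g : ℝ → ℝ, LipschitzWith K g ∧ ∀ x ∈ ball p r, (x ∈ Ω ↔ g ⟪x, e⟫ < ⟪x, f⟫) := by
  have hne : (Ω ∩ ball p r).Nonempty := by
    have := mem_closure_iff.1 hp (ball p r) isOpen_ball (mem_ball_self hr)
    rwa [inter_comm] at this
  have : Nonempty ↥(Ω ∩ ball p r) := hne.to_subtype
  have hbdd : ∀ t : ℝ, BddBelow (range fun y : ↥(Ω ∩ ball p r) =>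
      ⟪(y : E), f⟫ + K * |t - ⟪(y : E), e⟫|) := by
    intro t
    refine ⟨-(‖p‖ + r), ?_⟩
    rintro _ ⟨⟨y, hy1, hy2⟩, rfl⟩
    simp only
    have h1 : |⟪y, f⟫| ≤ ‖y‖ * ‖f‖ := abs_real_inner_le_norm y f
    rw [hf, mul_one] at h1
    have h2 : ‖y‖ ≤ ‖p‖ + r := by
      have h3 : ‖y - p‖ < r := by rwa [mem_ball, dist_eq_norm] at hy2
      calc ‖y‖ = ‖p + (y - p)‖ := by congr 1; abel
        _ ≤ ‖p‖ + ‖y - p‖ := norm_add_le _ _
        _ ≤ ‖p‖ + r := by linarith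
    have h3 : 0 ≤ (K : ℝ) * |t - ⟪y, e⟫| := by positivity
    have h4 := neg_abs_le ⟪y, f⟫
    linarith
  refine ⟨fun t => ⨅ y : ↥(Ω ∩ ball p r), (⟪(y : E), f⟫ + K * |t - ⟪(y : E), e⟫|), ?_, ?_⟩
  · refine LipschitzWith.of_le_add_mul K fun t t' => ?_
    rw [← sub_le_iff_le_add]
    refine le_ciInf fun y => ?_
    rw [sub_le_iff_le_add]
    refine (ciInf_le (hbdd t) y).trans ?_
    have h1 : |t - ⟪(y : E), e⟫| ≤ |t' - ⟪(y : E), e⟫| + |t - t'| := by
      have : t - ⟪(y : E), e⟫ = (t' - ⟪(y : E), e⟫) + (t - t') := by ring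
      rw [this]
      exact abs_add_le _ _
    have h2 := mul_le_mul_of_nonneg_left h1 K.2
    rw [Real.dist_eq]
    have h3 : (K : ℝ) * (|t' - ⟪(y : E), e⟫| + |t - t'|) =
      K * |t' - ⟪(y : E), e⟫| + K * |t - t'| := by ring
    have h4 : (K : ℝ) * |t - ⟪(y : E), e⟫| ≤ K * |t' - ⟪(y : E), e⟫| + K * |t - t'| := by
      rw [← h3]; exact h2
    linarith
  · intro x hx
    simp only
    constructor
    · intro hxΩ
      obtain ⟨ε, hε, hball⟩ := Metric.isOpen_iff.1 (hΩ.inter isOpen_ball) x ⟨hxΩ, hx⟩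
      have hmem : x - (ε / 2) • f ∈ Ω ∩ ball p r := by
        apply hball
        rw [mem_ball, dist_eq_norm, sub_sub_cancel_left, norm_neg, norm_smul, hf, mul_one,
          Real.norm_eq_abs, abs_of_pos (by positivity)]
        linarith
      refine (ciInf_le (hbdd _) ⟨_, hmem⟩).trans_lt ?_
      simp only
      have h1 : ⟪x - (ε / 2) • f, f⟫ = ⟪x, f⟫ - ε / 2 := by
        rw [inner_sub_left, real_inner_smul_left, real_inner_self_eq_norm_sq, hf]
        ring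
      have h2 : ⟪x - (ε / 2) • f, e⟫ = ⟪x, e⟫ := by
        rw [inner_sub_left, real_inner_smul_left, real_inner_comm e f, hef]
        ring
      rw [h1, h2, sub_self, abs_zero, mul_zero, add_zero]
      linarith
    · intro hlt
      obtain ⟨⟨y, hy1, hy2⟩, hy⟩ := exists_lt_of_ciInf_lt hlt
      simp only at hy
      exact hcone y hy1 hy2 x hx (by linarith)

end SCHG
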