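import Pool.Agent.MP_83fd13_an.SCH.Geo10

/-!
# [SCH] one mode, continued; sums of modes
-/

set_option autoImplicit false

open Metric Set MeasureTheory Filter Topology
open scoped RealInnerProductSpace NNReal ComplexConjugate

namespace SCHG

section one

variable {a a' a'' : ℝ → ℝ} {n : ℕ} {M : ℝ} (H : Mode a a' a'' n M)
include H

theorem Mode.norm_PB_nat_le {w : ℂ} (hw : ‖w‖ ≤ 1) : ‖PB a n w‖ ≤ M := by
  have h1 := H.b0 ‖w‖ ⟨norm_nonneg _, hw⟩
  rw [PB, norm_mul, Complex.norm_real, Real.norm_eq_abs, zpow_natCast, norm_pow]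
  have h2 : ‖w / ‖w‖‖ ≤ 1 := by
    rcases eq_or_ne w 0 with rfl | hw0
    · simp
    · exact (norm_unit hw0).le
  calc |a ‖w‖| * ‖w / ‖w‖‖ ^ n ≤ M * 1 :=
        mul_le_mul h1 (pow_le_one₀ (norm_nonneg _) h2) (by positivity) H.M_nonneg
    _ = M := mul_one M

theorem Mode.abs_Um_le {w : ℂ} (hw : ‖w‖ ≤ 1) : |Um a n w| ≤ M :=
  (Complex.abs_re_le_norm _).trans (H.norm_PB_nat_le hw)

omit H in
theorem continuousWithinAt_PB {A : ℝ → ℝ} (m : ℤ) {w : ℂ} (hw : ‖w‖ ≤ 1) (hw0 : w ≠ 0)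
    (hA : ContinuousOn A (Ioc 0 1)) : ContinuousWithinAt (PB A m) (closedBall 0 1) w := by
  have h0 : ‖w‖ ≠ 0 := norm_ne_zero_iff.2 hw0
  have h0C : (‖w‖ : ℂ) ≠ 0 := by exact_mod_cast h0
  have hpos : 0 < ‖w‖ := norm_pos_iff.2 hw0
  have h1 : ContinuousWithinAt (fun z : ℂ => (A ‖z‖ : ℂ)) (closedBall 0 1 ∩ {z : ℂ | z ≠ 0}) w := by
    refine Complex.continuous_ofReal.continuousAt.comp_continuousWithinAt ?_
    refine ContinuousWithinAt.comp (t := Ioc 0 1) (hA ‖w‖ ⟨hpos, hw⟩)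
      continuous_norm.continuousWithinAt ?_
    intro z hz
    exact ⟨norm_pos_iff.2 hz.2, mem_closedBall_zero_iff.1 hz.1⟩
  have h2 : ContinuousAt (fun z : ℂ => (z / ‖z‖) ^ m) w := by
    refine ContinuousAt.zpow₀ ?_ m (Or.inl (div_ne_zero hw0 h0C))
    exact continuousAt_id.div (Complex.continuous_ofReal.comp continuous_norm).continuousAt h0C
  have h3 : ContinuousWithinAt (PB A m) (closedBall 0 1 ∩ {z : ℂ | z ≠ 0}) w :=
    h1.mul h2.continuousWithinAt
  refine (continuousWithinAt_inter ?_).1 h3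
  exact isOpen_ne.mem_nhds hw0

theorem Mode.continuousOn_Um : ContinuousOn (Um a n) (closedBall 0 1) := by
  refine Complex.continuous_re.comp_continuousOn ?_
  intro w hw
  rw [mem_closedBall_zero_iff] at hw
  rcases eq_or_ne w 0 with rfl | hw0
  · rcases Nat.eq_zero_or_pos n with hn | hn
    · subst hn
      have h1 : PB a ((0 : ℕ) : ℤ) = fun z : ℂ => (a ‖z‖ : ℂ) := by
        funext z
        rw [PB, Nat.cast_zero, zpow_zero, mul_one]
      rw [h1]
      refine Complex.continuous_ofReal.continuousAt.comp_continuousWithinAt ?_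
      refine ContinuousWithinAt.comp (t := Icc 0 1) (H.c0 ‖(0 : ℂ)‖ ⟨norm_nonneg _, hw⟩)
        continuous_norm.continuousWithinAt ?_
      intro z hz
      exact ⟨norm_nonneg _, mem_closedBall_zero_iff.1 hz⟩
    · have h0 : PB a n 0 = 0 := by
        rw [PB, norm_zero, H.z0 hn]
        simp
      rw [ContinuousWithinAt, h0]
      have h1 : Tendsto (fun z : ℂ => |a ‖z‖|) (𝓝[closedBall 0 1] 0) (𝓝 0) := by
        have h2 : ContinuousWithinAt (fun z : ℂ => |a ‖z‖|) (closedBall 0 1) 0 := by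
          refine continuous_abs.continuousAt.comp_continuousWithinAt ?_
          refine ContinuousWithinAt.comp (t := Icc 0 1) (H.c0 ‖(0 : ℂ)‖ ⟨norm_nonneg _, hw⟩)
            continuous_norm.continuousWithinAt ?_
          intro z hz
          exact ⟨norm_nonneg _, mem_closedBall_zero_iff.1 hz⟩
        have h3 := h2.tendsto
        rw [norm_zero, H.z0 hn, abs_zero] at h3
        exact h3
      refine squeeze_zero_norm (fun z => ?_) h1
      rw [PB, norm_mul, Complex.norm_real, Real.norm_eq_abs, zpow_natCast, norm_pow]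
      have h2 : ‖z / ‖z‖‖ ≤ 1 := by
        rcases eq_or_ne z 0 with rfl | hw0
        · simp
        · exact (norm_unit hw0).le
      exact mul_le_of_le_one_right (abs_nonneg _) (pow_le_one₀ (norm_nonneg _) h2)
  · exact continuousWithinAt_PB _ hw hw0 (H.c0.mono Ioc_subset_Icc_self)

theorem Mode.Gm_zero : Gm a a' n 0 = 0 := by
  rw [Gm, PB, PB, norm_zero, H.z1]
  simp

theorem Mode.norm_Gm_le {w : ℂ} (hw : ‖w‖ ≤ 1) : ‖Gm a a' n w‖ ≤ 2 * M * ‖w‖ := by
  rcases eq_or_ne w 0 with rfl | hw0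
  · rw [H.Gm_zero]
    simp
  have hpos : 0 < ‖w‖ := norm_pos_iff.2 hw0
  have hr : ‖w‖ ∈ Ioc (0 : ℝ) 1 := ⟨hpos, hw⟩
  have hn0 : (0 : ℝ) ≤ n := Nat.cast_nonneg n
  have b1 := H.b1 _ hr
  have b3 := H.b3 _ hr
  rw [Gm]
  refine (norm_add_le _ _).trans ?_
  rw [norm_PB_le _ _ _ hw0, norm_PB_le _ _ _ hw0, abs_div, abs_div, abs_two]
  have h1 : |n * a ‖w‖ / ‖w‖| ≤ M * ‖w‖ := by
    rw [abs_div, abs_mul, abs_of_nonneg hn0, abs_of_pos hpos, div_le_iff₀ hpos]
    have h2 : (n : ℝ) * |a ‖w‖| ≤ n ^ 2 * |a ‖w‖| := by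
      refine mul_le_mul_of_nonneg_right ?_ (abs_nonneg _)
      rcases Nat.eq_zero_or_pos n with h | h
      · rw [h]; simp
      · have : (1 : ℝ) ≤ n := by exact_mod_cast h
        nlinarith
    calc _ ≤ M * ‖w‖ ^ 2 := h2.trans b3
      _ = _ := by ring
  have h2 : |a' ‖w‖| ≤ M * ‖w‖ := by
    have : |a' ‖w‖| ≤ (n + 1) * |a' ‖w‖| := by nlinarith [abs_nonneg (a' ‖w‖)]
    exact this.trans b1
  have h3 := (abs_sub (a' ‖w‖) (n * a ‖w‖ / ‖w‖))
  have h4 := (abs_add_le (a' ‖w‖) (n * a ‖w‖ / ‖w‖))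
  linarith

theorem Mode.continuousOn_Gm : ContinuousOn (Gm a a' n) (closedBall 0 1) := by
  intro w hw
  rw [mem_closedBall_zero_iff] at hw
  rcases eq_or_ne w 0 with rfl | hw0
  · rw [ContinuousWithinAt, H.Gm_zero]
    have h1 : Tendsto (fun z : ℂ => 2 * M * ‖z‖) (𝓝[closedBall 0 1] 0) (𝓝 0) := by
      have h2 : Continuous fun z : ℂ => 2 * M * ‖z‖ := by fun_prop
      have h3 := (h2.tendsto 0).mono_left (nhdsWithin_le_nhds (s := closedBall 0 1))
      rwa [norm_zero, mul_zero] at h3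
    refine squeeze_zero_norm' ?_ h1
    filter_upwards [self_mem_nhdsWithin] with z hz
    exact H.norm_Gm_le (mem_closedBall_zero_iff.1 hz)
  · have h1 : ContinuousOn (fun r => n * a r / r) (Ioc 0 1) := by
      refine (continuousOn_const.mul (H.c0.mono Ioc_subset_Icc_self)).div continuousOn_id ?_
      intro r hr
      exact hr.1.ne'
    exact (continuousWithinAt_PB _ hw hw0 ((H.c1.sub h1).div_const 2)).add
      (continuousWithinAt_PB _ hw hw0 ((H.c1.add h1).div_const 2))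

theorem Mode.lip_Gm : LipschitzOnWith (Real.toNNReal (6 * M)) (Gm a a' n) (closedBall 0 1) :=
  lip_punctured (mul_nonneg (by norm_num) H.M_nonneg) H.continuousOn_Gm
    (fun _ hw hw0 => H.hasFDerivAt_Gm hw hw0) (fun _ hw hw0 => H.norm_Lm_le hw hw0)

theorem Mode.hasFDerivAt_Um' {w : ℂ} (hw : w ∈ ball (0 : ℂ) 1) :
    HasFDerivAt (Um a n) (innerSL ℝ (Gm a a' n w)) w := by
  rcases eq_or_ne w 0 with rfl | hw0
  · rw [H.Gm_zero, map_zero, hasFDerivAt_iff_isLittleO_nhds_zero]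
    rw [Asymptotics.isLittleO_iff]
    intro c hc
    have hM := H.M_nonneg
    have hev : ∀ᶠ z : ℂ in 𝓝 0, ‖z‖ < min (1 / 2) (c / (4 * M + 1)) := by
      have : 0 < min (1 / 2) (c / (4 * M + 1)) := by positivity
      filter_upwards [ball_mem_nhds (0 : ℂ) this] with z hz
      exact mem_ball_zero_iff.1 hz
    filter_upwards [hev] with z hz
    rw [lt_min_iff] at hz
    rw [zero_add, zero_apply, sub_zero]
    rcases eq_or_ne z 0 with rfl | hz0
    · simp
    have hzpos : 0 < ‖z‖ := norm_pos_iff.2 hz0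
    have hR : 2 * ‖z‖ ≤ 1 := by linarith [hz.1]
    have h1 := lip_radial (g := Um a n) (g' := fun w => innerSL ℝ (Gm a a' n w)) (R := 2 * ‖z‖)
      (C := 2 * M * (2 * ‖z‖)) (by positivity)
      (H.continuousOn_Um.mono ((ball_subset_ball hR).trans ball_subset_closedBall))
      (fun w hw hw0 => H.hasFDerivAt_Um (ball_subset_ball hR hw) hw0)
      (fun w hw _ => by
        rw [innerSL_apply_norm]
        have h2 := mem_ball_zero_iff.1 hw
        refine (H.norm_Gm_le (h2.le.trans hR)).trans ?_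
        exact mul_le_mul_of_nonneg_left h2.le (by positivity))
      (z := z) (mem_ball_zero_iff.2 (by linarith))
    refine h1.trans ?_
    refine mul_le_mul_of_nonneg_right ?_ hzpos.le
    have h2 : ‖z‖ * (4 * M + 1) < c := by
      rw [← lt_div_iff₀ (by positivity)]
      exact hz.2
    nlinarith
  · exact H.hasFDerivAt_Um hw hw0

end one

/-- the data of the sum of the modes `a_k(r) cos (N k θ)` -/
structure Modes (N : ℕ) (a a' a'' : ℕ → ℝ → ℝ) (M : ℕ → ℝ) : Prop where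
  mode : ∀ k, Mode (a k) (a' k) (a'' k) (N * k) (M k)
  sum : Summable M
  n1 : ∀ k, a' k 1 = 0

/-- the sum of the modes -/
noncomputable def UU (N : ℕ) (a : ℕ → ℝ → ℝ) (w : ℂ) : ℝ := ∑' k, Um (a k) (N * k) w

/-- the gradient -/
noncomputable def GG (N : ℕ) (a a' : ℕ → ℝ → ℝ) (w : ℂ) : ℂ := ∑' k, Gm (a k) (a' k) (N * k) w

section sum

variable {N : ℕ} {a a' a'' : ℕ → ℝ → ℝ} {M : ℕ → ℝ} (H : Modes N a a' a'' M)
include H

theorem Modes.summable_Um {w : ℂ} (hw : ‖w‖ ≤ 1) : Summable fun k => Um (a k) (N * k) w :=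
  Summable.of_norm_bounded H.sum fun k => (H.mode k).abs_Um_le hw

theorem Modes.summable_Gm {w : ℂ} (hw : ‖w‖ ≤ 1) :
    Summable fun k => Gm (a k) (a' k) (N * k) w := by
  refine Summable.of_norm_bounded (H.sum.mul_left 2) fun k => ?_
  refine ((H.mode k).norm_Gm_le hw).trans ?_
  have := (H.mode k).M_nonneg
  nlinarith [norm_nonneg w]

theorem Modes.continuousOn_UU : ContinuousOn (UU N a) (closedBall 0 1) :=
  continuousOn_tsum (fun k => (H.mode k).continuousOn_Um) H.sum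
    fun k _ hw => (H.mode k).abs_Um_le (mem_closedBall_zero_iff.1 hw)

theorem Modes.hasFDerivAt_UU {w : ℂ} (hw : w ∈ ball (0 : ℂ) 1) :
    HasFDerivAt (UU N a) (innerSL ℝ (GG N a a' w)) w := by
  have h1 := hasFDerivAt_tsum_of_isPreconnected (𝕜 := ℝ) (u := fun k => 2 * M k)
    (f := fun k => Um (a k) (N * k)) (f' := fun k w => innerSL ℝ (Gm (a k) (a' k) (N * k) w))
    (H.sum.mul_left 2) isOpen_ball (convex_ball (0 : ℂ) 1).isPreconnected
    (fun k w hw => (H.mode k).hasFDerivAt_Um' hw)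
    (fun k w hw => by
      rw [innerSL_apply_norm]
      have h2 := (mem_ball_zero_iff.1 hw).le
      refine ((H.mode k).norm_Gm_le h2).trans ?_
      have := (H.mode k).M_nonneg
      nlinarith [norm_nonneg w])
    (mem_ball_self one_pos) (H.summable_Um (by simp)) hw
  refine h1.congr_fderiv ?_
  have h2 := H.summable_Gm (mem_ball_zero_iff.1 hw).le
  rw [GG]
  exact ((innerSL ℝ (E := ℂ)).map_tsum h2).symm

theorem Modes.lip_GG : LipschitzOnWith (Real.toNNReal (∑' k, 6 * M k)) (GG N a a')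
    (closedBall 0 1) := by
  have hM0 : ∀ k, 0 ≤ M k := fun k => (H.mode k).M_nonneg
  have hs : Summable fun k => 6 * M k := H.sum.mul_left 6
  have h0 : 0 ≤ ∑' k, 6 * M k := tsum_nonneg fun k => mul_nonneg (by norm_num) (hM0 k)
  refine LipschitzOnWith.of_dist_le_mul fun z hz w hw => ?_
  rw [Real.coe_toNNReal _ h0, dist_eq_norm, dist_eq_norm, GG, GG,
    ← (H.summable_Gm (mem_closedBall_zero_iff.1 hz)).tsum_sub
      (H.summable_Gm (mem_closedBall_zero_iff.1 hw)), ← tsum_mul_right]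
  refine tsum_of_norm_bounded (hs.mul_right _).hasSum fun k => ?_
  have h1 := (H.mode k).lip_Gm.dist_le_mul z hz w hw
  rw [Real.coe_toNNReal _ (mul_nonneg (by norm_num) (hM0 k)), dist_eq_norm, dist_eq_norm] at h1
  exact h1

omit H in
theorem div_tsum (L : ℕ → ℂ →L[ℝ] ℂ) (hL : Summable L) :
    ((∑' k, L k) 1).re + ((∑' k, L k) Complex.I).im = ∑' k, ((L k 1).re + (L k Complex.I).im) := by
  have h := hL.hasSum
  have e1 : HasSum (fun k => (L k 1).re) ((∑' k, L k) 1).re :=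
    Complex.reCLM.hasSum ((ContinuousLinearMap.apply ℝ ℂ (1 : ℂ)).hasSum h)
  have e2 : HasSum (fun k => (L k Complex.I).im) ((∑' k, L k) Complex.I).im :=
    Complex.imCLM.hasSum ((ContinuousLinearMap.apply ℝ ℂ Complex.I).hasSum h)
  exact (e1.add e2).tsum_eq.symm

/-- the derivative of the gradient off the origin -/
theorem Modes.hasFDerivAt_GG_aux {w : ℂ} (hw : w ∈ ball (0 : ℂ) 1) (hw0 : w ≠ 0) :
    Summable (fun k => Lm (a k) (a' k) (a'' k) (N * k) w) ∧
    HasFDerivAt (GG N a a') (∑' k, Lm (a k) (a' k) (a'' k) (N * k) w) w := by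
  have hpos : 0 < ‖w‖ := norm_pos_iff.2 hw0
  have hs0 : ∀ z ∈ ball w ‖w‖ ∩ ball 0 1, z ≠ 0 := by
    rintro z hz rfl
    have := hz.1
    rw [mem_ball, dist_zero_left] at this
    exact lt_irrefl _ this
  have h6 : Summable fun k => 6 * M k := H.sum.mul_left 6
  have hbd : ∀ k, ∀ z ∈ ball w ‖w‖ ∩ ball 0 1, ‖Lm (a k) (a' k) (a'' k) (N * k) z‖ ≤ 6 * M k :=
    fun k z hz => (H.mode k).norm_Lm_le hz.2 (hs0 z hz)
  have hws : w ∈ ball w ‖w‖ ∩ ball (0 : ℂ) 1 := ⟨mem_ball_self hpos, hw⟩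
  refine ⟨Summable.of_norm_bounded h6 fun k => hbd k w hws, ?_⟩
  exact hasFDerivAt_tsum_of_isPreconnected (𝕜 := ℝ) (u := fun k => 6 * M k)
    (f := fun k => Gm (a k) (a' k) (N * k)) (f' := fun k w => Lm (a k) (a' k) (a'' k) (N * k) w)
    h6 (isOpen_ball.inter isOpen_ball)
    ((convex_ball w ‖w‖).inter (convex_ball (0 : ℂ) 1)).isPreconnected
    (fun k z hz => (H.mode k).hasFDerivAt_Gm hz.2 (hs0 z hz)) hbd hws
    (H.summable_Gm (mem_ball_zero_iff.1 hw).le) hws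

/-- the derivative of the gradient off the origin, and its divergence -/
theorem Modes.hasFDerivAt_GG {w : ℂ} (hw : w ∈ ball (0 : ℂ) 1) (hw0 : w ≠ 0) :
    ∃ L : ℂ →L[ℝ] ℂ, HasFDerivAt (GG N a a') L w ∧ (L 1).re + (L Complex.I).im =
      ∑' k, (a'' k ‖w‖ + a' k ‖w‖ / ‖w‖ - ((N * k : ℕ) : ℝ) ^ 2 * a k ‖w‖ / ‖w‖ ^ 2) *
        ((w / ‖w‖) ^ (N * k)).re := by
  obtain ⟨h1, h2⟩ := H.hasFDerivAt_GG_aux hw hw0
  refine ⟨_, h2, ?_⟩
  rw [div_tsum _ h1]
  exact tsum_congr fun k => div_Lm (a k) (a' k) (a'' k) (N * k) hw0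

/-- the gradient is tangential on the circle -/
theorem Modes.GG_tangential {w : ℂ} (hw : ‖w‖ = 1) : ⟪GG N a a' w, w⟫ = 0 := by
  have hw0 : w ≠ 0 := by
    rintro rfl
    rw [norm_zero] at hw
    norm_num at hw
  have h1 : ⟪w, GG N a a' w⟫ = ∑' k, ⟪w, Gm (a k) (a' k) (N * k) w⟫ :=
    (innerSL ℝ w).map_tsum (H.summable_Gm hw.le)
  rw [real_inner_comm, h1]
  have h2 : ∀ k, ⟪w, Gm (a k) (a' k) (N * k) w⟫ = 0 := by
    intro k
    have he : w / ‖w‖ = w := by rw [hw, Complex.ofReal_one, div_one]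
    have h3 : ‖w ^ (N * k)‖ = 1 := by rw [norm_pow, hw, one_pow]
    have h4 : conj w * w = 1 := by
      rw [Complex.conj_mul', hw]
      norm_num
    rw [inner_eq, Gm, PB, PB, he, hw, H.n1 k, zpow_add_one₀ hw0, sub_eq_add_neg (1 : ℤ),
      zpow_one_add₀ hw0, zpow_neg, zpow_natCast, Complex.inv_eq_conj h3]
    have h5 : conj w * (((0 - ((N * k : ℕ) : ℝ) * a k 1 / 1) / 2 : ℝ) * (w ^ (N * k) * w) +
        (((0 + ((N * k : ℕ) : ℝ) * a k 1 / 1) / 2 : ℝ) : ℂ) * (w * conj (w ^ (N * k)))) =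
        (((0 - ((N * k : ℕ) : ℝ) * a k 1 / 1) / 2 : ℝ) * w ^ (N * k) +
        (((0 + ((N * k : ℕ) : ℝ) * a k 1 / 1) / 2 : ℝ) : ℂ) * conj (w ^ (N * k))) * (conj w * w) := by
      ring
    rw [h5, h4, mul_one, Complex.add_re, Complex.re_ofReal_mul, Complex.re_ofReal_mul,
      Complex.conj_re]
    ring
  rw [tsum_congr h2, tsum_zero]

omit H in
theorem UU_circle (N : ℕ) (a : ℕ → ℝ → ℝ) {w : ℂ} (hw : ‖w‖ = 1) :
    UU N a w = ∑' k, a k 1 * (w ^ (N * k)).re := by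
  rw [UU]
  refine tsum_congr fun k => ?_
  rw [Um, PB, hw, zpow_natCast, Complex.ofReal_one, div_one, Complex.re_ofReal_mul]

/-- if `a_k(1) = 0` for `k ≥ 1`, the gradient vanishes on the circle -/
theorem Modes.GG_zero (h : ∀ k, a (k + 1) 1 = 0) {w : ℂ} (hw : ‖w‖ = 1) : GG N a a' w = 0 := by
  rw [GG]
  have h2 : ∀ k, Gm (a k) (a' k) (N * k) w = 0 := by
    intro k
    rw [Gm, PB, PB, hw, H.n1 k]
    rcases Nat.eq_zero_or_pos k with rfl | hk
    · simp
    · obtain ⟨j, rfl⟩ : ∃ j, k = j + 1 := ⟨k - 1, by omega⟩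
      rw [h j]
      simp
  rw [tsum_congr h2, tsum_zero]

end sum

end SCHG
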