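import Pool.Agent.MP_83fd13_an.SCH.Geo1

/-!
# [SCH] geometry, part 2: the image of the disc under a map close to a multiple of the identity
-/

set_option autoImplicit false

open Metric Set
open scoped RealInnerProductSpace NNReal ComplexConjugate

namespace SCHG

/-- `F` is close to `ρ` times the identity on `s` -/
def Near (F : ℂ → ℂ) (ρ q : ℝ) (s : Set ℂ) : Prop :=
  ∀ z ∈ s, ∀ w ∈ s, ‖(F z - F w) - ρ * (z - w)‖ ≤ q * ρ * ‖z - w‖

/-- the nearest point retraction onto the closed unit disc -/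
noncomputable def prj (z : ℂ) : ℂ := ((max 1 ‖z‖)⁻¹ : ℝ) • z

theorem prj_of_le {z : ℂ} (hz : ‖z‖ ≤ 1) : prj z = z := by
  rw [prj, max_eq_left hz, inv_one, one_smul]

theorem norm_prj_le (z : ℂ) : ‖prj z‖ ≤ 1 := by
  have h1 : 0 < max 1 ‖z‖ := lt_max_of_lt_left one_pos
  rw [prj, norm_smul, norm_inv, Real.norm_eq_abs, abs_of_pos h1, inv_mul_le_one₀ h1]
  exact le_max_right _ _

theorem prj_inner (z w : ℂ) (hw : ‖w‖ ≤ 1) : ⟪z - prj z, w - prj z⟫ ≤ 0 := by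
  rcases le_or_gt ‖z‖ 1 with h | h
  · rw [prj_of_le h, sub_self, inner_zero_left]
  · have h0 : 0 < ‖z‖ := one_pos.trans h
    have hp : prj z = (‖z‖⁻¹ : ℝ) • z := by rw [prj, max_eq_right h.le]
    have hn : ‖prj z‖ = 1 := by
      rw [hp, norm_smul, norm_inv, norm_norm, inv_mul_cancel₀ h0.ne']
    have h1 : z - prj z = (‖z‖ - 1) • prj z := by
      rw [sub_smul, one_smul, hp, smul_smul, mul_inv_cancel₀ h0.ne', one_smul]
    rw [h1, real_inner_smul_left, inner_sub_right, real_inner_self_eq_norm_sq, hn]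
    have h2 : ⟪prj z, w⟫ ≤ ‖prj z‖ * ‖w‖ := real_inner_le_norm _ _
    rw [hn, one_mul] at h2
    nlinarith

theorem prj_lip (z w : ℂ) : ‖prj z - prj w‖ ≤ ‖z - w‖ := by
  have h1 := prj_inner z (prj w) (norm_prj_le w)
  have h2 := prj_inner w (prj z) (norm_prj_le z)
  have h3 : ‖prj z - prj w‖ ^ 2 ≤ ⟪z - w, prj z - prj w⟫ := by
    rw [← real_inner_self_eq_norm_sq]
    have e1 : ⟪z - w, prj z - prj w⟫ - ⟪prj z - prj w, prj z - prj w⟫ =
        - ⟪z - prj z, prj w - prj z⟫ - ⟪w - prj w, prj z - prj w⟫ := by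
      have e2 : ⟪z - prj z, prj w - prj z⟫ = - ⟪z - prj z, prj z - prj w⟫ := by
        rw [← inner_neg_right, neg_sub]
      rw [e2, ← inner_sub_left, neg_neg, ← inner_sub_left]
      congr 1
      abel
    linarith
  have h4 : ⟪z - w, prj z - prj w⟫ ≤ ‖z - w‖ * ‖prj z - prj w‖ := real_inner_le_norm _ _
  by_contra h
  push Not at h
  have h5 : 0 < ‖prj z - prj w‖ := (norm_nonneg _).trans_lt h
  nlinarith

/-- Extension to a homeomorphism of the plane. -/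
theorem exists_homeo (F : ℂ → ℂ) (ρ q : ℝ) (hρ : 0 < ρ) (hq0 : 0 ≤ q) (hq : q < 1)
    (h : Near F ρ q (closedBall 0 1)) :
    ∃ Φ : ℂ ≃ₜ ℂ, (∀ z, ‖z‖ ≤ 1 → Φ z = F z) ∧ Near Φ ρ q univ := by
  have hρC : (ρ : ℂ) ≠ 0 := by exact_mod_cast hρ.ne'
  have hmem : ∀ z, prj z ∈ closedBall (0 : ℂ) 1 := fun z => by
    rw [mem_closedBall_zero_iff]; exact norm_prj_le z
  let g : ℂ → ℂ := fun z => z + (F (prj z) / ρ - prj z)
  have hg : ApproximatesLinearOn g ((ContinuousLinearEquiv.refl ℝ ℂ : ℂ ≃L[ℝ] ℂ) : ℂ →L[ℝ] ℂ) univ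
      (⟨q, hq0⟩ : ℝ≥0) := by
    intro z _ w _
    have h1 : g z - g w - ((ContinuousLinearEquiv.refl ℝ ℂ : ℂ ≃L[ℝ] ℂ) : ℂ →L[ℝ] ℂ) (z - w) =
        ((F (prj z) - F (prj w)) - ρ * (prj z - prj w)) / ρ := by
      show z + (F (prj z) / ρ - prj z) - (w + (F (prj w) / ρ - prj w)) - (z - w) = _
      field_simp
      ring
    have h2 := h _ (hmem z) _ (hmem w)
    rw [h1, norm_div, Complex.norm_real, Real.norm_eq_abs, abs_of_pos hρ, div_le_iff₀ hρ]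
    have h3 := prj_lip z w
    show _ ≤ q * ‖z - w‖ * ρ
    calc _ ≤ q * ρ * ‖prj z - prj w‖ := h2
      _ ≤ q * ρ * ‖z - w‖ := mul_le_mul_of_nonneg_left h3 (by positivity)
      _ = _ := by ring
  have hc : Subsingleton ℂ ∨ (⟨q, hq0⟩ : ℝ≥0) <
      (‖((ContinuousLinearEquiv.refl ℝ ℂ).symm : ℂ →L[ℝ] ℂ)‖₊)⁻¹ := by
    right
    have h1 : ‖((ContinuousLinearEquiv.refl ℝ ℂ).symm : ℂ →L[ℝ] ℂ)‖₊ = 1 := by
      have : ((ContinuousLinearEquiv.refl ℝ ℂ).symm : ℂ →L[ℝ] ℂ) = ContinuousLinearMap.id ℝ ℂ := rfl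
      rw [this]
      ext
      simp
    rw [h1, inv_one]
    exact hq
  let Ψ : ℂ ≃ₜ ℂ := hg.toHomeomorph g hc
  let Φ : ℂ ≃ₜ ℂ := Ψ.trans (Homeomorph.mulLeft₀ (ρ : ℂ) hρC)
  have hΦ : ∀ z, Φ z = ρ * (z + (F (prj z) / ρ - prj z)) := fun z => rfl
  refine ⟨Φ, ?_, ?_⟩
  · intro z hz
    rw [hΦ, prj_of_le hz]
    field_simp
    ring
  · intro z _ w _
    rw [hΦ, hΦ]
    have h1 : ρ * (z + (F (prj z) / ρ - prj z)) - ρ * (w + (F (prj w) / ρ - prj w)) - ρ * (z - w) =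
        (F (prj z) - F (prj w)) - ρ * (prj z - prj w) := by
      field_simp
      ring
    rw [h1]
    calc _ ≤ q * ρ * ‖prj z - prj w‖ := h _ (hmem z) _ (hmem w)
      _ ≤ q * ρ * ‖z - w‖ := mul_le_mul_of_nonneg_left (prj_lip z w) (by positivity)

section domain

variable (Φ : ℂ ≃ₜ ℂ) (ρ q : ℝ) (hρ : 0 < ρ) (hq0 : 0 ≤ q) (hq : q ≤ 1 / 3)
  (h : Near Φ ρ q univ)

theorem isOpen_image : IsOpen (Φ '' ball 0 1) := Φ.isOpenMap _ isOpen_ball

theorem isBounded_image : Bornology.IsBounded (Φ '' ball 0 1) := by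
  have h1 : IsCompact (Φ '' closedBall 0 1) := (isCompact_closedBall 0 1).image Φ.continuous
  exact h1.isBounded.subset (image_mono ball_subset_closedBall)

theorem isConnected_image : IsConnected (Φ '' ball 0 1) :=
  ((convex_ball (0 : ℂ) 1).isConnected ⟨0, mem_ball_self one_pos⟩).image _ Φ.continuous.continuousOn

theorem simplyConnected_image : SimplyConnectedSpace ↥(Φ '' ball 0 1) := by
  have h1 : ContractibleSpace ↥(ball (0 : ℂ) 1) :=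
    (convex_ball (0 : ℂ) 1).contractibleSpace ⟨0, mem_ball_self one_pos⟩
  have h2 : ContractibleSpace ↥(Φ '' ball 0 1) :=
    (Φ.image (ball 0 1)).symm.contractibleSpace
  infer_instance

theorem frontier_image : frontier (Φ '' ball 0 1) = Φ '' sphere 0 1 := by
  rw [← Φ.image_frontier, frontier_ball _ one_ne_zero]

include hρ h in
theorem near_lower (z w : ℂ) : ρ * (1 - q) * ‖z - w‖ ≤ ‖Φ z - Φ w‖ := by
  have h1 := h z (mem_univ _) w (mem_univ _)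
  have h2 : ‖(ρ : ℂ) * (z - w)‖ ≤ ‖Φ z - Φ w‖ + ‖Φ z - Φ w - ρ * (z - w)‖ := by
    have h3 : (ρ : ℂ) * (z - w) = (Φ z - Φ w) - (Φ z - Φ w - ρ * (z - w)) := by ring
    calc ‖(ρ : ℂ) * (z - w)‖ = ‖(Φ z - Φ w) - (Φ z - Φ w - ρ * (z - w))‖ := by rw [← h3]
      _ ≤ _ := norm_sub_le _ _
  rw [norm_mul, Complex.norm_real, Real.norm_eq_abs, abs_of_pos hρ] at h2
  nlinarith

omit ρ q in
theorem cone_aux1 (s t D : ℝ) (hs : 0 < s) (hst : D ^ 2 = s ^ 2 + t ^ 2) (h : 2 * |t| < s)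
    : D ≤ 9 / 8 * s := by
  have h1 : |t| * |t| ≤ s / 2 * (s / 2) :=
    mul_le_mul (by linarith) (by linarith) (abs_nonneg t) (by linarith)
  rw [abs_mul_abs_self] at h1
  apply le_of_sq_le_sq _ (by positivity)
  rw [hst]
  nlinarith

include hρ hq0 hq h in
/-- the cone condition -/
theorem cone (w₀ : ℂ) (hw₀ : ‖w₀‖ = 1) (y x : ℂ) (hy : y ∈ Φ '' ball 0 1)
    (hyp : y ∈ ball (Φ w₀) (ρ / 100)) (hxp : x ∈ ball (Φ w₀) (ρ / 100))
    (hxy : 2 * |⟪x, Complex.I * w₀⟫ - ⟪y, Complex.I * w₀⟫| < ⟪x, -w₀⟫ - ⟪y, -w₀⟫) :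
    x ∈ Φ '' ball 0 1 := by
  obtain ⟨v, hv, rfl⟩ := hy
  obtain ⟨u, rfl⟩ := Φ.surjective x
  rw [mem_ball_zero_iff] at hv
  refine ⟨u, ?_, rfl⟩
  rw [mem_ball_zero_iff]
  rw [mem_ball, dist_eq_norm] at hyp hxp
  set δ := u - v with hδ
  set D := Φ u - Φ v with hD
  have hnear : ‖D - ρ * δ‖ ≤ q * ρ * ‖δ‖ := h u (mem_univ _) v (mem_univ _)
  -- the components of `D`
  rw [← inner_sub_left, ← inner_sub_left, ← hD] at hxy
  obtain ⟨s, hs⟩ : ∃ s, s = ⟪D, -w₀⟫ := ⟨_, rfl⟩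
  obtain ⟨t, ht⟩ : ∃ t, t = ⟪D, Complex.I * w₀⟫ := ⟨_, rfl⟩
  rw [← hs, ← ht] at hxy
  have hst : ‖D‖ ^ 2 = s ^ 2 + t ^ 2 := by
    have h1 : w₀.re ^ 2 + w₀.im ^ 2 = 1 := by
      have := Complex.sq_norm w₀
      rw [hw₀, Complex.normSq_apply] at this
      nlinarith
    rw [hs, ht, Complex.sq_norm, Complex.normSq_apply, Complex.inner, Complex.inner]
    simp only [Complex.mul_re, Complex.neg_re, Complex.conj_re, Complex.conj_im, Complex.neg_im,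
      Complex.I_re, Complex.I_im, Complex.mul_im]
    linear_combination -(D.re ^ 2 + D.im ^ 2) * h1
  have hs0 : 0 < s := lt_of_le_of_lt (by positivity) hxy
  have hDle : ‖D‖ ≤ 9 / 8 * s := cone_aux1 s t _ hs0 hst hxy
  have hlow : ρ * (1 - q) * ‖δ‖ ≤ ‖D‖ := near_lower Φ ρ q hρ h u v
  have hδs : ρ * ‖δ‖ ≤ 27 / 16 * s := by
    have h1 : ρ * (2 / 3) * ‖δ‖ ≤ ρ * (1 - q) * ‖δ‖ :=
      mul_le_mul_of_nonneg_right (mul_le_mul_of_nonneg_left (by linarith) hρ.le) (norm_nonneg δ)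
    linarith
  have hδ0 : 0 < ‖δ‖ := by
    rcases (norm_nonneg δ).eq_or_lt with h0 | h0
    · exfalso
      have h1 : δ = 0 := norm_eq_zero.1 h0.symm
      have h2 : D = 0 := by
        rw [hD, sub_eq_zero]
        congr 1
        exact sub_eq_zero.1 h1
      rw [h2, norm_zero] at hst
      have h3 : 0 < s ^ 2 := by positivity
      have h4 := sq_nonneg t
      norm_num at hst
      linarith
    · exact h0
  -- the component of `δ`
  have hδf : ‖δ‖ / 6 ≤ ⟪δ, -w₀⟫ := by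
    have h1 : ⟪(ρ : ℂ) * δ, -w₀⟫ = ρ * ⟪δ, -w₀⟫ := by
      have : (ρ : ℂ) * δ = ρ • δ := rfl
      rw [this, real_inner_smul_left]
    have h2 : ⟪D - ρ * δ, -w₀⟫ ≤ ‖D - ρ * δ‖ * ‖-w₀‖ := real_inner_le_norm _ _
    rw [norm_neg, hw₀, mul_one, inner_sub_left, h1, ← hs] at h2
    have h3 : q * ρ * ‖δ‖ ≤ 1 / 3 * (ρ * ‖δ‖) := by
      rw [mul_assoc]
      exact mul_le_mul_of_nonneg_right hq (by positivity)
    have h4 : ρ * (‖δ‖ / 6) ≤ ρ * ⟪δ, -w₀⟫ := by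
      have h5 : ρ * (‖δ‖ / 6) = (ρ * ‖δ‖) / 6 := by ring
      rw [h5]
      linarith
    exact le_of_mul_le_mul_left h4 hρ
  -- `v` is close to `w₀`
  have hvw : ‖v - w₀‖ ≤ 3 / 200 := by
    have h1 := near_lower Φ ρ q hρ h v w₀
    have h2 : ρ * (2 / 3) * ‖v - w₀‖ ≤ ρ * (1 - q) * ‖v - w₀‖ :=
      mul_le_mul_of_nonneg_right (mul_le_mul_of_nonneg_left (by linarith) hρ.le) (norm_nonneg _)
    have h3 : ρ * (2 / 3 * ‖v - w₀‖) ≤ ρ * (1 / 100) := by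
      rw [← mul_assoc]
      linarith
    have h4 := le_of_mul_le_mul_left h3 hρ
    linarith
  have huw : ‖u - w₀‖ ≤ 3 / 200 := by
    have h1 := near_lower Φ ρ q hρ h u w₀
    have h2 : ρ * (2 / 3) * ‖u - w₀‖ ≤ ρ * (1 - q) * ‖u - w₀‖ :=
      mul_le_mul_of_nonneg_right (mul_le_mul_of_nonneg_left (by linarith) hρ.le) (norm_nonneg _)
    have h3 : ρ * (2 / 3 * ‖u - w₀‖) ≤ ρ * (1 / 100) := by
      rw [← mul_assoc]
      linarith
    have h4 := le_of_mul_le_mul_left h3 hρ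
    linarith
  have hδle : ‖δ‖ ≤ 6 / 200 := by
    have : δ = (u - w₀) - (v - w₀) := by rw [hδ]; ring
    rw [this]
    exact (norm_sub_le _ _).trans (by linarith)
  -- the norm decreases
  have h1 : ‖u‖ ^ 2 = ‖v‖ ^ 2 + 2 * ⟪δ, v⟫ + ‖δ‖ ^ 2 := by
    have : u = v + δ := by rw [hδ]; ring
    rw [this, norm_add_sq_real, real_inner_comm]
  have h2 : ⟪δ, v⟫ = - ⟪δ, -w₀⟫ + ⟪δ, v - w₀⟫ := by
    rw [inner_neg_right, inner_sub_right]
    ring
  have h3 : ⟪δ, v - w₀⟫ ≤ ‖δ‖ * ‖v - w₀‖ := real_inner_le_norm _ _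
  have h4 : ‖δ‖ * ‖v - w₀‖ ≤ ‖δ‖ * (3 / 200) := mul_le_mul_of_nonneg_left hvw hδ0.le
  have h6 : ‖v‖ ^ 2 < 1 := by
    have := mul_lt_mul'' hv hv (norm_nonneg v) (norm_nonneg v)
    rwa [one_mul, ← sq] at this
  have h7 : ‖δ‖ ^ 2 ≤ ‖δ‖ * (6 / 200) := by
    rw [sq]
    exact mul_le_mul_of_nonneg_left hδle hδ0.le
  have h5 : ‖u‖ ^ 2 < 1 := by
    rw [h1, h2]
    linarith
  exact (sq_lt_one_iff₀ (norm_nonneg u)).1 h5

include hρ hq0 hq h in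
/-- the boundary is locally a Lipschitz graph -/
theorem lipschitz_boundary (p : ℂ) (hp : p ∈ frontier (Φ '' ball 0 1)) :
    ∃ e f : ℂ, ‖e‖ = 1 ∧ ‖f‖ = 1 ∧ ⟪e, f⟫ = 0 ∧
      ∃ r : ℝ, 0 < r ∧ ∃ K : ℝ≥0, ∃ g : ℝ → ℝ, LipschitzWith K g ∧
        ∀ x ∈ ball p r, (x ∈ Φ '' ball 0 1 ↔ g ⟪x, e⟫ < ⟪x, f⟫) := by
  have hp' := hp
  rw [frontier_image] at hp
  obtain ⟨w₀, hw₀, rfl⟩ := hp
  rw [mem_sphere_zero_iff_norm] at hw₀
  have hef : ⟪Complex.I * w₀, -w₀⟫ = 0 := by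
    rw [Complex.inner]
    simp only [Complex.mul_re, Complex.neg_re, Complex.conj_re, Complex.conj_im, Complex.neg_im,
      Complex.I_re, Complex.I_im, Complex.mul_im]
    ring
  have hr : 0 < ρ / 100 := by positivity
  obtain ⟨g, hg1, hg2⟩ := graph_of_cone (Φ '' ball 0 1) (isOpen_image Φ) (Φ w₀)
    (Complex.I * w₀) (-w₀) (frontier_subset_closure hp') (by rw [norm_neg, hw₀]) hef (ρ / 100) hr 2
    (fun y hy hyp x hxp hxy => cone Φ ρ q hρ hq0 hq h w₀ hw₀ y x hy hyp hxp (by simpa using hxy))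
  refine ⟨Complex.I * w₀, -w₀, ?_, ?_, hef, ρ / 100, hr, 2, g, hg1, hg2⟩
  · rw [norm_mul, Complex.norm_I, hw₀, one_mul]
  · rw [norm_neg, hw₀]

/-- the image is not a disc -/
theorem not_ball (Φ : ℂ ≃ₜ ℂ) (hodd : ∀ w, ‖w‖ ≤ 1 → Φ (-w) = - Φ w) (w₁ w₂ : ℂ) (h₁ : ‖w₁‖ = 1)
    (h₂ : ‖w₂‖ = 1) (hne : ‖Φ w₁‖ ≠ ‖Φ w₂‖) (a : ℂ) (r : ℝ) : Φ '' ball 0 1 ≠ ball a r := by
  intro heq
  have h0 : Φ 0 = 0 := by
    have := hodd 0 (by simp)
    rw [neg_zero] at this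
    exact self_eq_neg.1 this
  have hmem : (0 : ℂ) ∈ ball a r := by
    rw [← heq]
    exact ⟨0, mem_ball_self one_pos, h0⟩
  have hr : 0 < r := pos_of_mem_ball hmem
  have hneg : ∀ x ∈ ball a r, -x ∈ ball a r := by
    intro x hx
    rw [← heq] at hx ⊢
    obtain ⟨w, hw, rfl⟩ := hx
    rw [mem_ball_zero_iff] at hw
    exact ⟨-w, by rw [mem_ball_zero_iff, norm_neg]; exact hw, hodd w hw.le⟩
  have ha : a = 0 := by
    by_contra hane
    have hna : 0 < ‖a‖ := norm_pos_iff.2 hane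
    -- the points `a + s a / ‖a‖`
    have h1 : ∀ s : ℝ, 0 ≤ s → s < r → 2 * ‖a‖ + s < r := by
      intro s hs0 hs
      have h2 : a + (s / ‖a‖) • a ∈ ball a r := by
        rw [mem_ball, dist_eq_norm, add_sub_cancel_left, norm_smul, Real.norm_eq_abs,
          abs_of_nonneg (by positivity), div_mul_cancel₀ _ hna.ne']
        exact hs
      have h3 := hneg _ h2
      rw [mem_ball, dist_eq_norm] at h3
      have h4 : -(a + (s / ‖a‖) • a) - a = -((2 + s / ‖a‖) • a) := by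
        rw [add_smul, two_smul]
        abel
      rw [h4, norm_neg, norm_smul, Real.norm_eq_abs, abs_of_nonneg (by positivity), add_mul,
        div_mul_cancel₀ _ hna.ne'] at h3
      exact h3
    have h2 := h1 (max 0 (r - ‖a‖)) (le_max_left _ _) (max_lt hr (by linarith))
    have h3 := le_max_right 0 (r - ‖a‖)
    linarith
  have hfr : frontier (Φ '' ball 0 1) = sphere a r := by
    rw [heq, frontier_ball _ hr.ne']
  rw [frontier_image, ha] at hfr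
  have h3 : Φ w₁ ∈ sphere (0 : ℂ) r := by
    rw [← hfr]
    exact ⟨w₁, by rw [mem_sphere_zero_iff_norm]; exact h₁, rfl⟩
  have h4 : Φ w₂ ∈ sphere (0 : ℂ) r := by
    rw [← hfr]
    exact ⟨w₂, by rw [mem_sphere_zero_iff_norm]; exact h₂, rfl⟩
  rw [mem_sphere_zero_iff_norm] at h3 h4
  exact hne (h3.trans h4.symm)

end domain

end SCHG
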