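import Mathlib

/-!
# [SCH] geometry, part 3: from the complex plane to the frozen statement
-/

set_option autoImplicit false

open Metric Set MeasureTheory
open scoped RealInnerProductSpace NNReal

namespace SCHG

/-- the frozen statement (the negation of Schiffer's conjecture) -/
def Neg : Prop :=
    ¬ (∀ Ω : Set (EuclideanSpace ℝ (Fin 2)),
    IsOpen Ω → Bornology.IsBounded Ω → IsConnected Ω → SimplyConnectedSpace Ω →
    Nonempty (frontier Ω ≃ₜ Metric.sphere (0 : EuclideanSpace ℝ (Fin 2)) 1) →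
    (∀ p ∈ frontier Ω, ∃ e f : EuclideanSpace ℝ (Fin 2), ‖e‖ = 1 ∧ ‖f‖ = 1 ∧
        @inner ℝ (EuclideanSpace ℝ (Fin 2)) _ e f = 0 ∧
        ∃ r : ℝ, 0 < r ∧ ∃ K : NNReal, ∃ g : ℝ → ℝ, LipschitzWith K g ∧
          ∀ x ∈ Metric.ball p r,
            (x ∈ Ω ↔ g (@inner ℝ (EuclideanSpace ℝ (Fin 2)) _ x e)
              < @inner ℝ (EuclideanSpace ℝ (Fin 2)) _ x f)) →
    ∀ (lam c : ℝ) (u : EuclideanSpace ℝ (Fin 2) → ℝ)
      (G : EuclideanSpace ℝ (Fin 2) → EuclideanSpace ℝ (Fin 2)),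
      0 < lam →
      MeasureTheory.MemLp u 2 (MeasureTheory.volume.restrict Ω) →
      MeasureTheory.MemLp G 2 (MeasureTheory.volume.restrict Ω) →
      (∀ φ : EuclideanSpace ℝ (Fin 2) → ℝ, ContDiff ℝ 1 φ → HasCompactSupport φ →
        ∀ v : EuclideanSpace ℝ (Fin 2),
          ∫ x in Ω, (u x - c) * (fderiv ℝ φ x v)
            = - ∫ x in Ω, @inner ℝ (EuclideanSpace ℝ (Fin 2)) _ (G x) v * φ x) →
      (∀ φ : EuclideanSpace ℝ (Fin 2) → ℝ, ContDiff ℝ 1 φ → HasCompactSupport φ →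
          ∫ x in Ω, fderiv ℝ φ x (G x) = lam * ∫ x in Ω, u x * φ x) →
      ¬ (u =ᵐ[MeasureTheory.volume.restrict Ω] 0) →
      ∃ (a : EuclideanSpace ℝ (Fin 2)) (r : ℝ), Ω = Metric.ball a r)

/-- A counterexample in the complex plane gives the frozen statement. -/
theorem transfer (Ω : Set ℂ) (hopen : IsOpen Ω) (hbdd : Bornology.IsBounded Ω)
    (hconn : IsConnected Ω) (hsc : SimplyConnectedSpace Ω)
    (hfr : Nonempty (frontier Ω ≃ₜ sphere (0 : ℂ) 1))
    (hlip : ∀ p ∈ frontier Ω, ∃ e f : ℂ, ‖e‖ = 1 ∧ ‖f‖ = 1 ∧ ⟪e, f⟫ = 0 ∧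
      ∃ r : ℝ, 0 < r ∧ ∃ K : ℝ≥0, ∃ g : ℝ → ℝ, LipschitzWith K g ∧
        ∀ x ∈ ball p r, (x ∈ Ω ↔ g ⟪x, e⟫ < ⟪x, f⟫))
    (lam c : ℝ) (u : ℂ → ℝ) (G : ℂ → ℂ) (hlam : 0 < lam)
    (hu : MemLp u 2 (volume.restrict Ω)) (hG : MemLp G 2 (volume.restrict Ω))
    (h1 : ∀ φ : ℂ → ℝ, ContDiff ℝ 1 φ → HasCompactSupport φ → ∀ v : ℂ,
      ∫ x in Ω, (u x - c) * (fderiv ℝ φ x v) = - ∫ x in Ω, ⟪G x, v⟫ * φ x)
    (h2 : ∀ φ : ℂ → ℝ, ContDiff ℝ 1 φ → HasCompactSupport φ →
      ∫ x in Ω, fderiv ℝ φ x (G x) = lam * ∫ x in Ω, u x * φ x)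
    (hne : ¬ (u =ᵐ[volume.restrict Ω] 0)) (hnb : ∀ a r, Ω ≠ ball a r) : Neg := by
  intro H
  set T : ℂ ≃ₗᵢ[ℝ] EuclideanSpace ℝ (Fin 2) := Complex.orthonormalBasisOneI.repr with hT
  have hmp : MeasurePreserving T volume volume := T.measurePreserving
  have hemb : MeasurableEmbedding T := T.toHomeomorph.measurableEmbedding
  have hTΩ : T ⁻¹' (T '' Ω) = Ω := preimage_image_eq Ω T.injective
  have hmpr : MeasurePreserving T (volume.restrict Ω) (volume.restrict (T '' Ω)) := by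
    have := hmp.restrict_preimage_emb hemb (T '' Ω)
    rwa [hTΩ] at this
  have hint : ∀ h : EuclideanSpace ℝ (Fin 2) → ℝ, ∫ y in T '' Ω, h y = ∫ x in Ω, h (T x) := by
    intro h
    exact (hmpr.integral_comp hemb h).symm
  have hmps : MeasurePreserving T.symm (volume.restrict (T '' Ω)) (volume.restrict Ω) :=
    MeasurePreserving.symm T.toHomeomorph.toMeasurableEquiv hmpr
  have hTs : ∀ y, T (T.symm y) = y := fun y => T.apply_symm_apply y
  have hsT : ∀ x, T.symm (T x) = x := fun x => T.symm_apply_apply x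
  have hfront : frontier (T '' Ω) = T '' frontier Ω := (T.toHomeomorph.image_frontier Ω).symm
  obtain ⟨ψ⟩ := hfr
  have hfd : ∀ φ : EuclideanSpace ℝ (Fin 2) → ℝ, ContDiff ℝ 1 φ → ∀ x v : ℂ,
      fderiv ℝ (φ ∘ T) x v = fderiv ℝ φ (T x) (T v) := by
    intro φ hφ x v
    have h3 : HasFDerivAt (φ ∘ T) ((fderiv ℝ φ (T x)).comp (T : ℂ →L[ℝ] EuclideanSpace ℝ (Fin 2))) x :=
      ((hφ.differentiable one_ne_zero).differentiableAt.hasFDerivAt).comp x
        ((T : ℂ →L[ℝ] EuclideanSpace ℝ (Fin 2)).hasFDerivAt)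
    rw [h3.fderiv]
    rfl
  have hcd : ∀ φ : EuclideanSpace ℝ (Fin 2) → ℝ, ContDiff ℝ 1 φ → ContDiff ℝ 1 (φ ∘ T) :=
    fun φ hφ => hφ.comp T.contDiff
  have hcs : ∀ φ : EuclideanSpace ℝ (Fin 2) → ℝ, HasCompactSupport φ →
      HasCompactSupport (φ ∘ T) := fun φ hφ => hφ.comp_homeomorph T.toHomeomorph
  obtain ⟨a, r, har⟩ := H (T '' Ω) (T.toHomeomorph.isOpenMap _ hopen)
    (T.lipschitz.isBounded_image hbdd)
    (hconn.image _ T.continuous.continuousOn)
    (by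
      have e : Ω ≃ₜ T '' Ω := T.toHomeomorph.image Ω
      exact (e.symm.toHomotopyEquiv).simplyConnectedSpace)
    (by
      rw [hfront]
      refine ⟨((T.toHomeomorph.image (frontier Ω)).symm.trans ψ).trans ?_⟩
      have h3 : T '' sphere (0 : ℂ) 1 = sphere (0 : EuclideanSpace ℝ (Fin 2)) 1 := by
        rw [LinearIsometryEquiv.image_sphere, map_zero]
      rw [← h3]
      exact T.toHomeomorph.image (sphere 0 1))
    (by
      intro p hp
      rw [hfront] at hp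
      obtain ⟨p, hp, rfl⟩ := hp
      obtain ⟨e, f, he, hf, hef, r, hr, K, g, hg, hgr⟩ := hlip p hp
      refine ⟨T e, T f, by rw [T.norm_map, he], by rw [T.norm_map, hf],
        by rw [T.inner_map_map]; exact hef, r, hr, K, g, hg, ?_⟩
      intro y hy
      obtain ⟨x, rfl⟩ := T.surjective y
      rw [mem_ball, T.dist_map] at hy
      rw [T.inner_map_map, T.inner_map_map]
      rw [← hgr x hy]
      constructor
      · rintro ⟨x', hx', h⟩
        rwa [T.injective h] at hx'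
      · exact fun hx => ⟨x, hx, rfl⟩)
    lam c (fun y => u (T.symm y)) (fun y => T (G (T.symm y))) hlam
    (hu.comp_measurePreserving hmps)
    (((T : ℂ →L[ℝ] EuclideanSpace ℝ (Fin 2)).comp_memLp' hG).comp_measurePreserving hmps)
    (by
      intro φ hφ hφc v
      rw [hint, hint]
      obtain ⟨v, rfl⟩ := T.surjective v
      have h3 := h1 (φ ∘ T) (hcd φ hφ) (hcs φ hφc) v
      simp only [hfd φ hφ] at h3
      simp only [hsT, T.inner_map_map]
      exact h3)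
    (by
      intro φ hφ hφc
      rw [hint, hint]
      have h3 := h2 (φ ∘ T) (hcd φ hφ) (hcs φ hφc)
      simp only [hfd φ hφ] at h3
      simp only [hsT]
      exact h3)
    (by
      intro h3
      apply hne
      have h4 := hmpr.quasiMeasurePreserving.ae_eq_comp h3
      have h5 : (fun y => u (T.symm y)) ∘ T = u := by
        funext x
        simp
      rw [h5] at h4
      exact h4)
  apply hnb (T.symm a) r
  have h3 : Ω = T.symm '' (T '' Ω) := by
    rw [← image_comp]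
    simp
  rw [h3, har, LinearIsometryEquiv.image_ball]

end SCHG
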