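import Pool.Agent.MP_83fd13_an.SCH.Geo2

/-!
# [SCH] geometry, part 4: the map `f(w) = ρ (w + ∑ φ_k w^(N k + 1) / (N k + 1))`
-/

set_option autoImplicit false

open Metric Set MeasureTheory
open scoped RealInnerProductSpace NNReal

namespace SCHG

/-- The map `f(w) = ρ (w + ∑_{k ≥ 1} φ_k w^(N k + 1) / (N k + 1))`. -/
noncomputable def fF (N : ℕ) (ρ : ℝ) (φ : ℕ → ℝ) (w : ℂ) : ℂ :=
  ρ * (w + ∑' k : ℕ, (φ (k + 1) : ℂ) * w ^ (N * (k + 1) + 1) / ((N * (k + 1) + 1 : ℕ) : ℂ))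

/-- Its derivative `f'(w) = ρ (1 + ∑_{k ≥ 1} φ_k w^(N k))`. -/
noncomputable def fF' (N : ℕ) (ρ : ℝ) (φ : ℕ → ℝ) (w : ℂ) : ℂ :=
  ρ * (1 + ∑' k : ℕ, (φ (k + 1) : ℂ) * w ^ (N * (k + 1)))

theorem norm_pow_sub_pow_le (n : ℕ) (z w : ℂ) (hz : ‖z‖ ≤ 1) (hw : ‖w‖ ≤ 1) :
    ‖z ^ n - w ^ n‖ ≤ n * ‖z - w‖ := by
  induction n with
  | zero => simp
  | succ n ih =>
    have h1 : z ^ (n + 1) - w ^ (n + 1) = z * (z ^ n - w ^ n) + (z - w) * w ^ n := by ring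
    rw [h1]
    refine (norm_add_le _ _).trans ?_
    rw [norm_mul, norm_mul, norm_pow]
    have h2 : ‖z‖ * ‖z ^ n - w ^ n‖ ≤ 1 * (n * ‖z - w‖) :=
      mul_le_mul hz ih (norm_nonneg _) zero_le_one
    have h3 : ‖z - w‖ * ‖w‖ ^ n ≤ ‖z - w‖ * 1 :=
      mul_le_mul_of_nonneg_left (pow_le_one₀ (norm_nonneg _) hw) (norm_nonneg _)
    push_cast
    linarith

variable (N : ℕ) (ρ : ℝ) (φ : ℕ → ℝ) (hs : Summable fun k => |φ (k + 1)|)
include hs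

theorem summable_terms (w : ℂ) (hw : ‖w‖ ≤ 1) :
    Summable fun k : ℕ => (φ (k + 1) : ℂ) * w ^ (N * (k + 1) + 1) / ((N * (k + 1) + 1 : ℕ) : ℂ) := by
  refine Summable.of_norm_bounded hs fun k => ?_
  rw [norm_div, norm_mul, Complex.norm_real, norm_pow, Complex.norm_natCast, Real.norm_eq_abs]
  have h1 : ‖w‖ ^ (N * (k + 1) + 1) ≤ 1 := pow_le_one₀ (norm_nonneg _) hw
  have h2 : (1 : ℝ) ≤ ((N * (k + 1) + 1 : ℕ) : ℝ) := by
    exact_mod_cast Nat.le_add_left 1 _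
  rw [div_le_iff₀ (by linarith)]
  have h3 : 0 ≤ |φ (k + 1)| := abs_nonneg _
  calc |φ (k + 1)| * ‖w‖ ^ (N * (k + 1) + 1) ≤ |φ (k + 1)| * 1 :=
        mul_le_mul_of_nonneg_left h1 h3
    _ ≤ |φ (k + 1)| * ((N * (k + 1) + 1 : ℕ) : ℝ) := mul_le_mul_of_nonneg_left h2 h3

theorem near_fF (hρ : 0 < ρ) (q : ℝ) (hq : ∑' k, |φ (k + 1)| ≤ q) :
    Near (fF N ρ φ) ρ q (closedBall 0 1) := by
  intro z hz w hw
  rw [mem_closedBall_zero_iff] at hz hw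
  have h1 := summable_terms N φ hs z hz
  have h2 := summable_terms N φ hs w hw
  have h3 : fF N ρ φ z - fF N ρ φ w - ρ * (z - w) = ρ * ∑' k : ℕ,
      ((φ (k + 1) : ℂ) * z ^ (N * (k + 1) + 1) / ((N * (k + 1) + 1 : ℕ) : ℂ) -
      (φ (k + 1) : ℂ) * w ^ (N * (k + 1) + 1) / ((N * (k + 1) + 1 : ℕ) : ℂ)) := by
    rw [h1.tsum_sub h2, fF, fF]
    ring
  have h4 : ‖∑' k : ℕ,
      ((φ (k + 1) : ℂ) * z ^ (N * (k + 1) + 1) / ((N * (k + 1) + 1 : ℕ) : ℂ) -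
      (φ (k + 1) : ℂ) * w ^ (N * (k + 1) + 1) / ((N * (k + 1) + 1 : ℕ) : ℂ))‖ ≤
      ∑' k, |φ (k + 1)| * ‖z - w‖ := by
    refine tsum_of_norm_bounded (hs.mul_right _).hasSum fun k => ?_
    rw [← sub_div, ← mul_sub, norm_div, norm_mul, Complex.norm_real, Complex.norm_natCast,
      Real.norm_eq_abs]
    have h5 := norm_pow_sub_pow_le (N * (k + 1) + 1) z w hz hw
    have h6 : (0 : ℝ) < ((N * (k + 1) + 1 : ℕ) : ℝ) := by positivity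
    rw [div_le_iff₀ h6]
    calc |φ (k + 1)| * ‖z ^ (N * (k + 1) + 1) - w ^ (N * (k + 1) + 1)‖
        ≤ |φ (k + 1)| * (((N * (k + 1) + 1 : ℕ) : ℝ) * ‖z - w‖) :=
          mul_le_mul_of_nonneg_left h5 (abs_nonneg _)
      _ = _ := by ring
  rw [h3, norm_mul, Complex.norm_real, Real.norm_eq_abs, abs_of_pos hρ]
  rw [tsum_mul_right] at h4
  calc ρ * _ ≤ ρ * ((∑' k, |φ (k + 1)|) * ‖z - w‖) := mul_le_mul_of_nonneg_left h4 hρ.le
    _ ≤ ρ * (q * ‖z - w‖) :=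
        mul_le_mul_of_nonneg_left (mul_le_mul_of_nonneg_right hq (norm_nonneg _)) hρ.le
    _ = _ := by ring

theorem hasDerivAt_fF (w : ℂ) (hw : ‖w‖ < 1) : HasDerivAt (fF N ρ φ) (fF' N ρ φ w) w := by
  have h1 : HasDerivAt (fun z : ℂ => ∑' k : ℕ,
      (φ (k + 1) : ℂ) * z ^ (N * (k + 1) + 1) / ((N * (k + 1) + 1 : ℕ) : ℂ))
      (∑' k : ℕ, (φ (k + 1) : ℂ) * w ^ (N * (k + 1))) w := by
    refine hasDerivAt_tsum_of_isPreconnected (u := fun k => |φ (k + 1)|) (t := ball 0 1)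
      (g := fun k z => (φ (k + 1) : ℂ) * z ^ (N * (k + 1) + 1) / ((N * (k + 1) + 1 : ℕ) : ℂ))
      (g' := fun k z => (φ (k + 1) : ℂ) * z ^ (N * (k + 1))) hs isOpen_ball
      (convex_ball (0 : ℂ) 1).isPreconnected ?_ ?_ (mem_ball_self one_pos)
      (summable_terms N φ hs 0 (by simp)) (mem_ball_zero_iff.2 hw)
    · intro k z _
      have h2 : HasDerivAt (fun z : ℂ => z ^ (N * (k + 1) + 1))
          (((N * (k + 1) + 1 : ℕ) : ℂ) * z ^ (N * (k + 1))) z := by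
        have := hasDerivAt_pow (N * (k + 1) + 1) z
        simpa using this
      have h3 := (h2.const_mul (φ (k + 1) : ℂ)).div_const ((N * (k + 1) + 1 : ℕ) : ℂ)
      have h4 : (φ (k + 1) : ℂ) * (((N * (k + 1) + 1 : ℕ) : ℂ) * z ^ (N * (k + 1))) /
          ((N * (k + 1) + 1 : ℕ) : ℂ) = (φ (k + 1) : ℂ) * z ^ (N * (k + 1)) := by
        have h5 : ((N * (k + 1) + 1 : ℕ) : ℂ) ≠ 0 := Nat.cast_ne_zero.2 (Nat.succ_ne_zero _)
        field_simp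
      rw [h4] at h3
      exact h3
    · intro k z hz
      rw [mem_ball_zero_iff] at hz
      rw [norm_mul, Complex.norm_real, norm_pow, Real.norm_eq_abs]
      exact mul_le_of_le_one_right (abs_nonneg _) (pow_le_one₀ (norm_nonneg _) hz.le)
  have h2 := ((hasDerivAt_id w).add h1).const_mul (ρ : ℂ)
  exact h2

theorem continuousOn_fF' : ContinuousOn (fF' N ρ φ) (closedBall 0 1) := by
  refine ContinuousOn.mul continuousOn_const (ContinuousOn.add continuousOn_const ?_)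
  refine continuousOn_tsum (u := fun k => |φ (k + 1)|) (fun k => by fun_prop) hs ?_
  intro k z hz
  rw [mem_closedBall_zero_iff] at hz
  rw [norm_mul, Complex.norm_real, norm_pow, Real.norm_eq_abs]
  exact mul_le_of_le_one_right (abs_nonneg _) (pow_le_one₀ (norm_nonneg _) hz)

theorem norm_fF'_sub_le (hρ : 0 < ρ) (q : ℝ) (hq : ∑' k, |φ (k + 1)| ≤ q) (w : ℂ) (hw : ‖w‖ ≤ 1) :
    ‖fF' N ρ φ w - ρ‖ ≤ q * ρ := by
  have h1 : fF' N ρ φ w - ρ = ρ * ∑' k : ℕ, (φ (k + 1) : ℂ) * w ^ (N * (k + 1)) := by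
    rw [fF']; ring
  rw [h1, norm_mul, Complex.norm_real, Real.norm_eq_abs, abs_of_pos hρ, mul_comm q]
  refine mul_le_mul_of_nonneg_left (le_trans ?_ hq) hρ.le
  refine tsum_of_norm_bounded hs.hasSum fun k => ?_
  rw [norm_mul, Complex.norm_real, norm_pow, Real.norm_eq_abs]
  exact mul_le_of_le_one_right (abs_nonneg _) (pow_le_one₀ (norm_nonneg _) hw)

theorem fF'_ne (hρ : 0 < ρ) (hq : ∑' k, |φ (k + 1)| < 1) (w : ℂ) (hw : ‖w‖ ≤ 1) :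
    fF' N ρ φ w ≠ 0 := by
  intro h0
  have h1 := norm_fF'_sub_le N ρ φ hs hρ _ le_rfl w hw
  rw [h0, zero_sub, norm_neg, Complex.norm_real, Real.norm_eq_abs, abs_of_pos hρ] at h1
  nlinarith

omit hs in
theorem fF_neg (hN : Even N) (w : ℂ) : fF N ρ φ (-w) = - fF N ρ φ w := by
  have h1 : ∀ k : ℕ, (φ (k + 1) : ℂ) * (-w) ^ (N * (k + 1) + 1) / ((N * (k + 1) + 1 : ℕ) : ℂ) =
      - ((φ (k + 1) : ℂ) * w ^ (N * (k + 1) + 1) / ((N * (k + 1) + 1 : ℕ) : ℂ)) := by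
    intro k
    have h2 : Odd (N * (k + 1) + 1) := (hN.mul_right _).add_one
    rw [h2.neg_pow]
    ring
  rw [fF, fF, tsum_congr h1, tsum_neg]
  ring

/-- the two boundary points at different distances from the centre -/
theorem norm_fF_ne (hρ : 0 < ρ) (hN : 0 < N) (hq : ∑' k, |φ (k + 1)| < 1)
    (h1 : ∑' k, |φ (k + 2)| < |φ 1|) :
    ∃ w₁ w₂ : ℂ, ‖w₁‖ = 1 ∧ ‖w₂‖ = 1 ∧ ‖fF N ρ φ w₁‖ ≠ ‖fF N ρ φ w₂‖ := by
  -- a root of `-1`
  obtain ⟨ζ, hζ⟩ : ∃ ζ : ℂ, ζ ^ N = -1 := IsAlgClosed.exists_pow_nat_eq (-1) hN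
  have hζ1 : ‖ζ‖ = 1 := by
    have h2 : ‖ζ‖ ^ N = 1 := by rw [← norm_pow, hζ, norm_neg, norm_one]
    exact (pow_eq_one_iff_of_nonneg (norm_nonneg _) hN.ne').1 h2
  -- the values
  have hval : ∀ w : ℂ, ∀ s : ℝ, w ^ N = s → |s| ≤ 1 → fF N ρ φ w =
      ρ * w * ((1 + ∑' k : ℕ, φ (k + 1) * s ^ (k + 1) / ((N * (k + 1) + 1 : ℕ) : ℝ) : ℝ) : ℂ) := by
    intro w s hw _
    have h3 : ∀ k : ℕ, (φ (k + 1) : ℂ) * w ^ (N * (k + 1) + 1) / ((N * (k + 1) + 1 : ℕ) : ℂ) =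
        w * ((φ (k + 1) * s ^ (k + 1) / ((N * (k + 1) + 1 : ℕ) : ℝ) : ℝ) : ℂ) := by
      intro k
      rw [pow_succ, pow_mul, hw]
      push_cast
      ring
    rw [fF, tsum_congr h3, tsum_mul_left, ← Complex.ofReal_tsum]
    push_cast
    ring
  have hsumm : ∀ s : ℝ, |s| ≤ 1 → Summable fun k : ℕ =>
      φ (k + 1) * s ^ (k + 1) / ((N * (k + 1) + 1 : ℕ) : ℝ) := by
    intro s hs1
    refine Summable.of_norm_bounded hs fun k => ?_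
    rw [Real.norm_eq_abs, abs_div, abs_mul, abs_pow, Nat.abs_cast]
    have h2 : (1 : ℝ) ≤ ((N * (k + 1) + 1 : ℕ) : ℝ) := by
      exact_mod_cast Nat.le_add_left 1 _
    rw [div_le_iff₀ (by linarith)]
    have h3 : |s| ^ (k + 1) ≤ 1 := pow_le_one₀ (abs_nonneg _) hs1
    calc |φ (k + 1)| * |s| ^ (k + 1) ≤ |φ (k + 1)| * 1 :=
          mul_le_mul_of_nonneg_left h3 (abs_nonneg _)
      _ ≤ |φ (k + 1)| * ((N * (k + 1) + 1 : ℕ) : ℝ) :=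
          mul_le_mul_of_nonneg_left h2 (abs_nonneg _)
  have hpos : ∀ s : ℝ, |s| ≤ 1 →
      0 < 1 + ∑' k : ℕ, φ (k + 1) * s ^ (k + 1) / ((N * (k + 1) + 1 : ℕ) : ℝ) := by
    intro s hs1
    have h2 : ‖∑' k : ℕ, φ (k + 1) * s ^ (k + 1) / ((N * (k + 1) + 1 : ℕ) : ℝ)‖ ≤
        ∑' k, |φ (k + 1)| := by
      refine tsum_of_norm_bounded hs.hasSum fun k => ?_
      rw [Real.norm_eq_abs, abs_div, abs_mul, abs_pow, Nat.abs_cast]
      have h2 : (1 : ℝ) ≤ ((N * (k + 1) + 1 : ℕ) : ℝ) := by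
        exact_mod_cast Nat.le_add_left 1 _
      rw [div_le_iff₀ (by linarith)]
      have h3 : |s| ^ (k + 1) ≤ 1 := pow_le_one₀ (abs_nonneg _) hs1
      calc |φ (k + 1)| * |s| ^ (k + 1) ≤ |φ (k + 1)| * 1 :=
            mul_le_mul_of_nonneg_left h3 (abs_nonneg _)
        _ ≤ |φ (k + 1)| * ((N * (k + 1) + 1 : ℕ) : ℝ) :=
            mul_le_mul_of_nonneg_left h2 (abs_nonneg _)
    rw [Real.norm_eq_abs] at h2
    have := neg_abs_le (∑' k : ℕ, φ (k + 1) * s ^ (k + 1) / ((N * (k + 1) + 1 : ℕ) : ℝ))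
    linarith
  refine ⟨1, ζ, norm_one, hζ1, ?_⟩
  have e1 := hval 1 1 (by simp) (by simp)
  have e2 := hval ζ (-1) (by rw [hζ]; simp) (by simp)
  rw [e1, e2, norm_mul, norm_mul, norm_mul, norm_mul, norm_one, hζ1, Complex.norm_real,
    Complex.norm_real, Complex.norm_real, Real.norm_eq_abs, Real.norm_eq_abs, Real.norm_eq_abs,
    abs_of_pos hρ, abs_of_pos (hpos 1 (by simp)), abs_of_pos (hpos (-1) (by simp))]
  intro h
  have h2 : ∑' k : ℕ, φ (k + 1) * (1 : ℝ) ^ (k + 1) / ((N * (k + 1) + 1 : ℕ) : ℝ) =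
      ∑' k : ℕ, φ (k + 1) * (-1 : ℝ) ^ (k + 1) / ((N * (k + 1) + 1 : ℕ) : ℝ) := by
    have h3 : ρ * 1 ≠ 0 := by positivity
    have := mul_left_cancel₀ h3 h
    linarith
  have h4 := (hsumm 1 (by simp)).tsum_sub (hsumm (-1) (by simp))
  rw [h2, sub_self] at h4
  have h5 : ∀ k : ℕ, φ (k + 1) * (1 : ℝ) ^ (k + 1) / ((N * (k + 1) + 1 : ℕ) : ℝ) -
      φ (k + 1) * (-1 : ℝ) ^ (k + 1) / ((N * (k + 1) + 1 : ℕ) : ℝ) =
      φ (k + 1) * (1 + (-1) ^ k) / ((N * (k + 1) + 1 : ℕ) : ℝ) := by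
    intro k
    rw [one_pow, pow_succ]
    ring
  rw [tsum_congr h5] at h4
  have hsum5 : Summable fun k : ℕ => φ (k + 1) * (1 + (-1) ^ k) / ((N * (k + 1) + 1 : ℕ) : ℝ) := by
    refine ((hsumm 1 (by simp)).sub (hsumm (-1) (by simp))).congr fun k => ?_
    exact h5 k
  rw [hsum5.tsum_eq_zero_add] at h4
  -- the first term dominates
  have hN1 : (0 : ℝ) < N + 1 := by positivity
  have h6 : ‖∑' k : ℕ, φ (k + 1 + 1) * (1 + (-1) ^ (k + 1)) / ((N * (k + 1 + 1) + 1 : ℕ) : ℝ)‖ ≤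
      ∑' k, |φ (k + 2)| * (2 / (N + 1)) := by
    have hs2 : Summable fun k => |φ (k + 2)| := by
      have := (summable_nat_add_iff 1).2 hs
      exact this
    refine tsum_of_norm_bounded (hs2.mul_right _).hasSum fun k => ?_
    rw [Real.norm_eq_abs, abs_div, abs_mul, Nat.abs_cast, mul_div_assoc]
    have h7 : |1 + (-1 : ℝ) ^ (k + 1)| ≤ 2 := by
      rcases neg_one_pow_eq_or ℝ (k + 1) with h8 | h8 <;> rw [h8] <;> norm_num
    have h8 : ((N : ℝ) + 1) ≤ ((N * (k + 1 + 1) + 1 : ℕ) : ℝ) := by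
      push_cast
      have : (0 : ℝ) ≤ N * (k + 1) := by positivity
      nlinarith
    refine mul_le_mul_of_nonneg_left ?_ (abs_nonneg _)
    exact div_le_div₀ (by norm_num) h7 hN1 h8
  rw [tsum_mul_right] at h6
  have h7 : φ (0 + 1) * (1 + (-1) ^ 0) / ((N * (0 + 1) + 1 : ℕ) : ℝ) = φ 1 * (2 / (N + 1)) := by
    push_cast
    norm_num
    ring
  rw [h7] at h4
  have h8 : |φ 1| * (2 / (N + 1)) ≤ (∑' k, |φ (k + 2)|) * (2 / (N + 1)) := by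
    have h9 : φ 1 * (2 / ((N : ℝ) + 1)) = - ∑' k : ℕ, φ (k + 1 + 1) * (1 + (-1) ^ (k + 1)) /
        ((N * (k + 1 + 1) + 1 : ℕ) : ℝ) := by linarith
    have h10 : |φ 1| * (2 / (N + 1)) = |φ 1 * (2 / ((N : ℝ) + 1))| := by
      rw [abs_mul, abs_of_pos (by positivity : 0 < 2 / ((N : ℝ) + 1))]
    rw [h10, h9, abs_neg]
    exact h6
  have h9 := le_of_mul_le_mul_right h8 (by positivity)
  linarith

end SCHG
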