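import Pool.Agent.MP_83fd13_an.SCH.Geo3
import Pool.Agent.MP_83fd13_an.SCH.Geo4

/-!
# [SCH] geometry, part 5: reduction of the frozen statement to the unit disc
-/

set_option autoImplicit false

open Metric Set MeasureTheory
open scoped RealInnerProductSpace NNReal ComplexConjugate

namespace SCHG

/-- the test functions on the disc -/
def TestOK (ψ : ℂ → ℝ) : Prop :=
  ContinuousOn ψ (closedBall 0 1) ∧ DifferentiableOn ℝ ψ (ball 0 1) ∧
    ContinuousOn (fderiv ℝ ψ) (ball 0 1) ∧ ∃ C : ℝ, ∀ w ∈ ball (0 : ℂ) 1, ‖fderiv ℝ ψ w‖ ≤ C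

theorem det_smul_one' (c : ℂ) : (c • (1 : ℂ →L[ℝ] ℂ)).det = Complex.normSq c := by
  rw [← Algebra.norm_complex_apply, Algebra.norm_apply, ContinuousLinearMap.det]
  congr 1

/-- change of variables -/
theorem integral_image (Φ : ℂ ≃ₜ ℂ) (F' : ℂ → ℂ)
    (h : ∀ w ∈ ball (0 : ℂ) 1, HasDerivAt Φ (F' w) w) (g : ℂ → ℝ) :
    ∫ x in Φ '' ball 0 1, g x = ∫ w in ball (0 : ℂ) 1, Complex.normSq (F' w) * g (Φ w) := by
  rw [integral_image_eq_integral_abs_det_fderiv_smul volume measurableSet_ball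
    (fun w hw => ((h w hw).complexToReal_fderiv).hasFDerivWithinAt) Φ.injective.injOn]
  refine setIntegral_congr_fun measurableSet_ball fun w _ => ?_
  rw [det_smul_one', abs_of_nonneg (Complex.normSq_nonneg _), smul_eq_mul]

theorem smul_eq_ofReal_mul (r : ℝ) (z : ℂ) : r • z = (r : ℂ) * z := rfl

/-- **Reduction to the disc.** -/
theorem neg_of_disc (N : ℕ) (hN0 : 0 < N) (hN : Even N) (ρ : ℝ) (hρ : 0 < ρ) (φ : ℕ → ℝ)
    (hs : Summable fun k => |φ (k + 1)|) (hq : ∑' k, |φ (k + 1)| ≤ 1 / 3)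
    (hφ1 : ∑' k, |φ (k + 2)| < |φ 1|) (c : ℝ) (U : ℂ → ℝ) (GU : ℂ → ℂ)
    (hU : ContinuousOn U (ball 0 1)) (hGU : ContinuousOn GU (ball 0 1))
    (hUb : ∃ C : ℝ, ∀ w ∈ ball (0 : ℂ) 1, |U w| ≤ C)
    (hGUb : ∃ C : ℝ, ∀ w ∈ ball (0 : ℂ) 1, ‖GU w‖ ≤ C)
    (hne : ∃ w ∈ ball (0 : ℂ) 1, U w ≠ 0)
    (W1 : ∀ ψ : ℂ → ℝ, TestOK ψ → ∀ v : ℂ,
      ∫ w in ball (0 : ℂ) 1, (U w - c) * fderiv ℝ ψ w (conj (fF' N ρ φ w) * v) =
        - ∫ w in ball (0 : ℂ) 1, ⟪GU w, conj (fF' N ρ φ w) * v⟫ * ψ w)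
    (W2 : ∀ ψ : ℂ → ℝ, TestOK ψ →
      ∫ w in ball (0 : ℂ) 1, fderiv ℝ ψ w (GU w) =
        ∫ w in ball (0 : ℂ) 1, Complex.normSq (fF' N ρ φ w) * U w * ψ w) : Neg := by
  have hq1 : ∑' k, |φ (k + 1)| < 1 := by linarith
  have hnear := near_fF N ρ φ hs hρ (1 / 3) hq
  obtain ⟨Φ, hΦ, hΦn⟩ := exists_homeo (fF N ρ φ) ρ (1 / 3) hρ (by norm_num) (by norm_num) hnear
  set F' := fF' N ρ φ with hF'
  have hder : ∀ w ∈ ball (0 : ℂ) 1, HasDerivAt Φ (F' w) w := by
    intro w hw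
    refine (hasDerivAt_fF N ρ φ hs w (mem_ball_zero_iff.1 hw)).congr_of_eventuallyEq ?_
    filter_upwards [isOpen_ball.mem_nhds hw] with z hz
    exact hΦ z (mem_ball_zero_iff.1 hz).le
  have hF'0 : ∀ w ∈ ball (0 : ℂ) 1, F' w ≠ 0 := fun w hw =>
    fF'_ne N ρ φ hs hρ hq1 w (mem_ball_zero_iff.1 hw).le
  have hF'c : ContinuousOn F' (ball 0 1) :=
    (continuousOn_fF' N ρ φ hs).mono ball_subset_closedBall
  have hF'u : ∀ w ∈ ball (0 : ℂ) 1, ‖F' w‖ ≤ 2 * ρ := by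
    intro w hw
    have h1 := norm_fF'_sub_le N ρ φ hs hρ (1 / 3) hq w (mem_ball_zero_iff.1 hw).le
    have h2 : ‖F' w‖ ≤ ‖F' w - ρ‖ + ‖(ρ : ℂ)‖ := by
      calc ‖F' w‖ = ‖(F' w - ρ) + ρ‖ := by rw [sub_add_cancel]
        _ ≤ _ := norm_add_le _ _
    rw [Complex.norm_real, Real.norm_eq_abs, abs_of_pos hρ] at h2
    linarith
  have hF'l : ∀ w ∈ ball (0 : ℂ) 1, ρ / 2 ≤ ‖F' w‖ := by
    intro w hw
    have h1 := norm_fF'_sub_le N ρ φ hs hρ (1 / 3) hq w (mem_ball_zero_iff.1 hw).le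
    have h2 : ‖(ρ : ℂ)‖ ≤ ‖F' w - ρ‖ + ‖F' w‖ := by
      calc ‖(ρ : ℂ)‖ = ‖F' w - (F' w - ρ)‖ := by rw [sub_sub_cancel]
        _ ≤ ‖F' w‖ + ‖F' w - ρ‖ := norm_sub_le _ _
        _ = _ := add_comm _ _
    rw [Complex.norm_real, Real.norm_eq_abs, abs_of_pos hρ] at h2
    linarith
  obtain ⟨CU, hCU⟩ := hUb
  obtain ⟨CG, hCG⟩ := hGUb
  set Ω := Φ '' ball 0 1 with hΩ
  have hΩo : IsOpen Ω := isOpen_image Φ
  have hΩb : Bornology.IsBounded Ω := isBounded_image Φ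
  have hΩm : MeasurableSet Ω := hΩo.measurableSet
  have hfin : IsFiniteMeasure (volume.restrict Ω) :=
    ⟨by rw [Measure.restrict_apply_univ]; exact hΩb.measure_lt_top⟩
  have hsymm : ∀ x ∈ Ω, Φ.symm x ∈ ball (0 : ℂ) 1 := by
    rintro _ ⟨w, hw, rfl⟩
    rwa [Φ.symm_apply_apply]
  have hsymm' : MapsTo Φ.symm Ω (ball 0 1) := hsymm
  set u : ℂ → ℝ := fun x => U (Φ.symm x) with hu
  set G : ℂ → ℂ := fun x => GU (Φ.symm x) / conj (F' (Φ.symm x)) with hG
  have huc : ContinuousOn u Ω := hU.comp Φ.symm.continuous.continuousOn hsymm'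
  have hGc : ContinuousOn G Ω := by
    have h1 : ContinuousOn (fun w => GU w / conj (F' w)) (ball 0 1) := by
      refine hGU.div (Complex.continuous_conj.comp_continuousOn hF'c) fun w hw => ?_
      rw [Ne, map_eq_zero]
      exact hF'0 w hw
    exact h1.comp Φ.symm.continuous.continuousOn hsymm'
  obtain ⟨hfr⟩ : Nonempty (frontier Ω ≃ₜ sphere (0 : ℂ) 1) := by
    rw [hΩ, frontier_image]
    exact ⟨(Φ.image (sphere 0 1)).symm⟩
  -- the test functions
  have htest : ∀ η : ℂ → ℝ, ContDiff ℝ 1 η → HasCompactSupport η → TestOK (η ∘ fF N ρ φ) ∧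
      ∀ w ∈ ball (0 : ℂ) 1, ∀ h : ℂ, fderiv ℝ (η ∘ fF N ρ φ) w h =
        fderiv ℝ η (Φ w) (F' w * h) := by
    intro η hη hηc
    have hFc : ContinuousOn (fF N ρ φ) (closedBall 0 1) := by
      refine Φ.continuous.continuousOn.congr fun w hw => ?_
      exact (hΦ w (mem_closedBall_zero_iff.1 hw)).symm
    have hfd : ∀ w ∈ ball (0 : ℂ) 1, HasFDerivAt (η ∘ fF N ρ φ)
        ((fderiv ℝ η (fF N ρ φ w)).comp (F' w • (1 : ℂ →L[ℝ] ℂ))) w := by
      intro w hw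
      exact ((hη.differentiable one_ne_zero).differentiableAt.hasFDerivAt).comp w
        (hasDerivAt_fF N ρ φ hs w (mem_ball_zero_iff.1 hw)).complexToReal_fderiv
    have hfdc : Continuous (fderiv ℝ η) := hη.continuous_fderiv one_ne_zero
    refine ⟨⟨hη.continuous.comp_continuousOn hFc, ?_, ?_, ?_⟩, ?_⟩
    · intro w hw
      exact (hfd w hw).differentiableAt.differentiableWithinAt
    · refine ContinuousOn.congr (f := fun w => (fderiv ℝ η (fF N ρ φ w)).comp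
        (F' w • (1 : ℂ →L[ℝ] ℂ))) ?_ fun w hw => (hfd w hw).fderiv
      refine ContinuousOn.clm_comp ?_ ?_
      · exact hfdc.comp_continuousOn (hFc.mono ball_subset_closedBall)
      · exact hF'c.smul continuousOn_const
    · obtain ⟨C, hC⟩ := hfdc.bounded_above_of_compact_support (hηc.fderiv (𝕜 := ℝ))
      refine ⟨C * (2 * ρ), fun w hw => ?_⟩
      rw [(hfd w hw).fderiv]
      refine (ContinuousLinearMap.opNorm_comp_le _ _).trans ?_
      refine mul_le_mul (hC _) ?_ (norm_nonneg _) ((norm_nonneg _).trans (hC 0))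
      refine (norm_smul_le (F' w) (1 : ℂ →L[ℝ] ℂ)).trans ?_
      have h1 : ‖(1 : ℂ →L[ℝ] ℂ)‖ ≤ 1 := ContinuousLinearMap.norm_id_le
      calc ‖F' w‖ * ‖(1 : ℂ →L[ℝ] ℂ)‖ ≤ 2 * ρ * 1 :=
            mul_le_mul (hF'u w hw) h1 (norm_nonneg _) (by positivity)
        _ = 2 * ρ := mul_one _
    · intro w hw h
      rw [(hfd w hw).fderiv, hΦ w (mem_ball_zero_iff.1 hw).le]
      rfl
  refine transfer Ω hΩo hΩb (isConnected_image Φ) (simplyConnected_image Φ) ⟨hfr⟩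
    (fun p hp => lipschitz_boundary Φ ρ (1 / 3) hρ (by norm_num) le_rfl hΦn p hp)
    1 c u G one_pos ?_ ?_ ?_ ?_ ?_ ?_
  · -- `u ∈ L²`
    refine MemLp.of_bound (huc.aestronglyMeasurable hΩm) CU ?_
    filter_upwards [ae_restrict_mem hΩm] with x hx
    exact hCU _ (hsymm x hx)
  · -- `G ∈ L²`
    refine MemLp.of_bound (hGc.aestronglyMeasurable hΩm) (CG / (ρ / 2)) ?_
    filter_upwards [ae_restrict_mem hΩm] with x hx
    rw [hG]
    simp only
    rw [norm_div, RCLike.norm_conj]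
    have h1 := hF'l _ (hsymm x hx)
    have h2 := hCG _ (hsymm x hx)
    exact div_le_div₀ ((norm_nonneg _).trans h2) h2 (by positivity) h1
  · -- the first identity
    intro η hη hηc v
    obtain ⟨hT, hd⟩ := htest η hη hηc
    have h1 := W1 _ hT v
    rw [integral_image Φ F' hder, integral_image Φ F' hder]
    have e1 : ∫ w in ball (0 : ℂ) 1, Complex.normSq (F' w) *
        ((u (Φ w) - c) * fderiv ℝ η (Φ w) v) =
        ∫ w in ball (0 : ℂ) 1, (U w - c) * fderiv ℝ (η ∘ fF N ρ φ) w (conj (F' w) * v) := by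
      refine setIntegral_congr_fun measurableSet_ball fun w hw => ?_
      simp only [hu, Φ.symm_apply_apply]
      rw [hd w hw]
      have h2 : F' w * (conj (F' w) * v) = Complex.normSq (F' w) • v := by
        rw [← mul_assoc, Complex.mul_conj, smul_eq_ofReal_mul]
      rw [h2, map_smul, smul_eq_mul]
      ring
    have e2 : ∫ w in ball (0 : ℂ) 1, Complex.normSq (F' w) * (⟪G (Φ w), v⟫ * η (Φ w)) =
        ∫ w in ball (0 : ℂ) 1, ⟪GU w, conj (F' w) * v⟫ * (η ∘ fF N ρ φ) w := by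
      refine setIntegral_congr_fun measurableSet_ball fun w hw => ?_
      simp only [hG, Φ.symm_apply_apply, Function.comp_apply]
      rw [hΦ w (mem_ball_zero_iff.1 hw).le, ← mul_assoc]
      congr 1
      have h3 := hF'0 w hw
      have h4 : conj (F' w) ≠ 0 := by
        rw [Ne, map_eq_zero]; exact h3
      have h5 : Complex.normSq (F' w) * ⟪GU w / conj (F' w), v⟫ =
          ⟪Complex.normSq (F' w) • (GU w / conj (F' w)), v⟫ := by
        rw [real_inner_smul_left]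
      rw [h5, smul_eq_ofReal_mul, ← Complex.mul_conj]
      have h6 : F' w * conj (F' w) * (GU w / conj (F' w)) = F' w * GU w := by
        field_simp
      rw [h6, Complex.inner, Complex.inner, map_mul]
      congr 1
      ring
    rw [e1, e2]
    exact h1
  · -- the second identity
    intro η hη hηc
    obtain ⟨hT, hd⟩ := htest η hη hηc
    have h1 := W2 _ hT
    rw [integral_image Φ F' hder, integral_image Φ F' hder, one_mul]
    have e1 : ∫ w in ball (0 : ℂ) 1, Complex.normSq (F' w) * fderiv ℝ η (Φ w) (G (Φ w)) =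
        ∫ w in ball (0 : ℂ) 1, fderiv ℝ (η ∘ fF N ρ φ) w (GU w) := by
      refine setIntegral_congr_fun measurableSet_ball fun w hw => ?_
      simp only [hG, Φ.symm_apply_apply]
      rw [hd w hw]
      have h3 := hF'0 w hw
      have h4 : conj (F' w) ≠ 0 := by
        rw [Ne, map_eq_zero]; exact h3
      have h2 : F' w * GU w = Complex.normSq (F' w) • (GU w / conj (F' w)) := by
        rw [smul_eq_ofReal_mul, ← Complex.mul_conj]
        field_simp
      rw [h2, map_smul, smul_eq_mul]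
    have e2 : ∫ w in ball (0 : ℂ) 1, Complex.normSq (F' w) * (u (Φ w) * η (Φ w)) =
        ∫ w in ball (0 : ℂ) 1, Complex.normSq (F' w) * U w * (η ∘ fF N ρ φ) w := by
      refine setIntegral_congr_fun measurableSet_ball fun w hw => ?_
      simp only [hu, Φ.symm_apply_apply, Function.comp_apply]
      rw [hΦ w (mem_ball_zero_iff.1 hw).le]
      ring
    rw [e1, e2]
    exact h1
  · -- `u` does not vanish
    intro h0
    obtain ⟨w, hw, hUw⟩ := hne
    have h1 : EqOn u 0 Ω := Measure.eqOn_open_of_ae_eq h0 hΩo huc continuousOn_const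
    have h2 := h1 ⟨w, hw, rfl⟩
    apply hUw
    simpa [hu] using h2
  · -- not a disc
    obtain ⟨w₁, w₂, h₁, h₂, h₁₂⟩ := norm_fF_ne N ρ φ hs hρ hN0 hq1 hφ1
    refine not_ball Φ (fun w hw => ?_) w₁ w₂ h₁ h₂ ?_
    · rw [hΦ w hw, hΦ (-w) (by rwa [norm_neg]), fF_neg N ρ φ hN]
    · rwa [hΦ w₁ h₁.le, hΦ w₂ h₂.le]

end SCHG
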