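import Pool.Agent.MP_83fd13_an.SCH.Geo5

/-!
# [SCH] integration by parts on the unit disc for Lipschitz functions, and the first weak identity
-/

set_option autoImplicit false

open Metric Set MeasureTheory Filter Topology
open scoped RealInnerProductSpace NNReal ComplexConjugate

namespace SCHG

theorem lip_comp_prj {f : ℂ → ℝ} {C : ℝ≥0} (hf : LipschitzOnWith C f (closedBall 0 1)) :
    LipschitzWith C (f ∘ prj) := by
  refine LipschitzWith.of_dist_le_mul fun x y => ?_
  have hx : prj x ∈ closedBall (0 : ℂ) 1 := by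
    rw [mem_closedBall_zero_iff]; exact norm_prj_le x
  have hy : prj y ∈ closedBall (0 : ℂ) 1 := by
    rw [mem_closedBall_zero_iff]; exact norm_prj_le y
  refine (hf.dist_le_mul _ hx _ hy).trans ?_
  refine mul_le_mul_of_nonneg_left ?_ C.2
  rw [dist_eq_norm, dist_eq_norm]
  exact prj_lip x y

theorem norm_prj_of_ge {z : ℂ} (hz : 1 ≤ ‖z‖) : ‖prj z‖ = 1 := by
  have h0 : 0 < ‖z‖ := one_pos.trans_le hz
  rw [prj, max_eq_right hz, norm_smul, norm_inv, norm_norm, inv_mul_cancel₀ h0.ne']

/-- integration by parts on the disc -/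
theorem ibp_disc {f g : ℂ → ℝ} {C D : ℝ≥0} (hf : LipschitzOnWith C f (closedBall 0 1))
    (hg : LipschitzOnWith D g (closedBall 0 1)) (hg0 : ∀ w : ℂ, ‖w‖ = 1 → g w = 0) (v : ℂ) :
    ∫ w in ball (0 : ℂ) 1, lineDeriv ℝ f w v * g w =
      - ∫ w in ball (0 : ℂ) 1, lineDeriv ℝ g w v * f w := by
  have hgz : ∀ w : ℂ, 1 ≤ ‖w‖ → (g ∘ prj) w = 0 := fun w hw => hg0 _ (norm_prj_of_ge hw)
  have hsupp : HasCompactSupport (g ∘ prj) := by
    refine HasCompactSupport.intro (isCompact_closedBall (0 : ℂ) 1) fun w hw => ?_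
    rw [mem_closedBall_zero_iff, not_le] at hw
    exact hgz w hw.le
  have h1 := LipschitzWith.integral_lineDeriv_mul_eq (μ := volume) (lip_comp_prj hf)
    (lip_comp_prj hg) hsupp v
  have hev : ∀ k : ℂ → ℝ, ∀ w ∈ ball (0 : ℂ) 1, (k ∘ prj) =ᶠ[𝓝 w] k := by
    intro k w hw
    filter_upwards [isOpen_ball.mem_nhds hw] with z hz
    rw [Function.comp_apply, prj_of_le (mem_ball_zero_iff.1 hz).le]
  have e1 : ∫ w, lineDeriv ℝ (f ∘ prj) w v * (g ∘ prj) w =
      ∫ w in ball (0 : ℂ) 1, lineDeriv ℝ f w v * g w := by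
    rw [← setIntegral_eq_integral_of_forall_compl_eq_zero (s := ball (0 : ℂ) 1)]
    · refine setIntegral_congr_fun measurableSet_ball fun w hw => ?_
      rw [(hev f w hw).lineDeriv_eq, (hev g w hw).self_of_nhds]
    · intro w hw
      rw [mem_ball_zero_iff, not_lt] at hw
      rw [hgz w hw, mul_zero]
  have e2 : ∫ w, lineDeriv ℝ (g ∘ prj) w (-v) * (f ∘ prj) w =
      - ∫ w in ball (0 : ℂ) 1, lineDeriv ℝ g w v * f w := by
    rw [← setIntegral_eq_integral_of_forall_compl_eq_zero (s := closedBall (0 : ℂ) 1)]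
    · have hae : (closedBall (0 : ℂ) 1 : Set ℂ) =ᵐ[volume] ball (0 : ℂ) 1 := by
        refine (ball_subset_closedBall.eventuallyLE.antisymm ?_).symm
        rw [ae_le_set, closedBall_sdiff_ball]
        exact Measure.addHaar_sphere volume 0 1
      rw [setIntegral_congr_set hae, ← integral_neg]
      refine setIntegral_congr_fun measurableSet_ball fun w hw => ?_
      rw [(hev g w hw).lineDeriv_eq, (hev f w hw).self_of_nhds, lineDeriv_neg, neg_mul]
    · intro w hw
      have h2 : (g ∘ prj) =ᶠ[𝓝 w] fun _ => (0 : ℝ) := by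
        filter_upwards [isClosed_closedBall.isOpen_compl.mem_nhds hw] with z hz
        rw [mem_compl_iff, mem_closedBall_zero_iff, not_le] at hz
        exact hgz z hz.le
      rw [h2.lineDeriv_eq]
      simp [lineDeriv]
  rw [← e1, h1, e2]

theorem lip_of_bdd {m : ℂ → ℝ} (hc : ContinuousOn m (closedBall 0 1))
    (hd : DifferentiableOn ℝ m (ball 0 1)) {C : ℝ} (hC : ∀ w ∈ ball (0 : ℂ) 1, ‖fderiv ℝ m w‖ ≤ C) :
    LipschitzOnWith (Real.toNNReal C) m (closedBall 0 1) := by
  have hC0 : 0 ≤ C := (norm_nonneg _).trans (hC 0 (mem_ball_self one_pos))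
  have h1 : LipschitzOnWith (Real.toNNReal C) m (ball 0 1) := by
    refine (convex_ball (0 : ℂ) 1).lipschitzOnWith_of_nnnorm_fderiv_le (𝕜 := ℝ) ?_ ?_
    · intro w hw
      exact (hd w hw).differentiableAt (isOpen_ball.mem_nhds hw)
    · intro w hw
      rw [← NNReal.coe_le_coe, coe_nnnorm, Real.coe_toNNReal _ hC0]
      exact hC w hw
  have h2 : closure (ball (0 : ℂ) 1) = closedBall 0 1 := closure_ball _ one_ne_zero
  have h3 := LipschitzOnWith.closure (by rw [h2]; exact hc) h1
  rwa [h2] at h3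

/-- a real-linear map on `ℂ` by its values at `1` and `I` -/
theorem clm_apply (L : ℂ →L[ℝ] ℝ) (z : ℂ) : L z = L 1 * z.re + L Complex.I * z.im := by
  have h1 : z = z.re • (1 : ℂ) + z.im • Complex.I := by
    rw [smul_eq_ofReal_mul, smul_eq_ofReal_mul, mul_one]
    exact (Complex.re_add_im z).symm
  conv_lhs => rw [h1]
  rw [map_add, map_smul, map_smul, smul_eq_mul, smul_eq_mul]
  ring

/-- a function vanishing on the circle is orthogonal to the derivatives along conjugate-holomorphic
fields, which are holomorphic in a larger disc -/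
theorem field_zero_aux {m : ℂ → ℝ} (hc : ContinuousOn m (closedBall 0 1))
    (hd : DifferentiableOn ℝ m (ball 0 1)) {C : ℝ} (hC : ∀ w ∈ ball (0 : ℂ) 1, ‖fderiv ℝ m w‖ ≤ C)
    (hm0 : ∀ w : ℂ, ‖w‖ = 1 → m w = 0) (h : ℂ → ℂ) (R : ℝ) (hR : 1 < R)
    (hh : DifferentiableOn ℂ h (ball 0 R)) (v : ℂ) :
    ∫ w in ball (0 : ℂ) 1, fderiv ℝ m w (conj (h w) * v) = 0 := by
  have hsub : closedBall (0 : ℂ) 1 ⊆ ball 0 R := closedBall_subset_ball hR
  have hder : ∀ w ∈ ball (0 : ℂ) R, HasDerivAt h (deriv h w) w := fun w hw =>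
    ((hh w hw).differentiableAt (isOpen_ball.mem_nhds hw)).hasDerivAt
  have hdc : ContinuousOn (deriv h) (ball 0 R) := (hh.deriv isOpen_ball).continuousOn
  obtain ⟨B, hB⟩ := (isCompact_closedBall (0 : ℂ) 1).exists_bound_of_continuousOn (hdc.mono hsub)
  have hB0 : 0 ≤ B := (norm_nonneg _).trans (hB 0 (mem_closedBall_self zero_le_one))
  -- the field
  set H : ℂ → ℂ := fun w => conj (h w) * v with hH
  have hHd : ∀ w ∈ ball (0 : ℂ) R, HasFDerivAt H
      ((ContinuousLinearMap.mulLeftRight ℝ ℂ 1 v).comp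
        ((Complex.conjCLE : ℂ →L[ℝ] ℂ).comp ((deriv h w) • (1 : ℂ →L[ℝ] ℂ)))) w := by
    intro w hw
    have h1 := ((Complex.conjCLE : ℂ →L[ℝ] ℂ).hasFDerivAt (x := h w)).comp w
      (hder w hw).complexToReal_fderiv
    have h2 := ((ContinuousLinearMap.mulLeftRight ℝ ℂ 1 v).hasFDerivAt
      (x := conj (h w))).comp w h1
    refine h2.congr_of_eventuallyEq (Eventually.of_forall fun z => ?_)
    simp [hH]
  have hHlip : LipschitzOnWith (Real.toNNReal (B * ‖v‖)) H (closedBall 0 1) := by
    refine LipschitzOnWith.of_dist_le_mul fun x hx y hy => ?_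
    rw [Real.coe_toNNReal _ (by positivity), dist_eq_norm, dist_eq_norm]
    have h1 : H x - H y = conj (h x - h y) * v := by
      rw [hH]
      simp only [map_sub]
      ring
    rw [h1, norm_mul, RCLike.norm_conj]
    have h2 : ‖h x - h y‖ ≤ B * ‖x - y‖ :=
      (convex_closedBall (0 : ℂ) 1).norm_image_sub_le_of_norm_hasDerivWithin_le
        (fun z hz => (hder z (hsub hz)).hasDerivWithinAt) hB hy hx
    calc ‖h x - h y‖ * ‖v‖ ≤ B * ‖x - y‖ * ‖v‖ := mul_le_mul_of_nonneg_right h2 (norm_nonneg _)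
      _ = _ := by ring
  have hre : LipschitzOnWith (Real.toNNReal (B * ‖v‖)) (fun w => (H w).re) (closedBall 0 1) := by
    refine LipschitzOnWith.of_dist_le_mul fun x hx y hy => ?_
    refine le_trans ?_ (hHlip.dist_le_mul x hx y hy)
    rw [dist_eq_norm, dist_eq_norm, Real.norm_eq_abs, ← Complex.sub_re]
    exact Complex.abs_re_le_norm _
  have him : LipschitzOnWith (Real.toNNReal (B * ‖v‖)) (fun w => (H w).im) (closedBall 0 1) := by
    refine LipschitzOnWith.of_dist_le_mul fun x hx y hy => ?_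
    refine le_trans ?_ (hHlip.dist_le_mul x hx y hy)
    rw [dist_eq_norm, dist_eq_norm, Real.norm_eq_abs, ← Complex.sub_im]
    exact Complex.abs_im_le_norm _
  have hm := lip_of_bdd hc hd hC
  have e1 := ibp_disc hre hm hm0 1
  have e2 := ibp_disc him hm hm0 Complex.I
  -- the line derivatives
  have hmd : ∀ w ∈ ball (0 : ℂ) 1, ∀ ξ : ℂ, lineDeriv ℝ m w ξ = fderiv ℝ m w ξ := by
    intro w hw ξ
    exact ((hd w hw).differentiableAt (isOpen_ball.mem_nhds hw)).lineDeriv_eq_fderiv
  have hd1 : ∀ w ∈ ball (0 : ℂ) 1, lineDeriv ℝ (fun w => (H w).re) w 1 =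
      (conj (deriv h w) * v).re := by
    intro w hw
    have h1 := (Complex.reCLM.hasFDerivAt (x := H w)).comp w
      (hHd w (hsub (ball_subset_closedBall hw)))
    have h2 : HasFDerivAt (fun w => (H w).re) _ w := h1
    rw [h2.differentiableAt.lineDeriv_eq_fderiv, h2.fderiv]
    simp
  have hd2 : ∀ w ∈ ball (0 : ℂ) 1, lineDeriv ℝ (fun w => (H w).im) w Complex.I =
      - (conj (deriv h w) * v).re := by
    intro w hw
    have h1 := (Complex.imCLM.hasFDerivAt (x := H w)).comp w
      (hHd w (hsub (ball_subset_closedBall hw)))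
    have h2 : HasFDerivAt (fun w => (H w).im) _ w := h1
    rw [h2.differentiableAt.lineDeriv_eq_fderiv, h2.fderiv]
    simp
    ring
  have e3 : ∫ w in ball (0 : ℂ) 1, lineDeriv ℝ (fun w => (H w).re) w 1 * m w =
      ∫ w in ball (0 : ℂ) 1, (conj (deriv h w) * v).re * m w :=
    setIntegral_congr_fun measurableSet_ball fun w hw => by rw [hd1 w hw]
  have e4 : ∫ w in ball (0 : ℂ) 1, lineDeriv ℝ (fun w => (H w).im) w Complex.I * m w =
      - ∫ w in ball (0 : ℂ) 1, (conj (deriv h w) * v).re * m w := by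
    rw [← integral_neg]
    exact setIntegral_congr_fun measurableSet_ball fun w hw => by
      rw [hd2 w hw]
      ring
  have e5 : ∫ w in ball (0 : ℂ) 1, fderiv ℝ m w (conj (h w) * v) =
      (∫ w in ball (0 : ℂ) 1, lineDeriv ℝ m w 1 * (H w).re) +
      ∫ w in ball (0 : ℂ) 1, lineDeriv ℝ m w Complex.I * (H w).im := by
    have hHc : ContinuousOn H (ball 0 1) := hHlip.continuousOn.mono ball_subset_closedBall
    obtain ⟨BH, hBH⟩ := (isCompact_closedBall (0 : ℂ) 1).exists_bound_of_continuousOn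
      hHlip.continuousOn
    have hint : ∀ (ξ : ℂ) (a : ℂ → ℝ), ‖ξ‖ = 1 → ContinuousOn a (ball 0 1) →
        (∀ w ∈ ball (0 : ℂ) 1, |a w| ≤ BH) →
        IntegrableOn (fun w => fderiv ℝ m w ξ * a w) (ball 0 1) := by
      intro ξ a hξ ha hab
      refine IntegrableOn.of_bound measure_ball_lt_top ?_ (C * BH) ?_
      · exact ((measurable_fderiv_apply_const ℝ m ξ).aestronglyMeasurable).mul
          (ha.aestronglyMeasurable measurableSet_ball)
      · filter_upwards [ae_restrict_mem measurableSet_ball] with w hw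
        rw [norm_mul]
        have h1 : ‖fderiv ℝ m w ξ‖ ≤ C := by
          refine (ContinuousLinearMap.le_opNorm _ _).trans ?_
          rw [hξ, mul_one]
          exact hC w hw
        exact mul_le_mul h1 (hab w hw) (norm_nonneg _) ((norm_nonneg _).trans h1)
    have i1 := hint 1 (fun w => (H w).re) norm_one (Complex.continuous_re.comp_continuousOn hHc)
      fun w hw => (Complex.abs_re_le_norm _).trans (hBH w (ball_subset_closedBall hw))
    have i2 := hint Complex.I (fun w => (H w).im) Complex.norm_I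
      (Complex.continuous_im.comp_continuousOn hHc)
      fun w hw => (Complex.abs_im_le_norm _).trans (hBH w (ball_subset_closedBall hw))
    have e6 : ∫ w in ball (0 : ℂ) 1, lineDeriv ℝ m w 1 * (H w).re =
        ∫ w in ball (0 : ℂ) 1, fderiv ℝ m w 1 * (H w).re :=
      setIntegral_congr_fun measurableSet_ball fun w hw => by rw [hmd w hw]
    have e7 : ∫ w in ball (0 : ℂ) 1, lineDeriv ℝ m w Complex.I * (H w).im =
        ∫ w in ball (0 : ℂ) 1, fderiv ℝ m w Complex.I * (H w).im :=
      setIntegral_congr_fun measurableSet_ball fun w hw => by rw [hmd w hw]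
    rw [e6, e7, ← integral_add i1 i2]
    refine setIntegral_congr_fun measurableSet_ball fun w _ => ?_
    rw [clm_apply]
  rw [e5]
  linarith

/-- a function vanishing on the circle is orthogonal to the derivatives along conjugate-holomorphic
fields -/
theorem field_zero {m : ℂ → ℝ} (hc : ContinuousOn m (closedBall 0 1))
    (hd : DifferentiableOn ℝ m (ball 0 1)) {C : ℝ} (hC : ∀ w ∈ ball (0 : ℂ) 1, ‖fderiv ℝ m w‖ ≤ C)
    (hm0 : ∀ w : ℂ, ‖w‖ = 1 → m w = 0) (h : ℂ → ℂ) (hh : DifferentiableOn ℂ h (ball 0 1))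
    (hhc : ContinuousOn h (closedBall 0 1)) (v : ℂ) :
    ∫ w in ball (0 : ℂ) 1, fderiv ℝ m w (conj (h w) * v) = 0 := by
  obtain ⟨B, hB⟩ := (isCompact_closedBall (0 : ℂ) 1).exists_bound_of_continuousOn hhc
  have hC0 : 0 ≤ C := (norm_nonneg _).trans (hC 0 (mem_ball_self one_pos))
  have hball : ∀ t ∈ Ioo (0 : ℝ) 1, ∀ w ∈ ball (0 : ℂ) 1, (t : ℂ) * w ∈ closedBall (0 : ℂ) 1 := by
    intro t ht w hw
    rw [mem_closedBall_zero_iff, norm_mul, Complex.norm_real, Real.norm_eq_abs, abs_of_pos ht.1]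
    rw [mem_ball_zero_iff] at hw
    exact mul_le_one₀ ht.2.le (norm_nonneg _) hw.le
  have hzero : ∀ t ∈ Ioo (0 : ℝ) 1,
      ∫ w in ball (0 : ℂ) 1, fderiv ℝ m w (conj (h (t * w)) * v) = 0 := by
    intro t ht
    refine field_zero_aux hc hd hC hm0 (fun w => h (t * w)) t⁻¹ (one_lt_inv₀ ht.1 |>.2 ht.2) ?_ v
    intro w hw
    have h1 : (t : ℂ) * w ∈ ball (0 : ℂ) 1 := by
      rw [mem_ball_zero_iff] at hw ⊢
      rw [norm_mul, Complex.norm_real, Real.norm_eq_abs, abs_of_pos ht.1]
      calc t * ‖w‖ < t * t⁻¹ := mul_lt_mul_of_pos_left hw ht.1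
        _ = 1 := mul_inv_cancel₀ ht.1.ne'
    have h2 : DifferentiableAt ℂ h (t * w) := (hh _ h1).differentiableAt (isOpen_ball.mem_nhds h1)
    exact (h2.comp w ((differentiableAt_id).const_mul (t : ℂ))).differentiableWithinAt
  have hlim : Tendsto (fun t : ℝ => ∫ w in ball (0 : ℂ) 1, fderiv ℝ m w (conj (h (t * w)) * v))
      (𝓝[<] 1) (𝓝 (∫ w in ball (0 : ℂ) 1, fderiv ℝ m w (conj (h w) * v))) := by
    have hev : ∀ᶠ t in 𝓝[<] (1 : ℝ), t ∈ Ioo (0 : ℝ) 1 := Ioo_mem_nhdsLT one_pos
    refine tendsto_integral_filter_of_dominated_convergence (fun _ => C * (B * ‖v‖)) ?_ ?_ ?_ ?_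
    · filter_upwards [hev] with t ht
      have h1 : ContinuousOn (fun w : ℂ => h (t * w)) (ball 0 1) := by
        refine hhc.comp (by fun_prop) fun w hw => hball t ht w hw
      have h2 : ContinuousOn (fun w : ℂ => conj (h (t * w)) * v) (ball 0 1) :=
        (Complex.continuous_conj.comp_continuousOn h1).mul continuousOn_const
      have h3 : (fun w => fderiv ℝ m w (conj (h (t * w)) * v)) =
          fun w => fderiv ℝ m w 1 * (conj (h (t * w)) * v).re +
            fderiv ℝ m w Complex.I * (conj (h (t * w)) * v).im := by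
        funext w
        rw [clm_apply]
      rw [h3]
      exact (((measurable_fderiv_apply_const ℝ m 1).aestronglyMeasurable).mul
        ((Complex.continuous_re.comp_continuousOn h2).aestronglyMeasurable measurableSet_ball)).add
        (((measurable_fderiv_apply_const ℝ m Complex.I).aestronglyMeasurable).mul
        ((Complex.continuous_im.comp_continuousOn h2).aestronglyMeasurable measurableSet_ball))
    · filter_upwards [hev] with t ht
      filter_upwards [ae_restrict_mem measurableSet_ball] with w hw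
      refine (ContinuousLinearMap.le_opNorm _ _).trans ?_
      refine mul_le_mul (hC w hw) ?_ (norm_nonneg _) hC0
      rw [norm_mul, RCLike.norm_conj]
      exact mul_le_mul_of_nonneg_right (hB _ (hball t ht w hw)) (norm_nonneg _)
    · have : IsFiniteMeasure (volume.restrict (ball (0 : ℂ) 1)) :=
        ⟨by rw [Measure.restrict_apply_univ]; exact measure_ball_lt_top⟩
      exact integrable_const _
    · filter_upwards [ae_restrict_mem measurableSet_ball] with w hw
      have h1 : Tendsto (fun t : ℝ => (t : ℂ) * w) (𝓝[<] 1) (𝓝[closedBall 0 1] w) := by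
        rw [tendsto_nhdsWithin_iff]
        constructor
        · have h2 : Continuous fun t : ℝ => (t : ℂ) * w := by fun_prop
          have h3 := (h2.tendsto 1).mono_left (nhdsWithin_le_nhds (s := Iio 1))
          simpa using h3
        · filter_upwards [hev] with t ht
          exact hball t ht w hw
      have h2 : Tendsto (fun t : ℝ => h (t * w)) (𝓝[<] 1) (𝓝 (h w)) :=
        (hhc w (ball_subset_closedBall hw)).tendsto.comp h1
      have h3 : Continuous fun z : ℂ => fderiv ℝ m w (conj z * v) := by fun_prop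
      exact (h3.tendsto (h w)).comp h2
  have hlim0 : Tendsto (fun t : ℝ => ∫ w in ball (0 : ℂ) 1, fderiv ℝ m w (conj (h (t * w)) * v))
      (𝓝[<] 1) (𝓝 0) := by
    refine tendsto_const_nhds.congr' ?_
    filter_upwards [Ioo_mem_nhdsLT one_pos] with t ht
    exact (hzero t ht).symm
  exact tendsto_nhds_unique hlim hlim0

end SCHG
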