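import Pool.Agent.MP_83fd13_an.SCH.Geo6

/-!
# [SCH] the first weak identity
-/

set_option autoImplicit false

open Metric Set MeasureTheory Filter Topology
open scoped RealInnerProductSpace NNReal ComplexConjugate

namespace SCHG

theorem differentiableOn_fF' (N : ℕ) (ρ : ℝ) (φ : ℕ → ℝ) (hs : Summable fun k => |φ (k + 1)|) :
    DifferentiableOn ℂ (fF' N ρ φ) (ball 0 1) := by
  have h1 : DifferentiableOn ℂ (fF N ρ φ) (ball 0 1) := fun w hw =>
    (hasDerivAt_fF N ρ φ hs w (mem_ball_zero_iff.1 hw)).differentiableAt.differentiableWithinAt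
  refine (h1.deriv isOpen_ball).congr fun w hw => ?_
  exact ((hasDerivAt_fF N ρ φ hs w (mem_ball_zero_iff.1 hw)).deriv).symm

/-- **The first weak identity.** -/
theorem W1_of (N : ℕ) (ρ : ℝ) (φ : ℕ → ℝ) (hs : Summable fun k => |φ (k + 1)|) (c : ℝ)
    (U : ℂ → ℝ) (GU : ℂ → ℂ) (hUc : ContinuousOn U (closedBall 0 1))
    (hU1 : ∀ w : ℂ, ‖w‖ = 1 → U w = c)
    (hUd : ∀ w ∈ ball (0 : ℂ) 1, HasFDerivAt U (innerSL ℝ (GU w)) w)
    (hGUc : ContinuousOn GU (ball 0 1)) (hGUb : ∃ C : ℝ, ∀ w ∈ ball (0 : ℂ) 1, ‖GU w‖ ≤ C)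
    (ψ : ℂ → ℝ) (hψ : TestOK ψ) (v : ℂ) :
    ∫ w in ball (0 : ℂ) 1, (U w - c) * fderiv ℝ ψ w (conj (fF' N ρ φ w) * v) =
      - ∫ w in ball (0 : ℂ) 1, ⟪GU w, conj (fF' N ρ φ w) * v⟫ * ψ w := by
  obtain ⟨hψc, hψd, hψf, Cψ, hCψ⟩ := hψ
  obtain ⟨CG, hCG⟩ := hGUb
  obtain ⟨BU, hBU⟩ := (isCompact_closedBall (0 : ℂ) 1).exists_bound_of_continuousOn
    (hUc.sub (continuousOn_const (c := c)))
  obtain ⟨Bψ, hBψ⟩ := (isCompact_closedBall (0 : ℂ) 1).exists_bound_of_continuousOn hψc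
  have hF'c := continuousOn_fF' N ρ φ hs
  obtain ⟨BF, hBF⟩ := (isCompact_closedBall (0 : ℂ) 1).exists_bound_of_continuousOn hF'c
  have h0 : (0 : ℂ) ∈ closedBall (0 : ℂ) 1 := mem_closedBall_self zero_le_one
  have h0' : (0 : ℂ) ∈ ball (0 : ℂ) 1 := mem_ball_self one_pos
  have hBU0 : 0 ≤ BU := (norm_nonneg _).trans (hBU 0 h0)
  have hBψ0 : 0 ≤ Bψ := (norm_nonneg _).trans (hBψ 0 h0)
  have hBF0 : 0 ≤ BF := (norm_nonneg _).trans (hBF 0 h0)
  have hCψ0 : 0 ≤ Cψ := (norm_nonneg _).trans (hCψ 0 h0')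
  have hCG0 : 0 ≤ CG := (norm_nonneg _).trans (hCG 0 h0')
  have hmd : ∀ w ∈ ball (0 : ℂ) 1, HasFDerivAt (fun w => (U w - c) * ψ w)
      ((U w - c) • fderiv ℝ ψ w + ψ w • innerSL ℝ (GU w)) w := by
    intro w hw
    exact ((hUd w hw).sub_const c).mul
      ((hψd w hw).differentiableAt (isOpen_ball.mem_nhds hw)).hasFDerivAt
  have hm := field_zero (m := fun w => (U w - c) * ψ w) ((hUc.sub continuousOn_const).mul hψc)
    (fun w hw => (hmd w hw).differentiableAt.differentiableWithinAt)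
    (C := BU * Cψ + Bψ * CG) (fun w hw => by
      rw [(hmd w hw).fderiv]
      refine (norm_add_le _ _).trans ?_
      rw [norm_smul, norm_smul, innerSL_apply_norm]
      have h1 := hBU w (ball_subset_closedBall hw)
      have h2 := hBψ w (ball_subset_closedBall hw)
      exact add_le_add (mul_le_mul h1 (hCψ w hw) (norm_nonneg _) hBU0)
        (mul_le_mul h2 (hCG w hw) (norm_nonneg _) hBψ0))
    (fun w hw => by rw [hU1 w hw, sub_self, zero_mul]) (fF' N ρ φ)
    (differentiableOn_fF' N ρ φ hs) hF'c v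
  have hX : ContinuousOn (fun w => conj (fF' N ρ φ w) * v) (ball 0 1) :=
    (Complex.continuous_conj.comp_continuousOn (hF'c.mono ball_subset_closedBall)).mul
      continuousOn_const
  have hXb : ∀ w ∈ ball (0 : ℂ) 1, ‖conj (fF' N ρ φ w) * v‖ ≤ BF * ‖v‖ := by
    intro w hw
    rw [norm_mul, RCLike.norm_conj]
    exact mul_le_mul_of_nonneg_right (hBF w (ball_subset_closedBall hw)) (norm_nonneg _)
  have i1 : IntegrableOn (fun w => (U w - c) * fderiv ℝ ψ w (conj (fF' N ρ φ w) * v))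
      (ball 0 1) := by
    refine IntegrableOn.of_bound measure_ball_lt_top ?_ (BU * (Cψ * (BF * ‖v‖))) ?_
    · refine ContinuousOn.aestronglyMeasurable ?_ measurableSet_ball
      exact ((hUc.mono ball_subset_closedBall).sub continuousOn_const).mul (hψf.clm_apply hX)
    · filter_upwards [ae_restrict_mem measurableSet_ball] with w hw
      rw [norm_mul]
      refine mul_le_mul (hBU w (ball_subset_closedBall hw)) ?_ (norm_nonneg _) hBU0
      refine (ContinuousLinearMap.le_opNorm _ _).trans ?_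
      exact mul_le_mul (hCψ w hw) (hXb w hw) (norm_nonneg _) hCψ0
  have i2 : IntegrableOn (fun w => ⟪GU w, conj (fF' N ρ φ w) * v⟫ * ψ w) (ball 0 1) := by
    refine IntegrableOn.of_bound measure_ball_lt_top ?_ (CG * (BF * ‖v‖) * Bψ) ?_
    · refine ContinuousOn.aestronglyMeasurable ?_ measurableSet_ball
      exact (hGUc.inner hX).mul (hψc.mono ball_subset_closedBall)
    · filter_upwards [ae_restrict_mem measurableSet_ball] with w hw
      rw [norm_mul]
      refine mul_le_mul ?_ (hBψ w (ball_subset_closedBall hw)) (norm_nonneg _) (by positivity)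
      refine (norm_inner_le_norm _ _).trans ?_
      exact mul_le_mul (hCG w hw) (hXb w hw) (norm_nonneg _) hCG0
  have e : ∫ w in ball (0 : ℂ) 1, fderiv ℝ (fun w => (U w - c) * ψ w) w
      (conj (fF' N ρ φ w) * v) =
      ∫ w in ball (0 : ℂ) 1, ((U w - c) * fderiv ℝ ψ w (conj (fF' N ρ φ w) * v) +
        ⟪GU w, conj (fF' N ρ φ w) * v⟫ * ψ w) := by
    refine setIntegral_congr_fun measurableSet_ball fun w hw => ?_
    rw [(hmd w hw).fderiv]
    simp only [add_apply, smul_apply, smul_eq_mul,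
      innerSL_apply_apply]
    ring
  rw [e, integral_add i1 i2] at hm
  linarith

end SCHG
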