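import Pool.Agent.MP_83fd13_an.SCH.Geo7

/-!
# [SCH] the second weak identity, and the reduction to the classical formulation on the disc
-/

set_option autoImplicit false

open Metric Set MeasureTheory Filter Topology
open scoped RealInnerProductSpace NNReal ComplexConjugate

namespace SCHG

/-- **The second weak identity.** -/
theorem W2_of (N : ℕ) (ρ : ℝ) (φ : ℕ → ℝ) (U : ℂ → ℝ) (GU : ℂ → ℂ) {C : ℝ≥0}
    (hLip : LipschitzOnWith C GU (closedBall 0 1)) (hG0 : ∀ w : ℂ, ‖w‖ = 1 → GU w = 0)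
    (S : Set ℂ) (hS : volume S = 0)
    (hdiv : ∀ w ∈ ball (0 : ℂ) 1, w ∉ S → ∃ L : ℂ →L[ℝ] ℂ, HasFDerivAt GU L w ∧
      (L 1).re + (L Complex.I).im = - (Complex.normSq (fF' N ρ φ w) * U w))
    (ψ : ℂ → ℝ) (hψ : TestOK ψ) :
    ∫ w in ball (0 : ℂ) 1, fderiv ℝ ψ w (GU w) =
      ∫ w in ball (0 : ℂ) 1, Complex.normSq (fF' N ρ φ w) * U w * ψ w := by
  obtain ⟨hψc, hψd, hψf, Cψ, hCψ⟩ := hψ
  have hψL := lip_of_bdd hψc hψd hCψ
  have hre : LipschitzOnWith C (fun w => (GU w).re) (closedBall 0 1) := by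
    refine LipschitzOnWith.of_dist_le_mul fun x hx y hy => ?_
    refine le_trans ?_ (hLip.dist_le_mul x hx y hy)
    rw [dist_eq_norm, dist_eq_norm, Real.norm_eq_abs, ← Complex.sub_re]
    exact Complex.abs_re_le_norm _
  have him : LipschitzOnWith C (fun w => (GU w).im) (closedBall 0 1) := by
    refine LipschitzOnWith.of_dist_le_mul fun x hx y hy => ?_
    refine le_trans ?_ (hLip.dist_le_mul x hx y hy)
    rw [dist_eq_norm, dist_eq_norm, Real.norm_eq_abs, ← Complex.sub_im]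
    exact Complex.abs_im_le_norm _
  have e1 := ibp_disc hψL hre (fun w hw => by rw [hG0 w hw]; rfl) 1
  have e2 := ibp_disc hψL him (fun w hw => by rw [hG0 w hw]; rfl) Complex.I
  have hψl : ∀ w ∈ ball (0 : ℂ) 1, ∀ ξ : ℂ, lineDeriv ℝ ψ w ξ = fderiv ℝ ψ w ξ := by
    intro w hw ξ
    exact ((hψd w hw).differentiableAt (isOpen_ball.mem_nhds hw)).lineDeriv_eq_fderiv
  have hGc : ContinuousOn GU (ball 0 1) := hLip.continuousOn.mono ball_subset_closedBall
  obtain ⟨BG, hBG⟩ := (isCompact_closedBall (0 : ℂ) 1).exists_bound_of_continuousOn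
    hLip.continuousOn
  obtain ⟨Bψ, hBψ⟩ := (isCompact_closedBall (0 : ℂ) 1).exists_bound_of_continuousOn hψc
  have h0 : (0 : ℂ) ∈ closedBall (0 : ℂ) 1 := mem_closedBall_self zero_le_one
  have h0' : (0 : ℂ) ∈ ball (0 : ℂ) 1 := mem_ball_self one_pos
  have hBψ0 : 0 ≤ Bψ := (norm_nonneg _).trans (hBψ 0 h0)
  have hCψ0 : 0 ≤ Cψ := (norm_nonneg _).trans (hCψ 0 h0')
  -- the left hand side
  have hint : ∀ (ξ : ℂ) (a : ℂ → ℝ), ‖ξ‖ = 1 → ContinuousOn a (ball 0 1) →
      (∀ w ∈ ball (0 : ℂ) 1, |a w| ≤ BG) →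
      IntegrableOn (fun w => fderiv ℝ ψ w ξ * a w) (ball 0 1) := by
    intro ξ a hξ ha hab
    refine IntegrableOn.of_bound measure_ball_lt_top ?_ (Cψ * BG) ?_
    · exact ((measurable_fderiv_apply_const ℝ ψ ξ).aestronglyMeasurable).mul
        (ha.aestronglyMeasurable measurableSet_ball)
    · filter_upwards [ae_restrict_mem measurableSet_ball] with w hw
      rw [norm_mul]
      have h1 : ‖fderiv ℝ ψ w ξ‖ ≤ Cψ := by
        refine (ContinuousLinearMap.le_opNorm _ _).trans ?_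
        rw [hξ, mul_one]
        exact hCψ w hw
      exact mul_le_mul h1 (hab w hw) (norm_nonneg _) ((norm_nonneg _).trans h1)
  have i1 := hint 1 (fun w => (GU w).re) norm_one (Complex.continuous_re.comp_continuousOn hGc)
    fun w hw => (Complex.abs_re_le_norm _).trans (hBG w (ball_subset_closedBall hw))
  have i2 := hint Complex.I (fun w => (GU w).im) Complex.norm_I
    (Complex.continuous_im.comp_continuousOn hGc)
    fun w hw => (Complex.abs_im_le_norm _).trans (hBG w (ball_subset_closedBall hw))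
  have e3 : ∫ w in ball (0 : ℂ) 1, fderiv ℝ ψ w (GU w) =
      (∫ w in ball (0 : ℂ) 1, lineDeriv ℝ ψ w 1 * (GU w).re) +
      ∫ w in ball (0 : ℂ) 1, lineDeriv ℝ ψ w Complex.I * (GU w).im := by
    have e6 : ∫ w in ball (0 : ℂ) 1, lineDeriv ℝ ψ w 1 * (GU w).re =
        ∫ w in ball (0 : ℂ) 1, fderiv ℝ ψ w 1 * (GU w).re :=
      setIntegral_congr_fun measurableSet_ball fun w hw => by rw [hψl w hw]
    have e7 : ∫ w in ball (0 : ℂ) 1, lineDeriv ℝ ψ w Complex.I * (GU w).im =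
        ∫ w in ball (0 : ℂ) 1, fderiv ℝ ψ w Complex.I * (GU w).im :=
      setIntegral_congr_fun measurableSet_ball fun w hw => by rw [hψl w hw]
    rw [e6, e7, ← integral_add i1 i2]
    refine setIntegral_congr_fun measurableSet_ball fun w _ => ?_
    rw [clm_apply]
  -- the right hand side
  have hj : ∀ (ξ : ℂ) (a : ℂ → ℝ), ‖ξ‖ = 1 → LipschitzOnWith C a (closedBall 0 1) →
      IntegrableOn (fun w => lineDeriv ℝ a w ξ * ψ w) (ball 0 1) := by
    intro ξ a hξ ha
    have hev : ∀ w ∈ ball (0 : ℂ) 1, (a ∘ prj) =ᶠ[𝓝 w] a := by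
      intro w hw
      filter_upwards [isOpen_ball.mem_nhds hw] with z hz
      rw [Function.comp_apply, prj_of_le (mem_ball_zero_iff.1 hz).le]
    have hL := lip_comp_prj ha
    have h1 : IntegrableOn (fun w => lineDeriv ℝ (a ∘ prj) w ξ * ψ w) (ball 0 1) := by
      refine IntegrableOn.of_bound measure_ball_lt_top ?_ (C * Bψ) ?_
      · exact ((measurable_lineDeriv hL.continuous).aestronglyMeasurable).mul
          ((hψc.mono ball_subset_closedBall).aestronglyMeasurable measurableSet_ball)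
      · filter_upwards [ae_restrict_mem measurableSet_ball] with w hw
        rw [norm_mul]
        have h2 : ‖lineDeriv ℝ (a ∘ prj) w ξ‖ ≤ C := by
          have := norm_lineDeriv_le_of_lipschitz ℝ hL (x₀ := w) (v := ξ)
          rwa [hξ, mul_one] at this
        exact mul_le_mul h2 (hBψ w (ball_subset_closedBall hw)) (norm_nonneg _) C.2
    refine h1.congr_fun (fun w hw => ?_) measurableSet_ball
    simp only
    rw [(hev w hw).lineDeriv_eq]
  have j1 := hj 1 _ norm_one hre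
  have j2 := hj Complex.I _ Complex.norm_I him
  rw [e3, e1, e2, ← neg_add, ← integral_add j1 j2, ← integral_neg]
  refine setIntegral_congr_ae measurableSet_ball ?_
  have hae : ∀ᵐ w : ℂ, w ∉ S := measure_eq_zero_iff_ae_notMem.1 hS
  filter_upwards [hae] with w hwS hw
  obtain ⟨L, hL, hLd⟩ := hdiv w hw hwS
  have h1 : lineDeriv ℝ (fun w => (GU w).re) w 1 = (L 1).re := by
    have h2 : HasFDerivAt (fun w => (GU w).re) _ w := (Complex.reCLM.hasFDerivAt (x := GU w)).comp w hL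
    rw [h2.differentiableAt.lineDeriv_eq_fderiv, h2.fderiv]
    simp
  have h2 : lineDeriv ℝ (fun w => (GU w).im) w Complex.I = (L Complex.I).im := by
    have h2 : HasFDerivAt (fun w => (GU w).im) _ w := (Complex.imCLM.hasFDerivAt (x := GU w)).comp w hL
    rw [h2.differentiableAt.lineDeriv_eq_fderiv, h2.fderiv]
    simp
  rw [h1, h2]
  linear_combination -(ψ w) * hLd

/-- **Reduction to the classical formulation on the disc.** -/
theorem neg_of_classical (N : ℕ) (hN0 : 0 < N) (hN : Even N) (ρ : ℝ) (hρ : 0 < ρ) (φ : ℕ → ℝ)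
    (hs : Summable fun k => |φ (k + 1)|) (hq : ∑' k, |φ (k + 1)| ≤ 1 / 3)
    (hφ1 : ∑' k, |φ (k + 2)| < |φ 1|) (c : ℝ) (U : ℂ → ℝ) (GU : ℂ → ℂ) (C : ℝ≥0)
    (hUc : ContinuousOn U (closedBall 0 1)) (hU1 : ∀ w : ℂ, ‖w‖ = 1 → U w = c)
    (hUd : ∀ w ∈ ball (0 : ℂ) 1, HasFDerivAt U (innerSL ℝ (GU w)) w)
    (hne : ∃ w ∈ ball (0 : ℂ) 1, U w ≠ 0)
    (hLip : LipschitzOnWith C GU (closedBall 0 1)) (hG0 : ∀ w : ℂ, ‖w‖ = 1 → GU w = 0)
    (hdiv : ∀ w ∈ ball (0 : ℂ) 1, w ≠ 0 → ∃ L : ℂ →L[ℝ] ℂ, HasFDerivAt GU L w ∧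
      (L 1).re + (L Complex.I).im = - (Complex.normSq (fF' N ρ φ w) * U w)) : Neg := by
  have hGc := hLip.continuousOn
  obtain ⟨BU, hBU⟩ := (isCompact_closedBall (0 : ℂ) 1).exists_bound_of_continuousOn hUc
  obtain ⟨BG, hBG⟩ := (isCompact_closedBall (0 : ℂ) 1).exists_bound_of_continuousOn hGc
  refine neg_of_disc N hN0 hN ρ hρ φ hs hq hφ1 c U GU (hUc.mono ball_subset_closedBall)
    (hGc.mono ball_subset_closedBall) ⟨BU, fun w hw => hBU w (ball_subset_closedBall hw)⟩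
    ⟨BG, fun w hw => hBG w (ball_subset_closedBall hw)⟩ hne ?_ ?_
  · intro ψ hψ v
    exact W1_of N ρ φ hs c U GU hUc hU1 hUd (hGc.mono ball_subset_closedBall)
      ⟨BG, fun w hw => hBG w (ball_subset_closedBall hw)⟩ ψ hψ v
  · intro ψ hψ
    exact W2_of N ρ φ U GU hLip hG0 {0} (by simp)
      (fun w hw hw0 => hdiv w hw (by simpa using hw0)) ψ hψ

end SCHG
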