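import Mathlib

/-!
# [SCH] thin annuli: `(1/t) ∫_{1-t<|w|<1} F → ∫ F(e^{iθ}) dθ`
-/

set_option autoImplicit false

open Metric Set MeasureTheory Filter Topology
open scoped RealInnerProductSpace NNReal ComplexConjugate Real

namespace SCHG

/-- clamp the radius to `[1/2, 1]` -/
noncomputable def clampR (r : ℝ) : ℝ := max (1 / 2) (min 1 r)

theorem clampR_mem (r : ℝ) : clampR r ∈ Icc (1 / 2 : ℝ) 1 :=
  ⟨le_max_left _ _, max_le (by norm_num) (min_le_left _ _)⟩

theorem clampR_of_mem {r : ℝ} (hr : r ∈ Icc (1 / 2 : ℝ) 1) : clampR r = r := by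
  rw [clampR, min_eq_right hr.2, max_eq_right hr.1]

/-- the point of the unit circle -/
noncomputable def uc (θ : ℝ) : ℂ := (Real.cos θ : ℂ) + Real.sin θ * Complex.I

theorem norm_uc (θ : ℝ) : ‖uc θ‖ = 1 := by
  have h : uc θ = Complex.exp (θ * Complex.I) := by
    rw [uc, Complex.exp_mul_I, Complex.ofReal_cos, Complex.ofReal_sin]
  rw [h, Complex.norm_exp_ofReal_mul_I]

theorem continuous_uc : Continuous uc := by
  unfold uc
  fun_prop

theorem annulus_aux {F : ℂ → ℝ} (hF : ContinuousOn F (closedBall 0 1 \ {0})) :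
    Continuous fun p : ℝ × ℝ => F (clampR p.1 * uc p.2) := by
  have hc : Continuous clampR := by unfold clampR; fun_prop
  refine hF.comp_continuous ?_ ?_
  · exact (Complex.continuous_ofReal.comp (hc.comp continuous_fst)).mul
      (continuous_uc.comp continuous_snd)
  · intro p
    have h := clampR_mem p.1
    have h0 : (0 : ℝ) < clampR p.1 := by linarith [h.1]
    have hn : ‖(clampR p.1 : ℂ) * uc p.2‖ = clampR p.1 := by
      rw [norm_mul, norm_uc, mul_one, Complex.norm_real, Real.norm_eq_abs, abs_of_pos h0]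
    refine ⟨mem_closedBall_zero_iff.2 (by rw [hn]; exact h.2), ?_⟩
    intro h1
    rw [mem_singleton_iff] at h1
    rw [h1, norm_zero] at hn
    exact h0.ne hn

theorem annulus_polar {F : ℂ → ℝ} (hF : ContinuousOn F (closedBall 0 1 \ {0})) {t : ℝ}
    (ht : 0 < t) (ht1 : t ≤ 1 / 2) :
    ∫ w in ball (0 : ℂ) 1, indicator {w : ℂ | 1 - t < ‖w‖} F w =
      ∫ r in (1 - t)..1, r * ∫ θ in (-π)..π, F (clampR r * uc θ) := by
  rw [← integral_indicator measurableSet_ball,
    ← Complex.integral_comp_polarCoord_symm]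
  have hmeas : MeasurableSet (Ioo (1 - t) 1 ×ˢ Ioo (-π) π : Set (ℝ × ℝ)) :=
    measurableSet_Ioo.prod measurableSet_Ioo
  have htm : MeasurableSet polarCoord.target := polarCoord.open_target.measurableSet
  have hK : Continuous fun p : ℝ × ℝ => p.1 * F (clampR p.1 * uc p.2) :=
    continuous_fst.mul (annulus_aux hF)
  have h1 : ∫ p in polarCoord.target, p.1 • (ball (0 : ℂ) 1).indicator
      (fun w => indicator {w : ℂ | 1 - t < ‖w‖} F w) (Complex.polarCoord.symm p) =
      ∫ p in Ioo (1 - t) 1 ×ˢ Ioo (-π) π, p.1 * F (clampR p.1 * uc p.2) := by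
    rw [← integral_indicator htm, ← integral_indicator hmeas]
    congr 1
    funext p
    by_cases hp : p ∈ polarCoord.target
    · have hp' : 0 < p.1 ∧ p.2 ∈ Ioo (-π) π := by
        have := hp
        rw [polarCoord_target] at this
        exact this
      rw [indicator_of_mem hp]
      have hn : ‖Complex.polarCoord.symm p‖ = p.1 := by
        rw [Complex.norm_polarCoord_symm, abs_of_pos hp'.1]
      by_cases h2 : p.1 ∈ Ioo (1 - t) 1
      · have h3 : p ∈ Ioo (1 - t) 1 ×ˢ Ioo (-π) π := ⟨h2, hp'.2⟩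
        rw [indicator_of_mem h3, indicator_of_mem (by rw [mem_ball_zero_iff, hn]; exact h2.2),
          indicator_of_mem (by rw [mem_ofPred_eq, hn]; exact h2.1), Complex.polarCoord_symm_apply,
          clampR_of_mem ⟨by linarith [h2.1], h2.2.le⟩, smul_eq_mul, uc]
      · have h3 : p ∉ Ioo (1 - t) 1 ×ˢ Ioo (-π) π := fun h => h2 h.1
        rw [indicator_of_notMem h3]
        by_cases h4 : p.1 < 1
        · rw [indicator_of_mem (by rw [mem_ball_zero_iff, hn]; exact h4),
            indicator_of_notMem, smul_zero]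
          rw [mem_ofPred_eq, hn]
          exact fun h => h2 ⟨h, h4⟩
        · rw [indicator_of_notMem (by rw [mem_ball_zero_iff, hn]; exact h4), smul_zero]
    · rw [indicator_of_notMem hp, indicator_of_notMem]
      intro h3
      refine hp ?_
      rw [polarCoord_target]
      exact ⟨by
        have := h3.1.1
        rw [mem_Ioi]
        linarith, h3.2⟩
  rw [h1, Measure.volume_eq_prod, setIntegral_prod]
  · rw [intervalIntegral.integral_of_le (by linarith), integral_Ioc_eq_integral_Ioo]
    refine setIntegral_congr_fun measurableSet_Ioo fun r _ => ?_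
    simp only
    rw [integral_const_mul, intervalIntegral.integral_of_le (by linarith [Real.pi_pos]),
      integral_Ioc_eq_integral_Ioo]
  · rw [← Measure.volume_eq_prod]
    refine (hK.continuousOn.integrableOn_compact
      ((isCompact_Icc (a := 1 - t) (b := 1)).prod (isCompact_Icc (a := -π) (b := π)))).mono_set ?_
    exact prod_mono Ioo_subset_Icc_self Ioo_subset_Icc_self

theorem annulus_lim {F : ℂ → ℝ} (hF : ContinuousOn F (closedBall 0 1 \ {0})) {t : ℕ → ℝ}
    (ht0 : ∀ n, 0 < t n) (ht1 : ∀ n, t n ≤ 1 / 2) (ht : Tendsto t atTop (𝓝 0)) :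
    Tendsto (fun n => (t n)⁻¹ * ∫ w in ball (0 : ℂ) 1, indicator {w : ℂ | 1 - t n < ‖w‖} F w) atTop
      (𝓝 (∫ θ in (-π)..π, F (uc θ))) := by
  set g : ℝ → ℝ := fun r => r * ∫ θ in (-π)..π, F (clampR r * uc θ) with hg
  have hgc : Continuous g := by
    refine continuous_id.mul ?_
    exact intervalIntegral.continuous_parametric_intervalIntegral_of_continuous'
      (f := fun r θ => F (clampR r * uc θ)) (annulus_aux hF) (-π) π
  have hg1 : g 1 = ∫ θ in (-π)..π, F (uc θ) := by
    rw [hg]
    simp only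
    rw [clampR_of_mem ⟨by norm_num, le_rfl⟩, one_mul]
    simp
  have hd : HasDerivAt (fun u => ∫ r in (0 : ℝ)..u, g r) (g 1) 1 :=
    intervalIntegral.integral_hasDerivAt_right (hgc.intervalIntegrable _ _)
      (hgc.stronglyMeasurableAtFilter _ _) hgc.continuousAt
  rw [hasDerivAt_iff_tendsto_slope, hg1] at hd
  have hx : Tendsto (fun n => 1 - t n) atTop (𝓝[≠] (1 : ℝ)) := by
    refine tendsto_nhdsWithin_iff.2 ⟨?_, Eventually.of_forall fun n => ?_⟩
    · have := ht.const_sub 1
      rwa [sub_zero] at this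
    · have := ht0 n
      intro h
      rw [mem_singleton_iff] at h
      linarith
  refine (hd.comp hx).congr fun n => ?_
  rw [annulus_polar hF (ht0 n) (ht1 n), Function.comp_apply, slope_def_field]
  have h2 : (∫ r in (0 : ℝ)..1, g r) - ∫ r in (0 : ℝ)..(1 - t n), g r = ∫ r in (1 - t n)..1, g r :=
    intervalIntegral.integral_interval_sub_left (hgc.intervalIntegrable _ _)
      (hgc.intervalIntegrable _ _)
  have h3 : (1 - t n) - 1 = - t n := by ring
  rw [h3, ← h2, div_neg, neg_div', neg_sub, div_eq_inv_mul]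

end SCHG
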