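import Pool.Agent.MP_83fd13_an.SCH.Geo12
import Pool.Agent.MP_83fd13_an.SCH.Green1

/-!
# [SCH] the divergence theorem on the disc with the boundary term
-/

set_option autoImplicit false

open Metric Set MeasureTheory Filter Topology
open scoped RealInnerProductSpace NNReal ComplexConjugate Real

namespace SCHG

/-- **The divergence theorem on the disc with the boundary term.** -/
theorem div_boundary (X : ℂ → ℂ) {C : ℝ≥0} (hX : LipschitzOnWith C X (closedBall 0 1))
    (D : ℂ → ℝ)
    (hdiv : ∀ w ∈ ball (0 : ℂ) 1, w ≠ 0 → ∃ L : ℂ →L[ℝ] ℂ, HasFDerivAt X L w ∧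
      (L 1).re + (L Complex.I).im = D w)
    (ψ : ℂ → ℝ) (hψ : TestOK ψ) :
    ∫ w in ball (0 : ℂ) 1, fderiv ℝ ψ w (X w) = - (∫ w in ball (0 : ℂ) 1, D w * ψ w) +
      ∫ θ in (-π)..π, ⟪X (uc θ), uc θ⟫ * ψ (uc θ) := by
  obtain ⟨hψc, hψd, hψf, Cψ, hCψ⟩ := hψ
  have hψL := lip_of_bdd hψc hψd hCψ
  have h0' : (0 : ℂ) ∈ ball (0 : ℂ) 1 := mem_ball_self one_pos
  have hCψ0 : 0 ≤ Cψ := (norm_nonneg _).trans (hCψ 0 h0')
  obtain ⟨BX, hBX⟩ := (isCompact_closedBall (0 : ℂ) 1).exists_bound_of_continuousOn hX.continuousOn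
  have hBX0 : 0 ≤ BX := (norm_nonneg _).trans (hBX 0 (mem_closedBall_self zero_le_one))
  obtain ⟨Bψ, hBψ⟩ := (isCompact_closedBall (0 : ℂ) 1).exists_bound_of_continuousOn hψc
  have hBψ0 : 0 ≤ Bψ := (norm_nonneg _).trans (hBψ 0 (mem_closedBall_self zero_le_one))
  have hre : LipschitzOnWith C (fun w => (X w).re) (closedBall 0 1) := by
    refine LipschitzOnWith.of_dist_le_mul fun x hx y hy => ?_
    refine le_trans ?_ (hX.dist_le_mul x hx y hy)
    rw [dist_eq_norm, dist_eq_norm, Real.norm_eq_abs, ← Complex.sub_re]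
    exact Complex.abs_re_le_norm _
  have him : LipschitzOnWith C (fun w => (X w).im) (closedBall 0 1) := by
    refine LipschitzOnWith.of_dist_le_mul fun x hx y hy => ?_
    refine le_trans ?_ (hX.dist_le_mul x hx y hy)
    rw [dist_eq_norm, dist_eq_norm, Real.norm_eq_abs, ← Complex.sub_im]
    exact Complex.abs_im_le_norm _
  -- the sequence of cut-offs
  set t : ℕ → ℝ := fun n => 1 / ((n : ℝ) + 2) with ht
  have ht0 : ∀ n, 0 < t n := fun n => by simp only [ht]; positivity
  have hgre : ∀ n, LipschitzOnWith (Real.toNNReal (Real.toNNReal (t n)⁻¹ * BX + 1 * C))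
      (fun w => cut (t n) w * (X w).re) (closedBall 0 1) := fun n =>
    lip_mul zero_le_one hBX0 (cut_lip (ht0 n)) hre
      (fun w hw => by
        rw [abs_of_nonneg (cut_nonneg (ht0 n) (mem_closedBall_zero_iff.1 hw))]
        exact cut_le_one _ _)
      (fun w hw => (Complex.abs_re_le_norm _).trans (hBX w hw))
  have hgim : ∀ n, LipschitzOnWith (Real.toNNReal (Real.toNNReal (t n)⁻¹ * BX + 1 * C))
      (fun w => cut (t n) w * (X w).im) (closedBall 0 1) := fun n =>
    lip_mul zero_le_one hBX0 (cut_lip (ht0 n)) him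
      (fun w hw => by
        rw [abs_of_nonneg (cut_nonneg (ht0 n) (mem_closedBall_zero_iff.1 hw))]
        exact cut_le_one _ _)
      (fun w hw => (Complex.abs_im_le_norm _).trans (hBX w hw))
  have e1 := fun n => ibp_disc hψL (hgre n) (fun w hw => by rw [cut_circle _ hw, zero_mul]) 1
  have e2 := fun n => ibp_disc hψL (hgim n) (fun w hw => by rw [cut_circle _ hw, zero_mul])
    Complex.I
  have hψl : ∀ w ∈ ball (0 : ℂ) 1, ∀ ξ : ℂ, lineDeriv ℝ ψ w ξ = fderiv ℝ ψ w ξ := by
    intro w hw ξ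
    exact ((hψd w hw).differentiableAt (isOpen_ball.mem_nhds hw)).lineDeriv_eq_fderiv
  have i1 := fun n => integrableOn_lineDeriv_mul hψL (hgre n).continuousOn (ξ := 1) norm_one
  have i2 := fun n => integrableOn_lineDeriv_mul hψL (hgim n).continuousOn (ξ := Complex.I)
    Complex.norm_I
  have j1 := fun n => integrableOn_lineDeriv_mul (hgre n) hψc (ξ := 1) norm_one
  have j2 := fun n => integrableOn_lineDeriv_mul (hgim n) hψc (ξ := Complex.I) Complex.norm_I
  -- the identities with cut-off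
  have e3 : ∀ n, ∫ w in ball (0 : ℂ) 1, cut (t n) w * fderiv ℝ ψ w (X w) =
      - ∫ w in ball (0 : ℂ) 1, (lineDeriv ℝ (fun w => cut (t n) w * (X w).re) w 1 * ψ w +
        lineDeriv ℝ (fun w => cut (t n) w * (X w).im) w Complex.I * ψ w) := by
    intro n
    rw [integral_add (j1 n) (j2 n), neg_add, ← e1 n, ← e2 n, ← integral_add (i1 n) (i2 n)]
    refine setIntegral_congr_fun measurableSet_ball fun w hw => ?_
    rw [clm_apply, hψl w hw, hψl w hw]
    ring
  -- the good points
  have hgood : ∀ᵐ w : ℂ, w ≠ 0 ∧ ∀ n, ‖w‖ ≠ 1 - t n := by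
    have h1 : ∀ᵐ w : ℂ, w ≠ 0 := by
      have : (volume : Measure ℂ) {0} = 0 := by simp
      exact measure_eq_zero_iff_ae_notMem.1 this
    have h2 : ∀ᵐ w : ℂ, ∀ n, ‖w‖ ≠ 1 - t n := by
      rw [ae_all_iff]
      intro n
      have h3 : (volume : Measure ℂ) (sphere 0 (1 - t n)) = 0 := Measure.addHaar_sphere volume 0 _
      filter_upwards [measure_eq_zero_iff_ae_notMem.1 h3] with w hw h
      exact hw (mem_sphere_zero_iff_norm.2 h)
    filter_upwards [h1, h2] with w hw1 hw2
    exact ⟨hw1, hw2⟩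
  -- the radial component
  set F : ℂ → ℝ := fun w => ‖w‖⁻¹ * ⟪w, X w⟫ with hF
  -- the divergence with cut-off
  have hE : ∀ w ∈ ball (0 : ℂ) 1, w ≠ 0 → ∀ n, ‖w‖ ≠ 1 - t n →
      lineDeriv ℝ (fun w => cut (t n) w * (X w).re) w 1 +
        lineDeriv ℝ (fun w => cut (t n) w * (X w).im) w Complex.I = cut (t n) w * D w -
          (t n)⁻¹ * indicator {w : ℂ | 1 - t n < ‖w‖} F w := by
    intro w hw hw0 n hn
    obtain ⟨L, hL, hLD⟩ := hdiv w hw hw0
    have hr := norm_mem_Ioo hw hw0
    have hXre : HasFDerivAt (fun w => (X w).re) (Complex.reCLM.comp L) w :=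
      (Complex.reCLM.hasFDerivAt (x := X w)).comp w hL
    have hXim : HasFDerivAt (fun w => (X w).im) (Complex.imCLM.comp L) w :=
      (Complex.imCLM.hasFDerivAt (x := X w)).comp w hL
    -- the derivative of the cut-off
    obtain ⟨K, hK, hK2⟩ : ∃ K : ℂ →L[ℝ] ℝ, HasFDerivAt (cut (t n)) K w ∧
        K (X w) = -((t n)⁻¹ * indicator {w : ℂ | 1 - t n < ‖w‖} F w) := by
      rcases lt_or_gt_of_ne hn with h | h
      · refine ⟨0, ?_, ?_⟩
        · refine (hasFDerivAt_const (1 : ℝ) w).congr_of_eventuallyEq ?_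
          have : ∀ᶠ z : ℂ in 𝓝 w, ‖z‖ < 1 - t n :=
            continuous_norm.continuousAt.eventually_lt continuousAt_const h
          filter_upwards [this] with z hz
          exact cut_inner (ht0 n) hz.le
        · rw [indicator_of_notMem (by rw [mem_ofPred_eq]; exact h.not_gt)]
          simp
      · have h1 : HasFDerivAt (fun z : ℂ => (1 - ‖z‖) / t n)
            ((t n)⁻¹ • (-(‖w‖⁻¹ • innerSL ℝ w))) w := by
          have := ((hasFDerivAt_nrm hw0).const_sub 1).const_mul ((t n)⁻¹)
          refine this.congr_of_eventuallyEq (Eventually.of_forall fun z => ?_)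
          simp only [div_eq_inv_mul]
        refine ⟨(t n)⁻¹ • (-(‖w‖⁻¹ • innerSL ℝ w)), ?_, ?_⟩
        · refine h1.congr_of_eventuallyEq ?_
          have : ∀ᶠ z : ℂ in 𝓝 w, 1 - t n < ‖z‖ :=
            continuousAt_const.eventually_lt continuous_norm.continuousAt h
          filter_upwards [this] with z hz
          rw [cut, min_eq_right]
          rw [div_le_one (ht0 n)]
          linarith
        · rw [indicator_of_mem (by rw [mem_ofPred_eq]; exact h)]
          simp only [smul_apply, neg_apply, smul_eq_mul, innerSL_apply_apply, hF]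
          ring
    have g1 : HasFDerivAt (fun w => cut (t n) w * (X w).re) _ w := hK.mul hXre
    have g2 : HasFDerivAt (fun w => cut (t n) w * (X w).im) _ w := hK.mul hXim
    rw [g1.differentiableAt.lineDeriv_eq_fderiv, g1.fderiv,
      g2.differentiableAt.lineDeriv_eq_fderiv, g2.fderiv, ← hLD, sub_eq_add_neg, ← hK2,
      clm_apply K (X w)]
    simp only [add_apply, smul_apply, smul_eq_mul, ContinuousLinearMap.comp_apply,
      Complex.reCLM_apply, Complex.imCLM_apply]
    ring
  have hDb : ∀ w ∈ ball (0 : ℂ) 1, w ≠ 0 → |D w| ≤ 2 * C := by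
    intro w hw hw0
    obtain ⟨L, hL, hLD⟩ := hdiv w hw hw0
    have h1 : ‖L‖ ≤ C := hL.le_of_lipschitzOn (isOpen_ball.mem_nhds hw)
      (hX.mono ball_subset_closedBall)
    rw [← hLD]
    have h2 : ‖L 1‖ ≤ C := by
      refine (L.le_opNorm 1).trans ?_
      rw [norm_one, mul_one]
      exact h1
    have h3 : ‖L Complex.I‖ ≤ C := by
      refine (L.le_opNorm _).trans ?_
      rw [Complex.norm_I, mul_one]
      exact h1
    have h4 := (Complex.abs_re_le_norm (L 1)).trans h2
    have h5 := (Complex.abs_im_le_norm (L Complex.I)).trans h3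
    refine (abs_add_le _ _).trans (by linarith)
  -- eventually inside
  have htend : Tendsto t atTop (𝓝 0) := by
    have h1 : Tendsto (fun n : ℕ => ((n : ℝ) + 2)) atTop atTop :=
      tendsto_atTop_add_const_right _ _ tendsto_natCast_atTop_atTop
    have h2 := h1.inv_tendsto_atTop
    refine h2.congr fun n => ?_
    simp [ht, one_div]
  have hevn : ∀ w ∈ ball (0 : ℂ) 1, ∀ᶠ n in atTop, ‖w‖ < 1 - t n := by
    intro w hw
    have h1 : 0 < 1 - ‖w‖ := by
      have := mem_ball_zero_iff.1 hw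
      linarith
    filter_upwards [htend.eventually_lt_const h1] with n hn
    linarith
  have hfin : IsFiniteMeasure (volume.restrict (ball (0 : ℂ) 1)) :=
    ⟨by rw [Measure.restrict_apply_univ]; exact measure_ball_lt_top⟩
  have hgood' : ∀ᵐ w ∂(volume.restrict (ball (0 : ℂ) 1)), w ≠ 0 ∧ ∀ n, ‖w‖ ≠ 1 - t n :=
    ae_restrict_of_ae hgood
  -- the limits
  have l1 : Tendsto (fun n => ∫ w in ball (0 : ℂ) 1, cut (t n) w * fderiv ℝ ψ w (X w)) atTop
      (𝓝 (∫ w in ball (0 : ℂ) 1, fderiv ℝ ψ w (X w))) := by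
    refine tendsto_integral_of_dominated_convergence (fun _ => Cψ * BX) ?_ (integrable_const _) ?_ ?_
    · intro n
      refine ContinuousOn.aestronglyMeasurable ?_ measurableSet_ball
      exact ((cut_lip (ht0 n)).continuousOn.mono ball_subset_closedBall).mul
        (hψf.clm_apply (hX.continuousOn.mono ball_subset_closedBall))
    · intro n
      filter_upwards [ae_restrict_mem measurableSet_ball] with w hw
      rw [norm_mul, Real.norm_eq_abs, abs_of_nonneg (cut_nonneg (ht0 n) (mem_ball_zero_iff.1 hw).le)]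
      have h1 : ‖fderiv ℝ ψ w (X w)‖ ≤ Cψ * BX :=
        (ContinuousLinearMap.le_opNorm _ _).trans
          (mul_le_mul (hCψ w hw) (hBX w (ball_subset_closedBall hw)) (norm_nonneg _) hCψ0)
      calc cut (t n) w * ‖fderiv ℝ ψ w (X w)‖ ≤ 1 * (Cψ * BX) :=
            mul_le_mul (cut_le_one _ _) h1 (norm_nonneg _) zero_le_one
        _ = _ := one_mul _
    · filter_upwards [ae_restrict_mem measurableSet_ball] with w hw
      refine tendsto_const_nhds.congr' ?_
      filter_upwards [hevn w hw] with n hn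
      rw [cut_inner (ht0 n) hn.le, one_mul]
  -- the boundary term
  have hFψ : ContinuousOn (fun w => F w * ψ w) (closedBall 0 1 \ {0}) := by
    refine ContinuousOn.mul (ContinuousOn.mul ?_ ?_) (hψc.mono sdiff_subset)
    · refine (continuous_norm.continuousOn).inv₀ fun w hw => ?_
      exact norm_ne_zero_iff.2 hw.2
    · exact continuousOn_id.inner (𝕜 := ℝ) (hX.continuousOn.mono sdiff_subset)
  have hthalf : ∀ n, t n ≤ 1 / 2 := by
    intro n
    simp only [ht]
    rw [one_div_le_one_div (by positivity) two_pos]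
    linarith [(Nat.cast_nonneg n : (0 : ℝ) ≤ n)]
  have l4 := annulus_lim hFψ ht0 hthalf htend
  have e5 : ∫ θ in (-π)..π, (fun w => F w * ψ w) (uc θ) =
      ∫ θ in (-π)..π, ⟪X (uc θ), uc θ⟫ * ψ (uc θ) := by
    refine intervalIntegral.integral_congr fun θ _ => ?_
    simp only [hF, norm_uc, inv_one, one_mul]
    rw [real_inner_comm]
  rw [e5] at l4
  have hFb : ∀ w ∈ ball (0 : ℂ) 1, w ≠ 0 → |F w| ≤ BX := by
    intro w hw hw0
    have hr := norm_mem_Ioo hw hw0
    simp only [hF]
    rw [abs_mul, abs_of_pos (inv_pos.2 hr.1), inv_mul_le_iff₀ hr.1]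
    exact (abs_real_inner_le_norm _ _).trans
      (mul_le_mul_of_nonneg_left (hBX w (ball_subset_closedBall hw)) hr.1.le)
  have hind : ∀ n, IntegrableOn (fun w => (t n)⁻¹ * indicator {w : ℂ | 1 - t n < ‖w‖}
      (fun w => F w * ψ w) w) (ball 0 1) := by
    intro n
    have hms : MeasurableSet {w : ℂ | 1 - t n < ‖w‖} :=
      measurableSet_lt measurable_const measurable_norm
    refine IntegrableOn.of_bound measure_ball_lt_top ?_ ((t n)⁻¹ * (BX * Bψ)) ?_
    · refine AEStronglyMeasurable.const_mul ?_ _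
      rw [aestronglyMeasurable_indicator_iff hms, Measure.restrict_restrict hms]
      refine ContinuousOn.aestronglyMeasurable (hFψ.mono ?_) (hms.inter measurableSet_ball)
      rintro w ⟨hw1, hw2⟩
      refine ⟨ball_subset_closedBall hw2, ?_⟩
      rintro rfl
      rw [mem_ofPred_eq, norm_zero] at hw1
      linarith [hthalf n]
    · filter_upwards [ae_restrict_mem measurableSet_ball, hgood'] with w hw hg
      rw [norm_mul, Real.norm_eq_abs, abs_of_pos (inv_pos.2 (ht0 n))]
      refine mul_le_mul_of_nonneg_left ?_ (inv_pos.2 (ht0 n)).le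
      refine (norm_indicator_le_norm_self _ _).trans ?_
      rw [norm_mul]
      exact mul_le_mul (hFb w hw hg.1) (hBψ w (ball_subset_closedBall hw)) (norm_nonneg _) hBX0
  have l2 : Tendsto (fun n => ∫ w in ball (0 : ℂ) 1,
      ((lineDeriv ℝ (fun w => cut (t n) w * (X w).re) w 1 * ψ w +
        lineDeriv ℝ (fun w => cut (t n) w * (X w).im) w Complex.I * ψ w) +
        (t n)⁻¹ * indicator {w : ℂ | 1 - t n < ‖w‖} (fun w => F w * ψ w) w)) atTop
      (𝓝 (∫ w in ball (0 : ℂ) 1, D w * ψ w)) := by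
    have hpt : ∀ n, ∀ w ∈ ball (0 : ℂ) 1, (w ≠ 0 ∧ ∀ n, ‖w‖ ≠ 1 - t n) →
        (lineDeriv ℝ (fun w => cut (t n) w * (X w).re) w 1 * ψ w +
        lineDeriv ℝ (fun w => cut (t n) w * (X w).im) w Complex.I * ψ w) +
        (t n)⁻¹ * indicator {w : ℂ | 1 - t n < ‖w‖} (fun w => F w * ψ w) w =
        cut (t n) w * D w * ψ w := by
      intro n w hw hg
      rw [← add_mul, hE w hw hg.1 n (hg.2 n)]
      by_cases h1 : w ∈ {w : ℂ | 1 - t n < ‖w‖}
      · rw [indicator_of_mem h1, indicator_of_mem h1]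
        ring
      · rw [indicator_of_notMem h1, indicator_of_notMem h1]
        ring
    refine tendsto_integral_of_dominated_convergence (fun _ => (2 * C) * Bψ) ?_
      (integrable_const _) ?_ ?_
    · intro n
      exact (((j1 n).add (j2 n)).add (hind n)).aestronglyMeasurable
    · intro n
      filter_upwards [ae_restrict_mem measurableSet_ball, hgood'] with w hw hg
      rw [hpt n w hw hg, norm_mul, Real.norm_eq_abs]
      refine mul_le_mul ?_ (hBψ w (ball_subset_closedBall hw)) (norm_nonneg _) (by positivity)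
      rw [abs_mul, abs_of_nonneg (cut_nonneg (ht0 n) (mem_ball_zero_iff.1 hw).le)]
      calc cut (t n) w * |D w| ≤ 1 * (2 * C) :=
            mul_le_mul (cut_le_one _ _) (hDb w hw hg.1) (abs_nonneg _) zero_le_one
        _ = _ := one_mul _
    · filter_upwards [ae_restrict_mem measurableSet_ball, hgood'] with w hw hg
      refine tendsto_const_nhds.congr' ?_
      filter_upwards [hevn w hw] with n hn
      rw [hpt n w hw hg, cut_inner (ht0 n) hn.le, one_mul]
  have l3 := (l4.sub l2)
  have e6 : (∫ θ in (-π)..π, ⟪X (uc θ), uc θ⟫ * ψ (uc θ)) - ∫ w in ball (0 : ℂ) 1, D w * ψ w =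
      -(∫ w in ball (0 : ℂ) 1, D w * ψ w) + ∫ θ in (-π)..π, ⟪X (uc θ), uc θ⟫ * ψ (uc θ) := by
    ring
  rw [← e6]
  refine tendsto_nhds_unique l1 (l3.congr fun n => ?_)
  have j12 : IntegrableOn (fun w => lineDeriv ℝ (fun w => cut (t n) w * (X w).re) w 1 * ψ w +
        lineDeriv ℝ (fun w => cut (t n) w * (X w).im) w Complex.I * ψ w) (ball 0 1) :=
    (j1 n).add (j2 n)
  rw [e3 n, integral_add j12 (hind n), integral_const_mul]
  ring

end SCHG
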