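import Pool.Agent.MP_83fd13_an.SCH.Geo14

/-!
# [SCH] the plane wave Green identity on the circle
-/

set_option autoImplicit false

open Metric Set MeasureTheory Filter Topology
open scoped RealInnerProductSpace NNReal ComplexConjugate Real

namespace SCHG

/-- `f'` is Lipschitz on the closed disc -/
theorem lip_fF' {N : ℕ} {ρ : ℝ} {φ : ℕ → ℝ} (hρ : 0 < ρ) (hs : Summable fun k => |φ (k + 1)|)
    (h1 : Summable fun k : ℕ => ((N * (k + 1) : ℕ) : ℝ) * |φ (k + 1)|) :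
    LipschitzOnWith (Real.toNNReal (ρ * ∑' k : ℕ, ((N * (k + 1) : ℕ) : ℝ) * |φ (k + 1)|))
      (fF' N ρ φ) (closedBall 0 1) := by
  have h0 : 0 ≤ ρ * ∑' k : ℕ, ((N * (k + 1) : ℕ) : ℝ) * |φ (k + 1)| :=
    mul_nonneg hρ.le (tsum_nonneg fun k => by positivity)
  refine LipschitzOnWith.of_dist_le_mul fun z hz w hw => ?_
  rw [mem_closedBall_zero_iff] at hz hw
  rw [Real.coe_toNNReal _ h0, dist_eq_norm, dist_eq_norm]
  have hsz : ∀ w : ℂ, ‖w‖ ≤ 1 → Summable fun k : ℕ => (φ (k + 1) : ℂ) * w ^ (N * (k + 1)) := by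
    intro w hw
    refine Summable.of_norm_bounded hs fun k => ?_
    rw [norm_mul, Complex.norm_real, norm_pow, Real.norm_eq_abs]
    exact mul_le_of_le_one_right (abs_nonneg _) (pow_le_one₀ (norm_nonneg _) hw)
  have e : fF' N ρ φ z - fF' N ρ φ w = ρ * ∑' k : ℕ, ((φ (k + 1) : ℂ) * z ^ (N * (k + 1)) -
      (φ (k + 1) : ℂ) * w ^ (N * (k + 1))) := by
    rw [(hsz z hz).tsum_sub (hsz w hw), fF', fF']
    ring
  rw [e, norm_mul, Complex.norm_real, Real.norm_eq_abs, abs_of_pos hρ, mul_assoc ρ]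
  refine mul_le_mul_of_nonneg_left ?_ hρ.le
  rw [← tsum_mul_right]
  refine tsum_of_norm_bounded (h1.mul_right _).hasSum fun k => ?_
  rw [← mul_sub, norm_mul, Complex.norm_real, Real.norm_eq_abs]
  have h2 := norm_pow_sub_pow_le (N * (k + 1)) z w hz hw
  calc |φ (k + 1)| * ‖z ^ (N * (k + 1)) - w ^ (N * (k + 1))‖ ≤
        |φ (k + 1)| * (((N * (k + 1) : ℕ) : ℝ) * ‖z - w‖) :=
        mul_le_mul_of_nonneg_left h2 (abs_nonneg _)
    _ = _ := by ring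

section wave

variable {N : ℕ} {ρ : ℝ} {φ : ℕ → ℝ} (hρ : 0 < ρ) (hs : Summable fun k => |φ (k + 1)|)
  (s : ℂ) (τ : ℝ)

/-- the phase -/
noncomputable def wg (N : ℕ) (ρ : ℝ) (φ : ℕ → ℝ) (s : ℂ) (τ : ℝ) (w : ℂ) : ℝ :=
  (s * fF N ρ φ w).im + τ

/-- the gradient of `cos (Im (s f) + τ)` -/
noncomputable def wX (N : ℕ) (ρ : ℝ) (φ : ℕ → ℝ) (s : ℂ) (τ : ℝ) (w : ℂ) : ℂ :=
  ((- Real.sin (wg N ρ φ s τ w) : ℝ) : ℂ) * (Complex.I * conj (s * fF' N ρ φ w))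

include hs in
theorem hasFDerivAt_wg {w : ℂ} (hw : w ∈ ball (0 : ℂ) 1) :
    HasFDerivAt (wg N ρ φ s τ) (innerSL ℝ (Complex.I * conj (s * fF' N ρ φ w))) w := by
  have h1 := (hasDerivAt_fF N ρ φ hs w (mem_ball_zero_iff.1 hw)).const_mul s
  have h2 := (Complex.imCLM.hasFDerivAt (x := s * fF N ρ φ w)).comp w
    h1.complexToReal_fderiv
  refine (h2.add_const τ).congr_fderiv ?_
  ext ξ
  simp [Complex.inner]
  ring

/-- the derivative of the gradient -/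
noncomputable def wL (N : ℕ) (ρ : ℝ) (φ : ℕ → ℝ) (s : ℂ) (τ : ℝ) (f₂ : ℂ) (w : ℂ) : ℂ →L[ℝ] ℂ :=
  ((- Real.sin (wg N ρ φ s τ w) : ℝ) : ℂ) • (Complex.I • (Complex.conjCLE : ℂ →L[ℝ] ℂ).comp
    ((s * f₂) • (1 : ℂ →L[ℝ] ℂ))) +
  (Complex.I * conj (s * fF' N ρ φ w)) • (Complex.ofRealCLM.comp
    ((- Real.cos (wg N ρ φ s τ w)) • innerSL ℝ (Complex.I * conj (s * fF' N ρ φ w))))

theorem wL_apply (f₂ w ξ : ℂ) : wL N ρ φ s τ f₂ w ξ =
    ((- Real.sin (wg N ρ φ s τ w) : ℝ) : ℂ) * (Complex.I * conj (s * f₂ * ξ)) +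
    (Complex.I * conj (s * fF' N ρ φ w)) *
      ((- Real.cos (wg N ρ φ s τ w) * ⟪Complex.I * conj (s * fF' N ρ φ w), ξ⟫ : ℝ) : ℂ) := by
  simp [wL]

include hs in
theorem hasFDerivAt_wX {w f₂ : ℂ} (hw : w ∈ ball (0 : ℂ) 1)
    (hf₂ : HasDerivAt (fF' N ρ φ) f₂ w) :
    HasFDerivAt (wX N ρ φ s τ) (wL N ρ φ s τ f₂ w) w := by
  have h1 := hasFDerivAt_wg (N := N) (ρ := ρ) hs s τ hw
  have h2 : HasFDerivAt (fun w => - Real.sin (wg N ρ φ s τ w))
      ((- Real.cos (wg N ρ φ s τ w)) • innerSL ℝ (Complex.I * conj (s * fF' N ρ φ w))) w := by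
    refine h1.sin.neg.congr_fderiv ?_
    rw [neg_smul]
  have h3 : HasFDerivAt (fun w => ((- Real.sin (wg N ρ φ s τ w) : ℝ) : ℂ))
      (Complex.ofRealCLM.comp ((- Real.cos (wg N ρ φ s τ w)) •
        innerSL ℝ (Complex.I * conj (s * fF' N ρ φ w)))) w :=
    (Complex.ofRealCLM.hasFDerivAt (x := - Real.sin (wg N ρ φ s τ w))).comp w h2
  have h4 : HasFDerivAt (fun w => conj (s * fF' N ρ φ w))
      ((Complex.conjCLE : ℂ →L[ℝ] ℂ).comp ((s * f₂) • (1 : ℂ →L[ℝ] ℂ))) w :=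
    ((Complex.conjCLE : ℂ →L[ℝ] ℂ).hasFDerivAt (x := s * fF' N ρ φ w)).comp w
      (hf₂.const_mul s).complexToReal_fderiv
  have h5 := h4.const_mul Complex.I
  exact h3.mul h5

theorem div_wL (hsn : ‖s‖ = 1) (f₂ w : ℂ) :
    (wL N ρ φ s τ f₂ w 1).re + (wL N ρ φ s τ f₂ w Complex.I).im =
      - (Complex.normSq (fF' N ρ φ w) * Real.cos (wg N ρ φ s τ w)) := by
  have h1 : Complex.normSq (s * fF' N ρ φ w) = Complex.normSq (fF' N ρ φ w) := by
    rw [Complex.normSq_mul, Complex.normSq_eq_norm_sq s, hsn]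
    ring
  rw [← h1, wL_apply, wL_apply, Complex.inner, Complex.inner, Complex.normSq_apply]
  simp only [map_mul, Complex.conj_I, Complex.conj_conj, Complex.add_re, Complex.add_im,
    Complex.mul_re, Complex.mul_im, Complex.ofReal_re, Complex.ofReal_im, Complex.I_re,
    Complex.I_im, Complex.conj_re, Complex.conj_im, Complex.one_re, Complex.one_im, map_one,
    Complex.neg_re, Complex.neg_im]
  ring

theorem norm_wL_le (hsn : ‖s‖ = 1) (f₂ w : ℂ) :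
    ‖wL N ρ φ s τ f₂ w‖ ≤ ‖f₂‖ + ‖fF' N ρ φ w‖ ^ 2 := by
  refine ContinuousLinearMap.opNorm_le_bound _ (by positivity) fun ξ => ?_
  rw [wL_apply]
  refine (norm_add_le _ _).trans ?_
  have h1 := Real.abs_sin_le_one (wg N ρ φ s τ w)
  have h2 := Real.abs_cos_le_one (wg N ρ φ s τ w)
  have h3 : ‖Complex.I * conj (s * fF' N ρ φ w)‖ = ‖fF' N ρ φ w‖ := by
    rw [norm_mul, Complex.norm_I, one_mul, RCLike.norm_conj, norm_mul, hsn, one_mul]
  have h4 : |⟪Complex.I * conj (s * fF' N ρ φ w), ξ⟫| ≤ ‖fF' N ρ φ w‖ * ‖ξ‖ := by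
    refine (abs_real_inner_le_norm _ _).trans ?_
    rw [h3]
  have h5 : ‖((- Real.sin (wg N ρ φ s τ w) : ℝ) : ℂ) * (Complex.I * conj (s * f₂ * ξ))‖ ≤
      ‖f₂‖ * ‖ξ‖ := by
    rw [norm_mul, Complex.norm_real, Real.norm_eq_abs, abs_neg, norm_mul, Complex.norm_I, one_mul,
      RCLike.norm_conj, norm_mul, norm_mul, hsn, one_mul]
    exact mul_le_of_le_one_left (by positivity) h1
  have h6 : ‖(Complex.I * conj (s * fF' N ρ φ w)) *
      ((- Real.cos (wg N ρ φ s τ w) * ⟪Complex.I * conj (s * fF' N ρ φ w), ξ⟫ : ℝ) : ℂ)‖ ≤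
      ‖fF' N ρ φ w‖ ^ 2 * ‖ξ‖ := by
    rw [norm_mul, h3, Complex.norm_real, Real.norm_eq_abs, abs_mul, abs_neg]
    calc ‖fF' N ρ φ w‖ * (|Real.cos (wg N ρ φ s τ w)| *
          |⟪Complex.I * conj (s * fF' N ρ φ w), ξ⟫|) ≤
          ‖fF' N ρ φ w‖ * (1 * (‖fF' N ρ φ w‖ * ‖ξ‖)) :=
          mul_le_mul_of_nonneg_left (mul_le_mul h2 h4 (abs_nonneg _) zero_le_one) (norm_nonneg _)
      _ = _ := by ring
  linarith

end wave

/-- the weak derivative of the wave -/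
theorem hasFDerivAt_wave {N : ℕ} {ρ : ℝ} {φ : ℕ → ℝ} (hs : Summable fun k => |φ (k + 1)|)
    (s : ℂ) (τ : ℝ) {w : ℂ} (hw : w ∈ ball (0 : ℂ) 1) :
    HasFDerivAt (fun w => Real.cos (wg N ρ φ s τ w)) (innerSL ℝ (wX N ρ φ s τ w)) w := by
  refine (hasFDerivAt_wg hs s τ hw).cos.congr_fderiv ?_
  rw [wX, ← smul_eq_ofReal_mul, map_smul]

section FP

variable {N : ℕ} {ρ : ℝ} {φ : ℕ → ℝ} {u u' u'' : ℕ → ℝ → ℝ} {B : ℕ → ℝ}
  (H : FP N ρ φ u u' u'' B)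
include H

theorem FP.testOK_U : TestOK (UU N (aa u)) := by
  obtain ⟨BG, hBG⟩ := (isCompact_closedBall (0 : ℂ) 1).exists_bound_of_continuousOn
    H.modes.lip_GG.continuousOn
  refine ⟨H.continuousOn_U, fun w hw => (H.hasFDerivAt_U hw).differentiableAt.differentiableWithinAt,
    ?_, BG, fun w hw => ?_⟩
  · refine ContinuousOn.congr (f := fun w => innerSL ℝ (GG N (aa u) (aa u') w)) ?_
      fun w hw => (H.hasFDerivAt_U hw).fderiv
    exact (innerSL ℝ (E := ℂ)).continuous.comp_continuousOn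
      (H.modes.lip_GG.continuousOn.mono ball_subset_closedBall)
  · rw [(H.hasFDerivAt_U hw).fderiv, innerSL_apply_norm]
    exact hBG w (ball_subset_closedBall hw)

/-- `f` is continuous on the closed disc -/
theorem FP.continuousOn_f : ContinuousOn (fF N ρ φ) (closedBall 0 1) := by
  have hs1 : Summable fun k => |φ (k + 1)| := (summable_nat_add_iff 1).2 H.φs
  have hnear := near_fF N ρ φ hs1 H.ρ0 _ le_rfl
  refine (LipschitzOnWith.of_dist_le_mul (K := Real.toNNReal ((∑' k, |φ (k + 1)|) * ρ + ρ))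
    fun z hz w hw => ?_).continuousOn
  have h0 : 0 ≤ (∑' k, |φ (k + 1)|) * ρ + ρ :=
    add_nonneg (mul_nonneg (tsum_nonneg fun _ => abs_nonneg _) H.ρ0.le) H.ρ0.le
  rw [Real.coe_toNNReal _ h0, dist_eq_norm, dist_eq_norm]
  have h1 := hnear z hz w hw
  have h2 : fF N ρ φ z - fF N ρ φ w = ((fF N ρ φ z - fF N ρ φ w) - ρ * (z - w)) + ρ * (z - w) := by
    ring
  rw [h2]
  refine (norm_add_le _ _).trans ?_
  rw [norm_mul (ρ : ℂ), Complex.norm_real, Real.norm_eq_abs, abs_of_pos H.ρ0]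
  linarith

end FP

end SCHG
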