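import Pool.Agent.MP_83fd13_an.SCH.Geo7
import Pool.Agent.MP_83fd13_an.SCH.Green2
import Pool.Agent.MP_83fd13_an.SCH.Green3

/-!
# [SCH] the divergence theorem with boundary term for fields which are `C¹` inside and continuous
up to the circle; the plane wave identity without any condition on `∑ k |φ_k|`
-/

set_option autoImplicit false

open Metric Set MeasureTheory Filter Topology
open scoped RealInnerProductSpace NNReal ComplexConjugate Real

namespace SCHG

/-- radii tending to `1` -/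
noncomputable def rad (n : ℕ) : ℝ := 1 - 1 / ((n : ℝ) + 2)

theorem rad_mem (n : ℕ) : rad n ∈ Ioo (0 : ℝ) 1 := by
  have h0 : (0 : ℝ) ≤ n := Nat.cast_nonneg n
  have h1 : 1 / ((n : ℝ) + 2) < 1 := by
    rw [div_lt_one (by positivity)]
    linarith
  have h2 : 0 < 1 / ((n : ℝ) + 2) := by positivity
  exact ⟨by rw [rad]; linarith, by rw [rad]; linarith⟩

theorem tendsto_rad : Tendsto rad atTop (𝓝 1) := by
  have h1 : Tendsto (fun n : ℕ => ((n : ℝ) + 2)) atTop atTop :=
    tendsto_atTop_add_const_right _ _ tendsto_natCast_atTop_atTop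
  have h2 := h1.inv_tendsto_atTop.const_sub 1
  rw [sub_zero] at h2
  refine h2.congr fun n => ?_
  simp [rad, one_div]

theorem smul_mem_ball {R : ℝ} (hR : R ∈ Ioo (0 : ℝ) 1) {w : ℂ} (hw : w ∈ closedBall (0 : ℂ) 1) :
    (R : ℂ) * w ∈ ball (0 : ℂ) 1 := by
  rw [mem_closedBall_zero_iff] at hw
  rw [mem_ball_zero_iff, norm_mul, Complex.norm_real, Real.norm_eq_abs, abs_of_pos hR.1]
  nlinarith [hR.1, hR.2, norm_nonneg w]

/-- integrals over the disc: `∫ F(R w) → ∫ F(w)` -/
theorem lim_ball {F : ℂ → ℝ} (hF : ContinuousOn F (ball 0 1)) {C : ℝ}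
    (hC : ∀ w ∈ ball (0 : ℂ) 1, |F w| ≤ C) :
    Tendsto (fun n => ∫ w in ball (0 : ℂ) 1, F (rad n * w)) atTop
      (𝓝 (∫ w in ball (0 : ℂ) 1, F w)) := by
  have hfin : IsFiniteMeasure (volume.restrict (ball (0 : ℂ) 1)) :=
    ⟨by rw [Measure.restrict_apply_univ]; exact measure_ball_lt_top⟩
  refine tendsto_integral_of_dominated_convergence (fun _ => C) ?_ (integrable_const _) ?_ ?_
  · intro n
    refine ContinuousOn.aestronglyMeasurable ?_ measurableSet_ball
    refine hF.comp (by fun_prop) fun w hw => ?_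
    exact smul_mem_ball (rad_mem n) (ball_subset_closedBall hw)
  · intro n
    filter_upwards [ae_restrict_mem measurableSet_ball] with w hw
    exact hC _ (smul_mem_ball (rad_mem n) (ball_subset_closedBall hw))
  · filter_upwards [ae_restrict_mem measurableSet_ball] with w hw
    have h1 : Tendsto (fun n => (rad n : ℂ) * w) atTop (𝓝 w) := by
      have h2 : Tendsto (fun n => (rad n : ℂ) * w) atTop (𝓝 (((1 : ℝ) : ℂ) * w)) :=
        ((Complex.continuous_ofReal.tendsto 1).comp tendsto_rad).mul_const w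
      rwa [Complex.ofReal_one, one_mul] at h2
    exact (hF.continuousAt (isOpen_ball.mem_nhds hw)).tendsto.comp h1

/-- integrals over the circle -/
theorem lim_circle {F : ℂ → ℝ} (hF : ContinuousOn F (closedBall 0 1)) :
    Tendsto (fun n => ∫ θ in (-π)..π, F (rad n * uc θ)) atTop (𝓝 (∫ θ in (-π)..π, F (uc θ))) := by
  obtain ⟨C, hC⟩ := (isCompact_closedBall (0 : ℂ) 1).exists_bound_of_continuousOn hF
  have huc : ∀ θ, uc θ ∈ closedBall (0 : ℂ) 1 := fun θ =>
    mem_closedBall_zero_iff.2 (norm_uc θ).le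
  refine intervalIntegral.tendsto_integral_filter_of_dominated_convergence (fun _ => C) ?_ ?_ ?_ ?_
  · refine Eventually.of_forall fun n => ?_
    refine Continuous.aestronglyMeasurable ?_
    refine hF.comp_continuous (continuous_const.mul continuous_uc) fun θ => ?_
    exact ball_subset_closedBall (smul_mem_ball (rad_mem n) (huc θ))
  · refine Eventually.of_forall fun n => ae_of_all _ fun θ _ => ?_
    exact hC _ (ball_subset_closedBall (smul_mem_ball (rad_mem n) (huc θ)))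
  · exact intervalIntegrable_const
  · refine ae_of_all _ fun θ _ => ?_
    have h1 : Tendsto (fun n => (rad n : ℂ) * uc θ) atTop (𝓝 (uc θ)) := by
      have h2 : Tendsto (fun n => (rad n : ℂ) * uc θ) atTop (𝓝 (((1 : ℝ) : ℂ) * uc θ)) :=
        ((Complex.continuous_ofReal.tendsto 1).comp tendsto_rad).mul_const (uc θ)
      rwa [Complex.ofReal_one, one_mul] at h2
    have h3 : Tendsto (fun n => (rad n : ℂ) * uc θ) atTop (𝓝[closedBall 0 1] (uc θ)) :=
      tendsto_nhdsWithin_iff.2 ⟨h1, Eventually.of_forall fun n =>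
        ball_subset_closedBall (smul_mem_ball (rad_mem n) (huc θ))⟩
    exact (hF (uc θ) (huc θ)).tendsto.comp h3

/-- **The divergence theorem, `C¹` inside and continuous up to the circle.** -/
theorem div_boundary' (X : ℂ → ℂ) (hXc : ContinuousOn X (closedBall 0 1))
    (L : ℂ → ℂ →L[ℝ] ℂ) (hL : ∀ w ∈ ball (0 : ℂ) 1, HasFDerivAt X (L w) w)
    (hLc : ContinuousOn L (ball 0 1)) (D : ℂ → ℝ)
    (hD : ∀ w ∈ ball (0 : ℂ) 1, (L w 1).re + (L w Complex.I).im = D w)
    (hDc : ContinuousOn D (closedBall 0 1)) (ψ : ℂ → ℝ) (hψ : TestOK ψ) :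
    ∫ w in ball (0 : ℂ) 1, fderiv ℝ ψ w (X w) = - (∫ w in ball (0 : ℂ) 1, D w * ψ w) +
      ∫ θ in (-π)..π, ⟪X (uc θ), uc θ⟫ * ψ (uc θ) := by
  have hψ' := hψ
  obtain ⟨hψc, hψd, hψf, Cψ, hCψ⟩ := hψ'
  obtain ⟨BX, hBX⟩ := (isCompact_closedBall (0 : ℂ) 1).exists_bound_of_continuousOn hXc
  obtain ⟨Bψ, hBψ⟩ := (isCompact_closedBall (0 : ℂ) 1).exists_bound_of_continuousOn hψc
  obtain ⟨BD, hBD⟩ := (isCompact_closedBall (0 : ℂ) 1).exists_bound_of_continuousOn hDc
  have h0 : (0 : ℂ) ∈ closedBall (0 : ℂ) 1 := mem_closedBall_self zero_le_one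
  have hCψ0 : 0 ≤ Cψ := (norm_nonneg _).trans (hCψ 0 (mem_ball_self one_pos))
  have hBX0 : 0 ≤ BX := (norm_nonneg _).trans (hBX 0 h0)
  have hBD0 : 0 ≤ BD := (norm_nonneg _).trans (hBD 0 h0)
  have hBψ0 : 0 ≤ Bψ := (norm_nonneg _).trans (hBψ 0 h0)
  -- the identity on the disc of radius `R`
  have key : ∀ n : ℕ, rad n * ∫ w in ball (0 : ℂ) 1,
      (fun w => fderiv ℝ ψ w (X w)) (rad n * w) =
      - (rad n * ∫ w in ball (0 : ℂ) 1, (fun w => D w * ψ w) (rad n * w)) +
      ∫ θ in (-π)..π, ⟪X (rad n * uc θ), uc θ⟫ * ψ (rad n * uc θ) := by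
    intro n
    have hR := rad_mem n
    set R := rad n with hRdef
    have hm : ∀ w : ℂ, HasFDerivAt (fun w : ℂ => (R : ℂ) * w) ((R : ℂ) • (1 : ℂ →L[ℝ] ℂ)) w := by
      intro w
      exact (((1 : ℂ →L[ℝ] ℂ).hasFDerivAt (x := w))).const_mul (R : ℂ)
    have hballR : ∀ w ∈ ball (0 : ℂ) 1, (R : ℂ) * w ∈ ball (0 : ℂ) 1 := fun w hw =>
      smul_mem_ball hR (ball_subset_closedBall hw)
    have hXd : ∀ w ∈ ball (0 : ℂ) 1, HasFDerivAt (fun w => X (R * w))
        ((L (R * w)).comp ((R : ℂ) • (1 : ℂ →L[ℝ] ℂ))) w := fun w hw =>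
      (hL _ (hballR w hw)).comp w (hm w)
    have hcl : ContinuousOn (fun w : ℂ => L (R * w)) (closedBall 0 1) :=
      hLc.comp (by fun_prop) fun w hw => smul_mem_ball hR hw
    obtain ⟨BL, hBL⟩ := (isCompact_closedBall (0 : ℂ) 1).exists_bound_of_continuousOn hcl
    have hBL0 : 0 ≤ BL := (norm_nonneg _).trans (hBL 0 h0)
    have hn1 : ‖(R : ℂ) • (1 : ℂ →L[ℝ] ℂ)‖ ≤ 1 := by
      refine (norm_smul_le (R : ℂ) (1 : ℂ →L[ℝ] ℂ)).trans ?_
      have h1 : ‖(1 : ℂ →L[ℝ] ℂ)‖ ≤ 1 := ContinuousLinearMap.norm_id_le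
      rw [Complex.norm_real, Real.norm_eq_abs, abs_of_pos hR.1]
      nlinarith [hR.1, hR.2, norm_nonneg (1 : ℂ →L[ℝ] ℂ)]
    have hXlip : LipschitzOnWith (Real.toNNReal BL) (fun w : ℂ => X (R * w)) (closedBall 0 1) := by
      refine lip_punctured hBL0 ?_ (fun w hw _ => hXd w hw) fun w hw _ => ?_
      · exact hXc.comp (by fun_prop) fun w hw => ball_subset_closedBall (smul_mem_ball hR hw)
      · refine (ContinuousLinearMap.opNorm_comp_le _ _).trans ?_
        have h1 := hBL w (ball_subset_closedBall hw)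
        calc ‖L (R * w)‖ * ‖(R : ℂ) • (1 : ℂ →L[ℝ] ℂ)‖ ≤ BL * 1 :=
              mul_le_mul h1 hn1 (norm_nonneg _) hBL0
          _ = BL := mul_one _
    have hψR : ∀ w ∈ ball (0 : ℂ) 1, HasFDerivAt (fun w : ℂ => ψ (R * w))
        ((fderiv ℝ ψ (R * w)).comp ((R : ℂ) • (1 : ℂ →L[ℝ] ℂ))) w := fun w hw =>
      (((hψd _ (hballR w hw)).differentiableAt
        (isOpen_ball.mem_nhds (hballR w hw))).hasFDerivAt).comp w (hm w)
    have hT : TestOK (fun w : ℂ => ψ (R * w)) := by
      refine ⟨hψc.comp (by fun_prop) fun w hw => ball_subset_closedBall (smul_mem_ball hR hw),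
        fun w hw => (hψR w hw).differentiableAt.differentiableWithinAt, ?_, Cψ, fun w hw => ?_⟩
      · refine ContinuousOn.congr (f := fun w : ℂ => (fderiv ℝ ψ (R * w)).comp
          ((R : ℂ) • (1 : ℂ →L[ℝ] ℂ))) ?_ fun w hw => (hψR w hw).fderiv
        exact (hψf.comp (by fun_prop) hballR).clm_comp continuousOn_const
      · rw [(hψR w hw).fderiv]
        refine (ContinuousLinearMap.opNorm_comp_le _ _).trans ?_
        calc ‖fderiv ℝ ψ (R * w)‖ * ‖(R : ℂ) • (1 : ℂ →L[ℝ] ℂ)‖ ≤ Cψ * 1 :=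
              mul_le_mul (hCψ _ (hballR w hw)) hn1 (norm_nonneg _) hCψ0
          _ = Cψ := mul_one _
    have hR1 : ∀ (K : ℂ →L[ℝ] ℂ) (ξ : ℂ), K (R * ξ) = R * K ξ := by
      intro K ξ
      rw [← smul_eq_ofReal_mul, map_smul, smul_eq_ofReal_mul]
    have hdb := div_boundary (fun w => X (R * w)) hXlip (fun w => R * D (R * w)) ?_ _ hT
    · rw [← integral_const_mul, ← integral_const_mul]
      have e1 : ∫ w in ball (0 : ℂ) 1, fderiv ℝ (fun w : ℂ => ψ (R * w)) w (X (R * w)) =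
          ∫ w in ball (0 : ℂ) 1, R * (fun w => fderiv ℝ ψ w (X w)) (R * w) := by
        refine setIntegral_congr_fun measurableSet_ball fun w hw => ?_
        simp only
        rw [(hψR w hw).fderiv]
        have h1 : ((fderiv ℝ ψ (R * w)).comp ((R : ℂ) • (1 : ℂ →L[ℝ] ℂ))) (X (R * w)) =
            fderiv ℝ ψ (R * w) (R • X (R * w)) := rfl
        rw [h1, map_smul, smul_eq_mul]
      rw [← e1, hdb]
      congr 2
      refine integral_congr_ae (Eventually.of_forall fun w => ?_)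
      simp only
      ring
    · intro w hw _
      refine ⟨_, hXd w hw, ?_⟩
      have h1 : ∀ ξ : ℂ, ((L (R * w)).comp ((R : ℂ) • (1 : ℂ →L[ℝ] ℂ))) ξ =
          (R : ℂ) * L (R * w) ξ := fun ξ => hR1 (L (R * w)) ξ
      rw [h1, h1, ← hD _ (hballR w hw), Complex.re_ofReal_mul, Complex.im_ofReal_mul]
      ring
  -- the limits
  have hXψ : ContinuousOn (fun w => fderiv ℝ ψ w (X w)) (ball 0 1) :=
    hψf.clm_apply (hXc.mono ball_subset_closedBall)
  have l1 := lim_ball hXψ (C := Cψ * BX) fun w hw => by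
    have h1 : ‖fderiv ℝ ψ w (X w)‖ ≤ Cψ * BX :=
      (ContinuousLinearMap.le_opNorm _ _).trans
        (mul_le_mul (hCψ w hw) (hBX w (ball_subset_closedBall hw)) (norm_nonneg _) hCψ0)
    exact h1
  have l2 := lim_ball (F := fun w => D w * ψ w)
    ((hDc.mul hψc).mono ball_subset_closedBall) (C := BD * Bψ) fun w hw => by
    rw [abs_mul]
    exact mul_le_mul (hBD w (ball_subset_closedBall hw)) (hBψ w (ball_subset_closedBall hw))
      (abs_nonneg _) hBD0
  have l3 : Tendsto (fun n => ∫ θ in (-π)..π, ⟪X (rad n * uc θ), uc θ⟫ * ψ (rad n * uc θ)) atTop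
      (𝓝 (∫ θ in (-π)..π, ⟪X (uc θ), uc θ⟫ * ψ (uc θ))) := by
    have h1 := lim_circle (F := fun w => ⟪X w, w⟫ * ψ w)
      ((hXc.inner (𝕜 := ℝ) continuousOn_id).mul hψc)
    have h2 : ∀ n, ∫ θ in (-π)..π, (fun w => ⟪X w, w⟫ * ψ w) (rad n * uc θ) =
        rad n * ∫ θ in (-π)..π, ⟪X (rad n * uc θ), uc θ⟫ * ψ (rad n * uc θ) := by
      intro n
      rw [← intervalIntegral.integral_const_mul]
      refine intervalIntegral.integral_congr fun θ _ => ?_
      simp only
      rw [← smul_eq_ofReal_mul, real_inner_smul_right]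
      ring
    have h3 := (tendsto_rad.inv₀ one_ne_zero).mul h1
    rw [inv_one, one_mul] at h3
    refine h3.congr fun n => ?_
    rw [h2, inv_mul_cancel_left₀ (rad_mem n).1.ne']
  have l4 := tendsto_rad.mul l1
  have l5 := ((tendsto_rad.mul l2).neg).add l3
  rw [one_mul] at l4 l5
  exact tendsto_nhds_unique l4 (l5.congr fun n => (key n).symm)

/-! continuity of the derivative of the gradient of the wave -/

theorem cont1 : Continuous fun c : ℂ => (Complex.conjCLE : ℂ →L[ℝ] ℂ).comp (c • (1 : ℂ →L[ℝ] ℂ)) := by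
  have h : Continuous fun c : ℂ => c • (1 : ℂ →L[ℝ] ℂ) := continuous_id.smul continuous_const
  exact continuous_const.clm_comp h

theorem cont2 : Continuous fun p : ℝ × ℂ => Complex.ofRealCLM.comp (p.1 • innerSL ℝ p.2) := by
  have h : Continuous fun p : ℝ × ℂ => p.1 • innerSL ℝ p.2 :=
    continuous_fst.smul ((innerSL ℝ (E := ℂ)).continuous.comp continuous_snd)
  exact continuous_const.clm_comp h

theorem cont3 : Continuous fun p : (ℂ × ℂ) × (ℝ × ℂ) =>
    p.1.1 • (Complex.I • (Complex.conjCLE : ℂ →L[ℝ] ℂ).comp (p.1.2 • (1 : ℂ →L[ℝ] ℂ))) +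
    p.2.2 • (Complex.ofRealCLM.comp (p.2.1 • innerSL ℝ p.2.2)) := by
  have h1 : Continuous fun p : (ℂ × ℂ) × (ℝ × ℂ) =>
      Complex.I • (Complex.conjCLE : ℂ →L[ℝ] ℂ).comp (p.1.2 • (1 : ℂ →L[ℝ] ℂ)) :=
    (cont1.comp (continuous_snd.comp continuous_fst)).const_smul Complex.I
  have h2 : Continuous fun p : (ℂ × ℂ) × (ℝ × ℂ) =>
      Complex.ofRealCLM.comp (p.2.1 • innerSL ℝ p.2.2) := cont2.comp continuous_snd
  have h3 : Continuous fun p : (ℂ × ℂ) × (ℝ × ℂ) => p.1.1 := continuous_fst.comp continuous_fst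
  have h4 : Continuous fun p : (ℂ × ℂ) × (ℝ × ℂ) => p.2.2 := continuous_snd.comp continuous_snd
  exact (h3.smul h1).add (h4.smul h2)

/-- the map of `cont3` -/
noncomputable def wM (a b : ℂ) (c : ℝ) (d : ℂ) : ℂ →L[ℝ] ℂ :=
  a • (Complex.I • (Complex.conjCLE : ℂ →L[ℝ] ℂ).comp (b • (1 : ℂ →L[ℝ] ℂ))) +
    d • (Complex.ofRealCLM.comp (c • innerSL ℝ d))

theorem wL_eq_wM (N : ℕ) (ρ : ℝ) (φ : ℕ → ℝ) (s : ℂ) (τ : ℝ) (f₂ w : ℂ) :
    wL N ρ φ s τ f₂ w = wM ((- Real.sin (wg N ρ φ s τ w) : ℝ) : ℂ) (s * f₂)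
      (- Real.cos (wg N ρ φ s τ w)) (Complex.I * conj (s * fF' N ρ φ w)) := rfl

theorem continuousOn_wM {S : Set ℂ} {a b d : ℂ → ℂ} {c : ℂ → ℝ} (ha : ContinuousOn a S)
    (hb : ContinuousOn b S) (hc : ContinuousOn c S) (hd : ContinuousOn d S) :
    ContinuousOn (fun w => wM (a w) (b w) (c w) (d w)) S :=
  cont3.comp_continuousOn (f := fun w => ((a w, b w), (c w, d w)))
    ((ha.prodMk hb).prodMk (hc.prodMk hd))

section FP

variable {N : ℕ} {ρ : ℝ} {φ : ℕ → ℝ} {u u' u'' : ℕ → ℝ → ℝ} {B : ℕ → ℝ}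
  (H : FP N ρ φ u u' u'' B)
include H

/-- **The plane wave Green identity**, real form, no condition on `∑ k |φ_k|`. -/
theorem FP.green_wave (s : ℂ) (hs : ‖s‖ = 1)
    (τ : ℝ) : ∫ θ in (-π)..π, UU N (aa u) (uc θ) *
      (Real.sin ((s * fF N ρ φ (uc θ)).im + τ) * (s * uc θ * fF' N ρ φ (uc θ)).im) = 0 := by
  have hs1 : Summable fun k => |φ (k + 1)| := (summable_nat_add_iff 1).2 H.φs
  have hFc : ContinuousOn (fF N ρ φ) (closedBall 0 1) := H.continuousOn_f
  have hF'c := continuousOn_fF' N ρ φ hs1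
  have hgc : ContinuousOn (wg N ρ φ s τ) (closedBall 0 1) :=
    (Complex.continuous_im.comp_continuousOn (continuousOn_const.mul hFc)).add continuousOn_const
  have hXc : ContinuousOn (wX N ρ φ s τ) (closedBall 0 1) := by
    refine ContinuousOn.mul ?_ ?_
    · exact Complex.continuous_ofReal.comp_continuousOn
        (Real.continuous_sin.comp_continuousOn hgc).neg
    · exact continuousOn_const.mul (Complex.continuous_conj.comp_continuousOn
        (continuousOn_const.mul hF'c))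
  have hd := differentiableOn_fF' N ρ φ hs1
  have hf₂d : ∀ w ∈ ball (0 : ℂ) 1, HasDerivAt (fF' N ρ φ) (deriv (fF' N ρ φ) w) w := fun w hw =>
    ((hd w hw).differentiableAt (isOpen_ball.mem_nhds hw)).hasDerivAt
  have hf₂c : ContinuousOn (deriv (fF' N ρ φ)) (ball 0 1) := (hd.deriv isOpen_ball).continuousOn
  have hLc : ContinuousOn (fun w => wL N ρ φ s τ (deriv (fF' N ρ φ) w) w) (ball 0 1) := by
    have hg := hgc.mono ball_subset_closedBall
    have hF' := hF'c.mono ball_subset_closedBall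
    simp_rw [wL_eq_wM]
    refine continuousOn_wM ?_ ?_ ?_ ?_
    · exact Complex.continuous_ofReal.comp_continuousOn
        (Real.continuous_sin.comp_continuousOn hg).neg
    · exact continuousOn_const.mul hf₂c
    · exact (Real.continuous_cos.comp_continuousOn hg).neg
    · exact continuousOn_const.mul (Complex.continuous_conj.comp_continuousOn
        (continuousOn_const.mul hF'))
  -- the test function
  have hy : TestOK (fun w => Real.cos (wg N ρ φ s τ w)) := by
    obtain ⟨BX, hBX⟩ := (isCompact_closedBall (0 : ℂ) 1).exists_bound_of_continuousOn hXc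
    refine ⟨Real.continuous_cos.comp_continuousOn hgc,
      fun w hw => (hasFDerivAt_wave hs1 s τ hw).differentiableAt.differentiableWithinAt,
      ?_, BX, fun w hw => ?_⟩
    · refine ContinuousOn.congr (f := fun w => innerSL ℝ (wX N ρ φ s τ w)) ?_
        fun w hw => (hasFDerivAt_wave hs1 s τ hw).fderiv
      exact (innerSL ℝ (E := ℂ)).continuous.comp_continuousOn (hXc.mono ball_subset_closedBall)
    · rw [(hasFDerivAt_wave hs1 s τ hw).fderiv, innerSL_apply_norm]
      exact hBX w (ball_subset_closedBall hw)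
  have e1 := H.W2 _ hy
  have e2 := div_boundary' (wX N ρ φ s τ) hXc _
    (fun w hw => hasFDerivAt_wX hs1 s τ hw (hf₂d w hw)) hLc
    (fun w => - (Complex.normSq (fF' N ρ φ w) * Real.cos (wg N ρ φ s τ w)))
    (fun w hw => div_wL s τ hs _ _)
    (((Complex.continuous_normSq.comp_continuousOn hF'c).mul
      (Real.continuous_cos.comp_continuousOn hgc)).neg) (UU N (aa u)) H.testOK_U
  have e3 : ∫ w in ball (0 : ℂ) 1, fderiv ℝ (fun w => Real.cos (wg N ρ φ s τ w)) w
      (GG N (aa u) (aa u') w) =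
      ∫ w in ball (0 : ℂ) 1, fderiv ℝ (UU N (aa u)) w (wX N ρ φ s τ w) := by
    refine setIntegral_congr_fun measurableSet_ball fun w hw => ?_
    rw [(hasFDerivAt_wave hs1 s τ hw).fderiv, (H.hasFDerivAt_U hw).fderiv, innerSL_apply_apply,
      innerSL_apply_apply, real_inner_comm]
  have e4 : - (∫ w in ball (0 : ℂ) 1,
      - (Complex.normSq (fF' N ρ φ w) * Real.cos (wg N ρ φ s τ w)) * UU N (aa u) w) =
      ∫ w in ball (0 : ℂ) 1, Complex.normSq (fF' N ρ φ w) * UU N (aa u) w *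
        Real.cos (wg N ρ φ s τ w) := by
    rw [← integral_neg]
    refine integral_congr_ae (Eventually.of_forall fun w => ?_)
    simp only
    ring
  rw [← e3, e1, e4] at e2
  have e5 : ∫ θ in (-π)..π, ⟪wX N ρ φ s τ (uc θ), uc θ⟫ * UU N (aa u) (uc θ) = 0 := by
    linarith
  rw [← neg_eq_zero, ← e5, ← intervalIntegral.integral_neg]
  refine intervalIntegral.integral_congr fun θ _ => ?_
  rw [wX, wg, Complex.inner]
  simp only [map_mul, Complex.conj_ofReal, Complex.conj_I, Complex.conj_conj, Complex.mul_re,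
    Complex.mul_im, Complex.ofReal_re, Complex.ofReal_im, Complex.neg_re, Complex.neg_im,
    Complex.I_re, Complex.I_im]
  ring

/-- **The plane wave Green identity**, complex form. -/
theorem FP.green_wave_complex (s : ℂ)
    (hs : ‖s‖ = 1) : ∫ θ in (-π)..π, ((UU N (aa u) (uc θ) * (s * uc θ * fF' N ρ φ (uc θ)).im : ℝ) : ℂ) *
      Complex.exp (Complex.I * ((s * fF N ρ φ (uc θ)).im : ℝ)) = 0 := by
  have hs1 : Summable fun k => |φ (k + 1)| := (summable_nat_add_iff 1).2 H.φs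
  have h1 := H.green_wave s hs 0
  have h2 := H.green_wave s hs (π / 2)
  simp only [add_zero, Real.sin_add_pi_div_two] at h1 h2
  have huc : ∀ θ, uc θ ∈ closedBall (0 : ℂ) 1 := fun θ =>
    mem_closedBall_zero_iff.2 (norm_uc θ).le
  have hUc : Continuous fun θ => UU N (aa u) (uc θ) :=
    H.continuousOn_U.comp_continuous continuous_uc huc
  have hfc : Continuous fun θ => fF N ρ φ (uc θ) :=
    H.continuousOn_f.comp_continuous continuous_uc huc
  have hf'c : Continuous fun θ => fF' N ρ φ (uc θ) :=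
    (continuousOn_fF' N ρ φ hs1).comp_continuous continuous_uc huc
  have hgc : Continuous fun θ => (s * fF N ρ φ (uc θ)).im :=
    Complex.continuous_im.comp (continuous_const.mul hfc)
  have hrc : Continuous fun θ => (s * uc θ * fF' N ρ φ (uc θ)).im :=
    Complex.continuous_im.comp ((continuous_const.mul continuous_uc).mul hf'c)
  have c1 : Continuous fun θ => UU N (aa u) (uc θ) *
      (Real.sin ((s * fF N ρ φ (uc θ)).im) * (s * uc θ * fF' N ρ φ (uc θ)).im) :=
    hUc.mul ((Real.continuous_sin.comp hgc).mul hrc)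
  have c2 : Continuous fun θ => UU N (aa u) (uc θ) *
      (Real.cos ((s * fF N ρ φ (uc θ)).im) * (s * uc θ * fF' N ρ φ (uc θ)).im) :=
    hUc.mul ((Real.continuous_cos.comp hgc).mul hrc)
  have e : ∀ θ, ((UU N (aa u) (uc θ) * (s * uc θ * fF' N ρ φ (uc θ)).im : ℝ) : ℂ) *
      Complex.exp (Complex.I * ((s * fF N ρ φ (uc θ)).im : ℝ)) =
      ((UU N (aa u) (uc θ) *
        (Real.cos ((s * fF N ρ φ (uc θ)).im) * (s * uc θ * fF' N ρ φ (uc θ)).im) : ℝ) : ℂ) +
      ((UU N (aa u) (uc θ) *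
        (Real.sin ((s * fF N ρ φ (uc θ)).im) * (s * uc θ * fF' N ρ φ (uc θ)).im) : ℝ) : ℂ) *
        Complex.I := by
    intro θ
    rw [mul_comm Complex.I, Complex.exp_mul_I, ← Complex.ofReal_cos, ← Complex.ofReal_sin]
    push_cast
    ring
  simp_rw [e]
  have i1 : IntervalIntegrable (fun θ => ((UU N (aa u) (uc θ) *
        (Real.cos ((s * fF N ρ φ (uc θ)).im) * (s * uc θ * fF' N ρ φ (uc θ)).im) : ℝ) : ℂ))
      volume (-π) π := (Complex.continuous_ofReal.comp c2).intervalIntegrable _ _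
  have i2 : IntervalIntegrable (fun θ => ((UU N (aa u) (uc θ) *
        (Real.sin ((s * fF N ρ φ (uc θ)).im) * (s * uc θ * fF' N ρ φ (uc θ)).im) : ℝ) : ℂ) *
        Complex.I) volume (-π) π :=
    ((Complex.continuous_ofReal.comp c1).mul continuous_const).intervalIntegrable _ _
  rw [intervalIntegral.integral_add i1 i2, intervalIntegral.integral_mul_const,
    intervalIntegral.integral_ofReal, intervalIntegral.integral_ofReal, h1, h2]
  simp

end FP

end SCHG
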