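import Pool.Agent.MP_83fd13_an.SCH.VH1
import Pool.Agent.MP_83fd13_an.SCH.THat
import Pool.Agent.MP_83fd13_an.SCH.WieD

/-!
# [SCH] majorants of `hX`, `hR`, `hV`

Two states `(a, f, U)`, `(b, g, W)` at the same `ρ`, `u`. `P k`, `P' k` : value and Lipschitz majorants
of `f k`; `A`, `A'` of `a`; `B`, `B'` of the functions `U k s`.
`ρ ∈ [54.178, 54.1833]`, `0 ≤ s ≤ 1`, `R = s^42`.
-/

set_option autoImplicit false

namespace SCHV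

open Pool.Agent.SCH SCHB SCHT

section

variable {ρ : ℝ} (h1 : 54.178 ≤ ρ) (h2 : ρ ≤ 54.1833)
variable {M u a b A A' P1 P1' P2 P2' P P' B B' : ℝ} {f g : ℕ → ℝ} {U W : ℕ → ℝ → ℝ} {s : ℝ}

/-! ### mode 0 -/

section mode0

include h1 h2

/-- `hX 0`: `.043042 P1² s^85 + .246977 A P1 s^43` -/
theorem mj_hX0 (hs : 0 ≤ s) (hs1 : s ≤ 1) (ha : Mj M A A' a b) (hf : Mj M P1 P1' (f 1) (g 1)) :
    Mj M (0.043042 * P1 ^ 2 * s ^ 85 + 0.246977 * (A * P1) * s ^ 43)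
      (0.043042 * (2 * P1 * P1') * s ^ 85 + 0.246977 * (A' * P1 + A * P1') * s ^ 43)
      (hX ρ a f 0 s) (hX ρ b g 0 s) := by
  have hQ : |Q0 J ρ s / 43 ^ 2| ≤ 0.043042 * s ^ 85 := by
    rw [abs_div, abs_of_nonneg (by norm_num : (0 : ℝ) ≤ 43 ^ 2), div_le_iff₀ (by norm_num)]
    refine (Q0_a h1 h2 hs hs1).trans ?_
    nlinarith [pow_nonneg hs 85]
  have hA : |A0 J ρ s / 43| ≤ 0.246977 * s ^ 43 := by
    rw [abs_div, abs_of_nonneg (by norm_num : (0 : ℝ) ≤ 43), div_le_iff₀ (by norm_num)]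
    refine (A0_a h1 h2 hs hs1).trans ?_
    nlinarith [pow_nonneg hs 43]
  refine ((hf.sq.mul_const_le hQ).add ((ha.mul hf).mul_const_le hA)).congr ?_ ?_ ?_ ?_
  · unfold hX; ring
  · unfold hX; ring
  · ring
  · ring

/-- general constants: `|A0| / 43 ≤ κ` -/
theorem mj_hX0' {κ : ℝ} (hs : 0 ≤ s) (hs1 : s ≤ 1) (ha : Mj M A A' a b)
    (hf : Mj M P1 P1' (f 1) (g 1)) (hκ : |A0 J ρ s / 43| ≤ κ) :
    Mj M (0.043042 * P1 ^ 2 * s ^ 85 + κ * (A * P1))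
      (0.043042 * (2 * P1 * P1') * s ^ 85 + κ * (A' * P1 + A * P1'))
      (hX ρ a f 0 s) (hX ρ b g 0 s) := by
  have hQ : |Q0 J ρ s / 43 ^ 2| ≤ 0.043042 * s ^ 85 := by
    rw [abs_div, abs_of_nonneg (by norm_num : (0 : ℝ) ≤ 43 ^ 2), div_le_iff₀ (by norm_num)]
    refine (Q0_a h1 h2 hs hs1).trans ?_
    nlinarith [pow_nonneg hs 85]
  refine ((hf.sq.mul_const_le hQ).add ((ha.mul hf).mul_const_le hκ)).congr ?_ ?_ ?_ ?_
  · unfold hX; ring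
  · unfold hX; ring
  · ring
  · ring

end mode0

theorem mj_hR0 (hu : 0 ≤ u) (hU : Mj M B B' (U 0 s) (W 0 s)) :
    Mj M (u * B) (u * B') (hR ρ u a f U 0 s) (hR ρ u b g W 0 s) :=
  (hU.const_mul u).congr rfl rfl (by rw [abs_of_nonneg hu]) (by rw [abs_of_nonneg hu])

theorem mj_hV {k : ℕ} {F F' G G' : ℝ} (hX' : Mj M F F' (hX ρ a f k s) (hX ρ b g k s))
    (hR' : Mj M G G' (hR ρ u a f U k s) (hR ρ u b g W k s)) :
    Mj M (F + G) (F' + G') (hV ρ u a f U k s) (hV ρ u b g W k s) :=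
  hX'.add hR'

/-! ### mode 1 -/

/-- `hX 1` with arbitrary bounds of `PP 42` and `J_42` -/
theorem mj_hX1 {κP κJ : ℝ} (ha : Mj M A A' a b) (hf : Mj M P1 P1' (f 1) (g 1))
    (hP : |PP J ρ 42 s| ≤ κP) (hJ : |J 42 (ρ * s)| ≤ κJ) :
    Mj M (P1 * κP + A * κJ) (P1' * κP + A' * κJ) (hX ρ a f 1 s) (hX ρ b g 1 s) :=
  (hf.mul_const_le hP).add (ha.mul_const_le hJ)

theorem mj_hR1 (hu : 0 ≤ u) (hU : Mj M B B' (U 1 s) (W 1 s)) :
    Mj M (u * B) (u * B') (hR ρ u a f U 1 s) (hR ρ u b g W 1 s) :=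
  (hU.const_mul u).congr rfl rfl (by rw [abs_of_nonneg hu]) (by rw [abs_of_nonneg hu])

include h1 h2

/-- `|PP 42| ≤ .068341 R` -/
theorem PP42_a (hs : 0 ≤ s) (hs1 : s ≤ 1) : |PP J ρ 42 s| ≤ 0.068341 * s ^ 42 := by
  refine (PP_a h1 h2 42 hs hs1).trans ?_
  have := pow_nonneg hs 42
  have e : (2.938632 : ℝ) / ((42 : ℕ) + 1) ≤ 0.068341 := by norm_num
  exact mul_le_mul_of_nonneg_right e this

/-- `|PP 42| ≤ (.00052 + 3.702117 (1-s)) R` -/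
theorem PP42_b (hs : 0 ≤ s) (hs1 : s ≤ 1) :
    |PP J ρ 42 s| ≤ (0.00052 + 3.702117 * (1 - s)) * s ^ 42 := by
  refine (PP_b h1 h2 42 hs hs1).trans ?_
  have := pow_nonneg hs 42
  have e : (0.022351 + 159.191 * (1 - s)) / ((42 : ℕ) + 1) ≤ 0.00052 + 3.702117 * (1 - s) := by
    rw [div_le_iff₀ (by norm_num)]
    push_cast
    linarith
  exact mul_le_mul_of_nonneg_right e this

/-- `hV 1`, form a: `(.068341 P1) R + .196 A + u B` -/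
theorem mj_hV1_a (hu : 0 ≤ u) (hs : 0 ≤ s) (hs1 : s ≤ 1) (ha : Mj M A A' a b)
    (hf : Mj M P1 P1' (f 1) (g 1)) (hU : Mj M B B' (U 1 s) (W 1 s)) :
    Mj M (0.068341 * P1 * s ^ 42 + 0.196 * A + u * B)
      (0.068341 * P1' * s ^ 42 + 0.196 * A' + u * B')
      (hV ρ u a f U 1 s) (hV ρ u b g W 1 s) :=
  (mj_hV (mj_hX1 ha hf (PP42_a h1 h2 hs hs1) (J42_a h1 h2 hs hs1)) (mj_hR1 hu hU)).congr rfl rfl
    (by ring) (by ring)

/-- `hV 1`, form b: `P1 (.00052 + 3.702117 (1-s)) R + A (.000473 + 4.75 (1-s)) + u B` -/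
theorem mj_hV1_b (hu : 0 ≤ u) (hs : 0 ≤ s) (hs1 : s ≤ 1) (ha : Mj M A A' a b)
    (hf : Mj M P1 P1' (f 1) (g 1)) (hU : Mj M B B' (U 1 s) (W 1 s)) :
    Mj M (P1 * ((0.00052 + 3.702117 * (1 - s)) * s ^ 42) + A * (0.000473 + 4.75 * (1 - s)) + u * B)
      (P1' * ((0.00052 + 3.702117 * (1 - s)) * s ^ 42) + A' * (0.000473 + 4.75 * (1 - s)) + u * B')
      (hV ρ u a f U 1 s) (hV ρ u b g W 1 s) :=
  mj_hV (mj_hX1 ha hf (PP42_b h1 h2 hs hs1) (J42_b h1 h2 hs hs1)) (mj_hR1 hu hU)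

/-- `hV 0`: `.043042 P1² s^85 + .246977 A P1 s^43 + u B` -/
theorem mj_hV0 (hu : 0 ≤ u) (hs : 0 ≤ s) (hs1 : s ≤ 1) (ha : Mj M A A' a b)
    (hf : Mj M P1 P1' (f 1) (g 1)) (hU : Mj M B B' (U 0 s) (W 0 s)) :
    Mj M (0.043042 * P1 ^ 2 * s ^ 85 + 0.246977 * (A * P1) * s ^ 43 + u * B)
      (0.043042 * (2 * P1 * P1') * s ^ 85 + 0.246977 * (A' * P1 + A * P1') * s ^ 43 + u * B')
      (hV ρ u a f U 0 s) (hV ρ u b g W 0 s) :=
  mj_hV (mj_hX0 h1 h2 hs hs1 ha hf) (mj_hR0 hu hU)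

/-! ### mode 2 -/

omit h1 h2 in
theorem hV2_eq (u a : ℝ) (f : ℕ → ℝ) (U : ℕ → ℝ → ℝ) (s : ℝ) : hV ρ u a f U 2 s =
    f 2 * (PP J ρ 84 s - PP J ρ 84 1 * s ^ 84) +
      f 1 ^ 2 * ((Q2 J ρ s - Q2 J ρ 1 * s ^ 84) / 43 ^ 2) +
      a * f 1 * ((A2 J ρ s - A2 J ρ 1 * s ^ 84) / 43) + U 2 s := by
  unfold hV hR hX
  simp only
  ring

omit h1 h2 in
/-- `hV 2` in general: `c1`, `c2`, `c3` bounds of the explicit functions minus their value at `1` -/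
theorem mj_hV2_gen {κ1 κ2 κ3 : ℝ} (ha : Mj M A A' a b)
    (hf : Mj M P1 P1' (f 1) (g 1)) (hf2 : Mj M P2 P2' (f 2) (g 2))
    (hU : Mj M B B' (U 2 s) (W 2 s))
    (hk1 : |PP J ρ 84 s - PP J ρ 84 1 * s ^ 84| ≤ κ1)
    (hk2 : |(Q2 J ρ s - Q2 J ρ 1 * s ^ 84) / 43 ^ 2| ≤ κ2)
    (hk3 : |(A2 J ρ s - A2 J ρ 1 * s ^ 84) / 43| ≤ κ3) :
    Mj M (P2 * κ1 + P1 ^ 2 * κ2 + A * P1 * κ3 + B)
      (P2' * κ1 + 2 * P1 * P1' * κ2 + (A' * P1 + A * P1') * κ3 + B')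
      (hV ρ u a f U 2 s) (hV ρ u b g W 2 s) :=
  ((((hf2.mul_const_le hk1).add (hf.sq.mul_const_le hk2)).add
    ((ha.mul hf).mul_const_le hk3)).add hU).congr (hV2_eq u a f U s).symm (hV2_eq u b g W s).symm
      rfl rfl

/-- `hV 2 ≤ (.044592 P2 + .027778 P1² + .252017 A P1 + B) R (1-R)` -/
theorem mj_hV2 (hs : 0 ≤ s) (hs1 : s ≤ 1) (ha : Mj M A A' a b)
    (hf : Mj M P1 P1' (f 1) (g 1)) (hf2 : Mj M P2 P2' (f 2) (g 2))
    (hU : Mj M (B * (s ^ 42 * (1 - s ^ 42))) (B' * (s ^ 42 * (1 - s ^ 42))) (U 2 s) (W 2 s)) :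
    Mj M ((0.044592 * P2 + 0.027778 * P1 ^ 2 + 0.252017 * (A * P1) + B) * (s ^ 42 * (1 - s ^ 42)))
      ((0.044592 * P2' + 0.027778 * (2 * P1 * P1') + 0.252017 * (A' * P1 + A * P1') + B') *
        (s ^ 42 * (1 - s ^ 42)))
      (hV ρ u a f U 2 s) (hV ρ u b g W 2 s) := by
  have hw : 0 ≤ s ^ 42 * (1 - s ^ 42) := by
    have h6 : s ^ 42 ≤ 1 := pow_le_one₀ hs hs1
    exact mul_nonneg (pow_nonneg hs 42) (by linarith)
  have hk1 : |PP J ρ 84 s - PP J ρ 84 1 * s ^ 84| ≤ 0.044592 * (s ^ 42 * (1 - s ^ 42)) := by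
    refine (PP_sub' h1 h2 1 hs hs1).trans ?_
    refine mul_le_mul_of_nonneg_right ?_ hw
    norm_num
  have hk2 : |(Q2 J ρ s - Q2 J ρ 1 * s ^ 84) / 43 ^ 2| ≤ 0.027778 * (s ^ 42 * (1 - s ^ 42)) := by
    rw [abs_div, abs_of_nonneg (by norm_num : (0 : ℝ) ≤ 43 ^ 2), div_le_iff₀ (by norm_num)]
    refine (Q2_sub' h1 h2 hs hs1).trans ?_
    nlinarith
  have hk3 : |(A2 J ρ s - A2 J ρ 1 * s ^ 84) / 43| ≤ 0.252017 * (s ^ 42 * (1 - s ^ 42)) := by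
    rw [abs_div, abs_of_nonneg (by norm_num : (0 : ℝ) ≤ 43), div_le_iff₀ (by norm_num)]
    refine (A2_sub h1 h2 hs hs1).trans ?_
    nlinarith
  exact (mj_hV2_gen ha hf hf2 hU hk1 hk2 hk3).congr rfl rfl (by ring) (by ring)

/-- `|hX 2 (1)| ≤ .000263 P2 + .02152 P1² + .054346 A P1` -/
theorem mj_hX2_one (ha : Mj M A A' a b) (hf : Mj M P1 P1' (f 1) (g 1))
    (hf2 : Mj M P2 P2' (f 2) (g 2)) :
    Mj M (0.000263 * P2 + 0.02152 * P1 ^ 2 + 0.054346 * (A * P1))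
      (0.000263 * P2' + 0.02152 * (2 * P1 * P1') + 0.054346 * (A' * P1 + A * P1'))
      (hX ρ a f 2 1) (hX ρ b g 2 1) := by
  have hk1 : |PP J ρ 84 1| ≤ 0.000263 := (PP_one h1 h2 84).trans (by norm_num)
  have hk2 : |Q2 J ρ 1 / 43 ^ 2| ≤ 0.02152 := by
    rw [abs_div, abs_of_nonneg (by norm_num : (0 : ℝ) ≤ 43 ^ 2), div_le_iff₀ (by norm_num)]
    exact (Q2_one h1 h2).trans (by norm_num)
  have hk3 : |A2 J ρ 1 / 43| ≤ 0.054346 := by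
    rw [abs_div, abs_of_nonneg (by norm_num : (0 : ℝ) ≤ 43), div_le_iff₀ (by norm_num)]
    exact (A2_one h1 h2).trans (by norm_num)
  refine (((hf2.mul_const_le hk1).add (hf.sq.mul_const_le hk2)).add
    ((ha.mul hf).mul_const_le hk3)).congr ?_ ?_ ?_ ?_
  · unfold hX; ring
  · unfold hX; ring
  · ring
  · ring

omit h1 h2 in
/-- `hR k`, `k ≥ 2`, from bounds of `U k` and `hX k 1` -/
theorem mj_hR2 {k : ℕ} {E E' : ℝ} (hs : 0 ≤ s) (hU : Mj M B B' (U (k + 2) s) (W (k + 2) s))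
    (hE : Mj M E E' (hX ρ a f (k + 2) 1) (hX ρ b g (k + 2) 1)) :
    Mj M (B + E * s ^ (42 * (k + 2))) (B' + E' * s ^ (42 * (k + 2)))
      (hR ρ u a f U (k + 2) s) (hR ρ u b g W (k + 2) s) :=
  hU.sub (hE.mul_const_le (by rw [abs_of_nonneg (pow_nonneg hs _)]))

/-! ### modes `k ≥ 3` -/

omit h1 h2 in
theorem hVk_eq (u a : ℝ) (f : ℕ → ℝ) (U : ℕ → ℝ → ℝ) (k : ℕ) (s : ℝ) : hV ρ u a f U (k + 3) s =
    f (k + 3) * (PP J ρ (42 * (k + 3)) s - PP J ρ (42 * (k + 3)) 1 * s ^ (42 * (k + 3))) +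
      U (k + 3) s := by
  unfold hV hR hX
  simp only
  ring

/-- `hV k ≤ (.029845 P + B) R^(k-1) (1-R)`, `k ≥ 3` -/
theorem mj_hVk (k : ℕ) (hs : 0 ≤ s) (hs1 : s ≤ 1) (hf : Mj M P P' (f (k + 3)) (g (k + 3)))
    (hU : Mj M (B * (s ^ (42 * (k + 2)) * (1 - s ^ 42))) (B' * (s ^ (42 * (k + 2)) * (1 - s ^ 42)))
      (U (k + 3) s) (W (k + 3) s)) :
    Mj M ((3.790262 / (42 * (k + 3) + 1) * P + B) * (s ^ (42 * (k + 2)) * (1 - s ^ 42)))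
      ((3.790262 / (42 * (k + 3) + 1) * P' + B') * (s ^ (42 * (k + 2)) * (1 - s ^ 42)))
      (hV ρ u a f U (k + 3) s) (hV ρ u b g W (k + 3) s) := by
  have hk := PP_sub' h1 h2 (k + 2) hs hs1
  push_cast at hk
  have e : (k : ℝ) + 2 + 1 = k + 3 := by ring
  rw [e] at hk
  exact ((hf.mul_const_le hk).add hU).congr (hVk_eq u a f U k s).symm (hVk_eq u b g W k s).symm
    (by ring) (by ring)

/-- uniform version of the constant: `≤ .029845 P` -/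
theorem mj_hVk' (k : ℕ) (hM : 0 ≤ M) (hs : 0 ≤ s) (hs1 : s ≤ 1) (hP : 0 ≤ P) (hP' : 0 ≤ P')
    (hf : Mj M P P' (f (k + 3)) (g (k + 3)))
    (hU : Mj M (B * (s ^ (42 * (k + 2)) * (1 - s ^ 42))) (B' * (s ^ (42 * (k + 2)) * (1 - s ^ 42)))
      (U (k + 3) s) (W (k + 3) s)) :
    Mj M ((0.029845 * P + B) * (s ^ (42 * (k + 2)) * (1 - s ^ 42)))
      ((0.029845 * P' + B') * (s ^ (42 * (k + 2)) * (1 - s ^ 42)))
      (hV ρ u a f U (k + 3) s) (hV ρ u b g W (k + 3) s) := by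
  have hw : 0 ≤ s ^ (42 * (k + 2)) * (1 - s ^ 42) := by
    have h6 : s ^ 42 ≤ 1 := pow_le_one₀ hs hs1
    exact mul_nonneg (pow_nonneg hs _) (by linarith)
  have hc : 3.790262 / (42 * ((k : ℝ) + 3) + 1) ≤ 0.029845 := by
    rw [div_le_iff₀ (by positivity)]
    have : (0 : ℝ) ≤ k := Nat.cast_nonneg k
    nlinarith
  refine (mj_hVk h1 h2 k hs hs1 hf hU).mono hM ?_ ?_
  · refine mul_le_mul_of_nonneg_right ?_ hw
    have := mul_le_mul_of_nonneg_right hc hP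
    linarith
  · refine mul_le_mul_of_nonneg_right ?_ hw
    have := mul_le_mul_of_nonneg_right hc hP'
    linarith

/-- `|hX k (1)| ≤ .022351/(42k+1) P ≤ .000176 P`, `k ≥ 3` -/
theorem mj_hXk_one (k : ℕ) (hf : Mj M P P' (f (k + 3)) (g (k + 3))) :
    Mj M (0.022351 / (42 * (k + 3) + 1) * P) (0.022351 / (42 * (k + 3) + 1) * P')
      (hX ρ a f (k + 3) 1) (hX ρ b g (k + 3) 1) := by
  have hk := PP_one h1 h2 (42 * (k + 3))
  push_cast at hk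
  exact (hf.mul_const_le hk).congr rfl rfl (by ring) (by ring)

theorem mj_hXk_one' (k : ℕ) (hM : 0 ≤ M) (hP : 0 ≤ P) (hP' : 0 ≤ P')
    (hf : Mj M P P' (f (k + 3)) (g (k + 3))) :
    Mj M (0.000176 * P) (0.000176 * P') (hX ρ a f (k + 3) 1) (hX ρ b g (k + 3) 1) := by
  have hc : 0.022351 / (42 * ((k : ℝ) + 3) + 1) ≤ 0.000176 := by
    rw [div_le_iff₀ (by positivity)]
    have : (0 : ℝ) ≤ k := Nat.cast_nonneg k
    nlinarith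
  exact (mj_hXk_one h1 h2 k hf).mono hM (mul_le_mul_of_nonneg_right hc hP)
    (mul_le_mul_of_nonneg_right hc hP')

end

end SCHV
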