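import Pool.Agent.MP_83fd13_an.SCH.PTK
import Pool.Agent.MP_83fd13_an.SCH.VH2

/-!
# [SCH] `hV k`, `hR k`, `k ≥ 3`, with a common factor
-/

set_option autoImplicit false

namespace SCHV

open Pool.Agent.SCH SCHB SCHT

noncomputable section

variable {ρ M s : ℝ}

/-! ### modes `k ≥ 3` with the factor `cv s k = 2^(k+3) s^(42(k+2))` -/

section

variable {u a b : ℝ} {f g : ℕ → ℝ} {U W : ℕ → ℝ → ℝ} {F F' Z Z' : ℕ}

/-- `(1-R)` scalar pair -/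
def pcR (c d : ℕ) : PL := ⟨⟨[], [], [c]⟩, ⟨[], [], [d]⟩⟩

/-- `hV (k+3)`: `(.029845 F + Z) (1-R)` -/
def pVk (F F' Z Z' : ℕ) : PL := (PL.sc 2984500 (pcR F F')).add (pcR Z Z')

/-- `hR (k+3)`: `Z (1-R) + .000176 F R` -/
def pRk (F F' Z Z' : ℕ) : PL := (pcR Z Z').add (PL.sc 17600 (PL.scal F F')).shift

theorem ev_pcR (c : ℕ) (s : ℝ) : (⟨[], [], [c]⟩ : TL).ev s = (c : ℝ) / UU * (1 - s ^ 42) := by
  simp only [TL.ev, Ev]; ring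

variable (h1 : 54.178 ≤ ρ) (h2 : ρ ≤ 54.1833) (hM : 0 ≤ M) (hs : 0 ≤ s) (hs1 : s ≤ 1)
include h1 h2 hM hs hs1

/-- `hV (k+3)` -/
theorem TK_hVk (k : ℕ)
    (hf : Mj M ((F : ℝ) / UU * 2 ^ (k + 3)) ((F' : ℝ) / UU * 2 ^ (k + 3)) (f (k + 3)) (g (k + 3)))
    (hU : Mj M ((Z : ℝ) / UU * 2 ^ (k + 3) * (s ^ (42 * (k + 2)) * (1 - s ^ 42)))
      ((Z' : ℝ) / UU * 2 ^ (k + 3) * (s ^ (42 * (k + 2)) * (1 - s ^ 42))) (U (k + 3) s)
      (W (k + 3) s)) :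
    TK M s (2 ^ (k + 3) * s ^ (42 * (k + 2))) (pVk F F' Z Z') (hV ρ u a f U (k + 3) s)
      (hV ρ u b g W (k + 3) s) := by
  have hw : 0 ≤ s ^ (42 * (k + 2)) * (1 - s ^ 42) := by
    have h6 : s ^ 42 ≤ 1 := pow_le_one₀ hs hs1
    exact mul_nonneg (pow_nonneg hs _) (sub_nonneg.2 h6)
  have hc : 0 ≤ (2 : ℝ) ^ (k + 3) * s ^ (42 * (k + 2)) := by
    exact mul_nonneg (pow_nonneg (by norm_num) _) (pow_nonneg hs _)
  have nF : 0 ≤ (F : ℝ) / UU * 2 ^ (k + 3) :=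
    mul_nonneg (div_nonneg (Nat.cast_nonneg _) UU_pos.le) (by positivity)
  have nF' : 0 ≤ (F' : ℝ) / UU * 2 ^ (k + 3) :=
    mul_nonneg (div_nonneg (Nat.cast_nonneg _) UU_pos.le) (by positivity)
  have h := mj_hVk' h1 h2 (a := a) (b := b) (u := u) k hM hs hs1 nF nF' hf hU
  have hc1 : ((2984500 : ℕ) : ℝ) / UU = 0.029845 := by unfold UU; norm_num
  refine h.mono hM ?_ ?_
  · show _ ≤ _ * ((TL.sc 2984500 ⟨[], [], [F]⟩).add ⟨[], [], [Z]⟩).ev s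
    have b1 := TL.ev_sc hs hs1 2984500 ⟨[], [], [F]⟩
    rw [ev_pcR, hc1] at b1
    rw [TL.ev_add, ev_pcR]
    calc _ = 2 ^ (k + 3) * s ^ (42 * (k + 2)) * (0.029845 * ((F : ℝ) / UU * (1 - s ^ 42)) +
          (Z : ℝ) / UU * (1 - s ^ 42)) := by ring
      _ ≤ _ := mul_le_mul_of_nonneg_left (add_le_add b1 le_rfl) hc
  · show _ ≤ _ * ((TL.sc 2984500 ⟨[], [], [F']⟩).add ⟨[], [], [Z']⟩).ev s
    have b1 := TL.ev_sc hs hs1 2984500 ⟨[], [], [F']⟩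
    rw [ev_pcR, hc1] at b1
    rw [TL.ev_add, ev_pcR]
    calc _ = 2 ^ (k + 3) * s ^ (42 * (k + 2)) * (0.029845 * ((F' : ℝ) / UU * (1 - s ^ 42)) +
          (Z' : ℝ) / UU * (1 - s ^ 42)) := by ring
      _ ≤ _ := mul_le_mul_of_nonneg_left (add_le_add b1 le_rfl) hc

/-- `hR (k+3)` -/
theorem TK_hRk (k : ℕ)
    (hf : Mj M ((F : ℝ) / UU * 2 ^ (k + 3)) ((F' : ℝ) / UU * 2 ^ (k + 3)) (f (k + 3)) (g (k + 3)))
    (hU : Mj M ((Z : ℝ) / UU * 2 ^ (k + 3) * (s ^ (42 * (k + 2)) * (1 - s ^ 42)))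
      ((Z' : ℝ) / UU * 2 ^ (k + 3) * (s ^ (42 * (k + 2)) * (1 - s ^ 42))) (U (k + 3) s)
      (W (k + 3) s)) :
    TK M s (2 ^ (k + 3) * s ^ (42 * (k + 2))) (pRk F F' Z Z') (hR ρ u a f U (k + 3) s)
      (hR ρ u b g W (k + 3) s) := by
  have hc : 0 ≤ (2 : ℝ) ^ (k + 3) * s ^ (42 * (k + 2)) := by
    exact mul_nonneg (pow_nonneg (by norm_num) _) (pow_nonneg hs _)
  have hR0 : 0 ≤ s ^ 42 := pow_nonneg hs 42
  have nF : 0 ≤ (F : ℝ) / UU * 2 ^ (k + 3) :=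
    mul_nonneg (div_nonneg (Nat.cast_nonneg _) UU_pos.le) (by positivity)
  have nF' : 0 ≤ (F' : ℝ) / UU * 2 ^ (k + 3) :=
    mul_nonneg (div_nonneg (Nat.cast_nonneg _) UU_pos.le) (by positivity)
  have hE := mj_hXk_one' h1 h2 (a := a) (b := b) k hM nF nF' hf
  have h := mj_hR2 (u := u) (k := k + 1) hs hU hE
  have hc1 : ((17600 : ℕ) : ℝ) / UU = 0.000176 := by unfold UU; norm_num
  have e42 : s ^ (42 * (k + 1 + 2)) = s ^ (42 * (k + 2)) * s ^ 42 := by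
    rw [← pow_add]; congr 1
  rw [e42] at h
  refine h.mono hM ?_ ?_
  · show _ ≤ _ * ((⟨[], [], [Z]⟩ : TL).add (TL.sc 17600 (TL.cst F)).shift).ev s
    have b1 := TL.ev_sc hs hs1 17600 (TL.cst F)
    rw [TL.ev_cst, hc1] at b1
    rw [TL.ev_add, ev_pcR, TL.ev_shift]
    calc _ = 2 ^ (k + 3) * s ^ (42 * (k + 2)) * ((Z : ℝ) / UU * (1 - s ^ 42) +
          s ^ 42 * (0.000176 * ((F : ℝ) / UU))) := by ring
      _ ≤ _ := mul_le_mul_of_nonneg_left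
        (add_le_add le_rfl (mul_le_mul_of_nonneg_left b1 hR0)) hc
  · show _ ≤ _ * ((⟨[], [], [Z']⟩ : TL).add (TL.sc 17600 (TL.cst F')).shift).ev s
    have b1 := TL.ev_sc hs hs1 17600 (TL.cst F')
    rw [TL.ev_cst, hc1] at b1
    rw [TL.ev_add, ev_pcR, TL.ev_shift]
    calc _ = 2 ^ (k + 3) * s ^ (42 * (k + 2)) * ((Z' : ℝ) / UU * (1 - s ^ 42) +
          s ^ 42 * (0.000176 * ((F' : ℝ) / UU))) := by ring
      _ ≤ _ := mul_le_mul_of_nonneg_left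
        (add_le_add le_rfl (mul_le_mul_of_nonneg_left b1 hR0)) hc

end

end

end SCHV
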