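import Pool.Agent.MP_83fd13_an.SCH.PGr
import Pool.Agent.MP_83fd13_an.SCH.VH6

/-!
# [SCH] the rows `k ≥ 3` of the hat map (helper4)
-/

set_option autoImplicit false

namespace SCHT

open MeasureTheory Set Filter Topology
open Pool.Agent.SCH SCHB SCHF SCHS SCHV

noncomputable section

/-- the computable rows of the modes `k ≥ 3` -/
structure K3In where
  D : ℕ
  cu : ℕ
  c2 : ℕ
  c4 : ℕ
  c5 : ℕ
  pj : TL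
  p1 : PL
  p2 : PL
  pt : PL
  r0 : PL
  rt : PL
  v0 : PL
  v1 : PL
  v2 : PL
  vt : PL
  F : ℕ
  F' : ℕ
  Z : ℕ
  Z' : ℕ

namespace K3In

variable (X : K3In)

/-- the pair of `hS (k+3)` from the convolution pair -/
def tot (S : PL) : PL :=
  (gTot X.D X.cu X.c2 X.c4 X.c5 X.pj X.p1 X.p2 X.pt X.r0 X.rt X.v0 X.v1 X.v2 X.vt S).add
    (pRk X.F X.F' X.Z X.Z')

/-- mode 3 -/
def P3 : PL := X.tot (gS3 X.D X.p1 X.p2 X.v1 X.v2)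
/-- mode 4 -/
def P4 : PL := X.tot (gS4 X.D X.p1 X.p2 X.pt X.v1 X.v2 X.vt)
/-- modes `n + 5`, base -/
def P5 : PL := X.tot (gS5 X.D X.p1 X.p2 X.pt X.v1 X.v2 X.vt)
/-- modes `n + 5`, slope -/
def PB : PL := PL.mulD X.D X.pt X.vt

/-- value of the functional row -/
def rA (m : ℕ) (L : TL) : ℕ := L.rowN (Ka m) (Kb m) (Kc m)
def rA5 (B L : TL) : ℕ := DotN (fun _ => KbB) B.b + DotN (fun _ => KcB) B.c + L.rowN Ka5 Kb5 Kc5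
def rG (m : ℕ) (L : TL) : ℕ := L.rowN (KGn m) (KGn m) (KGn m)
def rG5 (B L : TL) : ℕ :=
  B.rowN (fun _ => KGB) (fun _ => KGB) (fun _ => KGB) + L.rowN KG5 KG5 KG5

/-- the check -/
def chk (A A' G G' : ℕ) : Bool :=
  allz X.PB.v.a && allz X.PB.d.a &&
  decide (rA 3 X.P3.v ≤ A * UU) && decide (rA 3 X.P3.d ≤ A' * UU) &&
  decide (rA 4 X.P4.v ≤ A * UU) && decide (rA 4 X.P4.d ≤ A' * UU) &&
  decide (rA5 X.PB.v X.P5.v ≤ A * UU) && decide (rA5 X.PB.d X.P5.d ≤ A' * UU) &&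
  decide (rG 3 X.P3.v ≤ G * UU) && decide (rG 3 X.P3.d ≤ G' * UU) &&
  decide (rG 4 X.P4.v ≤ G * UU) && decide (rG 4 X.P4.d ≤ G' * UU) &&
  decide (rG5 X.PB.v X.P5.v ≤ G * UU) && decide (rG5 X.PB.d X.P5.d ≤ G' * UU)

end K3In

section

variable {M ρ u a b : ℝ} {f g : ℕ → ℝ} {U W : ℕ → ℝ → ℝ} {X : K3In}

/-- the hypotheses of the modes `k ≥ 3` -/
structure K3Hyp (M ρ u a b : ℝ) (f g : ℕ → ℝ) (U W : ℕ → ℝ → ℝ) (X : K3In) : Prop where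
  I : ∀ s : ℝ, 0 < s → s ≤ 1 → GIn M s ρ u a b f g U W X.cu X.c2 X.c4 X.c5 X.pj X.p1 X.p2 X.pt
    X.r0 X.rt X.v0 X.v1 X.v2 X.vt
  hf : ∀ k, Mj M ((X.F : ℝ) / UU * 2 ^ (k + 3)) ((X.F' : ℝ) / UU * 2 ^ (k + 3))
    (f (k + 3)) (g (k + 3))
  hU : ∀ k, ∀ s : ℝ, 0 < s → s ≤ 1 →
    Mj M ((X.Z : ℝ) / UU * 2 ^ (k + 3) * (s ^ (42 * (k + 2)) * (1 - s ^ 42)))
      ((X.Z' : ℝ) / UU * 2 ^ (k + 3) * (s ^ (42 * (k + 2)) * (1 - s ^ 42))) (U (k + 3) s)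
      (W (k + 3) s)

theorem K3Hyp.hM (H : K3Hyp M ρ u a b f g U W X) : 0 ≤ M := (H.I 1 one_pos le_rfl).hM

/-- `hS (k+3)` from its convolution -/
theorem K3Hyp.tS (H : K3Hyp M ρ u a b f g U W X) (h1 : 54.178 ≤ ρ) (h2 : ρ ≤ 54.1833) (k : ℕ)
    {S : PL} {s : ℝ} (hs : 0 < s) (hs1 : s ≤ 1) (hSum : TK M s (cv s k) S
    (∑ i ∈ Finset.range (k + 2), hq u f (i + 1) s * hV ρ u a f U (k + 2 - i) s)
    (∑ i ∈ Finset.range (k + 2), hq u g (i + 1) s * hV ρ u b g W (k + 2 - i) s)) :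
    TK M s (cv s k) (X.tot S) (hS ρ u a f U (k + 3) s) (hS ρ u b g W (k + 3) s) :=
  ((H.I s hs hs1).tG X.D k hSum).add
    (TK_hRk h1 h2 H.hM hs.le hs1 (u := u) (a := a) (b := b) k (H.hf k) (H.hU k s hs hs1))

theorem K3Hyp.t3 (H : K3Hyp M ρ u a b f g U W X) (h1 : 54.178 ≤ ρ) (h2 : ρ ≤ 54.1833)
    {s : ℝ} (hs : 0 < s) (hs1 : s ≤ 1) :
    TK M s (cv s 0) X.P3 (hS ρ u a f U (0 + 3) s) (hS ρ u b g W (0 + 3) s) :=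
  H.tS h1 h2 0 hs hs1 ((H.I s hs hs1).tS3 X.D)

theorem K3Hyp.t4 (H : K3Hyp M ρ u a b f g U W X) (h1 : 54.178 ≤ ρ) (h2 : ρ ≤ 54.1833)
    {s : ℝ} (hs : 0 < s) (hs1 : s ≤ 1) :
    TK M s (cv s 1) X.P4 (hS ρ u a f U (1 + 3) s) (hS ρ u b g W (1 + 3) s) :=
  H.tS h1 h2 1 hs hs1 ((H.I s hs hs1).tS4 X.D)

theorem tot_ev1 (X : K3In) (B S : PL) (s : ℝ) : (X.tot (B.add S)).v.ev s
    = (B.add (X.tot S)).v.ev s := by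
  simp only [K3In.tot, gTot, PL.add, TL.ev_add]
  ring

theorem tot_ev2 (X : K3In) (B S : PL) (s : ℝ) : (X.tot (B.add S)).d.ev s
    = (B.add (X.tot S)).d.ev s := by
  simp only [K3In.tot, gTot, PL.add, TL.ev_add]
  ring

theorem K3Hyp.t5 (H : K3Hyp M ρ u a b f g U W X) (h1 : 54.178 ≤ ρ) (h2 : ρ ≤ 54.1833) (n : ℕ)
    {s : ℝ} (hs : 0 < s) (hs1 : s ≤ 1) :
    TK M s (cv s (n + 2)) ((X.PB.nsm n).add X.P5) (hS ρ u a f U (n + 2 + 3) s)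
      (hS ρ u b g W (n + 2 + 3) s) := by
  have h := H.tS h1 h2 (n + 2) hs hs1 ((H.I s hs hs1).tS5 X.D n)
  refine Mj.congr h rfl rfl ?_ ?_
  · rw [tot_ev1]; rfl
  · rw [tot_ev2]; rfl

/-- the functional rows `k ≥ 3` -/
theorem K3Hyp.rowA (H : K3Hyp M ρ u a b f g U W X) (h1 : 54.178 ≤ ρ) (h2 : ρ ≤ 54.1833)
    (hJ : (108375 : ℝ) / 1000000 ≤ |J 0 ρ|)
    (cf : ∀ k, Continuous fun s => hS ρ u a f U (k + 3) (cl s))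
    (cg : ∀ k, Continuous fun s => hS ρ u b g W (k + 3) (cl s))
    {A A' G G' : ℕ} (hc : X.chk A A' G G' = true) (k : ℕ) :
    Mj M ((A : ℝ) / UU * 2 ^ (k + 3)) ((A' : ℝ) / UU * 2 ^ (k + 3))
      (hTA ρ u a f U (k + 3)) (hTA ρ u b g W (k + 3)) := by
  simp only [K3In.chk, Bool.and_eq_true, decide_eq_true_eq] at hc
  obtain ⟨⟨⟨⟨⟨⟨⟨⟨⟨⟨⟨⟨⟨z1, z2⟩, c3⟩, c3'⟩, c4⟩, c4'⟩, c5⟩, c5'⟩, _⟩, _⟩, _⟩, _⟩, _⟩, _⟩ := hc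
  have hM := H.hM
  match k with
  | 0 =>
    exact rowTA hM (cf 0) (cg 0) hJ (fun s hs hs1 => by
      simpa only [cl_eq ⟨hs.le, hs1⟩] using H.t3 h1 h2 hs hs1) (chkA (k := 0) c3)
      (chkA (k := 0) c3')
  | 1 =>
    exact rowTA hM (cf 1) (cg 1) hJ (fun s hs hs1 => by
      simpa only [cl_eq ⟨hs.le, hs1⟩] using H.t4 h1 h2 hs hs1) (chkA (k := 1) c4)
      (chkA (k := 1) c4')
  | n + 2 =>
    exact rowTA hM (cf (n + 2)) (cg (n + 2)) hJ (fun s hs hs1 => by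
      simpa only [cl_eq ⟨hs.le, hs1⟩] using H.t5 h1 h2 n hs hs1) (chkA5 z1 c5 n)
      (chkA5 z2 c5' n)

theorem rowVk (hM : 0 ≤ M) (hρ : ρ ^ 2 ≤ 293584 / 100) {k : ℕ}
    (cf : Continuous fun s => hS ρ u a f U (k + 3) (cl s))
    (cg : Continuous fun s => hS ρ u b g W (k + 3) (cl s)) {P : PL}
    (hP : ∀ s : ℝ, 0 < s → s ≤ 1 → TK M s (cv s k) P
      (hS ρ u a f U (k + 3) (cl s)) (hS ρ u b g W (k + 3) (cl s))) {G G' : ℕ}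
    (e1 : (293584 : ℝ) / 100 * P.v.row (kG (42 * (k + 3)) (42 * (k + 2)))
      (kG (42 * (k + 3)) (42 * (k + 2))) (kG (42 * (k + 3)) (42 * (k + 2))) ≤ (G : ℝ) / UU)
    (e2 : (293584 : ℝ) / 100 * P.d.row (kG (42 * (k + 3)) (42 * (k + 2)))
      (kG (42 * (k + 3)) (42 * (k + 2))) (kG (42 * (k + 3)) (42 * (k + 2))) ≤ (G' : ℝ) / UU)
    {r : ℝ} (hr : r ∈ Icc (0:ℝ) 1) :
    Mj M ((G : ℝ) / UU * 2 ^ (k + 3) * (r ^ (42 * (k + 2)) * (1 - r ^ 42)))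
      ((G' : ℝ) / UU * 2 ^ (k + 3) * (r ^ (42 * (k + 2)) * (1 - r ^ 42)))
      (hTV ρ u a f U (k + 3) r) (hTV ρ u b g W (k + 3) r) := by
  have h := rowTV hM hρ cf cg hP e1 e2 hr.1 hr.2
  exact Mj.congr h rfl rfl (by ring) (by ring)

/-- the kernel rows `k ≥ 3` -/
theorem K3Hyp.rowV (H : K3Hyp M ρ u a b f g U W X) (h1 : 54.178 ≤ ρ) (h2 : ρ ≤ 54.1833)
    (cf : ∀ k, Continuous fun s => hS ρ u a f U (k + 3) (cl s))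
    (cg : ∀ k, Continuous fun s => hS ρ u b g W (k + 3) (cl s))
    {A A' G G' : ℕ} (hc : X.chk A A' G G' = true) (k : ℕ) {r : ℝ} (hr : r ∈ Icc (0:ℝ) 1) :
    Mj M ((G : ℝ) / UU * 2 ^ (k + 3) * (r ^ (42 * (k + 2)) * (1 - r ^ 42)))
      ((G' : ℝ) / UU * 2 ^ (k + 3) * (r ^ (42 * (k + 2)) * (1 - r ^ 42)))
      (hTV ρ u a f U (k + 3) r) (hTV ρ u b g W (k + 3) r) := by
  simp only [K3In.chk, Bool.and_eq_true, decide_eq_true_eq] at hc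
  obtain ⟨⟨⟨⟨⟨⟨⟨⟨⟨⟨⟨⟨⟨z1, z2⟩, _⟩, _⟩, _⟩, _⟩, _⟩, _⟩, c3⟩, c3'⟩, c4⟩, c4'⟩, c5⟩, c5'⟩ := hc
  have hM := H.hM
  have hρ : ρ ^ 2 ≤ 293584 / 100 := by nlinarith
  match k with
  | 0 =>
    exact rowVk hM hρ (cf 0) (cg 0) (fun s hs hs1 => by
      simpa only [cl_eq ⟨hs.le, hs1⟩] using H.t3 h1 h2 hs hs1) (chkG (k := 0) c3)
      (chkG (k := 0) c3') hr
  | 1 =>
    exact rowVk hM hρ (cf 1) (cg 1) (fun s hs hs1 => by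
      simpa only [cl_eq ⟨hs.le, hs1⟩] using H.t4 h1 h2 hs hs1) (chkG (k := 1) c4)
      (chkG (k := 1) c4') hr
  | n + 2 =>
    exact rowVk hM hρ (cf (n + 2)) (cg (n + 2)) (fun s hs hs1 => by
      simpa only [cl_eq ⟨hs.le, hs1⟩] using H.t5 h1 h2 n hs hs1) (chkG5 c5 n)
      (chkG5 c5' n) hr

end

end

end SCHT
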