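import Pool.Agent.MP_83fd13_an.SCH.PGk

/-!
# [SCH] `hG (k+3)`, `hS (k+3)` and the rows `hTV (k+3)`, `hTA (k+3)` (helper4)
-/

set_option autoImplicit false

namespace SCHT

open MeasureTheory Set Filter Topology
open Pool.Agent.SCH SCHB SCHF SCHS

noncomputable section

theorem TK.mulc {M s c y f g : ℝ} {p : PL} (hy : 0 ≤ y) (H : TK M s c p f g) :
    TK M s (c * y) p (f * y) (g * y) := by
  refine ⟨?_, ?_, ?_⟩
  · rw [abs_mul, abs_of_nonneg hy]
    exact (mul_le_mul_of_nonneg_right H.l hy).trans (le_of_eq (by ring))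
  · rw [abs_mul, abs_of_nonneg hy]
    exact (mul_le_mul_of_nonneg_right H.r hy).trans (le_of_eq (by ring))
  · rw [← sub_mul, abs_mul, abs_of_nonneg hy]
    exact (mul_le_mul_of_nonneg_right H.d hy).trans (le_of_eq (by ring))

/-- pair of `hG (k+3)` from the convolution pair `S` -/
def gTot (D cu c2 c4 c5 : ℕ) (pj : TL) (p1 p2 pt r0 rt v0 v1 v2 vt S : PL) : PL :=
  (((gA D cu pj pt rt v0).add S).add (gD D cu r0 vt)).add (gE D c2 c4 c5 p1 p2 pt v1 v2 vt)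

/-- pair of `hS (k+3)`: `pz` of `U`, `px` of `hX (k+3) (1)` -/
def sTot (D cu c2 c4 c5 : ℕ) (pj : TL) (p1 p2 pt r0 rt v0 v1 v2 vt pz px S : PL) : PL :=
  (gTot D cu c2 c4 c5 pj p1 p2 pt r0 rt v0 v1 v2 vt S).add (pz.add px.shift)

section

variable {M s ρ u a b : ℝ} {f g : ℕ → ℝ} {U W : ℕ → ℝ → ℝ} {cu c2 c4 c5 : ℕ} {pj : TL}
  {p1 p2 pt r0 rt v0 v1 v2 vt pz px : PL} {D : ℕ}

namespace GIn

variable (I : GIn M s ρ u a b f g U W cu c2 c4 c5 pj p1 p2 pt r0 rt v0 v1 v2 vt)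

include I

/-- `hG (k+3)` -/
theorem tG (D k : ℕ) {S : PL} (hSum : TK M s (cv s k) S
    (∑ i ∈ Finset.range (k + 2), hq u f (i + 1) s * hV ρ u a f U (k + 2 - i) s)
    (∑ i ∈ Finset.range (k + 2), hq u g (i + 1) s * hV ρ u b g W (k + 2 - i) s)) :
    TK M s (cv s k) (gTot D cu c2 c4 c5 pj p1 p2 pt r0 rt v0 v1 v2 vt S)
      (hG ρ u a f U (k + 3) s) (hG ρ u b g W (k + 3) s) :=
  (((I.tA D k).add hSum).add (I.tD D k)).add (I.tE D k)

theorem tR (k : ℕ) (hz : TK M s (cv s k) pz (U (k + 3) s) (W (k + 3) s))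
    (hx : TK M s (2 ^ (k + 3)) px (hX ρ a f (k + 3) 1) (hX ρ b g (k + 3) 1)) :
    TK M s (cv s k) (pz.add px.shift) (hR ρ u a f U (k + 3) s) (hR ρ u b g W (k + 3) s) := by
  have e : (2:ℝ) ^ (k + 3) * s ^ (42 * (k + 3)) = cv s k * s ^ 42 := by
    unfold cv
    have : 42 * (k + 3) = 42 * (k + 2) + 42 := by ring
    rw [this, pow_add s]
    ring
  exact hz.sub ((TK.mulc (pow_nonneg I.hs _) hx).congr_c e).shift

theorem tS (D k : ℕ) {S : PL} (hSum : TK M s (cv s k) S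
    (∑ i ∈ Finset.range (k + 2), hq u f (i + 1) s * hV ρ u a f U (k + 2 - i) s)
    (∑ i ∈ Finset.range (k + 2), hq u g (i + 1) s * hV ρ u b g W (k + 2 - i) s))
    (hz : TK M s (cv s k) pz (U (k + 3) s) (W (k + 3) s))
    (hx : TK M s (2 ^ (k + 3)) px (hX ρ a f (k + 3) 1) (hX ρ b g (k + 3) 1)) :
    TK M s (cv s k) (sTot D cu c2 c4 c5 pj p1 p2 pt r0 rt v0 v1 v2 vt pz px S)
      (hS ρ u a f U (k + 3) s) (hS ρ u b g W (k + 3) s) :=
  (I.tG D k hSum).add (I.tR k hz hx)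

end GIn

end

/-! ### rows -/

theorem row_scale (c : ℝ) (κa κb κc : ℕ → ℝ) (L : TL) :
    c * L.row κa κb κc = L.row (fun i => c * κa i) (fun i => c * κb i) (fun i => c * κc i) := by
  unfold TL.row
  rw [Dot_mul, Dot_mul, Dot_mul]
  ring

theorem Gr_zero' {n : ℕ} (hn : 0 < n) (f : ℝ → ℝ) : Gr n f 0 = 0 := by
  unfold Gr
  rw [zero_pow hn.ne']
  simp

/-- the functional row of mode `k + 3` -/
theorem rowTA {M ρ : ℝ} (hM : 0 ≤ M) {k : ℕ} {P : PL} {f g : ℝ → ℝ} (hf : Continuous f)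
    (hg : Continuous g) (hJ : (108375 : ℝ) / 1000000 ≤ |J 0 ρ|)
    (H : ∀ s : ℝ, 0 < s → s ≤ 1 → TK M s (cv s k) P (f s) (g s)) {F F' : ℝ}
    (h1 : (84 * k + 254 : ℝ) * 1000000 / 108375 * P.v.row (ka (42 * (k + 3)) (42 * (k + 2)))
      (kb (42 * (k + 3)) (42 * (k + 2))) (kc (42 * (k + 3)) (42 * (k + 2))) ≤ F)
    (h2 : (84 * k + 254 : ℝ) * 1000000 / 108375 * P.d.row (ka (42 * (k + 3)) (42 * (k + 2)))
      (kb (42 * (k + 3)) (42 * (k + 2))) (kc (42 * (k + 3)) (42 * (k + 2))) ≤ F') :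
    Mj M (F * 2 ^ (k + 3)) (F' * 2 ^ (k + 3))
      (-(2 * ((42 * (k + 3) : ℕ) + 1 : ℝ) / J 0 ρ) * ∫ s in (0:ℝ)..1, s ^ (42 * (k + 3) + 1) * f s)
      (-(2 * ((42 * (k + 3) : ℕ) + 1 : ℝ) / J 0 ρ) *
        ∫ s in (0:ℝ)..1, s ^ (42 * (k + 3) + 1) * g s) := by
  have h := row_intK (n := 42 * (k + 3)) (p := 42 * (k + 2)) hM (m := 2 ^ (k + 3)) (by positivity)
    P hf.continuousOn hg.continuousOn (fun s hs hs1 => H s hs hs1)
  have hJ0 : 0 < |J 0 ρ| := lt_of_lt_of_le (by norm_num) hJ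
  have hc : |-(2 * ((42 * (k + 3) : ℕ) + 1 : ℝ) / J 0 ρ)| ≤
      (84 * k + 254 : ℝ) * 1000000 / 108375 := by
    have hpos : (0 : ℝ) ≤ 2 * ((42 * (k + 3) : ℕ) + 1 : ℝ) := by positivity
    rw [abs_neg, abs_div, abs_of_nonneg hpos, div_le_iff₀ hJ0]
    have h3 : (84 * k + 254 : ℝ) * 1000000 / 108375 * ((108375 : ℝ) / 1000000) ≤
        (84 * k + 254 : ℝ) * 1000000 / 108375 * |J 0 ρ| :=
      mul_le_mul_of_nonneg_left hJ (by positivity)
    refine le_trans (le_of_eq ?_) h3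
    push_cast
    ring
  have h' := Mj.const_mul_le hc h
  refine h'.mono hM ?_ ?_
  · have := mul_le_mul_of_nonneg_right h1 (show (0:ℝ) ≤ 2 ^ (k + 3) by positivity)
    refine le_trans (le_of_eq ?_) this
    ring
  · have := mul_le_mul_of_nonneg_right h2 (show (0:ℝ) ≤ 2 ^ (k + 3) by positivity)
    refine le_trans (le_of_eq ?_) this
    ring

/-- the kernel row of mode `k + 3` -/
theorem rowTV {M ρ : ℝ} (hM : 0 ≤ M) (hρ : ρ ^ 2 ≤ 293584 / 100) {k : ℕ} {P : PL} {f g : ℝ → ℝ}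
    (hf : Continuous f) (hg : Continuous g)
    (H : ∀ s : ℝ, 0 < s → s ≤ 1 → TK M s (cv s k) P (f s) (g s)) {Z Z' : ℝ}
    (h1 : (293584 : ℝ) / 100 * P.v.row (kG (42 * (k + 3)) (42 * (k + 2)))
      (kG (42 * (k + 3)) (42 * (k + 2))) (kG (42 * (k + 3)) (42 * (k + 2))) ≤ Z)
    (h2 : (293584 : ℝ) / 100 * P.d.row (kG (42 * (k + 3)) (42 * (k + 2)))
      (kG (42 * (k + 3)) (42 * (k + 2))) (kG (42 * (k + 3)) (42 * (k + 2))) ≤ Z')
    {r : ℝ} (hr : 0 ≤ r) (hr1 : r ≤ 1) :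
    Mj M (Z * (2 ^ (k + 3) * (r ^ (42 * (k + 2)) * (1 - r ^ 42))))
      (Z' * (2 ^ (k + 3) * (r ^ (42 * (k + 2)) * (1 - r ^ 42))))
      (ρ ^ 2 * Gr (42 * (k + 3)) f r) (ρ ^ 2 * Gr (42 * (k + 3)) g r) := by
  rcases hr.eq_or_lt with h0 | h0
  · rw [← h0, Gr_zero' (by omega), Gr_zero' (by omega), zero_pow (by omega : 42 * (k + 2) ≠ 0)]
    exact (Mj.zero M).congr (by ring) (by ring) (by ring) (by ring)
  have hw : 0 ≤ (2:ℝ) ^ (k + 3) * (r ^ (42 * (k + 2)) * (1 - r ^ 42)) :=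
    mul_nonneg (by positivity) (mul_nonneg (pow_nonneg hr _)
      (sub_nonneg.2 (pow_le_one₀ hr hr1)))
  have h := row_grK (n := 42 * (k + 3)) (p := 42 * (k + 2)) (by omega) (by omega) hM
    (m := 2 ^ (k + 3)) (by positivity) P hf.continuousOn hg.continuousOn
    (fun s hs hs1 => H s hs hs1) h0 hr1
  have e : 42 * (k + 3) - 42 = 42 * (k + 2) := by omega
  rw [e] at h
  have h' := Mj.const_mul_le (c := ρ ^ 2) (C := 293584 / 100)
    (by rw [abs_of_nonneg (sq_nonneg ρ)]; exact hρ) h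
  refine h'.mono hM ?_ ?_
  · have := mul_le_mul_of_nonneg_right h1 hw
    refine le_trans (le_of_eq ?_) this
    ring
  · have := mul_le_mul_of_nonneg_right h2 hw
    refine le_trans (le_of_eq ?_) this
    ring

/-! ### computable kernels -/

/-- functional kernels of mode `m` (`m = 3, 4`), `d = 84 m - 40` -/
def Ka (m i : ℕ) : ℕ := (84 * m + 2) * 1000000 * UU / (108375 * (84 * m - 40 + 42 * i)) + 1
def Kb (m i : ℕ) : ℕ :=
  (84 * m + 2) * 1000000 * UU / (108375 * ((84 * m - 40 + 42 * i) * (84 * m - 39 + 42 * i))) + 1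
def Kc (m i : ℕ) : ℕ :=
  42 * (84 * m + 2) * 1000000 * UU /
    (108375 * ((84 * m - 40 + 42 * i) * (84 * m + 2 + 42 * i))) + 1
/-- the kernel of `Gr` -/
def KGn (m i : ℕ) : ℕ := 293584 * UU / (4200 * (84 * m - 40 + 42 * i)) + 1

theorem Ka_le (k i : ℕ) : (84 * k + 254 : ℝ) * 1000000 / 108375 *
    ka (42 * (k + 3)) (42 * (k + 2)) i ≤ (Ka (k + 3) i : ℝ) / UU := by
  have h := div_le_ceil ((84 * (k + 3) + 2) * 1000000) (108375 * (84 * (k + 3) - 40 + 42 * i))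
    (by omega)
  have e : 84 * (k + 3) - 40 + 42 * i = 84 * k + 212 + 42 * i := by omega
  unfold Ka
  rw [e] at h ⊢
  refine le_trans (le_of_eq ?_) h
  unfold ka
  push_cast
  have : (0:ℝ) < 84 * k + 212 + 42 * i := by positivity
  field_simp
  ring

theorem Kb_le (k i : ℕ) : (84 * k + 254 : ℝ) * 1000000 / 108375 *
    kb (42 * (k + 3)) (42 * (k + 2)) i ≤ (Kb (k + 3) i : ℝ) / UU := by
  have h := div_le_ceil ((84 * (k + 3) + 2) * 1000000)
    (108375 * ((84 * (k + 3) - 40 + 42 * i) * (84 * (k + 3) - 39 + 42 * i))) (by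
      refine Nat.mul_pos (by norm_num) (Nat.mul_pos (by omega) (by omega)))
  have e : 84 * (k + 3) - 40 + 42 * i = 84 * k + 212 + 42 * i := by omega
  have e' : 84 * (k + 3) - 39 + 42 * i = 84 * k + 213 + 42 * i := by omega
  unfold Kb
  rw [e, e'] at h ⊢
  refine le_trans (le_of_eq ?_) h
  unfold kb
  push_cast
  have : (0:ℝ) < 84 * k + 212 + 42 * i := by positivity
  have : (0:ℝ) < 84 * k + 213 + 42 * i := by positivity
  have e1 : (42 * ((k:ℝ) + 3) + 42 * (k + 2) + 42 * i + 2) = 84 * k + 212 + 42 * i := by ring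
  have e2 : (42 * ((k:ℝ) + 3) + 42 * (k + 2) + 42 * i + 3) = 84 * k + 213 + 42 * i := by ring
  rw [e1, e2]
  field_simp
  ring

theorem Kc_le (k i : ℕ) : (84 * k + 254 : ℝ) * 1000000 / 108375 *
    kc (42 * (k + 3)) (42 * (k + 2)) i ≤ (Kc (k + 3) i : ℝ) / UU := by
  have h := div_le_ceil (42 * (84 * (k + 3) + 2) * 1000000)
    (108375 * ((84 * (k + 3) - 40 + 42 * i) * (84 * (k + 3) + 2 + 42 * i))) (by
      refine Nat.mul_pos (by norm_num) (Nat.mul_pos (by omega) (by omega)))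
  have e : 84 * (k + 3) - 40 + 42 * i = 84 * k + 212 + 42 * i := by omega
  unfold Kc
  rw [e] at h ⊢
  refine le_trans (le_of_eq ?_) h
  unfold kc
  push_cast
  have : (0:ℝ) < 84 * k + 212 + 42 * i := by positivity
  have : (0:ℝ) < 84 * k + 254 + 42 * i := by positivity
  have e1 : (42 * ((k:ℝ) + 3) + 42 * (k + 2) + 42 * i + 2) = 84 * k + 212 + 42 * i := by ring
  have e2 : (42 * ((k:ℝ) + 3) + 42 * (k + 2) + 42 * i + 44) = 84 * k + 254 + 42 * i := by ring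
  have e3 : (84 * ((k:ℝ) + 3) + 2 + 42 * i) = 84 * k + 254 + 42 * i := by ring
  rw [e1, e2, e3]
  field_simp
  ring

theorem KG_le (k i : ℕ) : (293584 : ℝ) / 100 * kG (42 * (k + 3)) (42 * (k + 2)) i
    ≤ (KGn (k + 3) i : ℝ) / UU := by
  have h := div_le_ceil 293584 (4200 * (84 * (k + 3) - 40 + 42 * i)) (by omega)
  have e : 84 * (k + 3) - 40 + 42 * i = 84 * k + 212 + 42 * i := by omega
  unfold KGn
  rw [e] at h ⊢
  refine le_trans (le_of_eq ?_) h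
  unfold kG
  push_cast
  have : (0:ℝ) < 84 * k + 212 + 42 * i := by positivity
  field_simp
  ring

/-- the functional check, a fixed mode -/
theorem chkA {k : ℕ} {L : TL} {F : ℕ} (h : L.rowN (Ka (k + 3)) (Kb (k + 3)) (Kc (k + 3)) ≤ F * UU) :
    (84 * k + 254 : ℝ) * 1000000 / 108375 * L.row (ka (42 * (k + 3)) (42 * (k + 2)))
      (kb (42 * (k + 3)) (42 * (k + 2))) (kc (42 * (k + 3)) (42 * (k + 2))) ≤ (F : ℝ) / UU := by
  rw [row_scale]
  refine (TL.row_le (Ka_le k) (Kb_le k) (Kc_le k) L).trans ?_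
  rw [div_le_div_iff₀ (mul_pos UU_pos UU_pos) UU_pos]
  have h' : ((L.rowN (Ka (k + 3)) (Kb (k + 3)) (Kc (k + 3)) : ℕ) : ℝ) ≤ F * UU := by
    exact_mod_cast h
  calc _ ≤ (F * UU : ℝ) * UU := mul_le_mul_of_nonneg_right h' UU_pos.le
    _ = _ := by ring

/-- the kernel check, a fixed mode -/
theorem chkG {k : ℕ} {L : TL} {Z : ℕ}
    (h : L.rowN (KGn (k + 3)) (KGn (k + 3)) (KGn (k + 3)) ≤ Z * UU) :
    (293584 : ℝ) / 100 * L.row (kG (42 * (k + 3)) (42 * (k + 2)))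
      (kG (42 * (k + 3)) (42 * (k + 2))) (kG (42 * (k + 3)) (42 * (k + 2))) ≤ (Z : ℝ) / UU := by
  rw [row_scale]
  refine (TL.row_le (KG_le k) (KG_le k) (KG_le k) L).trans ?_
  rw [div_le_div_iff₀ (mul_pos UU_pos UU_pos) UU_pos]
  have h' : ((L.rowN (KGn (k + 3)) (KGn (k + 3)) (KGn (k + 3)) : ℕ) : ℝ) ≤ Z * UU := by
    exact_mod_cast h
  calc _ ≤ (Z * UU : ℝ) * UU := mul_le_mul_of_nonneg_right h' UU_pos.le
    _ = _ := by ring

/-! ### modes `n + 5` -/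

/-- functional kernels, uniform for `m ≥ 5` -/
def Ka5 (i : ℕ) : ℕ :=
  if i = 0 then 422 * 1000000 * UU / (108375 * 380) + 1 else 1000000 * UU / 108375 + 1
def Kb5 (i : ℕ) : ℕ := 422 * 1000000 * UU / (108375 * (380 * (381 + 42 * i))) + 1
def Kc5 (i : ℕ) : ℕ := 42 * 1000000 * UU / (108375 * (380 + 42 * i)) + 1
/-- `n` times the functional kernels: `b` and `c` parts -/
def KbB : ℕ := 422 * 1000000 * UU / (108375 * (380 * 84)) + 1
def KcB : ℕ := 42 * 1000000 * UU / (108375 * 84) + 1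
/-- kernel of `Gr` -/
def KG5 (i : ℕ) : ℕ := 293584 * UU / (4200 * (380 + 42 * i)) + 1
def KGB : ℕ := 293584 * UU / (4200 * 84) + 1

/-- all entries vanish -/
def allz : List ℕ → Bool
  | [] => true
  | a :: l => a == 0 && allz l

theorem Dot_allz (l : List ℕ) : ∀ κ : ℕ → ℝ, allz l = true → Dot κ l = 0 := by
  induction l with
  | nil => intro κ _; rfl
  | cons a l ih =>
    intro κ h
    simp only [allz, Bool.and_eq_true, beq_iff_eq] at h
    simp only [Dot]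
    rw [h.1, ih _ h.2]
    simp

theorem Ka5_le (n i : ℕ) : (84 * (n + 2 : ℕ) + 254 : ℝ) * 1000000 / 108375 *
    ka (42 * (n + 2 + 3)) (42 * (n + 2 + 2)) i ≤ (Ka5 i : ℝ) / UU := by
  unfold ka
  push_cast
  have e1 : (42 * ((n:ℝ) + 2 + 3) + 42 * (n + 2 + 2) + 42 * i + 2) = 84 * n + 380 + 42 * i := by ring
  rw [e1]
  have hn : (0:ℝ) ≤ n := Nat.cast_nonneg n
  have hi : (0:ℝ) ≤ i := Nat.cast_nonneg i
  unfold Ka5
  split_ifs with h0
  · subst h0
    refine le_trans ?_ (div_le_ceil (422 * 1000000) (108375 * 380) (by norm_num))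
    rw [mul_one_div, div_le_div_iff₀ (by positivity) (by positivity)]
    push_cast
    nlinarith
  · refine le_trans ?_ (div_le_ceil 1000000 108375 (by norm_num))
    have h1 : (1:ℝ) ≤ i := by exact_mod_cast Nat.one_le_iff_ne_zero.2 h0
    rw [mul_one_div, div_le_div_iff₀ (by positivity) (by positivity)]
    push_cast
    nlinarith

theorem Kb5_le (n i : ℕ) : (84 * (n + 2 : ℕ) + 254 : ℝ) * 1000000 / 108375 *
    kb (42 * (n + 2 + 3)) (42 * (n + 2 + 2)) i ≤ (Kb5 i : ℝ) / UU := by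
  unfold kb
  push_cast
  have e1 : (42 * ((n:ℝ) + 2 + 3) + 42 * (n + 2 + 2) + 42 * i + 2) = 84 * n + 380 + 42 * i := by ring
  have e2 : (42 * ((n:ℝ) + 2 + 3) + 42 * (n + 2 + 2) + 42 * i + 3) = 84 * n + 381 + 42 * i := by ring
  rw [e1, e2]
  have hn : (0:ℝ) ≤ n := Nat.cast_nonneg n
  have hi : (0:ℝ) ≤ i := Nat.cast_nonneg i
  unfold Kb5
  refine le_trans ?_ (div_le_ceil (422 * 1000000) (108375 * (380 * (381 + 42 * i)))
    (Nat.mul_pos (by norm_num) (Nat.mul_pos (by norm_num) (by omega))))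
  have h1 : (84 * ((n:ℝ) + 2) + 254) * 380 ≤ 422 * (84 * n + 380 + 42 * i) := by nlinarith
  have h2 : (381 + 42 * (i:ℝ)) ≤ 84 * n + 381 + 42 * i := by nlinarith
  rw [mul_one_div, div_le_div_iff₀ (by positivity) (by positivity)]
  push_cast
  have h3 := mul_le_mul h1 h2 (by positivity) (by positivity)
  nlinarith

theorem Kc5_le (n i : ℕ) : (84 * (n + 2 : ℕ) + 254 : ℝ) * 1000000 / 108375 *
    kc (42 * (n + 2 + 3)) (42 * (n + 2 + 2)) i ≤ (Kc5 i : ℝ) / UU := by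
  unfold kc
  push_cast
  have e1 : (42 * ((n:ℝ) + 2 + 3) + 42 * (n + 2 + 2) + 42 * i + 2) = 84 * n + 380 + 42 * i := by ring
  have e2 : (42 * ((n:ℝ) + 2 + 3) + 42 * (n + 2 + 2) + 42 * i + 44) = 84 * n + 422 + 42 * i := by ring
  rw [e1, e2]
  have hn : (0:ℝ) ≤ n := Nat.cast_nonneg n
  have hi : (0:ℝ) ≤ i := Nat.cast_nonneg i
  unfold Kc5
  refine le_trans ?_ (div_le_ceil (42 * 1000000) (108375 * (380 + 42 * i))
    (Nat.mul_pos (by norm_num) (by omega)))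
  have h1 : (84 * ((n:ℝ) + 2) + 254) ≤ 84 * n + 422 + 42 * i := by nlinarith
  have h2 : (380 + 42 * (i:ℝ)) ≤ 84 * n + 380 + 42 * i := by nlinarith
  rw [div_mul_div_comm, div_le_div_iff₀ (by positivity) (by positivity)]
  push_cast
  have h3 := mul_le_mul h1 h2 (by positivity) (by positivity)
  nlinarith

theorem KbB_le (n i : ℕ) : (n : ℝ) * ((84 * (n + 2 : ℕ) + 254 : ℝ) * 1000000 / 108375 *
    kb (42 * (n + 2 + 3)) (42 * (n + 2 + 2)) i) ≤ (KbB : ℝ) / UU := by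
  unfold kb
  push_cast
  have e1 : (42 * ((n:ℝ) + 2 + 3) + 42 * (n + 2 + 2) + 42 * i + 2) = 84 * n + 380 + 42 * i := by ring
  have e2 : (42 * ((n:ℝ) + 2 + 3) + 42 * (n + 2 + 2) + 42 * i + 3) = 84 * n + 381 + 42 * i := by ring
  rw [e1, e2]
  have hn : (0:ℝ) ≤ n := Nat.cast_nonneg n
  have hi : (0:ℝ) ≤ i := Nat.cast_nonneg i
  unfold KbB
  refine le_trans ?_ (div_le_ceil (422 * 1000000) (108375 * (380 * 84)) (by norm_num))
  have h1 : (84 * ((n:ℝ) + 2) + 254) * 380 ≤ 422 * (84 * n + 380 + 42 * i) := by nlinarith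
  have h2 : (n:ℝ) * 84 ≤ 84 * n + 381 + 42 * i := by nlinarith
  rw [mul_one_div, ← mul_div_assoc, ← mul_div_assoc, div_div,
    div_le_div_iff₀ (by positivity) (by positivity)]
  push_cast
  have h3 := mul_le_mul h1 h2 (by positivity) (by positivity)
  nlinarith

theorem KcB_le (n i : ℕ) : (n : ℝ) * ((84 * (n + 2 : ℕ) + 254 : ℝ) * 1000000 / 108375 *
    kc (42 * (n + 2 + 3)) (42 * (n + 2 + 2)) i) ≤ (KcB : ℝ) / UU := by
  unfold kc
  push_cast
  have e1 : (42 * ((n:ℝ) + 2 + 3) + 42 * (n + 2 + 2) + 42 * i + 2) = 84 * n + 380 + 42 * i := by ring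
  have e2 : (42 * ((n:ℝ) + 2 + 3) + 42 * (n + 2 + 2) + 42 * i + 44) = 84 * n + 422 + 42 * i := by ring
  rw [e1, e2]
  have hn : (0:ℝ) ≤ n := Nat.cast_nonneg n
  have hi : (0:ℝ) ≤ i := Nat.cast_nonneg i
  unfold KcB
  refine le_trans ?_ (div_le_ceil (42 * 1000000) (108375 * 84) (by norm_num))
  have h1 : (84 * ((n:ℝ) + 2) + 254) ≤ 84 * n + 422 + 42 * i := by nlinarith
  have h2 : (n:ℝ) * 84 ≤ 84 * n + 380 + 42 * i := by nlinarith
  rw [div_mul_div_comm, ← mul_div_assoc, div_le_div_iff₀ (by positivity) (by positivity)]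
  push_cast
  have h3 := mul_le_mul h1 h2 (by positivity) (by positivity)
  nlinarith

theorem KG5_le (n i : ℕ) : (293584 : ℝ) / 100 * kG (42 * (n + 2 + 3)) (42 * (n + 2 + 2)) i
    ≤ (KG5 i : ℝ) / UU := by
  unfold kG
  push_cast
  have e1 : (42 * ((n:ℝ) + 2 + 3) + 42 * (n + 2 + 2) + 42 * i + 2) = 84 * n + 380 + 42 * i := by ring
  rw [e1]
  have hn : (0:ℝ) ≤ n := Nat.cast_nonneg n
  have hi : (0:ℝ) ≤ i := Nat.cast_nonneg i
  unfold KG5
  refine le_trans ?_ (div_le_ceil 293584 (4200 * (380 + 42 * i))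
    (Nat.mul_pos (by norm_num) (by omega)))
  rw [div_mul_div_comm, div_le_div_iff₀ (by positivity) (by positivity)]
  push_cast
  nlinarith

theorem KGB_le (n i : ℕ) : (n : ℝ) * ((293584 : ℝ) / 100 *
    kG (42 * (n + 2 + 3)) (42 * (n + 2 + 2)) i) ≤ (KGB : ℝ) / UU := by
  unfold kG
  push_cast
  have e1 : (42 * ((n:ℝ) + 2 + 3) + 42 * (n + 2 + 2) + 42 * i + 2) = 84 * n + 380 + 42 * i := by ring
  rw [e1]
  have hn : (0:ℝ) ≤ n := Nat.cast_nonneg n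
  have hi : (0:ℝ) ≤ i := Nat.cast_nonneg i
  unfold KGB
  refine le_trans ?_ (div_le_ceil 293584 (4200 * 84) (by norm_num))
  rw [div_mul_div_comm, ← mul_div_assoc, div_le_div_iff₀ (by positivity) (by positivity)]
  push_cast
  nlinarith

theorem mulU {x A B : ℝ} {N F : ℕ} (h : x ≤ (N : ℕ) / ((UU : ℝ) * UU)) (hN : N ≤ F * UU)
    (hA : A = x) (hB : B = (F : ℝ) / UU) : A ≤ B := by
  rw [hA, hB]
  refine h.trans ?_
  rw [div_le_div_iff₀ (mul_pos UU_pos UU_pos) UU_pos]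
  have h' : ((N : ℕ) : ℝ) ≤ F * UU := by exact_mod_cast hN
  calc _ ≤ (F * UU : ℝ) * UU := mul_le_mul_of_nonneg_right h' UU_pos.le
    _ = _ := by ring

/-- the functional check, modes `n + 5` -/
theorem chkA5 {B L : TL} {F : ℕ} (hz : allz B.a = true)
    (h : DotN (fun _ => KbB) B.b + DotN (fun _ => KcB) B.c + L.rowN Ka5 Kb5 Kc5 ≤ F * UU) (n : ℕ) :
    (84 * (n + 2 : ℕ) + 254 : ℝ) * 1000000 / 108375 *
      ((B.nsm n).add L).row (ka (42 * (n + 2 + 3)) (42 * (n + 2 + 2)))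
      (kb (42 * (n + 2 + 3)) (42 * (n + 2 + 2))) (kc (42 * (n + 2 + 3)) (42 * (n + 2 + 2)))
      ≤ (F : ℝ) / UU := by
  rw [TL.row_add, TL.row_nsm, mul_add]
  set c : ℝ := (84 * (n + 2 : ℕ) + 254 : ℝ) * 1000000 / 108375 with hc
  have hL := TL.row_le (Ka5_le n) (Kb5_le n) (Kc5_le n) L
  rw [← hc] at hL
  have e2 : c * (n * B.row (ka (42 * (n + 2 + 3)) (42 * (n + 2 + 2)))
      (kb (42 * (n + 2 + 3)) (42 * (n + 2 + 2))) (kc (42 * (n + 2 + 3)) (42 * (n + 2 + 2))))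
      = Dot (fun i => n * (c * kb (42 * (n + 2 + 3)) (42 * (n + 2 + 2)) i)) B.b
        + Dot (fun i => n * (c * kc (42 * (n + 2 + 3)) (42 * (n + 2 + 2)) i)) B.c := by
    unfold TL.row
    rw [Dot_allz _ _ hz, Dot_mul, Dot_mul, Dot_mul, Dot_mul]
    ring
  have hb := Dot_le_DotN B.b _ (fun _ => KbB) (KbB_le n)
  have hcc := Dot_le_DotN B.c _ (fun _ => KcB) (KcB_le n)
  rw [e2, row_scale]
  refine mulU (N := DotN (fun _ => KbB) B.b + DotN (fun _ => KcB) B.c + L.rowN Ka5 Kb5 Kc5)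
    (x := _) ?_ h rfl rfl
  push_cast
  rw [add_div, add_div]
  exact add_le_add (add_le_add hb hcc) hL

/-- the kernel check, modes `n + 5` -/
theorem chkG5 {B L : TL} {Z : ℕ}
    (h : B.rowN (fun _ => KGB) (fun _ => KGB) (fun _ => KGB) + L.rowN KG5 KG5 KG5 ≤ Z * UU)
    (n : ℕ) : (293584 : ℝ) / 100 *
      ((B.nsm n).add L).row (kG (42 * (n + 2 + 3)) (42 * (n + 2 + 2)))
      (kG (42 * (n + 2 + 3)) (42 * (n + 2 + 2))) (kG (42 * (n + 2 + 3)) (42 * (n + 2 + 2)))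
      ≤ (Z : ℝ) / UU := by
  rw [TL.row_add, TL.row_nsm, mul_add]
  have hL := TL.row_le (KG5_le n) (KG5_le n) (KG5_le n) L
  have hB := TL.row_le (KGB_le n) (KGB_le n) (KGB_le n) B
  have e2 : (293584 : ℝ) / 100 * (n * B.row (kG (42 * (n + 2 + 3)) (42 * (n + 2 + 2)))
      (kG (42 * (n + 2 + 3)) (42 * (n + 2 + 2))) (kG (42 * (n + 2 + 3)) (42 * (n + 2 + 2))))
      = B.row (fun i => n * (293584 / 100 * kG (42 * (n + 2 + 3)) (42 * (n + 2 + 2)) i))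
        (fun i => n * (293584 / 100 * kG (42 * (n + 2 + 3)) (42 * (n + 2 + 2)) i))
        (fun i => n * (293584 / 100 * kG (42 * (n + 2 + 3)) (42 * (n + 2 + 2)) i)) := by
    rw [← row_scale, ← row_scale]
    ring
  rw [e2, row_scale]
  refine mulU (N := B.rowN (fun _ => KGB) (fun _ => KGB) (fun _ => KGB) + L.rowN KG5 KG5 KG5)
    (x := _) ?_ h rfl rfl
  push_cast
  rw [add_div]
  exact add_le_add hB hL

end

end SCHT
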