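import Pool.Agent.MP_83fd13_an.SCH.VH3

/-!
# [SCH] `hX 2 (1)` with a centred box for `a` (`a = c0 + s0`, `c0 = -.7886`)

`hX 2 (1) = f 2 PP 84 (1) + f 1 ((f 1 - 1) Q2(1)/43² + (Q2(1)/43² + c0 A2(1)/43) + (a - c0) A2(1)/43)`
-/

set_option autoImplicit false

namespace SCHV

open Pool.Agent.SCH SCHB SCHT

noncomputable section

variable {ρ M s : ℝ}

section

variable (h1 : 54.178 ≤ ρ) (h2 : ρ ≤ 54.1833)
include h1 h2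

omit h1 h2 in
theorem Q2_one_eq : Q2 J ρ 1 = ρ ^ 2 / 8 * J 2 ρ := by
  unfold Q2
  simp only [one_pow, mul_one, one_mul]

omit h1 h2 in
theorem A2_one_eq : A2 J ρ 1 = ρ / 2 * J 41 ρ := by
  unfold A2
  simp only [one_pow, mul_one, one_mul]

/-- `-.02135 ≤ Q2(1)/43² - .7886 A2(1)/43 ≤ -.0211` -/
theorem E2_center : -0.02135 ≤ Q2 J ρ 1 / 43 ^ 2 + (-7886 / 10000) * (A2 J ρ 1 / 43) ∧
    Q2 J ρ 1 / 43 ^ 2 + (-7886 / 10000) * (A2 J ρ 1 / 43) ≤ -0.0211 := by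
  have hJ2 := J2_I (ρ := ρ) (by linarith) (by linarith)
  have hJ41 := J41_I (ρ := ρ) (by linarith) (by linarith)
  have hρ : 0 < ρ := by linarith
  have s1 : 2935.2556 ≤ ρ ^ 2 := by nlinarith
  have s2 : ρ ^ 2 ≤ 2935.8301 := by nlinarith
  have p1 : 318.146 ≤ ρ ^ 2 * J 2 ρ := by nlinarith [hJ2.1, hJ2.2]
  have p2 : ρ ^ 2 * J 2 ρ ≤ 318.3145 := by nlinarith [hJ2.1, hJ2.2]
  have q1 : 4.64841 ≤ ρ * J 41 ρ := by nlinarith [hJ41.1, hJ41.2]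
  have q2 : ρ * J 41 ρ ≤ 4.6737 := by nlinarith [hJ41.1, hJ41.2]
  have e : Q2 J ρ 1 / 43 ^ 2 + (-7886 / 10000) * (A2 J ρ 1 / 43) =
      ρ ^ 2 * J 2 ρ / (8 * 43 ^ 2) - 7886 / 10000 * (ρ * J 41 ρ) / (2 * 43) := by
    rw [Q2_one_eq, A2_one_eq]; ring
  rw [e]
  constructor
  · have : 0 ≤ ρ ^ 2 * J 2 ρ / (8 * 43 ^ 2) - 318.146 / (8 * 43 ^ 2) := by
      rw [← sub_div]; exact div_nonneg (by linarith) (by norm_num)
    linarith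
  · have : 0 ≤ 318.3145 / (8 * 43 ^ 2) - ρ ^ 2 * J 2 ρ / (8 * 43 ^ 2) := by
      rw [← sub_div]; exact div_nonneg (by linarith) (by norm_num)
    linarith

end

/-- table of `Q2(1)/43² + c0 A2(1)/43` -/
def tE2 : PL := .cst 2135000

theorem TJ_E2 (h1 : 54.178 ≤ ρ) (h2 : ρ ≤ 54.1833) :
    TJ M s tE2 (Q2 J ρ 1 / 43 ^ 2 + (-7886 / 10000) * (A2 J ρ 1 / 43))
      (Q2 J ρ 1 / 43 ^ 2 + (-7886 / 10000) * (A2 J ρ 1 / 43)) := by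
  refine TJ.cst ?_
  have h := E2_center h1 h2
  rw [abs_le]
  constructor
  · have : -(((2135000 : ℕ) : ℝ) / UU) = -0.02135 := by unfold UU; norm_num
    rw [this]; exact h.1
  · have : ((2135000 : ℕ) : ℝ) / UU = 0.02135 := by unfold UU; norm_num
    rw [this]; linarith [h.2]

variable {u a b : ℝ} {f g : ℕ → ℝ} {U W : ℕ → ℝ → ℝ} {ps p1 p1m p2 q : PL}

/-- `hX 2 (1)`, centred: `ps`, `p1`, `p1m`, `p2` pairs of `a + .7886`, `f 1`, `f 1 - 1`, `f 2` -/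
def pE2' (D : ℕ) (ps p1 p1m p2 : PL) : PL :=
  (PL.mulD D p2 tP1).add (PL.mulD D p1 (((PL.mulD D p1m tQ1).add tE2).add (PL.mulD D ps tA1)))

variable {D : ℕ} (h1 : 54.178 ≤ ρ) (h2 : ρ ≤ 54.1833) (hM : 0 ≤ M) (hs : 0 ≤ s) (hs1 : s ≤ 1)

include h1 h2 hM hs hs1

theorem TJ_hX2_one' (ha : TJ M s ps (a - (-7886 / 10000)) (b - (-7886 / 10000)))
    (hf : TJ M s p1 (f 1) (g 1)) (hfm : TJ M s p1m (f 1 - 1) (g 1 - 1))
    (hf2 : TJ M s p2 (f 2) (g 2)) :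
    TJ M s (pE2' D ps p1 p1m p2) (hX ρ a f 2 1) (hX ρ b g 2 1) := by
  refine ((TJ.mul hM hs hs1 D hf2 (TJ_P1 h1 h2)).add (TJ.mul hM hs hs1 D hf
    (((TJ.mul hM hs hs1 D hfm (TJ_Q1 h1 h2)).add (TJ_E2 h1 h2)).add
      (TJ.mul hM hs hs1 D ha (TJ_A1 h1 h2))))).congr ?_ ?_
  · unfold hX; ring
  · unfold hX; ring

/-- `hR 2 = U 2 - hX 2 (1) R²`, centred -/
theorem TJ_hR2' (ha : TJ M s ps (a - (-7886 / 10000)) (b - (-7886 / 10000)))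
    (hf : TJ M s p1 (f 1) (g 1)) (hfm : TJ M s p1m (f 1 - 1) (g 1 - 1))
    (hf2 : TJ M s p2 (f 2) (g 2)) (hU : TJ M s q (U 2 s) (W 2 s)) :
    TJ M s (q.add (pE2' D ps p1 p1m p2).shift.shift) (hR ρ u a f U 2 s) (hR ρ u b g W 2 s) := by
  refine (TJ.sub hU (TJ.mulR hs (TJ.mulR hs
    (TJ_hX2_one' (D := D) h1 h2 hM hs hs1 ha hf hfm hf2)))).congr ?_ ?_
  · unfold hR; ring
  · unfold hR; ring

end

end SCHV
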