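import Pool.Agent.MP_83fd13_an.SCH.GH0
import Pool.Agent.MP_83fd13_an.SCH.PGr
import Pool.Agent.MP_83fd13_an.SCH.VH4
import Pool.Agent.MP_83fd13_an.SCH.TBes

/-!
# [SCH] the rows `k = 2` of the hat map: `hS 2`, `hTA 2`, `hTV 2`
-/

set_option autoImplicit false

namespace SCHV

open MeasureTheory Set Filter Topology
open Pool.Agent.SCH SCHB SCHT SCHF SCHS

noncomputable section

/-- the pair of `hS 2 = u hG 2 + hR 2`: `G` pair of `hG 2`, `q` pair of `U 2`, `ps`, `p1`, `p1m`, `p2`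
pairs of `a + .7886`, `f 1`, `f 1 - 1`, `f 2` -/
def pS2 (D : ℕ) (pu G ps p1 p1m p2 q : PL) : PL :=
  (PL.mulD D pu G).add (q.add (pE2' D ps p1 p1m p2).shift.shift)

section

variable {ρ M s u a b : ℝ} {f g : ℕ → ℝ} {U W : ℕ → ℝ → ℝ} {pu G ps p1 p1m p2 q : PL} {D : ℕ}
  (h1 : 54.178 ≤ ρ) (h2 : ρ ≤ 54.1833) (hM : 0 ≤ M) (hs : 0 ≤ s) (hs1 : s ≤ 1)
include h1 h2 hM hs hs1

theorem TJ_hS2 (hu : TJ M s pu u u)
    (hG2 : TJ M s G (hG ρ u a f U 2 s) (hG ρ u b g W 2 s))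
    (ha : TJ M s ps (a - (-7886 / 10000)) (b - (-7886 / 10000)))
    (hf : TJ M s p1 (f 1) (g 1)) (hfm : TJ M s p1m (f 1 - 1) (g 1 - 1))
    (hf2 : TJ M s p2 (f 2) (g 2)) (hU : TJ M s q (U 2 s) (W 2 s)) :
    TJ M s (pS2 D pu G ps p1 p1m p2 q) (hS ρ u a f U 2 s) (hS ρ u b g W 2 s) :=
  (TJ.mul hM hs hs1 D hu hG2).add (TJ_hR2' h1 h2 hM hs hs1 ha hf hfm hf2 hU)

/-- with the factor `s^42` -/
theorem TK_hS2 (hz : PL.z (pS2 D pu G ps p1 p1m p2 q) = true) (hu : TJ M s pu u u)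
    (hG2 : TJ M s G (hG ρ u a f U 2 s) (hG ρ u b g W 2 s))
    (ha : TJ M s ps (a - (-7886 / 10000)) (b - (-7886 / 10000)))
    (hf : TJ M s p1 (f 1) (g 1)) (hfm : TJ M s p1m (f 1 - 1) (g 1 - 1))
    (hf2 : TJ M s p2 (f 2) (g 2)) (hU : TJ M s q (U 2 s) (W 2 s)) :
    TK M s (s ^ 42) (PLtl (pS2 D pu G ps p1 p1m p2 q)) (hS ρ u a f U 2 s) (hS ρ u b g W 2 s) :=
  (TK.unshift hz (TJ_hS2 (D := D) h1 h2 hM hs hs1 hu hG2 ha hf hfm hf2 hU).toTK).congr_c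
    (one_mul _)

end

/-! ### the rows -/

section

variable {ρ M a b : ℝ} {f g : ℕ → ℝ} {U W : ℕ → ℝ → ℝ} {P : PL}

/-- `hee2/ρ²` -/
theorem mj_hee2 (hρ : ρ ∈ Icc rho2 rho1) (hM : 0 ≤ M) {E E' A A' : ℝ}
    (hE : Mj M E E' (f 1 - 1) (g 1 - 1)) (hA : Mj M A A' (a + 0.7886) (b + 0.7886)) :
    Mj M (0.0000029992 * (1 + E) ^ 2 + 0.0000054296 * ((0.7886 + A) * (1 + E)))
      (0.0000059984 * ((1 + E) * E') + 0.0000054296 * (A' * (1 + E) + (0.7886 + A) * E'))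
      (hee2 ρ a f / ρ ^ 2) (hee2 ρ b g / ρ ^ 2) := by
  have hρ0 : ρ ≠ 0 := (I0 hρ).ne'
  have e : ∀ (a : ℝ) (f : ℕ → ℝ), hee2 ρ a f / ρ ^ 2 =
      beta J ρ / 14792 * ((f 1 - 1) + 1) ^ 2 +
        -J 42 ρ / 86 * ((a + 0.7886 - 0.7886) * ((f 1 - 1) + 1)) := by
    intro a f
    have h := hee2_eq hρ a f hρ0
    unfold hee2
    rw [sub_div]
    calc _ = (f 1 / 43) ^ 2 * ρ ^ 3 * J 1 ρ / 8 / ρ ^ 2 -
          a * (f 1 / 43) * ρ ^ 2 * J 42 ρ / 2 / ρ ^ 2 := rfl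
      _ = _ := by rw [h]; ring
  rw [e, e]
  have h1 : Mj M 1 0 (1:ℝ) 1 := Mj.const_le M (by norm_num)
  have h7 : Mj M 0.7886 0 (0.7886:ℝ) 0.7886 := Mj.const_le M (by norm_num)
  have hf := hE.add h1
  have hp := ((hf.sq).const_mul_le (beta_c hρ))
  have hq := (((hA.sub h7).mul hf).const_mul_le (J42_c hρ))
  exact (hp.add hq).mono hM (le_of_eq (by ring)) (le_of_eq (by ring))

/-- **the functional row `k = 2`** -/
theorem row_A2 (hρ : ρ ∈ Icc rho2 rho1) (hM : 0 ≤ M) {E E' A A' X X' : ℝ} (nE' : 0 ≤ E')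
    (nA' : 0 ≤ A')
    (hE : Mj M E E' (f 1 - 1) (g 1 - 1)) (hA : Mj M A A' (a + 0.7886) (b + 0.7886))
    (cf : Continuous fun s => hS ρ (eps0 ρ ^ 2) a f U 2 (cl s))
    (cg : Continuous fun s => hS ρ (eps0 ρ ^ 2) b g W 2 (cl s))
    (H : ∀ s : ℝ, 0 < s → s ≤ 1 → TK M s (s ^ 42) P (hS ρ (eps0 ρ ^ 2) a f U 2 s)
      (hS ρ (eps0 ρ ^ 2) b g W 2 s))
    (h1 : 1568.64 * P.v.row (ka 84 42) (kb 84 42) (kc 84 42) ≤ X)
    (h2 : 1568.64 * P.d.row (ka 84 42) (kb 84 42) (kc 84 42) ≤ X') :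
    Mj M (X + (0.00470467 * (1 + E) ^ 2 + 0.00851709 * ((0.7886 + A) * (1 + E))))
      (X' + (0.00940934 * ((1 + E) * E') + 0.00851709 * (A' * (1 + E) + (0.7886 + A) * E')))
      (hTA ρ (eps0 ρ ^ 2) a f U 2) (hTA ρ (eps0 ρ ^ 2) b g W 2) := by
  have hi := row_intK (n := 84) (p := 42) hM (m := 1) zero_le_one P cf.continuousOn
    cg.continuousOn (fun s hs hs1 => by
      rw [one_mul]
      simpa only [cl_eq ⟨hs.le, hs1⟩] using H s hs hs1)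
  have he := mj_hee2 hρ hM hE hA
  have h := (hi.sub he).const_mul_le (c := -(170 / J 0 ρ)) (C := 1568.64)
    (by rw [abs_neg]; exact J0_inv170 hρ)
  have nE : 0 ≤ E := (abs_nonneg _).trans hE.l
  have nA : 0 ≤ A := (abs_nonneg _).trans hA.l
  refine (h.mono hM ?_ ?_).congr rfl rfl rfl rfl
  · rw [one_mul, mul_add]
    refine add_le_add h1 ?_
    have e1 : 0 ≤ (1 + E) ^ 2 := sq_nonneg _
    have e2 : 0 ≤ (0.7886 + A) * (1 + E) := by positivity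
    nlinarith
  · rw [one_mul, mul_add]
    refine add_le_add h2 ?_
    have e1 : 0 ≤ (1 + E) * E' := by positivity
    have e2 : 0 ≤ A' * (1 + E) + (0.7886 + A) * E' := by positivity
    nlinarith

/-- **the kernel row `k = 2`** -/
theorem row_V2 (hρ : ρ ∈ Icc rho2 rho1) (hM : 0 ≤ M) {X X' : ℝ}
    (cf : Continuous fun s => hS ρ (eps0 ρ ^ 2) a f U 2 (cl s))
    (cg : Continuous fun s => hS ρ (eps0 ρ ^ 2) b g W 2 (cl s))
    (H : ∀ s : ℝ, 0 < s → s ≤ 1 → TK M s (s ^ 42) P (hS ρ (eps0 ρ ^ 2) a f U 2 s)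
      (hS ρ (eps0 ρ ^ 2) b g W 2 s))
    (h1 : 2935.83 * P.v.row (kG 84 42) (kG 84 42) (kG 84 42) ≤ X)
    (h2 : 2935.83 * P.d.row (kG 84 42) (kG 84 42) (kG 84 42) ≤ X') {r : ℝ}
    (hr : r ∈ Icc (0:ℝ) 1) :
    Mj M (X * (r ^ 42 * (1 - r ^ 42))) (X' * (r ^ 42 * (1 - r ^ 42)))
      (hTV ρ (eps0 ρ ^ 2) a f U 2 r) (hTV ρ (eps0 ρ ^ 2) b g W 2 r) := by
  show Mj M _ _ (ρ ^ 2 * Gr (42 * (0 + 2)) (fun s => hS ρ (eps0 ρ ^ 2) a f U (0 + 2) (cl s)) r)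
    (ρ ^ 2 * Gr (42 * (0 + 2)) (fun s => hS ρ (eps0 ρ ^ 2) b g W (0 + 2) (cl s)) r)
  norm_num only
  rcases hr.1.eq_or_lt with h0 | h0
  · rw [← h0, Gr_zero' (by norm_num), Gr_zero' (by norm_num)]
    exact (Mj.zero M).congr (by ring) (by ring) (by ring) (by ring)
  · have hw : 0 ≤ r ^ 42 * (1 - r ^ 42) :=
      mul_nonneg (pow_nonneg hr.1 _) (sub_nonneg.2 (pow_le_one₀ hr.1 hr.2))
    have h := row_grK (n := 84) (p := 42) (by norm_num) (by norm_num) hM (m := 1) zero_le_one P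
      cf.continuousOn cg.continuousOn (fun s hs hs1 => by
        rw [one_mul]
        simpa only [cl_eq ⟨hs.le, hs1⟩] using H s hs hs1) h0 hr.2
    have h' := Mj.const_mul_le (c := ρ ^ 2) (C := 2935.83)
      (by rw [abs_of_nonneg (sq_nonneg ρ)]; exact rho_sq_le hρ) h
    refine h'.mono hM ?_ ?_
    · have := mul_le_mul_of_nonneg_right h1 hw
      refine le_trans (le_of_eq ?_) this
      ring
    · have := mul_le_mul_of_nonneg_right h2 hw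
      refine le_trans (le_of_eq ?_) this
      ring

/-! ### computable kernels -/

def K2a (i : ℕ) : ℕ := 156864 * UU / (100 * (128 + 42 * i)) + 1
def K2b (i : ℕ) : ℕ := 156864 * UU / (100 * ((128 + 42 * i) * (129 + 42 * i))) + 1
def K2c (i : ℕ) : ℕ := 156864 * 42 * UU / (100 * ((128 + 42 * i) * (170 + 42 * i))) + 1
def K2G (i : ℕ) : ℕ := 293583 * UU / (4200 * (128 + 42 * i)) + 1

theorem K2a_le (i : ℕ) : 1568.64 * ka 84 42 i ≤ (K2a i : ℝ) / UU := by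
  refine le_trans (le_of_eq ?_) (div_le_ceil 156864 (100 * (128 + 42 * i)) (by omega))
  unfold ka
  push_cast
  have : (0:ℝ) < 128 + 42 * i := by positivity
  have e : (84 + 42 + 42 * (i:ℝ) + 2) = 128 + 42 * i := by ring
  rw [e]
  field_simp
  norm_num

theorem K2b_le (i : ℕ) : 1568.64 * kb 84 42 i ≤ (K2b i : ℝ) / UU := by
  refine le_trans (le_of_eq ?_) (div_le_ceil 156864 (100 * ((128 + 42 * i) * (129 + 42 * i)))
    (Nat.mul_pos (by norm_num) (Nat.mul_pos (by omega) (by omega))))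
  unfold kb
  push_cast
  have : (0:ℝ) < 128 + 42 * i := by positivity
  have : (0:ℝ) < 129 + 42 * i := by positivity
  have e : (84 + 42 + 42 * (i:ℝ) + 2) = 128 + 42 * i := by ring
  have e' : (84 + 42 + 42 * (i:ℝ) + 3) = 129 + 42 * i := by ring
  rw [e, e']
  field_simp
  norm_num

theorem K2c_le (i : ℕ) : 1568.64 * kc 84 42 i ≤ (K2c i : ℝ) / UU := by
  refine le_trans (le_of_eq ?_) (div_le_ceil (156864 * 42)
    (100 * ((128 + 42 * i) * (170 + 42 * i)))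
    (Nat.mul_pos (by norm_num) (Nat.mul_pos (by omega) (by omega))))
  unfold kc
  push_cast
  have : (0:ℝ) < 128 + 42 * i := by positivity
  have : (0:ℝ) < 170 + 42 * i := by positivity
  have e : (84 + 42 + 42 * (i:ℝ) + 2) = 128 + 42 * i := by ring
  have e' : (84 + 42 + 42 * (i:ℝ) + 44) = 170 + 42 * i := by ring
  rw [e, e']
  field_simp
  norm_num

theorem K2G_le (i : ℕ) : 2935.83 * kG 84 42 i ≤ (K2G i : ℝ) / UU := by
  refine le_trans (le_of_eq ?_) (div_le_ceil 293583 (4200 * (128 + 42 * i)) (by omega))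
  unfold kG
  push_cast
  have : (0:ℝ) < 128 + 42 * i := by positivity
  have e : (84 + 42 + 42 * (i:ℝ) + 2) = 128 + 42 * i := by ring
  rw [e]
  field_simp
  norm_num

/-- the functional check -/
theorem chk2A {L : TL} {F : ℕ} (h : L.rowN K2a K2b K2c ≤ F * UU) :
    1568.64 * L.row (ka 84 42) (kb 84 42) (kc 84 42) ≤ (F : ℝ) / UU := by
  rw [row_scale]
  refine (TL.row_le K2a_le K2b_le K2c_le L).trans ?_
  rw [div_le_div_iff₀ (mul_pos UU_pos UU_pos) UU_pos]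
  have h' : ((L.rowN K2a K2b K2c : ℕ) : ℝ) ≤ F * UU := by exact_mod_cast h
  calc _ ≤ (F * UU : ℝ) * UU := mul_le_mul_of_nonneg_right h' UU_pos.le
    _ = _ := by ring

/-- the kernel check -/
theorem chk2G {L : TL} {F : ℕ} (h : L.rowN K2G K2G K2G ≤ F * UU) :
    2935.83 * L.row (kG 84 42) (kG 84 42) (kG 84 42) ≤ (F : ℝ) / UU := by
  rw [row_scale]
  refine (TL.row_le K2G_le K2G_le K2G_le L).trans ?_
  rw [div_le_div_iff₀ (mul_pos UU_pos UU_pos) UU_pos]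
  have h' : ((L.rowN K2G K2G K2G : ℕ) : ℝ) ≤ F * UU := by exact_mod_cast h
  calc _ ≤ (F * UU : ℝ) * UU := mul_le_mul_of_nonneg_right h' UU_pos.le
    _ = _ := by ring

end

end

end SCHV
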