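import Pool.Agent.MP_83fd13_an.SCH.VH3
import Pool.Agent.MP_83fd13_an.SCH.BesO

/-!
# [SCH] sharper tables for `A2`, `A0`; `hV k`, `hR k`, `k ≥ 3`, with a common factor
-/

set_option autoImplicit false

namespace SCHV

open Pool.Agent.SCH SCHB SCHT

noncomputable section

variable {ρ M s : ℝ}

section

variable (h1 : 54.178 ≤ ρ) (h2 : ρ ≤ 54.1833) (hs : 0 ≤ s) (hs1 : s ≤ 1)
include h1 h2 hs hs1

/-- `|A2 - A2(1) R²| ≤ 4.8765 R (1-R)` -/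
theorem A2_sub2 : |A2 J ρ s - A2 J ρ 1 * s ^ 84| ≤ 4.8765 * (s ^ 42 * (1 - s ^ 42)) := by
  have hρ : 0 < ρ := by linarith
  have h := rJ41_sub2 (ρ := ρ) (by linarith) (by linarith) hs hs1
  have e : A2 J ρ s - A2 J ρ 1 * s ^ 84 =
      (ρ / 2 * (s * J 41 (ρ * s) - s ^ 42 * J 41 ρ)) * s ^ 42 := by
    unfold A2
    simp only [one_pow, mul_one, one_mul]
    ring
  have h42 := pow_nonneg hs 42
  rw [e, abs_mul, abs_of_nonneg h42, abs_mul, abs_of_nonneg (by positivity)]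
  rw [show 4.8765 * (s ^ 42 * (1 - s ^ 42)) = 4.8765 * (1 - s ^ 42) * s ^ 42 by ring]
  refine mul_le_mul_of_nonneg_right ?_ h42
  have h3 : 0 ≤ 1 - s ^ 42 := by
    have h6 : s ^ 42 ≤ 1 := pow_le_one₀ hs hs1
    linarith
  calc ρ / 2 * |s * J 41 (ρ * s) - s ^ 42 * J 41 ρ| ≤ 54.1833 / 2 * (0.18 * (1 - s ^ 42)) := by
        gcongr
    _ ≤ 4.8765 * (1 - s ^ 42) := by nlinarith

/-- `|A0| ≤ s^43 (4.703111 + 208.605705 (1-s))` -/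
theorem A0_b : |A0 J ρ s| ≤ (4.7032 + 208.6058 * (1 - s)) * s ^ 43 := by
  have hρ : 0 < ρ := by linarith
  have h := J43_lin (ρ := ρ) (by linarith) (by linarith) hs hs1
  unfold A0
  rw [abs_neg, abs_mul, abs_of_nonneg (by positivity)]
  have e : s ^ 42 * (ρ * s) * |J 43 (ρ * s)| = (ρ * |J 43 (ρ * s)|) * s ^ 43 := by ring
  rw [e]
  refine mul_le_mul_of_nonneg_right ?_ (pow_nonneg hs 43)
  have h3 : 0 ≤ 1 - s := by linarith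
  calc ρ * |J 43 (ρ * s)| ≤ 54.1833 * (0.0868 + 3.85 * (1 - s)) := by gcongr
    _ ≤ _ := by nlinarith

end

/-- `(A2 - A2(1) R²)/43`, sharper -/
def tA2d : PL := .fix ⟨[], [], [0, 11340700]⟩

/-- `A0/43` in the `(1-s)` form -/
def tA0b : PL := .fix ⟨[0, 10937800], [0, 485129800], []⟩

section

variable (h1 : 54.178 ≤ ρ) (h2 : ρ ≤ 54.1833) (hs : 0 ≤ s) (hs1 : s ≤ 1)
include h1 h2 hs hs1

theorem TJ_A2d : TJ M s tA2d ((A2 J ρ s - A2 J ρ 1 * s ^ 84) / 43)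
    ((A2 J ρ s - A2 J ρ 1 * s ^ 84) / 43) := by
  refine TJ.fix ?_
  have h := A2_sub2 h1 h2 hs hs1
  have hw : 0 ≤ s ^ 42 * (1 - s ^ 42) :=
    mul_nonneg (pow_nonneg hs 42) (sub_nonneg.2 (pow_le_one₀ hs hs1))
  rw [abs_div, abs_of_nonneg (by norm_num : (0 : ℝ) ≤ 43), div_le_iff₀ (by norm_num)]
  simp only [TL.ev, Ev, UU]
  push_cast
  nlinarith

theorem TJ_A0b : TJ M s tA0b (A0 J ρ s / 43) (A0 J ρ s / 43) := by
  refine TJ.fix ?_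
  have h42 : 0 ≤ s ^ 42 := pow_nonneg hs _
  have e43 : s ^ 43 ≤ s ^ 42 := pow_le_pow_of_le_one hs hs1 (by norm_num)
  have h := A0_b h1 h2 hs hs1
  have h3 : 0 ≤ 4.7032 + 208.6058 * (1 - s) := by linarith
  have h4 := h.trans (mul_le_mul_of_nonneg_left e43 h3)
  have h5 : 0 ≤ (1 - s) * s ^ 42 := mul_nonneg (by linarith) h42
  rw [abs_div, abs_of_nonneg (by norm_num : (0 : ℝ) ≤ 43), div_le_iff₀ (by norm_num)]
  simp only [TL.ev, Ev, UU]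
  push_cast
  nlinarith

end

section

variable {u a b : ℝ} {f g : ℕ → ℝ} {U W : ℕ → ℝ → ℝ} {pa p1 p2 pu q : PL}

/-- `hX 0` with table `tA` of `A0/43` (`tA0` or `tA0b`) -/
def pX0t (D : ℕ) (tA pa p1 : PL) : PL :=
  ((PL.mulD D (PL.mulD D p1 p1) tQ0)).add (PL.mulD D (PL.mulD D pa p1) tA)

/-- `hV 0` with table `tA` of `A0/43` -/
def pV0t (D : ℕ) (tA pu pa p1 q : PL) : PL := (pX0t D tA pa p1).add (PL.mulD D pu q)

variable {D : ℕ} (h1 : 54.178 ≤ ρ) (h2 : ρ ≤ 54.1833) (hM : 0 ≤ M) (hs : 0 ≤ s) (hs1 : s ≤ 1)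
include h1 h2 hM hs hs1

theorem TJ_hX0t {tA : PL} (hA : TJ M s tA (A0 J ρ s / 43) (A0 J ρ s / 43))
    (ha : TJ M s pa a b) (hf : TJ M s p1 (f 1) (g 1)) :
    TJ M s (pX0t D tA pa p1) (hX ρ a f 0 s) (hX ρ b g 0 s) := by
  have hff := TJ.mul hM hs hs1 D hf hf
  have haf := TJ.mul hM hs hs1 D ha hf
  refine ((TJ.mul hM hs hs1 D hff (TJ_Q0 h1 h2 hs hs1)).add
    (TJ.mul hM hs hs1 D haf hA)).congr ?_ ?_
  · unfold hX; ring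
  · unfold hX; ring

theorem TJ_hV0t {tA : PL} (hA : TJ M s tA (A0 J ρ s / 43) (A0 J ρ s / 43))
    (hu : TJ M s pu u u) (ha : TJ M s pa a b) (hf : TJ M s p1 (f 1) (g 1))
    (hU : TJ M s q (U 0 s) (W 0 s)) :
    TJ M s (pV0t D tA pu pa p1 q) (hV ρ u a f U 0 s) (hV ρ u b g W 0 s) :=
  (TJ_hX0t h1 h2 hM hs hs1 hA ha hf).add (TJ.mul hM hs hs1 D hu hU)

theorem TJ_hV0b (hu : TJ M s pu u u) (ha : TJ M s pa a b) (hf : TJ M s p1 (f 1) (g 1))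
    (hU : TJ M s q (U 0 s) (W 0 s)) :
    TJ M s (pV0t D tA0b pu pa p1 q) (hV ρ u a f U 0 s) (hV ρ u b g W 0 s) :=
  TJ_hV0t h1 h2 hM hs hs1 (TJ_A0b h1 h2 hs hs1) hu ha hf hU

/-- `hV 2` with the sharper table of `A2`, `(1-R)` form -/
theorem TJ_hV2d (ha : TJ M s pa a b) (hf : TJ M s p1 (f 1) (g 1)) (hf2 : TJ M s p2 (f 2) (g 2))
    (hU : TJ M s q (U 2 s) (W 2 s)) :
    TJ M s (pV2 D tP2c tQ2c tA2d pa p1 p2 q) (hV ρ u a f U 2 s) (hV ρ u b g W 2 s) :=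
  TJ_hV2 hM hs hs1 (TJ_P2c h1 h2 hs hs1) (TJ_Q2c h1 h2 hs hs1) (TJ_A2d h1 h2 hs hs1) ha hf hf2 hU

/-- `hV 2` with the sharper table of `A2`, `(1-s)` form for the other two -/
theorem TJ_hV2e (ha : TJ M s pa a b) (hf : TJ M s p1 (f 1) (g 1)) (hf2 : TJ M s p2 (f 2) (g 2))
    (hU : TJ M s q (U 2 s) (W 2 s)) :
    TJ M s (pV2 D tP2b tQ2b tA2d pa p1 p2 q) (hV ρ u a f U 2 s) (hV ρ u b g W 2 s) :=
  TJ_hV2 hM hs hs1 (TJ_P2b h1 h2 hs hs1) (TJ_Q2b h1 h2 hs hs1) (TJ_A2d h1 h2 hs hs1) ha hf hf2 hU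

end

end

end SCHV
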