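import Pool.Agent.MP_83fd13_an.SCH.QP
import Pool.Agent.MP_83fd13_an.SCH.GH1
import Pool.Agent.MP_83fd13_an.SCH.PGf
import Pool.Agent.MP_83fd13_an.SCH.VH5
import Pool.Agent.MP_83fd13_an.SCH.Row2
import Pool.Agent.MP_83fd13_an.SCH.TNum

/-!
# [SCH] all derived pairs from the numbers `Num` (helper38)

`t : Tab` is a choice of tables (`tabA` plain, for the function rows; `tabB` with `1 - s`, for the
functional rows). All pairs are computable functions of `N` and `t`.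
-/

set_option autoImplicit false

namespace SCHT

open MeasureTheory Set Filter Topology
open Pool.Agent.SCH SCHB SCHF SCHS SCHV

noncomputable section

/-! ### tables -/

/-- a choice of tables -/
structure Tab where
  tP : PL
  tJ : PL
  tP2 : PL
  tQ2 : PL
  tA2 : PL
  tA0 : PL
  tP84 : PL
  tQ : PL

/-- plain tables -/
def tabA : Tab := ⟨tPa, tJa, tP2c, tQ2c, tA2d, SCHV.tA0, tP84a, tQ2a⟩

/-- tables with `1 - s` -/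
def tabB : Tab := ⟨tPb, tJb, tP2b, tQ2b, tA2d, tA0b, tP84b, tQ2a⟩

/-- the tables are correct at `s` -/
structure Tab.OK (t : Tab) (M s ρ : ℝ) : Prop where
  P : TJ M s t.tP (PP J ρ 42 s) (PP J ρ 42 s)
  J42 : TJ M s t.tJ (J 42 (ρ * s)) (J 42 (ρ * s))
  P2 : TJ M s t.tP2 (PP J ρ 84 s - PP J ρ 84 1 * s ^ 84) (PP J ρ 84 s - PP J ρ 84 1 * s ^ 84)
  Q2' : TJ M s t.tQ2 ((Q2 J ρ s - Q2 J ρ 1 * s ^ 84) / 43 ^ 2)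
      ((Q2 J ρ s - Q2 J ρ 1 * s ^ 84) / 43 ^ 2)
  A2' : TJ M s t.tA2 ((A2 J ρ s - A2 J ρ 1 * s ^ 84) / 43)
      ((A2 J ρ s - A2 J ρ 1 * s ^ 84) / 43)
  A0' : TJ M s t.tA0 (A0 J ρ s / 43) (A0 J ρ s / 43)
  P84 : TJ M s t.tP84 (PP J ρ 84 s) (PP J ρ 84 s)
  Q : TJ M s t.tQ (Q2 J ρ s / 43 ^ 2) (Q2 J ρ s / 43 ^ 2)

theorem tabA_ok {M s ρ : ℝ} (h1 : 54.178 ≤ ρ) (h2 : ρ ≤ 54.1833) (hs : 0 ≤ s) (hs1 : s ≤ 1) :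
    tabA.OK M s ρ :=
  ⟨TJ_Pa h1 h2 hs hs1, TJ_Ja h1 h2 hs hs1, TJ_P2c h1 h2 hs hs1, TJ_Q2c h1 h2 hs hs1,
    TJ_A2d h1 h2 hs hs1, TJ_A0 h1 h2 hs hs1, TJ_P84a h1 h2 hs hs1, TJ_Q2a h1 h2 hs hs1⟩

theorem tabB_ok {M s ρ : ℝ} (h1 : 54.178 ≤ ρ) (h2 : ρ ≤ 54.1833) (hs : 0 ≤ s) (hs1 : s ≤ 1) :
    tabB.OK M s ρ :=
  ⟨TJ_Pb h1 h2 hs hs1, TJ_Jb h1 h2 hs hs1, TJ_P2b h1 h2 hs hs1, TJ_Q2b h1 h2 hs hs1,
    TJ_A2d h1 h2 hs hs1, TJ_A0b h1 h2 hs hs1, TJ_P84b h1 h2 hs hs1, TJ_Q2a h1 h2 hs hs1⟩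

/-! ### the pairs -/

namespace Num

variable (N : Num) (t : Tab)

/-- `hqr 0`, `hqr 0 - f_1² R²`, `hqr2`, `hqr 1`, `hqr 2`, `hq 1`, `hq 2` -/
def r0 : PL := pr0 N.D N.pu N.p1 N.p2 N.F N.F'
def r0m : PL := pr0m N.D N.pu N.p2 N.F N.F'
def rr : PL := prr N.D N.pu N.p2 N.F N.F'
def r1 : PL := pr1 N.D N.pu N.p1 N.p2 N.F N.F'
def r2 : PL := pr2 N.D N.pu N.p1 N.p2 N.F N.F'
def qq1 : PL := pq1 N.D N.pu N.p1 N.p2 N.F N.F'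
def qq2 : PL := pq2 N.D N.pu N.p1 N.p2 N.F N.F'

/-- with factors: `hq 1` (`s^42`), `hq 2` (`s^84`), `hq k`, `hqr k` (`cq s k`), `k ≥ 3` -/
def q1k : PL := pq1k N.D N.pu N.p1 N.p2 N.F N.F'
def q2k : PL := pq2k N.D N.pu N.p1 N.p2 N.F N.F'
def qt : PL := pqt N.D N.pu N.p1 N.p2 N.F N.F'
def rt : PL := prt N.D N.pu N.p1 N.p2 N.F N.F'

/-- uniform bounds of `hq k`, `hV k`, `k ≥ 3` -/
def Qn : ℕ := N.qt.v.tot.sum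
def Qn' : ℕ := N.qt.d.tot.sum
def Cn : ℕ := (2984500 * N.F + (UU - 1)) / UU + N.Z
def Cn' : ℕ := (2984500 * N.F' + (UU - 1)) / UU + N.Z'

/-- `hX 2 (1)` -/
def pE : PL := pE2' N.D N.pm N.p1 N.p1m N.p2

/-- `hV 0`, `hV 1`, `hV 2` -/
def v0 : PL := pV0t N.D t.tA0 N.pu N.pa N.p1 N.q0
def v1 : PL := pV1 N.D t.tP t.tJ N.pu N.pa N.p1 N.q1
def v2 : PL := pV2 N.D t.tP2 t.tQ2 t.tA2 N.pa N.p1 N.p2 N.q2

/-- `hV 2 / R` -/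
def v2k : PL := PLtl (N.v2 t)

/-- `hV k`, `k ≥ 3` -/
def vt : PL := pVk N.F N.F' N.Z N.Z'

/-- `hG 0` -/
def G0 : PL := gG0 N.D 80248700 N.rr N.r0 (N.v0 t) N.p1 N.q1 N.r1 (N.v1 t) N.q2k (N.v2k t) N.qt N.vt

/-- `hG 0 / R³` -/
def G0k : PL := PLtl (PLtl (PLtl (N.G0 t)))

/-- `hG 1` -/
def G1 : PL := pG1 N.D t.tP tK t.tP84 t.tQ N.pu N.pa N.p1 N.p2 N.pE (PL.j0 N.r1) N.r0m N.r1 N.qq2
  (N.v0 t) (N.v1 t) (N.v2 t) N.q0 N.q1 N.q2 N.Qn N.Qn' N.Cn N.Cn'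

/-- `hG 1 / R²` -/
def G1k : PL := PLtl (PLtl (N.G1 t))

/-- `hG 2` -/
def G2 : PL := pG2 N.D N.pu N.p1 N.q1 N.r0 N.r1 N.r2 N.qq1 N.qq2 (N.v0 t) (N.v1 t) (N.v2 t)
  N.Qn N.Qn' N.Cn N.Cn'

/-- `hS 2` -/
def S2 : PL := pS2 N.D N.pu (N.G2 t) N.pm N.p1 N.p1m N.p2 N.q2

/-- `hS 2 / R` -/
def S2k : PL := PLtl (N.S2 t)

/-- bound of `R |J_0|` -/
def pj : TL := ⟨[129084, 10713918], [], []⟩

/-- the input of the rows `k ≥ 3` -/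
def k3 : K3In where
  D := N.D
  cu := 1194000
  c2 := 2388000
  c4 := 57026
  c5 := 22882
  pj := pj
  p1 := N.q1k
  p2 := N.q2k
  pt := N.qt
  r0 := N.r0
  rt := N.rt
  v0 := N.v0 t
  v1 := N.v1 t
  v2 := N.v2k t
  vt := N.vt
  F := N.F
  F' := N.F'
  Z := N.Z
  Z' := N.Z'

/-- the checks on leading zeros -/
def zchk : Bool :=
  PL.z N.rr && (PL.z N.r1 && (PL.z N.r2 && (PL.z (N.v2 t) && (PLz3 (N.G0 t) && (PLz2 (N.G1 t) &&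
    PL.z (N.S2 t))))))

end Num

/-! ### the facts -/

theorem pj_le {ρ s : ℝ} (h1 : 54.178 ≤ ρ) (h2 : ρ ≤ 54.1833) (hs : 0 ≤ s) (hs1 : s ≤ 1) :
    |s ^ 42 * J 0 (ρ * s)| ≤ Num.pj.ev s := by
  have h := R_J0 h1 h2 hs hs1
  have h0 : 0 ≤ s ^ 42 := pow_nonneg hs _
  have h3 : s ^ 42 ≤ 1 := pow_le_one₀ hs hs1
  rw [abs_mul, abs_of_nonneg h0]
  refine h.trans ?_
  simp only [Num.pj, TL.ev, Ev, UU]
  push_cast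
  nlinarith

namespace At

variable {N : Num} {M s ρ u a b : ℝ} {f g : ℕ → ℝ} {U W : ℕ → ℝ → ℝ} {t : Tab}

variable (H : At N M s ρ u a b f g U W)

include H

theorem hs : 0 ≤ s := H.s0.le

theorem tA : tabA.OK M s ρ := tabA_ok H.ρ1 H.ρ2 H.hs H.s1

theorem tB : tabB.OK M s ρ := tabB_ok H.ρ1 H.ρ2 H.hs H.s1

theorem qin : QIn M s u f g N.pu N.p1 N.p2 N.F N.F' :=
  ⟨H.hM, H.hs, H.s1, H.u0, by linarith [H.u1], H.ua, H.f1, H.f2, H.ft⟩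

theorem tr0 : TJ M s N.r0 (hqr u f 0 s) (hqr u g 0 s) := H.qin.r0 N.D
theorem tr0m : TJ M s N.r0m (hqr u f 0 s - f 1 ^ 2 * s ^ 84) (hqr u g 0 s - g 1 ^ 2 * s ^ 84) :=
  H.qin.r0m N.D
theorem trr : TJ M s N.rr (hqr2 u f s) (hqr2 u g s) := H.qin.rr N.D
theorem tr1 : TJ M s N.r1 (hqr u f 1 s) (hqr u g 1 s) := H.qin.r1 N.D
theorem tr2 : TJ M s N.r2 (hqr u f 2 s) (hqr u g 2 s) := H.qin.r2 N.D
theorem tqq1 : TJ M s N.qq1 (hq u f 1 s) (hq u g 1 s) := H.qin.q1 N.D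
theorem tqq2 : TJ M s N.qq2 (hq u f 2 s) (hq u g 2 s) := H.qin.q2 N.D
theorem tq1k : TK M s (s ^ 42) N.q1k (hq u f 1 s) (hq u g 1 s) := H.qin.q1k N.D
theorem tq2k : TK M s (s ^ 84) N.q2k (hq u f 2 s) (hq u g 2 s) := H.qin.q2k N.D
theorem tqt (k : ℕ) : TK M s (cq s (k + 3)) N.qt (hq u f (k + 3) s) (hq u g (k + 3) s) :=
  H.qin.qt N.D k
theorem trt (k : ℕ) : TK M s (cq s (k + 3)) N.rt (hqr u f (k + 3) s) (hqr u g (k + 3) s) :=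
  H.qin.rt N.D k

theorem tQ : QB M s N.Qn N.Qn' (fun k => hq u f k s) (fun k => hq u g k s) := H.qin.qb N.D

theorem tvt (k : ℕ) : TK M s (cv s k) N.vt (hV ρ u a f U (k + 3) s) (hV ρ u b g W (k + 3) s) :=
  TK_hVk H.ρ1 H.ρ2 H.hM H.hs H.s1 k (H.ft k) (H.Ut k)

omit H in
theorem ev_vt (N : Num) (s : ℝ) : N.vt.v.ev s = (N.Cn : ℝ) / UU * (1 - s ^ 42) ∧
    N.vt.d.ev s = (N.Cn' : ℝ) / UU * (1 - s ^ 42) := by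
  constructor
  · show (⟨[], [], [N.Cn]⟩ : TL).ev s = _
    exact ev_pcR _ _
  · show (⟨[], [], [N.Cn']⟩ : TL).ev s = _
    exact ev_pcR _ _

theorem tV : VB M s N.Cn N.Cn' (fun k => hV ρ u a f U k s) (fun k => hV ρ u b g W k s) := by
  intro k hk
  obtain ⟨j, rfl⟩ : ∃ j, k = j + 3 := ⟨k - 3, by omega⟩
  have e : j + 3 - 1 = j + 2 := by omega
  rw [e]
  obtain ⟨e1, e2⟩ := ev_vt N s
  refine Mj.congr (H.tvt j) rfl rfl ?_ ?_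
  · rw [e1]; unfold cv; ring
  · rw [e2]; unfold cv; ring

theorem tail : TailB M s ρ u a b f g U W N.Qn N.Qn' N.Cn N.Cn' := ⟨H.tQ, H.tV⟩

theorem tE : TJ M s N.pE (hX ρ a f 2 1) (hX ρ b g 2 1) :=
  TJ_hX2_one' H.ρ1 H.ρ2 H.hM H.hs H.s1 H.am H.f1 H.f1m H.f2

variable (T : t.OK M s ρ)

include T

theorem tv0 : TJ M s (N.v0 t) (hV ρ u a f U 0 s) (hV ρ u b g W 0 s) :=
  TJ_hV0t H.ρ1 H.ρ2 H.hM H.hs H.s1 T.A0' H.ua H.aa H.f1 H.U0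

theorem tv1 : TJ M s (N.v1 t) (hV ρ u a f U 1 s) (hV ρ u b g W 1 s) :=
  TJ_hV1 H.hM H.hs H.s1 T.P T.J42 H.ua H.aa H.f1 H.U1

theorem tv2 : TJ M s (N.v2 t) (hV ρ u a f U 2 s) (hV ρ u b g W 2 s) :=
  TJ_hV2 H.hM H.hs H.s1 T.P2 T.Q2' T.A2' H.aa H.f1 H.f2 H.U2

theorem tv2k (hz : PL.z (N.v2 t) = true) :
    TK M s (s ^ 42) (N.v2k t) (hV ρ u a f U 2 s) (hV ρ u b g W 2 s) :=
  (TK.unshift hz (H.tv2 T).toTK).congr_c (one_mul _)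

theorem gin (hz : PL.z (N.v2 t) = true) : GIn M s ρ u a b f g U W 1194000 2388000 57026 22882
    Num.pj N.q1k N.q2k N.qt N.r0 N.rt (N.v0 t) (N.v1 t) (N.v2k t) N.vt := by
  have hu0 := H.u0
  have hu1 := H.u1
  refine ⟨H.hM, H.hs, H.s1, hu0, ?_, ?_, ?_, ?_, ?_, pj_le H.ρ1 H.ρ2 H.hs H.s1, H.tq1k, H.tq2k,
    H.tqt, H.tr0, H.trt, H.tv0 T, H.tv1 T, H.tv2k T hz, H.tvt⟩
  · unfold UU; push_cast; linarith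
  · unfold UU; push_cast; linarith
  · unfold UU; push_cast; nlinarith
  · linarith
  · unfold UU
    push_cast
    rw [div_le_iff₀ (by linarith)]
    have h3 : u ^ 3 ≤ (1194 / 100000) ^ 3 := pow_le_pow_left₀ hu0 hu1 3
    have e : 2 * (4 * u) ^ 3 = 128 * u ^ 3 := by ring
    rw [e]
    norm_num at h3 ⊢
    linarith

/-- **`hG 0`** -/
theorem tG0 (hz : N.zchk t = true) :
    TK M s (s ^ 126) (N.G0k t) (hG ρ u a f U 0 s) (hG ρ u b g W 0 s) := by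
  simp only [Num.zchk, Bool.and_eq_true] at hz
  have hu0 := H.u0
  have hu1 := H.u1
  refine TJ.unshift3 hz.2.2.2.2.1 ((H.gin T hz.2.2.2.1).tG0 H.ρ1 H.ρ2 ?_ H.trr hz.1 H.f1 H.U1 H.tr1)
  unfold UU
  push_cast
  rw [div_le_iff₀ (by linarith)]
  linarith

/-- **`hG 1`** -/
theorem tG1 (hz : N.zchk t = true) :
    TK M s (s ^ 84) (N.G1k t) (hG ρ u a f U 1 s) (hG ρ u b g W 1 s) := by
  simp only [Num.zchk, Bool.and_eq_true] at hz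
  exact TJ.unshift2 hz.2.2.2.2.2.1 (TJ_hG1 N.D H.ρ1 H.ρ2 H.hM H.hs H.s1 H.u0 H.u1 T.P
    (TJ_K H.ρ1 H.ρ2 H.hs H.s1) T.P84 T.Q H.ua H.aa H.f1 H.f2 H.tE
    (TJ_mulJ0 H.ρ1 H.ρ2 H.hM H.hs H.s1 hz.2.1 H.tr1) H.tr0m H.tr1 H.tqq2 (H.tv0 T) (H.tv1 T)
    (H.tv2 T) H.U0 H.U1 H.U2 H.tail)

/-- **`hG 2`** -/
theorem tG2 (hz : N.zchk t = true) :
    TJ M s (N.G2 t) (hG ρ u a f U 2 s) (hG ρ u b g W 2 s) := by
  simp only [Num.zchk, Bool.and_eq_true] at hz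
  exact TJ_hG2 H.ρ1 H.ρ2 H.hM H.hs H.s1 H.u0 (by linarith [H.u1]) N.D hz.2.2.1 H.ua H.f1 H.U1
    H.tr0 H.tr1 H.tr2 H.tqq1 H.tqq2 (H.tv0 T) (H.tv1 T) (H.tv2 T) H.tQ H.tV

/-- **`hS 2`** -/
theorem tS2 (hz : N.zchk t = true) :
    TK M s (s ^ 42) (N.S2k t) (hS ρ u a f U 2 s) (hS ρ u b g W 2 s) := by
  have hz' := hz
  simp only [Num.zchk, Bool.and_eq_true] at hz'
  exact TK_hS2 H.ρ1 H.ρ2 H.hM H.hs H.s1 hz'.2.2.2.2.2.2 H.ua (H.tG2 T hz) H.am H.f1 H.f1m H.f2 H.U2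

end At

/-- **the hypotheses of the rows `k ≥ 3`** -/
theorem k3hyp {N : Num} {M ρ u a b : ℝ} {f g : ℕ → ℝ} {U W : ℕ → ℝ → ℝ} {t : Tab}
    (H : ∀ s : ℝ, 0 < s → s ≤ 1 → At N M s ρ u a b f g U W)
    (T : ∀ s : ℝ, 0 < s → s ≤ 1 → t.OK M s ρ) (hz : N.zchk t = true) :
    K3Hyp M ρ u a b f g U W (N.k3 t) := by
  simp only [Num.zchk, Bool.and_eq_true] at hz
  exact ⟨fun s h0 h1 => (H s h0 h1).gin (T s h0 h1) hz.2.2.2.1, (H 1 one_pos le_rfl).ft,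
    fun k s h0 h1 => (H s h0 h1).Ut k⟩

end

end SCHT
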