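import Pool.Agent.MP_83fd13_an.SCH.WieD

set_option autoImplicit false

/-!
# Reflective majorant arithmetic (project SCH)

Coefficient lists of natural numbers in units of `10⁻⁸`; `Ev L R = ∑ i, (L_i / 10⁸) R^i`. A triple
`TL` of lists represents the majorant `a(R) + (1 - s) b(R) + (1 - R) c(R)`, `R = s^42`. All
operations round up and are computable.
-/

noncomputable section

namespace Pool.Agent.SCH

open Set Filter Topology MeasureTheory

/-- the unit of the fixed point arithmetic -/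
def UU : ℕ := 100000000

theorem UU_pos : (0:ℝ) < (UU : ℝ) := by unfold UU; norm_num

/-- evaluation of a coefficient list -/
def Ev : List ℕ → ℝ → ℝ
  | [], _ => 0
  | a :: l, R => (a : ℝ) / UU + R * Ev l R

/-- sum of two lists -/
def ladd : List ℕ → List ℕ → List ℕ
  | [], m => m
  | a :: l, [] => a :: l
  | a :: l, b :: m => (a + b) :: ladd l m

/-- rounded multiple -/
def lsc (c : ℕ) : List ℕ → List ℕ
  | [] => []
  | a :: l => ((c * a + (UU - 1)) / UU) :: lsc c l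

/-- rounded product -/
def lmul : List ℕ → List ℕ → List ℕ
  | [], _ => []
  | a :: l, m => ladd (lsc a m) (0 :: lmul l m)

/-- fold all degrees `> D` into degree `D` -/
def lfold : ℕ → List ℕ → List ℕ
  | _, [] => []
  | 0, l => [l.sum]
  | D + 1, a :: l => a :: lfold D l

/-- termwise comparison -/
def lle : List ℕ → List ℕ → Bool
  | [], _ => true
  | a :: l, [] => a == 0 && lle l []
  | a :: l, b :: m => Nat.ble a b && lle l m

theorem Ev_nonneg {R : ℝ} (hR : 0 ≤ R) (l : List ℕ) : 0 ≤ Ev l R := by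
  induction l with
  | nil => exact le_rfl
  | cons a l ih =>
    have h1 : 0 ≤ (a : ℝ) / UU := div_nonneg (Nat.cast_nonneg _) UU_pos.le
    exact add_nonneg h1 (mul_nonneg hR ih)

theorem Ev_ladd (R : ℝ) : ∀ l m : List ℕ, Ev (ladd l m) R = Ev l R + Ev m R
  | [], m => by simp [ladd, Ev]
  | a :: l, [] => by simp [ladd, Ev]
  | a :: l, b :: m => by
    simp only [ladd, Ev, Ev_ladd R l m]
    push_cast
    ring

theorem ceil_mul (c a : ℕ) : (c : ℝ) / UU * ((a : ℝ) / UU) ≤ ((c * a + (UU - 1)) / UU : ℕ) / UU := by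
  have hU : 0 < UU := by unfold UU; norm_num
  have h1 : c * a ≤ UU * ((c * a + (UU - 1)) / UU) := by
    have h2 := Nat.lt_div_mul_add (a := c * a + (UU - 1)) hU
    have h3 : (c * a + (UU - 1)) / UU * UU = UU * ((c * a + (UU - 1)) / UU) := Nat.mul_comm _ _
    omega
  have h2 : (c : ℝ) * a ≤ UU * ((c * a + (UU - 1)) / UU : ℕ) := by exact_mod_cast h1
  rw [div_mul_div_comm, div_le_div_iff₀ (mul_pos UU_pos UU_pos) UU_pos]
  have h3 := mul_le_mul_of_nonneg_right h2 UU_pos.le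
  nlinarith

theorem Ev_lsc {R : ℝ} (hR : 0 ≤ R) (c : ℕ) (l : List ℕ) :
    (c : ℝ) / UU * Ev l R ≤ Ev (lsc c l) R := by
  induction l with
  | nil => simp [lsc, Ev]
  | cons a l ih =>
    simp only [lsc, Ev]
    have h1 := ceil_mul c a
    have h2 := mul_le_mul_of_nonneg_left ih hR
    calc (c : ℝ) / UU * ((a : ℝ) / UU + R * Ev l R)
        = (c : ℝ) / UU * ((a : ℝ) / UU) + R * ((c : ℝ) / UU * Ev l R) := by ring
      _ ≤ _ := add_le_add h1 h2

theorem Ev_lmul {R : ℝ} (hR : 0 ≤ R) (l m : List ℕ) : Ev l R * Ev m R ≤ Ev (lmul l m) R := by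
  induction l with
  | nil => simp [lmul, Ev]
  | cons a l ih =>
    simp only [lmul, Ev_ladd, Ev]
    have h1 := Ev_lsc hR a m
    have h2 := mul_le_mul_of_nonneg_left ih hR
    calc ((a : ℝ) / UU + R * Ev l R) * Ev m R
        = (a : ℝ) / UU * Ev m R + R * (Ev l R * Ev m R) := by ring
      _ ≤ Ev (lsc a m) R + R * Ev (lmul l m) R := add_le_add h1 h2
      _ = _ := by simp

theorem Ev_le_sum {R : ℝ} (hR : 0 ≤ R) (hR1 : R ≤ 1) (l : List ℕ) :
    Ev l R ≤ (l.sum : ℕ) / UU := by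
  induction l with
  | nil => simp [Ev]
  | cons a l ih =>
    simp only [Ev, List.sum_cons]
    rw [Nat.cast_add, add_div]
    have h0 := Ev_nonneg hR l
    have h1 : R * Ev l R ≤ 1 * Ev l R := mul_le_mul_of_nonneg_right hR1 h0
    linarith

theorem Ev_lfold {R : ℝ} (hR : 0 ≤ R) (hR1 : R ≤ 1) : ∀ (D : ℕ) (l : List ℕ),
    Ev l R ≤ Ev (lfold D l) R
  | D, [] => by simp [lfold]
  | 0, a :: l => by
    have h := Ev_le_sum hR hR1 (a :: l)
    simpa [lfold, Ev] using h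
  | D + 1, a :: l => by
    simp only [lfold, Ev]
    exact add_le_add le_rfl (mul_le_mul_of_nonneg_left (Ev_lfold hR hR1 D l) hR)

theorem Ev_lle {R : ℝ} (hR : 0 ≤ R) : ∀ l m : List ℕ, lle l m = true → Ev l R ≤ Ev m R
  | [], m, _ => Ev_nonneg hR m
  | a :: l, [], h => by
    simp only [lle, Bool.and_eq_true, beq_iff_eq] at h
    have h1 := Ev_lle hR l [] h.2
    simp only [Ev] at h1 ⊢
    rw [h.1]
    have := mul_le_mul_of_nonneg_left h1 hR
    simp at this ⊢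
    linarith
  | a :: l, b :: m, h => by
    simp only [lle, Bool.and_eq_true, Nat.ble_eq] at h
    have h1 := Ev_lle hR l m h.2
    simp only [Ev]
    refine add_le_add ?_ (mul_le_mul_of_nonneg_left h1 hR)
    exact div_le_div_of_nonneg_right (by exact_mod_cast h.1) UU_pos.le

/-! ### triples -/

/-- `a(R) + (1 - s) b(R) + (1 - R) c(R)` -/
structure TL where
  a : List ℕ
  b : List ℕ
  c : List ℕ
deriving DecidableEq

namespace TL

/-- value at `s` -/
def ev (L : TL) (s : ℝ) : ℝ :=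
  Ev L.a (s ^ 42) + (1 - s) * Ev L.b (s ^ 42) + (1 - s ^ 42) * Ev L.c (s ^ 42)

def add (L K : TL) : TL := ⟨ladd L.a K.a, ladd L.b K.b, ladd L.c K.c⟩

/-- sum of the three lists, an upper bound -/
def tot (L : TL) : List ℕ := ladd L.a (ladd L.b L.c)

/-- product, folded at degree `D` -/
def mulD (D : ℕ) (L K : TL) : TL :=
  ⟨lfold D (lmul L.a K.a), lfold D (ladd (lmul L.a K.b) (lmul L.b K.tot)),
    lfold D (ladd (lmul L.a K.c) (lmul L.c K.tot))⟩

/-- comparison -/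
def le (L K : TL) : Bool := lle L.a K.a && (lle L.b K.b && lle L.c K.c)

/-- all in the pure part -/
def pure (L : TL) : TL := ⟨L.tot, [], []⟩

/-- multiplication by `R` -/
def shift (L : TL) : TL := ⟨0 :: L.a, 0 :: L.b, 0 :: L.c⟩

/-- scalar -/
def cst (c : ℕ) : TL := ⟨[c], [], []⟩

def zero : TL := ⟨[], [], []⟩

variable {s : ℝ}

theorem ev_nonneg (hs : 0 ≤ s) (hs1 : s ≤ 1) (L : TL) : 0 ≤ L.ev s := by
  have h0 : 0 ≤ s ^ 42 := pow_nonneg hs _
  have h1 : s ^ 42 ≤ 1 := pow_le_one₀ hs hs1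
  have ha := Ev_nonneg h0 L.a
  have hb := mul_nonneg (sub_nonneg.2 hs1) (Ev_nonneg h0 L.b)
  have hc := mul_nonneg (sub_nonneg.2 h1) (Ev_nonneg h0 L.c)
  unfold ev
  linarith

theorem ev_add (L K : TL) : (L.add K).ev s = L.ev s + K.ev s := by
  unfold ev add
  simp only [Ev_ladd]
  ring

theorem ev_le_tot (hs : 0 ≤ s) (hs1 : s ≤ 1) (L : TL) : L.ev s ≤ Ev L.tot (s ^ 42) := by
  have h0 : 0 ≤ s ^ 42 := pow_nonneg hs _
  have hb := mul_le_mul_of_nonneg_right (show 1 - s ≤ 1 by linarith) (Ev_nonneg h0 L.b)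
  have hc := mul_le_mul_of_nonneg_right (show 1 - s ^ 42 ≤ 1 by linarith) (Ev_nonneg h0 L.c)
  unfold ev tot
  simp only [Ev_ladd]
  linarith

theorem ev_mul (hs : 0 ≤ s) (hs1 : s ≤ 1) (D : ℕ) (L K : TL) :
    L.ev s * K.ev s ≤ (mulD D L K).ev s := by
  have h0 : 0 ≤ s ^ 42 := pow_nonneg hs _
  have h1 : s ^ 42 ≤ 1 := pow_le_one₀ hs hs1
  have hK0 := K.ev_nonneg hs hs1
  have hKt := K.ev_le_tot hs hs1
  have hs' : 0 ≤ 1 - s := sub_nonneg.2 hs1
  have hR' : 0 ≤ 1 - s ^ 42 := sub_nonneg.2 h1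
  have fa := (Ev_lmul h0 L.a K.a).trans (Ev_lfold h0 h1 D _)
  have fb : Ev L.a (s ^ 42) * Ev K.b (s ^ 42) + Ev L.b (s ^ 42) * Ev K.tot (s ^ 42)
      ≤ Ev (lfold D (ladd (lmul L.a K.b) (lmul L.b K.tot))) (s ^ 42) := by
    refine le_trans ?_ (Ev_lfold h0 h1 D _)
    rw [Ev_ladd]
    exact add_le_add (Ev_lmul h0 _ _) (Ev_lmul h0 _ _)
  have fc : Ev L.a (s ^ 42) * Ev K.c (s ^ 42) + Ev L.c (s ^ 42) * Ev K.tot (s ^ 42)
      ≤ Ev (lfold D (ladd (lmul L.a K.c) (lmul L.c K.tot))) (s ^ 42) := by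
    refine le_trans ?_ (Ev_lfold h0 h1 D _)
    rw [Ev_ladd]
    exact add_le_add (Ev_lmul h0 _ _) (Ev_lmul h0 _ _)
  have gb := mul_le_mul_of_nonneg_left fb hs'
  have gc := mul_le_mul_of_nonneg_left fc hR'
  have eb : (1 - s) * (Ev L.b (s ^ 42) * K.ev s) ≤
      (1 - s) * (Ev L.b (s ^ 42) * Ev K.tot (s ^ 42)) :=
    mul_le_mul_of_nonneg_left (mul_le_mul_of_nonneg_left hKt (Ev_nonneg h0 _)) hs'
  have ec : (1 - s ^ 42) * (Ev L.c (s ^ 42) * K.ev s) ≤
      (1 - s ^ 42) * (Ev L.c (s ^ 42) * Ev K.tot (s ^ 42)) :=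
    mul_le_mul_of_nonneg_left (mul_le_mul_of_nonneg_left hKt (Ev_nonneg h0 _)) hR'
  have e : L.ev s * K.ev s = Ev L.a (s ^ 42) * Ev K.a (s ^ 42)
      + (1 - s) * (Ev L.a (s ^ 42) * Ev K.b (s ^ 42))
      + (1 - s ^ 42) * (Ev L.a (s ^ 42) * Ev K.c (s ^ 42))
      + (1 - s) * (Ev L.b (s ^ 42) * K.ev s) + (1 - s ^ 42) * (Ev L.c (s ^ 42) * K.ev s) := by
    unfold ev
    ring
  rw [e]
  show _ ≤ Ev (lfold D (lmul L.a K.a)) (s ^ 42)
    + (1 - s) * Ev (lfold D (ladd (lmul L.a K.b) (lmul L.b K.tot))) (s ^ 42)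
    + (1 - s ^ 42) * Ev (lfold D (ladd (lmul L.a K.c) (lmul L.c K.tot))) (s ^ 42)
  linarith

theorem ev_le (hs : 0 ≤ s) (hs1 : s ≤ 1) {L K : TL} (h : L.le K = true) : L.ev s ≤ K.ev s := by
  have h0 : 0 ≤ s ^ 42 := pow_nonneg hs _
  have h1 : s ^ 42 ≤ 1 := pow_le_one₀ hs hs1
  simp only [le, Bool.and_eq_true] at h
  unfold ev
  exact add_le_add (add_le_add (Ev_lle h0 _ _ h.1)
    (mul_le_mul_of_nonneg_left (Ev_lle h0 _ _ h.2.1) (sub_nonneg.2 hs1)))
    (mul_le_mul_of_nonneg_left (Ev_lle h0 _ _ h.2.2) (sub_nonneg.2 h1))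

theorem ev_pure (hs : 0 ≤ s) (hs1 : s ≤ 1) (L : TL) : L.ev s ≤ L.pure.ev s := by
  refine (L.ev_le_tot hs hs1).trans (le_of_eq ?_)
  simp [ev, pure, Ev]

theorem ev_shift (L : TL) : L.shift.ev s = s ^ 42 * L.ev s := by
  simp only [ev, shift, Ev]
  simp
  ring

theorem ev_cst (c : ℕ) : (cst c).ev s = (c : ℝ) / UU := by simp [ev, cst, Ev]

theorem ev_zero : zero.ev s = 0 := by simp [ev, zero, Ev]

end TL

/-! ### pairs (value, Lipschitz) -/

/-- a pair: value majorant and Lipschitz majorant -/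
structure PL where
  v : TL
  d : TL
deriving DecidableEq

namespace PL

def add (p q : PL) : PL := ⟨p.v.add q.v, p.d.add q.d⟩

def mulD (D : ℕ) (p q : PL) : PL :=
  ⟨TL.mulD D p.v q.v, (TL.mulD D p.d q.v).add (TL.mulD D p.v q.d)⟩

/-- a constant (same in both states) -/
def cst (c : ℕ) : PL := ⟨TL.cst c, TL.zero⟩

/-- a scalar with Lipschitz constant -/
def scal (c d : ℕ) : PL := ⟨TL.cst c, TL.cst d⟩

def fix (L : TL) : PL := ⟨L, TL.zero⟩

def shift (p : PL) : PL := ⟨p.v.shift, p.d.shift⟩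

def pure (p : PL) : PL := ⟨p.v.pure, p.d.pure⟩

def zero : PL := ⟨TL.zero, TL.zero⟩

def le (p q : PL) : Bool := p.v.le q.v && p.d.le q.d

end PL

/-- `f, g` (the same quantity for two states, at the point `s`) obey the pair `p` -/
def TJ (M s : ℝ) (p : PL) (f g : ℝ) : Prop := Mj M (p.v.ev s) (p.d.ev s) f g

namespace TJ

variable {M s f g h k : ℝ} {p q : PL}

theorem add (H : TJ M s p f g) (K : TJ M s q h k) : TJ M s (p.add q) (f + h) (g + k) := by
  have := Mj.add H K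
  unfold TJ PL.add
  simpa only [TL.ev_add] using this

theorem sub (H : TJ M s p f g) (K : TJ M s q h k) : TJ M s (p.add q) (f - h) (g - k) := by
  have := Mj.sub H K
  unfold TJ PL.add
  simpa only [TL.ev_add] using this

theorem neg (H : TJ M s p f g) : TJ M s p (-f) (-g) := Mj.neg H

theorem mul (hM : 0 ≤ M) (hs : 0 ≤ s) (hs1 : s ≤ 1) (D : ℕ) (H : TJ M s p f g)
    (K : TJ M s q h k) : TJ M s (PL.mulD D p q) (f * h) (g * k) := by
  refine (Mj.mul H K).mono hM (TL.ev_mul hs hs1 D _ _) ?_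
  show _ ≤ ((TL.mulD D p.d q.v).add (TL.mulD D p.v q.d)).ev s
  rw [TL.ev_add]
  exact add_le_add (TL.ev_mul hs hs1 D _ _) (TL.ev_mul hs hs1 D _ _)

theorem mono (hM : 0 ≤ M) (hs : 0 ≤ s) (hs1 : s ≤ 1) (H : TJ M s p f g) (h : p.le q = true) :
    TJ M s q f g := by
  simp only [PL.le, Bool.and_eq_true] at h
  exact Mj.mono hM H (TL.ev_le hs hs1 h.1) (TL.ev_le hs hs1 h.2)

theorem toPure (hM : 0 ≤ M) (hs : 0 ≤ s) (hs1 : s ≤ 1) (H : TJ M s p f g) :
    TJ M s p.pure f g :=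
  Mj.mono hM H (TL.ev_pure hs hs1 _) (TL.ev_pure hs hs1 _)

theorem shift (hs : 0 ≤ s) (H : TJ M s p f g) : TJ M s p.shift (s ^ 42 * f) (s ^ 42 * g) := by
  have h0 : 0 ≤ s ^ 42 := pow_nonneg hs _
  refine (Mj.const_mul_le (C := s ^ 42) (by rw [abs_of_nonneg h0]) H).congr rfl rfl ?_ ?_
  · exact (TL.ev_shift _).symm
  · exact (TL.ev_shift _).symm

/-- the same function in both states -/
theorem fix {L : TL} (h : |f| ≤ L.ev s) : TJ M s (PL.fix L) f f :=
  (Mj.const_le M h).congr rfl rfl rfl (by rw [PL.fix, TL.ev_zero])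

/-- a constant -/
theorem cst {c : ℕ} (h : |f| ≤ (c : ℝ) / UU) : TJ M s (PL.cst c) f f :=
  TJ.fix (L := TL.cst c) (by rw [TL.ev_cst]; exact h)

/-- a scalar unknown -/
theorem scal {c d : ℕ} (h : Mj M ((c : ℝ) / UU) ((d : ℝ) / UU) f g) : TJ M s (PL.scal c d) f g :=
  Mj.congr h rfl rfl (TL.ev_cst c).symm (TL.ev_cst d).symm

theorem zero : TJ M s PL.zero 0 0 :=
  (Mj.zero M).congr rfl rfl TL.ev_zero.symm TL.ev_zero.symm

theorem congr (H : TJ M s p f g) {f' g' : ℝ} (hf : f = f') (hg : g = g') : TJ M s p f' g' := by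
  subst hf hg
  exact H

/-- multiplication by `R = s^42` -/
theorem mulR (hs : 0 ≤ s) (H : TJ M s p f g) : TJ M s p.shift (f * s ^ 42) (g * s ^ 42) :=
  (H.shift hs).congr (mul_comm _ _) (mul_comm _ _)

end TJ

end Pool.Agent.SCH
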