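import Pool.Agent.MP_83fd13_an.SCH.BesJ
import Pool.Agent.MP_83fd13_an.SCH.PMaj

/-!
# [SCH] the product rule with `J_0(ρ s)` for the list majorants

`√s |J_0(ρ s)| ≤ .10843`, so `R |J_0(ρ s)| ≤ .10843 R^(83/84) ≤ .10843 (1/84 + (83/84) R)`.
-/

set_option autoImplicit false

namespace SCHV

open Pool.Agent.SCH SCHB

noncomputable section

/-- `R |J_0(ρ s)| ≤ .10843 (1/84 + (83/84) R)`, `R = s^42` -/
theorem R_J0 {ρ : ℝ} (h1 : 54.178 ≤ ρ) (h2 : ρ ≤ 54.1833) {s : ℝ} (hs : 0 ≤ s) (hs1 : s ≤ 1) :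
    s ^ 42 * |J 0 (ρ * s)| ≤ 0.10843 * (1 / 84 + 83 / 84 * s ^ 42) := by
  have h := sqrtJ0_le (ρ := ρ) (by linarith) (by linarith) hs hs1
  set y := √s with hy
  have hy0 : 0 ≤ y := Real.sqrt_nonneg s
  have hys : y ^ 2 = s := Real.sq_sqrt hs
  have e : s ^ 42 * |J 0 (ρ * s)| = y ^ 83 * (y * |J 0 (ρ * s)|) := by
    nth_rw 1 [← hys]
    ring
  -- weighted AM-GM: `84 y^83 ≤ 83 y^84 + 1`
  have ham : 84 * y ^ 83 ≤ 83 * y ^ 84 + 1 := by
    have hb := one_add_mul_le_pow (a := y - 1) (by linarith) 84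
    rcases hy0.eq_or_lt with h0 | h0
    · rw [← h0]; norm_num
    · -- Bernoulli for `1/y`
      have hb2 := one_add_mul_le_pow (a := 1 / y - 1) (by
        have : 0 < 1 / y := by positivity
        linarith) 84
      have e1 : 1 + (1 / y - 1) = 1 / y := by ring
      rw [e1] at hb2
      have hy84 : 0 < y ^ 84 := pow_pos h0 84
      have h3 := mul_le_mul_of_nonneg_left hb2 hy84.le
      have e2 : y ^ 84 * (1 / y) ^ 84 = 1 := by
        rw [← mul_pow, mul_one_div_cancel h0.ne', one_pow]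
      have e3 : y ^ 84 * (1 + ((84 : ℕ) : ℝ) * (1 / y - 1)) = 84 * y ^ 83 - 83 * y ^ 84 := by
        have : y ^ 84 * (1 / y) = y ^ 83 := by
          rw [show (84 : ℕ) = 83 + 1 by norm_num, pow_succ]
          field_simp
        push_cast
        linear_combination 84 * this
      rw [e2, e3] at h3
      linarith
  rw [e]
  have hy83 : 0 ≤ y ^ 83 := pow_nonneg hy0 83
  have e4 : y ^ 84 = s ^ 42 := by
    rw [← hys]; ring
  calc y ^ 83 * (y * |J 0 (ρ * s)|) ≤ y ^ 83 * 0.10843 := mul_le_mul_of_nonneg_left h hy83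
    _ ≤ _ := by
        rw [← e4]
        nlinarith

/-- product with `J_0` on lists starting with zero -/
def jl : List ℕ → List ℕ
  | [] => []
  | _ :: l => ladd (lsc 129084 l) (0 :: lsc 10713918 l)

/-- the list is empty or starts with zero -/
def z0 : List ℕ → Bool
  | [] => true
  | a :: _ => a == 0

theorem Ev_jl {ρ : ℝ} (h1 : 54.178 ≤ ρ) (h2 : ρ ≤ 54.1833) {s : ℝ} (hs : 0 ≤ s) (hs1 : s ≤ 1)
    {l : List ℕ} (hl : z0 l = true) : Ev l (s ^ 42) * |J 0 (ρ * s)| ≤ Ev (jl l) (s ^ 42) := by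
  have hR : 0 ≤ s ^ 42 := pow_nonneg hs 42
  rcases l with _ | ⟨a, l⟩
  · simp [Ev, jl]
  · have ha : a = 0 := by simpa [z0] using hl
    subst ha
    have h := R_J0 h1 h2 hs hs1
    have hE := Ev_nonneg hR l
    have c1 := Ev_lsc hR 129084 l
    have c2 := Ev_lsc hR 10713918 l
    simp only [jl, Ev_ladd, Ev]
    have hU : (UU : ℝ) = 100000000 := by unfold UU; norm_num
    have d1 : (0.10843 : ℝ) / 84 ≤ ((129084 : ℕ) : ℝ) / UU := by rw [hU]; norm_num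
    have d2 : (0.10843 : ℝ) * (83 / 84) ≤ ((10713918 : ℕ) : ℝ) / UU := by rw [hU]; norm_num
    have e1 := mul_le_mul_of_nonneg_right d1 hE
    have e2 := mul_le_mul_of_nonneg_right d2 hE
    have e3 := mul_le_mul_of_nonneg_left (e2.trans c2) hR
    have e4 := mul_le_mul_of_nonneg_right h hE
    push_cast
    calc _ = s ^ 42 * |J 0 (ρ * s)| * Ev l (s ^ 42) := by ring
      _ ≤ 0.10843 * (1 / 84 + 83 / 84 * s ^ 42) * Ev l (s ^ 42) := e4
      _ = 0.10843 / 84 * Ev l (s ^ 42) + s ^ 42 * (0.10843 * (83 / 84) * Ev l (s ^ 42)) := by ring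
      _ ≤ Ev (lsc 129084 l) (s ^ 42) + s ^ 42 * Ev (lsc 10713918 l) (s ^ 42) :=
          add_le_add (e1.trans c1) e3
      _ = _ := by ring

/-- product with `J_0` -/
def TL.j0 (L : TL) : TL := ⟨jl L.a, jl L.b, jl L.c⟩

def TL.z (L : TL) : Bool := z0 L.a && (z0 L.b && z0 L.c)

def PL.j0 (p : PL) : PL := ⟨TL.j0 p.v, TL.j0 p.d⟩

def PL.z (p : PL) : Bool := TL.z p.v && TL.z p.d

theorem ev_j0 {ρ : ℝ} (h1 : 54.178 ≤ ρ) (h2 : ρ ≤ 54.1833) {s : ℝ} (hs : 0 ≤ s) (hs1 : s ≤ 1)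
    {L : TL} (hL : TL.z L = true) : L.ev s * |J 0 (ρ * s)| ≤ (TL.j0 L).ev s := by
  simp only [TL.z, Bool.and_eq_true] at hL
  have ha := Ev_jl h1 h2 hs hs1 hL.1
  have hb := mul_le_mul_of_nonneg_left (Ev_jl h1 h2 hs hs1 hL.2.1) (sub_nonneg.2 hs1)
  have hc := mul_le_mul_of_nonneg_left (Ev_jl h1 h2 hs hs1 hL.2.2)
    (sub_nonneg.2 (pow_le_one₀ hs hs1 : s ^ 42 ≤ 1))
  unfold TL.ev TL.j0
  simp only
  calc _ = Ev L.a (s ^ 42) * |J 0 (ρ * s)| + (1 - s) * (Ev L.b (s ^ 42) * |J 0 (ρ * s)|) +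
        (1 - s ^ 42) * (Ev L.c (s ^ 42) * |J 0 (ρ * s)|) := by ring
    _ ≤ _ := add_le_add (add_le_add ha hb) hc

/-- **product rule with `J_0(ρ s)`** -/
theorem TJ_mulJ0 {ρ M s f g : ℝ} {p : PL} (h1 : 54.178 ≤ ρ) (h2 : ρ ≤ 54.1833) (hM : 0 ≤ M)
    (hs : 0 ≤ s) (hs1 : s ≤ 1) (hp : PL.z p = true) (H : TJ M s p f g) :
    TJ M s (PL.j0 p) (f * J 0 (ρ * s)) (g * J 0 (ρ * s)) := by
  simp only [PL.z, Bool.and_eq_true] at hp
  have h := Mj.mul_const_le (c := J 0 (ρ * s)) (C := |J 0 (ρ * s)|) le_rfl H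
  exact h.mono hM (ev_j0 h1 h2 hs hs1 hp.1) (ev_j0 h1 h2 hs hs1 hp.2)

end

end SCHV
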