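import Mathlib

set_option autoImplicit false

/-!
# Explicit kernels for the radial operator `y'' + y'/r - n^2 y / r^2` (project SCH)
-/

namespace Pool.Agent.SCH

open MeasureTheory Set Filter Topology

noncomputable section

/-- the class of functions used as sources: continuous on `(0,∞)`, `|f s| ≤ C s^a` on `(0,1]` -/
structure Wt (a : ℕ) (C : ℝ) (f : ℝ → ℝ) : Prop where
  cont : ContinuousOn f (Ioi 0)
  bound : ∀ s : ℝ, 0 < s → s ≤ 1 → |f s| ≤ C * s ^ a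

/-- Dirichlet kernel operator: `y = Gr n f` solves `y'' + y'/r - n^2 y/r^2 = -f`, `y 1 = 0` -/
def Gr (n : ℕ) (f : ℝ → ℝ) (r : ℝ) : ℝ :=
  1 / (2 * (n : ℝ)) * ((r ^ n)⁻¹ * (∫ s in (0:ℝ)..r, s ^ (n + 1) * f s)
    + r ^ n * (∫ s in r..1, s * (s ^ n)⁻¹ * f s)
    - r ^ n * ∫ s in (0:ℝ)..1, s ^ (n + 1) * f s)

/-- the derivative of `Gr n f` -/
def Gr' (n : ℕ) (f : ℝ → ℝ) (r : ℝ) : ℝ :=
  1 / (2 * r) * (-((r ^ n)⁻¹ * (∫ s in (0:ℝ)..r, s ^ (n + 1) * f s))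
    + r ^ n * (∫ s in r..1, s * (s ^ n)⁻¹ * f s)
    - r ^ n * ∫ s in (0:ℝ)..1, s ^ (n + 1) * f s)

/-- outward kernel operator: `y = Kn n f` solves `y'' + y'/r - n^2 y/r^2 = f`, small at `0` -/
def Kn (n : ℕ) (f : ℝ → ℝ) (r : ℝ) : ℝ :=
  1 / (2 * (n : ℝ)) * (r ^ n * (∫ s in (0:ℝ)..r, s * (s ^ n)⁻¹ * f s)
    - (r ^ n)⁻¹ * ∫ s in (0:ℝ)..r, s ^ (n + 1) * f s)

/-- the derivative of `Kn n f` -/
def Kn' (n : ℕ) (f : ℝ → ℝ) (r : ℝ) : ℝ :=
  1 / (2 * r) * (r ^ n * (∫ s in (0:ℝ)..r, s * (s ^ n)⁻¹ * f s)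
    + (r ^ n)⁻¹ * ∫ s in (0:ℝ)..r, s ^ (n + 1) * f s)

/-! ### integrability -/

theorem intervalIntegrable_of_bound {g : ℝ → ℝ} {C : ℝ} (hc : ContinuousOn g (Ioi 0))
    (hb : ∀ s : ℝ, 0 < s → s ≤ 1 → |g s| ≤ C) {u v : ℝ} (hu : 0 ≤ u) (hv : 0 ≤ v) :
    IntervalIntegrable g volume u v := by
  have h01 : IntegrableOn g (Ioc 0 1) volume := by
    have hm : AEStronglyMeasurable g (volume.restrict (Ioc 0 1)) :=
      (hc.mono (fun x hx => hx.1)).aestronglyMeasurable measurableSet_Ioc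
    refine Integrable.of_bound hm C ?_
    refine (ae_restrict_iff' measurableSet_Ioc).2 (Eventually.of_forall fun s hs => ?_)
    rw [Real.norm_eq_abs]; exact hb s hs.1 hs.2
  have hbig : ∀ w : ℝ, 0 ≤ w → IntegrableOn g (Ioc 0 w) volume := by
    intro w hw
    have h1 : IntegrableOn g (Icc 1 (max 1 w)) volume :=
      (hc.mono (fun x hx => lt_of_lt_of_le one_pos hx.1)).integrableOn_Icc
    refine (h01.union h1).mono_set ?_
    intro x hx
    by_cases h : x ≤ 1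
    · exact Or.inl ⟨hx.1, h⟩
    · exact Or.inr ⟨(not_le.1 h).le, hx.2.trans (le_max_right _ _)⟩
  have hI : ∀ w : ℝ, 0 ≤ w → IntervalIntegrable g volume 0 w := fun w hw =>
    (intervalIntegrable_iff_integrableOn_Ioc_of_le hw).2 (hbig w hw)
  exact (hI u hu).symm.trans (hI v hv)

theorem Wt.mono {a : ℕ} {C C' : ℝ} {f : ℝ → ℝ} (h : Wt a C f) (hC : C ≤ C') : Wt a C' f :=
  ⟨h.cont, fun s hs hs1 => (h.bound s hs hs1).trans
    (mul_le_mul_of_nonneg_right hC (pow_nonneg hs.le a))⟩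

theorem Wt.nonneg {a : ℕ} {C : ℝ} {f : ℝ → ℝ} (h : Wt a C f) : 0 ≤ C := by
  have := h.bound 1 one_pos le_rfl
  rw [one_pow, mul_one] at this
  exact (abs_nonneg _).trans this

theorem cont_hi (n : ℕ) {f : ℝ → ℝ} (hf : ContinuousOn f (Ioi 0)) :
    ContinuousOn (fun s : ℝ => s ^ (n + 1) * f s) (Ioi 0) :=
  (continuous_pow (n + 1)).continuousOn.mul hf

theorem cont_lo (n : ℕ) {f : ℝ → ℝ} (hf : ContinuousOn f (Ioi 0)) :
    ContinuousOn (fun s : ℝ => s * (s ^ n)⁻¹ * f s) (Ioi 0) := by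
  refine ContinuousOn.mul (continuousOn_id.mul (ContinuousOn.inv₀ (continuous_pow n).continuousOn ?_)) hf
  intro x hx
  exact pow_ne_zero _ (ne_of_gt hx)

theorem Wt.ii_hi {a : ℕ} {C : ℝ} {f : ℝ → ℝ} (h : Wt a C f) (n : ℕ) {u v : ℝ}
    (hu : 0 ≤ u) (hv : 0 ≤ v) :
    IntervalIntegrable (fun s : ℝ => s ^ (n + 1) * f s) volume u v := by
  refine intervalIntegrable_of_bound (C := C) (cont_hi n h.cont) ?_ hu hv
  intro s hs hs1
  rw [abs_mul, abs_of_nonneg (pow_nonneg hs.le _)]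
  have h1 : s ^ (n + 1) ≤ 1 := pow_le_one₀ hs.le hs1
  have h2 : |f s| ≤ C := (h.bound s hs hs1).trans
    (mul_le_of_le_one_right h.nonneg (pow_le_one₀ hs.le hs1))
  calc s ^ (n + 1) * |f s| ≤ 1 * C := mul_le_mul h1 h2 (abs_nonneg _) zero_le_one
    _ = C := one_mul _

/-- for `r > 0` only the part away from `0` matters -/
theorem ii_lo_pos {f : ℝ → ℝ} (hf : ContinuousOn f (Ioi 0)) (n : ℕ) {u v : ℝ}
    (hu : 0 < u) (hv : 0 < v) :
    IntervalIntegrable (fun s : ℝ => s * (s ^ n)⁻¹ * f s) volume u v := by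
  refine ContinuousOn.intervalIntegrable ((cont_lo n hf).mono ?_)
  intro x hx
  exact lt_of_lt_of_le (lt_min hu hv) hx.1

theorem pow_lo {n a : ℕ} (hna : n ≤ a + 1) {s : ℝ} (hs : 0 < s) :
    s * (s ^ n)⁻¹ * s ^ a = s ^ (a + 1 - n) := by
  have h1 : s ^ (a + 1) = s ^ (a + 1 - n) * s ^ n := by
    rw [← pow_add, Nat.sub_add_cancel hna]
  have h2 : s ^ n ≠ 0 := pow_ne_zero _ hs.ne'
  field_simp
  rw [← pow_succ', h1]
  ring

theorem Wt.ii_lo {a : ℕ} {C : ℝ} {f : ℝ → ℝ} (h : Wt a C f) {n : ℕ} (hna : n ≤ a + 1) {u v : ℝ}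
    (hu : 0 ≤ u) (hv : 0 ≤ v) :
    IntervalIntegrable (fun s : ℝ => s * (s ^ n)⁻¹ * f s) volume u v := by
  refine intervalIntegrable_of_bound (C := C) (cont_lo n h.cont) ?_ hu hv
  intro s hs hs1
  have h0 : 0 ≤ s * (s ^ n)⁻¹ := mul_nonneg hs.le (inv_nonneg.2 (pow_nonneg hs.le _))
  rw [abs_mul, abs_of_nonneg h0]
  calc s * (s ^ n)⁻¹ * |f s| ≤ s * (s ^ n)⁻¹ * (C * s ^ a) :=
        mul_le_mul_of_nonneg_left (h.bound s hs hs1) h0
    _ = C * (s * (s ^ n)⁻¹ * s ^ a) := by ring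
    _ = C * s ^ (a + 1 - n) := by rw [pow_lo hna hs]
    _ ≤ C := mul_le_of_le_one_right h.nonneg (pow_le_one₀ hs.le hs1)

/-! ### derivatives -/

theorem hasDerivAt_int_zero {g : ℝ → ℝ} (hc : ContinuousOn g (Ioi 0)) {r : ℝ} (hr : 0 < r)
    (hi : IntervalIntegrable g volume 0 r) :
    HasDerivAt (fun r => ∫ s in (0:ℝ)..r, g s) (g r) r :=
  intervalIntegral.integral_hasDerivAt_right hi
    (hc.stronglyMeasurableAtFilter isOpen_Ioi r hr)
    (hc.continuousAt (Ioi_mem_nhds hr))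

theorem hasDerivAt_int_one {g : ℝ → ℝ} (hc : ContinuousOn g (Ioi 0)) {r : ℝ} (hr : 0 < r)
    (hi : IntervalIntegrable g volume r 1) :
    HasDerivAt (fun r => ∫ s in r..1, g s) (-g r) r :=
  intervalIntegral.integral_hasDerivAt_left hi
    (hc.stronglyMeasurableAtFilter isOpen_Ioi r hr)
    (hc.continuousAt (Ioi_mem_nhds hr))

theorem hasDerivAt_pow' (n : ℕ) (r : ℝ) (hr : 0 < r) :
    HasDerivAt (fun r : ℝ => r ^ n) ((n : ℝ) * r ^ n / r) r := by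
  have h := hasDerivAt_pow n r
  rcases n with _ | n
  · simpa using h
  · refine h.congr_deriv ?_
    rw [Nat.add_sub_cancel, pow_succ]
    field_simp

theorem hasDerivAt_powInv (n : ℕ) (r : ℝ) (hr : 0 < r) :
    HasDerivAt (fun r : ℝ => (r ^ n)⁻¹) (-((n : ℝ) * (r ^ n)⁻¹ / r)) r := by
  have h := (hasDerivAt_pow' n r hr).fun_inv (pow_ne_zero n hr.ne')
  refine h.congr_deriv ?_
  have h2 : r ^ n ≠ 0 := pow_ne_zero _ hr.ne'
  field_simp

section Gr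

variable {a : ℕ} {C : ℝ} {f : ℝ → ℝ} {n : ℕ}

theorem Gr_hasDerivAt (h : Wt a C f) (hn : 0 < n) {r : ℝ} (hr : 0 < r) :
    HasDerivAt (Gr n f) (Gr' n f r) r := by
  have hA := hasDerivAt_int_zero (cont_hi n h.cont) hr (h.ii_hi n le_rfl hr.le)
  have hB := hasDerivAt_int_one (cont_lo n h.cont) hr (ii_lo_pos h.cont n hr one_pos)
  have hp := hasDerivAt_pow' n r hr
  have hq := hasDerivAt_powInv n r hr
  have h1 := (((hq.mul hA).add (hp.mul hB)).sub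
    (hp.mul_const (∫ s in (0:ℝ)..1, s ^ (n + 1) * f s))).const_mul (1 / (2 * (n : ℝ)))
  refine h1.congr_deriv ?_
  have hn' : (n : ℝ) ≠ 0 := Nat.cast_ne_zero.2 hn.ne'
  have h2 : r ^ n ≠ 0 := pow_ne_zero _ hr.ne'
  unfold Gr'
  simp only [pow_succ]
  field_simp
  ring

theorem Gr'_hasDerivAt (h : Wt a C f) (hn : 0 < n) {r : ℝ} (hr : 0 < r) :
    HasDerivAt (fun r => r * Gr' n f r) ((n : ℝ) ^ 2 * Gr n f r / r - r * f r) r := by
  have hA := hasDerivAt_int_zero (cont_hi n h.cont) hr (h.ii_hi n le_rfl hr.le)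
  have hB := hasDerivAt_int_one (cont_lo n h.cont) hr (ii_lo_pos h.cont n hr one_pos)
  have hp := hasDerivAt_pow' n r hr
  have hq := hasDerivAt_powInv n r hr
  have h1 := (((hp.mul hB).sub (hq.mul hA)).sub
    (hp.mul_const (∫ s in (0:ℝ)..1, s ^ (n + 1) * f s))).const_mul (1 / 2 : ℝ)
  have hn' : (n : ℝ) ≠ 0 := Nat.cast_ne_zero.2 hn.ne'
  have h2 : r ^ n ≠ 0 := pow_ne_zero _ hr.ne'
  refine (h1.congr_deriv ?_).congr_of_eventuallyEq ?_
  · unfold Gr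
    simp only [pow_succ]
    field_simp
    ring
  · filter_upwards [Ioi_mem_nhds hr] with x hx
    have hx' : x ≠ 0 := ne_of_gt hx
    simp only [Gr', Pi.sub_apply, Pi.mul_apply]
    field_simp
    ring

theorem Gr_one (n : ℕ) (f : ℝ → ℝ) : Gr n f 1 = 0 := by
  unfold Gr; simp

theorem Gr'_one (n : ℕ) (f : ℝ → ℝ) : Gr' n f 1 = -∫ s in (0:ℝ)..1, s ^ (n + 1) * f s := by
  unfold Gr'; simp; ring

end Gr

section Kn

variable {a : ℕ} {C : ℝ} {f : ℝ → ℝ} {n : ℕ}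

theorem Kn_hasDerivAt (h : Wt a C f) (hn : 0 < n) (hna : n ≤ a + 1) {r : ℝ} (hr : 0 < r) :
    HasDerivAt (Kn n f) (Kn' n f r) r := by
  have hA := hasDerivAt_int_zero (cont_hi n h.cont) hr (h.ii_hi n le_rfl hr.le)
  have hB := hasDerivAt_int_zero (cont_lo n h.cont) hr (h.ii_lo hna le_rfl hr.le)
  have hp := hasDerivAt_pow' n r hr
  have hq := hasDerivAt_powInv n r hr
  have h1 := ((hp.mul hB).sub (hq.mul hA)).const_mul (1 / (2 * (n : ℝ)))
  refine h1.congr_deriv ?_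
  have hn' : (n : ℝ) ≠ 0 := Nat.cast_ne_zero.2 hn.ne'
  have h2 : r ^ n ≠ 0 := pow_ne_zero _ hr.ne'
  unfold Kn'
  simp only [pow_succ]
  field_simp
  ring

theorem Kn'_hasDerivAt (h : Wt a C f) (hn : 0 < n) (hna : n ≤ a + 1) {r : ℝ} (hr : 0 < r) :
    HasDerivAt (fun r => r * Kn' n f r) ((n : ℝ) ^ 2 * Kn n f r / r + r * f r) r := by
  have hA := hasDerivAt_int_zero (cont_hi n h.cont) hr (h.ii_hi n le_rfl hr.le)
  have hB := hasDerivAt_int_zero (cont_lo n h.cont) hr (h.ii_lo hna le_rfl hr.le)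
  have hp := hasDerivAt_pow' n r hr
  have hq := hasDerivAt_powInv n r hr
  have h1 := ((hp.mul hB).add (hq.mul hA)).const_mul (1 / 2 : ℝ)
  have hn' : (n : ℝ) ≠ 0 := Nat.cast_ne_zero.2 hn.ne'
  have h2 : r ^ n ≠ 0 := pow_ne_zero _ hr.ne'
  refine (h1.congr_deriv ?_).congr_of_eventuallyEq ?_
  · unfold Kn
    simp only [pow_succ]
    field_simp
    ring
  · filter_upwards [Ioi_mem_nhds hr] with x hx
    have hx' : x ≠ 0 := ne_of_gt hx
    simp only [Kn', Pi.add_apply, Pi.mul_apply]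
    field_simp

end Kn

end

end Pool.Agent.SCH
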