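import Pool.Agent.MP_83fd13_an.SCH.KerA

set_option autoImplicit false

/-!
# Bounds for the explicit kernels (project SCH)
-/

namespace Pool.Agent.SCH

open MeasureTheory Set Filter Topology

noncomputable section

/-! ### monomials -/

theorem int_pow_zero (n : ℕ) (r : ℝ) : ∫ s in (0:ℝ)..r, s ^ n = r ^ (n + 1) / (n + 1) := by
  rw [integral_pow]; simp

theorem int_hi (n a : ℕ) (r : ℝ) :
    ∫ s in (0:ℝ)..r, s ^ (n + 1) * s ^ a = r ^ (n + a + 2) / ((n : ℝ) + a + 2) := by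
  have : (fun s : ℝ => s ^ (n + 1) * s ^ a) = fun s : ℝ => s ^ (n + 1 + a) := by
    funext s; rw [← pow_add]
  rw [this, int_pow_zero]
  have e : n + 1 + a + 1 = n + a + 2 := by ring
  rw [e]; push_cast; ring

theorem int_lo_dir {n a m : ℕ} (hm : 0 < m) (hn : n = a + 2 + m) {r : ℝ} (hr : 0 < r) :
    ∫ s in r..1, s * (s ^ n)⁻¹ * s ^ a = ((r ^ m)⁻¹ - 1) / m := by
  have hm' : (m : ℝ) ≠ 0 := Nat.cast_ne_zero.2 hm.ne'
  have hpos : ∀ x ∈ uIcc r 1, (0:ℝ) < x := fun x hx => lt_of_lt_of_le (lt_min hr one_pos) hx.1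
  have hd : ∀ x ∈ uIcc r 1, HasDerivAt (fun x : ℝ => -(x ^ m)⁻¹ / m) (x * (x ^ n)⁻¹ * x ^ a) x := by
    intro x hx
    have hx0 := hpos x hx
    have h := ((hasDerivAt_powInv m x hx0).neg).div_const (m : ℝ)
    refine h.congr_deriv ?_
    have h2 : x ^ m ≠ 0 := pow_ne_zero _ hx0.ne'
    have h3 : x ^ a ≠ 0 := pow_ne_zero _ hx0.ne'
    rw [hn, pow_add, pow_add]
    field_simp
  have hi : IntervalIntegrable (fun s : ℝ => s * (s ^ n)⁻¹ * s ^ a) volume r 1 :=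
    ii_lo_pos (continuous_pow a).continuousOn n hr one_pos
  rw [intervalIntegral.integral_eq_sub_of_hasDerivAt hd hi]
  simp only [one_pow, inv_one]
  field_simp
  ring

theorem int_lo_out {n a m : ℕ} (hm : 0 < m) (hn : n + m = a + 2) {r : ℝ} :
    ∫ s in (0:ℝ)..r, s * (s ^ n)⁻¹ * s ^ a = r ^ m / m := by
  have h : ∀ s : ℝ, s * (s ^ n)⁻¹ * s ^ a = s ^ (m - 1) ∨ s = 0 := by
    intro s
    by_cases hs : s = 0
    · exact Or.inr hs
    · left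
      have e : a + 1 = n + (m - 1) := by omega
      have h2 : s ^ n ≠ 0 := pow_ne_zero _ hs
      have : s ^ (a + 1) = s ^ n * s ^ (m - 1) := by rw [e, pow_add]
      field_simp
      rw [← pow_succ', this]
  have hae : (fun s : ℝ => s * (s ^ n)⁻¹ * s ^ a) =ᵐ[volume] fun s => s ^ (m - 1) := by
    have : ({0} : Set ℝ)ᶜ ∈ ae (volume : Measure ℝ) := by
      rw [mem_ae_iff, compl_compl]; simp
    filter_upwards [this] with s hs
    exact (h s).resolve_right hs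
  rw [intervalIntegral.integral_congr_ae (g := fun s => s ^ (m - 1))
    (hae.mono fun s hs _ => hs), int_pow_zero]
  have e : m - 1 + 1 = m := Nat.sub_add_cancel hm
  rw [e]
  have : ((m - 1 : ℕ) : ℝ) + 1 = m := by exact_mod_cast e
  rw [this]

theorem wt_pow (a : ℕ) : Wt a 1 (fun s : ℝ => s ^ a) :=
  ⟨(continuous_pow a).continuousOn, fun s hs _ => by
    rw [one_mul, abs_of_nonneg (pow_nonneg hs.le a)]⟩

section Gr

variable {a : ℕ} {C : ℝ} {f : ℝ → ℝ} {n : ℕ}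

/-- the formula with the non-negative kernel -/
theorem Gr_split (h : Wt a C f) {r : ℝ} (hr : 0 < r) :
    Gr n f r = 1 / (2 * (n : ℝ)) * (((r ^ n)⁻¹ - r ^ n) * (∫ s in (0:ℝ)..r, s ^ (n + 1) * f s)
      + r ^ n * ∫ s in r..1, (s * (s ^ n)⁻¹ - s ^ (n + 1)) * f s) := by
  have h1 : ∫ s in (0:ℝ)..1, s ^ (n + 1) * f s
      = (∫ s in (0:ℝ)..r, s ^ (n + 1) * f s) + ∫ s in r..1, s ^ (n + 1) * f s :=
    (intervalIntegral.integral_add_adjacent_intervals (h.ii_hi n le_rfl hr.le)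
      (h.ii_hi n hr.le zero_le_one)).symm
  have h2 : ∫ s in r..1, (s * (s ^ n)⁻¹ - s ^ (n + 1)) * f s
      = (∫ s in r..1, s * (s ^ n)⁻¹ * f s) - ∫ s in r..1, s ^ (n + 1) * f s := by
    rw [← intervalIntegral.integral_sub (ii_lo_pos h.cont n hr one_pos)
      (h.ii_hi n hr.le zero_le_one)]
    congr 1
    funext s
    ring
  unfold Gr
  rw [h2, h1]
  ring

theorem Gr_pow {m : ℕ} (hm : 0 < m) (hn : n = a + 2 + m) {r : ℝ} (hr : 0 < r) :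
    Gr n (fun s => s ^ a) r = (r ^ (a + 2) - r ^ n) / ((n : ℝ) ^ 2 - ((a : ℝ) + 2) ^ 2) := by
  unfold Gr
  rw [int_hi, int_hi, int_lo_dir hm hn hr]
  have hm' : (m : ℝ) ≠ 0 := Nat.cast_ne_zero.2 hm.ne'
  have h2 : r ^ m ≠ 0 := pow_ne_zero _ hr.ne'
  have h3 : r ^ a ≠ 0 := pow_ne_zero _ hr.ne'
  have hnr : (n : ℝ) = a + 2 + m := by rw [hn]; push_cast; ring
  have hn0 : (n : ℝ) ≠ 0 := by rw [hnr]; positivity
  have e1 : (n : ℝ) ^ 2 - ((a : ℝ) + 2) ^ 2 = m * (n + a + 2) := by rw [hnr]; ring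
  have e2 : (n : ℝ) + a + 2 ≠ 0 := by rw [hnr]; positivity
  have e3 : r ^ (n + a + 2) = r ^ n * r ^ (a + 2) := by rw [← pow_add]; congr 1
  have e4 : r ^ n = r ^ (a + 2) * r ^ m := by rw [← pow_add, hn]
  have e5 : r ^ (a + 2) ≠ 0 := pow_ne_zero _ hr.ne'
  have e6 : r ^ n ≠ 0 := pow_ne_zero _ hr.ne'
  rw [e1, e3]
  have e7 : r ^ n * (r ^ m)⁻¹ = r ^ (a + 2) := by rw [e4]; field_simp
  have e8 : (r ^ n)⁻¹ * (r ^ n * r ^ (a + 2) / ((n : ℝ) + a + 2)) = r ^ (a + 2) / ((n : ℝ) + a + 2) := by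
    field_simp
  have e9 : r ^ n * (((r ^ m)⁻¹ - 1) / (m : ℝ)) = (r ^ (a + 2) - r ^ n) / m := by
    rw [← e7]; field_simp
  rw [e8, e9, one_pow]
  field_simp
  rw [hnr]
  ring

theorem abs_int_le {g k : ℝ → ℝ} {u v : ℝ} (huv : u ≤ v) (hg : IntervalIntegrable g volume u v)
    (hk : IntervalIntegrable k volume u v) (h : ∀ s ∈ Ioc u v, |g s| ≤ k s) :
    |∫ s in u..v, g s| ≤ ∫ s in u..v, k s := by
  calc |∫ s in u..v, g s| ≤ ∫ s in u..v, |g s| :=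
        intervalIntegral.abs_integral_le_integral_abs huv
    _ ≤ ∫ s in u..v, k s := by
        refine intervalIntegral.integral_mono_on_of_le_Ioo huv hg.abs hk ?_
        intro s hs
        exact h s ⟨hs.1, hs.2.le⟩

theorem abs_int_hi_le (h : Wt a C f) {r : ℝ} (hr : 0 ≤ r) (hr1 : r ≤ 1) :
    |∫ s in (0:ℝ)..r, s ^ (n + 1) * f s| ≤ C * (r ^ (n + a + 2) / ((n : ℝ) + a + 2)) := by
  rw [← int_hi, ← intervalIntegral.integral_const_mul]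
  refine abs_int_le hr (h.ii_hi n le_rfl hr) (((wt_pow a).ii_hi n le_rfl hr).const_mul C) ?_
  intro s hs
  rw [abs_mul, abs_of_nonneg (pow_nonneg hs.1.le _)]
  have := mul_le_mul_of_nonneg_left (h.bound s hs.1 (hs.2.trans hr1)) (pow_nonneg hs.1.le (n + 1))
  calc s ^ (n + 1) * |f s| ≤ s ^ (n + 1) * (C * s ^ a) := this
    _ = C * (s ^ (n + 1) * s ^ a) := by ring

theorem lo_sub_hi_nonneg (n : ℕ) {s : ℝ} (hs : 0 < s) (hs1 : s ≤ 1) :
    0 ≤ s * (s ^ n)⁻¹ - s ^ (n + 1) := by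
  have h1 : s ^ n ≤ 1 := pow_le_one₀ hs.le hs1
  have h2 : 1 ≤ (s ^ n)⁻¹ := (one_le_inv₀ (pow_pos hs n)).2 h1
  have h3 : s * s ^ n ≤ s * (s ^ n)⁻¹ := mul_le_mul_of_nonneg_left (h1.trans h2) hs.le
  rw [pow_succ']
  linarith

theorem Gr_abs_le (h : Wt a C f) {m : ℕ} (hm : 0 < m) (hn : n = a + 2 + m)
    {r : ℝ} (hr : 0 < r) (hr1 : r ≤ 1) :
    |Gr n f r| ≤ C * ((r ^ (a + 2) - r ^ n) / ((n : ℝ) ^ 2 - ((a : ℝ) + 2) ^ 2)) := by
  rw [← Gr_pow hm hn hr, Gr_split h hr, Gr_split (wt_pow a) hr, abs_mul]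
  have hn0 : (0:ℝ) ≤ 1 / (2 * (n : ℝ)) := by positivity
  rw [abs_of_nonneg hn0]
  have hpos1 : 0 ≤ (r ^ n)⁻¹ - r ^ n := by
    have h1 : r ^ n ≤ 1 := pow_le_one₀ hr.le hr1
    have h2 : 1 ≤ (r ^ n)⁻¹ := (one_le_inv₀ (pow_pos hr n)).2 h1
    linarith
  have hpos2 : 0 ≤ r ^ n := pow_nonneg hr.le n
  have hA : |∫ s in (0:ℝ)..r, s ^ (n + 1) * f s| ≤ C * ∫ s in (0:ℝ)..r, s ^ (n + 1) * s ^ a := by
    rw [int_hi]; exact abs_int_hi_le h hr.le hr1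
  have hB : |∫ s in r..1, (s * (s ^ n)⁻¹ - s ^ (n + 1)) * f s|
      ≤ C * ∫ s in r..1, (s * (s ^ n)⁻¹ - s ^ (n + 1)) * s ^ a := by
    rw [← intervalIntegral.integral_const_mul]
    have hcont : ∀ {g : ℝ → ℝ}, ContinuousOn g (Ioi 0) →
        IntervalIntegrable (fun s : ℝ => (s * (s ^ n)⁻¹ - s ^ (n + 1)) * g s) volume r 1 := by
      intro g hg
      refine ((ii_lo_pos hg n hr one_pos).sub
        ((cont_hi n hg).mono ?_).intervalIntegrable).congr ?_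
      · intro x hx; exact lt_of_lt_of_le (lt_min hr one_pos) hx.1
      · intro s _; ring
    refine abs_int_le hr1 (hcont h.cont) ((hcont (wt_pow a).cont).const_mul C) ?_
    intro s hs
    have hs0 : 0 < s := hr.trans hs.1
    have hk := lo_sub_hi_nonneg n hs0 hs.2
    rw [abs_mul, abs_of_nonneg hk]
    calc (s * (s ^ n)⁻¹ - s ^ (n + 1)) * |f s|
        ≤ (s * (s ^ n)⁻¹ - s ^ (n + 1)) * (C * s ^ a) :=
          mul_le_mul_of_nonneg_left (h.bound s hs0 hs.2) hk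
      _ = C * ((s * (s ^ n)⁻¹ - s ^ (n + 1)) * s ^ a) := by ring
  calc 1 / (2 * (n : ℝ)) * |((r ^ n)⁻¹ - r ^ n) * (∫ s in (0:ℝ)..r, s ^ (n + 1) * f s)
        + r ^ n * ∫ s in r..1, (s * (s ^ n)⁻¹ - s ^ (n + 1)) * f s|
      ≤ 1 / (2 * (n : ℝ)) * (((r ^ n)⁻¹ - r ^ n) * (C * ∫ s in (0:ℝ)..r, s ^ (n + 1) * s ^ a)
        + r ^ n * (C * ∫ s in r..1, (s * (s ^ n)⁻¹ - s ^ (n + 1)) * s ^ a)) := by
        refine mul_le_mul_of_nonneg_left ?_ hn0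
        refine (abs_add_le _ _).trans ?_
        rw [abs_mul, abs_mul, abs_of_nonneg hpos1, abs_of_nonneg hpos2]
        exact add_le_add (mul_le_mul_of_nonneg_left hA hpos1)
          (mul_le_mul_of_nonneg_left hB hpos2)
    _ = _ := by ring

/-- the norm of `Gr n` on the weight `r^a` -/
theorem Gr_abs_le' (h : Wt a C f) {m : ℕ} (hm : 0 < m) (hn : n = a + 2 + m)
    {r : ℝ} (hr : 0 < r) (hr1 : r ≤ 1) :
    |Gr n f r| ≤ C / ((n : ℝ) ^ 2 - ((a : ℝ) + 2) ^ 2) * r ^ (a + 2) := by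
  refine (Gr_abs_le h hm hn hr hr1).trans ?_
  have hm' : (0:ℝ) < m := Nat.cast_pos.2 hm
  have hnr : (n : ℝ) = a + 2 + m := by rw [hn]; push_cast; ring
  have e1 : (n : ℝ) ^ 2 - ((a : ℝ) + 2) ^ 2 = m * (n + a + 2) := by rw [hnr]; ring
  have hd : 0 < (n : ℝ) ^ 2 - ((a : ℝ) + 2) ^ 2 := by
    rw [e1, hnr]; positivity
  have : C * ((r ^ (a + 2) - r ^ n) / ((n : ℝ) ^ 2 - ((a : ℝ) + 2) ^ 2))
      = C / ((n : ℝ) ^ 2 - ((a : ℝ) + 2) ^ 2) * (r ^ (a + 2) - r ^ n) := by ring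
  rw [this]
  refine mul_le_mul_of_nonneg_left ?_ (div_nonneg h.nonneg hd.le)
  linarith [pow_nonneg hr.le n]

theorem Gr'_abs_le (h : Wt a C f) {m : ℕ} (hm : 0 < m) (hn : n = a + 2 + m)
    {r : ℝ} (hr : 0 < r) (hr1 : r ≤ 1) :
    |Gr' n f r| ≤ C * (1 / ((n : ℝ) + a + 2) + 1 / (2 * (m : ℝ))) * r ^ (a + 1) := by
  have hm' : (0:ℝ) < m := Nat.cast_pos.2 hm
  have hC := h.nonneg
  have hrn : 0 < r ^ n := pow_pos hr n
  have hrn1 : r ^ n ≤ 1 := pow_le_one₀ hr.le hr1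
  have h1 : ∫ s in (0:ℝ)..1, s ^ (n + 1) * f s
      = (∫ s in (0:ℝ)..r, s ^ (n + 1) * f s) + ∫ s in r..1, s ^ (n + 1) * f s :=
    (intervalIntegral.integral_add_adjacent_intervals (h.ii_hi n le_rfl hr.le)
      (h.ii_hi n hr.le zero_le_one)).symm
  set A := ∫ s in (0:ℝ)..r, s ^ (n + 1) * f s with hAdef
  set B := ∫ s in r..1, (s * (s ^ n)⁻¹ - s ^ (n + 1)) * f s with hBdef
  have h2 : B = (∫ s in r..1, s * (s ^ n)⁻¹ * f s) - ∫ s in r..1, s ^ (n + 1) * f s := by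
    rw [hBdef, ← intervalIntegral.integral_sub (ii_lo_pos h.cont n hr one_pos)
      (h.ii_hi n hr.le zero_le_one)]
    congr 1
    funext s
    ring
  have hG : Gr' n f r = 1 / (2 * r) * (-(((r ^ n)⁻¹ + r ^ n) * A) + r ^ n * B) := by
    unfold Gr'
    rw [h1, h2]
    ring
  have hA : |A| ≤ C * (r ^ (n + a + 2) / ((n : ℝ) + a + 2)) := abs_int_hi_le h hr.le hr1
  have hB : |B| ≤ C * (((r ^ m)⁻¹ - 1) / m) := by
    rw [← int_lo_dir hm hn hr, ← intervalIntegral.integral_const_mul]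
    have hcont : IntervalIntegrable (fun s : ℝ => (s * (s ^ n)⁻¹ - s ^ (n + 1)) * f s) volume r 1 := by
      refine ((ii_lo_pos h.cont n hr one_pos).sub
        ((cont_hi n h.cont).mono ?_).intervalIntegrable).congr ?_
      · intro x hx; exact lt_of_lt_of_le (lt_min hr one_pos) hx.1
      · intro s _; ring
    refine abs_int_le hr1 hcont ((ii_lo_pos (wt_pow a).cont n hr one_pos).const_mul C) ?_
    intro s hs
    have hs0 : 0 < s := hr.trans hs.1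
    have hk := lo_sub_hi_nonneg n hs0 hs.2
    rw [abs_mul, abs_of_nonneg hk]
    have hle : s * (s ^ n)⁻¹ - s ^ (n + 1) ≤ s * (s ^ n)⁻¹ := by
      linarith [pow_nonneg hs0.le (n + 1)]
    calc (s * (s ^ n)⁻¹ - s ^ (n + 1)) * |f s|
        ≤ (s * (s ^ n)⁻¹) * (C * s ^ a) :=
          mul_le_mul hle (h.bound s hs0 hs.2) (abs_nonneg _)
            (mul_nonneg hs0.le (inv_nonneg.2 (pow_nonneg hs0.le _)))
      _ = C * (s * (s ^ n)⁻¹ * s ^ a) := by ring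
  have e3 : r ^ (n + a + 2) = r ^ n * r ^ (a + 2) := by rw [← pow_add]; congr 1
  have e4 : r ^ n = r ^ (a + 2) * r ^ m := by rw [← pow_add, hn]
  have e7 : r ^ n * (r ^ m)⁻¹ = r ^ (a + 2) := by
    rw [e4]; field_simp
  have hden : (0:ℝ) < (n : ℝ) + a + 2 := by positivity
  have hb1 : ((r ^ n)⁻¹ + r ^ n) * (C * (r ^ (n + a + 2) / ((n : ℝ) + a + 2)))
      ≤ 2 * C * (r ^ (a + 2) / ((n : ℝ) + a + 2)) := by
    have : ((r ^ n)⁻¹ + r ^ n) * (C * (r ^ (n + a + 2) / ((n : ℝ) + a + 2)))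
        = (1 + r ^ n * r ^ n) * (C * (r ^ (a + 2) / ((n : ℝ) + a + 2))) := by
      rw [e3]; field_simp
    rw [this]
    have h5 : 1 + r ^ n * r ^ n ≤ 2 := by nlinarith
    have h6 : 0 ≤ C * (r ^ (a + 2) / ((n : ℝ) + a + 2)) := by positivity
    calc (1 + r ^ n * r ^ n) * (C * (r ^ (a + 2) / ((n : ℝ) + a + 2)))
        ≤ 2 * (C * (r ^ (a + 2) / ((n : ℝ) + a + 2))) := mul_le_mul_of_nonneg_right h5 h6
      _ = _ := by ring
  have hb2 : r ^ n * (C * (((r ^ m)⁻¹ - 1) / m)) ≤ C * (r ^ (a + 2) / m) := by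
    have : r ^ n * (C * (((r ^ m)⁻¹ - 1) / m)) = C * ((r ^ (a + 2) - r ^ n) / m) := by
      rw [← e7]; ring
    rw [this]
    refine mul_le_mul_of_nonneg_left ?_ hC
    exact div_le_div_of_nonneg_right (by linarith) hm'.le
  rw [hG, abs_mul, abs_of_nonneg (by positivity : (0:ℝ) ≤ 1 / (2 * r))]
  have hsum : |-(((r ^ n)⁻¹ + r ^ n) * A) + r ^ n * B|
      ≤ 2 * C * (r ^ (a + 2) / ((n : ℝ) + a + 2)) + C * (r ^ (a + 2) / m) := by
    refine (abs_add_le _ _).trans ?_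
    rw [abs_neg, abs_mul, abs_mul, abs_of_nonneg (by positivity : (0:ℝ) ≤ (r ^ n)⁻¹ + r ^ n),
      abs_of_nonneg hrn.le]
    exact add_le_add ((mul_le_mul_of_nonneg_left hA (by positivity)).trans hb1)
      ((mul_le_mul_of_nonneg_left hB hrn.le).trans hb2)
  refine (mul_le_mul_of_nonneg_left hsum (by positivity)).trans (le_of_eq ?_)
  rw [pow_succ r (a + 1)]
  field_simp

end Gr

section Kn

variable {a : ℕ} {C : ℝ} {f : ℝ → ℝ} {n : ℕ}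

theorem Kn_pow {m : ℕ} (hn0 : 0 < n) (hm : 0 < m) (hn : n + m = a + 2) {r : ℝ} (hr : 0 < r) :
    Kn n (fun s => s ^ a) r = r ^ (a + 2) / (((a : ℝ) + 2) ^ 2 - (n : ℝ) ^ 2) := by
  unfold Kn
  rw [int_hi, int_lo_out hm hn]
  have hm' : (m : ℝ) ≠ 0 := Nat.cast_ne_zero.2 hm.ne'
  have hn0' : (n : ℝ) ≠ 0 := Nat.cast_ne_zero.2 hn0.ne'
  have hnr : (a : ℝ) + 2 = n + m := by exact_mod_cast hn.symm
  have e1 : ((a : ℝ) + 2) ^ 2 - (n : ℝ) ^ 2 = m * (n + a + 2) := by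
    have : (n : ℝ) + a + 2 = 2 * n + m := by linarith
    rw [this, hnr]; ring
  have e2 : (n : ℝ) + a + 2 ≠ 0 := by positivity
  have e3 : r ^ (n + a + 2) = r ^ n * r ^ (a + 2) := by rw [← pow_add]; congr 1
  have e4 : r ^ (a + 2) = r ^ n * r ^ m := by rw [← pow_add, hn]
  have e6 : r ^ n ≠ 0 := pow_ne_zero _ hr.ne'
  rw [e1, e3]
  have e7 : (r ^ n)⁻¹ * (r ^ n * r ^ (a + 2) / ((n : ℝ) + a + 2)) = r ^ (a + 2) / ((n : ℝ) + a + 2) := by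
    field_simp
  have e8 : r ^ n * (r ^ m / (m : ℝ)) = r ^ (a + 2) / m := by rw [e4]; ring
  rw [e7, e8]
  have e9 : (n : ℝ) + a + 2 = 2 * n + m := by linarith
  rw [e9] at e2 ⊢
  field_simp
  ring

theorem Kn_int (h : Wt a C f) {m : ℕ} (hm : 0 < m) (hn : n + m = a + 2) {r : ℝ} (hr : 0 ≤ r) :
    Kn n f r = 1 / (2 * (n : ℝ)) *
      ∫ s in (0:ℝ)..r, (r ^ n * (s * (s ^ n)⁻¹) - (r ^ n)⁻¹ * s ^ (n + 1)) * f s := by
  have hna : n ≤ a + 1 := by omega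
  unfold Kn
  rw [← intervalIntegral.integral_const_mul, ← intervalIntegral.integral_const_mul,
    ← intervalIntegral.integral_sub ((h.ii_lo hna le_rfl hr).const_mul _)
      ((h.ii_hi n le_rfl hr).const_mul _)]
  congr 2
  funext s
  ring

theorem out_nonneg (n : ℕ) {r s : ℝ} (hs : 0 < s) (hsr : s ≤ r) :
    0 ≤ r ^ n * (s * (s ^ n)⁻¹) - (r ^ n)⁻¹ * s ^ (n + 1) := by
  have hr : 0 < r := hs.trans_le hsr
  have h1 : s ^ n ≤ r ^ n := pow_le_pow_left₀ hs.le hsr n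
  have hsn : 0 < s ^ n := pow_pos hs n
  have hrn : 0 < r ^ n := pow_pos hr n
  have h2 : 1 ≤ r ^ n * (s ^ n)⁻¹ := by
    rw [← div_eq_mul_inv, one_le_div hsn]; exact h1
  have h3 : (r ^ n)⁻¹ * s ^ n ≤ 1 := by
    rw [inv_mul_le_iff₀ hrn, mul_one]; exact h1
  have h4 : r ^ n * (s * (s ^ n)⁻¹) - (r ^ n)⁻¹ * s ^ (n + 1)
      = s * (r ^ n * (s ^ n)⁻¹ - (r ^ n)⁻¹ * s ^ n) := by rw [pow_succ]; ring
  rw [h4]
  exact mul_nonneg hs.le (by linarith)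

/-- the norm of `Kn n` on the weight `r^a` -/
theorem Kn_abs_le (h : Wt a C f) {m : ℕ} (hn0 : 0 < n) (hm : 0 < m) (hn : n + m = a + 2)
    {r : ℝ} (hr : 0 < r) (hr1 : r ≤ 1) :
    |Kn n f r| ≤ C / (((a : ℝ) + 2) ^ 2 - (n : ℝ) ^ 2) * r ^ (a + 2) := by
  have hna : n ≤ a + 1 := by omega
  have key : |Kn n f r| ≤ C * Kn n (fun s => s ^ a) r := by
    rw [Kn_int h hm hn hr.le, Kn_int (wt_pow a) hm hn hr.le, abs_mul,
      abs_of_nonneg (by positivity : (0:ℝ) ≤ 1 / (2 * (n : ℝ)))]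
    have : C * (1 / (2 * (n : ℝ)) *
        ∫ s in (0:ℝ)..r, (r ^ n * (s * (s ^ n)⁻¹) - (r ^ n)⁻¹ * s ^ (n + 1)) * s ^ a)
        = 1 / (2 * (n : ℝ)) *
        ∫ s in (0:ℝ)..r, C * ((r ^ n * (s * (s ^ n)⁻¹) - (r ^ n)⁻¹ * s ^ (n + 1)) * s ^ a) := by
      rw [intervalIntegral.integral_const_mul]; ring
    rw [this]
    refine mul_le_mul_of_nonneg_left ?_ (by positivity)
    have hint : ∀ {g : ℝ → ℝ} {D : ℝ}, Wt a D g → IntervalIntegrable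
        (fun s : ℝ => (r ^ n * (s * (s ^ n)⁻¹) - (r ^ n)⁻¹ * s ^ (n + 1)) * g s) volume 0 r := by
      intro g D hg
      refine (((hg.ii_lo hna le_rfl hr.le).const_mul (r ^ n)).sub
        ((hg.ii_hi n le_rfl hr.le).const_mul (r ^ n)⁻¹)).congr ?_
      intro s _; ring
    refine abs_int_le hr.le (hint h) ((hint (wt_pow a)).const_mul C) ?_
    intro s hs
    have hk := out_nonneg n hs.1 hs.2
    rw [abs_mul, abs_of_nonneg hk]
    calc (r ^ n * (s * (s ^ n)⁻¹) - (r ^ n)⁻¹ * s ^ (n + 1)) * |f s|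
        ≤ (r ^ n * (s * (s ^ n)⁻¹) - (r ^ n)⁻¹ * s ^ (n + 1)) * (C * s ^ a) :=
          mul_le_mul_of_nonneg_left (h.bound s hs.1 (hs.2.trans hr1)) hk
      _ = C * ((r ^ n * (s * (s ^ n)⁻¹) - (r ^ n)⁻¹ * s ^ (n + 1)) * s ^ a) := by ring
  rw [Kn_pow hn0 hm hn hr] at key
  refine key.trans (le_of_eq ?_)
  ring

theorem Kn'_abs_le (h : Wt a C f) {m : ℕ} (hn0 : 0 < n) (hm : 0 < m) (hn : n + m = a + 2)
    {r : ℝ} (hr : 0 < r) (hr1 : r ≤ 1) :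
    |Kn' n f r| ≤ C * (((a : ℝ) + 2) / (((a : ℝ) + 2) ^ 2 - (n : ℝ) ^ 2)) * r ^ (a + 1) := by
  have hna : n ≤ a + 1 := by omega
  have hm' : (0:ℝ) < m := Nat.cast_pos.2 hm
  have hn0' : (0:ℝ) < n := Nat.cast_pos.2 hn0
  have hrn : 0 < r ^ n := pow_pos hr n
  have hA : |∫ s in (0:ℝ)..r, s ^ (n + 1) * f s| ≤ C * (r ^ (n + a + 2) / ((n : ℝ) + a + 2)) :=
    abs_int_hi_le h hr.le hr1
  have hB : |∫ s in (0:ℝ)..r, s * (s ^ n)⁻¹ * f s| ≤ C * (r ^ m / m) := by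
    rw [← int_lo_out hm hn, ← intervalIntegral.integral_const_mul]
    refine abs_int_le hr.le (h.ii_lo hna le_rfl hr.le)
      (((wt_pow a).ii_lo hna le_rfl hr.le).const_mul C) ?_
    intro s hs
    have h0 : 0 ≤ s * (s ^ n)⁻¹ := mul_nonneg hs.1.le (inv_nonneg.2 (pow_nonneg hs.1.le _))
    rw [abs_mul, abs_of_nonneg h0]
    calc s * (s ^ n)⁻¹ * |f s| ≤ s * (s ^ n)⁻¹ * (C * s ^ a) :=
          mul_le_mul_of_nonneg_left (h.bound s hs.1 (hs.2.trans hr1)) h0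
      _ = C * (s * (s ^ n)⁻¹ * s ^ a) := by ring
  unfold Kn'
  rw [abs_mul, abs_of_nonneg (by positivity : (0:ℝ) ≤ 1 / (2 * r))]
  have hsum : |r ^ n * (∫ s in (0:ℝ)..r, s * (s ^ n)⁻¹ * f s)
      + (r ^ n)⁻¹ * ∫ s in (0:ℝ)..r, s ^ (n + 1) * f s|
      ≤ C * (r ^ (a + 2) / m) + C * (r ^ (a + 2) / ((n : ℝ) + a + 2)) := by
    refine (abs_add_le _ _).trans ?_
    rw [abs_mul, abs_mul, abs_of_nonneg hrn.le, abs_of_nonneg (inv_nonneg.2 hrn.le)]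
    have e3 : r ^ (n + a + 2) = r ^ n * r ^ (a + 2) := by rw [← pow_add]; congr 1
    have e4 : r ^ (a + 2) = r ^ n * r ^ m := by rw [← pow_add, hn]
    refine add_le_add ((mul_le_mul_of_nonneg_left hB hrn.le).trans (le_of_eq ?_))
      ((mul_le_mul_of_nonneg_left hA (inv_nonneg.2 hrn.le)).trans (le_of_eq ?_))
    · rw [e4]; ring
    · rw [e3]; field_simp
  refine (mul_le_mul_of_nonneg_left hsum (by positivity)).trans (le_of_eq ?_)
  have hnr : (a : ℝ) + 2 = n + m := by exact_mod_cast hn.symm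
  have e9 : (n : ℝ) + a + 2 = 2 * n + m := by linarith
  have e1 : ((a : ℝ) + 2) ^ 2 - (n : ℝ) ^ 2 = m * (2 * n + m) := by rw [hnr]; ring
  rw [e9, e1, hnr, pow_succ r (a + 1)]
  field_simp
  ring

end Kn

end

end Pool.Agent.SCH
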