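import Pool.Agent.MP_83fd13_an.SCH.KerA

set_option autoImplicit false

/-!
# Green's identity with elementary test functions, and the weighted operators (project SCH)
-/

namespace Pool.Agent.SCH

open MeasureTheory Set Filter Topology

noncomputable section

/-- `y` is a solution of `y'' + y'/r - n^2 y/r^2 = -f` on `(0,∞)`, `y'` its derivative -/
structure RSol (n : ℕ) (f y y' : ℝ → ℝ) : Prop where
  d1 : ∀ r : ℝ, 0 < r → HasDerivAt y (y' r) r
  d2 : ∀ r : ℝ, 0 < r → HasDerivAt (fun r => r * y' r) ((n : ℝ) ^ 2 * y r / r - r * f r) r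

theorem Gr_rsol {a n : ℕ} {C : ℝ} {f : ℝ → ℝ} (h : Wt a C f) (hn : 0 < n) :
    RSol n f (Gr n f) (Gr' n f) :=
  ⟨fun _ hr => Gr_hasDerivAt h hn hr, fun _ hr => Gr'_hasDerivAt h hn hr⟩

theorem Kn_rsol {a n : ℕ} {C : ℝ} {f : ℝ → ℝ} (h : Wt a C f) (hn : 0 < n) (hna : n ≤ a + 1) :
    RSol n (fun r => -f r) (Kn n f) (Kn' n f) :=
  ⟨fun _ hr => Kn_hasDerivAt h hn hna hr, fun _ hr =>
    (Kn'_hasDerivAt h hn hna hr).congr_deriv (by ring)⟩

theorem RSol.add {n : ℕ} {f g y y' z z' : ℝ → ℝ} (h : RSol n f y y') (h2 : RSol n g z z') :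
    RSol n (fun r => f r + g r) (fun r => y r + z r) (fun r => y' r + z' r) :=
  ⟨fun r hr => (h.d1 r hr).add (h2.d1 r hr), fun r hr => by
    have := (h.d2 r hr).add (h2.d2 r hr)
    refine (this.congr_deriv ?_).congr_of_eventuallyEq (Eventually.of_forall fun x => ?_)
    · ring
    · simp only [Pi.add_apply]; ring⟩

theorem RSol.const_mul {n : ℕ} {f y y' : ℝ → ℝ} (h : RSol n f y y') (c : ℝ) :
    RSol n (fun r => c * f r) (fun r => c * y r) (fun r => c * y' r) :=
  ⟨fun r hr => (h.d1 r hr).const_mul c, fun r hr => by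
    have := (h.d2 r hr).const_mul c
    refine (this.congr_deriv ?_).congr_of_eventuallyEq (Eventually.of_forall fun x => ?_)
    · ring
    · ring⟩

/-- `r ^ n` is a solution of the homogeneous equation -/
theorem rsol_pow (n : ℕ) : RSol n (fun _ => 0) (fun r => r ^ n) (fun r => (n : ℝ) * r ^ n / r) :=
  ⟨fun r hr => hasDerivAt_pow' n r hr, fun r hr => by
    have h := (hasDerivAt_pow' n r hr).const_mul (n : ℝ)
    refine (h.congr_deriv ?_).congr_of_eventuallyEq ?_
    · ring
    · filter_upwards [Ioi_mem_nhds hr] with x hx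
      have hx' : x ≠ 0 := ne_of_gt hx
      field_simp⟩

/-- the second derivative in the usual form -/
theorem RSol.deriv2 {n : ℕ} {f y y' : ℝ → ℝ} (h : RSol n f y y') {r : ℝ} (hr : 0 < r) :
    HasDerivAt y' ((n : ℝ) ^ 2 * y r / r ^ 2 - f r - y' r / r) r := by
  have h1 := (h.d2 r hr).div (hasDerivAt_id r) hr.ne'
  refine (h1.congr_deriv ?_).congr_of_eventuallyEq ?_
  · simp only [id]
    field_simp
  · filter_upwards [Ioi_mem_nhds hr] with x hx
    have hx' : x ≠ 0 := ne_of_gt hx
    simp only [Pi.div_apply, id]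
    field_simp

/-- Green's identity on `(0,1]` -/
theorem green {n : ℕ} {f y y' g t t' : ℝ → ℝ} (hy : RSol n f y y') (ht : RSol n g t t')
    (hlim : Tendsto (fun r => r * y' r * t r - y r * (r * t' r)) (𝓝[>] 0) (𝓝 0))
    (hint : IntervalIntegrable (fun s => s * (y s * g s - f s * t s)) volume 0 1) :
    y' 1 * t 1 - y 1 * t' 1 = ∫ s in (0:ℝ)..1, s * (y s * g s - f s * t s) := by
  have hd : ∀ r : ℝ, 0 < r → HasDerivAt (fun r => r * y' r * t r - y r * (r * t' r))
      (r * (y r * g r - f r * t r)) r := by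
    intro r hr
    have h := ((hy.d2 r hr).mul (ht.d1 r hr)).sub ((hy.d1 r hr).mul (ht.d2 r hr))
    refine h.congr_deriv ?_
    field_simp
    ring
  have hc : Tendsto (fun r : ℝ => r * y' r * t r - y r * (r * t' r)) (𝓝[<] 1)
      (𝓝 (1 * y' 1 * t 1 - y 1 * (1 * t' 1))) :=
    ((hd 1 one_pos).continuousAt.tendsto).mono_left nhdsWithin_le_nhds
  have := intervalIntegral.integral_eq_sub_of_hasDerivAt_of_tendsto (a := (0:ℝ)) (b := 1) one_pos
    (fun r hr => hd r hr.1) hint hlim hc
  rw [this]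
  ring

/-- the test function `s ^ μ` -/
theorem rsol_rpow (n : ℕ) (μ : ℝ) :
    RSol n (fun s => ((n : ℝ) ^ 2 - μ ^ 2) * s ^ (μ - 2)) (fun s => s ^ μ) (fun s => μ * s ^ (μ - 1)) :=
  ⟨fun r hr => Real.hasDerivAt_rpow_const (Or.inl hr.ne'), fun r hr => by
    have h := (Real.hasDerivAt_rpow_const (x := r) (p := μ) (Or.inl hr.ne')).const_mul μ
    refine (h.congr_deriv ?_).congr_of_eventuallyEq ?_
    · have e1 : r ^ (μ - 1) = r * r ^ (μ - 2) := by
        rw [show μ - 1 = 1 + (μ - 2) by ring, Real.rpow_add hr, Real.rpow_one]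
      have e2 : r ^ μ = r * (r * r ^ (μ - 2)) := by
        rw [← e1, show μ = 1 + (μ - 1) by ring, Real.rpow_add hr, Real.rpow_one]
        ring_nf
      rw [e2, e1]
      field_simp
      ring
    · filter_upwards [Ioi_mem_nhds hr] with x hx
      have hx : 0 < x := hx
      have e2 : x ^ μ = x * x ^ (μ - 1) := by
        conv_lhs => rw [show μ = 1 + (μ - 1) by ring, Real.rpow_add hx, Real.rpow_one]
      rw [e2]; ring⟩

/-- the test function `s ^ j` with a natural exponent -/
theorem rsol_npow (n j : ℕ) :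
    RSol n (fun s => ((n : ℝ) ^ 2 - (j : ℝ) ^ 2) * s ^ j / s ^ 2) (fun s => s ^ j)
      (fun s => (j : ℝ) * s ^ j / s) :=
  ⟨fun r hr => hasDerivAt_pow' j r hr, fun r hr => by
    have h := (hasDerivAt_pow' j r hr).const_mul (j : ℝ)
    refine (h.congr_deriv ?_).congr_of_eventuallyEq ?_
    · field_simp
      ring
    · filter_upwards [Ioi_mem_nhds hr] with x hx
      have hx' : x ≠ 0 := ne_of_gt hx
      field_simp⟩

/-- the test function `cos (κ log s)` -/
theorem rsol_cos (n : ℕ) (κ : ℝ) :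
    RSol n (fun s => ((n : ℝ) ^ 2 + κ ^ 2) * Real.cos (κ * Real.log s) / s ^ 2)
      (fun s => Real.cos (κ * Real.log s)) (fun s => -(κ * Real.sin (κ * Real.log s)) / s) :=
  ⟨fun r hr => by
    have h := ((Real.hasDerivAt_log hr.ne').const_mul κ).cos
    refine h.congr_deriv ?_
    field_simp,
  fun r hr => by
    have h := (((Real.hasDerivAt_log hr.ne').const_mul κ).sin.const_mul κ).neg
    refine (h.congr_deriv ?_).congr_of_eventuallyEq ?_
    · field_simp
      ring
    · filter_upwards [Ioi_mem_nhds hr] with x hx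
      have hx' : x ≠ 0 := ne_of_gt hx
      simp only [Pi.neg_apply]
      field_simp⟩

/-- the test function `sin (κ log s)` -/
theorem rsol_sin (n : ℕ) (κ : ℝ) :
    RSol n (fun s => ((n : ℝ) ^ 2 + κ ^ 2) * Real.sin (κ * Real.log s) / s ^ 2)
      (fun s => Real.sin (κ * Real.log s)) (fun s => κ * Real.cos (κ * Real.log s) / s) :=
  ⟨fun r hr => by
    have h := ((Real.hasDerivAt_log hr.ne').const_mul κ).sin
    refine h.congr_deriv ?_
    field_simp,
  fun r hr => by
    have h := ((Real.hasDerivAt_log hr.ne').const_mul κ).cos.const_mul κ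
    refine (h.congr_deriv ?_).congr_of_eventuallyEq ?_
    · field_simp
      ring
    · filter_upwards [Ioi_mem_nhds hr] with x hx
      have hx' : x ≠ 0 := ne_of_gt hx
      field_simp⟩

end

end Pool.Agent.SCH
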