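import Pool.Agent.MP_83fd13_an.SCH.KerB
import Pool.Agent.MP_83fd13_an.SCH.KerC

set_option autoImplicit false

/-!
# The derivative at `1` by Green's identity with `s ^ μ`; the weighted Dirichlet operator
on `C([0,1])` (project SCH)
-/

namespace Pool.Agent.SCH

open MeasureTheory Set Filter Topology

noncomputable section

theorem tendsto_zero_of_bound {g : ℝ → ℝ} {B : ℝ} {p : ℝ} (hp : 0 < p)
    (hb : ∀ s : ℝ, 0 < s → s ≤ 1 → |g s| ≤ B * s ^ p) : Tendsto g (𝓝[>] 0) (𝓝 0) := by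
  have h1 : Tendsto (fun s : ℝ => B * s ^ p) (𝓝[>] 0) (𝓝 0) := by
    have h := (Real.continuousAt_rpow_const 0 p (Or.inr hp.le)).tendsto
    rw [Real.zero_rpow hp.ne'] at h
    have := (h.const_mul B).mono_left (nhdsWithin_le_nhds (s := Ioi (0:ℝ)))
    rwa [mul_zero] at this
  refine squeeze_zero_norm' ?_ h1
  have : Ioc (0:ℝ) 1 ∈ 𝓝[>] (0:ℝ) := Ioc_mem_nhdsGT one_pos
  filter_upwards [this] with s hs
  rw [Real.norm_eq_abs]
  exact hb s hs.1 hs.2

/-- `y'(1)` by the test function `s ^ μ` -/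
theorem green_rpow {n : ℕ} {f y y' : ℝ → ℝ} (h : RSol n f y y') {A A' F μ : ℝ}
    (hμ : 1 ≤ μ) (fc : ContinuousOn f (Ioi 0))
    (hy : ∀ s : ℝ, 0 < s → s ≤ 1 → |y s| ≤ A)
    (hy' : ∀ s : ℝ, 0 < s → s ≤ 1 → |s * y' s| ≤ A')
    (hf : ∀ s : ℝ, 0 < s → s ≤ 1 → |f s| ≤ F) :
    y' 1 = μ * y 1 + ((n : ℝ) ^ 2 - μ ^ 2) * (∫ s in (0:ℝ)..1, y s * s ^ (μ - 1))
      - ∫ s in (0:ℝ)..1, f s * s ^ (μ + 1) := by
  have hμ0 : 0 < μ := by linarith
  have yc : ContinuousOn y (Ioi 0) := fun r hr => (h.d1 r hr).continuousAt.continuousWithinAt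
  have hpc : ∀ q : ℝ, ContinuousOn (fun s : ℝ => s ^ q) (Ioi 0) := fun q r hr =>
    (Real.continuousAt_rpow_const r q (Or.inl (ne_of_gt hr))).continuousWithinAt
  have hle : ∀ q : ℝ, 0 ≤ q → ∀ s : ℝ, 0 < s → s ≤ 1 → |s ^ q| ≤ 1 := by
    intro q hq s hs hs1
    rw [abs_of_nonneg (Real.rpow_nonneg hs.le q)]
    exact Real.rpow_le_one hs.le hs1 hq
  have hmulb : ∀ {u v : ℝ → ℝ} {U : ℝ}, (∀ s : ℝ, 0 < s → s ≤ 1 → |u s| ≤ U) →
      (∀ s : ℝ, 0 < s → s ≤ 1 → |v s| ≤ 1) → ∀ s : ℝ, 0 < s → s ≤ 1 → |u s * v s| ≤ U := by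
    intro u v U hu hv s hs hs1
    rw [abs_mul]
    calc |u s| * |v s| ≤ U * 1 := mul_le_mul (hu s hs hs1) (hv s hs hs1) (abs_nonneg _)
          ((abs_nonneg _).trans (hu s hs hs1))
      _ = U := mul_one U
  have i1 : IntervalIntegrable (fun s => y s * s ^ (μ - 1)) volume 0 1 :=
    intervalIntegrable_of_bound (yc.mul (hpc _)) (hmulb hy (hle _ (by linarith))) le_rfl zero_le_one
  have i2 : IntervalIntegrable (fun s => f s * s ^ (μ + 1)) volume 0 1 :=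
    intervalIntegrable_of_bound (fc.mul (hpc _)) (hmulb hf (hle _ (by linarith))) le_rfl zero_le_one
  have key : ∀ s : ℝ, 0 < s → s * (y s * (((n : ℝ) ^ 2 - μ ^ 2) * s ^ (μ - 2)) - f s * s ^ μ)
      = ((n : ℝ) ^ 2 - μ ^ 2) * (y s * s ^ (μ - 1)) - f s * s ^ (μ + 1) := by
    intro s hs
    have e1 : s ^ (μ - 1) = s * s ^ (μ - 2) := by
      rw [show μ - 1 = 1 + (μ - 2) by ring, Real.rpow_add hs, Real.rpow_one]
    have e2 : s ^ (μ + 1) = s * s ^ μ := by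
      rw [show μ + 1 = 1 + μ by ring, Real.rpow_add hs, Real.rpow_one]
    rw [e1, e2]; ring
  have hae : ∀ᵐ s : ℝ ∂volume, s ∈ uIoc (0:ℝ) 1 →
      s * (y s * (((n : ℝ) ^ 2 - μ ^ 2) * s ^ (μ - 2)) - f s * s ^ μ)
      = ((n : ℝ) ^ 2 - μ ^ 2) * (y s * s ^ (μ - 1)) - f s * s ^ (μ + 1) := by
    refine Eventually.of_forall fun s hs => key s ?_
    rw [uIoc_of_le zero_le_one] at hs
    exact hs.1
  have hint0 : IntervalIntegrable (fun s => ((n : ℝ) ^ 2 - μ ^ 2) * (y s * s ^ (μ - 1))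
      - f s * s ^ (μ + 1)) volume 0 1 := (i1.const_mul _).sub i2
  have hint : IntervalIntegrable (fun s => s * (y s * (((n : ℝ) ^ 2 - μ ^ 2) * s ^ (μ - 2))
      - f s * s ^ μ)) volume 0 1 := by
    refine hint0.congr_ae ?_
    rw [EventuallyEq, ae_restrict_iff' measurableSet_uIoc]
    exact hae.mono fun s hs hm => (hs hm).symm
  have hlim : Tendsto (fun r => r * y' r * r ^ μ - y r * (r * (μ * r ^ (μ - 1)))) (𝓝[>] 0) (𝓝 0) := by
    refine tendsto_zero_of_bound (B := A' + A * μ) hμ0 ?_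
    intro s hs hs1
    have e2 : s * (μ * s ^ (μ - 1)) = μ * s ^ μ := by
      conv_rhs => rw [show μ = 1 + (μ - 1) by ring, Real.rpow_add hs, Real.rpow_one]
      ring
    rw [e2]
    have hs0 : 0 ≤ s ^ μ := Real.rpow_nonneg hs.le μ
    calc |s * y' s * s ^ μ - y s * (μ * s ^ μ)| ≤ |s * y' s * s ^ μ| + |y s * (μ * s ^ μ)| :=
          abs_sub _ _
      _ = |s * y' s| * s ^ μ + |y s| * (μ * s ^ μ) := by
          rw [abs_mul, abs_mul (y s), abs_of_nonneg hs0, abs_of_nonneg (mul_nonneg hμ0.le hs0)]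
      _ ≤ A' * s ^ μ + A * (μ * s ^ μ) :=
          add_le_add (mul_le_mul_of_nonneg_right (hy' s hs hs1) hs0)
            (mul_le_mul_of_nonneg_right (hy s hs hs1) (mul_nonneg hμ0.le hs0))
      _ = (A' + A * μ) * s ^ μ := by ring
  have hg := green h (rsol_rpow n μ) hlim hint
  rw [intervalIntegral.integral_congr_ae hae, intervalIntegral.integral_sub (i1.const_mul _) i2,
    intervalIntegral.integral_const_mul] at hg
  simp only [Real.one_rpow, mul_one] at hg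
  linarith

/-! ### the weighted Dirichlet operator -/

/-- `Gr` in the weight `r^a` : `V = r^a g`, `Gr n V = r^a (GrW n a g)` -/
def GrW (n a : ℕ) (g : ℝ → ℝ) (r : ℝ) : ℝ := (r ^ a)⁻¹ * Gr n (fun s => s ^ a * g s) r

theorem wt_weight {a : ℕ} {g : ℝ → ℝ} {C : ℝ} (hg : ContinuousOn g (Ioi 0))
    (hb : ∀ s : ℝ, 0 < s → s ≤ 1 → |g s| ≤ C) : Wt a C (fun s => s ^ a * g s) :=
  ⟨(continuous_pow a).continuousOn.mul hg, fun s hs hs1 => by
    rw [abs_mul, abs_of_nonneg (pow_nonneg hs.le a), mul_comm]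
    exact mul_le_mul_of_nonneg_right (hb s hs hs1) (pow_nonneg hs.le a)⟩

theorem GrW_mul {n a : ℕ} (g : ℝ → ℝ) {r : ℝ} (hr : 0 < r) :
    r ^ a * GrW n a g r = Gr n (fun s => s ^ a * g s) r := by
  unfold GrW
  have : r ^ a ≠ 0 := pow_ne_zero _ hr.ne'
  field_simp

theorem Gr_zero {n : ℕ} (hn : 0 < n) (f : ℝ → ℝ) : Gr n f 0 = 0 := by
  unfold Gr; simp [hn.ne']

theorem GrW_zero {n a : ℕ} (hn : 0 < n) (g : ℝ → ℝ) : GrW n a g 0 = 0 := by
  unfold GrW; rw [Gr_zero hn]; simp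

theorem GrW_abs_le {n a m : ℕ} (hm : 0 < m) (hn : n = a + 2 + m) {g : ℝ → ℝ} {C : ℝ}
    (hg : ContinuousOn g (Ioi 0)) (hb : ∀ s : ℝ, 0 < s → s ≤ 1 → |g s| ≤ C)
    {r : ℝ} (hr : 0 ≤ r) (hr1 : r ≤ 1) :
    |GrW n a g r| ≤ C / ((n : ℝ) ^ 2 - ((a : ℝ) + 2) ^ 2) * r ^ 2 := by
  rcases hr.eq_or_lt with h0 | h0
  · subst h0
    rw [GrW_zero (by omega)]
    simp
  · have h1 := Gr_abs_le' (wt_weight (a := a) hg hb) hm hn h0 hr1
    have h2 : 0 < r ^ a := pow_pos h0 a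
    unfold GrW
    rw [abs_mul, abs_of_nonneg (inv_nonneg.2 h2.le), inv_mul_le_iff₀ h2]
    refine h1.trans (le_of_eq ?_)
    rw [pow_add]; ring

theorem GrW_continuousOn {n a m : ℕ} (hm : 0 < m) (hn : n = a + 2 + m) {g : ℝ → ℝ} {C : ℝ}
    (hg : ContinuousOn g (Ioi 0)) (hb : ∀ s : ℝ, 0 < s → s ≤ 1 → |g s| ≤ C) :
    ContinuousOn (GrW n a g) (Icc 0 1) := by
  have hn0 : 0 < n := by omega
  intro r hr
  rcases hr.1.eq_or_lt with h0 | h0
  · subst h0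
    rw [ContinuousWithinAt, GrW_zero hn0]
    have h1 : Tendsto (fun r : ℝ => C / ((n : ℝ) ^ 2 - ((a : ℝ) + 2) ^ 2) * r ^ 2)
        (𝓝[Icc 0 1] 0) (𝓝 0) := by
      have : Continuous (fun r : ℝ => C / ((n : ℝ) ^ 2 - ((a : ℝ) + 2) ^ 2) * r ^ 2) := by fun_prop
      have h2 := (this.tendsto 0).mono_left (nhdsWithin_le_nhds (s := Icc (0:ℝ) 1))
      simpa using h2
    refine squeeze_zero_norm' ?_ h1
    filter_upwards [self_mem_nhdsWithin] with s hs
    rw [Real.norm_eq_abs]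
    exact GrW_abs_le hm hn hg hb hs.1 hs.2
  · have h1 := (Gr_hasDerivAt (wt_weight (a := a) hg hb) hn0 h0).continuousAt
    have h2 : ContinuousAt (fun r : ℝ => (r ^ a)⁻¹) r :=
      ((continuous_pow a).continuousAt).inv₀ (pow_ne_zero _ h0.ne')
    exact (h2.mul h1).continuousWithinAt

/-- extension of a continuous function on `[0,1]` to the line -/
def ext (g : C(Icc (0:ℝ) 1, ℝ)) : ℝ → ℝ := IccExtend zero_le_one g

theorem ext_continuous (g : C(Icc (0:ℝ) 1, ℝ)) : Continuous (ext g) :=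
  g.continuous.Icc_extend'

theorem ext_abs_le (g : C(Icc (0:ℝ) 1, ℝ)) (s : ℝ) : |ext g s| ≤ ‖g‖ := by
  unfold ext IccExtend
  exact g.norm_coe_le_norm _

theorem ext_coe (g : C(Icc (0:ℝ) 1, ℝ)) (r : Icc (0:ℝ) 1) : ext g r = g r := by
  unfold ext; rw [IccExtend_val]

theorem ext_add (g k : C(Icc (0:ℝ) 1, ℝ)) (s : ℝ) : ext (g + k) s = ext g s + ext k s := rfl

theorem ext_smul (c : ℝ) (g : C(Icc (0:ℝ) 1, ℝ)) (s : ℝ) : ext (c • g) s = c * ext g s := rfl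

theorem wt_ext (a : ℕ) (g : C(Icc (0:ℝ) 1, ℝ)) : Wt a ‖g‖ (fun s => s ^ a * ext g s) :=
  wt_weight (ext_continuous g).continuousOn (fun s _ _ => ext_abs_le g s)

theorem Gr_add {a n : ℕ} {C D : ℝ} {f g : ℝ → ℝ} (h : Wt a C f) (h2 : Wt a D g) {r : ℝ}
    (hr : 0 < r) : Gr n (fun s => f s + g s) r = Gr n f r + Gr n g r := by
  have e1 : ∀ v : ℝ, 0 ≤ v → ∫ s in (0:ℝ)..v, s ^ (n + 1) * (f s + g s)
      = (∫ s in (0:ℝ)..v, s ^ (n + 1) * f s) + ∫ s in (0:ℝ)..v, s ^ (n + 1) * g s := by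
    intro v hv
    rw [← intervalIntegral.integral_add (h.ii_hi n le_rfl hv) (h2.ii_hi n le_rfl hv)]
    congr 1; funext s; ring
  have e2 : ∫ s in r..1, s * (s ^ n)⁻¹ * (f s + g s)
      = (∫ s in r..1, s * (s ^ n)⁻¹ * f s) + ∫ s in r..1, s * (s ^ n)⁻¹ * g s := by
    rw [← intervalIntegral.integral_add (ii_lo_pos h.cont n hr one_pos)
      (ii_lo_pos h2.cont n hr one_pos)]
    congr 1; funext s; ring
  unfold Gr
  rw [e1 r hr.le, e1 1 zero_le_one, e2]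
  ring

theorem Gr_smul {n : ℕ} (c : ℝ) (f : ℝ → ℝ) (r : ℝ) :
    Gr n (fun s => c * f s) r = c * Gr n f r := by
  have e1 : ∀ u v : ℝ, ∫ s in u..v, s ^ (n + 1) * (c * f s)
      = c * ∫ s in u..v, s ^ (n + 1) * f s := by
    intro u v
    rw [← intervalIntegral.integral_const_mul]
    congr 1; funext s; ring
  have e2 : ∀ u v : ℝ, ∫ s in u..v, s * (s ^ n)⁻¹ * (c * f s)
      = c * ∫ s in u..v, s * (s ^ n)⁻¹ * f s := by
    intro u v
    rw [← intervalIntegral.integral_const_mul]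
    congr 1; funext s; ring
  unfold Gr
  rw [e1, e1, e2]
  ring

/-- the weighted Dirichlet operator on `C([0,1])` (`n = a + 2 + m`, `m > 0`) -/
def GrC (n a m : ℕ) (hm : 0 < m) (hn : n = a + 2 + m) :
    C(Icc (0:ℝ) 1, ℝ) →L[ℝ] C(Icc (0:ℝ) 1, ℝ) :=
  LinearMap.mkContinuous
    { toFun := fun g => ⟨fun r => GrW n a (ext g) r,
        (GrW_continuousOn hm hn (ext_continuous g).continuousOn
          (fun s _ _ => ext_abs_le g s)).domRestrict⟩
      map_add' := by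
        intro g k
        ext r
        show GrW n a (ext (g + k)) r = GrW n a (ext g) r + GrW n a (ext k) r
        rcases r.2.1.eq_or_lt with h0 | h0
        · rw [← h0, GrW_zero (by omega), GrW_zero (by omega), GrW_zero (by omega), add_zero]
        · unfold GrW
          have : (fun s => s ^ a * ext (g + k) s) = fun s => s ^ a * ext g s + s ^ a * ext k s := by
            funext s; rw [ext_add, mul_add]
          rw [this, Gr_add (wt_ext a g) (wt_ext a k) h0, mul_add]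
      map_smul' := by
        intro c g
        ext r
        show GrW n a (ext (c • g)) r = c * GrW n a (ext g) r
        unfold GrW
        have : (fun s => s ^ a * ext (c • g) s) = fun s => c * (s ^ a * ext g s) := by
          funext s; rw [ext_smul]; ring
        rw [this, Gr_smul]
        ring }
    (1 / ((n : ℝ) ^ 2 - ((a : ℝ) + 2) ^ 2))
    (by
      intro g
      have hm' : (0:ℝ) < m := Nat.cast_pos.2 hm
      have hnr : (n : ℝ) = a + 2 + m := by rw [hn]; push_cast; ring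
      have hd : 0 < (n : ℝ) ^ 2 - ((a : ℝ) + 2) ^ 2 := by
        have e1 : (n : ℝ) ^ 2 - ((a : ℝ) + 2) ^ 2 = m * (n + a + 2) := by rw [hnr]; ring
        rw [e1, hnr]; positivity
      refine (ContinuousMap.norm_le _ (by positivity)).2 ?_
      intro r
      have h := GrW_abs_le hm hn (ext_continuous g).continuousOn
        (fun s _ _ => ext_abs_le g s) r.2.1 r.2.2
      refine h.trans ?_
      have h1 : (r : ℝ) ^ 2 ≤ 1 := pow_le_one₀ r.2.1 r.2.2
      calc ‖g‖ / ((n : ℝ) ^ 2 - ((a : ℝ) + 2) ^ 2) * (r : ℝ) ^ 2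
          ≤ ‖g‖ / ((n : ℝ) ^ 2 - ((a : ℝ) + 2) ^ 2) * 1 :=
            mul_le_mul_of_nonneg_left h1 (by positivity)
        _ = 1 / ((n : ℝ) ^ 2 - ((a : ℝ) + 2) ^ 2) * ‖g‖ := by ring)

theorem GrC_apply {n a m : ℕ} (hm : 0 < m) (hn : n = a + 2 + m) (g : C(Icc (0:ℝ) 1, ℝ))
    (r : Icc (0:ℝ) 1) : GrC n a m hm hn g r = GrW n a (ext g) r := rfl

theorem GrC_norm_le {n a m : ℕ} (hm : 0 < m) (hn : n = a + 2 + m) :
    ‖GrC n a m hm hn‖ ≤ 1 / ((n : ℝ) ^ 2 - ((a : ℝ) + 2) ^ 2) := by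
  have hm' : (0:ℝ) < m := Nat.cast_pos.2 hm
  have hnr : (n : ℝ) = a + 2 + m := by rw [hn]; push_cast; ring
  have hd : 0 < (n : ℝ) ^ 2 - ((a : ℝ) + 2) ^ 2 := by
    have e1 : (n : ℝ) ^ 2 - ((a : ℝ) + 2) ^ 2 = m * (n + a + 2) := by rw [hnr]; ring
    rw [e1, hnr]; positivity
  exact LinearMap.mkContinuous_norm_le _ (by positivity) _

end

end Pool.Agent.SCH
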