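import Pool.Agent.MP_83fd13_an.SCH.KerD

set_option autoImplicit false

/-!
# Universal bounds for the Dirichlet kernel with the weight `r^(n-N) (1 - r^N)`, and joint continuity
-/

noncomputable section

namespace Pool.Agent.SCH

open Set Filter Topology MeasureTheory intervalIntegral

/-! ### elementary inequalities -/

/-- `N r^j ≤ (N - j) + j r^N` -/
theorem amgm_pow {N j : ℕ} (hN : 0 < N) (hj : j ≤ N) {r : ℝ} (hr : 0 ≤ r) :
    (N : ℝ) * r ^ j ≤ ((N : ℝ) - j) + j * r ^ N := by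
  have hN' : (0:ℝ) < N := Nat.cast_pos.2 hN
  have hj' : (j : ℝ) ≤ N := Nat.cast_le.2 hj
  have h := Real.geom_mean_le_arith_mean2_weighted (w₁ := ((N : ℝ) - j) / N) (w₂ := (j : ℝ) / N)
    (p₁ := 1) (p₂ := r ^ N) (div_nonneg (by linarith) hN'.le) (by positivity) zero_le_one
    (pow_nonneg hr N) (by field_simp; ring)
  rw [Real.one_rpow, one_mul] at h
  have e : (r ^ N) ^ ((j : ℝ) / N) = r ^ j := by
    rw [← Real.rpow_natCast r N, ← Real.rpow_mul hr, mul_div_cancel₀ _ hN'.ne', Real.rpow_natCast]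
  rw [e] at h
  have h2 := mul_le_mul_of_nonneg_left h hN'.le
  refine h2.trans (le_of_eq ?_)
  field_simp

/-- `r^N (1 - r^m) N ≤ m (1 - r^N)` -/
theorem out_pow {N m : ℕ} {r : ℝ} (hr : 0 ≤ r) (hr1 : r ≤ 1) :
    (N : ℝ) * (r ^ N * (1 - r ^ m)) ≤ m * (1 - r ^ N) := by
  have h1 : 1 - r ^ m ≤ m * (1 - r) := by
    have := one_add_mul_le_pow (a := r - 1) (by linarith) m
    have e : 1 + (r - 1) = r := by ring
    rw [e] at this
    linarith
  have h2 : (N : ℝ) * r ^ N * (1 - r) ≤ 1 - r ^ N := by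
    have h3 : (∑ i ∈ Finset.range N, r ^ i) * (1 - r) = 1 - r ^ N := by
      have := geom_sum_mul r N
      linarith
    rw [← h3]
    refine mul_le_mul_of_nonneg_right ?_ (by linarith)
    have h4 : ∑ i ∈ Finset.range N, r ^ N ≤ ∑ i ∈ Finset.range N, r ^ i :=
      Finset.sum_le_sum fun i hi =>
        pow_le_pow_of_le_one hr hr1 (Finset.mem_range.1 hi).le
    simpa using h4
  have h5 : 0 ≤ (N : ℝ) * r ^ N := by positivity
  calc (N : ℝ) * (r ^ N * (1 - r ^ m)) = (N : ℝ) * r ^ N * (1 - r ^ m) := by ring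
    _ ≤ (N : ℝ) * r ^ N * (m * (1 - r)) := mul_le_mul_of_nonneg_left h1 h5
    _ = m * ((N : ℝ) * r ^ N * (1 - r)) := by ring
    _ ≤ m * (1 - r ^ N) := mul_le_mul_of_nonneg_left h2 (Nat.cast_nonneg m)

/-! ### the kernel operator applied to a power, all exponents -/

/-- monotonicity: the operator is dominated by its value on the majorant -/
theorem Gr_abs_le_pow {n p : ℕ} {C : ℝ} {f : ℝ → ℝ} (h : Wt p C f) {r : ℝ} (hr : 0 < r)
    (hr1 : r ≤ 1) : |Gr n f r| ≤ C * Gr n (fun s => s ^ p) r := by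
  rw [Gr_split h hr, Gr_split (wt_pow p) hr, abs_mul]
  have hn0 : (0:ℝ) ≤ 1 / (2 * (n : ℝ)) := by positivity
  rw [abs_of_nonneg hn0]
  have hpos1 : 0 ≤ (r ^ n)⁻¹ - r ^ n := by
    have h1 : r ^ n ≤ 1 := pow_le_one₀ hr.le hr1
    have h2 : 1 ≤ (r ^ n)⁻¹ := (one_le_inv₀ (pow_pos hr n)).2 h1
    linarith
  have hA : |∫ s in (0:ℝ)..r, s ^ (n + 1) * f s| ≤ C * ∫ s in (0:ℝ)..r, s ^ (n + 1) * s ^ p := by
    rw [int_hi]; exact abs_int_hi_le h hr.le hr1
  have hB : |∫ s in r..1, (s * (s ^ n)⁻¹ - s ^ (n + 1)) * f s|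
      ≤ C * ∫ s in r..1, (s * (s ^ n)⁻¹ - s ^ (n + 1)) * s ^ p := by
    rw [← intervalIntegral.integral_const_mul]
    have ii : ∀ {q : ℕ} {D : ℝ} {g : ℝ → ℝ}, Wt q D g →
        IntervalIntegrable (fun s => (s * (s ^ n)⁻¹ - s ^ (n + 1)) * g s) volume r 1 := by
      intro q D g hg
      have := (ii_lo_pos hg.cont n hr one_pos).sub (hg.ii_hi n hr.le zero_le_one)
      refine this.congr ?_
      intro s _
      ring
    refine abs_int_le hr1 (ii h) ((ii (wt_pow p)).const_mul C) ?_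
    intro s hs
    have hs0 : 0 < s := hr.trans hs.1
    rw [abs_mul, abs_of_nonneg (lo_sub_hi_nonneg n hs0 hs.2)]
    calc (s * (s ^ n)⁻¹ - s ^ (n + 1)) * |f s|
        ≤ (s * (s ^ n)⁻¹ - s ^ (n + 1)) * (C * s ^ p) :=
          mul_le_mul_of_nonneg_left (h.bound s hs0 hs.2) (lo_sub_hi_nonneg n hs0 hs.2)
      _ = C * ((s * (s ^ n)⁻¹ - s ^ (n + 1)) * s ^ p) := by ring
  calc 1 / (2 * (n : ℝ)) * |((r ^ n)⁻¹ - r ^ n) * (∫ s in (0:ℝ)..r, s ^ (n + 1) * f s)
      + r ^ n * ∫ s in r..1, (s * (s ^ n)⁻¹ - s ^ (n + 1)) * f s|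
      ≤ 1 / (2 * (n : ℝ)) * (((r ^ n)⁻¹ - r ^ n) * (C * ∫ s in (0:ℝ)..r, s ^ (n + 1) * s ^ p)
      + r ^ n * (C * ∫ s in r..1, (s * (s ^ n)⁻¹ - s ^ (n + 1)) * s ^ p)) := by
        refine mul_le_mul_of_nonneg_left ?_ hn0
        refine (abs_add_le _ _).trans (add_le_add ?_ ?_)
        · rw [abs_mul, abs_of_nonneg hpos1]
          exact mul_le_mul_of_nonneg_left hA hpos1
        · rw [abs_mul, abs_of_nonneg (pow_nonneg hr.le n)]
          exact mul_le_mul_of_nonneg_left hB (pow_nonneg hr.le n)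
    _ = _ := by ring

/-- the integral over `[r,1]` for large exponents -/
theorem int_lo_out' {n p m : ℕ} (hm : 0 < m) (hn : n + m = p + 2) {r : ℝ} (hr : 0 < r) :
    ∫ s in r..1, s * (s ^ n)⁻¹ * s ^ p = (1 - r ^ m) / m := by
  have h1 := int_lo_out (n := n) (a := p) hm hn (r := 1)
  have h2 := int_lo_out (n := n) (a := p) hm hn (r := r)
  have hna : n ≤ p + 1 := by omega
  have h3 := intervalIntegral.integral_add_adjacent_intervals
    ((wt_pow p).ii_lo hna le_rfl hr.le) ((wt_pow p).ii_lo hna hr.le zero_le_one)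
  rw [h1, h2, one_pow] at h3
  have h4 : ∫ s in r..1, s * (s ^ n)⁻¹ * s ^ p = 1 / m - r ^ m / m := by linarith
  rw [h4]; ring

theorem Gr_pow_out {n p m : ℕ} (hn0 : 0 < n) (hm : 0 < m) (hn : n + m = p + 2) {r : ℝ}
    (hr : 0 < r) :
    Gr n (fun s => s ^ p) r = r ^ n * (1 - r ^ m) / (m * ((n : ℝ) + p + 2)) := by
  unfold Gr
  rw [int_hi, int_hi, int_lo_out' hm hn hr]
  have hm' : (m : ℝ) ≠ 0 := Nat.cast_ne_zero.2 hm.ne'
  have hn0' : (n : ℝ) ≠ 0 := Nat.cast_ne_zero.2 hn0.ne'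
  have hpr : (p : ℝ) = n + m - 2 := by
    have : (n : ℝ) + m = p + 2 := by exact_mod_cast hn
    linarith
  have e1 : n + p + 2 = n + n + m := by omega
  have hs : (n : ℝ) + p + 2 = 2 * n + m := by rw [hpr]; ring
  have hs0 : (2 * (n : ℝ) + m) ≠ 0 := by positivity
  have hrn : r ^ n ≠ 0 := pow_ne_zero _ hr.ne'
  rw [hs, e1, pow_add, pow_add, one_pow]
  field_simp
  ring

theorem Gr_pow_eq {n p : ℕ} (hn0 : 0 < n) (hn : n = p + 2) {r : ℝ} (hr : 0 < r) :
    Gr n (fun s => s ^ p) r = r ^ n * (-Real.log r) / ((n : ℝ) + p + 2) := by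
  have hint : ∫ s in r..1, s * (s ^ n)⁻¹ * s ^ p = -Real.log r := by
    have hpos : ∀ x ∈ uIcc r 1, (0:ℝ) < x := fun x hx => lt_of_lt_of_le (lt_min hr one_pos) hx.1
    have e : ∫ s in r..1, s * (s ^ n)⁻¹ * s ^ p = ∫ s in r..1, s⁻¹ := by
      refine intervalIntegral.integral_congr ?_
      intro s hs
      have hs0 := (hpos s hs).ne'
      have h2 : s ^ p ≠ 0 := pow_ne_zero _ hs0
      show s * (s ^ n)⁻¹ * s ^ p = s⁻¹
      rw [hn, pow_add]
      field_simp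
    rw [e, integral_inv_of_pos hr one_pos, one_div, Real.log_inv]
  unfold Gr
  rw [int_hi, int_hi, hint]
  have hn0' : (n : ℝ) ≠ 0 := Nat.cast_ne_zero.2 hn0.ne'
  have hpr : (p : ℝ) = n - 2 := by
    have : (n : ℝ) = p + 2 := by exact_mod_cast hn
    linarith
  have e1 : n + p + 2 = n + n := by omega
  have hs : (n : ℝ) + p + 2 = 2 * n := by rw [hpr]; ring
  have hrn : r ^ n ≠ 0 := pow_ne_zero _ hr.ne'
  rw [hs, e1, pow_add, one_pow]
  field_simp
  ring

/-- the universal bound -/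
theorem Gr_univ {n p N : ℕ} (hN : 0 < N) (hNn : N ≤ n) (hp : n ≤ p + N) {C : ℝ} {f : ℝ → ℝ}
    (h : Wt p C f) {r : ℝ} (hr : 0 < r) (hr1 : r ≤ 1) :
    |Gr n f r| ≤ C * (r ^ (n - N) * (1 - r ^ N) / (N * ((n : ℝ) + p + 2))) := by
  refine (Gr_abs_le_pow h hr hr1).trans (mul_le_mul_of_nonneg_left ?_ h.nonneg)
  have hN' : (0:ℝ) < N := Nat.cast_pos.2 hN
  have hn0 : 0 < n := hN.trans_le hNn
  have hS : 0 < (n : ℝ) + p + 2 := by positivity
  have hrn : r ^ n = r ^ (n - N) * r ^ N := by rw [← pow_add, Nat.sub_add_cancel hNn]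
  have hq : 0 ≤ r ^ (n - N) := pow_nonneg hr.le _
  rcases lt_trichotomy (p + 2) n with hlt | heq | hgt
  · obtain ⟨m, hm⟩ : ∃ m, n = p + 2 + m := ⟨n - (p + 2), by omega⟩
    have hm0 : 0 < m := by omega
    have hmN : m ≤ N := by omega
    rw [Gr_pow hm0 hm hr]
    have hnr : (n : ℝ) = p + 2 + m := by rw [hm]; push_cast; ring
    have e1 : (n : ℝ) ^ 2 - ((p : ℝ) + 2) ^ 2 = m * (n + p + 2) := by rw [hnr]; ring
    have hm' : (0:ℝ) < m := Nat.cast_pos.2 hm0
    have e2 : r ^ (p + 2) = r ^ (n - N) * r ^ (N - m) := by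
      rw [← pow_add]; congr 1; omega
    have h3 := amgm_pow hN (Nat.sub_le N m) hr.le (j := N - m)
    rw [Nat.cast_sub hmN] at h3
    rw [e1, e2, hrn, div_le_div_iff₀ (by positivity) (by positivity)]
    have h4 : (N : ℝ) * (r ^ (N - m) - r ^ N) ≤ m * (1 - r ^ N) := by linarith
    have h5 := mul_le_mul_of_nonneg_left h4 (mul_nonneg hq hS.le)
    calc (r ^ (n - N) * r ^ (N - m) - r ^ (n - N) * r ^ N) * (N * ((n : ℝ) + p + 2))
        = r ^ (n - N) * ((n : ℝ) + p + 2) * (N * (r ^ (N - m) - r ^ N)) := by ring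
      _ ≤ r ^ (n - N) * ((n : ℝ) + p + 2) * (m * (1 - r ^ N)) := h5
      _ = _ := by ring
  · rw [Gr_pow_eq hn0 heq.symm hr, hrn, div_le_div_iff₀ hS (by positivity)]
    have hlog : (N : ℝ) * (r ^ N * (-Real.log r)) ≤ 1 - r ^ N := by
      have hrN : 0 < r ^ N := pow_pos hr N
      have h6 := Real.log_le_sub_one_of_pos (inv_pos.2 hrN)
      rw [Real.log_inv, Real.log_pow] at h6
      have h7 := mul_le_mul_of_nonneg_left h6 hrN.le
      have h8 : r ^ N * ((r ^ N)⁻¹ - 1) = 1 - r ^ N := by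
        field_simp
      rw [h8] at h7
      linarith
    have h5 := mul_le_mul_of_nonneg_left hlog (mul_nonneg hq hS.le)
    calc r ^ (n - N) * r ^ N * -Real.log r * (N * ((n : ℝ) + p + 2))
        = r ^ (n - N) * ((n : ℝ) + p + 2) * (N * (r ^ N * (-Real.log r))) := by ring
      _ ≤ r ^ (n - N) * ((n : ℝ) + p + 2) * (1 - r ^ N) := h5
      _ = _ := by ring
  · obtain ⟨m, hm⟩ : ∃ m, n + m = p + 2 := ⟨p + 2 - n, by omega⟩
    have hm0 : 0 < m := by omega
    have hm' : (0:ℝ) < m := Nat.cast_pos.2 hm0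
    rw [Gr_pow_out hn0 hm0 hm hr, hrn, div_le_div_iff₀ (by positivity) (by positivity)]
    have h4 := out_pow (N := N) (m := m) hr.le hr1
    have h5 := mul_le_mul_of_nonneg_left h4 (mul_nonneg hq hS.le)
    calc r ^ (n - N) * r ^ N * (1 - r ^ m) * (N * ((n : ℝ) + p + 2))
        = r ^ (n - N) * ((n : ℝ) + p + 2) * (N * (r ^ N * (1 - r ^ m))) := by ring
      _ ≤ r ^ (n - N) * ((n : ℝ) + p + 2) * (m * (1 - r ^ N)) := h5
      _ = _ := by ring

/-! ### bounds for the functional `∫ s^(n+1) f` -/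

theorem int_abs_le_pow {n p : ℕ} {C : ℝ} {f : ℝ → ℝ} (h : Wt p C f) :
    |∫ s in (0:ℝ)..1, s ^ (n + 1) * f s| ≤ C / ((n : ℝ) + p + 2) := by
  have := abs_int_hi_le (n := n) h zero_le_one le_rfl
  rw [one_pow, mul_one_div] at this
  exact this

/-- source with the factor `1 - s^N` (`N = 1` gives the factor `1 - s`) -/
theorem int_abs_le_sub {n p N : ℕ} {C : ℝ} {f : ℝ → ℝ} (hc : ContinuousOn f (Ioi 0))
    (hb : ∀ s : ℝ, 0 < s → s ≤ 1 → |f s| ≤ C * (s ^ p * (1 - s ^ N))) (hC : 0 ≤ C) :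
    |∫ s in (0:ℝ)..1, s ^ (n + 1) * f s| ≤ C * (N / (((n : ℝ) + p + 2) * (n + p + N + 2))) := by
  have hw : Wt p C f := ⟨hc, fun s hs hs1 => (hb s hs hs1).trans (by
    refine mul_le_mul_of_nonneg_left ?_ hC
    have h1 : 0 ≤ s ^ p := pow_nonneg hs.le p
    have h2 : 0 ≤ s ^ N := pow_nonneg hs.le N
    nlinarith)⟩
  have hv : ∫ s in (0:ℝ)..1, (s ^ (n + 1) * s ^ p - s ^ (n + 1) * s ^ (p + N))
      = (N : ℝ) / (((n : ℝ) + p + 2) * (n + p + N + 2)) := by
    rw [intervalIntegral.integral_sub ((wt_pow p).ii_hi n le_rfl zero_le_one)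
      ((wt_pow (p + N)).ii_hi n le_rfl zero_le_one), int_hi, int_hi, one_pow, one_pow]
    have h1 : (n : ℝ) + p + 2 ≠ 0 := by positivity
    have h2 : (n : ℝ) + p + N + 2 ≠ 0 := by positivity
    have h3 : (n : ℝ) + (p + N : ℕ) + 2 = n + p + N + 2 := by push_cast; ring
    rw [h3]
    field_simp
    ring
  rw [← hv, ← intervalIntegral.integral_const_mul]
  refine abs_int_le zero_le_one (hw.ii_hi n le_rfl zero_le_one)
    ((((wt_pow p).ii_hi n le_rfl zero_le_one).sub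
      ((wt_pow (p + N)).ii_hi n le_rfl zero_le_one)).const_mul C) ?_
  intro s hs
  rw [abs_mul, abs_of_nonneg (pow_nonneg hs.1.le _)]
  calc s ^ (n + 1) * |f s| ≤ s ^ (n + 1) * (C * (s ^ p * (1 - s ^ N))) :=
        mul_le_mul_of_nonneg_left (hb s hs.1 hs.2) (pow_nonneg hs.1.le _)
    _ = C * (s ^ (n + 1) * s ^ p - s ^ (n + 1) * s ^ (p + N)) := by rw [pow_add s p N]; ring

/-! ### joint continuity -/

theorem continuous_int_joint {n : ℕ} {F : ℝ → ℝ → ℝ} (hF : Continuous (Function.uncurry F)) :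
    Continuous (fun q : ℝ × ℝ => ∫ s in (0:ℝ)..q.2, s ^ (n + 1) * F q.1 s) := by
  refine intervalIntegral.continuous_parametric_intervalIntegral_of_continuous
    (f := fun (q : ℝ × ℝ) (s : ℝ) => s ^ (n + 1) * F q.1 s) ?_ continuous_snd
  have h1 : Continuous (fun x : (ℝ × ℝ) × ℝ => x.2 ^ (n + 1)) := continuous_snd.pow _
  have h2 : Continuous (fun x : (ℝ × ℝ) × ℝ => Function.uncurry F (x.1.1, x.2)) :=
    hF.comp ((continuous_fst.comp continuous_fst).prodMk continuous_snd)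
  exact h1.mul h2

theorem continuous_int_one {n : ℕ} {F : ℝ → ℝ → ℝ} (hF : Continuous (Function.uncurry F)) :
    Continuous (fun ρ : ℝ => ∫ s in (0:ℝ)..1, s ^ (n + 1) * F ρ s) :=
  (continuous_int_joint (n := n) hF).comp (continuous_id.prodMk (continuous_const (y := (1:ℝ))))

theorem Gr_joint {n p N : ℕ} (hN : 0 < N) (hNn : N < n) (hp : n ≤ p + N) {F : ℝ → ℝ → ℝ}
    (hF : Continuous (Function.uncurry F)) {I : Set ℝ} {C : ℝ}
    (hb : ∀ ρ ∈ I, ∀ s : ℝ, 0 < s → s ≤ 1 → |F ρ s| ≤ C * s ^ p) :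
    ContinuousOn (fun q : ℝ × ℝ => Gr n (F q.1) q.2) (I ×ˢ Icc 0 1) := by
  have hFc : ∀ ρ, Continuous (F ρ) := fun ρ =>
    hF.comp (continuous_const.prodMk continuous_id)
  have hw : ∀ ρ ∈ I, Wt p C (F ρ) := fun ρ hρ => ⟨(hFc ρ).continuousOn, hb ρ hρ⟩
  have hn0 : 0 < n := by omega
  rintro ⟨ρ₀, r₀⟩ ⟨hρ₀, hr₀⟩
  rcases hr₀.1.eq_or_lt with h0 | h0
  · -- at `r = 0`
    simp only at h0
    subst h0
    have hC : 0 ≤ C := (hw ρ₀ hρ₀).nonneg
    have hv : Gr n (F ((ρ₀, 0) : ℝ × ℝ).1) ((ρ₀, 0) : ℝ × ℝ).2 = 0 := Gr_zero hn0 _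
    rw [ContinuousWithinAt, hv]
    have hK : Tendsto (fun q : ℝ × ℝ => C * (q.2 ^ (n - N) * (1 - q.2 ^ N)
        / (N * ((n : ℝ) + p + 2)))) (𝓝[I ×ˢ Icc 0 1] (ρ₀, 0)) (𝓝 0) := by
      have hc : Continuous (fun q : ℝ × ℝ => C * (q.2 ^ (n - N) * (1 - q.2 ^ N)
        / (N * ((n : ℝ) + p + 2)))) := by fun_prop
      have h1 := (hc.tendsto (ρ₀, 0)).mono_left (nhdsWithin_le_nhds (s := I ×ˢ Icc 0 1))
      have h2 : C * ((0:ℝ) ^ (n - N) * (1 - (0:ℝ) ^ N) / (N * ((n : ℝ) + p + 2))) = 0 := by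
        rw [zero_pow (by omega)]; ring
      rw [h2] at h1
      exact h1
    refine squeeze_zero_norm' ?_ hK
    filter_upwards [self_mem_nhdsWithin] with q hq
    rw [Real.norm_eq_abs]
    rcases hq.2.1.eq_or_lt with h3 | h3
    · rw [← h3, Gr_zero hn0, abs_zero, zero_pow (by omega)]
      simp
    · exact Gr_univ hN hNn.le hp (hw q.1 hq.1) h3 hq.2.2
  · -- at `r > 0`
    simp only at h0
    refine ContinuousAt.continuousWithinAt ?_
    set δ := r₀ / 2 with hδ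
    have hδ0 : 0 < δ := by rw [hδ]; linarith
    have hA := continuous_int_joint (n := n) hF
    have hA1 := (continuous_int_one (n := n) hF).comp (continuous_fst (X := ℝ) (Y := ℝ))
    have hB : Continuous (fun q : ℝ × ℝ => ∫ s in (1:ℝ)..q.2, s * ((max s δ) ^ n)⁻¹ * F q.1 s) := by
      refine intervalIntegral.continuous_parametric_intervalIntegral_of_continuous
        (f := fun (q : ℝ × ℝ) (s : ℝ) => s * ((max s δ) ^ n)⁻¹ * F q.1 s) ?_ continuous_snd
      have h1 : Continuous (fun x : (ℝ × ℝ) × ℝ => x.2 * ((max x.2 δ) ^ n)⁻¹) := by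
        refine continuous_snd.mul (Continuous.inv₀ ((continuous_snd.max continuous_const).pow n) ?_)
        intro x
        exact pow_ne_zero _ (lt_of_lt_of_le hδ0 (le_max_right _ _)).ne'
      have h2 : Continuous (fun x : (ℝ × ℝ) × ℝ => Function.uncurry F (x.1.1, x.2)) :=
        hF.comp ((continuous_fst.comp continuous_fst).prodMk continuous_snd)
      exact h1.mul h2
    have hG : ContinuousAt (fun q : ℝ × ℝ => 1 / (2 * (n : ℝ)) * ((q.2 ^ n)⁻¹ *
        (∫ s in (0:ℝ)..q.2, s ^ (n + 1) * F q.1 s)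
        + q.2 ^ n * (-∫ s in (1:ℝ)..q.2, s * ((max s δ) ^ n)⁻¹ * F q.1 s)
        - q.2 ^ n * ∫ s in (0:ℝ)..1, s ^ (n + 1) * F q.1 s)) (ρ₀, r₀) := by
      have hinv : ContinuousAt (fun q : ℝ × ℝ => (q.2 ^ n)⁻¹) (ρ₀, r₀) :=
        ContinuousAt.inv₀ ((continuous_snd.pow n).continuousAt) (pow_ne_zero _ h0.ne')
      have hpw : ContinuousAt (fun q : ℝ × ℝ => q.2 ^ n) (ρ₀, r₀) :=
        (continuous_snd.pow n).continuousAt
      exact continuousAt_const.mul (((hinv.mul hA.continuousAt).add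
        (hpw.mul hB.neg.continuousAt)).sub (hpw.mul hA1.continuousAt))
    refine hG.congr ?_
    have hnb : {q : ℝ × ℝ | δ < q.2} ∈ 𝓝 (ρ₀, r₀) :=
      (isOpen_lt continuous_const continuous_snd).mem_nhds (by
        show δ < r₀
        rw [hδ]; linarith)
    filter_upwards [hnb] with q hq
    have hq' : δ < q.2 := hq
    unfold Gr
    have e : ∫ s in q.2..1, s * (s ^ n)⁻¹ * F q.1 s
        = -∫ s in (1:ℝ)..q.2, s * ((max s δ) ^ n)⁻¹ * F q.1 s := by
      rw [intervalIntegral.integral_symm]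
      congr 1
      refine intervalIntegral.integral_congr ?_
      intro s hs
      have hs' : δ ≤ s := by
        rcases le_total (1:ℝ) q.2 with h1 | h1
        · rw [uIcc_of_le h1] at hs
          have : δ ≤ 1 := by
            have := hr₀.2
            simp only at this
            rw [hδ]; linarith
          linarith [hs.1]
        · rw [uIcc_of_ge h1] at hs
          exact hq'.le.trans hs.1
      show s * (s ^ n)⁻¹ * F q.1 s = s * ((max s δ) ^ n)⁻¹ * F q.1 s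
      rw [max_eq_left hs']
    rw [e]

end Pool.Agent.SCH
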