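import Pool.Agent.MP_83fd13_an.SCH.Geo14

/-!
# [SCH] classical form of the counterexample
-/

set_option autoImplicit false

open Metric Set MeasureTheory Filter Topology
open scoped RealInnerProductSpace NNReal ComplexConjugate

namespace SCHG

/-- The boundary of `Ω` is locally the graph of a Lipschitz function, `Ω` lying on one side. -/
def LipBoundary (Ω : Set ℂ) : Prop :=
  ∀ p ∈ frontier Ω, ∃ e f : ℂ, ‖e‖ = 1 ∧ ‖f‖ = 1 ∧ ⟪e, f⟫ = 0 ∧
    ∃ r : ℝ, 0 < r ∧ ∃ K : ℝ≥0, ∃ g : ℝ → ℝ, LipschitzWith K g ∧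
      ∀ x ∈ ball p r, (x ∈ Ω ↔ g ⟪x, e⟫ < ⟪x, f⟫)

/-- Weak formulation of the overdetermined problem with `λ = 1`, boundary value `c`. -/
def WeakSol (Ω : Set ℂ) (c : ℝ) (u : ℂ → ℝ) (G : ℂ → ℂ) : Prop :=
  MemLp u 2 (volume.restrict Ω) ∧ MemLp G 2 (volume.restrict Ω) ∧
  (∀ η : ℂ → ℝ, ContDiff ℝ 1 η → HasCompactSupport η → ∀ v : ℂ,
    ∫ x in Ω, (u x - c) * (fderiv ℝ η x v) = - ∫ x in Ω, ⟪G x, v⟫ * η x) ∧
  ∀ η : ℂ → ℝ, ContDiff ℝ 1 η → HasCompactSupport η →
    ∫ x in Ω, fderiv ℝ η x (G x) = ∫ x in Ω, u x * η x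

/-- Classical formulation: `u` and its gradient `G` are continuous on the closure of `Ω`,
`u = c` and `∇u = 0` on the boundary, and `-div ∇u = u` in `Ω ∖ {0}`. -/
def ClassSol (Ω : Set ℂ) (c : ℝ) (u : ℂ → ℝ) (G : ℂ → ℂ) : Prop :=
  ContinuousOn u (closure Ω) ∧ ContinuousOn G (closure Ω) ∧
  (∀ z ∈ Ω, HasFDerivAt u (innerSL ℝ (G z)) z) ∧
  (∀ z ∈ frontier Ω, u z = c ∧ G z = 0) ∧
  ∀ z ∈ Ω, z ≠ 0 → ∃ L : ℂ →L[ℝ] ℂ, HasFDerivAt G L z ∧ (L 1).re + (L Complex.I).im = - u z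

/-- real linear maps and multiplication by complex numbers -/
theorem div_clm (L : ℂ →L[ℝ] ℂ) (g : ℂ) :
    (conj g * L g).re + (conj g * L (g * Complex.I)).im =
      Complex.normSq g * ((L 1).re + (L Complex.I).im) := by
  have h1 : L g = g.re * L 1 + g.im * L Complex.I := by
    have e : g = g.re • (1 : ℂ) + g.im • Complex.I := by
      simp [Complex.re_add_im]
    calc L g = L (g.re • (1 : ℂ) + g.im • Complex.I) := by rw [← e]
      _ = g.re • L 1 + g.im • L Complex.I := by rw [map_add, map_smul, map_smul]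
      _ = _ := by rw [Complex.real_smul, Complex.real_smul]
  have h2 : L (g * Complex.I) = -(g.im * L 1) + g.re * L Complex.I := by
    have e : g * Complex.I = (-g.im) • (1 : ℂ) + g.re • Complex.I := by
      apply Complex.ext <;> simp
    calc L (g * Complex.I) = L ((-g.im) • (1 : ℂ) + g.re • Complex.I) := by rw [← e]
      _ = (-g.im) • L 1 + g.re • L Complex.I := by rw [map_add, map_smul, map_smul]
      _ = _ := by
        rw [Complex.real_smul, Complex.real_smul]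
        push_cast
        ring
  rw [h1, h2]
  simp only [Complex.mul_re, Complex.mul_im, Complex.add_re, Complex.add_im, Complex.conj_re,
    Complex.conj_im, Complex.ofReal_re, Complex.ofReal_im, Complex.neg_re, Complex.neg_im,
    Complex.normSq_apply]
  ring

/-- transport of a divergence identity by a holomorphic change of variables -/
theorem transport {ψ g : ℂ → ℂ} {z g' : ℂ} {GU : ℂ → ℂ} {L : ℂ →L[ℝ] ℂ}
    (hψ : HasDerivAt ψ (g z) z) (hg : HasDerivAt g g' z) (hL : HasFDerivAt GU L (ψ z)) :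
    ∃ M : ℂ →L[ℝ] ℂ, HasFDerivAt (fun x => conj (g x) * GU (ψ x)) M z ∧
      (M 1).re + (M Complex.I).im =
        Complex.normSq (g z) * ((L 1).re + (L Complex.I).im) := by
  have h1 : HasFDerivAt (fun x => conj (g x))
      ((Complex.conjCLE : ℂ →L[ℝ] ℂ).comp (g' • (1 : ℂ →L[ℝ] ℂ))) z :=
    (Complex.conjCLE : ℂ →L[ℝ] ℂ).hasFDerivAt.comp z hg.complexToReal_fderiv
  have h2 : HasFDerivAt (fun x => GU (ψ x)) (L.comp (g z • (1 : ℂ →L[ℝ] ℂ))) z :=
    hL.comp z hψ.complexToReal_fderiv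
  refine ⟨_, h1.mul h2, ?_⟩
  have e1 : ∀ h : ℂ, (conj (g z) • (L.comp (g z • (1 : ℂ →L[ℝ] ℂ))) +
      GU (ψ z) • ((Complex.conjCLE : ℂ →L[ℝ] ℂ).comp (g' • (1 : ℂ →L[ℝ] ℂ)))) h =
      conj (g z) * L (g z * h) + GU (ψ z) * conj (g' * h) := by
    intro h
    rfl
  rw [e1, e1, mul_one, mul_one, ← div_clm]
  simp only [map_mul, Complex.conj_I, Complex.add_re, Complex.add_im, Complex.mul_re,
    Complex.mul_im, Complex.neg_re, Complex.neg_im, Complex.I_re, Complex.I_im, Complex.conj_re,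
    Complex.conj_im]
  ring

end SCHG
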