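import Pool.Agent.MP_83fd13_an.SCH.Own1
import Pool.Agent.MP_83fd13_an.SCH.Geo8

/-!
# [SCH] classical form of the counterexample, part 2
-/

set_option autoImplicit false

open Metric Set MeasureTheory Filter Topology
open scoped RealInnerProductSpace NNReal ComplexConjugate

namespace SCHG

/-- rotation of the map -/
theorem fF_rot (N : ℕ) (ρ : ℝ) (φ : ℕ → ℝ) (ζ w : ℂ) (hζ : ζ ^ N = 1) :
    fF N ρ φ (ζ * w) = ζ * fF N ρ φ w := by
  rw [fF, fF]
  have h : ∀ k : ℕ, (φ (k + 1) : ℂ) * (ζ * w) ^ (N * (k + 1) + 1) / ((N * (k + 1) + 1 : ℕ) : ℂ) =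
      ζ * ((φ (k + 1) : ℂ) * w ^ (N * (k + 1) + 1) / ((N * (k + 1) + 1 : ℕ) : ℂ)) := by
    intro k
    have h1 : ζ ^ (N * (k + 1) + 1) = ζ := by
      rw [pow_succ, pow_mul, hζ, one_pow, one_mul]
    rw [mul_pow, h1]
    ring
  simp_rw [h]
  rw [tsum_mul_left]
  ring

/-- **From the classical formulation on the disc to the plane.** -/
theorem own_of_classical (N : ℕ) (hN0 : 0 < N) (hN : Even N) (ρ : ℝ) (hρ : 0 < ρ) (φ : ℕ → ℝ)
    (hs : Summable fun k => |φ (k + 1)|) (hq : ∑' k, |φ (k + 1)| ≤ 1 / 3)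
    (hφ1 : ∑' k, |φ (k + 2)| < |φ 1|) (c : ℝ) (U : ℂ → ℝ) (GU : ℂ → ℂ) (C : ℝ≥0)
    (hUc : ContinuousOn U (closedBall 0 1)) (hU1 : ∀ w : ℂ, ‖w‖ = 1 → U w = c)
    (hUd : ∀ w ∈ ball (0 : ℂ) 1, HasFDerivAt U (innerSL ℝ (GU w)) w)
    (hLip : LipschitzOnWith C GU (closedBall 0 1)) (hG0 : ∀ w : ℂ, ‖w‖ = 1 → GU w = 0)
    (hdiv : ∀ w ∈ ball (0 : ℂ) 1, w ≠ 0 → ∃ L : ℂ →L[ℝ] ℂ, HasFDerivAt GU L w ∧
      (L 1).re + (L Complex.I).im = - (Complex.normSq (fF' N ρ φ w) * U w)) :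
    ∃ (Ω : Set ℂ) (u : ℂ → ℝ) (G : ℂ → ℂ),
      Ω = fF N ρ φ '' ball 0 1 ∧ frontier Ω = fF N ρ φ '' sphere 0 1 ∧
      InjOn (fF N ρ φ) (closedBall 0 1) ∧ IsOpen Ω ∧ Bornology.IsBounded Ω ∧ IsConnected Ω ∧
      SimplyConnectedSpace Ω ∧ Nonempty (frontier Ω ≃ₜ sphere (0 : ℂ) 1) ∧ LipBoundary Ω ∧
      (∀ ζ : ℂ, ζ ^ N = 1 → ∀ z ∈ Ω, ζ * z ∈ Ω) ∧ (∀ a r, Ω ≠ ball a r) ∧
      WeakSol Ω c u G ∧ ClassSol Ω c u G ∧ u 0 = U 0 := by
  have hGUc := hLip.continuousOn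
  have W1 : ∀ ψ : ℂ → ℝ, TestOK ψ → ∀ v : ℂ,
      ∫ w in ball (0 : ℂ) 1, (U w - c) * fderiv ℝ ψ w (conj (fF' N ρ φ w) * v) =
        - ∫ w in ball (0 : ℂ) 1, ⟪GU w, conj (fF' N ρ φ w) * v⟫ * ψ w := by
    obtain ⟨BG, hBG⟩ := (isCompact_closedBall (0 : ℂ) 1).exists_bound_of_continuousOn hGUc
    intro ψ hψ v
    exact W1_of N ρ φ hs c U GU hUc hU1 hUd (hGUc.mono ball_subset_closedBall)
      ⟨BG, fun w hw => hBG w (ball_subset_closedBall hw)⟩ ψ hψ v
  have W2 : ∀ ψ : ℂ → ℝ, TestOK ψ →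
      ∫ w in ball (0 : ℂ) 1, fderiv ℝ ψ w (GU w) =
        ∫ w in ball (0 : ℂ) 1, Complex.normSq (fF' N ρ φ w) * U w * ψ w := by
    intro ψ hψ
    exact W2_of N ρ φ U GU hLip hG0 {0} (by simp)
      (fun w hw hw0 => hdiv w hw (by simpa using hw0)) ψ hψ
  have hq1 : ∑' k, |φ (k + 1)| < 1 := by linarith
  have hnear := near_fF N ρ φ hs hρ (1 / 3) hq
  obtain ⟨Φ, hΦ, hΦn⟩ := exists_homeo (fF N ρ φ) ρ (1 / 3) hρ (by norm_num) (by norm_num) hnear
  set F' := fF' N ρ φ with hF'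
  have hder : ∀ w ∈ ball (0 : ℂ) 1, HasDerivAt Φ (F' w) w := by
    intro w hw
    refine (hasDerivAt_fF N ρ φ hs w (mem_ball_zero_iff.1 hw)).congr_of_eventuallyEq ?_
    filter_upwards [isOpen_ball.mem_nhds hw] with z hz
    exact hΦ z (mem_ball_zero_iff.1 hz).le
  have hF'0 : ∀ w ∈ ball (0 : ℂ) 1, F' w ≠ 0 := fun w hw =>
    fF'_ne N ρ φ hs hρ hq1 w (mem_ball_zero_iff.1 hw).le
  have hF'c : ContinuousOn F' (ball 0 1) :=
    (continuousOn_fF' N ρ φ hs).mono ball_subset_closedBall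
  have hF'u : ∀ w ∈ ball (0 : ℂ) 1, ‖F' w‖ ≤ 2 * ρ := by
    intro w hw
    have h1 := norm_fF'_sub_le N ρ φ hs hρ (1 / 3) hq w (mem_ball_zero_iff.1 hw).le
    have h2 : ‖F' w‖ ≤ ‖F' w - ρ‖ + ‖(ρ : ℂ)‖ := by
      calc ‖F' w‖ = ‖(F' w - ρ) + ρ‖ := by rw [sub_add_cancel]
        _ ≤ _ := norm_add_le _ _
    rw [Complex.norm_real, Real.norm_eq_abs, abs_of_pos hρ] at h2
    linarith
  have hF'l : ∀ w ∈ ball (0 : ℂ) 1, ρ / 2 ≤ ‖F' w‖ := by
    intro w hw
    have h1 := norm_fF'_sub_le N ρ φ hs hρ (1 / 3) hq w (mem_ball_zero_iff.1 hw).le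
    have h2 : ‖(ρ : ℂ)‖ ≤ ‖F' w - ρ‖ + ‖F' w‖ := by
      calc ‖(ρ : ℂ)‖ = ‖F' w - (F' w - ρ)‖ := by rw [sub_sub_cancel]
        _ ≤ ‖F' w‖ + ‖F' w - ρ‖ := norm_sub_le _ _
        _ = _ := add_comm _ _
    rw [Complex.norm_real, Real.norm_eq_abs, abs_of_pos hρ] at h2
    linarith
  obtain ⟨BU, hBU⟩ := (isCompact_closedBall (0 : ℂ) 1).exists_bound_of_continuousOn hUc
  obtain ⟨BG, hBG⟩ := (isCompact_closedBall (0 : ℂ) 1).exists_bound_of_continuousOn hGUc
  have hUo : ContinuousOn U (ball 0 1) := hUc.mono ball_subset_closedBall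
  have hGUo : ContinuousOn GU (ball 0 1) := hGUc.mono ball_subset_closedBall
  set Ω := Φ '' ball 0 1 with hΩ
  have hΩo : IsOpen Ω := isOpen_image Φ
  have hΩb : Bornology.IsBounded Ω := isBounded_image Φ
  have hΩm : MeasurableSet Ω := hΩo.measurableSet
  have hfin : IsFiniteMeasure (volume.restrict Ω) :=
    ⟨by rw [Measure.restrict_apply_univ]; exact hΩb.measure_lt_top⟩
  have hsymm : ∀ x ∈ Ω, Φ.symm x ∈ ball (0 : ℂ) 1 := by
    rintro _ ⟨w, hw, rfl⟩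
    rwa [Φ.symm_apply_apply]
  have hsymm' : MapsTo Φ.symm Ω (ball 0 1) := hsymm
  set u : ℂ → ℝ := fun x => U (Φ.symm x) with hu
  set G : ℂ → ℂ := fun x => GU (Φ.symm x) / conj (F' (Φ.symm x)) with hG
  have huc : ContinuousOn u Ω := hUo.comp Φ.symm.continuous.continuousOn hsymm'
  have hGc : ContinuousOn G Ω := by
    have h1 : ContinuousOn (fun w => GU w / conj (F' w)) (ball 0 1) := by
      refine hGUo.div (Complex.continuous_conj.comp_continuousOn hF'c) fun w hw => ?_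
      rw [Ne, map_eq_zero]
      exact hF'0 w hw
    exact h1.comp Φ.symm.continuous.continuousOn hsymm'
  obtain ⟨hfr⟩ : Nonempty (frontier Ω ≃ₜ sphere (0 : ℂ) 1) := by
    rw [hΩ, frontier_image]
    exact ⟨(Φ.image (sphere 0 1)).symm⟩
  -- the test functions
  have htest : ∀ η : ℂ → ℝ, ContDiff ℝ 1 η → HasCompactSupport η → TestOK (η ∘ fF N ρ φ) ∧
      ∀ w ∈ ball (0 : ℂ) 1, ∀ h : ℂ, fderiv ℝ (η ∘ fF N ρ φ) w h =
        fderiv ℝ η (Φ w) (F' w * h) := by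
    intro η hη hηc
    have hFc : ContinuousOn (fF N ρ φ) (closedBall 0 1) := by
      refine Φ.continuous.continuousOn.congr fun w hw => ?_
      exact (hΦ w (mem_closedBall_zero_iff.1 hw)).symm
    have hfd : ∀ w ∈ ball (0 : ℂ) 1, HasFDerivAt (η ∘ fF N ρ φ)
        ((fderiv ℝ η (fF N ρ φ w)).comp (F' w • (1 : ℂ →L[ℝ] ℂ))) w := by
      intro w hw
      exact ((hη.differentiable one_ne_zero).differentiableAt.hasFDerivAt).comp w
        (hasDerivAt_fF N ρ φ hs w (mem_ball_zero_iff.1 hw)).complexToReal_fderiv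
    have hfdc : Continuous (fderiv ℝ η) := hη.continuous_fderiv one_ne_zero
    refine ⟨⟨hη.continuous.comp_continuousOn hFc, ?_, ?_, ?_⟩, ?_⟩
    · intro w hw
      exact (hfd w hw).differentiableAt.differentiableWithinAt
    · refine ContinuousOn.congr (f := fun w => (fderiv ℝ η (fF N ρ φ w)).comp
        (F' w • (1 : ℂ →L[ℝ] ℂ))) ?_ fun w hw => (hfd w hw).fderiv
      refine ContinuousOn.clm_comp ?_ ?_
      · exact hfdc.comp_continuousOn (hFc.mono ball_subset_closedBall)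
      · exact hF'c.smul continuousOn_const
    · obtain ⟨C, hC⟩ := hfdc.bounded_above_of_compact_support (hηc.fderiv (𝕜 := ℝ))
      refine ⟨C * (2 * ρ), fun w hw => ?_⟩
      rw [(hfd w hw).fderiv]
      refine (ContinuousLinearMap.opNorm_comp_le _ _).trans ?_
      refine mul_le_mul (hC _) ?_ (norm_nonneg _) ((norm_nonneg _).trans (hC 0))
      refine (norm_smul_le (F' w) (1 : ℂ →L[ℝ] ℂ)).trans ?_
      have h1 : ‖(1 : ℂ →L[ℝ] ℂ)‖ ≤ 1 := ContinuousLinearMap.norm_id_le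
      calc ‖F' w‖ * ‖(1 : ℂ →L[ℝ] ℂ)‖ ≤ 2 * ρ * 1 :=
            mul_le_mul (hF'u w hw) h1 (norm_nonneg _) (by positivity)
        _ = 2 * ρ := mul_one _
    · intro w hw h
      rw [(hfd w hw).fderiv, hΦ w (mem_ball_zero_iff.1 hw).le]
      rfl
  have hcl : closure Ω = Φ '' closedBall 0 1 := by
    rw [hΩ, ← Φ.image_closure, closure_ball (0 : ℂ) one_ne_zero]
  have hfrΦ : frontier Ω = Φ '' sphere 0 1 := frontier_image Φ
  have hsymmc : ∀ x ∈ closure Ω, Φ.symm x ∈ closedBall (0 : ℂ) 1 := by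
    intro x hx
    rw [hcl] at hx
    obtain ⟨w, hw, rfl⟩ := hx
    rwa [Φ.symm_apply_apply]
  have hψd : ∀ w ∈ ball (0 : ℂ) 1, HasDerivAt Φ.symm (F' w)⁻¹ (Φ w) := by
    intro w hw
    refine HasDerivAt.of_local_left_inverse (f := Φ) (g := Φ.symm) Φ.symm.continuous.continuousAt
      ?_ (hF'0 w hw) (Eventually.of_forall fun y => Φ.apply_symm_apply y)
    rw [Φ.symm_apply_apply]
    exact hder w hw
  have h00 : Φ 0 = 0 := by
    rw [hΦ 0 (by simp)]
    have := fF_neg N ρ φ hN 0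
    rw [neg_zero] at this
    exact self_eq_neg.1 this
  refine ⟨Ω, u, G, ?_, ?_, ?_, hΩo, hΩb, isConnected_image Φ, simplyConnected_image Φ, ⟨hfr⟩,
    (fun p hp => lipschitz_boundary Φ ρ (1 / 3) hρ (by norm_num) le_rfl hΦn p hp), ?_, ?_,
    ⟨?_, ?_, ?_, ?_⟩, ⟨?_, ?_, ?_, ?_, ?_⟩, ?_⟩
  · exact image_congr fun w hw => hΦ w (mem_ball_zero_iff.1 hw).le
  · rw [hfrΦ]
    exact image_congr fun w hw => hΦ w (mem_sphere_zero_iff_norm.1 hw).le
  · intro w₁ h₁ w₂ h₂ h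
    rw [← hΦ w₁ (mem_closedBall_zero_iff.1 h₁), ← hΦ w₂ (mem_closedBall_zero_iff.1 h₂)] at h
    exact Φ.injective h
  · -- rotation
    rintro ζ hζ _ ⟨w, hw, rfl⟩
    rw [mem_ball_zero_iff] at hw
    have hn : ‖ζ‖ = 1 := by
      have h1 : ‖ζ‖ ^ N = 1 := by rw [← norm_pow, hζ, norm_one]
      exact (pow_eq_one_iff_of_nonneg (norm_nonneg _) hN0.ne').1 h1
    have hw' : ‖ζ * w‖ < 1 := by rwa [norm_mul, hn, one_mul]
    refine ⟨ζ * w, mem_ball_zero_iff.2 hw', ?_⟩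
    rw [hΦ _ hw'.le, hΦ w hw.le, fF_rot N ρ φ ζ w hζ]
  · -- not a disc
    intro a r
    obtain ⟨w₁, w₂, h₁, h₂, h₁₂⟩ := norm_fF_ne N ρ φ hs hρ hN0 hq1 hφ1
    refine not_ball Φ (fun w hw => ?_) w₁ w₂ h₁ h₂ ?_ a r
    · rw [hΦ w hw, hΦ (-w) (by rwa [norm_neg]), fF_neg N ρ φ hN]
    · rwa [hΦ w₁ h₁.le, hΦ w₂ h₂.le]
  · -- `u ∈ L²`
    refine MemLp.of_bound (huc.aestronglyMeasurable hΩm) BU ?_
    filter_upwards [ae_restrict_mem hΩm] with x hx
    exact hBU _ (ball_subset_closedBall (hsymm x hx))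
  · -- `G ∈ L²`
    refine MemLp.of_bound (hGc.aestronglyMeasurable hΩm) (BG / (ρ / 2)) ?_
    filter_upwards [ae_restrict_mem hΩm] with x hx
    rw [hG]
    simp only
    rw [norm_div, RCLike.norm_conj]
    have h1 := hF'l _ (hsymm x hx)
    have h2 := hBG _ (ball_subset_closedBall (hsymm x hx))
    exact div_le_div₀ ((norm_nonneg _).trans h2) h2 (by positivity) h1
  · -- the first identity
    intro η hη hηc v
    obtain ⟨hT, hd⟩ := htest η hη hηc
    have h1 := W1 _ hT v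
    rw [integral_image Φ F' hder, integral_image Φ F' hder]
    have e1 : ∫ w in ball (0 : ℂ) 1, Complex.normSq (F' w) *
        ((u (Φ w) - c) * fderiv ℝ η (Φ w) v) =
        ∫ w in ball (0 : ℂ) 1, (U w - c) * fderiv ℝ (η ∘ fF N ρ φ) w (conj (F' w) * v) := by
      refine setIntegral_congr_fun measurableSet_ball fun w hw => ?_
      simp only [hu, Φ.symm_apply_apply]
      rw [hd w hw]
      have h2 : F' w * (conj (F' w) * v) = Complex.normSq (F' w) • v := by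
        rw [← mul_assoc, Complex.mul_conj, smul_eq_ofReal_mul]
      rw [h2, map_smul, smul_eq_mul]
      ring
    have e2 : ∫ w in ball (0 : ℂ) 1, Complex.normSq (F' w) * (⟪G (Φ w), v⟫ * η (Φ w)) =
        ∫ w in ball (0 : ℂ) 1, ⟪GU w, conj (F' w) * v⟫ * (η ∘ fF N ρ φ) w := by
      refine setIntegral_congr_fun measurableSet_ball fun w hw => ?_
      simp only [hG, Φ.symm_apply_apply, Function.comp_apply]
      rw [hΦ w (mem_ball_zero_iff.1 hw).le, ← mul_assoc]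
      congr 1
      have h3 := hF'0 w hw
      have h4 : conj (F' w) ≠ 0 := by
        rw [Ne, map_eq_zero]; exact h3
      have h5 : Complex.normSq (F' w) * ⟪GU w / conj (F' w), v⟫ =
          ⟪Complex.normSq (F' w) • (GU w / conj (F' w)), v⟫ := by
        rw [real_inner_smul_left]
      rw [h5, smul_eq_ofReal_mul, ← Complex.mul_conj]
      have h6 : F' w * conj (F' w) * (GU w / conj (F' w)) = F' w * GU w := by
        field_simp
      rw [h6, Complex.inner, Complex.inner, map_mul]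
      congr 1
      ring
    rw [e1, e2]
    exact h1
  · -- the second identity
    intro η hη hηc
    obtain ⟨hT, hd⟩ := htest η hη hηc
    have h1 := W2 _ hT
    rw [integral_image Φ F' hder, integral_image Φ F' hder]
    have e1 : ∫ w in ball (0 : ℂ) 1, Complex.normSq (F' w) * fderiv ℝ η (Φ w) (G (Φ w)) =
        ∫ w in ball (0 : ℂ) 1, fderiv ℝ (η ∘ fF N ρ φ) w (GU w) := by
      refine setIntegral_congr_fun measurableSet_ball fun w hw => ?_
      simp only [hG, Φ.symm_apply_apply]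
      rw [hd w hw]
      have h3 := hF'0 w hw
      have h4 : conj (F' w) ≠ 0 := by
        rw [Ne, map_eq_zero]; exact h3
      have h2 : F' w * GU w = Complex.normSq (F' w) • (GU w / conj (F' w)) := by
        rw [smul_eq_ofReal_mul, ← Complex.mul_conj]
        field_simp
      rw [h2, map_smul, smul_eq_mul]
    have e2 : ∫ w in ball (0 : ℂ) 1, Complex.normSq (F' w) * (u (Φ w) * η (Φ w)) =
        ∫ w in ball (0 : ℂ) 1, Complex.normSq (F' w) * U w * (η ∘ fF N ρ φ) w := by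
      refine setIntegral_congr_fun measurableSet_ball fun w hw => ?_
      simp only [hu, Φ.symm_apply_apply, Function.comp_apply]
      rw [hΦ w (mem_ball_zero_iff.1 hw).le]
      ring
    rw [e1, e2]
    exact h1
  · -- `u` is continuous on the closure
    exact hUc.comp Φ.symm.continuous.continuousOn hsymmc
  · -- `G` is continuous on the closure
    have h1 : ContinuousOn (fun w => GU w / conj (F' w)) (closedBall 0 1) := by
      refine hGUc.div (Complex.continuous_conj.comp_continuousOn (continuousOn_fF' N ρ φ hs))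
        fun w hw => ?_
      rw [Ne, map_eq_zero]
      exact fF'_ne N ρ φ hs hρ hq1 w (mem_closedBall_zero_iff.1 hw)
    exact h1.comp Φ.symm.continuous.continuousOn hsymmc
  · -- gradient
    rintro _ ⟨w, hw, rfl⟩
    have h1 := (hψd w hw).complexToReal_fderiv
    have h2 : HasFDerivAt U (innerSL ℝ (GU w)) (Φ.symm (Φ w)) := by
      rw [Φ.symm_apply_apply]
      exact hUd w hw
    refine (h2.comp (Φ w) h1).congr_fderiv ?_
    refine ContinuousLinearMap.ext fun h => ?_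
    show ⟪GU w, (F' w)⁻¹ * h⟫ = ⟪GU (Φ.symm (Φ w)) / conj (F' (Φ.symm (Φ w))), h⟫
    rw [Φ.symm_apply_apply, Complex.inner, Complex.inner, map_div₀, Complex.conj_conj]
    congr 1
    ring
  · -- boundary values
    intro z hz
    rw [hfrΦ] at hz
    obtain ⟨w, hw, rfl⟩ := hz
    rw [mem_sphere_zero_iff_norm] at hw
    simp only [hu, hG, Φ.symm_apply_apply]
    rw [hU1 w hw, hG0 w hw, zero_div]
    exact ⟨rfl, rfl⟩
  · -- the equation
    rintro _ ⟨w, hw, rfl⟩ hz0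
    have hw0 : w ≠ 0 := by
      rintro rfl
      exact hz0 h00
    obtain ⟨L, hL, hLd⟩ := hdiv w hw hw0
    have hFd : HasDerivAt F' (deriv F' w) w :=
      ((differentiableOn_fF' N ρ φ hs w hw).differentiableAt (isOpen_ball.mem_nhds hw)).hasDerivAt
    have hFd' : HasDerivAt F' (deriv F' w) (Φ.symm (Φ w)) := by
      rw [Φ.symm_apply_apply]
      exact hFd
    have hF0' : F' (Φ.symm (Φ w)) ≠ 0 := by
      rw [Φ.symm_apply_apply]
      exact hF'0 w hw
    have hg := (hFd'.comp (Φ w) (hψd w hw)).inv hF0'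
    have hψ' : HasDerivAt Φ.symm ((F' ∘ Φ.symm)⁻¹ (Φ w)) (Φ w) := by
      show HasDerivAt Φ.symm (F' (Φ.symm (Φ w)))⁻¹ (Φ w)
      rw [Φ.symm_apply_apply]
      exact hψd w hw
    have hL' : HasFDerivAt GU L (Φ.symm (Φ w)) := by
      rw [Φ.symm_apply_apply]
      exact hL
    obtain ⟨M, hM, hMd⟩ := transport hψ' hg hL'
    refine ⟨M, ?_, ?_⟩
    · refine hM.congr_of_eventuallyEq (Eventually.of_forall fun x => ?_)
      show GU (Φ.symm x) / conj (F' (Φ.symm x)) = conj (F' (Φ.symm x))⁻¹ * GU (Φ.symm x)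
      rw [map_inv₀, div_eq_inv_mul]
    · rw [hMd, hLd]
      show Complex.normSq (F' (Φ.symm (Φ w)))⁻¹ * -(Complex.normSq (F' w) * U w) = -U (Φ.symm (Φ w))
      rw [Φ.symm_apply_apply, map_inv₀]
      have h3 : Complex.normSq (F' w) ≠ 0 := by
        rw [Ne, Complex.normSq_eq_zero]
        exact hF'0 w hw
      field_simp
  · show U (Φ.symm 0) = U 0
    rw [← h00, Φ.symm_apply_apply, h00]

end SCHG
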