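import Pool.Agent.MP_83fd13_an.SCH.Own2
import Pool.Agent.MP_83fd13_an.SCH.Final

/-!
# [SCH] classical form of the counterexample, part 3: the final theorem
-/

set_option autoImplicit false

open Metric Set MeasureTheory Filter Topology
open scoped RealInnerProductSpace NNReal ComplexConjugate

namespace SCHG

/-- the conclusion of `own_of_classical` -/
def Own (N : ℕ) (ρ : ℝ) (φ : ℕ → ℝ) (c v : ℝ) : Prop :=
    ∃ (Ω : Set ℂ) (u : ℂ → ℝ) (G : ℂ → ℂ),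
      Ω = fF N ρ φ '' ball 0 1 ∧ frontier Ω = fF N ρ φ '' sphere 0 1 ∧
      InjOn (fF N ρ φ) (closedBall 0 1) ∧ IsOpen Ω ∧ Bornology.IsBounded Ω ∧ IsConnected Ω ∧
      SimplyConnectedSpace Ω ∧ Nonempty (frontier Ω ≃ₜ sphere (0 : ℂ) 1) ∧ LipBoundary Ω ∧
      (∀ ζ : ℂ, ζ ^ N = 1 → ∀ z ∈ Ω, ζ * z ∈ Ω) ∧ (∀ a r, Ω ≠ ball a r) ∧
      WeakSol Ω c u G ∧ ClassSol Ω c u G ∧ u 0 = v

theorem FP.own {N : ℕ} {ρ : ℝ} {φ : ℕ → ℝ} {u u' u'' : ℕ → ℝ → ℝ} {B : ℕ → ℝ}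
    (H : FP N ρ φ u u' u'' B) (hN : Even N) (hq : ∑' k, |φ (k + 1)| ≤ 1 / 3)
    (hφ1 : ∑' k, |φ (k + 2)| < |φ 1|) (hz : ∀ k, u (k + 1) 1 = 0) :
    Own N ρ φ (u 0 1) (u 0 0) := by
  have hs : Summable fun k => |φ (k + 1)| := (summable_nat_add_iff 1).2 H.φs
  have h := own_of_classical N H.N0 hN ρ H.ρ0 φ hs hq hφ1 (u 0 1) (UU N (aa u))
    (GG N (aa u) (aa u')) _ H.continuousOn_U ?_ (fun w hw => H.hasFDerivAt_U hw)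
    H.modes.lip_GG
    (fun w hw => H.modes.GG_zero (fun k => by rw [aa, hz, mul_zero]) hw)
    (fun w hw hw0 => H.hasFDerivAt_GG hw hw0)
  · rw [H.U_zero] at h
    exact h
  intro w hw
  rw [U_circle hw, tsum_eq_single 0]
  · simp
  · intro k hk
    obtain ⟨j, rfl⟩ : ∃ j, k = j + 1 := ⟨k - 1, by omega⟩
    rw [hz]
    ring

theorem Family.own {ρ₂ ρ₁ : ℝ} {φ : ℝ → ℕ → ℝ} {u u' u'' : ℝ → ℕ → ℝ → ℝ} {B : ℝ → ℕ → ℝ}
    (F : Family ρ₂ ρ₁ φ u u' u'' B) (hρ : ρ₂ ≤ ρ₁) (h₂ : 0 < u ρ₂ 1 1) (h₁ : u ρ₁ 1 1 < 0) :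
    ∃ (ρ : ℝ) (ψ : ℕ → ℝ) (c : ℝ), ρ ∈ Icc ρ₂ ρ₁ ∧ (Summable fun k => |ψ (k + 1)|) ∧
      ∑' k, |ψ (k + 1)| ≤ 1 / 3 ∧ ∑' k, |ψ (k + 2)| < |ψ 1| ∧ Own 42 ρ ψ c 1 := by
  obtain ⟨ρ, hρm, h0⟩ := intermediate_value_Icc' hρ F.hc (show (0 : ℝ) ∈ _ from ⟨h₁.le, h₂.le⟩)
  refine ⟨ρ, φ ρ, u ρ 0 1, hρm, (summable_nat_add_iff 1).2 (F.fp ρ hρm).φs, F.q ρ hρm,
    F.q1 ρ hρm, ?_⟩
  have h := (F.fp ρ hρm).own (by decide) (F.q ρ hρm) (F.q1 ρ hρm) ?_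
  · rw [F.u0 ρ hρm] at h
    exact h
  · intro k
    rcases Nat.eq_zero_or_pos k with rfl | hk
    · exact h0
    · obtain ⟨j, rfl⟩ : ∃ j, k = j + 1 := ⟨k - 1, by omega⟩
      exact F.z2 ρ hρm j

end SCHG

namespace SCHT

open SCHG SCHC Pool.Agent.SCH SCHB SCHF SCHS

/-- **the non-circular solution of Schiffer's overdetermined problem, classical form** -/
theorem schiffer_own : ∃ (ρ : ℝ) (ψ : ℕ → ℝ) (c : ℝ), ρ ∈ Icc (54178 / 1000 : ℝ) (541833 / 10000) ∧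
    (Summable fun k => |ψ (k + 1)|) ∧ ∑' k, |ψ (k + 1)| ≤ 1 / 3 ∧
    ∑' k, |ψ (k + 2)| < |ψ 1| ∧ Own 42 ρ ψ c 1 := by
  obtain ⟨x, hb, hr, hc, e⟩ := exists_of_num N0 hatLip0 N0_side
  have N := boxNum_of_num N0 N0_side
  obtain ⟨u, u', u'', B, F, hu⟩ := family_of_fixed (dat_of_state nzI hr hc) e
    (fun ρ hρ => fam_q N hb hρ) (fun ρ hρ => fam_q1 N hb hρ)
  have h1 : (1:ℝ) ∈ Ioc (0:ℝ) 1 := ⟨one_pos, le_rfl⟩
  have e2 : u (54178 / 1000) 0 1 = VV (54178 / 1000) (x.A 0 (54178 / 1000))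
      (x.ph (54178 / 1000)) (fun k => x.V k (54178 / 1000)) 0 1 + J 0 (54178 / 1000) := by
    refine (hu _ rho2_mem 0 1 h1).trans ?_
    show VV _ _ _ _ 0 1 + (if 0 = 0 then J 0 (_ * 1) else 0) = _
    rw [if_pos rfl, mul_one]
    rfl
  have e1 : u (541833 / 10000) 0 1 = VV (541833 / 10000) (x.A 0 (541833 / 10000))
      (x.ph (541833 / 10000)) (fun k => x.V k (541833 / 10000)) 0 1 + J 0 (541833 / 10000) := by
    refine (hu _ rho1_mem 0 1 h1).trans ?_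
    show VV _ _ _ _ 0 1 + (if 0 = 0 then J 0 (_ * 1) else 0) = _
    rw [if_pos rfl, mul_one]
    rfl
  have hρ : (54178 / 1000 : ℝ) ≤ 541833 / 10000 := by norm_num
  refine F.own hρ (cert_apply certHi (F.fp _ (left_mem_Icc.2 hρ)) (F.z2 _ (left_mem_Icc.2 hρ)) ?_)
    (cert_apply certLo (F.fp _ (right_mem_Icc.2 hρ)) (F.z2 _ (right_mem_Icc.2 hρ)) ?_)
  · show EndBox (x.ph (54178 / 1000)) (u (54178 / 1000) 0 1) (98 / 1000) (120 / 1000)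
      (62 / 10000) (25 / 10000)
    rw [e2]
    exact endBox2 N hb
  · show EndBox (x.ph (541833 / 10000)) (u (541833 / 10000) 0 1) (55 / 1000) (65 / 1000)
      (18 / 10000) (12 / 10000)
    rw [e1]
    exact endBox1 N hb

end SCHT
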