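import Pool.Agent.MP_83fd13_an.SCH.Sin4
import Pool.Agent.MP_83fd13_an.SCH.WieD

/-!
# [SCH] sine kernel for raw functions (`Wt`), majorant rules `Mj.sv`, `Mj.dv`
-/

set_option autoImplicit false

namespace SCHS

open MeasureTheory Set Filter Topology intervalIntegral
open scoped Real
open Pool.Agent.SCH

noncomputable section

variable {ρ c : ℝ} {f v f₂ v₂ : ℝ → ℝ} {a b : ℕ} {C D : ℝ}

theorem src_abs_le (hf : ∀ s : ℝ, 0 < s → s ≤ 1 → |f s| ≤ C * s ^ a)
    (hv : ∀ s : ℝ, 0 < s → s ≤ 1 → |v s| ≤ D * s ^ b) (hb : 2 ≤ b) {s : ℝ} (hs : 0 < s)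
    (hs1 : s ≤ 1) :
    |src ρ c f v s| ≤ √s * (|ρ| * C * s ^ a + |c / ρ| * D * s ^ (b - 2)) := by
  obtain ⟨k, rfl⟩ := Nat.exists_eq_add_of_le hb
  unfold src
  have h0 : 0 ≤ √s := Real.sqrt_nonneg s
  have h1 := hf s hs hs1
  have h2 := hv s hs hs1
  rw [show 2 + k - 2 = k by omega]
  refine (abs_sub _ _).trans ?_
  rw [abs_mul, abs_mul, abs_mul, abs_mul, abs_of_nonneg h0, abs_div (√s), abs_of_nonneg h0,
    abs_of_pos (pow_pos hs 2)]
  calc |ρ| * √s * |f s| + |c / ρ| * (√s / s ^ 2) * |v s|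
      ≤ |ρ| * √s * (C * s ^ a) + |c / ρ| * (√s / s ^ 2) * (D * s ^ (2 + k)) := by gcongr
    _ = √s * (|ρ| * C * s ^ a + |c / ρ| * D * s ^ k) := by
        rw [pow_add]
        field_simp

/-- continuity of the source term on `ℝ` -/
theorem src_continuous_wt (hf : Wt a C f) (hv : Wt b D v) (hb : 2 ≤ b) :
    Continuous (src ρ c f v) := by
  rw [continuous_iff_continuousAt]
  intro s
  rcases lt_trichotomy s 0 with hs | rfl | hs
  · have h : src ρ c f v =ᶠ[𝓝 s] fun _ => 0 := by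
      filter_upwards [Iio_mem_nhds hs] with x hx
      unfold src
      rw [Real.sqrt_eq_zero_of_nonpos (le_of_lt hx)]
      simp
    exact h.continuousAt
  · rw [ContinuousAt]
    have h0 : src ρ c f v 0 = 0 := by unfold src; simp
    rw [h0]
    have h1 : Tendsto (fun s : ℝ => √s * (|ρ| * C + |c / ρ| * D)) (𝓝 0) (𝓝 0) := by
      have : Continuous fun s : ℝ => √s * (|ρ| * C + |c / ρ| * D) := by fun_prop
      simpa using this.tendsto 0
    refine squeeze_zero_norm' ?_ h1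
    filter_upwards [Iio_mem_nhds (zero_lt_one' ℝ)] with s hs
    rw [Real.norm_eq_abs]
    rcases le_or_gt s 0 with hs0 | hs0
    · have : src ρ c f v s = 0 := by
        unfold src
        rw [Real.sqrt_eq_zero_of_nonpos hs0]
        simp
      rw [this, Real.sqrt_eq_zero_of_nonpos hs0]
      simp
    · refine (src_abs_le hf.bound hv.bound hb hs0 (le_of_lt hs)).trans ?_
      have h2 : s ^ a ≤ 1 := pow_le_one₀ hs0.le (le_of_lt hs)
      have h3 : s ^ (b - 2) ≤ 1 := pow_le_one₀ hs0.le (le_of_lt hs)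
      have hC := hf.nonneg
      have hD := hv.nonneg
      have h4 : |ρ| * C * s ^ a ≤ |ρ| * C := mul_le_of_le_one_right (by positivity) h2
      have h5 : |c / ρ| * D * s ^ (b - 2) ≤ |c / ρ| * D := mul_le_of_le_one_right (by positivity) h3
      gcongr
  · unfold src
    have h1 : ContinuousAt f s := hf.cont.continuousAt (Ioi_mem_nhds hs)
    have h2 : ContinuousAt v s := hv.cont.continuousAt (Ioi_mem_nhds hs)
    have h3 : ContinuousAt (fun s : ℝ => √s) s := Real.continuous_sqrt.continuousAt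
    have h4 : ContinuousAt (fun s : ℝ => √s / s ^ 2) s :=
      h3.div (by fun_prop) (pow_ne_zero 2 hs.ne')
    exact ((continuousAt_const.mul h3).mul h1).sub ((continuousAt_const.mul h4).mul h2)

/-- `SV` for raw functions -/
theorem SV_abs_le_wt (hρ : ρ ≠ 0) (hf : ∀ s : ℝ, 0 < s → s ≤ 1 → |f s| ≤ C * s ^ a)
    (hv : ∀ s : ℝ, 0 < s → s ≤ 1 → |v s| ≤ D * s ^ b) (hb : 2 ≤ b) {r : ℝ} (hr : 0 < r)
    (hr1 : r ≤ 1) : |SV ρ c f v r| ≤ cf ρ a * C * r ^ (a + 2) + cv c b * D * r ^ b := by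
  have hC : 0 ≤ C := by have := (abs_nonneg _).trans (hf 1 one_pos le_rfl); simpa using this
  have hD : 0 ≤ D := by have := (abs_nonneg _).trans (hv 1 one_pos le_rfl); simpa using this
  obtain ⟨k, rfl⟩ := Nat.exists_eq_add_of_le hb
  unfold SV
  rw [abs_neg, Ys_scale, ← mul_assoc, ← intervalIntegral.integral_const_mul]
  have hI : ∫ t in (0 : ℝ)..1, (r ^ (a + 2) * (ρ ^ 2 * C) * ((1 - t) * (√t * t ^ a)) +
      r ^ (2 + k) * (|c| * D) * ((1 - t) * (√t * t ^ k))) =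
      cf ρ a * C * r ^ (a + 2) + cv c (2 + k) * D * r ^ (2 + k) := by
    unfold cf cv
    rw [intervalIntegral.integral_add ((by fun_prop : Continuous _).intervalIntegrable _ _)
      ((by fun_prop : Continuous _).intervalIntegrable _ _), intervalIntegral.integral_const_mul,
      intervalIntegral.integral_const_mul, int_one_sub_sqrt_pow, int_one_sub_sqrt_pow]
    push_cast
    rw [show (2 : ℝ) + k - 1 / 2 = k + 3 / 2 by ring, show (2 : ℝ) + k + 1 / 2 = k + 5 / 2 by ring]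
    ring
  rw [← hI, ← Real.norm_eq_abs]
  apply intervalIntegral.norm_integral_le_of_norm_le zero_le_one _
    ((by fun_prop : Continuous _).intervalIntegrable _ _)
  refine Eventually.of_forall fun t ht => ?_
  have ht0 : 0 < t := ht.1
  have ht1 : 0 ≤ 1 - t := by linarith [ht.2]
  have hrt : 0 < r * t := mul_pos hr ht0
  have hrt1 : r * t ≤ 1 := mul_le_one₀ hr1 ht0.le ht.2
  have h1 := src_abs_le (ρ := ρ) (c := c) hf hv hb hrt hrt1
  rw [show 2 + k - 2 = k by omega, Real.sqrt_mul hr.le] at h1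
  have h2 : |Real.sin (ρ * r * (1 - t))| ≤ |ρ| * r * (1 - t) := by
    refine (Real.abs_sin_le_abs (x := ρ * r * (1 - t))).trans (le_of_eq ?_)
    rw [abs_mul, abs_mul, abs_of_pos hr, abs_of_nonneg ht1]
  have hs : 0 < √r := Real.sqrt_pos.2 hr
  have hst : 0 ≤ √t := Real.sqrt_nonneg t
  have hρ' : 0 < |ρ| := abs_pos.2 hρ
  have e1 : |ρ| ^ 2 = ρ ^ 2 := sq_abs ρ
  have e2 : |c / ρ| = |c| / |ρ| := abs_div c ρ
  rw [Real.norm_eq_abs, abs_mul, abs_mul, abs_mul, abs_of_pos hr, abs_inv, abs_of_pos hs]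
  calc (√r)⁻¹ * r * (|Real.sin (ρ * r * (1 - t))| *
        |src ρ c f v (r * t)|)
      ≤ (√r)⁻¹ * r * (|ρ| * r * (1 - t) *
        (√r * √t * (|ρ| * C * (r * t) ^ a + |c / ρ| * D * (r * t) ^ k))) := by gcongr
    _ = r ^ (a + 2) * (|ρ| ^ 2 * C) * ((1 - t) * (√t * t ^ a)) +
      r ^ (2 + k) * (|c| * D) * ((1 - t) * (√t * t ^ k)) := by
        rw [e2, mul_pow, mul_pow, pow_add, pow_add]
        field_simp
    _ = _ := by rw [e1]

/-- linearity -/
theorem SV_sub_wt (hf : Wt a C f) (hv : Wt b D v) {C' D' : ℝ} (hf₂ : Wt a C' f₂)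
    (hv₂ : Wt b D' v₂) (hb : 2 ≤ b) (r : ℝ) :
    SV ρ c f v r - SV ρ c f₂ v₂ r = SV ρ c (fun s => f s - f₂ s) (fun s => v s - v₂ s) r := by
  have c1 := src_continuous_wt (ρ := ρ) (c := c) hf hv hb
  have c2 := src_continuous_wt (ρ := ρ) (c := c) hf₂ hv₂ hb
  have e : Ys ρ (src ρ c (fun s => f s - f₂ s) (fun s => v s - v₂ s)) r =
      Ys ρ (src ρ c f v) r - Ys ρ (src ρ c f₂ v₂) r := by
    unfold Ys
    rw [← intervalIntegral.integral_sub ((by fun_prop : Continuous _).intervalIntegrable _ _)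
      ((by fun_prop : Continuous _).intervalIntegrable _ _)]
    congr 1
    funext s
    unfold src
    ring
  unfold SV
  rw [e]
  ring

theorem SV'_sub_wt (hf : Wt a C f) (hv : Wt b D v) {C' D' : ℝ} (hf₂ : Wt a C' f₂)
    (hv₂ : Wt b D' v₂) (hb : 2 ≤ b) (r : ℝ) :
    SV' ρ c f v r - SV' ρ c f₂ v₂ r = SV' ρ c (fun s => f s - f₂ s) (fun s => v s - v₂ s) r := by
  have c1 := src_continuous_wt (ρ := ρ) (c := c) hf hv hb
  have c2 := src_continuous_wt (ρ := ρ) (c := c) hf₂ hv₂ hb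
  have e : Ys ρ (src ρ c (fun s => f s - f₂ s) (fun s => v s - v₂ s)) r =
      Ys ρ (src ρ c f v) r - Ys ρ (src ρ c f₂ v₂) r := by
    unfold Ys
    rw [← intervalIntegral.integral_sub ((by fun_prop : Continuous _).intervalIntegrable _ _)
      ((by fun_prop : Continuous _).intervalIntegrable _ _)]
    congr 1
    funext s
    unfold src
    ring
  have e' : Yc ρ (src ρ c (fun s => f s - f₂ s) (fun s => v s - v₂ s)) r =
      Yc ρ (src ρ c f v) r - Yc ρ (src ρ c f₂ v₂) r := by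
    unfold Yc
    rw [← intervalIntegral.integral_sub ((by fun_prop : Continuous _).intervalIntegrable _ _)
      ((by fun_prop : Continuous _).intervalIntegrable _ _)]
    congr 1
    funext s
    unfold src
    ring
  unfold SV'
  rw [e, e']
  ring

/-- the derivative at `1` as one integral -/
theorem SV'_one_eq (hsrc : Continuous (src ρ c f v)) : SV' ρ c f v 1 =
    -∫ t in (0 : ℝ)..1, (ρ * Real.cos (ρ * (1 - t)) - Real.sin (ρ * (1 - t)) / 2) *
      src ρ c f v t := by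
  unfold SV' Ys Yc
  rw [Real.sqrt_one, inv_one, one_mul, mul_one, neg_inj,
    ← intervalIntegral.integral_const_mul, ← intervalIntegral.integral_div,
    ← intervalIntegral.integral_sub ((by fun_prop : Continuous _).intervalIntegrable _ _)
    ((by fun_prop : Continuous _).intervalIntegrable _ _)]
  congr 1
  funext t
  ring

/-- bound of the derivative at `1` with general continuous majorants -/
theorem SV'_one_abs_le (hρ : ρ ≠ 0) (hsrc : Continuous (src ρ c f v)) {μ ν : ℝ → ℝ}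
    (hμc : Continuous μ) (hνc : Continuous ν)
    (hμ : ∀ s : ℝ, 0 < s → s ≤ 1 → |f s| ≤ μ s) (hν : ∀ s : ℝ, 0 < s → s ≤ 1 → |v s| ≤ ν s * s ^ 2) :
    |SV' ρ c f v 1| ≤ √(1 + (1 / (2 * ρ)) ^ 2) *
      ∫ t in (0 : ℝ)..1, √t * (ρ ^ 2 * μ t + |c| * ν t) := by
  rw [SV'_one_eq hsrc, abs_neg, ← intervalIntegral.integral_const_mul, ← Real.norm_eq_abs]
  apply intervalIntegral.norm_integral_le_of_norm_le zero_le_one _
    ((by fun_prop : Continuous _).intervalIntegrable _ _)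
  refine Eventually.of_forall fun t ht => ?_
  have ht0 : 0 < t := ht.1
  have hst : 0 ≤ √t := Real.sqrt_nonneg t
  have h1 := hμ t ht0 ht.2
  have h2 := hν t ht0 ht.2
  have hρ' : 0 < |ρ| := abs_pos.2 hρ
  have h4 := abs_cos_sub_le (ρ * (1 - t)) (1 / (2 * ρ))
  rw [mul_one_div] at h4
  have e1 : (ρ * Real.cos (ρ * (1 - t)) - Real.sin (ρ * (1 - t)) / 2) * src ρ c f v t =
      (Real.cos (ρ * (1 - t)) - Real.sin (ρ * (1 - t)) / (2 * ρ)) *
        (√t * (ρ ^ 2 * f t - c * (v t / t ^ 2))) := by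
    unfold src
    field_simp
  rw [e1, Real.norm_eq_abs, abs_mul]
  refine mul_le_mul h4 ?_ (abs_nonneg _) (Real.sqrt_nonneg _)
  rw [abs_mul, abs_of_nonneg hst]
  refine mul_le_mul_of_nonneg_left ?_ hst
  refine (abs_sub _ _).trans (add_le_add ?_ ?_)
  · rw [abs_mul, abs_of_nonneg (sq_nonneg ρ)]
    exact mul_le_mul_of_nonneg_left h1 (sq_nonneg ρ)
  · rw [abs_mul, abs_div, abs_of_pos (pow_pos ht0 2)]
    refine mul_le_mul_of_nonneg_left ?_ (abs_nonneg c)
    rw [div_le_iff₀ (pow_pos ht0 2)]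
    exact h2

/-- sources `F s^a + F₁ s^{a₁} (1-s)`, `v = O(s^b)` -/
theorem SV'_one_abs_le' (hρ : ρ ≠ 0) (hsrc : Continuous (src ρ c f v)) {a₁ : ℕ} {F F₁ : ℝ}
    (hf : ∀ s : ℝ, 0 < s → s ≤ 1 → |f s| ≤ F * s ^ a + F₁ * (s ^ a₁ * (1 - s)))
    (hv : ∀ s : ℝ, 0 < s → s ≤ 1 → |v s| ≤ D * s ^ b) (hb : 2 ≤ b) :
    |SV' ρ c f v 1| ≤ df ρ a * F + √(1 + (1 / (2 * ρ)) ^ 2) * cf ρ a₁ * F₁ + dv ρ c b * D := by
  obtain ⟨k, rfl⟩ := Nat.exists_eq_add_of_le hb
  refine (SV'_one_abs_le hρ hsrc (μ := fun s => F * s ^ a + F₁ * (s ^ a₁ * (1 - s)))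
    (ν := fun s => D * s ^ k) (by fun_prop) (by fun_prop) hf (fun s hs hs1 => ?_)).trans
    (le_of_eq ?_)
  · refine (hv s hs hs1).trans (le_of_eq ?_)
    rw [pow_add]; ring
  · have e : ∀ t : ℝ, √t * (ρ ^ 2 * (F * t ^ a + F₁ * (t ^ a₁ * (1 - t))) + |c| * (D * t ^ k)) =
        ρ ^ 2 * F * (√t * t ^ a) + ρ ^ 2 * F₁ * ((1 - t) * (√t * t ^ a₁)) +
          |c| * D * (√t * t ^ k) := by
      intro t; ring
    simp_rw [e]
    rw [intervalIntegral.integral_add ((by fun_prop : Continuous _).intervalIntegrable _ _)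
      ((by fun_prop : Continuous _).intervalIntegrable _ _),
      intervalIntegral.integral_add ((by fun_prop : Continuous _).intervalIntegrable _ _)
      ((by fun_prop : Continuous _).intervalIntegrable _ _), intervalIntegral.integral_const_mul,
      intervalIntegral.integral_const_mul, intervalIntegral.integral_const_mul, int_sqrt_pow,
      int_sqrt_pow, int_one_sub_sqrt_pow]
    unfold df dv cf
    push_cast
    rw [show (2 : ℝ) + k - 1 / 2 = k + 3 / 2 by ring]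
    ring

end

end SCHS

namespace Pool.Agent.SCH

open Set SCHS

variable {M F F' V V' ρ c : ℝ} {f g v w : ℝ → ℝ} {a b : ℕ}

theorem wt_v_left (hv : ContinuousOn v (Ioi 0))
    (H : ∀ s : ℝ, 0 < s → s ≤ 1 → Mj M (V * s ^ b) (V' * s ^ b) (v s) (w s)) : Wt b V v :=
  ⟨hv, fun s hs hs1 => (H s hs hs1).l⟩

/-- majorant rule for `SV` -/
theorem Mj.sv (hρ : ρ ≠ 0) (hb : 2 ≤ b) (hf : ContinuousOn f (Ioi 0)) (hg : ContinuousOn g (Ioi 0))
    (hv : ContinuousOn v (Ioi 0)) (hw : ContinuousOn w (Ioi 0))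
    (H : ∀ s : ℝ, 0 < s → s ≤ 1 → Mj M (F * s ^ a) (F' * s ^ a) (f s) (g s))
    (K : ∀ s : ℝ, 0 < s → s ≤ 1 → Mj M (V * s ^ b) (V' * s ^ b) (v s) (w s))
    {r : ℝ} (hr : 0 < r) (hr1 : r ≤ 1) :
    Mj M (cf ρ a * F * r ^ (a + 2) + cv c b * V * r ^ b)
      (cf ρ a * F' * r ^ (a + 2) + cv c b * V' * r ^ b) (SV ρ c f v r) (SV ρ c g w r) := by
  refine ⟨SV_abs_le_wt hρ (fun s hs hs1 => (H s hs hs1).l) (fun s hs hs1 => (K s hs hs1).l) hb hr hr1,
    SV_abs_le_wt hρ (fun s hs hs1 => (H s hs hs1).r) (fun s hs hs1 => (K s hs hs1).r) hb hr hr1, ?_⟩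
  rw [SV_sub_wt (wt_left hf H) (wt_left hv K) (wt_right hg H) (wt_right hw K) hb r]
  refine (SV_abs_le_wt (a := a) (C := M * F') (D := M * V') hρ (fun s hs hs1 => ?_)
    (fun s hs hs1 => ?_) hb hr hr1).trans (le_of_eq (by ring))
  · exact (H s hs hs1).d.trans (le_of_eq (by ring))
  · exact (K s hs hs1).d.trans (le_of_eq (by ring))

/-- majorant rule for the derivative at `1` -/
theorem Mj.dv (hρ : ρ ≠ 0) (hb : 2 ≤ b) (hf : ContinuousOn f (Ioi 0)) (hg : ContinuousOn g (Ioi 0))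
    (hv : ContinuousOn v (Ioi 0)) (hw : ContinuousOn w (Ioi 0)) {p a₁ : ℕ} {F₁ F₁' V₀ V₀' : ℝ}
    (hw1 : ∀ s : ℝ, 0 < s → s ≤ 1 → Mj M (V₀ * s ^ p) (V₀' * s ^ p) (f s) (g s))
    (H : ∀ s : ℝ, 0 < s → s ≤ 1 → Mj M (F * s ^ a + F₁ * (s ^ a₁ * (1 - s)))
      (F' * s ^ a + F₁' * (s ^ a₁ * (1 - s))) (f s) (g s))
    (K : ∀ s : ℝ, 0 < s → s ≤ 1 → Mj M (V * s ^ b) (V' * s ^ b) (v s) (w s)) :
    Mj M (df ρ a * F + √(1 + (1 / (2 * ρ)) ^ 2) * cf ρ a₁ * F₁ + SCHS.dv ρ c b * V)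
      (df ρ a * F' + √(1 + (1 / (2 * ρ)) ^ 2) * cf ρ a₁ * F₁' + SCHS.dv ρ c b * V')
      (SV' ρ c f v 1) (SV' ρ c g w 1) := by
  have c1 := src_continuous_wt (ρ := ρ) (c := c) (wt_left hf hw1) (wt_left hv K) hb
  have c2 := src_continuous_wt (ρ := ρ) (c := c) (wt_right hg hw1) (wt_right hw K) hb
  have c3 : Continuous (src ρ c (fun s => f s - g s) (fun s => v s - w s)) := by
    have : src ρ c (fun s => f s - g s) (fun s => v s - w s) =
        fun s => src ρ c f v s - src ρ c g w s := by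
      funext s; unfold src; ring
    rw [this]
    exact c1.sub c2
  refine ⟨SV'_one_abs_le' hρ c1 (fun s hs hs1 => (H s hs hs1).l) (fun s hs hs1 => (K s hs hs1).l) hb,
    SV'_one_abs_le' hρ c2 (fun s hs hs1 => (H s hs hs1).r) (fun s hs hs1 => (K s hs hs1).r) hb, ?_⟩
  rw [SV'_sub_wt (wt_left hf hw1) (wt_left hv K) (wt_right hg hw1) (wt_right hw K) hb 1]
  refine (SV'_one_abs_le' (a := a) (F := M * F') (F₁ := M * F₁') (D := M * V') hρ c3
    (fun s hs hs1 => ?_) (fun s hs hs1 => ?_) hb).trans (le_of_eq (by ring))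
  · exact (H s hs hs1).d.trans (le_of_eq (by ring))
  · exact (K s hs hs1).d.trans (le_of_eq (by ring))

end Pool.Agent.SCH
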