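import Pool.Agent.MP_83fd13_an.SCH.Sin2
import Pool.Agent.MP_83fd13_an.SCH.WieD

set_option autoImplicit false

/-!
# [SCH] the sine kernel operator in raw form (no hat functions): bounds, linearity, joint continuity,
majorant rules
-/

namespace SCHR

open MeasureTheory Set Filter Topology intervalIntegral SCHS
open scoped Real

noncomputable section

/-! ### continuity of the source -/

/-- `√s / s^2 * v s` is continuous if `|v s| ≤ B s^b`, `b ≥ 2` -/
theorem continuous_sing {X : Type*} [TopologicalSpace X] {V : X → ℝ → ℝ}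
    (hV : Continuous (Function.uncurry V)) {B : ℝ} {b : ℕ} (hb : 2 ≤ b)
    (hB : ∀ x, ∀ s : ℝ, 0 < s → s ≤ 1 → |V x s| ≤ B * s ^ b) :
    Continuous (fun p : X × ℝ => √p.2 / p.2 ^ 2 * V p.1 p.2) := by
  rw [continuous_iff_continuousAt]
  rintro ⟨x, s⟩
  rcases eq_or_ne s 0 with rfl | hs
  · have h0 : (fun p : X × ℝ => √p.2 / p.2 ^ 2 * V p.1 p.2) (x, 0) = 0 := by simp
    rw [ContinuousAt]
    have h0' : √((x, (0:ℝ)) : X × ℝ).2 / ((x, (0:ℝ)) : X × ℝ).2 ^ 2 *
        V ((x, (0:ℝ)) : X × ℝ).1 ((x, (0:ℝ)) : X × ℝ).2 = 0 := h0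
    rw [h0']
    have hK : Tendsto (fun p : X × ℝ => |B| * √p.2) (𝓝 (x, (0:ℝ))) (𝓝 0) := by
      have hc : Continuous (fun p : X × ℝ => |B| * √p.2) := by fun_prop
      have := hc.tendsto (x, (0:ℝ))
      simpa using this
    refine squeeze_zero_norm' ?_ hK
    have hnb : {p : X × ℝ | p.2 < 1} ∈ 𝓝 (x, (0:ℝ)) :=
      (isOpen_lt continuous_snd continuous_const).mem_nhds (by
        show (0:ℝ) < 1
        exact one_pos)
    filter_upwards [hnb] with p hp
    have hp1 : p.2 < 1 := hp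
    rw [Real.norm_eq_abs]
    rcases le_or_gt p.2 0 with h | h
    · rw [Real.sqrt_eq_zero_of_nonpos h]
      simp
    · rw [abs_mul, abs_div, abs_of_nonneg (Real.sqrt_nonneg _), abs_of_pos (pow_pos h 2)]
      obtain ⟨k, rfl⟩ := Nat.exists_eq_add_of_le hb
      have h1 := hB p.1 p.2 h hp1.le
      have h2 : B * p.2 ^ (2 + k) ≤ |B| * p.2 ^ 2 := by
        have h3 : p.2 ^ k ≤ 1 := pow_le_one₀ h.le hp1.le
        have h4 : p.2 ^ (2 + k) ≤ p.2 ^ 2 := by
          rw [pow_add]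
          nlinarith [pow_pos h 2]
        calc B * p.2 ^ (2 + k) ≤ |B| * p.2 ^ (2 + k) :=
              mul_le_mul_of_nonneg_right (le_abs_self B) (pow_nonneg h.le _)
          _ ≤ |B| * p.2 ^ 2 := mul_le_mul_of_nonneg_left h4 (abs_nonneg B)
      calc √p.2 / p.2 ^ 2 * |V p.1 p.2| ≤ √p.2 / p.2 ^ 2 * (|B| * p.2 ^ 2) :=
            mul_le_mul_of_nonneg_left (h1.trans h2) (by positivity)
        _ = |B| * √p.2 := by field_simp
  · have hc : ContinuousAt (fun p : X × ℝ => √p.2 / p.2 ^ 2) (x, s) := by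
      refine ContinuousAt.div ?_ ?_ (pow_ne_zero 2 hs)
      · exact (Real.continuous_sqrt.comp continuous_snd).continuousAt
      · exact (continuous_snd.pow 2).continuousAt
    exact hc.mul hV.continuousAt

/-- joint continuity of the source -/
theorem continuous_src_joint {X : Type*} [TopologicalSpace X] {R : X → ℝ} (hR : Continuous R)
    (hR0 : ∀ x, R x ≠ 0) {c : ℝ} {F V : X → ℝ → ℝ} (hF : Continuous (Function.uncurry F))
    (hV : Continuous (Function.uncurry V)) {B : ℝ} {b : ℕ} (hb : 2 ≤ b)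
    (hB : ∀ x, ∀ s : ℝ, 0 < s → s ≤ 1 → |V x s| ≤ B * s ^ b) :
    Continuous (fun p : X × ℝ => src (R p.1) c (F p.1) (V p.1) p.2) := by
  have h1 := continuous_sing hV hb hB
  have hF' : Continuous (fun p : X × ℝ => F p.1 p.2) := hF
  have h2 : Continuous (fun p : X × ℝ => R p.1 * √p.2 * F p.1 p.2) :=
    ((hR.comp continuous_fst).mul (Real.continuous_sqrt.comp continuous_snd)).mul hF'
  have h3 : Continuous (fun p : X × ℝ => c / R p.1 * (√p.2 / p.2 ^ 2 * V p.1 p.2)) :=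
    (continuous_const.div (hR.comp continuous_fst) (fun p => hR0 p.1)).mul h1
  refine (h2.sub h3).congr fun p => ?_
  show R p.1 * √p.2 * F p.1 p.2 - c / R p.1 * (√p.2 / p.2 ^ 2 * V p.1 p.2) = _
  unfold src
  ring

theorem continuous_src_raw {ρ c : ℝ} (hρ : ρ ≠ 0) {f v : ℝ → ℝ} (hf : Continuous f)
    (hv : Continuous v) {B : ℝ} {b : ℕ} (hb : 2 ≤ b)
    (hB : ∀ s : ℝ, 0 < s → s ≤ 1 → |v s| ≤ B * s ^ b) : Continuous (src ρ c f v) := by
  have h := continuous_src_joint (X := Unit) (R := fun _ => ρ) (c := c) continuous_const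
    (fun _ => hρ) (F := fun _ => f) (V := fun _ => v) (hf.comp continuous_snd)
    (hv.comp continuous_snd) hb (fun _ => hB)
  exact h.comp (continuous_const.prodMk continuous_id : Continuous fun s : ℝ => ((), s))

/-! ### linearity -/

section lin

variable {ρ c : ℝ} {f v f2 v2 : ℝ → ℝ}

theorem src_sub (s : ℝ) : src ρ c (fun s => f s - f2 s) (fun s => v s - v2 s) s
    = src ρ c f v s - src ρ c f2 v2 s := by
  unfold src; ring

theorem SV_sub (h : Continuous (src ρ c f v)) (h2 : Continuous (src ρ c f2 v2)) (r : ℝ) :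
    SV ρ c (fun s => f s - f2 s) (fun s => v s - v2 s) r = SV ρ c f v r - SV ρ c f2 v2 r := by
  have e : Ys ρ (src ρ c (fun s => f s - f2 s) (fun s => v s - v2 s)) r
      = Ys ρ (src ρ c f v) r - Ys ρ (src ρ c f2 v2) r := by
    unfold Ys
    rw [← intervalIntegral.integral_sub ((by fun_prop : Continuous _).intervalIntegrable _ _)
      ((by fun_prop : Continuous _).intervalIntegrable _ _)]
    congr 1
    funext s
    rw [src_sub]; ring
  unfold SV
  rw [e]; ring

theorem SV'_sub (h : Continuous (src ρ c f v)) (h2 : Continuous (src ρ c f2 v2)) (r : ℝ) :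
    SV' ρ c (fun s => f s - f2 s) (fun s => v s - v2 s) r = SV' ρ c f v r - SV' ρ c f2 v2 r := by
  have e : Ys ρ (src ρ c (fun s => f s - f2 s) (fun s => v s - v2 s)) r
      = Ys ρ (src ρ c f v) r - Ys ρ (src ρ c f2 v2) r := by
    unfold Ys
    rw [← intervalIntegral.integral_sub ((by fun_prop : Continuous _).intervalIntegrable _ _)
      ((by fun_prop : Continuous _).intervalIntegrable _ _)]
    congr 1
    funext s
    rw [src_sub]; ring
  have e2 : Yc ρ (src ρ c (fun s => f s - f2 s) (fun s => v s - v2 s)) r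
      = Yc ρ (src ρ c f v) r - Yc ρ (src ρ c f2 v2) r := by
    unfold Yc
    rw [← intervalIntegral.integral_sub ((by fun_prop : Continuous _).intervalIntegrable _ _)
      ((by fun_prop : Continuous _).intervalIntegrable _ _)]
    congr 1
    funext s
    rw [src_sub]; ring
  unfold SV'
  rw [e, e2]; ring

end lin

/-! ### bounds -/

section bounds

variable {ρ c A B : ℝ} {a b : ℕ} {f v : ℝ → ℝ}

theorem abs_sin_le' (x : ℝ) : |Real.sin x| ≤ |x| := Real.abs_sin_le_abs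

theorem abs_src_le (hρ : 0 < ρ) (hb : 2 ≤ b)
    (hA : ∀ s : ℝ, 0 < s → s ≤ 1 → |f s| ≤ A * s ^ a)
    (hB : ∀ s : ℝ, 0 < s → s ≤ 1 → |v s| ≤ B * s ^ b) {s : ℝ} (hs : 0 < s) (hs1 : s ≤ 1) :
    |src ρ c f v s| ≤ ρ * A * (√s * s ^ a) + |c| / ρ * B * (√s * s ^ (b - 2)) := by
  obtain ⟨k, rfl⟩ := Nat.exists_eq_add_of_le hb
  rw [show 2 + k - 2 = k by omega]
  unfold src
  refine (abs_sub _ _).trans (add_le_add ?_ ?_)
  · rw [abs_mul, abs_of_nonneg (by positivity : (0:ℝ) ≤ ρ * √s)]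
    calc ρ * √s * |f s| ≤ ρ * √s * (A * s ^ a) :=
          mul_le_mul_of_nonneg_left (hA s hs hs1) (by positivity)
      _ = _ := by ring
  · rw [abs_mul, abs_mul, abs_div, abs_div, abs_of_pos hρ, abs_of_nonneg (Real.sqrt_nonneg _),
      abs_of_pos (pow_pos hs 2)]
    calc |c| / ρ * (√s / s ^ 2) * |v s| ≤ |c| / ρ * (√s / s ^ 2) * (B * s ^ (2 + k)) :=
          mul_le_mul_of_nonneg_left (hB s hs hs1) (by positivity)
      _ = _ := by
        rw [pow_add]
        field_simp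

theorem abs_SV_le (hρ : 0 < ρ) (hb : 2 ≤ b) (hc : Continuous (src ρ c f v))
    (hA : ∀ s : ℝ, 0 < s → s ≤ 1 → |f s| ≤ A * s ^ a)
    (hB : ∀ s : ℝ, 0 < s → s ≤ 1 → |v s| ≤ B * s ^ b) {r : ℝ} (hr : 0 < r) (hr1 : r ≤ 1) :
    |SV ρ c f v r| ≤ ρ ^ 2 * A * r ^ (a + 2) / (((a : ℝ) + 3 / 2) * ((a : ℝ) + 5 / 2)) +
      |c| * B * r ^ b / (((b : ℝ) - 1 / 2) * ((b : ℝ) + 1 / 2)) := by
  have hmaj : |∫ t in (0 : ℝ)..1, Real.sin (ρ * r * (1 - t)) * src ρ c f v (r * t)|
      ≤ ∫ t in (0 : ℝ)..1, (ρ ^ 2 * A * r ^ (a + 1) * √r * ((1 - t) * (√t * t ^ a))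
        + |c| * B * r ^ (b - 1) * √r * ((1 - t) * (√t * t ^ (b - 2)))) := by
    refine Pool.Agent.SCH.abs_int_le zero_le_one
      ((by fun_prop : Continuous _).intervalIntegrable _ _)
      ((by fun_prop : Continuous _).intervalIntegrable _ _) ?_
    intro t ht
    have hrt : 0 < r * t := mul_pos hr ht.1
    have hrt1 : r * t ≤ 1 := mul_le_one₀ hr1 ht.1.le ht.2
    have h1t : 0 ≤ 1 - t := by linarith [ht.2]
    rw [abs_mul]
    have hs := abs_src_le (c := c) hρ hb hA hB hrt hrt1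
    have hsin : |Real.sin (ρ * r * (1 - t))| ≤ ρ * r * (1 - t) := by
      refine (abs_sin_le' _).trans (le_of_eq (abs_of_nonneg (by positivity)))
    calc |Real.sin (ρ * r * (1 - t))| * |src ρ c f v (r * t)|
        ≤ (ρ * r * (1 - t)) * (ρ * A * (√(r * t) * (r * t) ^ a)
          + |c| / ρ * B * (√(r * t) * (r * t) ^ (b - 2))) :=
          mul_le_mul hsin hs (abs_nonneg _) (by positivity)
      _ = _ := by
        obtain ⟨k, rfl⟩ := Nat.exists_eq_add_of_le hb
        rw [show 2 + k - 2 = k by omega, show 2 + k - 1 = k + 1 by omega, Real.sqrt_mul hr.le,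
          mul_pow, mul_pow]
        field_simp
        ring
  have hval : ∫ t in (0 : ℝ)..1, (ρ ^ 2 * A * r ^ (a + 1) * √r * ((1 - t) * (√t * t ^ a))
        + |c| * B * r ^ (b - 1) * √r * ((1 - t) * (√t * t ^ (b - 2))))
      = ρ ^ 2 * A * r ^ (a + 1) * √r * (1 / (((a : ℝ) + 3 / 2) * ((a : ℝ) + 5 / 2)))
        + |c| * B * r ^ (b - 1) * √r * (1 / (((b : ℝ) - 1 / 2) * ((b : ℝ) + 1 / 2))) := by
    rw [intervalIntegral.integral_add ((by fun_prop : Continuous _).intervalIntegrable _ _)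
      ((by fun_prop : Continuous _).intervalIntegrable _ _), intervalIntegral.integral_const_mul,
      intervalIntegral.integral_const_mul, int_one_sub_sqrt_pow, int_one_sub_sqrt_pow]
    obtain ⟨k, rfl⟩ := Nat.exists_eq_add_of_le hb
    rw [show 2 + k - 2 = k by omega]
    push_cast
    have e1 : (2:ℝ) + k - 1 / 2 = k + 3 / 2 := by ring
    have e2 : (2:ℝ) + k + 1 / 2 = k + 5 / 2 := by ring
    rw [e1, e2]
  unfold SV
  rw [Ys_scale, abs_neg, abs_mul, abs_mul, abs_inv, abs_of_nonneg (Real.sqrt_nonneg r),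
    abs_of_pos hr]
  rw [hval] at hmaj
  have hsr : 0 < √r := Real.sqrt_pos.2 hr
  calc (√r)⁻¹ * (r * |∫ t in (0 : ℝ)..1, Real.sin (ρ * r * (1 - t)) * src ρ c f v (r * t)|)
      ≤ (√r)⁻¹ * (r * (ρ ^ 2 * A * r ^ (a + 1) * √r * (1 / (((a : ℝ) + 3 / 2) * ((a : ℝ) + 5 / 2)))
        + |c| * B * r ^ (b - 1) * √r * (1 / (((b : ℝ) - 1 / 2) * ((b : ℝ) + 1 / 2))))) := by
        refine mul_le_mul_of_nonneg_left (mul_le_mul_of_nonneg_left hmaj hr.le) (by positivity)
    _ = _ := by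
      obtain ⟨k, rfl⟩ := Nat.exists_eq_add_of_le hb
      rw [show 2 + k - 1 = k + 1 by omega, show a + 2 = a + 1 + 1 by omega,
        show 2 + k = k + 1 + 1 by omega, pow_succ r (a + 1), pow_succ r (k + 1)]
      field_simp

/-- the derivative at `1`: `m` is a majorant of the source, `|src s| ≤ m s` -/
theorem SV'_one_raw (hc : Continuous (src ρ c f v)) : SV' ρ c f v 1
    = -∫ s in (0 : ℝ)..1, (ρ * Real.cos (ρ * (1 - s)) - Real.sin (ρ * (1 - s)) / 2)
      * src ρ c f v s := by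
  unfold SV' Yc Ys
  rw [Real.sqrt_one, inv_one, one_mul, mul_one, ← intervalIntegral.integral_const_mul,
    ← intervalIntegral.integral_div,
    ← intervalIntegral.integral_sub ((by fun_prop : Continuous _).intervalIntegrable _ _)
    ((by fun_prop : Continuous _).intervalIntegrable _ _)]
  congr 2
  funext s
  ring

theorem abs_cs_le (hρ : 0 < ρ) (x : ℝ) :
    |ρ * Real.cos x - Real.sin x / 2| ≤ ρ * √(1 + (1 / (2 * ρ)) ^ 2) := by
  have h := abs_cos_sub_le x (1 / (2 * ρ))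
  have e : ρ * Real.cos x - Real.sin x / 2 = ρ * (Real.cos x - Real.sin x * (1 / (2 * ρ))) := by
    field_simp
  rw [e, abs_mul, abs_of_pos hρ]
  exact mul_le_mul_of_nonneg_left h hρ.le

theorem abs_SV'_one_le (hρ : 0 < ρ) (hb : 2 ≤ b) (hc : Continuous (src ρ c f v))
    (hA : ∀ s : ℝ, 0 < s → s ≤ 1 → |f s| ≤ A * s ^ a)
    (hB : ∀ s : ℝ, 0 < s → s ≤ 1 → |v s| ≤ B * s ^ b) :
    |SV' ρ c f v 1| ≤ √(1 + (1 / (2 * ρ)) ^ 2) *
      (ρ ^ 2 * A / ((a : ℝ) + 3 / 2) + |c| * B / ((b : ℝ) - 1 / 2)) := by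
  rw [SV'_one_raw hc, abs_neg]
  have hval : ∫ t in (0 : ℝ)..1, ρ * √(1 + (1 / (2 * ρ)) ^ 2) *
      (ρ * A * (√t * t ^ a) + |c| / ρ * B * (√t * t ^ (b - 2)))
      = √(1 + (1 / (2 * ρ)) ^ 2) *
        (ρ ^ 2 * A / ((a : ℝ) + 3 / 2) + |c| * B / ((b : ℝ) - 1 / 2)) := by
    rw [intervalIntegral.integral_const_mul,
      intervalIntegral.integral_add ((by fun_prop : Continuous _).intervalIntegrable _ _)
      ((by fun_prop : Continuous _).intervalIntegrable _ _), intervalIntegral.integral_const_mul,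
      intervalIntegral.integral_const_mul, int_sqrt_pow, int_sqrt_pow]
    obtain ⟨k, rfl⟩ := Nat.exists_eq_add_of_le hb
    rw [show 2 + k - 2 = k by omega]
    push_cast
    have e1 : (2:ℝ) + k - 1 / 2 = k + 3 / 2 := by ring
    rw [e1]
    field_simp
  rw [← hval]
  refine Pool.Agent.SCH.abs_int_le zero_le_one
      ((by fun_prop : Continuous _).intervalIntegrable _ _)
      ((by fun_prop : Continuous _).intervalIntegrable _ _) ?_
  intro t ht
  rw [abs_mul]
  exact mul_le_mul (abs_cs_le hρ _) (abs_src_le hρ hb hA hB ht.1 ht.2) (abs_nonneg _)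
    (by positivity)

/-- the source has the factor `1 - s^N` (`N = 1`: `1 - s`) -/
theorem abs_SV'_one_le_sub {N : ℕ} (hρ : 0 < ρ) (hb : 2 ≤ b) (hc : Continuous (src ρ c f v))
    (hA : ∀ s : ℝ, 0 < s → s ≤ 1 → |f s| ≤ A * (s ^ a * (1 - s ^ N)))
    (hB : ∀ s : ℝ, 0 < s → s ≤ 1 → |v s| ≤ B * s ^ b) :
    |SV' ρ c f v 1| ≤ √(1 + (1 / (2 * ρ)) ^ 2) *
      (ρ ^ 2 * A * (N / (((a : ℝ) + 3 / 2) * ((a : ℝ) + N + 3 / 2)))
        + |c| * B / ((b : ℝ) - 1 / 2)) := by
  rw [SV'_one_raw hc, abs_neg]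
  have hval : ∫ t in (0 : ℝ)..1, ρ * √(1 + (1 / (2 * ρ)) ^ 2) *
      ((ρ * A * (√t * t ^ a) - ρ * A * (√t * t ^ (a + N))) + |c| / ρ * B * (√t * t ^ (b - 2)))
      = √(1 + (1 / (2 * ρ)) ^ 2) *
        (ρ ^ 2 * A * (N / (((a : ℝ) + 3 / 2) * ((a : ℝ) + N + 3 / 2)))
          + |c| * B / ((b : ℝ) - 1 / 2)) := by
    rw [intervalIntegral.integral_const_mul,
      intervalIntegral.integral_add ((by fun_prop : Continuous _).intervalIntegrable _ _)
      ((by fun_prop : Continuous _).intervalIntegrable _ _),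
      intervalIntegral.integral_sub ((by fun_prop : Continuous _).intervalIntegrable _ _)
      ((by fun_prop : Continuous _).intervalIntegrable _ _), intervalIntegral.integral_const_mul,
      intervalIntegral.integral_const_mul, intervalIntegral.integral_const_mul, int_sqrt_pow,
      int_sqrt_pow, int_sqrt_pow]
    obtain ⟨k, rfl⟩ := Nat.exists_eq_add_of_le hb
    rw [show 2 + k - 2 = k by omega]
    push_cast
    have e1 : (2:ℝ) + k - 1 / 2 = k + 3 / 2 := by ring
    rw [e1]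
    have h1 : (a : ℝ) + 3 / 2 ≠ 0 := by positivity
    have h2 : (a : ℝ) + N + 3 / 2 ≠ 0 := by positivity
    field_simp
    ring
  rw [← hval]
  refine Pool.Agent.SCH.abs_int_le zero_le_one
      ((by fun_prop : Continuous _).intervalIntegrable _ _)
      ((by fun_prop : Continuous _).intervalIntegrable _ _) ?_
  intro t ht
  rw [abs_mul]
  refine mul_le_mul (abs_cs_le hρ _) ?_ (abs_nonneg _) (by positivity)
  -- the source
  obtain ⟨k, rfl⟩ := Nat.exists_eq_add_of_le hb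
  rw [show 2 + k - 2 = k by omega]
  have hs := ht.1
  unfold src
  refine (abs_sub _ _).trans (add_le_add ?_ ?_)
  · rw [abs_mul, abs_of_nonneg (by positivity : (0:ℝ) ≤ ρ * √t)]
    calc ρ * √t * |f t| ≤ ρ * √t * (A * (t ^ a * (1 - t ^ N))) :=
          mul_le_mul_of_nonneg_left (hA t hs ht.2) (by positivity)
      _ = _ := by rw [pow_add]; ring
  · rw [abs_mul, abs_mul, abs_div, abs_div, abs_of_pos hρ, abs_of_nonneg (Real.sqrt_nonneg _),
      abs_of_pos (pow_pos hs 2)]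
    calc |c| / ρ * (√t / t ^ 2) * |v t| ≤ |c| / ρ * (√t / t ^ 2) * (B * t ^ (2 + k)) :=
          mul_le_mul_of_nonneg_left (hB t hs ht.2) (by positivity)
      _ = _ := by
        rw [pow_add]
        field_simp

end bounds

/-! ### joint continuity -/

section joint

variable {X : Type*} [TopologicalSpace X] {R : X → ℝ} {c A B : ℝ} {a b : ℕ} {F V : X → ℝ → ℝ}

theorem continuous_SV_joint (hR : Continuous R) (hR0 : ∀ x, 0 < R x)
    (hRb : ∀ x, R x ≤ 1000) (hF : Continuous (Function.uncurry F))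
    (hV : Continuous (Function.uncurry V)) (hb : 2 ≤ b)
    (hA : ∀ x, ∀ s : ℝ, 0 < s → s ≤ 1 → |F x s| ≤ A * s ^ a)
    (hB : ∀ x, ∀ s : ℝ, 0 < s → s ≤ 1 → |V x s| ≤ B * s ^ b) :
    Continuous (fun p : X × ℝ => SV (R p.1) c (F p.1) (V p.1) p.2) := by
  have hsrc := continuous_src_joint (c := c) hR (fun x => (hR0 x).ne') hF hV hb hB
  have hsrcx : ∀ x, Continuous (src (R x) c (F x) (V x)) := fun x =>
    hsrc.comp (continuous_const.prodMk continuous_id : Continuous fun s : ℝ => (x, s))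
  have hY : Continuous (fun p : X × ℝ => ∫ s in (0:ℝ)..p.2,
      Real.sin (R p.1 * (p.2 - s)) * src (R p.1) c (F p.1) (V p.1) s) := by
    refine intervalIntegral.continuous_parametric_intervalIntegral_of_continuous
      (f := fun (p : X × ℝ) (s : ℝ) =>
        Real.sin (R p.1 * (p.2 - s)) * src (R p.1) c (F p.1) (V p.1) s) ?_ continuous_snd
    have h1 : Continuous (fun q : (X × ℝ) × ℝ => Real.sin (R q.1.1 * (q.1.2 - q.2))) :=
      Real.continuous_sin.comp ((hR.comp (continuous_fst.comp continuous_fst)).mul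
        ((continuous_snd.comp continuous_fst).sub continuous_snd))
    have h2 : Continuous (fun q : (X × ℝ) × ℝ =>
        src (R q.1.1) c (F q.1.1) (V q.1.1) q.2) :=
      hsrc.comp ((continuous_fst.comp continuous_fst).prodMk continuous_snd)
    exact h1.mul h2
  rw [continuous_iff_continuousAt]
  rintro ⟨x, r⟩
  rcases lt_trichotomy r 0 with hr | hr | hr
  · have h0 : (fun p : X × ℝ => SV (R p.1) c (F p.1) (V p.1) p.2) =ᶠ[𝓝 (x, r)] fun _ => 0 := by
      have hnb : {p : X × ℝ | p.2 < 0} ∈ 𝓝 (x, r) :=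
        (isOpen_lt continuous_snd continuous_const).mem_nhds hr
      filter_upwards [hnb] with p hp
      unfold SV
      rw [Real.sqrt_eq_zero_of_nonpos (le_of_lt hp)]
      simp
    exact (continuousAt_const (y := (0:ℝ))).congr h0.symm
  · subst hr
    have h0 : SV (R ((x, (0:ℝ)) : X × ℝ).1) c (F ((x, (0:ℝ)) : X × ℝ).1)
        (V ((x, (0:ℝ)) : X × ℝ).1) ((x, (0:ℝ)) : X × ℝ).2 = 0 := by
      unfold SV; simp
    rw [ContinuousAt, h0]
    have hA0 : 0 ≤ A := by
      have := hA x 1 one_pos le_rfl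
      rw [one_pow, mul_one] at this
      exact (abs_nonneg _).trans this
    have hB0 : 0 ≤ B := by
      have := hB x 1 one_pos le_rfl
      rw [one_pow, mul_one] at this
      exact (abs_nonneg _).trans this
    have hK : Tendsto (fun p : X × ℝ => (1000 ^ 2 * A + 4 * |c| * B) * |p.2|) (𝓝 (x, (0:ℝ)))
        (𝓝 0) := by
      have hc : Continuous (fun p : X × ℝ => (1000 ^ 2 * A + 4 * |c| * B) * |p.2|) := by fun_prop
      have := hc.tendsto (x, (0:ℝ))
      simpa using this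
    refine squeeze_zero_norm' ?_ hK
    have hnb : {p : X × ℝ | p.2 < 1} ∈ 𝓝 (x, (0:ℝ)) :=
      (isOpen_lt continuous_snd continuous_const).mem_nhds (by
        show (0:ℝ) < 1
        exact one_pos)
    filter_upwards [hnb] with p hp
    have hp1 : p.2 < 1 := hp
    rw [Real.norm_eq_abs]
    rcases le_or_gt p.2 0 with h | h
    · unfold SV
      rw [Real.sqrt_eq_zero_of_nonpos h]
      simp only [inv_zero, zero_mul, neg_zero, abs_zero]
      positivity
    · have h1 := abs_SV_le (c := c) (hR0 p.1) hb (hsrcx p.1) (hA p.1) (hB p.1) h hp1.le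
      refine h1.trans ?_
      rw [abs_of_pos h]
      have e1 : p.2 ^ (a + 2) ≤ p.2 := by
        calc p.2 ^ (a + 2) ≤ p.2 ^ 1 := pow_le_pow_of_le_one h.le hp1.le (by omega)
          _ = p.2 := pow_one _
      have e2 : p.2 ^ b ≤ p.2 := by
        calc p.2 ^ b ≤ p.2 ^ 1 := pow_le_pow_of_le_one h.le hp1.le (by omega)
          _ = p.2 := pow_one _
      have e3 : (1:ℝ) ≤ ((a : ℝ) + 3 / 2) * ((a : ℝ) + 5 / 2) := by
        have : (0:ℝ) ≤ a := Nat.cast_nonneg a
        nlinarith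
      have hbr : (2:ℝ) ≤ b := by exact_mod_cast hb
      have e4 : (1:ℝ) ≤ ((b : ℝ) - 1 / 2) * ((b : ℝ) + 1 / 2) := by nlinarith
      have e5 : R p.1 ^ 2 ≤ 1000 ^ 2 := pow_le_pow_left₀ (hR0 p.1).le (hRb p.1) 2
      have t1 : R p.1 ^ 2 * A * p.2 ^ (a + 2) / (((a : ℝ) + 3 / 2) * ((a : ℝ) + 5 / 2))
          ≤ 1000 ^ 2 * A * p.2 := by
        refine (div_le_self (by positivity) e3).trans ?_
        exact mul_le_mul (mul_le_mul_of_nonneg_right e5 hA0) e1 (by positivity) (by positivity)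
      have t2 : |c| * B * p.2 ^ b / (((b : ℝ) - 1 / 2) * ((b : ℝ) + 1 / 2)) ≤ |c| * B * p.2 := by
        refine (div_le_self (by positivity) e4).trans ?_
        exact mul_le_mul_of_nonneg_left e2 (by positivity)
      have t3 : 0 ≤ |c| * B * p.2 := by positivity
      calc _ ≤ 1000 ^ 2 * A * p.2 + |c| * B * p.2 := add_le_add t1 t2
        _ ≤ (1000 ^ 2 * A + 4 * |c| * B) * p.2 := by linarith
  · have h1 : ContinuousAt (fun p : X × ℝ => (√p.2)⁻¹) (x, r) :=
      ContinuousAt.inv₀ ((Real.continuous_sqrt.comp continuous_snd).continuousAt)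
        (Real.sqrt_pos.2 hr).ne'
    exact (h1.mul hY.continuousAt).neg

theorem continuous_SV'_one (hR : Continuous R) (hR0 : ∀ x, 0 < R x)
    (hF : Continuous (Function.uncurry F)) (hV : Continuous (Function.uncurry V)) (hb : 2 ≤ b)
    (hB : ∀ x, ∀ s : ℝ, 0 < s → s ≤ 1 → |V x s| ≤ B * s ^ b) :
    Continuous (fun x : X => SV' (R x) c (F x) (V x) 1) := by
  have hsrc := continuous_src_joint (c := c) hR (fun x => (hR0 x).ne') hF hV hb hB
  have hsrcx : ∀ x, Continuous (src (R x) c (F x) (V x)) := fun x =>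
    hsrc.comp (continuous_const.prodMk continuous_id : Continuous fun s : ℝ => (x, s))
  have e : (fun x : X => SV' (R x) c (F x) (V x) 1) = fun x => -∫ s in (0 : ℝ)..1,
      (R x * Real.cos (R x * (1 - s)) - Real.sin (R x * (1 - s)) / 2)
      * src (R x) c (F x) (V x) s := by
    funext x
    exact SV'_one_raw (hsrcx x)
  rw [e]
  refine Continuous.neg ?_
  refine intervalIntegral.continuous_parametric_intervalIntegral_of_continuous'
    (f := fun (x : X) (s : ℝ) => (R x * Real.cos (R x * (1 - s)) - Real.sin (R x * (1 - s)) / 2)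
      * src (R x) c (F x) (V x) s) ?_ 0 1
  have hr : Continuous (fun q : X × ℝ => R q.1 * (1 - q.2)) :=
    (hR.comp continuous_fst).mul (continuous_const.sub continuous_snd)
  exact (((hR.comp continuous_fst).mul (Real.continuous_cos.comp hr)).sub
    ((Real.continuous_sin.comp hr).div_const 2)).mul hsrc

end joint

/-! ### majorant rules -/

section maj

open Pool.Agent.SCH

variable {ρ c M A A' B B' : ℝ} {a b : ℕ} {f f2 v v2 : ℝ → ℝ}

theorem mj_sv (hρ : 0 < ρ) (hb : 2 ≤ b) (hc : Continuous (src ρ c f v))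
    (hc2 : Continuous (src ρ c f2 v2))
    (HA : ∀ s : ℝ, 0 < s → s ≤ 1 → Mj M (A * s ^ a) (A' * s ^ a) (f s) (f2 s))
    (HB : ∀ s : ℝ, 0 < s → s ≤ 1 → Mj M (B * s ^ b) (B' * s ^ b) (v s) (v2 s))
    {r : ℝ} (hr : 0 < r) (hr1 : r ≤ 1) :
    Mj M (ρ ^ 2 * A * r ^ (a + 2) / (((a : ℝ) + 3 / 2) * ((a : ℝ) + 5 / 2)) +
        |c| * B * r ^ b / (((b : ℝ) - 1 / 2) * ((b : ℝ) + 1 / 2)))
      (ρ ^ 2 * A' * r ^ (a + 2) / (((a : ℝ) + 3 / 2) * ((a : ℝ) + 5 / 2)) +
        |c| * B' * r ^ b / (((b : ℝ) - 1 / 2) * ((b : ℝ) + 1 / 2)))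
      (SV ρ c f v r) (SV ρ c f2 v2 r) := by
  refine ⟨abs_SV_le hρ hb hc (fun s h1 h2 => (HA s h1 h2).l) (fun s h1 h2 => (HB s h1 h2).l) hr hr1,
    abs_SV_le hρ hb hc2 (fun s h1 h2 => (HA s h1 h2).r) (fun s h1 h2 => (HB s h1 h2).r) hr hr1, ?_⟩
  rw [← SV_sub hc hc2]
  have hcs : Continuous (src ρ c (fun s => f s - f2 s) (fun s => v s - v2 s)) :=
    (hc.sub hc2).congr fun s => (src_sub s).symm
  refine (abs_SV_le (A := M * A') (B := M * B') hρ hb hcs
    (fun s h1 h2 => (HA s h1 h2).d.trans (le_of_eq (by ring)))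
    (fun s h1 h2 => (HB s h1 h2).d.trans (le_of_eq (by ring))) hr hr1).trans (le_of_eq (by ring))

theorem mj_sv1 (hρ : 0 < ρ) (hb : 2 ≤ b) (hc : Continuous (src ρ c f v))
    (hc2 : Continuous (src ρ c f2 v2))
    (HA : ∀ s : ℝ, 0 < s → s ≤ 1 → Mj M (A * s ^ a) (A' * s ^ a) (f s) (f2 s))
    (HB : ∀ s : ℝ, 0 < s → s ≤ 1 → Mj M (B * s ^ b) (B' * s ^ b) (v s) (v2 s)) :
    Mj M (√(1 + (1 / (2 * ρ)) ^ 2) *
        (ρ ^ 2 * A / ((a : ℝ) + 3 / 2) + |c| * B / ((b : ℝ) - 1 / 2)))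
      (√(1 + (1 / (2 * ρ)) ^ 2) *
        (ρ ^ 2 * A' / ((a : ℝ) + 3 / 2) + |c| * B' / ((b : ℝ) - 1 / 2)))
      (SV' ρ c f v 1) (SV' ρ c f2 v2 1) := by
  refine ⟨abs_SV'_one_le hρ hb hc (fun s h1 h2 => (HA s h1 h2).l) (fun s h1 h2 => (HB s h1 h2).l),
    abs_SV'_one_le hρ hb hc2 (fun s h1 h2 => (HA s h1 h2).r) (fun s h1 h2 => (HB s h1 h2).r), ?_⟩
  rw [← SV'_sub hc hc2]
  have hcs : Continuous (src ρ c (fun s => f s - f2 s) (fun s => v s - v2 s)) :=
    (hc.sub hc2).congr fun s => (src_sub s).symm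
  refine (abs_SV'_one_le (A := M * A') (B := M * B') hρ hb hcs
    (fun s h1 h2 => (HA s h1 h2).d.trans (le_of_eq (by ring)))
    (fun s h1 h2 => (HB s h1 h2).d.trans (le_of_eq (by ring)))).trans (le_of_eq (by ring))

/-- source with the factor `1 - s^N` -/
theorem mj_sv1_sub {N : ℕ} (hρ : 0 < ρ) (hb : 2 ≤ b) (hc : Continuous (src ρ c f v))
    (hc2 : Continuous (src ρ c f2 v2))
    (HA : ∀ s : ℝ, 0 < s → s ≤ 1 →
      Mj M (A * (s ^ a * (1 - s ^ N))) (A' * (s ^ a * (1 - s ^ N))) (f s) (f2 s))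
    (HB : ∀ s : ℝ, 0 < s → s ≤ 1 → Mj M (B * s ^ b) (B' * s ^ b) (v s) (v2 s)) :
    Mj M (√(1 + (1 / (2 * ρ)) ^ 2) *
        (ρ ^ 2 * A * (N / (((a : ℝ) + 3 / 2) * ((a : ℝ) + N + 3 / 2)))
          + |c| * B / ((b : ℝ) - 1 / 2)))
      (√(1 + (1 / (2 * ρ)) ^ 2) *
        (ρ ^ 2 * A' * (N / (((a : ℝ) + 3 / 2) * ((a : ℝ) + N + 3 / 2)))
          + |c| * B' / ((b : ℝ) - 1 / 2)))
      (SV' ρ c f v 1) (SV' ρ c f2 v2 1) := by
  refine ⟨abs_SV'_one_le_sub hρ hb hc (fun s h1 h2 => (HA s h1 h2).l)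
      (fun s h1 h2 => (HB s h1 h2).l),
    abs_SV'_one_le_sub hρ hb hc2 (fun s h1 h2 => (HA s h1 h2).r)
      (fun s h1 h2 => (HB s h1 h2).r), ?_⟩
  rw [← SV'_sub hc hc2]
  have hcs : Continuous (src ρ c (fun s => f s - f2 s) (fun s => v s - v2 s)) :=
    (hc.sub hc2).congr fun s => (src_sub s).symm
  refine (abs_SV'_one_le_sub (A := M * A') (B := M * B') (N := N) hρ hb hcs
    (fun s h1 h2 => (HA s h1 h2).d.trans (le_of_eq (by ring)))
    (fun s h1 h2 => (HB s h1 h2).d.trans (le_of_eq (by ring)))).trans (le_of_eq (by ring))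

/-- decomposition of the derivative functional: the source may be split into parts with different
majorants, because `SV'` is additive in `(f, v)` -/
theorem SV'_add (h : Continuous (src ρ c f v)) (h2 : Continuous (src ρ c f2 v2)) (r : ℝ) :
    SV' ρ c (fun s => f s + f2 s) (fun s => v s + v2 s) r = SV' ρ c f v r + SV' ρ c f2 v2 r := by
  have e1 : src ρ c (fun s => -f2 s) (fun s => -v2 s) = fun s => -src ρ c f2 v2 s := by
    funext s; unfold src; ring
  have h3 : Continuous (src ρ c (fun s => -f2 s) (fun s => -v2 s)) := by rw [e1]; exact h2.neg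
  have h4 := SV'_sub h h3 r
  have e2 : (fun s => f s - -f2 s) = fun s => f s + f2 s := by funext s; ring
  have e3 : (fun s => v s - -v2 s) = fun s => v s + v2 s := by funext s; ring
  rw [e2, e3] at h4
  have e4 : SV' ρ c (fun s => -f2 s) (fun s => -v2 s) r = -SV' ρ c f2 v2 r := by
    have h5 : Continuous (src ρ c (fun s => f2 s - f2 s) (fun s => v2 s - v2 s)) :=
      (h2.sub h2).congr fun s => (src_sub s).symm
    have h6 := SV'_sub h5 h2 r
    have h7 := SV'_sub h2 h2 r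
    have e5 : (fun s => f2 s - f2 s - f2 s) = fun s => -f2 s := by funext s; ring
    have e6 : (fun s => v2 s - v2 s - v2 s) = fun s => -v2 s := by funext s; ring
    rw [e5, e6] at h6
    rw [h6, h7]; ring
  rw [h4, e4]; ring

end maj

end

end SCHR
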