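import Pool.Agent.MP_83fd13_an.SCH.PMaj
import Pool.Agent.MP_83fd13_an.SCH.Sin5
import Pool.Agent.MP_83fd13_an.SCH.SinR

set_option autoImplicit false

/-!
# Row rules for the reflective majorants (project SCH)

If `|f s| ≤ s^p L(s)` with `L : TL` then the operators of the `T`-map applied to `f` are bounded by
the explicit row sums `L.row κa κb κc`.
-/

noncomputable section

namespace Pool.Agent.SCH

open Set Filter Topology MeasureTheory intervalIntegral SCHS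

/-- `∑ i, (l_i / 10⁸) κ i` -/
def Dot (κ : ℕ → ℝ) : List ℕ → ℝ
  | [] => 0
  | a :: l => (a : ℝ) / UU * κ 0 + Dot (fun i => κ (i + 1)) l

theorem Dot_nonneg : ∀ (l : List ℕ) (κ : ℕ → ℝ), (∀ i, 0 ≤ κ i) → 0 ≤ Dot κ l
  | [], _, _ => le_rfl
  | _ :: l, _, h => add_nonneg (mul_nonneg (div_nonneg (Nat.cast_nonneg _) UU_pos.le) (h 0))
      (Dot_nonneg l _ fun i => h (i + 1))

theorem Dot_mono : ∀ (l : List ℕ) (κ κ' : ℕ → ℝ), (∀ i, κ i ≤ κ' i) → Dot κ l ≤ Dot κ' l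
  | [], _, _, _ => le_rfl
  | _ :: l, _, _, h => add_le_add
      (mul_le_mul_of_nonneg_left (h 0) (div_nonneg (Nat.cast_nonneg _) UU_pos.le))
      (Dot_mono l _ _ fun i => h (i + 1))

theorem Dot_mul (c : ℝ) : ∀ (l : List ℕ) (κ : ℕ → ℝ), Dot (fun i => c * κ i) l = c * Dot κ l
  | [], _ => by simp [Dot]
  | a :: l, κ => by
    simp only [Dot]
    rw [Dot_mul c l fun i => κ (i + 1)]
    ring

theorem Dot_add (κ κ' : ℕ → ℝ) (l : List ℕ) :
    Dot (fun i => κ i + κ' i) l = Dot κ l + Dot κ' l := by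
  induction l generalizing κ κ' with
  | nil => simp [Dot]
  | cons a l ih =>
    simp only [Dot]
    rw [ih (fun i => κ (i + 1)) fun i => κ' (i + 1)]
    ring

/-- row value of a triple -/
def TL.row (κa κb κc : ℕ → ℝ) (L : TL) : ℝ := Dot κa L.a + Dot κb L.b + Dot κc L.c

theorem TL.row_nonneg {κa κb κc : ℕ → ℝ} (ha : ∀ i, 0 ≤ κa i) (hb : ∀ i, 0 ≤ κb i)
    (hc : ∀ i, 0 ≤ κc i) (L : TL) : 0 ≤ L.row κa κb κc :=
  add_nonneg (add_nonneg (Dot_nonneg _ _ ha) (Dot_nonneg _ _ hb)) (Dot_nonneg _ _ hc)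

/-! ### clamping -/

theorem clamp_abs {A x : ℝ} (hA : 0 ≤ A) : |max (-A) (min A x)| ≤ A := by
  rw [abs_le]
  exact ⟨le_max_left _ _, max_le (by linarith) (min_le_left _ _)⟩

theorem clamp_rest {A B x : ℝ} (hA : 0 ≤ A) (hB : 0 ≤ B) (h : |x| ≤ A + B) :
    |x - max (-A) (min A x)| ≤ B := by
  rw [abs_le] at h ⊢
  rcases le_total A x with h1 | h1
  · rw [min_eq_left h1, max_eq_right (by linarith)]
    constructor <;> linarith [h.1, h.2]
  · rw [min_eq_right h1]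
    rcases le_total (-A) x with h2 | h2
    · rw [max_eq_right h2]
      constructor <;> linarith
    · rw [max_eq_left h2]
      constructor <;> linarith [h.1, h.2]

theorem clamp_cont {A f : ℝ → ℝ} (hA : Continuous A) (hf : ContinuousOn f (Ioi 0)) :
    ContinuousOn (fun s => max (-A s) (min (A s) (f s))) (Ioi 0) :=
  continuous_max.comp_continuousOn (hA.neg.continuousOn.prodMk
    (continuous_min.comp_continuousOn (hA.continuousOn.prodMk hf)))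

/-! ### domination -/

section dom

variable {p0 : ℕ} {Φ : (ℝ → ℝ) → ℝ}

/-- additivity on the functions `O(s^p0)` -/
def AddOn (p0 : ℕ) (Φ : (ℝ → ℝ) → ℝ) : Prop :=
  ∀ (f g : ℝ → ℝ) (C D : ℝ), Wt p0 C f → Wt p0 D g → Φ (fun s => f s + g s) = Φ f + Φ g

/-- bound on atoms -/
def Atom (Φ : (ℝ → ℝ) → ℝ) (ω : ℝ → ℝ) (q : ℕ) (κ : ℕ → ℝ) : Prop :=
  ∀ (i : ℕ) (C : ℝ) (f : ℝ → ℝ), 0 ≤ C → ContinuousOn f (Ioi 0) →
    (∀ s : ℝ, 0 < s → s ≤ 1 → |f s| ≤ C * (ω s * s ^ (q + 42 * i))) → |Φ f| ≤ C * κ i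

theorem pow_le_pow_p0 {q : ℕ} (hq : p0 ≤ q) {s : ℝ} (hs : 0 < s) (hs1 : s ≤ 1) :
    s ^ q ≤ s ^ p0 := pow_le_pow_of_le_one hs.le hs1 hq

theorem dom_list (hadd : AddOn p0 Φ) {ω : ℝ → ℝ} (hω : Continuous ω)
    (hω0 : ∀ s : ℝ, 0 < s → s ≤ 1 → 0 ≤ ω s) (hω1 : ∀ s : ℝ, 0 < s → s ≤ 1 → ω s ≤ 1)
    {m : ℝ} (hm : 0 ≤ m) (l : List ℕ) : ∀ (q : ℕ) (κ : ℕ → ℝ), p0 ≤ q → Atom Φ ω q κ →
    ∀ f : ℝ → ℝ, ContinuousOn f (Ioi 0) →
      (∀ s : ℝ, 0 < s → s ≤ 1 → |f s| ≤ m * (ω s * (s ^ q * Ev l (s ^ 42)))) →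
      |Φ f| ≤ m * Dot κ l := by
  induction l with
  | nil =>
    intro q κ hq hat f hf hb
    have := hat 0 0 f le_rfl hf (fun s hs hs1 => (hb s hs hs1).trans (by simp [Ev]))
    simpa [Dot] using this
  | cons a l ih =>
    intro q κ hq hat f hf hb
    set c : ℝ := m * ((a : ℝ) / UU) with hc
    have hc0 : 0 ≤ c := mul_nonneg hm (div_nonneg (Nat.cast_nonneg _) UU_pos.le)
    let A : ℝ → ℝ := fun s => c * (ω s * s ^ q)
    have hA : Continuous A := continuous_const.mul (hω.mul (continuous_pow q))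
    have hA0 : ∀ s : ℝ, 0 < s → s ≤ 1 → 0 ≤ A s := fun s hs hs1 =>
      mul_nonneg hc0 (mul_nonneg (hω0 s hs hs1) (pow_nonneg hs.le q))
    let f1 : ℝ → ℝ := fun s => max (-A s) (min (A s) (f s))
    let f2 : ℝ → ℝ := fun s => f s - f1 s
    have hf1 : ContinuousOn f1 (Ioi 0) := clamp_cont hA hf
    have hf2 : ContinuousOn f2 (Ioi 0) := hf.sub hf1
    have b1 : ∀ s : ℝ, 0 < s → s ≤ 1 → |f1 s| ≤ c * (ω s * s ^ (q + 42 * 0)) := by
      intro s hs hs1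
      rw [mul_zero, add_zero]
      exact clamp_abs (hA0 s hs hs1)
    have b2 : ∀ s : ℝ, 0 < s → s ≤ 1 →
        |f2 s| ≤ m * (ω s * (s ^ (q + 42) * Ev l (s ^ 42))) := by
      intro s hs hs1
      have h0 : 0 ≤ s ^ 42 := pow_nonneg hs.le _
      refine clamp_rest (hA0 s hs hs1) ?_ ((hb s hs hs1).trans (le_of_eq ?_))
      · exact mul_nonneg hm (mul_nonneg (hω0 s hs hs1) (mul_nonneg (pow_nonneg hs.le _)
          (Ev_nonneg h0 l)))
      · show m * (ω s * (s ^ q * ((a : ℝ) / UU + s ^ 42 * Ev l (s ^ 42)))) = _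
        show _ = c * (ω s * s ^ q) + m * (ω s * (s ^ (q + 42) * Ev l (s ^ 42)))
        rw [hc, pow_add]
        ring
    have w1 : Wt p0 c f1 := ⟨hf1, fun s hs hs1 => (b1 s hs hs1).trans (by
      rw [mul_zero, add_zero]
      refine mul_le_mul_of_nonneg_left ?_ hc0
      calc ω s * s ^ q ≤ 1 * s ^ q :=
            mul_le_mul_of_nonneg_right (hω1 s hs hs1) (pow_nonneg hs.le _)
        _ ≤ s ^ p0 := by rw [one_mul]; exact pow_le_pow_p0 hq hs hs1)⟩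
    have w2 : Wt p0 (m * ((l.sum : ℕ) / UU)) f2 := ⟨hf2, fun s hs hs1 => (b2 s hs hs1).trans (by
      have h0 : 0 ≤ s ^ 42 := pow_nonneg hs.le _
      have h1 : s ^ 42 ≤ 1 := pow_le_one₀ hs.le hs1
      rw [mul_assoc]
      refine mul_le_mul_of_nonneg_left ?_ hm
      calc ω s * (s ^ (q + 42) * Ev l (s ^ 42)) ≤ 1 * (s ^ (q + 42) * Ev l (s ^ 42)) :=
            mul_le_mul_of_nonneg_right (hω1 s hs hs1) (mul_nonneg (pow_nonneg hs.le _)
              (Ev_nonneg h0 l))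
        _ = s ^ (q + 42) * Ev l (s ^ 42) := one_mul _
        _ ≤ s ^ p0 * ((l.sum : ℕ) / UU) := mul_le_mul (pow_le_pow_p0 (by omega) hs hs1)
            (Ev_le_sum h0 h1 l) (Ev_nonneg h0 l) (pow_nonneg hs.le _)
        _ = _ := by ring)⟩
    have e : f = fun s => f1 s + f2 s := by
      funext s
      show f s = f1 s + (f s - f1 s)
      ring
    have g1 := hat 0 c f1 hc0 hf1 b1
    have hat' : Atom Φ ω (q + 42) (fun i => κ (i + 1)) := by
      intro i C f hC hf hb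
      refine hat (i + 1) C f hC hf (fun s hs hs1 => (hb s hs hs1).trans (le_of_eq ?_))
      have : q + 42 + 42 * i = q + 42 * (i + 1) := by ring
      rw [this]
    have g2 := ih (q + 42) (fun i => κ (i + 1)) (by omega) hat' f2 hf2 b2
    rw [e, hadd f1 f2 _ _ w1 w2]
    refine (abs_add_le _ _).trans ((add_le_add g1 g2).trans (le_of_eq ?_))
    simp only [Dot]
    rw [hc]
    ring

theorem om1 (s : ℝ) (hs : 0 < s) (hs1 : s ≤ 1) : 0 ≤ 1 - s ∧ 1 - s ≤ 1 :=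
  ⟨by linarith, by linarith⟩

theorem om42 (s : ℝ) (hs : 0 < s) (hs1 : s ≤ 1) : 0 ≤ 1 - s ^ 42 ∧ 1 - s ^ 42 ≤ 1 :=
  ⟨by have := pow_le_one₀ (n := 42) hs.le hs1; linarith,
   by have := pow_nonneg hs.le 42; linarith⟩

theorem Ev_continuous (l : List ℕ) : Continuous (Ev l) := by
  induction l with
  | nil => exact continuous_const
  | cons a l ih =>
    show Continuous fun R => (a : ℝ) / UU + R * Ev l R
    exact continuous_const.add (continuous_id.mul ih)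

/-- domination by a triple -/
theorem dom_TL (hadd : AddOn p0 Φ) {κa κb κc : ℕ → ℝ} (ha : Atom Φ (fun _ => 1) p0 κa)
    (hb : Atom Φ (fun s => 1 - s) p0 κb) (hc : Atom Φ (fun s => 1 - s ^ 42) p0 κc)
    {m : ℝ} (hm : 0 ≤ m) (L : TL) {f : ℝ → ℝ} (hf : ContinuousOn f (Ioi 0))
    (hB : ∀ s : ℝ, 0 < s → s ≤ 1 → |f s| ≤ m * (s ^ p0 * L.ev s)) :
    |Φ f| ≤ m * L.row κa κb κc := by
  let A : ℝ → ℝ := fun s => m * (1 * (s ^ p0 * Ev L.a (s ^ 42)))
  let B : ℝ → ℝ := fun s => m * ((1 - s) * (s ^ p0 * Ev L.b (s ^ 42)))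
  let C : ℝ → ℝ := fun s => m * ((1 - s ^ 42) * (s ^ p0 * Ev L.c (s ^ 42)))
  have cA : Continuous A := continuous_const.mul (continuous_const.mul
    ((continuous_pow p0).mul ((Ev_continuous _).comp (continuous_pow 42))))
  have cB : Continuous B := continuous_const.mul ((continuous_const.sub continuous_id).mul
    ((continuous_pow p0).mul ((Ev_continuous _).comp (continuous_pow 42))))
  have nA : ∀ s : ℝ, 0 < s → s ≤ 1 → 0 ≤ A s := fun s hs hs1 =>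
    mul_nonneg hm (mul_nonneg zero_le_one (mul_nonneg (pow_nonneg hs.le _)
      (Ev_nonneg (pow_nonneg hs.le _) _)))
  have nB : ∀ s : ℝ, 0 < s → s ≤ 1 → 0 ≤ B s := fun s hs hs1 =>
    mul_nonneg hm (mul_nonneg (om1 s hs hs1).1 (mul_nonneg (pow_nonneg hs.le _)
      (Ev_nonneg (pow_nonneg hs.le _) _)))
  have nC : ∀ s : ℝ, 0 < s → s ≤ 1 → 0 ≤ C s := fun s hs hs1 =>
    mul_nonneg hm (mul_nonneg (om42 s hs hs1).1 (mul_nonneg (pow_nonneg hs.le _)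
      (Ev_nonneg (pow_nonneg hs.le _) _)))
  let f1 : ℝ → ℝ := fun s => max (-A s) (min (A s) (f s))
  let g : ℝ → ℝ := fun s => f s - f1 s
  let f2 : ℝ → ℝ := fun s => max (-B s) (min (B s) (g s))
  let f3 : ℝ → ℝ := fun s => g s - f2 s
  have hf1 : ContinuousOn f1 (Ioi 0) := clamp_cont cA hf
  have hg : ContinuousOn g (Ioi 0) := hf.sub hf1
  have hf2 : ContinuousOn f2 (Ioi 0) := clamp_cont cB hg
  have hf3 : ContinuousOn f3 (Ioi 0) := hg.sub hf2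
  have b1 : ∀ s : ℝ, 0 < s → s ≤ 1 → |f1 s| ≤ A s := fun s hs hs1 => clamp_abs (nA s hs hs1)
  have bg : ∀ s : ℝ, 0 < s → s ≤ 1 → |g s| ≤ B s + C s := fun s hs hs1 =>
    clamp_rest (nA s hs hs1) (add_nonneg (nB s hs hs1) (nC s hs hs1))
      ((hB s hs hs1).trans (le_of_eq (by
        show m * (s ^ p0 * (Ev L.a (s ^ 42) + (1 - s) * Ev L.b (s ^ 42)
          + (1 - s ^ 42) * Ev L.c (s ^ 42))) = _
        show _ = m * (1 * (s ^ p0 * Ev L.a (s ^ 42)))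
          + (m * ((1 - s) * (s ^ p0 * Ev L.b (s ^ 42)))
            + m * ((1 - s ^ 42) * (s ^ p0 * Ev L.c (s ^ 42))))
        ring)))
  have b2 : ∀ s : ℝ, 0 < s → s ≤ 1 → |f2 s| ≤ B s := fun s hs hs1 => clamp_abs (nB s hs hs1)
  have b3 : ∀ s : ℝ, 0 < s → s ≤ 1 → |f3 s| ≤ C s := fun s hs hs1 =>
    clamp_rest (nB s hs hs1) (nC s hs hs1) (bg s hs hs1)
  have wt : ∀ (ω : ℝ → ℝ) (l : List ℕ) (h : ℝ → ℝ), (∀ s : ℝ, 0 < s → s ≤ 1 → ω s ≤ 1) →
      ContinuousOn h (Ioi 0) →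
      (∀ s : ℝ, 0 < s → s ≤ 1 → |h s| ≤ m * (ω s * (s ^ p0 * Ev l (s ^ 42)))) →
      Wt p0 (m * ((l.sum : ℕ) / UU)) h := by
    intro ω l h hω hc hb
    refine ⟨hc, fun s hs hs1 => (hb s hs hs1).trans ?_⟩
    have h0 : 0 ≤ s ^ 42 := pow_nonneg hs.le _
    have h1 : s ^ 42 ≤ 1 := pow_le_one₀ hs.le hs1
    rw [mul_assoc]
    refine mul_le_mul_of_nonneg_left ?_ hm
    calc ω s * (s ^ p0 * Ev l (s ^ 42)) ≤ 1 * (s ^ p0 * Ev l (s ^ 42)) :=
          mul_le_mul_of_nonneg_right (hω s hs hs1) (mul_nonneg (pow_nonneg hs.le _)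
            (Ev_nonneg h0 l))
      _ = s ^ p0 * Ev l (s ^ 42) := one_mul _
      _ ≤ s ^ p0 * ((l.sum : ℕ) / UU) :=
          mul_le_mul_of_nonneg_left (Ev_le_sum h0 h1 l) (pow_nonneg hs.le _)
      _ = _ := by ring
  have w1 := wt (fun _ => 1) L.a f1 (fun _ _ _ => le_rfl) hf1 b1
  have w2 := wt (fun s => 1 - s) L.b f2 (fun s hs hs1 => (om1 s hs hs1).2) hf2 b2
  have w3 := wt (fun s => 1 - s ^ 42) L.c f3 (fun s hs hs1 => (om42 s hs hs1).2) hf3 b3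
  have wg : Wt p0 (m * ((L.b.sum : ℕ) / UU) + m * ((L.c.sum : ℕ) / UU)) g :=
    ⟨hg, fun s hs hs1 => by
      have e : g s = f2 s + f3 s := by show g s = f2 s + (g s - f2 s); ring
      rw [e, add_mul]
      exact (abs_add_le _ _).trans (add_le_add (w2.bound s hs hs1) (w3.bound s hs hs1))⟩
  have e1 : f = fun s => f1 s + g s := by
    funext s; show f s = f1 s + (f s - f1 s); ring
  have e2 : g = fun s => f2 s + f3 s := by
    funext s; show g s = f2 s + (g s - f2 s); ring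
  have r1 := dom_list hadd continuous_const (ω := fun _ => 1) (fun _ _ _ => zero_le_one)
    (fun _ _ _ => le_rfl) hm L.a p0 κa le_rfl ha f1 hf1 b1
  have r2 := dom_list hadd (continuous_const.sub continuous_id) (ω := fun s => 1 - s)
    (fun s hs hs1 => (om1 s hs hs1).1) (fun s hs hs1 => (om1 s hs hs1).2) hm L.b p0 κb le_rfl hb
    f2 hf2 b2
  have r3 := dom_list hadd (continuous_const.sub (continuous_pow 42)) (ω := fun s => 1 - s ^ 42)
    (fun s hs hs1 => (om42 s hs hs1).1) (fun s hs hs1 => (om42 s hs hs1).2) hm L.c p0 κc le_rfl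
    hc f3 hf3 b3
  have hgΦ : Φ g = Φ f2 + Φ f3 := by
    conv_lhs => rw [e2]
    exact hadd f2 f3 _ _ w2 w3
  have hfΦ : Φ f = Φ f1 + Φ g := by
    conv_lhs => rw [e1]
    exact hadd f1 g _ _ w1 wg
  rw [hfΦ, hgΦ]
  refine (abs_add_le _ _).trans ((add_le_add r1 ((abs_add_le _ _).trans
    (add_le_add r2 r3))).trans (le_of_eq ?_))
  unfold TL.row
  ring

/-- the majorant rule for an additive functional -/
theorem mj_dom (hadd : AddOn p0 Φ) {κa κb κc : ℕ → ℝ} (ha : Atom Φ (fun _ => 1) p0 κa)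
    (hb : Atom Φ (fun s => 1 - s) p0 κb) (hc : Atom Φ (fun s => 1 - s ^ 42) p0 κc)
    {M : ℝ} (hM : 0 ≤ M) (p : PL) {f g : ℝ → ℝ} (hf : ContinuousOn f (Ioi 0))
    (hg : ContinuousOn g (Ioi 0))
    (H : ∀ s : ℝ, 0 < s → s ≤ 1 → Mj M (s ^ p0 * p.v.ev s) (s ^ p0 * p.d.ev s) (f s) (g s)) :
    Mj M (p.v.row κa κb κc) (p.d.row κa κb κc) (Φ f) (Φ g) := by
  have h1 : ∀ {h : ℝ → ℝ}, ContinuousOn h (Ioi 0) →
      (∀ s : ℝ, 0 < s → s ≤ 1 → |h s| ≤ s ^ p0 * p.v.ev s) → |Φ h| ≤ p.v.row κa κb κc := by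
    intro h hh hb'
    have := dom_TL hadd ha hb hc zero_le_one p.v hh (fun s hs hs1 => by
      rw [one_mul]; exact hb' s hs hs1)
    rwa [one_mul] at this
  have bd : ∀ (L : TL) (m : ℝ) (h : ℝ → ℝ), 0 ≤ m → ContinuousOn h (Ioi 0) →
      (∀ s : ℝ, 0 < s → s ≤ 1 → |h s| ≤ m * (s ^ p0 * L.ev s)) →
      Wt p0 (m * ((L.tot.sum : ℕ) / UU)) h := by
    intro L m h hm hc hb
    refine ⟨hc, fun s hs hs1 => (hb s hs hs1).trans ?_⟩
    have h0 : 0 ≤ s ^ 42 := pow_nonneg hs.le _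
    have h1 : s ^ 42 ≤ 1 := pow_le_one₀ hs.le hs1
    rw [mul_assoc]
    refine mul_le_mul_of_nonneg_left ?_ hm
    rw [mul_comm]
    exact mul_le_mul_of_nonneg_right ((L.ev_le_tot hs.le hs1).trans (Ev_le_sum h0 h1 _))
      (pow_nonneg hs.le _)
  have hd : ContinuousOn (fun s => f s - g s) (Ioi 0) := hf.sub hg
  have hdb : ∀ s : ℝ, 0 < s → s ≤ 1 → |f s - g s| ≤ M * (s ^ p0 * p.d.ev s) :=
    fun s hs hs1 => (H s hs hs1).d
  refine ⟨h1 hf fun s hs hs1 => (H s hs hs1).l, h1 hg fun s hs hs1 => (H s hs hs1).r, ?_⟩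
  have h2 := dom_TL hadd ha hb hc hM p.d hd hdb
  have e : f = fun s => g s + (f s - g s) := by funext s; ring
  have h3 : Φ f = Φ g + Φ (fun s => f s - g s) := by
    conv_lhs => rw [e]
    exact hadd g _ _ _ (bd p.v 1 g zero_le_one hg fun s hs hs1 => by
      rw [one_mul]; exact (H s hs hs1).r) (bd p.d M _ hM hd hdb)
  rw [h3, add_sub_cancel_left]
  exact h2

end dom

/-! ### the functional `∫₀¹ s^(n+1) f` -/

section int

variable {n p : ℕ}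

theorem addOn_int : AddOn p (fun f => ∫ s in (0:ℝ)..1, s ^ (n + 1) * f s) := by
  intro f g C D hf hg
  show ∫ s in (0:ℝ)..1, s ^ (n + 1) * (f s + g s) = _
  rw [← intervalIntegral.integral_add (hf.ii_hi n le_rfl zero_le_one)
    (hg.ii_hi n le_rfl zero_le_one)]
  congr 1
  funext s
  ring

/-- kernels of the functional -/
def ka (n p : ℕ) (i : ℕ) : ℝ := 1 / ((n : ℝ) + p + 42 * i + 2)
def kb (n p : ℕ) (i : ℕ) : ℝ := 1 / (((n : ℝ) + p + 42 * i + 2) * ((n : ℝ) + p + 42 * i + 3))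
def kc (n p : ℕ) (i : ℕ) : ℝ := 42 / (((n : ℝ) + p + 42 * i + 2) * ((n : ℝ) + p + 42 * i + 44))

theorem atom_int_a : Atom (fun f => ∫ s in (0:ℝ)..1, s ^ (n + 1) * f s) (fun _ => 1) p
    (ka n p) := by
  intro i C f hC hf hb
  have h := int_abs_le_pow (n := n) (p := p + 42 * i) (C := C) (f := f)
    ⟨hf, fun s hs hs1 => (hb s hs hs1).trans (by rw [one_mul])⟩
  refine h.trans (le_of_eq ?_)
  unfold ka
  push_cast
  rw [mul_one_div]
  congr 1
  ring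

theorem atom_int_b : Atom (fun f => ∫ s in (0:ℝ)..1, s ^ (n + 1) * f s) (fun s => 1 - s) p
    (kb n p) := by
  intro i C f hC hf hb
  have h := int_abs_le_sub (n := n) (p := p + 42 * i) (N := 1) (C := C) (f := f) hf
    (fun s hs hs1 => (hb s hs hs1).trans (le_of_eq (by rw [pow_one]; ring))) hC
  refine h.trans (le_of_eq ?_)
  unfold kb
  push_cast
  congr 3 <;> ring

theorem atom_int_c : Atom (fun f => ∫ s in (0:ℝ)..1, s ^ (n + 1) * f s) (fun s => 1 - s ^ 42) p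
    (kc n p) := by
  intro i C f hC hf hb
  have h := int_abs_le_sub (n := n) (p := p + 42 * i) (N := 42) (C := C) (f := f) hf
    (fun s hs hs1 => (hb s hs hs1).trans (le_of_eq (by ring))) hC
  refine h.trans (le_of_eq ?_)
  unfold kc
  push_cast
  congr 3 <;> ring

/-- **row rule for the functional** -/
theorem row_int {M : ℝ} (hM : 0 ≤ M) (P : PL) {f g : ℝ → ℝ} (hf : ContinuousOn f (Ioi 0))
    (hg : ContinuousOn g (Ioi 0))
    (H : ∀ s : ℝ, 0 < s → s ≤ 1 → Mj M (s ^ p * P.v.ev s) (s ^ p * P.d.ev s) (f s) (g s)) :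
    Mj M (P.v.row (ka n p) (kb n p) (kc n p)) (P.d.row (ka n p) (kb n p) (kc n p))
      (∫ s in (0:ℝ)..1, s ^ (n + 1) * f s) (∫ s in (0:ℝ)..1, s ^ (n + 1) * g s) :=
  mj_dom addOn_int atom_int_a atom_int_b atom_int_c hM P hf hg H

end int

/-! ### the kernel `Gr n` -/

section gr

variable {n p : ℕ} {r : ℝ}

/-- universal kernel bound (all three types) -/
def kG (n p : ℕ) (i : ℕ) : ℝ := 1 / (42 * ((n : ℝ) + p + 42 * i + 2))

theorem atom_gr (hn : 42 ≤ n) (hp : n ≤ p + 42) (hr : 0 < r) (hr1 : r ≤ 1) {ω : ℝ → ℝ}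
    (hω1 : ∀ s : ℝ, 0 < s → s ≤ 1 → ω s ≤ 1) :
    Atom (fun f => Gr n f r) ω p (fun i => r ^ (n - 42) * (1 - r ^ 42) * kG n p i) := by
  intro i C f hC hf hb
  have h := Gr_univ (n := n) (p := p + 42 * i) (N := 42) (C := C) (f := f) (by norm_num) hn
    (by omega) ⟨hf, fun s hs hs1 => (hb s hs hs1).trans (mul_le_mul_of_nonneg_left (by
      calc ω s * s ^ (p + 42 * i) ≤ 1 * s ^ (p + 42 * i) :=
            mul_le_mul_of_nonneg_right (hω1 s hs hs1) (pow_nonneg hs.le _)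
        _ = _ := one_mul _) hC)⟩ hr hr1
  refine h.trans (le_of_eq ?_)
  unfold kG
  have e : (n : ℝ) + ((p + 42 * i : ℕ) : ℝ) + 2 = (n : ℝ) + p + 42 * i + 2 := by push_cast; ring
  rw [e]
  push_cast
  ring

/-- **row rule for `Gr`** -/
theorem row_gr (hn : 42 ≤ n) (hp : n ≤ p + 42) {M : ℝ} (hM : 0 ≤ M) (P : PL) {f g : ℝ → ℝ}
    (hf : ContinuousOn f (Ioi 0)) (hg : ContinuousOn g (Ioi 0))
    (H : ∀ s : ℝ, 0 < s → s ≤ 1 → Mj M (s ^ p * P.v.ev s) (s ^ p * P.d.ev s) (f s) (g s))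
    (hr : 0 < r) (hr1 : r ≤ 1) :
    Mj M (r ^ (n - 42) * (1 - r ^ 42) * P.v.row (kG n p) (kG n p) (kG n p))
      (r ^ (n - 42) * (1 - r ^ 42) * P.d.row (kG n p) (kG n p) (kG n p)) (Gr n f r) (Gr n g r) := by
  have hadd : AddOn p (fun f => Gr n f r) := fun f g C D hf hg => Gr_add hf hg hr
  have h := mj_dom (Φ := fun f => Gr n f r) hadd
    (atom_gr hn hp hr hr1 (ω := fun _ => 1) (fun _ _ _ => le_rfl))
    (atom_gr hn hp hr hr1 (ω := fun s => 1 - s) (fun s hs hs1 => (om1 s hs hs1).2))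
    (atom_gr hn hp hr hr1 (ω := fun s => 1 - s ^ 42) (fun s hs hs1 => (om42 s hs hs1).2))
    hM P hf hg H
  refine h.congr rfl rfl ?_ ?_ <;>
  · unfold TL.row
    rw [Dot_mul, Dot_mul, Dot_mul]
    ring

end gr

/-! ### the sine kernel -/

section sv

variable {ρ c : ℝ} {p b : ℕ} {r : ℝ}

theorem wt_zero (b : ℕ) : Wt b 0 (fun _ => (0:ℝ)) :=
  ⟨continuousOn_const, fun s _ _ => by simp⟩

theorem addOn_SV (r : ℝ) : AddOn p (fun f => SV ρ c f (fun _ => 0) r) := by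
  intro f g C D hf hg
  have c1 := src_continuous_wt (ρ := ρ) (c := c) hf (wt_zero 2) le_rfl
  have c2 := src_continuous_wt (ρ := ρ) (c := c) hg (wt_zero 2) le_rfl
  have hfg : Wt p (C + D) (fun s => f s + g s) := ⟨hf.cont.add hg.cont, fun s hs hs1 => by
    rw [add_mul]; exact (abs_add_le _ _).trans (add_le_add (hf.bound s hs hs1) (hg.bound s hs hs1))⟩
  have c3 := src_continuous_wt (ρ := ρ) (c := c) hfg (wt_zero 2) le_rfl
  have h := SCHR.SV_sub c3 c2 r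
  have e : (fun s => f s + g s - g s) = f := by funext s; ring
  have e0 : (fun s : ℝ => (0:ℝ) - 0) = fun _ => 0 := by funext s; ring
  rw [e, e0] at h
  show SV ρ c (fun s => f s + g s) (fun _ => 0) r = _
  linarith

theorem addOn_SV' (r : ℝ) : AddOn p (fun f => SV' ρ c f (fun _ => 0) r) := by
  intro f g C D hf hg
  have c1 := src_continuous_wt (ρ := ρ) (c := c) hf (wt_zero 2) le_rfl
  have c2 := src_continuous_wt (ρ := ρ) (c := c) hg (wt_zero 2) le_rfl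
  have hfg : Wt p (C + D) (fun s => f s + g s) := ⟨hf.cont.add hg.cont, fun s hs hs1 => by
    rw [add_mul]; exact (abs_add_le _ _).trans (add_le_add (hf.bound s hs hs1) (hg.bound s hs hs1))⟩
  have c3 := src_continuous_wt (ρ := ρ) (c := c) hfg (wt_zero 2) le_rfl
  have h := SCHR.SV'_sub c3 c2 r
  have e : (fun s => f s + g s - g s) = f := by funext s; ring
  have e0 : (fun s : ℝ => (0:ℝ) - 0) = fun _ => 0 := by funext s; ring
  rw [e, e0] at h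
  show SV' ρ c (fun s => f s + g s) (fun _ => 0) r = _
  linarith

/-- sup kernel of the sine operator (without `ρ²`) -/
def kS (p : ℕ) (i : ℕ) : ℝ := 1 / (((p : ℝ) + 42 * i + 3 / 2) * ((p : ℝ) + 42 * i + 5 / 2))

theorem atom_SV (hρ : 0 < ρ) (hr : 0 < r) (hr1 : r ≤ 1) {ω : ℝ → ℝ}
    (hω1 : ∀ s : ℝ, 0 < s → s ≤ 1 → ω s ≤ 1) :
    Atom (fun f => SV ρ c f (fun _ => 0) r) ω p (fun i => r ^ p * ρ ^ 2 * kS p i) := by
  intro i C f hC hf hb
  have hb' : ∀ s : ℝ, 0 < s → s ≤ 1 → |f s| ≤ C * s ^ (p + 42 * i) := fun s hs hs1 =>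
    (hb s hs hs1).trans (mul_le_mul_of_nonneg_left (by
      calc ω s * s ^ (p + 42 * i) ≤ 1 * s ^ (p + 42 * i) :=
            mul_le_mul_of_nonneg_right (hω1 s hs hs1) (pow_nonneg hs.le _)
        _ = _ := one_mul _) hC)
  have hc := src_continuous_wt (ρ := ρ) (c := c) (b := 2) (D := 0) ⟨hf, hb'⟩ (wt_zero 2) le_rfl
  have h := SCHR.abs_SV_le (b := 2) (B := 0) hρ le_rfl hc hb' (fun s _ _ => by simp) hr hr1
  refine h.trans ?_
  have h1 : r ^ (p + 42 * i + 2) ≤ r ^ p := pow_le_pow_of_le_one hr.le hr1 (by omega)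
  have hd : 0 < (((p + 42 * i : ℕ) : ℝ) + 3 / 2) * (((p + 42 * i : ℕ) : ℝ) + 5 / 2) := by
    positivity
  have h2 : ρ ^ 2 * C * r ^ (p + 42 * i + 2) /
      ((((p + 42 * i : ℕ) : ℝ) + 3 / 2) * (((p + 42 * i : ℕ) : ℝ) + 5 / 2)) ≤
      ρ ^ 2 * C * r ^ p /
      ((((p + 42 * i : ℕ) : ℝ) + 3 / 2) * (((p + 42 * i : ℕ) : ℝ) + 5 / 2)) :=
    div_le_div_of_nonneg_right (mul_le_mul_of_nonneg_left h1 (by positivity)) hd.le
  have h3 : |c| * 0 * r ^ 2 / (((2 : ℕ) : ℝ) - 1 / 2) / (((2 : ℕ) : ℝ) + 1 / 2) = 0 := by simp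
  calc _ ≤ ρ ^ 2 * C * r ^ p /
      ((((p + 42 * i : ℕ) : ℝ) + 3 / 2) * (((p + 42 * i : ℕ) : ℝ) + 5 / 2)) + 0 := by
        refine add_le_add h2 (le_of_eq ?_)
        simp
    _ = C * (r ^ p * ρ ^ 2 * kS p i) := by
        unfold kS
        push_cast
        rw [add_zero]
        ring

/-- **row rule for `SV`** -/
theorem row_SV (hρ : 0 < ρ) (hb : 2 ≤ b) {M : ℝ} (hM : 0 ≤ M) (P : PL) {B B' : ℝ}
    {f g v w : ℝ → ℝ} (hf : ContinuousOn f (Ioi 0)) (hg : ContinuousOn g (Ioi 0))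
    (hv : ContinuousOn v (Ioi 0)) (hw : ContinuousOn w (Ioi 0))
    (H : ∀ s : ℝ, 0 < s → s ≤ 1 → Mj M (s ^ p * P.v.ev s) (s ^ p * P.d.ev s) (f s) (g s))
    (HB : ∀ s : ℝ, 0 < s → s ≤ 1 → Mj M (B * s ^ b) (B' * s ^ b) (v s) (w s))
    (hr : 0 < r) (hr1 : r ≤ 1) :
    Mj M (r ^ p * ρ ^ 2 * P.v.row (kS p) (kS p) (kS p)
        + |c| * B * r ^ b / (((b : ℝ) - 1 / 2) * ((b : ℝ) + 1 / 2)))
      (r ^ p * ρ ^ 2 * P.d.row (kS p) (kS p) (kS p)
        + |c| * B' * r ^ b / (((b : ℝ) - 1 / 2) * ((b : ℝ) + 1 / 2)))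
      (SV ρ c f v r) (SV ρ c g w r) := by
  have h := mj_dom (Φ := fun f => SV ρ c f (fun _ => 0) r) (addOn_SV r)
    (atom_SV hρ hr hr1 (ω := fun _ => 1) (fun _ _ _ => le_rfl))
    (atom_SV hρ hr hr1 (ω := fun s => 1 - s) (fun s hs hs1 => (om1 s hs hs1).2))
    (atom_SV hρ hr hr1 (ω := fun s => 1 - s ^ 42) (fun s hs hs1 => (om42 s hs hs1).2))
    hM P hf hg H
  have h' : Mj M (r ^ p * ρ ^ 2 * P.v.row (kS p) (kS p) (kS p))
      (r ^ p * ρ ^ 2 * P.d.row (kS p) (kS p) (kS p)) (SV ρ c f (fun _ => 0) r)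
      (SV ρ c g (fun _ => 0) r) := by
    refine h.congr rfl rfl ?_ ?_ <;>
    · unfold TL.row
      rw [Dot_mul, Dot_mul, Dot_mul]
      ring
  have wv : Wt b B v := ⟨hv, fun s hs hs1 => (HB s hs hs1).l⟩
  have ww : Wt b B w := ⟨hw, fun s hs hs1 => (HB s hs hs1).r⟩
  have cv := src_continuous_wt (ρ := ρ) (c := c) (a := 0) (C := 0) (f := fun _ => 0)
    ⟨continuousOn_const, fun s _ _ => by simp⟩ wv hb
  have cw := src_continuous_wt (ρ := ρ) (c := c) (a := 0) (C := 0) (f := fun _ => 0)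
    ⟨continuousOn_const, fun s _ _ => by simp⟩ ww hb
  have k := SCHR.mj_sv (a := 0) (A := 0) (A' := 0) hρ hb cv cw (fun s _ _ =>
    (Mj.zero M).congr rfl rfl (by simp) (by simp)) HB hr hr1
  have bdP : ∀ (L : TL) (m : ℝ) (h : ℝ → ℝ), 0 ≤ m → ContinuousOn h (Ioi 0) →
      (∀ s : ℝ, 0 < s → s ≤ 1 → |h s| ≤ m * (s ^ p * L.ev s)) →
      Wt p (m * ((L.tot.sum : ℕ) / UU)) h := by
    intro L m h hm hc hb
    refine ⟨hc, fun s hs hs1 => (hb s hs hs1).trans ?_⟩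
    have h0 : 0 ≤ s ^ 42 := pow_nonneg hs.le _
    have h1 : s ^ 42 ≤ 1 := pow_le_one₀ hs.le hs1
    rw [mul_assoc]
    refine mul_le_mul_of_nonneg_left ?_ hm
    rw [mul_comm]
    exact mul_le_mul_of_nonneg_right ((L.ev_le_tot hs.le hs1).trans (Ev_le_sum h0 h1 _))
      (pow_nonneg hs.le _)
  have split : ∀ (f v : ℝ → ℝ), ContinuousOn f (Ioi 0) → Wt b B v →
      (∀ s : ℝ, 0 < s → s ≤ 1 → |f s| ≤ s ^ p * P.v.ev s) →
      SV ρ c f v r = SV ρ c f (fun _ => 0) r + SV ρ c (fun _ => 0) v r := by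
    intro f v hf hv hb'
    have wf := bdP P.v 1 f zero_le_one hf fun s hs hs1 => by rw [one_mul]; exact hb' s hs hs1
    have c1 := src_continuous_wt (ρ := ρ) (c := c) wf hv hb
    have c2 := src_continuous_wt (ρ := ρ) (c := c) (a := 0) (C := 0) (f := fun _ => 0)
      ⟨continuousOn_const, fun s _ _ => by simp⟩ hv hb
    have h := SCHR.SV_sub c1 c2 r
    have e : (fun s => f s - (0:ℝ)) = f := by funext s; ring
    have e0 : (fun s => v s - v s) = fun _ => (0:ℝ) := by funext s; ring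
    rw [e, e0] at h
    linarith
  have hfin := h'.add k
  refine hfin.congr ?_ ?_ ?_ ?_
  · exact (split f v hf wv fun s hs hs1 => (H s hs hs1).l).symm
  · exact (split g w hg ww fun s hs hs1 => (H s hs hs1).r).symm
  · simp
  · simp

/-- kernels of the derivative at `1` (without the factor `√(1 + 1/(4ρ²)) ρ²`) -/
def kDa (p : ℕ) (i : ℕ) : ℝ := 1 / ((p : ℝ) + 42 * i + 3 / 2)
def kDb (p : ℕ) (i : ℕ) : ℝ := 1 / (((p : ℝ) + 42 * i + 3 / 2) * ((p : ℝ) + 42 * i + 5 / 2))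
def kDc (p : ℕ) (i : ℕ) : ℝ := 42 / (((p : ℝ) + 42 * i + 3 / 2) * ((p : ℝ) + 42 * i + 87 / 2))

theorem atom_SV'_a (hρ : 0 < ρ) :
    Atom (fun f => SV' ρ c f (fun _ => 0) 1) (fun _ => 1) p
      (fun i => √(1 + (1 / (2 * ρ)) ^ 2) * ρ ^ 2 * kDa p i) := by
  intro i C f hC hf hb
  have hb' : ∀ s : ℝ, 0 < s → s ≤ 1 → |f s| ≤ C * s ^ (p + 42 * i) := fun s hs hs1 =>
    (hb s hs hs1).trans (by rw [one_mul])
  have hc := src_continuous_wt (ρ := ρ) (c := c) (b := 2) (D := 0) ⟨hf, hb'⟩ (wt_zero 2) le_rfl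
  have h := SCHR.abs_SV'_one_le (b := 2) (B := 0) hρ le_rfl hc hb' (fun s _ _ => by simp)
  refine h.trans (le_of_eq ?_)
  unfold kDa
  push_cast
  simp
  ring

theorem atom_SV'_b (hρ : 0 < ρ) :
    Atom (fun f => SV' ρ c f (fun _ => 0) 1) (fun s => 1 - s) p
      (fun i => √(1 + (1 / (2 * ρ)) ^ 2) * ρ ^ 2 * kDb p i) := by
  intro i C f hC hf hb
  have hb' : ∀ s : ℝ, 0 < s → s ≤ 1 → |f s| ≤ C * (s ^ (p + 42 * i) * (1 - s ^ 1)) :=
    fun s hs hs1 => (hb s hs hs1).trans (le_of_eq (by rw [pow_one]; ring))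
  have hb2 : ∀ s : ℝ, 0 < s → s ≤ 1 → |f s| ≤ C * s ^ (p + 42 * i) := fun s hs hs1 =>
    (hb' s hs hs1).trans (mul_le_mul_of_nonneg_left (by
      have h1 := pow_nonneg hs.le (p + 42 * i)
      rw [pow_one]
      nlinarith) hC)
  have hc := src_continuous_wt (ρ := ρ) (c := c) (b := 2) (D := 0) ⟨hf, hb2⟩ (wt_zero 2) le_rfl
  have h := SCHR.abs_SV'_one_le_sub (N := 1) (b := 2) (B := 0) hρ le_rfl hc hb' (fun s _ _ => by simp)
  refine h.trans (le_of_eq ?_)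
  unfold kDb
  push_cast
  simp
  ring_nf

theorem atom_SV'_c (hρ : 0 < ρ) :
    Atom (fun f => SV' ρ c f (fun _ => 0) 1) (fun s => 1 - s ^ 42) p
      (fun i => √(1 + (1 / (2 * ρ)) ^ 2) * ρ ^ 2 * kDc p i) := by
  intro i C f hC hf hb
  have hb' : ∀ s : ℝ, 0 < s → s ≤ 1 → |f s| ≤ C * (s ^ (p + 42 * i) * (1 - s ^ 42)) :=
    fun s hs hs1 => (hb s hs hs1).trans (le_of_eq (by ring))
  have hb2 : ∀ s : ℝ, 0 < s → s ≤ 1 → |f s| ≤ C * s ^ (p + 42 * i) := fun s hs hs1 =>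
    (hb' s hs hs1).trans (mul_le_mul_of_nonneg_left (by
      have h1 := pow_nonneg hs.le (p + 42 * i)
      have h2 := pow_nonneg hs.le 42
      nlinarith) hC)
  have hc := src_continuous_wt (ρ := ρ) (c := c) (b := 2) (D := 0) ⟨hf, hb2⟩ (wt_zero 2) le_rfl
  have h := SCHR.abs_SV'_one_le_sub (N := 42) (b := 2) (B := 0) hρ le_rfl hc hb' (fun s _ _ => by simp)
  refine h.trans (le_of_eq ?_)
  unfold kDc
  push_cast
  simp
  ring_nf

/-- **row rule for `SV'` at `1`** -/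
theorem row_SV' (hρ : 0 < ρ) (hb : 2 ≤ b) {M : ℝ} (hM : 0 ≤ M) (P : PL) {B B' : ℝ}
    {f g v w : ℝ → ℝ} (hf : ContinuousOn f (Ioi 0)) (hg : ContinuousOn g (Ioi 0))
    (hv : ContinuousOn v (Ioi 0)) (hw : ContinuousOn w (Ioi 0))
    (H : ∀ s : ℝ, 0 < s → s ≤ 1 → Mj M (s ^ p * P.v.ev s) (s ^ p * P.d.ev s) (f s) (g s))
    (HB : ∀ s : ℝ, 0 < s → s ≤ 1 → Mj M (B * s ^ b) (B' * s ^ b) (v s) (w s)) :
    Mj M (√(1 + (1 / (2 * ρ)) ^ 2) * (ρ ^ 2 * P.v.row (kDa p) (kDb p) (kDc p)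
        + |c| * B / ((b : ℝ) - 1 / 2)))
      (√(1 + (1 / (2 * ρ)) ^ 2) * (ρ ^ 2 * P.d.row (kDa p) (kDb p) (kDc p)
        + |c| * B' / ((b : ℝ) - 1 / 2)))
      (SV' ρ c f v 1) (SV' ρ c g w 1) := by
  have h := mj_dom (Φ := fun f => SV' ρ c f (fun _ => 0) 1) (addOn_SV' 1)
    (atom_SV'_a hρ) (atom_SV'_b hρ) (atom_SV'_c hρ) hM P hf hg H
  have h' : Mj M (√(1 + (1 / (2 * ρ)) ^ 2) * (ρ ^ 2 * P.v.row (kDa p) (kDb p) (kDc p)))
      (√(1 + (1 / (2 * ρ)) ^ 2) * (ρ ^ 2 * P.d.row (kDa p) (kDb p) (kDc p)))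
      (SV' ρ c f (fun _ => 0) 1) (SV' ρ c g (fun _ => 0) 1) := by
    refine h.congr rfl rfl ?_ ?_ <;>
    · unfold TL.row
      rw [Dot_mul, Dot_mul, Dot_mul]
      ring
  have wv : Wt b B v := ⟨hv, fun s hs hs1 => (HB s hs hs1).l⟩
  have ww : Wt b B w := ⟨hw, fun s hs hs1 => (HB s hs hs1).r⟩
  have cv := src_continuous_wt (ρ := ρ) (c := c) (a := 0) (C := 0) (f := fun _ => 0)
    ⟨continuousOn_const, fun s _ _ => by simp⟩ wv hb
  have cw := src_continuous_wt (ρ := ρ) (c := c) (a := 0) (C := 0) (f := fun _ => 0)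
    ⟨continuousOn_const, fun s _ _ => by simp⟩ ww hb
  have k := SCHR.mj_sv1 (a := 0) (A := 0) (A' := 0) hρ hb cv cw (fun s _ _ =>
    (Mj.zero M).congr rfl rfl (by simp) (by simp)) HB
  have bdP : ∀ (L : TL) (m : ℝ) (h : ℝ → ℝ), 0 ≤ m → ContinuousOn h (Ioi 0) →
      (∀ s : ℝ, 0 < s → s ≤ 1 → |h s| ≤ m * (s ^ p * L.ev s)) →
      Wt p (m * ((L.tot.sum : ℕ) / UU)) h := by
    intro L m h hm hc hb
    refine ⟨hc, fun s hs hs1 => (hb s hs hs1).trans ?_⟩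
    have h0 : 0 ≤ s ^ 42 := pow_nonneg hs.le _
    have h1 : s ^ 42 ≤ 1 := pow_le_one₀ hs.le hs1
    rw [mul_assoc]
    refine mul_le_mul_of_nonneg_left ?_ hm
    rw [mul_comm]
    exact mul_le_mul_of_nonneg_right ((L.ev_le_tot hs.le hs1).trans (Ev_le_sum h0 h1 _))
      (pow_nonneg hs.le _)
  have split : ∀ (f v : ℝ → ℝ), ContinuousOn f (Ioi 0) → Wt b B v →
      (∀ s : ℝ, 0 < s → s ≤ 1 → |f s| ≤ s ^ p * P.v.ev s) →
      SV' ρ c f v 1 = SV' ρ c f (fun _ => 0) 1 + SV' ρ c (fun _ => 0) v 1 := by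
    intro f v hf hv hb'
    have wf := bdP P.v 1 f zero_le_one hf fun s hs hs1 => by rw [one_mul]; exact hb' s hs hs1
    have c1 := src_continuous_wt (ρ := ρ) (c := c) wf hv hb
    have c2 := src_continuous_wt (ρ := ρ) (c := c) (a := 0) (C := 0) (f := fun _ => 0)
      ⟨continuousOn_const, fun s _ _ => by simp⟩ hv hb
    have h := SCHR.SV'_sub c1 c2 1
    have e : (fun s => f s - (0:ℝ)) = f := by funext s; ring
    have e0 : (fun s => v s - v s) = fun _ => (0:ℝ) := by funext s; ring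
    rw [e, e0] at h
    linarith
  have hfin := h'.add k
  refine hfin.congr ?_ ?_ ?_ ?_
  · exact (split f v hf wv fun s hs hs1 => (H s hs hs1).l).symm
  · exact (split g w hg ww fun s hs hs1 => (H s hs hs1).r).symm
  · simp; ring
  · simp; ring

end sv

end Pool.Agent.SCH
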