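import Pool.Agent.MP_83fd13_an.SCH.PRow

set_option autoImplicit false

/-!
# Majorants with a common factor (project SCH)

`TK M s c p f g` : the quantities are bounded by `c` times the majorants of the pair `p`.
-/

noncomputable section

namespace Pool.Agent.SCH

open Set Filter Topology MeasureTheory intervalIntegral SCHS

/-! ### more list operations -/

/-- exact multiple by a natural number -/
def lnsm (n : ℕ) : List ℕ → List ℕ
  | [] => []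
  | a :: l => (n * a) :: lnsm n l

theorem Ev_lnsm (n : ℕ) (R : ℝ) (l : List ℕ) : Ev (lnsm n l) R = n * Ev l R := by
  induction l with
  | nil => simp [lnsm, Ev]
  | cons a l ih =>
    simp only [lnsm, Ev]
    rw [ih]
    push_cast
    ring

theorem Dot_lnsm (n : ℕ) (κ : ℕ → ℝ) (l : List ℕ) : Dot κ (lnsm n l) = n * Dot κ l := by
  induction l generalizing κ with
  | nil => simp [lnsm, Dot]
  | cons a l ih =>
    simp only [lnsm, Dot]
    rw [ih]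
    push_cast
    ring

theorem Dot_ladd (κ : ℕ → ℝ) : ∀ l m : List ℕ, Dot κ (ladd l m) = Dot κ l + Dot κ m
  | [], m => by simp [ladd, Dot]
  | a :: l, [] => by simp [ladd, Dot]
  | a :: l, b :: m => by
    simp only [ladd, Dot, Dot_ladd (fun i => κ (i + 1)) l m]
    push_cast
    ring

namespace TL

/-- exact multiple -/
def nsm (n : ℕ) (L : TL) : TL := ⟨lnsm n L.a, lnsm n L.b, lnsm n L.c⟩

/-- rounded multiple by `m / 10⁸` -/
def sc (m : ℕ) (L : TL) : TL := ⟨lsc m L.a, lsc m L.b, lsc m L.c⟩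

variable {s : ℝ}

theorem ev_nsm (n : ℕ) (L : TL) : (L.nsm n).ev s = n * L.ev s := by
  unfold ev nsm
  simp only [Ev_lnsm]
  ring

theorem ev_sc (hs : 0 ≤ s) (hs1 : s ≤ 1) (m : ℕ) (L : TL) :
    (m : ℝ) / UU * L.ev s ≤ (L.sc m).ev s := by
  have h0 : 0 ≤ s ^ 42 := pow_nonneg hs _
  have h1 : s ^ 42 ≤ 1 := pow_le_one₀ hs hs1
  have ha := Ev_lsc h0 m L.a
  have hb := mul_le_mul_of_nonneg_left (Ev_lsc h0 m L.b) (sub_nonneg.2 hs1)
  have hc := mul_le_mul_of_nonneg_left (Ev_lsc h0 m L.c) (sub_nonneg.2 h1)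
  unfold ev sc
  simp only
  nlinarith

theorem row_add (κa κb κc : ℕ → ℝ) (L K : TL) :
    (L.add K).row κa κb κc = L.row κa κb κc + K.row κa κb κc := by
  unfold row add
  simp only [Dot_ladd]
  ring

theorem row_nsm (κa κb κc : ℕ → ℝ) (n : ℕ) (L : TL) :
    (L.nsm n).row κa κb κc = n * L.row κa κb κc := by
  unfold row nsm
  simp only [Dot_lnsm]
  ring

end TL

namespace PL

def nsm (n : ℕ) (p : PL) : PL := ⟨p.v.nsm n, p.d.nsm n⟩
def sc (m : ℕ) (p : PL) : PL := ⟨p.v.sc m, p.d.sc m⟩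

end PL

/-- bounds with the common factor `c` -/
def TK (M s c : ℝ) (p : PL) (f g : ℝ) : Prop := Mj M (c * p.v.ev s) (c * p.d.ev s) f g

theorem TJ.toTK {M s f g : ℝ} {p : PL} (H : TJ M s p f g) : TK M s 1 p f g :=
  Mj.congr H rfl rfl (one_mul _).symm (one_mul _).symm

theorem TK.toTJ {M s f g : ℝ} {p : PL} (H : TK M s 1 p f g) : TJ M s p f g :=
  Mj.congr H rfl rfl (one_mul _) (one_mul _)

namespace TK

variable {M s c c' f g h k : ℝ} {p q : PL}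

theorem add (H : TK M s c p f g) (K : TK M s c q h k) : TK M s c (p.add q) (f + h) (g + k) := by
  refine (Mj.add H K).congr rfl rfl ?_ ?_
  · show _ = c * (p.v.add q.v).ev s
    rw [TL.ev_add]; ring
  · show _ = c * (p.d.add q.d).ev s
    rw [TL.ev_add]; ring

theorem sub (H : TK M s c p f g) (K : TK M s c q h k) : TK M s c (p.add q) (f - h) (g - k) := by
  refine (Mj.sub H K).congr rfl rfl ?_ ?_
  · show _ = c * (p.v.add q.v).ev s
    rw [TL.ev_add]; ring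
  · show _ = c * (p.d.add q.d).ev s
    rw [TL.ev_add]; ring

theorem mul (hM : 0 ≤ M) (hs : 0 ≤ s) (hs1 : s ≤ 1) (hc : 0 ≤ c) (hc' : 0 ≤ c') (D : ℕ)
    (H : TK M s c p f g) (K : TK M s c' q h k) :
    TK M s (c * c') (PL.mulD D p q) (f * h) (g * k) := by
  have hcc := mul_nonneg hc hc'
  refine (Mj.mul H K).mono hM ?_ ?_
  · calc c * p.v.ev s * (c' * q.v.ev s) = c * c' * (p.v.ev s * q.v.ev s) := by ring
      _ ≤ _ := mul_le_mul_of_nonneg_left (TL.ev_mul hs hs1 D _ _) hcc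
  · show _ ≤ c * c' * ((TL.mulD D p.d q.v).add (TL.mulD D p.v q.d)).ev s
    rw [TL.ev_add]
    calc c * p.d.ev s * (c' * q.v.ev s) + c * p.v.ev s * (c' * q.d.ev s)
        = c * c' * (p.d.ev s * q.v.ev s + p.v.ev s * q.d.ev s) := by ring
      _ ≤ _ := mul_le_mul_of_nonneg_left
        (add_le_add (TL.ev_mul hs hs1 D _ _) (TL.ev_mul hs hs1 D _ _)) hcc

theorem mono (hM : 0 ≤ M) (hs : 0 ≤ s) (hs1 : s ≤ 1) (hc : 0 ≤ c) (H : TK M s c p f g)
    (h : p.le q = true) : TK M s c q f g := by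
  simp only [PL.le, Bool.and_eq_true] at h
  exact Mj.mono hM H (mul_le_mul_of_nonneg_left (TL.ev_le hs hs1 h.1) hc)
    (mul_le_mul_of_nonneg_left (TL.ev_le hs hs1 h.2) hc)

theorem congr (H : TK M s c p f g) {f' g' : ℝ} (hf : f = f') (hg : g = g') :
    TK M s c p f' g' := by
  subst hf hg
  exact H

theorem congr_c (H : TK M s c p f g) (hc : c = c') : TK M s c' p f g := by
  subst hc
  exact H

/-- change of the factor -/
theorem resc (hM : 0 ≤ M) (hs : 0 ≤ s) (hs1 : s ≤ 1) {m : ℕ} (hc : 0 ≤ c)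
    (H : TK M s (c * ((m : ℝ) / UU)) p f g) : TK M s c (p.sc m) f g := by
  refine Mj.mono hM H ?_ ?_
  · rw [mul_assoc]
    exact mul_le_mul_of_nonneg_left (TL.ev_sc hs hs1 m _) hc
  · rw [mul_assoc]
    exact mul_le_mul_of_nonneg_left (TL.ev_sc hs hs1 m _) hc

/-- multiplication by a constant -/
theorem smul (hM : 0 ≤ M) (hs : 0 ≤ s) (hs1 : s ≤ 1) {m : ℕ} {l : ℝ} (hl : |l| ≤ (m : ℝ) / UU)
    (hc : 0 ≤ c) (H : TK M s c p f g) : TK M s c (p.sc m) (l * f) (l * g) := by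
  have h := Mj.const_mul_le hl H
  refine Mj.mono hM h ?_ ?_
  · calc (m : ℝ) / UU * (c * p.v.ev s) = c * ((m : ℝ) / UU * p.v.ev s) := by ring
      _ ≤ _ := mul_le_mul_of_nonneg_left (TL.ev_sc hs hs1 m _) hc
  · calc (m : ℝ) / UU * (c * p.d.ev s) = c * ((m : ℝ) / UU * p.d.ev s) := by ring
      _ ≤ _ := mul_le_mul_of_nonneg_left (TL.ev_sc hs hs1 m _) hc

/-- absorb a factor `R` into the lists -/
theorem shift (H : TK M s (c * s ^ 42) p f g) : TK M s c p.shift f g := by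
  refine Mj.congr H rfl rfl ?_ ?_
  · show _ = c * p.v.shift.ev s
    rw [TL.ev_shift]; ring
  · show _ = c * p.d.shift.ev s
    rw [TL.ev_shift]; ring

/-- multiplication by a fixed `y` with `|R y| ≤ L` -/
theorem mulY (hM : 0 ≤ M) (hs : 0 ≤ s) (hs1 : s ≤ 1) (hc : 0 ≤ c) (D : ℕ) {L : TL} {y : ℝ}
    (hy : |s ^ 42 * y| ≤ L.ev s) (H : TK M s (c * s ^ 42) p f g) :
    TK M s c ⟨TL.mulD D p.v L, TL.mulD D p.d L⟩ (f * y) (g * y) := by
  have h0 : 0 ≤ s ^ 42 := pow_nonneg hs _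
  rw [abs_mul, abs_of_nonneg h0] at hy
  have key : ∀ (x : ℝ) (P : TL), |x| ≤ c * s ^ 42 * P.ev s → |x * y| ≤ c * (TL.mulD D P L).ev s := by
    intro x P hx
    rw [abs_mul]
    calc |x| * |y| ≤ c * s ^ 42 * P.ev s * |y| := mul_le_mul_of_nonneg_right hx (abs_nonneg _)
      _ = c * (P.ev s * (s ^ 42 * |y|)) := by ring
      _ ≤ c * (P.ev s * L.ev s) := mul_le_mul_of_nonneg_left
        (mul_le_mul_of_nonneg_left hy (P.ev_nonneg hs hs1)) hc
      _ ≤ _ := mul_le_mul_of_nonneg_left (TL.ev_mul hs hs1 D _ _) hc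
  refine ⟨key f p.v H.l, key g p.v H.r, ?_⟩
  have hd := H.d
  have e : f * y - g * y = (f - g) * y := by ring
  rw [e, abs_mul]
  calc |f - g| * |y| ≤ M * (c * s ^ 42 * p.d.ev s) * |y| :=
        mul_le_mul_of_nonneg_right hd (abs_nonneg _)
    _ = M * (c * (p.d.ev s * (s ^ 42 * |y|))) := by ring
    _ ≤ M * (c * (p.d.ev s * L.ev s)) := mul_le_mul_of_nonneg_left (mul_le_mul_of_nonneg_left
        (mul_le_mul_of_nonneg_left hy (p.d.ev_nonneg hs hs1)) hc) hM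
    _ ≤ _ := mul_le_mul_of_nonneg_left
        (mul_le_mul_of_nonneg_left (TL.ev_mul hs hs1 D _ _) hc) hM

/-- finite sums of equal majorants -/
theorem sumConst {n : ℕ} {F G : ℕ → ℝ} (H : ∀ i < n, TK M s c p (F i) (G i)) :
    TK M s c (p.nsm n) (∑ i ∈ Finset.range n, F i) (∑ i ∈ Finset.range n, G i) := by
  have h := Mj.sum (Finset.range n) fun i hi => H i (Finset.mem_range.1 hi)
  refine h.congr rfl rfl ?_ ?_
  · rw [Finset.sum_const, Finset.card_range, nsmul_eq_mul]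
    show _ = c * (p.v.nsm n).ev s
    rw [TL.ev_nsm]; ring
  · rw [Finset.sum_const, Finset.card_range, nsmul_eq_mul]
    show _ = c * (p.d.nsm n).ev s
    rw [TL.ev_nsm]; ring

theorem zero : TK M s c PL.zero 0 0 :=
  (Mj.zero M).congr rfl rfl (by rw [PL.zero, TL.ev_zero, mul_zero])
    (by rw [PL.zero, TL.ev_zero, mul_zero])

end TK

/-! ### the row rules with a constant factor -/

section dom

variable {p0 : ℕ} {Φ : (ℝ → ℝ) → ℝ}

theorem mj_domK (hadd : AddOn p0 Φ) {κa κb κc : ℕ → ℝ} (ha : Atom Φ (fun _ => 1) p0 κa)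
    (hb : Atom Φ (fun s => 1 - s) p0 κb) (hc : Atom Φ (fun s => 1 - s ^ 42) p0 κc)
    {M m : ℝ} (hM : 0 ≤ M) (hm : 0 ≤ m) (p : PL) {f g : ℝ → ℝ} (hf : ContinuousOn f (Ioi 0))
    (hg : ContinuousOn g (Ioi 0))
    (H : ∀ s : ℝ, 0 < s → s ≤ 1 → TK M s (m * s ^ p0) p (f s) (g s)) :
    Mj M (m * p.v.row κa κb κc) (m * p.d.row κa κb κc) (Φ f) (Φ g) := by
  have H' : ∀ s : ℝ, 0 < s → s ≤ 1 →
      Mj M (m * (s ^ p0 * p.v.ev s)) (m * (s ^ p0 * p.d.ev s)) (f s) (g s) := fun s h1 h2 =>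
    Mj.congr (H s h1 h2) rfl rfl (by ring) (by ring)
  have h1 : ∀ {h : ℝ → ℝ}, ContinuousOn h (Ioi 0) →
      (∀ s : ℝ, 0 < s → s ≤ 1 → |h s| ≤ m * (s ^ p0 * p.v.ev s)) → |Φ h| ≤ m * p.v.row κa κb κc :=
    fun hh hb' => dom_TL hadd ha hb hc hm p.v hh hb'
  have bd : ∀ (L : TL) (m : ℝ) (h : ℝ → ℝ), 0 ≤ m → ContinuousOn h (Ioi 0) →
      (∀ s : ℝ, 0 < s → s ≤ 1 → |h s| ≤ m * (s ^ p0 * L.ev s)) →
      Wt p0 (m * ((L.tot.sum : ℕ) / UU)) h := by
    intro L m h hm hc hb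
    refine ⟨hc, fun s hs hs1 => (hb s hs hs1).trans ?_⟩
    have h0 : 0 ≤ s ^ 42 := pow_nonneg hs.le _
    have h1 : s ^ 42 ≤ 1 := pow_le_one₀ hs.le hs1
    rw [mul_assoc]
    refine mul_le_mul_of_nonneg_left ?_ hm
    rw [mul_comm]
    exact mul_le_mul_of_nonneg_right ((L.ev_le_tot hs.le hs1).trans (Ev_le_sum h0 h1 _))
      (pow_nonneg hs.le _)
  have hd : ContinuousOn (fun s => f s - g s) (Ioi 0) := hf.sub hg
  have hMm : 0 ≤ M * m := mul_nonneg hM hm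
  have hdb : ∀ s : ℝ, 0 < s → s ≤ 1 → |f s - g s| ≤ M * m * (s ^ p0 * p.d.ev s) :=
    fun s hs hs1 => (H' s hs hs1).d.trans (le_of_eq (by ring))
  refine ⟨h1 hf fun s hs hs1 => (H' s hs hs1).l, h1 hg fun s hs hs1 => (H' s hs hs1).r, ?_⟩
  have h2 := dom_TL hadd ha hb hc hMm p.d hd hdb
  have e : f = fun s => g s + (f s - g s) := by funext s; ring
  have h3 : Φ f = Φ g + Φ (fun s => f s - g s) := by
    conv_lhs => rw [e]
    exact hadd g _ _ _ (bd p.v m g hm hg fun s hs hs1 => (H' s hs hs1).r) (bd p.d _ _ hMm hd hdb)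
  rw [h3, add_sub_cancel_left, ← mul_assoc]
  exact h2

end dom

theorem row_intK {n p : ℕ} {M m : ℝ} (hM : 0 ≤ M) (hm : 0 ≤ m) (P : PL) {f g : ℝ → ℝ}
    (hf : ContinuousOn f (Ioi 0)) (hg : ContinuousOn g (Ioi 0))
    (H : ∀ s : ℝ, 0 < s → s ≤ 1 → TK M s (m * s ^ p) P (f s) (g s)) :
    Mj M (m * P.v.row (ka n p) (kb n p) (kc n p)) (m * P.d.row (ka n p) (kb n p) (kc n p))
      (∫ s in (0:ℝ)..1, s ^ (n + 1) * f s) (∫ s in (0:ℝ)..1, s ^ (n + 1) * g s) :=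
  mj_domK addOn_int atom_int_a atom_int_b atom_int_c hM hm P hf hg H

theorem row_grK {n p : ℕ} {r : ℝ} (hn : 42 ≤ n) (hp : n ≤ p + 42) {M m : ℝ} (hM : 0 ≤ M)
    (hm : 0 ≤ m) (P : PL) {f g : ℝ → ℝ}
    (hf : ContinuousOn f (Ioi 0)) (hg : ContinuousOn g (Ioi 0))
    (H : ∀ s : ℝ, 0 < s → s ≤ 1 → TK M s (m * s ^ p) P (f s) (g s))
    (hr : 0 < r) (hr1 : r ≤ 1) :
    Mj M (m * (r ^ (n - 42) * (1 - r ^ 42)) * P.v.row (kG n p) (kG n p) (kG n p))
      (m * (r ^ (n - 42) * (1 - r ^ 42)) * P.d.row (kG n p) (kG n p) (kG n p))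
      (Gr n f r) (Gr n g r) := by
  have hadd : AddOn p (fun f => Gr n f r) := fun f g C D hf hg => Gr_add hf hg hr
  have h := mj_domK (Φ := fun f => Gr n f r) hadd
    (atom_gr hn hp hr hr1 (ω := fun _ => 1) (fun _ _ _ => le_rfl))
    (atom_gr hn hp hr hr1 (ω := fun s => 1 - s) (fun s hs hs1 => (om1 s hs hs1).2))
    (atom_gr hn hp hr hr1 (ω := fun s => 1 - s ^ 42) (fun s hs hs1 => (om42 s hs hs1).2))
    hM hm P hf hg H
  refine h.congr rfl rfl ?_ ?_ <;>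
  · unfold TL.row
    rw [Dot_mul, Dot_mul, Dot_mul]
    ring

/-! ### computable row sums -/

/-- `∑ i, l_i K i` -/
def DotN (K : ℕ → ℕ) : List ℕ → ℕ
  | [] => 0
  | a :: l => a * K 0 + DotN (fun i => K (i + 1)) l

theorem Dot_le_DotN : ∀ (l : List ℕ) (κ : ℕ → ℝ) (K : ℕ → ℕ), (∀ i, κ i ≤ (K i : ℝ) / UU) →
    Dot κ l ≤ (DotN K l : ℕ) / ((UU : ℝ) * UU)
  | [], _, _, _ => by simp [Dot, DotN]
  | a :: l, κ, K, h => by
    simp only [Dot, DotN]
    have h1 := Dot_le_DotN l (fun i => κ (i + 1)) (fun i => K (i + 1)) fun i => h (i + 1)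
    have h2 : (a : ℝ) / UU * κ 0 ≤ (a : ℝ) / UU * ((K 0 : ℝ) / UU) :=
      mul_le_mul_of_nonneg_left (h 0) (div_nonneg (Nat.cast_nonneg _) UU_pos.le)
    refine (add_le_add h2 h1).trans (le_of_eq ?_)
    push_cast
    rw [add_div, div_mul_div_comm]

/-- row value, computable: units `10⁻¹⁶` -/
def TL.rowN (Ka Kb Kc : ℕ → ℕ) (L : TL) : ℕ := DotN Ka L.a + DotN Kb L.b + DotN Kc L.c

theorem TL.row_le {κa κb κc : ℕ → ℝ} {Ka Kb Kc : ℕ → ℕ} (ha : ∀ i, κa i ≤ (Ka i : ℝ) / UU)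
    (hb : ∀ i, κb i ≤ (Kb i : ℝ) / UU) (hc : ∀ i, κc i ≤ (Kc i : ℝ) / UU) (L : TL) :
    L.row κa κb κc ≤ (L.rowN Ka Kb Kc : ℕ) / ((UU : ℝ) * UU) := by
  unfold TL.row TL.rowN
  push_cast
  rw [add_div, add_div]
  exact add_le_add (add_le_add (Dot_le_DotN _ _ _ ha) (Dot_le_DotN _ _ _ hb))
    (Dot_le_DotN _ _ _ hc)

/-- `a / d ≤ K / 10⁸` for the rounded up quotient -/
theorem div_le_ceil (a d : ℕ) (hd : 0 < d) :
    (a : ℝ) / d ≤ ((a * UU / d + 1 : ℕ) : ℝ) / UU := by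
  have hd' : (0:ℝ) < d := Nat.cast_pos.2 hd
  rw [div_le_div_iff₀ hd' UU_pos]
  have h := Nat.lt_div_mul_add (a := a * UU) hd
  have h2 : a * UU ≤ (a * UU / d + 1) * d := by
    rw [add_mul, one_mul]; omega
  exact_mod_cast h2

end Pool.Agent.SCH
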