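import Pool.Agent.MP_83fd13_an.SCH.GH2
import Pool.Agent.MP_83fd13_an.SCH.PTK

/-!
# [SCH] the q-pairs: `hqr 0, 1, 2, k`, `hqr2`, `hq 1, 2, k` in list format

Inputs: pairs `pu` of `u`, `p1` of `f 1`, `p2` of `f 2`, and `|f k| ≤ F 2^k` (`k ≥ 3`). `0 ≤ u ≤ .01195`.
-/

set_option autoImplicit false

namespace SCHV

open Pool.Agent.SCH SCHB SCHT

noncomputable section

/-! ### sums with a common factor -/

theorem TK_tsum2 {M s c q A A' : ℝ} {f g : ℕ → ℝ} {p0 p1 pt : PL} (hM : 0 ≤ M) (hc : 0 ≤ c)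
    (hq0 : 0 ≤ q) (hq : q < 1) (h0 : TK M s c p0 (f 0) (g 0)) (h1 : TK M s c p1 (f 1) (g 1))
    (H : ∀ j, Mj M (c * A * q ^ j) (c * A' * q ^ j) (f (2 + j)) (g (2 + j)))
    (hA : A / (1 - q) ≤ pt.v.ev s) (hA' : A' / (1 - q) ≤ pt.d.ev s) :
    Summable f ∧ Summable g ∧ TK M s c ((p0.add p1).add pt) (∑' j, f j) (∑' j, g j) := by
  obtain ⟨a, b, h⟩ := Mj.tsum_tail (M := M)
    (F := fun j => if j = 0 then c * p0.v.ev s else c * p1.v.ev s)
    (F' := fun j => if j = 0 then c * p0.d.ev s else c * p1.d.ev s) 2 hq0 hq (f := f) (g := g)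
    (by
      intro j hj
      interval_cases j
      · simpa [TK] using h0
      · simpa [TK] using h1) H
  refine ⟨a, b, h.mono hM ?_ ?_⟩
  · simp only [Finset.sum_range_succ, Finset.sum_range_zero, PL.add, TL.ev_add]
    simp only [if_true, zero_add, one_ne_zero, if_false]
    have := mul_le_mul_of_nonneg_left hA hc
    rw [← mul_div_assoc] at this
    linarith
  · simp only [Finset.sum_range_succ, Finset.sum_range_zero, PL.add, TL.ev_add]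
    simp only [if_true, zero_add, one_ne_zero, if_false]
    have := mul_le_mul_of_nonneg_left hA' hc
    rw [← mul_div_assoc] at this
    linarith

theorem q_num {u : ℝ} (hu0 : 0 ≤ u) (hu : u ≤ 0.01195) : (4 * u) ^ 2 / (1 - 4 * u) ≤ 0.0024 := by
  rw [div_le_iff₀ (by linarith)]
  nlinarith

/-- six shifts -/
def sh6 (p : PL) : PL := p.shift.shift.shift.shift.shift.shift

theorem ev_sh6 (L : TL) (s : ℝ) : (L.shift.shift.shift.shift.shift.shift).ev s =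
    s ^ 252 * L.ev s := by
  simp only [TL.ev_shift]
  ring

/-- the tail pair of the correlation sums: `.0024 e F² R⁶` -/
def ptq (D e F F' : ℕ) : PL :=
  sh6 (PL.sc (e * 240000) (PL.mulD D (PL.scal F F') (PL.scal F F')))

theorem ptq_v {s : ℝ} (hs : 0 ≤ s) (hs1 : s ≤ 1) (D e F F' : ℕ) :
    0.0024 * e * ((F : ℝ) / UU) ^ 2 * s ^ 252 ≤ (ptq D e F F').v.ev s := by
  show _ ≤ ((TL.sc (e * 240000) (TL.mulD D (TL.cst F) (TL.cst F))).shift.shift.shift.shift.shift.shift).ev s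
  rw [ev_sh6]
  have b1 := TL.ev_mul hs hs1 D (TL.cst F) (TL.cst F)
  have b2 := TL.ev_sc hs hs1 (e * 240000) (TL.mulD D (TL.cst F) (TL.cst F))
  rw [TL.ev_cst] at b1
  have hm : ((e * 240000 : ℕ) : ℝ) / UU = 0.0024 * e := by
    unfold UU; push_cast; ring
  rw [hm] at b2
  have h252 : 0 ≤ s ^ 252 := pow_nonneg hs _
  have he : (0 : ℝ) ≤ 0.0024 * e := by positivity
  calc _ = s ^ 252 * (0.0024 * e * ((F : ℝ) / UU * ((F : ℝ) / UU))) := by ring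
    _ ≤ s ^ 252 * (0.0024 * e * (TL.mulD D (TL.cst F) (TL.cst F)).ev s) :=
        mul_le_mul_of_nonneg_left (mul_le_mul_of_nonneg_left b1 he) h252
    _ ≤ _ := mul_le_mul_of_nonneg_left b2 h252

theorem ptq_d {s : ℝ} (hs : 0 ≤ s) (hs1 : s ≤ 1) (D e F F' : ℕ) :
    0.0024 * e * (2 * ((F : ℝ) / UU) * ((F' : ℝ) / UU)) * s ^ 252 ≤ (ptq D e F F').d.ev s := by
  show _ ≤ ((TL.sc (e * 240000) ((TL.mulD D (TL.cst F') (TL.cst F)).add
    (TL.mulD D (TL.cst F) (TL.cst F')))).shift.shift.shift.shift.shift.shift).ev s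
  rw [ev_sh6]
  have b1 := TL.ev_mul hs hs1 D (TL.cst F') (TL.cst F)
  have b1' := TL.ev_mul hs hs1 D (TL.cst F) (TL.cst F')
  have b2 := TL.ev_sc hs hs1 (e * 240000) ((TL.mulD D (TL.cst F') (TL.cst F)).add
    (TL.mulD D (TL.cst F) (TL.cst F')))
  rw [TL.ev_cst, TL.ev_cst] at b1 b1'
  have hm : ((e * 240000 : ℕ) : ℝ) / UU = 0.0024 * e := by
    unfold UU; push_cast; ring
  rw [hm, TL.ev_add] at b2
  have h252 : 0 ≤ s ^ 252 := pow_nonneg hs _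
  have he : (0 : ℝ) ≤ 0.0024 * e := by positivity
  calc _ = s ^ 252 * (0.0024 * e * ((F' : ℝ) / UU * ((F : ℝ) / UU) +
        (F : ℝ) / UU * ((F' : ℝ) / UU))) := by ring
    _ ≤ s ^ 252 * (0.0024 * e * ((TL.mulD D (TL.cst F') (TL.cst F)).ev s +
        (TL.mulD D (TL.cst F) (TL.cst F')).ev s)) :=
        mul_le_mul_of_nonneg_left (mul_le_mul_of_nonneg_left (add_le_add b1 b1') he) h252
    _ ≤ _ := mul_le_mul_of_nonneg_left b2 h252

section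

variable {M s u : ℝ} {f g : ℕ → ℝ} {F F' D : ℕ}

/-- the general correlation sum; `c0` the common factor, `c0 e = 4 · 2^k R^k` -/
theorem TK_hqr (hM : 0 ≤ M) (hs : 0 ≤ s) (hs1 : s ≤ 1) (hu0 : 0 ≤ u) (hu : u ≤ 0.01195) (k : ℕ)
    {c0 : ℝ} (hc0 : 0 ≤ c0) (e : ℕ) (he : c0 * e = 4 * 2 ^ k * s ^ (42 * k)) {p0 p1 : PL}
    (hf : ∀ k, Mj M ((F : ℝ) / UU * 2 ^ (k + 3)) ((F' : ℝ) / UU * 2 ^ (k + 3)) (f (k + 3))
      (g (k + 3)))
    (h0 : TK M s c0 p0 (f 1 * f (1 + k) * s ^ (42 * (2 + k))) (g 1 * g (1 + k) * s ^ (42 * (2 + k))))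
    (h1 : TK M s c0 p1 (u * (f 2 * f (2 + k)) * s ^ (42 * (4 + k)))
      (u * (g 2 * g (2 + k)) * s ^ (42 * (4 + k)))) :
    TK M s c0 ((p0.add p1).add (ptq D e F F')) (hqr u f k s) (hqr u g k s) := by
  set FF : ℝ := (F : ℝ) / UU with hFF
  set FF' : ℝ := (F' : ℝ) / UU with hFF'
  have nF : 0 ≤ FF := div_nonneg (Nat.cast_nonneg _) UU_pos.le
  have nF' : 0 ≤ FF' := div_nonneg (Nat.cast_nonneg _) UU_pos.le
  have h4u0 : 0 ≤ 4 * u := by linarith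
  have h4u : 4 * u < 1 := by linarith
  have hnum := q_num hu0 hu
  have h252 : 0 ≤ s ^ 252 := pow_nonneg hs _
  have hne : (0 : ℝ) ≤ e := Nat.cast_nonneg e
  unfold hqr
  refine (TK_tsum2 (A := e * (4 * u) ^ 2 * (FF ^ 2 * s ^ 252))
    (A' := e * (4 * u) ^ 2 * (2 * FF * FF' * s ^ 252)) (q := 4 * u) hM hc0 h4u0 h4u ?_ ?_ ?_ ?_
    ?_).2.2
  · refine h0.congr ?_ ?_
    · rw [show 0 + 1 + k = 1 + k by ring, show 2 * (0 + 1) + k = 2 + k by ring]; simp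
    · rw [show 0 + 1 + k = 1 + k by ring, show 2 * (0 + 1) + k = 2 + k by ring]; simp
  · refine h1.congr ?_ ?_
    · rw [show 1 + 1 + k = 2 + k by ring, show 2 * (1 + 1) + k = 4 + k by ring]; ring
    · rw [show 1 + 1 + k = 2 + k by ring, show 2 * (1 + 1) + k = 4 + k by ring]; ring
  · intro j
    have a1 := hf j
    have a2 := hf (j + k)
    have a3 := (a1.mul a2).mul_const_le (c := u ^ (2 + j) * s ^ (42 * (2 * (2 + j + 1) + k)))
      (C := u ^ (2 + j) * s ^ (42 * (2 * (2 + j + 1) + k)))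
      (by rw [abs_of_nonneg (mul_nonneg (pow_nonneg hu0 _) (pow_nonneg hs _))])
    have hsj : s ^ (42 * (2 * (2 + j + 1) + k)) ≤ s ^ 252 * s ^ (42 * k) := by
      rw [← pow_add]
      exact pow_le_pow_of_le_one hs hs1 (by omega)
    have key : ∀ X : ℝ, 0 ≤ X → X * (2 ^ (j + 3) * 2 ^ (j + k + 3)) *
        (u ^ (2 + j) * s ^ (42 * (2 * (2 + j + 1) + k))) ≤
        c0 * (e * (4 * u) ^ 2 * (X * s ^ 252)) * (4 * u) ^ j := by
      intro X hX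
      have h4 : (2 : ℝ) ^ (j + 3) * 2 ^ (j + k + 3) = 64 * 4 ^ j * 2 ^ k := by
        rw [← pow_add, show j + 3 + (j + k + 3) = 6 + 2 * j + k by ring, pow_add, pow_add, pow_mul]
        norm_num
      calc _ ≤ X * (2 ^ (j + 3) * 2 ^ (j + k + 3)) * (u ^ (2 + j) * (s ^ 252 * s ^ (42 * k))) := by
            refine mul_le_mul_of_nonneg_left (mul_le_mul_of_nonneg_left hsj (pow_nonneg hu0 _)) ?_
            positivity
        _ = (4 * 2 ^ k * s ^ (42 * k)) * ((4 * u) ^ 2 * (X * s ^ 252)) * (4 * u) ^ j := by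
            rw [h4, mul_pow 4 u j, pow_add u 2 j]; ring
        _ = _ := by rw [← he]; ring
    refine (a3.congr ?_ ?_ rfl rfl).mono hM ?_ ?_
    · rw [show j + 3 = 2 + j + 1 by ring, show j + k + 3 = 2 + j + 1 + k by ring]; ring
    · rw [show j + 3 = 2 + j + 1 by ring, show j + k + 3 = 2 + j + 1 + k by ring]; ring
    · refine le_trans (le_of_eq ?_) (key (FF ^ 2) (sq_nonneg _))
      ring
    · refine le_trans (le_of_eq ?_) (key (2 * FF * FF') (by positivity))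
      ring
  · refine le_trans ?_ (ptq_v hs hs1 D e F F')
    calc _ = (4 * u) ^ 2 / (1 - 4 * u) * (e * FF ^ 2 * s ^ 252) := by ring
      _ ≤ 0.0024 * (e * FF ^ 2 * s ^ 252) := mul_le_mul_of_nonneg_right hnum
          (mul_nonneg (mul_nonneg hne (sq_nonneg _)) h252)
      _ = _ := by ring
  · refine le_trans ?_ (ptq_d hs hs1 D e F F')
    calc _ = (4 * u) ^ 2 / (1 - 4 * u) * (e * (2 * FF * FF') * s ^ 252) := by ring
      _ ≤ 0.0024 * (e * (2 * FF * FF') * s ^ 252) := mul_le_mul_of_nonneg_right hnum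
          (mul_nonneg (mul_nonneg hne (mul_nonneg (mul_nonneg (by norm_num) nF) nF')) h252)
      _ = _ := by ring

/-- pair with two explicit terms: `X R² + u Y R⁴ + tail` -/
def pqs (D e : ℕ) (pu X Y : PL) (F F' : ℕ) : PL :=
  (X.shift.shift.add (PL.mulD D pu Y).shift.shift.shift.shift).add (ptq D e F F')

variable {pu p1 p2 X Y : PL}

/-- `TK_hqr` with pairs of the products -/
theorem TK_hqr' (hM : 0 ≤ M) (hs : 0 ≤ s) (hs1 : s ≤ 1) (hu0 : 0 ≤ u) (hu : u ≤ 0.01195) (k : ℕ)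
    {c0 c1 : ℝ} (hc0 : 0 ≤ c0) (hc1 : 0 ≤ c1) (hcc : c0 = c1 * s ^ (42 * k)) (e : ℕ)
    (he : c0 * e = 4 * 2 ^ k * s ^ (42 * k))
    (hf : ∀ k, Mj M ((F : ℝ) / UU * 2 ^ (k + 3)) ((F' : ℝ) / UU * 2 ^ (k + 3)) (f (k + 3))
      (g (k + 3))) (hU : TJ M s pu u u)
    (hX : TK M s c1 X (f 1 * f (1 + k)) (g 1 * g (1 + k)))
    (hY : TK M s c1 Y (f 2 * f (2 + k)) (g 2 * g (2 + k))) :
    TK M s c0 (pqs D e pu X Y F F') (hqr u f k s) (hqr u g k s) := by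
  have hsk : 0 ≤ s ^ (42 * k) := pow_nonneg hs _
  refine TK_hqr hM hs hs1 hu0 hu k hc0 e he hf ?_ ?_
  · have h := hX.mul_const_le (c := s ^ (42 * (2 + k))) (C := s ^ (42 * (2 + k)))
      (by rw [abs_of_nonneg (pow_nonneg hs _)])
    have e1 : s ^ (42 * (2 + k)) = s ^ 42 * s ^ 42 * s ^ (42 * k) := by
      rw [← pow_add, ← pow_add]; congr 1; ring
    refine h.congr rfl rfl ?_ ?_
    · show _ = c0 * X.v.shift.shift.ev s
      rw [TL.ev_shift, TL.ev_shift, hcc, e1]; ring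
    · show _ = c0 * X.d.shift.shift.ev s
      rw [TL.ev_shift, TL.ev_shift, hcc, e1]; ring
  · have h0 := (TK.mul hM hs hs1 zero_le_one hc1 D hU.toTK hY)
    have h := Mj.mul_const_le (c := s ^ (42 * (4 + k))) (C := s ^ (42 * (4 + k)))
      (by rw [abs_of_nonneg (pow_nonneg hs _)]) h0
    have e1 : s ^ (42 * (4 + k)) = s ^ 42 * s ^ 42 * s ^ 42 * s ^ 42 * s ^ (42 * k) := by
      rw [← pow_add, ← pow_add, ← pow_add, ← pow_add]; congr 1; ring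
    refine h.congr rfl rfl ?_ ?_
    · show _ = c0 * (PL.mulD D pu Y).v.shift.shift.shift.shift.ev s
      rw [TL.ev_shift, TL.ev_shift, TL.ev_shift, TL.ev_shift, hcc, e1]; ring
    · show _ = c0 * (PL.mulD D pu Y).d.shift.shift.shift.shift.ev s
      rw [TL.ev_shift, TL.ev_shift, TL.ev_shift, TL.ev_shift, hcc, e1]; ring

end

/-! ### the individual pairs -/

/-- `hqr 0` -/
def pr0 (D : ℕ) (pu p1 p2 : PL) (F F' : ℕ) : PL :=
  pqs D 4 pu (PL.mulD D p1 p1) (PL.mulD D p2 p2) F F'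

/-- `hqr 1`, factor `s^42` -/
def pr1k (D : ℕ) (pu p1 p2 : PL) (F F' : ℕ) : PL :=
  pqs D 8 pu (PL.mulD D p1 p2) (PL.mulD D p2 (PL.scal (8 * F) (8 * F'))) F F'

/-- `hqr 2`, factor `s^84` -/
def pr2k (D : ℕ) (pu p1 p2 : PL) (F F' : ℕ) : PL :=
  pqs D 16 pu (PL.mulD D p1 (PL.scal (8 * F) (8 * F')))
    (PL.mulD D p2 (PL.scal (16 * F) (16 * F'))) F F'

/-- `hqr (k+3)`, factor `2^(k+3) s^(42(k+3))` -/
def prt (D : ℕ) (pu p1 p2 : PL) (F F' : ℕ) : PL :=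
  pqs D 4 pu (PL.mulD D p1 (PL.scal (2 * F) (2 * F'))) (PL.mulD D p2 (PL.scal (4 * F) (4 * F'))) F F'

/-- `hq 1`, factor `s^42` -/
def pq1k (D : ℕ) (pu p1 p2 : PL) (F F' : ℕ) : PL := p1.add (PL.mulD D pu (pr1k D pu p1 p2 F F'))

/-- `hq 2`, factor `s^84` -/
def pq2k (D : ℕ) (pu p1 p2 : PL) (F F' : ℕ) : PL := p2.add (PL.mulD D pu (pr2k D pu p1 p2 F F'))

/-- `hq (k+3)`, factor `2^(k+3) s^(42(k+3))` -/
def pqt (D : ℕ) (pu p1 p2 : PL) (F F' : ℕ) : PL :=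
  (PL.scal F F').add (PL.mulD D pu (prt D pu p1 p2 F F'))

/-- `hqr 1`, `hqr 2`, `hq 1`, `hq 2` without factor -/
def pr1 (D : ℕ) (pu p1 p2 : PL) (F F' : ℕ) : PL := (pr1k D pu p1 p2 F F').shift
def pr2 (D : ℕ) (pu p1 p2 : PL) (F F' : ℕ) : PL := (pr2k D pu p1 p2 F F').shift.shift
def pq1 (D : ℕ) (pu p1 p2 : PL) (F F' : ℕ) : PL := (pq1k D pu p1 p2 F F').shift
def pq2 (D : ℕ) (pu p1 p2 : PL) (F F' : ℕ) : PL := (pq2k D pu p1 p2 F F').shift.shift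

/-- `hqr2` -/
def prr (D : ℕ) (pu p2 : PL) (F F' : ℕ) : PL :=
  (((PL.mulD D p2 p2).shift.shift.shift.shift).add
    (sh6 (PL.mulD D pu (PL.mulD D (PL.scal (8 * F) (8 * F')) (PL.scal (8 * F) (8 * F')))))).add
    (ptq D 16 F F').shift.shift

/-- `hqr 0 - f 1² R² = u hqr2` -/
def pr0m (D : ℕ) (pu p2 : PL) (F F' : ℕ) : PL := PL.mulD D pu (prr D pu p2 F F')

/-- inputs -/
structure QIn (M s u : ℝ) (f g : ℕ → ℝ) (pu p1 p2 : PL) (F F' : ℕ) : Prop where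
  hM : 0 ≤ M
  hs : 0 ≤ s
  hs1 : s ≤ 1
  hu0 : 0 ≤ u
  hu : u ≤ 0.01195
  u' : TJ M s pu u u
  f1 : TJ M s p1 (f 1) (g 1)
  f2 : TJ M s p2 (f 2) (g 2)
  ft : ∀ k, Mj M ((F : ℝ) / UU * 2 ^ (k + 3)) ((F' : ℝ) / UU * 2 ^ (k + 3)) (f (k + 3)) (g (k + 3))

namespace QIn

variable {M s u : ℝ} {f g : ℕ → ℝ} {pu p1 p2 : PL} {F F' D : ℕ}
  (I : QIn M s u f g pu p1 p2 F F')
include I

/-- `f (k+3)` as a scalar pair with a power of two -/
theorem sc (k m : ℕ) (c : ℝ) (hc : c * (m : ℝ) = 2 ^ (k + 3)) :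
    TK M s c (PL.scal (m * F) (m * F')) (f (k + 3)) (g (k + 3)) := by
  refine (I.ft k).congr rfl rfl ?_ ?_
  · show _ = c * (TL.cst (m * F)).ev s
    rw [TL.ev_cst, ← hc]; push_cast; ring
  · show _ = c * (TL.cst (m * F')).ev s
    rw [TL.ev_cst, ← hc]; push_cast; ring

theorem r0 (D : ℕ) : TJ M s (pr0 D pu p1 p2 F F') (hqr u f 0 s) (hqr u g 0 s) := by
  refine TK.toTJ (TK_hqr' I.hM I.hs I.hs1 I.hu0 I.hu 0 zero_le_one zero_le_one (by simp) 4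
    (by norm_num) I.ft I.u' ?_ ?_)
  · exact (TJ.mul I.hM I.hs I.hs1 D I.f1 I.f1).toTK
  · exact (TJ.mul I.hM I.hs I.hs1 D I.f2 I.f2).toTK

theorem r1k (D : ℕ) : TK M s (s ^ 42) (pr1k D pu p1 p2 F F') (hqr u f 1 s) (hqr u g 1 s) := by
  refine TK_hqr' I.hM I.hs I.hs1 I.hu0 I.hu 1 (c1 := 1) (pow_nonneg I.hs _) zero_le_one (by simp) 8
    (by push_cast; ring) I.ft I.u' ?_ ?_
  · exact (TJ.mul I.hM I.hs I.hs1 D I.f1 I.f2).toTK
  · exact (TJ.mul I.hM I.hs I.hs1 D I.f2 (I.sc 0 8 1 (by norm_num)).toTJ).toTK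

theorem r2k (D : ℕ) : TK M s (s ^ 84) (pr2k D pu p1 p2 F F') (hqr u f 2 s) (hqr u g 2 s) := by
  refine TK_hqr' I.hM I.hs I.hs1 I.hu0 I.hu 2 (c1 := 1) (pow_nonneg I.hs _) zero_le_one (by simp) 16
    (by push_cast; ring) I.ft I.u' ?_ ?_
  · exact (TJ.mul I.hM I.hs I.hs1 D I.f1 (I.sc 0 8 1 (by norm_num)).toTJ).toTK
  · exact (TJ.mul I.hM I.hs I.hs1 D I.f2 (I.sc 1 16 1 (by norm_num)).toTJ).toTK

theorem rt (D k : ℕ) : TK M s (2 ^ (k + 3) * s ^ (42 * (k + 3))) (prt D pu p1 p2 F F')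
    (hqr u f (k + 3) s) (hqr u g (k + 3) s) := by
  have h2 : (0 : ℝ) ≤ 2 ^ (k + 3) := by positivity
  refine TK_hqr' I.hM I.hs I.hs1 I.hu0 I.hu (k + 3) (c1 := 2 ^ (k + 3))
    (mul_nonneg h2 (pow_nonneg I.hs _)) h2 rfl 4 (by push_cast; ring) I.ft I.u' ?_ ?_
  · have e : 1 + (k + 3) = (k + 1) + 3 := by ring
    rw [e]
    exact (TK.mul I.hM I.hs I.hs1 zero_le_one h2 D I.f1.toTK
      (I.sc (k + 1) 2 (2 ^ (k + 3)) (by push_cast; ring))).congr_c (one_mul _)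
  · have e : 2 + (k + 3) = (k + 2) + 3 := by ring
    rw [e]
    exact (TK.mul I.hM I.hs I.hs1 zero_le_one h2 D I.f2.toTK
      (I.sc (k + 2) 4 (2 ^ (k + 3)) (by push_cast; ring))).congr_c (one_mul _)

theorem r1 (D : ℕ) : TJ M s (pr1 D pu p1 p2 F F') (hqr u f 1 s) (hqr u g 1 s) :=
  (TK.shift ((I.r1k D).congr_c (one_mul _).symm)).toTJ

theorem r2 (D : ℕ) : TJ M s (pr2 D pu p1 p2 F F') (hqr u f 2 s) (hqr u g 2 s) :=
  (TK.shift (TK.shift ((I.r2k D).congr_c (by ring)))).toTJ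

theorem q1k (D : ℕ) : TK M s (s ^ 42) (pq1k D pu p1 p2 F F') (hq u f 1 s) (hq u g 1 s) := by
  have h0 : TK M s (s ^ 42) p1 (f 1 * s ^ 42) (g 1 * s ^ 42) := by
    refine (Mj.mul_const_le (c := s ^ 42) (C := s ^ 42)
      (by rw [abs_of_nonneg (pow_nonneg I.hs _)]) I.f1).congr rfl rfl ?_ ?_ <;> ring
  have h1 := (TK.mul I.hM I.hs I.hs1 zero_le_one (pow_nonneg I.hs 42) D I.u'.toTK
    (I.r1k D)).congr_c (one_mul _)
  exact h0.add h1

theorem q2k (D : ℕ) : TK M s (s ^ 84) (pq2k D pu p1 p2 F F') (hq u f 2 s) (hq u g 2 s) := by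
  have h0 : TK M s (s ^ 84) p2 (f 2 * s ^ 84) (g 2 * s ^ 84) := by
    refine (Mj.mul_const_le (c := s ^ 84) (C := s ^ 84)
      (by rw [abs_of_nonneg (pow_nonneg I.hs _)]) I.f2).congr rfl rfl ?_ ?_ <;> ring
  have h1 := (TK.mul I.hM I.hs I.hs1 zero_le_one (pow_nonneg I.hs 84) D I.u'.toTK
    (I.r2k D)).congr_c (one_mul _)
  exact h0.add h1

theorem qt (D k : ℕ) : TK M s (2 ^ (k + 3) * s ^ (42 * (k + 3))) (pqt D pu p1 p2 F F')
    (hq u f (k + 3) s) (hq u g (k + 3) s) := by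
  have h2 : (0 : ℝ) ≤ 2 ^ (k + 3) := by positivity
  have hc : (0 : ℝ) ≤ 2 ^ (k + 3) * s ^ (42 * (k + 3)) := mul_nonneg h2 (pow_nonneg I.hs _)
  have h0 : TK M s (2 ^ (k + 3) * s ^ (42 * (k + 3))) (PL.scal F F')
      (f (k + 3) * s ^ (42 * (k + 3))) (g (k + 3) * s ^ (42 * (k + 3))) := by
    refine (Mj.mul_const_le (c := s ^ (42 * (k + 3))) (C := s ^ (42 * (k + 3)))
      (by rw [abs_of_nonneg (pow_nonneg I.hs _)]) (I.ft k)).congr rfl rfl ?_ ?_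
    · show _ = _ * (TL.cst F).ev s
      rw [TL.ev_cst]; ring
    · show _ = _ * (TL.cst F').ev s
      rw [TL.ev_cst]; ring
  have h1 := (TK.mul I.hM I.hs I.hs1 zero_le_one hc D I.u'.toTK (I.rt D k)).congr_c (one_mul _)
  exact h0.add h1

theorem q1 (D : ℕ) : TJ M s (pq1 D pu p1 p2 F F') (hq u f 1 s) (hq u g 1 s) :=
  (TK.shift ((I.q1k D).congr_c (one_mul _).symm)).toTJ

theorem q2 (D : ℕ) : TJ M s (pq2 D pu p1 p2 F F') (hq u f 2 s) (hq u g 2 s) :=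
  (TK.shift (TK.shift ((I.q2k D).congr_c (by ring)))).toTJ

/-- the uniform bound `QB` with `Q = ` sum of all coefficients -/
theorem qb (D : ℕ) : QB M s (pqt D pu p1 p2 F F').v.tot.sum (pqt D pu p1 p2 F F').d.tot.sum
    (fun k => hq u f k s) (fun k => hq u g k s) := by
  intro k hk
  obtain ⟨n, rfl⟩ : ∃ n, k = n + 3 := ⟨k - 3, by omega⟩
  have h := I.qt D n
  have hR0 : 0 ≤ s ^ 42 := pow_nonneg I.hs _
  have hR1 : s ^ 42 ≤ 1 := pow_le_one₀ I.hs I.hs1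
  have hc : (0 : ℝ) ≤ 2 ^ (n + 3) * s ^ (42 * (n + 3)) :=
    mul_nonneg (by positivity) (pow_nonneg I.hs _)
  refine Mj.mono I.hM h ?_ ?_
  · calc _ ≤ 2 ^ (n + 3) * s ^ (42 * (n + 3)) *
          (((pqt D pu p1 p2 F F').v.tot.sum : ℕ) / UU) :=
        mul_le_mul_of_nonneg_left ((TL.ev_le_tot I.hs I.hs1 _).trans (Ev_le_sum hR0 hR1 _)) hc
      _ = _ := by ring
  · calc _ ≤ 2 ^ (n + 3) * s ^ (42 * (n + 3)) *
          (((pqt D pu p1 p2 F F').d.tot.sum : ℕ) / UU) :=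
        mul_le_mul_of_nonneg_left ((TL.ev_le_tot I.hs I.hs1 _).trans (Ev_le_sum hR0 hR1 _)) hc
      _ = _ := by ring

theorem rr' (D : ℕ) : Summable (fun j : ℕ => f (j + 2) * f (j + 2) * u ^ j * s ^ (42 * (2 * (j + 2)))) ∧
    Summable (fun j : ℕ => g (j + 2) * g (j + 2) * u ^ j * s ^ (42 * (2 * (j + 2)))) ∧
    TJ M s (prr D pu p2 F F') (hqr2 u f s) (hqr2 u g s) := by
  have hM := I.hM
  have hs := I.hs
  have hs1 := I.hs1
  have hu0 := I.hu0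
  set FF : ℝ := (F : ℝ) / UU with hFF
  set FF' : ℝ := (F' : ℝ) / UU with hFF'
  have nF : 0 ≤ FF := div_nonneg (Nat.cast_nonneg _) UU_pos.le
  have nF' : 0 ≤ FF' := div_nonneg (Nat.cast_nonneg _) UU_pos.le
  have h4u0 : 0 ≤ 4 * u := by linarith
  have h4u : 4 * u < 1 := by linarith [I.hu]
  have hnum := q_num hu0 I.hu
  have h84 : 0 ≤ s ^ 84 := pow_nonneg hs _
  have h336 : 0 ≤ s ^ 336 := pow_nonneg hs _
  have h0 := (TJ.mul hM hs hs1 D I.f2 I.f2)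
  have f3 := (I.sc 0 8 1 (by norm_num)).toTJ
  have h1 := TJ.mul hM hs hs1 D I.u' (TJ.mul hM hs hs1 D f3 f3)
  have k0 := (((h0.mulR hs).mulR hs).mulR hs).mulR hs
  have k1 := (((((h1.mulR hs).mulR hs).mulR hs).mulR hs).mulR hs).mulR hs
  have key := TK_tsum2 (c := 1) (A := 16 * (4 * u) ^ 2 * (FF ^ 2 * s ^ 336))
    (A' := 16 * (4 * u) ^ 2 * (2 * FF * FF' * s ^ 336)) (q := 4 * u)
    (f := fun j : ℕ => f (j + 2) * f (j + 2) * u ^ j * s ^ (42 * (2 * (j + 2))))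
    (g := fun j : ℕ => g (j + 2) * g (j + 2) * u ^ j * s ^ (42 * (2 * (j + 2))))
    (pt := (ptq D 16 F F').shift.shift) hM zero_le_one h4u0 h4u
    ((k0.congr (by ring) (by ring)).toTK) ((k1.congr (by ring) (by ring)).toTK) ?_ ?_ ?_
  · exact ⟨key.1, key.2.1, key.2.2.toTJ⟩
  · intro j
    have a1 := I.ft (j + 1)
    have a3 := (a1.mul a1).mul_const_le (c := u ^ (2 + j) * s ^ (42 * (2 * (2 + j + 2))))
      (C := u ^ (2 + j) * s ^ (42 * (2 * (2 + j + 2))))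
      (by rw [abs_of_nonneg (mul_nonneg (pow_nonneg hu0 _) (pow_nonneg hs _))])
    have hsj : s ^ (42 * (2 * (2 + j + 2))) ≤ s ^ 336 := pow_le_pow_of_le_one hs hs1 (by omega)
    have key : ∀ X : ℝ, 0 ≤ X → X * (2 ^ (j + 1 + 3) * 2 ^ (j + 1 + 3)) *
        (u ^ (2 + j) * s ^ (42 * (2 * (2 + j + 2)))) ≤
        1 * (16 * (4 * u) ^ 2 * (X * s ^ 336)) * (4 * u) ^ j := by
      intro X hX
      have h4 : (2 : ℝ) ^ (j + 1 + 3) * 2 ^ (j + 1 + 3) = 256 * 4 ^ j := by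
        rw [← pow_add, show j + 1 + 3 + (j + 1 + 3) = 8 + 2 * j by ring, pow_add, pow_mul]
        norm_num
      calc _ ≤ X * (2 ^ (j + 1 + 3) * 2 ^ (j + 1 + 3)) * (u ^ (2 + j) * s ^ 336) := by
            refine mul_le_mul_of_nonneg_left (mul_le_mul_of_nonneg_left hsj (pow_nonneg hu0 _)) ?_
            positivity
        _ = _ := by
            rw [h4, mul_pow 4 u j, pow_add u 2 j]; ring
    refine (a3.congr ?_ ?_ rfl rfl).mono hM ?_ ?_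
    · rw [show j + 1 + 3 = 2 + j + 2 by ring]; ring
    · rw [show j + 1 + 3 = 2 + j + 2 by ring]; ring
    · refine le_trans (le_of_eq ?_) (key (FF ^ 2) (sq_nonneg _))
      ring
    · refine le_trans (le_of_eq ?_) (key (2 * FF * FF') (by positivity))
      ring
  · show _ ≤ ((ptq D 16 F F').v.shift.shift).ev s
    rw [TL.ev_shift, TL.ev_shift]
    have b := ptq_v hs hs1 D 16 F F'
    calc _ = (4 * u) ^ 2 / (1 - 4 * u) * (16 * FF ^ 2 * s ^ 336) := by ring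
      _ ≤ 0.0024 * (16 * FF ^ 2 * s ^ 336) := mul_le_mul_of_nonneg_right hnum
          (mul_nonneg (mul_nonneg (by norm_num) (sq_nonneg _)) h336)
      _ = s ^ 84 * (0.0024 * ((16 : ℕ) : ℝ) * FF ^ 2 * s ^ 252) := by push_cast; ring
      _ ≤ s ^ 84 * (ptq D 16 F F').v.ev s := mul_le_mul_of_nonneg_left b h84
      _ = _ := by ring
  · show _ ≤ ((ptq D 16 F F').d.shift.shift).ev s
    rw [TL.ev_shift, TL.ev_shift]
    have b := ptq_d hs hs1 D 16 F F'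
    calc _ = (4 * u) ^ 2 / (1 - 4 * u) * (16 * (2 * FF * FF') * s ^ 336) := by ring
      _ ≤ 0.0024 * (16 * (2 * FF * FF') * s ^ 336) := mul_le_mul_of_nonneg_right hnum
          (mul_nonneg (mul_nonneg (by norm_num) (mul_nonneg (mul_nonneg (by norm_num) nF) nF')) h336)
      _ = s ^ 84 * (0.0024 * ((16 : ℕ) : ℝ) * (2 * FF * FF') * s ^ 252) := by push_cast; ring
      _ ≤ s ^ 84 * (ptq D 16 F F').d.ev s := mul_le_mul_of_nonneg_left b h84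
      _ = _ := by ring

theorem rr (D : ℕ) : TJ M s (prr D pu p2 F F') (hqr2 u f s) (hqr2 u g s) := (I.rr' D).2.2

omit I in
theorem hqr0_eq {f : ℕ → ℝ} (h : Summable
    (fun j : ℕ => f (j + 2) * f (j + 2) * u ^ j * s ^ (42 * (2 * (j + 2))))) :
    hqr u f 0 s - f 1 ^ 2 * s ^ 84 = u * hqr2 u f s := by
  have hs' : Summable (fun j : ℕ => f (j + 1 + 1) * f (j + 1 + 1 + 0) * u ^ (j + 1) *
      s ^ (42 * (2 * (j + 1 + 1) + 0))) := by
    refine (h.mul_left u).congr fun j => ?_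
    rw [show j + 1 + 1 = j + 2 by ring, add_zero]
    ring
  have hs2 : Summable (fun j : ℕ => f (j + 1) * f (j + 1 + 0) * u ^ j *
      s ^ (42 * (2 * (j + 1) + 0))) := (summable_nat_add_iff 1).1 hs'
  unfold hqr hqr2
  rw [hs2.tsum_eq_zero_add, ← tsum_mul_left]
  have e : ∀ j : ℕ, f (j + 1 + 1) * f (j + 1 + 1 + 0) * u ^ (j + 1) *
      s ^ (42 * (2 * (j + 1 + 1) + 0)) =
      u * (f (j + 2) * f (j + 2) * u ^ j * s ^ (42 * (2 * (j + 2)))) := by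
    intro j
    rw [show j + 1 + 1 = j + 2 by ring, add_zero]
    ring
  rw [tsum_congr e]
  norm_num
  ring

theorem r0m (D : ℕ) : TJ M s (pr0m D pu p2 F F') (hqr u f 0 s - f 1 ^ 2 * s ^ 84)
    (hqr u g 0 s - g 1 ^ 2 * s ^ 84) := by
  obtain ⟨a, b, c⟩ := I.rr' D
  rw [hqr0_eq a, hqr0_eq b]
  exact TJ.mul I.hM I.hs I.hs1 D I.u' c

end QIn

end

end SCHV
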