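import Pool.Agent.MP_83fd13_an.SCH.TDef
import Pool.Agent.MP_83fd13_an.SCH.WieC

set_option autoImplicit false

/-!
# [SCH] regularity of states

`Rg x` : joint continuity, everything depends only on the clamped arguments.
-/

namespace SCHT

open MeasureTheory Set Filter Topology
open Pool.Agent.SCH

/-- qualitative regularity of a state -/
structure Rg (x : St) : Prop where
  cA : ∀ k, Continuous (x.A k)
  cV : ∀ k, Continuous (Function.uncurry (x.V k))
  kA : ∀ k ρ, x.A k (cρ ρ) = x.A k ρ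
  kV : ∀ k ρ r, x.V k (cρ ρ) (cl r) = x.V k ρ r

theorem continuous_of_dw {X : Type*} [TopologicalSpace X] {u : ℕ → X → ℝ}
    {f : X → ℝ} {wt : X → ℝ} {B : ℝ} (hB : ∀ p, wt p ≤ B) {κ C : ℝ}
    (hκ0 : 0 ≤ κ) (hκ : κ < 1) (hC : 0 ≤ C) (hu : ∀ n, Continuous (u n))
    (h : ∀ n p, |u n p - f p| ≤ C * κ ^ n * wt p) : Continuous f := by
  rw [← continuousOn_univ]
  exact continuousOn_of_dw (fun p _ => hB p) hκ0 hκ hC (fun n => (hu n).continuousOn)
    (fun n p _ => h n p)

end SCHT
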