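import Pool.Agent.MP_83fd13_an.SCH.BesB
import Pool.Agent.MP_83fd13_an.SCH.TDef
import Pool.Agent.MP_83fd13_an.SCH.WieE

set_option autoImplicit false

/-!
# [SCH] regularity of the objects of `TDef`: joint continuity and crude bounds
-/

namespace SCHT

open MeasureTheory Set Filter Topology
open Pool.Agent.SCH SCHB SCHF SCHS

noncomputable section

/-! ### the clamps -/

theorem cl_nonneg (r : ℝ) : 0 ≤ cl r := le_max_left _ _

theorem cl_le_one (r : ℝ) : cl r ≤ 1 := max_le zero_le_one (min_le_right _ _)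

theorem cl_of_mem {r : ℝ} (h0 : 0 ≤ r) (h1 : r ≤ 1) : cl r = r := by
  unfold cl; rw [min_eq_left h1, max_eq_right h0]

theorem cl_cl (r : ℝ) : cl (cl r) = cl r := cl_of_mem (cl_nonneg r) (cl_le_one r)

theorem continuous_cl : Continuous cl := by unfold cl; fun_prop

theorem rho_lt : rho2 < rho1 := by unfold rho2 rho1; norm_num

theorem rho2_le_cρ (ρ : ℝ) : rho2 ≤ cρ ρ := le_max_left _ _

theorem cρ_le_rho1 (ρ : ℝ) : cρ ρ ≤ rho1 := max_le rho_lt.le (min_le_right _ _)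

theorem cρ_of_mem {ρ : ℝ} (h0 : rho2 ≤ ρ) (h1 : ρ ≤ rho1) : cρ ρ = ρ := by
  unfold cρ; rw [min_eq_left h1, max_eq_right h0]

theorem cρ_cρ (ρ : ℝ) : cρ (cρ ρ) = cρ ρ := cρ_of_mem (rho2_le_cρ ρ) (cρ_le_rho1 ρ)

theorem continuous_cρ : Continuous cρ := by unfold cρ; fun_prop

theorem cρ_pos (ρ : ℝ) : 0 < cρ ρ := lt_of_lt_of_le (by unfold rho2; norm_num) (rho2_le_cρ ρ)

theorem cρ_le_55 (ρ : ℝ) : cρ ρ ≤ 55 := (cρ_le_rho1 ρ).trans (by unfold rho1; norm_num)

theorem comp_cl {g : ℝ → ℝ → ℝ} (hg : Continuous fun q : ℝ × ℝ => g q.1 q.2) :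
    Continuous fun q : ℝ × ℝ => g q.1 (cl q.2) :=
  hg.comp (continuous_fst.prodMk (continuous_cl.comp continuous_snd))

theorem comp_one {g : ℝ → ℝ → ℝ} (hg : Continuous fun q : ℝ × ℝ => g q.1 q.2) :
    Continuous fun x : ℝ => g x 1 :=
  hg.comp (continuous_id.prodMk (continuous_const (y := (1:ℝ))))

/-! ### good functions -/

/-- jointly continuous and `O((cl s)^p)` -/
def Gd (p : ℕ) (g : ℝ → ℝ → ℝ) : Prop :=
  Continuous (fun q : ℝ × ℝ => g q.1 (cl q.2)) ∧ ∃ K, 0 ≤ K ∧ ∀ x s, |g x (cl s)| ≤ K * cl s ^ p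

namespace Gd

variable {p p' : ℕ} {g h : ℝ → ℝ → ℝ}

theorem mono (hg : Gd p g) (hp : p' ≤ p) : Gd p' g := by
  obtain ⟨hc, K, hK, hb⟩ := hg
  refine ⟨hc, K, hK, fun x s => (hb x s).trans (mul_le_mul_of_nonneg_left ?_ hK)⟩
  exact pow_le_pow_of_le_one (cl_nonneg s) (cl_le_one s) hp

theorem add (hg : Gd p g) (hh : Gd p h) : Gd p (fun x s => g x s + h x s) := by
  obtain ⟨hc, K, hK, hb⟩ := hg
  obtain ⟨hc', K', hK', hb'⟩ := hh
  refine ⟨hc.add hc', K + K', add_nonneg hK hK', fun x s => ?_⟩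
  rw [add_mul]
  exact (abs_add_le _ _).trans (add_le_add (hb x s) (hb' x s))

theorem mul (hg : Gd p g) (hh : Gd p' h) : Gd (p + p') (fun x s => g x s * h x s) := by
  obtain ⟨hc, K, hK, hb⟩ := hg
  obtain ⟨hc', K', hK', hb'⟩ := hh
  refine ⟨hc.mul hc', K * K', mul_nonneg hK hK', fun x s => ?_⟩
  rw [abs_mul]
  calc |g x (cl s)| * |h x (cl s)| ≤ (K * cl s ^ p) * (K' * cl s ^ p') :=
        mul_le_mul (hb x s) (hb' x s) (abs_nonneg _) ((abs_nonneg _).trans (hb x s))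
    _ = _ := by rw [pow_add]; ring

theorem mul' (hg : Gd p g) (hh : Gd p' h) {e : ℕ} (he : e ≤ p + p') :
    Gd e (fun x s => g x s * h x s) := (hg.mul hh).mono he

theorem neg (hg : Gd p g) : Gd p (fun x s => -g x s) := by
  obtain ⟨hc, K, hK, hb⟩ := hg
  exact ⟨hc.neg, K, hK, fun x s => by rw [abs_neg]; exact hb x s⟩

theorem sub (hg : Gd p g) (hh : Gd p h) : Gd p (fun x s => g x s - h x s) := by
  have := hg.add hh.neg
  simpa only [sub_eq_add_neg] using this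

/-- functions of the parameter only -/
theorem par {a : ℝ → ℝ} (ha : Continuous a) {K : ℝ} (hK : ∀ x, |a x| ≤ K) :
    Gd 0 (fun x _ => a x) :=
  ⟨ha.comp continuous_fst, |K|, abs_nonneg K, fun x s => by
    rw [pow_zero, mul_one]; exact (hK x).trans (le_abs_self K)⟩

theorem const (c : ℝ) : Gd 0 (fun _ _ => c) := par (a := fun _ => c) continuous_const fun _ => le_rfl

theorem const_mul (c : ℝ) (hg : Gd p g) : Gd p (fun x s => c * g x s) :=
  ((const c).mul hg).mono (by omega)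

theorem par_mul {a : ℝ → ℝ} (ha : Continuous a) {K : ℝ} (hK : ∀ x, |a x| ≤ K) (hg : Gd p g) :
    Gd p (fun x s => a x * g x s) := ((par ha hK).mul hg).mono (by omega)

theorem pow (n : ℕ) : Gd n (fun _ s => s ^ n) :=
  ⟨(continuous_cl.comp continuous_snd).pow n, 1, zero_le_one, fun x s => by
    rw [one_mul, abs_of_nonneg (pow_nonneg (cl_nonneg s) n)]⟩

theorem sum {ι : Type*} (t : Finset ι) {g : ι → ℝ → ℝ → ℝ} (hg : ∀ i ∈ t, Gd p (g i)) :
    Gd p (fun x s => ∑ i ∈ t, g i x s) := by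
  classical
  induction t using Finset.induction_on with
  | empty =>
    refine ⟨by simpa using continuous_const, 0, le_rfl, fun x s => by simp⟩
  | insert a t ha ih =>
    have h1 := (hg a (Finset.mem_insert_self a t)).add
      (ih fun i hi => hg i (Finset.mem_insert_of_mem hi))
    refine ⟨?_, ?_⟩
    · refine h1.1.congr fun q => ?_
      have e : ∑ i ∈ insert a t, g i q.1 (cl q.2)
          = g a q.1 (cl q.2) + ∑ i ∈ t, g i q.1 (cl q.2) := Finset.sum_insert ha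
      exact e.symm
    · obtain ⟨K, hK, hb⟩ := h1.2
      refine ⟨K, hK, fun x s => ?_⟩
      have e : ∑ i ∈ insert a t, g i x (cl s) = g a x (cl s) + ∑ i ∈ t, g i x (cl s) :=
        Finset.sum_insert ha
      show |∑ i ∈ insert a t, g i x (cl s)| ≤ _
      rw [e]
      exact hb x s

theorem congr (hg : Gd p g) (e : ∀ x s, g x s = h x s) : Gd p h := by
  have : g = h := by funext x s; exact e x s
  rwa [← this]

/-- infinite sums with geometric majorants -/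
theorem tsum {g : ℕ → ℝ → ℝ → ℝ} (hc : ∀ m, Continuous (fun q : ℝ × ℝ => g m q.1 (cl q.2)))
    {K q : ℝ} (hK : 0 ≤ K) (hq0 : 0 ≤ q) (hq : q < 1)
    (hb : ∀ m x s, |g m x (cl s)| ≤ K * q ^ m * cl s ^ p) :
    Gd p (fun x s => ∑' m, g m x s) ∧ ∀ x s, Summable fun m => g m x (cl s) := by
  have hs : ∀ x s, Summable fun m => g m x (cl s) := fun x s =>
    Summable.of_norm_bounded (((summable_geometric_of_lt_one hq0 hq).mul_left K).mul_right
      (cl s ^ p)) fun m => by rw [Real.norm_eq_abs]; exact hb m x s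
  refine ⟨⟨?_, K / (1 - q), div_nonneg hK (by linarith), fun x s => ?_⟩, hs⟩
  · refine continuous_tsum_geom hc (C := K) hq0 hq fun m x => ?_
    refine (hb m x.1 x.2).trans ?_
    have h1 : cl x.2 ^ p ≤ 1 := pow_le_one₀ (cl_nonneg _) (cl_le_one _)
    exact mul_le_of_le_one_right (mul_nonneg hK (pow_nonneg hq0 m)) h1
  · have h1 : HasSum (fun m : ℕ => K * q ^ m * cl s ^ p) (K / (1 - q) * cl s ^ p) := by
      have := ((hasSum_geometric_of_lt_one hq0 hq).mul_left K).mul_right (cl s ^ p)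
      rwa [← div_eq_mul_inv] at this
    have h2 := Mj.abs_tsum_le h1.summable fun m => hb m x s
    rwa [h1.tsum_eq] at h2

end Gd

/-- a family with geometric bounds -/
def Uf (th : ℝ) (e : ℕ → ℕ) (g : ℕ → ℝ → ℝ → ℝ) : Prop :=
  (∀ k, Continuous (fun q : ℝ × ℝ => g k q.1 (cl q.2))) ∧
    ∃ K, 0 ≤ K ∧ ∀ k x s, |g k x (cl s)| ≤ K * th ^ k * cl s ^ e k

theorem Uf.gd {th : ℝ} (h0 : 0 ≤ th) {e : ℕ → ℕ} {g : ℕ → ℝ → ℝ → ℝ} (h : Uf th e g) (k : ℕ) :
    Gd (e k) (g k) := by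
  obtain ⟨hc, K, hK, hb⟩ := h
  exact ⟨hc k, K * th ^ k, by positivity, hb k⟩

/-- the shifted correlation of two families -/
theorem Uf.tsum_mul {th : ℝ} (h0 : 0 ≤ th) (h1 : th < 1) {e e' : ℕ → ℕ} {g h : ℕ → ℝ → ℝ → ℝ}
    (hg : Uf th e g) (hh : Uf th e' h) (a b : ℕ) {p : ℕ} (hp : ∀ m, p ≤ e (m + a) + e' (m + b)) :
    Gd p (fun x s => ∑' m, g (m + a) x s * h (m + b) x s) ∧
      ∀ x s, Summable fun m => g (m + a) x (cl s) * h (m + b) x (cl s) := by
  obtain ⟨hc, K, hK, hb⟩ := hg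
  obtain ⟨hc', K', hK', hb'⟩ := hh
  refine Gd.tsum (g := fun m x s => g (m + a) x s * h (m + b) x s) (K := K * K') (q := th)
    (fun m => (hc _).mul (hc' _)) (mul_nonneg hK hK') h0 h1 fun m x s => ?_
  rw [abs_mul]
  have hs0 := cl_nonneg s
  have hs1 := cl_le_one s
  have e1 : th ^ (m + a) ≤ th ^ m := pow_le_pow_of_le_one h0 h1.le (by omega)
  have e2 : th ^ (m + b) ≤ 1 := pow_le_one₀ h0 h1.le
  calc |g (m + a) x (cl s)| * |h (m + b) x (cl s)|
      ≤ (K * th ^ (m + a) * cl s ^ e (m + a)) * (K' * th ^ (m + b) * cl s ^ e' (m + b)) :=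
        mul_le_mul (hb _ x s) (hb' _ x s) (abs_nonneg _) ((abs_nonneg _).trans (hb _ x s))
    _ = K * K' * (th ^ (m + a) * th ^ (m + b)) * (cl s ^ (e (m + a) + e' (m + b))) := by
        rw [pow_add (cl s)]; ring
    _ ≤ K * K' * (th ^ m * 1) * cl s ^ p := by
        refine mul_le_mul (mul_le_mul_of_nonneg_left
          (mul_le_mul e1 e2 (by positivity) (by positivity)) (by positivity))
          (pow_le_pow_of_le_one hs0 hs1 (hp m)) (by positivity) (by positivity)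
    _ = _ := by ring

/-! ### the data -/

/-- crude exponents of the unknown functions -/
def wt : ℕ → ℕ
  | 0 => 2
  | 1 => 2
  | k + 2 => 42 * (k + 1)

/-- parameter dependent data with crude bounds -/
structure Dat (C th : ℝ) (R α : ℝ → ℝ) (φ : ℝ → ℕ → ℝ) (V : ℝ → ℕ → ℝ → ℝ) : Prop where
  hC : 1 ≤ C
  th0 : 0 < th
  th1 : th < 1
  cR : Continuous R
  R0 : ∀ x, 0 < R x
  R1 : ∀ x, R x ≤ 55
  ca : Continuous α
  ba : ∀ x, |α x| ≤ C
  cf : ∀ k, Continuous fun x => φ x k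
  bf : ∀ x k, |φ x k| ≤ C * th ^ k
  cV : ∀ k, Continuous fun p : ℝ × ℝ => V p.1 k p.2
  bV : ∀ x k s, 0 ≤ s → s ≤ 1 → |V x k s| ≤ C * th ^ k * s ^ wt k

theorem abs_rr_le {ρ r : ℝ} (h0 : 0 < ρ) (h1 : ρ ≤ 55) (hr : 0 ≤ r) (hr1 : r ≤ 1) :
    |ρ * r| ≤ 55 := by
  rw [abs_of_nonneg (by positivity)]; nlinarith

theorem PP_le {ρ r : ℝ} (h0 : 0 < ρ) (h1 : ρ ≤ 55) (hr : 0 ≤ r) (hr1 : r ≤ 1) (n : ℕ) :
    |PP J ρ n r| ≤ 28 * r ^ n := by
  unfold PP
  have hJ := abs_J_le_one 1 (ρ * r)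
  have hx := abs_rr_le h0 h1 hr hr1
  have hn : (1:ℝ) ≤ (n : ℝ) + 1 := by
    have : (0:ℝ) ≤ n := Nat.cast_nonneg n
    linarith
  rw [abs_div, abs_neg, abs_mul, abs_mul, abs_div, abs_of_nonneg (pow_nonneg hr n),
    abs_of_pos (by linarith : (0:ℝ) < (n : ℝ) + 1), abs_of_pos (by norm_num : (0:ℝ) < 2)]
  refine (div_le_self (by positivity) hn).trans ?_
  have h2 : |ρ * r| / 2 * |J 1 (ρ * r)| ≤ 28 := by
    have : |ρ * r| / 2 * |J 1 (ρ * r)| ≤ 55 / 2 * 1 :=
      mul_le_mul (by linarith) hJ (abs_nonneg _) (by norm_num)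
    linarith
  calc r ^ n * (|ρ * r| / 2) * |J 1 (ρ * r)| = r ^ n * (|ρ * r| / 2 * |J 1 (ρ * r)|) := by ring
    _ ≤ r ^ n * 28 := mul_le_mul_of_nonneg_left h2 (pow_nonneg hr n)
    _ = _ := by ring

theorem Q0_le {ρ r : ℝ} (h0 : 0 < ρ) (h1 : ρ ≤ 55) (hr : 0 ≤ r) (hr1 : r ≤ 1) :
    |Q0 J ρ r| ≤ 800 * r ^ 84 := by
  unfold Q0
  have hJ := abs_J_le_one 1 (ρ * r)
  have hJ2 := abs_J_le_one 2 (ρ * r)
  have hx := abs_rr_le h0 h1 hr hr1
  have hx2 : (ρ * r) ^ 2 ≤ 55 ^ 2 := by rw [← sq_abs]; exact pow_le_pow_left₀ (abs_nonneg _) hx 2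
  rw [abs_mul, abs_of_nonneg (pow_nonneg hr 84), mul_comm (800:ℝ)]
  refine mul_le_mul_of_nonneg_left ?_ (pow_nonneg hr 84)
  refine (abs_sub _ _).trans ?_
  rw [abs_mul, abs_mul, abs_div, abs_div, abs_of_nonneg (sq_nonneg (ρ * r)),
    abs_of_pos (by norm_num : (0:ℝ) < 4), abs_of_pos (by norm_num : (0:ℝ) < 2)]
  have t1 : (ρ * r) ^ 2 / 4 * |J 2 (ρ * r)| ≤ 55 ^ 2 / 4 * 1 :=
    mul_le_mul (by linarith) hJ2 (abs_nonneg _) (by norm_num)
  have t2 : |ρ * r| / 2 * |J 1 (ρ * r)| ≤ 55 / 2 * 1 :=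
    mul_le_mul (by linarith) hJ (abs_nonneg _) (by norm_num)
  linarith

theorem Q2_le {ρ r : ℝ} (h0 : 0 < ρ) (h1 : ρ ≤ 55) (hr : 0 ≤ r) (hr1 : r ≤ 1) :
    |Q2 J ρ r| ≤ 800 * r ^ 84 := by
  unfold Q2
  have hJ2 := abs_J_le_one 2 (ρ * r)
  have hx := abs_rr_le h0 h1 hr hr1
  have hx2 : (ρ * r) ^ 2 ≤ 55 ^ 2 := by rw [← sq_abs]; exact pow_le_pow_left₀ (abs_nonneg _) hx 2
  rw [mul_assoc, abs_mul, abs_of_nonneg (pow_nonneg hr 84), mul_comm (800:ℝ)]
  refine mul_le_mul_of_nonneg_left ?_ (pow_nonneg hr 84)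
  rw [abs_mul, abs_div, abs_of_nonneg (sq_nonneg (ρ * r)), abs_of_pos (by norm_num : (0:ℝ) < 8)]
  have t1 : (ρ * r) ^ 2 / 8 * |J 2 (ρ * r)| ≤ 55 ^ 2 / 8 * 1 :=
    mul_le_mul (by linarith) hJ2 (abs_nonneg _) (by norm_num)
  linarith

theorem A0_le {ρ r : ℝ} (h0 : 0 < ρ) (h1 : ρ ≤ 55) (hr : 0 ≤ r) (hr1 : r ≤ 1) :
    |A0 J ρ r| ≤ 55 * r ^ 42 := by
  unfold A0
  have hJ := abs_J_le_one 43 (ρ * r)
  have hx := abs_rr_le h0 h1 hr hr1
  rw [abs_neg, mul_assoc, abs_mul, abs_of_nonneg (pow_nonneg hr 42), mul_comm (55:ℝ)]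
  refine mul_le_mul_of_nonneg_left ?_ (pow_nonneg hr 42)
  rw [abs_mul]
  have t1 : |ρ * r| * |J 43 (ρ * r)| ≤ 55 * 1 := mul_le_mul hx hJ (abs_nonneg _) (by norm_num)
  linarith

theorem A2_le {ρ r : ℝ} (h0 : 0 < ρ) (h1 : ρ ≤ 55) (hr : 0 ≤ r) (hr1 : r ≤ 1) :
    |A2 J ρ r| ≤ 55 * r ^ 42 := by
  unfold A2
  have hJ := abs_J_le_one 41 (ρ * r)
  have hx := abs_rr_le h0 h1 hr hr1
  rw [mul_assoc, abs_mul, abs_of_nonneg (pow_nonneg hr 42), mul_comm (55:ℝ)]
  refine mul_le_mul_of_nonneg_left ?_ (pow_nonneg hr 42)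
  rw [abs_mul, abs_div, abs_of_pos (by norm_num : (0:ℝ) < 2)]
  have t1 : |ρ * r| / 2 * |J 41 (ρ * r)| ≤ 55 / 2 * 1 :=
    mul_le_mul (by linarith) hJ (abs_nonneg _) (by norm_num)
  linarith

/-- exponents of `VV` -/
def ev (k : ℕ) : ℕ := 42 * (k - 1)

/-- exponents of `qq` -/
def eq' (k : ℕ) : ℕ := 42 * k

namespace Dat

variable {C th : ℝ} {R α : ℝ → ℝ} {φ : ℝ → ℕ → ℝ} {V : ℝ → ℕ → ℝ → ℝ}

theorem C0 (H : Dat C th R α φ V) : 0 ≤ C := zero_le_one.trans H.hC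

theorem cJ (H : Dat C th R α φ V) (n : ℕ) : Continuous fun q : ℝ × ℝ => J n (R q.1 * q.2) :=
  (continuous_J n).comp ((H.cR.comp continuous_fst).mul continuous_snd)

theorem gJ (H : Dat C th R α φ V) (n : ℕ) : Gd 0 (fun x s => J n (R x * s)) :=
  ⟨(continuous_J n).comp ((H.cR.comp continuous_fst).mul (continuous_cl.comp continuous_snd)),
    1, zero_le_one, fun x s => by rw [pow_zero, mul_one]; exact abs_J_le_one n _⟩

theorem cXX (H : Dat C th R α φ V) (k : ℕ) :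
    Continuous fun q : ℝ × ℝ => XX (R q.1) (α q.1) (φ q.1) k q.2 := by
  have hR : Continuous fun q : ℝ × ℝ => R q.1 := H.cR.comp continuous_fst
  have ha : Continuous fun q : ℝ × ℝ => α q.1 := H.ca.comp continuous_fst
  have hf : ∀ k, Continuous fun q : ℝ × ℝ => φ q.1 k := fun k => (H.cf k).comp continuous_fst
  have hJ := H.cJ
  have hs : Continuous fun q : ℝ × ℝ => q.2 := continuous_snd
  have hRs : Continuous fun q : ℝ × ℝ => R q.1 * q.2 := hR.mul hs
  have hPP : ∀ n, Continuous fun q : ℝ × ℝ => PP J (R q.1) n q.2 := fun n => by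
    unfold PP
    exact ((((hs.pow n).mul (hRs.div_const 2)).mul (hJ 1)).neg).div_const _
  match k with
  | 0 =>
    have h1 : Continuous fun q : ℝ × ℝ => Q0 J (R q.1) q.2 := by
      unfold Q0
      exact (hs.pow 84).mul ((((hRs.pow 2).div_const 4).mul (hJ 2)).sub
        ((hRs.div_const 2).mul (hJ 1)))
    have h2 : Continuous fun q : ℝ × ℝ => A0 J (R q.1) q.2 := by
      unfold A0
      exact (((hs.pow 42).mul hRs).mul (hJ 43)).neg
    exact ((((hf 1).div_const 43).pow 2).mul h1).add ((ha.mul ((hf 1).div_const 43)).mul h2)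
  | 1 => exact ((hf 1).mul (hPP 42)).add (ha.mul (hJ 42))
  | 2 =>
    have h1 : Continuous fun q : ℝ × ℝ => Q2 J (R q.1) q.2 := by
      unfold Q2
      exact ((hs.pow 84).mul ((hRs.pow 2).div_const 8)).mul (hJ 2)
    have h2 : Continuous fun q : ℝ × ℝ => A2 J (R q.1) q.2 := by
      unfold A2
      exact ((hs.pow 42).mul (hRs.div_const 2)).mul (hJ 41)
    exact (((hf 2).mul (hPP 84)).add ((((hf 1).div_const 43).pow 2).mul h1)).add
      ((ha.mul ((hf 1).div_const 43)).mul h2)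
  | k + 3 => exact (hf (k + 3)).mul (hPP (42 * (k + 3)))

theorem bXX (H : Dat C th R α φ V) (k : ℕ) (x : ℝ) {r : ℝ} (hr : 0 ≤ r) (hr1 : r ≤ 1) :
    |XX (R x) (α x) (φ x) k r| ≤ 2000 * C ^ 2 / th ^ 2 * th ^ k * r ^ ev k := by
  have hC := H.C0
  have hC1 := H.hC
  have hth := H.th0
  have hth1 := H.th1.le
  have h2 : 0 < th ^ 2 := pow_pos hth 2
  have h21 : th ^ 2 ≤ 1 := pow_le_one₀ hth.le hth1
  have hCC : C ≤ C ^ 2 := by nlinarith
  have hCC0 : 0 ≤ C ^ 2 := by positivity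
  have hf1 : |φ x 1| ≤ C := (H.bf x 1).trans (by
    rw [pow_one]; exact mul_le_of_le_one_right hC hth1)
  have hf1' : |φ x 1 / 43| ≤ C := by
    rw [abs_div, abs_of_pos (by norm_num : (0:ℝ) < 43)]
    have : |φ x 1| / 43 ≤ |φ x 1| := div_le_self (abs_nonneg _) (by norm_num)
    linarith
  have hf2 : |φ x 2| ≤ C := (H.bf x 2).trans (mul_le_of_le_one_right hC h21)
  have hsq : |(φ x 1 / 43) ^ 2| ≤ C ^ 2 := by
    rw [abs_pow]; exact pow_le_pow_left₀ (abs_nonneg _) hf1' 2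
  have hag : |α x * (φ x 1 / 43)| ≤ C ^ 2 := by
    rw [abs_mul, sq]; exact mul_le_mul (H.ba x) hf1' (abs_nonneg _) hC
  -- for `k ≤ 2` it suffices to have the bound `2000 C^2`
  have red : ∀ j ≤ 2, ∀ a : ℝ, a ≤ 2000 * C ^ 2 * r ^ ev j →
      a ≤ 2000 * C ^ 2 / th ^ 2 * th ^ j * r ^ ev j := by
    intro j hj a ha
    refine ha.trans (mul_le_mul_of_nonneg_right ?_ (pow_nonneg hr _))
    have e1 : th ^ 2 ≤ th ^ j := pow_le_pow_of_le_one hth.le hth1 hj
    rw [div_mul_eq_mul_div, le_div_iff₀ h2]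
    exact mul_le_mul_of_nonneg_left e1 (by positivity)
  have hP := PP_le (H.R0 x) (H.R1 x) hr hr1
  have p42 : r ^ 84 ≤ r ^ 42 := pow_le_pow_of_le_one hr hr1 (by norm_num)
  have p1 : r ^ 42 ≤ 1 := pow_le_one₀ hr hr1
  have p0 : 0 ≤ r ^ 42 := pow_nonneg hr _
  have p00 : 0 ≤ r ^ 84 := pow_nonneg hr _
  match k with
  | 0 =>
    refine red 0 (by norm_num) _ ?_
    show |(φ x 1 / 43) ^ 2 * Q0 J (R x) r + α x * (φ x 1 / 43) * A0 J (R x) r| ≤ _
    have e : r ^ ev 0 = 1 := by simp [ev]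
    rw [e, mul_one]
    refine (abs_add_le _ _).trans ?_
    rw [abs_mul, abs_mul (α x * (φ x 1 / 43))]
    have t1 := mul_le_mul hsq (Q0_le (H.R0 x) (H.R1 x) hr hr1) (abs_nonneg _) hCC0
    have t2 := mul_le_mul hag (A0_le (H.R0 x) (H.R1 x) hr hr1) (abs_nonneg _) hCC0
    nlinarith
  | 1 =>
    refine red 1 (by norm_num) _ ?_
    show |φ x 1 * PP J (R x) 42 r + α x * J 42 (R x * r)| ≤ _
    have e : r ^ ev 1 = 1 := by simp [ev]
    rw [e, mul_one]
    refine (abs_add_le _ _).trans ?_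
    rw [abs_mul, abs_mul]
    have t1 := mul_le_mul hf1 (hP 42) (abs_nonneg _) hC
    have t2 := mul_le_mul (H.ba x) (abs_J_le_one 42 (R x * r)) (abs_nonneg _) hC
    nlinarith
  | 2 =>
    refine red 2 le_rfl _ ?_
    show |φ x 2 * PP J (R x) 84 r + (φ x 1 / 43) ^ 2 * Q2 J (R x) r
      + α x * (φ x 1 / 43) * A2 J (R x) r| ≤ _
    have e : r ^ ev 2 = r ^ 42 := by simp [ev]
    rw [e]
    refine (abs_add_le _ _).trans ?_
    have h3 := abs_add_le (φ x 2 * PP J (R x) 84 r) ((φ x 1 / 43) ^ 2 * Q2 J (R x) r)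
    rw [abs_mul, abs_mul] at h3
    rw [abs_mul (α x * (φ x 1 / 43))]
    have t0 := mul_le_mul hf2 (hP 84) (abs_nonneg _) hC
    have t1 := mul_le_mul hsq (Q2_le (H.R0 x) (H.R1 x) hr hr1) (abs_nonneg _) hCC0
    have t2 := mul_le_mul hag (A2_le (H.R0 x) (H.R1 x) hr hr1) (abs_nonneg _) hCC0
    nlinarith
  | k + 3 =>
    show |φ x (k + 3) * PP J (R x) (42 * (k + 3)) r| ≤ _
    rw [abs_mul]
    have t1 := mul_le_mul (H.bf x (k + 3)) (hP (42 * (k + 3))) (abs_nonneg _) (by positivity)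
    refine t1.trans ?_
    have e1 : r ^ (42 * (k + 3)) ≤ r ^ ev (k + 3) :=
      pow_le_pow_of_le_one hr hr1 (by unfold ev; omega)
    have e2 : C * 28 ≤ 2000 * C ^ 2 / th ^ 2 := by
      rw [le_div_iff₀ h2]
      nlinarith
    calc C * th ^ (k + 3) * (28 * r ^ (42 * (k + 3)))
        = (C * 28) * th ^ (k + 3) * r ^ (42 * (k + 3)) := by ring
      _ ≤ 2000 * C ^ 2 / th ^ 2 * th ^ (k + 3) * r ^ ev (k + 3) := by
        refine mul_le_mul (mul_le_mul_of_nonneg_right e2 (by positivity)) e1 (pow_nonneg hr _)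
          (by positivity)

theorem uXX (H : Dat C th R α φ V) :
    Uf th ev (fun k x s => XX (R x) (α x) (φ x) k s) := by
  refine ⟨fun k => comp_cl (g := fun x s => XX (R x) (α x) (φ x) k s) (H.cXX k),
    2000 * C ^ 2 / th ^ 2, ?_, fun k x s => H.bXX k x (cl_nonneg s) (cl_le_one s)⟩
  have := H.th0
  positivity

theorem ev_le_wt (k : ℕ) : ev k ≤ wt k := by
  match k with
  | 0 => simp [ev]
  | 1 => simp [ev]
  | k + 2 =>
    show 42 * (k + 2 - 1) ≤ 42 * (k + 1)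
    omega

theorem uV (H : Dat C th R α φ V) : Uf th ev (fun k x s => V x k s) := by
  refine ⟨fun k => comp_cl (g := fun x s => V x k s) (H.cV k),
    C, H.C0, fun k x s => (H.bV x k _ (cl_nonneg s) (cl_le_one s)).trans ?_⟩
  exact mul_le_mul_of_nonneg_left (pow_le_pow_of_le_one (cl_nonneg s) (cl_le_one s) (ev_le_wt k))
    (mul_nonneg H.C0 (pow_nonneg H.th0.le k))

theorem uRR (H : Dat C th R α φ V) :
    Uf th ev (fun k x s => RR (R x) (α x) (φ x) (V x) k s) := by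
  obtain ⟨c1, K1, hK1, b1⟩ := H.uV
  obtain ⟨c2, K2, hK2, b2⟩ := H.uXX
  have hth := H.th0.le
  refine ⟨fun k => ?_, K1 + K2, by positivity, fun k x s => ?_⟩
  · match k with
    | 0 => exact c1 0
    | 1 => exact c1 1
    | k + 2 =>
      have h0 := comp_one (g := fun x s => XX (R x) (α x) (φ x) (k + 2) s) (H.cXX (k + 2))
      have h1 : Continuous fun q : ℝ × ℝ => XX (R q.1) (α q.1) (φ q.1) (k + 2) 1 :=
        h0.comp continuous_fst
      exact (c1 (k + 2)).sub (h1.mul ((continuous_cl.comp continuous_snd).pow _))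
  · match k with
    | 0 =>
      refine (b1 0 x s).trans (mul_le_mul_of_nonneg_right (mul_le_mul_of_nonneg_right
        (by linarith) (pow_nonneg hth _)) (pow_nonneg (cl_nonneg s) _))
    | 1 =>
      refine (b1 1 x s).trans (mul_le_mul_of_nonneg_right (mul_le_mul_of_nonneg_right
        (by linarith) (pow_nonneg hth _)) (pow_nonneg (cl_nonneg s) _))
    | k + 2 =>
      show |V x (k + 2) (cl s) - XX (R x) (α x) (φ x) (k + 2) 1 * cl s ^ (42 * (k + 2))| ≤ _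
      refine (abs_sub _ _).trans ?_
      rw [abs_mul, abs_of_nonneg (pow_nonneg (cl_nonneg s) _)]
      have h1 := b1 (k + 2) x s
      have h2 := b2 (k + 2) x 1
      rw [cl_of_mem zero_le_one le_rfl, one_pow, mul_one] at h2
      have e1 : cl s ^ (42 * (k + 2)) ≤ cl s ^ ev (k + 2) :=
        pow_le_pow_of_le_one (cl_nonneg s) (cl_le_one s) (by unfold ev; omega)
      have h3 := mul_le_mul h2 e1 (pow_nonneg (cl_nonneg s) _) (by positivity)
      calc _ ≤ K1 * th ^ (k + 2) * cl s ^ ev (k + 2) + K2 * th ^ (k + 2) * cl s ^ ev (k + 2) :=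
            add_le_add h1 h3
        _ = _ := by ring

theorem uVV (H : Dat C th R α φ V) :
    Uf th ev (fun k x s => VV (R x) (α x) (φ x) (V x) k s) := by
  obtain ⟨c1, K1, hK1, b1⟩ := H.uXX
  obtain ⟨c2, K2, hK2, b2⟩ := H.uRR
  refine ⟨fun k => (c1 k).add (c2 k), K1 + K2, by positivity, fun k x s => ?_⟩
  unfold VV
  refine (abs_add_le _ _).trans ((add_le_add (b1 k x s) (b2 k x s)).trans (le_of_eq ?_))
  ring

theorem gf (H : Dat C th R α φ V) (k : ℕ) : Gd 0 (fun x _ => φ x k) :=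
  Gd.par (H.cf k) (H.bf · k)

theorem uqr (H : Dat C th R α φ V) :
    Uf th eq' (fun k x s => qr (φ x) k s) := by
  have hth := H.th0.le
  have hth1 := H.th1
  have hC := H.C0
  have key : ∀ k, ∀ m x s, |φ x (m + 1) * φ x (m + 1 + k) * cl s ^ (42 * (2 * (m + 1) + k))| ≤
      C * C * th ^ k * th ^ m * cl s ^ eq' k := by
    intro k m x s
    rw [abs_mul, abs_mul, abs_of_nonneg (pow_nonneg (cl_nonneg s) _)]
    have h1 := H.bf x (m + 1)
    have h2 := H.bf x (m + 1 + k)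
    have e1 : cl s ^ (42 * (2 * (m + 1) + k)) ≤ cl s ^ eq' k :=
      pow_le_pow_of_le_one (cl_nonneg s) (cl_le_one s) (by unfold eq'; omega)
    have e2 : th ^ (m + 1) ≤ th ^ m := pow_le_pow_of_le_one hth hth1.le (by omega)
    have e3 : th ^ (m + 1 + k) ≤ th ^ k := pow_le_pow_of_le_one hth hth1.le (by omega)
    have h1' : |φ x (m + 1)| ≤ C * th ^ m := h1.trans (mul_le_mul_of_nonneg_left e2 hC)
    have h2' : |φ x (m + 1 + k)| ≤ C * th ^ k := h2.trans (mul_le_mul_of_nonneg_left e3 hC)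
    calc |φ x (m + 1)| * |φ x (m + 1 + k)| * cl s ^ (42 * (2 * (m + 1) + k))
        ≤ (C * th ^ m) * (C * th ^ k) * cl s ^ eq' k :=
          mul_le_mul (mul_le_mul h1' h2' (abs_nonneg _) (by positivity)) e1
            (pow_nonneg (cl_nonneg s) _) (by positivity)
      _ = _ := by ring
  have cc : ∀ k m, Continuous fun q : ℝ × ℝ =>
      φ q.1 (m + 1) * φ q.1 (m + 1 + k) * cl q.2 ^ (42 * (2 * (m + 1) + k)) := fun k m =>
    (((H.cf _).comp continuous_fst).mul ((H.cf _).comp continuous_fst)).mul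
      ((continuous_cl.comp continuous_snd).pow _)
  have hg : ∀ k, Gd (eq' k) (fun x s => ∑' m, (fun m x s => φ x (m + 1) * φ x (m + 1 + k) *
      s ^ (42 * (2 * (m + 1) + k))) m x s) := fun k =>
    (Gd.tsum (g := fun m x s => φ x (m + 1) * φ x (m + 1 + k) * s ^ (42 * (2 * (m + 1) + k)))
      (cc k) (K := C * C * th ^ k) (by positivity) hth hth1 (key k)).1
  refine ⟨fun k => (hg k).1, C * C / (1 - th), div_nonneg (by positivity) (by linarith),
    fun k x s => ?_⟩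
  have h1 : HasSum (fun m : ℕ => C * C * th ^ k * th ^ m * cl s ^ eq' k)
      (C * C / (1 - th) * th ^ k * cl s ^ eq' k) := by
    have h := ((hasSum_geometric_of_lt_one hth hth1).mul_left (C * C * th ^ k)).mul_right
      (cl s ^ eq' k)
    have e : C * C * th ^ k * (1 - th)⁻¹ * cl s ^ eq' k
        = C * C / (1 - th) * th ^ k * cl s ^ eq' k := by rw [div_eq_mul_inv]; ring
    rwa [e] at h
  have h2 := Mj.abs_tsum_le h1.summable fun m => key k m x s
  rwa [h1.tsum_eq] at h2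

theorem uqq (H : Dat C th R α φ V) :
    Uf th eq' (fun k x s => qq (φ x) k s) := by
  obtain ⟨c1, K1, hK1, b1⟩ := H.uqr
  have hth := H.th0.le
  have hC := H.C0
  refine ⟨fun k => ?_, C + K1, by positivity, fun k x s => ?_⟩
  · unfold qq
    rcases eq_or_ne k 0 with rfl | hk
    · simpa using c1 0
    · simp only [hk, if_false]
      exact ((((H.cf k).comp continuous_fst).mul
        ((continuous_cl.comp continuous_snd).pow _))).add (c1 k)
  · unfold qq
    refine (abs_add_le _ _).trans ?_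
    have h1 : |if k = 0 then 0 else φ x k * cl s ^ (42 * k)| ≤ C * th ^ k * cl s ^ eq' k := by
      rcases eq_or_ne k 0 with rfl | hk
      · simp only [if_true, abs_zero]
        have := cl_nonneg s
        positivity
      · simp only [hk, if_false]
        rw [abs_mul, abs_of_nonneg (pow_nonneg (cl_nonneg s) _)]
        exact mul_le_mul_of_nonneg_right (H.bf x k) (pow_nonneg (cl_nonneg s) _)
    refine (add_le_add h1 (b1 k x s)).trans (le_of_eq ?_)
    ring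

theorem gqr2 (H : Dat C th R α φ V) : Gd 0 (fun x s => qr2 (φ x) s) := by
  have hth := H.th0.le
  have hth1 := H.th1
  have hC := H.C0
  refine (Gd.tsum (g := fun m x s => φ x (m + 2) * φ x (m + 2) * s ^ (42 * (2 * (m + 2))))
    (K := C * C) (q := th) (fun m => ?_) (by positivity) hth hth1 fun m x s => ?_).1
  · exact ((((H.cf _).comp continuous_fst).mul ((H.cf _).comp continuous_fst)).mul
      ((continuous_cl.comp continuous_snd).pow _))
  · rw [abs_mul, abs_mul, abs_of_nonneg (pow_nonneg (cl_nonneg s) _), pow_zero, mul_one]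
    have e2 : th ^ (m + 2) ≤ th ^ m := pow_le_pow_of_le_one hth hth1.le (by omega)
    have e3 : th ^ (m + 2) ≤ 1 := pow_le_one₀ hth hth1.le
    have h1 : |φ x (m + 2)| ≤ C * th ^ m := (H.bf x _).trans (mul_le_mul_of_nonneg_left e2 hC)
    have h2 : |φ x (m + 2)| ≤ C := (H.bf x _).trans (mul_le_of_le_one_right hC e3)
    calc |φ x (m + 2)| * |φ x (m + 2)| * cl s ^ (42 * (2 * (m + 2)))
        ≤ (C * th ^ m) * C * 1 := mul_le_mul (mul_le_mul h1 h2 (abs_nonneg _) (by positivity))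
          (pow_le_one₀ (cl_nonneg s) (cl_le_one s)) (pow_nonneg (cl_nonneg s) _) (by positivity)
      _ = _ := by ring

theorem gVV (H : Dat C th R α φ V) (k : ℕ) :
    Gd (ev k) (fun x s => VV (R x) (α x) (φ x) (V x) k s) := H.uVV.gd H.th0.le k

theorem gRR (H : Dat C th R α φ V) (k : ℕ) :
    Gd (ev k) (fun x s => RR (R x) (α x) (φ x) (V x) k s) := H.uRR.gd H.th0.le k

theorem gV (H : Dat C th R α φ V) (k : ℕ) :
    Gd (ev k) (fun x s => V x k s) := H.uV.gd H.th0.le k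

theorem gqq (H : Dat C th R α φ V) (k : ℕ) : Gd (eq' k) (fun x s => qq (φ x) k s) :=
  H.uqq.gd H.th0.le k

theorem gqr (H : Dat C th R α φ V) (k : ℕ) : Gd (eq' k) (fun x s => qr (φ x) k s) :=
  H.uqr.gd H.th0.le k

/-- all infinite sums of `GG` converge absolutely -/
theorem summable_qV (H : Dat C th R α φ V) (a b : ℕ) (x s : ℝ) :
    Summable fun m => qq (φ x) (m + a) (cl s) * VV (R x) (α x) (φ x) (V x) (m + b) (cl s) :=
  (Uf.tsum_mul H.th0.le H.th1 H.uqq H.uVV a b (p := 0) (fun _ => Nat.zero_le _)).2 x s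

/-- `∑_m (q_{m+a} V_{m+b} + q_{m+c} V_{m+d})` -/
theorem gsum2 (H : Dat C th R α φ V) (a b c d : ℕ) {p : ℕ}
    (h1 : ∀ m, p ≤ eq' (m + a) + ev (m + b)) (h2 : ∀ m, p ≤ eq' (m + c) + ev (m + d)) :
    Gd p (fun x s => ∑' m, (qq (φ x) (m + a) s * VV (R x) (α x) (φ x) (V x) (m + b) s +
      qq (φ x) (m + c) s * VV (R x) (α x) (φ x) (V x) (m + d) s)) := by
  have t1 := Uf.tsum_mul H.th0.le H.th1 H.uqq H.uVV a b h1
  have t2 := Uf.tsum_mul H.th0.le H.th1 H.uqq H.uVV c d h2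
  have t3 := t1.1.add t2.1
  have e : ∀ x s, (∑' m, (qq (φ x) (m + a) (cl s) * VV (R x) (α x) (φ x) (V x) (m + b) (cl s) +
      qq (φ x) (m + c) (cl s) * VV (R x) (α x) (φ x) (V x) (m + d) (cl s))) =
      (∑' m, qq (φ x) (m + a) (cl s) * VV (R x) (α x) (φ x) (V x) (m + b) (cl s)) +
      ∑' m, qq (φ x) (m + c) (cl s) * VV (R x) (α x) (φ x) (V x) (m + d) (cl s) :=
    fun x s => (t1.2 x s).tsum_add (t2.2 x s)
  obtain ⟨hc, K, hK, hb⟩ := t3
  refine ⟨hc.congr fun q => (e q.1 q.2).symm, K, hK, fun x s => ?_⟩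
  show |∑' m, (qq (φ x) (m + a) (cl s) * VV (R x) (α x) (φ x) (V x) (m + b) (cl s) +
      qq (φ x) (m + c) (cl s) * VV (R x) (α x) (φ x) (V x) (m + d) (cl s))| ≤ _
  rw [e]
  exact hb x s

theorem gGG (H : Dat C th R α φ V) (k : ℕ) :
    Gd (ev k) (fun x s => GG (R x) (α x) (φ x) (V x) k s) := by
  match k with
  | 0 =>
    have e : ev 0 = 0 := rfl
    have t1 : Gd 0 (fun x s => qr2 (φ x) s * J 0 (R x * s)) := H.gqr2.mul' (H.gJ 0) (by omega)
    have t2 : Gd 0 (fun x s => qq (φ x) 0 s * VV (R x) (α x) (φ x) (V x) 0 s) :=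
      (H.gqq 0).mul' (H.gVV 0) (by omega)
    have t3 : Gd 0 (fun x s => 2 * (φ x 1 * s ^ 42 * V x 1 s)) :=
      ((((H.gf 1).mul' (Gd.pow 42) (e := 0) (by omega)).mul' (H.gV 1) (e := 0)
        (by omega))).const_mul 2
    have t4 : Gd 0 (fun x s => 2 * (qr (φ x) 1 s * VV (R x) (α x) (φ x) (V x) 1 s)) :=
      ((H.gqr 1).mul' (H.gVV 1) (e := 0) (by omega)).const_mul 2
    have t5 : Gd 0 (fun x s => 2 * ∑' m : ℕ, qq (φ x) (m + 2) s *
        VV (R x) (α x) (φ x) (V x) (m + 2) s) :=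
      (Uf.tsum_mul H.th0.le H.th1 H.uqq H.uVV 2 2 (p := 0) (fun _ => Nat.zero_le _)).1.const_mul 2
    exact (((t1.add t2).add t3).add t4).add t5
  | 1 =>
    have t1 : Gd 0 (fun x s => qr (φ x) 1 s * J 0 (R x * s)) := (H.gqr 1).mul' (H.gJ 0) (by omega)
    have t2 : Gd 0 (fun x s => qq (φ x) 1 s * VV (R x) (α x) (φ x) (V x) 0 s) :=
      (H.gqq 1).mul' (H.gVV 0) (by omega)
    have t3 : Gd 0 (fun x s => qq (φ x) 0 s * VV (R x) (α x) (φ x) (V x) 1 s) :=
      (H.gqq 0).mul' (H.gVV 1) (by omega)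
    have t4 := H.gsum2 2 1 1 2 (p := 0) (fun _ => Nat.zero_le _) (fun _ => Nat.zero_le _)
    exact ((t1.add t2).add t3).add t4
  | 2 =>
    have e2 : ev 2 = 42 := rfl
    have t1 : Gd 42 (fun x s => qr (φ x) 2 s * J 0 (R x * s)) :=
      (H.gqr 2).mul' (H.gJ 0) (by unfold eq'; omega)
    have t2 : Gd 42 (fun x s => qq (φ x) 2 s * VV (R x) (α x) (φ x) (V x) 0 s) :=
      (H.gqq 2).mul' (H.gVV 0) (by unfold eq'; omega)
    have t3 : Gd 42 (fun x s => φ x 1 * s ^ 42 * V x 1 s) :=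
      (((H.gf 1).mul' (Gd.pow 42) (e := 42) (by omega)).mul' (H.gV 1) (by omega))
    have t4 : Gd 42 (fun x s => qr (φ x) 1 s * VV (R x) (α x) (φ x) (V x) 1 s) :=
      (H.gqr 1).mul' (H.gVV 1) (by unfold eq'; omega)
    have t5 : Gd 42 (fun x s => qq (φ x) 0 s * VV (R x) (α x) (φ x) (V x) 2 s) :=
      (H.gqq 0).mul' (H.gVV 2) (by unfold eq' ev; omega)
    have t6 := H.gsum2 3 1 1 3 (p := 42) (fun m => by unfold eq'; omega)
      (fun m => by unfold eq'; omega)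
    exact ((((t1.add t2).add t3).add t4).add t5).add t6
  | k + 3 =>
    have ek : ev (k + 3) = 42 * (k + 2) := by unfold ev; omega
    rw [ek]
    have t1 : Gd (42 * (k + 2)) (fun x s => qr (φ x) (k + 3) s * J 0 (R x * s)) :=
      (H.gqr (k + 3)).mul' (H.gJ 0) (by unfold eq'; omega)
    have t2 : Gd (42 * (k + 2)) (fun x s => qq (φ x) (k + 3) s *
        VV (R x) (α x) (φ x) (V x) 0 s) := (H.gqq (k + 3)).mul' (H.gVV 0) (by unfold eq'; omega)
    have t3 : Gd (42 * (k + 2)) (fun x s => ∑ i ∈ Finset.range (k + 2), qq (φ x) (i + 1) s *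
        VV (R x) (α x) (φ x) (V x) (k + 2 - i) s) := by
      refine Gd.sum _ (g := fun i x s => qq (φ x) (i + 1) s *
        VV (R x) (α x) (φ x) (V x) (k + 2 - i) s) fun i hi => ?_
      have hi' := Finset.mem_range.1 hi
      exact (H.gqq (i + 1)).mul' (H.gVV (k + 2 - i)) (by unfold eq' ev; omega)
    have t4 : Gd (42 * (k + 2)) (fun x s => qq (φ x) 0 s *
        VV (R x) (α x) (φ x) (V x) (k + 3) s) :=
      (H.gqq 0).mul' (H.gVV (k + 3)) (by unfold eq' ev; omega)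
    have t5 : Gd (42 * (k + 2)) (fun x s => ∑' m : ℕ, (qq (φ x) (k + m + 4) s *
        VV (R x) (α x) (φ x) (V x) (m + 1) s + qq (φ x) (m + 1) s *
        VV (R x) (α x) (φ x) (V x) (k + m + 4) s)) := by
      have h := H.gsum2 (k + 4) 1 1 (k + 4) (p := 42 * (k + 2)) (fun m => by unfold eq'; omega)
        (fun m => by unfold eq' ev; omega)
      refine h.congr fun x s => ?_
      refine tsum_congr fun m => ?_
      rw [show m + (k + 4) = k + m + 4 by omega]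
    exact (((t1.add t2).add t3).add t4).add t5

theorem gSS (H : Dat C th R α φ V) (k : ℕ) :
    Gd (ev k) (fun x s => SS (R x) (α x) (φ x) (V x) k s) := (H.gGG k).add (H.gRR k)

end Dat

end

end SCHT
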