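import Pool.Agent.MP_83fd13_an.SCH.RegA
import Pool.Agent.MP_83fd13_an.SCH.RegB
import Pool.Agent.MP_83fd13_an.SCH.SinR

set_option autoImplicit false

/-!
# [SCH] `T` preserves regularity
-/

namespace SCHT

open MeasureTheory Set Filter Topology
open Pool.Agent.SCH SCHB SCHF SCHS

noncomputable section

theorem TV_add_two (ρ α : ℝ) (φ : ℕ → ℝ) (V : ℕ → ℝ → ℝ) (k : ℕ) (r : ℝ) :
    TV ρ α φ V (k + 2) r = ρ ^ 2 * Gr (42 * (k + 2)) (fun s => SS ρ α φ V (k + 2) (cl s)) r := by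
  rw [TV]

namespace Dat

variable {C th : ℝ} {R α : ℝ → ℝ} {φ : ℝ → ℕ → ℝ} {V : ℝ → ℕ → ℝ → ℝ}

theorem bV2 (H : Dat C th R α φ V) {k : ℕ} (hk : wt k = 2) (x s : ℝ) (h0 : 0 < s) (h1 : s ≤ 1) :
    |V x k (cl s)| ≤ C * s ^ 2 := by
  rw [cl_of_mem h0.le h1]
  refine (H.bV x k s h0.le h1).trans ?_
  rw [hk]
  refine mul_le_mul_of_nonneg_right ?_ (pow_nonneg h0.le 2)
  exact mul_le_of_le_one_right H.C0 (pow_le_one₀ H.th0.le H.th1.le)

theorem cVcl (H : Dat C th R α φ V) (k : ℕ) :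
    Continuous (Function.uncurry fun x s => V x k (cl s)) :=
  comp_cl (g := fun x s => V x k s) (H.cV k)

theorem bGd {g : ℝ → ℝ → ℝ} {p : ℕ} (hg : Gd p g) :
    ∃ K, 0 ≤ K ∧ ∀ x, ∀ s : ℝ, 0 < s → s ≤ 1 → |g x (cl s)| ≤ K * s ^ p := by
  obtain ⟨_, K, hK, hb⟩ := hg
  refine ⟨K, hK, fun x s h0 h1 => ?_⟩
  have := hb x s
  rwa [cl_of_mem h0.le h1] at this ⊢

/-- general form -/
theorem gr_cont {n p : ℕ} (hn : 42 < n) (hp : n ≤ p + 42) {g : ℝ → ℝ → ℝ} (hg : Gd p g)
    {R : ℝ → ℝ} (hR : Continuous R) :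
    Continuous fun q : ℝ × ℝ => R q.1 ^ 2 * Gr n (fun s => g q.1 (cl s)) (cl q.2) := by
  obtain ⟨K, hK, hb⟩ := bGd hg
  have h := Gr_joint (n := n) (p := p) (N := 42) (by norm_num) hn hp
    (F := fun x s => g x (cl s)) hg.1 (I := univ) (fun x _ => hb x)
  have hm : Continuous fun q : ℝ × ℝ => (q.1, cl q.2) :=
    continuous_fst.prodMk (continuous_cl.comp continuous_snd)
  have h2 : Continuous fun q : ℝ × ℝ => Gr n (fun s => g q.1 (cl s)) (cl q.2) :=
    h.comp_continuous hm fun q => ⟨mem_univ _, cl_nonneg _, cl_le_one _⟩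
  have h3 : Continuous fun q : ℝ × ℝ => R q.1 ^ 2 := (hR.comp continuous_fst).pow 2
  exact h3.mul h2

theorem cTV2 (H : Dat C th R α φ V) (k : ℕ) :
    Continuous fun q : ℝ × ℝ => TV (R q.1) (α q.1) (φ q.1) (V q.1) (k + 2) (cl q.2) := by
  have h := gr_cont (n := 42 * (k + 2)) (p := ev (k + 2)) (by omega) (by unfold ev; omega)
    (g := fun x s => SS (R x) (α x) (φ x) (V x) (k + 2) s) (H.gSS (k + 2)) H.cR
  simp only [TV_add_two]
  exact h

theorem cTV (H : Dat C th R α φ V) (k : ℕ) :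
    Continuous fun q : ℝ × ℝ => TV (R q.1) (α q.1) (φ q.1) (V q.1) k (cl q.2) := by
  match k with
  | 0 =>
    obtain ⟨K, hK, hb⟩ := bGd (H.gGG 0)
    have h := SCHR.continuous_SV_joint (c := -1 / 4) (a := ev 0) (b := 2) H.cR H.R0
      (fun x => (H.R1 x).trans (by norm_num)) (F := fun x s => GG (R x) (α x) (φ x) (V x) 0 (cl s))
      (V := fun x s => V x 0 (cl s)) (H.gGG 0).1 (H.cVcl 0) le_rfl hb
      (fun x s h0 h1 => H.bV2 rfl x s h0 h1)
    exact comp_cl (g := fun x r => SV (R x) (-1 / 4)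
      (fun s => GG (R x) (α x) (φ x) (V x) 0 (cl s)) (fun s => V x 0 (cl s)) r) h
  | 1 =>
    obtain ⟨K, hK, hb⟩ := bGd (H.gGG 1)
    have h := SCHR.continuous_SV_joint (c := 42 ^ 2 - 1 / 4) (a := ev 1) (b := 2) H.cR H.R0
      (fun x => (H.R1 x).trans (by norm_num)) (F := fun x s => GG (R x) (α x) (φ x) (V x) 1 (cl s))
      (V := fun x s => V x 1 (cl s)) (H.gGG 1).1 (H.cVcl 1) le_rfl hb
      (fun x s h0 h1 => H.bV2 rfl x s h0 h1)
    exact comp_cl (g := fun x r => SV (R x) (42 ^ 2 - 1 / 4)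
      (fun s => GG (R x) (α x) (φ x) (V x) 1 (cl s)) (fun s => V x 1 (cl s)) r) h
  | k + 2 => exact H.cTV2 k

theorem cdd0 (H : Dat C th R α φ V) :
    Continuous fun x => dd0 (R x) (α x) (φ x) (V x) :=
  SCHR.continuous_SV'_one (c := -1 / 4) (b := 2) H.cR H.R0
    (F := fun x s => GG (R x) (α x) (φ x) (V x) 0 (cl s))
    (V := fun x s => V x 0 (cl s)) (H.gGG 0).1 (H.cVcl 0) le_rfl
    (fun x s h0 h1 => H.bV2 rfl x s h0 h1)

theorem cdd1 (H : Dat C th R α φ V) :
    Continuous fun x => dd1 (R x) (α x) (φ x) (V x) :=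
  SCHR.continuous_SV'_one (c := 42 ^ 2 - 1 / 4) (b := 2) H.cR H.R0
    (F := fun x s => GG (R x) (α x) (φ x) (V x) 1 (cl s))
    (V := fun x s => V x 1 (cl s)) (H.gGG 1).1 (H.cVcl 1) le_rfl
    (fun x s h0 h1 => H.bV2 rfl x s h0 h1)

theorem cint (H : Dat C th R α φ V) (k : ℕ) (n : ℕ) :
    Continuous fun x => ∫ s in (0:ℝ)..1, s ^ (n + 1) * SS (R x) (α x) (φ x) (V x) k (cl s) :=
  continuous_int_one (n := n) (F := fun x s => SS (R x) (α x) (φ x) (V x) k (cl s)) (H.gSS k).1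

/-- the four denominators do not vanish -/
structure Nz (R : ℝ → ℝ) : Prop where
  J0 : ∀ x, J 0 (R x) ≠ 0
  J42 : ∀ x, J 41 (R x) - J 43 (R x) ≠ 0
  e0 : ∀ x, eps0 (R x) ≠ 0
  D : ∀ x, D1 J (R x) ≠ 0

theorem cD1 (H : Dat C th R α φ V) : Continuous fun x => D1 J (R x) := by
  have h : ∀ n, Continuous fun x => J n (R x) := fun n => (continuous_J n).comp H.cR
  unfold D1
  exact ((((H.cR.pow 2).mul (h 0)).neg).div_const _).add (((H.cR.pow 3).mul (h 1)).div_const _)

theorem ceps0 (H : Dat C th R α φ V) (hN : Nz R) : Continuous fun x => eps0 (R x) := by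
  have h : ∀ n, Continuous fun x => J n (R x) := fun n => (continuous_J n).comp H.cR
  unfold eps0 beta
  exact Real.continuous_sqrt.comp ((H.cR.mul (h 1)).div H.cD1 hN.D)

theorem cTA (H : Dat C th R α φ V) (hN : Nz R) (k : ℕ) :
    Continuous fun x => TA (R x) (α x) (φ x) (V x) k := by
  have h : ∀ n, Continuous fun x => J n (R x) := fun n => (continuous_J n).comp H.cR
  have hR := H.cR
  match k with
  | 0 =>
    refine Continuous.div ?_ ?_ fun x => ?_
    · exact (((H.cf 1).div_const 86).mul (((hR.pow 2).mul (h 0)).add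
        ((continuous_const.mul hR).mul (h 1)))).sub H.cdd1
    · exact hR.mul (((h 41).sub (h 43)).div_const 2)
    · exact mul_ne_zero (H.R0 x).ne' (div_ne_zero (hN.J42 x) (by norm_num))
  | 1 =>
    have he := H.ceps0 hN
    refine Continuous.sub ?_ ?_
    · refine Continuous.div ?_ (continuous_const.mul he) fun x => mul_ne_zero two_ne_zero (hN.e0 x)
      exact (((H.cf 1).sub he).pow 2).neg
    · refine Continuous.div ?_ ((continuous_const.mul he).mul H.cD1)
        fun x => mul_ne_zero (mul_ne_zero two_ne_zero (hN.e0 x)) (hN.D x)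
      refine Continuous.add (Continuous.mul (Continuous.mul ?_ H.ca) (H.cf 1)) H.cdd0
      unfold Da
      exact (((hR.pow 2).mul (h 42)).neg).div_const _
  | 2 =>
    refine Continuous.mul ?_ ?_
    · exact (continuous_const.div (h 0) hN.J0).neg
    · refine Continuous.sub (H.cint 2 84) ?_
      refine Continuous.div ?_ (hR.pow 2) fun x => pow_ne_zero 2 (H.R0 x).ne'
      unfold ee2
      exact ((((((H.cf 1).div_const 43).pow 2).mul (hR.pow 3)).mul (h 1)).div_const 8).sub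
        ((((H.ca.mul ((H.cf 1).div_const 43)).mul (hR.pow 2)).mul (h 42)).div_const 2)
  | k + 3 =>
    refine Continuous.mul ?_ (H.cint (k + 3) (42 * (k + 3)))
    exact (continuous_const.div (h 0) hN.J0).neg

end Dat

/-! ### states -/

/-- crude bounds of a state, sufficient for regularity -/
structure Crude (C th : ℝ) (x : St) : Prop where
  hC : 1 ≤ C
  th0 : 0 < th
  th1 : th < 1
  b0 : ∀ ρ, |x.A 0 (cρ ρ)| ≤ C
  bf : ∀ ρ k, |x.ph (cρ ρ) k| ≤ C * th ^ k
  bV : ∀ ρ k s, 0 ≤ s → s ≤ 1 → |x.V k (cρ ρ) s| ≤ C * th ^ k * s ^ wt k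

/-- the denominators do not vanish on `I` -/
def NzI : Prop := Dat.Nz cρ

/-- a regular state provides the data -/
theorem dat_of_state {C th : ℝ} {x : St} (hN : NzI) (hR : Rg x) (hc : Crude C th x) :
    Dat C th cρ (fun ρ => x.A 0 (cρ ρ)) (fun ρ => x.ph (cρ ρ)) (fun ρ k => x.V k (cρ ρ)) := by
  have heps : Continuous fun ρ => eps0 (cρ ρ) := by
    have h : ∀ n, Continuous fun x => J n (cρ x) := fun n => (continuous_J n).comp continuous_cρ
    have hD : Continuous fun x => D1 J (cρ x) := by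
      unfold D1
      exact ((((continuous_cρ.pow 2).mul (h 0)).neg).div_const _).add
        (((continuous_cρ.pow 3).mul (h 1)).div_const _)
    unfold eps0 beta
    exact Real.continuous_sqrt.comp ((continuous_cρ.mul (h 1)).div hD hN.D)
  exact
  { hC := hc.hC
    th0 := hc.th0
    th1 := hc.th1
    cR := continuous_cρ
    R0 := cρ_pos
    R1 := cρ_le_55
    ca := (hR.cA 0).comp continuous_cρ
    ba := hc.b0
    cf := fun k => by
      match k with
      | 0 => exact continuous_const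
      | 1 => exact heps.add ((hR.cA 1).comp continuous_cρ)
      | k + 2 => exact (hR.cA (k + 2)).comp continuous_cρ
    bf := hc.bf
    cV := fun k => (hR.cV k).comp ((continuous_cρ.comp continuous_fst).prodMk continuous_snd)
    bV := hc.bV }

/-- **`T` preserves regularity.** -/
theorem rg_T {C th : ℝ} {x : St} (hN : NzI) (hR : Rg x) (hc : Crude C th x) : Rg (T x) := by
  have H := dat_of_state hN hR hc
  refine ⟨fun k => H.cTA hN k, fun k => H.cTV k, fun k ρ => ?_, fun k ρ r => ?_⟩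
  · show TA (cρ (cρ ρ)) (x.A 0 (cρ (cρ ρ))) (x.ph (cρ (cρ ρ))) (fun k => x.V k (cρ (cρ ρ))) k = _
    rw [cρ_cρ]
    rfl
  · show TV (cρ (cρ ρ)) (x.A 0 (cρ (cρ ρ))) (x.ph (cρ (cρ ρ))) (fun k => x.V k (cρ (cρ ρ))) k
      (cl (cl r)) = _
    rw [cρ_cρ, cl_cl]
    rfl

end

end SCHT
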