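import Pool.Agent.MP_83fd13_an.SCH.RegC
import Pool.Agent.MP_83fd13_an.SCH.TBes
import Pool.Agent.MP_83fd13_an.SCH.TMain

set_option autoImplicit false

/-!
# [SCH] regularity: start, closure, `T`; the fixed point with regularity
-/

namespace SCHT

open MeasureTheory Set Filter Topology
open Pool.Agent.SCH SCHB SCHF SCHS

noncomputable section

/-- the denominators do not vanish on `I` -/
theorem nzI : NzI where
  J0 x := (J0_neg (cρ_mem x)).ne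
  J42 x := by
    have h := den_pos (cρ_mem x)
    intro e
    rw [e, zero_div, mul_zero] at h
    exact lt_irrefl _ h
  e0 x := (eps0_pos (cρ_mem x)).ne'
  D x := (D1_pos (cρ_mem x)).ne'

theorem continuous_eps0_cρ : Continuous fun ρ => eps0 (cρ ρ) := by
  have h : ∀ n, Continuous fun x => J n (cρ x) := fun n => (continuous_J n).comp continuous_cρ
  have hD : Continuous fun x => D1 J (cρ x) := by
    unfold D1
    exact ((((continuous_cρ.pow 2).mul (h 0)).neg).div_const _).add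
      (((continuous_cρ.pow 3).mul (h 1)).div_const _)
  unfold eps0 beta
  exact Real.continuous_sqrt.comp ((continuous_cρ.mul (h 1)).div hD nzI.D)

theorem eps0_cρ_le_one (ρ : ℝ) : eps0 (cρ ρ) ≤ 1 :=
  (eps0_le (cρ_mem ρ)).trans (by norm_num)

theorem rg_start (cA : ℕ → ℝ) : Rg (start cA) where
  cA k := (continuous_eps0_cρ.pow (pA k)).mul continuous_const
  cV _ := continuous_const
  kA k ρ := by
    show eps0 (cρ (cρ ρ)) ^ pA k * cA k = eps0 (cρ ρ) ^ pA k * cA k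
    rw [cρ_cρ]
  kV _ _ _ := rfl

theorem contR_of_rg {x : St} (hx : Rg x) : ContR x := fun ρ _ k =>
  (hx.cV k).comp (continuous_const.prodMk continuous_cl)

section lim

variable {wA : ℕ → ℝ} {wV : ℕ → ℝ → ℝ} {κ : ℝ}

/-- **the limit of regular states is regular** -/
theorem rg_lim (hκ0 : 0 ≤ κ) (hκ : κ < 1) (hwA : ∀ k, 0 ≤ wA k)
    (hwV : ∀ k, ∀ r ∈ Icc (0:ℝ) 1, 0 ≤ wV k r)
    (hwB : ∀ k, ∃ B, ∀ r ∈ Icc (0:ℝ) 1, wV k r ≤ B)
    {u : ℕ → St} {x : St} {C : ℝ} (hC : 0 ≤ C) (hu : ∀ n, Rg (u n))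
    (H : ∀ n, DSt wA wV (C * κ ^ n) (u n) x) : Rg x where
  cA k := by
    refine continuous_of_dw (u := fun n => (u n).A k) (f := x.A k)
      (wt := fun ρ => eps0 (cρ ρ) ^ pA k * wA k) (B := wA k) ?_ hκ0 hκ hC (fun n => (hu n).cA k) ?_
    · intro ρ
      exact mul_le_of_le_one_left (hwA k)
        (pow_le_one₀ (eps0_pos (cρ_mem ρ)).le (eps0_cρ_le_one ρ))
    · intro n ρ
      exact H n (Sum.inl (k, ρ))
  cV k := by
    obtain ⟨B, hB⟩ := hwB k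
    refine continuous_of_dw (u := fun n => Function.uncurry ((u n).V k))
      (f := Function.uncurry (x.V k))
      (wt := fun q => eps0 (cρ q.1) ^ pV k * wV k (cl q.2)) (B := B) ?_ hκ0 hκ hC
      (fun n => (hu n).cV k) ?_
    · intro q
      exact (mul_le_of_le_one_left (hwV k _ (cl_mem q.2))
        (pow_le_one₀ (eps0_pos (cρ_mem q.1)).le (eps0_cρ_le_one q.1))).trans (hB _ (cl_mem q.2))
    · intro n q
      exact H n (Sum.inr (k, q.1, q.2))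
  kA k ρ := by
    have h : |x.A k (cρ ρ) - x.A k ρ| ≤ 0 := by
      refine le_of_dw (u := fun n => (u n).A k (cρ ρ) - (u n).A k ρ) (C := C)
        (c := 2 * (eps0 (cρ ρ) ^ pA k * wA k)) hκ0 hκ (fun n => ?_) fun n => ?_
      · have h1 := H n (Sum.inl (k, cρ ρ))
        have h2 := H n (Sum.inl (k, ρ))
        simp only [enc, ww, cρ_cρ] at h1 h2
        rw [abs_le] at h1 h2 ⊢
        constructor <;> linarith [h1.1, h1.2, h2.1, h2.2]
      · rw [(hu n).kA, sub_self, abs_zero]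
    exact sub_eq_zero.1 (abs_eq_zero.1 (le_antisymm h (abs_nonneg _)))
  kV k ρ r := by
    have h : |x.V k (cρ ρ) (cl r) - x.V k ρ r| ≤ 0 := by
      refine le_of_dw (u := fun n => (u n).V k (cρ ρ) (cl r) - (u n).V k ρ r) (C := C)
        (c := 2 * (eps0 (cρ ρ) ^ pV k * wV k (cl r))) hκ0 hκ (fun n => ?_) fun n => ?_
      · have h1 := H n (Sum.inr (k, cρ ρ, cl r))
        have h2 := H n (Sum.inr (k, ρ, r))
        simp only [enc, ww, cρ_cρ, cl_cl] at h1 h2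
        rw [abs_le] at h1 h2 ⊢
        constructor <;> linarith [h1.1, h1.2, h2.1, h2.2]
      · rw [(hu n).kV, sub_self, abs_zero]
    exact sub_eq_zero.1 (abs_eq_zero.1 (le_antisymm h (abs_nonneg _)))

end lim

/-! ### crude bounds from the box -/

theorem le_pV (k : ℕ) : k ≤ pV k := by
  match k with
  | 0 => exact Nat.zero_le _
  | 1 => show 1 ≤ 3; norm_num
  | k + 2 => exact le_rfl

/-- crude bounds from the box -/
theorem crude_of_boxed {cA bA : ℕ → ℝ} {bV : ℕ → ℝ → ℝ} {C0 : ℝ} (hC0 : 0 ≤ C0)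
    (hA : ∀ k, |cA k| + bA k ≤ C0 * 2 ^ k)
    (hV : ∀ k, ∀ r ∈ Icc (0:ℝ) 1, bV k r ≤ C0 * 2 ^ k * r ^ wt k)
    {x : St} (hx : Boxed cA bA bV x) : Crude (1 + 2 * C0) (1 / 4) x := by
  have e0 : ∀ ρ, 0 < eps0 (cρ ρ) := fun ρ => eps0_pos (cρ_mem ρ)
  have e1 : ∀ ρ, eps0 (cρ ρ) ≤ 1 / 8 := fun ρ => (eps0_le (cρ_mem ρ)).trans (by norm_num)
  have e2 : ∀ ρ n, eps0 (cρ ρ) ^ n ≤ (1 / 8) ^ n := fun ρ n =>
    pow_le_pow_left₀ (e0 ρ).le (e1 ρ) n
  have bA' : ∀ ρ k, |x.A k (cρ ρ)| ≤ eps0 (cρ ρ) ^ pA k * (C0 * 2 ^ k) := by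
    intro ρ k
    have h := hx.A _ (cρ_mem ρ) k
    have hp := (pow_pos (e0 ρ) (pA k)).le
    have h2 : |x.A k (cρ ρ)| ≤ eps0 (cρ ρ) ^ pA k * (|cA k| + bA k) := by
      have e : x.A k (cρ ρ) = (x.A k (cρ ρ) - eps0 (cρ ρ) ^ pA k * cA k) +
        eps0 (cρ ρ) ^ pA k * cA k := by ring
      rw [e]
      refine (abs_add_le _ _).trans ?_
      rw [abs_mul, abs_of_nonneg hp, mul_add]
      linarith
    exact h2.trans (mul_le_mul_of_nonneg_left (hA k) hp)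
  refine ⟨by linarith, by norm_num, by norm_num, fun ρ => ?_, fun ρ k => ?_, fun ρ k s h0 h1 => ?_⟩
  · refine (bA' ρ 0).trans ?_
    have : eps0 (cρ ρ) ^ pA 0 ≤ 1 := pow_le_one₀ (e0 ρ).le ((e1 ρ).trans (by norm_num))
    calc _ ≤ 1 * (C0 * 2 ^ 0) := mul_le_mul_of_nonneg_right this (by positivity)
      _ ≤ _ := by rw [pow_zero]; linarith
  · match k with
    | 0 =>
      show |(1:ℝ)| ≤ _
      rw [abs_one, pow_zero]
      linarith
    | 1 =>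
      show |eps0 (cρ ρ) + x.A 1 (cρ ρ)| ≤ _
      have h := bA' ρ 1
      have hp : eps0 (cρ ρ) ^ pA 1 = eps0 (cρ ρ) := pow_one _
      rw [hp] at h
      refine (abs_add_le _ _).trans ?_
      rw [abs_of_pos (e0 ρ)]
      have h3 : eps0 (cρ ρ) * (C0 * 2 ^ 1) ≤ 1 / 8 * (C0 * 2 ^ 1) :=
        mul_le_mul_of_nonneg_right (e1 ρ) (by positivity)
      have := e1 ρ
      linarith
    | k + 2 =>
      show |x.A (k + 2) (cρ ρ)| ≤ _
      refine (bA' ρ (k + 2)).trans ?_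
      have hp : pA (k + 2) = k + 2 := rfl
      rw [hp]
      calc _ ≤ (1 / 8) ^ (k + 2) * (C0 * 2 ^ (k + 2)) :=
            mul_le_mul_of_nonneg_right (e2 ρ _) (by positivity)
        _ = C0 * (1 / 4) ^ (k + 2) := by
            rw [show (1 / 4 : ℝ) = 1 / 8 * 2 by norm_num, mul_pow]
            ring
        _ ≤ _ := mul_le_mul_of_nonneg_right (by linarith) (by positivity)
  · have h := hx.V _ (cρ_mem ρ) k s ⟨h0, h1⟩
    refine h.trans ?_
    calc _ ≤ eps0 (cρ ρ) ^ pV k * (C0 * 2 ^ k * s ^ wt k) :=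
          mul_le_mul_of_nonneg_left (hV k s ⟨h0, h1⟩) (pow_pos (e0 ρ) _).le
      _ ≤ (1 / 8) ^ k * (C0 * 2 ^ k * s ^ wt k) := by
          refine mul_le_mul_of_nonneg_right ?_ (by positivity)
          exact (pow_le_pow_of_le_one (e0 ρ).le (eps0_cρ_le_one ρ) (le_pV k)).trans (e2 ρ k)
      _ = C0 * (1 / 4) ^ k * s ^ wt k := by
          rw [show (1 / 4 : ℝ) = 1 / 8 * 2 by norm_num, mul_pow]
          ring
      _ ≤ _ := by
          refine mul_le_mul_of_nonneg_right (mul_le_mul_of_nonneg_right (by linarith) ?_) ?_ <;>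
            positivity

/-- **the fixed point, with regularity.** -/
theorem exists_fixed_rg {cA bA wA : ℕ → ℝ} {bV wV : ℕ → ℝ → ℝ} {κ : ℝ}
    (HL : HatLip cA bA bV wA wV κ) (hκ0 : 0 ≤ κ) (hκ : κ < 1)
    (hbA : ∀ k, 0 ≤ bA k) (hbV : ∀ k, ∀ r ∈ Icc (0:ℝ) 1, 0 ≤ bV k r)
    (hwA : ∀ k, 0 ≤ wA k) (hwV : ∀ k, ∀ r ∈ Icc (0:ℝ) 1, 0 ≤ wV k r)
    {C : ℝ} (hC : 0 ≤ C) (hbwA : ∀ k, bA k ≤ C * wA k)
    (hbwV : ∀ k, ∀ r ∈ Icc (0:ℝ) 1, bV k r ≤ C * wV k r)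
    {C0 : ℝ} (hC0 : 0 ≤ C0) (hA : ∀ k, |cA k| + bA k ≤ C0 * 2 ^ k)
    (hV : ∀ k, ∀ r ∈ Icc (0:ℝ) 1, bV k r ≤ C0 * 2 ^ k * r ^ wt k)
    (hwB : ∀ k, ∃ B, ∀ r ∈ Icc (0:ℝ) 1, wV k r ≤ B) :
    ∃ x, Boxed cA bA bV x ∧ Rg x ∧ Crude (1 + 2 * C0) (1 / 4) x ∧ T x = x := by
  obtain ⟨x, hx, hr, e⟩ := exists_fixed HL (fun ρ hρ => eps0_pos hρ) hκ0 hκ hbA hbV hwA hwV hC hbwA
    hbwV (Reg := Rg) (rg_start cA) (fun x hx => contR_of_rg hx)
    (fun x hx hr => rg_T nzI hr (crude_of_boxed hC0 hA hV hx))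
    (fun u x C hC _ hu H => rg_lim hκ0 hκ hwA hwV hwB hC hu H)
  exact ⟨x, hx, hr, crude_of_boxed hC0 hA hV hx, e⟩

end

end SCHT
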