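import Pool.Agent.MP_83fd13_an.SCH.Sin1

/-!
# [SCH] sine kernel, scaled form on `C[0,1]`, bounds
-/

namespace SCHS

open MeasureTheory Set Filter Topology intervalIntegral
open scoped Real

noncomputable section

variable {ρ c : ℝ} {f v g φ : ℝ → ℝ}

/-- `∫_0^1 √t t^a dt = 1 / (a + 3/2)` -/
theorem int_sqrt_pow (a : ℕ) : ∫ t in (0 : ℝ)..1, √t * t ^ a = 1 / ((a : ℝ) + 3 / 2) := by
  have e : ∫ t in (0 : ℝ)..1, √t * t ^ a = ∫ t in (0 : ℝ)..1, t ^ ((a : ℝ) + 1 / 2) := by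
    apply intervalIntegral.integral_congr
    intro t ht
    rw [uIcc_of_le zero_le_one] at ht
    simp only
    rcases eq_or_lt_of_le ht.1 with h0 | h0
    · rw [← h0, Real.sqrt_zero, zero_mul, Real.zero_rpow (by positivity)]
    · rw [Real.rpow_add h0, Real.rpow_natCast, Real.sqrt_eq_rpow, mul_comm]
  rw [e, integral_rpow (Or.inl (by
    have : (0 : ℝ) ≤ a := by positivity
    linarith))]
  rw [Real.one_rpow, Real.zero_rpow (by positivity), sub_zero]
  congr 1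
  ring

/-- `∫_0^1 (1 - t) √t t^a dt = 1 / ((a + 3/2) (a + 5/2))` -/
theorem int_one_sub_sqrt_pow (a : ℕ) : ∫ t in (0 : ℝ)..1, (1 - t) * (√t * t ^ a) =
    1 / (((a : ℝ) + 3 / 2) * ((a : ℝ) + 5 / 2)) := by
  have e : ∀ t : ℝ, (1 - t) * (√t * t ^ a) = √t * t ^ a - √t * t ^ (a + 1) := by
    intro t; ring
  simp_rw [e]
  rw [intervalIntegral.integral_sub ((by fun_prop : Continuous _).intervalIntegrable _ _)
    ((by fun_prop : Continuous _).intervalIntegrable _ _), int_sqrt_pow, int_sqrt_pow]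
  push_cast
  have h1 : (a : ℝ) + 3 / 2 ≠ 0 := by positivity
  have h2 : (a : ℝ) + 5 / 2 ≠ 0 := by positivity
  have h3 : (a : ℝ) + 1 + 3 / 2 ≠ 0 := by positivity
  rw [show (a : ℝ) + 1 + 3 / 2 = a + 5 / 2 by ring]
  field_simp
  ring

/-- the scaled operator: `v = s^b g`, `f = s^a φ`, `SV = r^b Sop` -/
def Sop (ρ c : ℝ) (a b : ℕ) (φ g : ℝ → ℝ) (r : ℝ) : ℝ :=
  -∫ t in (0 : ℝ)..1, (1 - t) * Real.sinc (ρ * r * (1 - t)) *
    (√t * (ρ ^ 2 * r ^ (a + 2 - b) * t ^ a * φ (r * t) - c * t ^ (b - 2) * g (r * t)))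

theorem src_continuous' (a b : ℕ) (hb : 2 ≤ b) (hφ : Continuous φ) (hg : Continuous g) :
    Continuous (src ρ c (fun s => s ^ a * φ s) (fun s => s ^ b * g s)) := by
  apply src_continuous (u := fun s => s ^ (b - 2) * g s)
  · fun_prop
  · fun_prop
  · intro s
    rw [← mul_assoc, ← pow_add]
    congr 2
    omega

theorem sin_eq_mul_sinc (x : ℝ) : Real.sin x = x * Real.sinc x := by
  rcases eq_or_ne x 0 with rfl | hx
  · simp
  · rw [Real.sinc_of_ne_zero hx]; field_simp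

/-- substitution `s = r t` -/
theorem Ys_scale (g : ℝ → ℝ) (r : ℝ) : Ys ρ g r =
    r * ∫ t in (0 : ℝ)..1, Real.sin (ρ * r * (1 - t)) * g (r * t) := by
  unfold Ys
  have h := intervalIntegral.smul_integral_comp_mul_left
    (fun s => Real.sin (ρ * (r - s)) * g s) r (a := 0) (b := 1)
  rw [mul_zero, mul_one, smul_eq_mul] at h
  rw [← h]
  congr 2
  funext t
  congr 2
  ring

theorem Yc_scale (g : ℝ → ℝ) (r : ℝ) : Yc ρ g r =
    r * ∫ t in (0 : ℝ)..1, Real.cos (ρ * r * (1 - t)) * g (r * t) := by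
  unfold Yc
  have h := intervalIntegral.smul_integral_comp_mul_left
    (fun s => Real.cos (ρ * (r - s)) * g s) r (a := 0) (b := 1)
  rw [mul_zero, mul_one, smul_eq_mul] at h
  rw [← h]
  congr 2
  funext t
  congr 2
  ring

theorem src_scale (hρ : ρ ≠ 0) (a b : ℕ) (hb : 2 ≤ b) {r t : ℝ} (hr : 0 < r) (ht : 0 ≤ t) :
    src ρ c (fun s => s ^ a * φ s) (fun s => s ^ b * g s) (r * t) =
      √r * √t * (ρ * r ^ a * t ^ a * φ (r * t) - c / ρ * r ^ (b - 2) * t ^ (b - 2) * g (r * t)) := by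
  unfold src
  rw [Real.sqrt_mul hr.le]
  obtain ⟨k, rfl⟩ := Nat.exists_eq_add_of_le hb
  rw [show 2 + k - 2 = k by omega]
  rcases eq_or_lt_of_le ht with h0 | h0
  · rw [← h0]; simp
  · simp only [mul_pow, pow_add]
    have h1 : r ≠ 0 := hr.ne'
    have h2 : t ≠ 0 := h0.ne'
    field_simp

theorem Sop_eq (hρ : ρ ≠ 0) (a b : ℕ) (hb : 2 ≤ b) (hab : b ≤ a + 2) {r : ℝ} (hr : 0 < r) :
    SV ρ c (fun s => s ^ a * φ s) (fun s => s ^ b * g s) r = r ^ b * Sop ρ c a b φ g r := by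
  unfold SV Sop
  rw [Ys_scale, ← mul_assoc, mul_neg, neg_inj, ← intervalIntegral.integral_const_mul,
    ← intervalIntegral.integral_const_mul]
  apply intervalIntegral.integral_congr
  intro t ht
  rw [uIcc_of_le zero_le_one] at ht
  simp only
  rw [src_scale hρ a b hb hr ht.1, sin_eq_mul_sinc]
  have hs : 0 < √r := Real.sqrt_pos.2 hr
  obtain ⟨k, rfl⟩ := Nat.exists_eq_add_of_le hb
  obtain ⟨m, hm⟩ := Nat.exists_eq_add_of_le hab
  rw [show 2 + k - 2 = k by omega, hm, show 2 + k + m - (2 + k) = m by omega]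
  have ha : r ^ 2 * r ^ a = r ^ (2 + k) * r ^ m := by rw [← pow_add, ← pow_add]; congr 1; omega
  have e : (√r)⁻¹ * r * (ρ * r * (1 - t) * Real.sinc (ρ * r * (1 - t)) * (√r * √t *
      (ρ * r ^ a * t ^ a * φ (r * t) - c / ρ * r ^ k * t ^ k * g (r * t)))) =
      (1 - t) * Real.sinc (ρ * r * (1 - t)) * (√t * (ρ ^ 2 * (r ^ 2 * r ^ a) * t ^ a * φ (r * t)
        - c * r ^ 2 * r ^ k * t ^ k * g (r * t))) := by
    field_simp
  rw [e, ha, pow_add]
  ring

/-- joint continuity in `(ρ, r)` -/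
theorem continuous_Sop (a b : ℕ) (hφ : Continuous φ) (hg : Continuous g) :
    Continuous fun p : ℝ × ℝ => Sop p.1 c a b φ g p.2 := by
  unfold Sop
  apply Continuous.neg
  apply intervalIntegral.continuous_parametric_intervalIntegral_of_continuous'
  have := Real.continuous_sinc
  fun_prop

theorem abs_Sop_le (a b : ℕ) (hb : 2 ≤ b) {A B : ℝ}
    (hA : ∀ s ∈ Icc (0 : ℝ) 1, |φ s| ≤ A) (hB : ∀ s ∈ Icc (0 : ℝ) 1, |g s| ≤ B) {r : ℝ}
    (hr : r ∈ Icc (0 : ℝ) 1) : |Sop ρ c a b φ g r| ≤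
      ρ ^ 2 * A / (((a : ℝ) + 3 / 2) * ((a : ℝ) + 5 / 2)) +
      |c| * B / (((b : ℝ) - 1 / 2) * ((b : ℝ) + 1 / 2)) := by
  have hA0 : 0 ≤ A := (abs_nonneg _).trans (hA 0 (by simp))
  have hB0 : 0 ≤ B := (abs_nonneg _).trans (hB 0 (by simp))
  obtain ⟨k, rfl⟩ := Nat.exists_eq_add_of_le hb
  unfold Sop
  rw [abs_neg, show 2 + k - 2 = k by omega]
  have hI : ∫ t in (0 : ℝ)..1, (ρ ^ 2 * A * ((1 - t) * (√t * t ^ a)) +
      |c| * B * ((1 - t) * (√t * t ^ k))) =
      ρ ^ 2 * A / (((a : ℝ) + 3 / 2) * ((a : ℝ) + 5 / 2)) +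
      |c| * B / ((((2 + k : ℕ) : ℝ) - 1 / 2) * (((2 + k : ℕ) : ℝ) + 1 / 2)) := by
    rw [intervalIntegral.integral_add ((by fun_prop : Continuous _).intervalIntegrable _ _)
      ((by fun_prop : Continuous _).intervalIntegrable _ _), intervalIntegral.integral_const_mul,
      intervalIntegral.integral_const_mul, int_one_sub_sqrt_pow, int_one_sub_sqrt_pow]
    push_cast
    rw [show (2 : ℝ) + k - 1 / 2 = k + 3 / 2 by ring, show (2 : ℝ) + k + 1 / 2 = k + 5 / 2 by ring]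
    ring
  rw [← hI, ← Real.norm_eq_abs]
  apply intervalIntegral.norm_integral_le_of_norm_le zero_le_one _
    ((by fun_prop : Continuous _).intervalIntegrable _ _)
  refine Eventually.of_forall fun t ht => ?_
  have ht0 : 0 ≤ t := ht.1.le
  have ht1 : 0 ≤ 1 - t := by linarith [ht.2]
  have hrt : r * t ∈ Icc (0 : ℝ) 1 := ⟨mul_nonneg hr.1 ht0, mul_le_one₀ hr.2 ht0 ht.2⟩
  have hs0 : 0 ≤ √t := Real.sqrt_nonneg t
  have h1 : |ρ ^ 2 * r ^ (a + 2 - (2 + k)) * t ^ a * φ (r * t) - c * t ^ k * g (r * t)| ≤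
      ρ ^ 2 * t ^ a * A + |c| * t ^ k * B := by
    refine (abs_sub _ _).trans (add_le_add ?_ ?_)
    · rw [abs_mul, abs_mul, abs_mul, abs_of_nonneg (sq_nonneg ρ), abs_of_nonneg (pow_nonneg ht0 a),
        abs_of_nonneg (pow_nonneg hr.1 _)]
      have h2 : r ^ (a + 2 - (2 + k)) ≤ 1 := pow_le_one₀ hr.1 hr.2
      have h3 := hA _ hrt
      calc ρ ^ 2 * r ^ (a + 2 - (2 + k)) * t ^ a * |φ (r * t)| ≤ ρ ^ 2 * 1 * t ^ a * A := by
            gcongr
        _ = ρ ^ 2 * t ^ a * A := by ring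
    · rw [abs_mul, abs_mul, abs_of_nonneg (pow_nonneg ht0 k)]
      have h3 := hB _ hrt
      gcongr
  rw [Real.norm_eq_abs, abs_mul, abs_mul, abs_mul, abs_of_nonneg ht1, abs_of_nonneg hs0]
  have h4 := Real.abs_sinc_le_one (ρ * r * (1 - t))
  calc (1 - t) * |Real.sinc (ρ * r * (1 - t))| * (√t * |ρ ^ 2 * r ^ (a + 2 - (2 + k)) * t ^ a *
        φ (r * t) - c * t ^ k * g (r * t)|)
      ≤ (1 - t) * 1 * (√t * (ρ ^ 2 * t ^ a * A + |c| * t ^ k * B)) := by
        gcongr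
    _ = ρ ^ 2 * A * ((1 - t) * (√t * t ^ a)) + |c| * B * ((1 - t) * (√t * t ^ k)) := by ring

/-- linearity of the scaled operator -/
theorem Sop_sub (a b : ℕ) {φ₁ φ₂ g₁ g₂ : ℝ → ℝ} (h1 : Continuous φ₁) (h2 : Continuous φ₂)
    (h3 : Continuous g₁) (h4 : Continuous g₂) (r : ℝ) :
    Sop ρ c a b φ₁ g₁ r - Sop ρ c a b φ₂ g₂ r =
      Sop ρ c a b (fun s => φ₁ s - φ₂ s) (fun s => g₁ s - g₂ s) r := by
  have hs := Real.continuous_sinc
  unfold Sop
  rw [sub_eq_add_neg, ← neg_add, neg_inj, ← sub_eq_add_neg, ← intervalIntegral.integral_sub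
    ((by fun_prop : Continuous _).intervalIntegrable _ _)
    ((by fun_prop : Continuous _).intervalIntegrable _ _)]
  apply intervalIntegral.integral_congr
  intro t _
  simp only
  ring

/-- the derivative at `1` in terms of the scaled functions -/
def Dop (ρ c : ℝ) (a b : ℕ) (φ g : ℝ → ℝ) : ℝ :=
  -∫ t in (0 : ℝ)..1, (Real.cos (ρ * (1 - t)) - Real.sin (ρ * (1 - t)) / (2 * ρ)) *
    (√t * (ρ ^ 2 * t ^ a * φ t - c * t ^ (b - 2) * g t))

theorem SV'_one (hρ : ρ ≠ 0) (a b : ℕ) (hb : 2 ≤ b) (hφ : Continuous φ) (hg : Continuous g) :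
    SV' ρ c (fun s => s ^ a * φ s) (fun s => s ^ b * g s) 1 = Dop ρ c a b φ g := by
  have hsrc := src_continuous' (ρ := ρ) (c := c) a b hb hφ hg
  unfold SV' Dop
  rw [Real.sqrt_one, inv_one, one_mul, mul_one, neg_inj]
  unfold Ys Yc
  rw [← intervalIntegral.integral_const_mul, ← intervalIntegral.integral_div,
    ← intervalIntegral.integral_sub ((by fun_prop : Continuous _).intervalIntegrable _ _)
    ((by fun_prop : Continuous _).intervalIntegrable _ _)]
  apply intervalIntegral.integral_congr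
  intro t ht
  rw [uIcc_of_le zero_le_one] at ht
  simp only
  have h := src_scale (c := c) (φ := φ) (g := g) hρ a b hb one_pos ht.1
  rw [one_mul, Real.sqrt_one, one_pow, one_pow] at h
  rw [h]
  field_simp

theorem abs_cos_sub_le (x k : ℝ) : |Real.cos x - Real.sin x * k| ≤ √(1 + k ^ 2) := by
  apply Real.abs_le_sqrt
  nlinarith [sq_nonneg (Real.sin x + k * Real.cos x), Real.sin_sq_add_cos_sq x]

/-- bound of the derivative functional with a general majorant of the source -/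
theorem abs_Dop_le (a b : ℕ) (hb : 2 ≤ b) {A B : ℝ}
    (hA : ∀ s ∈ Icc (0 : ℝ) 1, |φ s| ≤ A) (hB : ∀ s ∈ Icc (0 : ℝ) 1, |g s| ≤ B) :
    |Dop ρ c a b φ g| ≤ √(1 + (1 / (2 * ρ)) ^ 2) *
      (ρ ^ 2 * A / ((a : ℝ) + 3 / 2) + |c| * B / ((b : ℝ) - 1 / 2)) := by
  have hA0 : 0 ≤ A := (abs_nonneg _).trans (hA 0 (by simp))
  have hB0 : 0 ≤ B := (abs_nonneg _).trans (hB 0 (by simp))
  obtain ⟨k, rfl⟩ := Nat.exists_eq_add_of_le hb
  unfold Dop
  rw [abs_neg, show 2 + k - 2 = k by omega]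
  have hI : ∫ t in (0 : ℝ)..1, √(1 + (1 / (2 * ρ)) ^ 2) * (ρ ^ 2 * A * (√t * t ^ a) +
      |c| * B * (√t * t ^ k)) = √(1 + (1 / (2 * ρ)) ^ 2) *
      (ρ ^ 2 * A / ((a : ℝ) + 3 / 2) + |c| * B / (((2 + k : ℕ) : ℝ) - 1 / 2)) := by
    rw [intervalIntegral.integral_const_mul,
      intervalIntegral.integral_add ((by fun_prop : Continuous _).intervalIntegrable _ _)
      ((by fun_prop : Continuous _).intervalIntegrable _ _), intervalIntegral.integral_const_mul,
      intervalIntegral.integral_const_mul, int_sqrt_pow, int_sqrt_pow]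
    push_cast
    rw [show (2 : ℝ) + k - 1 / 2 = k + 3 / 2 by ring]
    ring
  rw [← hI, ← Real.norm_eq_abs]
  apply intervalIntegral.norm_integral_le_of_norm_le zero_le_one _
    ((by fun_prop : Continuous _).intervalIntegrable _ _)
  refine Eventually.of_forall fun t ht => ?_
  have ht0 : 0 ≤ t := ht.1.le
  have htI : t ∈ Icc (0 : ℝ) 1 := ⟨ht0, ht.2⟩
  have hs0 : 0 ≤ √t := Real.sqrt_nonneg t
  have h1 : |ρ ^ 2 * t ^ a * φ t - c * t ^ k * g t| ≤ ρ ^ 2 * t ^ a * A + |c| * t ^ k * B := by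
    refine (abs_sub _ _).trans (add_le_add ?_ ?_)
    · rw [abs_mul, abs_mul, abs_of_nonneg (sq_nonneg ρ), abs_of_nonneg (pow_nonneg ht0 a)]
      have h3 := hA _ htI
      gcongr
    · rw [abs_mul, abs_mul, abs_of_nonneg (pow_nonneg ht0 k)]
      have h3 := hB _ htI
      gcongr
  rw [Real.norm_eq_abs, abs_mul, abs_mul, abs_of_nonneg hs0]
  have h4 := abs_cos_sub_le (ρ * (1 - t)) (1 / (2 * ρ))
  rw [mul_one_div] at h4
  calc |Real.cos (ρ * (1 - t)) - Real.sin (ρ * (1 - t)) / (2 * ρ)| *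
        (√t * |ρ ^ 2 * t ^ a * φ t - c * t ^ k * g t|)
      ≤ √(1 + (1 / (2 * ρ)) ^ 2) * (√t * (ρ ^ 2 * t ^ a * A + |c| * t ^ k * B)) := by
        gcongr
    _ = √(1 + (1 / (2 * ρ)) ^ 2) * (ρ ^ 2 * A * (√t * t ^ a) + |c| * B * (√t * t ^ k)) := by ring

theorem Dop_sub (a b : ℕ) {φ₁ φ₂ g₁ g₂ : ℝ → ℝ} (h1 : Continuous φ₁) (h2 : Continuous φ₂)
    (h3 : Continuous g₁) (h4 : Continuous g₂) :
    Dop ρ c a b φ₁ g₁ - Dop ρ c a b φ₂ g₂ =
      Dop ρ c a b (fun s => φ₁ s - φ₂ s) (fun s => g₁ s - g₂ s) := by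
  unfold Dop
  rw [sub_eq_add_neg, ← neg_add, neg_inj, ← sub_eq_add_neg, ← intervalIntegral.integral_sub
    ((by fun_prop : Continuous _).intervalIntegrable _ _)
    ((by fun_prop : Continuous _).intervalIntegrable _ _)]
  apply intervalIntegral.integral_congr
  intro t _
  simp only
  ring

/-- continuity of the derivative functional in `ρ ≠ 0` -/
theorem continuousOn_Dop (a b : ℕ) (hφ : Continuous φ) (hg : Continuous g) :
    ContinuousOn (fun ρ : ℝ => Dop ρ c a b φ g) {ρ | ρ ≠ 0} := by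
  have e : ∀ ρ : ℝ, Dop ρ c a b φ g = -((∫ t in (0 : ℝ)..1, Real.cos (ρ * (1 - t)) *
      (√t * (ρ ^ 2 * t ^ a * φ t - c * t ^ (b - 2) * g t))) - (1 / (2 * ρ)) *
      ∫ t in (0 : ℝ)..1, Real.sin (ρ * (1 - t)) *
      (√t * (ρ ^ 2 * t ^ a * φ t - c * t ^ (b - 2) * g t))) := by
    intro ρ
    unfold Dop
    rw [neg_inj, ← intervalIntegral.integral_const_mul, ← intervalIntegral.integral_sub
      ((by fun_prop : Continuous _).intervalIntegrable _ _)
      ((by fun_prop : Continuous _).intervalIntegrable _ _)]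
    apply intervalIntegral.integral_congr
    intro t _
    simp only
    ring
  simp_rw [e]
  apply ContinuousOn.neg
  apply ContinuousOn.sub
  · apply Continuous.continuousOn
    apply intervalIntegral.continuous_parametric_intervalIntegral_of_continuous'
    fun_prop
  · apply ContinuousOn.mul
    · apply ContinuousOn.div continuousOn_const (by fun_prop)
      intro x hx
      simp only [Set.mem_ofPred_eq] at hx
      positivity
    · apply Continuous.continuousOn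
      apply intervalIntegral.continuous_parametric_intervalIntegral_of_continuous'
      fun_prop

end

end SCHS
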