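import Pool.Agent.MP_83fd13_an.SCH.Sin2

/-!
# [SCH] sine kernel: bounds of the derivatives, the fixed point solves the equation
-/

namespace SCHS

open MeasureTheory Set Filter Topology intervalIntegral
open scoped Real

noncomputable section

variable {ρ c : ℝ} {f v g φ : ℝ → ℝ}

/-- the constants in the bounds -/
def K0 (ρ c : ℝ) (a b : ℕ) (A B : ℝ) : ℝ := ρ ^ 2 * A / (((a : ℝ) + 3 / 2) * ((a : ℝ) + 5 / 2)) +
      |c| * B / (((b : ℝ) - 1 / 2) * ((b : ℝ) + 1 / 2))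

def K1 (ρ c : ℝ) (a b : ℕ) (A B : ℝ) : ℝ := 3 / 2 * (ρ ^ 2 * A / ((a : ℝ) + 3 / 2) +
      |c| * B / ((b : ℝ) - 1 / 2))

def K2 (ρ c : ℝ) (a b : ℕ) (A B : ℝ) : ℝ := K1 ρ c a b A B + ρ ^ 2 * (K0 ρ c a b A B + A) +
      |c| * B + K0 ρ c a b A B / 4

theorem abs_SV_le (hρ : ρ ≠ 0) (a b : ℕ) (hb : 2 ≤ b) (hab : b ≤ a + 2) {A B : ℝ}
    (hA : ∀ s ∈ Icc (0 : ℝ) 1, |φ s| ≤ A) (hB : ∀ s ∈ Icc (0 : ℝ) 1, |g s| ≤ B) {r : ℝ}
    (hr : r ∈ Ioc (0 : ℝ) 1) :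
    |SV ρ c (fun s => s ^ a * φ s) (fun s => s ^ b * g s) r| ≤ K0 ρ c a b A B * r ^ b := by
  rw [Sop_eq hρ a b hb hab hr.1, abs_mul, abs_of_nonneg (pow_nonneg hr.1.le b), mul_comm]
  exact mul_le_mul_of_nonneg_right (abs_Sop_le a b hb hA hB ⟨hr.1.le, hr.2⟩)
    (pow_nonneg hr.1.le b)

theorem SV'_scale (hρ : ρ ≠ 0) (a b : ℕ) (hb : 2 ≤ b) (hφ : Continuous φ) (hg : Continuous g)
    {r : ℝ} (hr : 0 < r) :
    SV' ρ c (fun s => s ^ a * φ s) (fun s => s ^ b * g s) r =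
      -(∫ t in (0 : ℝ)..1, (Real.cos (ρ * r * (1 - t)) -
        (1 - t) * Real.sinc (ρ * r * (1 - t)) / 2) *
        (√t * (ρ ^ 2 * (r * r ^ a) * t ^ a * φ (r * t) -
          c * (r * r ^ (b - 2)) * t ^ (b - 2) * g (r * t)))) := by
  have hsrc := src_continuous' (ρ := ρ) (c := c) a b hb hφ hg
  have hs : 0 < √r := Real.sqrt_pos.2 hr
  have hss : √r ^ 2 = r := Real.sq_sqrt hr.le
  unfold SV'
  rw [Ys_scale, Yc_scale, neg_inj]
  have e : (√r)⁻¹ * (ρ * (r * ∫ t in (0 : ℝ)..1, Real.cos (ρ * r * (1 - t)) *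
      src ρ c (fun s => s ^ a * φ s) (fun s => s ^ b * g s) (r * t)) -
      (r * ∫ t in (0 : ℝ)..1, Real.sin (ρ * r * (1 - t)) *
      src ρ c (fun s => s ^ a * φ s) (fun s => s ^ b * g s) (r * t)) / (2 * r)) =
      ∫ t in (0 : ℝ)..1, ((√r)⁻¹ * ρ * r * (Real.cos (ρ * r * (1 - t)) *
      src ρ c (fun s => s ^ a * φ s) (fun s => s ^ b * g s) (r * t)) -
      (√r)⁻¹ / 2 * (Real.sin (ρ * r * (1 - t)) *
      src ρ c (fun s => s ^ a * φ s) (fun s => s ^ b * g s) (r * t))) := by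
    rw [intervalIntegral.integral_sub ((by fun_prop : Continuous _).intervalIntegrable _ _)
      ((by fun_prop : Continuous _).intervalIntegrable _ _), intervalIntegral.integral_const_mul,
      intervalIntegral.integral_const_mul]
    field_simp
  rw [e]
  apply intervalIntegral.integral_congr
  intro t ht
  rw [uIcc_of_le zero_le_one] at ht
  simp only
  rw [src_scale hρ a b hb hr ht.1, sin_eq_mul_sinc (ρ * r * (1 - t))]
  field_simp

theorem abs_SV'_le (hρ : ρ ≠ 0) (a b : ℕ) (hb : 2 ≤ b) (hab : b ≤ a + 2) (hφ : Continuous φ)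
    (hg : Continuous g) {A B : ℝ}
    (hA : ∀ s ∈ Icc (0 : ℝ) 1, |φ s| ≤ A) (hB : ∀ s ∈ Icc (0 : ℝ) 1, |g s| ≤ B) {r : ℝ}
    (hr : r ∈ Ioc (0 : ℝ) 1) :
    |SV' ρ c (fun s => s ^ a * φ s) (fun s => s ^ b * g s) r| ≤
      K1 ρ c a b A B * r ^ (b - 1) := by
  have hA0 : 0 ≤ A := (abs_nonneg _).trans (hA 0 (by simp))
  have hB0 : 0 ≤ B := (abs_nonneg _).trans (hB 0 (by simp))
  rw [SV'_scale hρ a b hb hφ hg hr.1, abs_neg]
  obtain ⟨k, rfl⟩ := Nat.exists_eq_add_of_le hb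
  rw [show 2 + k - 2 = k by omega, show 2 + k - 1 = k + 1 by omega]
  have hI : ∫ t in (0 : ℝ)..1, 3 / 2 * (ρ ^ 2 * A * (√t * t ^ a) +
      |c| * B * (√t * t ^ k)) * r ^ (k + 1) = K1 ρ c a (2 + k) A B * r ^ (k + 1) := by
    unfold K1
    rw [intervalIntegral.integral_mul_const, intervalIntegral.integral_const_mul,
      intervalIntegral.integral_add ((by fun_prop : Continuous _).intervalIntegrable _ _)
      ((by fun_prop : Continuous _).intervalIntegrable _ _), intervalIntegral.integral_const_mul,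
      intervalIntegral.integral_const_mul, int_sqrt_pow, int_sqrt_pow]
    push_cast
    rw [show (2 : ℝ) + k - 1 / 2 = k + 3 / 2 by ring]
    ring
  rw [← hI, ← Real.norm_eq_abs]
  apply intervalIntegral.norm_integral_le_of_norm_le zero_le_one _
    ((by fun_prop : Continuous _).intervalIntegrable _ _)
  refine Eventually.of_forall fun t ht => ?_
  have ht0 : 0 ≤ t := ht.1.le
  have ht1 : 0 ≤ 1 - t := by linarith [ht.2]
  have ht1' : 1 - t ≤ 1 := by linarith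
  have hrt : r * t ∈ Icc (0 : ℝ) 1 := ⟨mul_nonneg hr.1.le ht0, mul_le_one₀ hr.2 ht0 ht.2⟩
  have hs0 : 0 ≤ √t := Real.sqrt_nonneg t
  have hrk : r * r ^ a ≤ r ^ (k + 1) := by
    rw [← pow_succ']
    exact pow_le_pow_of_le_one hr.1.le hr.2 (by omega)
  have h1 : |ρ ^ 2 * (r * r ^ a) * t ^ a * φ (r * t) - c * (r * r ^ k) * t ^ k * g (r * t)| ≤
      (ρ ^ 2 * t ^ a * A + |c| * t ^ k * B) * r ^ (k + 1) := by
    refine (abs_sub _ _).trans ?_
    rw [add_mul]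
    refine add_le_add ?_ ?_
    · rw [abs_mul, abs_mul, abs_mul, abs_of_nonneg (sq_nonneg ρ), abs_of_nonneg (pow_nonneg ht0 a),
        abs_of_nonneg (mul_nonneg hr.1.le (pow_nonneg hr.1.le _))]
      have h3 := hA _ hrt
      calc ρ ^ 2 * (r * r ^ a) * t ^ a * |φ (r * t)| ≤ ρ ^ 2 * r ^ (k + 1) * t ^ a * A := by
            have := hr.1.le
            gcongr
        _ = ρ ^ 2 * t ^ a * A * r ^ (k + 1) := by ring
    · rw [abs_mul, abs_mul, abs_mul, abs_of_nonneg (pow_nonneg ht0 k),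
        abs_of_nonneg (mul_nonneg hr.1.le (pow_nonneg hr.1.le _))]
      have h3 := hB _ hrt
      calc |c| * (r * r ^ k) * t ^ k * |g (r * t)| ≤ |c| * (r * r ^ k) * t ^ k * B := by
            have := hr.1.le
            gcongr
        _ = |c| * t ^ k * B * r ^ (k + 1) := by ring
  have h2 : |Real.cos (ρ * r * (1 - t)) - (1 - t) * Real.sinc (ρ * r * (1 - t)) / 2| ≤ 3 / 2 := by
    refine (abs_sub _ _).trans ?_
    have h3 := Real.abs_cos_le_one (ρ * r * (1 - t))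
    have h4 : |(1 - t) * Real.sinc (ρ * r * (1 - t)) / 2| ≤ 1 / 2 := by
      rw [abs_div, abs_mul, abs_of_nonneg ht1, abs_two]
      have h5 := Real.abs_sinc_le_one (ρ * r * (1 - t))
      have h6 : (1 - t) * |Real.sinc (ρ * r * (1 - t))| ≤ 1 * 1 := by gcongr
      linarith
    linarith
  rw [Real.norm_eq_abs, abs_mul, abs_mul, abs_of_nonneg hs0]
  calc |Real.cos (ρ * r * (1 - t)) - (1 - t) * Real.sinc (ρ * r * (1 - t)) / 2| *
        (√t * |ρ ^ 2 * (r * r ^ a) * t ^ a * φ (r * t) - c * (r * r ^ k) * t ^ k * g (r * t)|)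
      ≤ 3 / 2 * (√t * ((ρ ^ 2 * t ^ a * A + |c| * t ^ k * B) * r ^ (k + 1))) := by
        gcongr
    _ = 3 / 2 * (ρ ^ 2 * A * (√t * t ^ a) + |c| * B * (√t * t ^ k)) * r ^ (k + 1) := by ring

theorem abs_SV''_le (hρ : ρ ≠ 0) (a b : ℕ) (hb : 2 ≤ b) (hab : b ≤ a + 2) (hφ : Continuous φ)
    (hg : Continuous g) {A B : ℝ}
    (hA : ∀ s ∈ Icc (0 : ℝ) 1, |φ s| ≤ A) (hB : ∀ s ∈ Icc (0 : ℝ) 1, |g s| ≤ B) {r : ℝ}
    (hr : r ∈ Ioc (0 : ℝ) 1) :
    |SV'' ρ c (fun s => s ^ a * φ s) (fun s => s ^ b * g s) r| ≤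
      K2 ρ c a b A B * r ^ (b - 2) := by
  have hA0 : 0 ≤ A := (abs_nonneg _).trans (hA 0 (by simp))
  have hB0 : 0 ≤ B := (abs_nonneg _).trans (hB 0 (by simp))
  have h0 := abs_SV_le (c := c) hρ a b hb hab hA hB hr
  have h1 := abs_SV'_le (c := c) hρ a b hb hab hφ hg hA hB hr
  have hrI : r ∈ Icc (0 : ℝ) 1 := ⟨hr.1.le, hr.2⟩
  have hφ1 := hA r hrI
  have hg1 := hB r hrI
  unfold SV'' K2
  set S := SV ρ c (fun s => s ^ a * φ s) (fun s => s ^ b * g s) r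
  set S' := SV' ρ c (fun s => s ^ a * φ s) (fun s => s ^ b * g s) r
  obtain ⟨k, rfl⟩ := Nat.exists_eq_add_of_le hb
  rw [show 2 + k - 2 = k by omega]
  rw [show 2 + k - 1 = k + 1 by omega] at h1
  set k0 := K0 ρ c a (2 + k) A B
  set k1 := K1 ρ c a (2 + k) A B
  have hr0 := hr.1
  have hk : 0 ≤ r ^ k := by positivity
  have hk0 : 0 ≤ k0 := by
    have : 0 < r ^ (2 + k) := by positivity
    by_contra hneg
    push Not at hneg
    have := mul_neg_of_neg_of_pos hneg this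
    linarith [abs_nonneg S]
  have e1 : |S' / r| ≤ k1 * r ^ k := by
    rw [abs_div, abs_of_pos hr0, div_le_iff₀ hr0]
    calc |S'| ≤ k1 * r ^ (k + 1) := h1
      _ = k1 * r ^ k * r := by ring
  have e2 : |S| ≤ k0 * r ^ k := by
    refine h0.trans ?_
    apply mul_le_mul_of_nonneg_left _ hk0
    exact pow_le_pow_of_le_one hr.1.le hr.2 (by omega)
  have e3 : |r ^ a * φ r| ≤ A * r ^ k := by
    rw [abs_mul, abs_of_nonneg (by positivity), mul_comm]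
    have h5 : r ^ a ≤ r ^ k := pow_le_pow_of_le_one hr.1.le hr.2 (by omega)
    exact mul_le_mul hφ1 h5 (by positivity) hA0
  have e4 : |c * (r ^ (2 + k) * g r) / r ^ 2| ≤ |c| * B * r ^ k := by
    have : c * (r ^ (2 + k) * g r) / r ^ 2 = c * g r * r ^ k := by
      rw [pow_add]; field_simp
    rw [this, abs_mul, abs_mul, abs_of_nonneg hk]
    gcongr
  have e5 : |S / (4 * r ^ 2)| ≤ k0 / 4 * r ^ k := by
    rw [abs_div, abs_of_pos (by positivity : 0 < 4 * r ^ 2), div_le_iff₀ (by positivity)]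
    calc |S| ≤ k0 * r ^ (2 + k) := h0
      _ = k0 / 4 * r ^ k * (4 * r ^ 2) := by rw [pow_add]; ring
  show |-(S' / r) - ρ ^ 2 * (S + r ^ a * φ r) + c * (r ^ (2 + k) * g r) / r ^ 2 + S / (4 * r ^ 2)|
    ≤ (k1 + ρ ^ 2 * (k0 + A) + |c| * B + k0 / 4) * r ^ k
  calc |-(S' / r) - ρ ^ 2 * (S + r ^ a * φ r) + c * (r ^ (2 + k) * g r) / r ^ 2 + S / (4 * r ^ 2)|
      ≤ |S' / r| + ρ ^ 2 * (|S| + |r ^ a * φ r|) + |c * (r ^ (2 + k) * g r) / r ^ 2| +
        |S / (4 * r ^ 2)| := by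
        refine (abs_add_le _ _).trans (add_le_add ((abs_add_le _ _).trans (add_le_add
          ((abs_sub _ _).trans (add_le_add ?_ ?_)) le_rfl)) le_rfl)
        · rw [abs_neg]
        · rw [abs_mul, abs_of_nonneg (sq_nonneg ρ)]
          have := abs_add_le S (r ^ a * φ r)
          gcongr
    _ ≤ k1 * r ^ k + ρ ^ 2 * (k0 * r ^ k + A * r ^ k) + |c| * B * r ^ k + k0 / 4 * r ^ k := by
        gcongr
    _ = (k1 + ρ ^ 2 * (k0 + A) + |c| * B + k0 / 4) * r ^ k := by ring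

/-- The fixed point of the scaled operator solves the differential equation. -/
theorem fixed_ode (hρ : ρ ≠ 0) (n a b : ℕ) (hb : 2 ≤ b) (hab : b ≤ a + 2) (hφ : Continuous φ)
    (hg : Continuous g) (hc : c = (n : ℝ) ^ 2 - 1 / 4)
    (hfix : ∀ r ∈ Ioc (0 : ℝ) 1, g r = Sop ρ c a b φ g r) :
    (∀ r ∈ Ioo (0 : ℝ) 1, HasDerivAt (fun s => s ^ b * g s)
      (SV' ρ c (fun s => s ^ a * φ s) (fun s => s ^ b * g s) r) r) ∧
    (∀ r : ℝ, 0 < r → HasDerivAt (SV' ρ c (fun s => s ^ a * φ s) (fun s => s ^ b * g s))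
      (SV'' ρ c (fun s => s ^ a * φ s) (fun s => s ^ b * g s) r) r) ∧
    (∀ r ∈ Ioc (0 : ℝ) 1, SV'' ρ c (fun s => s ^ a * φ s) (fun s => s ^ b * g s) r +
      SV' ρ c (fun s => s ^ a * φ s) (fun s => s ^ b * g s) r / r -
      (n : ℝ) ^ 2 * (r ^ b * g r) / r ^ 2 = -(ρ ^ 2 * (r ^ b * g r + r ^ a * φ r))) := by
  have hsrc := src_continuous' (ρ := ρ) (c := c) a b hb hφ hg
  have heq : ∀ r ∈ Ioc (0 : ℝ) 1, SV ρ c (fun s => s ^ a * φ s) (fun s => s ^ b * g s) r =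
      r ^ b * g r := by
    intro r hr
    rw [Sop_eq hρ a b hb hab hr.1, ← hfix r hr]
  refine ⟨fun r hr => ?_, fun r hr => hasDerivAt_SV' hρ hsrc hr, fun r hr => ?_⟩
  · refine (hasDerivAt_SV hsrc hr.1).congr_of_eventuallyEq ?_
    filter_upwards [Ioo_mem_nhds hr.1 hr.2] with s hs
    exact (heq s ⟨hs.1, hs.2.le⟩).symm
  · have h := SV_ode (f := fun s => s ^ a * φ s) (v := fun s => s ^ b * g s) (ρ := ρ) (c := c)
      hr.1.ne' n hc (heq r hr)
    rw [heq r hr] at h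
    exact h

theorem continuousOn_SV' (hρ : ρ ≠ 0) (hg : Continuous (src ρ c f v)) :
    ContinuousOn (SV' ρ c f v) (Ioi 0) := fun _ hr =>
  (hasDerivAt_SV' hρ hg hr).continuousAt.continuousWithinAt

end

end SCHS
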