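import Pool.Agent.MP_83fd13_an.SCH.KerD
import Pool.Agent.MP_83fd13_an.SCH.Sin3

/-!
# [SCH] sine kernel: radial solutions (`RSol`), operators on `C[0,1]`, continuity in `ρ`
-/

set_option autoImplicit false

namespace SCHS

open MeasureTheory Set Filter Topology intervalIntegral
open scoped Real
open Pool.Agent.SCH

noncomputable section

/-- `SV` is a radial solution for every `r > 0`; the source is `ρ² (SV + f)` where `v = SV`. -/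
theorem SV_rsol {ρ c : ℝ} {f v : ℝ → ℝ} (hρ : ρ ≠ 0) (hg : Continuous (src ρ c f v)) (n : ℕ)
    (hc : c = (n : ℝ) ^ 2 - 1 / 4) :
    RSol n (fun r => ρ ^ 2 * (SV ρ c f v r + f r) - c * (v r - SV ρ c f v r) / r ^ 2)
      (SV ρ c f v) (SV' ρ c f v) := by
  refine ⟨fun r hr => hasDerivAt_SV hg hr, fun r hr => ?_⟩
  have h := (hasDerivAt_id r).mul (hasDerivAt_SV' hρ hg hr)
  refine h.congr_deriv ?_
  unfold SV''
  simp only [id]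
  rw [hc]
  have : r ≠ 0 := hr.ne'
  field_simp
  ring

/-- the scaled operator on `C[0,1]` -/
def SopC (ρ c : ℝ) (a b : ℕ) (φ g : C(Icc (0:ℝ) 1, ℝ)) : C(Icc (0:ℝ) 1, ℝ) :=
  ⟨fun r => Sop ρ c a b (ext φ) (ext g) r, by
    have h := continuous_Sop (c := c) a b (ext_continuous φ) (ext_continuous g)
    exact h.comp (by fun_prop : Continuous fun r : Icc (0:ℝ) 1 => ((ρ, (r : ℝ)) : ℝ × ℝ))⟩

theorem SopC_apply (ρ c : ℝ) (a b : ℕ) (φ g : C(Icc (0:ℝ) 1, ℝ)) (r : Icc (0:ℝ) 1) :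
    SopC ρ c a b φ g r = Sop ρ c a b (ext φ) (ext g) r := rfl

/-- the two coefficients -/
def cf (ρ : ℝ) (a : ℕ) : ℝ := ρ ^ 2 / (((a : ℝ) + 3 / 2) * ((a : ℝ) + 5 / 2))

def cv (c : ℝ) (b : ℕ) : ℝ := |c| / (((b : ℝ) - 1 / 2) * ((b : ℝ) + 1 / 2))

theorem cf_nonneg (ρ : ℝ) (a : ℕ) : 0 ≤ cf ρ a := by unfold cf; positivity

theorem cv_nonneg (c : ℝ) {b : ℕ} (hb : 2 ≤ b) : 0 ≤ cv c b := by
  unfold cv
  have h : (2 : ℝ) ≤ b := by exact_mod_cast hb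
  have h1 : 0 < (b : ℝ) - 1 / 2 := by linarith
  positivity

theorem SopC_norm_le (ρ c : ℝ) (a b : ℕ) (hb : 2 ≤ b) (φ g : C(Icc (0:ℝ) 1, ℝ)) :
    ‖SopC ρ c a b φ g‖ ≤ cf ρ a * ‖φ‖ + cv c b * ‖g‖ := by
  have h0 := cf_nonneg ρ a
  have h1 := cv_nonneg c hb
  rw [ContinuousMap.norm_le _ (by positivity)]
  intro r
  rw [SopC_apply, Real.norm_eq_abs]
  refine (abs_Sop_le a b hb (fun s _ => ext_abs_le φ s) (fun s _ => ext_abs_le g s) r.2).trans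
    (le_of_eq ?_)
  unfold cf cv
  ring

theorem SopC_sub (ρ c : ℝ) (a b : ℕ) (φ₁ φ₂ g₁ g₂ : C(Icc (0:ℝ) 1, ℝ)) :
    SopC ρ c a b φ₁ g₁ - SopC ρ c a b φ₂ g₂ = SopC ρ c a b (φ₁ - φ₂) (g₁ - g₂) := by
  ext r
  rw [ContinuousMap.sub_apply, SopC_apply, SopC_apply, SopC_apply,
    Sop_sub a b (ext_continuous _) (ext_continuous _) (ext_continuous _) (ext_continuous _)]
  rfl

theorem SopC_dist_le (ρ c : ℝ) (a b : ℕ) (hb : 2 ≤ b) (φ₁ φ₂ g₁ g₂ : C(Icc (0:ℝ) 1, ℝ)) :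
    dist (SopC ρ c a b φ₁ g₁) (SopC ρ c a b φ₂ g₂) ≤
      cf ρ a * dist φ₁ φ₂ + cv c b * dist g₁ g₂ := by
  rw [dist_eq_norm, dist_eq_norm, dist_eq_norm, SopC_sub]
  exact SopC_norm_le ρ c a b hb _ _

/-- joint continuity of the scaled operator -/
theorem continuous_SopC (c : ℝ) (a b : ℕ) (hb : 2 ≤ b) :
    Continuous fun p : ℝ × C(Icc (0:ℝ) 1, ℝ) × C(Icc (0:ℝ) 1, ℝ) =>
      SopC p.1 c a b p.2.1 p.2.2 := by
  rw [continuous_iff_continuousAt]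
  rintro ⟨ρ₀, φ₀, g₀⟩
  have h1 : Continuous fun ρ : ℝ => SopC ρ c a b φ₀ g₀ := by
    have h := continuous_Sop (c := c) a b (ext_continuous φ₀) (ext_continuous g₀)
    have h2 : Continuous fun p : ℝ × Icc (0:ℝ) 1 => Sop p.1 c a b (ext φ₀) (ext g₀) p.2 :=
      h.comp (by fun_prop : Continuous fun p : ℝ × Icc (0:ℝ) 1 => ((p.1, (p.2 : ℝ)) : ℝ × ℝ))
    exact (ContinuousMap.curry ⟨_, h2⟩).continuous
  rw [ContinuousAt, tendsto_iff_dist_tendsto_zero]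
  have h2 : Tendsto (fun p : ℝ × C(Icc (0:ℝ) 1, ℝ) × C(Icc (0:ℝ) 1, ℝ) =>
      cf p.1 a * dist p.2.1 φ₀ + cv c b * dist p.2.2 g₀ +
      dist (SopC p.1 c a b φ₀ g₀) (SopC ρ₀ c a b φ₀ g₀)) (𝓝 (ρ₀, φ₀, g₀)) (𝓝 0) := by
    have hc : Continuous (fun p : ℝ × C(Icc (0:ℝ) 1, ℝ) × C(Icc (0:ℝ) 1, ℝ) =>
      cf p.1 a * dist p.2.1 φ₀ + cv c b * dist p.2.2 g₀ +
      dist (SopC p.1 c a b φ₀ g₀) (SopC ρ₀ c a b φ₀ g₀)) := by
      have h3 : Continuous fun p : ℝ × C(Icc (0:ℝ) 1, ℝ) × C(Icc (0:ℝ) 1, ℝ) =>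
        SopC p.1 c a b φ₀ g₀ := h1.comp continuous_fst
      unfold cf
      fun_prop
    have := hc.tendsto (ρ₀, φ₀, g₀)
    simpa using this
  refine squeeze_zero (fun p => dist_nonneg) (fun p => ?_) h2
  calc dist (SopC p.1 c a b p.2.1 p.2.2) (SopC ρ₀ c a b φ₀ g₀)
      ≤ dist (SopC p.1 c a b p.2.1 p.2.2) (SopC p.1 c a b φ₀ g₀) +
        dist (SopC p.1 c a b φ₀ g₀) (SopC ρ₀ c a b φ₀ g₀) := dist_triangle _ _ _
    _ ≤ _ := by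
        gcongr
        exact SopC_dist_le p.1 c a b hb _ _ _ _

/-- the derivative functional on `C[0,1]` -/
def DopC (ρ c : ℝ) (a b : ℕ) (φ g : C(Icc (0:ℝ) 1, ℝ)) : ℝ := Dop ρ c a b (ext φ) (ext g)

/-- its coefficients -/
def df (ρ : ℝ) (a : ℕ) : ℝ := √(1 + (1 / (2 * ρ)) ^ 2) * (ρ ^ 2 / ((a : ℝ) + 3 / 2))

def dv (ρ c : ℝ) (b : ℕ) : ℝ := √(1 + (1 / (2 * ρ)) ^ 2) * (|c| / ((b : ℝ) - 1 / 2))

theorem DopC_abs_le (ρ c : ℝ) (a b : ℕ) (hb : 2 ≤ b) (φ g : C(Icc (0:ℝ) 1, ℝ)) :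
    |DopC ρ c a b φ g| ≤ df ρ a * ‖φ‖ + dv ρ c b * ‖g‖ := by
  refine (abs_Dop_le a b hb (fun s _ => ext_abs_le φ s) (fun s _ => ext_abs_le g s)).trans
    (le_of_eq ?_)
  unfold df dv
  ring

theorem DopC_sub (ρ c : ℝ) (a b : ℕ) (φ₁ φ₂ g₁ g₂ : C(Icc (0:ℝ) 1, ℝ)) :
    DopC ρ c a b φ₁ g₁ - DopC ρ c a b φ₂ g₂ = DopC ρ c a b (φ₁ - φ₂) (g₁ - g₂) := by
  unfold DopC
  rw [Dop_sub a b (ext_continuous _) (ext_continuous _) (ext_continuous _) (ext_continuous _)]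
  rfl

theorem DopC_dist_le (ρ c : ℝ) (a b : ℕ) (hb : 2 ≤ b) (φ₁ φ₂ g₁ g₂ : C(Icc (0:ℝ) 1, ℝ)) :
    |DopC ρ c a b φ₁ g₁ - DopC ρ c a b φ₂ g₂| ≤ df ρ a * dist φ₁ φ₂ + dv ρ c b * dist g₁ g₂ := by
  rw [dist_eq_norm, dist_eq_norm, DopC_sub]
  exact DopC_abs_le ρ c a b hb _ _

theorem continuousOn_DopC (c : ℝ) (a b : ℕ) (hb : 2 ≤ b) :
    ContinuousOn (fun p : ℝ × C(Icc (0:ℝ) 1, ℝ) × C(Icc (0:ℝ) 1, ℝ) =>
      DopC p.1 c a b p.2.1 p.2.2) {p | p.1 ≠ 0} := by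
  rintro ⟨ρ₀, φ₀, g₀⟩ hp
  have hρ₀ : ρ₀ ≠ 0 := hp
  have hopen : {ρ : ℝ | ρ ≠ 0} ∈ 𝓝 ρ₀ := isOpen_ne.mem_nhds hρ₀
  have h1 : ContinuousAt (fun ρ : ℝ => DopC ρ c a b φ₀ g₀) ρ₀ :=
    (continuousOn_Dop (c := c) a b (ext_continuous φ₀) (ext_continuous g₀)).continuousAt hopen
  apply ContinuousAt.continuousWithinAt
  rw [ContinuousAt, tendsto_iff_dist_tendsto_zero]
  have h2 : Tendsto (fun p : ℝ × C(Icc (0:ℝ) 1, ℝ) × C(Icc (0:ℝ) 1, ℝ) =>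
      df p.1 a * dist p.2.1 φ₀ + dv p.1 c b * dist p.2.2 g₀ +
      dist (DopC p.1 c a b φ₀ g₀) (DopC ρ₀ c a b φ₀ g₀)) (𝓝 (ρ₀, φ₀, g₀)) (𝓝 0) := by
    have hc : ContinuousAt (fun p : ℝ × C(Icc (0:ℝ) 1, ℝ) × C(Icc (0:ℝ) 1, ℝ) =>
      df p.1 a * dist p.2.1 φ₀ + dv p.1 c b * dist p.2.2 g₀ +
      dist (DopC p.1 c a b φ₀ g₀) (DopC ρ₀ c a b φ₀ g₀)) (ρ₀, φ₀, g₀) := by
      have h3 : ContinuousAt (fun p : ℝ × C(Icc (0:ℝ) 1, ℝ) × C(Icc (0:ℝ) 1, ℝ) =>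
        DopC p.1 c a b φ₀ g₀) (ρ₀, φ₀, g₀) :=
        ContinuousAt.comp (f := fun p : ℝ × C(Icc (0:ℝ) 1, ℝ) × C(Icc (0:ℝ) 1, ℝ) => p.1)
          (g := fun ρ : ℝ => DopC ρ c a b φ₀ g₀) h1 continuousAt_fst
      have h4 : ContinuousAt (fun p : ℝ × C(Icc (0:ℝ) 1, ℝ) × C(Icc (0:ℝ) 1, ℝ) =>
        √(1 + (1 / (2 * p.1)) ^ 2)) (ρ₀, φ₀, g₀) := by
        apply ContinuousAt.sqrt
        apply ContinuousAt.add continuousAt_const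
        apply ContinuousAt.pow
        apply ContinuousAt.div continuousAt_const (by fun_prop)
        simpa using hρ₀
      unfold df dv
      exact ((h4.mul (by fun_prop)).mul (by fun_prop)).add
        ((h4.mul (by fun_prop)).mul (by fun_prop)) |>.add (h3.dist continuousAt_const)
    have := hc.tendsto
    simpa using this
  refine squeeze_zero (fun p => dist_nonneg) (fun p => ?_) h2
  calc dist (DopC p.1 c a b p.2.1 p.2.2) (DopC ρ₀ c a b φ₀ g₀)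
      ≤ dist (DopC p.1 c a b p.2.1 p.2.2) (DopC p.1 c a b φ₀ g₀) +
        dist (DopC p.1 c a b φ₀ g₀) (DopC ρ₀ c a b φ₀ g₀) := dist_triangle _ _ _
    _ ≤ _ := by
        gcongr
        rw [Real.dist_eq]
        exact DopC_dist_le p.1 c a b hb _ _ _ _

/-- A fixed point on `C[0,1]` gives a radial solution. -/
theorem fixed_rsol {ρ c : ℝ} (hρ : ρ ≠ 0) (n a b : ℕ) (hb : 2 ≤ b) (hab : b ≤ a + 2)
    (hc : c = (n : ℝ) ^ 2 - 1 / 4) {φ g : C(Icc (0:ℝ) 1, ℝ)} (hfix : g = SopC ρ c a b φ g) :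
    let y := SV ρ c (fun s => s ^ a * ext φ s) (fun s => s ^ b * ext g s)
    let y' := SV' ρ c (fun s => s ^ a * ext φ s) (fun s => s ^ b * ext g s)
    (∀ r ∈ Ioc (0:ℝ) 1, y r = r ^ b * ext g r) ∧
    RSol n (fun r => ρ ^ 2 * (y r + r ^ a * ext φ r) - c * (r ^ b * ext g r - y r) / r ^ 2) y y' ∧
    y' 1 = DopC ρ c a b φ g ∧
    (∀ r ∈ Ioc (0:ℝ) 1, |y r| ≤ K0 ρ c a b ‖φ‖ ‖g‖ * r ^ b) ∧
    (∀ r ∈ Ioc (0:ℝ) 1, |y' r| ≤ K1 ρ c a b ‖φ‖ ‖g‖ * r ^ (b - 1)) := by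
  intro y y'
  have hsrc := src_continuous' (ρ := ρ) (c := c) a b hb (ext_continuous φ) (ext_continuous g)
  refine ⟨fun r hr => ?_, SV_rsol hρ hsrc n hc, SV'_one hρ a b hb (ext_continuous φ)
    (ext_continuous g), fun r hr => abs_SV_le hρ a b hb hab (fun s _ => ext_abs_le φ s)
    (fun s _ => ext_abs_le g s) hr, fun r hr => abs_SV'_le hρ a b hb hab (ext_continuous φ)
    (ext_continuous g) (fun s _ => ext_abs_le φ s) (fun s _ => ext_abs_le g s) hr⟩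
  have h1 : ext g r = Sop ρ c a b (ext φ) (ext g) r := by
    have h2 := ext_coe g ⟨r, hr.1.le, hr.2⟩
    have h3 : g ⟨r, hr.1.le, hr.2⟩ = SopC ρ c a b φ g ⟨r, hr.1.le, hr.2⟩ := by rw [← hfix]
    rw [SopC_apply] at h3
    simp only at h2 h3
    rw [← h3, ← h2]
  show SV ρ c (fun s => s ^ a * ext φ s) (fun s => s ^ b * ext g s) r = r ^ b * ext g r
  rw [Sop_eq hρ a b hb hab hr.1, ← h1]

end

end SCHS
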