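import Pool.Agent.MP_83fd13_an.SCH.YDef
import Pool.Agent.MP_83fd13_an.SCH.BesM
import Pool.Agent.MP_83fd13_an.SCH.Asm3
import Pool.Agent.MP_83fd13_an.SCH.TBes

/-!
# [SCH] the modes at a fixed point: radial equations, source identity, Neumann conditions
(helper42)
-/

set_option autoImplicit false

namespace SCHT

open MeasureTheory Set Filter Topology
open Pool.Agent.SCH SCHB SCHF SCHS SCHG SCHA

noncomputable section

/-- crude data at one `ρ` -/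
structure P1 (K th ρ α : ℝ) (φ : ℕ → ℝ) (V : ℕ → ℝ → ℝ) : Prop where
  K0 : 0 ≤ K
  th0 : 0 < th
  th1 : th < 1
  ρ0 : 0 < ρ
  ρ1 : ρ ≤ 55
  f0 : φ 0 = 1
  ba : |α| ≤ K
  bf : ∀ k, |φ k| ≤ K * th ^ k
  cV : ∀ k, Continuous fun s => V k (cl s)
  bV : ∀ k s, 0 ≤ s → s ≤ 1 → |V k s| ≤ K * th ^ k * s ^ wt k
  cG : ∀ k, Continuous fun s => GG ρ α φ V k (cl s)
  cS : ∀ k, Continuous fun s => SS ρ α φ V k (cl s)
  bG : ∀ k, ∃ C, 0 ≤ C ∧ ∀ s, |GG ρ α φ V k (cl s)| ≤ C * cl s ^ ev k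
  bS : ∀ k, ∃ C, 0 ≤ C ∧ ∀ s, |SS ρ α φ V k (cl s)| ≤ C * cl s ^ ev k
  bVV : ∀ k s, |VV ρ α φ V k (cl s)| ≤ K * th ^ k * cl s ^ ev k
  bRR : ∀ k s, |RR ρ α φ V k (cl s)| ≤ K * th ^ k * cl s ^ ev k
  bXX : ∀ k s, |XX ρ α φ k (cl s)| ≤ K * th ^ k * cl s ^ ev k
  bqq : ∀ k s, |qq φ k (cl s)| ≤ K * th ^ k * cl s ^ eq' k
  sqV : ∀ a b s, Summable fun m => qq φ (m + a) (cl s) * VV ρ α φ V (m + b) (cl s)

theorem P1.of_dat {C th : ℝ} {R α : ℝ → ℝ} {φ : ℝ → ℕ → ℝ} {V : ℝ → ℕ → ℝ → ℝ}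
    (H : Dat C th R α φ V) (h0 : ∀ x, φ x 0 = 1) :
    ∃ K, ∀ x, P1 K th (R x) (α x) (φ x) (V x) := by
  obtain ⟨K1, hK1, b1⟩ := H.uVV.2
  obtain ⟨K2, hK2, b2⟩ := H.uRR.2
  obtain ⟨K3, hK3, b3⟩ := H.uXX.2
  obtain ⟨K4, hK4, b4⟩ := H.uqq.2
  have hC := H.C0
  have hth := H.th0.le
  have hp : ∀ k s (n : ℕ), 0 ≤ th ^ k * cl s ^ n := fun k s n =>
    mul_nonneg (pow_nonneg hth _) (pow_nonneg (cl_nonneg s) _)
  refine ⟨C + K1 + K2 + K3 + K4, fun x => ?_⟩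
  have cx : Continuous fun s : ℝ => ((x, s) : ℝ × ℝ) := by fun_prop
  have up : ∀ {a K' : ℝ} {k : ℕ} {s : ℝ} {n : ℕ}, a ≤ K' * th ^ k * cl s ^ n →
      K' ≤ C + K1 + K2 + K3 + K4 → a ≤ (C + K1 + K2 + K3 + K4) * th ^ k * cl s ^ n := by
    intro a K' k s n h h'
    refine h.trans ?_
    rw [mul_assoc, mul_assoc]
    exact mul_le_mul_of_nonneg_right h' (hp k s n)
  refine ⟨by positivity, H.th0, H.th1, H.R0 x, H.R1 x, h0 x, (H.ba x).trans (by linarith),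
    fun k => (H.bf x k).trans (mul_le_mul_of_nonneg_right (by linarith) (pow_nonneg hth _)),
    fun k => (comp_cl (g := fun x s => V x k s) (H.cV k)).comp cx, fun k s g0 g1 => (H.bV x k s g0 g1).trans
      (mul_le_mul_of_nonneg_right (mul_le_mul_of_nonneg_right (by linarith) (pow_nonneg hth _))
        (pow_nonneg g0 _)), fun k => (H.gGG k).1.comp cx, fun k => (H.gSS k).1.comp cx,
    fun k => ?_, fun k => ?_, fun k s => up (b1 k x s) (by linarith),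
    fun k s => up (b2 k x s) (by linarith), fun k s => up (b3 k x s) (by linarith),
    fun k s => up (b4 k x s) (by linarith), fun a b s => H.summable_qV a b x s⟩
  · obtain ⟨_, K, hK, hb⟩ := H.gGG k
    exact ⟨K, hK, fun s => hb x s⟩
  · obtain ⟨_, K, hK, hb⟩ := H.gSS k
    exact ⟨K, hK, fun s => hb x s⟩

/-- the fixed point equations at one `ρ` -/
structure Q1 (ρ α : ℝ) (φ : ℕ → ℝ) (V : ℕ → ℝ → ℝ) : Prop where
  mem : ρ ∈ Icc rho2 rho1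
  eV : ∀ k r, 0 < r → r ≤ 1 → V k r = TV ρ α φ V k r
  eA0 : α = TA ρ α φ V 0
  eA1 : φ 1 - eps0 ρ = TA ρ α φ V 1
  eA : ∀ k, φ (k + 2) = TA ρ α φ V (k + 2)

section

variable {K th ρ α : ℝ} {φ : ℕ → ℝ} {V : ℕ → ℝ → ℝ}

/-- the explicit parts -/
theorem X_rsol (k : ℕ) : RSol (42 * k) (fun r => ρ ^ 2 * (XX ρ α φ k r + ex ρ α φ k r))
    (XX ρ α φ k) (XX' ρ α φ k) := by
  match k with
  | 0 =>
    have h := ((besselSys.rsol_Q0 ρ).const_mul ((φ 1 / 43) ^ 2)).add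
      ((besselSys.rsol_A0 ρ).const_mul (α * (φ 1 / 43)))
    refine h.congr (fun r _ => ?_) (fun r _ => ?_) (fun r _ => ?_)
    · simp only [XX, ex]; ring
    · simp only [XX]
    · simp only [XX']
  | 1 =>
    have h := ((besselSys.rsol_PP ρ 42).const_mul (φ 1)).add ((besselSys.rsol_J ρ 41).const_mul α)
    refine h.congr (fun r _ => ?_) (fun r _ => ?_) (fun r _ => ?_)
    · simp only [XX, ex]; ring
    · simp only [XX]
    · simp only [XX']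
  | 2 =>
    have h := (((besselSys.rsol_PP ρ 84).const_mul (φ 2)).add
      ((besselSys.rsol_Q2 ρ).const_mul ((φ 1 / 43) ^ 2))).add
      ((besselSys.rsol_A2 ρ).const_mul (α * (φ 1 / 43)))
    refine h.congr (fun r _ => ?_) (fun r _ => ?_) (fun r _ => ?_)
    · simp only [XX, ex]; ring
    · simp only [XX]
    · simp only [XX']
  | k + 3 =>
    have h := (besselSys.rsol_PP ρ (42 * (k + 3))).const_mul (φ (k + 3))
    refine h.congr (fun r _ => ?_) (fun r _ => ?_) (fun r _ => ?_)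
    · simp only [XX, ex]; ring
    · simp only [XX]
    · simp only [XX']

variable (H : P1 K th ρ α φ V)
include H

theorem P1.bV2 {k : ℕ} (hk : wt k = 2) (s : ℝ) (h0 : 0 < s) (h1 : s ≤ 1) :
    |V k (cl s)| ≤ K * s ^ 2 := by
  rw [cl_of_mem h0.le h1]
  refine (H.bV k s h0.le h1).trans ?_
  rw [hk]
  refine mul_le_mul_of_nonneg_right ?_ (pow_nonneg h0.le 2)
  exact mul_le_of_le_one_right H.K0 (pow_le_one₀ H.th0.le H.th1.le)

theorem P1.csrc0 : Continuous (src ρ (-1 / 4) (fun s => GG ρ α φ V 0 (cl s))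
    (fun s => V 0 (cl s))) :=
  SCHR.continuous_src_raw H.ρ0.ne' (H.cG 0) (H.cV 0) le_rfl (H.bV2 rfl)

theorem P1.csrc1 : Continuous (src ρ (42 ^ 2 - 1 / 4) (fun s => GG ρ α φ V 1 (cl s))
    (fun s => V 1 (cl s))) :=
  SCHR.continuous_src_raw H.ρ0.ne' (H.cG 1) (H.cV 1) le_rfl (H.bV2 rfl)

/-- the sources of the Dirichlet modes -/
theorem P1.wS (k : ℕ) : ∃ C, 0 ≤ C ∧ Wt (ev k) C fun s => SS ρ α φ V k (cl s) := by
  obtain ⟨C, hC, hb⟩ := H.bS k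
  refine ⟨C, hC, (H.cS k).continuousOn, fun s h0 h1 => ?_⟩
  have := hb s
  rwa [cl_of_mem h0.le h1] at this ⊢

/-- **(1) radial equations** -/
theorem P1.rsol (k : ℕ) : RSol (42 * k) (ss ρ α φ V k) (yy ρ α φ V k) (yy' ρ α φ V k) := by
  match k with
  | 0 =>
    have h := (besselSys.rsol_J0 ρ).add ((X_rsol (ρ := ρ) (α := α) (φ := φ) 0).add
      (SV_rsol H.ρ0.ne' H.csrc0 0 (by norm_num)))
    exact h.congr (fun r _ => rfl) (fun r _ => rfl) (fun r _ => rfl)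
  | 1 =>
    have h := (X_rsol (ρ := ρ) (α := α) (φ := φ) 1).add
      (SV_rsol H.ρ0.ne' H.csrc1 42 (by norm_num))
    exact h.congr (fun r _ => rfl) (fun r _ => rfl) (fun r _ => rfl)
  | k + 2 =>
    obtain ⟨C, _, hw⟩ := H.wS (k + 2)
    have h := (dirichlet_mode (n := 42 * (k + 2)) (by omega) (ρ := ρ)
      (X_rsol (ρ := ρ) (α := α) (φ := φ) (k + 2)) hw).1
    exact h.congr (fun r _ => rfl) (fun r _ => rfl) (fun r _ => rfl)

/-- **(5) Dirichlet condition** -/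
theorem P1.dir (k : ℕ) : yy ρ α φ V (k + 2) 1 = 0 := by
  obtain ⟨C, _, hw⟩ := H.wS (k + 2)
  exact (dirichlet_mode (n := 42 * (k + 2)) (by omega) (ρ := ρ)
      (X_rsol (ρ := ρ) (α := α) (φ := φ) (k + 2)) hw).2.1

variable (F : Q1 ρ α φ V)
include F

omit H in
/-- **(2) the modes are `V_k`** -/
theorem Q1.yy_eq (k : ℕ) {r : ℝ} (h0 : 0 < r) (h1 : r ≤ 1) :
    yy ρ α φ V k r = VV ρ α φ V k r + if k = 0 then J 0 (ρ * r) else 0 := by
  match k with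
  | 0 =>
    have h := F.eV 0 r h0 h1
    simp only [yy, VV, RR, sv0, if_true]
    rw [h, TV]
    ring
  | 1 =>
    have h := F.eV 1 r h0 h1
    simp only [yy, VV, RR, sv1, one_ne_zero, if_false, add_zero]
    rw [h, TV]
  | k + 2 =>
    have h := F.eV (k + 2) r h0 h1
    simp only [yy, VV, RR, show k + 2 ≠ 0 by omega, if_false, add_zero]
    rw [h, TV]
    ring

/-- **(4) Neumann conditions** -/
theorem Q1.neumann (k : ℕ) : yy' ρ α φ V k 1 = 0 := by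
  match k with
  | 0 =>
    have h1 : φ 1 = eps0 ρ + (φ 1 - eps0 ρ) := by ring
    have h := eta_eq besselSys (ρ := ρ) (ε := φ 1) (ε₀ := eps0 ρ) (η := φ 1 - eps0 ρ) (α := α)
      (d₀ := dd0 ρ α φ V) h1 (eps0_pos F.mem).ne' (D1_pos F.mem).ne' ?_ ?_
    · simp only [yy', XX', mul_one, sv0']
      unfold dd0 at h
      linarith
    · rw [eps0_sq F.mem]
      exact div_mul_cancel₀ _ (D1_pos F.mem).ne'
    · exact F.eA1
  | 1 =>
    have hJ : ρ * ((J 41 ρ - J 43 ρ) / 2) ≠ 0 := (den_pos F.mem).ne'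
    have h := alpha_eq (J := J) (ρ := ρ) (ε := φ 1) (α := α) (d₁ := dd1 ρ α φ V) hJ F.eA0
    simp only [yy', XX', mul_one, sv1']
    unfold dd1 at h
    rw [← h]
    ring
  | 2 =>
    obtain ⟨C, _, hw⟩ := H.wS 2
    have h := (dirichlet_mode (n := 84) (by norm_num) (ρ := ρ)
      (X_rsol (ρ := ρ) (α := α) (φ := φ) 2) hw).2.2
    have h2 := phi2_eq besselSys (ρ := ρ) (φ := φ 2) (g := φ 1 / 43) (α := α)
      (I := ∫ s in (0:ℝ)..1, s ^ 85 * SS ρ α φ V 2 (cl s)) H.ρ0.ne' (J0_neg F.mem).ne (F.eA 0)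
    show XX' ρ α φ 2 1 + (-(XX ρ α φ 2 1) * (((84 : ℕ) : ℝ) * 1 ^ 84 / 1) +
      ρ ^ 2 * Gr' 84 (fun s => SS ρ α φ V 2 (cl s)) 1) = 0
    rw [h]
    refine Eq.trans ?_ h2
    simp only [XX', XX]
    push_cast
    norm_num
  | k + 3 =>
    obtain ⟨C, _, hw⟩ := H.wS (k + 3)
    have h := (dirichlet_mode (n := 42 * (k + 3)) (by omega) (ρ := ρ)
      (X_rsol (ρ := ρ) (α := α) (φ := φ) (k + 3)) hw).2.2
    have h2 := phi_eq (n := 42 * (k + 3)) (ρ := ρ) (φ := φ (k + 3)) (J := J)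
      (I := ∫ s in (0:ℝ)..1, s ^ (42 * (k + 3) + 1) * SS ρ α φ V (k + 3) (cl s))
      (J0_neg F.mem).ne (F.eA (k + 1))
    show XX' ρ α φ (k + 3) 1 + (-(XX ρ α φ (k + 3) 1) *
      (((42 * (k + 3) : ℕ) : ℝ) * 1 ^ (42 * (k + 3)) / 1) +
      ρ ^ 2 * Gr' (42 * (k + 3)) (fun s => SS ρ α φ V (k + 3) (cl s)) 1) = 0
    rw [h]
    exact h2

end

end

end SCHT
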