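import Pool.Agent.MP_83fd13_an.SCH.RegD
import Pool.Agent.MP_83fd13_an.SCH.TEnd

/-!
# [SCH] the sums of `|φ_k|` and the continuity of `h` for `Family` (helper38)
-/

set_option autoImplicit false

namespace SCHT

open MeasureTheory Set Filter Topology
open Pool.Agent.SCH SCHB SCHF SCHS

noncomputable section

variable {ρ : ℝ} {cA bA : ℕ → ℝ} {bV : ℕ → ℝ → ℝ} {x : St}

theorem summable_ph3 (N : BoxNum cA bA bV) (H : Boxed cA bA bV x) (hρ : ρ ∈ Icc rho2 rho1) :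
    Summable fun k => |x.ph ρ (k + 3)| := by
  have h0 := eps0_pos hρ
  have h1 := eps0_le hρ
  refine Summable.of_nonneg_of_le (fun _ => abs_nonneg _) (fun k => ?_)
    ((summable_geometric_of_lt_one (r := 2 * eps0 ρ) (by linarith) (by linarith)).mul_left
      (12 / 100 * (2 * eps0 ρ) ^ 3))
  have h := H.A ρ hρ (k + 3)
  rw [N.cs (k + 2), mul_zero, sub_zero] at h
  have e : x.ph ρ (k + 3) = x.A (k + 3) ρ := rfl
  rw [e]
  refine h.trans ?_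
  have e2 : eps0 ρ ^ pA (k + 3) = eps0 ρ ^ (k + 3) := rfl
  rw [e2]
  calc eps0 ρ ^ (k + 3) * bA (k + 3) ≤ eps0 ρ ^ (k + 3) * (12 / 100 * 2 ^ (k + 3)) :=
        mul_le_mul_of_nonneg_left (N.b3 k) (by positivity)
    _ = _ := by ring

theorem summable_ph2 (N : BoxNum cA bA bV) (H : Boxed cA bA bV x) (hρ : ρ ∈ Icc rho2 rho1) :
    Summable fun k => |x.ph ρ (k + 2)| :=
  (summable_nat_add_iff 1).1 (summable_ph3 N H hρ)

theorem summable_ph1 (N : BoxNum cA bA bV) (H : Boxed cA bA bV x) (hρ : ρ ∈ Icc rho2 rho1) :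
    Summable fun k => |x.ph ρ (k + 1)| :=
  (summable_nat_add_iff 1).1 (summable_ph2 N H hρ)

theorem summable_ph (N : BoxNum cA bA bV) (H : Boxed cA bA bV x) (hρ : ρ ∈ Icc rho2 rho1) :
    Summable fun k => |x.ph ρ k| :=
  (summable_nat_add_iff 1).1 (summable_ph1 N H hρ)

/-- bound of `∑_{k ≥ 2} |φ_k|` -/
theorem ph2_sum (N : BoxNum cA bA bV) (H : Boxed cA bA bV x) (hρ : ρ ∈ Icc rho2 rho1) :
    ∑' k, |x.ph ρ (k + 2)| ≤ 0.1 * eps0 ρ := by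
  have h0 := eps0_pos hρ
  have h1 := eps0_le hρ
  have ht := tail_le' N H hρ le_rfl (by linarith : 2 * eps0 ρ < 1)
  have h2 := ph2_le N H hρ
  rw [(summable_ph2 N H hρ).tsum_eq_zero_add]
  have e : ∑' k, |x.ph ρ (k + 1 + 2)| = ∑' k, |x.ph ρ (k + 3)| := rfl
  rw [e]
  have h3 : 12 / 100 * (2 * eps0 ρ) ^ 3 / (1 - 2 * eps0 ρ) ≤ 0.02 * eps0 ρ := by
    rw [div_le_iff₀ (by linarith)]
    have : eps0 ρ ^ 2 ≤ 0.1093 ^ 2 := by gcongr
    have h4 : 12 / 100 * (2 * eps0 ρ) ^ 3 = 0.96 * eps0 ρ ^ 2 * eps0 ρ := by ring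
    rw [h4]
    nlinarith
  have h5 : 45 / 100 * eps0 ρ ^ 2 ≤ 0.05 * eps0 ρ := by nlinarith
  have h6 : |x.ph ρ (0 + 2)| ≤ 0.05 * eps0 ρ := h2.trans h5
  linarith

/-- `∑_{k ≥ 1} |φ_k| ≤ 1/3` -/
theorem fam_q (N : BoxNum cA bA bV) (H : Boxed cA bA bV x) (hρ : ρ ∈ Icc rho2 rho1) :
    ∑' k, |x.ph ρ (k + 1)| ≤ 1 / 3 := by
  have h0 := eps0_pos hρ
  have h1 := eps0_le hρ
  have h2 := ph2_sum N H hρ
  have h3 := ph1_mem N H hρ
  rw [(summable_ph1 N H hρ).tsum_eq_zero_add]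
  have e : ∑' k, |x.ph ρ (k + 1 + 1)| = ∑' k, |x.ph ρ (k + 2)| := rfl
  rw [e]
  have h4 : |x.ph ρ (0 + 1)| ≤ 1.05 * eps0 ρ := by
    show |x.ph ρ 1| ≤ _
    rw [abs_of_nonneg (by linarith [h3.1])]
    exact h3.2
  linarith

/-- `∑_{k ≥ 2} |φ_k| < |φ_1|` -/
theorem fam_q1 (N : BoxNum cA bA bV) (H : Boxed cA bA bV x) (hρ : ρ ∈ Icc rho2 rho1) :
    ∑' k, |x.ph ρ (k + 2)| < |x.ph ρ 1| := by
  have h0 := eps0_pos hρ
  have h2 := ph2_sum N H hρ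
  have h3 := ph1_mem N H hρ
  rw [abs_of_nonneg (by linarith [h3.1])]
  linarith [h3.1]

/-- continuity of `ρ ↦ VV 1 (1)` -/
theorem Dat.cVV1 {C th : ℝ} {R α : ℝ → ℝ} {φ : ℝ → ℕ → ℝ} {V : ℝ → ℕ → ℝ → ℝ}
    (H : Dat C th R α φ V) (k : ℕ) : Continuous fun x => VV (R x) (α x) (φ x) (V x) k 1 := by
  have h := (H.gVV k).1.comp (continuous_id.prodMk (continuous_const (y := (1:ℝ))))
  refine h.congr fun x => ?_
  show VV (R x) (α x) (φ x) (V x) k (cl 1) = _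
  rw [cl_of_mem zero_le_one le_rfl]

/-- continuity of `ρ ↦ VV k (1)` on the interval -/
theorem cVV_state {C th : ℝ} (hR : Rg x) (hc : Crude C th x) (k : ℕ) :
    ContinuousOn (fun ρ => VV ρ (x.A 0 ρ) (x.ph ρ) (fun k => x.V k ρ) k 1) (Icc rho2 rho1) := by
  have H := dat_of_state nzI hR hc
  refine (H.cVV1 k).continuousOn.congr fun ρ hρ => ?_
  simp only [cρ_eq hρ]

end

end SCHT
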