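import Pool.Agent.MP_83fd13_an.SCH.PRow
import Pool.Agent.MP_83fd13_an.SCH.TBes
import Pool.Agent.MP_83fd13_an.SCH.THat

/-!
# [SCH] the rows `k = 0, 1` of the hat map (helper42)
-/

set_option autoImplicit false

namespace SCHT

open MeasureTheory Set Filter Topology
open Pool.Agent.SCH SCHB SCHF SCHS

noncomputable section

variable {ρ M C a a' : ℝ} {f f' : ℕ → ℝ} {U U' : ℕ → ℝ → ℝ}

theorem sqrt_bd (hρ : ρ ∈ Icc rho2 rho1) : √(1 + (1 / (2 * ρ)) ^ 2) ≤ 1.00005 := by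
  have h := I1 hρ
  have h1 : 1 / (2 * ρ) ≤ 1 / 108 := by
    apply one_div_le_one_div_of_le <;> linarith
  have h0 : 0 ≤ 1 / (2 * ρ) := by
    have := I0 hρ
    positivity
  rw [Real.sqrt_le_left (by norm_num)]
  nlinarith

/-- the sine rows: functions -/
theorem row_svf (hρ : ρ ∈ Icc rho2 rho1) (hM : 0 ≤ M) {c : ℝ} {b : ℕ} (hb : 2 ≤ b) (P : PL)
    {B B' : ℝ} {g g' v v' : ℝ → ℝ}
    (cg : Continuous fun s => g (cl s)) (cg' : Continuous fun s => g' (cl s))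
    (cv : Continuous fun s => v (cl s)) (cv' : Continuous fun s => v' (cl s))
    (H : ∀ s : ℝ, 0 < s → s ≤ 1 → Mj M (s ^ b * P.v.ev s) (s ^ b * P.d.ev s) (g s) (g' s))
    (HB : ∀ s : ℝ, 0 < s → s ≤ 1 → Mj M (B * s ^ b) (B' * s ^ b) (v s) (v' s))
    {r : ℝ} (hr : r ∈ Icc (0:ℝ) 1) :
    Mj M ((2935.83 * P.v.row (kS b) (kS b) (kS b) +
        |c| * B / (((b : ℝ) - 1 / 2) * ((b : ℝ) + 1 / 2))) * r ^ b)
      ((2935.83 * P.d.row (kS b) (kS b) (kS b) +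
        |c| * B' / (((b : ℝ) - 1 / 2) * ((b : ℝ) + 1 / 2))) * r ^ b)
      (SV ρ c (fun s => g (cl s)) (fun s => v (cl s)) r)
      (SV ρ c (fun s => g' (cl s)) (fun s => v' (cl s)) r) := by
  have kS0 : ∀ i, 0 ≤ kS b i := fun i => by unfold kS; positivity
  have hb1 : (2:ℝ) ≤ b := by exact_mod_cast hb
  have hbb : 0 < ((b : ℝ) - 1 / 2) * ((b : ℝ) + 1 / 2) := by
    apply mul_pos <;> linarith
  rcases hr.1.eq_or_lt with h0 | h0
  · rw [← h0]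
    have e : ∀ g v : ℝ → ℝ, SV ρ c g v 0 = 0 := fun g v => by
      unfold SV
      simp
    rw [e, e]
    refine (Mj.zero M).congr rfl rfl ?_ ?_ <;>
    · rw [zero_pow (by omega), mul_zero]
  · have h := row_SV (ρ := ρ) (c := c) (p := b) (b := b) (I0 hρ) hb hM P
      cg.continuousOn cg'.continuousOn cv.continuousOn cv'.continuousOn
      (fun s hs hs1 => by simpa only [cl_eq ⟨hs.le, hs1⟩] using H s hs hs1)
      (fun s hs hs1 => by simpa only [cl_eq ⟨hs.le, hs1⟩] using HB s hs hs1) h0 hr.2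
    have hs2 := rho_sq_le hρ
    have hrp : 0 ≤ r ^ b := pow_nonneg h0.le _
    refine h.mono hM ?_ ?_
    · have h1 := TL.row_nonneg kS0 kS0 kS0 P.v
      have h2 : r ^ b * (ρ ^ 2 * P.v.row (kS b) (kS b) (kS b)) ≤
          r ^ b * (2935.83 * P.v.row (kS b) (kS b) (kS b)) :=
        mul_le_mul_of_nonneg_left (mul_le_mul_of_nonneg_right hs2 h1) hrp
      calc _ = r ^ b * (ρ ^ 2 * P.v.row (kS b) (kS b) (kS b)) +
            |c| * B / (((b : ℝ) - 1 / 2) * ((b : ℝ) + 1 / 2)) * r ^ b := by ring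
        _ ≤ r ^ b * (2935.83 * P.v.row (kS b) (kS b) (kS b)) +
            |c| * B / (((b : ℝ) - 1 / 2) * ((b : ℝ) + 1 / 2)) * r ^ b := by linarith
        _ = _ := by ring
    · have h1 := TL.row_nonneg kS0 kS0 kS0 P.d
      have h2 : r ^ b * (ρ ^ 2 * P.d.row (kS b) (kS b) (kS b)) ≤
          r ^ b * (2935.83 * P.d.row (kS b) (kS b) (kS b)) :=
        mul_le_mul_of_nonneg_left (mul_le_mul_of_nonneg_right hs2 h1) hrp
      calc _ = r ^ b * (ρ ^ 2 * P.d.row (kS b) (kS b) (kS b)) +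
            |c| * B' / (((b : ℝ) - 1 / 2) * ((b : ℝ) + 1 / 2)) * r ^ b := by ring
        _ ≤ r ^ b * (2935.83 * P.d.row (kS b) (kS b) (kS b)) +
            |c| * B' / (((b : ℝ) - 1 / 2) * ((b : ℝ) + 1 / 2)) * r ^ b := by linarith
        _ = _ := by ring

/-- the sine rows: derivative at `1` -/
theorem row_svd (hρ : ρ ∈ Icc rho2 rho1) (hM : 0 ≤ M) {c : ℝ} {b : ℕ} (hb : 2 ≤ b) (P : PL)
    {B B' : ℝ} (hB : 0 ≤ B) (hB' : 0 ≤ B') {g g' v v' : ℝ → ℝ}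
    (cg : Continuous fun s => g (cl s)) (cg' : Continuous fun s => g' (cl s))
    (cv : Continuous fun s => v (cl s)) (cv' : Continuous fun s => v' (cl s))
    (H : ∀ s : ℝ, 0 < s → s ≤ 1 → Mj M (s ^ b * P.v.ev s) (s ^ b * P.d.ev s) (g s) (g' s))
    (HB : ∀ s : ℝ, 0 < s → s ≤ 1 → Mj M (B * s ^ b) (B' * s ^ b) (v s) (v' s)) :
    Mj M (1.00005 * (2935.83 * P.v.row (kDa b) (kDb b) (kDc b) + |c| * B / ((b : ℝ) - 1 / 2)))
      (1.00005 * (2935.83 * P.d.row (kDa b) (kDb b) (kDc b) + |c| * B' / ((b : ℝ) - 1 / 2)))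
      (SV' ρ c (fun s => g (cl s)) (fun s => v (cl s)) 1)
      (SV' ρ c (fun s => g' (cl s)) (fun s => v' (cl s)) 1) := by
  have k1 : ∀ i, 0 ≤ kDa b i := fun i => by unfold kDa; positivity
  have k2 : ∀ i, 0 ≤ kDb b i := fun i => by unfold kDb; positivity
  have k3 : ∀ i, 0 ≤ kDc b i := fun i => by unfold kDc; positivity
  have hb1 : (2:ℝ) ≤ b := by exact_mod_cast hb
  have hbb : 0 < (b : ℝ) - 1 / 2 := by linarith
  have h := row_SV' (ρ := ρ) (c := c) (p := b) (b := b) (I0 hρ) hb hM P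
    cg.continuousOn cg'.continuousOn cv.continuousOn cv'.continuousOn
    (fun s hs hs1 => by simpa only [cl_eq ⟨hs.le, hs1⟩] using H s hs hs1)
    (fun s hs hs1 => by simpa only [cl_eq ⟨hs.le, hs1⟩] using HB s hs hs1)
  have hs2 := rho_sq_le hρ
  have hq := sqrt_bd hρ
  refine h.mono hM ?_ ?_
  · have h1 := TL.row_nonneg k1 k2 k3 P.v
    have h3 : 0 ≤ |c| * B / ((b : ℝ) - 1 / 2) := by positivity
    exact mul_le_mul hq (add_le_add (mul_le_mul_of_nonneg_right hs2 h1) le_rfl) (by positivity)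
      (by norm_num)
  · have h1 := TL.row_nonneg k1 k2 k3 P.d
    have h3 : 0 ≤ |c| * B' / ((b : ℝ) - 1 / 2) := by positivity
    exact mul_le_mul hq (add_le_add (mul_le_mul_of_nonneg_right hs2 h1) le_rfl) (by positivity)
      (by norm_num)

/-- the row of `α` (`a = α/t`, centre `-0.7886`) -/
theorem row_A0 (hρ : ρ ∈ Icc rho2 rho1) (hM : 0 ≤ M) {E E' D D' : ℝ}
    (hE : Mj M E E' (f 1 - 1) (f' 1 - 1))
    (hD : Mj M D D' (hd1 ρ (eps0 ρ ^ 2) a f U) (hd1 ρ (eps0 ρ ^ 2) a' f' U')) :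
    Mj M (0.002 + 0.7906 * E + 0.0025554 * D) (0.7906 * E' + 0.0025554 * D')
      (hTA ρ (eps0 ρ ^ 2) a f U 0 + 0.7886) (hTA ρ (eps0 ρ ^ 2) a' f' U' 0 + 0.7886) := by
  have hden := den_pos hρ
  have hc := Calpha hρ
  set Ca := (ρ ^ 2 * J 0 ρ + 42 * ρ * J 1 ρ) / (86 * (ρ * ((J 41 ρ - J 43 ρ) / 2))) with hCa
  have hc2 : |Ca| ≤ 0.7906 := by
    rw [abs_le] at hc ⊢
    constructor <;> linarith [hc.1, hc.2]
  have hu : |eps0 ρ ^ 2 / (ρ * ((J 41 ρ - J 43 ρ) / 2))| ≤ 0.0025554 := by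
    rw [abs_div, abs_of_pos hden, abs_of_nonneg (sq_nonneg _), div_le_iff₀ hden]
    have := u_le hρ
    have := den_ge hρ
    linarith
  have e : ∀ (a : ℝ) (f : ℕ → ℝ) (U : ℕ → ℝ → ℝ), hTA ρ (eps0 ρ ^ 2) a f U 0 + 0.7886 =
      ((Ca + 0.7886) + Ca * (f 1 - 1)) -
        eps0 ρ ^ 2 / (ρ * ((J 41 ρ - J 43 ρ) / 2)) * hd1 ρ (eps0 ρ ^ 2) a f U := by
    intro a f U
    simp only [hTA, hCa]
    have h1 := hden.ne'
    set D := ρ * ((J 41 ρ - J 43 ρ) / 2)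
    field_simp
    ring
  rw [e, e]
  have h1 : Mj M 0.002 0 (Ca + 0.7886) (Ca + 0.7886) := Mj.const_le M hc
  exact ((h1.add (hE.const_mul_le hc2)).sub (hD.const_mul_le hu)).mono hM (le_of_eq (by ring))
    (le_of_eq (by ring))

/-- the row of `η` -/
theorem row_A1 (hρ : ρ ∈ Icc rho2 rho1) (hM : 0 ≤ M) {E E' A A' D D' : ℝ}
    (hE : Mj M E E' (f 1 - 1) (f' 1 - 1)) (hA : Mj M A A' (a + 0.7886) (a' + 0.7886))
    (hD : Mj M D D' (hd0 ρ (eps0 ρ ^ 2) a f U) (hd0 ρ (eps0 ρ ^ 2) a' f' U')) :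
    Mj M (E ^ 2 / 2 + 0.00431 * ((0.7886 + A) * (1 + E)) + 0.0016119 * D)
      (E * E' + 0.00431 * (A' * (1 + E) + (0.7886 + A) * E') + 0.0016119 * D')
      (hTA ρ (eps0 ρ ^ 2) a f U 1) (hTA ρ (eps0 ρ ^ 2) a' f' U' 1) := by
  have hDa := Da_bd hρ
  have hDD := D1_pos hρ
  have hu : |eps0 ρ ^ 2 * (1 / (2 * D1 J ρ))| ≤ 0.0016119 := by
    rw [abs_mul, abs_of_nonneg (sq_nonneg (eps0 ρ))]
    have h1 := u_le hρ
    have h2 := inv2D1 hρ
    calc eps0 ρ ^ 2 * |1 / (2 * D1 J ρ)| ≤ 0.01194 * 0.135 :=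
          mul_le_mul h1 h2 (abs_nonneg _) (by norm_num)
      _ ≤ _ := by norm_num
  have e : ∀ (a : ℝ) (f : ℕ → ℝ) (U : ℕ → ℝ → ℝ), hTA ρ (eps0 ρ ^ 2) a f U 1 =
      -((1 / 2) * (f 1 - 1) ^ 2) - Da J ρ / (2 * D1 J ρ) * ((a + 0.7886 - 0.7886) * ((f 1 - 1) + 1))
        - eps0 ρ ^ 2 * (1 / (2 * D1 J ρ)) * hd0 ρ (eps0 ρ ^ 2) a f U := by
    intro a f U
    simp only [hTA]
    have h1 := hDD.ne'
    field_simp
    ring
  rw [e, e]
  have hE2 := hE.sq.const_mul_le (c := 1 / 2) (C := 1 / 2) (by norm_num)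
  have h1 : Mj M 1 0 (1:ℝ) 1 := Mj.const_le M (by norm_num)
  have h7 : Mj M 0.7886 0 (0.7886:ℝ) 0.7886 := Mj.const_le M (by norm_num)
  have hp := ((hA.sub h7).mul (hE.add h1)).const_mul_le hDa
  exact ((hE2.neg.sub hp).sub (hD.const_mul_le hu)).mono hM (le_of_eq (by ring))
    (le_of_eq (by ring))

end

end SCHT
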