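import Pool.Agent.MP_83fd13_an.SCH.PTK
import Pool.Agent.MP_83fd13_an.SCH.THatC
import Pool.Agent.MP_83fd13_an.SCH.TRow01

/-!
# [SCH] the rows `k = 0, 1` of the hat map with computable checks (helper42)

All numbers are naturals in units of `10⁻⁸`; `κ = K / 1000`.
-/

set_option autoImplicit false

namespace SCHT

open MeasureTheory Set Filter Topology
open Pool.Agent.SCH SCHB SCHF SCHS

noncomputable section

/-! ### computable kernels -/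

def KS (b i : ℕ) : ℕ := 4 * UU / ((2 * b + 84 * i + 3) * (2 * b + 84 * i + 5)) + 1
def KDa (b i : ℕ) : ℕ := 2 * UU / (2 * b + 84 * i + 3) + 1
def KDb (b i : ℕ) : ℕ := 4 * UU / ((2 * b + 84 * i + 3) * (2 * b + 84 * i + 5)) + 1
def KDc (b i : ℕ) : ℕ := 168 * UU / ((2 * b + 84 * i + 3) * (2 * b + 84 * i + 87)) + 1

theorem kS_le (b i : ℕ) : kS b i ≤ (KS b i : ℝ) / UU := by
  have h := div_le_ceil 4 ((2 * b + 84 * i + 3) * (2 * b + 84 * i + 5)) (by positivity)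
  refine le_trans (le_of_eq ?_) h
  unfold kS
  push_cast
  rw [div_eq_div_iff (by positivity) (by positivity)]
  ring

theorem kDa_le (b i : ℕ) : kDa b i ≤ (KDa b i : ℝ) / UU := by
  have h := div_le_ceil 2 (2 * b + 84 * i + 3) (by positivity)
  refine le_trans (le_of_eq ?_) h
  unfold kDa
  push_cast
  rw [div_eq_div_iff (by positivity) (by positivity)]
  ring

theorem kDb_le (b i : ℕ) : kDb b i ≤ (KDb b i : ℝ) / UU := by
  have h := div_le_ceil 4 ((2 * b + 84 * i + 3) * (2 * b + 84 * i + 5)) (by positivity)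
  refine le_trans (le_of_eq ?_) h
  unfold kDb
  push_cast
  rw [div_eq_div_iff (by positivity) (by positivity)]
  ring

theorem kDc_le (b i : ℕ) : kDc b i ≤ (KDc b i : ℝ) / UU := by
  have h := div_le_ceil 168 ((2 * b + 84 * i + 3) * (2 * b + 84 * i + 87)) (by positivity)
  refine le_trans (le_of_eq ?_) h
  unfold kDc
  push_cast
  rw [div_eq_div_iff (by positivity) (by positivity)]
  ring

/-- row values -/
def nS (b : ℕ) (L : TL) : ℕ := L.rowN (KS b) (KS b) (KS b)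
def nD (b : ℕ) (L : TL) : ℕ := L.rowN (KDa b) (KDb b) (KDc b)

theorem nS_le (b : ℕ) (L : TL) : L.row (kS b) (kS b) (kS b) ≤ (nS b L : ℝ) / ((UU : ℝ) * UU) :=
  TL.row_le (kS_le b) (kS_le b) (kS_le b) L

theorem nD_le (b : ℕ) (L : TL) : L.row (kDa b) (kDb b) (kDc b) ≤ (nD b L : ℝ) / ((UU : ℝ) * UU) :=
  TL.row_le (kDa_le b) (kDb_le b) (kDc_le b) L

/-! ### checks for the functions -/

/-- `2935.83 N + (x/y) B ≤ B` and `2935.83 N' + (x/y) B' ≤ (K/1000) B'` -/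
def ckS (b x y : ℕ) (P : PL) (B B' K : ℕ) : Bool :=
  Nat.ble (293583 * nS b P.v * y + 100 * x * B * UU) (100 * y * B * UU) &&
  Nat.ble ((293583 * nS b P.d * y + 100 * x * B' * UU) * 1000) (100 * y * B' * UU * K)

theorem ckS_v {b x y : ℕ} {P : PL} {B B' K : ℕ} (hy : 0 < y) (h : ckS b x y P B B' K = true) :
    2935.83 * P.v.row (kS b) (kS b) (kS b) + (x : ℝ) / y * ((B : ℝ) / UU) ≤ (B : ℝ) / UU := by
  simp only [ckS, Bool.and_eq_true, Nat.ble_eq] at h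
  have h1 := (Nat.cast_le (α := ℝ)).2 h.1
  have h2 := nS_le b P.v
  have hU := UU_pos
  have hy' : (0:ℝ) < y := Nat.cast_pos.2 hy
  push_cast at h1
  have h3 : 2935.83 * ((nS b P.v : ℝ) / ((UU : ℝ) * UU)) + (x : ℝ) / y * ((B : ℝ) / UU) ≤
      (B : ℝ) / UU := by
    rw [← sub_nonneg]
    have e : (B : ℝ) / UU - (2935.83 * ((nS b P.v : ℝ) / ((UU : ℝ) * UU)) +
        (x : ℝ) / y * ((B : ℝ) / UU)) =
        (100 * y * B * UU - (293583 * nS b P.v * y + 100 * x * B * UU)) /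
          (100 * y * (UU * UU)) := by
      field_simp
      ring
    rw [e]
    exact div_nonneg (by linarith) (by positivity)
  have h4 := mul_le_mul_of_nonneg_left h2 (show (0:ℝ) ≤ 2935.83 by norm_num)
  linarith

theorem ckS_d {b x y : ℕ} {P : PL} {B B' K : ℕ} (hy : 0 < y) (h : ckS b x y P B B' K = true) :
    2935.83 * P.d.row (kS b) (kS b) (kS b) + (x : ℝ) / y * ((B' : ℝ) / UU) ≤
      (K : ℝ) / 1000 * ((B' : ℝ) / UU) := by
  simp only [ckS, Bool.and_eq_true, Nat.ble_eq] at h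
  have h1 := (Nat.cast_le (α := ℝ)).2 h.2
  have h2 := nS_le b P.d
  have hU := UU_pos
  have hy' : (0:ℝ) < y := Nat.cast_pos.2 hy
  push_cast at h1
  have h3 : 2935.83 * ((nS b P.d : ℝ) / ((UU : ℝ) * UU)) + (x : ℝ) / y * ((B' : ℝ) / UU) ≤
      (K : ℝ) / 1000 * ((B' : ℝ) / UU) := by
    rw [← sub_nonneg]
    have e : (K : ℝ) / 1000 * ((B' : ℝ) / UU) - (2935.83 * ((nS b P.d : ℝ) / ((UU : ℝ) * UU)) +
        (x : ℝ) / y * ((B' : ℝ) / UU)) =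
        (100 * y * B' * UU * K - (293583 * nS b P.d * y + 100 * x * B' * UU) * 1000) /
          (100000 * y * (UU * UU)) := by
      field_simp
      ring
    rw [e]
    exact div_nonneg (by linarith) (by positivity)
  have h4 := mul_le_mul_of_nonneg_left h2 (show (0:ℝ) ≤ 2935.83 by norm_num)
  linarith

/-- bound of the derivative at `1`: `1.00005 (2935.83 N + (x/y) B)` -/
def dN (b x y : ℕ) (L : TL) (B : ℕ) : ℕ :=
  (100005 * (293583 * nD b L * y + 100 * x * B * UU)) / (10000000 * y * UU) + 1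

theorem dN_le {b x y : ℕ} {L : TL} {B : ℕ} (hy : 0 < y) :
    1.00005 * (2935.83 * L.row (kDa b) (kDb b) (kDc b) + (x : ℝ) / y * ((B : ℝ) / UU)) ≤
      (dN b x y L B : ℝ) / UU := by
  have h2 := nD_le b L
  have hU := UU_pos
  have hy' : (0:ℝ) < y := Nat.cast_pos.2 hy
  have h4 := mul_le_mul_of_nonneg_left h2 (show (0:ℝ) ≤ 2935.83 by norm_num)
  have h5 : 1.00005 * (2935.83 * L.row (kDa b) (kDb b) (kDc b) + (x : ℝ) / y * ((B : ℝ) / UU)) ≤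
      1.00005 * (2935.83 * ((nD b L : ℝ) / ((UU : ℝ) * UU)) + (x : ℝ) / y * ((B : ℝ) / UU)) := by
    linarith
  refine h5.trans ?_
  set A := 100005 * (293583 * nD b L * y + 100 * x * B * UU) with hA
  have h6 : (A : ℝ) ≤ (A / (10000000 * y * UU) + 1 : ℕ) * (10000000 * y * UU : ℕ) := by
    have h7 : 0 < 10000000 * y * UU := by
      have : 0 < UU := by unfold UU; norm_num
      positivity
    have h8 := Nat.lt_div_mul_add (a := A) h7
    have h9 : A ≤ (A / (10000000 * y * UU) + 1) * (10000000 * y * UU) := by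
      rw [add_mul, one_mul]; omega
    exact_mod_cast h9
  have e : 1.00005 * (2935.83 * ((nD b L : ℝ) / ((UU : ℝ) * UU)) + (x : ℝ) / y * ((B : ℝ) / UU)) =
      (A : ℝ) / (10000000 * y * UU) / UU := by
    rw [hA]
    push_cast
    field_simp
    ring
  rw [e]
  refine div_le_div_of_nonneg_right ?_ hU.le
  rw [div_le_iff₀ (by positivity)]
  unfold dN
  rw [← hA]
  push_cast at h6 ⊢
  exact h6

/-! ### the rows -/

section rows

variable {ρ M C a a' : ℝ} {f f' : ℕ → ℝ} {U U' : ℕ → ℝ → ℝ}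

/-- `hTV 0` -/
theorem rowV0 (hρ : ρ ∈ Icc rho2 rho1) (hM : 0 ≤ M) (H : HSt C a f U) (H' : HSt C a' f' U')
    (P : PL) {B B' K : ℕ}
    (hP : ∀ s : ℝ, 0 < s → s ≤ 1 → TK M s (s ^ 126) P (hG ρ (eps0 ρ ^ 2) a f U 0 s)
      (hG ρ (eps0 ρ ^ 2) a' f' U' 0 s))
    (hB : ∀ s : ℝ, 0 < s → s ≤ 1 → Mj M ((B : ℝ) / UU * s ^ 126) ((B' : ℝ) / UU * s ^ 126)
      (U 0 s) (U' 0 s))
    (ck : ckS 126 1 63503 P B B' K = true) {r : ℝ} (hr : r ∈ Icc (0:ℝ) 1) :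
    Mj M ((B : ℝ) / UU * r ^ 126) ((K : ℝ) / 1000 * ((B' : ℝ) / UU * r ^ 126))
      (hTV ρ (eps0 ρ ^ 2) a f U 0 r) (hTV ρ (eps0 ρ ^ 2) a' f' U' 0 r) := by
  have h := row_svf hρ hM (c := -1 / 4) (b := 126) (by norm_num) P (H.cG hρ 0) (H'.cG hρ 0)
    (H.Uc 0) (H'.Uc 0) hP hB hr
  have hr0 : 0 ≤ r ^ 126 := pow_nonneg hr.1 _
  have e : ∀ x : ℝ, |(-1 / 4 : ℝ)| * x / ((((126 : ℕ) : ℝ) - 1 / 2) * (((126 : ℕ) : ℝ) + 1 / 2)) =
      ((1 : ℕ) : ℝ) / (63503 : ℕ) * x := by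
    intro x
    rw [show |(-1 / 4 : ℝ)| = 1 / 4 by rw [abs_of_neg (by norm_num)]; norm_num]
    push_cast
    ring
  rw [e, e] at h
  refine h.mono hM (mul_le_mul_of_nonneg_right (ckS_v (by norm_num) ck) hr0) ?_
  rw [← mul_assoc]
  exact mul_le_mul_of_nonneg_right (ckS_d (by norm_num) ck) hr0

/-- `hTV 1` -/
theorem rowV1 (hρ : ρ ∈ Icc rho2 rho1) (hM : 0 ≤ M) (H : HSt C a f U) (H' : HSt C a' f' U')
    (P : PL) {B B' K : ℕ}
    (hP : ∀ s : ℝ, 0 < s → s ≤ 1 → TK M s (s ^ 84) P (hG ρ (eps0 ρ ^ 2) a f U 1 s)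
      (hG ρ (eps0 ρ ^ 2) a' f' U' 1 s))
    (hB : ∀ s : ℝ, 0 < s → s ≤ 1 → Mj M ((B : ℝ) / UU * s ^ 84) ((B' : ℝ) / UU * s ^ 84)
      (U 1 s) (U' 1 s))
    (ck : ckS 84 7055 28223 P B B' K = true) {r : ℝ} (hr : r ∈ Icc (0:ℝ) 1) :
    Mj M ((B : ℝ) / UU * r ^ 84) ((K : ℝ) / 1000 * ((B' : ℝ) / UU * r ^ 84))
      (hTV ρ (eps0 ρ ^ 2) a f U 1 r) (hTV ρ (eps0 ρ ^ 2) a' f' U' 1 r) := by
  have h := row_svf hρ hM (c := 42 ^ 2 - 1 / 4) (b := 84) (by norm_num) P (H.cG hρ 1) (H'.cG hρ 1)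
    (H.Uc 1) (H'.Uc 1) hP hB hr
  have hr0 : 0 ≤ r ^ 84 := pow_nonneg hr.1 _
  have e : ∀ x : ℝ, |(42 ^ 2 - 1 / 4 : ℝ)| * x /
      ((((84 : ℕ) : ℝ) - 1 / 2) * (((84 : ℕ) : ℝ) + 1 / 2)) =
      ((7055 : ℕ) : ℝ) / (28223 : ℕ) * x := by
    intro x
    rw [abs_of_pos (by norm_num : (0:ℝ) < 42 ^ 2 - 1 / 4)]
    push_cast
    ring
  rw [e, e] at h
  refine h.mono hM (mul_le_mul_of_nonneg_right (ckS_v (by norm_num) ck) hr0) ?_
  rw [← mul_assoc]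
  exact mul_le_mul_of_nonneg_right (ckS_d (by norm_num) ck) hr0

/-- `hd0` -/
theorem rowD0 (hρ : ρ ∈ Icc rho2 rho1) (hM : 0 ≤ M) (H : HSt C a f U) (H' : HSt C a' f' U')
    (P : PL) {B B' : ℕ}
    (hP : ∀ s : ℝ, 0 < s → s ≤ 1 → TK M s (s ^ 126) P (hG ρ (eps0 ρ ^ 2) a f U 0 s)
      (hG ρ (eps0 ρ ^ 2) a' f' U' 0 s))
    (hB : ∀ s : ℝ, 0 < s → s ≤ 1 → Mj M ((B : ℝ) / UU * s ^ 126) ((B' : ℝ) / UU * s ^ 126)
      (U 0 s) (U' 0 s)) :
    Mj M ((dN 126 1 502 P.v B : ℝ) / UU) ((dN 126 1 502 P.d B' : ℝ) / UU)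
      (hd0 ρ (eps0 ρ ^ 2) a f U) (hd0 ρ (eps0 ρ ^ 2) a' f' U') := by
  have h := row_svd hρ hM (c := -1 / 4) (b := 126) (by norm_num) P
    (div_nonneg (Nat.cast_nonneg B) UU_pos.le) (div_nonneg (Nat.cast_nonneg B') UU_pos.le)
    (H.cG hρ 0) (H'.cG hρ 0) (H.Uc 0) (H'.Uc 0) hP hB
  have e : ∀ x : ℝ, |(-1 / 4 : ℝ)| * x / (((126 : ℕ) : ℝ) - 1 / 2) =
      ((1 : ℕ) : ℝ) / (502 : ℕ) * x := by
    intro x
    rw [show |(-1 / 4 : ℝ)| = 1 / 4 by rw [abs_of_neg (by norm_num)]; norm_num]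
    push_cast
    ring
  rw [e, e] at h
  exact h.mono hM (dN_le (by norm_num)) (dN_le (by norm_num))

/-- `hd1` -/
theorem rowD1 (hρ : ρ ∈ Icc rho2 rho1) (hM : 0 ≤ M) (H : HSt C a f U) (H' : HSt C a' f' U')
    (P : PL) {B B' : ℕ}
    (hP : ∀ s : ℝ, 0 < s → s ≤ 1 → TK M s (s ^ 84) P (hG ρ (eps0 ρ ^ 2) a f U 1 s)
      (hG ρ (eps0 ρ ^ 2) a' f' U' 1 s))
    (hB : ∀ s : ℝ, 0 < s → s ≤ 1 → Mj M ((B : ℝ) / UU * s ^ 84) ((B' : ℝ) / UU * s ^ 84)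
      (U 1 s) (U' 1 s)) :
    Mj M ((dN 84 7055 334 P.v B : ℝ) / UU) ((dN 84 7055 334 P.d B' : ℝ) / UU)
      (hd1 ρ (eps0 ρ ^ 2) a f U) (hd1 ρ (eps0 ρ ^ 2) a' f' U') := by
  have h := row_svd hρ hM (c := 42 ^ 2 - 1 / 4) (b := 84) (by norm_num) P
    (div_nonneg (Nat.cast_nonneg B) UU_pos.le) (div_nonneg (Nat.cast_nonneg B') UU_pos.le)
    (H.cG hρ 1) (H'.cG hρ 1) (H.Uc 1) (H'.Uc 1) hP hB
  have e : ∀ x : ℝ, |(42 ^ 2 - 1 / 4 : ℝ)| * x / (((84 : ℕ) : ℝ) - 1 / 2) =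
      ((7055 : ℕ) : ℝ) / (334 : ℕ) * x := by
    intro x
    rw [abs_of_pos (by norm_num : (0:ℝ) < 42 ^ 2 - 1 / 4)]
    push_cast
    ring
  rw [e, e] at h
  exact h.mono hM (dN_le (by norm_num)) (dN_le (by norm_num))

/-- check of the row of `α` -/
def ckA0 (E E' D D' A A' K : ℕ) : Bool :=
  Nat.ble (2000000000000 + 7906000 * E + 25554 * D) (10000000 * A) &&
  Nat.ble ((7906000 * E' + 25554 * D') * 1000) (10000000 * K * A')

/-- `hTA 0` -/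
theorem rowA0N (hρ : ρ ∈ Icc rho2 rho1) (hM : 0 ≤ M) {E E' D D' A A' K : ℕ}
    (hE : Mj M ((E : ℝ) / UU) ((E' : ℝ) / UU) (f 1 - 1) (f' 1 - 1))
    (hD : Mj M ((D : ℝ) / UU) ((D' : ℝ) / UU) (hd1 ρ (eps0 ρ ^ 2) a f U)
      (hd1 ρ (eps0 ρ ^ 2) a' f' U'))
    (ck : ckA0 E E' D D' A A' K = true) :
    Mj M ((A : ℝ) / UU) ((K : ℝ) / 1000 * ((A' : ℝ) / UU))
      (hTA ρ (eps0 ρ ^ 2) a f U 0 - (-7886 / 10000))
      (hTA ρ (eps0 ρ ^ 2) a' f' U' 0 - (-7886 / 10000)) := by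
  have h := row_A0 hρ hM hE hD
  simp only [ckA0, Bool.and_eq_true, Nat.ble_eq] at ck
  have h1 := (Nat.cast_le (α := ℝ)).2 ck.1
  have h2 := (Nat.cast_le (α := ℝ)).2 ck.2
  push_cast at h1 h2
  have h3 : Mj M ((A : ℝ) / UU) ((K : ℝ) / 1000 * ((A' : ℝ) / UU))
      (hTA ρ (eps0 ρ ^ 2) a f U 0 + 0.7886) (hTA ρ (eps0 ρ ^ 2) a' f' U' 0 + 0.7886) := by
    refine h.mono hM ?_ ?_
    · unfold UU
      push_cast
      linarith
    · unfold UU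
      push_cast
      linarith
  exact h3.congr (by ring) (by ring) rfl rfl

/-- check of the row of `η` -/
def ckA1 (E E' D D' A A' K : ℕ) : Bool :=
  Nat.ble (10000000 * E * E + 86200 * ((78860000 + A) * (UU + E)) + 32238 * D * UU)
    (20000000 * UU * E) &&
  Nat.ble ((10000000 * E * E' + 43100 * (A' * (UU + E) + (78860000 + A) * E') +
    16119 * D' * UU) * 1000) (10000000 * UU * K * E')

/-- `hTA 1` -/
theorem rowA1N (hρ : ρ ∈ Icc rho2 rho1) (hM : 0 ≤ M) {E E' D D' A A' K : ℕ}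
    (hE : Mj M ((E : ℝ) / UU) ((E' : ℝ) / UU) (f 1 - 1) (f' 1 - 1))
    (hA : Mj M ((A : ℝ) / UU) ((A' : ℝ) / UU) (a - (-7886 / 10000)) (a' - (-7886 / 10000)))
    (hD : Mj M ((D : ℝ) / UU) ((D' : ℝ) / UU) (hd0 ρ (eps0 ρ ^ 2) a f U)
      (hd0 ρ (eps0 ρ ^ 2) a' f' U'))
    (ck : ckA1 E E' D D' A A' K = true) :
    Mj M ((E : ℝ) / UU) ((K : ℝ) / 1000 * ((E' : ℝ) / UU))
      (hTA ρ (eps0 ρ ^ 2) a f U 1) (hTA ρ (eps0 ρ ^ 2) a' f' U' 1) := by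
  have hA2 : Mj M ((A : ℝ) / UU) ((A' : ℝ) / UU) (a + 0.7886) (a' + 0.7886) :=
    hA.congr (by ring) (by ring) rfl rfl
  have h := row_A1 hρ hM hE hA2 hD
  simp only [ckA1, Bool.and_eq_true, Nat.ble_eq] at ck
  have h1 := (Nat.cast_le (α := ℝ)).2 ck.1
  have h2 := (Nat.cast_le (α := ℝ)).2 ck.2
  push_cast at h1 h2
  refine h.mono hM ?_ ?_
  · unfold UU at h1 ⊢
    push_cast at h1 ⊢
    have e : ((E : ℝ) / 100000000) ^ 2 / 2 + 0.00431 * ((0.7886 + (A : ℝ) / 100000000) *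
        (1 + (E : ℝ) / 100000000)) + 0.0016119 * ((D : ℝ) / 100000000) =
        (10000000 * E * E + 86200 * ((78860000 + A) * (100000000 + E)) + 32238 * D * 100000000) /
          (20000000 * 100000000 * 100000000) := by
      ring
    rw [e, div_le_div_iff₀ (by norm_num) (by norm_num)]
    linarith
  · unfold UU at h2 ⊢
    push_cast at h2 ⊢
    have e : (E : ℝ) / 100000000 * ((E' : ℝ) / 100000000) + 0.00431 * ((A' : ℝ) / 100000000 *
        (1 + (E : ℝ) / 100000000) + (0.7886 + (A : ℝ) / 100000000) * ((E' : ℝ) / 100000000)) +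
        0.0016119 * ((D' : ℝ) / 100000000) =
        (10000000 * E * E' + 43100 * (A' * (100000000 + E) + (78860000 + A) * E') +
          16119 * D' * 100000000) / (10000000 * 100000000 * 100000000) := by
      ring
    have e2 : (K : ℝ) / 1000 * ((E' : ℝ) / 100000000) = (K * E') / (1000 * 100000000) := by ring
    rw [e, e2, div_le_div_iff₀ (by norm_num) (by norm_num)]
    linarith

end rows

end

end SCHT
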