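import Pool.Agent.MP_83fd13_an.SCH.Row2
import Pool.Agent.MP_83fd13_an.SCH.TNum
import Pool.Agent.MP_83fd13_an.SCH.TRowN

/-!
# [SCH] all rows together: `HatLip` from the pairs of the sources and one computable check
(helper42)
-/

set_option autoImplicit false

namespace SCHT

open MeasureTheory Set Filter Topology
open Pool.Agent.SCH SCHB SCHF SCHS SCHV

noncomputable section

/-- the pairs of the sources at one point: `hG 0` (two variants), `hG 1` (two variants), `hS 2`,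
`hS 3`, `hS 4`, `hS (n+5)` -/
structure Src where
  P0s : PL
  P0d : PL
  P1s : PL
  P1d : PL
  P2 : PL
  P3 : PL
  P4 : PL
  B5 : PL
  L5 : PL

/-- the source bounds at one point -/
structure SrcAt (S : Src) (M s ρ u a b : ℝ) (f g : ℕ → ℝ) (U W : ℕ → ℝ → ℝ) : Prop where
  h0s : TK M s (s ^ 126) S.P0s (hG ρ u a f U 0 s) (hG ρ u b g W 0 s)
  h0d : TK M s (s ^ 126) S.P0d (hG ρ u a f U 0 s) (hG ρ u b g W 0 s)
  h1s : TK M s (s ^ 84) S.P1s (hG ρ u a f U 1 s) (hG ρ u b g W 1 s)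
  h1d : TK M s (s ^ 84) S.P1d (hG ρ u a f U 1 s) (hG ρ u b g W 1 s)
  h2 : TK M s (s ^ 42) S.P2 (hS ρ u a f U 2 s) (hS ρ u b g W 2 s)
  h3 : TK M s (cv s 0) S.P3 (hS ρ u a f U 3 s) (hS ρ u b g W 3 s)
  h4 : TK M s (cv s 1) S.P4 (hS ρ u a f U 4 s) (hS ρ u b g W 4 s)
  h5 : ∀ n, TK M s (cv s (n + 2)) ((S.B5.nsm n).add S.L5) (hS ρ u a f U (n + 5) s)
    (hS ρ u b g W (n + 5) s)

/-- the source bounds follow from the inputs at the point -/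
def SrcGen (N : Num) (S : Src) : Prop :=
  ∀ (M s ρ u a b : ℝ) (f g : ℕ → ℝ) (U W : ℕ → ℝ → ℝ), At N M s ρ u a b f g U W →
    SrcAt S M s ρ u a b f g U W

/-! ### the check -/

/-- rounded up division by `UU` -/
def cdU (n : ℕ) : ℕ := n / UU + 1

theorem le_cdU (n : ℕ) : n ≤ cdU n * UU := by
  have hU : 0 < UU := by unfold UU; norm_num
  have := Nat.lt_div_mul_add (a := n) hU
  unfold cdU
  rw [add_mul, one_mul]
  omega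

/-- rounded down `κ x` -/
def kap (K x : ℕ) : ℕ := K * x / 1000

theorem kap_le (K x : ℕ) : (kap K x : ℝ) / UU ≤ (K : ℝ) / 1000 * ((x : ℝ) / UU) := by
  have h : (kap K x : ℝ) * 1000 ≤ K * x := by
    have := Nat.div_mul_le_self (K * x) 1000
    exact_mod_cast this
  have hU := UU_pos
  have e : (K : ℝ) / 1000 * ((x : ℝ) / UU) = (K * x / 1000) / UU := by ring
  rw [e]
  refine div_le_div_of_nonneg_right ?_ hU.le
  linarith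

/-- rows `0`, `1`, function part -/
def ckV01 (N : Num) (S : Src) : Bool :=
  ckS 126 1 63503 S.P0s N.B0 N.B0' N.K && ckS 84 7055 28223 S.P1s N.B1 N.B1' N.K

/-- rows `0`, `1`, functional part -/
def ckF01 (N : Num) (S : Src) : Bool :=
  ckA0 N.E N.E' (dN 84 7055 334 S.P1d.v N.B1) (dN 84 7055 334 S.P1d.d N.B1') N.A N.A' N.K &&
  ckA1 N.E N.E' (dN 126 1 502 S.P0d.v N.B0) (dN 126 1 502 S.P0d.d N.B0') N.A N.A' N.K

/-- row `2`, functional part -/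
def ckF2 (N : Num) (S : Src) : Bool :=
  Nat.ble (100000000 * cdU (S.P2.v.rowN K2a K2b K2c) * UU + 470467 * ((UU + N.E) * (UU + N.E)) +
      851709 * ((78860000 + N.A) * (UU + N.E))) (100000000 * N.F2 * UU) &&
   Nat.ble ((100000000 * cdU (S.P2.d.rowN K2a K2b K2c) * UU + 940934 * ((UU + N.E) * N.E') +
      851709 * (N.A' * (UU + N.E) + (78860000 + N.A) * N.E')) * 1000)
      (100000000 * N.K * N.F2' * UU)

/-- row `2`, function part -/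
def ckV2 (N : Num) (S : Src) : Bool :=
  Nat.ble (S.P2.v.rowN K2G K2G K2G) (N.B2 * UU) &&
   Nat.ble (S.P2.d.rowN K2G K2G K2G) (kap N.K N.B2' * UU)

/-- rows `3`, `4`, functional part -/
def ckFm (k : ℕ) (N : Num) (P : PL) : Bool :=
  Nat.ble (P.v.rowN (Ka (k + 3)) (Kb (k + 3)) (Kc (k + 3))) (N.F * UU) &&
   Nat.ble (P.d.rowN (Ka (k + 3)) (Kb (k + 3)) (Kc (k + 3))) (kap N.K N.F' * UU)

/-- rows `3`, `4`, function part -/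
def ckVm (k : ℕ) (N : Num) (P : PL) : Bool :=
  Nat.ble (P.v.rowN (KGn (k + 3)) (KGn (k + 3)) (KGn (k + 3))) (N.Z * UU) &&
   Nat.ble (P.d.rowN (KGn (k + 3)) (KGn (k + 3)) (KGn (k + 3))) (kap N.K N.Z' * UU)

/-- rows `n + 5`, functional part -/
def ckFt (F : ℕ) (B L : TL) : Bool :=
  allz B.a && Nat.ble (DotN (fun _ => KbB) B.b + DotN (fun _ => KcB) B.c + L.rowN Ka5 Kb5 Kc5)
    (F * UU)

/-- rows `n + 5`, function part -/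
def ckVt (Z : ℕ) (B L : TL) : Bool :=
  Nat.ble (B.rowN (fun _ => KGB) (fun _ => KGB) (fun _ => KGB) + L.rowN KG5 KG5 KG5) (Z * UU)

/-- **the check of the functional rows** -/
def ckF (N : Num) (S : Src) : Bool :=
  ckF01 N S && (ckF2 N S && (ckFm 0 N S.P3 && (ckFm 1 N S.P4 &&
    (ckFt N.F S.B5.v S.L5.v && ckFt (kap N.K N.F') S.B5.d S.L5.d))))

/-- **the check of the function rows** -/
def ckV (N : Num) (S : Src) : Bool :=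
  ckV01 N S && (ckV2 N S && (ckVm 0 N S.P3 && (ckVm 1 N S.P4 &&
    (ckVt N.Z S.B5.v S.L5.v && ckVt (kap N.K N.Z') S.B5.d S.L5.d))))

section

variable {N : Num} {S S2 : Src} {M ρ : ℝ} {s s' : ℕ → ℝ} {U U' : ℕ → ℝ → ℝ}

/-- the data at a fixed `ρ` (`S` = variant for the function rows, `S2` = variant for the
functional rows) -/
structure Fx (N : Num) (S S2 : Src) (M ρ : ℝ) (s s' : ℕ → ℝ) (U U' : ℕ → ℝ → ℝ) : Prop where
  hρ : ρ ∈ Icc rho2 rho1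
  hM : 0 ≤ M
  hb : Box cA (bA N) (bV N) s U
  hb' : Box cA (bA N) (bV N) s' U'
  hd : Dst (wA N) (wV N) M s s' U U'
  hc : ∀ k, Continuous fun r => U k (cl r)
  hc' : ∀ k, Continuous fun r => U' k (cl r)
  hs : ∀ r : ℝ, 0 < r → r ≤ 1 → SrcAt S M r ρ (eps0 ρ ^ 2) (s 0) (s' 0) (ff s) (ff s') U U'
  ht : ∀ r : ℝ, 0 < r → r ≤ 1 → SrcAt S2 M r ρ (eps0 ρ ^ 2) (s 0) (s' 0) (ff s) (ff s') U U'

variable (X : Fx N S S2 M ρ s s' U U')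
include X

theorem Fx.mE : Mj M ((N.E : ℝ) / UU) ((N.E' : ℝ) / UU) (ff s 1 - 1) (ff s' 1 - 1) :=
  (mjA X.hb X.hb' X.hd 1).congr (by simp [ff, cA]) (by simp [ff, cA]) rfl rfl

theorem Fx.mA : Mj M ((N.A : ℝ) / UU) ((N.A' : ℝ) / UU) (s 0 - (-7886 / 10000))
    (s' 0 - (-7886 / 10000)) := mjA X.hb X.hb' X.hd 0

theorem Fx.mA' : Mj M ((N.A : ℝ) / UU) ((N.A' : ℝ) / UU) (s 0 + 0.7886) (s' 0 + 0.7886) :=
  X.mA.congr (by ring) (by ring) rfl rfl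

theorem Fx.mU0 : ∀ r : ℝ, 0 < r → r ≤ 1 → Mj M ((N.B0 : ℝ) / UU * r ^ 126)
    ((N.B0' : ℝ) / UU * r ^ 126) (U 0 r) (U' 0 r) := fun _ h0 h1 =>
  mjV X.hb X.hb' X.hd 0 ⟨h0.le, h1⟩

theorem Fx.mU1 : ∀ r : ℝ, 0 < r → r ≤ 1 → Mj M ((N.B1 : ℝ) / UU * r ^ 84)
    ((N.B1' : ℝ) / UU * r ^ 84) (U 1 r) (U' 1 r) := fun _ h0 h1 =>
  mjV X.hb X.hb' X.hd 1 ⟨h0.le, h1⟩

/-- rows `0`, `1` -/
theorem Fx.rows01 (ck : ckV01 N S = true) (ck' : ckF01 N S2 = true) :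
    (Mj M ((N.A : ℝ) / UU) ((N.K : ℝ) / 1000 * ((N.A' : ℝ) / UU))
      (hTA ρ (eps0 ρ ^ 2) (s 0) (ff s) U 0 - (-7886 / 10000))
      (hTA ρ (eps0 ρ ^ 2) (s' 0) (ff s') U' 0 - (-7886 / 10000)) ∧
    Mj M ((N.E : ℝ) / UU) ((N.K : ℝ) / 1000 * ((N.E' : ℝ) / UU))
      (hTA ρ (eps0 ρ ^ 2) (s 0) (ff s) U 1) (hTA ρ (eps0 ρ ^ 2) (s' 0) (ff s') U' 1)) ∧
    (∀ r ∈ Icc (0:ℝ) 1, Mj M ((N.B0 : ℝ) / UU * r ^ 126)
      ((N.K : ℝ) / 1000 * ((N.B0' : ℝ) / UU * r ^ 126))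
      (hTV ρ (eps0 ρ ^ 2) (s 0) (ff s) U 0 r) (hTV ρ (eps0 ρ ^ 2) (s' 0) (ff s') U' 0 r)) ∧
    (∀ r ∈ Icc (0:ℝ) 1, Mj M ((N.B1 : ℝ) / UU * r ^ 84)
      ((N.K : ℝ) / 1000 * ((N.B1' : ℝ) / UU * r ^ 84))
      (hTV ρ (eps0 ρ ^ 2) (s 0) (ff s) U 1 r) (hTV ρ (eps0 ρ ^ 2) (s' 0) (ff s') U' 1 r)) := by
  simp only [ckV01, Bool.and_eq_true] at ck
  simp only [ckF01, Bool.and_eq_true] at ck'
  obtain ⟨c0, c1⟩ := ck
  obtain ⟨c2, c3⟩ := ck'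
  have H := hst_of_box X.hb X.hc
  have H' := hst_of_box X.hb' X.hc'
  have hD0 := rowD0 X.hρ X.hM H H' S2.P0d (fun r h0 h1 => (X.ht r h0 h1).h0d) X.mU0
  have hD1 := rowD1 X.hρ X.hM H H' S2.P1d (fun r h0 h1 => (X.ht r h0 h1).h1d) X.mU1
  refine ⟨⟨rowA0N X.hρ X.hM X.mE hD1 c2, rowA1N X.hρ X.hM X.mE X.mA hD0 c3⟩, fun r hr => ?_,
    fun r hr => ?_⟩
  · exact rowV0 X.hρ X.hM H H' S.P0s (fun r h0 h1 => (X.hs r h0 h1).h0s) X.mU0 c0 hr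
  · exact rowV1 X.hρ X.hM H H' S.P1s (fun r h0 h1 => (X.hs r h0 h1).h1s) X.mU1 c1 hr

/-- row `2` -/
theorem Fx.row2 (ck : ckV2 N S = true) (ck' : ckF2 N S2 = true) :
    Mj M ((N.F2 : ℝ) / UU) ((N.K : ℝ) / 1000 * ((N.F2' : ℝ) / UU))
      (hTA ρ (eps0 ρ ^ 2) (s 0) (ff s) U 2) (hTA ρ (eps0 ρ ^ 2) (s' 0) (ff s') U' 2) ∧
    (∀ r ∈ Icc (0:ℝ) 1, Mj M ((N.B2 : ℝ) / UU * (r ^ 42 * (1 - r ^ 42)))
      ((N.K : ℝ) / 1000 * ((N.B2' : ℝ) / UU * (r ^ 42 * (1 - r ^ 42))))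
      (hTV ρ (eps0 ρ ^ 2) (s 0) (ff s) U 2 r) (hTV ρ (eps0 ρ ^ 2) (s' 0) (ff s') U' 2 r)) := by
  simp only [ckF2, Bool.and_eq_true, Nat.ble_eq] at ck'
  simp only [ckV2, Bool.and_eq_true, Nat.ble_eq] at ck
  obtain ⟨c0, c1⟩ := ck'
  obtain ⟨c2, c3⟩ := ck
  have H := hst_of_box X.hb X.hc
  have H' := hst_of_box X.hb' X.hc'
  have cf := H.cS X.hρ 0
  have cg := H'.cS X.hρ 0
  have HH : ∀ r : ℝ, 0 < r → r ≤ 1 → TK M r (r ^ 42) S.P2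
      (hS ρ (eps0 ρ ^ 2) (s 0) (ff s) U 2 r) (hS ρ (eps0 ρ ^ 2) (s' 0) (ff s') U' 2 r) :=
    fun r h0 h1 => (X.hs r h0 h1).h2
  have HT : ∀ r : ℝ, 0 < r → r ≤ 1 → TK M r (r ^ 42) S2.P2
      (hS ρ (eps0 ρ ^ 2) (s 0) (ff s) U 2 r) (hS ρ (eps0 ρ ^ 2) (s' 0) (ff s') U' 2 r) :=
    fun r h0 h1 => (X.ht r h0 h1).h2
  have r0 := (Nat.cast_le (α := ℝ)).2 c0
  have r1 := (Nat.cast_le (α := ℝ)).2 c1
  push_cast at r0 r1
  refine ⟨?_, fun r hr => ?_⟩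
  · have h := row_A2 X.hρ X.hM (UUnn _) (UUnn _) X.mE X.mA' cf cg HT
      (chk2A (le_cdU _)) (chk2A (le_cdU _))
    refine h.mono X.hM ?_ ?_
    · unfold UU at r0 ⊢
      push_cast at r0 ⊢
      rw [← sub_nonneg]
      have e : (N.F2 : ℝ) / 100000000 - ((cdU (S2.P2.v.rowN K2a K2b K2c) : ℝ) / 100000000 +
          (0.00470467 * (1 + (N.E : ℝ) / 100000000) ^ 2 +
          0.00851709 * ((0.7886 + (N.A : ℝ) / 100000000) * (1 + (N.E : ℝ) / 100000000)))) =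
          (100000000 * N.F2 * 100000000 - (100000000 * cdU (S2.P2.v.rowN K2a K2b K2c) * 100000000 +
            470467 * ((100000000 + N.E) * (100000000 + N.E)) +
            851709 * ((78860000 + N.A) * (100000000 + N.E)))) / (100000000 * 100000000 * 100000000) := by
        ring
      rw [e]
      exact div_nonneg (by linarith) (by norm_num)
    · unfold UU at r1 ⊢
      push_cast at r1 ⊢
      rw [← sub_nonneg]
      have e : (N.K : ℝ) / 1000 * ((N.F2' : ℝ) / 100000000) -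
          ((cdU (S2.P2.d.rowN K2a K2b K2c) : ℝ) / 100000000 +
          (0.00940934 * ((1 + (N.E : ℝ) / 100000000) * ((N.E' : ℝ) / 100000000)) +
          0.00851709 * ((N.A' : ℝ) / 100000000 * (1 + (N.E : ℝ) / 100000000) +
            (0.7886 + (N.A : ℝ) / 100000000) * ((N.E' : ℝ) / 100000000)))) =
          (100000000 * N.K * N.F2' * 100000000 - (100000000 * cdU (S2.P2.d.rowN K2a K2b K2c) *
            100000000 + 940934 * ((100000000 + N.E) * N.E') +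
            851709 * (N.A' * (100000000 + N.E) + (78860000 + N.A) * N.E')) * 1000) /
            (1000 * 100000000 * 100000000 * 100000000) := by
        ring
      rw [e]
      exact div_nonneg (by linarith) (by norm_num)
  · have hw : 0 ≤ r ^ 42 * (1 - r ^ 42) := mul_nonneg (R_mem hr).1 (R_mem hr).2
    have h := row_V2 X.hρ X.hM cf cg HH (chk2G c2) (chk2G c3) hr
    refine h.mono X.hM le_rfl ?_
    have := mul_le_mul_of_nonneg_right (kap_le N.K N.B2') hw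
    exact this.trans (le_of_eq (by ring))

/-- the abstract row `k + 3` -/
theorem Fx.rowk (k : ℕ) (P Q : PL)
    (HP : ∀ r : ℝ, 0 < r → r ≤ 1 → TK M r (cv r k) P
      (hS ρ (eps0 ρ ^ 2) (s 0) (ff s) U (k + 3) r) (hS ρ (eps0 ρ ^ 2) (s' 0) (ff s') U' (k + 3) r))
    (HQ : ∀ r : ℝ, 0 < r → r ≤ 1 → TK M r (cv r k) Q
      (hS ρ (eps0 ρ ^ 2) (s 0) (ff s) U (k + 3) r) (hS ρ (eps0 ρ ^ 2) (s' 0) (ff s') U' (k + 3) r))
    (h1 : (84 * k + 254 : ℝ) * 1000000 / 108375 * Q.v.row (ka (42 * (k + 3)) (42 * (k + 2)))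
      (kb (42 * (k + 3)) (42 * (k + 2))) (kc (42 * (k + 3)) (42 * (k + 2))) ≤ (N.F : ℝ) / UU)
    (h2 : (84 * k + 254 : ℝ) * 1000000 / 108375 * Q.d.row (ka (42 * (k + 3)) (42 * (k + 2)))
      (kb (42 * (k + 3)) (42 * (k + 2))) (kc (42 * (k + 3)) (42 * (k + 2))) ≤
        (kap N.K N.F' : ℝ) / UU)
    (h3 : (293584 : ℝ) / 100 * P.v.row (kG (42 * (k + 3)) (42 * (k + 2)))
      (kG (42 * (k + 3)) (42 * (k + 2))) (kG (42 * (k + 3)) (42 * (k + 2))) ≤ (N.Z : ℝ) / UU)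
    (h4 : (293584 : ℝ) / 100 * P.d.row (kG (42 * (k + 3)) (42 * (k + 2)))
      (kG (42 * (k + 3)) (42 * (k + 2))) (kG (42 * (k + 3)) (42 * (k + 2))) ≤
        (kap N.K N.Z' : ℝ) / UU) :
    Mj M ((N.F : ℝ) / UU * 2 ^ (k + 3)) ((N.K : ℝ) / 1000 * ((N.F' : ℝ) / UU * 2 ^ (k + 3)))
      (hTA ρ (eps0 ρ ^ 2) (s 0) (ff s) U (k + 3)) (hTA ρ (eps0 ρ ^ 2) (s' 0) (ff s') U' (k + 3)) ∧
    ∀ r ∈ Icc (0:ℝ) 1,
      Mj M ((N.Z : ℝ) / UU * 2 ^ (k + 3) * (r ^ (42 * (k + 2)) * (1 - r ^ 42)))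
      ((N.K : ℝ) / 1000 * ((N.Z' : ℝ) / UU * 2 ^ (k + 3) * (r ^ (42 * (k + 2)) * (1 - r ^ 42))))
      (hTV ρ (eps0 ρ ^ 2) (s 0) (ff s) U (k + 3) r)
      (hTV ρ (eps0 ρ ^ 2) (s' 0) (ff s') U' (k + 3) r) := by
  have H := hst_of_box X.hb X.hc
  have H' := hst_of_box X.hb' X.hc'
  have cf := H.cS X.hρ (k + 1)
  have cg := H'.cS X.hρ (k + 1)
  have HP' : ∀ r : ℝ, 0 < r → r ≤ 1 → TK M r (cv r k) P
      (hS ρ (eps0 ρ ^ 2) (s 0) (ff s) U (k + 3) (cl r))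
      (hS ρ (eps0 ρ ^ 2) (s' 0) (ff s') U' (k + 3) (cl r)) := by
    intro r h0 h1
    rw [cl_eq ⟨h0.le, h1⟩]
    exact HP r h0 h1
  have HQ' : ∀ r : ℝ, 0 < r → r ≤ 1 → TK M r (cv r k) Q
      (hS ρ (eps0 ρ ^ 2) (s 0) (ff s) U (k + 3) (cl r))
      (hS ρ (eps0 ρ ^ 2) (s' 0) (ff s') U' (k + 3) (cl r)) := by
    intro r h0 h1
    rw [cl_eq ⟨h0.le, h1⟩]
    exact HQ r h0 h1
  have hJ : (108375 : ℝ) / 1000000 ≤ |J 0 ρ| := by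
    have a := J0_I (I1' X.hρ) (I2' X.hρ)
    rw [abs_of_neg (J0_neg X.hρ)]
    linarith [a.2]
  have hρ2 : ρ ^ 2 ≤ 293584 / 100 := by
    have := rho_sq_le X.hρ
    linarith
  refine ⟨?_, fun r hr => ?_⟩
  · have h := rowTA X.hM cf cg hJ HQ' h1 h2
    refine h.mono X.hM le_rfl ?_
    rw [← mul_assoc]
    exact mul_le_mul_of_nonneg_right (kap_le _ _) (by positivity)
  · have hw : 0 ≤ (2:ℝ) ^ (k + 3) * (r ^ (42 * (k + 2)) * (1 - r ^ 42)) :=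
      mul_nonneg (by positivity) (mul_nonneg (pow_nonneg hr.1 _) (R_mem hr).2)
    have h := rowTV X.hM hρ2 cf cg HP' h3 h4 hr.1 hr.2
    refine h.mono X.hM (le_of_eq (by ring)) ?_
    have := mul_le_mul_of_nonneg_right (kap_le N.K N.Z') hw
    refine this.trans (le_of_eq (by ring))

theorem Fx.rowm (k : ℕ) (P Q : PL) (ck : ckVm k N P = true) (ck' : ckFm k N Q = true)
    (HP : ∀ r : ℝ, 0 < r → r ≤ 1 → TK M r (cv r k) P
      (hS ρ (eps0 ρ ^ 2) (s 0) (ff s) U (k + 3) r)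
      (hS ρ (eps0 ρ ^ 2) (s' 0) (ff s') U' (k + 3) r))
    (HQ : ∀ r : ℝ, 0 < r → r ≤ 1 → TK M r (cv r k) Q
      (hS ρ (eps0 ρ ^ 2) (s 0) (ff s) U (k + 3) r)
      (hS ρ (eps0 ρ ^ 2) (s' 0) (ff s') U' (k + 3) r)) :
    Mj M ((N.F : ℝ) / UU * 2 ^ (k + 3)) ((N.K : ℝ) / 1000 * ((N.F' : ℝ) / UU * 2 ^ (k + 3)))
      (hTA ρ (eps0 ρ ^ 2) (s 0) (ff s) U (k + 3)) (hTA ρ (eps0 ρ ^ 2) (s' 0) (ff s') U' (k + 3)) ∧
    ∀ r ∈ Icc (0:ℝ) 1,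
      Mj M ((N.Z : ℝ) / UU * 2 ^ (k + 3) * (r ^ (42 * (k + 2)) * (1 - r ^ 42)))
      ((N.K : ℝ) / 1000 * ((N.Z' : ℝ) / UU * 2 ^ (k + 3) * (r ^ (42 * (k + 2)) * (1 - r ^ 42))))
      (hTV ρ (eps0 ρ ^ 2) (s 0) (ff s) U (k + 3) r)
      (hTV ρ (eps0 ρ ^ 2) (s' 0) (ff s') U' (k + 3) r) := by
  simp only [ckVm, Bool.and_eq_true, Nat.ble_eq] at ck
  simp only [ckFm, Bool.and_eq_true, Nat.ble_eq] at ck'
  exact X.rowk k P Q HP HQ (chkA ck'.1) (chkA ck'.2) (chkG ck.1) (chkG ck.2)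

theorem Fx.row5 (n : ℕ)
    (a3 : ckVt N.Z S.B5.v S.L5.v = true) (b3 : ckVt (kap N.K N.Z') S.B5.d S.L5.d = true)
    (a1 : ckFt N.F S2.B5.v S2.L5.v = true) (b1 : ckFt (kap N.K N.F') S2.B5.d S2.L5.d = true) :
    Mj M ((N.F : ℝ) / UU * 2 ^ (n + 5)) ((N.K : ℝ) / 1000 * ((N.F' : ℝ) / UU * 2 ^ (n + 5)))
      (hTA ρ (eps0 ρ ^ 2) (s 0) (ff s) U (n + 5)) (hTA ρ (eps0 ρ ^ 2) (s' 0) (ff s') U' (n + 5)) ∧
    ∀ r ∈ Icc (0:ℝ) 1,
      Mj M ((N.Z : ℝ) / UU * 2 ^ (n + 5) * (r ^ (42 * (n + 4)) * (1 - r ^ 42)))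
      ((N.K : ℝ) / 1000 * ((N.Z' : ℝ) / UU * 2 ^ (n + 5) * (r ^ (42 * (n + 4)) * (1 - r ^ 42))))
      (hTV ρ (eps0 ρ ^ 2) (s 0) (ff s) U (n + 5) r)
      (hTV ρ (eps0 ρ ^ 2) (s' 0) (ff s') U' (n + 5) r) := by
  simp only [ckFt, Bool.and_eq_true, Nat.ble_eq] at a1 b1
  simp only [ckVt, Nat.ble_eq] at a3 b3
  exact X.rowk (n + 2) ((S.B5.nsm n).add S.L5) ((S2.B5.nsm n).add S2.L5)
    (fun r h0 h1 => (X.hs r h0 h1).h5 n) (fun r h0 h1 => (X.ht r h0 h1).h5 n)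
    (chkA5 a1.1 a1.2 n) (chkA5 b1.1 b1.2 n) (chkG5 a3 n) (chkG5 b3 n)

end

/-- **`HatLip` from the sources and the check** -/
theorem hatLip_of {N : Num} {S S2 : Src} (G : SrcGen N S) (G2 : SrcGen N S2)
    (cV : ckV N S = true) (cF : ckF N S2 = true) :
    HatLip cA (bA N) (bV N) (wA N) (wV N) ((N.K : ℝ) / 1000) := by
  simp only [ckV, Bool.and_eq_true] at cV
  simp only [ckF, Bool.and_eq_true] at cF
  obtain ⟨c01, c2, c3, c4, c5, c6⟩ := cV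
  obtain ⟨f01, f2, f3, f4, f5, f6⟩ := cF
  intro ρ hρ M s s' U U' hM hb hb' hd hc hc'
  have X : Fx N S S2 M ρ s s' U U' := ⟨hρ, hM, hb, hb', hd, hc, hc', fun r h0 h1 =>
    G _ _ _ _ _ _ _ _ _ _ (at_of_box hρ hM hb hb' hd h0 h1), fun r h0 h1 =>
    G2 _ _ _ _ _ _ _ _ _ _ (at_of_box hρ hM hb hb' hd h0 h1)⟩
  obtain ⟨⟨r0, r1⟩, v0, v1⟩ := X.rows01 c01 f01
  obtain ⟨r2, v2⟩ := X.row2 c2 f2
  have e3 := X.rowm 0 S.P3 S2.P3 c3 f3 (fun r h0 h1 => (X.hs r h0 h1).h3)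
    fun r h0 h1 => (X.ht r h0 h1).h3
  have e4 := X.rowm 1 S.P4 S2.P4 c4 f4 (fun r h0 h1 => (X.hs r h0 h1).h4)
    fun r h0 h1 => (X.ht r h0 h1).h4
  have e5 := fun n => X.row5 n c5 c6 f5 f6
  refine ⟨fun k => ?_, fun k r hr => ?_⟩
  · match k with
    | 0 => exact r0
    | 1 => exact r1.congr (sub_zero _).symm (sub_zero _).symm rfl rfl
    | 2 => exact r2.congr (sub_zero _).symm (sub_zero _).symm rfl rfl
    | 3 => exact e3.1.congr (sub_zero _).symm (sub_zero _).symm rfl rfl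
    | 4 => exact e4.1.congr (sub_zero _).symm (sub_zero _).symm rfl rfl
    | n + 5 => exact (e5 n).1.congr (sub_zero _).symm (sub_zero _).symm rfl rfl
  · match k with
    | 0 => exact v0 r hr
    | 1 => exact v1 r hr
    | 2 => exact v2 r hr
    | 3 => exact e3.2 r hr
    | 4 => exact e4.2 r hr
    | n + 5 => exact (e5 n).2 r hr

end

end SCHT
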