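import Pool.Agent.MP_83fd13_an.SCH.Inp
import Pool.Agent.MP_83fd13_an.SCH.TFin

/-!
# [SCH] the source pairs from the numbers (helper4)
-/

set_option autoImplicit false

namespace SCHT

open MeasureTheory Set Filter Topology
open Pool.Agent.SCH SCHB SCHF SCHS SCHV

noncomputable section

/-- the source pairs for a choice of tables -/
def Num.src (N : Num) (t : Tab) : Src :=
  ⟨N.G0k t, N.G0k t, N.G1k t, N.G1k t, N.S2k t, (N.k3 t).P3, (N.k3 t).P4, (N.k3 t).PB, (N.k3 t).P5⟩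

section

variable {N : Num} {M s ρ u a b : ℝ} {f g : ℕ → ℝ} {U W : ℕ → ℝ → ℝ} {t : Tab}

/-- `hS (k+3)` at one point from its convolution -/
theorem At.tSk (H : At N M s ρ u a b f g U W) (T : t.OK M s ρ) (hz : N.zchk t = true) (k : ℕ)
    {S : PL} (hSum : TK M s (cv s k) S
    (∑ i ∈ Finset.range (k + 2), hq u f (i + 1) s * hV ρ u a f U (k + 2 - i) s)
    (∑ i ∈ Finset.range (k + 2), hq u g (i + 1) s * hV ρ u b g W (k + 2 - i) s)) :
    TK M s (cv s k) ((N.k3 t).tot S) (hS ρ u a f U (k + 3) s) (hS ρ u b g W (k + 3) s) := by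
  have hz' := hz
  simp only [Num.zchk, Bool.and_eq_true] at hz'
  exact ((H.gin T hz'.2.2.2.1).tG N.D k hSum).add
    (TK_hRk H.ρ1 H.ρ2 H.hM H.hs H.s1 (u := u) (a := a) (b := b) k (H.ft k) (H.Ut k))

theorem At.t5 (H : At N M s ρ u a b f g U W) (T : t.OK M s ρ) (hz : N.zchk t = true) (n : ℕ) :
    TK M s (cv s (n + 2)) (((N.k3 t).PB.nsm n).add (N.k3 t).P5) (hS ρ u a f U (n + 2 + 3) s)
      (hS ρ u b g W (n + 2 + 3) s) := by
  have hz' := hz
  simp only [Num.zchk, Bool.and_eq_true] at hz'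
  have h := H.tSk T hz (n + 2) ((H.gin T hz'.2.2.2.1).tS5 N.D n)
  refine Mj.congr h rfl rfl ?_ ?_
  · rw [tot_ev1]; rfl
  · rw [tot_ev2]; rfl

theorem srcGen {t : Tab} (T : ∀ {M s ρ : ℝ}, 54.178 ≤ ρ → ρ ≤ 54.1833 → 0 ≤ s → s ≤ 1 → t.OK M s ρ)
    (hz : N.zchk t = true) : SrcGen N (N.src t) := by
  intro M s ρ u a b f g U W H
  have hT : t.OK M s ρ := T H.ρ1 H.ρ2 H.hs H.s1
  have hz' := hz
  simp only [Num.zchk, Bool.and_eq_true] at hz'
  have G := H.gin hT hz'.2.2.2.1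
  exact ⟨H.tG0 hT hz, H.tG0 hT hz, H.tG1 hT hz, H.tG1 hT hz, H.tS2 hT hz,
    H.tSk hT hz 0 (G.tS3 N.D), H.tSk hT hz 1 (G.tS4 N.D), H.t5 hT hz⟩

theorem srcGenA (hz : N.zchk tabA = true) : SrcGen N (N.src tabA) := srcGen tabA_ok hz

theorem srcGenB (hz : N.zchk tabB = true) : SrcGen N (N.src tabB) := srcGen tabB_ok hz

end

/-- **the numbers** -/
def N0 : Num where
  A := 6500000
  A' := 15500000
  E := 3000000
  E' := 7500000
  F2 := 40000000
  F2' := 100000000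
  F := 9900000
  F' := 86000000
  B0 := 18000000
  B0' := 53000000
  B1 := 19900000
  B1' := 45000000
  B2 := 3350000
  B2' := 14700000
  Z := 1850000
  Z' := 15200000
  K := 800
  D := 6

theorem N0_zA : N0.zchk tabA = true := by decide +kernel

theorem N0_zB : N0.zchk tabB = true := by decide +kernel

end

end SCHT
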