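import Pool.Agent.MP_83fd13_an.SCH.TFin2
import Pool.Agent.MP_83fd13_an.SCH.TExist

/-!
# [SCH] existence of the fixed point of the T-map (helper4)
-/

set_option autoImplicit false

namespace SCHT

open Pool.Agent.SCH

noncomputable section

theorem N0_side : N0.side = true := by decide +kernel

/-- **the fixed point** -/
theorem exists_x0 : ∃ x, Boxed cA (bA N0) (bV N0) x ∧ Rg x ∧ Crude (1 + 2 * N0.cc) (1 / 4) x ∧
    T x = x := exists_of_num N0 hatLip0 N0_side

theorem boxNum0 : BoxNum cA (bA N0) (bV N0) := boxNum_of_num N0 N0_side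

end

end SCHT
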