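import Pool.Agent.MP_83fd13_an.SCH.Asm1
import Pool.Agent.MP_83fd13_an.SCH.TDef
import Pool.Agent.MP_83fd13_an.SCH.Geo13

/-!
# [SCH] family: the convolution identity for the T-map

`∑_i M_|i| u_|k-i| = u_k + FF_k + GG_k` with `u_k = VV_k + [k=0] J_0(ρ r)`.
-/

set_option autoImplicit false

namespace SCHT

open MeasureTheory Set Filter Topology
open Pool.Agent.SCH SCHB SCHF SCHS SCHG SCHA

noncomputable section

variable (ρ α : ℝ) (φ : ℕ → ℝ) (V : ℕ → ℝ → ℝ)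

/-- `u_k` -/
def uu (k : ℕ) (r : ℝ) : ℝ := VV ρ α φ V k r + (if k = 0 then J 0 (ρ * r) else 0)

/-- the explicit sources -/
def FF (k : ℕ) (r : ℝ) : ℝ :=
  match k with
  | 0 => φ 1 * φ 1 * r ^ 84 * J 0 (ρ * r) + 2 * (φ 1 * r ^ 42 * XX ρ α φ 1 r)
  | 1 => φ 1 * r ^ 42 * J 0 (ρ * r)
  | 2 => φ 2 * r ^ 84 * J 0 (ρ * r) + φ 1 * r ^ 42 * XX ρ α φ 1 r
  | k + 3 => φ (k + 3) * r ^ (42 * (k + 3)) * J 0 (ρ * r)

variable {ρ α φ V}

/-- summability of the series `qr` -/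
theorem summable_qr (hφs : Summable fun k => |φ k|) {r : ℝ} (hr0 : 0 ≤ r) (hr1 : r ≤ 1) (k : ℕ) :
    Summable fun j : ℕ => φ (j + 1) * φ (j + 1 + k) * r ^ (42 * (2 * (j + 1) + k)) := by
  have h := (summable_MMaux (N := 42) hφs hr0 hr1 k).of_abs
  exact (summable_nat_add_iff (f := fun j => φ j * φ (j + k) * r ^ (42 * (2 * j + k))) 1).2 h

theorem MM_zero (h0 : φ 0 = 1) (hφs : Summable fun k => |φ k|) {r : ℝ} (hr0 : 0 ≤ r) (hr1 : r ≤ 1) :
    MM 42 φ 0 r = 1 + qq φ 0 r := by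
  have h := (summable_MMaux (N := 42) hφs hr0 hr1 0).of_abs
  unfold MM
  rw [h.tsum_eq_zero_add]
  unfold qq qr
  simp [h0]

theorem MM_succ (h0 : φ 0 = 1) (hφs : Summable fun k => |φ k|) {r : ℝ} (hr0 : 0 ≤ r) (hr1 : r ≤ 1)
    (k : ℕ) : MM 42 φ (k + 1) r = qq φ (k + 1) r := by
  have h := (summable_MMaux (N := 42) hφs hr0 hr1 (k + 1)).of_abs
  unfold MM
  rw [h.tsum_eq_zero_add]
  unfold qq qr
  simp [h0]

/-- `q_0 = ε² R² + qr2` -/
theorem qq_zero_eq (hφs : Summable fun k => |φ k|) {r : ℝ} (hr0 : 0 ≤ r) (hr1 : r ≤ 1) :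
    qq φ 0 r = φ 1 * φ 1 * r ^ 84 + qr2 φ r := by
  have h := summable_qr hφs hr0 hr1 0
  unfold qq qr qr2
  rw [h.tsum_eq_zero_add]
  simp

theorem conv_eq (h0 : φ 0 = 1) (hφs : Summable fun k => |φ k|) {r : ℝ} (hr0 : 0 ≤ r) (hr1 : r ≤ 1)
    (hqs : Summable fun k => |qq φ k r|) {B : ℝ} (hB : ∀ k, |uu ρ α φ V k r| ≤ B) (k : ℕ) :
    ∑' i : ℤ, MM 42 φ i.natAbs r * uu ρ α φ V ((k : ℤ) - i).natAbs r =
      uu ρ α φ V k r + FF ρ α φ k r + GG ρ α φ V k r := by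
  have hB0 : 0 ≤ B := (abs_nonneg _).trans (hB 0)
  -- splitting of `M`
  have e1 : ∀ i : ℤ, MM 42 φ i.natAbs r * uu ρ α φ V ((k : ℤ) - i).natAbs r =
      (if i = 0 then uu ρ α φ V k r else 0) +
        qq φ i.natAbs r * uu ρ α φ V ((k : ℤ) - i).natAbs r := by
    intro i
    rcases eq_or_ne i 0 with rfl | hi
    · simp only [Int.natAbs_zero, sub_zero, Int.natAbs_natCast, if_true]
      rw [MM_zero h0 hφs hr0 hr1]
      ring
    · rw [if_neg hi, zero_add]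
      obtain ⟨j, hj⟩ : ∃ j, i.natAbs = j + 1 := ⟨i.natAbs - 1, by omega⟩
      rw [hj, MM_succ h0 hφs hr0 hr1]
  have hs1 : Summable fun i : ℤ => if i = 0 then uu ρ α φ V k r else 0 :=
    (hasSum_ite_eq (0 : ℤ) (uu ρ α φ V k r)).summable
  have hs2 := conv_summable (q := fun k => qq φ k r) (u := fun k => uu ρ α φ V k r) hqs hB k
  have e2 : ∑' i : ℤ, MM 42 φ i.natAbs r * uu ρ α φ V ((k : ℤ) - i).natAbs r =
      uu ρ α φ V k r + ∑' i : ℤ, qq φ i.natAbs r * uu ρ α φ V ((k : ℤ) - i).natAbs r := by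
    rw [tsum_congr e1, hs1.tsum_add hs2, tsum_ite_eq]
  have e3 := conv_split (q := fun k => qq φ k r) (u := fun k => uu ρ α φ V k r) hqs hB k
  rw [e2, e3, add_assoc]
  congr 1
  have hu0 : uu ρ α φ V 0 r = VV ρ α φ V 0 r + J 0 (ρ * r) := by simp [uu]
  have hu : ∀ j : ℕ, uu ρ α φ V (j + 1) r = VV ρ α φ V (j + 1) r := by
    intro j; simp [uu]
  have hq1 : qq φ 1 r = φ 1 * r ^ 42 + qr φ 1 r := by simp [qq]
  have hV1 : VV ρ α φ V 1 r = XX ρ α φ 1 r + V 1 r := by simp [VV, RR]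
  match k with
  | 0 =>
    simp only [zero_add, Finset.range_one, Finset.sum_singleton, Nat.sub_self]
    have hs : Summable fun m : ℕ => qq φ (m + 1) r * uu ρ α φ V (m + 1) r +
        qq φ (m + 1) r * uu ρ α φ V (m + 1) r := by
      have hq := (summable_nat_add_iff 1).2 hqs
      refine Summable.of_norm_bounded (hq.mul_right (2 * B)) fun m => ?_
      rw [Real.norm_eq_abs, ← two_mul, abs_mul, abs_mul, abs_two]
      have := mul_le_mul_of_nonneg_left (hB (m + 1)) (abs_nonneg (qq φ (m + 1) r))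
      linarith
    rw [hs.tsum_eq_zero_add]
    simp only [zero_add]
    rw [hu0]
    simp only [hu]
    have e4 : ∑' m : ℕ, (qq φ (m + 1 + 1) r * VV ρ α φ V (m + 1 + 1) r +
        qq φ (m + 1 + 1) r * VV ρ α φ V (m + 1 + 1) r) =
        2 * ∑' m : ℕ, qq φ (m + 2) r * VV ρ α φ V (m + 2) r := by
      rw [← tsum_mul_left]
      refine tsum_congr fun m => ?_
      ring
    rw [e4]
    simp only [FF, GG, zero_add]
    have e8 : qq φ 0 r * J 0 (ρ * r) = φ 1 * φ 1 * r ^ 84 * J 0 (ρ * r) + qr2 φ r * J 0 (ρ * r) := by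
      rw [qq_zero_eq hφs hr0 hr1]; ring
    rw [hV1, hq1]
    linear_combination e8
  | 1 =>
    simp only [Finset.sum_range_succ, Finset.range_zero, Finset.sum_empty, zero_add, Nat.sub_zero,
      Nat.sub_self]
    have e5 := hu 0
    simp only [zero_add] at e5
    rw [hu0, e5]
    have e4 : ∑' m : ℕ, (qq φ (1 + m + 1) r * uu ρ α φ V (m + 1) r +
        qq φ (m + 1) r * uu ρ α φ V (1 + m + 1) r) =
        ∑' m : ℕ, (qq φ (m + 2) r * VV ρ α φ V (m + 1) r + qq φ (m + 1) r * VV ρ α φ V (m + 2) r) := by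
      refine tsum_congr fun m => ?_
      rw [hu, hu, show 1 + m + 1 = m + 2 by ring]
    rw [e4]
    simp only [FF, GG]
    rw [hq1]
    ring
  | 2 =>
    simp only [Finset.sum_range_succ, Finset.range_zero, Finset.sum_empty, zero_add, Nat.sub_zero,
      Nat.sub_self, Nat.reduceSub]
    have e5 := hu 0
    have e6 := hu 1
    simp only [zero_add, Nat.reduceAdd] at e5 e6
    rw [hu0, e5, e6]
    have e4 : ∑' m : ℕ, (qq φ (2 + m + 1) r * uu ρ α φ V (m + 1) r +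
        qq φ (m + 1) r * uu ρ α φ V (2 + m + 1) r) =
        ∑' m : ℕ, (qq φ (m + 3) r * VV ρ α φ V (m + 1) r + qq φ (m + 1) r * VV ρ α φ V (m + 3) r) := by
      refine tsum_congr fun m => ?_
      rw [hu, hu, show 2 + m + 1 = m + 3 by ring]
    rw [e4]
    have hq2 : qq φ 2 r = φ 2 * r ^ 84 + qr φ 2 r := by simp [qq]
    simp only [FF, GG]
    rw [hV1, hq1]
    have e7 : qq φ 2 r * J 0 (ρ * r) = φ 2 * r ^ 84 * J 0 (ρ * r) + qr φ 2 r * J 0 (ρ * r) := by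
      rw [hq2]; ring
    linear_combination e7
  | k + 3 =>
    rw [Finset.sum_range_succ, Finset.sum_range_succ']
    simp only [Nat.sub_zero, Nat.sub_self]
    have e5 := hu (k + 2)
    simp only [show k + 2 + 1 = k + 3 by ring] at e5
    rw [hu0, e5]
    have e4 : ∑' m : ℕ, (qq φ (k + 3 + m + 1) r * uu ρ α φ V (m + 1) r +
        qq φ (m + 1) r * uu ρ α φ V (k + 3 + m + 1) r) =
        ∑' m : ℕ, (qq φ (k + m + 4) r * VV ρ α φ V (m + 1) r +
          qq φ (m + 1) r * VV ρ α φ V (k + m + 4) r) := by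
      refine tsum_congr fun m => ?_
      rw [hu, hu, show k + 3 + m + 1 = k + m + 4 by ring]
    have e6 : ∑ i ∈ Finset.range (k + 2), qq φ (i + 1) r * uu ρ α φ V (k + 3 - (i + 1)) r =
        ∑ i ∈ Finset.range (k + 2), qq φ (i + 1) r * VV ρ α φ V (k + 2 - i) r := by
      refine Finset.sum_congr rfl fun i hi => ?_
      rw [Finset.mem_range] at hi
      obtain ⟨j, hj⟩ : ∃ j, k + 3 - (i + 1) = j + 1 := ⟨k + 1 - i, by omega⟩
      rw [hj, hu, show j + 1 = k + 2 - i by omega]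
    rw [e4, e6]
    have hq3 : qq φ (k + 3) r = φ (k + 3) * r ^ (42 * (k + 3)) + qr φ (k + 3) r := by simp [qq]
    simp only [FF, GG]
    have e7 : qq φ (k + 3) r * J 0 (ρ * r) = φ (k + 3) * r ^ (42 * (k + 3)) * J 0 (ρ * r) +
        qr φ (k + 3) r * J 0 (ρ * r) := by
      rw [hq3]; ring
    linear_combination e7

end

end SCHT
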