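import Pool.Agent.MP_83fd13_an.SCH.Asm2
import Pool.Agent.MP_83fd13_an.SCH.RegB
import Pool.Agent.MP_83fd13_an.SCH.UFamA

/-!
# [SCH] family: uniform bounds of the sources at a fixed `ρ`
-/

set_option autoImplicit false

namespace SCHT

open MeasureTheory Set Filter Topology
open Pool.Agent.SCH SCHB SCHF SCHS SCHG SCHA

noncomputable section

/-- the data at a fixed `ρ` -/
abbrev Pt (C th ρ α : ℝ) (φ : ℕ → ℝ) (V : ℕ → ℝ → ℝ) : Prop :=
  Dat C th (fun _ => ρ) (fun _ => α) (fun _ => φ) (fun _ => V)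

theorem Dat.pt {C th : ℝ} {R α : ℝ → ℝ} {φ : ℝ → ℕ → ℝ} {V : ℝ → ℕ → ℝ → ℝ}
    (H : Dat C th R α φ V) (x : ℝ) : Pt C th (R x) (α x) (φ x) (V x) where
  hC := H.hC
  th0 := H.th0
  th1 := H.th1
  cR := continuous_const
  R0 _ := H.R0 x
  R1 _ := H.R1 x
  ca := continuous_const
  ba _ := H.ba x
  cf _ := continuous_const
  bf _ k := H.bf x k
  cV k := (H.cV k).comp (continuous_const.prodMk continuous_snd : Continuous fun p : ℝ × ℝ => (x, p.2))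
  bV _ k s h0 h1 := H.bV x k s h0 h1

section Pt

variable {C th ρ α : ℝ} {φ : ℕ → ℝ} {V : ℕ → ℝ → ℝ} (H : Pt C th ρ α φ V)
include H

theorem Dat.φs : Summable fun k => |φ k| := by
  refine Summable.of_nonneg_of_le (fun _ => abs_nonneg _) (fun k => ?_)
    ((summable_geometric_of_lt_one H.th0.le H.th1).mul_left C)
  exact H.bf 0 k

theorem Dat.qqs {r : ℝ} (hr0 : 0 ≤ r) (hr1 : r ≤ 1) : Summable fun k => |qq φ k r| := by
  obtain ⟨-, K, hK, hb⟩ := H.uqq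
  refine Summable.of_nonneg_of_le (fun _ => abs_nonneg _) (fun k => ?_)
    ((summable_geometric_of_lt_one H.th0.le H.th1).mul_left K)
  have h := hb k 0 r
  rw [cl_of_mem hr0 hr1] at h
  refine h.trans (mul_le_of_le_one_right ?_ (pow_le_one₀ hr0 hr1))
  exact mul_nonneg hK (pow_nonneg H.th0.le k)

/-- uniform bound of `u_k` -/
theorem Dat.buu : ∃ K, 0 ≤ K ∧ ∀ k, ∀ r : ℝ, 0 ≤ r → r ≤ 1 →
    |uu ρ α φ V k r| ≤ K * (th ^ k * (r ^ 42) ^ (k - 1)) := by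
  obtain ⟨-, K, hK, hb⟩ := H.uVV
  refine ⟨K + 1, by positivity, fun k r hr0 hr1 => ?_⟩
  have h := hb k 0 r
  rw [cl_of_mem hr0 hr1] at h
  have e : r ^ ev k = (r ^ 42) ^ (k - 1) := by unfold ev; rw [pow_mul]
  rw [e] at h
  have hth := H.th0.le
  unfold uu
  refine (abs_add_le _ _).trans ?_
  have h2 : |if k = 0 then J 0 (ρ * r) else 0| ≤ 1 * (th ^ k * (r ^ 42) ^ (k - 1)) := by
    split_ifs with hk
    · subst hk
      simpa using abs_J_le_one 0 (ρ * r)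
    · rw [abs_zero]
      positivity
  calc _ ≤ K * th ^ k * (r ^ 42) ^ (k - 1) + 1 * (th ^ k * (r ^ 42) ^ (k - 1)) := add_le_add h h2
    _ = _ := by ring

theorem Dat.buu1 {r : ℝ} (hr0 : 0 ≤ r) (hr1 : r ≤ 1) : ∃ B, ∀ k, |uu ρ α φ V k r| ≤ B := by
  obtain ⟨K, hK, hb⟩ := H.buu
  refine ⟨K, fun k => (hb k r hr0 hr1).trans (mul_le_of_le_one_right hK ?_)⟩
  have h1 : r ^ 42 ≤ 1 := pow_le_one₀ hr0 hr1
  exact mul_le_one₀ (pow_le_one₀ H.th0.le H.th1.le) (by positivity)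
    (pow_le_one₀ (by positivity) h1)

/-- uniform bound of the explicit sources -/
theorem Dat.bFF : ∃ K, 0 ≤ K ∧ ∀ k, ∀ r : ℝ, 0 ≤ r → r ≤ 1 →
    |FF ρ α φ k r| ≤ K * (th ^ k * r ^ ev k) := by
  have hC := H.C0
  have hth := H.th0
  have hf : ∀ k, |φ k| ≤ C := fun k => (H.bf 0 k).trans
    (mul_le_of_le_one_right hC (pow_le_one₀ hth.le H.th1.le))
  have hth2 : 0 < th ^ 2 := pow_pos hth 2
  -- bound of `XX 1`
  have hX1 : ∀ r : ℝ, 0 ≤ r → r ≤ 1 → |XX ρ α φ 1 r| ≤ 2000 * C ^ 2 / th ^ 2 := by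
    intro r hr0 hr1
    have h := H.bXX 1 0 hr0 hr1
    have e : r ^ ev 1 = 1 := by simp [ev]
    rw [e, mul_one, pow_one] at h
    exact h.trans (mul_le_of_le_one_right (by positivity) H.th1.le)
  set D := C * C + 2 * (C * (2000 * C ^ 2 / th ^ 2)) + C with hD
  have hD0 : 0 ≤ D := by positivity
  refine ⟨D / th ^ 2 + C, by positivity, fun k r hr0 hr1 => ?_⟩
  have p1 : r ^ 42 ≤ 1 := pow_le_one₀ hr0 hr1
  have p2 : r ^ 84 ≤ 1 := pow_le_one₀ hr0 hr1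
  have p0 : 0 ≤ r ^ 42 := pow_nonneg hr0 _
  have p00 : 0 ≤ r ^ 84 := pow_nonneg hr0 _
  have p3 : r ^ 84 ≤ r ^ 42 := pow_le_pow_of_le_one hr0 hr1 (by norm_num)
  have hJ := abs_J_le_one 0 (ρ * r)
  -- reduction for `k ≤ 2`
  have red : ∀ j ≤ 2, ∀ a : ℝ, a ≤ D * r ^ ev j → a ≤ (D / th ^ 2 + C) * (th ^ j * r ^ ev j) := by
    intro j hj a ha
    refine ha.trans ?_
    have e1 : th ^ 2 ≤ th ^ j := pow_le_pow_of_le_one hth.le H.th1.le hj
    have e2 : D ≤ D / th ^ 2 * th ^ j := by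
      rw [div_mul_eq_mul_div, le_div_iff₀ hth2]
      exact mul_le_mul_of_nonneg_left e1 hD0
    have e3 : D ≤ (D / th ^ 2 + C) * th ^ j := by
      rw [add_mul]
      have : 0 ≤ C * th ^ j := by positivity
      linarith
    calc D * r ^ ev j ≤ ((D / th ^ 2 + C) * th ^ j) * r ^ ev j :=
          mul_le_mul_of_nonneg_right e3 (pow_nonneg hr0 _)
      _ = _ := by ring
  match k with
  | 0 =>
    refine red 0 (by norm_num) _ ?_
    have e : r ^ ev 0 = 1 := by simp [ev]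
    rw [e, mul_one]
    show |φ 1 * φ 1 * r ^ 84 * J 0 (ρ * r) + 2 * (φ 1 * r ^ 42 * XX ρ α φ 1 r)| ≤ D
    refine (abs_add_le _ _).trans ?_
    rw [abs_mul, abs_mul, abs_mul, abs_of_nonneg p00, abs_mul, abs_two, abs_mul, abs_mul,
      abs_of_nonneg p0]
    have t1 : |φ 1| * |φ 1| * r ^ 84 * |J 0 (ρ * r)| ≤ C * C * 1 * 1 := by
      gcongr
      · exact hf 1
      · exact hf 1
    have t2 : 2 * (|φ 1| * r ^ 42 * |XX ρ α φ 1 r|) ≤ 2 * (C * 1 * (2000 * C ^ 2 / th ^ 2)) := by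
      gcongr
      · exact hf 1
      · exact hX1 r hr0 hr1
    rw [hD]
    linarith
  | 1 =>
    refine red 1 (by norm_num) _ ?_
    have e : r ^ ev 1 = 1 := by simp [ev]
    rw [e, mul_one]
    show |φ 1 * r ^ 42 * J 0 (ρ * r)| ≤ D
    rw [abs_mul, abs_mul, abs_of_nonneg p0]
    have t1 : |φ 1| * r ^ 42 * |J 0 (ρ * r)| ≤ C * 1 * 1 := by
      gcongr
      exact hf 1
    have t2 : 0 ≤ C * C + 2 * (C * (2000 * C ^ 2 / th ^ 2)) := by positivity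
    rw [hD]
    linarith
  | 2 =>
    refine red 2 le_rfl _ ?_
    have e : r ^ ev 2 = r ^ 42 := by simp [ev]
    rw [e]
    show |φ 2 * r ^ 84 * J 0 (ρ * r) + φ 1 * r ^ 42 * XX ρ α φ 1 r| ≤ D * r ^ 42
    refine (abs_add_le _ _).trans ?_
    rw [abs_mul, abs_mul, abs_of_nonneg p00, abs_mul, abs_mul, abs_of_nonneg p0]
    have t1 : |φ 2| * r ^ 84 * |J 0 (ρ * r)| ≤ C * r ^ 42 * 1 := by
      gcongr
      exact hf 2
    have t2 : |φ 1| * r ^ 42 * |XX ρ α φ 1 r| ≤ C * r ^ 42 * (2000 * C ^ 2 / th ^ 2) := by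
      gcongr
      · exact hf 1
      · exact hX1 r hr0 hr1
    have t3 : 0 ≤ (C * C + C * (2000 * C ^ 2 / th ^ 2)) * r ^ 42 := by positivity
    rw [hD]
    nlinarith
  | k + 3 =>
    show |φ (k + 3) * r ^ (42 * (k + 3)) * J 0 (ρ * r)| ≤ _
    have p4 := pow_nonneg hr0 (42 * (k + 3))
    rw [abs_mul, abs_mul, abs_of_nonneg p4]
    have e1 : r ^ (42 * (k + 3)) ≤ r ^ ev (k + 3) :=
      pow_le_pow_of_le_one hr0 hr1 (by unfold ev; omega)
    have t1 : |φ (k + 3)| * r ^ (42 * (k + 3)) * |J 0 (ρ * r)| ≤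
        (C * th ^ (k + 3)) * r ^ ev (k + 3) * 1 :=
      mul_le_mul (mul_le_mul (H.bf 0 (k + 3)) e1 p4 (by positivity)) hJ (abs_nonneg _)
        (mul_nonneg (by positivity) (pow_nonneg hr0 _))
    refine t1.trans ?_
    have t2 : 0 ≤ D / th ^ 2 * (th ^ (k + 3) * r ^ ev (k + 3)) :=
      mul_nonneg (by positivity) (mul_nonneg (by positivity) (pow_nonneg hr0 _))
    calc (C * th ^ (k + 3)) * r ^ ev (k + 3) * 1 = C * (th ^ (k + 3) * r ^ ev (k + 3)) := by ring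
      _ ≤ D / th ^ 2 * (th ^ (k + 3) * r ^ ev (k + 3)) + C * (th ^ (k + 3) * r ^ ev (k + 3)) :=
        le_add_of_nonneg_left t2
      _ = _ := by ring

/-- uniform bound of the remainder sources -/
theorem Dat.bGG (h0 : φ 0 = 1) : ∃ K, 0 ≤ K ∧ ∀ k, ∀ r : ℝ, 0 ≤ r → r ≤ 1 →
    |GG ρ α φ V k r| ≤ K * (((k : ℝ) + 1) * th ^ k * r ^ ev k) := by
  obtain ⟨K1, hK1, b1⟩ := H.buu
  obtain ⟨K2, hK2, b2⟩ := H.bFF
  have hth := H.th0.le
  have hth1 := H.th1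
  have hd : 0 < 1 - th ^ 2 := by
    have : th ^ 2 < 1 := by nlinarith
    linarith
  set Q := C ^ 2 / (1 - th ^ 2) with hQ
  have hQ0 : 0 ≤ Q := by positivity
  set E := (1 - th ^ 2)⁻¹ with hE
  have hE0 : 0 ≤ E := by positivity
  refine ⟨Q * K1 * (1 + 2 * E) + K1 + K2, by positivity, fun k r hr0 hr1 => ?_⟩
  have hR0 : 0 ≤ r ^ 42 := pow_nonneg hr0 _
  have hR1 : r ^ 42 ≤ 1 := pow_le_one₀ hr0 hr1
  obtain ⟨B, hB⟩ := H.buu1 hr0 hr1
  have hc := conv_eq (ρ := ρ) (α := α) (V := V) h0 H.φs hr0 hr1 (H.qqs hr0 hr1) hB k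
  have hM : ∀ i, |MM 42 φ i r| ≤ Q * (th ^ i * (r ^ 42) ^ i) := by
    intro i
    have := MM_abs_le (N := 42) hth hth1 (H.bf 0) hr0 hr1 i
    rwa [pow_mul] at this
  have h1 := conv_abs_le (q := fun i => MM 42 φ i r) (u := fun k => uu ρ α φ V k r)
    hth hth1 hR0 hR1 hQ0 hK1 hM (fun k => b1 k r hr0 hr1) k
  rw [hc] at h1
  have h2 := b1 k r hr0 hr1
  have h3 := b2 k r hr0 hr1
  have e : (r ^ 42) ^ (k - 1) = r ^ ev k := by unfold ev; rw [pow_mul]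
  rw [e] at h1 h2
  set P := th ^ k * r ^ ev k with hP
  have hP0 : 0 ≤ P := by positivity
  have h4 : |GG ρ α φ V k r| ≤ Q * K1 * ((k : ℝ) + 1 + 2 * E) * P + K1 * P + K2 * P := by
    have e2 : GG ρ α φ V k r = (uu ρ α φ V k r + FF ρ α φ k r + GG ρ α φ V k r) -
        uu ρ α φ V k r - FF ρ α φ k r := by ring
    rw [e2]
    refine (abs_sub _ _).trans (add_le_add ((abs_sub _ _).trans (add_le_add h1 h2)) h3)
  refine h4.trans ?_
  have hk : (0:ℝ) ≤ k := Nat.cast_nonneg k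
  have e3 : (k : ℝ) + 1 + 2 * E ≤ (1 + 2 * E) * ((k : ℝ) + 1) := by nlinarith
  have e4 : Q * K1 * ((k : ℝ) + 1 + 2 * E) * P ≤ Q * K1 * ((1 + 2 * E) * ((k : ℝ) + 1)) * P := by
    gcongr
  have e5 : K1 * P + K2 * P ≤ (K1 + K2) * ((k : ℝ) + 1) * P := by
    have : 0 ≤ (K1 + K2) * P * k := by positivity
    nlinarith
  calc _ ≤ Q * K1 * ((1 + 2 * E) * ((k : ℝ) + 1)) * P + (K1 + K2) * ((k : ℝ) + 1) * P := by
        linarith
    _ = (Q * K1 * (1 + 2 * E) + K1 + K2) * (((k : ℝ) + 1) * P) := by ring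
    _ = _ := by rw [hP]; ring

/-- uniform bound of the sources of the Dirichlet modes -/
theorem Dat.bSS (h0 : φ 0 = 1) : ∃ K, 0 ≤ K ∧ ∀ k, ∀ r : ℝ, 0 ≤ r → r ≤ 1 →
    |SS ρ α φ V k r| ≤ K * (((k : ℝ) + 1) * th ^ k * r ^ ev k) := by
  obtain ⟨K1, hK1, b1⟩ := H.bGG h0
  obtain ⟨-, K2, hK2, b2⟩ := H.uRR
  refine ⟨K1 + K2, by positivity, fun k r hr0 hr1 => ?_⟩
  have h1 := b1 k r hr0 hr1
  have h2 := b2 k 0 r
  rw [cl_of_mem hr0 hr1] at h2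
  unfold SS
  refine (abs_add_le _ _).trans ((add_le_add h1 h2).trans ?_)
  have hk : (0:ℝ) ≤ k := Nat.cast_nonneg k
  have hP0 : 0 ≤ th ^ k * r ^ ev k := mul_nonneg (pow_nonneg H.th0.le k) (pow_nonneg hr0 _)
  have : 0 ≤ K2 * (th ^ k * r ^ ev k) * k := by positivity
  nlinarith

end Pt

end

end SCHT
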