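import Pool.Agent.MP_83fd13_an.SCH.BesM
import Pool.Agent.MP_83fd13_an.SCH.UFamB

/-!
# [SCH] family: the explicit parts as radial solutions, derivatives, bounds
-/

set_option autoImplicit false

namespace SCHT

open MeasureTheory Set Filter Topology
open Pool.Agent.SCH SCHB SCHF SCHS SCHG SCHA

noncomputable section

variable (ρ α : ℝ) (φ : ℕ → ℝ) (V : ℕ → ℝ → ℝ)

/-- derivative of the explicit part -/
def XXd (k : ℕ) (r : ℝ) : ℝ :=
  match k with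
  | 0 => (φ 1 / 43) ^ 2 * Q0' J ρ r + α * (φ 1 / 43) * A0' J ρ r
  | 1 => φ 1 * PP' J ρ 42 r + α * (ρ * (J 41 (ρ * r) - J 43 (ρ * r)) / 2)
  | 2 => φ 2 * PP' J ρ 84 r + (φ 1 / 43) ^ 2 * Q2' J ρ r + α * (φ 1 / 43) * A2' J ρ r
  | k + 3 => φ (k + 3) * PP' J ρ (42 * (k + 3)) r

variable {ρ α φ V}

theorem XX_rsol (k : ℕ) :
    RSol (42 * k) (fun r => ρ ^ 2 * (XX ρ α φ k r + FF ρ α φ k r)) (XX ρ α φ k) (XXd ρ α φ k) := by
  have B := besselSys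
  match k with
  | 0 =>
    have h := ((B.rsol_Q0 ρ).const_mul ((φ 1 / 43) ^ 2)).add
      ((B.rsol_A0 ρ).const_mul (α * (φ 1 / 43)))
    refine h.congr (fun r _ => ?_) (fun r _ => rfl) (fun r _ => rfl)
    simp only [XX, FF, PP]
    push_cast
    ring
  | 1 =>
    have h := ((B.rsol_PP ρ 42).const_mul (φ 1)).add ((B.rsol_J ρ 41).const_mul α)
    refine h.congr (fun r _ => ?_) (fun r _ => rfl) (fun r _ => ?_)
    · simp only [XX, FF]
      ring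
    · simp only [XXd]
  | 2 =>
    have h := (((B.rsol_PP ρ 84).const_mul (φ 2)).add
      ((B.rsol_Q2 ρ).const_mul ((φ 1 / 43) ^ 2))).add ((B.rsol_A2 ρ).const_mul (α * (φ 1 / 43)))
    refine h.congr (fun r _ => ?_) (fun r _ => rfl) (fun r _ => rfl)
    simp only [XX, FF, PP]
    push_cast
    ring
  | k + 3 =>
    have h := (B.rsol_PP ρ (42 * (k + 3))).const_mul (φ (k + 3))
    refine h.congr (fun r _ => ?_) (fun r _ => rfl) (fun r _ => rfl)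
    simp only [XX, FF]
    ring

/-! ### bounds -/

theorem J_succ_small (n : ℕ) (x : ℝ) : |J (n + 1) x| ≤ |x| := by
  have h := lipschitz_J (n + 1) 0 x
  rwa [J_succ_zero, sub_zero, sub_zero] at h

theorem J42_small (x : ℝ) : |J 42 x| ≤ |x| * |x| := by
  have h := J_rec 41 x
  push_cast at h
  have h1 := J_succ_small 40 x
  have h2 := J_succ_small 42 x
  have h3 : |J 41 x + J 43 x| ≤ 2 * |x| := (abs_add_le _ _).trans (by linarith)
  have e : J 42 x = x * (J 41 x + J 43 x) / 84 := by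
    have : x * (J 41 x + J 43 x) = 84 * J 42 x := by linarith
    rw [this]; ring
  rw [e, abs_div, abs_mul, abs_of_pos (by norm_num : (0:ℝ) < 84)]
  have h4 : |x| * |J 41 x + J 43 x| ≤ |x| * (2 * |x|) := mul_le_mul_of_nonneg_left h3 (abs_nonneg _)
  have h5 : 0 ≤ |x| * |x| := by positivity
  rw [div_le_iff₀ (by norm_num)]
  nlinarith

section

variable {r : ℝ} (h0 : 0 < ρ) (h1 : ρ ≤ 55) (hr : 0 < r) (hr1 : r ≤ 1)
include h0 h1 hr hr1

theorem PP'_le (n : ℕ) : |PP' J ρ n r| ≤ 1600 * r ^ n := by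
  have hJ := abs_J_le_one 1 (ρ * r)
  have hJ0 := abs_J_le_one 0 (ρ * r)
  have hx := abs_rr_le h0 h1 hr.le hr1
  have hn0 : (0:ℝ) ≤ n := Nat.cast_nonneg n
  have hn : (0:ℝ) < (n : ℝ) + 1 := by linarith
  unfold PP'
  have e : -(ρ / 2) * r ^ n * (n * J 1 (ρ * r) + ρ * r * J 0 (ρ * r)) / (n + 1) =
      r ^ n * (-(ρ / 2)) * ((n * J 1 (ρ * r) + ρ * r * J 0 (ρ * r)) / (n + 1)) := by ring
  rw [e, abs_mul, abs_mul, abs_of_nonneg (pow_nonneg hr.le n), abs_neg,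
    abs_of_pos (by positivity : 0 < ρ / 2), abs_div, abs_of_pos hn]
  have t1 : |n * J 1 (ρ * r) + ρ * r * J 0 (ρ * r)| / ((n : ℝ) + 1) ≤ 56 := by
    rw [div_le_iff₀ hn]
    refine (abs_add_le _ _).trans ?_
    rw [abs_mul, abs_mul, abs_of_nonneg hn0]
    have t2 : (n : ℝ) * |J 1 (ρ * r)| ≤ n * 1 := mul_le_mul_of_nonneg_left hJ hn0
    have t3 : |ρ * r| * |J 0 (ρ * r)| ≤ 55 * 1 := mul_le_mul hx hJ0 (abs_nonneg _) (by norm_num)
    nlinarith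
  have hp := pow_nonneg hr.le n
  have t0 : 0 ≤ |n * J 1 (ρ * r) + ρ * r * J 0 (ρ * r)| / ((n : ℝ) + 1) := by positivity
  calc r ^ n * (ρ / 2) * (|n * J 1 (ρ * r) + ρ * r * J 0 (ρ * r)| / ((n : ℝ) + 1))
      ≤ r ^ n * (55 / 2) * 56 := by gcongr
    _ ≤ 1600 * r ^ n := by nlinarith

theorem rJ_div_le (p l m : ℕ) (c : ℝ) (hc : 0 ≤ c) :
    |(c * r ^ (p + 1) * J l (ρ * r) + ρ * r ^ (p + 1 + 1) * J m (ρ * r)) / r| ≤ (c + 55) * r ^ p := by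
  have e : (c * r ^ (p + 1) * J l (ρ * r) + ρ * r ^ (p + 1 + 1) * J m (ρ * r)) / r =
      r ^ p * (c * J l (ρ * r) + (ρ * r) * J m (ρ * r)) := by
    have := hr.ne'
    field_simp
    ring
  rw [e, abs_mul, abs_of_nonneg (pow_nonneg hr.le p)]
  have hx := abs_rr_le h0 h1 hr.le hr1
  have t1 : |c * J l (ρ * r) + (ρ * r) * J m (ρ * r)| ≤ c + 55 := by
    refine (abs_add_le _ _).trans ?_
    rw [abs_mul, abs_mul, abs_of_nonneg hc]
    have t2 : c * |J l (ρ * r)| ≤ c * 1 := mul_le_mul_of_nonneg_left (abs_J_le_one _ _) hc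
    have t3 : |ρ * r| * |J m (ρ * r)| ≤ 55 * 1 :=
      mul_le_mul hx (abs_J_le_one _ _) (abs_nonneg _) (by norm_num)
    linarith
  calc _ ≤ r ^ p * (c + 55) := mul_le_mul_of_nonneg_left t1 (pow_nonneg hr.le p)
    _ = _ := by ring

theorem Q0'_le : |Q0' J ρ r| ≤ 200000 * r ^ 84 := by
  unfold Q0'
  have t1 := rJ_div_le h0 h1 hr hr1 85 2 1 84 (by norm_num)
  have t2 := rJ_div_le h0 h1 hr hr1 84 1 0 84 (by norm_num)
  simp only [Nat.reduceAdd] at t1 t2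
  have hp : r ^ 85 ≤ r ^ 84 := pow_le_pow_of_le_one hr.le hr1 (by norm_num)
  have hp0 : 0 ≤ r ^ 84 := pow_nonneg hr.le _
  have hρ2 : ρ ^ 2 ≤ 55 ^ 2 := pow_le_pow_left₀ h0.le h1 2
  refine (abs_sub _ _).trans ?_
  rw [abs_mul, abs_mul, abs_of_nonneg (by positivity : 0 ≤ ρ ^ 2 / 4),
    abs_of_nonneg (by positivity : 0 ≤ ρ / 2)]
  have t3 : ρ ^ 2 / 4 * |(84 * r ^ 86 * J 2 (ρ * r) + ρ * r ^ 87 * J 1 (ρ * r)) / r| ≤
      55 ^ 2 / 4 * ((84 + 55) * r ^ 84) :=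
    mul_le_mul (by linarith) (t1.trans (by nlinarith)) (abs_nonneg _) (by norm_num)
  have t4 : ρ / 2 * |(84 * r ^ 85 * J 1 (ρ * r) + ρ * r ^ 86 * J 0 (ρ * r)) / r| ≤
      55 / 2 * ((84 + 55) * r ^ 84) :=
    mul_le_mul (by linarith) t2 (abs_nonneg _) (by norm_num)
  nlinarith

theorem A0'_le : |A0' J ρ r| ≤ 4000 * r ^ 42 := by
  unfold A0'
  have t1 := rJ_div_le h0 h1 hr hr1 42 0 42 0 le_rfl
  simp only [Nat.reduceAdd, zero_mul, zero_add] at t1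
  have hp0 : 0 ≤ r ^ 42 := pow_nonneg hr.le _
  rw [abs_neg, abs_mul, abs_of_pos h0]
  have : ρ * |ρ * r ^ 44 * J 42 (ρ * r) / r| ≤ 55 * (55 * r ^ 42) :=
    mul_le_mul h1 t1 (abs_nonneg _) (by norm_num)
  nlinarith

theorem Q2'_le : |Q2' J ρ r| ≤ 100000 * r ^ 84 := by
  unfold Q2'
  have t1 := rJ_div_le h0 h1 hr hr1 85 2 1 84 (by norm_num)
  simp only [Nat.reduceAdd] at t1
  have hp : r ^ 85 ≤ r ^ 84 := pow_le_pow_of_le_one hr.le hr1 (by norm_num)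
  have hp0 : 0 ≤ r ^ 84 := pow_nonneg hr.le _
  have hρ2 : ρ ^ 2 ≤ 55 ^ 2 := pow_le_pow_left₀ h0.le h1 2
  rw [abs_mul, abs_of_nonneg (by positivity : 0 ≤ ρ ^ 2 / 8)]
  have t3 : ρ ^ 2 / 8 * |(84 * r ^ 86 * J 2 (ρ * r) + ρ * r ^ 87 * J 1 (ρ * r)) / r| ≤
      55 ^ 2 / 8 * ((84 + 55) * r ^ 84) :=
    mul_le_mul (by linarith) (t1.trans (by nlinarith)) (abs_nonneg _) (by norm_num)
  nlinarith

theorem A2'_le : |A2' J ρ r| ≤ 2000 * r ^ 42 := by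
  unfold A2'
  have t1 := rJ_div_le h0 h1 hr hr1 42 41 40 2 (by norm_num)
  simp only [Nat.reduceAdd] at t1
  have hp0 : 0 ≤ r ^ 42 := pow_nonneg hr.le _
  rw [abs_mul, abs_of_nonneg (by positivity : 0 ≤ ρ / 2)]
  have t3 : ρ / 2 * |(2 * r ^ 43 * J 41 (ρ * r) + ρ * r ^ 44 * J 40 (ρ * r)) / r| ≤
      55 / 2 * ((2 + 55) * r ^ 42) :=
    mul_le_mul (by linarith) t1 (abs_nonneg _) (by norm_num)
  nlinarith

theorem PP_small : |PP J ρ 42 r| ≤ 28 * r ^ 2 :=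
  (PP_le h0 h1 hr.le hr1 42).trans (mul_le_mul_of_nonneg_left
    (pow_le_pow_of_le_one hr.le hr1 (by norm_num)) (by norm_num))

theorem J42r_le : |J 42 (ρ * r)| ≤ 3025 * r ^ 2 := by
  refine (J42_small _).trans ?_
  rw [abs_of_pos (by positivity : 0 < ρ * r)]
  have : ρ * r * (ρ * r) = ρ ^ 2 * r ^ 2 := by ring
  rw [this]
  have hρ2 : ρ ^ 2 ≤ 3025 := by nlinarith
  exact mul_le_mul_of_nonneg_right hρ2 (sq_nonneg r)

theorem Jr_le (n : ℕ) : |J (n + 1) (ρ * r)| ≤ 55 * r := by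
  refine (J_succ_small n _).trans ?_
  rw [abs_of_pos (by positivity : 0 < ρ * r)]
  exact mul_le_mul_of_nonneg_right h1 hr.le

end

section Pt

variable {C th : ℝ} (H : Pt C th ρ α φ V)
include H

theorem Dat.bφ (k : ℕ) : |φ k| ≤ C :=
  (H.bf 0 k).trans (mul_le_of_le_one_right H.C0 (pow_le_one₀ H.th0.le H.th1.le))

theorem Dat.cds : |φ 1| ≤ C ∧ |φ 2| ≤ C ∧ |(φ 1 / 43) ^ 2| ≤ C ^ 2 ∧ |α * (φ 1 / 43)| ≤ C ^ 2 ∧
    |α| ≤ C ∧ C ≤ C ^ 2 := by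
  have hC := H.C0
  have hC1 := H.hC
  have hf1 := H.bφ 1
  have hf1' : |φ 1 / 43| ≤ C := by
    rw [abs_div, abs_of_pos (by norm_num : (0:ℝ) < 43)]
    have : |φ 1| / 43 ≤ |φ 1| := div_le_self (abs_nonneg _) (by norm_num)
    linarith
  refine ⟨hf1, H.bφ 2, ?_, ?_, H.ba 0, by nlinarith⟩
  · rw [abs_pow]; exact pow_le_pow_left₀ (abs_nonneg _) hf1' 2
  · rw [abs_mul, sq]; exact mul_le_mul (H.ba 0) hf1' (abs_nonneg _) hC

/-- bound of the explicit parts with the weight `r^(wt k)`, `k ≥ 1` -/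
theorem Dat.bXw : ∃ K, 0 ≤ K ∧ ∀ k, ∀ r : ℝ, 0 < r → r ≤ 1 →
    |XX ρ α φ (k + 1) r| ≤ K * th ^ (k + 1) * r ^ wt (k + 1) := by
  have hth := H.th0
  have hC := H.C0
  obtain ⟨c1, c2, c3, c4, c5, c6⟩ := H.cds
  refine ⟨4000 * C ^ 2 / th ^ 2, by positivity, fun k r hr hr1 => ?_⟩
  match k with
  | 0 =>
    show |φ 1 * PP J ρ 42 r + α * J 42 (ρ * r)| ≤ 4000 * C ^ 2 / th ^ 2 * th ^ 1 * r ^ 2
    have t1 := mul_le_mul c1 (PP_small (H.R0 0) (H.R1 0) hr hr1) (abs_nonneg _) hC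
    have t2 := mul_le_mul c5 (J42r_le (H.R0 0) (H.R1 0) hr hr1) (abs_nonneg _) hC
    have t3 : |φ 1 * PP J ρ 42 r + α * J 42 (ρ * r)| ≤ 4000 * C ^ 2 * r ^ 2 := by
      refine (abs_add_le _ _).trans ?_
      rw [abs_mul, abs_mul]
      have hr2 : 0 ≤ r ^ 2 := sq_nonneg r
      have : C * r ^ 2 ≤ C ^ 2 * r ^ 2 := mul_le_mul_of_nonneg_right c6 hr2
      nlinarith [mul_nonneg (mul_nonneg hC hC) hr2]
    refine t3.trans (mul_le_mul_of_nonneg_right ?_ (sq_nonneg r))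
    rw [pow_one, div_mul_eq_mul_div, le_div_iff₀ (pow_pos hth 2)]
    have : th ^ 2 ≤ th := by nlinarith [H.th1]
    exact mul_le_mul_of_nonneg_left this (by positivity)
  | k + 1 =>
    have h := H.bXX (k + 2) 0 hr.le hr1
    have e : ev (k + 2) = wt (k + 2) := by simp [ev, wt]
    rw [e] at h
    refine h.trans (mul_le_mul_of_nonneg_right (mul_le_mul_of_nonneg_right ?_ (by positivity))
      (pow_nonneg hr.le _))
    rw [div_le_div_iff_of_pos_right (pow_pos hth 2)]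
    have : 0 ≤ C ^ 2 := by positivity
    linarith

/-- bound of the derivatives of the explicit parts -/
theorem Dat.bX' : ∃ K, 0 ≤ K ∧ ∀ k, ∀ r : ℝ, 0 < r → r ≤ 1 →
    |XXd ρ α φ k r| ≤ K * th ^ k * r ^ (wt k - 1) := by
  have hth := H.th0
  have hC := H.C0
  have h0 := H.R0 0
  have h1 := H.R1 0
  have hth2 : 0 < th ^ 2 := pow_pos hth 2
  obtain ⟨c1, c2, c3, c4, c5, c6⟩ := H.cds
  have hCC : 0 ≤ C ^ 2 := by positivity
  refine ⟨1000000 * C ^ 2 / th ^ 2, by positivity, fun k r hr hr1 => ?_⟩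
  have red : ∀ j ≤ 2, ∀ a w : ℝ, 0 ≤ w → a ≤ 1000000 * C ^ 2 * w →
      a ≤ 1000000 * C ^ 2 / th ^ 2 * th ^ j * w := by
    intro j hj a w hw ha
    refine ha.trans (mul_le_mul_of_nonneg_right ?_ hw)
    have e1 : th ^ 2 ≤ th ^ j := pow_le_pow_of_le_one hth.le H.th1.le hj
    rw [div_mul_eq_mul_div, le_div_iff₀ hth2]
    exact mul_le_mul_of_nonneg_left e1 (by positivity)
  have p0 : 0 ≤ r := hr.le
  match k with
  | 0 =>
    refine red 0 (by norm_num) _ _ (pow_nonneg p0 _) ?_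
    show |(φ 1 / 43) ^ 2 * Q0' J ρ r + α * (φ 1 / 43) * A0' J ρ r| ≤ 1000000 * C ^ 2 * r ^ 1
    have p1 : r ^ 84 ≤ r ^ 1 := pow_le_pow_of_le_one p0 hr1 (by norm_num)
    have p2 : r ^ 42 ≤ r ^ 1 := pow_le_pow_of_le_one p0 hr1 (by norm_num)
    have t1 := mul_le_mul c3 (Q0'_le h0 h1 hr hr1) (abs_nonneg _) hCC
    have t2 := mul_le_mul c4 (A0'_le h0 h1 hr hr1) (abs_nonneg _) hCC
    refine (abs_add_le _ _).trans ?_
    rw [abs_mul, abs_mul (α * (φ 1 / 43))]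
    have t3 : C ^ 2 * (200000 * r ^ 84) ≤ C ^ 2 * (200000 * r ^ 1) := by gcongr
    have t4 : C ^ 2 * (4000 * r ^ 42) ≤ C ^ 2 * (4000 * r ^ 1) := by gcongr
    have t5 : 0 ≤ C ^ 2 * r ^ 1 := by positivity
    linarith
  | 1 =>
    refine red 1 (by norm_num) _ _ (pow_nonneg p0 _) ?_
    show |φ 1 * PP' J ρ 42 r + α * (ρ * (J 41 (ρ * r) - J 43 (ρ * r)) / 2)| ≤
      1000000 * C ^ 2 * r ^ 1
    have p2 : r ^ 42 ≤ r ^ 1 := pow_le_pow_of_le_one p0 hr1 (by norm_num)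
    have t1 := mul_le_mul c1 (PP'_le h0 h1 hr hr1 42) (abs_nonneg _) hC
    have t6 : |ρ * (J 41 (ρ * r) - J 43 (ρ * r)) / 2| ≤ 3025 * r := by
      rw [abs_div, abs_mul, abs_of_pos h0, abs_two]
      have a1 := Jr_le h0 h1 hr hr1 40
      have a2 := Jr_le h0 h1 hr hr1 42
      have a3 : |J 41 (ρ * r) - J 43 (ρ * r)| ≤ 110 * r := (abs_sub _ _).trans (by linarith)
      have a4 : ρ * |J 41 (ρ * r) - J 43 (ρ * r)| ≤ 55 * (110 * r) :=
        mul_le_mul h1 a3 (abs_nonneg _) (by norm_num)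
      linarith
    have t2 := mul_le_mul c5 t6 (abs_nonneg _) hC
    refine (abs_add_le _ _).trans ?_
    rw [abs_mul, abs_mul α]
    have t3 : C * (1600 * r ^ 42) ≤ C ^ 2 * (1600 * r ^ 1) := by gcongr
    have t4 : C * (3025 * r) ≤ C ^ 2 * (3025 * r) := by gcongr
    have t5 : 0 ≤ C ^ 2 * r := by positivity
    rw [pow_one] at t3 ⊢
    linarith
  | 2 =>
    refine red 2 le_rfl _ _ (pow_nonneg p0 _) ?_
    show |φ 2 * PP' J ρ 84 r + (φ 1 / 43) ^ 2 * Q2' J ρ r + α * (φ 1 / 43) * A2' J ρ r| ≤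
      1000000 * C ^ 2 * r ^ 41
    have p1 : r ^ 84 ≤ r ^ 41 := pow_le_pow_of_le_one p0 hr1 (by norm_num)
    have p2 : r ^ 42 ≤ r ^ 41 := pow_le_pow_of_le_one p0 hr1 (by norm_num)
    have t0 := mul_le_mul c2 (PP'_le h0 h1 hr hr1 84) (abs_nonneg _) hC
    have t1 := mul_le_mul c3 (Q2'_le h0 h1 hr hr1) (abs_nonneg _) hCC
    have t2 := mul_le_mul c4 (A2'_le h0 h1 hr hr1) (abs_nonneg _) hCC
    refine (abs_add_le _ _).trans ?_
    have t6 := abs_add_le (φ 2 * PP' J ρ 84 r) ((φ 1 / 43) ^ 2 * Q2' J ρ r)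
    rw [abs_mul, abs_mul] at t6
    rw [abs_mul (α * (φ 1 / 43))]
    have t3 : C * (1600 * r ^ 84) ≤ C ^ 2 * (1600 * r ^ 41) := by gcongr
    have t4 : C ^ 2 * (100000 * r ^ 84) ≤ C ^ 2 * (100000 * r ^ 41) := by gcongr
    have t7 : C ^ 2 * (2000 * r ^ 42) ≤ C ^ 2 * (2000 * r ^ 41) := by gcongr
    have t5 : 0 ≤ C ^ 2 * r ^ 41 := by positivity
    linarith
  | k + 3 =>
    show |φ (k + 3) * PP' J ρ (42 * (k + 3)) r| ≤ _
    rw [abs_mul]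
    have t1 := mul_le_mul (H.bf 0 (k + 3)) (PP'_le h0 h1 hr hr1 (42 * (k + 3))) (abs_nonneg _)
      (by positivity)
    refine t1.trans ?_
    have e1 : r ^ (42 * (k + 3)) ≤ r ^ (wt (k + 3) - 1) := by
      refine pow_le_pow_of_le_one p0 hr1 ?_
      show 42 * (k + 2) - 1 ≤ 42 * (k + 3)
      omega
    have e2 : C * 1600 ≤ 1000000 * C ^ 2 / th ^ 2 := by
      rw [le_div_iff₀ hth2]
      have : th ^ 2 ≤ 1 := pow_le_one₀ hth.le H.th1.le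
      nlinarith
    calc C * th ^ (k + 3) * (1600 * r ^ (42 * (k + 3)))
        = (C * 1600) * th ^ (k + 3) * r ^ (42 * (k + 3)) := by ring
      _ ≤ 1000000 * C ^ 2 / th ^ 2 * th ^ (k + 3) * r ^ (wt (k + 3) - 1) :=
        mul_le_mul (mul_le_mul_of_nonneg_right e2 (by positivity)) e1 (pow_nonneg p0 _)
          (by positivity)

end Pt

end

end SCHT
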