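import Pool.Agent.MP_83fd13_an.SCH.Sin5
import Pool.Agent.MP_83fd13_an.SCH.UFamC

/-!
# [SCH] family: the modes at a fixed `ρ`
-/

set_option autoImplicit false

namespace SCHT

open MeasureTheory Set Filter Topology
open Pool.Agent.SCH SCHB SCHF SCHS SCHG SCHA

noncomputable section

/-- bound of the derivative of the sine kernel operator with weights -/
theorem SV'_abs_le_wt {ρ c C D : ℝ} {f v : ℝ → ℝ} {a b : ℕ} (hρ : 0 < ρ)
    (hf : ∀ s : ℝ, 0 < s → s ≤ 1 → |f s| ≤ C * s ^ a)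
    (hv : ∀ s : ℝ, 0 < s → s ≤ 1 → |v s| ≤ D * s ^ (b + 2)) {r : ℝ} (hr : 0 < r)
    (hr1 : r ≤ 1) :
    |SV' ρ c f v r| ≤ 3 / 2 * ρ * (ρ * C * r ^ a + |c / ρ| * D * r ^ b) * r := by
  have hC : 0 ≤ C := by have := (abs_nonneg _).trans (hf 1 one_pos le_rfl); simpa using this
  have hD : 0 ≤ D := by have := (abs_nonneg _).trans (hv 1 one_pos le_rfl); simpa using this
  set E := ρ * C * r ^ a + |c / ρ| * D * r ^ b with hE
  have hE0 : 0 ≤ E := by positivity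
  have hs : 0 < √r := Real.sqrt_pos.2 hr
  -- bound of the source on `(0, r]`
  have hsrc : ∀ s ∈ Set.uIoc 0 r, |src ρ c f v s| ≤ √r * E := by
    intro s hs'
    rw [Set.uIoc_of_le hr.le] at hs'
    have h1 := src_abs_le (ρ := ρ) (c := c) hf hv (by omega : 2 ≤ b + 2) hs'.1 (hs'.2.trans hr1)
    refine h1.trans ?_
    rw [abs_of_pos hρ, show b + 2 - 2 = b by omega, hE]
    have h2 : √s ≤ √r := Real.sqrt_le_sqrt hs'.2
    have h3 : s ^ a ≤ r ^ a := pow_le_pow_left₀ hs'.1.le hs'.2 a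
    have h4 : s ^ b ≤ r ^ b := pow_le_pow_left₀ hs'.1.le hs'.2 b
    have h5 := pow_nonneg hs'.1.le a
    have h6 := pow_nonneg hs'.1.le b
    gcongr
  have hYs : |Ys ρ (src ρ c f v) r| ≤ ρ * r * (√r * E) * r := by
    unfold Ys
    have := intervalIntegral.norm_integral_le_of_norm_le_const (a := 0) (b := r)
      (f := fun s => Real.sin (ρ * (r - s)) * src ρ c f v s) (C := ρ * r * (√r * E)) (fun s hs' => by
        rw [Real.norm_eq_abs, abs_mul]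
        have h1 := hsrc s hs'
        rw [Set.uIoc_of_le hr.le] at hs'
        have h2 : |Real.sin (ρ * (r - s))| ≤ ρ * r := by
          refine Real.abs_sin_le_abs.trans ?_
          have h3 : 0 ≤ r - s := by linarith [hs'.2]
          rw [abs_of_nonneg (by positivity)]
          exact mul_le_mul_of_nonneg_left (by linarith [hs'.1]) hρ.le
        exact mul_le_mul h2 h1 (abs_nonneg _) (by positivity))
    rwa [Real.norm_eq_abs, sub_zero, abs_of_pos hr] at this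
  have hYc : |Yc ρ (src ρ c f v) r| ≤ √r * E * r := by
    unfold Yc
    have := intervalIntegral.norm_integral_le_of_norm_le_const (a := 0) (b := r)
      (f := fun s => Real.cos (ρ * (r - s)) * src ρ c f v s) (C := √r * E) (fun s hs' => by
        rw [Real.norm_eq_abs, abs_mul]
        calc _ ≤ 1 * |src ρ c f v s| :=
              mul_le_mul_of_nonneg_right (Real.abs_cos_le_one _) (abs_nonneg _)
          _ ≤ _ := by rw [one_mul]; exact hsrc s hs')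
    rwa [Real.norm_eq_abs, sub_zero, abs_of_pos hr] at this
  unfold SV'
  rw [abs_neg, abs_mul, abs_of_pos (inv_pos.2 hs)]
  have h7 : |ρ * Yc ρ (src ρ c f v) r - Ys ρ (src ρ c f v) r / (2 * r)| ≤
      ρ * (√r * E * r) + ρ * (√r * E) * r / 2 := by
    refine (abs_sub _ _).trans ?_
    rw [abs_mul, abs_of_pos hρ, abs_div, abs_of_pos (by positivity : 0 < 2 * r)]
    have h8 : |Ys ρ (src ρ c f v) r| / (2 * r) ≤ ρ * (√r * E) * r / 2 := by
      rw [div_le_iff₀ (by positivity)]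
      refine hYs.trans (le_of_eq ?_)
      ring
    have h9 : ρ * |Yc ρ (src ρ c f v) r| ≤ ρ * (√r * E * r) := mul_le_mul_of_nonneg_left hYc hρ.le
    linarith
  calc (√r)⁻¹ * |ρ * Yc ρ (src ρ c f v) r - Ys ρ (src ρ c f v) r / (2 * r)|
      ≤ (√r)⁻¹ * (ρ * (√r * E * r) + ρ * (√r * E) * r / 2) :=
        mul_le_mul_of_nonneg_left h7 (inv_pos.2 hs).le
    _ = 3 / 2 * ρ * E * r := by field_simp; ring

theorem Gd.cont1 {p : ℕ} {g : ℝ → ℝ → ℝ} (hg : Gd p g) (x : ℝ) : Continuous fun s => g x (cl s) :=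
  hg.1.comp (continuous_const.prodMk continuous_id : Continuous fun s : ℝ => (x, s))

section fixed

variable (ρ α : ℝ) (φ : ℕ → ℝ) (V : ℕ → ℝ → ℝ)

/-- derivatives of `TV` -/
def TV' (k : ℕ) (r : ℝ) : ℝ :=
  match k with
  | 0 => SV' ρ (-1 / 4) (fun s => GG ρ α φ V 0 (cl s)) (fun s => V 0 (cl s)) r
  | 1 => SV' ρ (42 ^ 2 - 1 / 4) (fun s => GG ρ α φ V 1 (cl s)) (fun s => V 1 (cl s)) r
  | k + 2 => ρ ^ 2 * Gr' (42 * (k + 2)) (fun s => SS ρ α φ V (k + 2) (cl s)) r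

/-- the modes -/
def ym (k : ℕ) (r : ℝ) : ℝ :=
  match k with
  | 0 => J 0 (ρ * r) + (XX ρ α φ 0 r + TV ρ α φ V 0 r)
  | 1 => XX ρ α φ 1 r + TV ρ α φ V 1 r
  | k + 2 => XX ρ α φ (k + 2) r + (-(XX ρ α φ (k + 2) 1) * r ^ (42 * (k + 2)) +
      TV ρ α φ V (k + 2) r)

/-- their derivatives -/
def yd (k : ℕ) (r : ℝ) : ℝ :=
  match k with
  | 0 => -ρ * J 1 (ρ * r) + (XXd ρ α φ 0 r + TV' ρ α φ V 0 r)
  | 1 => XXd ρ α φ 1 r + TV' ρ α φ V 1 r
  | k + 2 => XXd ρ α φ (k + 2) r + (-(XX ρ α φ (k + 2) 1) *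
      (((42 * (k + 2) : ℕ) : ℝ) * r ^ (42 * (k + 2)) / r) + TV' ρ α φ V (k + 2) r)

/-- the sources -/
def sr (k : ℕ) (r : ℝ) : ℝ :=
  match k with
  | 0 => ρ ^ 2 * J 0 (ρ * r) + (ρ ^ 2 * (XX ρ α φ 0 r + FF ρ α φ 0 r) +
      (ρ ^ 2 * (TV ρ α φ V 0 r + GG ρ α φ V 0 (cl r)) -
        (-1 / 4) * (V 0 (cl r) - TV ρ α φ V 0 r) / r ^ 2))
  | 1 => ρ ^ 2 * (XX ρ α φ 1 r + FF ρ α φ 1 r) +
      (ρ ^ 2 * (TV ρ α φ V 1 r + GG ρ α φ V 1 (cl r)) -
        (42 ^ 2 - 1 / 4) * (V 1 (cl r) - TV ρ α φ V 1 r) / r ^ 2)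
  | k + 2 => ρ ^ 2 * (XX ρ α φ (k + 2) r + FF ρ α φ (k + 2) r) +
      ρ ^ 2 * SS ρ α φ V (k + 2) (cl r)

variable {ρ α φ V} {C th : ℝ} (H : Pt C th ρ α φ V)
include H

/-- the sources of the Dirichlet modes -/
theorem Dat.contSS (k : ℕ) : Continuous fun s : ℝ => SS ρ α φ V k (cl s) :=
  (H.gSS k).cont1 0

theorem Dat.contGG (k : ℕ) : Continuous fun s : ℝ => GG ρ α φ V k (cl s) :=
  (H.gGG k).cont1 0

theorem Dat.contV (k : ℕ) : Continuous fun s : ℝ => V k (cl s) :=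
  (H.gV k).cont1 0

theorem Dat.wtS {K : ℝ} (hb : ∀ k, ∀ r : ℝ, 0 ≤ r → r ≤ 1 →
    |SS ρ α φ V k r| ≤ K * (((k : ℝ) + 1) * th ^ k * r ^ ev k)) (k : ℕ) :
    Wt (42 * (k + 1)) (K * ((((k + 2 : ℕ) : ℝ) + 1) * th ^ (k + 2)))
      (fun s => SS ρ α φ V (k + 2) (cl s)) := by
  refine ⟨(H.contSS (k + 2)).continuousOn, fun s h0 h1 => ?_⟩
  rw [cl_of_mem h0.le h1]
  have h := hb (k + 2) s h0.le h1
  have e : ev (k + 2) = 42 * (k + 1) := by simp [ev]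
  rw [e] at h
  refine h.trans (le_of_eq ?_)
  ring

theorem Dat.wtG {K : ℝ} (hb : ∀ k, ∀ r : ℝ, 0 ≤ r → r ≤ 1 →
    |GG ρ α φ V k r| ≤ K * (((k : ℝ) + 1) * th ^ k * r ^ ev k)) (k : ℕ) :
    Wt (ev k) (K * (((k : ℝ) + 1) * th ^ k)) (fun s => GG ρ α φ V k (cl s)) := by
  refine ⟨(H.contGG k).continuousOn, fun s h0 h1 => ?_⟩
  rw [cl_of_mem h0.le h1]
  exact (hb k s h0.le h1).trans (le_of_eq (by ring))

theorem Dat.wtV (k : ℕ) : Wt (wt k) (C * th ^ k) (fun s => V k (cl s)) := by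
  refine ⟨(H.contV k).continuousOn, fun s h0 h1 => ?_⟩
  rw [cl_of_mem h0.le h1]
  exact H.bV 0 k s h0.le h1

theorem Dat.rs (h0 : φ 0 = 1) (k : ℕ) :
    RSol (42 * k) (sr ρ α φ V k) (ym ρ α φ V k) (yd ρ α φ V k) := by
  have hρ := (H.R0 0).ne'
  obtain ⟨K1, hK1, b1⟩ := H.bGG h0
  obtain ⟨K2, hK2, b2⟩ := H.bSS h0
  match k with
  | 0 =>
    have hsrc : Continuous (src ρ (-1 / 4) (fun s => GG ρ α φ V 0 (cl s)) (fun s => V 0 (cl s))) :=
      src_continuous_wt (H.wtG b1 0) (H.wtV 0) le_rfl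
    have h := (besselSys.rsol_J0 ρ).add ((XX_rsol (ρ := ρ) (α := α) (φ := φ) 0).add
      (SV_rsol hρ hsrc 0 (by norm_num)))
    exact h
  | 1 =>
    have hsrc : Continuous (src ρ (42 ^ 2 - 1 / 4) (fun s => GG ρ α φ V 1 (cl s))
        (fun s => V 1 (cl s))) := src_continuous_wt (H.wtG b1 1) (H.wtV 1) le_rfl
    have h := (XX_rsol (ρ := ρ) (α := α) (φ := φ) 1).add
      (SV_rsol hρ hsrc 42 (by push_cast; ring))
    exact h
  | k + 2 =>
    exact (dirichlet_mode (n := 42 * (k + 2)) (by omega) (XX_rsol (ρ := ρ) (α := α) (φ := φ)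
      (k + 2)) (H.wtS b2 k)).1

end fixed

end

end SCHT
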