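import Pool.Agent.MP_83fd13_an.SCH.BesJ
import Pool.Agent.MP_83fd13_an.SCH.UFamD

/-!
# [SCH] family: a fixed point of the T-map at a fixed `ρ` gives `SCHG.FP`
-/

set_option autoImplicit false

namespace SCHT

open MeasureTheory Set Filter Topology
open Pool.Agent.SCH SCHB SCHF SCHS SCHG SCHA

noncomputable section

/-- the fixed point equations at a fixed `ρ` -/
structure FxU (ρ α : ℝ) (φ : ℕ → ℝ) (V : ℕ → ℝ → ℝ) : Prop where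
  φ0 : φ 0 = 1
  hV : ∀ k, ∀ r : ℝ, 0 ≤ r → r ≤ 1 → TV ρ α φ V k r = V k r
  hA0 : TA ρ α φ V 0 = α
  hA1 : TA ρ α φ V 1 = φ 1 - eps0 ρ
  hAk : ∀ k, TA ρ α φ V (k + 2) = φ (k + 2)

variable {ρ α : ℝ} {φ : ℕ → ℝ} {V : ℕ → ℝ → ℝ}

section

variable (F : FxU ρ α φ V)
include F

theorem FxU.ym_eq (k : ℕ) {r : ℝ} (h0 : 0 ≤ r) (h1 : r ≤ 1) : ym ρ α φ V k r = uu ρ α φ V k r := by
  match k with
  | 0 =>
    have h := F.hV 0 r h0 h1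
    have e1 : uu ρ α φ V 0 r = XX ρ α φ 0 r + V 0 r + J 0 (ρ * r) := by simp [uu, VV, RR]
    have e2 : ym ρ α φ V 0 r = J 0 (ρ * r) + (XX ρ α φ 0 r + TV ρ α φ V 0 r) := rfl
    rw [e1, e2, h]
    ring
  | 1 =>
    have h := F.hV 1 r h0 h1
    have e1 : uu ρ α φ V 1 r = XX ρ α φ 1 r + V 1 r := by simp [uu, VV, RR]
    have e2 : ym ρ α φ V 1 r = XX ρ α φ 1 r + TV ρ α φ V 1 r := rfl
    rw [e1, e2, h]
  | k + 2 =>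
    have h := F.hV (k + 2) r h0 h1
    have e1 : uu ρ α φ V (k + 2) r = XX ρ α φ (k + 2) r +
        (V (k + 2) r - XX ρ α φ (k + 2) 1 * r ^ (42 * (k + 2))) := by simp [uu, VV, RR]
    have e2 : ym ρ α φ V (k + 2) r = XX ρ α φ (k + 2) r +
        (-(XX ρ α φ (k + 2) 1) * r ^ (42 * (k + 2)) + TV ρ α φ V (k + 2) r) := rfl
    rw [e1, e2, h]
    ring

theorem FxU.sr_eq (k : ℕ) {r : ℝ} (h0 : 0 < r) (h1 : r ≤ 1) :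
    sr ρ α φ V k r = ρ ^ 2 * (uu ρ α φ V k r + FF ρ α φ k r + GG ρ α φ V k r) := by
  have hc := cl_of_mem h0.le h1
  match k with
  | 0 =>
    have h := F.hV 0 r h0.le h1
    have e1 : uu ρ α φ V 0 r = XX ρ α φ 0 r + V 0 r + J 0 (ρ * r) := by simp [uu, VV, RR]
    have e2 : sr ρ α φ V 0 r = ρ ^ 2 * J 0 (ρ * r) + (ρ ^ 2 * (XX ρ α φ 0 r + FF ρ α φ 0 r) +
      (ρ ^ 2 * (TV ρ α φ V 0 r + GG ρ α φ V 0 (cl r)) -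
        (-1 / 4) * (V 0 (cl r) - TV ρ α φ V 0 r) / r ^ 2)) := rfl
    rw [e1, e2, hc, h]
    ring
  | 1 =>
    have h := F.hV 1 r h0.le h1
    have e1 : uu ρ α φ V 1 r = XX ρ α φ 1 r + V 1 r := by simp [uu, VV, RR]
    have e2 : sr ρ α φ V 1 r = ρ ^ 2 * (XX ρ α φ 1 r + FF ρ α φ 1 r) +
      (ρ ^ 2 * (TV ρ α φ V 1 r + GG ρ α φ V 1 (cl r)) -
        (42 ^ 2 - 1 / 4) * (V 1 (cl r) - TV ρ α φ V 1 r) / r ^ 2) := rfl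
    rw [e1, e2, hc, h]
    ring
  | k + 2 =>
    have e1 : uu ρ α φ V (k + 2) r = XX ρ α φ (k + 2) r + RR ρ α φ V (k + 2) r := by
      simp [uu, VV]
    have e2 : sr ρ α φ V (k + 2) r = ρ ^ 2 * (XX ρ α φ (k + 2) r + FF ρ α φ (k + 2) r) +
      ρ ^ 2 * SS ρ α φ V (k + 2) (cl r) := rfl
    rw [e1, e2, hc]
    unfold SS
    ring

theorem FxU.z2 (k : ℕ) : ym ρ α φ V (k + 2) 1 = 0 := by
  have e2 : ym ρ α φ V (k + 2) 1 = XX ρ α φ (k + 2) 1 +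
      (-(XX ρ α φ (k + 2) 1) * 1 ^ (42 * (k + 2)) + ρ ^ 2 * Gr (42 * (k + 2))
        (fun s => SS ρ α φ V (k + 2) (cl s)) 1) := rfl
  rw [e2, Gr_one, one_pow]
  ring

/-- Neumann conditions -/
theorem FxU.n0 (he : eps0 ρ ≠ 0) (hD : D1 J ρ ≠ 0) (h0 : eps0 ρ ^ 2 * D1 J ρ = beta J ρ) :
    yd ρ α φ V 0 1 = 0 := by
  have h := F.hA1
  have e1 : TA ρ α φ V 1 = -(φ 1 - eps0 ρ) ^ 2 / (2 * eps0 ρ) -
      (Da J ρ * α * φ 1 + dd0 ρ α φ V) / (2 * eps0 ρ * D1 J ρ) := rfl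
  rw [e1] at h
  have h2 := eta_eq (ε := φ 1) (ε₀ := eps0 ρ) (η := φ 1 - eps0 ρ) (α := α) (d₀ := dd0 ρ α φ V)
    besselSys (by ring) he hD h0 h.symm
  have e2 : yd ρ α φ V 0 1 = -ρ * J 1 (ρ * 1) + ((φ 1 / 43) ^ 2 * Q0' J ρ 1 +
      α * (φ 1 / 43) * A0' J ρ 1 + dd0 ρ α φ V) := rfl
  rw [e2, h2, mul_one]
  ring

theorem FxU.n1 (hJ : ρ * ((J 41 ρ - J 43 ρ) / 2) ≠ 0) : yd ρ α φ V 1 1 = 0 := by
  have h := F.hA0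
  have e1 : TA ρ α φ V 0 = ((φ 1 / 86) * (ρ ^ 2 * J 0 ρ + 42 * ρ * J 1 ρ) - dd1 ρ α φ V) /
      (ρ * ((J 41 ρ - J 43 ρ) / 2)) := rfl
  rw [e1] at h
  have h2 := alpha_eq (J := J) (ρ := ρ) (ε := φ 1) (α := α) (d₁ := dd1 ρ α φ V)
    (J' := (J 41 ρ - J 43 ρ) / 2) hJ h.symm
  have e2 : yd ρ α φ V 1 1 = φ 1 * PP' J ρ 42 1 + α * (ρ * (J 41 (ρ * 1) - J 43 (ρ * 1)) / 2) +
      dd1 ρ α φ V := rfl
  rw [e2, mul_one]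
  linear_combination h2

theorem FxU.n2 (hρ : ρ ≠ 0) (hJ : J 0 ρ ≠ 0) : yd ρ α φ V 2 1 = 0 := by
  have h := F.hAk 0
  have e1 : TA ρ α φ V (0 + 2) = -(170 / J 0 ρ) *
      ((∫ s in (0:ℝ)..1, s ^ 85 * SS ρ α φ V 2 (cl s)) - ((φ 1 / 43) ^ 2 * ρ ^ 3 * J 1 ρ / 8 -
        α * (φ 1 / 43) * ρ ^ 2 * J 42 ρ / 2) / ρ ^ 2) := rfl
  rw [e1] at h
  have h2 := phi2_eq besselSys (φ := φ 2) (g := φ 1 / 43) (α := α)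
    (I := ∫ s in (0:ℝ)..1, s ^ 85 * SS ρ α φ V 2 (cl s)) hρ hJ h.symm
  have e2 : yd ρ α φ V 2 1 = φ 2 * PP' J ρ 84 1 + (φ 1 / 43) ^ 2 * Q2' J ρ 1 +
      α * (φ 1 / 43) * A2' J ρ 1 + (-(φ 2 * PP J ρ 84 1 + (φ 1 / 43) ^ 2 * Q2 J ρ 1 +
        α * (φ 1 / 43) * A2 J ρ 1) * (((84 : ℕ) : ℝ) * 1 ^ 84 / 1) +
        ρ ^ 2 * Gr' 84 (fun s => SS ρ α φ V 2 (cl s)) 1) := rfl
  rw [e2, Gr'_one]
  push_cast
  rw [one_pow]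
  linear_combination h2

theorem FxU.n3 (hJ : J 0 ρ ≠ 0) (k : ℕ) : yd ρ α φ V (k + 3) 1 = 0 := by
  have h := F.hAk (k + 1)
  have e1 : TA ρ α φ V (k + 1 + 2) = -(2 * ((42 * (k + 3) : ℕ) + 1 : ℝ) / J 0 ρ) *
      ∫ s in (0:ℝ)..1, s ^ (42 * (k + 3) + 1) * SS ρ α φ V (k + 3) (cl s) := rfl
  rw [e1] at h
  have h2 := phi_eq (n := 42 * (k + 3)) (ρ := ρ) (φ := φ (k + 3))
    (I := ∫ s in (0:ℝ)..1, s ^ (42 * (k + 3) + 1) * SS ρ α φ V (k + 3) (cl s)) hJ h.symm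
  have e2 : yd ρ α φ V (k + 3) 1 = φ (k + 3) * PP' J ρ (42 * (k + 3)) 1 +
      (-(φ (k + 3) * PP J ρ (42 * (k + 3)) 1) * (((42 * (k + 3) : ℕ) : ℝ) * 1 ^ (42 * (k + 3)) / 1) +
        ρ ^ 2 * Gr' (42 * (k + 3)) (fun s => SS ρ α φ V (k + 3) (cl s)) 1) := rfl
  rw [e2, Gr'_one, one_pow]
  linear_combination h2

end

/-! ### the constants -/

theorem eps0_facts {ρ : ℝ} (h1 : (54.177 : ℝ) ≤ ρ) (h2 : ρ ≤ 54.1834) :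
    0 < eps0 ρ ∧ 0 < D1 J ρ ∧ eps0 ρ ^ 2 * D1 J ρ = beta J ρ := by
  have hβ := (beta_I h1 h2).1
  have hD := (D1_I h1 h2).1
  have hD' : 0 < D1 J ρ := by
    have e : D1 J ρ = -ρ ^ 2 * J 0 ρ / 86 + ρ ^ 3 * J 1 ρ / 7396 := by unfold D1; ring
    rw [e]
    linarith
  have hβ' : 0 < beta J ρ := by
    unfold beta
    linarith
  have hq : 0 < beta J ρ / D1 J ρ := div_pos hβ' hD'
  refine ⟨Real.sqrt_pos.2 hq, hD', ?_⟩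
  unfold eps0
  rw [Real.sq_sqrt hq.le]
  field_simp

end

end SCHT
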