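import Pool.Agent.MP_83fd13_an.SCH.Asm3
import Pool.Agent.MP_83fd13_an.SCH.UFamE

/-!
# [SCH] family: `SCHG.FP` at a fixed `ρ`
-/

set_option autoImplicit false

namespace SCHT

open MeasureTheory Set Filter Topology
open Pool.Agent.SCH SCHB SCHF SCHS SCHG SCHA

noncomputable section

variable {ρ α : ℝ} {φ : ℕ → ℝ} {V : ℕ → ℝ → ℝ} {C th : ℝ}

theorem wt_two_le (k : ℕ) : 2 ≤ wt k := by
  match k with
  | 0 => exact le_rfl
  | 1 => exact le_rfl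
  | k + 2 =>
    show 2 ≤ 42 * (k + 1)
    omega

/-- bounds of the modes `k ≥ 1` -/
theorem bnd_ym (H : Pt C th ρ α φ V) (F : FxU ρ α φ V) : ∃ K, 0 ≤ K ∧ ∀ k, ∀ r ∈ Ioc (0 : ℝ) 1,
    |ym ρ α φ V (k + 1) r| ≤ K * ((((k + 1 : ℕ) : ℝ) + 1) * th ^ (k + 1)) * r ^ wt (k + 1) := by
  obtain ⟨KX, hKX, bX⟩ := H.bXw
  obtain ⟨KS, hKS, bS⟩ := H.bSS F.φ0
  have hth := H.th0.le
  have hC := H.C0
  refine ⟨2 * KX + C + ρ ^ 2 * KS, by positivity, fun k r hr => ?_⟩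
  have hk : (0:ℝ) ≤ ((k + 1 : ℕ) : ℝ) := Nat.cast_nonneg _
  have hw : 0 ≤ r ^ wt (k + 1) := pow_nonneg hr.1.le _
  have hT : 0 ≤ th ^ (k + 1) := pow_nonneg hth _
  match k with
  | 0 =>
    have e : ym ρ α φ V (0 + 1) r = XX ρ α φ 1 r + V 1 r := by
      rw [← F.hV 1 r hr.1.le hr.2]
      rfl
    have h1 := bX 0 r hr.1 hr.2
    have h2 := H.bV 0 1 r hr.1.le hr.2
    simp only [zero_add] at h1 hw hT ⊢
    rw [e]
    refine (abs_add_le _ _).trans ((add_le_add h1 h2).trans ?_)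
    have e2 : KX * th ^ 1 * r ^ wt 1 + C * th ^ 1 * r ^ wt 1 = (KX + C) * (th ^ 1 * r ^ wt 1) := by
      ring
    rw [e2]
    have h3 : 0 ≤ th ^ 1 * r ^ wt 1 := mul_nonneg hT hw
    have h4 : 0 ≤ ρ ^ 2 * KS := by positivity
    calc (KX + C) * (th ^ 1 * r ^ wt 1) ≤
          ((2 * KX + C + ρ ^ 2 * KS) * (((1 : ℕ) : ℝ) + 1)) * (th ^ 1 * r ^ wt 1) := by
          refine mul_le_mul_of_nonneg_right ?_ h3
          push_cast
          nlinarith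
      _ = _ := by ring
  | k + 1 =>
    have hX : ∀ s ∈ Ioc (0 : ℝ) 1, |XX ρ α φ (k + 2) s| ≤
        KX * th ^ (k + 2) * s ^ (42 * (k + 1)) := fun s hs => bX (k + 1) s hs.1 hs.2
    have hb := (dirichlet_bounds (n := 42 * (k + 2)) (a := 42 * (k + 1)) (m := 40) (ρ := ρ)
      (x := KX * th ^ (k + 2)) (by norm_num) (by ring) (H.wtS bS k) hX
      (X' := fun _ => 0) (x' := 0) (fun s hs => by simp) (by omega)).1 r hr
    have e : ym ρ α φ V (k + 1 + 1) r = XX ρ α φ (k + 2) r + (-(XX ρ α φ (k + 2) 1) *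
        r ^ (42 * (k + 2)) + ρ ^ 2 * Gr (42 * (k + 2)) (fun s => SS ρ α φ V (k + 2) (cl s)) r) := rfl
    rw [e]
    refine hb.trans ?_
    have hw2 : r ^ wt (k + 1 + 1) = r ^ (42 * (k + 1)) := rfl
    rw [hw2]
    refine mul_le_mul_of_nonneg_right ?_ (pow_nonneg hr.1.le _)
    have hT2 : 0 ≤ th ^ (k + 2) := pow_nonneg hth _
    have e3 : ((k + 1 + 1 : ℕ) : ℝ) = ((k + 2 : ℕ) : ℝ) := by norm_num [add_assoc]
    rw [e3]
    have hk2 : (0:ℝ) ≤ ((k + 2 : ℕ) : ℝ) := Nat.cast_nonneg _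
    have h5 : 2 * (KX * th ^ (k + 2)) ≤ (2 * KX + C) * ((((k + 2 : ℕ) : ℝ) + 1) * th ^ (k + 2)) := by
      have : 0 ≤ (2 * KX * ((k + 2 : ℕ) : ℝ) + C * (((k + 2 : ℕ) : ℝ) + 1)) * th ^ (k + 2) := by
        positivity
      nlinarith
    calc 2 * (KX * th ^ (k + 2)) + ρ ^ 2 * (KS * ((((k + 2 : ℕ) : ℝ) + 1) * th ^ (k + 2)))
        ≤ (2 * KX + C) * ((((k + 2 : ℕ) : ℝ) + 1) * th ^ (k + 2)) +
          ρ ^ 2 * (KS * ((((k + 2 : ℕ) : ℝ) + 1) * th ^ (k + 2))) := by linarith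
      _ = _ := by ring

/-- bounds of the derivatives of all modes -/
theorem bnd_yd (H : Pt C th ρ α φ V) (F : FxU ρ α φ V) : ∃ K, 0 ≤ K ∧ ∀ k, ∀ r ∈ Ioc (0 : ℝ) 1,
    |yd ρ α φ V k r| ≤ K * (((k : ℝ) + 1) * th ^ k) * r ^ (wt k - 1) := by
  obtain ⟨KX, hKX, bX⟩ := H.bXw
  obtain ⟨KX', hKX', bX'⟩ := H.bX'
  obtain ⟨KS, hKS, bS⟩ := H.bSS F.φ0
  obtain ⟨KG, hKG, bG⟩ := H.bGG F.φ0
  have hth := H.th0
  have hC := H.C0
  have hρ := H.R0 0
  have hρ1 := H.R1 0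
  set W0 := 3 / 2 * ρ * (ρ * KG + |(-1 / 4) / ρ| * C) with hW0
  set W1 := 3 / 2 * ρ * (ρ * (2 * KG) + |(42 ^ 2 - 1 / 4) / ρ| * C) with hW1
  have hW0' : 0 ≤ W0 := by positivity
  have hW1' : 0 ≤ W1 := by positivity
  refine ⟨3025 + KX' + W0 + W1 + 42 * KX + 2 * (ρ ^ 2 * KS), by positivity, fun k r hr => ?_⟩
  have hr0 := hr.1.le
  match k with
  | 0 =>
    have e : yd ρ α φ V 0 r = -ρ * J 1 (ρ * r) + (XXd ρ α φ 0 r +
        SV' ρ (-1 / 4) (fun s => GG ρ α φ V 0 (cl s)) (fun s => V 0 (cl s)) r) := rfl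
    rw [e]
    have h1 : |-ρ * J 1 (ρ * r)| ≤ 3025 * r := by
      rw [abs_mul, abs_neg, abs_of_pos hρ]
      have := Jr_le hρ hρ1 hr.1 hr.2 0
      have h2 : ρ * |J 1 (ρ * r)| ≤ 55 * (55 * r) := mul_le_mul hρ1 this (abs_nonneg _) (by norm_num)
      linarith
    have h2 : |XXd ρ α φ 0 r| ≤ KX' * r := by
      have := bX' 0 r hr.1 hr.2
      have e2 : wt 0 - 1 = 1 := rfl
      rw [e2, pow_zero, mul_one, pow_one] at this
      exact this
    have h3 : |SV' ρ (-1 / 4) (fun s => GG ρ α φ V 0 (cl s)) (fun s => V 0 (cl s)) r| ≤ W0 * r := by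
      have := SV'_abs_le_wt (ρ := ρ) (c := -1 / 4) (a := 0) (b := 0) (C := KG) (D := C) hρ
        (f := fun s => GG ρ α φ V 0 (cl s)) (v := fun s => V 0 (cl s))
        (fun s h0 h1 => by
          have := (H.wtG bG 0).bound s h0 h1
          simpa [ev] using this)
        (fun s h0 h1 => by
          have := (H.wtV 0).bound s h0 h1
          simpa [wt] using this) hr.1 hr.2
      refine this.trans (le_of_eq ?_)
      rw [hW0]
      simp only [pow_zero, mul_one]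
    have e2 : wt 0 - 1 = 1 := rfl
    rw [e2, pow_one, pow_zero, mul_one]
    refine (abs_add_le _ _).trans ((add_le_add h1 ((abs_add_le _ _).trans (add_le_add h2 h3))).trans ?_)
    push_cast
    have h4 : 0 ≤ (W1 + 42 * KX + 2 * (ρ ^ 2 * KS)) * r := by positivity
    linarith
  | 1 =>
    have e : yd ρ α φ V 1 r = XXd ρ α φ 1 r +
        SV' ρ (42 ^ 2 - 1 / 4) (fun s => GG ρ α φ V 1 (cl s)) (fun s => V 1 (cl s)) r := rfl
    rw [e]
    have h2 : |XXd ρ α φ 1 r| ≤ KX' * th * r := by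
      have := bX' 1 r hr.1 hr.2
      have e2 : wt 1 - 1 = 1 := rfl
      rw [e2, pow_one, pow_one] at this
      exact this
    have h3 : |SV' ρ (42 ^ 2 - 1 / 4) (fun s => GG ρ α φ V 1 (cl s)) (fun s => V 1 (cl s)) r| ≤
        W1 * th * r := by
      have := SV'_abs_le_wt (ρ := ρ) (c := 42 ^ 2 - 1 / 4) (a := 0) (b := 0) (C := 2 * KG * th)
        (D := C * th) hρ
        (f := fun s => GG ρ α φ V 1 (cl s)) (v := fun s => V 1 (cl s))
        (fun s h0 h1 => by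
          have := (H.wtG bG 1).bound s h0 h1
          have e3 : ev 1 = 0 := rfl
          rw [e3] at this
          refine this.trans (le_of_eq ?_)
          push_cast
          ring)
        (fun s h0 h1 => by
          have := (H.wtV 1).bound s h0 h1
          simpa [wt] using this) hr.1 hr.2
      refine this.trans (le_of_eq ?_)
      rw [hW1]
      simp only [pow_zero, mul_one]
      ring
    have e2 : wt 1 - 1 = 1 := rfl
    rw [e2, pow_one, pow_one]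
    refine (abs_add_le _ _).trans ((add_le_add h2 h3).trans ?_)
    push_cast
    have h4 : 0 ≤ (6050 + KX' + 2 * W0 + W1 + 84 * KX + 4 * (ρ ^ 2 * KS)) * (th * r) := by positivity
    nlinarith
  | k + 2 =>
    have hX : ∀ s ∈ Ioc (0 : ℝ) 1, |XX ρ α φ (k + 2) s| ≤
        KX * th ^ (k + 2) * s ^ (42 * (k + 1)) := fun s hs => bX (k + 1) s hs.1 hs.2
    have hX' : ∀ s ∈ Ioc (0 : ℝ) 1, |XXd ρ α φ (k + 2) s| ≤
        KX' * th ^ (k + 2) * s ^ (42 * (k + 1) - 1) := fun s hs => bX' (k + 2) s hs.1 hs.2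
    have hb := (dirichlet_bounds (n := 42 * (k + 2)) (a := 42 * (k + 1)) (m := 40) (ρ := ρ)
      (by norm_num) (by ring) (H.wtS bS k) hX hX' (by omega)).2 r hr
    have e : yd ρ α φ V (k + 2) r = XXd ρ α φ (k + 2) r + (-(XX ρ α φ (k + 2) 1) *
        (((42 * (k + 2) : ℕ) : ℝ) * r ^ (42 * (k + 2)) / r) +
        ρ ^ 2 * Gr' (42 * (k + 2)) (fun s => SS ρ α φ V (k + 2) (cl s)) r) := rfl
    rw [e]
    refine hb.trans ?_
    have hw2 : r ^ (wt (k + 2) - 1) = r ^ (42 * (k + 1) - 1) := rfl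
    rw [hw2]
    refine mul_le_mul_of_nonneg_right ?_ (pow_nonneg hr.1.le _)
    have hT2 : 0 ≤ th ^ (k + 2) := pow_nonneg hth.le _
    have hk2 : (0:ℝ) ≤ ((k + 2 : ℕ) : ℝ) := Nat.cast_nonneg _
    set n : ℝ := ((k + 2 : ℕ) : ℝ) with hn
    have e4 : ((42 * (k + 2) : ℕ) : ℝ) = 42 * n := by rw [hn]; push_cast; ring
    rw [e4]
    set T := th ^ (k + 2) with hTdef
    have h5 : KX' * T ≤ KX' * ((n + 1) * T) := by
      have : 0 ≤ KX' * (n * T) := by positivity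
      linarith
    have h6 : 42 * n * (KX * T) ≤ 42 * KX * ((n + 1) * T) := by
      have : 0 ≤ 42 * KX * T := by positivity
      linarith
    have h7 : 0 ≤ (3025 + W0 + W1) * ((n + 1) * T) := by positivity
    linarith

/-- bounds of the sources -/
theorem bnd_sr (H : Pt C th ρ α φ V) (F : FxU ρ α φ V) : ∃ K, 0 ≤ K ∧ ∀ k, ∀ r ∈ Ioc (0 : ℝ) 1,
    |sr ρ α φ V k r| ≤ K * (((k : ℝ) + 1) * th ^ k) := by
  obtain ⟨K1, hK1, b1⟩ := H.buu
  obtain ⟨K2, hK2, b2⟩ := H.bFF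
  obtain ⟨K3, hK3, b3⟩ := H.bGG F.φ0
  have hth := H.th0.le
  refine ⟨ρ ^ 2 * (K1 + K2 + K3), by positivity, fun k r hr => ?_⟩
  rw [F.sr_eq k hr.1 hr.2, abs_mul, abs_of_nonneg (sq_nonneg ρ)]
  have hr0 := hr.1.le
  have hk : (0:ℝ) ≤ k := Nat.cast_nonneg k
  have p1 : (r ^ 42) ^ (k - 1) ≤ 1 := pow_le_one₀ (pow_nonneg hr0 _) (pow_le_one₀ hr0 hr.2)
  have p2 : r ^ ev k ≤ 1 := pow_le_one₀ hr0 hr.2
  have hT : 0 ≤ th ^ k := pow_nonneg hth k
  have h1 : |uu ρ α φ V k r| ≤ K1 * th ^ k := (b1 k r hr0 hr.2).trans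
    (mul_le_mul_of_nonneg_left (mul_le_of_le_one_right hT p1) hK1)
  have h2 : |FF ρ α φ k r| ≤ K2 * th ^ k := (b2 k r hr0 hr.2).trans
    (mul_le_mul_of_nonneg_left (mul_le_of_le_one_right hT p2) hK2)
  have h3 : |GG ρ α φ V k r| ≤ K3 * (((k : ℝ) + 1) * th ^ k) := (b3 k r hr0 hr.2).trans
    (mul_le_mul_of_nonneg_left (mul_le_of_le_one_right (by positivity) p2) hK3)
  have h4 : |uu ρ α φ V k r + FF ρ α φ k r + GG ρ α φ V k r| ≤
      (K1 + K2 + K3) * (((k : ℝ) + 1) * th ^ k) := by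
    refine (abs_add_le _ _).trans ((add_le_add ((abs_add_le _ _).trans (add_le_add h1 h2)) h3).trans ?_)
    have : 0 ≤ (K1 + K2) * (k * th ^ k) := by positivity
    nlinarith
  calc _ ≤ ρ ^ 2 * ((K1 + K2 + K3) * (((k : ℝ) + 1) * th ^ k)) :=
        mul_le_mul_of_nonneg_left h4 (sq_nonneg ρ)
    _ = _ := by ring

theorem Dat.contXX (H : Pt C th ρ α φ V) (k : ℕ) : Continuous fun s : ℝ => XX ρ α φ k (cl s) :=
  (H.uXX.gd H.th0.le k).cont1 0

theorem XX_zero_zero : XX ρ α φ 0 0 = 0 := by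
  have e : XX ρ α φ 0 0 = (φ 1 / 43) ^ 2 * Q0 J ρ 0 + α * (φ 1 / 43) * A0 J ρ 0 := rfl
  rw [e]
  unfold Q0 A0
  simp

theorem ym_zero_zero (H : Pt C th ρ α φ V) (F : FxU ρ α φ V) : ym ρ α φ V 0 0 = 1 := by
  rw [F.ym_eq 0 le_rfl zero_le_one]
  have e1 : uu ρ α φ V 0 0 = XX ρ α φ 0 0 + V 0 0 + J 0 (ρ * 0) := by simp [uu, VV, RR]
  have h := H.bV 0 0 0 le_rfl zero_le_one
  have e2 : (0:ℝ) ^ wt 0 = 0 := by simp [wt]
  rw [e2, mul_zero] at h
  have h2 : V 0 0 = 0 := abs_eq_zero.1 (le_antisymm h (abs_nonneg _))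
  rw [e1, XX_zero_zero, h2, mul_zero, J_zero_zero]
  ring

/-- **a fixed point at `ρ` gives `FP`** -/
theorem FP_pt (H : Pt C th ρ α φ V) (F : FxU ρ α φ V) (h1 : (54.177 : ℝ) ≤ ρ) (h2 : ρ ≤ 54.1834) :
    ∃ u u' u'' : ℕ → ℝ → ℝ, ∃ B : ℕ → ℝ, FP 42 ρ φ u u' u'' B ∧
      (∀ k, ∀ r : ℝ, 0 < r → u k r = ym ρ α φ V k r) ∧ u 0 0 = 1 := by
  obtain ⟨KY, hKY, bY⟩ := bnd_ym H F
  obtain ⟨KZ, hKZ, bZ⟩ := bnd_yd H F
  obtain ⟨KF, hKF, bF⟩ := bnd_sr H F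
  obtain ⟨KU, hKU, bU⟩ := H.buu
  have hth := H.th0.le
  have hρ := H.R0 0
  -- constants
  set K := KY + KZ + KF + KU with hK
  have hK0 : 0 ≤ K := by positivity
  have mono : ∀ a : ℝ, a ≤ K → ∀ k : ℕ, a * (((k : ℝ) + 1) * th ^ k) ≤
      K * (((k : ℝ) + 1) * th ^ k) := fun a ha k =>
    mul_le_mul_of_nonneg_right ha (mul_nonneg (by positivity) (pow_nonneg hth k))
  have hS : Summable fun k : ℕ => ((42 * k : ℕ) : ℝ) ^ 2 * (K * (((k : ℝ) + 1) * th ^ k)) +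
      (((42 * k : ℕ) : ℝ) + 1) * (K * (((k : ℝ) + 1) * th ^ k)) + K * (((k : ℝ) + 1) * th ^ k) +
      K * (((k : ℝ) + 1) * th ^ k) := by
    refine Summable.of_nonneg_of_le (fun k => by positivity) (fun k => ?_)
      ((summable_cube_mul hth H.th1).mul_left (K * 2000))
    have hk : (0:ℝ) ≤ k := Nat.cast_nonneg k
    have hT : 0 ≤ K * th ^ k := by positivity
    push_cast
    have e : (42 * (k : ℝ)) ^ 2 * (K * (((k : ℝ) + 1) * th ^ k)) +
        (42 * (k : ℝ) + 1) * (K * (((k : ℝ) + 1) * th ^ k)) + K * (((k : ℝ) + 1) * th ^ k) +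
        K * (((k : ℝ) + 1) * th ^ k) =
        ((1764 * (k : ℝ) ^ 2 + 42 * k + 3) * ((k : ℝ) + 1)) * (K * th ^ k) := by ring
    have e2 : K * 2000 * (((k : ℝ) + 1) ^ 3 * th ^ k) =
        (2000 * ((k : ℝ) + 1) ^ 2 * ((k : ℝ) + 1)) * (K * th ^ k) := by ring
    rw [e, e2]
    refine mul_le_mul_of_nonneg_right (mul_le_mul_of_nonneg_right ?_ (by positivity)) hT
    nlinarith
  obtain ⟨he, hD, hβ⟩ := eps0_facts h1 h2
  have hJ0 : J 0 ρ ≠ 0 := by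
    have := (J0_I h1 h2).2
    intro h
    rw [h] at this
    norm_num at this
  have hJJ : ρ * ((J 41 ρ - J 43 ρ) / 2) ≠ 0 := by
    have a := (J41_I h1 h2).1
    have b := (J43_I h1 h2).2
    have : 0 < ρ * ((J 41 ρ - J 43 ρ) / 2) := mul_pos hρ (by linarith)
    exact this.ne'
  have hsrc : ∀ k : ℕ, ∀ r ∈ Ioo (0 : ℝ) 1, sr ρ α φ V k r =
      ρ ^ 2 * ∑' i : ℤ, MM 42 φ i.natAbs r * ym ρ α φ V ((k : ℤ) - i).natAbs r := by
    intro k r hr
    have e : ∀ i : ℤ, MM 42 φ i.natAbs r * ym ρ α φ V ((k : ℤ) - i).natAbs r =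
        MM 42 φ i.natAbs r * uu ρ α φ V ((k : ℤ) - i).natAbs r := fun i => by
      rw [F.ym_eq _ hr.1.le hr.2.le]
    obtain ⟨B, hB⟩ := H.buu1 hr.1.le hr.2.le
    rw [tsum_congr e, conv_eq F.φ0 H.φs hr.1.le hr.2.le (H.qqs hr.1.le hr.2.le) hB k,
      F.sr_eq k hr.1 hr.2.le]
  have hn : ∀ k, yd ρ α φ V k 1 = 0 := by
    intro k
    match k with
    | 0 => exact F.n0 he.ne' hD.ne' hβ
    | 1 => exact F.n1 hJJ
    | 2 => exact F.n2 hρ.ne' hJ0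
    | k + 3 => exact F.n3 hJ0 k
  have hc0 : ContinuousWithinAt (ym ρ α φ V 0) (Icc 0 1) 0 := by
    have h3 : Continuous fun r : ℝ => XX ρ α φ 0 (cl r) + V 0 (cl r) + J 0 (ρ * r) :=
      ((H.contXX 0).add (H.contV 0)).add ((continuous_J 0).comp (continuous_const.mul continuous_id))
    have h4 : ∀ r ∈ Icc (0 : ℝ) 1, ym ρ α φ V 0 r =
        XX ρ α φ 0 (cl r) + V 0 (cl r) + J 0 (ρ * r) := by
      intro r hr
      rw [F.ym_eq 0 hr.1 hr.2, cl_of_mem hr.1 hr.2]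
      simp [uu, VV, RR]
    exact h3.continuousAt.continuousWithinAt.congr h4 (h4 0 (by simp))
  obtain ⟨u, u', u'', B, hFP, hu, hu0⟩ := FP_of_RSol (N := 42) (ρ := ρ) (φ := φ) (by norm_num) hρ F.φ0
    H.φs (y := ym ρ α φ V) (y' := yd ρ α φ V) (s := sr ρ α φ V) (fun k => H.rs F.φ0 k)
    (a := wt) wt_two_le (A := fun k => K * (((k : ℝ) + 1) * th ^ k))
    (A' := fun k => K * (((k : ℝ) + 1) * th ^ k)) (F := fun k => K * (((k : ℝ) + 1) * th ^ k))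
    (fun k r hr => (bY k r hr).trans (mul_le_mul_of_nonneg_right
      (mono KY (by linarith) (k + 1)) (pow_nonneg hr.1.le _)))
    (fun k r hr => (bZ (k + 1) r hr).trans (mul_le_mul_of_nonneg_right
      (mono KZ (by linarith) (k + 1)) (pow_nonneg hr.1.le _)))
    (fun k r hr => (bF k r hr).trans (mono KF (by linarith) k))
    hc0
    (fun r hr => by
      rw [F.ym_eq 0 hr.1.le hr.2]
      have := bU 0 r hr.1.le hr.2
      simp only [pow_zero, Nat.zero_sub, mul_one, Nat.cast_zero, zero_add] at this ⊢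
      linarith)
    (fun r hr => by
      have := bZ 0 r hr
      have e2 : wt 0 - 1 = 1 := rfl
      rw [e2, pow_one] at this
      refine this.trans (mul_le_mul_of_nonneg_right (mono KZ (by linarith) 0) hr.1.le))
    hS hsrc hn
  exact ⟨u, u', u'', B, hFP, hu, hu0.trans (ym_zero_zero H F)⟩

end

end SCHT
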