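import Pool.Agent.MP_83fd13_an.SCH.BesJ
import Pool.Agent.MP_83fd13_an.SCH.Exp2

/-!
# [SCH] pointwise bounds of the explicit parts `PP`, `Q0`, `A0`, `Q2`, `A2`, `J_42`

`ρ ∈ [54.178, 54.1833]`, `0 ≤ s ≤ 1`, `R = s^42`. From helper19's Bessel bounds.
-/

set_option autoImplicit false

namespace SCHV

open Pool.Agent.SCH SCHB

section

variable {ρ : ℝ} (h1 : 54.178 ≤ ρ) (h2 : ρ ≤ 54.1833)
include h1 h2

/-- `|J_1(ρ)| ≤ .000825` -/
theorem absJ1 : |J 1 ρ| ≤ 0.000825 := by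
  have h := J1_I (ρ := ρ) (by linarith) (by linarith)
  rw [abs_le] at h ⊢
  constructor <;> linarith [h.1, h.2]

/-- `|J_42(ρ)| ≤ .000473` -/
theorem absJ42 : |J 42 ρ| ≤ 0.000473 := by
  have h := J42_I (ρ := ρ) (by linarith) (by linarith)
  rw [abs_le] at h ⊢
  constructor <;> linarith [h.1, h.2]

theorem absJ2 : |J 2 ρ| ≤ 0.108424 := by
  have h := J2_I (ρ := ρ) (by linarith) (by linarith)
  rw [abs_le]
  constructor <;> linarith [h.1, h.2]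

theorem absJ41 : |J 41 ρ| ≤ 0.086257 := by
  have h := J41_I (ρ := ρ) (by linarith) (by linarith)
  rw [abs_le]
  constructor <;> linarith [h.1, h.2]

theorem absJ43 : |J 43 ρ| ≤ 0.086723 := by
  have h := J43_I (ρ := ρ) (by linarith) (by linarith)
  rw [abs_le]
  constructor <;> linarith [h.1, h.2]

/-! ### `J_42`, `J_0` -/

theorem J42_a {s : ℝ} (hs : 0 ≤ s) (hs1 : s ≤ 1) : |J 42 (ρ * s)| ≤ 0.196 :=
  (J_mid (by linarith) (by linarith) hs hs1).2.1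

theorem J42_b {s : ℝ} (hs : 0 ≤ s) (hs1 : s ≤ 1) :
    |J 42 (ρ * s)| ≤ 0.000473 + 4.75 * (1 - s) :=
  (J42_lin (by linarith) (by linarith) hs hs1).trans (by linarith [absJ42 h1 h2])

/-- `s^(m+1) |J_0(ρ s)| ≤ .10843 s^m`, more precisely `s^(m+1/2)` -/
theorem J0_pow {s : ℝ} (hs : 0 ≤ s) (hs1 : s ≤ 1) (m : ℕ) :
    s ^ (m + 1) * |J 0 (ρ * s)| ≤ 0.10843 * s ^ m := by
  have h := rJ0_le' (ρ := ρ) (by linarith) (by linarith) hs hs1
  have : s ^ (m + 1) * |J 0 (ρ * s)| = s ^ m * (s * |J 0 (ρ * s)|) := by ring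
  rw [this, mul_comm (0.10843 : ℝ)]
  exact mul_le_mul_of_nonneg_left h (pow_nonneg hs m)

/-! ### `PP` -/

omit h1 h2 in
theorem PP_eq (n : ℕ) (s : ℝ) : PP J ρ n s = -(ρ / (2 * (n + 1))) * (s ^ n * (s * J 1 (ρ * s))) := by
  unfold PP
  have hn : (n : ℝ) + 1 ≠ 0 := by positivity
  field_simp

/-- `|PP n| ≤ 2.938632/(n+1) s^n` -/
theorem PP_a (n : ℕ) {s : ℝ} (hs : 0 ≤ s) (hs1 : s ≤ 1) :
    |PP J ρ n s| ≤ 2.938632 / (n + 1) * s ^ n := by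
  have hn : (0 : ℝ) < (n : ℝ) + 1 := by positivity
  have hρ : 0 < ρ := by linarith
  rw [PP_eq, abs_mul, abs_neg, abs_of_pos (by positivity), abs_mul, abs_of_nonneg (pow_nonneg hs n),
    abs_mul, abs_of_nonneg hs]
  have h := rJ1_le (ρ := ρ) (by linarith) (by linarith) hs hs1
  have hsn := pow_nonneg hs n
  have e : ρ / (2 * ((n : ℝ) + 1)) * (s ^ n * (s * |J 1 (ρ * s)|)) =
      (ρ / 2 * (s * |J 1 (ρ * s)|)) * (s ^ n / (n + 1)) := by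
    field_simp
  rw [e, show 2.938632 / ((n : ℝ) + 1) * s ^ n = 2.938632 * (s ^ n / (n + 1)) by ring]
  refine mul_le_mul_of_nonneg_right ?_ (by positivity)
  nlinarith [abs_nonneg (J 1 (ρ * s))]

/-- `|PP n| ≤ (.022351 + 159.191 (1-s))/(n+1) s^n` -/
theorem PP_b (n : ℕ) {s : ℝ} (hs : 0 ≤ s) (hs1 : s ≤ 1) :
    |PP J ρ n s| ≤ (0.022351 + 159.191 * (1 - s)) / (n + 1) * s ^ n := by
  have hn : (0 : ℝ) < (n : ℝ) + 1 := by positivity
  have hρ : 0 < ρ := by linarith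
  rw [PP_eq, abs_mul, abs_neg, abs_of_pos (by positivity), abs_mul, abs_of_nonneg (pow_nonneg hs n)]
  have h := rJ1_sub (ρ := ρ) (by linarith) (by linarith) hs hs1
  have h' : |s * J 1 (ρ * s)| ≤ 0.000825 + 5.876 * (1 - s) := by
    have h3 := abs_add_le (J 1 ρ) (s * J 1 (ρ * s) - J 1 ρ)
    rw [add_sub_cancel] at h3
    linarith [absJ1 h1 h2]
  have e : ρ / (2 * ((n : ℝ) + 1)) * (s ^ n * |s * J 1 (ρ * s)|) =
      (ρ / 2 * |s * J 1 (ρ * s)|) * (s ^ n / (n + 1)) := by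
    field_simp
  rw [e, show (0.022351 + 159.191 * (1 - s)) / ((n : ℝ) + 1) * s ^ n =
    (0.022351 + 159.191 * (1 - s)) * (s ^ n / (n + 1)) by ring]
  refine mul_le_mul_of_nonneg_right ?_ (by have := pow_nonneg hs n; positivity)
  nlinarith [abs_nonneg (s * J 1 (ρ * s))]

theorem PP_one (n : ℕ) : |PP J ρ n 1| ≤ 0.022351 / (n + 1) := by
  have h := PP_b h1 h2 n zero_le_one le_rfl
  simpa using h

/-- `|PP n - PP n(1) s^n| ≤ 159.191/(n+1) s^n (1 - s)` -/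
theorem PP_sub (n : ℕ) {s : ℝ} (hs : 0 ≤ s) (hs1 : s ≤ 1) :
    |PP J ρ n s - PP J ρ n 1 * s ^ n| ≤ 159.191 / (n + 1) * (s ^ n * (1 - s)) := by
  have hn : (0 : ℝ) < (n : ℝ) + 1 := by positivity
  have hρ : 0 < ρ := by linarith
  have h := rJ1_sub (ρ := ρ) (by linarith) (by linarith) hs hs1
  have e : PP J ρ n s - PP J ρ n 1 * s ^ n =
      -(ρ / (2 * (n + 1))) * (s ^ n * (s * J 1 (ρ * s) - J 1 ρ)) := by
    rw [PP_eq, PP_eq]
    simp only [one_pow, mul_one, one_mul]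
    ring
  have hsn := pow_nonneg hs n
  rw [e, abs_mul, abs_neg, abs_of_pos (by positivity), abs_mul, abs_of_nonneg hsn]
  have e2 : ρ / (2 * ((n : ℝ) + 1)) * (s ^ n * |s * J 1 (ρ * s) - J 1 ρ|) =
      (ρ / 2 * |s * J 1 (ρ * s) - J 1 ρ|) * (s ^ n / (n + 1)) := by
    field_simp
  rw [e2, show 159.191 / ((n : ℝ) + 1) * (s ^ n * (1 - s)) =
    159.191 * (1 - s) * (s ^ n / (n + 1)) by ring]
  refine mul_le_mul_of_nonneg_right ?_ (by positivity)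
  nlinarith [abs_nonneg (s * J 1 (ρ * s) - J 1 ρ)]

/-- the same in the weight `R^k (1 - R)`: `|PP (42(k+1)) - ..| ≤ 3.7903/(42(k+1)+1) R^k (1 - R)` -/
theorem PP_sub' (k : ℕ) {s : ℝ} (hs : 0 ≤ s) (hs1 : s ≤ 1) :
    |PP J ρ (42 * (k + 1)) s - PP J ρ (42 * (k + 1)) 1 * s ^ (42 * (k + 1))| ≤
      3.790262 / (42 * (k + 1) + 1) * (s ^ (42 * k) * (1 - s ^ 42)) := by
  have h := PP_sub h1 h2 (42 * (k + 1)) hs hs1
  have h3 := R_one_sub hs hs1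
  have h4 : s ^ (42 * (k + 1)) * (1 - s) ≤ s ^ (42 * k) * ((1 - s ^ 42) / 42) := by
    have e : s ^ (42 * (k + 1)) * (1 - s) = s ^ (42 * k) * (s ^ 42 * (1 - s)) := by
      rw [show 42 * (k + 1) = 42 * k + 42 by ring, pow_add]
      ring
    rw [e]
    exact mul_le_mul_of_nonneg_left h3 (pow_nonneg hs _)
  push_cast at h
  refine h.trans ?_
  have h5 : (0 : ℝ) ≤ s ^ (42 * k) * (1 - s ^ 42) := by
    have := pow_nonneg hs (42 * k)
    have h6 : s ^ 42 ≤ 1 := pow_le_one₀ hs hs1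
    exact mul_nonneg this (by linarith)
  calc 159.191 / (42 * ((k : ℝ) + 1) + 1) * (s ^ (42 * (k + 1)) * (1 - s))
      ≤ 159.191 / (42 * ((k : ℝ) + 1) + 1) * (s ^ (42 * k) * ((1 - s ^ 42) / 42)) :=
        mul_le_mul_of_nonneg_left h4 (by positivity)
    _ = (159.191 / 42) / (42 * ((k : ℝ) + 1) + 1) * (s ^ (42 * k) * (1 - s ^ 42)) := by ring
    _ ≤ _ := by
        refine mul_le_mul_of_nonneg_right ?_ h5
        refine div_le_div_of_nonneg_right (by norm_num) (by positivity)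

/-! ### the second order parts -/

omit h1 h2 in
/-- `Q0 = -R² (x²/4) J_0(x)` -/
theorem Q0_eq (s : ℝ) : Q0 J ρ s = -(s ^ 84 * ((ρ * s) ^ 2 / 4) * J 0 (ρ * s)) := by
  unfold Q0
  have h := J_rec 0 (ρ * s)
  simp only [Nat.cast_zero, zero_add, mul_one] at h
  linear_combination (s ^ 84 * (ρ * s) / 4) * h

/-- `|Q0|/43² ≤ .043042 R² s` -/
theorem Q0_a {s : ℝ} (hs : 0 ≤ s) (hs1 : s ≤ 1) : |Q0 J ρ s| ≤ 79.584 * s ^ 85 := by
  have hρ : 0 < ρ := by linarith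
  have h := rJ0_le' (ρ := ρ) (by linarith) (by linarith) hs hs1
  have h85 := pow_nonneg hs 85
  have h0' : 0 ≤ s ^ 84 * ((ρ * s) ^ 2 / 4) := mul_nonneg (pow_nonneg hs 84) (by positivity)
  rw [Q0_eq, abs_neg, abs_mul, abs_of_nonneg h0']
  have e : s ^ 84 * ((ρ * s) ^ 2 / 4) * |J 0 (ρ * s)| =
      (ρ ^ 2 / 4 * (s * |J 0 (ρ * s)|)) * s ^ 85 := by ring
  rw [e]
  refine mul_le_mul_of_nonneg_right ?_ h85
  have hρ2 : ρ ^ 2 ≤ 2935.8301 := by nlinarith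
  have h0 : 0 ≤ s * |J 0 (ρ * s)| := by positivity
  calc ρ ^ 2 / 4 * (s * |J 0 (ρ * s)|) ≤ 2935.8301 / 4 * 0.10843 := by gcongr
    _ ≤ 79.584 := by norm_num

/-- `|A0| ≤ 10.62 R s` -/
theorem A0_a {s : ℝ} (hs : 0 ≤ s) (hs1 : s ≤ 1) : |A0 J ρ s| ≤ 10.62 * s ^ 43 := by
  have hρ : 0 < ρ := by linarith
  have h := (J_mid (ρ := ρ) (r := s) (by linarith) (by linarith) hs hs1).2.2
  unfold A0
  rw [abs_neg, abs_mul, abs_of_nonneg (by positivity)]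
  have e : s ^ 42 * (ρ * s) * |J 43 (ρ * s)| = (ρ * |J 43 (ρ * s)|) * s ^ 43 := by ring
  rw [e]
  refine mul_le_mul_of_nonneg_right ?_ (pow_nonneg hs 43)
  calc ρ * |J 43 (ρ * s)| ≤ 54.1833 * 0.196 := by gcongr
    _ ≤ 10.62 := by norm_num

/-- `|Q2 - Q2(1) R²| ≤ 2157.1 R² (1-s)` -/
theorem Q2_sub {s : ℝ} (hs : 0 ≤ s) (hs1 : s ≤ 1) :
    |Q2 J ρ s - Q2 J ρ 1 * s ^ 84| ≤ 2157.102 * (s ^ 84 * (1 - s)) := by
  have hρ : 0 < ρ := by linarith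
  have h := r2J2_sub (ρ := ρ) (by linarith) (by linarith) hs hs1
  have e : Q2 J ρ s - Q2 J ρ 1 * s ^ 84 =
      (ρ ^ 2 / 8 * (s ^ 2 * J 2 (ρ * s) - J 2 ρ)) * s ^ 84 := by
    unfold Q2
    simp only [one_pow, mul_one, one_mul]
    ring
  have h84 := pow_nonneg hs 84
  rw [e, abs_mul, abs_of_nonneg h84, abs_mul, abs_of_nonneg (by positivity)]
  rw [show 2157.102 * (s ^ 84 * (1 - s)) = 2157.102 * (1 - s) * s ^ 84 by ring]
  refine mul_le_mul_of_nonneg_right ?_ h84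
  have hρ2 : ρ ^ 2 ≤ 2935.8301 := by nlinarith
  have h3 : 0 ≤ 1 - s := by linarith
  calc ρ ^ 2 / 8 * |s ^ 2 * J 2 (ρ * s) - J 2 ρ| ≤ 2935.8301 / 8 * (5.878 * (1 - s)) := by gcongr
    _ ≤ 2157.102 * (1 - s) := by nlinarith

theorem Q2_sub' {s : ℝ} (hs : 0 ≤ s) (hs1 : s ≤ 1) :
    |Q2 J ρ s - Q2 J ρ 1 * s ^ 84| ≤ 51.3597 * (s ^ 42 * (1 - s ^ 42)) := by
  have h := Q2_sub h1 h2 hs hs1
  have h3 := R_one_sub hs hs1
  have hR := pow_nonneg hs 42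
  have h4 : s ^ 84 * (1 - s) ≤ s ^ 42 * ((1 - s ^ 42) / 42) := by
    have e : s ^ 84 * (1 - s) = s ^ 42 * (s ^ 42 * (1 - s)) := by ring
    rw [e]
    exact mul_le_mul_of_nonneg_left h3 hR
  have h5 : 0 ≤ s ^ 42 * (1 - s ^ 42) := by
    have h6 : s ^ 42 ≤ 1 := pow_le_one₀ hs hs1
    exact mul_nonneg hR (by linarith)
  linarith

theorem Q2_one : |Q2 J ρ 1| ≤ 39.7894 := by
  have hρ : 0 < ρ := by linarith
  have h := absJ2 h1 h2
  have e : Q2 J ρ 1 = ρ ^ 2 / 8 * J 2 ρ := by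
    unfold Q2
    simp only [one_pow, mul_one, one_mul]
  rw [e, abs_mul, abs_of_nonneg (by positivity)]
  have hρ2 : ρ ^ 2 ≤ 2935.8301 := by nlinarith
  calc ρ ^ 2 / 8 * |J 2 ρ| ≤ 2935.8301 / 8 * 0.108424 := by gcongr
    _ ≤ 39.7894 := by norm_num

/-- `|A2 - A2(1) R²| ≤ 10.8367 R (1-R)` -/
theorem A2_sub {s : ℝ} (hs : 0 ≤ s) (hs1 : s ≤ 1) :
    |A2 J ρ s - A2 J ρ 1 * s ^ 84| ≤ 10.8367 * (s ^ 42 * (1 - s ^ 42)) := by
  have hρ : 0 < ρ := by linarith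
  have h := rJ41_sub (ρ := ρ) (by linarith) (by linarith) hs hs1
  have e : A2 J ρ s - A2 J ρ 1 * s ^ 84 =
      (ρ / 2 * (s * J 41 (ρ * s) - s ^ 42 * J 41 ρ)) * s ^ 42 := by
    unfold A2
    simp only [one_pow, mul_one, one_mul]
    ring
  have h42 := pow_nonneg hs 42
  rw [e, abs_mul, abs_of_nonneg h42, abs_mul, abs_of_nonneg (by positivity)]
  rw [show 10.8367 * (s ^ 42 * (1 - s ^ 42)) = 10.8367 * (1 - s ^ 42) * s ^ 42 by ring]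
  refine mul_le_mul_of_nonneg_right ?_ h42
  have h3 : 0 ≤ 1 - s ^ 42 := by
    have h6 : s ^ 42 ≤ 1 := pow_le_one₀ hs hs1
    linarith
  calc ρ / 2 * |s * J 41 (ρ * s) - s ^ 42 * J 41 ρ| ≤ 54.1833 / 2 * (0.4 * (1 - s ^ 42)) := by
        gcongr
    _ ≤ 10.8367 * (1 - s ^ 42) := by nlinarith

theorem A2_one : |A2 J ρ 1| ≤ 2.33685 := by
  have hρ : 0 < ρ := by linarith
  have h := absJ41 h1 h2
  have e : A2 J ρ 1 = ρ / 2 * J 41 ρ := by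
    unfold A2
    simp only [one_pow, mul_one, one_mul]
  rw [e, abs_mul, abs_of_nonneg (by positivity)]
  calc ρ / 2 * |J 41 ρ| ≤ 54.1833 / 2 * 0.086257 := by gcongr
    _ ≤ 2.33685 := by norm_num

end

end SCHV
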