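import Pool.Agent.MP_83fd13_an.SCH.VH2
import Pool.Agent.MP_83fd13_an.SCH.PMaj

/-!
# [SCH] majorants of `hX`, `hR`, `hV` in the list format of `PMaj.lean`

`ρ ∈ [54.178, 54.1833]`, `0 ≤ s ≤ 1`. Suffix `a`: plain, `b`: with `(1 - s)`, `c`: with `(1 - R)`.
-/

set_option autoImplicit false

namespace SCHV

open Pool.Agent.SCH SCHB SCHT

noncomputable section

variable {ρ M s : ℝ}

/-! ### tables of the explicit functions (units of `10⁻⁸`) -/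

def tQ0 : PL := .fix ⟨[0, 0, 4304200], [], []⟩
def tA0 : PL := .fix ⟨[0, 24697700], [], []⟩
def tPa : PL := .fix ⟨[0, 6834100], [], []⟩
def tPb : PL := .fix ⟨[0, 52000], [0, 370211700], []⟩
def tJa : PL := .fix ⟨[19600000], [], []⟩
def tJb : PL := .fix ⟨[47300], [475000000], []⟩
/-- `PP 84 - PP 84 (1) R²` -/
def tP2c : PL := .fix ⟨[], [], [0, 4459200]⟩
def tP2b : PL := .fix ⟨[], [0, 0, 187283600], []⟩
/-- `(Q2 - Q2(1) R²)/43²` -/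
def tQ2c : PL := .fix ⟨[], [], [0, 2777800]⟩
def tQ2b : PL := .fix ⟨[], [0, 0, 116663200], []⟩
/-- `(A2 - A2(1) R²)/43` -/
def tA2c : PL := .fix ⟨[], [], [0, 25201700]⟩
def tP1 : PL := .cst 26300
def tQ1 : PL := .cst 2152000
def tA1 : PL := .cst 5434600

section

variable (h1 : 54.178 ≤ ρ) (h2 : ρ ≤ 54.1833) (hs : 0 ≤ s) (hs1 : s ≤ 1)
include h1 h2 hs hs1

theorem TJ_Q0 : TJ M s tQ0 (Q0 J ρ s / 43 ^ 2) (Q0 J ρ s / 43 ^ 2) := by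
  refine TJ.fix ?_
  have h84 : 0 ≤ s ^ 84 := pow_nonneg hs _
  have e85 : s ^ 85 ≤ s ^ 84 := pow_le_pow_of_le_one hs hs1 (by norm_num)
  have h := Q0_a h1 h2 hs hs1
  rw [abs_div, abs_of_nonneg (by norm_num : (0 : ℝ) ≤ 43 ^ 2), div_le_iff₀ (by norm_num)]
  simp only [TL.ev, Ev, UU]
  push_cast
  have e : s ^ 42 * (s ^ 42 * (4304200 / 100000000)) = 0.043042 * s ^ 84 := by ring
  nlinarith

theorem TJ_A0 : TJ M s tA0 (A0 J ρ s / 43) (A0 J ρ s / 43) := by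
  refine TJ.fix ?_
  have h42 : 0 ≤ s ^ 42 := pow_nonneg hs _
  have e43 : s ^ 43 ≤ s ^ 42 := pow_le_pow_of_le_one hs hs1 (by norm_num)
  have h := A0_a h1 h2 hs hs1
  rw [abs_div, abs_of_nonneg (by norm_num : (0 : ℝ) ≤ 43), div_le_iff₀ (by norm_num)]
  simp only [TL.ev, Ev, UU]
  push_cast
  nlinarith

theorem TJ_Pa : TJ M s tPa (PP J ρ 42 s) (PP J ρ 42 s) := by
  refine TJ.fix ?_
  have h := PP42_a h1 h2 hs hs1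
  simp only [TL.ev, Ev, UU]
  push_cast
  linarith

theorem TJ_Pb : TJ M s tPb (PP J ρ 42 s) (PP J ρ 42 s) := by
  refine TJ.fix ?_
  have h := PP42_b h1 h2 hs hs1
  simp only [TL.ev, Ev, UU]
  push_cast
  nlinarith

theorem TJ_Ja : TJ M s tJa (J 42 (ρ * s)) (J 42 (ρ * s)) := by
  refine TJ.fix ?_
  have h := J42_a h1 h2 hs hs1
  simp only [TL.ev, Ev, UU]
  push_cast
  linarith

theorem TJ_Jb : TJ M s tJb (J 42 (ρ * s)) (J 42 (ρ * s)) := by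
  refine TJ.fix ?_
  have h := J42_b h1 h2 hs hs1
  simp only [TL.ev, Ev, UU]
  push_cast
  linarith

theorem TJ_P2c : TJ M s tP2c (PP J ρ 84 s - PP J ρ 84 1 * s ^ 84)
    (PP J ρ 84 s - PP J ρ 84 1 * s ^ 84) := by
  refine TJ.fix ?_
  have h := PP_sub' h1 h2 1 hs hs1
  have hw : 0 ≤ s ^ 42 * (1 - s ^ 42) :=
    mul_nonneg (pow_nonneg hs 42) (sub_nonneg.2 (pow_le_one₀ hs hs1))
  norm_num at h
  simp only [TL.ev, Ev, UU]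
  push_cast
  nlinarith

theorem TJ_P2b : TJ M s tP2b (PP J ρ 84 s - PP J ρ 84 1 * s ^ 84)
    (PP J ρ 84 s - PP J ρ 84 1 * s ^ 84) := by
  refine TJ.fix ?_
  have h := PP_sub h1 h2 84 hs hs1
  have hw : 0 ≤ s ^ 84 * (1 - s) := mul_nonneg (pow_nonneg hs 84) (sub_nonneg.2 hs1)
  push_cast at h
  simp only [TL.ev, Ev, UU]
  push_cast
  have e : (1 - s) * (0 / 100000000 + s ^ 42 * (0 / 100000000 + s ^ 42 *
      (187283600 / 100000000 + s ^ 42 * 0))) = 1.872836 * (s ^ 84 * (1 - s)) := by ring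
  have e2 : 159.191 / ((84 : ℝ) + 1) * (s ^ 84 * (1 - s)) ≤ 1.872836 * (s ^ 84 * (1 - s)) :=
    mul_le_mul_of_nonneg_right (by norm_num) hw
  linarith

theorem TJ_Q2c : TJ M s tQ2c ((Q2 J ρ s - Q2 J ρ 1 * s ^ 84) / 43 ^ 2)
    ((Q2 J ρ s - Q2 J ρ 1 * s ^ 84) / 43 ^ 2) := by
  refine TJ.fix ?_
  have h := Q2_sub' h1 h2 hs hs1
  have hw : 0 ≤ s ^ 42 * (1 - s ^ 42) :=
    mul_nonneg (pow_nonneg hs 42) (sub_nonneg.2 (pow_le_one₀ hs hs1))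
  rw [abs_div, abs_of_nonneg (by norm_num : (0 : ℝ) ≤ 43 ^ 2), div_le_iff₀ (by norm_num)]
  simp only [TL.ev, Ev, UU]
  push_cast
  nlinarith

theorem TJ_Q2b : TJ M s tQ2b ((Q2 J ρ s - Q2 J ρ 1 * s ^ 84) / 43 ^ 2)
    ((Q2 J ρ s - Q2 J ρ 1 * s ^ 84) / 43 ^ 2) := by
  refine TJ.fix ?_
  have h := Q2_sub h1 h2 hs hs1
  have hw : 0 ≤ s ^ 84 * (1 - s) := mul_nonneg (pow_nonneg hs 84) (sub_nonneg.2 hs1)
  rw [abs_div, abs_of_nonneg (by norm_num : (0 : ℝ) ≤ 43 ^ 2), div_le_iff₀ (by norm_num)]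
  simp only [TL.ev, Ev, UU]
  push_cast
  have e : (1 - s) * (0 / 100000000 + s ^ 42 * (0 / 100000000 + s ^ 42 *
      (116663200 / 100000000 + s ^ 42 * 0))) = 1.166632 * (s ^ 84 * (1 - s)) := by ring
  linarith

theorem TJ_A2c : TJ M s tA2c ((A2 J ρ s - A2 J ρ 1 * s ^ 84) / 43)
    ((A2 J ρ s - A2 J ρ 1 * s ^ 84) / 43) := by
  refine TJ.fix ?_
  have h := A2_sub h1 h2 hs hs1
  have hw : 0 ≤ s ^ 42 * (1 - s ^ 42) :=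
    mul_nonneg (pow_nonneg hs 42) (sub_nonneg.2 (pow_le_one₀ hs hs1))
  rw [abs_div, abs_of_nonneg (by norm_num : (0 : ℝ) ≤ 43), div_le_iff₀ (by norm_num)]
  simp only [TL.ev, Ev, UU]
  push_cast
  nlinarith

omit hs hs1 in
theorem TJ_P1 : TJ M s tP1 (PP J ρ 84 1) (PP J ρ 84 1) :=
  TJ.cst ((PP_one h1 h2 84).trans (by unfold UU; norm_num))

omit hs hs1 in
theorem TJ_Q1 : TJ M s tQ1 (Q2 J ρ 1 / 43 ^ 2) (Q2 J ρ 1 / 43 ^ 2) := by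
  refine TJ.cst ?_
  rw [abs_div, abs_of_nonneg (by norm_num : (0 : ℝ) ≤ 43 ^ 2), div_le_iff₀ (by norm_num)]
  exact (Q2_one h1 h2).trans (by unfold UU; norm_num)

omit hs hs1 in
theorem TJ_A1 : TJ M s tA1 (A2 J ρ 1 / 43) (A2 J ρ 1 / 43) := by
  refine TJ.cst ?_
  rw [abs_div, abs_of_nonneg (by norm_num : (0 : ℝ) ≤ 43), div_le_iff₀ (by norm_num)]
  exact (A2_one h1 h2).trans (by unfold UU; norm_num)

end

/-! ### the pairs of `hX`, `hR`, `hV` -/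

section

variable {u a b : ℝ} {f g : ℕ → ℝ} {U W : ℕ → ℝ → ℝ} {pa p1 p2 pu q : PL} (D : ℕ)

/-- `hX 0` -/
def pX0 (pa p1 : PL) : PL :=
  ((PL.mulD D (PL.mulD D p1 p1) tQ0)).add (PL.mulD D (PL.mulD D pa p1) tA0)

/-- `hX 1` from tables `tP`, `tJ` of `PP 42`, `J_42` (form a: `tPa tJa`, form b: `tPb tJb`) -/
def pX1 (tP tJ pa p1 : PL) : PL := (PL.mulD D p1 tP).add (PL.mulD D pa tJ)

/-- `hX 2 - hX 2 (1) R²` from tables of the three functions (`tP2c tQ2c tA2c`) -/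
def pX2 (tP tQ tA pa p1 p2 : PL) : PL :=
  ((PL.mulD D p2 tP).add (PL.mulD D (PL.mulD D p1 p1) tQ)).add (PL.mulD D (PL.mulD D pa p1) tA)

/-- `hV 0` -/
def pV0 (pu pa p1 q : PL) : PL := (pX0 D pa p1).add (PL.mulD D pu q)

/-- `hV 1` -/
def pV1 (tP tJ pu pa p1 q : PL) : PL := (pX1 D tP tJ pa p1).add (PL.mulD D pu q)

/-- `hV 2` -/
def pV2 (tP tQ tA pa p1 p2 q : PL) : PL := (pX2 D tP tQ tA pa p1 p2).add q

variable {D} (h1 : 54.178 ≤ ρ) (h2 : ρ ≤ 54.1833) (hM : 0 ≤ M) (hs : 0 ≤ s) (hs1 : s ≤ 1)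

include hM hs hs1

include h1 h2 in
theorem TJ_hX0 (ha : TJ M s pa a b) (hf : TJ M s p1 (f 1) (g 1)) :
    TJ M s (pX0 D pa p1) (hX ρ a f 0 s) (hX ρ b g 0 s) := by
  have hff := TJ.mul hM hs hs1 D hf hf
  have haf := TJ.mul hM hs hs1 D ha hf
  refine ((TJ.mul hM hs hs1 D hff (TJ_Q0 h1 h2 hs hs1)).add
    (TJ.mul hM hs hs1 D haf (TJ_A0 h1 h2 hs hs1))).congr ?_ ?_
  · unfold hX; ring
  · unfold hX; ring

include h1 h2 in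
theorem TJ_hV0 (hu : TJ M s pu u u) (ha : TJ M s pa a b) (hf : TJ M s p1 (f 1) (g 1))
    (hU : TJ M s q (U 0 s) (W 0 s)) :
    TJ M s (pV0 D pu pa p1 q) (hV ρ u a f U 0 s) (hV ρ u b g W 0 s) :=
  (TJ_hX0 h1 h2 hM hs hs1 ha hf).add (TJ.mul hM hs hs1 D hu hU)

theorem TJ_hX1 {tP tJ : PL} (hP : TJ M s tP (PP J ρ 42 s) (PP J ρ 42 s))
    (hJ : TJ M s tJ (J 42 (ρ * s)) (J 42 (ρ * s)))
    (ha : TJ M s pa a b) (hf : TJ M s p1 (f 1) (g 1)) :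
    TJ M s (pX1 D tP tJ pa p1) (hX ρ a f 1 s) (hX ρ b g 1 s) :=
  (TJ.mul hM hs hs1 D hf hP).add (TJ.mul hM hs hs1 D ha hJ)

theorem TJ_hV1 {tP tJ : PL} (hP : TJ M s tP (PP J ρ 42 s) (PP J ρ 42 s))
    (hJ : TJ M s tJ (J 42 (ρ * s)) (J 42 (ρ * s)))
    (hu : TJ M s pu u u) (ha : TJ M s pa a b) (hf : TJ M s p1 (f 1) (g 1))
    (hU : TJ M s q (U 1 s) (W 1 s)) :
    TJ M s (pV1 D tP tJ pu pa p1 q) (hV ρ u a f U 1 s) (hV ρ u b g W 1 s) :=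
  (TJ_hX1 hM hs hs1 hP hJ ha hf).add (TJ.mul hM hs hs1 D hu hU)

include h1 h2 in
/-- form a -/
theorem TJ_hV1a (hu : TJ M s pu u u) (ha : TJ M s pa a b) (hf : TJ M s p1 (f 1) (g 1))
    (hU : TJ M s q (U 1 s) (W 1 s)) :
    TJ M s (pV1 D tPa tJa pu pa p1 q) (hV ρ u a f U 1 s) (hV ρ u b g W 1 s) :=
  TJ_hV1 hM hs hs1 (TJ_Pa h1 h2 hs hs1) (TJ_Ja h1 h2 hs hs1) hu ha hf hU

include h1 h2 in
/-- form b -/
theorem TJ_hV1b (hu : TJ M s pu u u) (ha : TJ M s pa a b) (hf : TJ M s p1 (f 1) (g 1))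
    (hU : TJ M s q (U 1 s) (W 1 s)) :
    TJ M s (pV1 D tPb tJb pu pa p1 q) (hV ρ u a f U 1 s) (hV ρ u b g W 1 s) :=
  TJ_hV1 hM hs hs1 (TJ_Pb h1 h2 hs hs1) (TJ_Jb h1 h2 hs hs1) hu ha hf hU

theorem TJ_hV2 {tP tQ tA : PL}
    (hP : TJ M s tP (PP J ρ 84 s - PP J ρ 84 1 * s ^ 84) (PP J ρ 84 s - PP J ρ 84 1 * s ^ 84))
    (hQ : TJ M s tQ ((Q2 J ρ s - Q2 J ρ 1 * s ^ 84) / 43 ^ 2)
      ((Q2 J ρ s - Q2 J ρ 1 * s ^ 84) / 43 ^ 2))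
    (hA : TJ M s tA ((A2 J ρ s - A2 J ρ 1 * s ^ 84) / 43)
      ((A2 J ρ s - A2 J ρ 1 * s ^ 84) / 43))
    (ha : TJ M s pa a b) (hf : TJ M s p1 (f 1) (g 1)) (hf2 : TJ M s p2 (f 2) (g 2))
    (hU : TJ M s q (U 2 s) (W 2 s)) :
    TJ M s (pV2 D tP tQ tA pa p1 p2 q) (hV ρ u a f U 2 s) (hV ρ u b g W 2 s) := by
  have hff := TJ.mul hM hs hs1 D hf hf
  have haf := TJ.mul hM hs hs1 D ha hf
  refine ((((TJ.mul hM hs hs1 D hf2 hP).add (TJ.mul hM hs hs1 D hff hQ)).add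
    (TJ.mul hM hs hs1 D haf hA)).add hU).congr ?_ ?_
  · rw [hV2_eq]; ring
  · rw [hV2_eq]; ring

include h1 h2 in
theorem TJ_hV2c (ha : TJ M s pa a b) (hf : TJ M s p1 (f 1) (g 1)) (hf2 : TJ M s p2 (f 2) (g 2))
    (hU : TJ M s q (U 2 s) (W 2 s)) :
    TJ M s (pV2 D tP2c tQ2c tA2c pa p1 p2 q) (hV ρ u a f U 2 s) (hV ρ u b g W 2 s) :=
  TJ_hV2 hM hs hs1 (TJ_P2c h1 h2 hs hs1) (TJ_Q2c h1 h2 hs hs1) (TJ_A2c h1 h2 hs hs1) ha hf hf2 hU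

include h1 h2 in
theorem TJ_hV2b (ha : TJ M s pa a b) (hf : TJ M s p1 (f 1) (g 1)) (hf2 : TJ M s p2 (f 2) (g 2))
    (hU : TJ M s q (U 2 s) (W 2 s)) :
    TJ M s (pV2 D tP2b tQ2b tA2c pa p1 p2 q) (hV ρ u a f U 2 s) (hV ρ u b g W 2 s) :=
  TJ_hV2 hM hs hs1 (TJ_P2b h1 h2 hs hs1) (TJ_Q2b h1 h2 hs hs1) (TJ_A2c h1 h2 hs hs1) ha hf hf2 hU

/-- `hX 2 (1)` -/
def pE2 (D : ℕ) (pa p1 p2 : PL) : PL :=
  ((PL.mulD D p2 tP1).add (PL.mulD D (PL.mulD D p1 p1) tQ1)).add (PL.mulD D (PL.mulD D pa p1) tA1)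

include h1 h2 in
theorem TJ_hX2_one (ha : TJ M s pa a b) (hf : TJ M s p1 (f 1) (g 1))
    (hf2 : TJ M s p2 (f 2) (g 2)) :
    TJ M s (pE2 D pa p1 p2) (hX ρ a f 2 1) (hX ρ b g 2 1) := by
  have hff := TJ.mul hM hs hs1 D hf hf
  have haf := TJ.mul hM hs hs1 D ha hf
  refine (((TJ.mul hM hs hs1 D hf2 (TJ_P1 h1 h2)).add (TJ.mul hM hs hs1 D hff (TJ_Q1 h1 h2))).add
    (TJ.mul hM hs hs1 D haf (TJ_A1 h1 h2))).congr ?_ ?_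
  · unfold hX; ring
  · unfold hX; ring

include h1 h2 in
/-- `hR 2 = U 2 - hX 2 (1) R²` -/
theorem TJ_hR2 (ha : TJ M s pa a b) (hf : TJ M s p1 (f 1) (g 1))
    (hf2 : TJ M s p2 (f 2) (g 2)) (hU : TJ M s q (U 2 s) (W 2 s)) :
    TJ M s (q.add (pE2 D pa p1 p2).shift.shift) (hR ρ u a f U 2 s) (hR ρ u b g W 2 s) := by
  refine (TJ.sub hU (TJ.mulR hs (TJ.mulR hs
    (TJ_hX2_one (D := D) h1 h2 hM hs hs1 ha hf hf2)))).congr ?_ ?_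
  · unfold hR; ring
  · unfold hR; ring

end

end

end SCHV
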