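import Mathlib

set_option autoImplicit false

/-!
# Vector valued contraction principle with a parameter (project SCH)

`K` is a non-negative matrix, `v > 0` a vector with `K v ≤ κ v`, `κ < 1`; `T` maps the closed set `S`
to itself and satisfies `dist (T x i) (T y i) ≤ ∑ j, K i j * dist (x j) (y j)`.
-/

namespace Pool.Agent.SCH

open Set Filter Topology

section frame

variable {ι : Type*} [Fintype ι] {X : ι → Type*} [∀ i, MetricSpace (X i)]

/-- one step of the estimate -/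
theorem vec_step {K : ι → ι → ℝ} (hK : ∀ i j, 0 ≤ K i j) {v : ι → ℝ} {κ : ℝ}
    (hKv : ∀ i, ∑ j, K i j * v j ≤ κ * v i) {x y x' y' : ∀ i, X i} {M : ℝ} (hM : 0 ≤ M)
    (hlip : ∀ i, dist (x' i) (y' i) ≤ ∑ j, K i j * dist (x j) (y j))
    (h : ∀ i, dist (x i) (y i) ≤ M * v i) (i : ι) : dist (x' i) (y' i) ≤ κ * M * v i := by
  calc dist (x' i) (y' i) ≤ ∑ j, K i j * dist (x j) (y j) := hlip i
    _ ≤ ∑ j, K i j * (M * v j) :=
        Finset.sum_le_sum fun j _ => mul_le_mul_of_nonneg_left (h j) (hK i j)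
    _ = M * ∑ j, K i j * v j := by
        rw [Finset.mul_sum]; exact Finset.sum_congr rfl fun j _ => by ring
    _ ≤ M * (κ * v i) := mul_le_mul_of_nonneg_left (hKv i) hM
    _ = κ * M * v i := by ring

/-- a bound `dist (x i) (y i) ≤ M v i` always exists -/
theorem exists_vec_bound {v : ι → ℝ} (hv : ∀ i, 0 < v i) (x y : ∀ i, X i) :
    ∃ M : ℝ, 0 ≤ M ∧ ∀ i, dist (x i) (y i) ≤ M * v i := by
  refine ⟨∑ i, dist (x i) (y i) / v i, Finset.sum_nonneg fun i _ => div_nonneg dist_nonneg (hv i).le,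
    fun i => ?_⟩
  have h : dist (x i) (y i) / v i ≤ ∑ i, dist (x i) (y i) / v i :=
    Finset.single_le_sum (f := fun i => dist (x i) (y i) / v i)
      (fun i _ => div_nonneg dist_nonneg (hv i).le) (Finset.mem_univ i)
  calc dist (x i) (y i) = dist (x i) (y i) / v i * v i := by
        rw [div_mul_cancel₀ _ (hv i).ne']
    _ ≤ _ := mul_le_mul_of_nonneg_right h (hv i).le

/-- comparison of a point `x` with `x' = T x`-type estimates:
`e ≤ K e + δ v` implies `e ≤ δ / (1 - κ) v` -/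
theorem vec_compare {K : ι → ι → ℝ} (hK : ∀ i j, 0 ≤ K i j) {v : ι → ℝ} (hv : ∀ i, 0 < v i)
    {κ : ℝ} (hκ : κ < 1) (hKv : ∀ i, ∑ j, K i j * v j ≤ κ * v i)
    {e : ι → ℝ} {δ : ℝ} (hδ : 0 ≤ δ) (h : ∀ i, e i ≤ ∑ j, K i j * e j + δ * v i) (i : ι) :
    e i ≤ δ / (1 - κ) * v i := by
  have h1κ : 0 < 1 - κ := by linarith
  obtain ⟨k, _, hk⟩ := Finset.exists_max_image Finset.univ (fun i => e i / v i)
    ⟨i, Finset.mem_univ i⟩
  set M := e k / v k with hM
  have hle : ∀ j, e j ≤ M * v j := by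
    intro j
    have := hk j (Finset.mem_univ j)
    calc e j = e j / v j * v j := by rw [div_mul_cancel₀ _ (hv j).ne']
      _ ≤ M * v j := mul_le_mul_of_nonneg_right this (hv j).le
  -- the sum is bounded by `max M 0 * κ v`
  have hsum : ∀ i, ∑ j, K i j * e j ≤ max M 0 * (κ * v i) := by
    intro i
    calc ∑ j, K i j * e j ≤ ∑ j, K i j * (max M 0 * v j) :=
          Finset.sum_le_sum fun j _ => mul_le_mul_of_nonneg_left
            ((hle j).trans (mul_le_mul_of_nonneg_right (le_max_left _ _) (hv j).le)) (hK i j)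
      _ = max M 0 * ∑ j, K i j * v j := by
          rw [Finset.mul_sum]; exact Finset.sum_congr rfl fun j _ => by ring
      _ ≤ _ := mul_le_mul_of_nonneg_left (hKv i) (le_max_right _ _)
  have hMk : M ≤ max M 0 * κ + δ := by
    have h2 : e k ≤ (max M 0 * κ + δ) * v k := by
      have := (h k).trans (add_le_add (hsum k) le_rfl)
      linarith
    rw [hM, div_le_iff₀ (hv k)]
    exact h2
  have hMδ : M ≤ δ / (1 - κ) := by
    rw [le_div_iff₀ h1κ]
    rcases le_total M 0 with h0 | h0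
    · rw [max_eq_right h0, zero_mul, zero_add] at hMk
      exact (mul_nonpos_of_nonpos_of_nonneg h0 h1κ.le).trans hδ
    · rw [max_eq_left h0] at hMk
      linarith
  exact (hle i).trans (mul_le_mul_of_nonneg_right hMδ (hv i).le)

theorem vec_fixed [∀ i, CompleteSpace (X i)] {S : Set (∀ i, X i)} (hS : IsClosed S)
    (hne : S.Nonempty) {T : (∀ i, X i) → ∀ i, X i} (hT : ∀ x ∈ S, T x ∈ S)
    {K : ι → ι → ℝ} (hK : ∀ i j, 0 ≤ K i j) {v : ι → ℝ} (hv : ∀ i, 0 < v i)
    {κ : ℝ} (hκ0 : 0 ≤ κ) (hκ : κ < 1) (hKv : ∀ i, ∑ j, K i j * v j ≤ κ * v i)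
    (hlip : ∀ x ∈ S, ∀ y ∈ S, ∀ i, dist (T x i) (T y i) ≤ ∑ j, K i j * dist (x j) (y j)) :
    ∃ x ∈ S, T x = x ∧ ∀ y ∈ S, T y = y → y = x := by
  obtain ⟨x0, hx0⟩ := hne
  let u : ℕ → ∀ i, X i := fun n => T^[n] x0
  have hu : ∀ n, u n ∈ S := by
    intro n
    induction n with
    | zero => exact hx0
    | succ n ih =>
      have : u (n + 1) = T (u n) := Function.iterate_succ_apply' T n x0
      rw [this]; exact hT _ ih
  have hsucc : ∀ n, u (n + 1) = T (u n) := fun n => Function.iterate_succ_apply' T n x0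
  obtain ⟨M, hM0, hM⟩ := exists_vec_bound hv (u 0) (u 1)
  have hgeo : ∀ n i, dist (u n i) (u (n + 1) i) ≤ M * v i * κ ^ n := by
    intro n
    induction n with
    | zero => intro i; simpa using hM i
    | succ n ih =>
      intro i
      have h1 : ∀ i, dist (u n i) (u (n + 1) i) ≤ (M * κ ^ n) * v i := fun i =>
        (ih i).trans (le_of_eq (by ring))
      have h2 := vec_step hK hKv (mul_nonneg hM0 (pow_nonneg hκ0 n))
        (hlip (u n) (hu n) (u (n + 1)) (hu (n + 1))) h1 i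
      rw [← hsucc, ← hsucc] at h2
      refine h2.trans (le_of_eq ?_)
      rw [pow_succ]; ring
  have hc : ∀ i, CauchySeq (fun n => u n i) := fun i =>
    cauchySeq_of_le_geometric κ (M * v i) hκ (fun n => hgeo n i)
  choose x hx using fun i => cauchySeq_tendsto_of_complete (hc i)
  have hlim : Tendsto u atTop (𝓝 x) := tendsto_pi_nhds.2 hx
  have hxS : x ∈ S := hS.mem_of_tendsto hlim (Eventually.of_forall hu)
  have hfix : T x = x := by
    funext i
    have h1 : Tendsto (fun n => dist (T (u n) i) (T x i)) atTop (𝓝 0) := by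
      have hb : Tendsto (fun n => ∑ j, K i j * dist (u n j) (x j)) atTop (𝓝 0) := by
        have : Tendsto (fun n => ∑ j, K i j * dist (u n j) (x j)) atTop
            (𝓝 (∑ j : ι, K i j * 0)) :=
          tendsto_finsetSum _ fun j _ => ((tendsto_iff_dist_tendsto_zero.1 (hx j))).const_mul _
        simpa using this
      exact squeeze_zero (fun n => dist_nonneg) (fun n => hlip _ (hu n) _ hxS i) hb
    have h2 : Tendsto (fun n => u (n + 1) i) atTop (𝓝 (T x i)) := by
      rw [tendsto_iff_dist_tendsto_zero]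
      simpa only [hsucc] using h1
    exact tendsto_nhds_unique h2 ((hx i).comp (tendsto_add_atTop_nat 1))
  refine ⟨x, hxS, hfix, fun y hy hyT => ?_⟩
  funext i
  have h3 : ∀ i, dist (y i) (x i) ≤ ∑ j, K i j * dist (y j) (x j) + 0 * v i := by
    intro i
    have := hlip y hy x hxS i
    rw [hyT, hfix] at this
    linarith
  have h4 := vec_compare hK hv hκ hKv (e := fun i => dist (y i) (x i)) le_rfl h3 i
  simp only [zero_div, zero_mul] at h4
  exact dist_le_zero.1 h4

/-- fixed point depending on a parameter -/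
theorem vec_fixed_param [∀ i, CompleteSpace (X i)] {P : Type*} [TopologicalSpace P] {P0 : Set P}
    {S : Set (∀ i, X i)} (hS : IsClosed S) (hne : S.Nonempty)
    {T : P → (∀ i, X i) → ∀ i, X i} (hT : ∀ p ∈ P0, ∀ x ∈ S, T p x ∈ S)
    {K : ι → ι → ℝ} (hK : ∀ i j, 0 ≤ K i j) {v : ι → ℝ} (hv : ∀ i, 0 < v i)
    {κ : ℝ} (hκ0 : 0 ≤ κ) (hκ : κ < 1) (hKv : ∀ i, ∑ j, K i j * v j ≤ κ * v i)
    (hlip : ∀ p ∈ P0, ∀ x ∈ S, ∀ y ∈ S, ∀ i,
      dist (T p x i) (T p y i) ≤ ∑ j, K i j * dist (x j) (y j))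
    (hcont : ∀ x ∈ S, ∀ i, ContinuousOn (fun p => T p x i) P0) :
    ∃ x : P → ∀ i, X i, (∀ p ∈ P0, x p ∈ S ∧ T p (x p) = x p) ∧ ContinuousOn x P0 := by
  have hex : ∀ p, ∃ x : ∀ i, X i, p ∈ P0 → (x ∈ S ∧ T p x = x) := by
    intro p
    by_cases hp : p ∈ P0
    · obtain ⟨x, hx, hTx, _⟩ := vec_fixed hS hne (hT p hp) hK hv hκ0 hκ hKv (hlip p hp)
      exact ⟨x, fun _ => ⟨hx, hTx⟩⟩
    · obtain ⟨x, hx⟩ := hne
      exact ⟨x, fun h => absurd h hp⟩
  choose x hx using hex
  refine ⟨x, hx, ?_⟩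
  intro q hq
  rw [ContinuousWithinAt, tendsto_pi_nhds]
  intro i
  rw [Metric.tendsto_nhds]
  intro ε hε
  have h1κ : 0 < 1 - κ := by linarith
  -- choose `δ`
  set δ := ε / 2 * (1 - κ) / v i with hδ
  have hδ0 : 0 < δ := by
    have := hv i
    positivity
  have hev : ∀ j, ∀ᶠ p in 𝓝[P0] q, dist (T p (x q) j) (T q (x q) j) < δ * v j := by
    intro j
    have := hcont (x q) (hx q hq).1 j q hq
    exact (Metric.tendsto_nhds.1 this) (δ * v j) (mul_pos hδ0 (hv j))
  have hall : ∀ᶠ p in 𝓝[P0] q, ∀ j, dist (T p (x q) j) (T q (x q) j) < δ * v j :=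
    eventually_all.2 hev
  filter_upwards [hall, self_mem_nhdsWithin] with p hp hpP
  have he : ∀ j, dist (x p j) (x q j) ≤ ∑ k, K j k * dist (x p k) (x q k) + δ * v j := by
    intro j
    have h1 := hlip p hpP (x p) (hx p hpP).1 (x q) (hx q hq).1 j
    rw [(hx p hpP).2] at h1
    have h2 : dist (T p (x q) j) (x q j) < δ * v j := by
      have := hp j
      rwa [(hx q hq).2] at this
    calc dist (x p j) (x q j) ≤ dist (x p j) (T p (x q) j) + dist (T p (x q) j) (x q j) :=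
          dist_triangle _ _ _
      _ ≤ _ := add_le_add h1 h2.le
  have h5 := vec_compare hK hv hκ hKv (e := fun j => dist (x p j) (x q j)) hδ0.le he i
  have h6 : δ / (1 - κ) * v i = ε / 2 := by
    rw [hδ]
    have h7 := (hv i).ne'
    have h8 := h1κ.ne'
    field_simp
  rw [h6] at h5
  linarith

end frame

end Pool.Agent.SCH
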