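import Pool.Agent.MP_83fd13_an.SCH.WieD

set_option autoImplicit false

/-!
# Operators applied to sources with a sum of majorants (project SCH)
-/

noncomputable section

namespace Pool.Agent.SCH

open Set Filter Topology MeasureTheory

/-- the majorant `c1 s^p1 + cL s^pL (1 - s) + cH s^pH (1 - s^N)` -/
def maj3 (N p1 pL pH : ℕ) (c1 cL cH s : ℝ) : ℝ :=
  c1 * s ^ p1 + cL * (s ^ pL * (1 - s)) + cH * (s ^ pH * (1 - s ^ N))

theorem maj3_continuous (N p1 pL pH : ℕ) (c1 cL cH : ℝ) :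
    Continuous (maj3 N p1 pL pH c1 cL cH) := by unfold maj3; fun_prop

/-- the value of the functional on the majorant -/
def int3 (n N p1 pL pH : ℕ) (c1 cL cH : ℝ) : ℝ :=
  c1 / ((n : ℝ) + p1 + 2) + cL / (((n : ℝ) + pL + 2) * (n + pL + 3))
    + cH * N / (((n : ℝ) + pH + 2) * (n + pH + N + 2))

theorem integral_maj3 (n N p1 pL pH : ℕ) (c1 cL cH : ℝ) :
    ∫ s in (0:ℝ)..1, s ^ (n + 1) * maj3 N p1 pL pH c1 cL cH s = int3 n N p1 pL pH c1 cL cH := by
  have e : ∀ s : ℝ, s ^ (n + 1) * maj3 N p1 pL pH c1 cL cH s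
      = c1 * (s ^ (n + 1) * s ^ p1) + cL * (s ^ (n + 1) * s ^ pL - s ^ (n + 1) * s ^ (pL + 1))
        + cH * (s ^ (n + 1) * s ^ pH - s ^ (n + 1) * s ^ (pH + N)) := by
    intro s
    unfold maj3
    rw [pow_add s pL 1, pow_add s pH N, pow_one]
    ring
  simp_rw [e]
  have i : ∀ p : ℕ, IntervalIntegrable (fun s : ℝ => s ^ (n + 1) * s ^ p) volume 0 1 := fun p =>
    (by fun_prop : Continuous fun s : ℝ => s ^ (n + 1) * s ^ p).intervalIntegrable _ _
  rw [intervalIntegral.integral_add (((i p1).const_mul _).add (((i pL).sub (i (pL + 1))).const_mul _))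
      (((i pH).sub (i (pH + N))).const_mul _),
    intervalIntegral.integral_add ((i p1).const_mul _) (((i pL).sub (i (pL + 1))).const_mul _),
    intervalIntegral.integral_const_mul, intervalIntegral.integral_const_mul,
    intervalIntegral.integral_const_mul, intervalIntegral.integral_sub (i pL) (i (pL + 1)),
    intervalIntegral.integral_sub (i pH) (i (pH + N)), int_hi, int_hi, int_hi, int_hi, int_hi]
  unfold int3
  simp only [one_pow]
  push_cast
  have h1 : (n : ℝ) + pL + 2 ≠ 0 := by positivity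
  have h2 : (n : ℝ) + pL + 3 ≠ 0 := by positivity
  have h3 : (n : ℝ) + pH + 2 ≠ 0 := by positivity
  have h4 : (n : ℝ) + pH + N + 2 ≠ 0 := by positivity
  have h5 : (n : ℝ) + (pL + 1) + 2 = n + pL + 3 := by ring
  have h6 : (n : ℝ) + (pH + N) + 2 = n + pH + N + 2 := by ring
  rw [h5, h6]
  field_simp
  ring

section op

variable {n : ℕ} {M : ℝ} {f g : ℝ → ℝ}

theorem ii_of_bound {m : ℝ → ℝ} (hm : Continuous m) (hf : ContinuousOn f (Ioi 0))
    (hb : ∀ s : ℝ, 0 < s → s ≤ 1 → |f s| ≤ m s) {u v : ℝ} (hu : 0 ≤ u) (hv : 0 ≤ v) :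
    IntervalIntegrable (fun s : ℝ => s ^ (n + 1) * f s) volume u v := by
  obtain ⟨C, hC⟩ := (isCompact_Icc (a := (0:ℝ)) (b := 1)).bddAbove_image
    (hm.continuousOn (s := Icc 0 1))
  refine intervalIntegrable_of_bound (C := C) (cont_hi n hf) ?_ hu hv
  intro s hs hs1
  have h1 : m s ≤ C := hC ⟨s, ⟨hs.le, hs1⟩, rfl⟩
  rw [abs_mul, abs_of_nonneg (pow_nonneg hs.le _)]
  have h2 : s ^ (n + 1) ≤ 1 := pow_le_one₀ hs.le hs1
  calc s ^ (n + 1) * |f s| ≤ 1 * |f s| := mul_le_mul_of_nonneg_right h2 (abs_nonneg _)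
    _ ≤ C := by rw [one_mul]; exact (hb s hs hs1).trans h1

theorem int_abs_le_maj {m : ℝ → ℝ} (hm : Continuous m) (hf : ContinuousOn f (Ioi 0))
    (hb : ∀ s : ℝ, 0 < s → s ≤ 1 → |f s| ≤ m s) :
    |∫ s in (0:ℝ)..1, s ^ (n + 1) * f s| ≤ ∫ s in (0:ℝ)..1, s ^ (n + 1) * m s := by
  refine abs_int_le zero_le_one (ii_of_bound hm hf hb le_rfl zero_le_one)
    ((by fun_prop : Continuous fun s : ℝ => s ^ (n + 1) * m s).intervalIntegrable _ _) ?_
  intro s hs
  rw [abs_mul, abs_of_nonneg (pow_nonneg hs.1.le _)]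
  exact mul_le_mul_of_nonneg_left (hb s hs.1 hs.2) (pow_nonneg hs.1.le _)

/-- the functional rule with general continuous majorants -/
theorem Mj.int_maj {m m' : ℝ → ℝ} (hm : Continuous m) (hm' : Continuous m')
    (hf : ContinuousOn f (Ioi 0)) (hg : ContinuousOn g (Ioi 0))
    (H : ∀ s : ℝ, 0 < s → s ≤ 1 → Mj M (m s) (m' s) (f s) (g s)) :
    Mj M (∫ s in (0:ℝ)..1, s ^ (n + 1) * m s) (∫ s in (0:ℝ)..1, s ^ (n + 1) * m' s)
      (∫ s in (0:ℝ)..1, s ^ (n + 1) * f s) (∫ s in (0:ℝ)..1, s ^ (n + 1) * g s) := by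
  refine ⟨int_abs_le_maj hm hf fun s h1 h2 => (H s h1 h2).l,
    int_abs_le_maj hm hg fun s h1 h2 => (H s h1 h2).r, ?_⟩
  have e : (∫ s in (0:ℝ)..1, s ^ (n + 1) * f s) - (∫ s in (0:ℝ)..1, s ^ (n + 1) * g s)
      = ∫ s in (0:ℝ)..1, s ^ (n + 1) * (f s - g s) := by
    rw [← intervalIntegral.integral_sub
      (ii_of_bound hm hf (fun s h1 h2 => (H s h1 h2).l) le_rfl zero_le_one)
      (ii_of_bound hm hg (fun s h1 h2 => (H s h1 h2).r) le_rfl zero_le_one)]
    congr 1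
    funext s
    ring
  rw [e]
  refine (int_abs_le_maj (m := fun s => M * m' s) (continuous_const.mul hm') (hf.sub hg)
    fun s h1 h2 => (H s h1 h2).d).trans (le_of_eq ?_)
  rw [← intervalIntegral.integral_const_mul]
  congr 1
  funext s
  ring

/-- the functional rule with the three-term majorant -/
theorem Mj.int3 {N p1 pL pH : ℕ} {c1 cL cH d1 dL dH : ℝ}
    (hf : ContinuousOn f (Ioi 0)) (hg : ContinuousOn g (Ioi 0))
    (H : ∀ s : ℝ, 0 < s → s ≤ 1 →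
      Mj M (maj3 N p1 pL pH c1 cL cH s) (maj3 N p1 pL pH d1 dL dH s) (f s) (g s)) :
    Mj M (SCH.int3 n N p1 pL pH c1 cL cH) (SCH.int3 n N p1 pL pH d1 dL dH)
      (∫ s in (0:ℝ)..1, s ^ (n + 1) * f s) (∫ s in (0:ℝ)..1, s ^ (n + 1) * g s) := by
  have h := Mj.int_maj (n := n) (maj3_continuous N p1 pL pH c1 cL cH)
    (maj3_continuous N p1 pL pH d1 dL dH) hf hg H
  rwa [integral_maj3, integral_maj3] at h

/-! ### the kernel operator, sums of powers -/

/-- the value of the universal bound -/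
def KU (n N p : ℕ) (r : ℝ) : ℝ := r ^ (n - N) * (1 - r ^ N) / (N * ((n : ℝ) + p + 2))

theorem Gr_pow_le_KU {n p N : ℕ} (hN : 0 < N) (hNn : N ≤ n) (hp : n ≤ p + N) {r : ℝ}
    (hr : 0 < r) (hr1 : r ≤ 1) : Gr n (fun s => s ^ p) r ≤ KU n N p r := by
  have h := Gr_univ hN hNn hp (wt_pow p) hr hr1
  rw [one_mul] at h
  exact (le_abs_self _).trans h

/-- a source majorised by a sum of three powers -/
theorem Gr_abs_le_3 {N p q w : ℕ} (hN : 0 < N) (hNn : N ≤ n) (hp : n ≤ p + N) (hq : n ≤ q + N)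
    (hw : n ≤ w + N) {a b c : ℝ} (ha : 0 ≤ a) (hb : 0 ≤ b) (hc : 0 ≤ c)
    (hf : ContinuousOn f (Ioi 0))
    (H : ∀ s : ℝ, 0 < s → s ≤ 1 → |f s| ≤ a * s ^ p + b * s ^ q + c * s ^ w)
    {r : ℝ} (hr : 0 < r) (hr1 : r ≤ 1) :
    |Gr n f r| ≤ a * KU n N p r + b * KU n N q r + c * KU n N w r := by
  -- positivity of the operator: compare with the majorant
  have hfw : Wt 0 (a + b + c) f := ⟨hf, fun s hs hs1 => by
    rw [pow_zero, mul_one]
    refine (H s hs hs1).trans ?_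
    have h1 : s ^ p ≤ 1 := pow_le_one₀ hs.le hs1
    have h2 : s ^ q ≤ 1 := pow_le_one₀ hs.le hs1
    have h3 : s ^ w ≤ 1 := pow_le_one₀ hs.le hs1
    nlinarith⟩
  have wp : ∀ (k : ℕ) (d : ℝ), 0 ≤ d → Wt 0 d (fun s : ℝ => d * s ^ k) := fun k d hd =>
    ⟨by fun_prop, fun s hs hs1 => by
      rw [pow_zero, mul_one, abs_mul, abs_of_nonneg hd, abs_of_nonneg (pow_nonneg hs.le _)]
      have : s ^ k ≤ 1 := pow_le_one₀ hs.le hs1
      nlinarith⟩
  set m : ℝ → ℝ := fun s => a * s ^ p + b * s ^ q + c * s ^ w with hm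
  have hmw : Wt 0 (a + b + c) m := ⟨by rw [hm]; fun_prop, fun s hs hs1 => by
    have h1 : s ^ p ≤ 1 := pow_le_one₀ hs.le hs1
    have h2 : s ^ q ≤ 1 := pow_le_one₀ hs.le hs1
    have h3 : s ^ w ≤ 1 := pow_le_one₀ hs.le hs1
    have g1 : 0 ≤ s ^ p := pow_nonneg hs.le _
    have g2 : 0 ≤ s ^ q := pow_nonneg hs.le _
    have g3 : 0 ≤ s ^ w := pow_nonneg hs.le _
    rw [pow_zero, mul_one, hm, abs_of_nonneg (by positivity)]
    nlinarith⟩
  have hmono : |Gr n f r| ≤ Gr n m r := by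
    rw [Gr_split hfw hr, Gr_split hmw hr, abs_mul]
    have hn0 : (0:ℝ) ≤ 1 / (2 * (n : ℝ)) := by positivity
    rw [abs_of_nonneg hn0]
    have hpos1 : 0 ≤ (r ^ n)⁻¹ - r ^ n := by
      have h1 : r ^ n ≤ 1 := pow_le_one₀ hr.le hr1
      have h2 : 1 ≤ (r ^ n)⁻¹ := (one_le_inv₀ (pow_pos hr n)).2 h1
      linarith
    refine mul_le_mul_of_nonneg_left ?_ hn0
    refine (abs_add_le _ _).trans (add_le_add ?_ ?_)
    · rw [abs_mul, abs_of_nonneg hpos1]
      refine mul_le_mul_of_nonneg_left ?_ hpos1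
      refine abs_int_le hr.le (hfw.ii_hi n le_rfl hr.le) (hmw.ii_hi n le_rfl hr.le) ?_
      intro s hs
      rw [abs_mul, abs_of_nonneg (pow_nonneg hs.1.le _)]
      exact mul_le_mul_of_nonneg_left (H s hs.1 (hs.2.trans hr1)) (pow_nonneg hs.1.le _)
    · rw [abs_mul, abs_of_nonneg (pow_nonneg hr.le n)]
      refine mul_le_mul_of_nonneg_left ?_ (pow_nonneg hr.le n)
      have ii : ∀ {D : ℝ} {h : ℝ → ℝ}, Wt 0 D h →
          IntervalIntegrable (fun s => (s * (s ^ n)⁻¹ - s ^ (n + 1)) * h s) volume r 1 := by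
        intro D h hh
        have := (ii_lo_pos hh.cont n hr one_pos).sub (hh.ii_hi n hr.le zero_le_one)
        refine this.congr ?_
        intro s _
        ring
      refine abs_int_le hr1 (ii hfw) (ii hmw) ?_
      intro s hs
      have hs0 : 0 < s := hr.trans hs.1
      rw [abs_mul, abs_of_nonneg (lo_sub_hi_nonneg n hs0 hs.2)]
      exact mul_le_mul_of_nonneg_left (H s hs0 hs.2) (lo_sub_hi_nonneg n hs0 hs.2)
  have hsum : Gr n m r = a * Gr n (fun s => s ^ p) r + b * Gr n (fun s => s ^ q) r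
      + c * Gr n (fun s => s ^ w) r := by
    have h1 := Gr_add (n := n) (wp p a ha) (wp q b hb) hr
    have hpq : Wt 0 (a + b) (fun s : ℝ => a * s ^ p + b * s ^ q) := ⟨by fun_prop, fun s hs hs1 => by
      have h1 := (wp p a ha).bound s hs hs1
      have h2 := (wp q b hb).bound s hs hs1
      rw [pow_zero, mul_one] at h1 h2 ⊢
      exact (abs_add_le _ _).trans (add_le_add h1 h2)⟩
    have h2 := Gr_add (n := n) hpq (wp w c hc) hr
    rw [hm, h2, h1, Gr_smul, Gr_smul, Gr_smul]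
  rw [hsum] at hmono
  refine hmono.trans ?_
  have k1 := mul_le_mul_of_nonneg_left (Gr_pow_le_KU hN hNn hp hr hr1) ha
  have k2 := mul_le_mul_of_nonneg_left (Gr_pow_le_KU hN hNn hq hr hr1) hb
  have k3 := mul_le_mul_of_nonneg_left (Gr_pow_le_KU hN hNn hw hr hr1) hc
  linarith

/-- the kernel rule with a sum of three powers -/
theorem Mj.gr3 {N p q w : ℕ} (hN : 0 < N) (hNn : N ≤ n) (hp : n ≤ p + N) (hq : n ≤ q + N)
    (hw : n ≤ w + N) {a b c a' b' c' : ℝ} (ha : 0 ≤ a) (hb : 0 ≤ b) (hc : 0 ≤ c)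
    (ha' : 0 ≤ a') (hb' : 0 ≤ b') (hc' : 0 ≤ c') (hM : 0 ≤ M)
    (hf : ContinuousOn f (Ioi 0)) (hg : ContinuousOn g (Ioi 0))
    (H : ∀ s : ℝ, 0 < s → s ≤ 1 → Mj M (a * s ^ p + b * s ^ q + c * s ^ w)
      (a' * s ^ p + b' * s ^ q + c' * s ^ w) (f s) (g s))
    {r : ℝ} (hr : 0 < r) (hr1 : r ≤ 1) :
    Mj M (a * KU n N p r + b * KU n N q r + c * KU n N w r)
      (a' * KU n N p r + b' * KU n N q r + c' * KU n N w r) (Gr n f r) (Gr n g r) := by
  have bd : ∀ (h : ℝ → ℝ), ContinuousOn h (Ioi 0) →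
      (∀ s : ℝ, 0 < s → s ≤ 1 → |h s| ≤ a * s ^ p + b * s ^ q + c * s ^ w) → Wt 0 (a + b + c) h :=
    fun h hh H => ⟨hh, fun s hs hs1 => by
      rw [pow_zero, mul_one]
      refine (H s hs hs1).trans ?_
      have h1 : s ^ p ≤ 1 := pow_le_one₀ hs.le hs1
      have h2 : s ^ q ≤ 1 := pow_le_one₀ hs.le hs1
      have h3 : s ^ w ≤ 1 := pow_le_one₀ hs.le hs1
      nlinarith⟩
  refine ⟨Gr_abs_le_3 hN hNn hp hq hw ha hb hc hf (fun s h1 h2 => (H s h1 h2).l) hr hr1,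
    Gr_abs_le_3 hN hNn hp hq hw ha hb hc hg (fun s h1 h2 => (H s h1 h2).r) hr hr1, ?_⟩
  rw [Gr_sub' (bd f hf fun s h1 h2 => (H s h1 h2).l) (bd g hg fun s h1 h2 => (H s h1 h2).r) hr]
  refine (Gr_abs_le_3 (a := M * a') (b := M * b') (c := M * c') hN hNn hp hq hw
    (mul_nonneg hM ha') (mul_nonneg hM hb') (mul_nonneg hM hc') (hf.sub hg)
    (fun s h1 h2 => (H s h1 h2).d.trans (le_of_eq (by ring))) hr hr1).trans (le_of_eq (by ring))

end op

end Pool.Agent.SCH
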