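import Pool.Agent.MP_83fd13_an.SCH.RegB

/-!
# [SCH] the modes `y_k` at a fixed `ρ` (helper42): definitions and radial equations

`yy k` is a radial solution on `(0, ∞)` with source `ss k`; at a fixed point and for `r ∈ (0, 1]`,
`yy k r = VV k r + [k = 0] J_0(ρ r)`.
-/

set_option autoImplicit false

namespace SCHT

open MeasureTheory Set Filter Topology
open Pool.Agent.SCH SCHB SCHF SCHS

noncomputable section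

section point

variable (ρ α : ℝ) (φ : ℕ → ℝ) (V : ℕ → ℝ → ℝ)

/-- derivative of `XX` -/
def XX' (k : ℕ) (r : ℝ) : ℝ :=
  match k with
  | 0 => (φ 1 / 43) ^ 2 * Q0' J ρ r + α * (φ 1 / 43) * A0' J ρ r
  | 1 => φ 1 * PP' J ρ 42 r + α * (ρ * (J 41 (ρ * r) - J 43 (ρ * r)) / 2)
  | 2 => φ 2 * PP' J ρ 84 r + (φ 1 / 43) ^ 2 * Q2' J ρ r + α * (φ 1 / 43) * A2' J ρ r
  | k + 3 => φ (k + 3) * PP' J ρ (42 * (k + 3)) r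

/-- the explicit extra terms of the sources (without the factor `ρ²`) -/
def ex (k : ℕ) (r : ℝ) : ℝ :=
  match k with
  | 0 => (φ 1 / 43) ^ 2 * (43 ^ 2 * r ^ 84 * J 0 (ρ * r) - 43 * r ^ 84 * (ρ * r) * J 1 (ρ * r)) +
      α * (φ 1 / 43) * (86 * r ^ 42 * J 42 (ρ * r))
  | 1 => φ 1 * (r ^ 42 * J 0 (ρ * r))
  | 2 => φ 2 * (r ^ 84 * J 0 (ρ * r)) -
      (φ 1 / 43) ^ 2 * (43 / 2 * r ^ 84 * (ρ * r) * J 1 (ρ * r)) +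
      α * (φ 1 / 43) * (43 * r ^ 42 * J 42 (ρ * r))
  | k + 3 => φ (k + 3) * (r ^ (42 * (k + 3)) * J 0 (ρ * r))

/-- the singular kernel parts -/
def sv0 (r : ℝ) : ℝ := SV ρ (-1 / 4) (fun s => GG ρ α φ V 0 (cl s)) (fun s => V 0 (cl s)) r

def sv1 (r : ℝ) : ℝ := SV ρ (42 ^ 2 - 1 / 4) (fun s => GG ρ α φ V 1 (cl s)) (fun s => V 1 (cl s)) r

def sv0' (r : ℝ) : ℝ := SV' ρ (-1 / 4) (fun s => GG ρ α φ V 0 (cl s)) (fun s => V 0 (cl s)) r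

def sv1' (r : ℝ) : ℝ :=
  SV' ρ (42 ^ 2 - 1 / 4) (fun s => GG ρ α φ V 1 (cl s)) (fun s => V 1 (cl s)) r

/-- the modes -/
def yy (k : ℕ) (r : ℝ) : ℝ :=
  match k with
  | 0 => J 0 (ρ * r) + (XX ρ α φ 0 r + sv0 ρ α φ V r)
  | 1 => XX ρ α φ 1 r + sv1 ρ α φ V r
  | k + 2 => XX ρ α φ (k + 2) r + (-(XX ρ α φ (k + 2) 1) * r ^ (42 * (k + 2)) +
      ρ ^ 2 * Gr (42 * (k + 2)) (fun s => SS ρ α φ V (k + 2) (cl s)) r)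

/-- their derivatives -/
def yy' (k : ℕ) (r : ℝ) : ℝ :=
  match k with
  | 0 => -ρ * J 1 (ρ * r) + (XX' ρ α φ 0 r + sv0' ρ α φ V r)
  | 1 => XX' ρ α φ 1 r + sv1' ρ α φ V r
  | k + 2 => XX' ρ α φ (k + 2) r + (-(XX ρ α φ (k + 2) 1) *
      (((42 * (k + 2) : ℕ) : ℝ) * r ^ (42 * (k + 2)) / r) +
      ρ ^ 2 * Gr' (42 * (k + 2)) (fun s => SS ρ α φ V (k + 2) (cl s)) r)

/-- the sources -/
def ss (k : ℕ) (r : ℝ) : ℝ :=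
  match k with
  | 0 => ρ ^ 2 * J 0 (ρ * r) + (ρ ^ 2 * (XX ρ α φ 0 r + ex ρ α φ 0 r) +
      (ρ ^ 2 * (sv0 ρ α φ V r + GG ρ α φ V 0 (cl r)) -
        (-1 / 4) * (V 0 (cl r) - sv0 ρ α φ V r) / r ^ 2))
  | 1 => ρ ^ 2 * (XX ρ α φ 1 r + ex ρ α φ 1 r) +
      (ρ ^ 2 * (sv1 ρ α φ V r + GG ρ α φ V 1 (cl r)) -
        (42 ^ 2 - 1 / 4) * (V 1 (cl r) - sv1 ρ α φ V r) / r ^ 2)
  | k + 2 => ρ ^ 2 * (XX ρ α φ (k + 2) r + ex ρ α φ (k + 2) r) +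
      ρ ^ 2 * SS ρ α φ V (k + 2) (cl r)

end point

end

end SCHT
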