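import Pool.Agent.MP_83fd13_an.SCH.SrcId42

/-!
# [SCH] the source identity (helper42)
-/

set_option autoImplicit false

namespace SCHT

open MeasureTheory Set Filter Topology
open Pool.Agent.SCH SCHB SCHF SCHS SCHG SCHA

noncomputable section

variable {K th ρ α : ℝ} {φ : ℕ → ℝ} {V : ℕ → ℝ → ℝ}

theorem P1.summable_qr (H : P1 K th ρ α φ V) {r : ℝ} (h0 : 0 ≤ r) (h1 : r ≤ 1) (k : ℕ) :
    Summable fun j : ℕ => φ j * φ (j + k) * r ^ (42 * (2 * j + k)) := by
  have hth := H.th0.le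
  have hK := H.K0
  refine Summable.of_norm_bounded ((summable_geometric_of_lt_one hth H.th1).mul_left (K * K))
    fun j => ?_
  rw [Real.norm_eq_abs, abs_mul, abs_mul, abs_of_nonneg (pow_nonneg h0 _)]
  have e1 : r ^ (42 * (2 * j + k)) ≤ 1 := pow_le_one₀ h0 h1
  have e2 : |φ (j + k)| ≤ K := (H.bf (j + k)).trans
    (mul_le_of_le_one_right hK (pow_le_one₀ hth H.th1.le))
  calc |φ j| * |φ (j + k)| * r ^ (42 * (2 * j + k)) ≤ (K * th ^ j) * K * 1 :=
        mul_le_mul (mul_le_mul (H.bf j) e2 (abs_nonneg _) (by positivity)) e1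
          (pow_nonneg h0 _) (by positivity)
    _ = _ := by ring

theorem P1.MM_eq (H : P1 K th ρ α φ V) {r : ℝ} (h0 : 0 ≤ r) (h1 : r ≤ 1) (k : ℕ) :
    MM 42 φ k r = (if k = 0 then 1 else 0) + qq φ k r := by
  unfold MM qq qr
  rw [(H.summable_qr h0 h1 k).tsum_eq_zero_add]
  have e : (∑' b : ℕ, φ (b + 1) * φ (b + 1 + k) * r ^ (42 * (2 * (b + 1) + k))) =
      ∑' j : ℕ, φ (j + 1) * φ (j + 1 + k) * r ^ (42 * (2 * (j + 1) + k)) := rfl
  rw [e, H.f0]
  rcases eq_or_ne k 0 with rfl | hk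
  · simp [H.f0]
  · simp only [hk, if_false, zero_add, mul_zero, one_mul]

/-- `qr2` -/
theorem P1.qr_zero (H : P1 K th ρ α φ V) {r : ℝ} (h0 : 0 ≤ r) (h1 : r ≤ 1) :
    qr φ 0 r = φ 1 * φ 1 * r ^ 84 + qr2 φ r := by
  unfold qr qr2
  have h := (summable_nat_add_iff 1).2 (H.summable_qr h0 h1 0)
  rw [h.tsum_eq_zero_add]
  congr 1

/-- the right hand sides -/
def rhs (ρ α : ℝ) (φ : ℕ → ℝ) (V : ℕ → ℝ → ℝ) (k : ℕ) (r : ℝ) : ℝ :=
  (if k = 0 then J 0 (ρ * r) else 0) + VV ρ α φ V k r + ex ρ α φ k r + GG ρ α φ V k r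

variable (H : P1 K th ρ α φ V)
include H

/-- the convolution -/
theorem P1.conv {r : ℝ} (h0 : 0 ≤ r) (h1 : r ≤ 1) (k : ℕ) :
    ∑' i : ℤ, MM 42 φ i.natAbs r * (VV ρ α φ V ((k : ℤ) - i).natAbs r +
      if ((k : ℤ) - i).natAbs = 0 then J 0 (ρ * r) else 0) = rhs ρ α φ V k r := by
  have hth := H.th0.le
  have hK := H.K0
  have hcl : cl r = r := cl_of_mem h0 h1
  have hq : ∀ i, |MM 42 φ i r| ≤ (1 + K) * th ^ i := by
    intro i
    rw [H.MM_eq h0 h1]
    have hb := H.bqq i r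
    rw [hcl] at hb
    have h2 : |qq φ i r| ≤ K * th ^ i :=
      hb.trans (mul_le_of_le_one_right (by positivity) (pow_le_one₀ h0 h1))
    refine (abs_add_le _ _).trans ?_
    rcases eq_or_ne i 0 with rfl | hi
    · simp only [if_true, abs_one, pow_zero, mul_one] at h2 ⊢
      linarith
    · simp only [hi, if_false, abs_zero, zero_add]
      refine h2.trans (mul_le_mul_of_nonneg_right (by linarith) (by positivity))
  have hqs : Summable fun i => |MM 42 φ i r| :=
    Summable.of_nonneg_of_le (fun _ => abs_nonneg _) hq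
      ((summable_geometric_of_lt_one hth H.th1).mul_left _)
  have hu : ∀ j : ℕ, |VV ρ α φ V j r + if j = 0 then J 0 (ρ * r) else 0| ≤ K + 1 := by
    intro j
    have hb := H.bVV j r
    rw [hcl] at hb
    have h2 : |VV ρ α φ V j r| ≤ K := hb.trans ((mul_le_of_le_one_right (by positivity)
      (pow_le_one₀ h0 h1)).trans (mul_le_of_le_one_right hK (pow_le_one₀ hth H.th1.le)))
    refine (abs_add_le _ _).trans (add_le_add h2 ?_)
    split_ifs
    · exact abs_J_le_one 0 _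
    · simp
  rw [conv_split (u := fun j => VV ρ α φ V j r + if j = 0 then J 0 (ρ * r) else 0) hqs hu k]
  have m0 : MM 42 φ 0 r = 1 + qq φ 0 r := by simpa using H.MM_eq h0 h1 0
  have mS : ∀ j, MM 42 φ (j + 1) r = qq φ (j + 1) r := fun j => by
    simpa using H.MM_eq h0 h1 (j + 1)
  have qS : ∀ j, qq φ (j + 1) r = φ (j + 1) * r ^ (42 * (j + 1)) + qr φ (j + 1) r := fun j => by
    unfold qq; simp
  have q0 : qq φ 0 r = qr φ 0 r := by unfold qq; simp
  have sm : ∀ a b, Summable fun m => qq φ (m + a) r * VV ρ α φ V (m + b) r := by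
    intro a b
    have := H.sqV a b r
    rwa [hcl] at this
  have S0 : ∀ j, (VV ρ α φ V (j + 1) r + if j + 1 = 0 then J 0 (ρ * r) else 0) =
      VV ρ α φ V (j + 1) r := fun j => by simp
  match k with
  | 0 =>
    have e1 : (∑' m : ℕ, (MM 42 φ (0 + m + 1) r * (VV ρ α φ V (m + 1) r +
        if m + 1 = 0 then J 0 (ρ * r) else 0) + MM 42 φ (m + 1) r *
        (VV ρ α φ V (0 + m + 1) r + if 0 + m + 1 = 0 then J 0 (ρ * r) else 0))) =
        2 * (qq φ 1 r * VV ρ α φ V 1 r + ∑' m : ℕ, qq φ (m + 2) r * VV ρ α φ V (m + 2) r) := by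
      rw [← (sm 1 1).tsum_eq_zero_add (f := fun m => qq φ (m + 1) r * VV ρ α φ V (m + 1) r),
        ← tsum_mul_left]
      refine tsum_congr fun m => ?_
      simp only [zero_add, S0, mS]
      ring
    rw [e1]
    simp only [zero_add, Finset.sum_range_one, Nat.sub_zero, if_true, m0, rhs]
    have h2 : VV ρ α φ V 1 r = XX ρ α φ 1 r + V 1 r := rfl
    have h3 := H.qr_zero h0 h1
    have h4 := qS 0
    simp only [zero_add, mul_one] at h4
    simp only [GG, ex]
    rw [h4, q0]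
    generalize (∑' m : ℕ, qq φ (m + 2) r * VV ρ α φ V (m + 2) r) = T
    generalize VV ρ α φ V 0 r = W0 at *
    rw [h3]
    have h5 : XX ρ α φ 1 r = φ 1 * (-(r ^ 42 * (ρ * r / 2) * J 1 (ρ * r)) / 43) +
        α * J 42 (ρ * r) := by
      simp only [XX, PP]
      norm_num
    have h6 : φ 1 * r ^ 42 * VV ρ α φ V 1 r = φ 1 * r ^ 42 * XX ρ α φ 1 r +
        φ 1 * r ^ 42 * V 1 r := by rw [h2]; ring
    have h7 : 2 * ((φ 1 * r ^ 42 + qr φ 1 r) * VV ρ α φ V 1 r + T) =
        2 * (φ 1 * r ^ 42 * XX ρ α φ 1 r) + 2 * (φ 1 * r ^ 42 * V 1 r) +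
        2 * (qr φ 1 r * VV ρ α φ V 1 r) + 2 * T := by
      linear_combination 2 * h6
    rw [h7, h5]
    ring
  | 1 =>
    have e1 : (∑' m : ℕ, (MM 42 φ (1 + m + 1) r * (VV ρ α φ V (m + 1) r +
        if m + 1 = 0 then J 0 (ρ * r) else 0) + MM 42 φ (m + 1) r *
        (VV ρ α φ V (1 + m + 1) r + if 1 + m + 1 = 0 then J 0 (ρ * r) else 0))) =
        ∑' m : ℕ, (qq φ (m + 2) r * VV ρ α φ V (m + 1) r +
          qq φ (m + 1) r * VV ρ α φ V (m + 2) r) := by
      refine tsum_congr fun m => ?_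
      rw [show 1 + m + 1 = m + 1 + 1 by ring]
      simp only [S0, mS]
    rw [e1]
    simp only [Finset.sum_range_succ, Finset.sum_range_zero, zero_add, Nat.sub_zero, m0, rhs,
      one_ne_zero, if_false, Nat.sub_self, if_true, add_zero]
    have h4 := qS 0
    have h5 := mS 0
    simp only [zero_add, mul_one] at h4 h5
    simp only [GG, ex]
    rw [h5]
    linear_combination J 0 (ρ * r) * h4
  | 2 =>
    have e1 : (∑' m : ℕ, (MM 42 φ (2 + m + 1) r * (VV ρ α φ V (m + 1) r +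
        if m + 1 = 0 then J 0 (ρ * r) else 0) + MM 42 φ (m + 1) r *
        (VV ρ α φ V (2 + m + 1) r + if 2 + m + 1 = 0 then J 0 (ρ * r) else 0))) =
        ∑' m : ℕ, (qq φ (m + 3) r * VV ρ α φ V (m + 1) r +
          qq φ (m + 1) r * VV ρ α φ V (m + 3) r) := by
      refine tsum_congr fun m => ?_
      rw [show 2 + m + 1 = m + 2 + 1 by ring]
      simp only [S0, mS]
    rw [e1]
    simp only [Finset.sum_range_succ, Finset.sum_range_zero, zero_add, Nat.sub_zero, m0, rhs,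
      Nat.sub_self, if_true, add_zero, show (2:ℕ) ≠ 0 by norm_num, if_false, Nat.add_one_sub_one,
      one_ne_zero]
    have h4 := qS 0
    have h5 := mS 0
    have h6 := qS 1
    have h7 := mS 1
    simp only [zero_add, mul_one, Nat.reduceAdd, Nat.reduceMul] at h4 h5 h6 h7
    simp only [GG, ex]
    have h2 : VV ρ α φ V 1 r = XX ρ α φ 1 r + V 1 r := rfl
    have h8 : XX ρ α φ 1 r = φ 1 * (-(r ^ 42 * (ρ * r / 2) * J 1 (ρ * r)) / 43) +
        α * J 42 (ρ * r) := by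
      simp only [XX, PP]
      norm_num
    have h9 : φ 1 * r ^ 42 * VV ρ α φ V 1 r = φ 1 * r ^ 42 * XX ρ α φ 1 r +
        φ 1 * r ^ 42 * V 1 r := by rw [h2]; ring
    rw [h5, h7]
    rw [h8] at h9
    linear_combination J 0 (ρ * r) * h6 + VV ρ α φ V 1 r * h4 + h9
  | k + 3 =>
    have e1 : (∑' m : ℕ, (MM 42 φ (k + 3 + m + 1) r * (VV ρ α φ V (m + 1) r +
        if m + 1 = 0 then J 0 (ρ * r) else 0) + MM 42 φ (m + 1) r *
        (VV ρ α φ V (k + 3 + m + 1) r + if k + 3 + m + 1 = 0 then J 0 (ρ * r) else 0))) =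
        ∑' m : ℕ, (qq φ (k + m + 4) r * VV ρ α φ V (m + 1) r +
          qq φ (m + 1) r * VV ρ α φ V (k + m + 4) r) := by
      refine tsum_congr fun m => ?_
      rw [show k + 3 + m + 1 = k + m + 3 + 1 by ring]
      simp only [S0, mS]
    rw [e1]
    rw [Finset.sum_range_succ, Finset.sum_range_succ']
    simp only [Nat.sub_zero, m0, rhs, Nat.sub_self, if_true, show k + 3 ≠ 0 by omega, if_false,
      add_zero, zero_add]
    have e2 : (∑ i ∈ Finset.range (k + 2), MM 42 φ (i + 1) r *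
        (VV ρ α φ V (k + 3 - (i + 1)) r + if k + 3 - (i + 1) = 0 then J 0 (ρ * r) else 0)) =
        ∑ i ∈ Finset.range (k + 2), qq φ (i + 1) r * VV ρ α φ V (k + 2 - i) r := by
      refine Finset.sum_congr rfl fun i hi => ?_
      have hi' := Finset.mem_range.1 hi
      rw [mS, show k + 3 - (i + 1) = k + 2 - i by omega, if_neg (by omega), add_zero]
    rw [e2, mS (k + 2)]
    have h4 := qS (k + 2)
    simp only [GG, ex]
    rw [show k + 2 + 1 = k + 3 by ring] at h4 ⊢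
    linear_combination J 0 (ρ * r) * h4

variable (F : Q1 ρ α φ V)
include F

omit H in
/-- the sources at a fixed point -/
theorem Q1.ss_eq (k : ℕ) {r : ℝ} (h0 : 0 < r) (h1 : r ≤ 1) :
    ss ρ α φ V k r = ρ ^ 2 * rhs ρ α φ V k r := by
  have hcl : cl r = r := cl_of_mem h0.le h1
  match k with
  | 0 =>
    have h := F.eV 0 r h0 h1
    have h2 : sv0 ρ α φ V r = V 0 r := by
      rw [h]; rfl
    simp only [ss, rhs, if_true, hcl, h2, sub_self, mul_zero, zero_div, VV, RR]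
    ring
  | 1 =>
    have h := F.eV 1 r h0 h1
    have h2 : sv1 ρ α φ V r = V 1 r := by
      rw [h]; rfl
    simp only [ss, rhs, one_ne_zero, if_false, hcl, h2, sub_self, mul_zero, zero_div, VV, RR]
    ring
  | k + 2 =>
    simp only [ss, rhs, show k + 2 ≠ 0 by omega, if_false, hcl, SS, VV]
    ring

/-- **(3) the source identity** -/
theorem Q1.hsrc (k : ℕ) {r : ℝ} (h0 : 0 < r) (h1 : r ≤ 1) : ss ρ α φ V k r =
    ρ ^ 2 * ∑' i : ℤ, MM 42 φ i.natAbs r * yy ρ α φ V ((k : ℤ) - i).natAbs r := by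
  rw [F.ss_eq k h0 h1, ← H.conv h0.le h1 k]
  congr 1
  refine tsum_congr fun i => ?_
  rw [F.yy_eq _ h0 h1]

end

end SCHT
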